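import Pool.Agent.H636R2.SM.Spec
import Pool.Agent.KX.L_wf_split
import Pool.Agent.HypVol.L_card_layer
import Pool.Agent.HypVol.L_shp_lower
import Pool.Agent.HypVol.L_TP_prob
open MeasureTheory Real ProbabilityTheory
open scoped ENNReal BigOperators

/-! FAMA: family of functions, one layer -/

namespace SmSm
open HypVol MWidth HypVol.Sol_KX_wf_split

theorem fama_chi {d : ℕ} (k : Fin d → ℤ) (x : Fin d → ℝ) : chi k x = wchr k x := rfl

theorem fama_layer_neg {d μ : ℕ} {k : Fin d → ℤ} (hk : k ∈ layer d μ) : -k ∈ layer d μ := by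
  rw [wlayer_iff] at hk ⊢
  rw [hk]
  unfold wN
  refine Finset.sum_congr rfl fun j _ => ?_
  rw [Pi.neg_apply, Int.natAbs_neg]

theorem fama_chi_neg {d : ℕ} (k : Fin d → ℤ) (x : Fin d → ℝ) :
    (starRingEnd ℂ) (chi k x) = chi (-k) x := by
  rw [fama_chi, wchr_conj]
  rfl

theorem fama_Fh_conj {d : ℕ} (r : ℝ) (α : Fin d → ℝ) (k : Fin d → ℤ) :
    (starRingEnd ℂ) (Fh r α k) = Fh r α (-k) := by
  unfold Fh
  rw [map_prod]
  refine Finset.prod_congr rfl fun j _ => ?_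
  have h1 : (-k) j = -(k j) := rfl
  rw [h1]
  by_cases h : k j = 0
  · simp [h]
  · have h2 : -(k j) ≠ 0 := neg_ne_zero.2 h
    rw [if_neg h, if_neg h2, map_mul, ← Complex.exp_conj, map_neg, map_mul, Complex.conj_I,
      Complex.conj_ofReal, Complex.conj_ofReal]
    congr 2
    · push_cast
      rw [abs_neg]
    · rw [Left.sign_neg]
      push_cast
      ring

theorem fama_ker {d : ℕ} (μ : ℕ) (r : ℝ) (α x : Fin d → ℝ) :
    ((ker μ r α x : ℝ) : ℂ) = ∑ k ∈ layer d μ, Fh r α k * chi k x := by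
  unfold ker
  push_cast
  have h1 : ∀ z : ℂ, ((z.re : ℝ) : ℂ) = (z + (starRingEnd ℂ) z) / 2 := by
    intro z
    rw [Complex.add_conj]
    push_cast
    ring
  simp only [h1]
  rw [← Finset.sum_div, Finset.sum_add_distrib]
  have h2 : ∑ k ∈ layer d μ, (starRingEnd ℂ) (Fh r α k * chi k x) =
      ∑ k ∈ layer d μ, Fh r α k * chi k x := by
    refine Finset.sum_nbij' (fun k => -k) (fun k => -k) (fun k hk => fama_layer_neg hk)
      (fun k hk => fama_layer_neg hk) (fun k _ => neg_neg k) (fun k _ => neg_neg k)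
      fun k _ => ?_
    rw [map_mul, fama_Fh_conj, fama_chi_neg]
  rw [h2]
  ring

theorem fama_chi_sub {d : ℕ} (k : Fin d → ℤ) (x u : Fin d → ℝ) :
    chi k (x - u) = chi k (-u) * chi k x := by
  unfold chi
  rw [← Complex.exp_add, ← mul_add, ← Complex.ofReal_add, ← Finset.sum_add_distrib]
  congr 3
  refine Finset.sum_congr rfl fun j _ => ?_
  simp only [Pi.sub_apply, Pi.neg_apply]
  ring

theorem fama_fc_chi {d : ℕ} (k l : Fin d → ℤ) :
    ∫ x, chi l x * Complex.exp (-(Complex.I * ((∑ j, (k j : ℝ) * x j : ℝ) : ℂ))) ∂(TP d) =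
      if l = k then 1 else 0 := by
  have h := wfc (chi l) k
  unfold fc at h
  rw [h]
  simp only [fama_chi, ← wchr_add]
  rw [wchr_int]
  congr 1
  exact propext ⟨fun h => by rwa [← sub_eq_add_neg, sub_eq_zero] at h, fun h => by rw [h]; simp⟩

theorem fama_fc_sum {d : ℕ} (Λ : Finset (Fin d → ℤ)) (c : (Fin d → ℤ) → ℂ) (k : Fin d → ℤ) :
    fc (fun x => ∑ l ∈ Λ, c l * chi l x) k = if k ∈ Λ then c k else 0 := by
  have := TP_prob d
  unfold fc
  have h1 : ∀ x : Fin d → ℝ, (∑ l ∈ Λ, c l * chi l x) *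
      Complex.exp (-(Complex.I * ((∑ j, (k j : ℝ) * x j : ℝ) : ℂ))) =
      ∑ l ∈ Λ, c l * (chi l x *
        Complex.exp (-(Complex.I * ((∑ j, (k j : ℝ) * x j : ℝ) : ℂ)))) := by
    intro x
    rw [Finset.sum_mul]
    exact Finset.sum_congr rfl fun l _ => mul_assoc _ _ _
  simp only [h1]
  rw [integral_finsetSum]
  · simp only [integral_const_mul, fama_fc_chi]
    simp
  · intro l _
    refine Integrable.const_mul ?_ _
    refine Integrable.of_bound (C := 1) ?_ ?_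
    · refine Continuous.aestronglyMeasurable ?_
      unfold chi
      fun_prop
    · refine Filter.Eventually.of_forall fun x => ?_
      rw [norm_mul, fama_chi, wchr_norm, ← wchr_neg, wchr_norm, one_mul]

theorem fama_fc {d M : ℕ} (μ : ℕ) (r : ℝ) (α : Fin d → ℝ) (u : Fin M → Fin d → ℝ)
    (k : Fin d → ℤ) :
    fc (fun x => ((∑ i, ker μ r α (x - u i) : ℝ) : ℂ)) k =
      if k ∈ layer d μ then Fh r α k * ∑ i, chi k (-(u i)) else 0 := by
  rw [← fama_fc_sum (layer d μ) (fun k => Fh r α k * ∑ i, chi k (-(u i))) k]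
  congr 1
  funext x
  push_cast
  simp only [fama_ker, fama_chi_sub]
  rw [Finset.sum_comm]
  refine Finset.sum_congr rfl fun l _ => ?_
  rw [Finset.mul_sum, Finset.sum_mul]
  refine Finset.sum_congr rfl fun i _ => ?_
  ring

theorem fama_Fh_inv {d : ℕ} (r : ℝ) (α : Fin d → ℝ) (k : Fin d → ℤ) :
    Fh r α k * Fh (-r) (-α) k = 1 := by
  unfold Fh
  rw [← Finset.prod_mul_distrib]
  refine Finset.prod_eq_one fun j _ => ?_
  by_cases h : k j = 0
  · simp [h]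
  · have h0 : (0 : ℝ) < |(k j : ℝ)| := abs_pos.2 (by exact_mod_cast h)
    rw [if_neg h, if_neg h, mul_mul_mul_comm, ← Complex.ofReal_mul, ← Real.rpow_add h0,
      ← Complex.exp_add]
    have h1 : -r + - -r = 0 := by ring
    rw [h1, Real.rpow_zero]
    have h2 : -(Complex.I * ((((SignType.sign (k j) : ℤ) : ℝ) * α j * π / 2 : ℝ) : ℂ)) +
        -(Complex.I * ((((SignType.sign (k j) : ℤ) : ℝ) * (-α) j * π / 2 : ℝ) : ℂ)) = 0 := by
      simp only [Pi.neg_apply]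
      push_cast
      ring
    rw [h2]
    simp

theorem fama_Fh_zero {d : ℕ} (k : Fin d → ℤ) : Fh (d := d) 0 0 k = 1 := by
  unfold Fh
  refine Finset.prod_eq_one fun j _ => ?_
  by_cases h : k j = 0 <;> simp [h]

theorem fama_ker_zero {d : ℕ} (μ : ℕ) : ker (d := d) μ 0 0 0 = (layer d μ).card := by
  unfold ker
  have h : ∀ k ∈ layer d μ, (Fh (d := d) 0 0 k * chi k 0).re = 1 := by
    intro k _
    rw [fama_Fh_zero]
    unfold chi
    simp
  rw [Finset.sum_congr rfl h]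
  simp

theorem fama_ker_cont {d : ℕ} (μ : ℕ) (r : ℝ) (α : Fin d → ℝ) : Continuous (ker μ r α) := by
  unfold ker chi
  fun_prop

theorem fama_ker_bound {d : ℕ} (μ : ℕ) (r : ℝ) (α : Fin d → ℝ) (x : Fin d → ℝ) :
    |ker μ r α x| ≤ ∑ k ∈ layer d μ, ‖Fh r α k‖ := by
  unfold ker
  refine (Finset.abs_sum_le_sum_abs _ _).trans (Finset.sum_le_sum fun k _ => ?_)
  refine (Complex.abs_re_le_norm _).trans ?_
  rw [norm_mul, fama_chi, wchr_norm, mul_one]

theorem fama_ker_per {d : ℕ} (μ : ℕ) (r : ℝ) (α : Fin d → ℝ) (x u : Fin d → ℝ) (l : Fin d) :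
    ker μ r α (Function.update x l (x l + 2 * π) - u) = ker μ r α (x - u) := by
  unfold ker
  refine Finset.sum_congr rfl fun k _ => ?_
  have h : chi k (Function.update x l (x l + 2 * π) - u) = chi k (x - u) := by
    unfold chi
    have h1 : ∑ j, (k j : ℝ) * (Function.update x l (x l + 2 * π) - u) j =
        ∑ j, (k j : ℝ) * (x - u) j + (k l : ℝ) * (2 * π) := by
      have h2 : ∀ j, (k j : ℝ) * (Function.update x l (x l + 2 * π) - u) j =
          (k j : ℝ) * (x - u) j + if j = l then (k l : ℝ) * (2 * π) else 0 := by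
        intro j
        by_cases hj : j = l
        · subst hj
          simp only [Pi.sub_apply, Function.update_self, if_true]
          ring
        · simp only [Pi.sub_apply, Function.update_of_ne hj, if_neg hj, add_zero]
      simp only [h2]
      rw [Finset.sum_add_distrib, Finset.sum_ite_eq' Finset.univ l]
      simp
    rw [h1]
    have h3 : Complex.I * ((∑ j, (k j : ℝ) * (x - u) j + (k l : ℝ) * (2 * π) : ℝ) : ℂ) =
        Complex.I * ((∑ j, (k j : ℝ) * (x - u) j : ℝ) : ℂ) +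
          (k l : ℂ) * (2 * (π : ℂ) * Complex.I) := by
      push_cast
      ring
    rw [h3, Complex.exp_add, Complex.exp_int_mul_two_pi_mul_I, mul_one]
  rw [h]

theorem fama_markov {Ω : Type} [Fintype Ω] {d : ℕ} (g : Ω → (Fin d → ℝ) → ℝ) (B C0 : ℝ) (j : ℕ)
    (hc : ∀ X, Continuous (g X)) (hb : ∀ X x, |g X x| ≤ B) (hC0 : 0 < C0)
    (h : ∀ x, ∑ X, (g X x) ^ (2 * j) ≤ C0 * (Fintype.card Ω)) :
    (9 / 10 : ℝ) * (Fintype.card Ω : ℝ) ≤
      ((Finset.univ.filter fun X => ∫ x, (g X x) ^ (2 * j) ∂(TP d) ≤ 10 * C0).card : ℝ) := by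
  have := TP_prob d
  have hint : ∀ X, Integrable (fun x => (g X x) ^ (2 * j)) (TP d) := by
    intro X
    refine Integrable.of_bound (C := B ^ (2 * j)) ((hc X).pow _).aestronglyMeasurable
      (Filter.Eventually.of_forall fun x => ?_)
    rw [Real.norm_eq_abs, abs_pow]
    exact pow_le_pow_left₀ (abs_nonneg _) (hb X x) _
  have h1 : ∑ X, ∫ x, (g X x) ^ (2 * j) ∂(TP d) ≤ C0 * (Fintype.card Ω) := by
    rw [← integral_finsetSum _ fun X _ => hint X]
    have h2 : ∫ _x : Fin d → ℝ, C0 * (Fintype.card Ω : ℝ) ∂(TP d) = C0 * (Fintype.card Ω) := by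
      simp
    rw [← h2]
    exact integral_mono (integrable_finsetSum _ fun X _ => hint X) (integrable_const _) h
  have hpos : ∀ X, 0 ≤ ∫ x, (g X x) ^ (2 * j) ∂(TP d) := fun X =>
    integral_nonneg fun x => (even_two_mul j).pow_nonneg _
  have h3 : (10 * C0) * ((Finset.univ.filter fun X =>
      ¬ ∫ x, (g X x) ^ (2 * j) ∂(TP d) ≤ 10 * C0).card : ℝ) ≤ C0 * (Fintype.card Ω) := by
    refine le_trans ?_ h1
    refine le_trans ?_ (Finset.sum_le_sum_of_subset_of_nonneg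
      (Finset.filter_subset (fun X => ¬ ∫ x, (g X x) ^ (2 * j) ∂(TP d) ≤ 10 * C0) Finset.univ)
      fun X _ _ => hpos X)
    rw [mul_comm, ← nsmul_eq_mul]
    refine Finset.card_nsmul_le_sum _ _ _ fun X hX => ?_
    exact (not_le.1 (Finset.mem_filter.1 hX).2).le
  have h4 := Finset.card_filter_add_card_filter_not (s := (Finset.univ : Finset Ω))
    (fun X => ∫ x, (g X x) ^ (2 * j) ∂(TP d) ≤ 10 * C0)
  rw [Finset.card_univ] at h4
  have h5 : ((Finset.univ.filter fun X => ∫ x, (g X x) ^ (2 * j) ∂(TP d) ≤ 10 * C0).card : ℝ) +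
      ((Finset.univ.filter fun X => ¬ ∫ x, (g X x) ^ (2 * j) ∂(TP d) ≤ 10 * C0).card : ℝ) =
      (Fintype.card Ω : ℝ) := by exact_mod_cast h4
  have h6 : 10 * ((Finset.univ.filter fun X =>
      ¬ ∫ x, (g X x) ^ (2 * j) ∂(TP d) ≤ 10 * C0).card : ℝ) ≤ (Fintype.card Ω) := by
    have h7 := (mul_le_mul_iff_of_pos_left hC0 (b := 10 * ((Finset.univ.filter fun X =>
      ¬ ∫ x, (g X x) ^ (2 * j) ∂(TP d) ≤ 10 * C0).card : ℝ)) (c := (Fintype.card Ω : ℝ))).1
    apply h7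
    linarith
  linarith

theorem fama_ev (k : ℕ) : ∃ n0 : ℕ, ∀ n ≥ n0, (n + 1) ^ k ≤ 2 ^ n := by
  have h1 := (tendsto_pow_const_div_const_pow_of_one_lt k (one_lt_two : (1 : ℝ) < 2)).comp
    (Filter.tendsto_add_atTop_nat 1)
  have h2 := h1.eventually (gt_mem_nhds (show (0 : ℝ) < 1 / 2 by norm_num))
  obtain ⟨n0, hn0⟩ := Filter.eventually_atTop.1 h2
  refine ⟨n0, fun n hn => ?_⟩
  have h3 := hn0 n hn
  simp only [Function.comp] at h3
  rw [div_lt_iff₀ (by positivity), pow_succ] at h3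
  have h4 : (((n + 1) ^ k : ℕ) : ℝ) < ((2 ^ n : ℕ) : ℝ) := by
    push_cast at h3 ⊢
    linarith
  exact_mod_cast h4.le

theorem fama_card (d m : ℕ) : (Fintype.card (GG d m) : ℝ) = ((2:ℝ)^(m+2))^d := by
  simp

/-- the numbers of the construction -/
theorem fama_num (d : ℕ) (hd : 3 ≤ d) (a CK cs : ℝ) (ha : 0 < a) (hCK : 0 < CK) (hcs : 0 < cs)
    (hs : ∀ n : ℕ, 1 ≤ n → cs * (n:ℝ)^(d-1) ≤ shp d n) :
    ∃ μ0 : ℕ, ∀ μ : ℕ, μ0 ≤ μ → 1 ≤ μ ∧ ∃ M : ℕ, 1 ≤ M ∧ (M:ℝ) * ((μ:ℝ)+1)^(d-1) ≤ 2^μ ∧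
      0 < ((layer d μ).card : ℝ) ∧
      200 ≤ a * μ / ((layer d μ).card : ℝ) * ((layer d μ).card : ℝ) ∧
      CK * (a * μ / ((layer d μ).card : ℝ))^2 * ((layer d μ).card : ℝ) ≤
        a * μ / ((layer d μ).card : ℝ) * ((layer d μ).card : ℝ) / (16 * M) ∧
      min (a / 400) (cs / 2^d) * 2^μ / ((μ:ℝ)+1)^(d-2) ≤
        a * μ / ((layer d μ).card : ℝ) * ((layer d μ).card : ℝ) * M / 100 ∧
      min (a / 400) (cs / 2^d) * 2^μ * ((μ:ℝ)+1)^(d-1) ≤ ((layer d μ).card : ℝ) / 2 := by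
  obtain ⟨n0, hn0⟩ := fama_ev (d - 1)
  refine ⟨max n0 (max ⌈200 / a⌉₊ (max ⌈16 * CK * a⌉₊ 1)), fun μ hμ => ?_⟩
  have m1 : n0 ≤ μ := le_trans (le_max_left _ _) hμ
  have m2 : ⌈200 / a⌉₊ ≤ μ := le_trans (le_trans (le_max_left _ _) (le_max_right _ _)) hμ
  have m3 : ⌈16 * CK * a⌉₊ ≤ μ := le_trans (le_trans (le_trans (le_max_left _ _)
    (le_max_right _ _)) (le_max_right _ _)) hμ
  have m4 : 1 ≤ μ := le_trans (le_trans (le_trans (le_max_right _ _)
    (le_max_right _ _)) (le_max_right _ _)) hμ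
  have r2 : 200 / a ≤ μ := (Nat.le_ceil _).trans (by exact_mod_cast m2)
  have r3 : 16 * CK * a ≤ μ := (Nat.le_ceil _).trans (by exact_mod_cast m3)
  have r4 : (1:ℝ) ≤ μ := by exact_mod_cast m4
  have hD : 0 < (μ + 1) ^ (d - 1) := by positivity
  have hN : ((layer d μ).card : ℝ) = 2^μ * (shp d μ : ℝ) := by
    rw [card_layer]
    push_cast
    rfl
  have hsp : 0 < (shp d μ : ℝ) := lt_of_lt_of_le (by positivity) (hs μ m4)
  have hs1 : (1:ℝ) ≤ (shp d μ : ℝ) := by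
    have : 0 < shp d μ := by exact_mod_cast hsp
    exact_mod_cast this
  have hN0 : 0 < ((layer d μ).card : ℝ) := by
    rw [hN]
    positivity
  have hN2 : (2:ℝ)^μ ≤ ((layer d μ).card : ℝ) := by
    rw [hN]
    exact le_mul_of_one_le_right (by positivity) hs1
  have hθκ : a * μ / ((layer d μ).card : ℝ) * ((layer d μ).card : ℝ) = a * μ :=
    div_mul_cancel₀ _ hN0.ne'
  have hM1 : 1 ≤ 2 ^ μ / (μ + 1) ^ (d - 1) := Nat.div_pos (hn0 μ m1) hD
  have hM2 : (((2 ^ μ / (μ + 1) ^ (d - 1) : ℕ)) : ℝ) * ((μ:ℝ)+1)^(d-1) ≤ 2^μ := by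
    have := Nat.div_mul_le_self (2 ^ μ) ((μ + 1) ^ (d - 1))
    exact_mod_cast this
  have hM3 : (2:ℝ)^μ ≤ 2 * (((2 ^ μ / (μ + 1) ^ (d - 1) : ℕ)) : ℝ) * ((μ:ℝ)+1)^(d-1) := by
    have h1 := Nat.lt_mul_div_succ (2 ^ μ) hD
    have h2 : 2 ^ μ ≤ 2 * (2 ^ μ / (μ + 1) ^ (d - 1)) * (μ + 1) ^ (d - 1) := by
      nlinarith
    exact_mod_cast h2
  generalize hMM : 2 ^ μ / (μ + 1) ^ (d - 1) = M at hM1 hM2 hM3
  have hM0 : (0:ℝ) < M := by exact_mod_cast hM1
  have e1 : ((μ:ℝ)+1)^(d-1) = ((μ:ℝ)+1)^(d-2) * ((μ:ℝ)+1) := by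
    rw [← pow_succ]
    congr 1
    omega
  have e2 : ((μ:ℝ)+1)^(d-2) = ((μ:ℝ)+1)^(d-3) * ((μ:ℝ)+1) := by
    rw [← pow_succ]
    congr 1
    omega
  have hp1 : (1:ℝ) ≤ ((μ:ℝ)+1)^(d-3) := one_le_pow₀ (by linarith)
  have hp2 : (0:ℝ) < ((μ:ℝ)+1)^(d-2) := by positivity
  refine ⟨m4, M, hM1, hM2, hN0, ?_, ?_, ?_, ?_⟩
  · rw [hθκ]
    rw [div_le_iff₀ ha] at r2
    linarith
  · rw [hθκ]
    have h1 : CK * (a * μ / ((layer d μ).card : ℝ))^2 * ((layer d μ).card : ℝ) =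
        CK * (a * μ) * (a * μ) / ((layer d μ).card : ℝ) := by
      field_simp
    rw [h1, div_le_div_iff₀ hN0 (by positivity)]
    have h2 : CK * (a * μ) * (16 * M) ≤ ((layer d μ).card : ℝ) := by
      refine le_trans ?_ hN2
      refine le_trans ?_ hM2
      have h3 : 16 * CK * a * μ ≤ ((μ:ℝ)+1)^(d-1) := by
        rw [e1, e2]
        have h4 : 16 * CK * a * μ ≤ μ * μ := mul_le_mul_of_nonneg_right r3 (by positivity)
        have h5 : (μ:ℝ) * μ ≤ ((μ:ℝ)+1) * ((μ:ℝ)+1) := by nlinarith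
        have h6 : ((μ:ℝ)+1) * ((μ:ℝ)+1) ≤ ((μ:ℝ)+1)^(d-3) * (((μ:ℝ)+1) * ((μ:ℝ)+1)) :=
          le_mul_of_one_le_left (by positivity) hp1
        calc 16 * CK * a * μ ≤ ((μ:ℝ)+1)^(d-3) * (((μ:ℝ)+1) * ((μ:ℝ)+1)) := by linarith
          _ = _ := by ring
      have h7 := mul_le_mul_of_nonneg_left h3 hM0.le
      linarith
    have h3 : 0 ≤ a * μ := by positivity
    nlinarith
  · rw [hθκ, div_le_iff₀ hp2]
    have h1 : min (a / 400) (cs / 2^d) * 2^μ ≤ a / 400 * 2^μ :=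
      mul_le_mul_of_nonneg_right (min_le_left _ _) (by positivity)
    refine h1.trans ?_
    have h2 : a / 400 * (2:ℝ)^μ ≤ a / 400 * (2 * M * ((μ:ℝ)+1)^(d-1)) :=
      mul_le_mul_of_nonneg_left hM3 (by positivity)
    refine h2.trans ?_
    rw [e1]
    have h3 : ((μ:ℝ)+1) ≤ 2 * μ := by linarith
    have h4 : a / 400 * (2 * M * (((μ:ℝ)+1)^(d-2) * ((μ:ℝ)+1))) =
        (a * M * ((μ:ℝ)+1)^(d-2) / 200) * ((μ:ℝ)+1) := by ring
    have h5 : a * μ * M / 100 * ((μ:ℝ)+1)^(d-2) =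
        (a * M * ((μ:ℝ)+1)^(d-2) / 200) * (2 * μ) := by ring
    rw [h4, h5]
    exact mul_le_mul_of_nonneg_left h3 (by positivity)
  · rw [hN]
    have h1 : min (a / 400) (cs / 2^d) * 2^μ * ((μ:ℝ)+1)^(d-1) ≤
        cs / 2^d * 2^μ * ((μ:ℝ)+1)^(d-1) := by
      refine mul_le_mul_of_nonneg_right (mul_le_mul_of_nonneg_right (min_le_right _ _)
        (by positivity)) (by positivity)
    refine h1.trans ?_
    have h2 : ((μ:ℝ)+1)^(d-1) ≤ 2^(d-1) * (μ:ℝ)^(d-1) := by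
      rw [← mul_pow]
      exact pow_le_pow_left₀ (by positivity) (by linarith) _
    have h3 : (2:ℝ)^d = 2^(d-1) * 2 := by
      rw [← pow_succ]
      congr 1
      omega
    have h4 : cs / 2^d * 2^μ * ((μ:ℝ)+1)^(d-1) ≤
        cs / 2^d * 2^μ * (2^(d-1) * (μ:ℝ)^(d-1)) :=
      mul_le_mul_of_nonneg_left h2 (by positivity)
    refine h4.trans ?_
    have h5 : cs / 2^d * (2:ℝ)^μ * (2^(d-1) * (μ:ℝ)^(d-1)) = 2^μ * (cs * (μ:ℝ)^(d-1)) / 2 := by
      rw [h3]
      field_simp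
    rw [h5]
    have h6 := mul_le_mul_of_nonneg_left (hs μ m4) (show (0:ℝ) ≤ 2^μ by positivity)
    linarith

theorem fama (h1 : S_SEP) (h2 : S_KEXP) (h3 : S_PHIA) : S_FAMA := by
  intro d hd r hr α j hj
  obtain ⟨a, CK, ha, hCK, hK⟩ := h2 d (by omega)
  obtain ⟨CP, hCP, hP⟩ := h3 d (by omega) r hr α j hj
  obtain ⟨cs, hcs, hs⟩ := HypVol.shp_lower d (by omega)
  obtain ⟨μ0, hμ0⟩ := fama_num d hd a CK cs ha hCK hcs hs
  refine ⟨min (a / 400) (cs / 2^d), max 1 (10 * CP), μ0, lt_min (by positivity) (by positivity),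
    lt_of_lt_of_le one_pos (le_max_left _ _), fun μ hμ => ?_⟩
  obtain ⟨m4, M, hM1, hM2, hN0, g1, g2, g3, g4⟩ := hμ0 μ hμ
  have hj2 : j < 2 ^ j := Nat.lt_two_pow_self
  have hm : 2 * j * 2^μ ≤ 2^((μ + j + 2)+2) := by
    have e : 2^((μ + j + 2)+2) = 2^j * 16 * 2^μ := by ring
    rw [e]
    exact Nat.mul_le_mul_right _ (by omega)
  have hκ : ∀ x : GG d (μ + j + 2), ker (d := d) μ 0 0 (gpt x - gpt x) =
      ((layer d μ).card : ℝ) := fun x => by
    rw [sub_self]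
    exact fama_ker_zero μ
  have hθ : 0 < a * μ / ((layer d μ).card : ℝ) := by
    have : (0:ℝ) < μ := by exact_mod_cast m4
    positivity
  have hexp : ∀ t : ℝ, |t| = a * μ / ((layer d μ).card : ℝ) → ∀ x : GG d (μ + j + 2),
      ∑ y : GG d (μ + j + 2), Real.exp (t * ker (d := d) μ 0 0 (gpt x - gpt y)) ≤
      (Fintype.card (GG d (μ + j + 2))) * Real.exp (a * μ / ((layer d μ).card : ℝ) *
        ((layer d μ).card : ℝ) / (16 * M)) := by
    intro t ht x
    have e := hK μ (μ + j + 2) m4 (by omega) t ht.le x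
    rw [fama_card]
    refine e.trans (mul_le_mul_of_nonneg_left (Real.exp_le_exp.2 ?_) (by positivity))
    rw [← sq_abs t, ht]
    exact g2
  have hC0 : 0 < CP * ((2:ℝ)^((1 + r) * μ))^(2*j) := by positivity
  have hgood := fama_markov (Ω := Fin M → GG d (μ + j + 2))
    (fun X x => ∑ i, ker μ (-r) (-α) (x - gpt (X i)))
    (∑ _i : Fin M, ∑ k ∈ layer d μ, ‖Fh (-r) (-α) k‖) (CP * ((2:ℝ)^((1 + r) * μ))^(2*j)) j
    (fun X => continuous_finsetSum _ fun i _ =>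
      (fama_ker_cont μ (-r) (-α)).comp (continuous_id.sub continuous_const))
    (fun X x => (Finset.abs_sum_le_sum_abs _ _).trans
      (Finset.sum_le_sum fun i _ => fama_ker_bound μ (-r) (-α) _)) hC0 (fun x => by
      have e := hP μ (μ + j + 2) M m4 hm (by omega) hM2 x
      rw [Fintype.card_fun, Fintype.card_fin]
      push_cast
      calc _ ≤ _ := e
        _ = _ := by
          push_cast
          ring)
  obtain ⟨F, hF1, hF2, hF3⟩ := h1 (GG d (μ + j + 2))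
    (fun z y => ker (d := d) μ 0 0 (gpt z - gpt y)) ((layer d μ).card : ℝ)
    (a * μ / ((layer d μ).card : ℝ)) M _ hM1 hN0 hθ g1 hκ
    (hexp _ (abs_of_pos hθ)) (hexp _ (by rw [abs_neg]; exact abs_of_pos hθ)) (by
      rw [Fintype.card_fun, Fintype.card_fin] at hgood
      push_cast at hgood ⊢
      exact hgood)
  refine ⟨F, inferInstance, fun X x => ∑ i, ker (d := d) μ 0 0 (x - gpt (X.1 i)),
    fun X x => ∑ i, ker μ (-r) (-α) (x - gpt (X.1 i)), ?_, ?_, ?_, ?_, ?_, ?_, ?_⟩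
  · rw [Fintype.card_coe]
    exact (Real.exp_le_exp.2 g3).trans hF2
  · intro X
    exact continuous_finsetSum _ fun i _ =>
      (fama_ker_cont μ 0 0).comp (continuous_id.sub continuous_const)
  · intro X
    exact continuous_finsetSum _ fun i _ =>
      (fama_ker_cont μ (-r) (-α)).comp (continuous_id.sub continuous_const)
  · intro X x l
    exact Finset.sum_congr rfl fun i _ => fama_ker_per μ 0 0 x _ l
  · intro X
    have e := (Finset.mem_filter.1 (hF1 X.2)).2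
    refine e.trans ?_
    rw [mul_pow, ← mul_assoc]
    refine mul_le_mul_of_nonneg_right ?_ (by positivity)
    refine (le_max_right 1 (10 * CP)).trans ?_
    exact le_self_pow₀ (le_max_left _ _) (by omega)
  · intro X k
    rw [fama_fc, fama_fc]
    by_cases hk : k ∈ layer d μ
    · rw [if_pos hk, if_pos hk, fama_Fh_zero, ← mul_assoc, fama_Fh_inv]
    · rw [if_neg hk, if_neg hk, mul_zero]
  · intro X X' hXX
    obtain ⟨z, hz⟩ := hF3 X.1 X.2 X'.1 X'.2 fun h => hXX (Subtype.ext h)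
    exact ⟨gpt z, g4.trans hz⟩

end SmSm
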