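import Pool.Agent.H636R2.SM.Spec
open MeasureTheory Real ProbabilityTheory
open scoped ENNReal BigOperators

namespace SmSm
open HypVol MWidth

theorem ksq_chi_zero {d : ℕ} (x : Fin d → ℝ) : chi 0 x = 1 := by
  simp [chi]

theorem ksq_chi_mul {d : ℕ} (k k' : Fin d → ℤ) (x : Fin d → ℝ) :
    chi k x * (starRingEnd ℂ) (chi k' x) = chi (k - k') x := by
  unfold chi
  rw [← Complex.exp_conj, ← Complex.exp_add]
  congr 1
  simp only [map_mul, Complex.conj_I, Complex.conj_ofReal]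
  have : ((∑ j, (((k - k') j : ℤ) : ℝ) * x j : ℝ)) =
      (∑ j, (k j : ℝ) * x j) - ∑ j, (k' j : ℝ) * x j := by
    rw [← Finset.sum_sub_distrib]
    refine Finset.sum_congr rfl fun j _ => ?_
    simp only [Pi.sub_apply]
    push_cast
    ring
  rw [this]
  push_cast
  ring

theorem ksq_sum1 (N : ℕ) (hN : 0 < N) (n : ℤ) (hn : n ≠ 0) (hlt : |n| < N) :
    ∑ t : Fin N, Complex.exp (Complex.I * (((n : ℝ) * (2 * π * ((t : ℕ) : ℝ) / N) : ℝ) : ℂ)) = 0 := by
  have hN' : (N : ℂ) ≠ 0 := by exact_mod_cast hN.ne'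
  obtain ⟨z, hz⟩ : ∃ z : ℂ, z = Complex.exp (2 * π * Complex.I * n / N) := ⟨_, rfl⟩
  have h1 : ∀ t : Fin N, Complex.exp (Complex.I * (((n : ℝ) * (2 * π * ((t : ℕ) : ℝ) / N) : ℝ) : ℂ)) =
      z ^ (t : ℕ) := by
    intro t
    rw [hz, ← Complex.exp_nat_mul]
    congr 1
    push_cast
    ring
  rw [Finset.sum_congr rfl (fun t _ => h1 t), Fin.sum_univ_eq_sum_range (fun i => z ^ i) N]
  have hzN : z ^ N = 1 := by
    rw [hz, ← Complex.exp_nat_mul, Complex.exp_eq_one_iff]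
    refine ⟨n, ?_⟩
    field_simp
  have hz1 : z ≠ 1 := by
    intro h
    rw [hz, Complex.exp_eq_one_iff] at h
    obtain ⟨q, hq⟩ := h
    have hpi : (2 * (π : ℂ) * Complex.I) ≠ 0 := by
      simp [Real.pi_ne_zero, Complex.I_ne_zero]
    have h2 : (n : ℂ) = q * N := by
      have h3 : (2 * (π : ℂ) * Complex.I) * n = (2 * (π : ℂ) * Complex.I) * (q * N) := by
        have h4 : 2 * (π : ℂ) * Complex.I * n = (2 * π * Complex.I * n / N) * N := by
          field_simp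
        rw [h4, hq]
        ring
      exact mul_left_cancel₀ hpi h3
    have h3 : n = q * N := by exact_mod_cast h2
    have h4 : q ≠ 0 := by
      rintro rfl
      simp at h3
      exact hn h3
    have h5 : 1 ≤ |q| := Int.one_le_abs h4
    rw [h3, abs_mul] at hlt
    have h6 : |(N : ℤ)| = N := abs_of_nonneg (by positivity)
    rw [h6] at hlt
    have h7 : (0:ℤ) < N := by exact_mod_cast hN
    nlinarith
  have h := geom_sum_mul z N
  rw [hzN, sub_self] at h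
  exact (mul_eq_zero.1 h).resolve_right (sub_ne_zero.2 hz1)

theorem ksq_orth {d m : ℕ} (n : Fin d → ℤ) (hn : n ≠ 0) (hb : ∀ j, |n j| < 2^(m+2))
    (x : Fin d → ℝ) : ∑ y : GG d m, chi n (x - gpt y) = 0 := by
  have h1 : ∀ y : GG d m, chi n (x - gpt y) = ∏ j, (Complex.exp (Complex.I * (((n j : ℝ) * x j : ℝ) : ℂ)) *
      Complex.exp (Complex.I * ((((-n j : ℤ) : ℝ) * (2 * π * ((y j : ℕ) : ℝ) / (2^(m+2) : ℕ)) : ℝ) : ℂ))) := by
    intro y
    unfold chi gpt
    simp_rw [← Complex.exp_add]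
    rw [← Complex.exp_sum]
    congr 1
    simp_rw [← mul_add, ← Complex.ofReal_add]
    rw [← Finset.mul_sum, ← Complex.ofReal_sum]
    congr 2
    refine Finset.sum_congr rfl fun j _ => ?_
    simp only [Pi.sub_apply]
    push_cast
    ring
  rw [Finset.sum_congr rfl (fun y _ => h1 y)]
  rw [← Fintype.prod_sum (fun (j : Fin d) (t : Fin (2^(m+2))) =>
    Complex.exp (Complex.I * (((n j : ℝ) * x j : ℝ) : ℂ)) *
      Complex.exp (Complex.I * ((((-n j : ℤ) : ℝ) * (2 * π * ((t : ℕ) : ℝ) / (2^(m+2) : ℕ)) : ℝ) : ℂ)))]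
  obtain ⟨j, hj⟩ : ∃ j, n j ≠ 0 := by
    by_contra h
    push Not at h
    exact hn (funext h)
  refine Finset.prod_eq_zero (Finset.mem_univ j) ?_
  rw [← Finset.mul_sum]
  rw [ksq_sum1 (2^(m+2)) (by positivity) (-n j) (neg_ne_zero.2 hj) (by
    rw [abs_neg]
    push_cast
    exact hb j), mul_zero]

theorem ksq_parseval {ι : Type*} {d m : ℕ} (S : Finset ι) (K : ι → (Fin d → ℤ)) (c : ι → ℂ)
    (hinj : ∀ i ∈ S, ∀ i' ∈ S, K i = K i' → i = i') (hb : ∀ i ∈ S, ∀ j, |K i j| < 2^m)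
    (x : Fin d → ℝ) :
    ∑ y : GG d m, ‖∑ i ∈ S, c i * chi (K i) (x - gpt y)‖^2 =
      ((2:ℝ)^(m+2))^d * ∑ i ∈ S, ‖c i‖^2 := by
  classical
  have key : ((∑ y : GG d m, ‖∑ i ∈ S, c i * chi (K i) (x - gpt y)‖^2 : ℝ) : ℂ) =
      ((((2:ℝ)^(m+2))^d * ∑ i ∈ S, ‖c i‖^2 : ℝ) : ℂ) := by
    have h1 : ∀ y : GG d m, ((‖∑ i ∈ S, c i * chi (K i) (x - gpt y)‖^2 : ℝ) : ℂ) =
        ∑ i ∈ S, ∑ i' ∈ S, c i * (starRingEnd ℂ) (c i') * chi (K i - K i') (x - gpt y) := by
      intro y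
      have h2 : ((‖∑ i ∈ S, c i * chi (K i) (x - gpt y)‖^2 : ℝ) : ℂ) =
          (∑ i ∈ S, c i * chi (K i) (x - gpt y)) *
            (starRingEnd ℂ) (∑ i ∈ S, c i * chi (K i) (x - gpt y)) := by
        rw [Complex.mul_conj, Complex.normSq_eq_norm_sq]
      rw [h2, map_sum, Finset.sum_mul_sum]
      refine Finset.sum_congr rfl fun i _ => Finset.sum_congr rfl fun i' _ => ?_
      rw [← ksq_chi_mul, map_mul]
      ring
    rw [Complex.ofReal_sum, Finset.sum_congr rfl (fun y _ => h1 y), Finset.sum_comm]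
    rw [Complex.ofReal_mul, Complex.ofReal_sum, Finset.mul_sum]
    refine Finset.sum_congr rfl fun i hi => ?_
    rw [Finset.sum_comm]
    rw [Finset.sum_eq_single i]
    · rw [← Finset.mul_sum, sub_self]
      simp only [ksq_chi_zero, Finset.sum_const, Finset.card_univ, Fintype.card_fun,
        Fintype.card_fin]
      rw [Complex.mul_conj, Complex.normSq_eq_norm_sq]
      rw [nsmul_eq_mul, mul_one]
      push_cast
      ring
    · intro i' hi' hne
      rw [← Finset.mul_sum, ksq_orth, mul_zero]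
      · intro h
        exact hne (hinj i hi i' hi' (sub_eq_zero.1 h)).symm
      · intro j
        have a1 := abs_lt.1 (hb i hi j)
        have a2 := abs_lt.1 (hb i' hi' j)
        have a3 : (2:ℤ)^(m+2) = 4 * 2^m := by ring
        rw [a3, abs_lt, Pi.sub_apply]
        constructor <;> linarith [a1.1, a1.2, a2.1, a2.2]
    · intro h
      exact absurd hi h
  exact_mod_cast key

theorem ksq_rho {s s' : ℕ} {k : ℤ} (h : k ∈ rho s) (h' : k ∈ rho s') : s = s' := by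
  have key : ∀ {a b : ℕ}, k ∈ rho a → k ∈ rho b → ¬ a < b := by
    intro a b ha hb hlt
    have h1 : |k| < 2^a := ha.2
    have h2 : (2:ℤ)^b / 2 ≤ |k| := hb.1
    obtain ⟨c, rfl⟩ : ∃ c, b = c + 1 := ⟨b - 1, by omega⟩
    rw [pow_succ, Int.mul_ediv_cancel _ (by norm_num)] at h2
    have h3 : (2:ℤ)^a ≤ 2^c := pow_le_pow_right₀ (by norm_num) (by omega)
    linarith
  rcases lt_trichotomy s s' with h1 | h1 | h1
  · exact absurd h1 (key h h')
  · exact h1
  · exact absurd h1 (key h' h)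

theorem ksq_layer {d μ : ℕ} {k : Fin d → ℤ} (hk : k ∈ layer d μ) :
    (∀ j, |k j| < 2^μ) ∧ ∃ s : Fin d → ℕ, ∑ j, s j = μ ∧ ∀ j, k j ∈ rho (s j) := by
  classical
  unfold layer at hk
  rw [Finset.mem_filter, Fintype.mem_piFinset] at hk
  refine ⟨fun j => ?_, hk.2⟩
  have := Finset.mem_Ioo.1 (hk.1 j)
  rw [abs_lt]
  exact this

theorem ksq_layer_inj {d μ μ' : ℕ} {k : Fin d → ℤ} (hk : k ∈ layer d μ) (hk' : k ∈ layer d μ') :
    μ = μ' := by
  obtain ⟨-, s, hs, h1⟩ := ksq_layer hk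
  obtain ⟨-, s', hs', h2⟩ := ksq_layer hk'
  have : s = s' := funext fun j => ksq_rho (h1 j) (h2 j)
  rw [← hs, ← hs', this]

theorem ksq_Fh {d μ : ℕ} {r : ℝ} (hr : 0 ≤ r) (α : Fin d → ℝ) {k : Fin d → ℤ}
    (hk : k ∈ layer d μ) : ‖Fh (-r) (-α) k‖ ^ 2 ≤ (2:ℝ)^(2 * r * μ) := by
  obtain ⟨-, s, hs, h1⟩ := ksq_layer hk
  have h2 : ‖Fh (-r) (-α) k‖ ≤ ∏ j, (2:ℝ)^(r * s j) := by
    unfold Fh
    rw [norm_prod]
    refine Finset.prod_le_prod (fun j _ => norm_nonneg _) fun j _ => ?_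
    by_cases h0 : k j = 0
    · rw [if_pos h0, norm_one]
      exact Real.one_le_rpow (by norm_num) (by positivity)
    · rw [if_neg h0, norm_mul, Complex.norm_real]
      have h3 : ‖Complex.exp (-(Complex.I * (((SignType.sign (k j) : ℤ) : ℝ) * (-α) j * π / 2 : ℝ)))‖ = 1 := by
        rw [← mul_neg, ← Complex.ofReal_neg, mul_comm, Complex.norm_exp_ofReal_mul_I]
      rw [h3, mul_one, neg_neg, Real.norm_of_nonneg (by positivity)]
      have h4 : |(k j : ℝ)| ≤ 2^(s j) := by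
        have h5 : |k j| < 2^(s j) := (h1 j).2
        have h6 : ((|k j| : ℤ) : ℝ) ≤ ((2^(s j) : ℤ) : ℝ) := by exact_mod_cast h5.le
        rw [Int.cast_abs] at h6
        push_cast at h6
        exact h6
      calc |(k j : ℝ)| ^ r ≤ ((2:ℝ)^(s j)) ^ r := Real.rpow_le_rpow (abs_nonneg _) h4 hr
        _ = (2:ℝ)^(r * s j) := by
            rw [← Real.rpow_natCast, ← Real.rpow_mul (by norm_num), mul_comm]
  have h3 : ∏ j, (2:ℝ)^(r * s j) = (2:ℝ)^(r * μ) := by
    rw [← Real.rpow_sum_of_pos (by norm_num), ← Finset.mul_sum, ← hs]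
    push_cast
    rfl
  rw [h3] at h2
  calc ‖Fh (-r) (-α) k‖ ^ 2 ≤ ((2:ℝ)^(r * μ)) ^ 2 := pow_le_pow_left₀ (norm_nonneg _) h2 2
    _ = (2:ℝ)^(2 * r * μ) := by
        rw [← Real.rpow_natCast, ← Real.rpow_mul (by norm_num)]
        congr 1
        push_cast
        ring

theorem ksq : S_KSQ := by
  intro d _ J w r hr α m hJ x
  classical
  set S : Finset (Σ _ : ℕ, (Fin d → ℤ)) := J.sigma (fun μ => layer d μ) with hS
  set c : (Σ _ : ℕ, (Fin d → ℤ)) → ℂ := fun i => (w i.1 : ℂ) * Fh (-r) (-α) i.2 with hc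
  have h1 : ∀ y : GG d m, wker J w (-r) (-α) (x - gpt y) =
      (∑ i ∈ S, c i * chi i.2 (x - gpt y)).re := by
    intro y
    unfold wker ker
    rw [hS, Finset.sum_sigma, Complex.re_sum]
    refine Finset.sum_congr rfl fun μ _ => ?_
    rw [Finset.mul_sum, Complex.re_sum]
    refine Finset.sum_congr rfl fun k _ => ?_
    rw [hc]
    simp only
    rw [mul_assoc, Complex.re_ofReal_mul]
  have h2 : ∑ y : GG d m, (wker J w (-r) (-α) (x - gpt y))^2 ≤
      ∑ y : GG d m, ‖∑ i ∈ S, c i * chi i.2 (x - gpt y)‖^2 := by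
    refine Finset.sum_le_sum fun y _ => ?_
    rw [h1 y, ← sq_abs]
    exact pow_le_pow_left₀ (abs_nonneg _) (Complex.abs_re_le_norm _) 2
  refine h2.trans ?_
  rw [ksq_parseval S (fun i => i.2) c]
  · refine mul_le_mul_of_nonneg_left ?_ (by positivity)
    rw [hS, Finset.sum_sigma]
    refine Finset.sum_le_sum fun μ _ => ?_
    calc ∑ k ∈ layer d μ, ‖c ⟨μ, k⟩‖ ^ 2 ≤ ∑ k ∈ layer d μ, (w μ)^2 * (2:ℝ)^(2 * r * μ) := by
          refine Finset.sum_le_sum fun k hk => ?_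
          rw [hc]
          simp only
          rw [norm_mul, mul_pow, Complex.norm_real, Real.norm_eq_abs, sq_abs]
          exact mul_le_mul_of_nonneg_left (ksq_Fh hr α hk) (sq_nonneg _)
      _ = (w μ)^2 * (2:ℝ)^(2 * r * μ) * (layer d μ).card := by
          rw [Finset.sum_const, nsmul_eq_mul]
          ring
  · rintro ⟨μ, k⟩ hi ⟨μ', k'⟩ hi' h
    rw [hS, Finset.mem_sigma] at hi hi'
    simp only at h hi hi'
    subst h
    rw [ksq_layer_inj hi.2 hi'.2]
  · rintro ⟨μ, k⟩ hi j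
    rw [hS, Finset.mem_sigma] at hi
    simp only at hi
    exact ((ksq_layer hi.2).1 j).trans_le (pow_le_pow_right₀ (by norm_num) (hJ μ hi.1))

end SmSm
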