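import Pool.Agent.H636R2.SM.Spec
import Pool.Agent.EntX.L_conv_L
import Pool.Agent.EntX.L_ess_everywhere
import Pool.Agent.EntX.L_fc_unique
import Pool.Agent.KX.L_ML_mem
open MeasureTheory Real ProbabilityTheory
open scoped ENNReal BigOperators

/-! PIG: truncation and pigeonhole (helper25). -/

namespace SmSm
open HypVol MWidth

theorem pig_bdd {E : Type*} [NormedAddCommGroup E] {d : ℕ} (g : (Fin d → ℝ) → E)
    (hg : Continuous g) : ∃ M : ℝ, ∀ᵐ x ∂(TP d), ‖g x‖ ≤ M := by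
  have hK : IsCompact (Set.pi Set.univ (fun _ : Fin d => Set.Icc (0:ℝ) (2 * π))) :=
    isCompact_univ_pi fun _ => isCompact_Icc
  obtain ⟨M, hM⟩ := hK.exists_bound_of_continuousOn hg.continuousOn
  refine ⟨M, ?_⟩
  filter_upwards [Sol_EX_fc_unique.fcu_TP_mem (d := d)] with x hx
  exact hM x fun j _ => Set.Ico_subset_Icc_self (hx j)

theorem pig_memLp {E : Type*} [NormedAddCommGroup E] {d : ℕ} (g : (Fin d → ℝ) → E)
    (hg : Continuous g) : MemLp g ⊤ (TP d) := by
  obtain ⟨M, hM⟩ := pig_bdd g hg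
  exact memLp_top_of_bound hg.aestronglyMeasurable M hM

theorem pig_int {E : Type*} [NormedAddCommGroup E] {d : ℕ} (g : (Fin d → ℝ) → E)
    (hg : Continuous g) : Integrable g (TP d) := by
  have := TP_prob d
  exact (pig_memLp g hg).integrable le_top

theorem pig_fc {d : ℕ} (a b c : (Fin d → ℝ) → ℂ) (ha : Integrable a (TP d))
    (hb : Integrable b (TP d)) (hc : Integrable c (TP d)) (s t : ℂ) (k : Fin d → ℤ) :
    fc (fun x => a x - (s * b x + t * c x)) k = fc a k - (s * fc b k + t * fc c k) := by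
  have h : ∀ g : (Fin d → ℝ) → ℂ, Integrable g (TP d) →
      Integrable (fun x => g x * Sol_EX_conv_L.ech k x) (TP d) := by
    intro g hg
    exact hg.mul_bdd (c := 1) (Sol_EX_conv_L.ech_meas k).aestronglyMeasurable
      (Filter.Eventually.of_forall fun x => (Sol_EX_conv_L.ech_norm k x).le)
  have e : (fun x => (a x - (s * b x + t * c x)) * Sol_EX_conv_L.ech k x) =
      fun x => a x * Sol_EX_conv_L.ech k x - (s * (b x * Sol_EX_conv_L.ech k x) +
        t * (c x * Sol_EX_conv_L.ech k x)) := by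
    funext x; ring
  show ∫ x, (a x - (s * b x + t * c x)) * Sol_EX_conv_L.ech k x ∂(TP d) = _
  have h1 : Integrable (fun x => s * (b x * Sol_EX_conv_L.ech k x) +
      t * (c x * Sol_EX_conv_L.ech k x)) (TP d) := ((h b hb).const_mul s).add ((h c hc).const_mul t)
  rw [e, integral_sub (h a ha) h1,
    integral_add ((h b hb).const_mul s) ((h c hc).const_mul t), integral_const_mul,
    integral_const_mul]
  rfl

theorem pig_toC_ofReal (𝕜 : Type) [RCLike 𝕜] (t : ℝ) : toC ((t : ℝ) : 𝕜) = (t : ℂ) := by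
  unfold toC
  simp

theorem pig_toC_sub {𝕜 : Type} [RCLike 𝕜] (a b : 𝕜) : ‖toC a - toC b‖ = ‖a - b‖ := by
  rw [← Sol_EX_conv_L.TCL_apply, ← Sol_EX_conv_L.TCL_apply, ← map_sub, Sol_EX_conv_L.TCL_apply,
    Sol_KX_ML_mem.norm_toC']

theorem pig_split (𝕜 : Type) [RCLike 𝕜] {d : ℕ} (r : ℝ) (hr : 0 < r) (α : Fin d → ℝ)
    (f φ c e : (Fin d → ℝ) → ℝ) (hf : Integrable f (TP d)) (hφ : Integrable φ (TP d))
    (hc : Integrable c (TP d)) (he : Integrable e (TP d)) (N δ : ℝ)
    (hsum : ∀ x, φ x = N * c x + δ * e x)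
    (hfc : ∀ k, fc (fun x => (f x : ℂ)) k = Fh r α k * fc (fun x => (φ x : ℂ)) k) :
    ∀ᵐ x ∂(TP d), (f x : ℂ) = N * toC (∫ y, FrL r α (x - y) • ((c y : ℝ) : 𝕜) ∂(TP d)) +
      δ * toC (∫ y, FrL r α (x - y) • ((e y : ℝ) : 𝕜) ∂(TP d)) := by
  obtain ⟨hC1, hC2⟩ := conv_L r hr α (fun y => ((c y : ℝ) : 𝕜)) hc.ofReal
  obtain ⟨hE1, hE2⟩ := conv_L r hr α (fun y => ((e y : ℝ) : 𝕜)) he.ofReal
  rw [memLp_one_iff_integrable] at hC1 hE1
  have hC3 := (Sol_EX_conv_L.TCL 𝕜).integrable_comp hC1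
  have hE3 := (Sol_EX_conv_L.TCL 𝕜).integrable_comp hE1
  simp only [Sol_EX_conv_L.TCL_apply] at hC3 hE3
  simp only [pig_toC_ofReal] at hC2 hE2
  have hfC : Integrable (fun x => (f x : ℂ)) (TP d) := hf.ofReal
  have hφC : Integrable (fun x => (φ x : ℂ)) (TP d) := hφ.ofReal
  have hcC : Integrable (fun x => (c x : ℂ)) (TP d) := hc.ofReal
  have heC : Integrable (fun x => (e x : ℂ)) (TP d) := he.ofReal
  have hsum' : ∀ k, fc (fun x => (φ x : ℂ)) k = N * fc (fun x => (c x : ℂ)) k +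
      δ * fc (fun x => (e x : ℂ)) k := by
    intro k
    have h := pig_fc _ _ _ hφC hcC heC N δ k
    have h2 : (fun x => (φ x : ℂ) - ((N : ℂ) * (c x : ℂ) + (δ : ℂ) * (e x : ℂ))) = fun _ => 0 := by
      funext x
      rw [hsum x]
      push_cast
      ring
    rw [h2] at h
    have h3 : fc (fun _ : Fin d → ℝ => (0:ℂ)) k = 0 := by
      unfold fc
      simp
    rw [h3] at h
    linear_combination -h
  have key := fc_unique _ (hfC.sub ((hC3.const_mul (N : ℂ)).add (hE3.const_mul (δ : ℂ)))) (by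
    intro k
    have h := pig_fc _ _ _ hfC hC3 hE3 N δ k
    rw [hC2 k, hE2 k, hfc k, hsum' k] at h
    refine h.trans ?_
    ring)
  filter_upwards [key] with x hx
  have hx' : (f x : ℂ) - ((N : ℂ) * toC (∫ y, FrL r α (x - y) • ((c y : ℝ) : 𝕜) ∂(TP d)) +
      (δ : ℂ) * toC (∫ y, FrL r α (x - y) • ((e y : ℝ) : 𝕜) ∂(TP d))) = 0 := hx
  linear_combination hx'

theorem pig_clip (N t : ℝ) (hN : 0 < N) : |max (-N) (min N t)| ≤ N := by
  rw [abs_le]
  exact ⟨le_max_left _ _, max_le (by linarith) (min_le_left _ _)⟩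

theorem pig_err (N t : ℝ) (hN : 0 < N) (q : ℕ) (hq : 1 ≤ q) :
    |t - max (-N) (min N t)| ^ q * N ^ q ≤ t ^ (2 * q) := by
  have h0 : 0 ≤ |t - max (-N) (min N t)| := abs_nonneg _
  have ht : t ^ (2 * q) = |t| ^ q * |t| ^ q := by
    rw [pow_mul, ← sq_abs, ← pow_mul, ← pow_add]
    congr 1; ring
  by_cases h : |t| ≤ N
  · rw [abs_le] at h
    rw [min_eq_right h.2, max_eq_right h.1, sub_self, abs_zero, zero_pow (by omega), zero_mul, ht]
    positivity
  · push Not at h
    rw [ht]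
    have h1 : |t - max (-N) (min N t)| ≤ |t| := by
      rcases lt_abs.1 h with h2 | h2
      · rw [min_eq_left h2.le, max_eq_right (by linarith), abs_of_pos (by linarith),
          abs_of_pos (by linarith)]
        linarith
      · rw [min_eq_right (by linarith), max_eq_left (by linarith), abs_of_neg (by linarith),
          abs_of_neg (by linarith)]
        linarith
    exact mul_le_mul (pow_le_pow_left₀ h0 h1 q) (pow_le_pow_left₀ hN.le h.le q) (by positivity)
      (by positivity)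

/-- a bound almost everywhere holds everywhere -/
theorem pig_everywhere {d : ℕ} (g : (Fin d → ℝ) → ℝ) (hg : Continuous g)
    (hper : ∀ (x : Fin d → ℝ) (j : Fin d), g (Function.update x j (x j + 2 * π)) = g x) (b : ℝ)
    (h : ∀ᵐ x ∂(TP d), g x ≤ b) (x : Fin d → ℝ) : g x ≤ b := by
  by_contra hcon
  push Not at hcon
  have hU : IsOpen {y : Fin d → ℝ | b < g y} := isOpen_lt continuous_const hg
  have hpos := Sol_EX_ess_everywhere.espx_pos _ hU
    (fun j => toIcoMod Real.two_pi_pos 0 (x j))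
    (by
      show b < g _
      rw [Sol_EX_conv_L.per_toIcoMod g hper]
      exact hcon)
    (fun j => by
      have h1 := toIcoMod_mem_Ico Real.two_pi_pos 0 (x j)
      rw [zero_add] at h1
      exact h1)
  have hz : TP d {y : Fin d → ℝ | b < g y} = 0 := by
    rw [ae_iff] at h
    simpa only [not_le] using h
  exact absurd hz hpos.ne'

theorem pig_ess {𝕜 : Type} [RCLike 𝕜] {d : ℕ} (g : (Fin d → ℝ) → 𝕜) (ε : ℝ) (hε : 0 ≤ ε)
    (h : eLpNorm g ⊤ (TP d) ≤ ENNReal.ofReal ε) : ∀ᵐ x ∂(TP d), ‖g x‖ ≤ ε := by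
  rw [eLpNorm_exponent_top] at h
  filter_upwards [enorm_ae_le_eLpNormEssSup g (TP d)] with y hy
  have h2 := hy.trans h
  rw [← ofReal_norm] at h2
  exact (ENNReal.ofReal_le_ofReal_iff hε).1 h2

theorem pig : S_PIG := by
  intro 𝕜 _ d hd r hr α q hq K ν Δ B ε ε2 k1 k2 hν hB hε hε2 hFam hcov1 hcov2 hK
  have := TP_prob d
  obtain ⟨ι, hι, f, φ, hcard, hfc, hφc, hper, hmom, hconv, hsep⟩ := hFam
  obtain ⟨C1, -, hC1⟩ := hcov1
  obtain ⟨C2, -, hC2⟩ := hcov2
  set N : ℝ := B * ν with hN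
  set δ : ℝ := ν / B with hδ
  have hN0 : 0 < N := by positivity
  have hδ0 : 0 < δ := by positivity
  have hNδ : N * δ = ν ^ 2 := by rw [hN, hδ]; field_simp
  -- the clipped functions, normalised
  set c : ι → (Fin d → ℝ) → ℝ := fun i x => max (-N) (min N (φ i x)) / N with hc
  set e : ι → (Fin d → ℝ) → ℝ := fun i x => (φ i x - max (-N) (min N (φ i x))) / δ with he
  have hcc : ∀ i, Continuous (c i) := by
    intro i
    have h := hφc i
    simp only [hc]
    fun_prop
  have hec : ∀ i, Continuous (e i) := by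
    intro i
    have h := hφc i
    simp only [he]
    fun_prop
  have hsum : ∀ i x, φ i x = N * c i x + δ * e i x := by
    intro i x
    simp only [hc, he]
    field_simp
    ring
  set F : ι → (Fin d → ℝ) → 𝕜 := fun i x => ∫ y, FrL r α (x - y) • ((c i y : ℝ) : 𝕜) ∂(TP d) with hF
  set E : ι → (Fin d → ℝ) → 𝕜 := fun i x => ∫ y, FrL r α (x - y) • ((e i y : ℝ) : 𝕜) ∂(TP d) with hE
  have hFm : ∀ i, F i ∈ ML 𝕜 d r ⊤ α := by
    intro i
    refine ⟨fun y => ((c i y : ℝ) : 𝕜), pig_memLp _ (RCLike.continuous_ofReal.comp (hcc i)), ?_, rfl⟩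
    rw [eLpNorm_exponent_top]
    refine (eLpNormEssSup_le_of_ae_bound (C := 1) (Filter.Eventually.of_forall fun x => ?_)).trans
      (by rw [ENNReal.ofReal_one])
    rw [RCLike.norm_ofReal]
    simp only [hc]
    rw [abs_div, abs_of_pos hN0, div_le_one hN0]
    exact pig_clip N _ hN0
  have hEm : ∀ i, E i ∈ ML 𝕜 d r (ENNReal.ofReal (q:ℝ)) α := by
    intro i
    have hq0 : (0:ℝ) < q := by exact_mod_cast (by omega : 0 < q)
    have hml : MemLp (fun y => ((e i y : ℝ) : 𝕜)) (ENNReal.ofReal (q:ℝ)) (TP d) :=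
      (pig_memLp _ (RCLike.continuous_ofReal.comp (hec i))).mono_exponent le_top
    refine ⟨fun y => ((e i y : ℝ) : 𝕜), hml, ?_, rfl⟩
    rw [hml.eLpNorm_eq_integral_rpow_norm (by rw [Ne, ENNReal.ofReal_eq_zero]; linarith)
      ENNReal.ofReal_ne_top, ENNReal.toReal_ofReal hq0.le]
    rw [← ENNReal.ofReal_one]
    apply ENNReal.ofReal_le_ofReal
    apply Real.rpow_le_one
    · exact integral_nonneg fun x => by positivity
    · have h1 : ∀ x, ‖((e i x : ℝ) : 𝕜)‖ ^ (q:ℝ) ≤ (φ i x) ^ (2 * q) / ν ^ (2 * q) := by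
        intro x
        rw [RCLike.norm_ofReal, Real.rpow_natCast]
        simp only [he]
        rw [abs_div, abs_of_pos hδ0, div_pow, div_le_div_iff₀ (by positivity) (by positivity)]
        have h2 := pig_err N (φ i x) hN0 q (by omega)
        have h3 : ν ^ (2 * q) = N ^ q * δ ^ q := by rw [← mul_pow, hNδ, pow_mul]
        rw [h3]
        have h4 : (0:ℝ) < δ ^ q := by positivity
        nlinarith [mul_le_mul_of_nonneg_right h2 h4.le]
      have h2 : Integrable (fun x => (φ i x) ^ (2 * q) / ν ^ (2 * q)) (TP d) :=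
        pig_int _ (((hφc i).pow _).div_const _)
      have h3 : Integrable (fun x => ‖((e i x : ℝ) : 𝕜)‖ ^ (q:ℝ)) (TP d) := by
        apply pig_int
        exact ((RCLike.continuous_ofReal.comp (hec i)).norm).rpow_const fun _ => Or.inr hq0.le
      calc ∫ x, ‖((e i x : ℝ) : 𝕜)‖ ^ (q:ℝ) ∂(TP d)
          ≤ ∫ x, (φ i x) ^ (2 * q) / ν ^ (2 * q) ∂(TP d) := integral_mono h3 h2 h1
        _ = (∫ x, (φ i x) ^ (2 * q) ∂(TP d)) / ν ^ (2 * q) := integral_div _ _
        _ ≤ 1 := by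
          rw [div_le_one (by positivity)]
          exact hmom i
    · positivity
  have hsplit : ∀ i, ∀ᵐ x ∂(TP d), (f i x : ℂ) = N * toC (F i x) + δ * toC (E i x) := by
    intro i
    exact pig_split 𝕜 r hr α (f i) (φ i) (c i) (e i) (pig_int _ (hfc i)) (pig_int _ (hφc i))
      (pig_int _ (hcc i)) (pig_int _ (hec i)) N δ (hsum i) (hconv i)
  choose j1 hj1 using fun i => hC1 (E i) (hEm i)
  choose j2 hj2 using fun i => hC2 (F i) (hFm i)
  obtain ⟨i, i', hne, hii⟩ := Fintype.exists_ne_map_eq_of_card_lt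
    (fun i : ι => (j1 i, j2 i)) (by
      rw [Fintype.card_prod, Fintype.card_fin, Fintype.card_fin]
      have : (2:ℝ)^k1 * 2^k2 < Fintype.card ι := lt_of_lt_of_le hK hcard
      exact_mod_cast this)
  simp only [Prod.mk.injEq] at hii
  obtain ⟨x, hx⟩ := hsep i i' hne
  refine hx.trans ?_
  refine pig_everywhere (fun y => |f i y - f i' y|) ((hfc i).sub (hfc i')).abs
    (fun y j => by simp only [hper]) _ ?_ x
  filter_upwards [hsplit i, hsplit i', pig_ess _ ε hε.le (hj1 i), pig_ess _ ε hε.le (hj1 i'),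
    pig_ess _ ε2 hε2.le (hj2 i), pig_ess _ ε2 hε2.le (hj2 i')] with y a1 a2 a3 a4 a5 a6
  rw [hii.1] at a3
  rw [hii.2] at a5
  have b1 : ‖E i y - E i' y‖ ≤ 2 * ε := by
    have : E i y - E i' y = (E i y - C1 (j1 i') y) - (E i' y - C1 (j1 i') y) := by ring
    rw [this]
    exact (norm_sub_le _ _).trans (by linarith)
  have b2 : ‖F i y - F i' y‖ ≤ 2 * ε2 := by
    have : F i y - F i' y = (F i y - C2 (j2 i') y) - (F i' y - C2 (j2 i') y) := by ring
    rw [this]
    exact (norm_sub_le _ _).trans (by linarith)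
  have b3 : ((f i y - f i' y : ℝ) : ℂ) = N * (toC (F i y) - toC (F i' y)) +
      δ * (toC (E i y) - toC (E i' y)) := by
    push_cast
    rw [a1, a2]
    ring
  have b4 : |f i y - f i' y| = ‖((f i y - f i' y : ℝ) : ℂ)‖ := by
    rw [Complex.norm_real, Real.norm_eq_abs]
  rw [b4, b3]
  refine (norm_add_le _ _).trans ?_
  rw [norm_mul, norm_mul, pig_toC_sub, pig_toC_sub, Complex.norm_real, Complex.norm_real,
    Real.norm_of_nonneg hN0.le, Real.norm_of_nonneg hδ0.le]
  have c1 := mul_le_mul_of_nonneg_left b2 hN0.le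
  have c2 := mul_le_mul_of_nonneg_left b1 hδ0.le
  calc N * ‖F i y - F i' y‖ + δ * ‖E i y - E i' y‖ ≤ N * (2 * ε2) + δ * (2 * ε) := by linarith
    _ = 2 * B * ν * ε2 + 2 * (ν / B) * ε := by rw [hN, hδ]; ring

end SmSm
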