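import Pool.Agent.H636R2.SM.Spec

/-!
# ADM: the order functions are admissible (helper204)
-/

set_option autoImplicit false

namespace SmSm

open Real

theorem adm_gen (ψ g : ℕ → ℝ) (ρ : ℝ) (hρ : 0 < ρ) (hψ : ∀ k, ψ k = (k : ℝ) ^ (-ρ) * g k)
    (hg : ∀ k, 2 ≤ k → 0 < g k) (hm : ∀ a b, 2 ≤ a → a ≤ b → g a ≤ g b) : Adm ψ := by
  have h2 : (1 : ℝ) ≤ 2 ^ ρ := Real.one_le_rpow (by norm_num) hρ.le
  refine ⟨fun k hk => ?_, ρ, 2 ^ ρ, hρ, by positivity, fun L m hL hm2 => ?_,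
    fun a b ha hab hba => ?_⟩
  · rw [hψ]
    have hk0 : (0 : ℝ) < (k : ℝ) := by exact_mod_cast (by omega : 0 < k)
    exact mul_pos (Real.rpow_pos_of_pos hk0 _) (hg k hk)
  · have hL0 : (0 : ℝ) < (L : ℝ) := by exact_mod_cast (by omega : 0 < L)
    have hm0 : (0 : ℝ) < (m : ℝ) := by exact_mod_cast (by omega : 0 < m)
    have hLm : m ≤ L * m := Nat.le_mul_of_pos_left m (by omega)
    have h3 : (L : ℝ) ^ ρ * ψ (L * m) = (m : ℝ) ^ (-ρ) * g (L * m) := by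
      rw [hψ, Nat.cast_mul, Real.mul_rpow hL0.le hm0.le, Real.rpow_neg hL0.le]
      have h4 : (L : ℝ) ^ ρ ≠ 0 := (Real.rpow_pos_of_pos hL0 ρ).ne'
      field_simp
    have h5 : 0 ≤ (m : ℝ) ^ (-ρ) * g (L * m) :=
      mul_nonneg (Real.rpow_nonneg hm0.le _) (hg _ (by omega)).le
    calc ψ m = (m : ℝ) ^ (-ρ) * g m := hψ m
      _ ≤ (m : ℝ) ^ (-ρ) * g (L * m) :=
        mul_le_mul_of_nonneg_left (hm m (L * m) hm2 hLm) (Real.rpow_nonneg hm0.le _)
      _ ≤ 2 ^ ρ * ((m : ℝ) ^ (-ρ) * g (L * m)) := le_mul_of_one_le_left h5 h2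
      _ = 2 ^ ρ * (L : ℝ) ^ ρ * ψ (L * m) := by rw [mul_assoc, h3]
  · have ha0 : (0 : ℝ) < (a : ℝ) := by exact_mod_cast (by omega : 0 < a)
    have hb0 : (0 : ℝ) < (b : ℝ) := by exact_mod_cast (by omega : 0 < b)
    have hba' : (b : ℝ) ≤ 2 * a := by exact_mod_cast hba
    have h3 : (a : ℝ) ^ (-ρ) ≤ 2 ^ ρ * (b : ℝ) ^ (-ρ) := by
      have h4 : (2 * (a : ℝ)) ^ (-ρ) ≤ (b : ℝ) ^ (-ρ) :=
        Real.rpow_le_rpow_of_nonpos hb0 hba' (by linarith)
      rw [Real.mul_rpow (by norm_num) ha0.le, Real.rpow_neg (by norm_num : (0 : ℝ) ≤ 2)] at h4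
      have h5 : (0 : ℝ) < 2 ^ ρ := by positivity
      calc (a : ℝ) ^ (-ρ) = 2 ^ ρ * ((2 ^ ρ)⁻¹ * (a : ℝ) ^ (-ρ)) := by
            field_simp
        _ ≤ 2 ^ ρ * (b : ℝ) ^ (-ρ) := mul_le_mul_of_nonneg_left h4 h5.le
    rw [hψ, hψ]
    calc (a : ℝ) ^ (-ρ) * g a ≤ (2 ^ ρ * (b : ℝ) ^ (-ρ)) * g b :=
          mul_le_mul h3 (hm a b ha hab) (hg a ha).le
            (mul_nonneg (by positivity) (Real.rpow_nonneg hb0.le _))
      _ = 2 ^ ρ * ((b : ℝ) ^ (-ρ) * g b) := by ring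

theorem adm : S_ADM := by
  have hlog : ∀ k : ℕ, 2 ≤ k → 0 < Real.log k := by
    intro k hk
    exact Real.log_pos (by exact_mod_cast hk)
  have hlogm : ∀ a b : ℕ, 2 ≤ a → a ≤ b → Real.log a ≤ Real.log b := by
    intro a b ha hab
    exact Real.log_le_log (by exact_mod_cast (by omega : 0 < a)) (by exact_mod_cast hab)
  constructor
  · intro d r hd hr hr1
    have hd1 : (1 : ℝ) ≤ (d : ℝ) := by exact_mod_cast hd
    have hE : 0 ≤ ((d : ℝ) - 1) * (1 - r) + r :=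
      add_nonneg (mul_nonneg (by linarith) (by linarith)) hr.le
    refine adm_gen (psiA d r) (fun k => (Real.log k) ^ (((d : ℝ) - 1) * (1 - r) + r)) r hr
      (fun k => rfl) (fun k hk => Real.rpow_pos_of_pos (hlog k hk) _) (fun a b ha hab => ?_)
    exact Real.rpow_le_rpow (hlog a ha).le (hlogm a b ha hab) hE
  · intro d hd
    have hd0 : (0 : ℝ) ≤ (d : ℝ) / 2 := by positivity
    refine adm_gen (psiB d) (fun k => (Real.log k) ^ ((d : ℝ) / 2) *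
      (Real.log (Real.log k + 3)) ^ (1 / 2 : ℝ)) (1 / 2) (by norm_num)
      (fun k => by unfold psiB; rw [mul_assoc]) (fun k hk => ?_) (fun a b ha hab => ?_)
    · have h1 := hlog k hk
      exact mul_pos (Real.rpow_pos_of_pos h1 _)
        (Real.rpow_pos_of_pos (Real.log_pos (by linarith)) _)
    · have h1 := hlog a ha
      have h2 := hlogm a b ha hab
      have h3 : 0 ≤ Real.log (Real.log a + 3) := (Real.log_pos (by linarith)).le
      exact mul_le_mul (Real.rpow_le_rpow h1.le h2 hd0)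
        (Real.rpow_le_rpow h3 (Real.log_le_log (by linarith) (by linarith)) (by norm_num))
        (Real.rpow_nonneg h3 _) (Real.rpow_nonneg (h1.le.trans h2) _)

end SmSm
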