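import Pool.Agent.H636R2.SM.SpecH
import Pool.Agent.H636R2.SM.ADM

/-!
# ADMH: the order functions are admissible (helper204)
-/

set_option autoImplicit false

namespace SmSm

open Real

theorem admh : S_ADMH := by
  have hlog : ∀ k : ℕ, 2 ≤ k → 0 < Real.log k := by
    intro k hk
    exact Real.log_pos (by exact_mod_cast hk)
  have hlogm : ∀ a b : ℕ, 2 ≤ a → a ≤ b → Real.log a ≤ Real.log b := by
    intro a b ha hab
    exact Real.log_le_log (by exact_mod_cast (by omega : 0 < a)) (by exact_mod_cast hab)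
  constructor
  · intro d r hd hr hr1
    have hd1 : (1 : ℝ) ≤ (d : ℝ) := by exact_mod_cast hd
    have hE : 0 ≤ ((d : ℝ) - 1) + r := add_nonneg (by linarith) hr.le
    refine adm_gen (psiHA d r) (fun k => (Real.log k) ^ (((d : ℝ) - 1) + r)) r hr
      (fun k => rfl) (fun k hk => Real.rpow_pos_of_pos (hlog k hk) _) (fun a b ha hab => ?_)
    exact Real.rpow_le_rpow (hlog a ha).le (hlogm a b ha hab) hE
  · intro d hd
    have hd1 : (1 : ℝ) ≤ (d : ℝ) := by exact_mod_cast hd
    have hd0 : (0 : ℝ) ≤ (d : ℝ) - 1 / 2 := by linarith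
    refine adm_gen (psiHB d) (fun k => (Real.log k) ^ ((d : ℝ) - 1 / 2) *
      Real.log (Real.log k + 3)) (1 / 2) (by norm_num)
      (fun k => by unfold psiHB; rw [mul_assoc]) (fun k hk => ?_) (fun a b ha hab => ?_)
    · have h1 := hlog k hk
      exact mul_pos (Real.rpow_pos_of_pos h1 _) (Real.log_pos (by linarith))
    · have h1 := hlog a ha
      have h2 := hlogm a b ha hab
      have h3 : 0 ≤ Real.log (Real.log a + 3) := (Real.log_pos (by linarith)).le
      exact mul_le_mul (Real.rpow_le_rpow h1.le h2 hd0)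
        (Real.log_le_log (by linarith) (by linarith)) h3 (Real.rpow_nonneg (h1.le.trans h2) _)

end SmSm
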