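import Pool.Agent.H636R2.SM.Spec
import Pool.Agent.KX.L_ml_bdd
open MeasureTheory Real ProbabilityTheory
open scoped ENNReal BigOperators

namespace SmSm
open HypVol MWidth

theorem bdd (h : S_SPLIT) : S_BDD := by
  intro 𝕜 _ d hd q r hq hr α
  have hq0 : 0 < q := by linarith
  have hr0 : 0 < r := lt_trans (by positivity) hr
  obtain ⟨C, hC, hsplit⟩ := h d hd q r hq hr α
  obtain ⟨C', hC', hcard⟩ := card_layer_le d hd
  set r' : ℝ := r + (1/2 - 1/q) with hr'
  have hr'2 : 1/2 < r' := by rw [hr']; linarith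
  have hsum := HypVol.Sol_KX_ml_bdd.x330_summable (d-1) r' hr'2
  let b : ℕ → ℝ := fun n => (Real.sqrt C' * C) * (((n:ℝ)+1)^(d-1) * ((2:ℝ)^(1/2 - r'))^n)
  have hb : Summable b := hsum.mul_left _
  have hb0 : ∀ n, 0 ≤ b n := fun n => by
    have : (0:ℝ) < (2:ℝ)^(1/2 - r') := Real.rpow_pos_of_pos (by norm_num) _
    positivity
  refine ⟨(∑' n, b n) + C, by
    have h0 : 0 ≤ ∑' n, b n := tsum_nonneg hb0
    linarith, ?_⟩
  intro f hf
  have hq1 : (1 : ℝ≥0∞) ≤ ENNReal.ofReal q := by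
    rw [← ENNReal.ofReal_one]
    exact ENNReal.ofReal_le_ofReal (by linarith)
  have hW := ML_memC 𝕜 (ENNReal.ofReal q) hq1 r hr0 α f hf
  obtain ⟨A, g, -, hA1, hA2, hA3⟩ := hsplit _ hW 0
  have hmeas : AEStronglyMeasurable f (TP d) := by
    have h1 : AEStronglyMeasurable (fun x => toC (f x)) (TP d) := hW.1.1
    have h2 : Continuous (fun w : ℂ => ((w.re : ℝ) : 𝕜) + ((w.im : ℝ) : 𝕜) * RCLike.I) := by
      refine Continuous.add ?_ (Continuous.mul ?_ continuous_const)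
      · exact RCLike.continuous_ofReal.comp Complex.continuous_re
      · exact RCLike.continuous_ofReal.comp Complex.continuous_im
    have h3 := h2.comp_aestronglyMeasurable h1
    refine h3.congr (Filter.Eventually.of_forall (fun x => ?_))
    exact HypVol.Sol_KX_ml_bdd.x330_recover (f x)
  have hbound : ∀ n x, ‖poly (A n) x‖ ≤ b n := by
    intro n x
    refine (HypVol.Sol_KX_ml_bdd.x330_poly_le (A n) x).trans ?_
    have h1 : Real.sqrt (∑ i, A n i ^ 2) ≤ C * (2:ℝ)^(-(r' * n)) := by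
      rw [Real.sqrt_le_left (by positivity)]
      refine (hA1 n).trans (le_of_eq ?_)
      rw [Nat.sub_zero, mul_assoc, ← Real.rpow_add (by norm_num)]
      congr 3
      rw [hr']
      ring
    have h2 : Real.sqrt ((layer d n).card) ≤ Real.sqrt C' * Real.sqrt ((2:ℝ)^n) * ((n:ℝ)+1)^(d-1) := by
      have h3 : Real.sqrt ((layer d n).card) ≤ Real.sqrt (C' * 2^n * ((n:ℝ)+1)^(d-1)) :=
        Real.sqrt_le_sqrt (hcard n)
      refine h3.trans ?_
      rw [Real.sqrt_mul (by positivity), Real.sqrt_mul hC'.le]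
      refine mul_le_mul_of_nonneg_left ?_ (by positivity)
      rw [Real.sqrt_le_left (by positivity)]
      have h4 : (1:ℝ) ≤ ((n:ℝ)+1)^(d-1) := one_le_pow₀ (by linarith [Nat.cast_nonneg (α := ℝ) n])
      nlinarith
    calc Real.sqrt ((layer d n).card) * Real.sqrt (∑ i, A n i ^ 2)
        ≤ (Real.sqrt C' * Real.sqrt ((2:ℝ)^n) * ((n:ℝ)+1)^(d-1)) * (C * (2:ℝ)^(-(r' * n))) :=
          mul_le_mul h2 h1 (Real.sqrt_nonneg _) (by positivity)
      _ = (Real.sqrt C' * C) * (((n:ℝ)+1)^(d-1) * (Real.sqrt ((2:ℝ)^n) * (2:ℝ)^(-(r' * n)))) := by ring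
      _ = b n := by rw [HypVol.Sol_KX_ml_bdd.x330_pow2]
  have hae : ∀ᵐ x ∂(TP d), ‖f x‖ ≤ (∑' n, b n) + C := by
    filter_upwards [hA3] with x hx
    rw [← HypVol.Sol_KX_ml_bdd.x330_norm_toC]
    have h1 : Summable (fun n => ‖poly (A n) x‖) :=
      Summable.of_nonneg_of_le (fun n => norm_nonneg _) (fun n => hbound n x) hb
    have h2 : ‖g x‖ ≤ ∑' n, b n := by
      rw [← (hA2 x).tsum_eq]
      refine (norm_tsum_le_tsum_norm h1).trans ?_
      exact h1.tsum_le_tsum (fun n => hbound n x) hb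
    have h3 : ‖toC (f x) - g x‖ ≤ C := by
      refine hx.trans (le_of_eq ?_)
      simp
    have h4 : ‖toC (f x)‖ ≤ ‖toC (f x) - g x‖ + ‖g x‖ := by
      have := norm_add_le (toC (f x) - g x) (g x)
      rwa [sub_add_cancel] at this
    linarith
  refine ⟨memLp_top_of_bound hmeas _ hae, ?_⟩
  rw [eLpNorm_exponent_top]
  exact eLpNormEssSup_le_of_ae_bound hae

end SmSm
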