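import Pool.Agent.H636R2.SM.Spec
import Pool.Agent.KX.L_carl
open MeasureTheory Real ProbabilityTheory
open scoped ENNReal BigOperators

namespace SmSm
open HypVol MWidth

theorem cl : S_CL := by
  intro 𝕜 _ d Θ B ψ hψ hB hup hlow
  obtain ⟨hpos, ρ, c₀, hρ, hc₀, hmul, hdbl⟩ := hψ
  have hprob := TP_prob d
  obtain ⟨c, hc, hlow⟩ := hlow
  obtain ⟨C, hC, hup⟩ := hup
  have hm : ∀ f ∈ Θ, MemLp f ⊤ (TP d) := fun f hf => (hB f hf).1
  have hTB : ∀ x ∈ {x : Lp 𝕜 ⊤ (TP d) | ∃ f, ∃ hf : f ∈ Θ, x = (hm f hf).toLp f},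
      ‖x‖ ≤ max B 0 := by
    rintro x ⟨f, hf, rfl⟩
    rw [Lp.norm_toLp]
    apply ENNReal.toReal_le_of_le_ofReal (le_max_right _ _)
    exact (hB f hf).2.trans (ENNReal.ofReal_le_ofReal (le_max_left _ _))
  obtain ⟨A, K, hA, hmain⟩ := Sol_KX_carl.main562 _ (max B 0) hTB ψ (max c₀ 1) (2 * C)
    (le_max_right _ _) (by positivity) hpos
    (fun a b ha hab hb => (hdbl a b ha hab hb).trans
      (mul_le_mul_of_nonneg_right (le_max_left _ _) (hpos b (ha.trans hab)).le)) (fun m hm2 => by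
      have hR := hpos m hm2
      apply Sol_KX_carl.wid562 Θ hm m (2 * C * ψ m) (by positivity)
      refine (hup m hm2).trans_lt ?_
      rw [ENNReal.ofReal_lt_ofReal_iff (by positivity)]
      nlinarith [mul_pos hC hR])
  obtain ⟨s, hs⟩ := Sol_KX_carl.exs562 ρ c ((2 * A + 3) * c₀) hc (by positivity) K
  refine ⟨(1 / 2) ^ s, by positivity, ?_⟩
  intro m hm2
  by_contra hlt
  push Not at hlt
  have hR := hpos m hm2
  obtain ⟨V, hV1, hV2, hV3⟩ := Sol_KX_carl.wid562 Θ hm m ((1 / 2) ^ s * ψ m) (by positivity) hlt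
  obtain ⟨F, hF1, hF2⟩ := hmain m hm2
  have := hV1
  obtain ⟨F', hF3, hF4⟩ := Sol_KX_carl.step562 _ F (A * ψ m) (by positivity) hF2 V (2 * m) hV2 _
    (by positivity) hV3 s
  set L : ℕ := K + 6 * s + 1 with hL
  have hcard : F'.card ≤ 2 ^ (L * m) := by
    calc F'.card ≤ F.card * (5 ^ (2 * m)) ^ s := hF3
      _ ≤ 2 ^ (K * m) * ((2 ^ 3) ^ (2 * m)) ^ s := by
          gcongr
          norm_num
      _ = 2 ^ (K * m + 6 * m * s) := by
          rw [← pow_mul, ← pow_mul, ← pow_add]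
          congr 1
          ring
      _ ≤ 2 ^ (L * m) := by
          apply Nat.pow_le_pow_right (by norm_num)
          rw [hL]
          nlinarith
  have hrad : (1 / 2 : ℝ) ^ s * ψ m + 2 * (A * ψ m + (1 / 2) ^ s * ψ m) / 2 ^ s ≤
      (2 * A + 3) * (1 / 2) ^ s * ψ m := by
    have e1 : 2 * (A * ψ m + (1 / 2) ^ s * ψ m) / 2 ^ s =
        2 * (A + (1 / 2) ^ s) * (1 / 2) ^ s * ψ m := by
      rw [one_div, inv_pow]
      field_simp
    have e2 : (1 / 2 : ℝ) ^ s ≤ 1 := pow_le_one₀ (by norm_num) (by norm_num)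
    have e3 : 0 < (1 / 2 : ℝ) ^ s * ψ m := by positivity
    rw [e1]
    nlinarith
  have hc1 := Sol_KX_carl.cov562 Θ hm (L * m) ((2 * A + 3) * (1 / 2) ^ s * ψ m) (by positivity) F' hcard
    (fun x hx => by
      obtain ⟨v, hv, h1⟩ := hF4 x hx
      exact ⟨v, hv, h1.trans hrad⟩)
  have hLm : 2 ≤ L * m := by rw [hL]; nlinarith
  have hc2 := (hlow (L * m) hLm).trans hc1
  rw [ENNReal.ofReal_le_ofReal_iff (by positivity)] at hc2
  have h5 := hmul L m (by omega) hm2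
  have hL0 : (0 : ℝ) < (L : ℝ) ^ ρ := Real.rpow_pos_of_pos (by exact_mod_cast (by omega : 0 < L)) ρ
  have h6 : c * ψ m ≤ c₀ * (L : ℝ) ^ ρ * ((2 * A + 3) * (1 / 2) ^ s * ψ m) := by
    calc c * ψ m ≤ c * (c₀ * (L : ℝ) ^ ρ * ψ (L * m)) := by gcongr
      _ = c₀ * (L : ℝ) ^ ρ * (c * ψ (L * m)) := by ring
      _ ≤ _ := by gcongr
  have h7 : c ≤ c₀ * (L : ℝ) ^ ρ * ((2 * A + 3) * (1 / 2) ^ s) := by
    apply le_of_mul_le_mul_right _ hR
    calc c * ψ m ≤ _ := h6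
      _ = _ := by ring
  have h8 : c * 2 ^ s ≤ (2 * A + 3) * c₀ * (L : ℝ) ^ ρ := by
    calc c * 2 ^ s ≤ c₀ * (L : ℝ) ^ ρ * ((2 * A + 3) * (1 / 2) ^ s) * 2 ^ s := by gcongr
      _ = (2 * A + 3) * c₀ * (L : ℝ) ^ ρ := by
        rw [one_div, inv_pow]
        field_simp
  linarith

end SmSm
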