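import Pool.Agent.H636R2.SM.Spec
open MeasureTheory Real ProbabilityTheory
open scoped ENNReal BigOperators ComplexConjugate

namespace SmSm
open HypVol MWidth

/-- the exponential -/
noncomputable def cs_e (k : ℤ) (t : ℝ) : ℂ := Complex.exp (Complex.I * ((k:ℝ) * t : ℝ))

theorem cs_e_cont (k : ℤ) : Continuous (cs_e k) := by
  unfold cs_e; fun_prop

theorem cs_int (n : ℤ) (hn : n ≠ 0) : ∫ t in (0:ℝ)..(2*π), cs_e n t = 0 := by
  have hc : (Complex.I * (n:ℂ)) ≠ 0 := mul_ne_zero Complex.I_ne_zero (by exact_mod_cast hn)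
  have e : ∀ t : ℝ, cs_e n t = Complex.exp ((Complex.I * (n:ℂ)) * t) := by
    intro t; unfold cs_e; congr 1; push_cast; ring
  simp_rw [e]
  rw [integral_exp_mul_complex hc]
  have h1 : Complex.exp (Complex.I * (n:ℂ) * ((2 * π : ℝ) : ℂ)) = 1 := by
    rw [Complex.exp_eq_one_iff]
    refine ⟨n, ?_⟩
    push_cast; ring
  rw [h1]; simp

theorem cs_int0 : ∫ t in (0:ℝ)..(2*π), cs_e 0 t = ((2 * π : ℝ) : ℂ) := by
  have e : ∀ t : ℝ, cs_e 0 t = 1 := by intro t; unfold cs_e; simp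
  simp_rw [e]
  rw [intervalIntegral.integral_const]; simp

theorem cs_mul_conj (k l : ℤ) (t : ℝ) : cs_e k t * conj (cs_e l t) = cs_e (k - l) t := by
  unfold cs_e
  rw [← Complex.exp_conj, ← Complex.exp_add]
  congr 1
  simp only [map_mul, Complex.conj_I, Complex.conj_ofReal]
  push_cast; ring

/-- Parseval -/
theorem cs_parseval (S : Finset ℤ) (a : ℤ → ℂ) :
    ∫ t in (0:ℝ)..(2*π), ‖∑ k ∈ S, a k * cs_e k t‖^2 = 2 * π * ∑ k ∈ S, ‖a k‖^2 := by
  have h1 : ∀ t : ℝ, ((‖∑ k ∈ S, a k * cs_e k t‖^2 : ℝ) : ℂ) =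
      ∑ k ∈ S, ∑ l ∈ S, (a k * conj (a l)) * cs_e (k - l) t := by
    intro t
    have : ((‖∑ k ∈ S, a k * cs_e k t‖^2 : ℝ) : ℂ) =
        (∑ k ∈ S, a k * cs_e k t) * conj (∑ k ∈ S, a k * cs_e k t) := by
      rw [Complex.mul_conj, Complex.normSq_eq_norm_sq]
    rw [this, map_sum, Finset.sum_mul_sum]
    refine Finset.sum_congr rfl fun k _ => Finset.sum_congr rfl fun l _ => ?_
    rw [map_mul, ← cs_mul_conj]; ring
  have h2 : ((∫ t in (0:ℝ)..(2*π), ‖∑ k ∈ S, a k * cs_e k t‖^2 : ℝ) : ℂ) =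
      ((2 * π * ∑ k ∈ S, ‖a k‖^2 : ℝ) : ℂ) := by
    rw [← intervalIntegral.integral_ofReal]
    simp_rw [h1]
    rw [intervalIntegral.integral_finsetSum]
    · have h3 : ∀ k ∈ S, ∫ t in (0:ℝ)..(2*π), ∑ l ∈ S, (a k * conj (a l)) * cs_e (k - l) t =
          ((2 * π * ‖a k‖^2 : ℝ) : ℂ) := by
        intro k hk
        rw [intervalIntegral.integral_finsetSum]
        · rw [Finset.sum_eq_single k]
          · rw [intervalIntegral.integral_const_mul, sub_self, cs_int0, Complex.mul_conj,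
              Complex.normSq_eq_norm_sq]
            push_cast; ring
          · intro l _ hl
            rw [intervalIntegral.integral_const_mul, cs_int _ (sub_ne_zero.2 (Ne.symm hl)), mul_zero]
          · intro h; exact absurd hk h
        · intro l _
          exact ((cs_e_cont (k - l)).const_mul _).intervalIntegrable _ _
      rw [Finset.sum_congr rfl h3]
      push_cast
      rw [Finset.mul_sum]
    · intro k _
      refine Continuous.intervalIntegrable ?_ _ _
      exact continuous_finsetSum _ fun l _ => (cs_e_cont (k - l)).const_mul _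
  exact_mod_cast h2

theorem cs_amgm (X A B : ℝ) (hA : 0 ≤ A) (hB : 0 ≤ B) (h : ∀ l : ℝ, 0 < l → 2 * X ≤ l * A + B / l) :
    X ≤ Real.sqrt (A * B) := by
  rcases le_or_gt X 0 with hX | hX
  · exact hX.trans (Real.sqrt_nonneg _)
  rcases hA.eq_or_lt with hA0 | hA0
  · exfalso
    have h1 := h ((B + 1) / X) (by positivity)
    rw [← hA0, mul_zero, zero_add, div_div_eq_mul_div] at h1
    have h2 : B * X / (B + 1) ≤ X := by
      rw [div_le_iff₀ (by positivity)]
      nlinarith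
    linarith
  · have h1 := h (X / A) (by positivity)
    have e1 : X / A * A = X := by field_simp
    rw [e1, div_div_eq_mul_div] at h1
    have h2 : X ≤ B * A / X := by linarith
    rw [le_div_iff₀ hX] at h2
    refine Real.le_sqrt_of_sq_le ?_
    nlinarith

/-- the weight -/
theorem cs_norm (t : ℝ) : ‖cs_e (-1) t - 1‖ = 2 * |Real.sin (t / 2)| := by
  have h1 : ‖cs_e (-1) t - 1‖^2 = (2 * |Real.sin (t / 2)|)^2 := by
    have e : cs_e (-1) t = Complex.exp (((-t : ℝ) : ℂ) * Complex.I) := by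
      unfold cs_e; congr 1; push_cast; ring
    rw [e, ← Complex.normSq_eq_norm_sq, Complex.normSq_apply]
    rw [Complex.sub_re, Complex.sub_im, Complex.exp_ofReal_mul_I_re, Complex.exp_ofReal_mul_I_im,
      Complex.one_re, Complex.one_im, Real.cos_neg, Real.sin_neg, mul_pow, sq_abs]
    have h2 : Real.cos t = 1 - 2 * Real.sin (t/2)^2 := by
      have := Real.cos_two_mul (t/2)
      have h3 := Real.sin_sq_add_cos_sq (t/2)
      rw [show 2 * (t/2) = t by ring] at this
      rw [this]; linarith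
    have h4 := Real.sin_sq_add_cos_sq t
    nlinarith
  exact (pow_left_inj₀ (norm_nonneg _) (by positivity) two_ne_zero).1 h1

theorem cs_w (L t : ℝ) (hL : 1 ≤ L) (h0 : 0 ≤ t) (h1 : t ≤ 2 * π) :
    (1 + L^2 * ‖cs_e (-1) t - 1‖^2)⁻¹ ≤
      (1 + ((2 * L / π) * t)^2)⁻¹ + (1 + ((2 * L / π) * (2 * π - t))^2)⁻¹ := by
  have hπ := Real.pi_pos
  have key : ∀ s : ℝ, 0 ≤ s → s ≤ π → ((2 * L / π) * s)^2 ≤ L^2 * (2 * Real.sin (s/2))^2 := by
    intro s hs0 hs1
    have h2 : 2 / π * (s / 2) ≤ Real.sin (s/2) := Real.mul_le_sin (by linarith) (by linarith)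
    have h3 : 0 ≤ 2 / π * (s / 2) := by positivity
    have h4 : ((2 * L / π) * s) = L * (2 * (2 / π * (s / 2))) := by ring
    rw [h4, mul_pow]
    refine mul_le_mul_of_nonneg_left ?_ (by positivity)
    exact pow_le_pow_left₀ (by positivity) (by linarith) 2
  rw [cs_norm]
  have hsq : (2 * |Real.sin (t/2)|)^2 = (2 * Real.sin (t/2))^2 := by
    rw [mul_pow, sq_abs, mul_pow]
  rw [hsq]
  have p1 : 0 ≤ (1 + ((2 * L / π) * t)^2)⁻¹ := by positivity
  have p2 : 0 ≤ (1 + ((2 * L / π) * (2 * π - t))^2)⁻¹ := by positivity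
  rcases le_total t π with ht | ht
  · have := key t h0 ht
    have h5 : (1 + L^2 * (2 * Real.sin (t/2))^2)⁻¹ ≤ (1 + ((2 * L / π) * t)^2)⁻¹ :=
      inv_anti₀ (by positivity) (by linarith)
    linarith
  · have := key (2 * π - t) (by linarith) (by linarith)
    have h6 : Real.sin ((2 * π - t)/2) = Real.sin (t/2) := by
      rw [show (2 * π - t)/2 = π - t/2 by ring, Real.sin_pi_sub]
    rw [h6] at this
    have h5 : (1 + L^2 * (2 * Real.sin (t/2))^2)⁻¹ ≤ (1 + ((2 * L / π) * (2 * π - t))^2)⁻¹ :=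
      inv_anti₀ (by positivity) (by linarith)
    linarith

theorem cs_int1 (c : ℝ) (hc : 0 < c) :
    ∫ t in (0:ℝ)..(2*π), (1 + (c * t)^2)⁻¹ ≤ π / (2 * c) := by
  have h := intervalIntegral.integral_comp_mul_left (a := 0) (b := 2 * π) (fun x : ℝ => (1 + x^2)⁻¹) hc.ne'
  rw [h, mul_zero, integral_inv_one_add_sq, Real.arctan_zero, sub_zero, smul_eq_mul]
  have := (Real.arctan_lt_pi_div_two (c * (2 * π))).le
  calc c⁻¹ * Real.arctan (c * (2 * π)) ≤ c⁻¹ * (π / 2) :=
        mul_le_mul_of_nonneg_left this (inv_nonneg.2 hc.le)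
    _ = π / (2 * c) := by field_simp

theorem cs_int2 (c : ℝ) (hc : 0 < c) :
    ∫ t in (0:ℝ)..(2*π), (1 + (c * (2 * π - t))^2)⁻¹ ≤ π / (2 * c) := by
  have h := intervalIntegral.integral_comp_sub_left (a := 0) (b := 2 * π)
    (fun x : ℝ => (1 + (c * x)^2)⁻¹) (2 * π)
  rw [h, sub_self, sub_zero]
  exact cs_int1 c hc

theorem cs_intw (L : ℝ) (hL : 1 ≤ L) :
    ∫ t in (0:ℝ)..(2*π), (1 + L^2 * ‖cs_e (-1) t - 1‖^2)⁻¹ ≤ π^2 / (2 * L) := by
  have hπ := Real.pi_pos
  have hc : 0 < 2 * L / π := by positivity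
  have cont1 : Continuous (fun t : ℝ => (1 + ((2 * L / π) * t)^2)⁻¹) := by
    refine Continuous.inv₀ (by fun_prop) fun t => ?_
    positivity
  have cont2 : Continuous (fun t : ℝ => (1 + ((2 * L / π) * (2 * π - t))^2)⁻¹) := by
    refine Continuous.inv₀ (by fun_prop) fun t => ?_
    positivity
  have cont0 : Continuous (fun t : ℝ => (1 + L^2 * ‖cs_e (-1) t - 1‖^2)⁻¹) := by
    refine Continuous.inv₀ ?_ fun t => ?_
    · have := cs_e_cont (-1)
      fun_prop
    · positivity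
  calc ∫ t in (0:ℝ)..(2*π), (1 + L^2 * ‖cs_e (-1) t - 1‖^2)⁻¹
      ≤ ∫ t in (0:ℝ)..(2*π), ((1 + ((2 * L / π) * t)^2)⁻¹ + (1 + ((2 * L / π) * (2 * π - t))^2)⁻¹) := by
        refine intervalIntegral.integral_mono_on (by positivity) (cont0.intervalIntegrable _ _)
          ((cont1.add cont2).intervalIntegrable _ _) ?_
        intro t ht
        exact cs_w L t hL ht.1 ht.2
    _ = (∫ t in (0:ℝ)..(2*π), (1 + ((2 * L / π) * t)^2)⁻¹) +
        ∫ t in (0:ℝ)..(2*π), (1 + ((2 * L / π) * (2 * π - t))^2)⁻¹ :=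
        intervalIntegral.integral_add (cont1.intervalIntegrable _ _) (cont2.intervalIntegrable _ _)
    _ ≤ π / (2 * (2 * L / π)) + π / (2 * (2 * L / π)) := add_le_add (cs_int1 _ hc) (cs_int2 _ hc)
    _ = π^2 / (2 * L) := by field_simp; ring

/-- **CS** -/
theorem cs : S_CS := by
  have hπ := Real.pi_pos
  refine ⟨Real.sqrt (π^3), Real.sqrt_pos.2 (by positivity), ?_⟩
  intro N h L hL hh
  have hL0 : 0 < L := by linarith
  set S : Finset ℤ := Finset.Icc (-(N:ℤ)) N with hS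
  set a : ℝ := ∑ k ∈ Finset.Ioo (-(N:ℤ)) N, ‖h k‖^2 with ha
  set b : ℝ := ∑ k ∈ S, ‖h (k+1) - h k‖^2 with hb
  set K : ℝ → ℂ := fun t => ∑ k ∈ Finset.Ioo (-(N:ℤ)) N, h k * cs_e k t with hK
  have hsub : Finset.Ioo (-(N:ℤ)) N ⊆ S := Finset.Ioo_subset_Icc_self
  have hz : ∀ k ∈ S, k ∉ Finset.Ioo (-(N:ℤ)) N → h k = 0 := by
    intro k hk1 hk2
    refine hh k ?_
    simp only [hS, Finset.mem_Icc] at hk1
    simp only [Finset.mem_Ioo, not_and, not_lt] at hk2
    rcases hk1.1.eq_or_lt with h1 | h1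
    · rw [← h1, abs_neg]; exact le_abs_self _
    · exact (hk2 h1).trans (le_abs_self k)
  have hKS : ∀ t, K t = ∑ k ∈ S, h k * cs_e k t := by
    intro t
    refine Finset.sum_subset hsub fun k hk1 hk2 => ?_
    rw [hz k hk1 hk2, zero_mul]
  have hsum : ∀ t, cs_e (-1) t * K t = ∑ k ∈ S, h (k+1) * cs_e k t := by
    intro t
    have e1 : cs_e (-1) t * K t = ∑ k ∈ Finset.Ioo (-(N:ℤ)) N, h k * cs_e (k-1) t := by
      rw [hK, Finset.mul_sum]
      refine Finset.sum_congr rfl fun k _ => ?_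
      have : cs_e (k-1) t = cs_e (-1) t * cs_e k t := by
        unfold cs_e
        rw [← Complex.exp_add]; congr 1; push_cast; ring
      rw [this]; ring
    rw [e1]
    have e2 : ∑ k ∈ Finset.Ioo (-(N:ℤ)) N, h k * cs_e (k-1) t
        = ∑ k ∈ Finset.Ioo (-(N:ℤ)-1) (N-1), h (k+1) * cs_e k t := by
      refine Finset.sum_bij' (fun k _ => k - 1) (fun k _ => k + 1) ?_ ?_ ?_ ?_ ?_
      · intro k hk; simp only [Finset.mem_Ioo] at hk ⊢; omega
      · intro k hk; simp only [Finset.mem_Ioo] at hk ⊢; omega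
      · intro k _; simp
      · intro k _; simp
      · intro k _; simp
    rw [e2]
    refine Finset.sum_subset ?_ ?_
    · intro k hk; simp only [Finset.mem_Ioo, hS, Finset.mem_Icc] at hk ⊢; omega
    · intro k hk1 hk2
      have : h (k+1) = 0 := by
        refine hh _ ?_
        simp only [Finset.mem_Ioo, hS, Finset.mem_Icc] at hk1 hk2
        have : (N:ℤ) ≤ k + 1 := by omega
        exact this.trans (le_abs_self _)
      rw [this, zero_mul]
  have hD : ∀ t, (cs_e (-1) t - 1) * K t = ∑ k ∈ S, (h (k+1) - h k) * cs_e k t := by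
    intro t
    rw [sub_mul, one_mul, hsum, hKS, ← Finset.sum_sub_distrib]
    refine Finset.sum_congr rfl fun k _ => ?_
    ring
  have hKc : Continuous K := by
    refine continuous_finsetSum _ fun k _ => (cs_e_cont k).const_mul _
  have hP1 : ∫ t in (0:ℝ)..(2*π), ‖K t‖^2 = 2 * π * a := cs_parseval _ _
  have hP2 : ∫ t in (0:ℝ)..(2*π), ‖cs_e (-1) t - 1‖^2 * ‖K t‖^2 = 2 * π * b := by
    rw [hb, ← cs_parseval S (fun k => h (k+1) - h k)]
    refine intervalIntegral.integral_congr fun t _ => ?_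
    rw [← hD t, norm_mul, mul_pow]
  have hec := cs_e_cont (-1)
  have ha0 : 0 ≤ a := Finset.sum_nonneg fun _ _ => by positivity
  have hb0 : 0 ≤ b := Finset.sum_nonneg fun _ _ => by positivity
  have contw : Continuous (fun t : ℝ => (1 + L^2 * ‖cs_e (-1) t - 1‖^2)⁻¹) := by
    refine Continuous.inv₀ (by fun_prop) fun t => ?_
    positivity
  have hX : ∫ t in (0:ℝ)..(2*π), ‖K t‖ ≤ Real.sqrt ((2 * π * (a + L^2 * b)) * (π^2 / (2 * L))) := by
    refine cs_amgm _ _ _ (by positivity) (by positivity) fun l hl => ?_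
    have h1 : ∀ t, 2 * ‖K t‖ ≤ l * (‖K t‖^2 + L^2 * (‖cs_e (-1) t - 1‖^2 * ‖K t‖^2))
        + (1 + L^2 * ‖cs_e (-1) t - 1‖^2)⁻¹ / l := by
      intro t
      set w := 1 + L^2 * ‖cs_e (-1) t - 1‖^2 with hw
      have hwp : 0 < w := by positivity
      have e1 : l * (‖K t‖^2 + L^2 * (‖cs_e (-1) t - 1‖^2 * ‖K t‖^2)) = l * w * ‖K t‖^2 := by
        rw [hw]; ring
      rw [e1]
      have e2 : l * w * ‖K t‖^2 + w⁻¹ / l - 2 * ‖K t‖ = (l * w * ‖K t‖ - 1)^2 / (l * w) := by
        field_simp; ring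
      have e3 : 0 ≤ (l * w * ‖K t‖ - 1)^2 / (l * w) := by positivity
      linarith
    have i1 : IntervalIntegrable (fun t => ‖K t‖^2) volume 0 (2*π) := by
      exact (hKc.norm.pow 2).intervalIntegrable _ _
    have i2 : IntervalIntegrable (fun t => ‖cs_e (-1) t - 1‖^2 * ‖K t‖^2) volume 0 (2*π) := by
      refine Continuous.intervalIntegrable ?_ _ _
      fun_prop
    calc 2 * ∫ t in (0:ℝ)..(2*π), ‖K t‖ = ∫ t in (0:ℝ)..(2*π), 2 * ‖K t‖ := by
          rw [intervalIntegral.integral_const_mul]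
      _ ≤ ∫ t in (0:ℝ)..(2*π), (l * (‖K t‖^2 + L^2 * (‖cs_e (-1) t - 1‖^2 * ‖K t‖^2))
        + (1 + L^2 * ‖cs_e (-1) t - 1‖^2)⁻¹ / l) := by
          refine intervalIntegral.integral_mono_on (by positivity) ?_ ?_ fun t _ => h1 t
          · exact (hKc.norm.const_mul 2).intervalIntegrable _ _
          · exact (((i1.add (i2.const_mul _)).const_mul _).add
              ((contw.intervalIntegrable _ _).div_const _))
      _ = l * ((∫ t in (0:ℝ)..(2*π), ‖K t‖^2) + L^2 * ∫ t in (0:ℝ)..(2*π), ‖cs_e (-1) t - 1‖^2 * ‖K t‖^2)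
          + (∫ t in (0:ℝ)..(2*π), (1 + L^2 * ‖cs_e (-1) t - 1‖^2)⁻¹) / l := by
          rw [intervalIntegral.integral_add ((i1.add (i2.const_mul _)).const_mul _)
              ((contw.intervalIntegrable _ _).div_const _),
            intervalIntegral.integral_const_mul, intervalIntegral.integral_add i1 (i2.const_mul _),
            intervalIntegral.integral_const_mul, intervalIntegral.integral_div]
      _ ≤ l * (2 * π * (a + L^2 * b)) + π^2 / (2 * L) / l := by
          rw [hP1, hP2]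
          have := cs_intw L hL
          have h2 : (∫ t in (0:ℝ)..(2*π), (1 + L^2 * ‖cs_e (-1) t - 1‖^2)⁻¹) / l ≤ π^2 / (2 * L) / l :=
            div_le_div_of_nonneg_right this hl.le
          have h3 : l * (2 * π * a + L^2 * (2 * π * b)) = l * (2 * π * (a + L^2 * b)) := by ring
          rw [h3]
          linarith
  have hfin : Real.sqrt ((2 * π * (a + L^2 * b)) * (π^2 / (2 * L))) ≤
      Real.sqrt (π^3) * L^(-(1/2:ℝ)) * (Real.sqrt a + L * Real.sqrt b) := by
    have e1 : (2 * π * (a + L^2 * b)) * (π^2 / (2 * L)) = π^3 * L⁻¹ * (a + L^2 * b) := by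
      field_simp
    rw [e1, Real.sqrt_mul (by positivity), Real.sqrt_mul (by positivity)]
    have e2 : Real.sqrt L⁻¹ = L^(-(1/2:ℝ)) := by
      rw [Real.sqrt_inv, Real.rpow_neg hL0.le, Real.sqrt_eq_rpow]
    rw [e2]
    refine mul_le_mul_of_nonneg_left ?_ (by positivity)
    refine (Real.sqrt_le_left (by positivity)).2 ?_
    have e3 := Real.sq_sqrt ha0
    have e4 := Real.sq_sqrt hb0
    have e5 : 0 ≤ Real.sqrt a * (L * Real.sqrt b) := by positivity
    nlinarith
  exact hX.trans hfin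

end SmSm
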