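import Pool.Agent.H636R2.SM.Spec
import Pool.Agent.KX.L_carl
open MeasureTheory Real ProbabilityTheory
open scoped ENNReal BigOperators

namespace SmSm
open HypVol MWidth

theorem CU_cov {𝕜 : Type} [RCLike 𝕜] {d : ℕ} (Θ : Set ((Fin d → ℝ) → 𝕜))
    (hm : ∀ f ∈ Θ, MemLp f ⊤ (TP d)) (k : ℕ) (ε : ℝ) (F : Finset (Lp 𝕜 ⊤ (TP d)))
    (hF : F.card ≤ 2 ^ k)
    (hF2 : ∀ x ∈ {x : Lp 𝕜 ⊤ (TP d) | ∃ f, ∃ hf : f ∈ Θ, x = (hm f hf).toLp f},
        ∃ v ∈ F, ‖x - v‖ ≤ ε) : Cov ⊤ k (ENNReal.ofReal ε) Θ := by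
  refine ⟨fun i => ((F.toList.getD i 0 : Lp 𝕜 ⊤ (TP d)) : (Fin d → ℝ) → 𝕜), fun j => Lp.memLp _, ?_⟩
  intro f hf
  obtain ⟨v, hv, h1⟩ := hF2 _ ⟨f, hf, rfl⟩
  rw [← Finset.mem_toList] at hv
  obtain ⟨i, hi, hiv⟩ := List.getElem_of_mem hv
  have hi2 : i < 2 ^ k := by
    rw [Finset.length_toList] at hi
    omega
  refine ⟨⟨i, hi2⟩, ?_⟩
  have e1 : (F.toList.getD i 0 : Lp 𝕜 ⊤ (TP d)) = v := by
    rw [List.getD_eq_getElem _ _ hi, hiv]
  simp only [e1]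
  have h2 : eLpNorm (fun x => f x - v x) ⊤ (TP d) = ENNReal.ofReal ‖(hm f hf).toLp f - v‖ := by
    rw [ofReal_norm, Lp.enorm_def]
    apply eLpNorm_congr_ae
    filter_upwards [Lp.coeFn_sub ((hm f hf).toLp f) v, (hm f hf).coeFn_toLp] with x h3 h4
    rw [h3, Pi.sub_apply, h4]
  rw [h2]
  exact ENNReal.ofReal_le_ofReal h1

theorem CU_iter (ψ : ℕ → ℝ) (q : ℝ) (hq : 1 ≤ q) (hpos : ∀ k, 2 ≤ k → 0 < ψ k)
    (h : ∀ a b : ℕ, 2 ≤ a → a ≤ b → b ≤ 2 * a → ψ a ≤ q * ψ b) (j : ℕ) :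
    ∀ a b : ℕ, 2 ≤ a → a ≤ b → b ≤ 2 ^ j * a → ψ a ≤ q ^ j * ψ b := by
  induction j with
  | zero =>
    intro a b h1 h2 h3
    have : b = a := by omega
    subst this; simp
  | succ j ih =>
    intro a b h1 h2 h3
    have hb := hpos b (by omega)
    by_cases hc : b ≤ 2 ^ j * a
    · have h4 := ih a b h1 h2 hc
      have h5 : q ^ j * ψ b ≤ q ^ (j + 1) * ψ b :=
        mul_le_mul_of_nonneg_right (pow_le_pow_right₀ hq (by omega)) hb.le
      linarith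
    · push Not at hc
      have h6 : a ≤ 2 ^ j * a := Nat.le_mul_of_pos_left _ (by positivity)
      have h7 := ih a (2 ^ j * a) h1 h6 le_rfl
      have h8 := h (2 ^ j * a) b (by omega) (by omega) (by rw [pow_succ] at h3; linarith)
      have h9 : q ^ j * ψ (2 ^ j * a) ≤ q ^ j * (q * ψ b) :=
        mul_le_mul_of_nonneg_left h8 (by positivity)
      calc ψ a ≤ _ := h7
        _ ≤ _ := h9
        _ = _ := by rw [pow_succ]; ring

theorem cu : S_CU := by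
  intro 𝕜 _ d Θ B ψ hadm hB hup
  have hprob := TP_prob d
  obtain ⟨hpos, ρ, c, hρ, hc, hmul, hdbl⟩ := hadm
  obtain ⟨C, hC, hup⟩ := hup
  have hm : ∀ f ∈ Θ, MemLp f ⊤ (TP d) := fun f hf => (hB f hf).1
  have hTB : ∀ x ∈ {x : Lp 𝕜 ⊤ (TP d) | ∃ f, ∃ hf : f ∈ Θ, x = (hm f hf).toLp f},
      ‖x‖ ≤ max B 0 := by
    rintro x ⟨f, hf, rfl⟩
    rw [Lp.norm_toLp]
    apply ENNReal.toReal_le_of_le_ofReal (le_max_right _ _)
    exact (hB f hf).2.trans (ENNReal.ofReal_le_ofReal (le_max_left _ _))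
  set q : ℝ := max 1 c with hq
  have hq1 : 1 ≤ q := le_max_left _ _
  have hdbl' : ∀ a b : ℕ, 2 ≤ a → a ≤ b → b ≤ 2 * a → ψ a ≤ q * ψ b := by
    intro a b h1 h2 h3
    refine (hdbl a b h1 h2 h3).trans ?_
    exact mul_le_mul_of_nonneg_right (le_max_right _ _) (hpos b (by omega)).le
  obtain ⟨A, K, hA, hmain⟩ := Sol_KX_carl.main562 _ (max B 0) hTB ψ q (2 * C) hq1 (by positivity)
    hpos hdbl' (fun m hm2 => by
      have hR := hpos m hm2
      apply Sol_KX_carl.wid562 Θ hm m (2 * C * ψ m) (by positivity)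
      refine (hup m hm2).trans_lt ?_
      rw [ENNReal.ofReal_lt_ofReal_iff (by positivity)]
      nlinarith [mul_pos hC hR])
  set j : ℕ := 2 * (K + 1) with hj
  have hS : ∀ i ∈ Finset.Ico 2 (2 * (K + 1)), 0 ≤ max B 0 / ψ i := by
    intro i hi
    rw [Finset.mem_Ico] at hi
    exact div_nonneg (le_max_right _ _) (hpos i hi.1).le
  have hS0 : 0 ≤ ∑ i ∈ Finset.Ico 2 (2 * (K + 1)), max B 0 / ψ i := Finset.sum_nonneg hS
  have hAq : 0 < A * q ^ j := by positivity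
  refine ⟨A * q ^ j + ∑ i ∈ Finset.Ico 2 (2 * (K + 1)), max B 0 / ψ i, by linarith, ?_⟩
  intro k hk
  have hψk := hpos k hk
  by_cases hk2 : 2 * (K + 1) ≤ k
  · -- large k
    set m := k / (K + 1) with hmdef
    have hm2 : 2 ≤ m := by
      rw [hmdef, Nat.le_div_iff_mul_le (by omega)]
      exact hk2
    have hmk : (K + 1) * m ≤ k := Nat.mul_div_le k (K + 1)
    have hkm : k < (K + 1) * (m + 1) := by
      have := Nat.lt_mul_div_succ k (show 0 < K + 1 by omega)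
      exact this
    obtain ⟨F, hF1, hF2⟩ := hmain m hm2
    have hmlek : m ≤ k := Nat.div_le_self _ _
    have hk3 : k ≤ 2 ^ j * m := by
      have h1 : 2 * (K + 1) < 2 ^ j := by rw [hj]; exact Nat.lt_two_pow_self
      have h2 : (K + 1) * (m + 1) ≤ 2 * (K + 1) * m := by nlinarith
      have h3 : 2 * (K + 1) * m ≤ 2 ^ j * m := Nat.mul_le_mul_right _ h1.le
      omega
    have h4 := CU_iter ψ q hq1 hpos hdbl' j m k hm2 hmlek hk3
    refine CU_cov Θ hm k _ F ?_ ?_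
    · refine hF1.trans (Nat.pow_le_pow_right (by norm_num) ?_)
      nlinarith
    · intro x hx
      obtain ⟨v, hv, h5⟩ := hF2 x hx
      refine ⟨v, hv, h5.trans ?_⟩
      have h6 : A * ψ m ≤ A * (q ^ j * ψ k) := mul_le_mul_of_nonneg_left h4 hA.le
      have h7 : 0 ≤ (∑ i ∈ Finset.Ico 2 (2 * (K + 1)), max B 0 / ψ i) * ψ k :=
        mul_nonneg hS0 hψk.le
      calc A * ψ m ≤ A * (q ^ j * ψ k) := h6
        _ ≤ A * (q ^ j * ψ k) + (∑ i ∈ Finset.Ico 2 (2 * (K + 1)), max B 0 / ψ i) * ψ k := by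
            linarith
        _ = _ := by ring
  · -- small k
    push Not at hk2
    refine CU_cov Θ hm k _ {0} (by rw [Finset.card_singleton]; exact Nat.one_le_two_pow) ?_
    intro x hx
    refine ⟨0, by simp, ?_⟩
    rw [sub_zero]
    refine (hTB x hx).trans ?_
    have h1 : max B 0 / ψ k ≤ ∑ i ∈ Finset.Ico 2 (2 * (K + 1)), max B 0 / ψ i :=
      Finset.single_le_sum (f := fun i => max B 0 / ψ i) hS (Finset.mem_Ico.mpr ⟨hk, hk2⟩)
    rw [div_le_iff₀ hψk] at h1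
    have h2 : 0 ≤ A * q ^ j * ψ k := by positivity
    calc max B 0 ≤ _ := h1
      _ ≤ A * q ^ j * ψ k + (∑ i ∈ Finset.Ico 2 (2 * (K + 1)), max B 0 / ψ i) * ψ k := by linarith
      _ = _ := by ring

end SmSm
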