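import Pool.Agent.H636R2.SM.Spec
open MeasureTheory Real ProbabilityTheory
open scoped ENNReal BigOperators

/-! Task EXA: even power sums on a fine grid are translation invariant. -/

set_option autoImplicit false

namespace SmSm
open HypVol MWidth

/-- trigonometric polynomials of degree at most `D` -/
noncomputable def exaT (d : ℕ) (D : ℤ) : Submodule ℂ ((Fin d → ℝ) → ℂ) :=
  Submodule.span ℂ {g | ∃ k : Fin d → ℤ, (∀ j, |k j| ≤ D) ∧ g = chi k}

theorem exa_chi_add {d : ℕ} (k l : Fin d → ℤ) : chi (k + l) = chi k * chi l := by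
  funext x
  simp only [chi, Pi.mul_apply]
  rw [← Complex.exp_add, ← mul_add, ← Complex.ofReal_add, ← Finset.sum_add_distrib]
  have h : ∑ j, (((k + l) j : ℤ) : ℝ) * x j = ∑ j, ((k j : ℝ) * x j + (l j : ℝ) * x j) := by
    refine Finset.sum_congr rfl fun j _ => ?_
    rw [Pi.add_apply]
    push_cast
    ring
  rw [h]

theorem exa_chi_zero {d : ℕ} : chi (0 : Fin d → ℤ) = 1 := by
  funext x
  simp [chi]

theorem exa_conj {d : ℕ} (k : Fin d → ℤ) (x : Fin d → ℝ) :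
    (starRingEnd ℂ) (chi k x) = chi (-k) x := by
  unfold chi
  rw [← Complex.exp_conj, map_mul, Complex.conj_I, Complex.conj_ofReal, neg_mul, ← mul_neg,
    ← Complex.ofReal_neg, ← Finset.sum_neg_distrib]
  have h : ∑ j, -((k j : ℝ) * x j) = ∑ j, (((-k) j : ℤ) : ℝ) * x j := by
    refine Finset.sum_congr rfl fun j _ => ?_
    rw [Pi.neg_apply]
    push_cast
    ring
  rw [h]

theorem exa_mem {d : ℕ} {D : ℤ} (k : Fin d → ℤ) (hk : ∀ j, |k j| ≤ D) : chi k ∈ exaT d D :=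
  Submodule.subset_span ⟨k, hk, rfl⟩

theorem exa_mul {d : ℕ} {D E : ℤ} {g h : (Fin d → ℝ) → ℂ} (hg : g ∈ exaT d D)
    (hh : h ∈ exaT d E) : g * h ∈ exaT d (D + E) := by
  have h1 := Submodule.mul_mem_mul hg hh
  unfold exaT at h1
  rw [Submodule.span_mul_span] at h1
  refine Submodule.span_mono ?_ h1
  rintro _ ⟨_, ⟨k, hk, rfl⟩, _, ⟨l, hl, rfl⟩, rfl⟩
  exact ⟨k + l, fun j => (abs_add_le _ _).trans (add_le_add (hk j) (hl j)),
    (exa_chi_add k l).symm⟩

theorem exa_pow {d : ℕ} {D : ℤ} {g : (Fin d → ℝ) → ℂ} (hg : g ∈ exaT d D) (n : ℕ) :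
    g ^ n ∈ exaT d (n * D) := by
  induction n with
  | zero =>
    rw [pow_zero, ← exa_chi_zero]
    refine exa_mem _ fun j => ?_
    simp
  | succ n ih =>
    have e : ((n + 1 : ℕ) : ℤ) * D = n * D + D := by push_cast; ring
    rw [pow_succ, e]
    exact exa_mul ih hg

/-- geometric sums -/
theorem exa_geom {m : ℕ} (k : ℤ) (hk : |k| < 2 ^ (m + 2)) (hk0 : k ≠ 0) (x : ℝ) :
    ∑ t : Fin (2 ^ (m + 2)),
      Complex.exp (Complex.I * (((k : ℝ) * (x - 2 * π * ((t : ℕ) : ℝ) / 2 ^ (m + 2)) : ℝ) : ℂ)) =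
      0 := by
  set N : ℕ := 2 ^ (m + 2) with hN
  have hN0 : (N : ℂ) ≠ 0 := Nat.cast_ne_zero.2 (by rw [hN]; positivity)
  have hNR : ((N : ℕ) : ℝ) = 2 ^ (m + 2) := by rw [hN]; push_cast; rfl
  set ζ : ℂ := Complex.exp (-(2 * π * Complex.I * k / N)) with hζ
  have hterm : ∀ t : Fin N,
      Complex.exp (Complex.I * (((k : ℝ) * (x - 2 * π * ((t : ℕ) : ℝ) / 2 ^ (m + 2)) : ℝ) : ℂ)) =
        Complex.exp (Complex.I * (k * x)) * ζ ^ (t : ℕ) := by
    intro t
    rw [hζ, ← Complex.exp_nat_mul, ← Complex.exp_add]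
    congr 1
    rw [← hNR]
    push_cast
    field_simp
    ring
  rw [Finset.sum_congr rfl fun t _ => hterm t, ← Finset.mul_sum,
    ← Finset.sum_range (fun t => ζ ^ t)]
  have hζN : ζ ^ N = 1 := by
    rw [hζ, ← Complex.exp_nat_mul, Complex.exp_eq_one_iff]
    refine ⟨-k, ?_⟩
    push_cast
    field_simp
  have hζ1 : ζ ≠ 1 := by
    intro h
    rw [hζ, Complex.exp_eq_one_iff] at h
    obtain ⟨n, hn⟩ := h
    have h1 : (k : ℂ) = -n * N := by
      have h2 : (2 * π * Complex.I : ℂ) ≠ 0 := Complex.two_pi_I_ne_zero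
      have h3 : -(2 * π * Complex.I * k / N) * N = n * (2 * π * Complex.I) * N := by rw [hn]
      have h4 : -(2 * π * Complex.I * k / N) * N = -(2 * π * Complex.I * k) := by
        field_simp
      rw [h4] at h3
      have h5 : (2 * π * Complex.I) * (k : ℂ) = (2 * π * Complex.I) * (-n * N) := by
        linear_combination -h3
      exact mul_left_cancel₀ h2 h5
    have h2 : k = -n * (N : ℤ) := by exact_mod_cast h1
    have h3 : (N : ℤ) ∣ k := ⟨-n, by rw [h2]; ring⟩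
    have h4 := Int.le_of_dvd (abs_pos.2 hk0) ((dvd_abs _ _).2 h3)
    have h5 : (N : ℤ) = 2 ^ (m + 2) := by rw [hN]; push_cast; rfl
    omega
  rw [geom_sum_eq hζ1, hζN, sub_self, zero_div, mul_zero]

theorem exa_chi_prod {d m : ℕ} (k : Fin d → ℤ) (x : Fin d → ℝ) (y : GG d m) :
    chi k (x - gpt y) = ∏ j, Complex.exp (Complex.I *
      (((k j : ℝ) * (x j - 2 * π * ((y j : ℕ) : ℝ) / 2 ^ (m + 2)) : ℝ) : ℂ)) := by
  unfold chi
  rw [← Complex.exp_sum, ← Finset.mul_sum, ← Complex.ofReal_sum]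
  rfl

theorem exa_sum_chi {d m : ℕ} (k : Fin d → ℤ) (hk : ∀ j, |k j| < 2 ^ (m + 2))
    (x x' : Fin d → ℝ) :
    ∑ y : GG d m, chi k (x - gpt y) = ∑ y : GG d m, chi k (x' - gpt y) := by
  classical
  by_cases h0 : k = 0
  · subst h0
    simp only [exa_chi_zero, Pi.one_apply]
  · obtain ⟨j0, hj0⟩ : ∃ j, k j ≠ 0 := by
      by_contra hcon
      push Not at hcon
      exact h0 (funext hcon)
    have key : ∀ x : Fin d → ℝ, ∑ y : GG d m, chi k (x - gpt y) = 0 := by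
      intro x
      have h1 : ∑ y : GG d m, chi k (x - gpt y) = ∏ j, ∑ t : Fin (2 ^ (m + 2)),
          Complex.exp (Complex.I *
            (((k j : ℝ) * (x j - 2 * π * ((t : ℕ) : ℝ) / 2 ^ (m + 2)) : ℝ) : ℂ)) := by
        rw [Finset.prod_univ_sum, Fintype.piFinset_univ]
        exact Finset.sum_congr rfl fun y _ => exa_chi_prod k x y
      rw [h1]
      exact Finset.prod_eq_zero (Finset.mem_univ j0) (exa_geom (k j0) (hk j0) hj0 (x j0))
    rw [key x, key x']

theorem exa_sum {d m : ℕ} {D : ℤ} (hD : D < 2 ^ (m + 2)) {g : (Fin d → ℝ) → ℂ}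
    (hg : g ∈ exaT d D) (x x' : Fin d → ℝ) :
    ∑ y : GG d m, g (x - gpt y) = ∑ y : GG d m, g (x' - gpt y) := by
  unfold exaT at hg
  induction hg using Submodule.span_induction with
  | mem g hg =>
    obtain ⟨k, hk, rfl⟩ := hg
    exact exa_sum_chi k (fun j => (hk j).trans_lt hD) x x'
  | zero => simp
  | add g h _ _ ihg ihh =>
    simp only [Pi.add_apply, Finset.sum_add_distrib]
    rw [ihg, ihh]
  | smul a g _ ih =>
    simp only [Pi.smul_apply, smul_eq_mul, ← Finset.mul_sum]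
    rw [ih]

theorem exa_wker {d : ℕ} (J : Finset ℕ) (w : ℕ → ℝ) (r : ℝ) (α : Fin d → ℝ) (m0 : ℕ)
    (hJ : ∀ μ ∈ J, μ ≤ m0) :
    (fun u => ((wker J w r α u : ℝ) : ℂ)) ∈ exaT d (2 ^ m0 - 1) := by
  classical
  have h1 : (fun u => ((wker J w r α u : ℝ) : ℂ)) = ∑ μ ∈ J, (w μ : ℂ) • ∑ k ∈ layer d μ,
      ((Fh r α k / 2) • chi k + ((starRingEnd ℂ) (Fh r α k) / 2) • chi (-k)) := by
    funext u
    simp only [wker, ker, Finset.sum_apply, Pi.smul_apply, Pi.add_apply, smul_eq_mul]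
    push_cast
    refine Finset.sum_congr rfl fun μ _ => ?_
    congr 1
    refine Finset.sum_congr rfl fun k _ => ?_
    rw [Complex.re_eq_add_conj, map_mul, exa_conj]
    ring
  rw [h1]
  refine Submodule.sum_mem _ fun μ hμ => Submodule.smul_mem _ _ (Submodule.sum_mem _ fun k hk => ?_)
  have h2 : ∀ j, |k j| ≤ 2 ^ m0 - 1 := by
    intro j
    unfold layer at hk
    rw [Finset.mem_filter, Fintype.mem_piFinset] at hk
    have h3 := Finset.mem_Ioo.1 (hk.1 j)
    have h4 : |k j| < 2 ^ μ := abs_lt.2 h3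
    have h5 : (2 : ℤ) ^ μ ≤ 2 ^ m0 := pow_le_pow_right₀ (by norm_num) (hJ μ hμ)
    omega
  refine Submodule.add_mem _ (Submodule.smul_mem _ _ (exa_mem k h2))
    (Submodule.smul_mem _ _ (exa_mem (-k) fun j => ?_))
  rw [Pi.neg_apply, abs_neg]
  exact h2 j

theorem exa : S_EXA := by
  intro d _ J w r α m0 m i hJ hi x x'
  have h1 := exa_pow (exa_wker J w r α m0 hJ) (2 * i)
  have hD : ((2 * i : ℕ) : ℤ) * (2 ^ m0 - 1) < 2 ^ (m + 2) := by
    rcases Nat.eq_zero_or_pos i with h0 | h0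
    · subst h0
      simp
    · have h2 : ((2 * i * 2 ^ m0 : ℕ) : ℤ) ≤ ((2 ^ (m + 2) : ℕ) : ℤ) := by exact_mod_cast hi
      push_cast at h2 ⊢
      have h3 : (1 : ℤ) ≤ i := by exact_mod_cast h0
      linarith
  have h2 := exa_sum (m := m) hD h1 x x'
  simp only [Pi.pow_apply] at h2
  apply Complex.ofReal_injective
  push_cast
  exact h2

end SmSm
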