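import Pool.Agent.H636R2.SM.FAMG
import Pool.Agent.HypVol.L_card_layer
import Pool.Agent.HypVol.L_shp_lower
import Pool.Agent.KX.L_shp_upper

/-!
FAMB: lower bound family for the smoothness `1/2`.
-/

open MeasureTheory Real ProbabilityTheory
open scoped ENNReal BigOperators

namespace SmSm
open HypVol MWidth

theorem famb_w (μ : ℕ) : wB μ = ((2:ℝ)^μ)⁻¹ := by
  unfold wB
  rw [Real.rpow_neg (by norm_num), Real.rpow_natCast]

theorem famb_w_pos (μ : ℕ) : 0 < wB μ := by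
  rw [famb_w]
  positivity

theorem famb_wN (d μ : ℕ) : wB μ * ((layer d μ).card : ℝ) = shp d μ := by
  rw [famb_w, HypVol.card_layer]
  push_cast
  field_simp

theorem famb_geo (n L : ℕ) :
    ∑ μ ∈ Finset.Ico n (n + L), ((2:ℝ)^μ)⁻¹ = 2 * ((2:ℝ)^n)⁻¹ - 2 * ((2:ℝ)^(n+L))⁻¹ := by
  induction L with
  | zero => simp
  | succ L ih =>
    rw [← add_assoc, Finset.sum_Ico_succ_top (by omega), ih, pow_succ (2:ℝ) (n+L), mul_inv]
    ring

theorem famb_card (d m : ℕ) : (Fintype.card (GG d m) : ℝ) = ((2:ℝ)^(m+2))^d := by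
  rw [Fintype.card_fun, Fintype.card_fin, Fintype.card_fin]
  push_cast
  rfl

/-- bounds for the number of shapes -/
theorem famb_shp (d : ℕ) (hd : 1 ≤ d) : ∃ c1 C2 : ℝ, 0 < c1 ∧ 0 < C2 ∧ ∀ n : ℕ, 2 ≤ n →
    ∀ μ ∈ JB n, c1 * (n:ℝ)^(d-1) ≤ shp d μ ∧ (shp d μ : ℝ) ≤ C2 * (n:ℝ)^(d-1) := by
  obtain ⟨c1, hc1, h1⟩ := HypVol.shp_lower d hd
  obtain ⟨C, hC, h2⟩ := HypVol.card_layer_le d hd
  refine ⟨c1, C * 3^(d-1), hc1, by positivity, fun n hn μ hμ => ?_⟩
  unfold JB at hμ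
  rw [Finset.mem_Ico] at hμ
  have hlog : Nat.log 2 n < n := Nat.log_lt_self 2 (by omega)
  constructor
  · refine le_trans ?_ (h1 μ (by omega))
    have : (n:ℝ) ≤ μ := by exact_mod_cast hμ.1
    gcongr
  · have h3 := h2 μ
    rw [HypVol.card_layer] at h3
    push_cast at h3
    have h4 : (shp d μ : ℝ) ≤ C * ((μ:ℝ)+1)^(d-1) := by
      have h5 : (2:ℝ)^μ * (shp d μ : ℝ) ≤ (2:ℝ)^μ * (C * ((μ:ℝ)+1)^(d-1)) := by
        refine h3.trans (le_of_eq ?_)
        ring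
      exact le_of_mul_le_mul_left h5 (by positivity)
    refine h4.trans ?_
    rw [mul_assoc, ← mul_pow]
    have h6 : (μ:ℝ) + 1 ≤ 3 * n := by
      have : μ + 1 ≤ 3 * n := by omega
      exact_mod_cast this
    gcongr

theorem famb (h1 : S_SEP) (h2 : S_HEXP) (h3 : S_PHIB) : S_FAMB := by
  intro d hd α j hj
  obtain ⟨c1, C2, hc1, hC2, hshp⟩ := famb_shp d (by omega)
  obtain ⟨a, Ch, ha, hCh, hexp⟩ := h2 d (by omega)
  obtain ⟨Cφ, hCφ, hmom⟩ := h3 d hd α j hj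
  set a' : ℝ := min (a * c1 / C2) (c1^2 / (32 * Ch * C2)) with ha'
  have ha'0 : 0 < a' := lt_min (by positivity) (by positivity)
  have ha'1 : a' * C2 ≤ a * c1 := by
    have : a' ≤ a * c1 / C2 := min_le_left _ _
    rwa [le_div_iff₀ hC2] at this
  have ha'2 : 32 * Ch * C2 * a' ≤ c1^2 := by
    have : a' ≤ c1^2 / (32 * Ch * C2) := min_le_right _ _
    rw [le_div_iff₀ (by positivity)] at this
    linarith
  refine ⟨min (a' / 100) (c1 / 2), max 1 (10 * Cφ), max 2 (Nat.ceil (200 / a')),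
    lt_min (by positivity) (by positivity), by positivity, fun n hn => ?_⟩
  have hn2 : 2 ≤ n := le_trans (le_max_left _ _) hn
  have hn200 : 200 ≤ a' * n := by
    have h4 : (Nat.ceil (200 / a') : ℝ) ≤ n := by exact_mod_cast le_trans (le_max_right _ _) hn
    have h5 := (Nat.le_ceil (200 / a')).trans h4
    rw [div_le_iff₀ ha'0] at h5
    linarith
  have hlog : Nat.log 2 n < n := Nat.log_lt_self 2 (by omega)
  have hlog1 : 1 ≤ Nat.log 2 n := Nat.log_pos (by norm_num) hn2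
  set L : ℕ := Nat.log 2 n with hL
  set P : ℝ := (n:ℝ)^(d-1) with hP
  have hn0 : (0:ℝ) < n := by exact_mod_cast (by omega : 0 < n)
  have hP0 : 0 < P := by positivity
  have hL0 : (0:ℝ) < L := by exact_mod_cast hlog1
  set κ : ℝ := ∑ μ ∈ JB n, wB μ * (layer d μ).card with hκ
  have hκs : κ = ∑ μ ∈ JB n, (shp d μ : ℝ) := Finset.sum_congr rfl fun μ _ => famb_wN d μ
  have hJc : (JB n).card = L := by
    unfold JB
    simp [hL]
  have hκl : c1 * L * P ≤ κ := by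
    rw [hκs]
    have := Finset.card_nsmul_le_sum (JB n) (fun μ => (shp d μ : ℝ)) (c1 * P)
      (fun μ hμ => (hshp n hn2 μ hμ).1)
    rw [hJc, nsmul_eq_mul] at this
    linarith
  have hκ0 : 0 < κ := lt_of_lt_of_le (by positivity) hκl
  set θ : ℝ := a' * n / κ with hθ
  have hθ0 : 0 < θ := by positivity
  have hθκ : θ * κ = a' * n := by
    rw [hθ]
    field_simp
  set m : ℕ := 2 * n + j + 2 with hm
  have hMreal : ((MB d n : ℕ) : ℝ) = 2^n * (n:ℝ)^(d-2) := by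
    unfold MB
    push_cast
    rfl
  have hMpos : 1 ≤ MB d n := by
    unfold MB
    exact Nat.one_le_iff_ne_zero.2 (by positivity)
  have hPn : (n:ℝ)^(d-2) * n = P := by
    rw [hP, ← pow_succ]
    congr 1
    omega
  -- exponential moments
  have hcond : ∀ μ ∈ JB n, θ * (JB n).card * |wB μ| ≤ a * μ / (layer d μ).card := by
    intro μ hμ
    have hs := hshp n hn2 μ hμ
    have hs0 : (0:ℝ) < shp d μ := lt_of_lt_of_le (by positivity) hs.1
    have hN : ((layer d μ).card : ℝ) = 2^μ * shp d μ := by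
      rw [HypVol.card_layer]
      push_cast
      rfl
    have hμn : (n:ℝ) ≤ μ := by
      unfold JB at hμ
      rw [Finset.mem_Ico] at hμ
      exact_mod_cast hμ.1
    rw [hJc, abs_of_pos (famb_w_pos μ), le_div_iff₀ (by rw [hN]; positivity), mul_assoc,
      famb_wN, hθ, div_mul_eq_mul_div, div_mul_eq_mul_div, div_le_iff₀ hκ0]
    calc a' * n * L * shp d μ ≤ a' * n * L * (C2 * P) := by gcongr; exact hs.2
      _ = (a' * C2) * (n * L * P) := by ring
      _ ≤ (a * c1) * (n * L * P) := by gcongr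
      _ = a * n * (c1 * L * P) := by ring
      _ ≤ a * μ * κ := by gcongr
  have hsum : ∑ μ ∈ JB n, (wB μ)^2 * ((layer d μ).card : ℝ) ≤ C2 * P * (2 * ((2:ℝ)^n)⁻¹) := by
    calc ∑ μ ∈ JB n, (wB μ)^2 * ((layer d μ).card : ℝ)
        = ∑ μ ∈ JB n, ((2:ℝ)^μ)⁻¹ * shp d μ := by
          refine Finset.sum_congr rfl fun μ _ => ?_
          rw [sq, mul_assoc, famb_wN, famb_w]
      _ ≤ ∑ μ ∈ JB n, ((2:ℝ)^μ)⁻¹ * (C2 * P) := by
          refine Finset.sum_le_sum fun μ hμ => ?_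
          have := (hshp n hn2 μ hμ).2
          gcongr
      _ = (∑ μ ∈ JB n, ((2:ℝ)^μ)⁻¹) * (C2 * P) := by rw [Finset.sum_mul]
      _ ≤ (2 * ((2:ℝ)^n)⁻¹) * (C2 * P) := by
          have h4 : ∑ μ ∈ JB n, ((2:ℝ)^μ)⁻¹ ≤ 2 * ((2:ℝ)^n)⁻¹ := by
            unfold JB
            rw [famb_geo]
            have : (0:ℝ) < ((2:ℝ)^(n + Nat.log 2 n))⁻¹ := by positivity
            linarith
          gcongr
      _ = _ := by ring
  have hexpo : ∀ σ : ℝ, σ^2 = θ^2 →
      Ch * ((JB n).card:ℝ)^2 * ∑ μ ∈ JB n, (σ * wB μ)^2 * (layer d μ).card ≤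
        θ * κ / (16 * MB d n) := by
    intro σ hσ
    have h4 : ∑ μ ∈ JB n, (σ * wB μ)^2 * ((layer d μ).card : ℝ) =
        θ^2 * ∑ μ ∈ JB n, (wB μ)^2 * ((layer d μ).card : ℝ) := by
      rw [Finset.mul_sum]
      refine Finset.sum_congr rfl fun μ _ => ?_
      rw [mul_pow, hσ]
      ring
    rw [h4, hJc, hMreal, le_div_iff₀ (by positivity)]
    have h5 : θ * (32 * Ch * C2 * L^2 * P * (n:ℝ)^(d-2)) ≤ κ := by
      rw [hθ, div_mul_eq_mul_div, div_le_iff₀ hκ0]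
      calc a' * n * (32 * Ch * C2 * L^2 * P * (n:ℝ)^(d-2))
          = (32 * Ch * C2 * a') * (L^2 * P * ((n:ℝ)^(d-2) * n)) := by ring
        _ = (32 * Ch * C2 * a') * (L * P)^2 := by rw [hPn]; ring
        _ ≤ c1^2 * (L * P)^2 := by gcongr
        _ = (c1 * L * P) * (c1 * L * P) := by ring
        _ ≤ κ * κ := by gcongr
    calc Ch * (L:ℝ)^2 * (θ^2 * ∑ μ ∈ JB n, (wB μ)^2 * ((layer d μ).card : ℝ)) *
          (16 * (2^n * (n:ℝ)^(d-2)))
        ≤ Ch * (L:ℝ)^2 * (θ^2 * (C2 * P * (2 * ((2:ℝ)^n)⁻¹))) *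
          (16 * (2^n * (n:ℝ)^(d-2))) := by gcongr
      _ = θ * (θ * (32 * Ch * C2 * L^2 * P * (n:ℝ)^(d-2))) := by
          field_simp
          ring
      _ ≤ θ * κ := by gcongr
  have hJm : ∀ μ ∈ JB n, 1 ≤ μ ∧ μ ≤ m := by
    intro μ hμ
    unfold JB at hμ
    rw [Finset.mem_Ico] at hμ
    omega
  have hJne : (JB n).Nonempty := by
    rw [← Finset.card_pos, hJc]
    omega
  have hE : ∀ σ : ℝ, |σ| = θ → ∀ x : GG d m,
      ∑ y : GG d m, Real.exp (σ * wker (JB n) wB 0 0 (gpt x - gpt y)) ≤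
      (Fintype.card (GG d m)) * Real.exp (θ * κ / (16 * MB d n)) := by
    intro σ hσ x
    refine (hexp (JB n) wB m hJne hJm σ (by rw [hσ]; exact hcond) x).trans ?_
    rw [famb_card]
    have h4 := hexpo σ (by rw [← sq_abs, hσ])
    gcongr
  have hB0 : 0 < Cφ * ((MB d n : ℝ) * L * P)^j := by
    rw [hMreal]
    positivity
  have hj2 : 2 * j * 2^(2*n) ≤ 2^(m+2) := by
    have h4 : j < 2^j := Nat.lt_two_pow_self
    have h5 : 2^(m+2) = 2^(2*n) * 2^j * 16 := by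
      rw [hm, show 2 * n + j + 2 + 2 = 2 * n + j + 4 by ring, pow_add, pow_add]
      norm_num
    rw [h5]
    have h6 : 2 * j ≤ 2^j * 16 := by omega
    calc 2 * j * 2^(2*n) ≤ (2^j * 16) * 2^(2*n) := Nat.mul_le_mul_right _ h6
      _ = 2^(2*n) * 2^j * 16 := by ring
  have hν : 10 * (Cφ * ((MB d n : ℝ) * L * P)^j) ≤
      (max 1 (10 * Cφ) * Real.sqrt (2^n * (n:ℝ)^(d-2) * L * P))^(2*j) := by
    rw [hMreal, mul_pow (max 1 (10 * Cφ)), pow_mul (Real.sqrt _), Real.sq_sqrt (by positivity)]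
    have h4 : 10 * Cφ ≤ (max 1 (10 * Cφ))^(2*j) := by
      refine (le_max_right 1 (10 * Cφ)).trans ?_
      exact le_self_pow₀ (le_max_left _ _) (by omega)
    calc 10 * (Cφ * (2^n * (n:ℝ)^(d-2) * L * P)^j) = (10 * Cφ) * (2^n * (n:ℝ)^(d-2) * L * P)^j := by
          ring
      _ ≤ _ := by gcongr
  have hF := famg h1 d (JB n) wB (1/2) α j m (MB d n) θ (Cφ * ((MB d n : ℝ) * L * P)^j) κ
    (max 1 (10 * Cφ) * Real.sqrt (2^n * (n:ℝ)^(d-2) * L * P)) hMpos hκ hκ0 hθ0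
    (by rw [hθκ]; exact hn200) (hE θ (abs_of_pos hθ0)) (hE (-θ) (by rw [abs_neg, abs_of_pos hθ0]))
    hB0 (fun x => ?_) hν
  · refine famg_mono hF ?_ ?_
    · rw [Real.exp_le_exp, hθκ, hMreal]
      calc min (a' / 100) (c1 / 2) * 2^n * P ≤ (a' / 100) * 2^n * P := by
            gcongr
            exact min_le_left _ _
        _ = a' * n * (2^n * (n:ℝ)^(d-2)) / 100 := by
            rw [← hPn]
            ring
    · calc min (a' / 100) (c1 / 2) * L * P ≤ (c1 / 2) * L * P := by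
            gcongr
            exact min_le_right _ _
        _ ≤ κ / 2 := by linarith
  · refine (hmom n m hn2 hj2 (by omega) x).trans (le_of_eq ?_)
    ring

end SmSm
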