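import Pool.Agent.H636R2.SM.Spec
open MeasureTheory Real ProbabilityTheory
open scoped ENNReal BigOperators

/-!
HEXP: exponential moments of the kernel of a window.
-/

namespace SmSm
open HypVol MWidth

theorem hexp (h : S_KEXP) : S_HEXP := by
  intro d hd
  obtain ⟨a, C, ha, hC, hK⟩ := h d hd
  refine ⟨a, C, ha, hC, ?_⟩
  intro J w m hJ hμ θ hθ x
  have hL : (0 : ℝ) < J.card := by exact_mod_cast hJ.card_pos
  have hL0 : (J.card : ℝ) ≠ 0 := hL.ne'
  have h1 : ∀ y : GG d m, Real.exp (θ * wker J w 0 0 (gpt x - gpt y)) ≤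
      ∑ μ ∈ J, (1 / (J.card : ℝ)) *
        Real.exp ((J.card * θ * w μ) * ker μ 0 0 (gpt x - gpt y)) := by
    intro y
    have h2 := convexOn_exp.map_sum_le (t := J) (w := fun _ => 1 / (J.card : ℝ))
      (p := fun μ => (J.card * θ * w μ) * ker μ 0 0 (gpt x - gpt y))
      (fun _ _ => by positivity)
      (by rw [Finset.sum_const, nsmul_eq_mul]; field_simp)
      (fun _ _ => Set.mem_univ _)
    simp only [smul_eq_mul] at h2
    refine le_trans (le_of_eq ?_) h2
    congr 1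
    unfold wker
    rw [Finset.mul_sum]
    refine Finset.sum_congr rfl fun μ _ => ?_
    field_simp
  have h3 : ∀ μ ∈ J, ∑ y : GG d m,
      Real.exp ((J.card * θ * w μ) * ker μ 0 0 (gpt x - gpt y)) ≤
      ((2:ℝ)^(m+2))^d * Real.exp (C * (J.card:ℝ)^2 *
        ∑ μ ∈ J, (θ * w μ)^2 * (layer d μ).card) := by
    intro μ hm
    have h4 : |(J.card : ℝ) * θ * w μ| ≤ a * μ / (layer d μ).card := by
      refine le_trans (le_of_eq ?_) (hθ μ hm)
      rw [abs_mul, abs_mul, abs_of_pos hL]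
      ring
    refine (hK μ m (hμ μ hm).1 (hμ μ hm).2 _ h4 x).trans ?_
    apply mul_le_mul_of_nonneg_left _ (by positivity)
    apply Real.exp_le_exp.2
    have h5 : (θ * w μ)^2 * ((layer d μ).card : ℝ) ≤
        ∑ μ ∈ J, (θ * w μ)^2 * ((layer d μ).card : ℝ) :=
      Finset.single_le_sum (f := fun μ => (θ * w μ)^2 * ((layer d μ).card : ℝ))
        (fun _ _ => by positivity) hm
    calc C * ((J.card : ℝ) * θ * w μ) ^ 2 * ((layer d μ).card : ℝ)
        = C * (J.card : ℝ) ^ 2 * ((θ * w μ)^2 * ((layer d μ).card : ℝ)) := by ring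
      _ ≤ _ := mul_le_mul_of_nonneg_left h5 (by positivity)
  calc ∑ y : GG d m, Real.exp (θ * wker J w 0 0 (gpt x - gpt y))
      ≤ ∑ y : GG d m, ∑ μ ∈ J, (1 / (J.card : ℝ)) *
        Real.exp ((J.card * θ * w μ) * ker μ 0 0 (gpt x - gpt y)) :=
        Finset.sum_le_sum fun y _ => h1 y
    _ = ∑ μ ∈ J, (1 / (J.card : ℝ)) * ∑ y : GG d m,
        Real.exp ((J.card * θ * w μ) * ker μ 0 0 (gpt x - gpt y)) := by
        rw [Finset.sum_comm]
        refine Finset.sum_congr rfl fun μ _ => ?_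
        rw [Finset.mul_sum]
    _ ≤ ∑ μ ∈ J, (1 / (J.card : ℝ)) * (((2:ℝ)^(m+2))^d * Real.exp (C * (J.card:ℝ)^2 *
        ∑ μ ∈ J, (θ * w μ)^2 * (layer d μ).card)) :=
        Finset.sum_le_sum fun μ hm => mul_le_mul_of_nonneg_left (h3 μ hm) (by positivity)
    _ = _ := by
        rw [Finset.sum_const, nsmul_eq_mul]
        field_simp

end SmSm
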