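import Pool.Agent.H636R2.SM.Spec
import Pool.Agent.HypVol.L_layer_approx
open MeasureTheory Real ProbabilityTheory
open scoped ENNReal BigOperators

namespace SmSm
open HypVol MWidth

theorem joint_gp_chi {d : ℕ} (Λ : Finset (Fin d → ℤ)) (a : Λ × Fin 2 → ℝ) (x : Fin d → ℝ) :
    gp Λ a x = ∑ k : Λ, ((a (k, 0) : ℂ) + (a (k, 1) : ℂ) * Complex.I) *
      Sol_disc_poly.chi k.1 x := rfl

theorem joint_card {d N : ℕ} (Λ : Finset (Fin d → ℤ)) (hΛ : ∀ k ∈ Λ, ∀ j, |k j| < (2:ℤ)^N) :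
    Fintype.card Λ ≤ (2 ^ (N + 1)) ^ d := by
  classical
  rw [Fintype.card_coe]
  have hsub : Λ ⊆ Fintype.piFinset (fun _ : Fin d => Finset.Ioo (-(2:ℤ)^N) ((2:ℤ)^N)) := by
    intro k hk
    rw [Fintype.mem_piFinset]
    intro j
    rw [Finset.mem_Ioo]
    exact abs_lt.1 (hΛ k hk j)
  refine (Finset.card_le_card hsub).trans ?_
  rw [Fintype.card_piFinset, Finset.prod_const, Finset.card_univ, Fintype.card_fin]
  refine Nat.pow_le_pow_left ?_ d
  rw [Int.card_Ioo]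
  have h1 : (2 : ℤ) ^ N - -(2 : ℤ) ^ N - 1 ≤ ((2 ^ (N + 1) : ℕ) : ℤ) := by
    push_cast
    rw [pow_succ]
    linarith
  exact Int.toNat_le.2 h1

open Sol_disc_poly in
theorem joint_coef {d N : ℕ} (Λ : Finset (Fin d → ℤ)) (hΛ : ∀ k ∈ Λ, ∀ j, |k j| < (2:ℤ)^N)
    (a : Λ × Fin 2 → ℝ) (ρ : ℝ) (M : ℕ) (hM : 2 ^ (N + 1) ≤ M)
    (h : ∀ g : Fin d → Fin M, ‖gp Λ a (fun j => 2 * π * ((g j : ℕ) : ℝ) / M)‖ ≤ ρ)
    (k : Λ) :
    ‖(a (k, 0) : ℂ) + (a (k, 1) : ℂ) * Complex.I‖ ≤ ρ := by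
  classical
  have hM0 : 0 < M := lt_of_lt_of_le (by positivity) hM
  have key : ∑ g : Fin d → Fin M, gp Λ a (fun j => 2 * π * ((g j : ℕ) : ℝ) / M) *
      Sol_disc_poly.chi (-k.1) (fun j => 2 * π * ((g j : ℕ) : ℝ) / M) =
      (M : ℂ) ^ d * ((a (k, 0) : ℂ) + (a (k, 1) : ℂ) * Complex.I) := by
    simp_rw [joint_gp_chi, Finset.sum_mul]
    rw [Finset.sum_comm]
    rw [Finset.sum_eq_single k]
    · have : ∀ g : Fin d → Fin M, ((a (k, 0) : ℂ) + (a (k, 1) : ℂ) * Complex.I) *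
          Sol_disc_poly.chi k.1 (fun j => 2 * π * ((g j : ℕ) : ℝ) / M) *
          Sol_disc_poly.chi (-k.1) (fun j => 2 * π * ((g j : ℕ) : ℝ) / M) =
          ((a (k, 0) : ℂ) + (a (k, 1) : ℂ) * Complex.I) := by
        intro g
        rw [mul_assoc, chi_mul_freq, add_neg_cancel]
        simp [Sol_disc_poly.chi]
      simp_rw [this]
      rw [Finset.sum_const, Finset.card_univ, Fintype.card_pi_const, Fintype.card_fin, nsmul_eq_mul]
      push_cast
      rfl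
    · intro k' _ hk'
      have : ∀ g : Fin d → Fin M, ((a (k', 0) : ℂ) + (a (k', 1) : ℂ) * Complex.I) *
          Sol_disc_poly.chi k'.1 (fun j => 2 * π * ((g j : ℕ) : ℝ) / M) *
          Sol_disc_poly.chi (-k.1) (fun j => 2 * π * ((g j : ℕ) : ℝ) / M) =
          ((a (k', 0) : ℂ) + (a (k', 1) : ℂ) * Complex.I) *
            Sol_disc_poly.chi (k'.1 + -k.1) (fun j => 2 * π * ((g j : ℕ) : ℝ) / M) := by
        intro g
        rw [mul_assoc, chi_mul_freq]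
      simp_rw [this]
      rw [← Finset.mul_sum, orth M hM0, mul_zero]
      · intro h0
        apply hk'
        apply Subtype.ext
        exact add_neg_eq_zero.1 h0
      · intro j
        have h1 := hΛ k'.1 k'.2 j
        have h2 := hΛ k.1 k.2 j
        have h3 : (2 : ℤ) ^ (N + 1) ≤ M := by exact_mod_cast hM
        rw [pow_succ] at h3
        rw [Pi.add_apply, Pi.neg_apply]
        rw [abs_lt] at h1 h2 ⊢
        constructor <;> linarith [h1.1, h1.2, h2.1, h2.2]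
    · intro h0
      exact absurd (Finset.mem_univ k) h0
  have h2 : ‖(M : ℂ) ^ d * ((a (k, 0) : ℂ) + (a (k, 1) : ℂ) * Complex.I)‖ ≤ (M : ℝ) ^ d * ρ := by
    rw [← key]
    refine (norm_sum_le _ _).trans ?_
    have : ∀ g ∈ (Finset.univ : Finset (Fin d → Fin M)),
        ‖gp Λ a (fun j => 2 * π * ((g j : ℕ) : ℝ) / M) *
        Sol_disc_poly.chi (-k.1) (fun j => 2 * π * ((g j : ℕ) : ℝ) / M)‖ ≤ ρ := by
      intro g _
      rw [norm_mul, chi_norm, mul_one]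
      exact h g
    refine (Finset.sum_le_sum this).trans ?_
    rw [Finset.sum_const, Finset.card_univ, Fintype.card_pi_const, Fintype.card_fin, nsmul_eq_mul]
    push_cast
    exact le_rfl
  rw [norm_mul, norm_pow, Complex.norm_natCast] at h2
  have hMd : (0 : ℝ) < (M : ℝ) ^ d := by positivity
  exact le_of_mul_le_mul_left h2 hMd

open Sol_disc_poly in
theorem joint_disc (d : ℕ) : ∃ c : ℕ, ∀ (N : ℕ) (Λ : Finset (Fin d → ℤ))
    (_ : ∀ k ∈ Λ, ∀ j, |k j| < (2:ℤ)^N) (a : Λ × Fin 2 → ℝ) (ρ : ℝ), 0 ≤ ρ →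
    (∀ g : Fin d → Fin (2^(c*(N+1))), ‖gp Λ a (fun j => 2 * π * ((g j : ℕ) : ℝ) / 2^(c*(N+1)))‖ ≤ ρ) →
    ∀ x : Fin d → ℝ, ‖gp Λ a x‖ ≤ 2 * ρ := by
  refine ⟨2 * d + 4, ?_⟩
  intro n Λ hΛ a ρ hρ h x
  set M : ℕ := 2 ^ ((2 * d + 4) * (n + 1)) with hMdef
  have hMc : ((2 : ℝ) ^ ((2 * d + 4) * (n + 1))) = (M : ℝ) := by rw [hMdef]; push_cast; rfl
  rw [hMc] at h
  have hM0 : 0 < M := by positivity
  have hM0r : (0 : ℝ) < M := by exact_mod_cast hM0
  have hMn : 2 ^ (n + 1) ≤ M := Nat.pow_le_pow_right (by norm_num) (by nlinarith)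
  have hcoef := joint_coef Λ hΛ a ρ M hMn h
  have hpi := Real.pi_pos
  let Z : Fin d → ℤ := fun j => ⌊x j * M / (2 * π)⌋
  let g : Fin d → Fin M := fun j => ⟨(Z j % (M : ℤ)).toNat, by
    have h1 := Int.emod_nonneg (Z j) (show (M : ℤ) ≠ 0 by exact_mod_cast hM0.ne')
    have h2 := Int.emod_lt_of_pos (Z j) (show (0 : ℤ) < M by exact_mod_cast hM0)
    omega⟩
  have hg : ∀ j, ((g j : ℕ) : ℝ) = (Z j : ℝ) - M * ((Z j / (M : ℤ) : ℤ) : ℝ) := by
    intro j
    have h1 := Int.emod_nonneg (Z j) (show (M : ℤ) ≠ 0 by exact_mod_cast hM0.ne')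
    have h2 : (((g j : ℕ) : ℤ)) = Z j - M * (Z j / (M : ℤ)) := by
      show (((Z j % (M : ℤ)).toNat : ℕ) : ℤ) = _
      rw [Int.toNat_of_nonneg h1, Int.emod_def]
    exact_mod_cast h2
  set y : Fin d → ℝ := fun j => 2 * π * ((g j : ℕ) : ℝ) / M with hy
  set x' : Fin d → ℝ := fun j => x j + 2 * π * ((-(Z j / (M : ℤ)) : ℤ) : ℝ) with hx'
  have hpx : gp Λ a x = gp Λ a x' := by
    rw [joint_gp_chi, joint_gp_chi]
    refine Finset.sum_congr rfl (fun k _ => ?_)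
    rw [hx', chi_per k.1 (fun j => -(Z j / (M : ℤ))) x]
  have hdist : ∀ j, |x' j - y j| ≤ 2 * π / M := by
    intro j
    have h1 : x' j - y j = (2 * π / M) * (x j * M / (2 * π) - (Z j : ℝ)) := by
      simp only [hx', hy, hg j]
      push_cast
      field_simp
      ring
    rw [h1, abs_mul, abs_of_pos (by positivity)]
    have h2 : |x j * M / (2 * π) - (Z j : ℝ)| ≤ 1 := by
      have h3 := Int.floor_le (x j * M / (2 * π))
      have h4 := Int.lt_floor_add_one (x j * M / (2 * π))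
      rw [abs_le]
      constructor
      · show -1 ≤ x j * M / (2 * π) - ((⌊x j * M / (2 * π)⌋ : ℤ) : ℝ)
        linarith
      · show x j * M / (2 * π) - ((⌊x j * M / (2 * π)⌋ : ℤ) : ℝ) ≤ 1
        linarith
    have h5 : (0 : ℝ) < 2 * π / M := by positivity
    nlinarith
  have hdiff : ‖gp Λ a x' - gp Λ a y‖ ≤ ρ := by
    have h1 : gp Λ a x' - gp Λ a y = ∑ k : Λ,
        ((a (k, 0) : ℂ) + (a (k, 1) : ℂ) * Complex.I) *
          (Sol_disc_poly.chi k.1 x' - Sol_disc_poly.chi k.1 y) := by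
      rw [joint_gp_chi, joint_gp_chi, ← Finset.sum_sub_distrib]
      refine Finset.sum_congr rfl (fun k _ => ?_)
      ring
    rw [h1]
    refine (norm_sum_le _ _).trans ?_
    have h2 : ∀ k ∈ (Finset.univ : Finset Λ),
        ‖((a (k, 0) : ℂ) + (a (k, 1) : ℂ) * Complex.I) *
          (Sol_disc_poly.chi k.1 x' - Sol_disc_poly.chi k.1 y)‖ ≤
        ρ * (d * (2 ^ n * (2 * π / M))) := by
      intro k _
      rw [norm_mul]
      refine mul_le_mul (hcoef k) ?_ (norm_nonneg _) hρ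
      refine (chi_sub k.1 x' y).trans ((Finset.abs_sum_le_sum_abs _ _).trans ?_)
      have h3 : ∀ j ∈ (Finset.univ : Finset (Fin d)), |(k.1 j : ℝ) * (x' j - y j)| ≤
          2 ^ n * (2 * π / M) := by
        intro j _
        rw [abs_mul]
        have h4 : |((k.1 j : ℤ) : ℝ)| ≤ 2 ^ n := by
          have := (hΛ k.1 k.2 j).le
          exact_mod_cast this
        exact mul_le_mul h4 (hdist j) (abs_nonneg _) (by positivity)
      refine (Finset.sum_le_sum h3).trans ?_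
      rw [Finset.sum_const, Finset.card_univ, Fintype.card_fin, nsmul_eq_mul]
    refine (Finset.sum_le_sum h2).trans ?_
    rw [Finset.sum_const, Finset.card_univ, nsmul_eq_mul]
    have hcard : ((Fintype.card Λ : ℕ) : ℝ) ≤ (2 ^ (n + 1)) ^ d := by
      exact_mod_cast (joint_card Λ hΛ)
    have hfin : ((2 : ℝ) ^ (n + 1)) ^ d * (d * (2 ^ n * (2 * π))) ≤ M := by
      have hd : (d : ℝ) ≤ 2 ^ d := by
        have := (Nat.lt_two_pow_self (n := d)).le
        exact_mod_cast this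
      have hpi4 : 2 * π ≤ 2 ^ 3 := by linarith [Real.pi_le_four]
      calc ((2 : ℝ) ^ (n + 1)) ^ d * (d * (2 ^ n * (2 * π)))
          ≤ ((2 : ℝ) ^ (n + 1)) ^ d * (2 ^ d * (2 ^ n * 2 ^ 3)) := by gcongr
        _ = 2 ^ ((n + 1) * d + (d + (n + 3))) := by
            rw [← pow_mul, ← pow_add, ← pow_add, ← pow_add]
        _ ≤ 2 ^ ((2 * d + 4) * (n + 1)) := by
            apply pow_le_pow_right₀ (by norm_num)
            nlinarith
        _ = M := hMc
    calc ((Fintype.card Λ : ℕ) : ℝ) * (ρ * (d * (2 ^ n * (2 * π / M))))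
        ≤ (2 ^ (n + 1)) ^ d * (ρ * (d * (2 ^ n * (2 * π / M)))) := by gcongr
      _ = ρ * (((2 : ℝ) ^ (n + 1)) ^ d * (d * (2 ^ n * (2 * π))) / M) := by ring
      _ ≤ ρ * 1 := by
          refine mul_le_mul_of_nonneg_left ?_ hρ
          rw [div_le_one hM0r]
          exact hfin
      _ = ρ := mul_one ρ
  have hyb := h g
  rw [hpx]
  calc ‖gp Λ a x'‖ = ‖(gp Λ a x' - gp Λ a y) + gp Λ a y‖ := by rw [sub_add_cancel]
    _ ≤ ‖gp Λ a x' - gp Λ a y‖ + ‖gp Λ a y‖ := norm_add_le _ _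
    _ ≤ ρ + ρ := add_le_add hdiff hyb
    _ = 2 * ρ := by ring

theorem joint_re {d : ℕ} (Λ : Finset (Fin d → ℤ)) (a : Λ × Fin 2 → ℝ) (x : Fin d → ℝ) :
    (gp Λ a x).re = ∑ k : Λ, (a (k, 0) * Real.cos (∑ j, (k.1 j : ℝ) * x j) -
      a (k, 1) * Real.sin (∑ j, (k.1 j : ℝ) * x j)) := by
  unfold gp
  rw [Complex.re_sum]
  refine Finset.sum_congr rfl fun k _ => ?_
  generalize (∑ j, (k.1 j : ℝ) * x j) = θ
  rw [mul_comm Complex.I, Complex.exp_mul_I, ← Complex.ofReal_cos, ← Complex.ofReal_sin]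
  simp only [Complex.mul_re, Complex.mul_im, Complex.add_re, Complex.add_im, Complex.ofReal_re,
    Complex.ofReal_im, Complex.I_re, Complex.I_im]
  ring

theorem joint_im {d : ℕ} (Λ : Finset (Fin d → ℤ)) (a : Λ × Fin 2 → ℝ) (x : Fin d → ℝ) :
    (gp Λ a x).im = ∑ k : Λ, (a (k, 0) * Real.sin (∑ j, (k.1 j : ℝ) * x j) +
      a (k, 1) * Real.cos (∑ j, (k.1 j : ℝ) * x j)) := by
  unfold gp
  rw [Complex.im_sum]
  refine Finset.sum_congr rfl fun k _ => ?_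
  generalize (∑ j, (k.1 j : ℝ) * x j) = θ
  rw [mul_comm Complex.I, Complex.exp_mul_I, ← Complex.ofReal_cos, ← Complex.ofReal_sin]
  simp only [Complex.mul_re, Complex.mul_im, Complex.add_re, Complex.add_im, Complex.ofReal_re,
    Complex.ofReal_im, Complex.I_re, Complex.I_im]
  ring

theorem joint_sum {d : ℕ} (Λ : Finset (Fin d → ℤ)) (F : Λ × Fin 2 → ℝ) :
    ∑ i, F i = ∑ k : Λ, (F (k, 0) + F (k, 1)) := by
  rw [Fintype.sum_prod_type]
  refine Finset.sum_congr rfl fun k _ => ?_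
  rw [Fin.sum_univ_two]

/-- the functionals -/
noncomputable def jointz {d : ℕ} (Λ : Finset (Fin d → ℤ)) (w : (Fin d → ℤ) → ℝ) (M : ℕ)
    (p : (Fin d → Fin M) × Fin 2) (i : Λ × Fin 2) : ℝ :=
  w i.1.1 * (if p.2 = 0 then
    (if i.2 = 0 then Real.cos (∑ j, (i.1.1 j : ℝ) * (2 * π * ((p.1 j : ℕ) : ℝ) / M))
      else - Real.sin (∑ j, (i.1.1 j : ℝ) * (2 * π * ((p.1 j : ℕ) : ℝ) / M)))
  else
    (if i.2 = 0 then Real.sin (∑ j, (i.1.1 j : ℝ) * (2 * π * ((p.1 j : ℕ) : ℝ) / M))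
      else Real.cos (∑ j, (i.1.1 j : ℝ) * (2 * π * ((p.1 j : ℕ) : ℝ) / M))))

theorem jointz_sq {d : ℕ} (Λ : Finset (Fin d → ℤ)) (w : (Fin d → ℤ) → ℝ) (M : ℕ)
    (p : (Fin d → Fin M) × Fin 2) :
    ∑ i : Λ × Fin 2, jointz Λ w M p i ^ 2 = ∑ k ∈ Λ, (w k)^2 := by
  rw [joint_sum, ← Finset.sum_coe_sort Λ]
  refine Finset.sum_congr rfl fun k _ => ?_
  have hcs := Real.sin_sq_add_cos_sq (∑ j, (k.1 j : ℝ) * (2 * π * ((p.1 j : ℕ) : ℝ) / M))
  unfold jointz
  by_cases hp : p.2 = 0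
  · simp only [hp, if_true, one_ne_zero, if_false]
    linear_combination (w k.1)^2 * hcs
  · simp only [hp, if_true, one_ne_zero, if_false]
    linear_combination (w k.1)^2 * hcs

theorem jointz_re {d : ℕ} (Λ : Finset (Fin d → ℤ)) (w : (Fin d → ℤ) → ℝ) (M : ℕ)
    (g : Fin d → Fin M) (a : Λ × Fin 2 → ℝ) :
    (gp Λ (fun i => w i.1.1 * a i) (fun j => 2 * π * ((g j : ℕ) : ℝ) / M)).re =
      ∑ i, a i * jointz Λ w M (g, 0) i := by
  rw [joint_re, joint_sum]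
  refine Finset.sum_congr rfl fun k _ => ?_
  simp [jointz]
  ring

theorem jointz_im {d : ℕ} (Λ : Finset (Fin d → ℤ)) (w : (Fin d → ℤ) → ℝ) (M : ℕ)
    (g : Fin d → Fin M) (a : Λ × Fin 2 → ℝ) :
    (gp Λ (fun i => w i.1.1 * a i) (fun j => 2 * π * ((g j : ℕ) : ℝ) / M)).im =
      ∑ i, a i * jointz Λ w M (g, 1) i := by
  rw [joint_im, joint_sum]
  refine Finset.sum_congr rfl fun k _ => ?_
  simp [jointz]
  ring

/-- JOINT -/
theorem joint : S_JOINT := by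
  intro d
  obtain ⟨c, hc⟩ := joint_disc d
  refine ⟨160 * Real.sqrt (5 + c * d), by positivity, ?_⟩
  intro n Λ w m hm hΛ
  set W : ℝ := ∑ k ∈ Λ, (w k)^2 with hW
  have hW0 : 0 ≤ W := Finset.sum_nonneg fun k _ => sq_nonneg _
  haveI : NeZero (2 ^ (c * (n + 1))) := ⟨by positivity⟩
  have hz : ∀ p : (Fin d → Fin (2 ^ (c * (n + 1)))) × Fin 2,
      ∑ i : Λ × Fin 2, jointz Λ w (2 ^ (c * (n + 1))) p i ^ 2 ≤ (Real.sqrt W) ^ 2 := by
    intro p
    rw [jointz_sq, Real.sq_sqrt hW0]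
  obtain ⟨G, hG⟩ := kcore (fun p : (Fin d → Fin (2 ^ (c * (n + 1)))) × Fin 2 =>
    fun i : Λ × Fin 2 => jointz Λ w (2 ^ (c * (n + 1))) p i) (Real.sqrt W)
    (Real.sqrt_nonneg _) hz m hm
  refine ⟨fun j i => w i.1.1 * G j i, fun a ha => ?_⟩
  obtain ⟨β, hβ⟩ := hG a ha
  refine ⟨β, ?_⟩
  have hre : (fun i : Λ × Fin 2 => w i.1.1 * a i - ∑ j, β j * (w i.1.1 * G j i)) =
      fun i => w i.1.1 * (a i - ∑ j, β j * G j i) := by
    funext i
    rw [mul_sub, Finset.mul_sum]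
    congr 1
    refine Finset.sum_congr rfl fun j _ => ?_
    ring
  simp only [hre]
  set ρ : ℝ := 40 * Real.sqrt W *
    Real.sqrt (Real.log (3 * Fintype.card ((Fin d → Fin (2 ^ (c * (n + 1)))) × Fin 2)) / m) with hρ
  have hρ0 : 0 ≤ ρ := by positivity
  have hgrid : ∀ g : Fin d → Fin (2^(c*(n+1))),
      ‖gp Λ (fun i => w i.1.1 * (a i - ∑ j, β j * G j i))
        (fun j => 2 * π * ((g j : ℕ) : ℝ) / 2^(c*(n+1)))‖ ≤ 2 * ρ := by
    intro g
    have h1 := hβ (g, 0)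
    have h2 := hβ (g, 1)
    have e1 := jointz_re Λ w (2^(c*(n+1))) g (fun i => a i - ∑ j, β j * G j i)
    have e2 := jointz_im Λ w (2^(c*(n+1))) g (fun i => a i - ∑ j, β j * G j i)
    push_cast at e1 e2
    refine (Complex.norm_le_abs_re_add_abs_im _).trans ?_
    rw [e1, e2, two_mul]
    exact add_le_add h1 h2
  intro x
  have hfin := hc n Λ hΛ _ (2 * ρ) (by positivity) hgrid x
  refine hfin.trans ?_
  have hcard : (Fintype.card ((Fin d → Fin (2 ^ (c * (n + 1)))) × Fin 2) : ℝ) =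
      (2:ℝ) ^ (c * (n + 1) * d) * 2 := by
    rw [Fintype.card_prod, Fintype.card_fun, Fintype.card_fin, Fintype.card_fin, Fintype.card_fin]
    push_cast
    rw [← pow_mul]
  have hlog : Real.log (3 * Fintype.card ((Fin d → Fin (2 ^ (c * (n + 1)))) × Fin 2)) ≤
      (5 + c * d) * (n + 1) := by
    rw [hcard, show (3:ℝ) * (2 ^ (c * (n + 1) * d) * 2) = 6 * 2 ^ (c * (n + 1) * d) by ring,
      Real.log_mul (by norm_num) (by positivity), Real.log_pow]
    have h6 : Real.log 6 ≤ 5 := by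
      have := Real.log_le_sub_one_of_pos (show (0:ℝ) < 6 by norm_num)
      linarith
    have h2 : Real.log 2 ≤ 1 := by
      have := Real.log_le_sub_one_of_pos (show (0:ℝ) < 2 by norm_num)
      linarith
    push_cast
    have h3 : (c:ℝ) * (n + 1) * d * Real.log 2 ≤ (c:ℝ) * (n + 1) * d * 1 :=
      mul_le_mul_of_nonneg_left h2 (by positivity)
    have h4 : (5:ℝ) ≤ 5 * (n + 1) := by
      have : (0:ℝ) ≤ n := Nat.cast_nonneg n
      linarith
    nlinarith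
  have hm0 : (0:ℝ) < m := by exact_mod_cast hm
  have hs : Real.sqrt (Real.log (3 * Fintype.card ((Fin d → Fin (2 ^ (c * (n + 1)))) × Fin 2)) / m)
      ≤ Real.sqrt ((5 + c * d) * (n + 1) / m) := by
    apply Real.sqrt_le_sqrt
    exact div_le_div_of_nonneg_right hlog hm0.le
  have hfinal : Real.sqrt W * Real.sqrt ((5 + c * d) * (n + 1) / m) =
      Real.sqrt (5 + c * d) * Real.sqrt (((n:ℝ)+1) * W / m) := by
    rw [← Real.sqrt_mul hW0, ← Real.sqrt_mul (by positivity)]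
    congr 1
    ring
  have hle : 160 * (Real.sqrt W *
      Real.sqrt (Real.log (3 * Fintype.card ((Fin d → Fin (2 ^ (c * (n + 1)))) × Fin 2)) / m))
      ≤ 160 * (Real.sqrt W * Real.sqrt ((5 + c * d) * (n + 1) / m)) := by
    gcongr
  rw [hfinal] at hle
  have heq : 2 * (2 * ρ) = 160 * (Real.sqrt W *
      Real.sqrt (Real.log (3 * Fintype.card ((Fin d → Fin (2 ^ (c * (n + 1)))) × Fin 2)) / m)) := by
    rw [hρ]; ring
  rw [heq]
  refine hle.trans (le_of_eq ?_)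
  ring

end SmSm
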