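import Pool.Agent.H636R2.SM.Spec
import Pool.Agent.HypVol.L_layer_bound
import Pool.Agent.MWidth.L_crs_kernel
open MeasureTheory Real ProbabilityTheory
open scoped ENNReal BigOperators

namespace SmSm
open HypVol MWidth

/-! Task KB (helper57): pointwise bound of the layer kernel with weights. -/

/-- Abel summation for monotone weights and geometric sums. -/
theorem kb_abel (f : ℕ → ℝ) (hf : Monotone f) (w : ℂ) (M B : ℝ) (b : ℕ) (hM : 0 ≤ M)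
    (hw : ∀ a ≤ b, ‖∑ j ∈ Finset.Ico a b, w ^ j‖ ≤ M) (hB : ∀ j < b, f j ≤ B) :
    ∀ n a : ℕ, a + n = b → ∀ t : ℝ, t ≤ f a → t ≤ B →
      ‖∑ j ∈ Finset.Ico a b, ((f j - t : ℝ) : ℂ) * w ^ j‖ ≤ M * (B - t) := by
  intro n
  induction n with
  | zero =>
    intro a ha t _ htB
    have hab : a = b := by omega
    subst hab
    rw [Finset.Ico_self, Finset.sum_empty, norm_zero]
    exact mul_nonneg hM (by linarith)
  | succ n ih =>
    intro a ha t hta _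
    have hab : a < b := by omega
    have ih' := ih (a + 1) (by omega) (f a) (hf (Nat.le_succ a)) (hB a hab)
    have hdec : ∑ j ∈ Finset.Ico a b, ((f j - t : ℝ) : ℂ) * w ^ j =
        ((f a - t : ℝ) : ℂ) * ∑ j ∈ Finset.Ico a b, w ^ j +
          ∑ j ∈ Finset.Ico (a + 1) b, ((f j - f a : ℝ) : ℂ) * w ^ j := by
      have h1 : ∑ j ∈ Finset.Ico (a + 1) b, ((f j - f a : ℝ) : ℂ) * w ^ j =
          ∑ j ∈ Finset.Ico a b, ((f j - f a : ℝ) : ℂ) * w ^ j := by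
        rw [Finset.sum_eq_sum_Ico_succ_bot hab (fun j => ((f j - f a : ℝ) : ℂ) * w ^ j)]
        simp
      rw [h1, Finset.mul_sum, ← Finset.sum_add_distrib]
      refine Finset.sum_congr rfl fun j _ => ?_
      push_cast
      ring
    rw [hdec]
    refine (norm_add_le _ _).trans ?_
    rw [norm_mul, Complex.norm_real, Real.norm_eq_abs, abs_of_nonneg (by linarith)]
    have h2 := mul_le_mul_of_nonneg_left (hw a hab.le) (by linarith : (0:ℝ) ≤ f a - t)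
    nlinarith

/-- one-dimensional coefficient -/
noncomputable def kb_c (r β : ℝ) (k : ℤ) : ℂ :=
  if k = 0 then 1 else (((|(k : ℝ)|)^(-(-r)) : ℝ) : ℂ) *
    Complex.exp (-(Complex.I * (((SignType.sign k : ℤ) : ℝ) * (-β) * π / 2 : ℝ)))

theorem kb_norm_c (r β : ℝ) (hr : 0 ≤ r) (s : ℕ) (k : ℤ) (hk : Nat.size k.natAbs = s) :
    ‖kb_c r β k‖ ≤ (2:ℝ)^(r * s) := by
  unfold kb_c
  split_ifs with h
  · rw [norm_one]
    exact Real.one_le_rpow (by norm_num) (by positivity)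
  · rw [norm_mul, Complex.norm_real, Real.norm_eq_abs, neg_neg]
    have h1 : ‖Complex.exp (-(Complex.I * (((SignType.sign k : ℤ) : ℝ) * (-β) * π / 2 : ℝ)))‖ = 1 := by
      have h2 : -(Complex.I * ((((SignType.sign k : ℤ) : ℝ) * (-β) * π / 2 : ℝ) : ℂ)) =
          ((-(((SignType.sign k : ℤ) : ℝ) * (-β) * π / 2) : ℝ) : ℂ) * Complex.I := by
        push_cast
        ring
      rw [h2, Complex.norm_exp_ofReal_mul_I]
    rw [h1, mul_one, abs_of_nonneg (by positivity)]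
    have h3 : k.natAbs < 2 ^ s := Nat.size_le.1 hk.le
    have h4 : |(k : ℝ)| ≤ (2 : ℝ) ^ (s : ℝ) := by
      rw [Real.rpow_natCast]
      have h5 : |(k : ℝ)| = ((k.natAbs : ℕ) : ℝ) := by
        rw [Nat.cast_natAbs, Int.cast_abs]
      rw [h5]
      exact_mod_cast h3.le
    calc |(k : ℝ)| ^ r ≤ ((2 : ℝ) ^ (s : ℝ)) ^ r :=
          Real.rpow_le_rpow (abs_nonneg _) h4 hr
      _ = (2 : ℝ) ^ (r * s) := by
          rw [← Real.rpow_mul (by norm_num), mul_comm]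

theorem kb_sum_exp (r β : ℝ) (hr : 0 ≤ r) (s' : ℕ) (w : ℂ) (M : ℝ) (hM : 0 ≤ M)
    (hw : ∀ a b : ℕ, a ≤ b → ‖∑ j ∈ Finset.Ico a b, w ^ j‖ ≤ M) (ε : ℤ) (hε : ε = 1 ∨ ε = -1)
    (e : ℤ → ℂ) (he : ∀ j : ℕ, e (ε * j) = w ^ j) :
    ‖∑ j ∈ Finset.Ico ((2:ℕ) ^ s') ((2:ℕ) ^ (s' + 1)), kb_c r β (ε * ((j : ℕ) : ℤ)) * e (ε * ((j : ℕ) : ℤ))‖ ≤
      M * (2:ℝ)^(r * ((s' + 1 : ℕ) : ℝ)) := by
  have hmono : Monotone (fun j : ℕ => ((j : ℝ)) ^ r) := by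
    intro a b hab
    exact Real.rpow_le_rpow (by positivity) (by exact_mod_cast hab) hr
  have hB : ∀ j < 2 ^ (s' + 1), (fun j : ℕ => ((j : ℝ)) ^ r) j ≤ (2:ℝ)^(r * ((s' + 1 : ℕ) : ℝ)) := by
    intro j hj
    have h1 : (j : ℝ) ≤ (2 : ℝ) ^ (((s' + 1 : ℕ)) : ℝ) := by
      rw [Real.rpow_natCast]
      exact_mod_cast hj.le
    calc ((j : ℝ)) ^ r ≤ ((2 : ℝ) ^ (((s' + 1 : ℕ)) : ℝ)) ^ r :=
          Real.rpow_le_rpow (by positivity) h1 hr
      _ = (2:ℝ)^(r * ((s' + 1 : ℕ) : ℝ)) := by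
          rw [← Real.rpow_mul (by norm_num), mul_comm]
  have h := kb_abel (fun j : ℕ => ((j : ℝ)) ^ r) hmono w M ((2:ℝ)^(r * ((s' + 1 : ℕ) : ℝ)))
    (2 ^ (s' + 1)) hM (fun a ha => hw a _ ha) hB (2 ^ s') (2 ^ s') (by ring) 0
    (by positivity) (by positivity)
  rw [sub_zero] at h
  set c0 : ℂ := Complex.exp (-(Complex.I * (((ε : ℤ) : ℝ) * (-β) * π / 2 : ℝ))) with hc0
  have hc1 : ‖c0‖ = 1 := by
    have h2 : -(Complex.I * (((ε : ℝ) * (-β) * π / 2 : ℝ) : ℂ)) =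
        ((-((ε : ℝ) * (-β) * π / 2) : ℝ) : ℂ) * Complex.I := by
      push_cast
      ring
    rw [hc0, h2, Complex.norm_exp_ofReal_mul_I]
  have hsum : ∑ j ∈ Finset.Ico ((2:ℕ) ^ s') ((2:ℕ) ^ (s' + 1)),
      kb_c r β (ε * ((j : ℕ) : ℤ)) * e (ε * ((j : ℕ) : ℤ)) =
      c0 * ∑ j ∈ Finset.Ico ((2:ℕ) ^ s') ((2:ℕ) ^ (s' + 1)),
        (((((j : ℕ) : ℝ)) ^ r - 0 : ℝ) : ℂ) * w ^ (j : ℕ) := by
    rw [Finset.mul_sum]
    refine Finset.sum_congr rfl fun j hj => ?_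
    rw [Finset.mem_Ico] at hj
    have hj0 : 0 < j := lt_of_lt_of_le (by positivity) hj.1
    have hne : ε * ((j : ℕ) : ℤ) ≠ 0 := by
      rcases hε with h | h <;> subst h <;> omega
    have hsg : SignType.sign (ε * ((j : ℕ) : ℤ)) = SignType.sign ε := by
      rcases hε with h | h <;> subst h
      · rw [one_mul, sign_pos (by omega : (0:ℤ) < j), sign_pos (by norm_num : (0:ℤ) < 1)]
      · rw [sign_neg (by omega : (-1 : ℤ) * j < 0), sign_neg (by norm_num : (-1 : ℤ) < 0)]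
    have hsg2 : ((SignType.sign (ε * ((j : ℕ) : ℤ)) : ℤ) : ℝ) = (ε : ℝ) := by
      rw [hsg]
      rcases hε with h | h <;> subst h
      · simp
      · rw [sign_neg (by norm_num : (-1 : ℤ) < 0)]
        simp
    have habs : |((ε * ((j : ℕ) : ℤ) : ℤ) : ℝ)| = (j : ℝ) := by
      rcases hε with h | h <;> subst h <;> simp
    rw [he j]
    unfold kb_c
    rw [if_neg hne, hsg2, habs, neg_neg, sub_zero, hc0]
    ring
  rw [hsum, norm_mul, hc1, one_mul]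
  exact h

theorem kb_block (r β : ℝ) (hr : 0 ≤ r) (n m s : ℕ) (hs : s ≤ n) (hnm : n ≤ m)
    (x y : Fin (2^(m+2))) :
    ‖∑ k ∈ (Finset.Ioo (-(2:ℤ)^n) ((2:ℤ)^n)).filter (fun k => Nat.size k.natAbs = s),
      kb_c r β k *
      Complex.exp (Complex.I * ((2 * π * (k:ℝ) * (((x:ℕ):ℝ) - ((y:ℕ):ℝ)) / 2^(m+2) : ℝ) : ℂ))‖
      ≤ (2:ℝ)^(r * s) * (2:ℝ)^(min s (T1 m x y)) := by
  have h2r : (0 : ℝ) < (2:ℝ)^(r * s) := by positivity
  have hA : ‖∑ k ∈ (Finset.Ioo (-(2:ℤ)^n) ((2:ℤ)^n)).filter (fun k => Nat.size k.natAbs = s),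
      kb_c r β k *
      Complex.exp (Complex.I * ((2 * π * (k:ℝ) * (((x:ℕ):ℝ) - ((y:ℕ):ℝ)) / 2^(m+2) : ℝ) : ℂ))‖
      ≤ (2:ℝ)^(r * s) * (2:ℝ)^s := by
    refine (norm_sum_le _ _).trans ?_
    have h1 : ∀ k ∈ (Finset.Ioo (-(2:ℤ)^n) ((2:ℤ)^n)).filter (fun k => Nat.size k.natAbs = s),
        ‖kb_c r β k * Complex.exp (Complex.I *
          ((2 * π * (k:ℝ) * (((x:ℕ):ℝ) - ((y:ℕ):ℝ)) / 2^(m+2) : ℝ) : ℂ))‖ ≤ (2:ℝ)^(r * s) := by
      intro k hk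
      rw [norm_mul, mul_comm Complex.I, Complex.norm_exp_ofReal_mul_I, mul_one]
      exact kb_norm_c r β hr s k (Finset.mem_filter.1 hk).2
    refine (Finset.sum_le_sum h1).trans ?_
    rw [Finset.sum_const, nsmul_eq_mul, mul_comm]
    refine mul_le_mul_of_nonneg_left ?_ h2r.le
    exact_mod_cast Sol_crs_kernel.ck_block_bound_card n s hs
  suffices hB : ‖∑ k ∈ (Finset.Ioo (-(2:ℤ)^n) ((2:ℤ)^n)).filter (fun k => Nat.size k.natAbs = s),
      kb_c r β k *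
      Complex.exp (Complex.I * ((2 * π * (k:ℝ) * (((x:ℕ):ℝ) - ((y:ℕ):ℝ)) / 2^(m+2) : ℝ) : ℂ))‖
      ≤ (2:ℝ)^(r * s) * (2:ℝ)^(T1 m x y) by
    rcases min_choice s (T1 m x y) with h | h
    · rw [h]; exact hA
    · rw [h]; exact hB
  have hmono : ∀ t : ℕ, s ≤ t → (2:ℝ)^(r * s) * (2 : ℝ) ^ s ≤ (2:ℝ)^(r * s) * 2 ^ t := fun t ht =>
    mul_le_mul_of_nonneg_left (pow_le_pow_right₀ (by norm_num) ht) h2r.le
  obtain ⟨D, hD⟩ : ∃ D : ℕ, D = max (x:ℕ) y - min (x:ℕ) y := ⟨_, rfl⟩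
  obtain ⟨q, hq⟩ : ∃ q : ℕ, q = min D (2^(m+2) - D) := ⟨_, rfl⟩
  have hT : T1 m x y = if q = 0 then m + 2 else m + 2 - Nat.log 2 q := by
    rw [hq, hD]; rfl
  have hx := x.2
  have hy := y.2
  have hDN : D < 2 ^ (m + 2) := by omega
  by_cases hr0 : q = 0
  · rw [hT, if_pos hr0]
    exact hA.trans (hmono _ (by omega))
  rcases Nat.eq_zero_or_pos s with hs0 | hs0
  · subst hs0
    refine hA.trans (hmono _ (Nat.zero_le _))
  obtain ⟨s', rfl⟩ : ∃ s', s = s' + 1 := ⟨s - 1, by omega⟩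
  rw [hT, if_neg hr0]
  obtain ⟨d, hd⟩ : ∃ d : ℝ, d = ((x:ℕ):ℝ) - ((y:ℕ):ℝ) := ⟨_, rfl⟩
  have hdD : |d| = D := by
    rcases le_total (x : ℕ) (y : ℕ) with h | h
    · have h1 : D = (y : ℕ) - (x : ℕ) := by omega
      rw [h1, Nat.cast_sub h, hd, abs_sub_comm, abs_of_nonneg]
      rw [sub_nonneg]; exact_mod_cast h
    · have h1 : D = (x : ℕ) - (y : ℕ) := by omega
      rw [h1, Nat.cast_sub h, hd, abs_of_nonneg]
      rw [sub_nonneg]; exact_mod_cast h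
  have hsin := Sol_crs_kernel.ck_block_bound_sin (2 ^ (m + 2)) (by positivity) D q hq hDN.le d hdD
  rw [← hd]
  obtain ⟨z, hz⟩ : ∃ z : ℝ, z = 2 * π * d / 2 ^ (m + 2) := ⟨_, rfl⟩
  obtain ⟨w, hw⟩ : ∃ w : ℂ, w = Complex.exp (Complex.I * (z : ℂ)) := ⟨_, rfl⟩
  have hwn : ‖w‖ = 1 := by rw [hw, mul_comm, Complex.norm_exp_ofReal_mul_I]
  have hw0 : w ≠ 0 := by rw [hw]; exact Complex.exp_ne_zero _
  have hrpos : (0 : ℝ) < q := by
    have : 0 < q := Nat.pos_of_ne_zero hr0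
    exact_mod_cast this
  have hw1n : 4 * (q : ℝ) / 2 ^ (m + 2) ≤ ‖w - 1‖ := by
    rw [hw, Complex.norm_exp_I_mul_ofReal_sub_one, norm_mul, Real.norm_eq_abs, Real.norm_eq_abs]
    have h1 : z / 2 = π * d / ((2 ^ (m + 2) : ℕ) : ℝ) := by
      rw [hz]; push_cast; ring
    rw [h1, abs_of_pos (show (0 : ℝ) < 2 by norm_num)]
    have h2 : 4 * (q : ℝ) / 2 ^ (m + 2) = 2 * (2 * (q : ℝ) / ((2 ^ (m + 2) : ℕ) : ℝ)) := by
      push_cast; ring
    rw [h2]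
    linarith
  have hpos : (0 : ℝ) < 4 * (q : ℝ) / 2 ^ (m + 2) := by positivity
  have hw1 : w ≠ 1 := by
    intro h
    rw [h, sub_self, norm_zero] at hw1n
    linarith
  have hwi : ‖w⁻¹‖ = 1 := by rw [norm_inv, hwn, inv_one]
  have hwi1 : w⁻¹ ≠ 1 := by
    intro h
    exact hw1 (by rw [← inv_inv w, h, inv_one])
  have hwi1n : ‖w⁻¹ - 1‖ = ‖w - 1‖ := by
    have : w⁻¹ - 1 = -(w⁻¹ * (w - 1)) := by
      rw [mul_sub, inv_mul_cancel₀ hw0]; ring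
    rw [this, norm_neg, norm_mul, hwi, one_mul]
  have hw1pos : 0 < ‖w - 1‖ := lt_of_lt_of_le hpos hw1n
  set M : ℝ := 2 / ‖w - 1‖ with hM
  have hM0 : 0 ≤ M := by positivity
  have g1 : ∀ a b : ℕ, a ≤ b → ‖∑ j ∈ Finset.Ico a b, w ^ j‖ ≤ M := fun a b hab =>
    Sol_crs_kernel.ck_block_bound_geom w hwn hw1 a b hab
  have g2 : ∀ a b : ℕ, a ≤ b → ‖∑ j ∈ Finset.Ico a b, w⁻¹ ^ j‖ ≤ M := fun a b hab => by
    have := Sol_crs_kernel.ck_block_bound_geom w⁻¹ hwi hwi1 a b hab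
    rwa [hwi1n] at this
  set e : ℤ → ℂ := fun k => Complex.exp (Complex.I * ((2 * π * (k:ℝ) * d / 2^(m+2) : ℝ) : ℂ))
    with he
  have he1 : ∀ j : ℕ, e (1 * j) = w ^ j := by
    intro j
    rw [he, hw, ← Complex.exp_nat_mul]
    simp only
    congr 1
    rw [hz]
    push_cast
    ring
  have he2 : ∀ j : ℕ, e (-1 * j) = w⁻¹ ^ j := by
    intro j
    rw [he, hw, ← Complex.exp_neg, ← Complex.exp_nat_mul]
    simp only
    congr 1
    rw [hz]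
    push_cast
    ring
  have k1 := kb_sum_exp r β hr s' w M hM0 g1 1 (Or.inl rfl) e he1
  have k2 := kb_sum_exp r β hr s' w⁻¹ M hM0 g2 (-1) (Or.inr rfl) e he2
  have hsum : ∑ k ∈ (Finset.Ioo (-(2:ℤ)^n) ((2:ℤ)^n)).filter (fun k => Nat.size k.natAbs = s' + 1),
      kb_c r β k * Complex.exp (Complex.I * ((2 * π * (k:ℝ) * d / 2^(m+2) : ℝ) : ℂ)) =
      ∑ j ∈ Finset.Ico ((2:ℕ) ^ s') ((2:ℕ) ^ (s' + 1)), kb_c r β (1 * ((j : ℕ) : ℤ)) * e (1 * ((j : ℕ) : ℤ)) +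
        ∑ j ∈ Finset.Ico ((2:ℕ) ^ s') ((2:ℕ) ^ (s' + 1)), kb_c r β (-1 * ((j : ℕ) : ℤ)) * e (-1 * ((j : ℕ) : ℤ)) := by
    rw [Sol_crs_kernel.ck_block_bound_mem n s' hs, Finset.sum_union]
    · rw [Finset.sum_image (fun a _ b _ h => by exact_mod_cast h),
        Finset.sum_image (fun a _ b _ h => by
          have h' : -(a : ℤ) = -(b : ℤ) := h
          omega)]
      congr 1
      · apply Finset.sum_congr rfl
        intro j _
        rw [one_mul]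
      · apply Finset.sum_congr rfl
        intro j _
        rw [neg_one_mul]
    · rw [Finset.disjoint_left]
      intro k h1 h2
      rw [Finset.mem_image] at h1 h2
      obtain ⟨a, ha, rfl⟩ := h1
      obtain ⟨b, hb, hab'⟩ := h2
      rw [Finset.mem_Ico] at ha hb
      have h3 : 0 < 2 ^ s' := by positivity
      omega
  rw [hsum]
  refine (norm_add_le _ _).trans ?_
  refine (add_le_add k1 k2).trans ?_
  have h4 : M ≤ 2 ^ (m + 2) / (2 * (q : ℝ)) := by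
    rw [hM, div_le_div_iff₀ hw1pos (by positivity)]
    rw [div_le_iff₀ (by positivity)] at hw1n
    nlinarith
  have h5 : (2 : ℝ) ^ (m + 2) / (2 * (q : ℝ)) + 2 ^ (m + 2) / (2 * (q : ℝ)) =
      2 ^ (m + 2) / q := by
    field_simp
    ring
  have hl : 2 ^ Nat.log 2 q ≤ q := Nat.pow_log_le_self 2 hr0
  have hln : Nat.log 2 q ≤ m + 2 := by
    have h6 : 2 ^ Nat.log 2 q ≤ 2 ^ (m + 2) := by omega
    exact (Nat.pow_le_pow_iff_right (by norm_num)).1 h6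
  have h7 : (2 : ℝ) ^ (m + 2) / q ≤ 2 ^ (m + 2 - Nat.log 2 q) := by
    rw [div_le_iff₀ hrpos]
    have h8 : (2 : ℝ) ^ (m + 2) = 2 ^ (m + 2 - Nat.log 2 q) * 2 ^ (Nat.log 2 q) := by
      rw [← pow_add, Nat.sub_add_cancel hln]
    rw [h8]
    have h9 : (2 : ℝ) ^ (Nat.log 2 q) ≤ q := by exact_mod_cast hl
    exact mul_le_mul_of_nonneg_left h9 (by positivity)
  have h10 : M + M ≤ 2 ^ (m + 2 - Nat.log 2 q) := by linarith
  calc M * (2:ℝ)^(r * ((s' + 1 : ℕ) : ℝ)) + M * (2:ℝ)^(r * ((s' + 1 : ℕ) : ℝ)) =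
        (2:ℝ)^(r * ((s' + 1 : ℕ) : ℝ)) * (M + M) := by ring
    _ ≤ (2:ℝ)^(r * ((s' + 1 : ℕ) : ℝ)) * 2 ^ (m + 2 - Nat.log 2 q) :=
        mul_le_mul_of_nonneg_left h10 h2r.le

theorem kb_term {d m : ℕ} (r : ℝ) (α : Fin d → ℝ) (x y : GG d m) (k : Fin d → ℤ) :
    Fh (-r) (-α) k * chi k (gpt x - gpt y) =
      ∏ j, (kb_c r (α j) (k j) * Complex.exp (Complex.I *
        ((2 * π * ((k j : ℤ) : ℝ) * (((x j : ℕ) : ℝ) - ((y j : ℕ) : ℝ)) / 2^(m+2) : ℝ) : ℂ))) := by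
  rw [Finset.prod_mul_distrib]
  congr 1
  unfold chi
  have h : ∑ j, (k j : ℝ) * (gpt x - gpt y) j =
      ∑ j, 2 * π * ((k j : ℤ) : ℝ) * (((x j : ℕ) : ℝ) - ((y j : ℕ) : ℝ)) / 2^(m+2) := by
    refine Finset.sum_congr rfl fun j _ => ?_
    rw [Pi.sub_apply]
    unfold gpt
    ring
  rw [h, Complex.ofReal_sum, Finset.mul_sum, Complex.exp_sum]

theorem kb : S_KB := by
  intro d _ r hr α
  refine ⟨1, one_pos, ?_⟩
  intro μ m hμ x y
  classical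
  have hmaps : ∀ k ∈ layer d μ,
      (fun j => (⟨min (Nat.size (k j).natAbs) μ, by omega⟩ : Fin (μ+1))) ∈ Sh d μ := by
    intro k hk
    rw [mem_layer_iff] at hk
    refine Finset.mem_filter.2 ⟨Finset.mem_univ _, ?_⟩
    have h : ∀ j, min (Nat.size (k j).natAbs) μ = Nat.size (k j).natAbs := by
      intro j
      apply min_eq_left
      rw [← hk]
      exact Finset.single_le_sum (f := fun j => Nat.size (k j).natAbs) (fun _ _ => Nat.zero_le _)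
        (Finset.mem_univ j)
    calc ∑ j, min (Nat.size (k j).natAbs) μ = ∑ j, Nat.size (k j).natAbs :=
          Finset.sum_congr rfl fun j _ => h j
      _ = μ := hk
  have h1 : |ker μ (-r) (-α) (gpt x - gpt y)| ≤
      ‖∑ k ∈ layer d μ, Fh (-r) (-α) k * chi k (gpt x - gpt y)‖ := by
    unfold ker
    rw [← Complex.re_sum]
    exact Complex.abs_re_le_norm _
  refine h1.trans ?_
  rw [← Finset.sum_fiberwise_of_maps_to hmaps]
  unfold Th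
  rw [one_mul, Finset.mul_sum]
  refine (norm_sum_le _ _).trans (Finset.sum_le_sum fun s hs => ?_)
  rw [Sol_layer_bound.lb_fib d μ s hs]
  simp_rw [kb_term]
  rw [← Finset.prod_univ_sum (fun j => (Finset.Ioo (-(2:ℤ)^μ) ((2:ℤ)^μ)).filter
          (fun k => Nat.size k.natAbs = (s j : ℕ))) (fun j (k : ℤ) => kb_c r (α j) k *
        Complex.exp (Complex.I *
        ((2 * π * ((k : ℤ) : ℝ) * (((x j : ℕ) : ℝ) - ((y j : ℕ) : ℝ)) / 2^(m+2) : ℝ) : ℂ)))]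
  rw [norm_prod, ← Finset.prod_pow_eq_pow_sum]
  have hsum : ((∑ j, ((s j : Fin (μ+1)) : ℕ) : ℕ) : ℝ) = (μ : ℝ) := by
    rw [(Finset.mem_filter.1 hs).2]
  have h2 : (2:ℝ)^(r * μ) = ∏ j, (2:ℝ)^(r * (((s j : Fin (μ+1)) : ℕ) : ℝ)) := by
    rw [← hsum, Nat.cast_sum, Finset.mul_sum, Real.rpow_sum_of_pos (by norm_num)]
  rw [h2, ← Finset.prod_mul_distrib]
  refine Finset.prod_le_prod (fun _ _ => norm_nonneg _) fun j _ => ?_
  exact kb_block r (α j) hr μ m (s j) (by have := (s j).2; omega) hμ (x j) (y j)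

end SmSm
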