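import Pool.Agent.H636R2.SM.Spec
import Pool.Agent.HypVol.L_shp_lower
import Pool.Agent.HypVol.L_card_layer
open MeasureTheory Real ProbabilityTheory
open scoped ENNReal BigOperators

/-! KEXP: exponential moments of the layer kernel. -/

namespace SmSm
open HypVol MWidth

theorem kexp_exp (u : ℝ) : Real.exp u ≤ 1 + u + u ^ 2 / 2 + |u| ^ 3 * Real.exp |u| := by
  have h := Complex.norm_exp_sub_sum_le_norm_mul_exp (u : ℂ) 3
  rw [Complex.norm_real, Real.norm_eq_abs] at h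
  have h2 : Complex.exp (u : ℂ) - ∑ m ∈ Finset.range 3, (u : ℂ) ^ m / (m.factorial : ℂ) =
      ((Real.exp u - (1 + u + u ^ 2 / 2) : ℝ) : ℂ) := by
    simp only [Finset.sum_range_succ, Finset.sum_range_zero, Nat.factorial]
    push_cast
    ring
  rw [h2, Complex.norm_real, Real.norm_eq_abs] at h
  have h3 := (abs_le.1 h).2
  linarith

theorem kexp_Th_nonneg (d n : ℕ) (T : Fin d → ℕ) : 0 ≤ Th d n T := by
  unfold Th
  exact Finset.sum_nonneg fun s _ => by positivity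

theorem kexp (h1 : S_NUM1) (h2 : S_ROW) (h3 : S_KB) (h4 : S_KMEAN) (h5 : S_KSQ) : S_KEXP := by
  intro d hd
  have hd1 : 1 ≤ d := by omega
  obtain ⟨a1, ha1, hN⟩ := h1 d hd
  obtain ⟨C3, hC3, hN3⟩ := hN 3 le_rfl
  obtain ⟨C1, hC1, hK⟩ := h3 d hd1 0 le_rfl 0
  obtain ⟨c, hc, hS⟩ := shp_lower d hd1
  -- constants
  set a : ℝ := a1 / C1 with ha
  have hapos : 0 < a := div_pos ha1 hC1
  set D : ℝ := C1 ^ 3 * 4 ^ d * C3 * (a * (2 ^ (d - 1) / c ^ 2)) with hD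
  have hDpos : 0 < D := by positivity
  refine ⟨a, 1 / 2 + D, hapos, by linarith, ?_⟩
  intro μ m hμ hμm θ hθ x
  have hμ0 : (0 : ℝ) < μ := by exact_mod_cast hμ
  have hμ1 : (1 : ℝ) ≤ μ := by exact_mod_cast hμ
  set N : ℝ := ((layer d μ).card : ℝ) with hNd
  have hNe : N = 2 ^ μ * shp d μ := by
    rw [hNd, card_layer]
    push_cast
    ring
  have hsl := hS μ hμ
  have hsp : (0 : ℝ) < shp d μ := lt_of_lt_of_le (by positivity) hsl
  have hNpos : 0 < N := by rw [hNe]; positivity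
  set W : ℝ := ((2 : ℝ) ^ (m + 2)) ^ d with hW
  have hWpos : 0 < W := by positivity
  set K : GG d m → ℝ := fun y => ker μ 0 0 (gpt x - gpt y) with hKd
  -- mean zero
  have hmean : ∑ y : GG d m, K y = 0 := by
    have := h4 d hd1 {μ} (fun _ => 1) 0 0 m (by simpa using ⟨hμ, hμm⟩) (gpt x)
    simpa [wker] using this
  -- squares
  have hsq : ∑ y : GG d m, K y ^ 2 ≤ W * N := by
    have := h5 d hd1 {μ} (fun _ => 1) 0 le_rfl 0 m (by simpa using hμm) (gpt x)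
    simpa [wker] using this
  -- pointwise bound
  have hKB : ∀ y, |K y| ≤ C1 * Th d μ (fun j => T1 m (x j) (y j)) := by
    intro y
    have := hK μ m hμm x y
    simpa using this
  -- bound of theta
  have hθ1 : |θ| * C1 ≤ a1 * μ / N := by
    have : |θ| * C1 ≤ a * μ / N * C1 := mul_le_mul_of_nonneg_right hθ hC1.le
    refine this.trans (le_of_eq ?_)
    rw [ha]
    field_simp
  -- cubic term
  set F : (Fin d → ℕ) → ℝ := fun T => Th d μ T ^ 3 * Real.exp (a1 * μ * Th d μ T /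
    (2 ^ μ * shp d μ)) with hF
  have hF0 : ∀ T, 0 ≤ F T := fun T =>
    mul_nonneg (pow_nonneg (kexp_Th_nonneg d μ T) 3) (Real.exp_pos _).le
  have hcub : ∀ y, |θ * K y| ^ 3 * Real.exp |θ * K y| ≤
      (|θ| * C1) ^ 3 * F (fun j => T1 m (x j) (y j)) := by
    intro y
    set t := Th d μ (fun j => T1 m (x j) (y j)) with ht
    have ht0 : 0 ≤ t := kexp_Th_nonneg d μ _
    have e1 : |θ * K y| ≤ |θ| * C1 * t := by
      rw [abs_mul, mul_assoc]
      exact mul_le_mul_of_nonneg_left (hKB y) (abs_nonneg _)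
    have e2 : |θ * K y| ≤ a1 * μ * t / (2 ^ μ * shp d μ) := by
      refine e1.trans ?_
      have := mul_le_mul_of_nonneg_right hθ1 ht0
      refine this.trans (le_of_eq ?_)
      rw [hNe]
      ring
    have e3 : |θ * K y| ^ 3 ≤ (|θ| * C1 * t) ^ 3 := pow_le_pow_left₀ (abs_nonneg _) e1 3
    have e4 : Real.exp |θ * K y| ≤ Real.exp (a1 * μ * t / (2 ^ μ * shp d μ)) :=
      Real.exp_le_exp.2 e2
    calc |θ * K y| ^ 3 * Real.exp |θ * K y|
        ≤ (|θ| * C1 * t) ^ 3 * Real.exp (a1 * μ * t / (2 ^ μ * shp d μ)) :=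
          mul_le_mul e3 e4 (Real.exp_pos _).le (by positivity)
      _ = (|θ| * C1) ^ 3 * F (fun j => T1 m (x j) (y j)) := by
          rw [hF]
          ring
  have hsum3 : ∑ y : GG d m, |θ * K y| ^ 3 * Real.exp |θ * K y| ≤
      (|θ| * C1) ^ 3 * (W * 4 ^ d * (C3 * (2 : ℝ) ^ (2 * μ) * ((μ : ℝ) + 1) ^ (d - 1))) := by
    calc ∑ y : GG d m, |θ * K y| ^ 3 * Real.exp |θ * K y|
        ≤ ∑ y : GG d m, (|θ| * C1) ^ 3 * F (fun j => T1 m (x j) (y j)) :=
          Finset.sum_le_sum fun y _ => hcub y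
      _ = (|θ| * C1) ^ 3 * ∑ y : GG d m, F (fun j => T1 m (x j) (y j)) := by
          rw [Finset.mul_sum]
      _ ≤ (|θ| * C1) ^ 3 * (W * 4 ^ d * (C3 * (2 : ℝ) ^ (2 * μ) * ((μ : ℝ) + 1) ^ (d - 1))) := by
          refine mul_le_mul_of_nonneg_left ?_ (by positivity)
          refine (h2 d m x F hF0).trans ?_
          refine mul_le_mul_of_nonneg_left ?_ (by positivity)
          have := hN3 μ (m + 3) hμ
          refine le_trans (le_of_eq ?_) this
          refine Finset.sum_congr rfl fun T _ => ?_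
          rw [hF]
          ring
  -- final estimate of the cubic term
  have hfin : (|θ| * C1) ^ 3 * (W * 4 ^ d * (C3 * (2 : ℝ) ^ (2 * μ) * ((μ : ℝ) + 1) ^ (d - 1))) ≤
      W * (D * θ ^ 2 * N) := by
    have f1 : |θ| * ((2 : ℝ) ^ (2 * μ) * ((μ : ℝ) + 1) ^ (d - 1)) ≤
        a * (2 ^ (d - 1) / c ^ 2) * N := by
      have g1 : ((μ : ℝ) + 1) ^ (d - 1) ≤ 2 ^ (d - 1) * (μ : ℝ) ^ (d - 1) := by
        rw [← mul_pow]
        exact pow_le_pow_left₀ (by positivity) (by linarith) _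
      have g2 : (μ : ℝ) ≤ (μ : ℝ) ^ (d - 1) := by
        calc (μ : ℝ) = (μ : ℝ) ^ 1 := (pow_one _).symm
          _ ≤ (μ : ℝ) ^ (d - 1) := pow_le_pow_right₀ hμ1 (by omega)
      have g3 : (μ : ℝ) * ((μ : ℝ) + 1) ^ (d - 1) ≤ 2 ^ (d - 1) / c ^ 2 * (shp d μ : ℝ) ^ 2 := by
        have g4 : (c * (μ : ℝ) ^ (d - 1)) ^ 2 ≤ (shp d μ : ℝ) ^ 2 :=
          pow_le_pow_left₀ (by positivity) hsl 2
        have g5 : (μ : ℝ) * ((μ : ℝ) + 1) ^ (d - 1) ≤
            (μ : ℝ) ^ (d - 1) * (2 ^ (d - 1) * (μ : ℝ) ^ (d - 1)) :=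
          mul_le_mul g2 g1 (by positivity) (by positivity)
        refine g5.trans ?_
        rw [div_mul_eq_mul_div, le_div_iff₀ (by positivity)]
        have g6 : (μ : ℝ) ^ (d - 1) * (2 ^ (d - 1) * (μ : ℝ) ^ (d - 1)) * c ^ 2 =
            2 ^ (d - 1) * (c * (μ : ℝ) ^ (d - 1)) ^ 2 := by ring
        rw [g6]
        exact mul_le_mul_of_nonneg_left g4 (by positivity)
      calc |θ| * ((2 : ℝ) ^ (2 * μ) * ((μ : ℝ) + 1) ^ (d - 1))
          ≤ a * μ / N * ((2 : ℝ) ^ (2 * μ) * ((μ : ℝ) + 1) ^ (d - 1)) :=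
            mul_le_mul_of_nonneg_right hθ (by positivity)
        _ = a * (2 : ℝ) ^ (2 * μ) / N * ((μ : ℝ) * ((μ : ℝ) + 1) ^ (d - 1)) := by ring
        _ ≤ a * (2 : ℝ) ^ (2 * μ) / N * (2 ^ (d - 1) / c ^ 2 * (shp d μ : ℝ) ^ 2) :=
            mul_le_mul_of_nonneg_left g3 (by positivity)
        _ = a * (2 ^ (d - 1) / c ^ 2) * N := by
            have h2m : (2 : ℝ) ^ (2 * μ) = (2 ^ μ) ^ 2 := by rw [← pow_mul, mul_comm]
            rw [h2m, hNe]
            have : (2 : ℝ) ^ μ ≠ 0 := by positivity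
            field_simp
    have f2 : (|θ| * C1) ^ 3 * (W * 4 ^ d * (C3 * (2 : ℝ) ^ (2 * μ) * ((μ : ℝ) + 1) ^ (d - 1))) =
        W * (C1 ^ 3 * 4 ^ d * C3 * θ ^ 2 *
          (|θ| * ((2 : ℝ) ^ (2 * μ) * ((μ : ℝ) + 1) ^ (d - 1)))) := by
      rw [← sq_abs θ]
      ring
    rw [f2]
    refine mul_le_mul_of_nonneg_left ?_ hWpos.le
    calc C1 ^ 3 * 4 ^ d * C3 * θ ^ 2 * (|θ| * ((2 : ℝ) ^ (2 * μ) * ((μ : ℝ) + 1) ^ (d - 1)))
        ≤ C1 ^ 3 * 4 ^ d * C3 * θ ^ 2 * (a * (2 ^ (d - 1) / c ^ 2) * N) :=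
          mul_le_mul_of_nonneg_left f1 (by positivity)
      _ = D * θ ^ 2 * N := by rw [hD]; ring
  -- cardinality
  have hcard : ∑ _y : GG d m, (1 : ℝ) = W := by
    rw [Finset.sum_const, Finset.card_univ, nsmul_eq_mul, mul_one, hW]
    simp
  calc ∑ y : GG d m, Real.exp (θ * K y)
      ≤ ∑ y : GG d m, (1 + θ * K y + (θ * K y) ^ 2 / 2 + |θ * K y| ^ 3 * Real.exp |θ * K y|) :=
        Finset.sum_le_sum fun y _ => kexp_exp _
    _ = ∑ _y : GG d m, (1 : ℝ) + θ * ∑ y : GG d m, K y + θ ^ 2 / 2 * ∑ y : GG d m, K y ^ 2 +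
        ∑ y : GG d m, |θ * K y| ^ 3 * Real.exp |θ * K y| := by
        rw [Finset.sum_add_distrib, Finset.sum_add_distrib, Finset.sum_add_distrib,
          Finset.mul_sum, Finset.mul_sum]
        congr 2
        exact Finset.sum_congr rfl fun y _ => by ring
    _ ≤ W + θ * 0 + θ ^ 2 / 2 * (W * N) + W * (D * θ ^ 2 * N) := by
        rw [hcard, hmean]
        have := mul_le_mul_of_nonneg_left hsq (show (0 : ℝ) ≤ θ ^ 2 / 2 by positivity)
        have := hsum3.trans hfin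
        linarith
    _ = W * ((1 / 2 + D) * θ ^ 2 * N + 1) := by ring
    _ ≤ W * Real.exp ((1 / 2 + D) * θ ^ 2 * N) :=
        mul_le_mul_of_nonneg_left (Real.add_one_le_exp _) hWpos.le

end SmSm
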