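import Pool.Agent.H636R2.SM.Spec
import Pool.Agent.MWidth.L_gtb_facts
open MeasureTheory Real ProbabilityTheory
open scoped ENNReal BigOperators

/-! KMEAN: mean zero on the grid. -/

namespace SmSm
open HypVol MWidth

theorem kmean_ne {d μ : ℕ} (hμ : 1 ≤ μ) {k : Fin d → ℤ} (hk : k ∈ layer d μ) : k ≠ 0 := by
  classical
  rintro rfl
  unfold layer at hk
  rw [Finset.mem_filter] at hk
  obtain ⟨-, s, hs, hr⟩ := hk
  have h0 : ∀ j, s j = 0 := by
    intro j
    have h1 := (hr j).1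
    simp only [Pi.zero_apply, abs_zero] at h1
    by_contra hne
    obtain ⟨t, ht⟩ := Nat.exists_eq_succ_of_ne_zero hne
    rw [ht, Nat.succ_eq_add_one, pow_succ, Int.mul_ediv_cancel _ (by norm_num)] at h1
    have : (0 : ℤ) < 2 ^ t := by positivity
    omega
  rw [Finset.sum_eq_zero (fun j _ => h0 j)] at hs
  omega

theorem kmean_lt {d μ m : ℕ} (hμ : μ ≤ m) {k : Fin d → ℤ} (hk : k ∈ layer d μ) (j : Fin d) :
    |(-k) j| < 2 ^ (m + 2) := by
  classical
  unfold layer at hk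
  rw [Finset.mem_filter, Fintype.mem_piFinset] at hk
  have h1 := hk.1 j
  rw [Finset.mem_Ioo] at h1
  rw [Pi.neg_apply, abs_neg, abs_lt]
  have h2 : (2 : ℤ) ^ μ ≤ 2 ^ (m + 2) := pow_le_pow_right₀ (by norm_num) (by omega)
  constructor <;> linarith [h1.1, h1.2]

theorem kmean_chi {d m : ℕ} (k : Fin d → ℤ) (x : Fin d → ℝ) (y : GG d m) :
    chi k (x - gpt y) = chi k x * Complex.exp ((th (-k) y : ℂ) * Complex.I) := by
  unfold chi th gpt
  rw [← Complex.exp_add]
  congr 1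
  push_cast
  rw [Finset.mul_sum, Finset.mul_sum, Finset.mul_sum, Finset.sum_div, Finset.sum_mul,
    ← Finset.sum_add_distrib]
  apply Finset.sum_congr rfl
  intro j _
  simp only [Pi.sub_apply, Pi.neg_apply]
  push_cast
  ring

theorem kmean_sum {d m μ : ℕ} (hμ : 1 ≤ μ) (hm : μ ≤ m) {k : Fin d → ℤ} (hk : k ∈ layer d μ)
    (x : Fin d → ℝ) : ∑ y : GG d m, chi k (x - gpt y) = 0 := by
  simp_rw [kmean_chi]
  rw [← Finset.mul_sum, Sol_gtb_facts.h338_Esum (-k) (kmean_lt hm hk)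
    (neg_ne_zero.mpr (kmean_ne hμ hk)), mul_zero]

theorem kmean : S_KMEAN := by
  intro d _ J w r α m hJ x
  unfold wker ker
  rw [Finset.sum_comm]
  apply Finset.sum_eq_zero
  intro μ hμ
  rw [← Finset.mul_sum, Finset.sum_comm]
  have h1 : ∑ k ∈ layer d μ, ∑ y : GG d m, (Fh r α k * chi k (x - gpt y)).re = 0 := by
    apply Finset.sum_eq_zero
    intro k hk
    rw [← Complex.re_sum, ← Finset.mul_sum, kmean_sum (hJ μ hμ).1 (hJ μ hμ).2 hk x, mul_zero,
      Complex.zero_re]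
  rw [h1, mul_zero]

end SmSm
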