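import Pool.Agent.H636R2.SM.Spec

open MeasureTheory Real ProbabilityTheory
open scoped ENNReal BigOperators

namespace SmSm
open HypVol MWidth

theorem kmom (h1 : S_NUM1) (h2 : S_ROW) (h3 : S_KB) : S_KMOM := by
  intro d hd r hr α p hp
  obtain ⟨C1, hC1, hKB⟩ := h3 d (by omega) r hr α
  obtain ⟨a, ha, hN⟩ := h1 d hd
  obtain ⟨C2, hC2, hN2⟩ := hN p hp
  have hTh : ∀ (n : ℕ) (T : Fin d → ℕ), 0 ≤ Th d n T := by
    intro n T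
    unfold Th
    positivity
  refine ⟨C1 ^ p * 4 ^ d * C2, by positivity, fun μ m hμ hμm x => ?_⟩
  have e1 : ∀ y : GG d m, |ker μ (-r) (-α) (gpt x - gpt y)| ^ p ≤
      C1 ^ p * ((2:ℝ)^(r * μ)) ^ p * (Th d μ (fun j => T1 m (x j) (y j))) ^ p := by
    intro y
    rw [← mul_pow, ← mul_pow]
    exact pow_le_pow_left₀ (abs_nonneg _) (hKB μ m hμm x y) p
  have e2 := h2 d m x (fun T => (Th d μ T) ^ p) (fun T => pow_nonneg (hTh _ _) _)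
  have e3 := hN2 μ (m + 3) hμ
  have e4 : ∑ T : Fin d → Fin (m+3), (1/2:ℝ)^(∑ j, ((T j : Fin (m+3)) : ℕ)) *
      (Th d μ (fun j => (T j : ℕ)))^p ≤ C2 * (2:ℝ)^((p-1)*μ) * ((μ:ℝ)+1)^(d-1) := by
    refine le_trans (Finset.sum_le_sum fun T _ => ?_) e3
    have h5 : (1:ℝ) ≤ Real.exp (a * μ * Th d μ (fun j => (T j : ℕ)) / (2^μ * shp d μ)) := by
      apply Real.one_le_exp
      have := hTh μ (fun j => (T j : ℕ))
      positivity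
    refine le_mul_of_one_le_right ?_ h5
    have := hTh μ (fun j => (T j : ℕ))
    positivity
  have hG : (0:ℝ) ≤ ((2:ℝ)^(m+2))^d * 4^d := by positivity
  have hA : (0:ℝ) ≤ C1 ^ p * ((2:ℝ)^(r * μ)) ^ p := by positivity
  calc ∑ y : GG d m, |ker μ (-r) (-α) (gpt x - gpt y)| ^ p
      ≤ ∑ y : GG d m, C1 ^ p * ((2:ℝ)^(r * μ)) ^ p * (Th d μ (fun j => T1 m (x j) (y j))) ^ p :=
        Finset.sum_le_sum fun y _ => e1 y
    _ = C1 ^ p * ((2:ℝ)^(r * μ)) ^ p * ∑ y : GG d m, (Th d μ (fun j => T1 m (x j) (y j))) ^ p := by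
        rw [Finset.mul_sum]
    _ ≤ C1 ^ p * ((2:ℝ)^(r * μ)) ^ p * (((2:ℝ)^(m+2))^d * 4^d *
        (C2 * (2:ℝ)^((p-1)*μ) * ((μ:ℝ)+1)^(d-1))) :=
        mul_le_mul_of_nonneg_left (e2.trans (mul_le_mul_of_nonneg_left e4 hG)) hA
    _ = C1 ^ p * 4 ^ d * C2 * ((2:ℝ)^(m+2))^d * ((2:ℝ)^(r * μ))^p * (2:ℝ)^((p-1)*μ) *
        ((μ:ℝ)+1)^(d-1) := by ring

end SmSm
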