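import Pool.Agent.H636R2.SM.Spec
open MeasureTheory Real ProbabilityTheory
open scoped ENNReal BigOperators ComplexConjugate

namespace SmSm
open HypVol MWidth

/-- `c 2^μ / (μ+1)^(d-2)` is eventually at least any constant -/
theorem lowa0_large (d : ℕ) (c A : ℝ) (hc : 0 < c) :
    ∃ μ1 : ℕ, ∀ μ : ℕ, μ1 ≤ μ → A ≤ c * 2^μ / ((μ:ℝ)+1)^(d-2) := by
  have h := tendsto_pow_const_div_const_pow_of_one_lt (d-2) (r := (2:ℝ)) (by norm_num)
  have h2 := h.comp (Filter.tendsto_add_atTop_nat 1)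
  have hpos : 0 < c / 2 / (|A| + 1) := by positivity
  have h3 := (h2.eventually (gt_mem_nhds hpos)).exists_forall_of_atTop
  obtain ⟨μ1, hμ1⟩ := h3
  refine ⟨μ1, fun μ hμ => ?_⟩
  have h4 := hμ1 μ hμ
  simp only [Function.comp] at h4
  push_cast at h4
  have hN : (0:ℝ) < ((μ:ℝ)+1)^(d-2) := by positivity
  rw [div_lt_iff₀ (by positivity)] at h4
  rw [le_div_iff₀ hN]
  have h5 : (2:ℝ)^(μ+1) = 2 * 2^μ := by rw [pow_succ']
  rw [h5] at h4
  have h6 : (|A| + 1) * ((μ:ℝ)+1)^(d-2) < c * 2^μ := by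
    have h7 : c / 2 / (|A| + 1) * (2 * 2^μ) * (|A| + 1) = c * 2^μ := by
      field_simp
    calc (|A| + 1) * ((μ:ℝ)+1)^(d-2) = ((μ:ℝ)+1)^(d-2) * (|A| + 1) := mul_comm _ _
      _ < c / 2 / (|A| + 1) * (2 * 2^μ) * (|A| + 1) := mul_lt_mul_of_pos_right h4 (by positivity)
      _ = c * 2^μ := h7
  have h8 : A ≤ |A| + 1 := by linarith [le_abs_self A]
  calc A * ((μ:ℝ)+1)^(d-2) ≤ (|A| + 1) * ((μ:ℝ)+1)^(d-2) := mul_le_mul_of_nonneg_right h8 hN.le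
    _ ≤ c * 2^μ := h6.le

/-- the order function at the number of bits used -/
theorem lowa0_psi (d : ℕ) (hd : 3 ≤ d) (r : ℝ) (hr : 0 < r) (hr1 : r < 1/2) (c : ℝ) (hc : 0 < c) :
    ∃ C : ℝ, 0 < C ∧ ∀ μ k1 : ℕ, 2 ≤ k1 → c * 2^μ / ((μ:ℝ)+1)^(d-2) / 8 ≤ k1 →
      (k1:ℝ) ≤ c * 2^μ / ((μ:ℝ)+1)^(d-2) / 4 →
      psiA d r k1 ≤ C * (2:ℝ)^(-(r * μ)) * ((μ:ℝ)+1)^(d-1) := by
  set e : ℝ := ((d:ℝ)-1) * (1 - r) + r with he
  have hd3 : (3:ℝ) ≤ d := by exact_mod_cast hd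
  have he0 : 0 ≤ e := by
    have : 0 ≤ ((d:ℝ)-1) * (1 - r) := mul_nonneg (by linarith) (by linarith)
    linarith
  set A : ℝ := |Real.log c| + 1 with hA
  have hA0 : 0 < A := by positivity
  refine ⟨(c/8)^(-r) * A^e, by positivity, ?_⟩
  intro μ k1 hk hlow hup
  set N : ℝ := (μ:ℝ) + 1 with hN
  have hN1 : 1 ≤ N := by rw [hN]; linarith [Nat.cast_nonneg (α := ℝ) μ]
  have hN0 : 0 < N := by linarith
  have hk0 : (0:ℝ) < k1 := by positivity
  have hk1 : (1:ℝ) ≤ k1 := by exact_mod_cast (by omega : 1 ≤ k1)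
  have hT : 0 < c * 2^μ / N^(d-2) / 8 := by positivity
  have h1 : (k1:ℝ)^(-r) ≤ (c * 2^μ / N^(d-2) / 8)^(-r) :=
    Real.rpow_le_rpow_of_nonpos hT hlow (by linarith)
  have h2 : (c * 2^μ / N^(d-2) / 8)^(-r) = (c/8)^(-r) * (2:ℝ)^(-(r * μ)) * N^(((d:ℝ)-2) * r) := by
    have e1 : c * 2^μ / N^(d-2) / 8 = (c/8) * (2:ℝ)^(μ:ℝ) / N^((d:ℝ)-2) := by
      rw [Real.rpow_natCast]
      have : N^((d:ℝ)-2) = N^(d-2) := by
        rw [← Real.rpow_natCast, Nat.cast_sub (by omega)]; norm_num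
      rw [this]; ring
    rw [e1, Real.div_rpow (by positivity) (by positivity), Real.mul_rpow (by positivity) (by positivity),
      ← Real.rpow_mul (by norm_num), ← Real.rpow_mul hN0.le, div_eq_mul_inv, ← Real.rpow_neg hN0.le]
    congr 2
    · congr 1; congr 1; ring
    · ring
  have h3 : Real.log k1 ≤ A * N := by
    have e1 : (k1:ℝ) ≤ c * 2^μ := by
      refine hup.trans ?_
      rw [div_div]
      refine div_le_self (by positivity) ?_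
      have : (1:ℝ) ≤ N^(d-2) := one_le_pow₀ hN1
      linarith
    have e2 : Real.log k1 ≤ Real.log (c * 2^μ) := Real.log_le_log hk0 e1
    rw [Real.log_mul hc.ne' (by positivity), Real.log_pow] at e2
    have e3 : Real.log 2 ≤ 1 := by
      have := Real.log_two_lt_d9; linarith
    have e4 : Real.log c ≤ |Real.log c| * N := by
      have := le_abs_self (Real.log c)
      have := abs_nonneg (Real.log c)
      nlinarith
    have e5 : (μ:ℝ) * Real.log 2 ≤ N := by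
      have : (0:ℝ) ≤ μ := Nat.cast_nonneg μ
      nlinarith
    rw [hA]; linarith
  have h4 : (Real.log k1)^e ≤ A^e * N^e := by
    rw [← Real.mul_rpow hA0.le hN0.le]
    exact Real.rpow_le_rpow (Real.log_nonneg hk1) h3 he0
  have h5 : N^(((d:ℝ)-2) * r) * N^e = N^(d-1) := by
    rw [← Real.rpow_add hN0, ← Real.rpow_natCast, Nat.cast_sub (by omega)]
    congr 1
    rw [he]; push_cast; ring
  unfold psiA
  rw [← he]
  calc (k1:ℝ)^(-r) * (Real.log k1)^e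
      ≤ ((c/8)^(-r) * (2:ℝ)^(-(r * μ)) * N^(((d:ℝ)-2) * r)) * (A^e * N^e) := by
        rw [← h2]
        exact mul_le_mul h1 h4 (Real.rpow_nonneg (Real.log_nonneg hk1) _) (by positivity)
    _ = (c/8)^(-r) * A^e * (2:ℝ)^(-(r * μ)) * (N^(((d:ℝ)-2) * r) * N^e) := by ring
    _ = (c/8)^(-r) * A^e * (2:ℝ)^(-(r * μ)) * N^(d-1) := by rw [h5]

/-- **LOWA0** -/
theorem lowa0 (h1 : S_FAMA) (h2 : S_PIG) (h3 : S_UPA) (h4 : S_BDD) (h5 : S_CU) (h6 : S_ADM) :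
    S_LOWA0 := by
  intro 𝕜 _ d hd r hr hr1 α
  -- choice of q
  obtain ⟨q, hq3, hqr⟩ : ∃ q : ℕ, 3 ≤ q ∧ 1 / (q:ℝ) < r := by
    refine ⟨max 3 (⌊1/r⌋₊ + 1), le_max_left _ _, ?_⟩
    have e1 : 1 / r < ((⌊1/r⌋₊ + 1 : ℕ) : ℝ) := by
      push_cast; exact Nat.lt_floor_add_one _
    have e2 : ((⌊1/r⌋₊ + 1 : ℕ) : ℝ) ≤ ((max 3 (⌊1/r⌋₊ + 1) : ℕ) : ℝ) := by
      exact_mod_cast le_max_right _ _
    have e3 := e1.trans_le e2
    rw [div_lt_iff₀ (by positivity)] at e3 ⊢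
    rw [mul_comm]; exact e3
  have hq2 : (2:ℝ) < q := by
    have : (3:ℝ) ≤ q := by exact_mod_cast hq3
    linarith
  obtain ⟨B0, hB0, hB1⟩ := h4 𝕜 d (by omega) q r hq2 hqr α
  obtain ⟨C1, hC1, hcov⟩ := h5 𝕜 d (ML 𝕜 d r (ENNReal.ofReal q) α) B0 (psiA d r)
    (h6.1 d r (by omega) hr (by linarith)) hB1 (h3 𝕜 d (by omega) q r hq2 hqr hr1 α)
  have hadm := (h6.1 d r (by omega) hr (by linarith)).1
  obtain ⟨c1, C2, μa, hc1, hC2, hfam⟩ := h1 d hd r hr.le α q (by omega)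
  obtain ⟨C3, hC3, hpsi⟩ := lowa0_psi d hd r hr hr1 c1 hc1
  obtain ⟨μb, hμb⟩ := lowa0_large d c1 8 hc1
  set B : ℝ := 4 * C1 * C2 * C3 / c1 with hB
  have hBp : 0 < B := by positivity
  refine ⟨min (c1/4) (c1/(4 * B * C2)), max μa μb, by positivity, ?_⟩
  intro μ hμ k hk
  have hμa : μa ≤ μ := (le_max_left _ _).trans hμ
  have hT8 := hμb μ ((le_max_right _ _).trans hμ)
  set N : ℝ := (μ:ℝ) + 1 with hN
  have hN1 : 1 ≤ N := by rw [hN]; linarith [Nat.cast_nonneg (α := ℝ) μ]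
  have hN0 : 0 < N := by linarith
  set T : ℝ := c1 * 2^μ / N^(d-2) with hT
  have hTp : 0 < T := by positivity
  set k1 : ℕ := ⌊T/4⌋₊ with hk1
  have hk1up : (k1:ℝ) ≤ T/4 := Nat.floor_le (by positivity)
  have hk1lt : T/4 < k1 + 1 := Nat.lt_floor_add_one _
  have hk1low : T/8 ≤ k1 := by linarith
  have hk12 : 2 ≤ k1 := by
    have : (1:ℝ) < k1 := by linarith
    have : 1 < k1 := by exact_mod_cast this
    omega
  have hkT : (k:ℝ) ≤ T/4 := by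
    refine hk.trans ?_
    have e1 : min (c1/4) (c1/(4 * B * C2)) * 2^μ / N^(d-2) ≤ (c1/4) * 2^μ / N^(d-2) :=
      div_le_div_of_nonneg_right (mul_le_mul_of_nonneg_right (min_le_left _ _) (by positivity)) (by positivity)
    refine e1.trans (le_of_eq ?_)
    rw [hT]; ring
  unfold entNum
  refine le_iInf fun ε => le_iInf fun hε => ?_
  rcases eq_or_ne ε ⊤ with htop | htop
  · rw [htop]; exact le_top
  have hε0 : 0 < ε.toReal := ENNReal.toReal_pos hε.1.ne' htop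
  have hεe : ENNReal.ofReal ε.toReal = ε := ENNReal.ofReal_toReal htop
  have hexp : (2:ℝ)^k1 * 2^k < Real.exp (c1 * 2^μ / N^(d-2)) := by
    have e1 : (2:ℝ)^k1 * 2^k = Real.exp (((k1:ℝ) + k) * Real.log 2) := by
      rw [add_mul, Real.exp_add]
      congr 1
      · rw [mul_comm, ← Real.rpow_def_of_pos (by norm_num), Real.rpow_natCast]
      · rw [mul_comm, ← Real.rpow_def_of_pos (by norm_num), Real.rpow_natCast]
    rw [e1]
    refine Real.exp_lt_exp.2 ?_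
    have e2 : Real.log 2 ≤ 1 := by
      have := Real.log_two_lt_d9; linarith
    have e3 : 0 ≤ Real.log 2 := Real.log_nonneg (by norm_num)
    have e4 : ((k1:ℝ) + k) * Real.log 2 ≤ ((k1:ℝ) + k) * 1 := mul_le_mul_of_nonneg_left e2 (by positivity)
    rw [← hT]
    linarith
  have hψpos : 0 < psiA d r k1 := hadm k1 hk12
  have hν : 0 < C2 * (2:ℝ)^((1 + r) * μ) := by positivity
  have hpig := h2 𝕜 d (by omega) r hr α q (by omega) (Real.exp (c1 * 2^μ / N^(d-2)))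
    (C2 * (2:ℝ)^((1 + r) * μ)) (c1 * 2^μ * N^(d-1)) B (C1 * psiA d r k1) ε.toReal k1 k hν hBp
    (by positivity) hε0 (hfam μ hμa) (hcov k1 hk12) (by rw [hεe]; exact hε.2) hexp
  have hps := hpsi μ k1 hk12 hk1low hk1up
  have h2pow : (2:ℝ)^((1 + r) * μ) * (2:ℝ)^(-(r * μ)) = 2^μ := by
    rw [← Real.rpow_add (by norm_num), ← Real.rpow_natCast]
    congr 1; ring
  have hA1 : 2 * (C2 * (2:ℝ)^((1 + r) * μ) / B) * (C1 * psiA d r k1) ≤ c1 * 2^μ * N^(d-1) / 2 := by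
    calc 2 * (C2 * (2:ℝ)^((1 + r) * μ) / B) * (C1 * psiA d r k1)
        ≤ 2 * (C2 * (2:ℝ)^((1 + r) * μ) / B) * (C1 * (C3 * (2:ℝ)^(-(r * μ)) * N^(d-1))) := by
          refine mul_le_mul_of_nonneg_left (mul_le_mul_of_nonneg_left hps hC1.le) (by positivity)
      _ = 2 * (C1 * C2 * C3) / B * ((2:ℝ)^((1 + r) * μ) * (2:ℝ)^(-(r * μ))) * N^(d-1) := by ring
      _ = 2 * (C1 * C2 * C3) / B * 2^μ * N^(d-1) := by rw [h2pow]
      _ = c1 * 2^μ * N^(d-1) / 2 := by rw [hB]; field_simp; ring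
  have hA2 : c1 * 2^μ * N^(d-1) / 2 ≤ 2 * B * (C2 * (2:ℝ)^((1 + r) * μ)) * ε.toReal := by linarith
  have hA3 : c1/(4 * B * C2) * (2:ℝ)^(-(r * μ)) * N^(d-1) ≤ ε.toReal := by
    have e1 : (0:ℝ) < 2 * B * (C2 * (2:ℝ)^((1 + r) * μ)) := by positivity
    have e2 : c1/(4 * B * C2) * (2:ℝ)^(-(r * μ)) * N^(d-1) =
        (c1 * 2^μ * N^(d-1) / 2) / (2 * B * (C2 * (2:ℝ)^((1 + r) * μ))) := by
      rw [← h2pow]
      field_simp
      ring
    rw [e2, div_le_iff₀ e1]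
    linarith
  rw [← hεe]
  refine ENNReal.ofReal_le_ofReal (le_trans ?_ hA3)
  refine mul_le_mul_of_nonneg_right (mul_le_mul_of_nonneg_right (min_le_right _ _) (by positivity)) (by positivity)

end SmSm
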