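import Pool.Agent.H636R2.SM.Spec
open MeasureTheory Real ProbabilityTheory
open scoped ENNReal BigOperators

namespace SmSm
open HypVol MWidth

lemma lowb0_cov_mono {𝕜 : Type} [RCLike 𝕜] {d : ℕ} {q : ℝ≥0∞} {k k' : ℕ} {ε : ℝ≥0∞}
    {Θ : Set ((Fin d → ℝ) → 𝕜)} (h : k ≤ k') (hc : Cov q k ε Θ) : Cov q k' ε Θ := by
  obtain ⟨c, hc1, hc2⟩ := hc
  have h2 : 2 ^ k ≤ 2 ^ k' := Nat.pow_le_pow_right (by norm_num) h
  refine ⟨fun j => c ⟨j.1 % 2 ^ k, Nat.mod_lt _ (by positivity)⟩, fun j => hc1 _, fun f hf => ?_⟩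
  obtain ⟨j, hj⟩ := hc2 f hf
  refine ⟨⟨j.1, j.2.trans_le h2⟩, ?_⟩
  have h3 : (⟨j.1 % 2 ^ k, Nat.mod_lt _ (by positivity)⟩ : Fin (2 ^ k)) = j := by
    apply Fin.ext
    exact Nat.mod_eq_of_lt j.2
  simp only [h3]
  exact hj

lemma lowb0_psi_sqrt (d k : ℕ) (hk : 1 ≤ k) :
    psiB d k = √((k:ℝ)⁻¹ * (Real.log k) ^ d * Real.log (Real.log k + 3)) := by
  have h0 : (0:ℝ) ≤ k := Nat.cast_nonneg k
  have h1 : 0 ≤ Real.log k := Real.log_natCast_nonneg k
  have h2 : 0 ≤ Real.log (Real.log k + 3) := Real.log_nonneg (by linarith)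
  unfold psiB
  rw [Real.sqrt_eq_rpow, Real.mul_rpow (by positivity) h2, Real.mul_rpow (by positivity) (by positivity),
    Real.inv_rpow h0, Real.rpow_neg h0, ← Real.rpow_natCast, ← Real.rpow_mul h1]
  congr 3
  ring

lemma lowb0_psi (d : ℕ) (hd : 1 ≤ d) (c1 : ℝ) (hc1 : 0 < c1) : ∃ C3 : ℝ, 0 < C3 ∧
    ∀ n : ℕ, 2 ≤ n → 8 ≤ c1 * n → 1 ≤ ⌊c1 * 2 ^ n * (n:ℝ) ^ (d - 1) / 4⌋₊ ∧
      2 ≤ ⌊c1 * 2 ^ n * (n:ℝ) ^ (d - 1) / 4⌋₊ ∧
      c1 * 2 ^ n * (n:ℝ) ^ (d - 1) / 8 ≤ (⌊c1 * 2 ^ n * (n:ℝ) ^ (d - 1) / 4⌋₊ : ℝ) ∧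
      psiB d ⌊c1 * 2 ^ n * (n:ℝ) ^ (d - 1) / 4⌋₊ ≤ C3 * √((n:ℝ) * Nat.log 2 n / 2 ^ n) := by
  set a : ℝ := |Real.log c1| + 1 + d with ha
  have ha0 : 0 < a := by positivity
  have hb0' : 0 ≤ Real.log (a + 3) := Real.log_nonneg (by linarith)
  set b : ℝ := Real.log (a + 3) + 2 with hb
  have hb0 : 0 < b := by linarith
  refine ⟨√(8 * a ^ d * b / c1), Real.sqrt_pos.2 (by positivity), ?_⟩
  intro n hn hcn
  have hn1 : (1:ℝ) ≤ n := by exact_mod_cast (by omega : 1 ≤ n)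
  have hn0 : (0:ℝ) < n := by linarith
  set x : ℝ := c1 * 2 ^ n * (n:ℝ) ^ (d - 1) with hx
  have hpow1 : (1:ℝ) ≤ (n:ℝ) ^ (d - 1) := one_le_pow₀ hn1
  have h2n : (n:ℝ) ≤ 2 ^ n := by exact_mod_cast Nat.lt_two_pow_self.le
  have hx8 : 8 ≤ x := by
    have h1 : c1 * n ≤ c1 * 2 ^ n := mul_le_mul_of_nonneg_left h2n hc1.le
    have h2 : c1 * 2 ^ n * 1 ≤ x := mul_le_mul_of_nonneg_left hpow1 (by positivity)
    linarith
  have hx0 : 0 < x := by linarith
  set k := ⌊x / 4⌋₊ with hk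
  have hk1 : (k:ℝ) ≤ x / 4 := Nat.floor_le (by positivity)
  have hk2 : x / 4 < k + 1 := Nat.lt_floor_add_one _
  have hk3 : x / 8 ≤ (k:ℝ) := by linarith
  have hk4 : 2 ≤ k := by
    have : (2:ℝ) ≤ x / 4 := by linarith
    exact Nat.le_floor (by exact_mod_cast this)
  refine ⟨by omega, hk4, hk3, ?_⟩
  have hk0 : (0:ℝ) < k := by exact_mod_cast (by omega : 0 < k)
  have hlk0 : 0 ≤ Real.log k := Real.log_natCast_nonneg k
  -- log k ≤ a n
  have hlogn0 : 0 ≤ Real.log n := Real.log_natCast_nonneg n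
  have hlogn : Real.log n ≤ n := (Real.log_le_sub_one_of_pos hn0).trans (by linarith)
  have hlk : Real.log k ≤ a * n := by
    have h1 : Real.log k ≤ Real.log x := Real.log_le_log hk0 (by linarith)
    have h2 : Real.log x = Real.log c1 + n * Real.log 2 + ((d - 1 : ℕ) : ℝ) * Real.log n := by
      rw [hx, Real.log_mul (by positivity) (by positivity), Real.log_mul hc1.ne' (by positivity),
        Real.log_pow, Real.log_pow]
    have h3 : Real.log c1 ≤ |Real.log c1| * n := by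
      have h4 := le_abs_self (Real.log c1)
      have h5 : |Real.log c1| * 1 ≤ |Real.log c1| * n :=
        mul_le_mul_of_nonneg_left hn1 (abs_nonneg _)
      linarith
    have h4 : (n:ℝ) * Real.log 2 ≤ n := by
      have := Real.log_two_lt_d9
      nlinarith
    have h5 : ((d - 1 : ℕ) : ℝ) * Real.log n ≤ d * n := by
      have h6 : ((d - 1 : ℕ) : ℝ) ≤ d := by exact_mod_cast Nat.sub_le d 1
      exact mul_le_mul h6 hlogn hlogn0 (by positivity)
    rw [h2] at h1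
    have h6 : a * n = |Real.log c1| * n + n + d * n := by rw [ha]; ring
    linarith
  -- log (log k + 3) ≤ b L
  set L : ℕ := Nat.log 2 n with hL
  have hL1 : (1:ℝ) ≤ L := by
    have : 1 ≤ Nat.log 2 n := Nat.log_pos (by norm_num) hn
    exact_mod_cast this
  have hll : Real.log (Real.log k + 3) ≤ b * L := by
    have h1 : Real.log k + 3 ≤ (a + 3) * n := by nlinarith
    have h2 : Real.log (Real.log k + 3) ≤ Real.log ((a + 3) * n) :=
      Real.log_le_log (by linarith) h1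
    rw [Real.log_mul (by linarith) hn0.ne'] at h2
    have h3 : Real.log n ≤ 2 * L := by
      have h4 : (n:ℝ) ≤ 2 ^ (L + 1) := by
        exact_mod_cast (Nat.lt_pow_succ_log_self (by norm_num) n).le
      have h5 : Real.log n ≤ Real.log (2 ^ (L + 1)) := Real.log_le_log hn0 h4
      rw [Real.log_pow] at h5
      push_cast at h5
      have := Real.log_two_lt_d9
      nlinarith
    have h4 : Real.log (a + 3) ≤ Real.log (a + 3) * L := by nlinarith
    rw [hb]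
    linarith
  have hll0 : 0 ≤ Real.log (Real.log k + 3) := Real.log_nonneg (by linarith)
  rw [lowb0_psi_sqrt d k (by omega), ← Real.sqrt_mul (by positivity)]
  apply Real.sqrt_le_sqrt
  have e1 : (k:ℝ)⁻¹ ≤ 8 / x := by
    rw [inv_le_comm₀ hk0 (by positivity), inv_div]
    exact hk3
  have e2 : (Real.log k) ^ d ≤ (a * n) ^ d := pow_le_pow_left₀ hlk0 hlk d
  calc (k:ℝ)⁻¹ * (Real.log k) ^ d * Real.log (Real.log k + 3)
      ≤ 8 / x * (a * n) ^ d * (b * L) := by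
        refine mul_le_mul (mul_le_mul e1 e2 (by positivity) (by positivity)) hll hll0 (by positivity)
    _ = 8 * a ^ d * b / c1 * ((n:ℝ) * L / 2 ^ n) := by
        have h1 : (n:ℝ) ^ d = n * (n:ℝ) ^ (d - 1) := by
          rw [← pow_succ']; congr 1; omega
        rw [hx, mul_pow, h1]
        field_simp

theorem lowb0 (h1 : S_FAMB) (h2 : S_PIG) (h3 : S_UPB) (h4 : S_BDD) (h5 : S_CU) (h6 : S_ADM) :
    S_LOWB0 := by
  intro 𝕜 _ d hd α
  obtain ⟨c1, C2, n0, hc1, hC2, hfam⟩ := h1 d hd α 3 (by norm_num)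
  have hq : (2:ℝ) < ((3:ℕ):ℝ) := by norm_num
  obtain ⟨B0, hB0, hbdd⟩ := h4 𝕜 d (by omega) ((3:ℕ):ℝ) (1/2) hq (by norm_num) α
  obtain ⟨C1, hC1, hcov⟩ := h5 𝕜 d (ML 𝕜 d (1/2) (ENNReal.ofReal ((3:ℕ):ℝ)) α) B0 (psiB d)
    (h6.2 d (by omega)) hbdd (h3 𝕜 d (by omega) ((3:ℕ):ℝ) hq α)
  obtain ⟨C3, hC3, hpsi⟩ := lowb0_psi d (by omega) c1 hc1
  set B : ℝ := 4 * C1 * C2 * C3 / c1 with hB
  have hBpos : 0 < B := by positivity
  refine ⟨min (c1 / 8) (c1 / (4 * B * C2)), max n0 (max 2 ⌈8 / c1⌉₊), by positivity, ?_⟩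
  intro n hn k hk
  have hn0 : n0 ≤ n := (le_max_left _ _).trans hn
  have hn2 : 2 ≤ n := ((le_max_left _ _).trans (le_max_right _ _)).trans hn
  have hn8 : 8 ≤ c1 * n := by
    have h7 : (⌈8 / c1⌉₊ : ℝ) ≤ n := by
      exact_mod_cast ((le_max_right _ _).trans (le_max_right _ _)).trans hn
    have h8 : 8 / c1 ≤ n := (Nat.le_ceil _).trans h7
    rw [div_le_iff₀ hc1] at h8
    linarith
  obtain ⟨hk1, hk2, hk8, hps⟩ := hpsi n hn2 hn8
  have hnpos : (0:ℝ) < n := by exact_mod_cast (by omega : 0 < n)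
  set x : ℝ := c1 * 2 ^ n * (n:ℝ) ^ (d - 1) with hx
  have hx0 : 0 < x := by positivity
  set k1 := ⌊x / 4⌋₊ with hk1'
  have hkx : (k1:ℝ) ≤ x / 4 := Nat.floor_le (by positivity)
  have hkk : k ≤ k1 := by
    have h7 : (k:ℝ) ≤ c1 / 8 * 2 ^ n * (n:ℝ) ^ (d - 1) := by
      refine hk.trans ?_
      have := min_le_left (c1 / 8) (c1 / (4 * B * C2))
      gcongr
    have h8 : c1 / 8 * 2 ^ n * (n:ℝ) ^ (d - 1) = x / 8 := by rw [hx]; ring
    rw [h8] at h7
    exact_mod_cast h7.trans hk8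
  set L : ℕ := Nat.log 2 n with hL
  have hLpos : (0:ℝ) < L := by
    have : 1 ≤ Nat.log 2 n := Nat.log_pos (by norm_num) hn2
    exact_mod_cast this
  set R : ℝ := √((n:ℝ) * L / 2 ^ n) with hR
  have hR0 : 0 < R := Real.sqrt_pos.2 (by positivity)
  set ν : ℝ := C2 * √(2 ^ n * (n:ℝ) ^ (d - 2) * L * (n:ℝ) ^ (d - 1)) with hν
  have hν0 : 0 < ν := mul_pos hC2 (Real.sqrt_pos.2 (by positivity))
  have hνR : ν * R = C2 * (L * (n:ℝ) ^ (d - 1)) := by
    rw [hν, hR, mul_assoc, ← Real.sqrt_mul (by positivity)]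
    congr 1
    rw [show 2 ^ n * (n:ℝ) ^ (d - 2) * L * (n:ℝ) ^ (d - 1) * ((n:ℝ) * L / 2 ^ n)
      = (L * (n:ℝ) ^ (d - 1)) ^ 2 by
        have h7 : (n:ℝ) ^ (d - 1) = n * (n:ℝ) ^ (d - 2) := by
          rw [← pow_succ']; congr 1; omega
        rw [h7]
        field_simp]
    exact Real.sqrt_sq (by positivity)
  -- the key estimate
  have key : ∀ ε2 : ℝ, 0 < ε2 → Cov ⊤ k1 (ENNReal.ofReal ε2) (ML 𝕜 d (1/2) ⊤ α) →
      c1 / (4 * B * C2) * R ≤ ε2 := by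
    intro ε2 hε2 hcv
    have hψ0 : 0 < psiB d k1 := (h6.2 d (by omega)).1 k1 hk2
    have h7 := h2 𝕜 d (by omega) (1/2) (by norm_num) α 3 (by norm_num)
      (Real.exp (c1 * 2^n * (n:ℝ)^(d-1))) ν (c1 * L * (n:ℝ)^(d-1)) B (C1 * psiB d k1) ε2 k1 k1
      hν0 hBpos (mul_pos hC1 hψ0) hε2 (hfam n hn0) (hcov k1 hk2) hcv ?_
    · have h8 : 2 * (ν / B) * (C1 * psiB d k1) ≤ c1 * L * (n:ℝ)^(d-1) / 2 := by
        have h9 : ν * psiB d k1 ≤ C3 * (C2 * (L * (n:ℝ) ^ (d - 1))) := by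
          calc ν * psiB d k1 ≤ ν * (C3 * R) := mul_le_mul_of_nonneg_left hps hν0.le
            _ = C3 * (ν * R) := by ring
            _ = _ := by rw [hνR]
        have h10 : 2 * (ν / B) * (C1 * psiB d k1) = 2 * C1 / B * (ν * psiB d k1) := by ring
        rw [h10]
        calc 2 * C1 / B * (ν * psiB d k1)
            ≤ 2 * C1 / B * (C3 * (C2 * (L * (n:ℝ) ^ (d - 1)))) :=
              mul_le_mul_of_nonneg_left h9 (by positivity)
          _ = c1 * L * (n:ℝ)^(d-1) / 2 := by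
              rw [hB]
              field_simp
              ring
      have h9 : c1 * L * (n:ℝ)^(d-1) / 2 ≤ 2 * B * ν * ε2 := by linarith
      -- c1 L n^(d-1) = c1 / C2 * ν * R
      have h10 : c1 * L * (n:ℝ)^(d-1) = c1 / C2 * (ν * R) := by
        rw [hνR]
        field_simp
      rw [h10] at h9
      have h11 : c1 / C2 * (ν * R) / 2 = (c1 / (4 * B * C2) * R) * (2 * B * ν) := by
        field_simp
        ring
      rw [h11] at h9
      have h12 : 0 < 2 * B * ν := by positivity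
      have h13 : (c1 / (4 * B * C2) * R) * (2 * B * ν) ≤ ε2 * (2 * B * ν) := by linarith
      exact le_of_mul_le_mul_right h13 h12
    · rw [← pow_add]
      have h8 : (2:ℝ) ^ (k1 + k1) = Real.exp (((k1 + k1 : ℕ) : ℝ) * Real.log 2) := by
        rw [Real.exp_nat_mul, Real.exp_log (by norm_num)]
      rw [h8]
      apply Real.exp_lt_exp.2
      have h9 := Real.log_two_lt_d9
      have h10 : 0 < Real.log 2 := Real.log_pos (by norm_num)
      push_cast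
      have h11 : ((k1:ℝ) + k1) * Real.log 2 ≤ (x / 2) * Real.log 2 :=
        mul_le_mul_of_nonneg_right (by linarith) h10.le
      have h12 : (x / 2) * Real.log 2 < x := by nlinarith
      exact lt_of_le_of_lt h11 h12
  unfold entNum
  refine le_iInf₂ fun ε hε => ?_
  by_contra hcon
  push Not at hcon
  have hεtop : ε ≠ ⊤ := ne_top_of_lt hcon
  have hε0 : 0 < ε.toReal := ENNReal.toReal_pos hε.1.ne' hεtop
  have h7 : Cov ⊤ k1 (ENNReal.ofReal ε.toReal) (ML 𝕜 d (1/2) ⊤ α) := by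
    rw [ENNReal.ofReal_toReal hεtop]
    exact lowb0_cov_mono hkk hε.2
  have h8 := key _ hε0 h7
  have h9 : ENNReal.ofReal (min (c1 / 8) (c1 / (4 * B * C2)) * R) ≤ ε := by
    rw [← ENNReal.ofReal_toReal hεtop]
    apply ENNReal.ofReal_le_ofReal
    refine le_trans ?_ h8
    exact mul_le_mul_of_nonneg_right (min_le_right _ _) hR0.le
  exact absurd hcon (not_lt.2 h9)

end SmSm
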