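import Pool.Agent.H636R2.SM.Spec

set_option autoImplicit false

namespace SmSm

open Finset

/-- the constant of the binomial estimate -/
noncomputable def momK (j : ℕ) : ℝ := ∑ i ∈ range (2*j+1), ((2*j+2).choose (i+2) : ℝ)

theorem momK_nonneg (j : ℕ) : 0 ≤ momK j := by
  unfold momK
  positivity

theorem mom_term (j i : ℕ) (hi : i ≤ 2*j) (s y : ℝ) :
    y^i * s^(2*j-i) ≤ s^(2*j) + y^(2*j) := by
  have h1 : y^i * s^(2*j-i) ≤ |y|^i * |s|^(2*j-i) := by
    rw [← abs_pow, ← abs_pow, ← abs_mul]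
    exact le_abs_self _
  have e1 : s^(2*j) = |s|^(2*j) := by
    rw [pow_mul, pow_mul, sq_abs]
  have e2 : y^(2*j) = |y|^(2*j) := by
    rw [pow_mul, pow_mul, sq_abs]
  rw [e1, e2]
  refine h1.trans ?_
  rcases le_total |y| |s| with h | h
  · calc |y|^i * |s|^(2*j-i) ≤ |s|^i * |s|^(2*j-i) :=
          mul_le_mul_of_nonneg_right (pow_le_pow_left₀ (abs_nonneg _) h _) (by positivity)
      _ = |s|^(2*j) := by rw [← pow_add, Nat.add_sub_cancel' hi]
      _ ≤ |s|^(2*j) + |y|^(2*j) := le_add_of_nonneg_right (by positivity)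
  · calc |y|^i * |s|^(2*j-i) ≤ |y|^i * |y|^(2*j-i) :=
          mul_le_mul_of_nonneg_left (pow_le_pow_left₀ (abs_nonneg _) h _) (by positivity)
      _ = |y|^(2*j) := by rw [← pow_add, Nat.add_sub_cancel' hi]
      _ ≤ |s|^(2*j) + |y|^(2*j) := le_add_of_nonneg_left (by positivity)

theorem mom_binom (j : ℕ) (s y : ℝ) :
    (y + s)^(2*j+2) ≤ s^(2*j+2) + (2*j+2) * y * s^(2*j+1) +
      momK j * (y^2 * (s^(2*j) + y^(2*j))) := by
  rw [add_pow, Finset.sum_range_succ', Finset.sum_range_succ']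
  have h1 : ∑ i ∈ range (2*j+1), y^(i+1+1) * s^(2*j+2-(i+1+1)) * ((2*j+2).choose (i+1+1) : ℝ) ≤
      momK j * (y^2 * (s^(2*j) + y^(2*j))) := by
    unfold momK
    rw [Finset.sum_mul]
    apply Finset.sum_le_sum
    intro i hi
    have hi' : i ≤ 2*j := by
      rw [Finset.mem_range] at hi
      omega
    have e : 2*j+2-(i+1+1) = 2*j-i := by omega
    rw [e]
    have h2 := mom_term j i hi' s y
    have h3 : (0:ℝ) ≤ ((2*j+2).choose (i+2) : ℝ) := by positivity
    calc y^(i+1+1) * s^(2*j-i) * ((2*j+2).choose (i+1+1) : ℝ)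
        = ((2*j+2).choose (i+2) : ℝ) * (y^2 * (y^i * s^(2*j-i))) := by
          rw [show i+1+1 = i+2 from rfl, pow_add]
          ring
      _ ≤ ((2*j+2).choose (i+2) : ℝ) * (y^2 * (s^(2*j) + y^(2*j))) :=
          mul_le_mul_of_nonneg_left (mul_le_mul_of_nonneg_left h2 (by positivity)) h3
  have e1 : y^(0+1) * s^(2*j+2-(0+1)) * ((2*j+2).choose (0+1) : ℝ) =
      (2*j+2) * y * s^(2*j+1) := by
    rw [show 2*j+2-(0+1) = 2*j+1 by omega, zero_add, Nat.choose_one_right]
    push_cast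
    ring
  have e2 : y^0 * s^(2*j+2-0) * ((2*j+2).choose 0 : ℝ) = s^(2*j+2) := by
    rw [Nat.choose_zero_right, Nat.sub_zero]
    push_cast
    ring
  rw [e1, e2]
  linarith

theorem mom_succ (G : Type) [Fintype G] (f : ℕ → ℝ → ℝ) (Y : G → ℝ) (M n : ℕ) :
    ∑ X : Fin (M+1) → G, f n (∑ i, Y (X i)) =
      ∑ X : Fin M → G, ∑ g : G, f n (Y g + ∑ i, Y (X i)) := by
  rw [← (Fin.consEquiv (fun _ : Fin (M+1) => G)).sum_comp, Fintype.sum_prod_type,
    Finset.sum_comm]
  apply Finset.sum_congr rfl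
  intro X _
  apply Finset.sum_congr rfl
  intro g _
  congr 1
  rw [Fin.sum_univ_succ]
  rfl

theorem mom_step (G : Type) [Fintype G] (Y : G → ℝ) (hY : ∑ g, Y g = 0) (j M : ℕ) :
    ∑ X : Fin (M+1) → G, (∑ i, Y (X i))^(2*j+2) ≤
      Fintype.card G * ∑ X : Fin M → G, (∑ i, Y (X i))^(2*j+2) +
      momK j * ((∑ g, (Y g)^2) * ∑ X : Fin M → G, (∑ i, Y (X i))^(2*j) +
        (∑ g, (Y g)^(2*j+2)) * (Fintype.card G : ℝ)^M) := by
  have h0 := mom_succ G (fun n x => x^n) Y M (2*j+2)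
  rw [h0]
  have h1 : ∀ X : Fin M → G, ∑ g : G, (Y g + ∑ i, Y (X i))^(2*j+2) ≤
      Fintype.card G * (∑ i, Y (X i))^(2*j+2) + momK j * ((∑ g, (Y g)^2) *
        (∑ i, Y (X i))^(2*j) + ∑ g, (Y g)^(2*j+2)) := by
    intro X
    have h2 : ∑ g : G, (Y g + ∑ i, Y (X i))^(2*j+2) ≤
        ∑ g : G, ((∑ i, Y (X i))^(2*j+2) + (2*j+2) * Y g * (∑ i, Y (X i))^(2*j+1) +
      momK j * ((Y g)^2 * ((∑ i, Y (X i))^(2*j) + (Y g)^(2*j)))) :=
      Finset.sum_le_sum fun g _ => mom_binom j _ _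
    refine h2.trans (le_of_eq ?_)
    rw [Finset.sum_add_distrib, Finset.sum_add_distrib, Finset.sum_const, Finset.card_univ,
      nsmul_eq_mul, ← Finset.sum_mul, ← Finset.mul_sum, hY, ← Finset.mul_sum]
    have h3 : ∑ g, (Y g)^2 * ((∑ i, Y (X i))^(2*j) + (Y g)^(2*j)) =
        (∑ g, (Y g)^2) * (∑ i, Y (X i))^(2*j) + ∑ g, (Y g)^(2*j+2) := by
      rw [Finset.sum_mul, ← Finset.sum_add_distrib]
      apply Finset.sum_congr rfl
      intro g _
      ring
    rw [h3]
    ring
  refine (Finset.sum_le_sum fun X _ => h1 X).trans (le_of_eq ?_)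
  rw [Finset.sum_add_distrib, ← Finset.mul_sum, ← Finset.mul_sum, Finset.sum_add_distrib,
    ← Finset.mul_sum, Finset.sum_const, Finset.card_univ, nsmul_eq_mul, Fintype.card_fun,
    Fintype.card_fin]
  push_cast
  ring

theorem mom : S_MOM := by
  intro j B hB
  induction j with
  | zero =>
    refine ⟨1, one_pos, ?_⟩
    intro G _ _ Y M _ _
    simp
  | succ j ih =>
    obtain ⟨C, hC, hI⟩ := ih
    refine ⟨momK j * B * (C + 1) + 1, by
      have := momK_nonneg j
      positivity, ?_⟩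
    intro G _ _ Y M hY hM
    have hcard : (0:ℝ) < Fintype.card G := by exact_mod_cast Fintype.card_pos
    have hK := momK_nonneg j
    have hM1 := hM 1 le_rfl (by omega)
    have hMj := hM (j+1) (by omega) le_rfl
    rw [mul_one] at hM1
    have ej : 2*(j+1) = 2*j+2 := by ring
    rw [ej] at hMj ⊢
    have hb : ∀ M', M' ≤ M → ∑ X : Fin M' → G, (∑ i, Y (X i))^(2*j) ≤
        C * (Fintype.card G : ℝ)^M' := by
      intro M' hM'
      apply hI G Y M' hY
      intro i hi1 hij
      refine le_trans ?_ (hM i hi1 (by omega))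
      have h1 : (0:ℝ) ≤ ∑ g, (Y g)^(2*i) :=
        Finset.sum_nonneg fun g _ => by rw [pow_mul]; positivity
      have h2 : (M':ℝ) ≤ M := by exact_mod_cast hM'
      exact mul_le_mul_of_nonneg_right h2 h1
    have key : ∀ M', M' ≤ M → (M:ℝ) * ∑ X : Fin M' → G, (∑ i, Y (X i))^(2*j+2) ≤
        M' * (momK j * B * (C + 1)) * (Fintype.card G : ℝ)^M' := by
      intro M'
      induction M' with
      | zero =>
        intro _
        simp
      | succ M' ih' =>
        intro hM'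
        have h1 := mom_step G Y hY j M'
        have h2 := ih' (by omega)
        have h3 := hb M' (by omega)
        have hMn : (0:ℝ) ≤ M := by positivity
        have hp : (0:ℝ) ≤ (Fintype.card G : ℝ)^M' := by positivity
        have h4 : (0:ℝ) ≤ ∑ g, (Y g)^2 := by positivity
        have h5 : (M:ℝ) * ((∑ g, (Y g)^2) * ∑ X : Fin M' → G, (∑ i, Y (X i))^(2*j)) ≤
            B * Fintype.card G * (C * (Fintype.card G : ℝ)^M') := by
          calc (M:ℝ) * ((∑ g, (Y g)^2) * ∑ X : Fin M' → G, (∑ i, Y (X i))^(2*j))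
              ≤ (M:ℝ) * ((∑ g, (Y g)^2) * (C * (Fintype.card G : ℝ)^M')) :=
                mul_le_mul_of_nonneg_left (mul_le_mul_of_nonneg_left h3 h4) hMn
            _ = (M * ∑ g, (Y g)^2) * (C * (Fintype.card G : ℝ)^M') := by ring
            _ ≤ B * Fintype.card G * (C * (Fintype.card G : ℝ)^M') :=
                mul_le_mul_of_nonneg_right hM1 (by positivity)
        have h6 : (M:ℝ) * ((∑ g, (Y g)^(2*j+2)) * (Fintype.card G : ℝ)^M') ≤
            B * Fintype.card G * (Fintype.card G : ℝ)^M' := by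
          rw [← mul_assoc]
          exact mul_le_mul_of_nonneg_right hMj hp
        calc (M:ℝ) * ∑ X : Fin (M'+1) → G, (∑ i, Y (X i))^(2*j+2)
            ≤ M * (Fintype.card G * ∑ X : Fin M' → G, (∑ i, Y (X i))^(2*j+2) +
              momK j * ((∑ g, (Y g)^2) * ∑ X : Fin M' → G, (∑ i, Y (X i))^(2*j) +
              (∑ g, (Y g)^(2*j+2)) * (Fintype.card G : ℝ)^M')) :=
              mul_le_mul_of_nonneg_left h1 hMn
          _ = Fintype.card G * (M * ∑ X : Fin M' → G, (∑ i, Y (X i))^(2*j+2)) +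
              momK j * (M * ((∑ g, (Y g)^2) * ∑ X : Fin M' → G, (∑ i, Y (X i))^(2*j)) +
              M * ((∑ g, (Y g)^(2*j+2)) * (Fintype.card G : ℝ)^M')) := by ring
          _ ≤ Fintype.card G * (M' * (momK j * B * (C + 1)) * (Fintype.card G : ℝ)^M') +
              momK j * (B * Fintype.card G * (C * (Fintype.card G : ℝ)^M') +
              B * Fintype.card G * (Fintype.card G : ℝ)^M') :=
              add_le_add (mul_le_mul_of_nonneg_left h2 hcard.le)
                (mul_le_mul_of_nonneg_left (add_le_add h5 h6) hK)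
          _ = ((M'+1:ℕ):ℝ) * (momK j * B * (C + 1)) * (Fintype.card G : ℝ)^(M'+1) := by
              push_cast
              ring
    have hfin := key M le_rfl
    have hp : (0:ℝ) < (Fintype.card G : ℝ)^M := by positivity
    rcases Nat.eq_zero_or_pos M with h0 | h0
    · subst h0
      have e : ∑ X : Fin 0 → G, (∑ i, Y (X i))^(2*j+2) = 0 := by simp
      rw [e]
      positivity
    · have hMp : (0:ℝ) < M := by exact_mod_cast h0
      have h1 : ∑ X : Fin M → G, (∑ i, Y (X i))^(2*j+2) ≤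
          (momK j * B * (C + 1)) * (Fintype.card G : ℝ)^M := by
        refine le_of_mul_le_mul_left ?_ hMp
        calc (M:ℝ) * ∑ X : Fin M → G, (∑ i, Y (X i))^(2*j+2)
            ≤ M * (momK j * B * (C + 1)) * (Fintype.card G : ℝ)^M := hfin
          _ = M * ((momK j * B * (C + 1)) * (Fintype.card G : ℝ)^M) := by ring
      nlinarith

end SmSm
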