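import Pool.Agent.H636R2.SM.Spec
import Pool.Agent.HypVol.L_kern_sum
import Pool.Agent.EntX.L_count_T
open MeasureTheory Real ProbabilityTheory
open scoped ENNReal BigOperators

/-! NUM1: kernel sums with a power and an exponential weight. -/

namespace SmSm
open HypVol MWidth HypVol.Sol_kern_sum

theorem num1_B (D n m p : ℕ) (hp : 3 ≤ p) (C0 : ℝ) (hC0 : 0 < C0) :
    ((m : ℝ) + 1) ^ D * ((1 / 2 : ℝ) ^ m *
      (2 ^ n * Real.exp (-(Real.log 2 * ((n - m : ℕ) : ℝ) / 2)) *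
        (C0 * (1 + ((m - n : ℕ) : ℝ))) ^ D) ^ p * Real.exp ((1 + ((m - n : ℕ) : ℝ)) / 8)) ≤
      (2 ^ ((p - 1) * n) * C0 ^ (D * p) * ((n : ℝ) + 1) ^ D) *
        (((1 + ((m - n : ℕ) : ℝ)) ^ (3 * (D * (p + 1))) *
          Real.exp ((1 + ((m - n : ℕ) : ℝ)) / 4 - Real.log 2 * ((m - n : ℕ) : ℝ))) *
          Real.exp (-(Real.log 2 * ((n - m : ℕ) : ℝ) / 2))) := by
  set P : ℝ := ((m - n : ℕ) : ℝ) with hP
  set Q : ℝ := ((n - m : ℕ) : ℝ) with hQ
  have hP0 : 0 ≤ P := Nat.cast_nonneg _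
  have hQ0 : 0 ≤ Q := Nat.cast_nonneg _
  have hn0 : (0 : ℝ) ≤ n := Nat.cast_nonneg _
  have hl : 0 < Real.log 2 := Real.log_pos (by norm_num)
  have hPQ : P - Q = (m : ℝ) - n := by
    rw [hP, hQ]
    rcases le_total m n with h | h
    · rw [Nat.sub_eq_zero_of_le h, Nat.cast_sub h]; simp
    · rw [Nat.sub_eq_zero_of_le h, Nat.cast_sub h]; simp
  have hpr : (3 : ℝ) ≤ p := by exact_mod_cast hp
  have e1 : ((m : ℝ) + 1) ^ D ≤ ((n : ℝ) + 1) ^ D * (1 + P) ^ D := by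
    rw [← mul_pow]
    apply pow_le_pow_left₀ (by positivity)
    nlinarith [mul_nonneg hn0 hP0]
  have g1 : (1 / 2 : ℝ) ^ m = Real.exp (-(m * Real.log 2)) := by
    rw [Real.exp_neg, Real.exp_nat_mul, Real.exp_log (by norm_num), one_div, inv_pow]
  have g2 : (2 : ℝ) ^ n = Real.exp (n * Real.log 2) := by
    rw [Real.exp_nat_mul, Real.exp_log (by norm_num)]
  have g3 : ((2 : ℝ) ^ n) ^ p = 2 ^ ((p - 1) * n) * 2 ^ n := by
    rw [← pow_mul, ← pow_add]
    congr 1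
    obtain ⟨q, rfl⟩ : ∃ q, p = q + 1 := ⟨p - 1, by omega⟩
    rw [Nat.add_sub_cancel]
    ring
  set E : ℝ := Real.exp (-(Real.log 2 * Q / 2)) with hE
  have hE0 : 0 < E := Real.exp_pos _
  have e2 : (1 / 2 : ℝ) ^ m * (2 ^ n * E * (C0 * (1 + P)) ^ D) ^ p * Real.exp ((1 + P) / 8)
      = 2 ^ ((p - 1) * n) * C0 ^ (D * p) * (1 + P) ^ (D * p) *
        ((1 / 2 : ℝ) ^ m * 2 ^ n * E ^ p * Real.exp ((1 + P) / 8)) := by
    rw [mul_pow, mul_pow, g3, ← pow_mul, mul_pow]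
    ring
  have e3 : (1 / 2 : ℝ) ^ m * 2 ^ n * E ^ p * Real.exp ((1 + P) / 8)
      ≤ Real.exp ((1 + P) / 4 - Real.log 2 * P) * E := by
    rw [g1, g2, hE, ← Real.exp_nat_mul, ← Real.exp_add, ← Real.exp_add, ← Real.exp_add,
      ← Real.exp_add]
    apply Real.exp_le_exp.2
    have h1 : 0 ≤ Real.log 2 * Q * (p - 3) := mul_nonneg (mul_nonneg hl.le hQ0) (by linarith)
    have h2 : (m : ℝ) = P - Q + n := by linarith
    rw [h2]
    nlinarith
  have e4 : (1 + P) ^ D * (1 + P) ^ (D * p) ≤ (1 + P) ^ (3 * (D * (p + 1))) := by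
    rw [← pow_add]
    apply pow_le_pow_right₀ (by linarith)
    have : D + D * p = D * (p + 1) := by ring
    rw [this]
    omega
  rw [e2]
  calc ((m : ℝ) + 1) ^ D * (2 ^ ((p - 1) * n) * C0 ^ (D * p) * (1 + P) ^ (D * p) *
        ((1 / 2 : ℝ) ^ m * 2 ^ n * E ^ p * Real.exp ((1 + P) / 8)))
      ≤ (((n : ℝ) + 1) ^ D * (1 + P) ^ D) * (2 ^ ((p - 1) * n) * C0 ^ (D * p) *
        (1 + P) ^ (D * p) * (Real.exp ((1 + P) / 4 - Real.log 2 * P) * E)) := by
        apply mul_le_mul e1 _ (by positivity) (by positivity)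
        exact mul_le_mul_of_nonneg_left e3 (by positivity)
    _ = (2 ^ ((p - 1) * n) * C0 ^ (D * p) * ((n : ℝ) + 1) ^ D) *
        (((1 + P) ^ D * (1 + P) ^ (D * p)) * Real.exp ((1 + P) / 4 - Real.log 2 * P) * E) := by
        ring
    _ ≤ _ := by
        apply mul_le_mul_of_nonneg_left _ (by positivity)
        apply mul_le_mul_of_nonneg_right _ hE0.le
        exact mul_le_mul_of_nonneg_right e4 (Real.exp_pos _).le

theorem num1 : S_NUM1 := by
  intro d hd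
  obtain ⟨D', rfl⟩ : ∃ D', d = D' + 1 + 1 := ⟨d - 2, by omega⟩
  obtain ⟨c, hc, hshp⟩ := shp_lower (D' + 1 + 1) (by omega)
  have hsub : D' + 1 + 1 - 1 = D' + 1 := rfl
  rw [hsub] at hshp
  set κ : ℝ := Real.log 2 / (4 * ((D' + 1 : ℕ) : ℝ)) with hκ
  have hl : 0 < Real.log 2 := Real.log_pos (by norm_num)
  have hκ0 : 0 < κ := by positivity
  set C0 : ℝ := Real.exp κ * (2 / κ + 2) with hC0
  have hC00 : 0 < C0 := by positivity
  set C1 : ℝ := 1 + C0 ^ (D' + 1) * 2 ^ D' / c with hC1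
  have hC10 : 0 < C1 := by positivity
  refine ⟨1 / (8 * C1), by positivity, fun p hp => ?_⟩
  set h : ℕ → ℝ := fun i => (1 + (i : ℝ)) ^ (3 * ((D' + 1) * (p + 1))) *
    Real.exp ((1 + (i : ℝ)) / 4 - Real.log 2 * (i : ℝ)) with hh
  set l : ℕ → ℝ := fun q => Real.exp (-(Real.log 2 * (q : ℝ) / 2)) with hll
  have hh0 : ∀ i, 0 ≤ h i := fun i => by simp only [hh]; positivity
  have hl0 : ∀ i, 0 ≤ l i := fun i => by simp only [hll]; positivity
  set W : ℝ := (∑' i, h i) + h 0 * ∑' i, l i with hW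
  have hW0 : 0 ≤ W := add_nonneg (tsum_nonneg hh0) (mul_nonneg (hh0 0) (tsum_nonneg hl0))
  refine ⟨C0 ^ ((D' + 1) * p) * W + 1, by positivity, ?_⟩
  intro n L hn
  have hn0 : (0 : ℝ) < n := by exact_mod_cast hn
  have hs := hshp n hn
  have hs0 : 0 < (shp (D' + 1 + 1) n : ℝ) := lt_of_lt_of_le (by positivity) hs
  have hs1 : (1 : ℝ) ≤ (shp (D' + 1 + 1) n : ℝ) := by
    have : 0 < shp (D' + 1 + 1) n := by exact_mod_cast hs0
    exact_mod_cast this
  set s : ℝ := (shp (D' + 1 + 1) n : ℝ) with hsdef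
  let g : ℕ → ℝ := fun m => (1 / 2 : ℝ) ^ m *
      (2 ^ n * Real.exp (-(Real.log 2 * ((n - m : ℕ) : ℝ) / 2)) *
        (C0 * (1 + ((m - n : ℕ) : ℝ))) ^ (D' + 1)) ^ p *
      Real.exp ((1 + ((m - n : ℕ) : ℝ)) / 8)
  have hg0 : ∀ m, 0 ≤ g m := fun m => by simp only [g]; positivity
  have hterm : ∀ T : Fin (D' + 1 + 1) → Fin L,
      (1/2:ℝ)^(∑ j, ((T j : Fin L) : ℕ)) * (Th (D' + 1 + 1) n (fun j => (T j : ℕ)))^p *
        Real.exp (1 / (8 * C1) * n * Th (D' + 1 + 1) n (fun j => (T j : ℕ)) / (2^n * s))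
      ≤ g (∑ j, ((T j : Fin L) : ℕ)) := by
    intro T
    set m : ℕ := ∑ j, ((T j : Fin L) : ℕ) with hm
    set th : ℝ := Th (D' + 1 + 1) n (fun j => (T j : ℕ)) with hth
    have a1 : th ≤ 2 ^ n * s := ks_Th_le _ _ _
    have a2 : 1 ≤ th := hs1.trans (ks_le_Th _ _ _)
    have a3 : th ≤ 2 ^ n * Real.exp (-(Real.log 2 * ((n - m : ℕ) : ℝ) / 2)) *
      (C0 * (1 + ((m - n : ℕ) : ℝ))) ^ (D' + 1) :=
      ks_Th (D' + 1) n (by omega) (fun j => ((T j : Fin L) : ℕ))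
    have a4 : th ≤ 2 ^ n * (C0 * (1 + ((m - n : ℕ) : ℝ))) ^ (D' + 1) := by
      refine a3.trans ?_
      have : Real.exp (-(Real.log 2 * ((n - m : ℕ) : ℝ) / 2)) ≤ 1 := by
        rw [Real.exp_le_one_iff]
        have : 0 ≤ Real.log 2 * ((n - m : ℕ) : ℝ) / 2 := by positivity
        linarith
      apply mul_le_mul_of_nonneg_right _ (by positivity)
      exact mul_le_of_le_one_right (by positivity) this
    have a5 := ks_B1 D' n (m - n) hn C0 c th s hC00 hc hs hs0 a1 a4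
    have a6 : 1 / (8 * C1) * n * th / (2 ^ n * s) ≤ (1 + ((m - n : ℕ) : ℝ)) / 8 := by
      have b1 : 1 / (8 * C1) * n * th / (2 ^ n * s) = 1 / (8 * C1) * (n * th / (2 ^ n * s)) := by
        ring
      rw [b1]
      have b2 := mul_le_mul_of_nonneg_left a5 (by positivity : 0 ≤ 1 / (8 * C1))
      refine b2.trans (le_of_eq ?_)
      rw [← hC1]
      field_simp
    have a7 : th ^ p ≤ (2 ^ n * Real.exp (-(Real.log 2 * ((n - m : ℕ) : ℝ) / 2)) *
        (C0 * (1 + ((m - n : ℕ) : ℝ))) ^ (D' + 1)) ^ p :=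
      pow_le_pow_left₀ (by linarith) a3 p
    apply mul_le_mul _ (Real.exp_le_exp.2 a6) (Real.exp_pos _).le (by positivity)
    exact mul_le_mul_of_nonneg_left a7 (by positivity)
  refine (Finset.sum_le_sum fun T _ => hterm T).trans ?_
  refine (count_T (D' + 1 + 1) L (by omega) g hg0).trans ?_
  rw [hsub]
  have hB : ∀ t ∈ Finset.range ((D' + 1 + 1) * L + 1), ((t : ℝ) + 1) ^ (D' + 1) * g t ≤
      (2 ^ ((p - 1) * n) * C0 ^ ((D' + 1) * p) * ((n : ℝ) + 1) ^ (D' + 1)) *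
        (h (t - n) * l (n - t)) := by
    intro t _
    exact num1_B (D' + 1) n t p hp C0 hC00
  refine (Finset.sum_le_sum hB).trans ?_
  rw [← Finset.mul_sum]
  have hsumW : ∑ m ∈ Finset.range ((D' + 1 + 1) * L + 1), h (m - n) * l (n - m) ≤ W := by
    rw [← Finset.sum_filter_add_sum_filter_not _ (fun m => n ≤ m)]
    apply add_le_add
    · have e1 : ∑ m ∈ (Finset.range ((D' + 1 + 1) * L + 1)).filter (fun m => n ≤ m),
          h (m - n) * l (n - m)
          = ∑ m ∈ (Finset.range ((D' + 1 + 1) * L + 1)).filter (fun m => n ≤ m), h (m - n) := by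
        apply Finset.sum_congr rfl
        intro m hm
        rw [Nat.sub_eq_zero_of_le (Finset.mem_filter.1 hm).2]
        simp [hll]
      rw [e1]
      apply ks_tsum h (ks_sumh ((D' + 1) * (p + 1))) hh0 _ (fun m => m - n)
      intro x hx y hy hxy
      simp only [Finset.coe_filter, Finset.mem_range, Set.mem_ofPred_eq] at hx hy
      simp only at hxy
      omega
    · have e1 : ∑ m ∈ (Finset.range ((D' + 1 + 1) * L + 1)).filter (fun m => ¬ n ≤ m),
          h (m - n) * l (n - m)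
          = h 0 * ∑ m ∈ (Finset.range ((D' + 1 + 1) * L + 1)).filter (fun m => ¬ n ≤ m),
            l (n - m) := by
        rw [Finset.mul_sum]
        apply Finset.sum_congr rfl
        intro m hm
        have := (Finset.mem_filter.1 hm).2
        rw [Nat.sub_eq_zero_of_le (by omega : m ≤ n)]
      rw [e1]
      apply mul_le_mul_of_nonneg_left _ (hh0 0)
      apply ks_tsum l ks_suml hl0 _ (fun m => n - m)
      intro x hx y hy hxy
      simp only [Finset.coe_filter, Finset.mem_range, Set.mem_ofPred_eq] at hx hy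
      simp only at hxy
      omega
  calc (2 ^ ((p - 1) * n) * C0 ^ ((D' + 1) * p) * ((n : ℝ) + 1) ^ (D' + 1)) *
        ∑ m ∈ Finset.range ((D' + 1 + 1) * L + 1), h (m - n) * l (n - m)
      ≤ (2 ^ ((p - 1) * n) * C0 ^ ((D' + 1) * p) * ((n : ℝ) + 1) ^ (D' + 1)) * W :=
        mul_le_mul_of_nonneg_left hsumW (by positivity)
    _ = (C0 ^ ((D' + 1) * p) * W) * (2 ^ ((p - 1) * n) * ((n : ℝ) + 1) ^ (D' + 1)) := by ring
    _ ≤ (C0 ^ ((D' + 1) * p) * W + 1) * (2 ^ ((p - 1) * n) * ((n : ℝ) + 1) ^ (D' + 1)) :=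
        mul_le_mul_of_nonneg_right (by linarith) (by positivity)
    _ = _ := by ring

end SmSm
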