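import Pool.Agent.H636R2.SM.Spec
open Real
open scoped BigOperators

namespace SmSm

theorem numla_tend (D : ℕ) (c : ℝ) (hc : 0 < c) (K : ℝ) (μ0 : ℕ) :
    ∃ μ : ℕ, μ0 ≤ μ ∧ K ≤ c * 2^μ / ((μ:ℝ)+1)^D := by
  have h1 : Filter.Tendsto (fun n : ℕ => ((n:ℝ))^D / (2:ℝ)^n) Filter.atTop (nhds 0) :=
    tendsto_pow_const_div_const_pow_of_one_lt D (by norm_num)
  have h2 := (h1.comp (Filter.tendsto_add_atTop_nat 1)).eventually
    (gt_mem_nhds (show (0:ℝ) < c / (2 * (|K| + 1)) by positivity))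
  obtain ⟨μ, hμ, hμ0⟩ := (h2.and (Filter.eventually_ge_atTop μ0)).exists
  refine ⟨μ, hμ0, ?_⟩
  simp only [Function.comp_apply, Nat.cast_add, Nat.cast_one] at hμ
  have hp : (0:ℝ) < ((μ:ℝ)+1)^D := by positivity
  have h2p : (0:ℝ) < (2:ℝ)^μ := by positivity
  rw [div_lt_div_iff₀ (by positivity) (by positivity), pow_succ] at hμ
  rw [le_div_iff₀ hp]
  have h3 : ((μ:ℝ)+1)^D * (|K|+1) ≤ c * 2^μ := by nlinarith
  have h4 : K ≤ |K| + 1 := by linarith [le_abs_self K]
  nlinarith [mul_le_mul_of_nonneg_left h4 hp.le]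

theorem numla : S_NUMLA := by
  intro d hd r hr0 hr c μ0 hc
  have hd1 : (3:ℝ) ≤ d := by exact_mod_cast hd
  set E : ℝ := ((d:ℝ)-1) * (1 - r) + r with hE
  have hE0 : 0 < E := by
    have : 0 ≤ ((d:ℝ)-1) * (1 - r) := mul_nonneg (by linarith) (by linarith)
    linarith
  -- constants
  set C : ℝ := (c/2)^(-r) * (|log c| + 1)^E with hC
  have hCp : 0 < C := by positivity
  set K0 : ℝ := c * 2^μ0 / ((μ0:ℝ)+1)^(d-2) with hK0
  set B0 : ℝ := (|log K0| + 1)^E with hB0
  have hB0p : 0 < B0 := by positivity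
  set R0 : ℝ := c * (2:ℝ)^(-(r * μ0)) * ((μ0:ℝ)+1)^(d-1) with hR0
  have hR0p : 0 < R0 := by positivity
  refine ⟨min (c / C) (R0 / B0), lt_min (by positivity) (by positivity), ?_⟩
  intro k hk
  have hk2 : (2:ℝ) ≤ k := by exact_mod_cast hk
  have hlogk : 0 ≤ log k := log_nonneg (by linarith)
  classical
  have hex : ∃ μ : ℕ, μ0 ≤ μ ∧ (k:ℝ) ≤ c * 2^μ / ((μ:ℝ)+1)^(d-2) := numla_tend (d-2) c hc k μ0
  set μ := Nat.find hex with hμ
  obtain ⟨h1, h2⟩ := Nat.find_spec hex
  refine ⟨μ, h1, h2, ?_⟩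
  have hpsi0 : 0 ≤ psiA d r k := by
    unfold psiA
    positivity
  rcases Nat.eq_or_lt_of_le h1 with h | h
  · -- μ = μ0
    have hle : psiA d r k ≤ B0 := by
      unfold psiA
      have ha : (k:ℝ)^(-r) ≤ 1 := rpow_le_one_of_one_le_of_nonpos (by linarith) (by linarith)
      have hkK : (k:ℝ) ≤ K0 := by
        rw [hK0, h]; exact h2
      have hlog : log k ≤ |log K0| + 1 := by
        have := log_le_log (by linarith) hkK
        linarith [le_abs_self (log K0)]
      have hb : (log k)^E ≤ B0 := rpow_le_rpow hlogk hlog hE0.le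
      calc (k:ℝ)^(-r) * (log k)^E ≤ 1 * B0 := by
            apply mul_le_mul ha hb (by positivity) (by norm_num)
        _ = B0 := one_mul _
    calc min (c / C) (R0 / B0) * psiA d r k ≤ (R0 / B0) * B0 := by
          apply mul_le_mul (min_le_right _ _) hle hpsi0 (by positivity)
      _ = R0 := by field_simp
      _ = _ := by rw [hR0, h]
  · -- μ > μ0
    have hmin : ¬ (μ0 ≤ μ - 1 ∧ (k:ℝ) ≤ c * 2^(μ-1) / (((μ-1 : ℕ):ℝ)+1)^(d-2)) :=
      Nat.find_min hex (by omega)
    have hμ1 : 1 ≤ μ := by omega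
    have hkg : c * 2^(μ-1) / (((μ-1 : ℕ):ℝ)+1)^(d-2) < k := by
      by_contra hcon
      exact hmin ⟨by omega, not_lt.mp hcon⟩
    have hcast : (((μ-1 : ℕ):ℝ)+1) = (μ:ℝ) := by
      rw [Nat.cast_sub hμ1]; push_cast; ring
    rw [hcast] at hkg
    have hμpos : (0:ℝ) < μ := by exact_mod_cast hμ1
    -- lower bound for k
    set M : ℝ := (μ:ℝ) + 1 with hM
    have hMp : 0 < M := by positivity
    have hM1 : 1 ≤ M := by linarith
    have hlow : (c/2) * 2^(μ:ℝ) / M^((d:ℝ)-2) ≤ k := by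
      have e1 : (2:ℝ)^(μ:ℝ) = 2 * 2^(μ-1) := by
        rw [rpow_natCast]
        conv_lhs => rw [show μ = (μ - 1) + 1 by omega]
        rw [pow_succ]; ring
      have e2 : M^((d:ℝ)-2) = M^(d-2) := by
        rw [← rpow_natCast, Nat.cast_sub (by omega)]; norm_num
      rw [e1, e2]
      refine le_trans ?_ hkg.le
      have : (c / 2 * (2 * 2 ^ (μ - 1))) = c * 2^(μ-1) := by ring
      rw [this]
      apply div_le_div_of_nonneg_left (by positivity) (by positivity)
      apply pow_le_pow_left₀ hμpos.le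
      linarith
    have hkr : (k:ℝ)^(-r) ≤ (c/2)^(-r) * 2^(-(r*μ)) * M^(r*((d:ℝ)-2)) := by
      have hp : (0:ℝ) < (c/2) * 2^(μ:ℝ) / M^((d:ℝ)-2) := by positivity
      calc (k:ℝ)^(-r) ≤ ((c/2) * 2^(μ:ℝ) / M^((d:ℝ)-2))^(-r) :=
            rpow_le_rpow_of_nonpos hp hlow (by linarith)
        _ = (c/2)^(-r) * 2^(-(r*μ)) * M^(r*((d:ℝ)-2)) := by
            rw [div_eq_mul_inv, mul_rpow (by positivity) (by positivity),
              mul_rpow (by positivity) (by positivity), ← rpow_mul (by norm_num), ← rpow_neg hMp.le,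
              ← rpow_mul hMp.le]
            congr 2
            · congr 1; ring
            · ring
    have hlk : log k ≤ (|log c| + 1) * M := by
      have h3 : (k:ℝ) ≤ c * 2^μ := by
        refine h2.trans ?_
        apply div_le_self (by positivity)
        apply one_le_pow₀
        linarith
      have h4 : log k ≤ log c + μ * log 2 := by
        have := log_le_log (by linarith) h3
        rwa [log_mul (by positivity) (by positivity), log_pow] at this
      have h5 : log 2 ≤ 1 := by linarith [log_two_lt_d9]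
      have h6 : (μ:ℝ) * log 2 ≤ μ := by nlinarith
      have h7 : |log c| ≤ |log c| * M := le_mul_of_one_le_right (abs_nonneg _) hM1
      have h8 : (μ:ℝ) ≤ M := by linarith
      nlinarith [le_abs_self (log c)]
    have hlE : (log k)^E ≤ (|log c| + 1)^E * M^E := by
      rw [← mul_rpow (by positivity) hMp.le]
      exact rpow_le_rpow hlogk hlk hE0.le
    have hexp : M^(r*((d:ℝ)-2)) * M^E = M^(d-1) := by
      rw [← rpow_add hMp, ← rpow_natCast, Nat.cast_sub (by omega)]
      congr 1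
      rw [hE]; push_cast; ring
    have hfin : psiA d r k ≤ C * (2^(-(r*μ)) * M^(d-1)) := by
      unfold psiA
      calc (k:ℝ)^(-r) * (log k)^E ≤ ((c/2)^(-r) * 2^(-(r*μ)) * M^(r*((d:ℝ)-2))) * ((|log c| + 1)^E * M^E) := by
            apply mul_le_mul hkr hlE (by positivity) (by positivity)
        _ = C * (2^(-(r*μ)) * (M^(r*((d:ℝ)-2)) * M^E)) := by rw [hC]; ring
        _ = C * (2^(-(r*μ)) * M^(d-1)) := by rw [hexp]
    calc min (c / C) (R0 / B0) * psiA d r k ≤ (c / C) * (C * (2^(-(r*μ)) * M^(d-1))) := by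
          apply mul_le_mul (min_le_left _ _) hfin hpsi0 (by positivity)
      _ = c * (2:ℝ)^(-(r * μ)) * M^(d-1) := by field_simp

end SmSm
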