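import Pool.Agent.H636R2.SM.Spec
open MeasureTheory Real ProbabilityTheory
open scoped ENNReal BigOperators ComplexConjugate

namespace SmSm
open HypVol MWidth

/-- square of `psiB` -/
noncomputable def numlb_P (d k : ℕ) : ℝ := (k:ℝ)⁻¹ * (Real.log k)^d * (Real.log (Real.log k + 3))

theorem numlb_sq (d k : ℕ) (hk : 2 ≤ k) : psiB d k = Real.sqrt (numlb_P d k) := by
  have hk0 : (0:ℝ) < k := by positivity
  have hl : 0 ≤ Real.log k := Real.log_nonneg (by exact_mod_cast (by omega : 1 ≤ k))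
  have hl2 : 0 ≤ Real.log (Real.log k + 3) := Real.log_nonneg (by linarith)
  unfold psiB numlb_P
  rw [Real.sqrt_mul (by positivity), Real.sqrt_mul (by positivity)]
  congr 1
  · congr 1
    · rw [Real.sqrt_inv, Real.rpow_neg hk0.le, Real.sqrt_eq_rpow]
    · rw [Real.sqrt_eq_rpow, ← Real.rpow_natCast, ← Real.rpow_mul hl]
      congr 1; ring
  · rw [Real.sqrt_eq_rpow]

theorem numlb_log (n : ℕ) (hn : 2 ≤ n) : 1 ≤ (Nat.log 2 n : ℝ) ∧ Real.log n ≤ 2 * (Nat.log 2 n : ℝ) := by
  have h1 : 1 ≤ Nat.log 2 n := Nat.log_pos (by norm_num) hn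
  have h1' : (1:ℝ) ≤ (Nat.log 2 n : ℝ) := by exact_mod_cast h1
  refine ⟨h1', ?_⟩
  have h2 : n < 2^(Nat.log 2 n + 1) := Nat.lt_pow_succ_log_self (by norm_num) n
  have h3 : (n:ℝ) ≤ 2^(Nat.log 2 n + 1) := by exact_mod_cast h2.le
  have h4 : Real.log n ≤ Real.log (2^(Nat.log 2 n + 1)) := Real.log_le_log (by positivity) h3
  rw [Real.log_pow] at h4
  have h5 : Real.log 2 ≤ 1 := by
    have := Real.log_two_lt_d9; linarith
  have h6 : ((Nat.log 2 n + 1 : ℕ) : ℝ) * Real.log 2 ≤ ((Nat.log 2 n + 1 : ℕ) : ℝ) * 1 :=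
    mul_le_mul_of_nonneg_left h5 (by positivity)
  push_cast at h4 h6
  linarith

/-- **NUMLB** -/
theorem numlb : S_NUMLB := by
  intro d hd c n0 hc
  set n1 : ℕ := max n0 2 with hn1
  have hn1' : 2 ≤ n1 := le_max_right _ _
  set g : ℕ → ℝ := fun n => c * 2^n * (n:ℝ)^(d-1) with hg
  set C1 : ℝ := |Real.log c| + 1 + d with hC1
  have hC1p : 0 < C1 := by positivity
  set C2 : ℝ := |Real.log (C1 + 3)| + 2 with hC2
  have hC2p : 0 < C2 := by positivity
  set G : ℝ := g n1 with hG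
  have hGp : 0 < G := by
    rw [hG, hg]; positivity
  set R : ℝ := (n1:ℝ) * Nat.log 2 n1 / 2^n1 with hR
  have hRp : 0 < R := by
    have := (numlb_log n1 hn1').1
    rw [hR]; positivity
  set D : ℝ := 2^d * C1^d * C2 / c + G^d * (G + 3) / R with hD
  have hDp : 0 < D := by positivity
  have hmain : ∀ k : ℕ, 2 ≤ k → ∃ n : ℕ, n0 ≤ n ∧ (k:ℝ) ≤ g n ∧
      numlb_P d k ≤ D * ((n:ℝ) * Nat.log 2 n / 2^n) := by
    intro k hk
    have hk0 : (0:ℝ) < k := by positivity
    have hk1 : (1:ℝ) ≤ k := by exact_mod_cast (by omega : 1 ≤ k)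
    have hex : ∃ n, n1 ≤ n ∧ (k:ℝ) ≤ g n := by
      refine ⟨max n1 ⌈(k:ℝ)/c⌉₊, le_max_left _ _, ?_⟩
      set n := max n1 ⌈(k:ℝ)/c⌉₊ with hn
      have h1 : (k:ℝ)/c ≤ n := (Nat.le_ceil _).trans (by exact_mod_cast le_max_right _ _)
      have h2 : (n:ℝ) ≤ 2^n := by exact_mod_cast (Nat.lt_two_pow_self).le
      have h3 : (1:ℝ) ≤ (n:ℝ)^(d-1) := one_le_pow₀ (by
        exact_mod_cast (by omega : 1 ≤ n))
      rw [div_le_iff₀ hc] at h1
      calc (k:ℝ) ≤ n * c := h1
        _ ≤ 2^n * c := mul_le_mul_of_nonneg_right h2 hc.le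
        _ = c * 2^n * 1 := by ring
        _ ≤ c * 2^n * (n:ℝ)^(d-1) := mul_le_mul_of_nonneg_left h3 (by positivity)
    classical
    set n := Nat.find hex with hn
    have hn2 : n1 ≤ n := (Nat.find_spec hex).1
    have hn3 : (k:ℝ) ≤ g n := (Nat.find_spec hex).2
    refine ⟨n, (le_max_left _ _).trans hn2, hn3, ?_⟩
    have hl : 0 ≤ Real.log k := Real.log_nonneg hk1
    have hl2 : 0 ≤ Real.log (Real.log k + 3) := Real.log_nonneg (by linarith)
    have hnn : 2 ≤ n := hn1'.trans hn2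
    have hnp : (0:ℝ) < n := by positivity
    have hn1r : (1:ℝ) ≤ n := by exact_mod_cast (by omega : 1 ≤ n)
    have hℓ := numlb_log n hnn
    have hℓp : (0:ℝ) < (Nat.log 2 n : ℝ) := by linarith [hℓ.1]
    rcases hn2.eq_or_lt with he | hlt
    · -- first value
      have e1 : (k:ℝ) ≤ G := by rw [hG, he]; exact hn3
      have e2 : Real.log k ≤ G := (Real.log_le_self hk0.le).trans e1
      have e3 : Real.log (Real.log k + 3) ≤ G + 3 := (Real.log_le_self (by linarith)).trans (by linarith)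
      have e4 : (k:ℝ)⁻¹ ≤ 1 := inv_le_one_of_one_le₀ hk1
      have e5 : numlb_P d k ≤ 1 * G^d * (G + 3) := by
        unfold numlb_P
        refine mul_le_mul (mul_le_mul e4 (pow_le_pow_left₀ hl e2 d) (by positivity) (by norm_num)) e3 hl2 (by positivity)
      rw [one_mul] at e5
      refine e5.trans ?_
      rw [← he, ← hR, hD, add_mul, div_mul_cancel₀ _ hRp.ne']
      have : 0 ≤ 2 ^ d * C1 ^ d * C2 / c * R := by positivity
      linarith
    · have hlt' : ¬ (n1 ≤ n - 1 ∧ (k:ℝ) ≤ g (n-1)) := Nat.find_min hex (by omega)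
      have h4 : g (n-1) < k := by
        by_contra hcon
        exact hlt' ⟨by omega, not_lt.1 hcon⟩
      have h5 : c * 2^n * (n:ℝ)^(d-1) / 2^d ≤ k := by
        refine le_trans ?_ h4.le
        have e1 : ((n - 1 : ℕ) : ℝ) = n - 1 := by
          rw [Nat.cast_sub (by omega)]; norm_num
        have e2 : (n:ℝ) / 2 ≤ ((n - 1 : ℕ) : ℝ) := by
          have : (2:ℝ) ≤ n := by exact_mod_cast hnn
          rw [e1]; linarith
        have e3 : ((n:ℝ) / 2)^(d-1) ≤ ((n - 1 : ℕ) : ℝ)^(d-1) := pow_le_pow_left₀ (by positivity) e2 _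
        have e4 : (2:ℝ)^n = 2 * 2^(n-1) := by
          rw [← pow_succ']; congr 1; omega
        have e5 : (2:ℝ)^d = 2 * 2^(d-1) := by
          rw [← pow_succ']; congr 1; omega
        rw [hg]
        simp only
        calc c * 2^n * (n:ℝ)^(d-1) / 2^d = c * 2^(n-1) * ((n:ℝ)/2)^(d-1) := by
              rw [e4, e5, div_pow]; field_simp
          _ ≤ c * 2^(n-1) * ((n - 1 : ℕ) : ℝ)^(d-1) := mul_le_mul_of_nonneg_left e3 (by positivity)
      have h6 : Real.log k ≤ C1 * n := by
        have e1 : Real.log k ≤ Real.log (g n) := Real.log_le_log hk0 hn3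
        have e2 : Real.log (g n) = Real.log c + n * Real.log 2 + ((d-1 : ℕ) : ℝ) * Real.log n := by
          rw [hg]
          simp only
          rw [Real.log_mul (by positivity) (by positivity), Real.log_mul hc.ne' (by positivity),
            Real.log_pow, Real.log_pow]
        have e3 : Real.log 2 ≤ 1 := by
          have := Real.log_two_lt_d9; linarith
        have e4 : Real.log n ≤ n := Real.log_le_self hnp.le
        have e5 : Real.log c ≤ |Real.log c| * n := by
          have := le_abs_self (Real.log c)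
          have := abs_nonneg (Real.log c)
          nlinarith
        have e6 : ((d-1 : ℕ) : ℝ) ≤ d := by exact_mod_cast Nat.sub_le _ _
        have e7 : ((d-1 : ℕ) : ℝ) * Real.log n ≤ d * n :=
          mul_le_mul e6 e4 (Real.log_nonneg hn1r) (by positivity)
        have e8 : (n:ℝ) * Real.log 2 ≤ n := by nlinarith
        rw [e2] at e1
        rw [hC1]
        linarith
      have h7 : Real.log (Real.log k + 3) ≤ C2 * Nat.log 2 n := by
        have e1 : Real.log k + 3 ≤ (C1 + 3) * n := by nlinarith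
        have e2 : Real.log (Real.log k + 3) ≤ Real.log ((C1 + 3) * n) :=
          Real.log_le_log (by linarith) e1
        rw [Real.log_mul (by positivity) (by positivity)] at e2
        have e3 : Real.log (C1 + 3) ≤ |Real.log (C1 + 3)| * Nat.log 2 n := by
          have := le_abs_self (Real.log (C1 + 3))
          have := abs_nonneg (Real.log (C1 + 3))
          nlinarith [hℓ.1]
        rw [hC2, add_mul]
        linarith [hℓ.2]
      have h8 : (k:ℝ)⁻¹ ≤ (c * 2^n * (n:ℝ)^(d-1) / 2^d)⁻¹ := inv_anti₀ (by positivity) h5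
      have h9 : numlb_P d k ≤ (c * 2^n * (n:ℝ)^(d-1) / 2^d)⁻¹ * (C1 * n)^d * (C2 * Nat.log 2 n) := by
        unfold numlb_P
        exact mul_le_mul (mul_le_mul h8 (pow_le_pow_left₀ hl h6 d) (by positivity) (by positivity)) h7 hl2
          (by positivity)
      refine h9.trans ?_
      have e1 : (n:ℝ)^d = n * (n:ℝ)^(d-1) := by
        rw [← pow_succ']; congr 1; omega
      have e2 : (c * 2^n * (n:ℝ)^(d-1) / 2^d)⁻¹ * (C1 * n)^d * (C2 * Nat.log 2 n)
          = 2^d * C1^d * C2 / c * ((n:ℝ) * Nat.log 2 n / 2^n) := by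
        rw [mul_pow, e1]
        field_simp
      rw [e2]
      refine mul_le_mul_of_nonneg_right ?_ (by positivity)
      have : 0 ≤ G^d * (G + 3) / R := by positivity
      rw [hD]; linarith
  refine ⟨c / Real.sqrt D, by positivity, ?_⟩
  intro k hk
  obtain ⟨n, h1, h2, h3⟩ := hmain k hk
  refine ⟨n, h1, h2, ?_⟩
  rw [numlb_sq d k hk]
  have h4 : Real.sqrt (numlb_P d k) ≤ Real.sqrt D * Real.sqrt ((n:ℝ) * Nat.log 2 n / 2^n) := by
    rw [← Real.sqrt_mul hDp.le]
    exact Real.sqrt_le_sqrt h3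
  have h5 : 0 < Real.sqrt D := Real.sqrt_pos.2 hDp
  calc c / Real.sqrt D * Real.sqrt (numlb_P d k)
      ≤ c / Real.sqrt D * (Real.sqrt D * Real.sqrt ((n:ℝ) * Nat.log 2 n / 2^n)) :=
        mul_le_mul_of_nonneg_left h4 (by positivity)
    _ = c * Real.sqrt ((n:ℝ) * Nat.log 2 n / 2^n) := by
        field_simp

end SmSm
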