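import Pool.Agent.H636R2.SM.Spec
import Pool.Agent.KX.L_shp_upper
import Pool.Agent.KX.L_num_up2
open MeasureTheory Real ProbabilityTheory
open scoped ENNReal BigOperators

namespace SmSm
open HypVol MWidth

/-- sums over the distance to `μ` -/
theorem numua_dist (f : ℕ → ℝ) (hf : ∀ n, 0 ≤ f n) (hs : Summable f) (μ n0 n1 : ℕ) :
    ∑ n ∈ Finset.Ico n0 n1, f ((n - μ) + (μ - n)) ≤ 2 * ∑' n, f n := by
  classical
  rw [← Finset.sum_filter_add_sum_filter_not (Finset.Ico n0 n1) (fun n => n < μ)]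
  have h1 : ∑ n ∈ (Finset.Ico n0 n1).filter (fun n => n < μ), f ((n - μ) + (μ - n)) ≤ ∑' n, f n := by
    rw [← Finset.sum_image (f := f) (g := fun n => (n - μ) + (μ - n))]
    · exact hs.sum_le_tsum _ (fun n _ => hf n)
    · intro a ha b hb h
      simp only [Finset.coe_filter, Set.mem_ofPred_eq] at ha hb
      simp only at h
      omega
  have h2 : ∑ n ∈ (Finset.Ico n0 n1).filter (fun n => ¬ n < μ), f ((n - μ) + (μ - n)) ≤ ∑' n, f n := by
    rw [← Finset.sum_image (f := f) (g := fun n => (n - μ) + (μ - n))]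
    · exact hs.sum_le_tsum _ (fun n _ => hf n)
    · intro a ha b hb h
      simp only [Finset.coe_filter, Set.mem_ofPred_eq] at ha hb
      simp only at h
      omega
  linarith

theorem numua_sqrt_pow (x : ℝ) (hx : 1 ≤ x) : Real.sqrt x ≤ x := by
  rw [Real.sqrt_le_left (by linarith)]
  nlinarith

/-- the general term -/
theorem numua_T (d : ℕ) (hd : 1 ≤ d) (K q r δ : ℝ) (hK : 1 ≤ K) (hδa : δ ≤ r - 1/q)
    (hδb : δ ≤ 1/2 - r) (μ n : ℕ) (c : ℝ) (hc : c ≤ K * 2 ^ n * ((n:ℝ) + 1) ^ (d - 1))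
    (a : ℝ) (ha : 0 ≤ a) :
    (2:ℝ)^(-(r * n)) * (2:ℝ)^(-((1/2 - 1/q) * ((n - μ : ℕ) : ℝ))) *
      Real.sqrt (a * (((n:ℝ) + 1) * c)) ≤
    Real.sqrt (a * K) * ((2:ℝ)^((1/2 - r) * (μ:ℝ)) * Real.sqrt (((μ:ℝ) + 1) ^ d)) *
      (((((n - μ) + (μ - n) : ℕ) : ℝ) + 1) ^ d *
        (2:ℝ)^(-(δ * ((((n - μ) + (μ - n) : ℕ) : ℝ))))) := by
  obtain ⟨D, hD⟩ : ∃ D : ℕ, D = (n - μ) + (μ - n) := ⟨_, rfl⟩
  rw [← hD]
  have hD0 : (0:ℝ) ≤ D := Nat.cast_nonneg D
  have hμ0 : (0:ℝ) ≤ μ := Nat.cast_nonneg μ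
  have hn0 : (0:ℝ) ≤ n := Nat.cast_nonneg n
  have hn : (n:ℝ) + 1 ≤ ((μ:ℝ) + 1) * ((D:ℝ) + 1) := by
    have h : (n:ℝ) ≤ μ + D := by
      have : n ≤ μ + D := by omega
      exact_mod_cast this
    have : (0:ℝ) ≤ (μ:ℝ) * D := by positivity
    nlinarith
  have h1 : ((n:ℝ) + 1) * c ≤ K * 2 ^ n * (((μ:ℝ) + 1) ^ d * ((D:ℝ) + 1) ^ d) := by
    have e : ((n:ℝ) + 1) ^ d = ((n:ℝ) + 1) * ((n:ℝ) + 1) ^ (d - 1) := by
      rw [← pow_succ']; congr 1; omega
    calc ((n:ℝ) + 1) * c ≤ ((n:ℝ) + 1) * (K * 2 ^ n * ((n:ℝ) + 1) ^ (d - 1)) := by gcongr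
      _ = K * 2 ^ n * ((n:ℝ) + 1) ^ d := by rw [e]; ring
      _ ≤ K * 2 ^ n * ((((μ:ℝ) + 1) * ((D:ℝ) + 1)) ^ d) := by gcongr
      _ = _ := by rw [mul_pow]
  have h2 : Real.sqrt (a * (((n:ℝ) + 1) * c)) ≤
      Real.sqrt (a * K) * ((2:ℝ)^((n:ℝ)/2) * (Real.sqrt (((μ:ℝ) + 1) ^ d) * ((D:ℝ) + 1) ^ d)) := by
    calc Real.sqrt (a * (((n:ℝ) + 1) * c)) ≤
          Real.sqrt ((a * K) * (2 ^ n * (((μ:ℝ) + 1) ^ d * ((D:ℝ) + 1) ^ d))) := by
          apply Real.sqrt_le_sqrt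
          calc a * (((n:ℝ) + 1) * c) ≤ a * (K * 2 ^ n * (((μ:ℝ) + 1) ^ d * ((D:ℝ) + 1) ^ d)) := by gcongr
            _ = _ := by ring
      _ = Real.sqrt (a * K) * (Real.sqrt (2 ^ n) * (Real.sqrt (((μ:ℝ) + 1) ^ d) *
            Real.sqrt (((D:ℝ) + 1) ^ d))) := by
          rw [Real.sqrt_mul (by positivity) (2 ^ n * (((μ:ℝ) + 1) ^ d * ((D:ℝ) + 1) ^ d)),
            Real.sqrt_mul (by positivity) (((μ:ℝ) + 1) ^ d * ((D:ℝ) + 1) ^ d),
            Real.sqrt_mul (by positivity) (((D:ℝ) + 1) ^ d)]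
      _ ≤ Real.sqrt (a * K) * ((2:ℝ)^((n:ℝ)/2) * (Real.sqrt (((μ:ℝ) + 1) ^ d) * ((D:ℝ) + 1) ^ d)) := by
          have e1 : Real.sqrt ((2:ℝ) ^ n) = (2:ℝ)^((n:ℝ)/2) := by
            rw [Real.sqrt_eq_rpow, ← Real.rpow_natCast, ← Real.rpow_mul (by norm_num)]
            congr 1; ring
          have e2 : Real.sqrt (((D:ℝ) + 1) ^ d) ≤ ((D:ℝ) + 1) ^ d :=
            numua_sqrt_pow _ (one_le_pow₀ (by linarith))
          rw [e1]
          gcongr
  have h3 : (2:ℝ)^(-(r * n)) * (2:ℝ)^(-((1/2 - 1/q) * ((n - μ : ℕ) : ℝ))) * (2:ℝ)^((n:ℝ)/2) ≤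
      (2:ℝ)^((1/2 - r) * (μ:ℝ)) * (2:ℝ)^(-(δ * (D:ℝ))) := by
    rw [← Real.rpow_add (by norm_num), ← Real.rpow_add (by norm_num), ← Real.rpow_add (by norm_num)]
    apply Real.rpow_le_rpow_of_exponent_le (by norm_num)
    rcases le_total μ n with h | h
    · have e1 : ((n - μ : ℕ) : ℝ) = (D:ℝ) := by
        have : n - μ = D := by omega
        rw [this]
      have e2 : (n:ℝ) = μ + D := by
        have : n = μ + D := by omega
        exact_mod_cast this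
      rw [e1, e2]
      nlinarith [mul_le_mul_of_nonneg_right hδa hD0]
    · have e1 : ((n - μ : ℕ) : ℝ) = 0 := by
        have : n - μ = 0 := by omega
        rw [this]; simp
      have e2 : (μ:ℝ) = n + D := by
        have : μ = n + D := by omega
        exact_mod_cast this
      rw [e1, e2]
      nlinarith [mul_le_mul_of_nonneg_right hδb hD0]
  calc _ ≤ (2:ℝ)^(-(r * n)) * (2:ℝ)^(-((1/2 - 1/q) * ((n - μ : ℕ) : ℝ))) *
        (Real.sqrt (a * K) * ((2:ℝ)^((n:ℝ)/2) * (Real.sqrt (((μ:ℝ) + 1) ^ d) * ((D:ℝ) + 1) ^ d))) := by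
        gcongr
    _ = ((2:ℝ)^(-(r * n)) * (2:ℝ)^(-((1/2 - 1/q) * ((n - μ : ℕ) : ℝ))) * (2:ℝ)^((n:ℝ)/2)) *
        (Real.sqrt (a * K) * (Real.sqrt (((μ:ℝ) + 1) ^ d) * ((D:ℝ) + 1) ^ d)) := by ring
    _ ≤ ((2:ℝ)^((1/2 - r) * (μ:ℝ)) * (2:ℝ)^(-(δ * (D:ℝ)))) *
        (Real.sqrt (a * K) * (Real.sqrt (((μ:ℝ) + 1) ^ d) * ((D:ℝ) + 1) ^ d)) := by gcongr
    _ = _ := by ring

/-- final estimates -/
theorem numua_E (d : ℕ) (hd : 2 ≤ d) (r : ℝ) (hr0 : 0 < r) (hr : r < 1/2) (K2 : ℝ) (hK2 : 1 ≤ K2) :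
    ∃ C : ℝ, 0 < C ∧ ∀ (m X w U V ℓ : ℝ), 0 < m → 0 < X → 1 ≤ w → 0 < U → 1 ≤ V → 0 < ℓ →
      X * w^(d-1) ≤ m → m ≤ K2 * X * w^(d-1) → X * w^(2*d-3) ≤ U → U ≤ 2 * X * w^(2*d-3) →
      V ≤ 2 * d * w → w ≤ 2 * ℓ →
      m ^ (-(1/2:ℝ)) * (U ^ (1/2 - r) * V ^ ((d:ℝ)/2)) ≤ C * (m^(-r) * ℓ^(((d:ℝ)-1) * (1 - r) + r)) ∧
      V ^ (d-1) * U ^ (-r) ≤ C * (m^(-r) * ℓ^(((d:ℝ)-1) * (1 - r) + r)) := by
  obtain ⟨l2, hl2⟩ : ∃ l2 : ℝ, l2 = Real.log 2 := ⟨_, rfl⟩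
  have hl20 : 0 < l2 := by rw [hl2]; exact Real.log_pos (by norm_num)
  obtain ⟨D, hD⟩ : ∃ D : ℝ, D = (d:ℝ) := ⟨_, rfl⟩
  have hD2 : 2 ≤ D := by rw [hD]; exact_mod_cast hd
  obtain ⟨lD, hlD⟩ : ∃ lD : ℝ, lD = Real.log (2 * D) := ⟨_, rfl⟩
  have hlD0 : 0 < lD := by rw [hlD]; exact Real.log_pos (by linarith)
  obtain ⟨k2, hk2⟩ : ∃ k2 : ℝ, k2 = Real.log K2 := ⟨_, rfl⟩
  have hk20 : 0 ≤ k2 := by rw [hk2]; exact Real.log_nonneg hK2
  obtain ⟨e, he⟩ : ∃ e : ℝ, e = (D - 1) * (1 - r) + r := ⟨_, rfl⟩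
  have he0 : 0 ≤ e := by
    rw [he]
    have : 0 ≤ (D - 1) * (1 - r) := mul_nonneg (by linarith) (by linarith)
    linarith
  refine ⟨Real.exp ((1/2 - r) * l2 + D / 2 * lD + e * l2 + (D - 1) * lD + r * k2), Real.exp_pos _, ?_⟩
  intro m X w U V ℓ hm hX hw hU hV hℓ h1 h2 h3 h4 h5 h6
  have hw0 : 0 < w := by linarith
  have hV0 : 0 < V := by linarith
  have hK20 : 0 < K2 := by linarith
  obtain ⟨lm, hlm⟩ : ∃ y : ℝ, y = Real.log m := ⟨_, rfl⟩
  obtain ⟨x, hx⟩ : ∃ y : ℝ, y = Real.log X := ⟨_, rfl⟩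
  obtain ⟨ω, hω⟩ : ∃ y : ℝ, y = Real.log w := ⟨_, rfl⟩
  obtain ⟨u, hu⟩ : ∃ y : ℝ, y = Real.log U := ⟨_, rfl⟩
  obtain ⟨v, hv⟩ : ∃ y : ℝ, y = Real.log V := ⟨_, rfl⟩
  obtain ⟨lam, hlam⟩ : ∃ y : ℝ, y = Real.log ℓ := ⟨_, rfl⟩
  have hω0 : 0 ≤ ω := by rw [hω]; exact Real.log_nonneg hw
  have c1 : ((d - 1 : ℕ) : ℝ) = D - 1 := by
    rw [hD, Nat.cast_sub (by omega)]; norm_num
  have c2 : ((2 * d - 3 : ℕ) : ℝ) = 2 * D - 3 := by
    rw [hD, Nat.cast_sub (by omega)]; push_cast; ring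
  have g1 : x + (D - 1) * ω ≤ lm := by
    have := Real.log_le_log (by positivity) h1
    rw [Real.log_mul hX.ne' (by positivity), Real.log_pow, c1] at this
    rw [hx, hω, hlm]; exact this
  have g2 : lm ≤ k2 + x + (D - 1) * ω := by
    have := Real.log_le_log hm h2
    rw [Real.log_mul (by positivity) (by positivity), Real.log_mul (by positivity) (by positivity),
      Real.log_pow, c1] at this
    rw [hx, hω, hlm, hk2]; exact this
  have g3 : x + (2 * D - 3) * ω ≤ u := by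
    have := Real.log_le_log (by positivity) h3
    rw [Real.log_mul hX.ne' (by positivity), Real.log_pow, c2] at this
    rw [hx, hω, hu]; exact this
  have g4 : u ≤ l2 + x + (2 * D - 3) * ω := by
    have := Real.log_le_log hU h4
    rw [Real.log_mul (by positivity) (by positivity), Real.log_mul (by positivity) (by positivity),
      Real.log_pow, c2] at this
    rw [hx, hω, hu, hl2]; exact this
  have g5 : v ≤ lD + ω := by
    have := Real.log_le_log hV0 h5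
    rw [← hD, Real.log_mul (by positivity) (by positivity)] at this
    rw [hv, hω, hlD]; exact this
  have g6 : ω ≤ l2 + lam := by
    have := Real.log_le_log hw0 h6
    rw [Real.log_mul (by positivity) (by positivity)] at this
    rw [hlam, hω, hl2]; exact this
  have g6' : e * ω ≤ e * l2 + e * lam := by
    have := mul_le_mul_of_nonneg_left g6 he0
    linarith
  rw [← hD, Real.rpow_def_of_pos hm, Real.rpow_def_of_pos hU, Real.rpow_def_of_pos hV0,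
    Real.rpow_def_of_pos hm, Real.rpow_def_of_pos hℓ, Real.rpow_def_of_pos hU, ← Real.rpow_natCast V,
    Real.rpow_def_of_pos hV0, c1, ← hlm, ← hu, ← hv, ← hlam, ← he, ← Real.exp_add, ← Real.exp_add,
    ← Real.exp_add, ← Real.exp_add, ← Real.exp_add, Real.exp_le_exp, Real.exp_le_exp]
  have p1 : 0 ≤ (1/2 - r) * l2 := mul_nonneg (by linarith) hl20.le
  have p2 : 0 ≤ D / 2 * lD := mul_nonneg (by linarith) hlD0.le
  have p3 : 0 ≤ (D - 1) * lD := mul_nonneg (by linarith) hlD0.le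
  have p4 : 0 ≤ r * k2 := mul_nonneg hr0.le hk20
  constructor
  · have q1 := mul_le_mul_of_nonneg_left g4 (show 0 ≤ 1/2 - r by linarith)
    have q2 := mul_le_mul_of_nonneg_left g5 (show 0 ≤ D / 2 by linarith)
    have q3 := mul_le_mul_of_nonneg_left g1 (show 0 ≤ 1/2 - r by linarith)
    have q4 : e * ω = (1/2 - r) * ((2 * D - 3) * ω) - (1/2 - r) * ((D - 1) * ω) + D / 2 * ω := by
      rw [he]; ring
    nlinarith
  · have q1 := mul_le_mul_of_nonneg_left g3 hr0.le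
    have q2 := mul_le_mul_of_nonneg_left g5 (show 0 ≤ D - 1 by linarith)
    have q3 := mul_le_mul_of_nonneg_left g2 hr0.le
    have q4 : e * ω = (D - 1) * ω + r * ((D - 1) * ω) - r * ((2 * D - 3) * ω) := by
      rw [he]; ring
    nlinarith

set_option maxHeartbeats 1000000 in
/-- the choice of the parameters for large `m` -/
theorem numua_choice (d : ℕ) (hd : 2 ≤ d) (K : ℝ) (hK : 1 ≤ K) (hKd : (d:ℝ) ≤ K) (m : ℕ)
    (hm : 8 * K ≤ (m:ℝ)) :
    ∃ n0 μ : ℕ, n0 ≤ μ ∧ 8 * K * 2 ^ n0 * ((n0:ℝ) + 1) ^ (d - 1) ≤ m ∧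
      (m:ℝ) ≤ 8 * K * 2 ^ (n0 + 1) * ((n0:ℝ) + 2) ^ (d - 1) ∧
      (2:ℝ) ^ n0 * ((n0:ℝ) + 1) ^ (2 * d - 3) ≤ 2 ^ μ ∧
      (2:ℝ) ^ μ ≤ 2 * 2 ^ n0 * ((n0:ℝ) + 1) ^ (2 * d - 3) ∧
      μ ≤ n0 + (2 * d - 3) * n0 ∧ (μ:ℝ) - n0 ≤ m / 4 := by
  obtain ⟨n0, hn0a, hn0b⟩ : ∃ n0 : ℕ, 8 * K * 2 ^ n0 * ((n0:ℝ) + 1) ^ (d - 1) ≤ m ∧
      (m:ℝ) ≤ 8 * K * 2 ^ (n0 + 1) * ((n0:ℝ) + 2) ^ (d - 1) := by
    have hex : ∃ n : ℕ, (m:ℝ) < 8 * K * 2 ^ n * ((n:ℝ) + 1) ^ (d - 1) := by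
      refine ⟨m, ?_⟩
      have h1 : (m:ℝ) < 2 ^ m := by exact_mod_cast Nat.lt_two_pow_self
      have h2 : (1:ℝ) ≤ ((m:ℝ) + 1) ^ (d - 1) := one_le_pow₀ (by linarith)
      calc (m:ℝ) < 2 ^ m := h1
        _ = 1 * 2 ^ m * 1 := by ring
        _ ≤ _ := by
          gcongr
          linarith
    have hP := Nat.find_spec hex
    have hne : Nat.find hex ≠ 0 := by
      intro h0
      rw [h0] at hP
      simp only [pow_zero, Nat.cast_zero, zero_add, one_pow, mul_one] at hP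
      linarith
    obtain ⟨n0, hn0⟩ := Nat.exists_eq_succ_of_ne_zero hne
    refine ⟨n0, ?_, ?_⟩
    · have := Nat.find_min hex (show n0 < Nat.find hex by omega)
      push Not at this
      exact this
    · rw [hn0] at hP
      push_cast at hP
      have e : (n0:ℝ) + 1 + 1 = n0 + 2 := by ring
      rw [e] at hP
      exact hP.le
  have hexj : ∃ j : ℕ, (n0 + 1) ^ (2 * d - 3) ≤ 2 ^ j := by
    refine ⟨(2 * d - 3) * n0, ?_⟩
    rw [mul_comm (2 * d - 3) n0, pow_mul]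
    exact Nat.pow_le_pow_left (Nat.lt_two_pow_self (n := n0)) _
  have hj1 : Nat.find hexj ≤ (2 * d - 3) * n0 := by
    apply Nat.find_min'
    rw [mul_comm (2 * d - 3) n0, pow_mul]
    exact Nat.pow_le_pow_left (Nat.lt_two_pow_self (n := n0)) _
  obtain ⟨j, hj⟩ : ∃ j : ℕ, j = Nat.find hexj := ⟨_, rfl⟩
  have hj2 : (n0 + 1) ^ (2 * d - 3) ≤ 2 ^ j := by rw [hj]; exact Nat.find_spec hexj
  have hj3 : 2 ^ j ≤ 2 * (n0 + 1) ^ (2 * d - 3) := by
    rcases Nat.eq_zero_or_pos j with h0 | h0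
    · rw [h0]
      have : 1 ≤ (n0 + 1) ^ (2 * d - 3) := Nat.one_le_pow _ _ (by omega)
      simp only [pow_zero]
      omega
    · have := Nat.find_min hexj (show j - 1 < Nat.find hexj by omega)
      push Not at this
      have e : 2 ^ j = 2 * 2 ^ (j - 1) := by
        rw [← pow_succ']; congr 1; omega
      rw [e]
      omega
  rw [← hj] at hj1
  have hj2' : ((n0:ℝ) + 1) ^ (2 * d - 3) ≤ 2 ^ j := by exact_mod_cast hj2
  have hj3' : (2:ℝ) ^ j ≤ 2 * ((n0:ℝ) + 1) ^ (2 * d - 3) := by exact_mod_cast hj3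
  refine ⟨n0, n0 + j, by omega, hn0a, hn0b, ?_, ?_, by omega, ?_⟩
  · rw [pow_add]; gcongr
  · rw [pow_add]
    calc (2:ℝ) ^ n0 * 2 ^ j ≤ 2 ^ n0 * (2 * ((n0:ℝ) + 1) ^ (2 * d - 3)) := by gcongr
      _ = _ := by ring
  · have h1 : (j:ℝ) ≤ 2 * K * 2 ^ n0 := by
      have h2 : (j:ℝ) ≤ (2 * (d:ℝ)) * n0 := by
        have h3 : j ≤ (2 * d) * n0 := hj1.trans (Nat.mul_le_mul_right _ (by omega))
        exact_mod_cast h3
      have h4 : (n0:ℝ) ≤ 2 ^ n0 := by exact_mod_cast (Nat.lt_two_pow_self (n := n0)).le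
      calc (j:ℝ) ≤ (2 * (d:ℝ)) * n0 := h2
        _ ≤ (2 * K) * 2 ^ n0 := by gcongr
    have h5 : 8 * K * 2 ^ n0 ≤ (m:ℝ) := by
      refine le_trans ?_ hn0a
      have h6 : (1:ℝ) ≤ ((n0:ℝ) + 1) ^ (d - 1) := one_le_pow₀ (by linarith [Nat.cast_nonneg (α := ℝ) n0])
      have h7 : 0 ≤ 8 * K * 2 ^ n0 := by positivity
      nlinarith
    push_cast
    linarith

set_option maxHeartbeats 2000000 in
theorem numua : S_NUMUA := by
  intro d hd q r hq hqr hr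
  have hd1 : 1 ≤ d := by omega
  obtain ⟨K, hK, hKd, hcard⟩ : ∃ K : ℝ, 1 ≤ K ∧ (d:ℝ) ≤ K ∧ ∀ n : ℕ,
      ((layer d n).card : ℝ) ≤ K * 2 ^ n * ((n:ℝ) + 1) ^ (d - 1) := by
    obtain ⟨C, hC, h⟩ := card_layer_le d hd1
    refine ⟨C + d + 1, by linarith [Nat.cast_nonneg (α := ℝ) d], by linarith, fun n => (h n).trans ?_⟩
    have h1 : (0:ℝ) ≤ 2 ^ n * ((n:ℝ) + 1) ^ (d - 1) := by positivity
    have h2 : (0:ℝ) ≤ d := Nat.cast_nonneg d
    nlinarith
  have hK0 : 0 < K := by linarith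
  have hq0 : 0 < 1 / q := by positivity
  have hr0 : 0 < r := by linarith
  obtain ⟨δ, hδ0, hδa, hδb⟩ : ∃ δ : ℝ, 0 < δ ∧ δ ≤ r - 1/q ∧ δ ≤ 1/2 - r :=
    ⟨min (r - 1/q) (1/2 - r), lt_min (by linarith) (by linarith), min_le_left _ _, min_le_right _ _⟩
  obtain ⟨ρ, hρ⟩ : ∃ ρ : ℝ, ρ = (2:ℝ)^(-(δ/2)) := ⟨_, rfl⟩
  have hρ0 : 0 < ρ := by rw [hρ]; positivity
  have hρ1 : ρ < 1 := by
    rw [hρ]; exact Real.rpow_lt_one_of_one_lt_of_neg (by norm_num) (by linarith)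
  have hρδ : ∀ D : ℕ, (2:ℝ)^(-(δ * (D:ℝ))) = ρ ^ D * ρ ^ D := by
    intro D
    rw [← pow_add, hρ, ← Real.rpow_natCast, ← Real.rpow_mul (by norm_num)]
    congr 1; push_cast; ring
  have hρD1 : ∀ D : ℕ, ρ ^ D ≤ 1 := fun D => pow_le_one₀ hρ0.le hρ1.le
  obtain ⟨g, hg⟩ : ∃ g : ℕ → ℝ, g = fun n : ℕ => ((n:ℝ) + 1) ^ d * ρ ^ n := ⟨_, rfl⟩
  have hgs : Summable g := by rw [hg]; exact Sol_KX_num_up2.num_upw_summ d ρ hρ0 hρ1
  have hg0 : ∀ n, 0 ≤ g n := fun n => by rw [hg]; simp only; positivity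
  obtain ⟨G, hG⟩ : ∃ G : ℝ, G = ∑' n, g n := ⟨_, rfl⟩
  have hG0 : 0 ≤ G := by rw [hG]; exact tsum_nonneg hg0
  have hρ2 : ρ ^ 2 < 1 := by nlinarith
  obtain ⟨B, hB⟩ : ∃ B : ℝ, B = 8 / (1 - ρ ^ 2) := ⟨_, rfl⟩
  have hB0 : 0 < B := by rw [hB]; exact div_pos (by norm_num) (by linarith)
  have hQ : ∀ μ : ℕ, 0 ≤ (2:ℝ)^((1/2 - r) * (μ:ℝ)) * Real.sqrt (((μ:ℝ) + 1) ^ d) := fun μ => by
    positivity
  -- terms without `M`
  have hterm : ∀ μ j : ℕ, (2:ℝ)^(-(r * ((j + μ : ℕ) : ℝ))) *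
      (2:ℝ)^(-((1/2 - 1/q) * ((j + μ - μ : ℕ) : ℝ))) * Real.sqrt (layer d (j + μ)).card ≤
      (Real.sqrt K * ((2:ℝ)^((1/2 - r) * (μ:ℝ)) * Real.sqrt (((μ:ℝ) + 1) ^ d))) * (g j * ρ ^ j) := by
    intro μ j
    have h1 := numua_T d hd1 K q r δ hK hδa hδb μ (j + μ) _ (hcard (j + μ)) 1 (by norm_num)
    have e1 : j + μ - μ + (μ - (j + μ)) = j := by omega
    rw [e1, one_mul, hρδ] at h1
    have h2 : Real.sqrt (layer d (j + μ)).card ≤
        Real.sqrt ((((j + μ : ℕ) : ℝ) + 1) * (layer d (j + μ)).card) := by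
      apply Real.sqrt_le_sqrt
      have h3 : (0:ℝ) ≤ (layer d (j + μ)).card := Nat.cast_nonneg _
      have h4 : (0:ℝ) ≤ ((j + μ : ℕ) : ℝ) := Nat.cast_nonneg _
      nlinarith
    calc _ ≤ (2:ℝ)^(-(r * ((j + μ : ℕ) : ℝ))) *
          (2:ℝ)^(-((1/2 - 1/q) * ((j + μ - μ : ℕ) : ℝ))) *
          Real.sqrt ((((j + μ : ℕ) : ℝ) + 1) * (layer d (j + μ)).card) := by gcongr
      _ ≤ _ := h1
      _ = _ := by rw [hg, one_mul]; ring
  have hsumm : ∀ μ : ℕ, Summable (fun n : ℕ => (2:ℝ)^(-(r * n)) *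
      (2:ℝ)^(-((1/2 - 1/q) * ((n - μ : ℕ) : ℝ))) * Real.sqrt (layer d n).card) := by
    intro μ
    rw [← summable_nat_add_iff μ]
    refine Summable.of_nonneg_of_le (fun n => by positivity) (fun n => ?_)
      (hgs.mul_left (Real.sqrt K * ((2:ℝ)^((1/2 - r) * (μ:ℝ)) * Real.sqrt (((μ:ℝ) + 1) ^ d))))
    refine (hterm μ n).trans ?_
    have h1 : g n * ρ ^ n ≤ g n * 1 := mul_le_mul_of_nonneg_left (hρD1 n) (hg0 n)
    rw [mul_one] at h1
    gcongr
  obtain ⟨e, he⟩ : ∃ e : ℝ, e = ((d:ℝ)-1) * (1 - r) + r := ⟨_, rfl⟩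
  have he0 : 0 ≤ e := by
    rw [he]
    have : (1:ℝ) ≤ d := by exact_mod_cast hd1
    have : 0 ≤ ((d:ℝ) - 1) * (1 - r) := mul_nonneg (by linarith) (by linarith)
    linarith
  have hl2 : 0 < Real.log 2 := Real.log_pos (by norm_num)
  obtain ⟨CE, hCE0, hCE⟩ := numua_E d hd r hr0 hr (16 * K * 2 ^ (d - 1))
    (by
      have : (1:ℝ) ≤ 2 ^ (d - 1) := one_le_pow₀ (by norm_num)
      nlinarith)
  obtain ⟨CA, hCA⟩ : ∃ CA : ℝ, CA = (Real.sqrt K * G + 1) / ((8 * K) ^ (-r) *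
    (Real.log 2) ^ e) := ⟨_, rfl⟩
  obtain ⟨CB, hCB⟩ : ∃ CB : ℝ, CB = (Real.sqrt (2 * B * K) * (2 * G) + Real.sqrt (K * B) * G + 1) * CE :=
    ⟨_, rfl⟩
  have hCA0 : 0 < CA := by rw [hCA]; positivity
  have hCB0 : 0 < CB := by rw [hCB]; positivity
  refine ⟨CA + CB, by linarith, fun m hm => ?_⟩
  have hmR : (2:ℝ) ≤ m := by exact_mod_cast hm
  have hm0 : (0:ℝ) < m := by linarith
  have hlm : 0 < Real.log m := Real.log_pos (by linarith)
  have hX0 : 0 ≤ (m:ℝ) ^ (-r) * (Real.log m) ^ e := by positivity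
  have hpsi : psiA d r m = (m:ℝ) ^ (-r) * (Real.log m) ^ e := by rw [psiA, he]
  rw [hpsi]
  by_cases hsmall : (m:ℝ) < 8 * K
  · refine ⟨0, 0, 0, fun _ => 1, le_rfl, fun _ => le_rfl, by simp, hsumm 0, ?_⟩
    have h1 : ∑' n : ℕ, (2:ℝ)^(-(r * ((n + 0 : ℕ) : ℝ))) *
        (2:ℝ)^(-((1/2 - 1/q) * ((n + 0 - 0 : ℕ) : ℝ))) * Real.sqrt (layer d (n + 0)).card ≤
        Real.sqrt K * G := by
      rw [hG, ← tsum_mul_left]
      refine ((summable_nat_add_iff 0).2 (hsumm 0)).tsum_le_tsum (fun n => ?_)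
        (hgs.mul_left (Real.sqrt K))
      have h3 := hterm 0 n
      refine h3.trans ?_
      simp only [Nat.cast_zero, mul_zero, Real.rpow_zero, zero_add, one_pow, Real.sqrt_one, mul_one]
      have h4 : g n * ρ ^ n ≤ g n * 1 := mul_le_mul_of_nonneg_left (hρD1 n) (hg0 n)
      rw [mul_one] at h4
      gcongr
    have h2 : Real.sqrt K * G + 1 ≤ CA * ((m:ℝ) ^ (-r) * (Real.log m) ^ e) := by
      have h3 : (8 * K) ^ (-r) ≤ (m:ℝ) ^ (-r) :=
        Real.rpow_le_rpow_of_nonpos (by linarith) hsmall.le (by linarith)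
      have h4 : (Real.log 2) ^ e ≤ (Real.log m) ^ e :=
        Real.rpow_le_rpow hl2.le (Real.log_le_log (by norm_num) hmR) he0
      have h5 : 0 < (8 * K) ^ (-r) * (Real.log 2) ^ e := by positivity
      calc Real.sqrt K * G + 1 = CA * ((8 * K) ^ (-r) * (Real.log 2) ^ e) := by
            rw [hCA]; field_simp
        _ ≤ _ := by gcongr
    have h3 : (((0:ℕ):ℝ)+1)^(d-1) * (2:ℝ)^(-(r * ((0:ℕ):ℝ))) = 1 := by simp
    rw [h3, Finset.Ico_self, Finset.sum_empty, zero_add]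
    have h4 : 0 ≤ CB * ((m:ℝ) ^ (-r) * (Real.log m) ^ e) := by positivity
    calc _ ≤ Real.sqrt K * G + 1 := by linarith
      _ ≤ CA * ((m:ℝ) ^ (-r) * (Real.log m) ^ e) := h2
      _ ≤ (CA + CB) * ((m:ℝ) ^ (-r) * (Real.log m) ^ e) := by linarith
  · push Not at hsmall
    obtain ⟨n0, μ, hn0μ, hn0a, hn0b, hμ1, hμ2, hμ3, hμ4⟩ := numua_choice d hd K hK hKd m hsmall
    -- choice of L
    have hexL : ∃ j : ℕ, (m:ℝ) * ρ ^ (2 * j) / B < 1 := by
      have h1 : Filter.Tendsto (fun j : ℕ => (ρ ^ 2) ^ j) Filter.atTop (nhds 0) :=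
        tendsto_pow_atTop_nhds_zero_of_lt_one (by positivity) hρ2
      have h2 : ∀ᶠ j : ℕ in Filter.atTop, (ρ ^ 2) ^ j < B / m :=
        h1.eventually (gt_mem_nhds (by positivity))
      obtain ⟨j, hj⟩ := h2.exists
      refine ⟨j, ?_⟩
      rw [← pow_mul, lt_div_iff₀ (by linarith)] at hj
      rw [div_lt_one hB0]
      linarith
    obtain ⟨L, hL1, hL2⟩ : ∃ L : ℕ, (m:ℝ) * ρ ^ (2 * L) / B < 1 ∧
        ∀ j < L, 1 ≤ (m:ℝ) * ρ ^ (2 * j) / B :=
      ⟨Nat.find hexL, Nat.find_spec hexL, fun j hj => by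
        have := Nat.find_min hexL hj
        push Not at this
        exact this⟩
    obtain ⟨M, hM⟩ : ∃ M : ℕ → ℕ, M = fun n => max 1 ⌊(m:ℝ) * ρ ^ (2 * ((n - μ) + (μ - n))) / B⌋₊ :=
      ⟨_, rfl⟩
    have hM1 : ∀ n, 1 ≤ M n := fun n => by rw [hM]; exact le_max_left _ _
    have hMlo : ∀ n, (m:ℝ) * ρ ^ (2 * ((n - μ) + (μ - n))) / (2 * B) ≤ M n := by
      intro n
      have h1 : (1:ℝ) ≤ M n := by exact_mod_cast hM1 n
      have h2 : (m:ℝ) * ρ ^ (2 * ((n - μ) + (μ - n))) / B < M n + 1 := by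
        have h3 : (⌊(m:ℝ) * ρ ^ (2 * ((n - μ) + (μ - n))) / B⌋₊ : ℝ) ≤ M n := by
          rw [hM]; exact_mod_cast le_max_right _ _
        linarith [Nat.lt_floor_add_one ((m:ℝ) * ρ ^ (2 * ((n - μ) + (μ - n))) / B)]
      have h3 : (m:ℝ) * ρ ^ (2 * ((n - μ) + (μ - n))) / (2 * B) =
          (m:ℝ) * ρ ^ (2 * ((n - μ) + (μ - n))) / B / 2 := by field_simp
      rw [h3]
      linarith
    have hMup : ∀ n ∈ Finset.Ico n0 (μ + L), (M n : ℝ) ≤
        (m:ℝ) / B * (ρ ^ 2) ^ ((n - μ) + (μ - n)) + (if n < μ then 1 else 0) := by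
      intro n hn
      rw [Finset.mem_Ico] at hn
      have e1 : (m:ℝ) / B * (ρ ^ 2) ^ ((n - μ) + (μ - n)) =
          (m:ℝ) * ρ ^ (2 * ((n - μ) + (μ - n))) / B := by rw [← pow_mul]; ring
      rw [e1]
      have h0 : 0 ≤ (m:ℝ) * ρ ^ (2 * ((n - μ) + (μ - n))) / B := by positivity
      have h1 := Nat.floor_le h0
      split_ifs with h
      · rw [hM]
        push_cast
        apply max_le
        · linarith
        · linarith
      · have h2 := hL2 (n - μ) (by omega)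
        have e2 : (n - μ) + (μ - n) = n - μ := by omega
        rw [e2] at h1 ⊢
        have h3 : M n = ⌊(m:ℝ) * ρ ^ (2 * (n - μ)) / B⌋₊ := by
          rw [hM]
          simp only
          rw [e2]
          apply max_eq_right
          exact Nat.le_floor (by exact_mod_cast h2)
        rw [h3, add_zero]
        exact h1
    refine ⟨n0, μ + L, μ, M, by omega, hM1, ?_, hsumm μ, ?_⟩
    · have h1 : (∑ n ∈ Finset.range n0, 2 * ((layer d n).card : ℝ)) ≤ m / 4 := by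
        have h2 : ∀ n ∈ Finset.range n0, 2 * ((layer d n).card : ℝ) ≤
            (2 * K * ((n0:ℝ) + 1) ^ (d - 1)) * 2 ^ n := by
          intro n hn
          have hn' : (n:ℝ) ≤ n0 := by exact_mod_cast (Finset.mem_range.1 hn).le
          calc 2 * ((layer d n).card : ℝ) ≤ 2 * (K * 2 ^ n * ((n:ℝ) + 1) ^ (d - 1)) := by
                linarith [hcard n]
            _ ≤ 2 * (K * 2 ^ n * ((n0:ℝ) + 1) ^ (d - 1)) := by gcongr
            _ = _ := by ring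
        have h3 : ∑ n ∈ Finset.range n0, (2:ℝ) ^ n ≤ 2 ^ n0 := by
          rw [geom_sum_eq (by norm_num)]
          norm_num
        calc _ ≤ ∑ n ∈ Finset.range n0, (2 * K * ((n0:ℝ) + 1) ^ (d - 1)) * 2 ^ n :=
              Finset.sum_le_sum h2
          _ = (2 * K * ((n0:ℝ) + 1) ^ (d - 1)) * ∑ n ∈ Finset.range n0, (2:ℝ) ^ n := by
              rw [Finset.mul_sum]
          _ ≤ (2 * K * ((n0:ℝ) + 1) ^ (d - 1)) * 2 ^ n0 := by gcongr
          _ ≤ m / 4 := by linarith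
      have h4 : (∑ n ∈ Finset.Ico n0 (μ + L), (M n : ℝ)) ≤ m / 4 + m / 4 := by
        have hgeo : Summable (fun j : ℕ => (ρ ^ 2) ^ j) :=
          summable_geometric_of_lt_one (by positivity) hρ2
        have h5 := numua_dist (fun j => (ρ ^ 2) ^ j) (fun j => by positivity) hgeo μ n0 (μ + L)
        rw [tsum_geometric_of_lt_one (by positivity) hρ2] at h5
        have h6 : ∑ n ∈ Finset.Ico n0 (μ + L), (if n < μ then (1:ℝ) else 0) ≤ m / 4 := by
          have h7 : ∑ n ∈ Finset.Ico n0 (μ + L), (if n < μ then (1:ℝ) else 0) =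
              ((μ - n0 : ℕ) : ℝ) := by
            rw [Finset.sum_ite, Finset.sum_const_zero, add_zero, Finset.sum_const, nsmul_eq_mul, mul_one]
            congr 1
            have : (Finset.Ico n0 (μ + L)).filter (fun n => n < μ) = Finset.Ico n0 μ := by
              ext x
              simp only [Finset.mem_filter, Finset.mem_Ico]
              omega
            rw [this, Nat.card_Ico]
          rw [h7, Nat.cast_sub hn0μ]
          exact hμ4
        calc _ ≤ ∑ n ∈ Finset.Ico n0 (μ + L), ((m:ℝ) / B * (ρ ^ 2) ^ ((n - μ) + (μ - n)) +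
              (if n < μ then 1 else 0)) := Finset.sum_le_sum hMup
          _ = (m:ℝ) / B * (∑ n ∈ Finset.Ico n0 (μ + L), (ρ ^ 2) ^ ((n - μ) + (μ - n))) +
              ∑ n ∈ Finset.Ico n0 (μ + L), (if n < μ then (1:ℝ) else 0) := by
              rw [Finset.sum_add_distrib, Finset.mul_sum]
          _ ≤ (m:ℝ) / B * (2 * (1 - ρ ^ 2)⁻¹) + m / 4 := by gcongr
          _ = m / 4 + m / 4 := by
              rw [hB]
              have : (1 - ρ ^ 2) ≠ 0 := by linarith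
              field_simp
              norm_num
      have h9 : ((∑ n ∈ Finset.range n0, 2 * (layer d n).card + ∑ n ∈ Finset.Ico n0 (μ + L), M n : ℕ) : ℝ)
          ≤ (m : ℝ) := by
        push_cast
        linarith
      exact_mod_cast h9
    · obtain ⟨Q, hQd⟩ : ∃ Q : ℝ, Q = (2:ℝ)^((1/2 - r) * (μ:ℝ)) * Real.sqrt (((μ:ℝ) + 1) ^ d) := ⟨_, rfl⟩
      have hQ0 : 0 ≤ Q := by rw [hQd]; exact hQ μ
      have hfirst : (∑ n ∈ Finset.Ico n0 (μ + L), (2:ℝ)^(-(r * n)) *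
          (2:ℝ)^(-((1/2 - 1/q) * ((n - μ : ℕ) : ℝ))) *
          Real.sqrt (((n:ℝ)+1) * (layer d n).card / M n)) ≤
          (Real.sqrt (2 * B * K / m) * Q) * (2 * G) := by
        have h1 : ∀ n ∈ Finset.Ico n0 (μ + L), (2:ℝ)^(-(r * n)) *
            (2:ℝ)^(-((1/2 - 1/q) * ((n - μ : ℕ) : ℝ))) *
            Real.sqrt (((n:ℝ)+1) * (layer d n).card / M n) ≤
            (Real.sqrt (2 * B * K / m) * Q) * g ((n - μ) + (μ - n)) := by
          intro n hn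
          obtain ⟨D, hD⟩ : ∃ D : ℕ, D = (n - μ) + (μ - n) := ⟨_, rfl⟩
          have hMn : (0:ℝ) < M n := by
            have : (1:ℝ) ≤ M n := by exact_mod_cast hM1 n
            linarith
          have h2 := numua_T d hd1 K q r δ hK hδa hδb μ n _ (hcard n) (1 / (M n : ℝ)) (by positivity)
          rw [← hD, ← hQd, hρδ] at h2
          have e1 : ((n:ℝ)+1) * (layer d n).card / M n = 1 / (M n : ℝ) * (((n:ℝ) + 1) * (layer d n).card) := by
            ring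
          rw [e1, ← hD]
          refine h2.trans ?_
          have h3 : Real.sqrt (1 / (M n : ℝ) * K) * ρ ^ D ≤ Real.sqrt (2 * B * K / m) := by
            have h4 : (m:ℝ) * ρ ^ (2 * D) / (2 * B) ≤ M n := by rw [hD]; exact hMlo n
            have e2 : ρ ^ D = Real.sqrt (ρ ^ (2 * D)) := by
              rw [mul_comm, pow_mul, Real.sqrt_sq (by positivity)]
            rw [e2, ← Real.sqrt_mul (by positivity)]
            apply Real.sqrt_le_sqrt
            rw [div_le_iff₀ (by positivity)] at h4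
            rw [le_div_iff₀ hm0, one_div, inv_mul_eq_div, div_mul_eq_mul_div, div_mul_eq_mul_div,
              div_le_iff₀ hMn]
            calc K * ρ ^ (2 * D) * m = K * (m * ρ ^ (2 * D)) := by ring
              _ ≤ K * (M n * (2 * B)) := by gcongr
              _ = _ := by ring
          calc _ = (Real.sqrt (1 / (M n : ℝ) * K) * ρ ^ D) * (Q * (((D:ℝ) + 1) ^ d * ρ ^ D)) := by ring
            _ ≤ Real.sqrt (2 * B * K / m) * (Q * (((D:ℝ) + 1) ^ d * ρ ^ D)) := by gcongr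
            _ = _ := by rw [hg]; ring
        calc _ ≤ ∑ n ∈ Finset.Ico n0 (μ + L), (Real.sqrt (2 * B * K / m) * Q) * g ((n - μ) + (μ - n)) :=
              Finset.sum_le_sum h1
          _ = (Real.sqrt (2 * B * K / m) * Q) * ∑ n ∈ Finset.Ico n0 (μ + L), g ((n - μ) + (μ - n)) := by
              rw [Finset.mul_sum]
          _ ≤ (Real.sqrt (2 * B * K / m) * Q) * (2 * G) := by
              rw [hG]
              have := numua_dist g hg0 hgs μ n0 (μ + L)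
              gcongr
      have hLt : ρ ^ L ≤ Real.sqrt (B / m) := by
        have e2 : ρ ^ L = Real.sqrt (ρ ^ (2 * L)) := by
          rw [mul_comm, pow_mul, Real.sqrt_sq (by positivity)]
        rw [e2]
        apply Real.sqrt_le_sqrt
        rw [div_lt_one hB0] at hL1
        rw [le_div_iff₀ hm0]
        linarith
      have htail : ∑' n : ℕ, (2:ℝ)^(-(r * ((n + (μ + L) : ℕ) : ℝ))) *
          (2:ℝ)^(-((1/2 - 1/q) * ((n + (μ + L) - μ : ℕ) : ℝ))) *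
          Real.sqrt (layer d (n + (μ + L))).card ≤ (Real.sqrt (K * (B / m)) * Q) * G := by
        have h1 : ∀ i : ℕ, (2:ℝ)^(-(r * ((i + (μ + L) : ℕ) : ℝ))) *
            (2:ℝ)^(-((1/2 - 1/q) * ((i + (μ + L) - μ : ℕ) : ℝ))) *
            Real.sqrt (layer d (i + (μ + L))).card ≤ (Real.sqrt (K * (B / m)) * Q) * g (i + L) := by
          intro i
          have h2 := hterm μ (i + L)
          have e1 : i + (μ + L) = i + L + μ := by ring
          rw [e1]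
          refine h2.trans ?_
          rw [← hQd, Real.sqrt_mul hK0.le]
          have h3 : ρ ^ (i + L) ≤ Real.sqrt (B / m) := by
            rw [pow_add]
            have := hρD1 i
            have h4 : 0 ≤ ρ ^ L := by positivity
            nlinarith
          calc Real.sqrt K * Q * (g (i + L) * ρ ^ (i + L)) ≤
                Real.sqrt K * Q * (g (i + L) * Real.sqrt (B / m)) := by
                have := hg0 (i + L)
                gcongr
            _ = _ := by ring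
        have hgs' := (summable_nat_add_iff L).2 hgs
        have h4 : ∑' i : ℕ, g (i + L) ≤ G := by
          rw [hG, ← hgs.sum_add_tsum_nat_add L]
          have : 0 ≤ ∑ i ∈ Finset.range L, g i := Finset.sum_nonneg (fun i _ => hg0 i)
          linarith
        calc _ ≤ ∑' i : ℕ, (Real.sqrt (K * (B / m)) * Q) * g (i + L) :=
              ((summable_nat_add_iff (μ + L)).2 (hsumm μ)).tsum_le_tsum h1 (hgs'.mul_left _)
          _ = (Real.sqrt (K * (B / m)) * Q) * ∑' i : ℕ, g (i + L) := tsum_mul_left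
          _ ≤ (Real.sqrt (K * (B / m)) * Q) * G := by gcongr
      -- final estimates
      have hn0R : (0:ℝ) ≤ n0 := Nat.cast_nonneg n0
      have hμR : (0:ℝ) ≤ μ := Nat.cast_nonneg μ
      have hlog : (n0:ℝ) + 2 ≤ 2 * Real.log m := by
        have h2 : (2:ℝ) ^ (n0 + 3) ≤ m := by
          refine le_trans ?_ hn0a
          have h1 : (1:ℝ) ≤ ((n0:ℝ) + 1) ^ (d - 1) := one_le_pow₀ (by linarith)
          calc (2:ℝ) ^ (n0 + 3) = 8 * 1 * 2 ^ n0 * 1 := by rw [pow_add]; norm_num; ring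
            _ ≤ _ := by gcongr
        have h3 : ((n0 + 3 : ℕ) : ℝ) * Real.log 2 ≤ Real.log m := by
          rw [← Real.log_pow]
          exact Real.log_le_log (by positivity) h2
        have h4 := Real.log_two_gt_d9
        push_cast at h3
        nlinarith
      obtain ⟨E1, E2⟩ := hCE m (2 ^ n0) ((n0:ℝ) + 1) (2 ^ μ) ((μ:ℝ) + 1) (Real.log m) hm0
        (by positivity) (by linarith) (by positivity) (by linarith) hlm
        (by
          refine le_trans ?_ hn0a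
          have h1 : 0 ≤ (2:ℝ) ^ n0 * ((n0:ℝ) + 1) ^ (d - 1) := by positivity
          nlinarith)
        (by
          refine hn0b.trans ?_
          have h1 : ((n0:ℝ) + 2) ^ (d - 1) ≤ 2 ^ (d - 1) * ((n0:ℝ) + 1) ^ (d - 1) := by
            rw [← mul_pow]
            gcongr
            linarith
          calc 8 * K * 2 ^ (n0 + 1) * ((n0:ℝ) + 2) ^ (d - 1) ≤
                8 * K * 2 ^ (n0 + 1) * (2 ^ (d - 1) * ((n0:ℝ) + 1) ^ (d - 1)) := by gcongr
            _ = _ := by rw [pow_succ]; ring)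
        hμ1 hμ2
        (by
          have h1 : (μ:ℝ) ≤ (2 * d) * n0 := by
            have h2 : μ ≤ (2 * d) * n0 := by
              refine hμ3.trans ?_
              have : n0 + (2 * d - 3) * n0 = (2 * d - 3 + 1) * n0 := by ring
              rw [this]
              exact Nat.mul_le_mul_right _ (by omega)
            exact_mod_cast h2
          have h3 : (2:ℝ) ≤ d := by exact_mod_cast hd
          nlinarith)
        (by linarith)
      have hQe : Q = (2 ^ μ) ^ (1/2 - r) * ((μ:ℝ) + 1) ^ ((d:ℝ)/2) := by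
        rw [hQd]
        congr 1
        · rw [← Real.rpow_natCast 2 μ, ← Real.rpow_mul (by norm_num)]
          congr 1; ring
        · rw [Real.sqrt_eq_rpow, ← Real.rpow_natCast, ← Real.rpow_mul (by positivity)]
          congr 1; ring
      have h2e : (2:ℝ)^(-(r * (μ:ℝ))) = (2 ^ μ) ^ (-r) := by
        rw [← Real.rpow_natCast 2 μ, ← Real.rpow_mul (by norm_num)]
        congr 1; ring
      have hsm : ∀ y : ℝ, 0 ≤ y → Real.sqrt (y / m) = Real.sqrt y * (m:ℝ) ^ (-(1/2:ℝ)) := by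
        intro y hy
        rw [Real.sqrt_div hy, Real.sqrt_eq_rpow (m:ℝ), Real.rpow_neg hm0.le]
        rfl
      rw [← hQe, ← he] at E1
      rw [← h2e, ← he] at E2
      have e3 : K * (B / m) = (K * B) / m := by ring
      rw [e3] at htail
      rw [hsm _ (by positivity)] at htail hfirst
      calc _ ≤ (Real.sqrt (2 * B * K) * (m:ℝ) ^ (-(1/2:ℝ)) * Q) * (2 * G) +
            (Real.sqrt (K * B) * (m:ℝ) ^ (-(1/2:ℝ)) * Q) * G +
            CE * ((m:ℝ) ^ (-r) * (Real.log m) ^ e) := by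
            gcongr
        _ = (Real.sqrt (2 * B * K) * (2 * G) + Real.sqrt (K * B) * G) * ((m:ℝ) ^ (-(1/2:ℝ)) * Q) +
            CE * ((m:ℝ) ^ (-r) * (Real.log m) ^ e) := by ring
        _ ≤ (Real.sqrt (2 * B * K) * (2 * G) + Real.sqrt (K * B) * G) *
            (CE * ((m:ℝ) ^ (-r) * (Real.log m) ^ e)) +
            CE * ((m:ℝ) ^ (-r) * (Real.log m) ^ e) := by gcongr
        _ = CB * ((m:ℝ) ^ (-r) * (Real.log m) ^ e) := by rw [hCB]; ring
        _ ≤ (CA + CB) * ((m:ℝ) ^ (-r) * (Real.log m) ^ e) := by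
            apply mul_le_mul_of_nonneg_right _ hX0
            linarith

end SmSm
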