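import Pool.Agent.H636R2.SM.Spec
import Pool.Agent.KX.L_num_up2
import Pool.Agent.KX.L_shp_upper
open MeasureTheory Real ProbabilityTheory
open scoped ENNReal BigOperators

namespace SmSm
open HypVol MWidth

/-- `2^(-n/2) √c ≤ √(K (n+1)^e)` -/
theorem numub_A (K : ℝ) (n e : ℕ) (c : ℝ) (hc : c ≤ K * 2 ^ n * ((n:ℝ) + 1) ^ e) :
    (2:ℝ) ^ (-((1/2:ℝ) * n)) * Real.sqrt c ≤ Real.sqrt (K * ((n:ℝ) + 1) ^ e) := by
  have h1 : (2:ℝ) ^ (-((1/2:ℝ) * n)) = Real.sqrt (((2:ℝ) ^ n)⁻¹) := by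
    rw [Real.sqrt_eq_rpow, ← Real.rpow_natCast, ← Real.rpow_neg (by norm_num),
      ← Real.rpow_mul (by norm_num)]
    congr 1; ring
  rw [h1, ← Real.sqrt_mul (by positivity)]
  apply Real.sqrt_le_sqrt
  have h2 : (0:ℝ) < 2 ^ n := by positivity
  rw [inv_mul_le_iff₀ h2]
  calc c ≤ _ := hc
    _ = _ := by ring

theorem numub_B (K : ℝ) (n e : ℕ) (c M : ℝ) (hM : 0 < M)
    (hc : c ≤ K * 2 ^ n * ((n:ℝ) + 1) ^ e) :
    (2:ℝ) ^ (-((1/2:ℝ) * n)) * Real.sqrt (((n:ℝ) + 1) * c / M) ≤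
      Real.sqrt (K * ((n:ℝ) + 1) ^ (e + 1) / M) := by
  have h1 := numub_A (K / M) n (e + 1) (((n:ℝ) + 1) * c / M) (by
    rw [div_le_iff₀ hM]
    have h0 : (0:ℝ) ≤ (n:ℝ) + 1 := by positivity
    calc ((n:ℝ) + 1) * c ≤ ((n:ℝ) + 1) * (K * 2 ^ n * ((n:ℝ) + 1) ^ e) := by gcongr
      _ = _ := by field_simp; ring)
  refine h1.trans (le_of_eq ?_)
  congr 1
  ring

theorem numub_C (d : ℕ) (m : ℕ) (hm : 2 ≤ m) :
    psiB d m = Real.sqrt ((Real.log m) ^ d * Real.log (Real.log m + 3) / m) := by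
  have hmR : (2:ℝ) ≤ m := by exact_mod_cast hm
  have hlm : 0 < Real.log m := Real.log_pos (by linarith)
  have hll : 0 < Real.log (Real.log m + 3) := Real.log_pos (by linarith)
  rw [psiB, Real.sqrt_div (by positivity), Real.sqrt_mul (by positivity),
    Real.rpow_neg (by positivity), Real.sqrt_eq_rpow, Real.sqrt_eq_rpow, Real.sqrt_eq_rpow,
    ← Real.rpow_natCast (Real.log m) d, ← Real.rpow_mul hlm.le]
  have : (d:ℝ) * (1/2) = (d:ℝ)/2 := by ring
  rw [this]
  field_simp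

set_option maxHeartbeats 1000000 in
theorem numub : S_NUMUB := by
  intro d hd q hq
  obtain ⟨K, hK, hcard⟩ : ∃ K : ℝ, 1 ≤ K ∧ ∀ n : ℕ,
      ((layer d n).card : ℝ) ≤ K * 2 ^ n * ((n:ℝ) + 1) ^ (d - 1) := by
    obtain ⟨C, hC, h⟩ := Sol_KX_shp_upper.card_layer_le d (by omega)
    refine ⟨C + 1, by linarith, fun n => (h n).trans ?_⟩
    have : (0:ℝ) ≤ 2 ^ n * ((n:ℝ) + 1) ^ (d - 1) := by positivity
    nlinarith
  have hK0 : 0 < K := by linarith
  obtain ⟨β, hβd⟩ : ∃ β : ℝ, β = 1/2 - 1/q := ⟨_, rfl⟩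
  have hβ : 0 < β := by
    rw [hβd]
    have : 1 / q < 1 / 2 := by
      apply one_div_lt_one_div_of_lt <;> linarith
    linarith
  rw [← hβd]
  obtain ⟨t, htd⟩ : ∃ t : ℝ, t = (2:ℝ) ^ (-(β/2)) := ⟨_, rfl⟩
  have ht0 : 0 < t := by rw [htd]; positivity
  have ht1 : t < 1 := by
    rw [htd]
    exact Real.rpow_lt_one_of_one_lt_of_neg (by norm_num) (by linarith)
  have ht2 : t ^ 2 < 1 := by nlinarith
  have htj : ∀ j : ℕ, (2:ℝ) ^ (-(β * (j:ℝ))) = t ^ (2 * j) := by
    intro j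
    rw [htd, ← Real.rpow_natCast, ← Real.rpow_mul (by norm_num)]
    congr 1
    push_cast
    ring
  obtain ⟨B, hBd⟩ : ∃ B : ℝ, B = 1 + 4 / (1 - t ^ 2) := ⟨_, rfl⟩
  have hBt : 0 < 4 / (1 - t ^ 2) := by apply div_pos (by norm_num); linarith
  have hB1 : 1 ≤ B := by rw [hBd]; linarith
  have hB0 : 0 < B := by linarith
  have hB4 : 4 ≤ B * (1 - t ^ 2) := by
    have h1 : 4 / (1 - t ^ 2) * (1 - t ^ 2) = 4 := by
      apply div_mul_cancel₀; linarith
    have h2 : 0 < 1 - t ^ 2 := by linarith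
    rw [hBd, add_mul, h1]; nlinarith
  obtain ⟨g, hg⟩ : ∃ g : ℕ → ℝ, g = fun n : ℕ => ((n:ℝ) + 1) ^ d * t ^ n := ⟨_, rfl⟩
  have hg0 : ∀ n, 0 ≤ g n := fun n => by rw [hg]; positivity
  have hgs : Summable g := by
    rw [hg]; exact HypVol.Sol_KX_num_up2.num_upw_summ d t ht0 ht1
  obtain ⟨G, hG⟩ : ∃ G : ℝ, G = ∑' n, g n := ⟨_, rfl⟩
  have hG0 : 0 ≤ G := by rw [hG]; exact tsum_nonneg hg0
  -- general bound of `√((n+1)^e)` for `n = μ + j`
  have hsq : ∀ (c : ℝ) (μ j e : ℕ), 0 ≤ c → e ≤ d →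
      Real.sqrt (c * (((μ + j : ℕ):ℝ) + 1) ^ e) ≤ Real.sqrt (c * ((μ:ℝ) + 1) ^ d) * ((j:ℝ) + 1) ^ d := by
    intro c μ j e hc he
    have hμ : (0:ℝ) ≤ μ := Nat.cast_nonneg μ
    have hj : (0:ℝ) ≤ j := Nat.cast_nonneg j
    have h1 : (((μ + j : ℕ):ℝ) + 1) ≤ ((μ:ℝ) + 1) * ((j:ℝ) + 1) := by
      push_cast; nlinarith [mul_nonneg hμ hj]
    have h2 : (((μ + j : ℕ):ℝ) + 1) ^ e ≤ (((μ:ℝ) + 1) * ((j:ℝ) + 1)) ^ d := by
      calc (((μ + j : ℕ):ℝ) + 1) ^ e ≤ (((μ + j : ℕ):ℝ) + 1) ^ d :=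
            pow_le_pow_right₀ (by push_cast; linarith) he
        _ ≤ _ := by gcongr
    have h3 : ((j:ℝ) + 1) ^ d ≤ (((j:ℝ) + 1) ^ d) ^ 2 := by
      have : (1:ℝ) ≤ ((j:ℝ) + 1) ^ d := one_le_pow₀ (by linarith)
      nlinarith
    rw [Real.sqrt_le_left (by positivity), mul_pow, Real.sq_sqrt (by positivity)]
    calc c * (((μ + j : ℕ):ℝ) + 1) ^ e ≤ c * (((μ:ℝ) + 1) * ((j:ℝ) + 1)) ^ d := by gcongr
      _ = c * ((μ:ℝ) + 1) ^ d * ((j:ℝ) + 1) ^ d := by rw [mul_pow]; ring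
      _ ≤ _ := by gcongr
  -- summability
  have hsumm0 : ∀ μs : ℕ, Summable (fun n : ℕ => (2:ℝ)^(-((1/2:ℝ) * n)) *
      (2:ℝ)^(-(β * ((n - μs : ℕ) : ℝ))) * Real.sqrt (layer d n).card) := by
    intro μs
    refine (summable_nat_add_iff μs).1 ?_
    refine Summable.of_nonneg_of_le (fun n => by positivity) (fun n => ?_)
      (hgs.mul_left (Real.sqrt (K * ((μs:ℝ) + 1) ^ d)))
    have h1 := numub_A K (n + μs) (d - 1) _ (hcard (n + μs))
    have h2 := hsq K μs n (d - 1) hK0.le (by omega)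
    rw [Nat.add_comm μs n] at h2
    rw [Nat.add_sub_cancel, htj]
    calc (2:ℝ)^(-((1/2:ℝ) * ((n + μs : ℕ):ℝ))) * t ^ (2 * n) * Real.sqrt (layer d (n + μs)).card
        = ((2:ℝ)^(-((1/2:ℝ) * ((n + μs : ℕ):ℝ))) * Real.sqrt (layer d (n + μs)).card) * t ^ (2 * n) := by
          ring
      _ ≤ (Real.sqrt (K * ((μs:ℝ) + 1) ^ d) * ((n:ℝ) + 1) ^ d) * t ^ n := by
          apply mul_le_mul (h1.trans h2) (pow_le_pow_of_le_one ht0.le ht1.le (by omega))
            (by positivity) (by positivity)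
      _ = _ := by rw [hg]; ring
  have hl2 : 0 < Real.log 2 := Real.log_pos (by norm_num)
  obtain ⟨D, hD⟩ : ∃ D : ℝ, D = 2 * d + 1 := ⟨_, rfl⟩
  have hD1 : 1 ≤ D := by rw [hD]; linarith [Nat.cast_nonneg (α := ℝ) d]
  obtain ⟨CA, hCA⟩ : ∃ CA : ℝ, CA = (Real.sqrt K * G + 1) /
      Real.sqrt ((Real.log 2) ^ d / (8 * K)) := ⟨_, rfl⟩
  have hCA0 : 0 ≤ CA := by rw [hCA]; positivity
  obtain ⟨CB, hCB⟩ : ∃ CB : ℝ, CB = (Real.sqrt (16 * K * d * D ^ d) +
      2 * G * Real.sqrt (2 * B * K * D ^ d) + Real.sqrt (16 * K * 2 ^ d * D ^ (2 * d))) * 2 ^ (d + 2) := ⟨_, rfl⟩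
  have hCB0 : 0 ≤ CB := by rw [hCB]; positivity
  refine ⟨CA + CB + 1, by linarith, fun m hm => ?_⟩
  have hmR : (2:ℝ) ≤ m := by exact_mod_cast hm
  have hm0 : (0:ℝ) < m := by linarith
  have hlm : 0 < Real.log m := Real.log_pos (by linarith)
  have hll1 : 1 ≤ Real.log (Real.log m + 3) := by
    rw [Real.le_log_iff_exp_le (by linarith)]
    linarith [Real.exp_one_lt_d9]
  have hpsi := numub_C d m hm
  have hpsi0 : 0 ≤ psiB d m := by rw [hpsi]; positivity
  by_cases hsmall : (m:ℝ) < 8 * K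
  · refine ⟨0, 0, 0, 1, fun _ => 1, le_rfl, le_rfl, le_rfl, fun _ => le_rfl, by simp; omega, hsumm0 0, ?_⟩
    simp only [Finset.Ico_self, Finset.sum_empty, mul_zero, zero_div, Real.sqrt_zero, zero_add,
      Nat.cast_zero, neg_zero, Real.rpow_zero, one_pow, mul_one]
    have h1 : ∑' n : ℕ, (2:ℝ)^(-((1/2:ℝ) * ((n + 0 : ℕ) : ℝ))) * (2:ℝ)^(-(β * ((n + 0 - 0 : ℕ) : ℝ))) *
        Real.sqrt (layer d (n + 0)).card ≤ Real.sqrt K * G := by
      rw [hG, ← tsum_mul_left]
      refine (hsumm0 0).tsum_le_tsum (fun n => ?_) (hgs.mul_left _)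
      have h1 := numub_A K n (d - 1) _ (hcard n)
      have h2 := hsq K 0 n (d - 1) hK0.le (by omega)
      simp only [Nat.zero_add, Nat.cast_zero, zero_add, one_pow, mul_one] at h2
      rw [Nat.sub_zero, htj]
      calc (2:ℝ)^(-((1/2:ℝ) * ((n : ℕ):ℝ))) * t ^ (2 * n) * Real.sqrt (layer d n).card
          = ((2:ℝ)^(-((1/2:ℝ) * ((n : ℕ):ℝ))) * Real.sqrt (layer d n).card) * t ^ (2 * n) := by
            ring
        _ ≤ (Real.sqrt K * ((n:ℝ) + 1) ^ d) * t ^ n := by
            apply mul_le_mul (h1.trans h2) (pow_le_pow_of_le_one ht0.le ht1.le (by omega))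
              (by positivity) (by positivity)
        _ = _ := by rw [hg]; ring
    have h2 : Real.sqrt K * G + 1 ≤ CA * psiB d m := by
      have h3 : Real.sqrt ((Real.log 2) ^ d / (8 * K)) ≤ psiB d m := by
        rw [hpsi]
        apply Real.sqrt_le_sqrt
        have h4 : Real.log 2 ≤ Real.log m := Real.log_le_log (by norm_num) hmR
        calc (Real.log 2) ^ d / (8 * K) ≤ (Real.log m) ^ d / m := by gcongr
          _ ≤ _ := by
            have : (0:ℝ) ≤ (Real.log m) ^ d := by positivity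
            gcongr
            nlinarith
      have h5 : 0 < Real.sqrt ((Real.log 2) ^ d / (8 * K)) := by positivity
      calc Real.sqrt K * G + 1 = CA * Real.sqrt ((Real.log 2) ^ d / (8 * K)) := by
            rw [hCA]; field_simp
        _ ≤ _ := by gcongr
    calc _ ≤ Real.sqrt K * G + 1 := by
          have := h1
          simp only [Nat.add_zero, Nat.sub_zero] at this ⊢
          linarith
      _ ≤ CA * psiB d m := h2
      _ ≤ _ := by
          apply mul_le_mul_of_nonneg_right _ hpsi0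
          linarith
  · push Not at hsmall
    -- choice of n0
    obtain ⟨n0, hn0a, hn0b⟩ : ∃ n0 : ℕ, 8 * K * 2 ^ n0 * ((n0:ℝ) + 1) ^ (d - 1) ≤ m ∧
        (m:ℝ) ≤ 8 * K * 2 ^ (n0 + 1) * ((n0:ℝ) + 2) ^ (d - 1) := by
      have hex : ∃ n : ℕ, (m:ℝ) < 8 * K * 2 ^ n * ((n:ℝ) + 1) ^ (d - 1) := by
        refine ⟨m, ?_⟩
        have h1 : (m:ℝ) < 2 ^ m := by exact_mod_cast Nat.lt_two_pow_self
        have h2 : (1:ℝ) ≤ ((m:ℝ) + 1) ^ (d - 1) := one_le_pow₀ (by linarith)
        calc (m:ℝ) < 2 ^ m := h1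
          _ = 1 * 2 ^ m * 1 := by ring
          _ ≤ _ := by
            gcongr
            linarith
      have hP := Nat.find_spec hex
      have hne : Nat.find hex ≠ 0 := by
        intro h0
        rw [h0] at hP
        simp only [pow_zero, Nat.cast_zero, zero_add, one_pow, mul_one] at hP
        linarith
      obtain ⟨n0, hn0⟩ := Nat.exists_eq_succ_of_ne_zero hne
      refine ⟨n0, ?_, ?_⟩
      · have := Nat.find_min hex (show n0 < Nat.find hex by omega)
        push Not at this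
        exact this
      · rw [hn0] at hP
        push_cast at hP
        have e : (n0:ℝ) + 1 + 1 = n0 + 2 := by ring
        rw [e] at hP
        exact hP.le
    have hn0R : (0:ℝ) ≤ n0 := Nat.cast_nonneg n0
    have hn01 : (1:ℝ) ≤ (n0:ℝ) + 1 := by linarith
    -- choice of L
    have hexL : ∃ j : ℕ, (m:ℝ) * t ^ (2 * j) / B < 1 := by
      have h1 : Filter.Tendsto (fun j : ℕ => (t ^ 2) ^ j) Filter.atTop (nhds 0) :=
        tendsto_pow_atTop_nhds_zero_of_lt_one (by positivity) ht2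
      have h2 : ∀ᶠ j : ℕ in Filter.atTop, (t ^ 2) ^ j < B / m :=
        h1.eventually (gt_mem_nhds (by positivity))
      obtain ⟨j, hj⟩ := h2.exists
      refine ⟨j, ?_⟩
      rw [← pow_mul, lt_div_iff₀ (by linarith)] at hj
      rw [div_lt_one hB0]
      linarith
    obtain ⟨L, hL1, hL2⟩ : ∃ L : ℕ, (m:ℝ) * t ^ (2 * L) / B < 1 ∧
        ∀ j < L, 1 ≤ (m:ℝ) * t ^ (2 * j) / B :=
      ⟨Nat.find hexL, Nat.find_spec hexL, fun j hj => by
        have := Nat.find_min hexL hj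
        push Not at this
        exact this⟩
    -- choice of μs
    obtain ⟨l, hl⟩ : ∃ l : ℕ, l = Nat.log 2 (n0 + 1) + 1 := ⟨_, rfl⟩
    have hl1 : (n0 + 1) < 2 ^ l := by rw [hl]; exact Nat.lt_pow_succ_log_self (by norm_num) _
    have hl2' : 2 ^ (l - 1) ≤ n0 + 1 := by
      rw [hl, Nat.add_sub_cancel]; exact Nat.pow_log_le_self 2 (by omega)
    have hl3 : l ≤ n0 + 1 := by
      have : l - 1 < 2 ^ (l - 1) := Nat.lt_two_pow_self
      omega
    have hl0 : 1 ≤ l := by omega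
    have hlR : (1:ℝ) ≤ l := by exact_mod_cast hl0
    obtain ⟨μs, hμs⟩ : ∃ μs : ℕ, μs = n0 + 2 * d * l := ⟨_, rfl⟩
    have hμD : (μs:ℝ) + 1 ≤ D * ((n0:ℝ) + 1) := by
      have h1 : (l:ℝ) ≤ (n0:ℝ) + 1 := by exact_mod_cast hl3
      rw [hμs, hD]; push_cast
      have : (0:ℝ) ≤ d := Nat.cast_nonneg d
      nlinarith
    obtain ⟨M, hM⟩ : ∃ M : ℕ → ℕ, M = fun n => max 1 ⌊(m:ℝ) * t ^ (2 * (n - μs)) / B⌋₊ := ⟨_, rfl⟩
    have hM1 : ∀ n, 1 ≤ M n := fun n => by rw [hM]; exact le_max_left _ _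
    have hMfl : ∀ j < L, M (μs + j) = ⌊(m:ℝ) * t ^ (2 * j) / B⌋₊ := by
      intro j hj
      rw [hM]
      simp only [Nat.add_sub_cancel_left]
      apply max_eq_right
      exact Nat.le_floor (by exact_mod_cast hL2 j hj)
    have hMup : ∀ j < L, (M (μs + j) : ℝ) ≤ (m:ℝ) * t ^ (2 * j) / B := by
      intro j hj
      rw [hMfl j hj]
      exact Nat.floor_le (by positivity)
    have hMlo : ∀ j < L, (m:ℝ) * t ^ (2 * j) / (2 * B) ≤ M (μs + j) := by
      intro j hj
      have h1 : (1:ℝ) ≤ M (μs + j) := by exact_mod_cast hM1 (μs + j)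
      have h2 : (m:ℝ) * t ^ (2 * j) / B < M (μs + j) + 1 := by
        rw [hMfl j hj]
        exact Nat.lt_floor_add_one _
      have h3 : (m:ℝ) * t ^ (2 * j) / (2 * B) = (m:ℝ) * t ^ (2 * j) / B / 2 := by field_simp
      rw [h3]
      linarith
    have hIco : Finset.Ico μs (μs + L) = (Finset.range L).image (fun j => μs + j) := by
      ext x
      simp only [Finset.mem_Ico, Finset.mem_image, Finset.mem_range]
      constructor
      · intro h
        exact ⟨x - μs, by omega, by omega⟩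
      · rintro ⟨j, hj, rfl⟩
        omega
    have hinj : Set.InjOn (fun j => μs + j) (Finset.range L : Set ℕ) := by
      intro a _ b _ h
      simpa using h
    have hm8 : 8 ≤ m := by
      have : (8:ℝ) ≤ m := by linarith
      exact_mod_cast this
    have hMs : (m:ℝ) / 8 ≤ ((m / 4 : ℕ) : ℝ) := by
      have h1 : m ≤ 8 * (m / 4) := by omega
      have h2 : (m:ℝ) ≤ 8 * ((m / 4 : ℕ) : ℝ) := by exact_mod_cast h1
      linarith
    have hMs1 : 1 ≤ m / 4 := by omega
    have hMs0 : (0:ℝ) < ((m / 4 : ℕ) : ℝ) := by exact_mod_cast hMs1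
    refine ⟨n0, μs + L, μs, m / 4, M, by omega, by omega, hMs1, hM1, ?_, hsumm0 μs, ?_⟩
    · have h1 : (∑ n ∈ Finset.range n0, 2 * ((layer d n).card : ℝ)) ≤ m / 4 := by
        have h2 : ∀ n ∈ Finset.range n0, 2 * ((layer d n).card : ℝ) ≤
            (2 * K * ((n0:ℝ) + 1) ^ (d - 1)) * 2 ^ n := by
          intro n hn
          have hn' : (n:ℝ) ≤ n0 := by exact_mod_cast (Finset.mem_range.1 hn).le
          calc 2 * ((layer d n).card : ℝ) ≤ 2 * (K * 2 ^ n * ((n:ℝ) + 1) ^ (d - 1)) := by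
                linarith [hcard n]
            _ ≤ 2 * (K * 2 ^ n * ((n0:ℝ) + 1) ^ (d - 1)) := by gcongr
            _ = _ := by ring
        have h3 : ∑ n ∈ Finset.range n0, (2:ℝ) ^ n ≤ 2 ^ n0 := by
          rw [geom_sum_eq (by norm_num)]
          norm_num
        calc _ ≤ ∑ n ∈ Finset.range n0, (2 * K * ((n0:ℝ) + 1) ^ (d - 1)) * 2 ^ n :=
              Finset.sum_le_sum h2
          _ = (2 * K * ((n0:ℝ) + 1) ^ (d - 1)) * ∑ n ∈ Finset.range n0, (2:ℝ) ^ n := by
              rw [Finset.mul_sum]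
          _ ≤ (2 * K * ((n0:ℝ) + 1) ^ (d - 1)) * 2 ^ n0 := by gcongr
          _ ≤ m / 4 := by linarith
      have h4 : (∑ n ∈ Finset.Ico μs (μs + L), (M n : ℝ)) ≤ m / 4 := by
        rw [hIco, Finset.sum_image hinj]
        have h5 : ∑ j ∈ Finset.range L, (t ^ 2) ^ j ≤ B / 4 := by
          have h6 : (∑ j ∈ Finset.range L, (t ^ 2) ^ j) * (1 - t ^ 2) = 1 - (t ^ 2) ^ L :=
            geom_sum_mul_neg (t ^ 2) L
          have h7 : 0 ≤ (t ^ 2) ^ L := by positivity
          have h8 : 0 ≤ ∑ j ∈ Finset.range L, (t ^ 2) ^ j := Finset.sum_nonneg (fun j _ => by positivity)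
          have h9 : 0 < 1 - t ^ 2 := by linarith
          refine le_of_mul_le_mul_right (a := 1 - t ^ 2) ?_ h9
          rw [h6]; linarith
        calc ∑ j ∈ Finset.range L, (M (μs + j) : ℝ) ≤ ∑ j ∈ Finset.range L, ((m:ℝ) / B) * (t ^ 2) ^ j := by
              apply Finset.sum_le_sum
              intro j hj
              refine (hMup j (Finset.mem_range.1 hj)).trans (le_of_eq ?_)
              rw [← pow_mul]; ring
          _ = ((m:ℝ) / B) * ∑ j ∈ Finset.range L, (t ^ 2) ^ j := by rw [Finset.mul_sum]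
          _ ≤ ((m:ℝ) / B) * (B / 4) := by gcongr
          _ = m / 4 := by field_simp
      have h8 : (((m / 4 : ℕ) : ℝ)) ≤ m / 4 := Nat.cast_div_le
      have h9 : (((∑ n ∈ Finset.range n0, 2 * (layer d n).card) + m / 4 +
          ∑ n ∈ Finset.Ico μs (μs + L), M n : ℕ) : ℝ) ≤ (m : ℝ) := by
        rw [Nat.cast_add, Nat.cast_add]
        push_cast
        have : ((m / 4 : ℕ) : ℝ) ≤ m / 4 := h8
        push_cast at this
        linarith
      exact_mod_cast h9
    · obtain ⟨X, hX⟩ : ∃ X : ℝ, X = Real.sqrt (((n0:ℝ) + 1) ^ d * l / m) := ⟨_, rfl⟩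
      have hX0 : 0 ≤ X := by rw [hX]; positivity
      obtain ⟨Q, hQ⟩ : ∃ Q : ℝ, Q = Real.sqrt (2 * B * K / m * ((μs:ℝ) + 1) ^ d) := ⟨_, rfl⟩
      have hQ0 : 0 ≤ Q := by rw [hQ]; positivity
      have hQX : Q ≤ Real.sqrt (2 * B * K * D ^ d) * X := by
        rw [hQ, hX, ← Real.sqrt_mul (by positivity)]
        apply Real.sqrt_le_sqrt
        calc 2 * B * K / m * ((μs:ℝ) + 1) ^ d ≤ 2 * B * K / m * (D * ((n0:ℝ) + 1)) ^ d := by gcongr
          _ = 2 * B * K * D ^ d * (((n0:ℝ) + 1) ^ d * 1 / m) := by rw [mul_pow]; ring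
          _ ≤ _ := by gcongr
      -- first term
      have hfirst : Real.sqrt (((μs:ℝ)+1) * (∑ n ∈ Finset.Ico n0 μs, (2:ℝ)^(-(n:ℝ)) *
          (layer d n).card) / ((m / 4 : ℕ) : ℝ)) ≤ Real.sqrt (16 * K * d * D ^ d) * X := by
        rw [hX, ← Real.sqrt_mul (by positivity)]
        apply Real.sqrt_le_sqrt
        have h1 : (∑ n ∈ Finset.Ico n0 μs, (2:ℝ)^(-(n:ℝ)) * (layer d n).card) ≤
            (2 * d * l) * (K * ((μs:ℝ) + 1) ^ (d - 1)) := by
          have h2 : ∀ n ∈ Finset.Ico n0 μs, (2:ℝ)^(-(n:ℝ)) * (layer d n).card ≤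
              K * ((μs:ℝ) + 1) ^ (d - 1) := by
            intro n hn
            have hn' : (n:ℝ) ≤ μs := by exact_mod_cast (Finset.mem_Ico.1 hn).2.le
            rw [Real.rpow_neg (by norm_num), Real.rpow_natCast, inv_mul_le_iff₀ (by positivity)]
            calc ((layer d n).card : ℝ) ≤ K * 2 ^ n * ((n:ℝ) + 1) ^ (d - 1) := hcard n
              _ ≤ K * 2 ^ n * ((μs:ℝ) + 1) ^ (d - 1) := by gcongr
              _ = _ := by ring
          have h3 := Finset.sum_le_sum h2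
          rw [Finset.sum_const, Nat.card_Ico, nsmul_eq_mul] at h3
          have h4 : μs - n0 = 2 * d * l := by omega
          rw [h4] at h3
          push_cast at h3
          exact h3
        have e1 : ((μs:ℝ) + 1) ^ d = ((μs:ℝ) + 1) * ((μs:ℝ) + 1) ^ (d - 1) := by
          rw [← pow_succ']; congr 1; omega
        rw [div_le_iff₀ hMs0]
        calc ((μs:ℝ)+1) * (∑ n ∈ Finset.Ico n0 μs, (2:ℝ)^(-(n:ℝ)) * (layer d n).card)
            ≤ ((μs:ℝ)+1) * ((2 * d * l) * (K * ((μs:ℝ) + 1) ^ (d - 1))) := by gcongr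
          _ = (2 * d * l * K) * ((μs:ℝ) + 1) ^ d := by rw [e1]; ring
          _ ≤ (2 * d * l * K) * (D * ((n0:ℝ) + 1)) ^ d := by gcongr
          _ = 16 * K * d * D ^ d * (((n0:ℝ) + 1) ^ d * l / m) * (m / 8) := by
              rw [mul_pow]; field_simp; ring
          _ ≤ _ := by gcongr
      -- the sum
      have hsum : (∑ n ∈ Finset.Ico μs (μs + L), (2:ℝ)^(-((1/2:ℝ) * n)) *
          (2:ℝ)^(-(β * ((n - μs : ℕ) : ℝ))) * Real.sqrt (((n:ℝ)+1) * (layer d n).card / M n)) ≤ Q * G := by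
        rw [hIco, Finset.sum_image hinj]
        have h1 : ∀ j ∈ Finset.range L, (2:ℝ)^(-((1/2:ℝ) * ((μs + j : ℕ) : ℝ))) *
            (2:ℝ)^(-(β * ((μs + j - μs : ℕ) : ℝ))) *
            Real.sqrt ((((μs + j : ℕ):ℝ)+1) * (layer d (μs + j)).card / M (μs + j)) ≤ Q * g j := by
          intro j hj
          have hj' := Finset.mem_range.1 hj
          have hMp : (0:ℝ) < M (μs + j) := by exact_mod_cast hM1 (μs + j)
          have h2 := numub_B K (μs + j) (d - 1) _ _ hMp (hcard (μs + j))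
          have e1 : d - 1 + 1 = d := by omega
          rw [e1] at h2
          have htp : 0 < t ^ j := by positivity
          have h3 : Real.sqrt (K * (((μs + j : ℕ):ℝ) + 1) ^ d / M (μs + j)) ≤
              Q * ((j:ℝ) + 1) ^ d * (t ^ j)⁻¹ := by
            have h4 : K * (((μs + j : ℕ):ℝ) + 1) ^ d / M (μs + j) ≤
                (2 * B * K / m * (((μs + j : ℕ):ℝ) + 1) ^ d) * ((t ^ j)⁻¹) ^ 2 := by
              rw [div_le_iff₀ hMp]
              have h5 := hMlo j hj'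
              have h6 : (0:ℝ) < m * t ^ (2 * j) / (2 * B) := by positivity
              calc K * (((μs + j : ℕ):ℝ) + 1) ^ d
                  = (2 * B * K / m * (((μs + j : ℕ):ℝ) + 1) ^ d) * ((t ^ j)⁻¹) ^ 2 *
                    (m * t ^ (2 * j) / (2 * B)) := by
                    rw [show t ^ (2 * j) = (t ^ j) ^ 2 by rw [← pow_mul]; congr 1; ring]
                    field_simp
                _ ≤ _ := by gcongr
            calc Real.sqrt (K * (((μs + j : ℕ):ℝ) + 1) ^ d / M (μs + j))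
                ≤ Real.sqrt ((2 * B * K / m * (((μs + j : ℕ):ℝ) + 1) ^ d) * ((t ^ j)⁻¹) ^ 2) :=
                  Real.sqrt_le_sqrt h4
              _ = Real.sqrt (2 * B * K / m * (((μs + j : ℕ):ℝ) + 1) ^ d) * (t ^ j)⁻¹ := by
                  rw [Real.sqrt_mul (by positivity), Real.sqrt_sq (by positivity)]
              _ ≤ _ := by
                  rw [hQ]
                  have := hsq (2 * B * K / m) μs j d (by positivity) le_rfl
                  gcongr
          rw [Nat.add_sub_cancel_left, htj]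
          calc (2:ℝ)^(-((1/2:ℝ) * ((μs + j : ℕ) : ℝ))) * t ^ (2 * j) *
              Real.sqrt ((((μs + j : ℕ):ℝ)+1) * (layer d (μs + j)).card / M (μs + j))
              = ((2:ℝ)^(-((1/2:ℝ) * ((μs + j : ℕ) : ℝ))) *
              Real.sqrt ((((μs + j : ℕ):ℝ)+1) * (layer d (μs + j)).card / M (μs + j))) * t ^ (2 * j) := by
                ring
            _ ≤ (Q * ((j:ℝ) + 1) ^ d * (t ^ j)⁻¹) * t ^ (2 * j) := by
                have := h2.trans h3
                gcongr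
            _ = _ := by
                rw [show t ^ (2 * j) = t ^ j * t ^ j by rw [← pow_add]; congr 1; ring, hg]
                field_simp
        calc _ ≤ ∑ j ∈ Finset.range L, Q * g j := Finset.sum_le_sum h1
          _ = Q * ∑ j ∈ Finset.range L, g j := by rw [Finset.mul_sum]
          _ ≤ Q * G := by
              rw [hG]
              gcongr
              exact hgs.sum_le_tsum _ (fun j _ => hg0 j)
      -- the tail
      have htL : t ^ L ≤ Real.sqrt (B / m) := by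
        rw [Real.le_sqrt (by positivity) (by positivity)]
        rw [div_lt_one hB0] at hL1
        rw [le_div_iff₀ hm0, ← pow_mul, mul_comm L 2]
        linarith
      have htail : ∑' n : ℕ, (2:ℝ)^(-((1/2:ℝ) * ((n + (μs + L) : ℕ) : ℝ))) *
          (2:ℝ)^(-(β * ((n + (μs + L) - μs : ℕ) : ℝ))) *
          Real.sqrt (layer d (n + (μs + L))).card ≤ Q * G := by
        have h1 : ∀ i : ℕ, (2:ℝ)^(-((1/2:ℝ) * ((i + (μs + L) : ℕ) : ℝ))) *
            (2:ℝ)^(-(β * ((i + (μs + L) - μs : ℕ) : ℝ))) *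
            Real.sqrt (layer d (i + (μs + L))).card ≤ Q * g (i + L) := by
          intro i
          have h2 := numub_A K (i + (μs + L)) (d - 1) _ (hcard (i + (μs + L)))
          have h3 := hsq K μs (i + L) (d - 1) hK0.le (by omega)
          rw [show μs + (i + L) = i + (μs + L) by ring] at h3
          rw [show i + (μs + L) - μs = i + L by omega, htj]
          have h4 : t ^ (2 * (i + L)) ≤ t ^ (i + L) * Real.sqrt (B / m) := by
            calc t ^ (2 * (i + L)) = t ^ (i + L) * (t ^ i * t ^ L) := by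
                  rw [← pow_add, ← pow_add]; congr 1; ring
              _ ≤ t ^ (i + L) * (1 * Real.sqrt (B / m)) := by
                  have := pow_le_one₀ (n := i) ht0.le ht1.le
                  gcongr
              _ = _ := by ring
          have h5 : Real.sqrt (K * ((μs:ℝ) + 1) ^ d) * Real.sqrt (B / m) ≤ Q := by
            rw [hQ, ← Real.sqrt_mul (by positivity)]
            apply Real.sqrt_le_sqrt
            have : 0 ≤ B * K / m * ((μs:ℝ) + 1) ^ d := by positivity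
            calc K * ((μs:ℝ) + 1) ^ d * (B / m) = B * K / m * ((μs:ℝ) + 1) ^ d := by ring
              _ ≤ B * K / m * ((μs:ℝ) + 1) ^ d + B * K / m * ((μs:ℝ) + 1) ^ d := by linarith
              _ = _ := by ring
          calc (2:ℝ)^(-((1/2:ℝ) * ((i + (μs + L) : ℕ) : ℝ))) * t ^ (2 * (i + L)) *
              Real.sqrt (layer d (i + (μs + L))).card
              = ((2:ℝ)^(-((1/2:ℝ) * ((i + (μs + L) : ℕ) : ℝ))) *
              Real.sqrt (layer d (i + (μs + L))).card) * t ^ (2 * (i + L)) := by ring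
            _ ≤ (Real.sqrt (K * ((μs:ℝ) + 1) ^ d) * (((i + L : ℕ):ℝ) + 1) ^ d) *
                (t ^ (i + L) * Real.sqrt (B / m)) := by
                apply mul_le_mul (h2.trans h3) h4 (by positivity) (by positivity)
            _ = (Real.sqrt (K * ((μs:ℝ) + 1) ^ d) * Real.sqrt (B / m)) *
                ((((i + L : ℕ):ℝ) + 1) ^ d * t ^ (i + L)) := by ring
            _ ≤ Q * ((((i + L : ℕ):ℝ) + 1) ^ d * t ^ (i + L)) := by gcongr
            _ = _ := by rw [hg]
        have hgs' := (summable_nat_add_iff L).2 hgs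
        have h4 : ∑' i : ℕ, g (i + L) ≤ G := by
          rw [hG, ← hgs.sum_add_tsum_nat_add L]
          have : 0 ≤ ∑ i ∈ Finset.range L, g i := Finset.sum_nonneg (fun i _ => hg0 i)
          linarith
        have hs' := (summable_nat_add_iff (μs + L)).2 (hsumm0 μs)
        calc _ ≤ ∑' i : ℕ, Q * g (i + L) := hs'.tsum_le_tsum h1 (hgs'.mul_left _)
          _ = Q * ∑' i : ℕ, g (i + L) := tsum_mul_left
          _ ≤ Q * G := by gcongr
      -- the last term
      have hlast : ((μs:ℝ)+1)^(d-1) * (2:ℝ)^(-((1/2:ℝ) * μs)) ≤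
          Real.sqrt (16 * K * 2 ^ d * D ^ (2 * d)) * X := by
        rw [hX, ← Real.sqrt_mul (by positivity)]
        apply Real.le_sqrt_of_sq_le
        have e1 : ((2:ℝ)^(-((1/2:ℝ) * μs))) ^ 2 = ((2:ℝ) ^ μs)⁻¹ := by
          rw [← Real.rpow_natCast, ← Real.rpow_mul (by norm_num), ← Real.rpow_natCast 2 μs,
            ← Real.rpow_neg (by norm_num)]
          congr 1; push_cast; ring
        rw [mul_pow, e1, hμs, pow_add]
        rw [← hμs]
        have h1 : ((n0:ℝ) + 1) ^ (2 * d) ≤ (2:ℝ) ^ (2 * d * l) := by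
          have : ((n0:ℝ) + 1) ≤ (2:ℝ) ^ l := by exact_mod_cast hl1.le
          calc ((n0:ℝ) + 1) ^ (2 * d) ≤ ((2:ℝ) ^ l) ^ (2 * d) := by gcongr
            _ = _ := by rw [← pow_mul]; congr 1; ring
        have h2 : (m:ℝ) ≤ 16 * K * 2 ^ n0 * (2 ^ d * ((n0:ℝ) + 1) ^ d) := by
          refine hn0b.trans ?_
          have h3 : ((n0:ℝ) + 2) ^ (d - 1) ≤ (2 * ((n0:ℝ) + 1)) ^ d := by
            calc ((n0:ℝ) + 2) ^ (d - 1) ≤ (2 * ((n0:ℝ) + 1)) ^ (d - 1) := by
                  gcongr; linarith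
              _ ≤ _ := pow_le_pow_right₀ (by linarith) (by omega)
          rw [mul_pow] at h3
          calc 8 * K * 2 ^ (n0 + 1) * ((n0:ℝ) + 2) ^ (d - 1) = 16 * K * 2 ^ n0 * ((n0:ℝ) + 2) ^ (d - 1) := by
                rw [pow_succ]; ring
            _ ≤ _ := by gcongr
        have h4 : (((μs:ℝ) + 1) ^ (d - 1)) ^ 2 ≤ D ^ (2 * d) * ((n0:ℝ) + 1) ^ (2 * d) := by
          rw [← pow_mul, ← mul_pow]
          calc ((μs:ℝ) + 1) ^ ((d - 1) * 2) ≤ ((μs:ℝ) + 1) ^ (2 * d) :=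
                pow_le_pow_right₀ (by linarith [Nat.cast_nonneg (α := ℝ) μs]) (by omega)
            _ ≤ _ := by gcongr
        have h5 : (0:ℝ) < 2 ^ n0 * 2 ^ (2 * d * l) := by positivity
        rw [← div_eq_mul_inv, div_le_iff₀ h5]
        calc (((μs:ℝ) + 1) ^ (d - 1)) ^ 2 ≤ D ^ (2 * d) * ((n0:ℝ) + 1) ^ (2 * d) * 1 := by
              rw [mul_one]; exact h4
          _ ≤ D ^ (2 * d) * (2:ℝ) ^ (2 * d * l) * ((16 * K * 2 ^ n0 * (2 ^ d * ((n0:ℝ) + 1) ^ d)) / m) := by
              have h6 : 1 ≤ (16 * K * 2 ^ n0 * (2 ^ d * ((n0:ℝ) + 1) ^ d)) / m := by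
                rwa [le_div_iff₀ hm0, one_mul]
              gcongr
          _ = 16 * K * 2 ^ d * D ^ (2 * d) * (((n0:ℝ) + 1) ^ d * 1 / m) * (2 ^ n0 * 2 ^ (2 * d * l)) := by
              field_simp
          _ ≤ _ := by gcongr
      -- X against psiB
      have hXp : X ≤ 2 ^ (d + 2) * psiB d m := by
        have hn0l : (n0:ℝ) + 1 ≤ 2 * Real.log m := by
          have h2 : (2:ℝ) ^ (n0 + 3) ≤ m := by
            refine le_trans ?_ hn0a
            have h1 : (1:ℝ) ≤ ((n0:ℝ) + 1) ^ (d - 1) := one_le_pow₀ hn01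
            calc (2:ℝ) ^ (n0 + 3) = 8 * 1 * 2 ^ n0 * 1 := by rw [pow_add]; norm_num; ring
              _ ≤ _ := by gcongr
          have h3 : ((n0 + 3 : ℕ) : ℝ) * Real.log 2 ≤ Real.log m := by
            rw [← Real.log_pow]
            exact Real.log_le_log (by positivity) h2
          have h4 := Real.log_two_gt_d9
          push_cast at h3
          nlinarith
        have hlll : (l:ℝ) ≤ 4 * Real.log (Real.log m + 3) := by
          have h1 : (2:ℝ) ^ l ≤ 4 * (Real.log m + 3) := by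
            have h2 : (2:ℝ) ^ (l - 1) ≤ (n0:ℝ) + 1 := by exact_mod_cast hl2'
            have h3 : (2:ℝ) ^ l = 2 * (2:ℝ) ^ (l - 1) := by
              rw [← pow_succ']; congr 1; omega
            rw [h3]; linarith
          have h2 : (l:ℝ) * Real.log 2 ≤ Real.log (4 * (Real.log m + 3)) := by
            rw [← Real.log_pow]
            exact Real.log_le_log (by positivity) h1
          rw [Real.log_mul (by norm_num) (by linarith)] at h2
          have h3 : Real.log 4 = 2 * Real.log 2 := by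
            rw [show (4:ℝ) = 2 ^ 2 by norm_num, Real.log_pow]; norm_num
          have h4 := Real.log_two_gt_d9
          have h5 := Real.log_two_lt_d9
          rw [h3] at h2
          nlinarith
        rw [hX, hpsi, Real.sqrt_le_left (by positivity), mul_pow, Real.sq_sqrt (by positivity)]
        have h6 : (2:ℝ) ^ (d + 2) ≤ ((2:ℝ) ^ (d + 2)) ^ 2 := by
          have : (1:ℝ) ≤ 2 ^ (d + 2) := one_le_pow₀ (by norm_num)
          nlinarith
        calc ((n0:ℝ) + 1) ^ d * l / m ≤ (2 * Real.log m) ^ d * (4 * Real.log (Real.log m + 3)) / m := by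
              gcongr
          _ = 2 ^ (d + 2) * ((Real.log m) ^ d * Real.log (Real.log m + 3) / m) := by
              rw [mul_pow, pow_add]; ring
          _ ≤ _ := by gcongr
      calc _ ≤ Real.sqrt (16 * K * d * D ^ d) * X + Q * G + Q * G +
            Real.sqrt (16 * K * 2 ^ d * D ^ (2 * d)) * X := by
            have := add_le_add (add_le_add (add_le_add hfirst hsum) htail) hlast
            exact this
        _ ≤ Real.sqrt (16 * K * d * D ^ d) * X + 2 * G * (Real.sqrt (2 * B * K * D ^ d) * X) +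
            Real.sqrt (16 * K * 2 ^ d * D ^ (2 * d)) * X := by
            have : G * Q ≤ G * (Real.sqrt (2 * B * K * D ^ d) * X) := by gcongr
            linarith
        _ = (Real.sqrt (16 * K * d * D ^ d) +
      2 * G * Real.sqrt (2 * B * K * D ^ d) + Real.sqrt (16 * K * 2 ^ d * D ^ (2 * d))) * X := by ring
        _ ≤ (Real.sqrt (16 * K * d * D ^ d) +
      2 * G * Real.sqrt (2 * B * K * D ^ d) + Real.sqrt (16 * K * 2 ^ d * D ^ (2 * d))) *
            (2 ^ (d + 2) * psiB d m) := by gcongr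
        _ = CB * psiB d m := by rw [hCB]; ring
        _ ≤ _ := by
            apply mul_le_mul_of_nonneg_right _ hpsi0
            linarith

end SmSm
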