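import Pool.Agent.H636R2.SM.Spec
import Pool.Agent.KX.L_shp_upper

/-!
# PHIA: moments of the random function, one layer
-/

open MeasureTheory Real ProbabilityTheory
open scoped ENNReal BigOperators

namespace SmSm
open HypVol MWidth

theorem phia_wker {d : ℕ} (μ : ℕ) (r : ℝ) (α x : Fin d → ℝ) :
    wker {μ} (fun _ => (1:ℝ)) r α x = ker μ r α x := by
  simp [wker]

theorem phia_card (d m : ℕ) : (Fintype.card (GG d m) : ℝ) = ((2:ℝ)^(m+2))^d := by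
  simp [GG]

/-- the moments of order two -/
theorem phia_two (h2 : S_KSQ) (d : ℕ) (hd : 2 ≤ d) (r : ℝ) (hr : 0 ≤ r) (α : Fin d → ℝ) :
    ∃ B : ℝ, 0 ≤ B ∧ ∀ (μ m M : ℕ), 1 ≤ μ → μ ≤ m → (M:ℝ) * ((μ:ℝ)+1)^(d-1) ≤ 2^μ →
      ∀ x : Fin d → ℝ,
      (M:ℝ) * ∑ y : GG d m, (ker μ (-r) (-α) (x - gpt y) / (2:ℝ)^((1 + r) * μ))^2 ≤
        B * Fintype.card (GG d m) := by
  obtain ⟨C, hC, hcard⟩ := card_layer_le d (by omega)
  refine ⟨C, hC.le, fun μ m M hμ hμm hM x => ?_⟩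
  have hk := h2 d (by omega) {μ} (fun _ => (1:ℝ)) r hr α m (by simpa using hμm) x
  simp only [phia_wker, Finset.sum_singleton, one_pow, one_mul] at hk
  rw [phia_card]
  set G : ℝ := ((2:ℝ)^(m+2))^d with hG
  have hG0 : 0 ≤ G := by positivity
  have hden : ((2:ℝ)^((1 + r) * (μ:ℝ)))^2 = (2:ℝ)^(2 * r * (μ:ℝ)) * ((2:ℝ)^μ * (2:ℝ)^μ) := by
    rw [← Real.rpow_natCast 2 μ, ← Real.rpow_add (by norm_num), ← Real.rpow_add (by norm_num),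
      ← Real.rpow_natCast, ← Real.rpow_mul (by norm_num)]
    congr 1
    push_cast
    ring
  simp only [div_pow]
  rw [← Finset.sum_div, hden]
  have hr2 : 0 < (2:ℝ)^(2 * r * (μ:ℝ)) := by positivity
  have h2m : 0 < (2:ℝ)^μ := by positivity
  rw [mul_div_assoc', div_le_iff₀ (by positivity)]
  have hc := hcard μ
  calc (M:ℝ) * ∑ y : GG d m, (ker μ (-r) (-α) (x - gpt y))^2
      ≤ (M:ℝ) * (G * ((2:ℝ)^(2 * r * (μ:ℝ)) * (layer d μ).card)) :=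
        mul_le_mul_of_nonneg_left hk (by positivity)
    _ ≤ (M:ℝ) * (G * ((2:ℝ)^(2 * r * (μ:ℝ)) * (C * 2^μ * ((μ:ℝ)+1)^(d-1)))) := by
        gcongr
    _ = (C * G * (2:ℝ)^(2 * r * (μ:ℝ)) * 2^μ) * ((M:ℝ) * ((μ:ℝ)+1)^(d-1)) := by ring
    _ ≤ (C * G * (2:ℝ)^(2 * r * (μ:ℝ)) * 2^μ) * 2^μ :=
        mul_le_mul_of_nonneg_left hM (by positivity)
    _ = C * G * ((2:ℝ)^(2 * r * (μ:ℝ)) * ((2:ℝ)^μ * (2:ℝ)^μ)) := by ring

/-- the higher even moments -/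
theorem phia_high (h3 : S_EXA) (h4 : S_KMOM) (d : ℕ) (hd : 2 ≤ d) (r : ℝ) (hr : 0 ≤ r)
    (α : Fin d → ℝ) (i : ℕ) (hi : 2 ≤ i) :
    ∃ B : ℝ, 0 ≤ B ∧ ∀ (μ m M : ℕ), 1 ≤ μ → 2 * i * 2^μ ≤ 2^(m+2) → μ ≤ m →
      (M:ℝ) * ((μ:ℝ)+1)^(d-1) ≤ 2^μ → ∀ x : Fin d → ℝ,
      (M:ℝ) * ∑ y : GG d m, (ker μ (-r) (-α) (x - gpt y) / (2:ℝ)^((1 + r) * μ))^(2*i) ≤
        B * Fintype.card (GG d m) := by
  obtain ⟨C, hC, hmom⟩ := h4 d hd r hr α (2*i) (by omega)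
  refine ⟨C, hC.le, fun μ m M hμ hi2 hμm hM x => ?_⟩
  let x0 : GG d m := fun _ => ⟨0, by positivity⟩
  have hk := hmom μ m hμ hμm x0
  have he := h3 d (by omega) {μ} (fun _ => (1:ℝ)) (-r) (-α) μ m i (by simp) hi2 x (gpt x0)
  simp only [phia_wker] at he
  have habs : ∑ y : GG d m, |ker μ (-r) (-α) (gpt x0 - gpt y)|^(2*i) =
      ∑ y : GG d m, (ker μ (-r) (-α) (gpt x0 - gpt y))^(2*i) := by
    refine Finset.sum_congr rfl fun y _ => ?_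
    rw [pow_mul, pow_mul, sq_abs]
  rw [habs, ← he] at hk
  rw [phia_card]
  set G : ℝ := ((2:ℝ)^(m+2))^d with hG
  have hG0 : 0 ≤ G := by positivity
  have hden : ((2:ℝ)^((1 + r) * (μ:ℝ)))^(2*i) =
      ((2:ℝ)^(r * (μ:ℝ)))^(2*i) * ((2:ℝ)^((2*i-1)*μ) * (2:ℝ)^μ) := by
    have e1 : (1 + r) * (μ:ℝ) = r * (μ:ℝ) + (μ:ℝ) := by ring
    rw [e1, Real.rpow_add (by norm_num), mul_pow, Real.rpow_natCast]
    congr 1
    rw [← pow_mul, ← pow_add]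
    congr 1
    obtain ⟨k, hk⟩ : ∃ k, 2 * i = k + 1 := ⟨2 * i - 1, by omega⟩
    rw [hk, Nat.add_sub_cancel]
    ring
  simp only [div_pow]
  rw [← Finset.sum_div, hden]
  have h2m : 0 < (2:ℝ)^μ := by positivity
  rw [mul_div_assoc', div_le_iff₀ (by positivity)]
  calc (M:ℝ) * ∑ y : GG d m, (ker μ (-r) (-α) (x - gpt y))^(2*i)
      ≤ (M:ℝ) * (C * G * ((2:ℝ)^(r * (μ:ℝ)))^(2*i) * (2:ℝ)^((2*i-1)*μ) * ((μ:ℝ)+1)^(d-1)) :=
        mul_le_mul_of_nonneg_left hk (by positivity)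
    _ = (C * G * ((2:ℝ)^(r * (μ:ℝ)))^(2*i) * (2:ℝ)^((2*i-1)*μ)) *
          ((M:ℝ) * ((μ:ℝ)+1)^(d-1)) := by ring
    _ ≤ (C * G * ((2:ℝ)^(r * (μ:ℝ)))^(2*i) * (2:ℝ)^((2*i-1)*μ)) * 2^μ :=
        mul_le_mul_of_nonneg_left hM (by positivity)
    _ = C * G * (((2:ℝ)^(r * (μ:ℝ)))^(2*i) * ((2:ℝ)^((2*i-1)*μ) * (2:ℝ)^μ)) := by ring

theorem phia (h1 : S_KMEAN) (h2 : S_KSQ) (h3 : S_EXA) (h4 : S_KMOM) (h5 : S_MOM) : S_PHIA := by
  intro d hd r hr α j hj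
  obtain ⟨B1, hB1, hb1⟩ := phia_two h2 d hd r hr α
  have hex : ∀ i : ℕ, ∃ B : ℝ, 0 ≤ B ∧ (2 ≤ i → ∀ (μ m M : ℕ), 1 ≤ μ → 2 * i * 2^μ ≤ 2^(m+2) →
      μ ≤ m → (M:ℝ) * ((μ:ℝ)+1)^(d-1) ≤ 2^μ → ∀ x : Fin d → ℝ,
      (M:ℝ) * ∑ y : GG d m, (ker μ (-r) (-α) (x - gpt y) / (2:ℝ)^((1 + r) * μ))^(2*i) ≤
        B * Fintype.card (GG d m)) := by
    intro i
    by_cases hi : 2 ≤ i
    · obtain ⟨B, hB, hb⟩ := phia_high h3 h4 d hd r hr α i hi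
      exact ⟨B, hB, fun _ => hb⟩
    · exact ⟨0, le_rfl, fun h => absurd h hi⟩
  choose Bf hBf hbf using hex
  set B : ℝ := B1 + ∑ i ∈ Finset.range (j+1), Bf i with hBdef
  have hBsum : 0 ≤ ∑ i ∈ Finset.range (j+1), Bf i := Finset.sum_nonneg fun i _ => hBf i
  have hB0 : 0 ≤ B := by positivity
  obtain ⟨C, hC, hmom⟩ := h5 j B hB0
  refine ⟨C, hC, fun μ m M hμ hj2 hμm hM x => ?_⟩
  haveI : Nonempty (GG d m) := ⟨fun _ => ⟨0, by positivity⟩⟩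
  set D : ℝ := (2:ℝ)^((1 + r) * (μ:ℝ)) with hD
  have hD0 : 0 < D := by positivity
  have hkey := hmom (GG d m) (fun y => ker μ (-r) (-α) (x - gpt y) / D) M ?_ ?_
  · have e : ∀ X : Fin M → GG d m, (∑ i, ker μ (-r) (-α) (x - gpt (X i)))^(2*j) =
        (∑ i, ker μ (-r) (-α) (x - gpt (X i)) / D)^(2*j) * D^(2*j) := by
      intro X
      rw [← mul_pow, Finset.sum_mul]
      congr 1
      refine Finset.sum_congr rfl fun i _ => ?_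
      rw [div_mul_cancel₀ _ hD0.ne']
    simp only [e]
    rw [← Finset.sum_mul]
    exact mul_le_mul_of_nonneg_right hkey (by positivity)
  · rw [← Finset.sum_div]
    have := h1 d (by omega) {μ} (fun _ => (1:ℝ)) (-r) (-α) m (by simpa using ⟨hμ, hμm⟩) x
    simp only [phia_wker] at this
    rw [this, zero_div]
  · intro i hi hij
    have hcard : (0:ℝ) ≤ Fintype.card (GG d m) := by positivity
    rcases Nat.lt_or_ge i 2 with hlt | hge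
    · have hi1 : i = 1 := by omega
      subst hi1
      refine (hb1 μ m M hμ hμm hM x).trans ?_
      exact mul_le_mul_of_nonneg_right (by rw [hBdef]; linarith) hcard
    · have h2i : 2 * i * 2^μ ≤ 2^(m+2) :=
        (Nat.mul_le_mul_right _ (Nat.mul_le_mul_left 2 hij)).trans hj2
      refine (hbf i hge μ m M hμ h2i hμm hM x).trans ?_
      refine mul_le_mul_of_nonneg_right ?_ hcard
      have := Finset.single_le_sum (f := Bf) (fun i _ => hBf i)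
        (Finset.mem_range.2 (show i < j + 1 by omega))
      rw [hBdef]; linarith

end SmSm
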