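import Pool.Agent.H636R2.SM.Spec
import Pool.Agent.KX.L_shp_upper
open MeasureTheory Real ProbabilityTheory
open scoped ENNReal BigOperators

namespace SmSm
open HypVol MWidth

/-- power mean inequality -/
theorem phib_pow (J : Finset ℕ) (v : ℕ → ℝ) (q : ℕ) (L : ℝ) (hL : (J.card : ℝ) ≤ L) :
    |∑ μ ∈ J, v μ|^(q+1) ≤ L^q * ∑ μ ∈ J, |v μ|^(q+1) := by
  have h0 : |∑ μ ∈ J, v μ| ≤ ∑ μ ∈ J, |v μ| := Finset.abs_sum_le_sum_abs _ _
  have h1 : |∑ μ ∈ J, v μ|^(q+1) ≤ (∑ μ ∈ J, |v μ|)^(q+1) :=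
    pow_le_pow_left₀ (abs_nonneg _) h0 _
  have h2 : (∑ μ ∈ J, |v μ|)^(q+1) ≤ (J.card : ℝ)^q * ∑ μ ∈ J, |v μ|^(q+1) := by
    rcases J.eq_empty_or_nonempty with rfl | hne
    · simp
    · have hc : (0:ℝ) < (J.card : ℝ)^q := by
        have : 0 < J.card := Finset.card_pos.2 hne
        positivity
      have := pow_sum_div_card_le_sum_pow (s := J) (f := fun μ => |v μ|) (fun i _ => abs_nonneg _) q
      rw [div_le_iff₀ hc] at this
      linarith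
  have h3 : (J.card : ℝ)^q ≤ L^q := pow_le_pow_left₀ (by positivity) hL _
  have h4 : 0 ≤ ∑ μ ∈ J, |v μ|^(q+1) := Finset.sum_nonneg fun i _ => by positivity
  calc |∑ μ ∈ J, v μ|^(q+1) ≤ (J.card : ℝ)^q * ∑ μ ∈ J, |v μ|^(q+1) := h1.trans h2
    _ ≤ L^q * ∑ μ ∈ J, |v μ|^(q+1) := mul_le_mul_of_nonneg_right h3 h4

theorem phib_wB (μ : ℕ) : wB μ = ((2:ℝ)^μ)⁻¹ := by
  unfold wB
  rw [Real.rpow_neg (by norm_num), Real.rpow_natCast]

theorem phib_half (μ e : ℕ) : ((2:ℝ)^((1/2:ℝ) * (μ:ℝ)))^(2*e) = ((2:ℝ)^μ)^e := by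
  rw [pow_mul]
  congr 1
  rw [← Real.rpow_natCast, ← Real.rpow_mul (by norm_num)]
  rw [← Real.rpow_natCast]
  congr 1
  push_cast
  ring

/-- exponents -/
theorem phib_exp (μ e : ℕ) : (wB μ)^(2*(e+1)) * (((2:ℝ)^((1/2:ℝ) * (μ:ℝ)))^(2*(e+1)) *
    (2:ℝ)^((2*(e+1)-1)*μ)) = ((2:ℝ)^μ)^e := by
  rw [phib_wB, phib_half]
  have e1 : (2:ℝ)^((2*(e+1)-1)*μ) = ((2:ℝ)^μ)^(2*e+1) := by
    rw [← pow_mul]
    congr 1
    rw [mul_comm]
    congr 1
  rw [e1]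
  have hb : (0:ℝ) < (2:ℝ)^μ := by positivity
  generalize (2:ℝ)^μ = b at *
  rw [inv_pow, show 2*(e+1) = (e+1) + (e + 1) by ring, show 2*e+1 = e + (e+1) by ring]
  rw [pow_add b (e+1) (e+1), pow_add b e (e+1)]
  have : b^(e+1) ≠ 0 := by positivity
  field_simp

theorem phib_nat {n L e f : ℕ} (hn : 1 ≤ n) (hL : L ≤ n) (he : 1 ≤ e) :
    L^(e+1) * n^e ≤ n^((f+1)*e) * n^((f+2)*e) := by
  calc L^(e+1) * n^e ≤ n^(e+1) * n^e := Nat.mul_le_mul_right _ (Nat.pow_le_pow_left hL _)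
    _ = n^((e+1)+e) := (pow_add _ _ _).symm
    _ ≤ n^((f+1)*e + (f+2)*e) := Nat.pow_le_pow_right hn (by nlinarith)
    _ = n^((f+1)*e) * n^((f+2)*e) := pow_add _ _ _

/-- the final comparison -/
theorem phib_cmp {n L e f : ℕ} (hn : 1 ≤ n) (hL : L ≤ n) (hL1 : 1 ≤ L) (he : 1 ≤ e) :
    ((2^n * n^(f+1) : ℕ) : ℝ) * ((L:ℝ)^(2*(e+1)) * ((2:ℝ)^n * n)^e * (n:ℝ)^(f+2)) ≤
      (((2^n * n^(f+1) : ℕ) : ℝ) * L * (n:ℝ)^(f+2))^(e+1) := by
  have h1 : ((L^(e+1) * n^e : ℕ) : ℝ) ≤ ((n^((f+1)*e) * n^((f+2)*e) : ℕ) : ℝ) := by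
    exact_mod_cast phib_nat hn hL he
  push_cast at h1 ⊢
  have hn' : (0:ℝ) < n := by exact_mod_cast hn
  have hL' : (0:ℝ) < L := by exact_mod_cast hL1
  have e1 : (2:ℝ)^n * (n:ℝ)^(f+1) * ((L:ℝ)^(2*(e+1)) * ((2:ℝ)^n * n)^e * (n:ℝ)^(f+2)) =
      ((2:ℝ)^n * (n:ℝ)^(f+1) * (L:ℝ)^(e+1) * (n:ℝ)^(f+2) * ((2:ℝ)^n)^e) * ((L:ℝ)^(e+1) * (n:ℝ)^e) := by
    rw [show 2*(e+1) = (e+1) + (e+1) by ring, pow_add (L:ℝ), mul_pow ((2:ℝ)^n)]
    ring
  have e2 : ((2:ℝ)^n * (n:ℝ)^(f+1) * L * (n:ℝ)^(f+2))^(e+1) =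
      ((2:ℝ)^n * (n:ℝ)^(f+1) * (L:ℝ)^(e+1) * (n:ℝ)^(f+2) * ((2:ℝ)^n)^e) *
        ((n:ℝ)^((f+1)*e) * (n:ℝ)^((f+2)*e)) := by
    rw [pow_mul (n:ℝ) (f+1) e, pow_mul (n:ℝ) (f+2) e, mul_pow, mul_pow, mul_pow,
      pow_succ ((2:ℝ)^n) e, pow_succ ((n:ℝ)^(f+1)) e, pow_succ ((n:ℝ)^(f+2)) e]
    ring
  rw [e1, e2]
  exact mul_le_mul_of_nonneg_left h1 (by positivity)

theorem phib (h1 : S_KMEAN) (h2 : S_KSQ) (h3 : S_EXA) (h4 : S_KMOM) (h5 : S_MOM) : S_PHIB := by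
  intro d hd α j hj
  obtain ⟨f, rfl⟩ : ∃ f, d = f + 3 := ⟨d - 3, by omega⟩
  obtain ⟨C1, hC1, hlay⟩ := HypVol.card_layer_le (f+3) (by omega)
  have h4' : ∀ i : ℕ, ∃ C : ℝ, 0 < C ∧ (2 ≤ i → ∀ (μ m : ℕ), 1 ≤ μ → μ ≤ m → ∀ x : GG (f+3) m,
      ∑ y : GG (f+3) m, |ker μ (-(1/2)) (-α) (gpt x - gpt y)|^(2*i) ≤
      C * ((2:ℝ)^(m+2))^(f+3) * ((2:ℝ)^((1/2:ℝ) * μ))^(2*i) * (2:ℝ)^((2*i-1)*μ) *
        ((μ:ℝ)+1)^(f+2)) := by
    intro i
    by_cases hi : 2 ≤ i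
    · obtain ⟨C, hC, hh⟩ := h4 (f+3) (by omega) (1/2) (by norm_num) α (2*i) (by omega)
      exact ⟨C, hC, fun _ => hh⟩
    · exact ⟨1, one_pos, fun h => absurd h hi⟩
  choose Ck hCk hkm using h4'
  have hsum0 : 0 ≤ ∑ i ∈ Finset.range (j+1), Ck i := Finset.sum_nonneg fun i _ => (hCk i).le
  set B : ℝ := 2^(f+2) * (C1 + ∑ i ∈ Finset.range (j+1), Ck i) with hB
  have hB0 : 0 ≤ B := by positivity
  obtain ⟨C, hC, hmom⟩ := h5 j B hB0
  refine ⟨C, hC, fun n m hn hm1 hm2 x => ?_⟩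
  set L := Nat.log 2 n with hL
  have hL1 : 1 ≤ L := Nat.log_pos (by norm_num) hn
  have hLn : L ≤ n := Nat.log_le_self 2 n
  have h2L : 2^L ≤ n := Nat.pow_log_le_self 2 (by omega)
  set M := MB (f+3) n with hM
  have hMe : M = 2^n * n^(f+1) := rfl
  have hn0 : (0:ℝ) < n := by
    have : 0 < n := by omega
    exact_mod_cast this
  have hL0 : (0:ℝ) < L := by
    have : 0 < L := by omega
    exact_mod_cast this
  have hM0 : (0:ℝ) < M := by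
    have : 0 < M := by rw [hMe]; positivity
    exact_mod_cast this
  set V : ℝ := (M:ℝ) * L * (n:ℝ)^(f+2) with hV
  have hV0 : 0 < V := by positivity
  set s := Real.sqrt V with hsdef
  have hs : s^2 = V := Real.sq_sqrt hV0.le
  set N : ℝ := ((2:ℝ)^(m+2))^(f+3) with hNdef
  have hN0 : 0 < N := by positivity
  have hN : (Fintype.card (GG (f+3) m) : ℝ) = N := by
    rw [Fintype.card_fun, Fintype.card_fin, Fintype.card_fin]
    push_cast
    rfl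
  set W : GG (f+3) m → ℝ := fun g => wker (JB n) wB (-(1/2)) (-α) (x - gpt g) with hW
  have hcard : (JB n).card = L := by simp [JB, hL]
  have hJ : ∀ μ ∈ JB n, n ≤ μ ∧ μ < n + L := by
    intro μ hμ
    simpa [JB, hL] using hμ
  have hJ1 : ∀ μ ∈ JB n, ((μ:ℝ)+1)^(f+2) ≤ 2^(f+2) * (n:ℝ)^(f+2) := by
    intro μ hμ
    have : μ + 1 ≤ 2 * n := by have := hJ μ hμ; omega
    rw [← mul_pow]
    apply pow_le_pow_left₀ (by positivity)
    exact_mod_cast this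
  have hJ2 : ∀ μ ∈ JB n, (2:ℝ)^μ ≤ 2^n * n := by
    intro μ hμ
    have h : 2^μ ≤ 2^n * n := by
      calc 2^μ ≤ 2^(n+L) := Nat.pow_le_pow_right (by norm_num) (hJ μ hμ).2.le
        _ = 2^n * 2^L := pow_add _ _ _
        _ ≤ 2^n * n := Nat.mul_le_mul_left _ h2L
    exact_mod_cast h
  have key := hmom (GG (f+3) m) (fun g => W g / s) M ?_ ?_
  · -- conclusion
    have e : ∀ X : Fin M → GG (f+3) m, (∑ i, W (X i) / s)^(2*j) = (∑ i, W (X i))^(2*j) / V^j := by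
      intro X
      rw [← Finset.sum_div, div_pow, pow_mul s, hs]
    simp only [e] at key
    rw [← Finset.sum_div, div_le_iff₀ (by positivity)] at key
    exact key
  · -- mean zero
    rw [← Finset.sum_div]
    have := h1 (f+3) (by omega) (JB n) wB (-(1/2)) (-α) m (fun μ hμ => by
      have := hJ μ hμ; omega) x
    rw [hW, this, zero_div]
  · intro i hi1 hij
    have e : ∑ g, (W g / s)^(2*i) = (∑ g, (W g)^(2*i)) / V^i := by
      rw [Finset.sum_div]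
      refine Finset.sum_congr rfl fun g _ => ?_
      rw [div_pow, pow_mul s, hs]
    show (M:ℝ) * ∑ g, (W g / s)^(2*i) ≤ B * (Fintype.card (GG (f+3) m) : ℝ)
    rw [e, hN]
    rcases Nat.lt_or_ge i 2 with hi2 | hi2
    · obtain rfl : i = 1 := by omega
      have hk := h2 (f+3) (by omega) (JB n) wB (1/2) (by norm_num) α m (fun μ hμ => by
        have := hJ μ hμ; omega) x
      have hterm : ∑ μ ∈ JB n, (wB μ)^2 * (2:ℝ)^(2 * (1/2:ℝ) * (μ:ℝ)) * ((layer (f+3) μ).card : ℝ) ≤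
          ∑ μ ∈ JB n, C1 * (2^(f+2) * (n:ℝ)^(f+2)) := by
        refine Finset.sum_le_sum fun μ hμ => ?_
        have hb : (0:ℝ) < (2:ℝ)^μ := by positivity
        have e1 : (2:ℝ)^(2 * (1/2:ℝ) * (μ:ℝ)) = (2:ℝ)^μ := by
          rw [show (2 * (1/2:ℝ) * (μ:ℝ)) = (μ:ℝ) by ring, Real.rpow_natCast]
        rw [e1, phib_wB]
        have e2 : (((2:ℝ)^μ)⁻¹)^2 * (2:ℝ)^μ = ((2:ℝ)^μ)⁻¹ := by
          field_simp
        rw [e2]
        calc ((2:ℝ)^μ)⁻¹ * ((layer (f+3) μ).card : ℝ)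
            ≤ ((2:ℝ)^μ)⁻¹ * (C1 * 2^μ * ((μ:ℝ)+1)^(f+2)) :=
              mul_le_mul_of_nonneg_left (hlay μ) (by positivity)
          _ = C1 * ((μ:ℝ)+1)^(f+2) := by field_simp
          _ ≤ _ := mul_le_mul_of_nonneg_left (hJ1 μ hμ) hC1.le
      rw [Finset.sum_const, hcard, nsmul_eq_mul] at hterm
      have hk2 : ∑ g, (W g)^(2*1) ≤ N * ((L:ℝ) * (C1 * (2^(f+2) * (n:ℝ)^(f+2)))) := by
        rw [mul_one]
        exact hk.trans (mul_le_mul_of_nonneg_left hterm hN0.le)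
      rw [pow_one, mul_div_assoc', div_le_iff₀ hV0]
      have hB1 : 2^(f+2) * C1 ≤ B := by
        rw [hB]
        exact mul_le_mul_of_nonneg_left (by linarith) (by positivity)
      calc (M:ℝ) * ∑ g, (W g)^(2*1) ≤ (M:ℝ) * (N * ((L:ℝ) * (C1 * (2^(f+2) * (n:ℝ)^(f+2))))) :=
            mul_le_mul_of_nonneg_left hk2 hM0.le
        _ = (2^(f+2) * C1) * N * V := by rw [hV]; ring
        _ ≤ B * N * V := by
            apply mul_le_mul_of_nonneg_right _ hV0.le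
            exact mul_le_mul_of_nonneg_right hB1 hN0.le
    · obtain ⟨e', rfl⟩ : ∃ e', i = e' + 1 := ⟨i - 1, by omega⟩
      have he' : 1 ≤ e' := by omega
      let x0 : GG (f+3) m := fun _ => 0
      have hex := h3 (f+3) (by omega) (JB n) wB (-(1/2)) (-α) (2*n) m (e'+1) (fun μ hμ => by
        have := hJ μ hμ; omega) (by
          refine le_trans ?_ hm1
          exact Nat.mul_le_mul_right _ (by omega)) x (gpt x0)
      have hWs : ∑ g, (W g)^(2*(e'+1)) =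
          ∑ y : GG (f+3) m, (wker (JB n) wB (-(1/2)) (-α) (gpt x0 - gpt y))^(2*(e'+1)) := hex
      have hpt : ∀ y : GG (f+3) m, (wker (JB n) wB (-(1/2)) (-α) (gpt x0 - gpt y))^(2*(e'+1)) ≤
          (L:ℝ)^(2*e'+1) * ∑ μ ∈ JB n, (wB μ)^(2*(e'+1)) *
            |ker μ (-(1/2)) (-α) (gpt x0 - gpt y)|^(2*(e'+1)) := by
        intro y
        have hp := phib_pow (JB n) (fun μ => wB μ * ker μ (-(1/2)) (-α) (gpt x0 - gpt y))
          (2*e'+1) (L:ℝ) (by rw [hcard])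
        have e3 : 2*e'+1+1 = 2*(e'+1) := by ring
        rw [e3] at hp
        have e4 : (wker (JB n) wB (-(1/2)) (-α) (gpt x0 - gpt y))^(2*(e'+1)) =
            |∑ μ ∈ JB n, wB μ * ker μ (-(1/2)) (-α) (gpt x0 - gpt y)|^(2*(e'+1)) := by
          rw [pow_mul, pow_mul |_|, sq_abs]
          rfl
        rw [e4]
        refine hp.trans (le_of_eq ?_)
        congr 1
        refine Finset.sum_congr rfl fun μ _ => ?_
        rw [abs_mul, mul_pow, phib_wB, abs_of_pos (by positivity)]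
      have hsum : ∑ g, (W g)^(2*(e'+1)) ≤ (L:ℝ)^(2*e'+1) *
          ((L:ℝ) * (Ck (e'+1) * N * ((2:ℝ)^n * n)^e' * (2^(f+2) * (n:ℝ)^(f+2)))) := by
        rw [hWs]
        refine (Finset.sum_le_sum fun y _ => hpt y).trans ?_
        rw [← Finset.mul_sum, Finset.sum_comm]
        apply mul_le_mul_of_nonneg_left _ (by positivity)
        have : ∀ μ ∈ JB n, ∑ y : GG (f+3) m, (wB μ)^(2*(e'+1)) *
            |ker μ (-(1/2)) (-α) (gpt x0 - gpt y)|^(2*(e'+1)) ≤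
            Ck (e'+1) * N * ((2:ℝ)^n * n)^e' * (2^(f+2) * (n:ℝ)^(f+2)) := by
          intro μ hμ
          rw [← Finset.mul_sum]
          have hw0 : 0 ≤ (wB μ)^(2*(e'+1)) := by rw [phib_wB]; positivity
          have hμ' := hJ μ hμ
          calc (wB μ)^(2*(e'+1)) * ∑ y : GG (f+3) m,
                |ker μ (-(1/2)) (-α) (gpt x0 - gpt y)|^(2*(e'+1))
              ≤ (wB μ)^(2*(e'+1)) * (Ck (e'+1) * ((2:ℝ)^(m+2))^(f+3) *
                ((2:ℝ)^((1/2:ℝ) * μ))^(2*(e'+1)) * (2:ℝ)^((2*(e'+1)-1)*μ) * ((μ:ℝ)+1)^(f+2)) :=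
                mul_le_mul_of_nonneg_left (hkm (e'+1) hi2 μ m (by omega) (by omega) x0) hw0
            _ = Ck (e'+1) * N * ((wB μ)^(2*(e'+1)) * (((2:ℝ)^((1/2:ℝ) * (μ:ℝ)))^(2*(e'+1)) *
                (2:ℝ)^((2*(e'+1)-1)*μ))) * ((μ:ℝ)+1)^(f+2) := by rw [hNdef]; ring
            _ = Ck (e'+1) * N * ((2:ℝ)^μ)^e' * ((μ:ℝ)+1)^(f+2) := by rw [phib_exp]
            _ ≤ Ck (e'+1) * N * ((2:ℝ)^n * n)^e' * (2^(f+2) * (n:ℝ)^(f+2)) := by
                have hck := hCk (e'+1)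
                apply mul_le_mul _ (hJ1 μ hμ) (by positivity) (by positivity)
                apply mul_le_mul_of_nonneg_left _ (by positivity)
                exact pow_le_pow_left₀ (by positivity) (hJ2 μ hμ) _
        refine (Finset.sum_le_sum this).trans ?_
        rw [Finset.sum_const, hcard, nsmul_eq_mul]
      rw [mul_div_assoc', div_le_iff₀ (by positivity)]
      have hcmp := phib_cmp (f := f) (e := e') (by omega : 1 ≤ n) hLn hL1 he'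
      rw [← hMe] at hcmp
      have hck := hCk (e'+1)
      have hB1 : 2^(f+2) * Ck (e'+1) ≤ B := by
        rw [hB]
        apply mul_le_mul_of_nonneg_left _ (by positivity)
        have : Ck (e'+1) ≤ ∑ i ∈ Finset.range (j+1), Ck i :=
          Finset.single_le_sum (f := Ck) (fun i _ => (hCk i).le) (Finset.mem_range.2 (by omega))
        linarith
      calc (M:ℝ) * ∑ g, (W g)^(2*(e'+1))
          ≤ (M:ℝ) * ((L:ℝ)^(2*e'+1) *
            ((L:ℝ) * (Ck (e'+1) * N * ((2:ℝ)^n * n)^e' * (2^(f+2) * (n:ℝ)^(f+2))))) :=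
            mul_le_mul_of_nonneg_left hsum hM0.le
        _ = (2^(f+2) * Ck (e'+1)) * N * ((M:ℝ) * ((L:ℝ)^(2*(e'+1)) * ((2:ℝ)^n * n)^e' *
              (n:ℝ)^(f+2))) := by
            rw [show 2*(e'+1) = (2*e'+1)+1 by ring, pow_succ (L:ℝ) (2*e'+1)]
            ring
        _ ≤ (2^(f+2) * Ck (e'+1)) * N * V^(e'+1) :=
            mul_le_mul_of_nonneg_left hcmp (by positivity)
        _ ≤ B * N * V^(e'+1) := by
            apply mul_le_mul_of_nonneg_right _ (by positivity)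
            exact mul_le_mul_of_nonneg_right hB1 hN0.le

end SmSm
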