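import Pool.Agent.H636R2.SM.Spec
import Pool.Agent.HypVol.L_pair_count
open MeasureTheory Real ProbabilityTheory
open scoped ENNReal BigOperators

/-! Task ROW (helper61): one row of the pair count. -/

namespace SmSm
open HypVol MWidth

theorem row : S_ROW := by
  classical
  intro d n x F hF
  have e1 : ∀ y : Fin d → Fin (2^(n+2)), F (fun j => T1 n (x j) (y j)) =
      ∑ T : Fin d → Fin (n+3), if (∀ j, T1 n (x j) (y j) = T j) then F (fun j => T j) else 0 := by
    intro y
    rw [Finset.sum_eq_single (fun j =>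
      (⟨T1 n (x j) (y j), HypVol.Sol_pair_count.pc_T1_lt n _ _⟩ : Fin (n+3)))]
    · rw [if_pos (fun j => rfl)]
    · intro T _ hT
      rw [if_neg]
      intro h
      apply hT
      funext j
      exact Fin.ext (h j).symm
    · intro h; exact absurd (Finset.mem_univ _) h
  rw [Finset.sum_congr rfl fun y _ => e1 y, Finset.sum_comm, Finset.mul_sum]
  refine Finset.sum_le_sum fun T _ => ?_
  rw [← Finset.sum_filter, Finset.sum_const, nsmul_eq_mul]
  have e2 : (Finset.univ.filter fun y : Fin d → Fin (2^(n+2)) => ∀ j, T1 n (x j) (y j) = T j) =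
      Fintype.piFinset (fun j => Finset.univ.filter fun y : Fin (2^(n+2)) => T1 n (x j) y = T j) := by
    ext y
    simp [Fintype.mem_piFinset]
  rw [e2, Fintype.card_piFinset]
  push_cast
  have e3 : ∏ j, ((Finset.univ.filter fun y : Fin (2^(n+2)) => T1 n (x j) y = T j).card : ℝ) ≤
      ∏ j : Fin d, (4 * (2:ℝ)^(n+2) * (1/2)^((T j : Fin (n+3)) : ℕ)) :=
    Finset.prod_le_prod (fun j _ => Nat.cast_nonneg _)
      fun j _ => HypVol.Sol_pair_count.pc_count n (x j) (T j) (T j).2
  have e4 : ∏ j : Fin d, (4 * (2:ℝ)^(n+2) * (1/2)^((T j : Fin (n+3)) : ℕ)) =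
      ((2:ℝ)^(n+2))^d * 4^d * (1/2)^(∑ j, ((T j : Fin (n+3)) : ℕ)) := by
    rw [Finset.prod_mul_distrib, Finset.prod_const, Finset.card_univ, Fintype.card_fin,
      Finset.prod_pow_eq_pow_sum, mul_pow]
    ring
  calc _ ≤ (((2:ℝ)^(n+2))^d * 4^d * (1/2)^(∑ j, ((T j : Fin (n+3)) : ℕ))) * F (fun j => T j) := by
        refine mul_le_mul_of_nonneg_right ?_ (hF _)
        rw [← e4]; exact e3
    _ = _ := by ring

end SmSm
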