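import Pool.Agent.H636R2.SM.Spec
open Finset
open scoped BigOperators

/-!
SEP: many configurations whose kernel sums are far apart.
-/

namespace SmSm

/-- Markov's inequality for a counting measure -/
theorem sep_markov {α : Type} [Fintype α] (f : α → ℝ) (hf : ∀ a, 0 ≤ f a) {c T : ℝ} (hc : 0 < c)
    (hT : ∑ a, f a ≤ T) (A : Finset α) (hA : ∀ a ∈ A, c ≤ f a) : (A.card : ℝ) ≤ T / c := by
  rw [le_div_iff₀ hc]
  calc (A.card : ℝ) * c = ∑ _a ∈ A, c := by rw [Finset.sum_const, nsmul_eq_mul]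
    _ ≤ ∑ a ∈ A, f a := Finset.sum_le_sum hA
    _ ≤ ∑ a, f a := Finset.sum_le_sum_of_subset_of_nonneg (Finset.subset_univ _)
        (fun a _ _ => hf a)
    _ ≤ T := hT

/-- the tail bound as a statement on finsets -/
theorem sep_tail (h : S_TAIL) {G : Type} [Fintype G] [DecidableEq G] (u : G → ℝ) (θ η t : ℝ)
    (M : ℕ) (hθ : 0 ≤ θ) (hu : ∑ y, Real.exp (θ * u y) ≤ (Fintype.card G) * Real.exp η)
    [DecidablePred fun X : Fin M → G => t ≤ ∑ i, u (X i)] :
    (((univ : Finset (Fin M → G)).filter (fun X => t ≤ ∑ i, u (X i))).card : ℝ) ≤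
      (Fintype.card G : ℝ)^M * Real.exp (M * η - θ * t) := by
  have h1 := h G u θ η t M hθ hu
  rw [Nat.card_eq_fintype_card, Fintype.card_subtype] at h1
  exact h1

/-- (S1) few configurations with many bad points -/
theorem sep_bad1 (h : S_TAIL) {G : Type} [Fintype G] [DecidableEq G] [Nonempty G]
    (K : G → G → ℝ) (κ θ : ℝ) (M : ℕ) (hM : 1 ≤ M) (hθ : 0 < θ)
    (h1 : ∀ x, ∑ y, Real.exp (θ * K x y) ≤ (Fintype.card G) * Real.exp (θ * κ / (16 * M))) :
    (((univ : Finset (Fin M → G)).filter (fun X => (Fintype.card G : ℝ) * Real.exp (-(θ * κ / 8)) <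
      (((univ : Finset G).filter (fun z => κ / 4 ≤ ∑ i, K z (X i))).card : ℝ))).card : ℝ) ≤
      (Fintype.card G : ℝ)^M * Real.exp (-(θ * κ / 16)) := by
  have hg : (0 : ℝ) < Fintype.card G := by exact_mod_cast Fintype.card_pos
  have hMr : (1 : ℝ) ≤ M := by exact_mod_cast hM
  have hsum : ∑ X : Fin M → G, (((univ : Finset G).filter (fun z => κ / 4 ≤ ∑ i, K z (X i))).card : ℝ)
      ≤ (Fintype.card G : ℝ) * ((Fintype.card G : ℝ)^M * Real.exp (-(3 * (θ * κ) / 16))) := by
    have e1 : ∀ X : Fin M → G, (((univ : Finset G).filter (fun z => κ / 4 ≤ ∑ i, K z (X i))).card : ℝ)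
        = ∑ z : G, if κ / 4 ≤ ∑ i, K z (X i) then (1 : ℝ) else 0 := by
      intro X
      rw [Finset.card_filter]; push_cast; rfl
    simp_rw [e1]
    rw [Finset.sum_comm]
    have e2 : ∀ z : G, (∑ X : Fin M → G, if κ / 4 ≤ ∑ i, K z (X i) then (1 : ℝ) else 0) ≤
        (Fintype.card G : ℝ)^M * Real.exp (-(3 * (θ * κ) / 16)) := by
      intro z
      have h2 := sep_tail h (K z) θ (θ * κ / (16 * M)) (κ / 4) M hθ.le (h1 z)
      rw [Finset.card_filter] at h2
      push_cast at h2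
      refine h2.trans (le_of_eq ?_)
      congr 2
      field_simp
      ring
    refine (Finset.sum_le_sum fun z _ => e2 z).trans ?_
    rw [Finset.sum_const, Finset.card_univ, nsmul_eq_mul]
  refine (sep_markov _ (fun X => Nat.cast_nonneg _) (c := (Fintype.card G : ℝ) *
    Real.exp (-(θ * κ / 8))) (by positivity) hsum _ (fun X hX => ?_)).trans (le_of_eq ?_)
  · exact (Finset.mem_filter.1 hX).2.le
  · rw [div_eq_iff (by positivity)]
    have e3 : Real.exp (-(3 * (θ * κ) / 16)) = Real.exp (-(θ * κ / 16)) *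
        Real.exp (-(θ * κ / 8)) := by
      rw [← Real.exp_add]; congr 1; ring
    rw [e3]; ring

/-- (S2) few configurations for which the point `i` sees a negative sum -/
theorem sep_bad2 {G : Type} [Fintype G] [DecidableEq G] [Nonempty G]
    (K : G → G → ℝ) (κ θ : ℝ) (M : ℕ) (hM : 1 ≤ M) (hκ : 0 < κ) (hθ : 0 < θ)
    (hd : ∀ x, K x x = κ)
    (h1 : ∀ x, ∑ y, Real.exp (-θ * K x y) ≤ (Fintype.card G) * Real.exp (θ * κ / (16 * M)))
    (i : Fin M) :
    (((univ : Finset (Fin M → G)).filter (fun X => ∑ j, K (X i) (X j) ≤ 3 / 4 * κ)).card : ℝ) ≤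
      (Fintype.card G : ℝ)^M * Real.exp (-(3 * (θ * κ) / 16)) := by
  have hg : (0 : ℝ) < Fintype.card G := by exact_mod_cast Fintype.card_pos
  have hMr : (1 : ℝ) ≤ M := by exact_mod_cast hM
  set f : G → Fin M → G → ℝ := fun z j y =>
    (if j = i then (if y = z then 1 else 0) else 1) * Real.exp (-θ * K z y) with hf
  have hprod : ∀ z : G, ∑ X : Fin M → G, ∏ j, f z j (X j) ≤
      Real.exp (-(θ * κ)) * ((Fintype.card G : ℝ)^(M-1) * Real.exp (θ * κ / 16)) := by
    intro z
    have e1 : ∑ X : Fin M → G, ∏ j, f z j (X j) = ∏ j, ∑ y, f z j y := by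
      rw [Finset.prod_univ_sum, Fintype.piFinset_univ]
    rw [e1, ← Finset.mul_prod_erase univ _ (Finset.mem_univ i)]
    have e2 : ∑ y, f z i y = Real.exp (-(θ * κ)) := by
      rw [Finset.sum_eq_single z]
      · simp [hf, hd]
      · intro y _ hy; simp [hf, hy]
      · intro h; exact absurd (Finset.mem_univ z) h
    have e3 : ∀ j ∈ univ.erase i, ∑ y, f z j y = ∑ y, Real.exp (-θ * K z y) := by
      intro j hj
      have hji : j ≠ i := (Finset.mem_erase.1 hj).1
      simp [hf, hji]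
    rw [e2, Finset.prod_congr rfl e3, Finset.prod_const, Finset.card_erase_of_mem
      (Finset.mem_univ i), Finset.card_univ, Fintype.card_fin]
    refine mul_le_mul_of_nonneg_left ?_ (Real.exp_pos _).le
    have h0 : 0 ≤ ∑ y, Real.exp (-θ * K z y) := Finset.sum_nonneg fun y _ => (Real.exp_pos _).le
    refine (pow_le_pow_left₀ h0 (h1 z) (M - 1)).trans ?_
    rw [mul_pow, ← Real.exp_nat_mul]
    refine mul_le_mul_of_nonneg_left ?_ (by positivity)
    rw [Real.exp_le_exp]
    have hcast : ((M - 1 : ℕ) : ℝ) ≤ M := by exact_mod_cast Nat.sub_le M 1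
    have hpos : 0 ≤ θ * κ / (16 * M) := by positivity
    calc ((M - 1 : ℕ) : ℝ) * (θ * κ / (16 * M)) ≤ M * (θ * κ / (16 * M)) :=
          mul_le_mul_of_nonneg_right hcast hpos
      _ = θ * κ / 16 := by field_simp
  have hsum : ∑ X : Fin M → G, Real.exp (θ * (3 / 4 * κ - ∑ j, K (X i) (X j))) ≤
      (Fintype.card G : ℝ)^M * Real.exp (-(3 * (θ * κ) / 16)) := by
    have e4 : ∀ X : Fin M → G, Real.exp (θ * (3 / 4 * κ - ∑ j, K (X i) (X j))) =
        ∑ z : G, Real.exp (3 / 4 * (θ * κ)) * ∏ j, f z j (X j) := by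
      intro X
      rw [Finset.sum_eq_single (X i)]
      · have e5 : ∀ j, f (X i) j (X j) = Real.exp (-θ * K (X i) (X j)) := by
          intro j
          by_cases hj : j = i
          · subst hj; simp [hf]
          · simp [hf, hj]
        rw [Finset.prod_congr rfl (fun j _ => e5 j), ← Real.exp_sum, ← Real.exp_add,
          ← Finset.mul_sum]
        congr 1; ring
      · intro z _ hz
        have : ∏ j, f z j (X j) = 0 := by
          apply Finset.prod_eq_zero (Finset.mem_univ i)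
          simp [hf, hz.symm]
        rw [this, mul_zero]
      · intro h; exact absurd (Finset.mem_univ _) h
    rw [Finset.sum_congr rfl (fun X _ => e4 X), Finset.sum_comm]
    have e6 : ∀ z ∈ (univ : Finset G), ∑ X : Fin M → G, Real.exp (3 / 4 * (θ * κ)) *
        ∏ j, f z j (X j) ≤ Real.exp (3 / 4 * (θ * κ)) * (Real.exp (-(θ * κ)) *
          ((Fintype.card G : ℝ)^(M-1) * Real.exp (θ * κ / 16))) := by
      intro z _
      rw [← Finset.mul_sum]
      exact mul_le_mul_of_nonneg_left (hprod z) (Real.exp_pos _).le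
    refine (Finset.sum_le_sum e6).trans (le_of_eq ?_)
    rw [Finset.sum_const, Finset.card_univ, nsmul_eq_mul]
    have e7 : (Fintype.card G : ℝ)^M = Fintype.card G * (Fintype.card G : ℝ)^(M-1) := by
      rw [← pow_succ']; congr 1; omega
    have e8 : Real.exp (-(3 * (θ * κ) / 16)) = Real.exp (3 / 4 * (θ * κ)) *
        (Real.exp (-(θ * κ)) * Real.exp (θ * κ / 16)) := by
      rw [← Real.exp_add, ← Real.exp_add]; congr 1; ring
    rw [e7, e8]; ring
  have := sep_markov _ (fun X => (Real.exp_pos _).le) (c := 1) one_pos hsum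
    ((univ : Finset (Fin M → G)).filter (fun X => ∑ j, K (X i) (X j) ≤ 3 / 4 * κ)) (fun X hX => by
      rw [Real.one_le_exp_iff]
      have := (Finset.mem_filter.1 hX).2
      exact mul_nonneg hθ.le (by linarith))
  rwa [div_one] at this

/-- (S3) few configurations with many such points -/
theorem sep_bad3 {G : Type} [Fintype G] [DecidableEq G] [Nonempty G]
    (K : G → G → ℝ) (κ θ : ℝ) (M : ℕ) (hM : 1 ≤ M) (hκ : 0 < κ) (hθ : 0 < θ)
    (hd : ∀ x, K x x = κ)
    (h1 : ∀ x, ∑ y, Real.exp (-θ * K x y) ≤ (Fintype.card G) * Real.exp (θ * κ / (16 * M))) :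
    (((univ : Finset (Fin M → G)).filter (fun X => (M : ℝ) / 4 ≤
      (((univ : Finset (Fin M)).filter (fun i => ∑ j, K (X i) (X j) ≤ 3 / 4 * κ)).card : ℝ))).card : ℝ)
      ≤ 4 * ((Fintype.card G : ℝ)^M * Real.exp (-(3 * (θ * κ) / 16))) := by
  have hMr : (1 : ℝ) ≤ M := by exact_mod_cast hM
  have hsum : ∑ X : Fin M → G, (((univ : Finset (Fin M)).filter
      (fun i => ∑ j, K (X i) (X j) ≤ 3 / 4 * κ)).card : ℝ)
      ≤ M * ((Fintype.card G : ℝ)^M * Real.exp (-(3 * (θ * κ) / 16))) := by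
    have e1 : ∀ X : Fin M → G, (((univ : Finset (Fin M)).filter
        (fun i => ∑ j, K (X i) (X j) ≤ 3 / 4 * κ)).card : ℝ)
        = ∑ i : Fin M, if ∑ j, K (X i) (X j) ≤ 3 / 4 * κ then (1 : ℝ) else 0 := by
      intro X
      rw [Finset.card_filter]; push_cast; rfl
    simp_rw [e1]
    rw [Finset.sum_comm]
    have e2 : ∀ i : Fin M, (∑ X : Fin M → G, if ∑ j, K (X i) (X j) ≤ 3 / 4 * κ then (1 : ℝ) else 0)
        ≤ (Fintype.card G : ℝ)^M * Real.exp (-(3 * (θ * κ) / 16)) := by
      intro i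
      have h2 := sep_bad2 K κ θ M hM hκ hθ hd h1 i
      rw [Finset.card_filter] at h2
      push_cast at h2
      exact h2
    refine (Finset.sum_le_sum fun z _ => e2 z).trans ?_
    rw [Finset.sum_const, Finset.card_univ, nsmul_eq_mul, Fintype.card_fin]
  refine (sep_markov _ (fun X => Nat.cast_nonneg _) (c := (M : ℝ) / 4) (by positivity) hsum _
    (fun X hX => ?_)).trans (le_of_eq ?_)
  · exact (Finset.mem_filter.1 hX).2
  · rw [div_eq_iff (by positivity)]
    ring

/-- (S4) few configurations with most points in a small set -/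
theorem sep_close (h : S_TAIL) {G : Type} [Fintype G] [DecidableEq G] [Nonempty G] (M : ℕ)
    (T : Finset G) (ε : ℝ) (hε : 0 ≤ ε)
    (hT : (T.card : ℝ) ≤ (Fintype.card G : ℝ) * Real.exp (-(ε / 8))) :
    (((univ : Finset (Fin M → G)).filter (fun X => 3 / 4 * (M : ℝ) ≤
      (((univ : Finset (Fin M)).filter (fun i => X i ∈ T)).card : ℝ))).card : ℝ)
      ≤ (Fintype.card G : ℝ)^M * Real.exp (M * Real.log 2 - ε / 8 * (3 / 4 * (M : ℝ))) := by
  have e1 : ∀ X : Fin M → G, (((univ : Finset (Fin M)).filter (fun i => X i ∈ T)).card : ℝ) =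
      ∑ i, (fun y : G => if y ∈ T then (1 : ℝ) else 0) (X i) := by
    intro X
    rw [Finset.card_filter]; push_cast; rfl
  simp_rw [e1]
  apply sep_tail h (fun y : G => if y ∈ T then (1 : ℝ) else 0) (ε / 8) (Real.log 2)
    (3 / 4 * (M : ℝ)) M (by positivity)
  rw [Real.exp_log (by norm_num)]
  have e2 : ∀ y : G, Real.exp (ε / 8 * (if y ∈ T then (1 : ℝ) else 0)) ≤
      1 + (if y ∈ T then Real.exp (ε / 8) else 0) := by
    intro y
    split_ifs
    · rw [mul_one]; linarith [Real.exp_pos (ε / 8)]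
    · simp
  refine (Finset.sum_le_sum fun y _ => e2 y).trans ?_
  rw [Finset.sum_add_distrib, Finset.sum_const, Finset.card_univ, nsmul_eq_mul, mul_one,
    ← Finset.sum_filter, Finset.sum_const, nsmul_eq_mul, Finset.filter_mem_eq_inter,
    Finset.univ_inter]
  have e3 : (T.card : ℝ) * Real.exp (ε / 8) ≤ Fintype.card G := by
    calc (T.card : ℝ) * Real.exp (ε / 8) ≤
        (Fintype.card G : ℝ) * Real.exp (-(ε / 8)) * Real.exp (ε / 8) :=
          mul_le_mul_of_nonneg_right hT (Real.exp_pos _).le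
      _ = Fintype.card G := by
        rw [mul_assoc, ← Real.exp_add]; simp
  linarith

/-- maximal separated subsets -/
theorem sep_max {α : Type} [DecidableEq α] (A : Finset α) (far : α → α → Prop)
    (hsymm : ∀ a b, far a b → far b a) :
    ∃ F : Finset α, F ⊆ A ∧ (∀ a ∈ F, ∀ b ∈ F, a ≠ b → far a b) ∧
      ∀ a ∈ A, a ∉ F → ∃ b ∈ F, ¬ far a b := by
  classical
  obtain ⟨Pr, hPr⟩ : ∃ Pr : Finset α → Prop, ∀ F, Pr F ↔ ∀ a ∈ F, ∀ b ∈ F, a ≠ b → far a b :=
    ⟨_, fun F => Iff.rfl⟩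
  have hne : (A.powerset.filter Pr).Nonempty :=
    ⟨∅, Finset.mem_filter.2 ⟨Finset.empty_mem_powerset _, (hPr _).2 (by simp)⟩⟩
  obtain ⟨F, hF, hmax⟩ := Finset.exists_max_image (A.powerset.filter Pr) Finset.card hne
  rw [Finset.mem_filter, Finset.mem_powerset, hPr] at hF
  refine ⟨F, hF.1, hF.2, ?_⟩
  intro a ha haF
  by_contra hcon
  push Not at hcon
  have h1 : insert a F ∈ A.powerset.filter Pr := by
    rw [Finset.mem_filter, Finset.mem_powerset, hPr]
    refine ⟨Finset.insert_subset ha hF.1, ?_⟩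
    intro x hx y hy hxy
    rcases Finset.mem_insert.1 hx with hxa | hx'
    · rcases Finset.mem_insert.1 hy with hya | hy'
      · exact absurd (hxa.trans hya.symm) hxy
      · rw [hxa]; exact hcon y hy'
    · rcases Finset.mem_insert.1 hy with hya | hy'
      · rw [hya]; exact hsymm _ _ (hcon x hx')
      · exact hF.2 x hx' y hy' hxy
  have h2 := hmax _ h1
  rw [Finset.card_insert_of_notMem haF] at h2
  omega

theorem sep_main (h : S_TAIL) : ∀ (G : Type) [Fintype G] [DecidableEq G] [Nonempty G]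
    (K : G → G → ℝ) (κ θ : ℝ) (M : ℕ)
    (good : Finset (Fin M → G)), 1 ≤ M → 0 < κ → 0 < θ → 200 ≤ θ * κ → (∀ x, K x x = κ) →
    (∀ x, ∑ y, Real.exp (θ * K x y) ≤ (Fintype.card G) * Real.exp (θ * κ / (16 * M))) →
    (∀ x, ∑ y, Real.exp (-θ * K x y) ≤ (Fintype.card G) * Real.exp (θ * κ / (16 * M))) →
    (9/10 : ℝ) * (Fintype.card G : ℝ)^M ≤ good.card →
    ∃ F : Finset (Fin M → G), F ⊆ good ∧ Real.exp (θ * κ * M / 100) ≤ F.card ∧
      ∀ X ∈ F, ∀ X' ∈ F, X ≠ X' → ∃ z, κ / 2 ≤ |∑ i, K z (X i) - ∑ i, K z (X' i)| := by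
  classical
  intro G _ _ _ K κ θ M good hM hκ hθ hε hd h1 h2 hgood
  have hg : (0 : ℝ) < Fintype.card G := by exact_mod_cast Fintype.card_pos
  have hMr : (1 : ℝ) ≤ M := by exact_mod_cast hM
  set N : ℝ := (Fintype.card G : ℝ)^M with hN
  have hNpos : 0 < N := by positivity
  set A1 := (univ : Finset (Fin M → G)).filter (fun X => (Fintype.card G : ℝ) *
    Real.exp (-(θ * κ / 8)) <
      (((univ : Finset G).filter (fun z => κ / 4 ≤ ∑ i, K z (X i))).card : ℝ)) with hA1
  set A2 := (univ : Finset (Fin M → G)).filter (fun X => (M : ℝ) / 4 ≤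
      (((univ : Finset (Fin M)).filter (fun i => ∑ j, K (X i) (X j) ≤ 3 / 4 * κ)).card : ℝ)) with hA2
  have hc1 := sep_bad1 h K κ θ M hM hθ h1
  have hc2 := sep_bad3 K κ θ M hM hκ hθ hd h2
  rw [← hA1, ← hN] at hc1
  rw [← hA2, ← hN] at hc2
  have hexp : Real.exp (-(θ * κ / 16)) ≤ 1 / 400 := by
    have h3 : Real.exp (-(θ * κ / 16)) ≤ Real.exp (-12) := Real.exp_le_exp.2 (by linarith)
    have h4 : Real.exp (-12) = (Real.exp 1 ^ 12)⁻¹ := by
      rw [← Real.exp_nat_mul, ← Real.exp_neg]; norm_num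
    have h5 : (2 : ℝ) ^ 12 ≤ Real.exp 1 ^ 12 := by
      refine pow_le_pow_left₀ (by norm_num) ?_ 12
      have := Real.add_one_le_exp (1 : ℝ)
      linarith
    have h6 : (Real.exp 1 ^ 12)⁻¹ ≤ ((2 : ℝ) ^ 12)⁻¹ := inv_anti₀ (by norm_num) h5
    rw [h4] at h3
    refine h3.trans (h6.trans ?_)
    norm_num
  have hexp2 : Real.exp (-(3 * (θ * κ) / 16)) ≤ 1 / 400 :=
    (Real.exp_le_exp.2 (by linarith)).trans hexp
  have hc1' : (A1.card : ℝ) ≤ N / 100 := by
    have := mul_le_mul_of_nonneg_left hexp hNpos.le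
    linarith
  have hc2' : (A2.card : ℝ) ≤ N / 100 := by
    have := mul_le_mul_of_nonneg_left hexp2 hNpos.le
    linarith
  set good' := good \ (A1 ∪ A2) with hgood'
  have hcard : 88 / 100 * N ≤ (good'.card : ℝ) := by
    have h3 : good.card ≤ good'.card + (A1 ∪ A2).card := by
      rw [hgood']
      have := Finset.card_le_card_sdiff_add_card (s := good) (t := A1 ∪ A2)
      omega
    have h4 := Finset.card_union_le A1 A2
    have h5 : (good.card : ℝ) ≤ good'.card + A1.card + A2.card := by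
      exact_mod_cast (by omega : good.card ≤ good'.card + A1.card + A2.card)
    linarith
  obtain ⟨F, hF1, hF2, hF3⟩ := sep_max good'
    (fun X X' => ∃ z, κ / 2 ≤ |∑ i, K z (X i) - ∑ i, K z (X' i)|)
    (by
      rintro a b ⟨z, hz⟩
      exact ⟨z, by rwa [abs_sub_comm]⟩)
  refine ⟨F, hF1.trans Finset.sdiff_subset, ?_, hF2⟩
  -- close sets
  set Cl : (Fin M → G) → Finset (Fin M → G) := fun X' =>
    (univ : Finset (Fin M → G)).filter (fun X => 3 / 4 * (M : ℝ) ≤
      (((univ : Finset (Fin M)).filter (fun i => X i ∈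
        (univ : Finset G).filter (fun z => κ / 4 ≤ ∑ i, K z (X' i)))).card : ℝ)) with hCl
  have hClcard : ∀ X' ∈ good', ((Cl X').card : ℝ) ≤
      N * Real.exp (M * Real.log 2 - θ * κ / 8 * (3 / 4 * (M : ℝ))) := by
    intro X' hX'
    refine sep_close h M _ (θ * κ) (by positivity) ?_
    have h3 : X' ∉ A1 := by
      intro hc
      rw [hgood', Finset.mem_sdiff] at hX'
      exact hX'.2 (Finset.mem_union_left _ hc)
    rw [hA1, Finset.mem_filter] at h3
    push Not at h3
    exact h3 (Finset.mem_univ _)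
  have hcover : good' ⊆ F.biUnion Cl := by
    intro X hX
    have h3 : ∃ X' ∈ F, ∀ z, |∑ i, K z (X i) - ∑ i, K z (X' i)| < κ / 2 := by
      by_cases hXF : X ∈ F
      · refine ⟨X, hXF, fun z => ?_⟩
        rw [sub_self, abs_zero]; positivity
      · obtain ⟨b, hb, hb'⟩ := hF3 X hX hXF
        push Not at hb'
        exact ⟨b, hb, hb'⟩
    obtain ⟨X', hX'F, hclose⟩ := h3
    rw [Finset.mem_biUnion]
    refine ⟨X', hX'F, ?_⟩
    rw [hCl, Finset.mem_filter]
    refine ⟨Finset.mem_univ _, ?_⟩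
    have h4 : X ∉ A2 := by
      intro hc
      rw [hgood', Finset.mem_sdiff] at hX
      exact hX.2 (Finset.mem_union_right _ hc)
    rw [hA2, Finset.mem_filter] at h4
    push Not at h4
    have h5 := h4 (Finset.mem_univ _)
    have h6 : (univ : Finset (Fin M)).filter (fun i => ¬ (∑ j, K (X i) (X j) ≤ 3 / 4 * κ)) ⊆
        (univ : Finset (Fin M)).filter (fun i => X i ∈
        (univ : Finset G).filter (fun z => κ / 4 ≤ ∑ i, K z (X' i))) := by
      intro i hi
      rw [Finset.mem_filter] at hi ⊢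
      refine ⟨Finset.mem_univ _, ?_⟩
      rw [Finset.mem_filter]
      refine ⟨Finset.mem_univ _, ?_⟩
      have h7 := hclose (X i)
      rw [abs_lt] at h7
      have h8 := hi.2
      push Not at h8
      linarith [h7.2]
    have h7 := Finset.card_le_card h6
    have h8 := Finset.card_filter_add_card_filter_not (s := (univ : Finset (Fin M)))
      (fun i => ∑ j, K (X i) (X j) ≤ 3 / 4 * κ)
    rw [Finset.card_univ, Fintype.card_fin] at h8
    have h7r : ((((univ : Finset (Fin M)).filter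
        (fun i => ¬ (∑ j, K (X i) (X j) ≤ 3 / 4 * κ))).card : ℕ) : ℝ) ≤
        ((((univ : Finset (Fin M)).filter (fun i => X i ∈
        (univ : Finset G).filter (fun z => κ / 4 ≤ ∑ i, K z (X' i)))).card : ℕ) : ℝ) := by
      exact_mod_cast h7
    have h8r : ((((univ : Finset (Fin M)).filter
        (fun i => ∑ j, K (X i) (X j) ≤ 3 / 4 * κ)).card : ℕ) : ℝ) +
        ((((univ : Finset (Fin M)).filter
        (fun i => ¬ (∑ j, K (X i) (X j) ≤ 3 / 4 * κ))).card : ℕ) : ℝ) = M := by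
      exact_mod_cast h8
    linarith
  have hfin : 88 / 100 * N ≤ F.card * (N * Real.exp (M * Real.log 2 -
      θ * κ / 8 * (3 / 4 * (M : ℝ)))) := by
    refine hcard.trans ?_
    have h3 : good'.card ≤ ∑ X' ∈ F, (Cl X').card :=
      (Finset.card_le_card hcover).trans Finset.card_biUnion_le
    have h4 : (good'.card : ℝ) ≤ ∑ X' ∈ F, ((Cl X').card : ℝ) := by exact_mod_cast h3
    refine h4.trans ((Finset.sum_le_sum fun X' hX' => hClcard X' (hF1 hX')).trans ?_)
    rw [Finset.sum_const, nsmul_eq_mul]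
  have hfin2 : 88 / 100 ≤ F.card * Real.exp (M * Real.log 2 - θ * κ / 8 * (3 / 4 * (M : ℝ))) := by
    have h3 : 88 / 100 * N ≤ (F.card * Real.exp (M * Real.log 2 -
      θ * κ / 8 * (3 / 4 * (M : ℝ)))) * N := by
      refine hfin.trans (le_of_eq ?_); ring
    exact le_of_mul_le_mul_right h3 hNpos
  have hlog : Real.log 2 ≤ 1 := by
    have := Real.log_le_sub_one_of_pos (show (0 : ℝ) < 2 by norm_num)
    linarith
  have h88 : Real.exp (-1) ≤ 88 / 100 := by
    have h3 : Real.exp (-1) = (Real.exp 1)⁻¹ := Real.exp_neg 1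
    have h4 : (2 : ℝ) ≤ Real.exp 1 := by
      have := Real.add_one_le_exp (1 : ℝ)
      linarith
    rw [h3]
    refine (inv_anti₀ (by norm_num) h4).trans ?_
    norm_num
  have h9 : Real.exp (-1) * Real.exp (-(M * Real.log 2 - θ * κ / 8 * (3 / 4 * (M : ℝ)))) ≤
      F.card := by
    have h10 := mul_le_mul_of_nonneg_right (h88.trans hfin2)
      (Real.exp_pos (-(M * Real.log 2 - θ * κ / 8 * (3 / 4 * (M : ℝ))))).le
    rwa [mul_assoc, ← Real.exp_add (M * Real.log 2 - θ * κ / 8 * (3 / 4 * (M : ℝ))),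
      add_neg_cancel, Real.exp_zero, mul_one] at h10
  refine le_trans ?_ h9
  rw [← Real.exp_add, Real.exp_le_exp]
  have h11 : (M : ℝ) * Real.log 2 ≤ M := by nlinarith
  have h12 : 200 * (M : ℝ) ≤ θ * κ * M := by nlinarith
  nlinarith

theorem sep (h : S_TAIL) : S_SEP := sep_main h

end SmSm
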