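import Pool.Agent.H636R2.SM.Spec
import Pool.Agent.KX.L_wf_split
import Pool.Agent.KX.L_ml_bdd
import Pool.Agent.EntX.L_fc_unique
import Pool.Agent.KX.L_shp_upper
open MeasureTheory Real ProbabilityTheory
open scoped ENNReal BigOperators

namespace SmSm
open HypVol HypVol.Sol_KX_wf_split HypVol.Sol_KX_ml_bdd

/-- real coordinates of the coefficients in a layer -/
noncomputable def split_A {d : ℕ} (c : (Fin d → ℤ) → ℂ) (n : ℕ) : (layer d n) × Fin 2 → ℝ := fun i =>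
  if i.2 = 0 then (c i.1.1).re else (c i.1.1).im

theorem split_poly {d : ℕ} (c : (Fin d → ℤ) → ℂ) (n : ℕ) (x : Fin d → ℝ) :
    poly (split_A c n) x = ∑ k : layer d n, c k.1 * wchr k.1 x := by
  unfold poly
  refine Finset.sum_congr rfl ?_
  intro k _
  have h1 : split_A c n (k, 0) = (c k.1).re := by unfold split_A; simp
  have h2 : split_A c n (k, 1) = (c k.1).im := by unfold split_A; simp
  rw [h1, h2, Complex.re_add_im]
  rfl

theorem split_sq {d : ℕ} (c : (Fin d → ℤ) → ℂ) (n : ℕ) :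
    ∑ i, split_A c n i ^ 2 = ∑ k ∈ layer d n, ‖c k‖ ^ 2 := by
  rw [Fintype.sum_prod_type, ← Finset.sum_coe_sort (layer d n) (fun k => ‖c k‖ ^ 2)]
  refine Finset.sum_congr rfl ?_
  intro k _
  rw [Fin.sum_univ_two]
  unfold split_A
  simp only [if_true]
  rw [← Complex.normSq_eq_norm_sq, Complex.normSq_apply]
  simp
  ring

theorem split_int_mul {d : ℕ} (h : (Fin d → ℝ) → ℂ) (hh : Integrable h (TP d)) (k : Fin d → ℤ) :
    Integrable (fun x => h x * wchr (-k) x) (TP d) :=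
  hh.mul_bdd (c := 1) (wchr_cont _).aestronglyMeasurable
    (Filter.Eventually.of_forall fun x => (wchr_norm _ x).le)

theorem split_fc_add {d : ℕ} (f g : (Fin d → ℝ) → ℂ) (hf : Integrable f (TP d))
    (hg : Integrable g (TP d)) (k : Fin d → ℤ) : fc (fun x => f x + g x) k = fc f k + fc g k := by
  rw [wfc, wfc, wfc, ← integral_add (split_int_mul f hf k) (split_int_mul g hg k)]
  congr 1
  funext x
  ring

theorem split_fc_smul {d : ℕ} (a : ℂ) (g : (Fin d → ℝ) → ℂ) (k : Fin d → ℤ) :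
    fc (fun x => a * g x) k = a * fc g k := by
  rw [wfc, wfc, ← integral_const_mul]
  congr 1
  funext x
  ring

theorem split_sum {d : ℕ} (c : (Fin d → ℤ) → ℂ) (b : ℕ → ℝ) (hb : Summable b)
    (hbd : ∀ n x, ‖poly (split_A c n) x‖ ≤ b n) :
    ∃ g : (Fin d → ℝ) → ℂ, Integrable g (TP d) ∧
      (∀ x, HasSum (fun n => poly (split_A c n) x) (g x)) ∧ ∀ k, fc g k = c k := by
  have := TP_prob d
  have hpc : ∀ n, Continuous (fun x => poly (split_A c n) x) := by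
    intro n
    have e : (fun x => poly (split_A c n) x) = fun x => ∑ k : layer d n, c k.1 * wchr k.1 x :=
      funext (split_poly c n)
    rw [e]
    exact continuous_finsetSum _ fun k _ => continuous_const.mul (wchr_cont _)
  have hsx : ∀ x, Summable (fun n => poly (split_A c n) x) := fun x =>
    Summable.of_norm_bounded hb (fun n => hbd n x)
  obtain ⟨g, hg⟩ : ∃ g : (Fin d → ℝ) → ℂ, ∀ x, g x = ∑' n, poly (split_A c n) x := ⟨_, fun _ => rfl⟩
  have hgc : Continuous g := by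
    rw [funext hg]
    exact continuous_tsum hpc hb hbd
  have hgb : ∀ x, ‖g x‖ ≤ ∑' n : ℕ, b n := by
    intro x
    rw [hg]
    exact tsum_of_norm_bounded hb.hasSum (fun n => hbd n x)
  have hgi : Integrable g (TP d) :=
    Integrable.of_bound hgc.aestronglyMeasurable _ (Filter.Eventually.of_forall hgb)
  refine ⟨g, hgi, fun x => by rw [hg]; exact (hsx x).hasSum, ?_⟩
  intro k
  rw [wfc]
  have hI : ∀ n, Integrable (fun x => poly (split_A c n) x * wchr (-k) x) (TP d) := fun n =>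
    Integrable.of_bound ((hpc n).mul (wchr_cont _)).aestronglyMeasurable _
      (Filter.Eventually.of_forall fun x => by
        rw [norm_mul, wchr_norm, mul_one]
        exact hbd n x)
  have hnorm : ∀ n, ∫ x, ‖poly (split_A c n) x * wchr (-k) x‖ ∂(TP d) ≤ b n := by
    intro n
    have h1 := integral_mono (hI n).norm (integrable_const (μ := TP d) (b n)) (fun x => by
        show ‖poly (split_A c n) x * wchr (-k) x‖ ≤ _
        rw [norm_mul, wchr_norm, mul_one]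
        exact hbd n x)
    simpa using h1
  have hS : Summable (fun n => ∫ x, ‖poly (split_A c n) x * wchr (-k) x‖ ∂(TP d)) :=
    Summable.of_nonneg_of_le (fun n => integral_nonneg fun x => norm_nonneg _) hnorm hb
  have h1 := hasSum_integral_of_summable_integral_norm hI hS
  have h2 : ∀ n, ∫ x, poly (split_A c n) x * wchr (-k) x ∂(TP d) = if n = wN k then c k else 0 := by
    intro n
    have e : (fun x => poly (split_A c n) x * wchr (-k) x) =
        fun x => ∑ l : layer d n, c l.1 * wchr (l.1 + -k) x := by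
      funext x
      rw [split_poly, Finset.sum_mul]
      refine Finset.sum_congr rfl ?_
      intro l _
      rw [wchr_add]
      ring
    rw [e, integral_finsetSum _ fun l _ => (Integrable.of_bound
      (wchr_cont _).aestronglyMeasurable 1 (Filter.Eventually.of_forall fun x =>
        (wchr_norm _ x).le)).const_mul _]
    simp only [integral_const_mul, wchr_int]
    split_ifs with hn
    · have hk : k ∈ layer d n := (wlayer_iff k).2 hn
      rw [Finset.sum_eq_single (⟨k, hk⟩ : layer d n)]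
      · simp
      · intro l _ hl
        rw [if_neg, mul_zero]
        intro h
        apply hl
        apply Subtype.ext
        exact sub_eq_zero.1 (by rw [sub_eq_add_neg]; exact h)
      · intro h
        exact absurd (Finset.mem_univ _) h
    · refine Finset.sum_eq_zero ?_
      intro l _
      rw [if_neg, mul_zero]
      intro h
      apply hn
      have : l.1 = k := sub_eq_zero.1 (by rw [sub_eq_add_neg]; exact h)
      rw [← this]
      exact (wlayer_iff l.1).1 l.2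
  simp only [h2] at h1
  have h3 := h1.unique (hasSum_ite_eq (wN k) (c k))
  have e : (fun x => g x * wchr (-k) x) = fun x => ∑' n, poly (split_A c n) x * wchr (-k) x := by
    funext x
    rw [hg, tsum_mul_right]
  rw [e]
  exact h3

/-- Bessel with a scaling -/
theorem split_bessel {d : ℕ} (χ : (Fin d → ℝ) → ℂ) (b : ℝ) (hb : 0 < b) (hm : MemLp χ 2 (TP d))
    (h : eLpNorm χ 2 (TP d) ≤ ENNReal.ofReal b) (S : Finset (Fin d → ℤ)) :
    ∑ k ∈ S, ‖fc χ k‖ ^ 2 ≤ b ^ 2 := by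
  have h1 : MemLp (fun x => ((b⁻¹ : ℝ) : ℂ) * χ x) 2 (TP d) := hm.const_mul _
  have h2 : eLpNorm (fun x => ((b⁻¹ : ℝ) : ℂ) * χ x) 2 (TP d) ≤ 1 := by
    have e : (fun x => ((b⁻¹ : ℝ) : ℂ) * χ x) = ((b⁻¹ : ℝ) : ℂ) • χ := by
      funext x; rfl
    rw [e, eLpNorm_const_smul]
    have e2 : ‖((b⁻¹ : ℝ) : ℂ)‖ₑ = ENNReal.ofReal b⁻¹ := by
      rw [← ofReal_norm, Complex.norm_real, Real.norm_of_nonneg (by positivity)]
    rw [e2]
    calc ENNReal.ofReal b⁻¹ * eLpNorm χ 2 (TP d) ≤ ENNReal.ofReal b⁻¹ * ENNReal.ofReal b := by gcongr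
      _ = 1 := by
        rw [← ENNReal.ofReal_mul (by positivity), inv_mul_cancel₀ hb.ne', ENNReal.ofReal_one]
  have h3 := wbessel 2 le_rfl _ h1 h2 S
  simp only [split_fc_smul, norm_mul, mul_pow, ← Finset.mul_sum] at h3
  rw [Complex.norm_real, Real.norm_of_nonneg (by positivity), inv_pow] at h3
  have hb2 : 0 < b ^ 2 := by positivity
  rwa [inv_mul_le_iff₀ hb2, mul_one] at h3

/-- truncation threshold -/
noncomputable def split_tau (q : ℝ) (μs μ : ℕ) : ℝ :=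
  if μ < μs then 0 else (2:ℝ) ^ (((μ - μs : ℕ) : ℝ) / q)

/-- small part -/
noncomputable def split_psi {d : ℕ} (q : ℝ) (φ : (Fin d → ℝ) → ℂ) (μs μ : ℕ) (x : Fin d → ℝ) : ℂ :=
  if ‖φ x‖ ≤ split_tau q μs μ then φ x else 0

/-- big part -/
noncomputable def split_chi {d : ℕ} (q : ℝ) (φ : (Fin d → ℝ) → ℂ) (μs μ : ℕ) (x : Fin d → ℝ) : ℂ :=
  if ‖φ x‖ ≤ split_tau q μs μ then 0 else φ x

theorem split_tau_nonneg (q : ℝ) (μs μ : ℕ) : 0 ≤ split_tau q μs μ := by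
  unfold split_tau
  split_ifs
  · exact le_rfl
  · positivity

theorem split_psi_chi {d : ℕ} (q : ℝ) (φ : (Fin d → ℝ) → ℂ) (μs μ : ℕ) (x : Fin d → ℝ) :
    split_psi q φ μs μ x + split_chi q φ μs μ x = φ x := by
  unfold split_psi split_chi
  split_ifs <;> simp

theorem split_chi_eq {d : ℕ} (q : ℝ) (φ : (Fin d → ℝ) → ℂ) (μs μ : ℕ) (h : μ < μs) :
    split_chi q φ μs μ = φ := by
  funext x
  unfold split_chi split_tau
  rw [if_pos h]
  split_ifs with h1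
  · exact (norm_eq_zero.1 (le_antisymm h1 (norm_nonneg _))).symm
  · rfl

theorem split_null {d : ℕ} (q : ℝ) (φ : (Fin d → ℝ) → ℂ) (hφ : AEStronglyMeasurable φ (TP d)) (μs μ : ℕ) :
    NullMeasurableSet {x | ‖φ x‖ ≤ split_tau q μs μ} (TP d) :=
  nullMeasurableSet_le hφ.norm.aemeasurable aemeasurable_const

theorem split_psi_meas {d : ℕ} (q : ℝ) (φ : (Fin d → ℝ) → ℂ) (hφ : AEStronglyMeasurable φ (TP d))
    (μs μ : ℕ) : AEStronglyMeasurable (split_psi q φ μs μ) (TP d) := by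
  have h := hφ.indicator₀ (split_null q φ hφ μs μ)
  have e : Set.indicator {x | ‖φ x‖ ≤ split_tau q μs μ} φ = split_psi q φ μs μ := by
    funext x
    unfold split_psi
    simp only [Set.indicator_apply, Set.mem_ofPred_eq]
  rwa [e] at h

theorem split_chi_meas {d : ℕ} (q : ℝ) (φ : (Fin d → ℝ) → ℂ) (hφ : AEStronglyMeasurable φ (TP d))
    (μs μ : ℕ) : AEStronglyMeasurable (split_chi q φ μs μ) (TP d) := by
  have h := hφ.sub (split_psi_meas q φ hφ μs μ)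
  have e : φ - split_psi q φ μs μ = split_chi q φ μs μ := by
    funext x
    rw [Pi.sub_apply, ← split_psi_chi q φ μs μ x]
    ring
  rwa [e] at h

theorem split_chi_norm {d : ℕ} (q : ℝ) (hq : 2 < q) (φ : (Fin d → ℝ) → ℂ)
    (hφ : MemLp φ (ENNReal.ofReal q) (TP d)) (h1 : eLpNorm φ (ENNReal.ofReal q) (TP d) ≤ 1) (μs μ : ℕ) :
    eLpNorm (split_chi q φ μs μ) 2 (TP d) ≤
      ENNReal.ofReal ((2:ℝ) ^ (-((1/2 - 1/q) * ((μ - μs : ℕ) : ℝ)))) := by
  have := TP_prob d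
  have hq2 : (2 : ℝ≥0∞) ≤ ENNReal.ofReal q := by
    rw [show (2 : ℝ≥0∞) = ENNReal.ofReal 2 by simp]
    exact ENNReal.ofReal_le_ofReal hq.le
  by_cases hμ : μ < μs
  · rw [split_chi_eq q φ μs μ hμ]
    have e : μ - μs = 0 := by omega
    rw [e]
    simp only [Nat.cast_zero, mul_zero, neg_zero, Real.rpow_zero, ENNReal.ofReal_one]
    exact (eLpNorm_le_eLpNorm_of_exponent_le hq2 hφ.1).trans h1
  · have hτ : split_tau q μs μ = (2:ℝ) ^ (((μ - μs : ℕ) : ℝ) / q) := by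
      unfold split_tau; rw [if_neg hμ]
    have hτ0 : 0 < split_tau q μs μ := by rw [hτ]; positivity
    have hq0 : (0:ℝ) < q := by linarith
    have hint : ∫⁻ x, ‖φ x‖ₑ ^ q ∂(TP d) ≤ 1 := by
      have h2 := h1
      rw [eLpNorm_eq_lintegral_rpow_enorm_toReal (by simpa using hq0) ENNReal.ofReal_ne_top,
        ENNReal.toReal_ofReal hq0.le] at h2
      have h3 := ENNReal.rpow_le_rpow h2 hq0.le
      rw [ENNReal.one_rpow, ← ENNReal.rpow_mul, one_div, inv_mul_cancel₀ hq0.ne', ENNReal.rpow_one] at h3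
      exact h3
    have hpt : ∀ x, ‖split_chi q φ μs μ x‖ₑ ^ (2:ℝ) ≤
        ENNReal.ofReal ((split_tau q μs μ) ^ (2 - q)) * ‖φ x‖ₑ ^ q := by
      intro x
      unfold split_chi
      split_ifs with h
      · simp
      · push Not at h
        rw [← ofReal_norm, ENNReal.ofReal_rpow_of_nonneg (norm_nonneg _) (by norm_num),
          ENNReal.ofReal_rpow_of_nonneg (norm_nonneg _) hq0.le,
          ← ENNReal.ofReal_mul (by positivity)]
        apply ENNReal.ofReal_le_ofReal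
        have hn0 : 0 < ‖φ x‖ := hτ0.trans h
        calc ‖φ x‖ ^ (2:ℝ) = ‖φ x‖ ^ (2 - q) * ‖φ x‖ ^ q := by
              rw [← Real.rpow_add hn0]; congr 1; ring
          _ ≤ (split_tau q μs μ) ^ (2 - q) * ‖φ x‖ ^ q := by
              apply mul_le_mul_of_nonneg_right _ (by positivity)
              exact Real.rpow_le_rpow_of_nonpos hτ0 h.le (by linarith)
    rw [eLpNorm_eq_lintegral_rpow_enorm_toReal (by norm_num) (by norm_num)]
    simp only [ENNReal.toReal_ofNat]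
    have h4 : ∫⁻ x, ‖split_chi q φ μs μ x‖ₑ ^ (2:ℝ) ∂(TP d) ≤
        ENNReal.ofReal ((split_tau q μs μ) ^ (2 - q)) := by
      calc ∫⁻ x, ‖split_chi q φ μs μ x‖ₑ ^ (2:ℝ) ∂(TP d)
          ≤ ∫⁻ x, ENNReal.ofReal ((split_tau q μs μ) ^ (2 - q)) * ‖φ x‖ₑ ^ q ∂(TP d) :=
            lintegral_mono hpt
        _ = ENNReal.ofReal ((split_tau q μs μ) ^ (2 - q)) * ∫⁻ x, ‖φ x‖ₑ ^ q ∂(TP d) :=
            lintegral_const_mul' _ _ ENNReal.ofReal_ne_top
        _ ≤ ENNReal.ofReal ((split_tau q μs μ) ^ (2 - q)) * 1 := by gcongr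
        _ = _ := mul_one _
    refine (ENNReal.rpow_le_rpow h4 (by norm_num)).trans ?_
    rw [ENNReal.ofReal_rpow_of_nonneg (Real.rpow_nonneg hτ0.le _) (by norm_num)]
    apply ENNReal.ofReal_le_ofReal
    rw [hτ, ← Real.rpow_mul (by norm_num : (0:ℝ) ≤ 2), ← Real.rpow_mul (by norm_num : (0:ℝ) ≤ 2)]
    apply le_of_eq
    congr 1
    field_simp
    ring

theorem split_max {ι : Type} (s : Finset ι) (w : ι → ℝ) (z : ι → ℂ) (B : ℝ)
    (hw : ∀ i ∈ s, 0 ≤ w i) (hs : ∑ i ∈ s, w i = 1)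
    (hz : ∀ i ∈ s, w i ≠ 0 → ‖z i‖ ^ 2 ≤ B) : ‖∑ i ∈ s, (w i : ℂ) * z i‖ ^ 2 ≤ B := by
  have hB : 0 ≤ B := by
    by_contra hB
    have h0 : ∀ i ∈ s, w i = 0 := by
      intro i hi
      by_contra h
      have := hz i hi h
      have h2 : 0 ≤ ‖z i‖ ^ 2 := by positivity
      linarith
    rw [Finset.sum_eq_zero h0] at hs
    norm_num at hs
  have h1 : ‖∑ i ∈ s, (w i : ℂ) * z i‖ ≤ Real.sqrt B := by
    refine (norm_sum_le _ _).trans ?_
    calc ∑ i ∈ s, ‖(w i : ℂ) * z i‖ ≤ ∑ i ∈ s, w i * Real.sqrt B := by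
          apply Finset.sum_le_sum
          intro i hi
          rw [norm_mul, Complex.norm_real, Real.norm_of_nonneg (hw i hi)]
          by_cases h : w i = 0
          · rw [h]; simp
          · apply mul_le_mul_of_nonneg_left _ (hw i hi)
            exact Real.le_sqrt_of_sq_le (hz i hi h)
      _ = Real.sqrt B := by rw [← Finset.sum_mul, hs, one_mul]
  calc ‖∑ i ∈ s, (w i : ℂ) * z i‖ ^ 2 ≤ (Real.sqrt B) ^ 2 := pow_le_pow_left₀ (norm_nonneg _) h1 2
    _ = B := Real.sq_sqrt hB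

theorem split_geo (m : ℕ) (q r : ℝ) (hr : 1/q < r) :
    Summable (fun j : ℕ => ((j:ℝ)+1)^m * ((2:ℝ)^(1/q - r))^j) := by
  have h := x330_summable m (r + 1/2 - 1/q) (by linarith)
  have e : 1/2 - (r + 1/2 - 1/q) = 1/q - r := by ring
  rw [e] at h
  exact h

theorem split_tau_sum (m : ℕ) (q r : ℝ) (hr : 1/q < r) (μs : ℕ) :
    Summable (fun μ : ℕ => ((μ:ℝ)+1)^m * (2:ℝ)^(-(r * μ)) * split_tau q μs μ) ∧
    ∑' μ : ℕ, ((μ:ℝ)+1)^m * (2:ℝ)^(-(r * μ)) * split_tau q μs μ ≤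
      (∑' j : ℕ, ((j:ℝ)+1)^m * ((2:ℝ)^(1/q - r))^j) * (((μs:ℝ)+1)^m * (2:ℝ)^(-(r * μs))) := by
  have hg := split_geo m q r hr
  have hg2 := hg.mul_right (((μs:ℝ)+1)^m * (2:ℝ)^(-(r * μs)))
  have hle : ∀ j : ℕ, (((j + μs : ℕ):ℝ)+1)^m * (2:ℝ)^(-(r * ((j + μs : ℕ) : ℝ))) *
      split_tau q μs (j + μs) ≤
      ((j:ℝ)+1)^m * ((2:ℝ)^(1/q - r))^j * (((μs:ℝ)+1)^m * (2:ℝ)^(-(r * μs))) := by
    intro j
    have e1 : split_tau q μs (j + μs) = (2:ℝ) ^ ((j:ℝ) / q) := by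
      unfold split_tau
      rw [if_neg (by omega)]
      congr 2
      have : j + μs - μs = j := by omega
      rw [this]
    rw [e1]
    have h1 : (((j + μs : ℕ):ℝ)+1)^m ≤ ((j:ℝ)+1)^m * ((μs:ℝ)+1)^m := by
      rw [← mul_pow]
      apply pow_le_pow_left₀ (by positivity)
      push_cast
      nlinarith [Nat.cast_nonneg (α := ℝ) j, Nat.cast_nonneg (α := ℝ) μs,
        mul_nonneg (Nat.cast_nonneg (α := ℝ) j) (Nat.cast_nonneg (α := ℝ) μs)]
    have h2 : (2:ℝ)^(-(r * ((j + μs : ℕ) : ℝ))) * (2:ℝ) ^ ((j:ℝ) / q) =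
        ((2:ℝ)^(1/q - r))^j * (2:ℝ)^(-(r * μs)) := by
      rw [← Real.rpow_natCast ((2:ℝ)^(1/q - r)) j, ← Real.rpow_mul (by norm_num),
        ← Real.rpow_add (by norm_num), ← Real.rpow_add (by norm_num)]
      congr 1
      push_cast
      ring
    rw [mul_assoc, h2]
    calc (((j + μs : ℕ):ℝ)+1)^m * (((2:ℝ)^(1/q - r))^j * (2:ℝ)^(-(r * μs)))
        ≤ (((j:ℝ)+1)^m * ((μs:ℝ)+1)^m) * (((2:ℝ)^(1/q - r))^j * (2:ℝ)^(-(r * μs))) :=
          mul_le_mul_of_nonneg_right h1 (by positivity)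
      _ = _ := by ring
  have hnn : ∀ j : ℕ, 0 ≤ (((j + μs : ℕ):ℝ)+1)^m * (2:ℝ)^(-(r * ((j + μs : ℕ) : ℝ))) *
      split_tau q μs (j + μs) := by
    intro j
    have := split_tau_nonneg q μs (j + μs)
    positivity
  have hs1 : Summable (fun j : ℕ => (((j + μs : ℕ):ℝ)+1)^m * (2:ℝ)^(-(r * ((j + μs : ℕ) : ℝ))) *
      split_tau q μs (j + μs)) := Summable.of_nonneg_of_le hnn hle hg2
  have hs : Summable (fun μ : ℕ => ((μ:ℝ)+1)^m * (2:ℝ)^(-(r * μ)) * split_tau q μs μ) :=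
    (summable_nat_add_iff (f := fun μ : ℕ => ((μ:ℝ)+1)^m * (2:ℝ)^(-(r * μ)) * split_tau q μs μ) μs).1 hs1
  refine ⟨hs, ?_⟩
  rw [← hs.sum_add_tsum_nat_add μs]
  have h0 : ∑ i ∈ Finset.range μs, ((i:ℝ)+1)^m * (2:ℝ)^(-(r * i)) * split_tau q μs i = 0 := by
    apply Finset.sum_eq_zero
    intro i hi
    rw [Finset.mem_range] at hi
    unfold split_tau
    rw [if_pos hi, mul_zero]
  rw [h0, zero_add, ← tsum_mul_right]
  exact hs1.tsum_le_tsum hle hg2

theorem split (h1 : S_SYN) (h2 : S_VPF) : S_SPLIT := by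
  intro d hd q r hq hr α
  have hq0 : (0:ℝ) < q := by linarith
  have hr0 : 0 < r := lt_trans (by positivity) hr
  have hδ : 0 < 1/2 - 1/q := by
    have : 1/q < 1/2 := one_div_lt_one_div_of_lt (by norm_num) hq
    linarith
  obtain ⟨Cs, hCs, hsyn⟩ := h1 d hd r hr0 α
  obtain ⟨Cl, hCl, hcard⟩ := card_layer_le d hd
  obtain ⟨hv1, hv2, hv3, hv4⟩ := h2
  obtain ⟨δ, hδe⟩ : ∃ δ : ℝ, δ = 1/2 - 1/q := ⟨_, rfl⟩
  obtain ⟨C1, hC1e⟩ : ∃ C1 : ℝ, C1 = (2:ℝ) ^ (r * d) * ((d:ℝ) + 1) * (2:ℝ) ^ (δ * d) := ⟨_, rfl⟩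
  obtain ⟨C2, hC2e⟩ : ∃ C2 : ℝ, C2 = ∑' j : ℕ, ((j:ℝ)+1)^(d-1) * ((2:ℝ)^(1/q - r))^j := ⟨_, rfl⟩
  rw [← hδe] at hδ
  have hC1 : 0 < C1 := by rw [hC1e]; positivity
  have hC2 : 0 ≤ C2 := by rw [hC2e]; exact tsum_nonneg fun j => by positivity
  have hrd1 : (2:ℝ) ^ (r * d) ≤ C1 := by
    rw [hC1e, mul_assoc]
    apply le_mul_of_one_le_right (by positivity)
    apply one_le_mul_of_one_le_of_one_le
    · linarith [Nat.cast_nonneg (α := ℝ) d]
    · exact Real.one_le_rpow (by norm_num) (by positivity)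
  refine ⟨C1 + Cs * C2, by positivity, ?_⟩
  intro f hf μs
  have := TP_prob d
  obtain ⟨hf1, φ, hφ, hφ1, hfc⟩ := hf
  have hq2 : (2 : ℝ≥0∞) ≤ ENNReal.ofReal q := by
    rw [show (2 : ℝ≥0∞) = ENNReal.ofReal 2 by simp]
    exact ENNReal.ofReal_le_ofReal hq.le
  have hφ2 : MemLp φ 2 (TP d) := hφ.mono_exponent hq2
  have hχ2 : ∀ μ, MemLp (split_chi q φ μs μ) 2 (TP d) := fun μ =>
    ⟨split_chi_meas q φ hφ.1 μs μ, (split_chi_norm q hq φ hφ hφ1 μs μ).trans_lt ENNReal.ofReal_lt_top⟩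
  have hχi : ∀ μ, Integrable (split_chi q φ μs μ) (TP d) := fun μ =>
    (hχ2 μ).integrable (by norm_num)
  have hψi : ∀ μ, Integrable (split_psi q φ μs μ) (TP d) := by
    intro μ
    have h := (hφ2.integrable (by norm_num)).sub (hχi μ)
    refine h.congr (Filter.Eventually.of_forall fun x => ?_)
    show φ x - split_chi q φ μs μ x = split_psi q φ μs μ x
    rw [← split_psi_chi q φ μs μ x]
    ring
  have hfcsum : ∀ μ k, fc (split_psi q φ μs μ) k + fc (split_chi q φ μs μ) k = fc φ k := by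
    intro μ k
    rw [← split_fc_add _ _ (hψi μ) (hχi μ)]
    congr 1
    funext x
    exact split_psi_chi q φ μs μ x
  have hbes : ∀ μ (S : Finset (Fin d → ℤ)), ∑ k ∈ S, ‖fc (split_chi q φ μs μ) k‖ ^ 2 ≤
      ((2:ℝ) ^ (-(δ * ((μ - μs : ℕ) : ℝ)))) ^ 2 := by
    intro μ S
    apply split_bessel _ _ (by positivity) (hχ2 μ)
    rw [hδe]
    exact split_chi_norm q hq φ hφ hφ1 μs μ
  have hbesφ : ∀ (S : Finset (Fin d → ℤ)), ∑ k ∈ S, ‖fc φ k‖ ^ 2 ≤ 1 := wbessel _ hq2 φ hφ hφ1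
  obtain ⟨Sk, hSk⟩ : ∃ Sk : (Fin d → ℤ) → Finset (Fin d → ℕ), ∀ k,
    Sk k = Fintype.piFinset (fun j => Finset.range (Nat.size (k j).natAbs + 1)) := ⟨_, fun _ => rfl⟩
  have hblk0 : ∀ s (k : Fin d → ℤ), 0 ≤ blk s k := fun s k =>
    Finset.prod_nonneg fun j _ => (hv1 _ _).1
  have hblk1 : ∀ k : Fin d → ℤ, ∑ s ∈ Sk k, blk s k = 1 := fun k => by rw [hSk]; exact hv3 d k
  obtain ⟨c, hc⟩ : ∃ c : (Fin d → ℤ) → ℂ, ∀ k, c k = Fh r α k *
    ∑ s ∈ Sk k, (blk s k : ℂ) * fc (split_chi q φ μs (∑ j, s j)) k := ⟨_, fun _ => rfl⟩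
  have hrange : ∀ n (k : Fin d → ℤ), k ∈ layer d n → ∀ s : Fin d → ℕ, blk s k ≠ 0 →
      ∑ j, s j ≤ n ∧ n ≤ (∑ j, s j) + d := by
    intro n k hk s hs
    have hn := (wlayer_iff k).1 hk
    have h3 := hv4 d s k hs
    rw [hn]
    unfold wN
    refine ⟨Finset.sum_le_sum fun j _ => (h3 j).1, ?_⟩
    calc ∑ j, Nat.size (k j).natAbs ≤ ∑ j, (s j + 1) := Finset.sum_le_sum fun j _ => (h3 j).2
      _ = (∑ j, s j) + d := by rw [Finset.sum_add_distrib]; simp
  -- pointwise bounds of the coefficients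
  have hca : ∀ n (k : Fin d → ℤ), k ∈ layer d n → ‖c k‖ ^ 2 ≤
      ((2:ℝ) ^ (r * d) * (2:ℝ) ^ (-(r * n))) ^ 2 *
        ∑ μ ∈ Finset.Icc (n - d) n, ‖fc (split_chi q φ μs μ) k‖ ^ 2 := by
    intro n k hk
    rw [hc, norm_mul, mul_pow]
    apply mul_le_mul
    · exact pow_le_pow_left₀ (norm_nonneg _) (wFh r hr0 α k hk) 2
    · apply split_max _ _ _ _ (fun s _ => hblk0 s k) (hblk1 k)
      intro s _ hs
      have h3 := hrange n k hk s hs
      exact Finset.single_le_sum (f := fun μ => ‖fc (split_chi q φ μs μ) k‖ ^ 2)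
        (fun _ _ => by positivity) (Finset.mem_Icc.2 ⟨by omega, h3.1⟩)
    · positivity
    · positivity
  have hcb : ∀ n (k : Fin d → ℤ), n < μs → k ∈ layer d n → ‖c k‖ ^ 2 ≤
      ((2:ℝ) ^ (r * d) * (2:ℝ) ^ (-(r * n))) ^ 2 * ‖fc φ k‖ ^ 2 := by
    intro n k hn hk
    rw [hc, norm_mul, mul_pow]
    apply mul_le_mul
    · exact pow_le_pow_left₀ (norm_nonneg _) (wFh r hr0 α k hk) 2
    · apply split_max _ _ _ _ (fun s _ => hblk0 s k) (hblk1 k)
      intro s _ hs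
      have h3 := hrange n k hk s hs
      rw [split_chi_eq q φ μs _ (by omega)]
    · positivity
    · positivity
  have hsq : ∀ n, ∑ k ∈ layer d n, ‖c k‖ ^ 2 ≤
      (C1 * (2:ℝ)^(-(r * n)) * (2:ℝ)^(-(δ * ((n - μs : ℕ) : ℝ))))^2 := by
    intro n
    calc ∑ k ∈ layer d n, ‖c k‖ ^ 2 ≤ ∑ k ∈ layer d n, ((2:ℝ) ^ (r * d) * (2:ℝ) ^ (-(r * n))) ^ 2 *
        ∑ μ ∈ Finset.Icc (n - d) n, ‖fc (split_chi q φ μs μ) k‖ ^ 2 :=
          Finset.sum_le_sum fun k hk => hca n k hk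
      _ = ((2:ℝ) ^ (r * d) * (2:ℝ) ^ (-(r * n))) ^ 2 * ∑ μ ∈ Finset.Icc (n - d) n,
          ∑ k ∈ layer d n, ‖fc (split_chi q φ μs μ) k‖ ^ 2 := by
          rw [← Finset.mul_sum, Finset.sum_comm]
      _ ≤ ((2:ℝ) ^ (r * d) * (2:ℝ) ^ (-(r * n))) ^ 2 * ∑ μ ∈ Finset.Icc (n - d) n,
          ((2:ℝ) ^ (δ * d) * (2:ℝ)^(-(δ * ((n - μs : ℕ) : ℝ)))) ^ 2 := by
          apply mul_le_mul_of_nonneg_left _ (by positivity)
          apply Finset.sum_le_sum
          intro μ hμ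
          rw [Finset.mem_Icc] at hμ
          refine (hbes μ _).trans ?_
          apply pow_le_pow_left₀ (by positivity)
          rw [← Real.rpow_add (by norm_num)]
          apply Real.rpow_le_rpow_of_exponent_le (by norm_num)
          have h5 : ((n - μs : ℕ) : ℝ) ≤ ((μ - μs : ℕ) : ℝ) + d := by
            have : n - μs ≤ (μ - μs) + d := by omega
            exact_mod_cast this
          nlinarith
      _ = ((2:ℝ) ^ (r * d) * (2:ℝ) ^ (-(r * n))) ^ 2 * (((Finset.Icc (n - d) n).card : ℝ) *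
          ((2:ℝ) ^ (δ * d) * (2:ℝ)^(-(δ * ((n - μs : ℕ) : ℝ)))) ^ 2) := by
          rw [Finset.sum_const, nsmul_eq_mul]
      _ ≤ ((2:ℝ) ^ (r * d) * (2:ℝ) ^ (-(r * n))) ^ 2 * (((d:ℝ) + 1)^2 *
          ((2:ℝ) ^ (δ * d) * (2:ℝ)^(-(δ * ((n - μs : ℕ) : ℝ)))) ^ 2) := by
          apply mul_le_mul_of_nonneg_left _ (by positivity)
          apply mul_le_mul_of_nonneg_right _ (by positivity)
          rw [Nat.card_Icc]
          have h6 : ((n + 1 - (n - d) : ℕ) : ℝ) ≤ (d:ℝ) + 1 := by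
            have : n + 1 - (n - d) ≤ d + 1 := by omega
            exact_mod_cast this
          nlinarith [Nat.cast_nonneg (α := ℝ) d]
      _ = _ := by rw [hC1e]; ring
  have hbd : ∀ n x, ‖poly (split_A c n) x‖ ≤
      (Real.sqrt Cl * C1 * (2:ℝ)^(δ * μs)) * (((n:ℝ)+1)^(d-1) * ((2:ℝ)^(1/q - r))^n) := by
    intro n x
    refine (x330_poly_le (split_A c n) x).trans ?_
    rw [split_sq]
    have h3 : Real.sqrt (∑ k ∈ layer d n, ‖c k‖ ^ 2) ≤
        C1 * (2:ℝ)^(-(r * n)) * (2:ℝ)^(-(δ * ((n - μs : ℕ) : ℝ))) := by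
      rw [Real.sqrt_le_left (by positivity)]
      exact hsq n
    have h4 : Real.sqrt ((layer d n).card) ≤ Real.sqrt Cl * Real.sqrt ((2:ℝ)^n) * ((n:ℝ)+1)^(d-1) := by
      have h3 : Real.sqrt ((layer d n).card) ≤ Real.sqrt (Cl * 2^n * ((n:ℝ)+1)^(d-1)) :=
        Real.sqrt_le_sqrt (hcard n)
      refine h3.trans ?_
      rw [Real.sqrt_mul (by positivity), Real.sqrt_mul hCl.le]
      refine mul_le_mul_of_nonneg_left ?_ (by positivity)
      rw [Real.sqrt_le_left (by positivity)]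
      have h4 : (1:ℝ) ≤ ((n:ℝ)+1)^(d-1) := one_le_pow₀ (by linarith [Nat.cast_nonneg (α := ℝ) n])
      nlinarith
    have h5 : (2:ℝ)^(-(δ * ((n - μs : ℕ) : ℝ))) ≤ (2:ℝ)^(δ * μs) * (2:ℝ)^(-(δ * n)) := by
      rw [← Real.rpow_add (by norm_num)]
      apply Real.rpow_le_rpow_of_exponent_le (by norm_num)
      have h5 : (n:ℝ) ≤ ((n - μs : ℕ) : ℝ) + μs := by
        have : n ≤ (n - μs) + μs := by omega
        exact_mod_cast this
      nlinarith
    have h6 : Real.sqrt ((2:ℝ)^n) * ((2:ℝ)^(-(r * n)) * (2:ℝ)^(-(δ * n))) = ((2:ℝ)^(1/q - r))^n := by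
      rw [← Real.rpow_natCast (2:ℝ) n, Real.sqrt_eq_rpow, ← Real.rpow_mul (by norm_num),
        ← Real.rpow_add (by norm_num), ← Real.rpow_add (by norm_num),
        ← Real.rpow_natCast ((2:ℝ)^(1/q - r)) n, ← Real.rpow_mul (by norm_num)]
      congr 1
      rw [hδe]
      ring
    calc Real.sqrt ((layer d n).card) * Real.sqrt (∑ k ∈ layer d n, ‖c k‖ ^ 2)
        ≤ (Real.sqrt Cl * Real.sqrt ((2:ℝ)^n) * ((n:ℝ)+1)^(d-1)) *
          (C1 * (2:ℝ)^(-(r * n)) * (2:ℝ)^(-(δ * ((n - μs : ℕ) : ℝ)))) :=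
          mul_le_mul h4 h3 (Real.sqrt_nonneg _) (by positivity)
      _ ≤ (Real.sqrt Cl * Real.sqrt ((2:ℝ)^n) * ((n:ℝ)+1)^(d-1)) *
          (C1 * (2:ℝ)^(-(r * n)) * ((2:ℝ)^(δ * μs) * (2:ℝ)^(-(δ * n)))) := by gcongr
      _ = (Real.sqrt Cl * C1 * (2:ℝ)^(δ * μs)) * (((n:ℝ)+1)^(d-1) *
          (Real.sqrt ((2:ℝ)^n) * ((2:ℝ)^(-(r * n)) * (2:ℝ)^(-(δ * n))))) := by ring
      _ = _ := by rw [h6]
  obtain ⟨g, hgi, hgs, hgc⟩ := split_sum c _ ((split_geo (d-1) q r hr).mul_left _) hbd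
  obtain ⟨hτs, hτle⟩ := split_tau_sum (d-1) q r hr μs
  obtain ⟨u, hu1, hu2, hu3⟩ := hsyn (fun μ => split_psi q φ μs μ) (fun μ => split_tau q μs μ)
    (fun μ => split_tau_nonneg q μs μ) (fun μ => split_psi_meas q φ hφ.1 μs μ)
    (fun μ => Filter.Eventually.of_forall fun x => by
      unfold split_psi
      split_ifs with h
      · exact h
      · rw [norm_zero]; exact split_tau_nonneg q μs μ) hτs
  refine ⟨split_A c, g, ?_, ?_, hgs, ?_⟩
  · -- (i)
    have h3 : ∑ n ∈ Finset.range μs, (2:ℝ)^(2 * r * n) * ∑ i, split_A c n i ^ 2 ≤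
        ((2:ℝ) ^ (r * d)) ^ 2 * ∑ n ∈ Finset.range μs, ∑ k ∈ layer d n, ‖fc φ k‖ ^ 2 := by
      rw [Finset.mul_sum]
      apply Finset.sum_le_sum
      intro n hn
      rw [Finset.mem_range] at hn
      rw [split_sq]
      have h4 : ∑ k ∈ layer d n, ‖c k‖ ^ 2 ≤
          ((2:ℝ) ^ (r * d) * (2:ℝ) ^ (-(r * n))) ^ 2 * ∑ k ∈ layer d n, ‖fc φ k‖ ^ 2 := by
        rw [Finset.mul_sum]
        exact Finset.sum_le_sum fun k hk => hcb n k hn hk
      have h5 : (2:ℝ)^(2 * r * n) * ((2:ℝ) ^ (-(r * n))) ^ 2 = 1 := by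
        rw [← Real.rpow_natCast ((2:ℝ) ^ (-(r * n))) 2, ← Real.rpow_mul (by norm_num),
          ← Real.rpow_add (by norm_num)]
        have : 2 * r * n + -(r * n) * ((2:ℕ):ℝ) = 0 := by push_cast; ring
        rw [this, Real.rpow_zero]
      calc (2:ℝ)^(2 * r * n) * ∑ k ∈ layer d n, ‖c k‖ ^ 2
          ≤ (2:ℝ)^(2 * r * n) * (((2:ℝ) ^ (r * d) * (2:ℝ) ^ (-(r * n))) ^ 2 *
            ∑ k ∈ layer d n, ‖fc φ k‖ ^ 2) := mul_le_mul_of_nonneg_left h4 (by positivity)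
        _ = ((2:ℝ)^(2 * r * n) * ((2:ℝ) ^ (-(r * n))) ^ 2) * (((2:ℝ) ^ (r * d)) ^ 2 *
            ∑ k ∈ layer d n, ‖fc φ k‖ ^ 2) := by ring
        _ = _ := by rw [h5, one_mul]
    have h4 : ∑ n ∈ Finset.range μs, ∑ k ∈ layer d n, ‖fc φ k‖ ^ 2 ≤ 1 := by
      classical
      rw [← Finset.sum_biUnion]
      · exact hbesφ _
      · intro n _ n' _ hne
        rw [Function.onFun, Finset.disjoint_left]
        intro k hk hk'
        exact hne (((wlayer_iff k).1 hk).trans ((wlayer_iff k).1 hk').symm)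
    calc _ ≤ ((2:ℝ) ^ (r * d)) ^ 2 * ∑ n ∈ Finset.range μs, ∑ k ∈ layer d n, ‖fc φ k‖ ^ 2 := h3
      _ ≤ ((2:ℝ) ^ (r * d)) ^ 2 * 1 := mul_le_mul_of_nonneg_left h4 (by positivity)
      _ = ((2:ℝ) ^ (r * d)) ^ 2 := mul_one _
      _ ≤ (C1 + Cs * C2) ^ 2 := by
        apply pow_le_pow_left₀ (by positivity)
        have : 0 ≤ Cs * C2 := by positivity
        linarith
  · intro n
    rw [split_sq, ← hδe]
    refine (hsq n).trans ?_
    apply pow_le_pow_left₀ (by positivity)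
    have : 0 ≤ Cs * C2 := by positivity
    gcongr
    linarith
  · have hfi : Integrable f (TP d) := memLp_one_iff_integrable.1 hf1
    have hui : Integrable u (TP d) := hu1.integrable le_top
    have hzero := fc_unique (fun x => f x + (-1 : ℂ) * (u x + g x))
      (hfi.add ((hui.add hgi).const_mul _)) (by
      intro k
      rw [split_fc_add f (fun x => (-1 : ℂ) * (u x + g x)) hfi ((hui.add hgi).const_mul _),
        split_fc_smul, split_fc_add u g hui hgi, hgc, hu3, hfc, hc, ← hSk]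
      have h3 : ∑ s ∈ Sk k, (blk s k : ℂ) * fc (split_psi q φ μs (∑ j, s j)) k +
          ∑ s ∈ Sk k, (blk s k : ℂ) * fc (split_chi q φ μs (∑ j, s j)) k = fc φ k := by
        rw [← Finset.sum_add_distrib]
        simp only [← mul_add, hfcsum]
        rw [← Finset.sum_mul]
        have := hblk1 k
        have h4 : ∑ s ∈ Sk k, (blk s k : ℂ) = 1 := by exact_mod_cast this
        rw [h4, one_mul]
      rw [← mul_add, h3]
      ring)
    filter_upwards [hzero] with x hx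
    have hx' : f x + (-1 : ℂ) * (u x + g x) = 0 := hx
    have hx2 : f x - g x = u x := by linear_combination hx'
    rw [hx2]
    refine (hu2 x).trans ?_
    calc Cs * ∑' μ : ℕ, ((μ:ℝ)+1)^(d-1) * (2:ℝ)^(-(r * μ)) * split_tau q μs μ
        ≤ Cs * (C2 * (((μs:ℝ)+1)^(d-1) * (2:ℝ)^(-(r * μs)))) := by
          rw [hC2e]
          exact mul_le_mul_of_nonneg_left hτle hCs.le
      _ = (Cs * C2) * (((μs:ℝ)+1)^(d-1) * (2:ℝ)^(-(r * μs))) := by ring
      _ ≤ (C1 + Cs * C2) * (((μs:ℝ)+1)^(d-1) * (2:ℝ)^(-(r * μs))) := by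
          apply mul_le_mul_of_nonneg_right _ (by positivity)
          linarith
      _ = _ := by ring

end SmSm
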