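import Pool.Agent.H636R2.SM.Spec

/-!
Exponential Markov inequality on a finite product space.
-/

namespace SmSm
open scoped BigOperators

theorem tail_prodsum {G : Type} [Fintype G] (f : G → ℝ) (M : ℕ) :
    ∑ X : Fin M → G, ∏ i, f (X i) = (∑ y, f y) ^ M := by
  classical
  have h := Finset.prod_univ_sum (fun _ : Fin M => (Finset.univ : Finset G)) (fun _ y => f y)
  rw [Finset.prod_const, Finset.card_univ, Fintype.card_fin] at h
  rw [h]
  apply Finset.sum_congr _ (fun _ _ => rfl)
  ext X
  simp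

theorem tail : S_TAIL := by
  classical
  intro G _ u θ η t M hθ h
  have h1 : (Nat.card {X : Fin M → G // t ≤ ∑ i, u (X i)} : ℝ) =
      ∑ X ∈ (Finset.univ.filter fun X : Fin M → G => t ≤ ∑ i, u (X i)), (1 : ℝ) := by
    rw [Finset.sum_const, nsmul_eq_mul, mul_one, Nat.card_eq_fintype_card, Fintype.card_subtype]
  have h2 : ∑ X ∈ (Finset.univ.filter fun X : Fin M → G => t ≤ ∑ i, u (X i)), (1 : ℝ) ≤
      ∑ X : Fin M → G, Real.exp (-(θ * t)) * ∏ i, Real.exp (θ * u (X i)) := by
    refine le_trans (Finset.sum_le_sum (g := fun X : Fin M → G =>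
      Real.exp (-(θ * t)) * ∏ i, Real.exp (θ * u (X i))) ?_) ?_
    · intro X hX
      have hX' := (Finset.mem_filter.1 hX).2
      rw [← Real.exp_sum, ← Real.exp_add, ← Finset.mul_sum]
      apply Real.one_le_exp
      nlinarith
    · apply Finset.sum_le_sum_of_subset_of_nonneg (Finset.filter_subset _ _)
      intro X _ _
      exact mul_nonneg (Real.exp_pos _).le (Finset.prod_nonneg fun i _ => (Real.exp_pos _).le)
  rw [h1]
  refine le_trans h2 ?_
  rw [← Finset.mul_sum, tail_prodsum (fun y => Real.exp (θ * u y)) M]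
  have h3 : (∑ y, Real.exp (θ * u y)) ^ M ≤ ((Fintype.card G) * Real.exp η) ^ M :=
    pow_le_pow_left₀ (Finset.sum_nonneg fun y _ => (Real.exp_pos _).le) h M
  calc Real.exp (-(θ * t)) * (∑ y, Real.exp (θ * u y)) ^ M
      ≤ Real.exp (-(θ * t)) * ((Fintype.card G) * Real.exp η) ^ M :=
        mul_le_mul_of_nonneg_left h3 (Real.exp_pos _).le
    _ = (Fintype.card G : ℝ)^M * Real.exp (M * η - θ * t) := by
        rw [mul_pow, ← Real.exp_nat_mul, sub_eq_add_neg, Real.exp_add]
        ring

end SmSm
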