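import Pool.Agent.H636R2.SM.Spec
import Pool.Agent.KX.L_width_up2
open MeasureTheory Real ProbabilityTheory
open scoped ENNReal BigOperators

/-! UPA: upper bound of the widths, `r < 1/2` (adaptation of `KX.L_width_up2`).  helper485. -/

namespace SmSm
open HypVol MWidth HypVol.Sol_KX_width_up2

/-- the size of the `n`-th block -/
noncomputable def upaC (r q : ℝ) (μs n : ℕ) : ℝ :=
  (2:ℝ)^(-(r * n)) * (2:ℝ)^(-((1/2 - 1/q) * ((n - μs : ℕ) : ℝ)))

theorem upaC_pos (r q : ℝ) (μs n : ℕ) : 0 < upaC r q μs n := by unfold upaC; positivity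

theorem upa (h1 : S_SPLIT) (h2 : S_NUMUA) : S_UPA := by
  intro 𝕜 _ d hd q r hq2 hqr hr α
  classical
  have hqpos : 0 < q := by linarith
  have hr0 : 0 < r := lt_trans (by positivity) hqr
  obtain ⟨C1, hC1, hsplit⟩ := h1 d (by omega) q r hq2 hqr α
  obtain ⟨C2, hC2, happ⟩ := layer_approx d
  obtain ⟨C3, hC3, hnum⟩ := h2 d hd q r hq2 hqr hr
  refine ⟨2 * (C1 * C2 + 3 * C1) * C3, by positivity, fun m hm => ?_⟩
  obtain ⟨n0, n1, μs, M, hn01, hM1, hdim, hsum, hbd⟩ := hnum m hm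
  change Summable (fun n : ℕ => upaC r q μs n * Real.sqrt (layer d n).card) at hsum
  change (∑ n ∈ Finset.Ico n0 n1, upaC r q μs n * Real.sqrt (((n:ℝ)+1) * (layer d n).card / M n)) +
      ∑' n : ℕ, upaC r q μs (n + n1) * Real.sqrt (layer d (n + n1)).card +
      ((μs:ℝ)+1)^(d-1) * (2:ℝ)^(-(r * μs)) ≤ C3 * psiA d r m at hbd
  have hG : ∀ n : ℕ, ∃ G : Fin (M n) → ((layer d n) × Fin 2 → ℝ), ∀ a : (layer d n) × Fin 2 → ℝ,
      ∑ i, a i ^ 2 ≤ 1 → ∃ β : Fin (M n) → ℝ, ∀ x, ‖poly (fun i => a i - ∑ j, β j * G j i) x‖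
        ≤ C2 * Real.sqrt (((n:ℝ)+1) * (layer d n).card / M n) := fun n => happ n (M n) (hM1 n)
  choose G hG using hG
  let S1 : Finset ((Fin d → ℝ) → 𝕜) := (Finset.range n0).biUnion
    (fun n => (Finset.univ : Finset ((layer d n) × Fin 2)).image (fun i => wT 𝕜 (Pi.single i 1)))
  let S2 : Finset ((Fin d → ℝ) → 𝕜) := (Finset.Ico n0 n1).biUnion
    (fun n => (Finset.univ : Finset (Fin (M n))).image (fun j => wT 𝕜 (G n j)))
  let U : Submodule 𝕜 ((Fin d → ℝ) → 𝕜) := Submodule.span 𝕜 (↑(S1 ∪ S2) : Set ((Fin d → ℝ) → 𝕜))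
  have hU1 : Module.Finite 𝕜 U := FiniteDimensional.span_finset 𝕜 (S1 ∪ S2)
  have hU2 : Module.finrank 𝕜 U ≤ m := by
    refine (finrank_span_finset_le_card (S1 ∪ S2)).trans ?_
    refine (Finset.card_union_le _ _).trans ?_
    refine le_trans (add_le_add ?_ ?_) hdim
    · refine Finset.card_biUnion_le.trans (Finset.sum_le_sum fun n _ => ?_)
      refine Finset.card_image_le.trans ?_
      rw [Finset.card_univ, Fintype.card_prod, Fintype.card_coe, Fintype.card_fin, mul_comm]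
    · refine Finset.card_biUnion_le.trans (Finset.sum_le_sum fun n _ => ?_)
      refine Finset.card_image_le.trans ?_
      rw [Finset.card_univ, Fintype.card_fin]
  have hU3 : ∀ u ∈ U, MemLp u ⊤ (TP d) := by
    intro u hu
    induction hu using Submodule.span_induction with
    | mem u hu =>
      rw [Finset.mem_coe, Finset.mem_union] at hu
      rcases hu with hu | hu
      · obtain ⟨n, _, hu⟩ := Finset.mem_biUnion.mp hu
        obtain ⟨i, _, rfl⟩ := Finset.mem_image.mp hu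
        exact wT_memLp 𝕜 _
      · obtain ⟨n, _, hu⟩ := Finset.mem_biUnion.mp hu
        obtain ⟨i, _, rfl⟩ := Finset.mem_image.mp hu
        exact wT_memLp 𝕜 _
    | zero => exact MemLp.zero
    | add u v _ _ h1 h2 => exact h1.add h2
    | smul c u _ h => exact h.const_smul c
  have hmem1 : ∀ n ∈ Finset.range n0, ∀ a : (layer d n) × Fin 2 → ℝ, wT 𝕜 a ∈ U := by
    intro n hn a
    have ha : a = ∑ i, a i • (Pi.single i (1:ℝ) : (layer d n) × Fin 2 → ℝ) := by
      funext i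
      simp [Finset.sum_apply, Pi.single_apply]
    rw [ha, map_sum]
    refine Submodule.sum_mem _ fun i _ => ?_
    rw [map_smul]
    refine Submodule.smul_of_tower_mem _ _ ?_
    apply Submodule.subset_span
    rw [Finset.mem_coe, Finset.mem_union]
    left
    exact Finset.mem_biUnion.mpr ⟨n, hn, Finset.mem_image.mpr ⟨i, Finset.mem_univ _, rfl⟩⟩
  have hmem2 : ∀ n ∈ Finset.Ico n0 n1, ∀ j, wT 𝕜 (G n j) ∈ U := by
    intro n hn j
    apply Submodule.subset_span
    rw [Finset.mem_coe, Finset.mem_union]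
    right
    exact Finset.mem_biUnion.mpr ⟨n, hn, Finset.mem_image.mpr ⟨j, Finset.mem_univ _, rfl⟩⟩
  unfold kolW2
  refine (iInf₂_le U ⟨hU1, hU2, hU3⟩).trans ?_
  refine iSup₂_le fun f hf => ?_
  have hq1 : (1:ℝ≥0∞) ≤ ENNReal.ofReal q := by
    rw [← ENNReal.ofReal_one]
    exact ENNReal.ofReal_le_ofReal (by linarith)
  have hWF := ML_memC 𝕜 (ENNReal.ofReal q) hq1 r (by linarith) α f hf
  obtain ⟨A, g, -, hA', hAs, hfg⟩ := hsplit _ hWF μs
  have hA : ∀ n, ∑ i, A n i ^ 2 ≤ (C1 * upaC r q μs n)^2 := fun n => by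
    refine (hA' n).trans (le_of_eq ?_)
    unfold upaC
    ring
  -- the approximation in the middle layers
  have hmid : ∀ n : ℕ, ∃ β : Fin (M n) → ℝ, ∀ x, ‖poly (A n) x - ∑ j, (β j : ℂ) * poly (G n j) x‖
      ≤ C1 * upaC r q μs n * (C2 * Real.sqrt (((n:ℝ)+1) * (layer d n).card / M n)) := by
    intro n
    set c : ℝ := C1 * upaC r q μs n with hc
    have hcpos : 0 < c := mul_pos hC1 (upaC_pos _ _ _ _)
    have h1 : ∑ i, (c⁻¹ * A n i) ^ 2 ≤ 1 := by
      have h2 : ∑ i, (c⁻¹ * A n i) ^ 2 = (c⁻¹)^2 * ∑ i, A n i ^ 2 := by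
        rw [Finset.mul_sum]
        exact Finset.sum_congr rfl fun i _ => by ring
      rw [h2]
      calc (c⁻¹)^2 * ∑ i, A n i ^ 2 ≤ (c⁻¹)^2 * c^2 := by
            gcongr
            exact hA n
        _ = 1 := by field_simp
    obtain ⟨β, hβ⟩ := hG n _ h1
    refine ⟨fun j => c * β j, fun x => ?_⟩
    have h3 : poly (A n) x - ∑ j, ((c * β j : ℝ) : ℂ) * poly (G n j) x
        = (c : ℂ) * poly (fun i => c⁻¹ * A n i - ∑ j, β j * G n j i) x := by
      have h4 : (fun i => c⁻¹ * A n i - ∑ j, β j * G n j i) = c⁻¹ • A n - ∑ j, β j • G n j := by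
        funext i
        simp [Finset.sum_apply]
      rw [h4, ← wPL_apply, ← wPL_apply, map_sub, map_sum, map_smul, mul_sub, Finset.mul_sum,
        Complex.real_smul]
      congr 1
      · rw [← mul_assoc, ← Complex.ofReal_mul, mul_inv_cancel₀ hcpos.ne', Complex.ofReal_one, one_mul]
      · refine Finset.sum_congr rfl fun j _ => ?_
        rw [map_smul, Complex.real_smul, wPL_apply]
        push_cast
        ring
    rw [h3, norm_mul, Complex.norm_real, Real.norm_of_nonneg hcpos.le]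
    gcongr
    exact hβ x
  choose β hβ using hmid
  let u : (Fin d → ℝ) → 𝕜 := ∑ n ∈ Finset.range n0, wT 𝕜 (A n) +
    ∑ n ∈ Finset.Ico n0 n1, ∑ j, β n j • wT 𝕜 (G n j)
  have huU : u ∈ U := by
    refine Submodule.add_mem _ (Submodule.sum_mem _ fun n hn => hmem1 n hn _) ?_
    refine Submodule.sum_mem _ fun n hn => Submodule.sum_mem _ fun j _ => ?_
    exact Submodule.smul_of_tower_mem _ _ (hmem2 n hn j)
  refine (iInf₂_le u huU).trans ?_
  rw [eLpNorm_exponent_top]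
  refine eLpNormEssSup_le_of_ae_bound ?_
  filter_upwards [hfg] with x hxf
  have hx := hAs x
  have hx1 := (hasSum_nat_add_iff' n1).mpr hx
  have htail : ‖g x - ∑ i ∈ Finset.range n1, poly (A i) x‖ ≤
      2 * C1 * ∑' n : ℕ, upaC r q μs (n + n1) * Real.sqrt (layer d (n + n1)).card := by
    have h5 : HasSum (fun n : ℕ => 2 * C1 * (upaC r q μs (n + n1) *
        Real.sqrt (layer d (n + n1)).card)) (2 * C1 * ∑' n : ℕ, upaC r q μs (n + n1) *
        Real.sqrt (layer d (n + n1)).card) := ((summable_nat_add_iff n1).mpr hsum).hasSum.mul_left _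
    refine hx1.norm_le_of_bounded h5 fun n => ?_
    refine (wpoly_bd _ _).trans ?_
    have h6 : Real.sqrt (∑ i, A (n + n1) i ^ 2) ≤ C1 * upaC r q μs (n + n1) :=
      (Real.sqrt_le_sqrt (hA (n + n1))).trans (by rw [Real.sqrt_sq (mul_pos hC1 (upaC_pos _ _ _ _)).le])
    calc 2 * Real.sqrt (layer d (n + n1)).card * Real.sqrt (∑ i, A (n + n1) i ^ 2)
        ≤ 2 * Real.sqrt (layer d (n + n1)).card * (C1 * upaC r q μs (n + n1)) := by gcongr
      _ = _ := by ring
  have hsplit2 : ∑ i ∈ Finset.range n1, poly (A i) x = ∑ i ∈ Finset.range n0, poly (A i) x +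
      ∑ i ∈ Finset.Ico n0 n1, poly (A i) x := by
    rw [Finset.sum_range_add_sum_Ico _ hn01]
  have hmidsum : ‖∑ n ∈ Finset.Ico n0 n1, (poly (A n) x - ∑ j, (β n j : ℂ) * poly (G n j) x)‖ ≤
      C1 * C2 * ∑ n ∈ Finset.Ico n0 n1, upaC r q μs n *
        Real.sqrt (((n:ℝ)+1) * (layer d n).card / M n) := by
    refine (norm_sum_le _ _).trans ?_
    rw [Finset.mul_sum]
    refine Finset.sum_le_sum fun n _ => ?_
    refine (hβ n x).trans (le_of_eq ?_)
    ring
  have hfu : f x - u x = wio 𝕜 ((toC (f x) - g x) + ((g x - ∑ i ∈ Finset.range n1, poly (A i) x) +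
      ∑ n ∈ Finset.Ico n0 n1, (poly (A n) x - ∑ j, (β n j : ℂ) * poly (G n j) x))) := by
    have h7 : u x = wio 𝕜 (∑ n ∈ Finset.range n0, poly (A n) x +
        ∑ n ∈ Finset.Ico n0 n1, ∑ j, (β n j : ℂ) * poly (G n j) x) := by
      simp only [u, Pi.add_apply, Finset.sum_apply, Pi.smul_apply, wT_apply, map_add, map_sum]
      congr 1
      refine Finset.sum_congr rfl fun n _ => Finset.sum_congr rfl fun j _ => ?_
      rw [← Complex.real_smul, map_smul]
    rw [h7]
    conv_lhs => rw [← wio_toC 𝕜 (f x)]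
    rw [← map_sub]
    congr 1
    rw [hsplit2, Finset.sum_sub_distrib]
    ring
  rw [hfu]
  refine (wio_norm 𝕜 _).trans ?_
  have hpos1 : 0 ≤ ∑ n ∈ Finset.Ico n0 n1, upaC r q μs n *
      Real.sqrt (((n:ℝ)+1) * (layer d n).card / M n) :=
    Finset.sum_nonneg fun n _ => mul_nonneg (upaC_pos _ _ _ _).le (Real.sqrt_nonneg _)
  have hpos2 : 0 ≤ ∑' n : ℕ, upaC r q μs (n + n1) * Real.sqrt (layer d (n + n1)).card :=
    tsum_nonneg fun n => mul_nonneg (upaC_pos _ _ _ _).le (Real.sqrt_nonneg _)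
  have hpos3 : 0 ≤ ((μs:ℝ)+1)^(d-1) * (2:ℝ)^(-(r * μs)) := by positivity
  have h8 := (norm_add_le (toC (f x) - g x) ((g x - ∑ i ∈ Finset.range n1, poly (A i) x) +
    (∑ n ∈ Finset.Ico n0 n1, (poly (A n) x - ∑ j, (β n j : ℂ) * poly (G n j) x)))).trans
    (add_le_add hxf ((norm_add_le _ _).trans (add_le_add htail hmidsum)))
  set P1 := ∑ n ∈ Finset.Ico n0 n1, upaC r q μs n * Real.sqrt (((n:ℝ)+1) * (layer d n).card / M n)
    with hP1
  set P2 := ∑' n : ℕ, upaC r q μs (n + n1) * Real.sqrt (layer d (n + n1)).card with hP2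
  have h9 : C1 * ((μs:ℝ)+1)^(d-1) * (2:ℝ)^(-(r * μs)) + (2 * C1 * P2 + C1 * C2 * P1)
      ≤ (C1 * C2 + 3 * C1) * (C3 * psiA d r m) := by
    calc _ ≤ (C1 * C2 + 3 * C1) * (P1 + P2 + ((μs:ℝ)+1)^(d-1) * (2:ℝ)^(-(r * μs))) := by
          have hp1 : 0 ≤ C1 * C2 := by positivity
          have e1 : C1 * ((μs:ℝ)+1)^(d-1) * (2:ℝ)^(-(r * μs))
              = C1 * (((μs:ℝ)+1)^(d-1) * (2:ℝ)^(-(r * μs))) := by ring
          rw [e1]
          have hp3 := mul_nonneg hC1.le hpos1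
          have hp4 := mul_nonneg hC1.le hpos2
          have hp5 := mul_nonneg hC1.le hpos3
          have hp6 := mul_nonneg hp1 hpos2
          have hp7 := mul_nonneg hp1 hpos3
          nlinarith
      _ ≤ _ := by
          have : 0 ≤ C1 * C2 + 3 * C1 := by positivity
          exact mul_le_mul_of_nonneg_left hbd this
  calc 2 * ‖_‖ ≤ 2 * ((C1 * C2 + 3 * C1) * (C3 * psiA d r m)) := by
        gcongr
        exact h8.trans h9
    _ = 2 * (C1 * C2 + 3 * C1) * C3 * psiA d r m := by ring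

end SmSm
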