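import Pool.Agent.H636R2.SM.Spec
import Pool.Agent.KX.L_width_up2
open MeasureTheory Real ProbabilityTheory
open scoped ENNReal BigOperators

/-! Task UPB: upper bound of the widths, smoothness 1/2 -/

namespace SmSm
open HypVol MWidth

namespace UPBx
open HypVol.Sol_KX_width_up2 HypVol.Sol_KX_wf_split

/-- evaluation of `gp` as a real linear map -/
noncomputable def gPL {d : ℕ} (Λ : Finset (Fin d → ℤ)) (x : Fin d → ℝ) :
    (Λ × Fin 2 → ℝ) →ₗ[ℝ] ℂ where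
  toFun a := gp Λ a x
  map_add' a b := by
    unfold gp
    rw [← Finset.sum_add_distrib]
    refine Finset.sum_congr rfl fun k _ => ?_
    simp only [Pi.add_apply]
    push_cast
    ring
  map_smul' c a := by
    unfold gp
    simp only [RingHom.id_apply]
    rw [Finset.smul_sum]
    refine Finset.sum_congr rfl fun k _ => ?_
    simp only [Pi.smul_apply, smul_eq_mul, Complex.real_smul]
    push_cast
    ring

theorem gPL_apply {d : ℕ} (Λ : Finset (Fin d → ℤ)) (x : Fin d → ℝ) (a : Λ × Fin 2 → ℝ) :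
    gPL Λ x a = gp Λ a x := rfl

theorem gp_bd {d : ℕ} (Λ : Finset (Fin d → ℤ)) (a : Λ × Fin 2 → ℝ) (x : Fin d → ℝ) :
    ‖gp Λ a x‖ ≤ ∑ i, |a i| := by
  unfold gp
  refine (norm_sum_le _ _).trans ?_
  rw [Fintype.sum_prod_type]
  refine Finset.sum_le_sum fun k _ => ?_
  rw [norm_mul]
  have he : ‖Complex.exp (Complex.I * ((∑ j, (k.1 j : ℝ) * x j : ℝ) : ℂ))‖ = 1 := by
    rw [mul_comm]
    exact Complex.norm_exp_ofReal_mul_I _
  rw [he, mul_one, Fin.sum_univ_two]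
  refine (norm_add_le _ _).trans ?_
  rw [norm_mul, Complex.norm_I, mul_one, Complex.norm_real, Complex.norm_real]
  rfl

theorem gp_cont {d : ℕ} (Λ : Finset (Fin d → ℤ)) (a : Λ × Fin 2 → ℝ) : Continuous (gp Λ a) := by
  unfold gp
  refine continuous_finsetSum _ fun k _ => ?_
  refine continuous_const.mul (Complex.continuous_exp.comp (continuous_const.mul ?_))
  refine Complex.continuous_ofReal.comp ?_
  refine continuous_finsetSum _ fun j _ => ?_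
  exact continuous_const.mul (continuous_apply j)

/-- generator -/
noncomputable def gT (𝕜 : Type) [RCLike 𝕜] {d : ℕ} (Λ : Finset (Fin d → ℤ)) :
    (Λ × Fin 2 → ℝ) →ₗ[ℝ] ((Fin d → ℝ) → 𝕜) :=
  LinearMap.pi (fun x => (wio 𝕜) ∘ₗ (gPL Λ x))

theorem gT_apply (𝕜 : Type) [RCLike 𝕜] {d : ℕ} (Λ : Finset (Fin d → ℤ)) (a : Λ × Fin 2 → ℝ)
    (x : Fin d → ℝ) : gT 𝕜 Λ a x = wio 𝕜 (gp Λ a x) := rfl

theorem gT_memLp (𝕜 : Type) [RCLike 𝕜] {d : ℕ} (Λ : Finset (Fin d → ℤ)) (a : Λ × Fin 2 → ℝ) :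
    MemLp (gT 𝕜 Λ a) ⊤ (TP d) := by
  have hc : Continuous (gT 𝕜 Λ a) := (wio_cont 𝕜).comp (gp_cont Λ a)
  refine memLp_top_of_bound hc.aestronglyMeasurable
    (2 * ∑ i, |a i|) (Filter.Eventually.of_forall fun x => ?_)
  rw [gT_apply]
  exact (wio_norm 𝕜 _).trans (by gcongr; exact gp_bd Λ a x)

/-- weight of a frequency -/
noncomputable def wgt {d : ℕ} (k : Fin d → ℤ) : ℝ := (2:ℝ)^(-((wN k : ℝ)/2))

theorem wgt_pos {d : ℕ} (k : Fin d → ℤ) : 0 < wgt k := by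
  unfold wgt
  positivity

theorem wgt_sq {d : ℕ} (k : Fin d → ℤ) : (wgt k)^2 = (2:ℝ)^(-(wN k : ℝ)) := by
  unfold wgt
  rw [← Real.rpow_natCast, ← Real.rpow_mul (by norm_num)]
  congr 1
  push_cast
  ring

theorem wgt_inv_sq {d : ℕ} (k : Fin d → ℤ) : ((wgt k)⁻¹)^2 = (2:ℝ)^(wN k : ℝ) := by
  rw [inv_pow, wgt_sq, Real.rpow_neg (by norm_num), inv_inv]

/-- the union of the layers -/
noncomputable def Lam (d n0 n1 : ℕ) : Finset (Fin d → ℤ) :=
  (Finset.Ico n0 n1).biUnion (fun n => layer d n)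

theorem sum_Lam {M : Type*} [AddCommMonoid M] (d n0 n1 : ℕ) (F : (Fin d → ℤ) → M) :
    ∑ k ∈ Lam d n0 n1, F k = ∑ n ∈ Finset.Ico n0 n1, ∑ k ∈ layer d n, F k := by
  classical
  unfold Lam
  rw [Finset.sum_biUnion]
  intro n _ n' _ hnn
  simp only [Function.onFun]
  rw [Finset.disjoint_left]
  intro k hk hk'
  rw [wlayer_iff] at hk hk'
  exact hnn (hk.trans hk'.symm)

/-- total extension of the coordinates -/
noncomputable def tot {d : ℕ} (A : ∀ n : ℕ, (layer d n) × Fin 2 → ℝ) (k : Fin d → ℤ)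
    (e : Fin 2) : ℝ := A (wN k) (⟨k, (wlayer_iff k).2 rfl⟩, e)

theorem tot_eq {d : ℕ} (A : ∀ n : ℕ, (layer d n) × Fin 2 → ℝ) {n : ℕ} (k : layer d n)
    (e : Fin 2) : tot A k.1 e = A n (k, e) := by
  obtain ⟨k, hk⟩ := k
  have h : n = wN k := (wlayer_iff k).1 hk
  subst h
  rfl

theorem poly_eq {d : ℕ} (A : ∀ n : ℕ, (layer d n) × Fin 2 → ℝ) (n : ℕ) (x : Fin d → ℝ) :
    poly (A n) x = ∑ k ∈ layer d n, ((tot A k 0 : ℂ) + (tot A k 1 : ℂ) * Complex.I) *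
      Complex.exp (Complex.I * ((∑ j, (k j : ℝ) * x j : ℝ) : ℂ)) := by
  rw [← Finset.sum_coe_sort (layer d n)]
  unfold poly
  refine Finset.sum_congr rfl fun k _ => ?_
  rw [tot_eq, tot_eq]

theorem gp_eq {d : ℕ} (A : ∀ n : ℕ, (layer d n) × Fin 2 → ℝ) (n0 n1 : ℕ) (x : Fin d → ℝ) :
    gp (Lam d n0 n1) (fun i => tot A i.1.1 i.2) x = ∑ n ∈ Finset.Ico n0 n1, poly (A n) x := by
  have h : ∀ n ∈ Finset.Ico n0 n1, poly (A n) x = ∑ k ∈ layer d n,
      ((tot A k 0 : ℂ) + (tot A k 1 : ℂ) * Complex.I) *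
      Complex.exp (Complex.I * ((∑ j, (k j : ℝ) * x j : ℝ) : ℂ)) := fun n _ => poly_eq A n x
  rw [Finset.sum_congr rfl h, ← sum_Lam, ← Finset.sum_coe_sort (Lam d n0 n1)]
  rfl

theorem sq_eq {d : ℕ} (A : ∀ n : ℕ, (layer d n) × Fin 2 → ℝ) (n0 n1 : ℕ) :
    ∑ i : (Lam d n0 n1) × Fin 2, ((wgt i.1.1)⁻¹ * tot A i.1.1 i.2)^2 =
      ∑ n ∈ Finset.Ico n0 n1, (2:ℝ)^(n:ℝ) * ∑ i, A n i ^ 2 := by
  rw [Fintype.sum_prod_type]
  have h1 : ∀ k : Lam d n0 n1, ∑ e : Fin 2, ((wgt k.1)⁻¹ * tot A k.1 e)^2 =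
      (fun k : Fin d → ℤ => ∑ e : Fin 2, ((wgt k)⁻¹ * tot A k e)^2) k.1 := fun _ => rfl
  rw [Finset.sum_congr rfl (fun k _ => h1 k),
    Finset.sum_coe_sort (Lam d n0 n1) (fun k : Fin d → ℤ => ∑ e : Fin 2, ((wgt k)⁻¹ * tot A k e)^2),
    sum_Lam]
  refine Finset.sum_congr rfl fun n _ => ?_
  rw [← Finset.sum_coe_sort (layer d n), Fintype.sum_prod_type, Finset.mul_sum]
  refine Finset.sum_congr rfl fun k _ => ?_
  rw [Finset.mul_sum]
  refine Finset.sum_congr rfl fun e _ => ?_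
  rw [mul_pow, wgt_inv_sq, tot_eq, ← (wlayer_iff k.1).1 k.2]

theorem wsum_eq (d n0 n1 : ℕ) : ∑ k ∈ Lam d n0 n1, (wgt k)^2 =
    ∑ n ∈ Finset.Ico n0 n1, (2:ℝ)^(-(n:ℝ)) * (layer d n).card := by
  rw [sum_Lam]
  refine Finset.sum_congr rfl fun n _ => ?_
  have : ∀ k ∈ layer d n, (wgt k)^2 = (2:ℝ)^(-(n:ℝ)) := by
    intro k hk
    rw [wgt_sq, ← (wlayer_iff k).1 hk]
  rw [Finset.sum_congr rfl this, Finset.sum_const, nsmul_eq_mul, mul_comm]

theorem Lam_bd {d n0 n1 : ℕ} : ∀ k ∈ Lam d n0 n1, ∀ j, |k j| < (2:ℤ)^n1 := by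
  classical
  intro k hk j
  unfold Lam at hk
  obtain ⟨n, hn, hk⟩ := Finset.mem_biUnion.mp hk
  unfold layer at hk
  rw [Finset.mem_filter, Fintype.mem_piFinset] at hk
  have h1 := Finset.mem_Ioo.mp (hk.1 j)
  have h2 : (2:ℤ)^n ≤ 2^n1 := pow_le_pow_right₀ (by norm_num) (Finset.mem_Ico.mp hn).2.le
  rw [abs_lt]
  constructor
  · linarith [h1.1]
  · linarith [h1.2]

end UPBx

open UPBx HypVol.Sol_KX_width_up2 HypVol.Sol_KX_wf_split in
theorem upb (h1 : S_SPLIT) (h2 : S_JOINT) (h3 : S_NUMUB) : S_UPB := by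
  classical
  intro 𝕜 _ d hd q hq α
  have hq0 : 0 < q := by linarith
  have hqh : 1 / q < 1 / 2 := one_div_lt_one_div_of_lt (by norm_num) hq
  obtain ⟨C1, hC1, hsplit⟩ := h1 d (by omega) q (1/2) hq hqh α
  obtain ⟨CJ, hCJ, hjoint⟩ := h2 d
  obtain ⟨C2, hC2, happ⟩ := layer_approx d
  obtain ⟨C3, hC3, hnum⟩ := h3 d hd q hq
  obtain ⟨D, hD⟩ : ∃ D : ℝ, D = C1 * CJ + C1 * C2 + 2 * C1 + C1 := ⟨_, rfl⟩
  have hDpos : 0 < D := by rw [hD]; positivity
  refine ⟨2 * D * C3, by positivity, fun m hm => ?_⟩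
  obtain ⟨n0, n1, μs, Ms, M, hn0, hn1, hMs, hM1, hdim, hsum, hbd⟩ := hnum m hm
  have hG : ∀ n : ℕ, ∃ G : Fin (M n) → ((layer d n) × Fin 2 → ℝ), ∀ a : (layer d n) × Fin 2 → ℝ,
      ∑ i, a i ^ 2 ≤ 1 → ∃ β : Fin (M n) → ℝ, ∀ x, ‖poly (fun i => a i - ∑ j, β j * G j i) x‖
        ≤ C2 * Real.sqrt (((n:ℝ)+1) * (layer d n).card / M n) := fun n => happ n (M n) (hM1 n)
  choose G hG using hG
  obtain ⟨H, hH⟩ := hjoint μs (Lam d n0 μs) wgt Ms hMs Lam_bd
  rw [wsum_eq] at hH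
  obtain ⟨EJ, hEJ⟩ : ∃ EJ : ℝ, EJ = Real.sqrt (((μs:ℝ)+1) *
    (∑ n ∈ Finset.Ico n0 μs, (2:ℝ)^(-(n:ℝ)) * (layer d n).card) / Ms) := ⟨_, rfl⟩
  rw [← hEJ] at hH hbd
  have hEJ0 : 0 ≤ EJ := by rw [hEJ]; positivity
  let S1 : Finset ((Fin d → ℝ) → 𝕜) := (Finset.range n0).biUnion
    (fun n => (Finset.univ : Finset ((layer d n) × Fin 2)).image (fun i => wT 𝕜 (Pi.single i 1)))
  let S2 : Finset ((Fin d → ℝ) → 𝕜) := (Finset.Ico μs n1).biUnion
    (fun n => (Finset.univ : Finset (Fin (M n))).image (fun j => wT 𝕜 (G n j)))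
  let S3 : Finset ((Fin d → ℝ) → 𝕜) := (Finset.univ : Finset (Fin Ms)).image
    (fun j => gT 𝕜 (Lam d n0 μs) (H j))
  let U : Submodule 𝕜 ((Fin d → ℝ) → 𝕜) :=
    Submodule.span 𝕜 (↑(S1 ∪ S3 ∪ S2) : Set ((Fin d → ℝ) → 𝕜))
  have hU1 : Module.Finite 𝕜 U := FiniteDimensional.span_finset 𝕜 (S1 ∪ S3 ∪ S2)
  have hU2 : Module.finrank 𝕜 U ≤ m := by
    refine (finrank_span_finset_le_card (S1 ∪ S3 ∪ S2)).trans ?_
    refine (Finset.card_union_le _ _).trans ?_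
    refine le_trans (add_le_add ((Finset.card_union_le _ _).trans (add_le_add ?_ ?_)) ?_) hdim
    · refine Finset.card_biUnion_le.trans (Finset.sum_le_sum fun n _ => ?_)
      refine Finset.card_image_le.trans ?_
      rw [Finset.card_univ, Fintype.card_prod, Fintype.card_coe, Fintype.card_fin, mul_comm]
    · refine Finset.card_image_le.trans ?_
      rw [Finset.card_univ, Fintype.card_fin]
    · refine Finset.card_biUnion_le.trans (Finset.sum_le_sum fun n _ => ?_)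
      refine Finset.card_image_le.trans ?_
      rw [Finset.card_univ, Fintype.card_fin]
  have hU3 : ∀ u ∈ U, MemLp u ⊤ (TP d) := by
    intro u hu
    induction hu using Submodule.span_induction with
    | mem u hu =>
      rw [Finset.mem_coe, Finset.mem_union, Finset.mem_union] at hu
      rcases hu with (hu | hu) | hu
      · obtain ⟨n, _, hu⟩ := Finset.mem_biUnion.mp hu
        obtain ⟨i, _, rfl⟩ := Finset.mem_image.mp hu
        exact wT_memLp 𝕜 _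
      · obtain ⟨i, _, rfl⟩ := Finset.mem_image.mp hu
        exact gT_memLp 𝕜 _ _
      · obtain ⟨n, _, hu⟩ := Finset.mem_biUnion.mp hu
        obtain ⟨i, _, rfl⟩ := Finset.mem_image.mp hu
        exact wT_memLp 𝕜 _
    | zero => exact MemLp.zero
    | add u v _ _ h1 h2 => exact h1.add h2
    | smul c u _ h => exact h.const_smul c
  have hmem1 : ∀ n ∈ Finset.range n0, ∀ a : (layer d n) × Fin 2 → ℝ, wT 𝕜 a ∈ U := by
    intro n hn a
    have ha : a = ∑ i, a i • (Pi.single i (1:ℝ) : (layer d n) × Fin 2 → ℝ) := by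
      funext i
      simp [Finset.sum_apply, Pi.single_apply]
    rw [ha, map_sum]
    refine Submodule.sum_mem _ fun i _ => ?_
    rw [map_smul]
    refine Submodule.smul_of_tower_mem _ _ ?_
    apply Submodule.subset_span
    rw [Finset.mem_coe, Finset.mem_union, Finset.mem_union]
    left; left
    exact Finset.mem_biUnion.mpr ⟨n, hn, Finset.mem_image.mpr ⟨i, Finset.mem_univ _, rfl⟩⟩
  have hmem2 : ∀ n ∈ Finset.Ico μs n1, ∀ j, wT 𝕜 (G n j) ∈ U := by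
    intro n hn j
    apply Submodule.subset_span
    rw [Finset.mem_coe, Finset.mem_union]
    right
    exact Finset.mem_biUnion.mpr ⟨n, hn, Finset.mem_image.mpr ⟨j, Finset.mem_univ _, rfl⟩⟩
  have hmem3 : ∀ j, gT 𝕜 (Lam d n0 μs) (H j) ∈ U := by
    intro j
    apply Submodule.subset_span
    rw [Finset.mem_coe, Finset.mem_union, Finset.mem_union]
    left; right
    exact Finset.mem_image.mpr ⟨j, Finset.mem_univ _, rfl⟩
  unfold kolW2
  refine (iInf₂_le U ⟨hU1, hU2, hU3⟩).trans ?_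
  refine iSup₂_le fun f hf => ?_
  have hq1 : (1:ℝ≥0∞) ≤ ENNReal.ofReal q := by
    rw [ENNReal.one_le_ofReal]
    linarith
  have hWF := ML_memC 𝕜 (ENNReal.ofReal q) hq1 (1/2) (by norm_num) α f hf
  obtain ⟨A, g, hA0, hA, hAg, hfg⟩ := hsplit _ hWF μs
  -- decay of the layers
  obtain ⟨θ, hθ⟩ : ∃ θ : ℕ → ℝ, θ = fun n : ℕ => (2:ℝ)^(-((1/2:ℝ) * n)) *
    (2:ℝ)^(-((1/2 - 1/q) * ((n - μs : ℕ) : ℝ))) := ⟨_, rfl⟩
  have hθ0 : ∀ n, 0 < θ n := by
    intro n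
    rw [hθ]
    positivity
  have hAθ : ∀ n, ∑ i, A n i ^ 2 ≤ (C1 * θ n)^2 := by
    intro n
    refine (hA n).trans (le_of_eq ?_)
    rw [hθ]
    ring
  -- the joint approximation
  have hjo : ∃ β : Fin Ms → ℝ, ∀ x, ‖∑ n ∈ Finset.Ico n0 μs, poly (A n) x -
      ∑ j, (β j : ℂ) * gp (Lam d n0 μs) (H j) x‖ ≤ C1 * (CJ * EJ) := by
    have h5 : ∑ i : (Lam d n0 μs) × Fin 2, (C1⁻¹ * ((wgt i.1.1)⁻¹ * tot A i.1.1 i.2)) ^ 2 ≤ 1 := by
      have h6 : ∑ i : (Lam d n0 μs) × Fin 2, (C1⁻¹ * ((wgt i.1.1)⁻¹ * tot A i.1.1 i.2)) ^ 2 =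
          (C1⁻¹)^2 * ∑ i : (Lam d n0 μs) × Fin 2, ((wgt i.1.1)⁻¹ * tot A i.1.1 i.2) ^ 2 := by
        rw [Finset.mul_sum]
        exact Finset.sum_congr rfl fun i _ => by ring
      rw [h6, sq_eq]
      have h7 : ∑ n ∈ Finset.Ico n0 μs, (2:ℝ)^(n:ℝ) * ∑ i, A n i ^ 2 ≤ C1^2 := by
        refine le_trans ?_ hA0
        calc ∑ n ∈ Finset.Ico n0 μs, (2:ℝ)^(n:ℝ) * ∑ i, A n i ^ 2 ≤
            ∑ n ∈ Finset.range μs, (2:ℝ)^(n:ℝ) * ∑ i, A n i ^ 2 := by
              apply Finset.sum_le_sum_of_subset_of_nonneg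
              · intro n hn
                rw [Finset.mem_range]
                exact (Finset.mem_Ico.mp hn).2
              · intro n _ _
                have : 0 ≤ ∑ i, A n i ^ 2 := Finset.sum_nonneg fun i _ => sq_nonneg _
                positivity
          _ = ∑ n ∈ Finset.range μs, (2:ℝ)^(2 * (1/2:ℝ) * n) * ∑ i, A n i ^ 2 := by
              refine Finset.sum_congr rfl fun n _ => ?_
              congr 2
              ring
      calc (C1⁻¹)^2 * ∑ n ∈ Finset.Ico n0 μs, (2:ℝ)^(n:ℝ) * ∑ i, A n i ^ 2 ≤ (C1⁻¹)^2 * C1^2 := by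
            gcongr
        _ = 1 := by field_simp
    obtain ⟨β, hβ⟩ := hH _ h5
    refine ⟨fun j => C1 * β j, fun x => ?_⟩
    have h8 : ∑ n ∈ Finset.Ico n0 μs, poly (A n) x -
        ∑ j, ((C1 * β j : ℝ) : ℂ) * gp (Lam d n0 μs) (H j) x =
        (C1 : ℂ) * gp (Lam d n0 μs) (fun i => wgt i.1.1 *
          (C1⁻¹ * ((wgt i.1.1)⁻¹ * tot A i.1.1 i.2)) - ∑ j, β j * H j i) x := by
      have h9 : (fun i : (Lam d n0 μs) × Fin 2 => wgt i.1.1 *
          (C1⁻¹ * ((wgt i.1.1)⁻¹ * tot A i.1.1 i.2)) - ∑ j, β j * H j i) =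
          C1⁻¹ • (fun i : (Lam d n0 μs) × Fin 2 => tot A i.1.1 i.2) - ∑ j, β j • H j := by
        funext i
        simp only [Pi.sub_apply, Pi.smul_apply, Finset.sum_apply, smul_eq_mul]
        congr 1
        have := (wgt_pos i.1.1).ne'
        field_simp
      rw [h9, ← gPL_apply, map_sub, map_sum, map_smul, mul_sub, Finset.mul_sum,
        Complex.real_smul, gPL_apply, gp_eq]
      congr 1
      · rw [← mul_assoc, ← Complex.ofReal_mul, mul_inv_cancel₀ hC1.ne', Complex.ofReal_one, one_mul]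
      · refine Finset.sum_congr rfl fun j _ => ?_
        rw [map_smul, Complex.real_smul, gPL_apply]
        push_cast
        ring
    rw [h8, norm_mul, Complex.norm_real, Real.norm_of_nonneg hC1.le]
    gcongr
    exact hβ x
  obtain ⟨βJ, hβJ⟩ := hjo
  -- the approximation in the middle layers
  have hmid : ∀ n : ℕ, ∃ β : Fin (M n) → ℝ, ∀ x, ‖poly (A n) x - ∑ j, (β j : ℂ) * poly (G n j) x‖
      ≤ C1 * θ n * (C2 * Real.sqrt (((n:ℝ)+1) * (layer d n).card / M n)) := by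
    intro n
    obtain ⟨c, hc⟩ : ∃ c : ℝ, c = C1 * θ n := ⟨_, rfl⟩
    rw [← hc]
    have hcpos : 0 < c := by rw [hc]; exact mul_pos hC1 (hθ0 n)
    have h1 : ∑ i, (c⁻¹ * A n i) ^ 2 ≤ 1 := by
      have h2 : ∑ i, (c⁻¹ * A n i) ^ 2 = (c⁻¹)^2 * ∑ i, A n i ^ 2 := by
        rw [Finset.mul_sum]
        exact Finset.sum_congr rfl fun i _ => by ring
      rw [h2]
      calc (c⁻¹)^2 * ∑ i, A n i ^ 2 ≤ (c⁻¹)^2 * c^2 := by
            gcongr
            rw [hc]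
            exact hAθ n
        _ = 1 := by field_simp
    obtain ⟨β, hβ⟩ := hG n _ h1
    refine ⟨fun j => c * β j, fun x => ?_⟩
    have h3 : poly (A n) x - ∑ j, ((c * β j : ℝ) : ℂ) * poly (G n j) x
        = (c : ℂ) * poly (fun i => c⁻¹ * A n i - ∑ j, β j * G n j i) x := by
      have h4 : (fun i => c⁻¹ * A n i - ∑ j, β j * G n j i) = c⁻¹ • A n - ∑ j, β j • G n j := by
        funext i
        simp [Finset.sum_apply]
      rw [h4, ← wPL_apply, ← wPL_apply, map_sub, map_sum, map_smul, mul_sub, Finset.mul_sum,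
        Complex.real_smul]
      congr 1
      · rw [← mul_assoc, ← Complex.ofReal_mul, mul_inv_cancel₀ hcpos.ne', Complex.ofReal_one, one_mul]
      · refine Finset.sum_congr rfl fun j _ => ?_
        rw [map_smul, Complex.real_smul, wPL_apply]
        push_cast
        ring
    rw [h3, norm_mul, Complex.norm_real, Real.norm_of_nonneg hcpos.le]
    gcongr
    exact hβ x
  choose β hβ using hmid
  let u : (Fin d → ℝ) → 𝕜 := ∑ n ∈ Finset.range n0, wT 𝕜 (A n) +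
    ∑ j, βJ j • gT 𝕜 (Lam d n0 μs) (H j) +
    ∑ n ∈ Finset.Ico μs n1, ∑ j, β n j • wT 𝕜 (G n j)
  have huU : u ∈ U := by
    refine Submodule.add_mem _ (Submodule.add_mem _
      (Submodule.sum_mem _ fun n hn => hmem1 n hn _) ?_) ?_
    · exact Submodule.sum_mem _ fun j _ => Submodule.smul_of_tower_mem _ _ (hmem3 j)
    · refine Submodule.sum_mem _ fun n hn => Submodule.sum_mem _ fun j _ => ?_
      exact Submodule.smul_of_tower_mem _ _ (hmem2 n hn j)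
  refine (iInf₂_le u huU).trans ?_
  rw [eLpNorm_exponent_top]
  refine eLpNormEssSup_le_of_ae_bound ?_
  filter_upwards [hfg] with x hx
  have hx1 := (hasSum_nat_add_iff' n1).mpr (hAg x)
  obtain ⟨T, hT⟩ : ∃ T : ℝ, T = ∑' n : ℕ, (2:ℝ)^(-((1/2:ℝ) * ((n + n1 : ℕ) : ℝ))) *
    (2:ℝ)^(-((1/2 - 1/q) * ((n + n1 - μs : ℕ) : ℝ))) * Real.sqrt (layer d (n + n1)).card := ⟨_, rfl⟩
  have hsum' : Summable (fun n : ℕ => (2:ℝ)^(-((1/2:ℝ) * ((n + n1 : ℕ) : ℝ))) *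
      (2:ℝ)^(-((1/2 - 1/q) * ((n + n1 - μs : ℕ) : ℝ))) * Real.sqrt (layer d (n + n1)).card) :=
    (summable_nat_add_iff n1).mpr hsum
  have htail : ‖g x - ∑ i ∈ Finset.range n1, poly (A i) x‖ ≤ 2 * C1 * T := by
    have h5 : HasSum (fun n : ℕ => 2 * C1 * ((2:ℝ)^(-((1/2:ℝ) * ((n + n1 : ℕ) : ℝ))) *
      (2:ℝ)^(-((1/2 - 1/q) * ((n + n1 - μs : ℕ) : ℝ))) * Real.sqrt (layer d (n + n1)).card))
        (2 * C1 * T) := by
      rw [hT]
      exact hsum'.hasSum.mul_left _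
    refine hx1.norm_le_of_bounded h5 fun n => ?_
    refine (wpoly_bd _ _).trans ?_
    have h6 : Real.sqrt (∑ i, A (n + n1) i ^ 2) ≤ C1 * θ (n + n1) :=
      (Real.sqrt_le_sqrt (hAθ (n + n1))).trans (by
        rw [Real.sqrt_sq (mul_pos hC1 (hθ0 _)).le])
    calc 2 * Real.sqrt (layer d (n + n1)).card * Real.sqrt (∑ i, A (n + n1) i ^ 2)
        ≤ 2 * Real.sqrt (layer d (n + n1)).card * (C1 * θ (n + n1)) := by gcongr
      _ = _ := by
        rw [hθ]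
        ring
  obtain ⟨MS, hMSd⟩ : ∃ MS : ℝ, MS = ∑ n ∈ Finset.Ico μs n1, (2:ℝ)^(-((1/2:ℝ) * n)) *
      (2:ℝ)^(-((1/2 - 1/q) * ((n - μs : ℕ) : ℝ))) *
        Real.sqrt (((n:ℝ)+1) * (layer d n).card / M n) := ⟨_, rfl⟩
  have hmidsum : ‖∑ n ∈ Finset.Ico μs n1, (poly (A n) x - ∑ j, (β n j : ℂ) * poly (G n j) x)‖ ≤
      C1 * C2 * MS := by
    refine (norm_sum_le _ _).trans ?_
    rw [hMSd, Finset.mul_sum]
    refine Finset.sum_le_sum fun n _ => ?_
    refine (hβ n x).trans (le_of_eq ?_)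
    rw [hθ]
    ring
  obtain ⟨W, hW⟩ : ∃ W : ℝ, W = ((μs:ℝ)+1)^(d-1) * (2:ℝ)^(-((1/2:ℝ) * μs)) := ⟨_, rfl⟩
  have hx' : ‖toC (f x) - g x‖ ≤ C1 * W := by
    refine hx.trans (le_of_eq ?_)
    rw [hW]
    ring
  have hsplit2 : ∑ i ∈ Finset.range n1, poly (A i) x = ∑ i ∈ Finset.range n0, poly (A i) x +
      ∑ i ∈ Finset.Ico n0 μs, poly (A i) x + ∑ i ∈ Finset.Ico μs n1, poly (A i) x := by
    rw [Finset.sum_range_add_sum_Ico _ hn0, Finset.sum_range_add_sum_Ico _ hn1]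
  have hfu : f x - u x = wio 𝕜 ((toC (f x) - g x) + (g x - ∑ i ∈ Finset.range n1, poly (A i) x) +
      (∑ n ∈ Finset.Ico n0 μs, poly (A n) x - ∑ j, (βJ j : ℂ) * gp (Lam d n0 μs) (H j) x) +
      ∑ n ∈ Finset.Ico μs n1, (poly (A n) x - ∑ j, (β n j : ℂ) * poly (G n j) x)) := by
    have h7 : u x = wio 𝕜 (∑ n ∈ Finset.range n0, poly (A n) x +
        ∑ j, (βJ j : ℂ) * gp (Lam d n0 μs) (H j) x +
        ∑ n ∈ Finset.Ico μs n1, ∑ j, (β n j : ℂ) * poly (G n j) x) := by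
      simp only [u, Pi.add_apply, Finset.sum_apply, Pi.smul_apply, wT_apply, gT_apply, map_add,
        map_sum]
      congr 1
      · congr 1
        refine Finset.sum_congr rfl fun j _ => ?_
        rw [← Complex.real_smul, map_smul]
      · refine Finset.sum_congr rfl fun n _ => Finset.sum_congr rfl fun j _ => ?_
        rw [← Complex.real_smul, map_smul]
    rw [h7]
    conv_lhs => rw [← wio_toC 𝕜 (f x)]
    rw [← map_sub]
    congr 1
    rw [hsplit2, Finset.sum_sub_distrib]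
    ring
  rw [hfu]
  refine (wio_norm 𝕜 _).trans ?_
  have hMS0 : 0 ≤ MS := by
    rw [hMSd]
    exact Finset.sum_nonneg fun n _ => by positivity
  have hT0 : 0 ≤ T := by
    rw [hT]
    exact tsum_nonneg fun n => by positivity
  have hW0 : 0 ≤ W := by rw [hW]; positivity
  rw [← hMSd, ← hT, ← hW] at hbd
  have h8 : ‖(toC (f x) - g x) + (g x - ∑ i ∈ Finset.range n1, poly (A i) x) +
      (∑ n ∈ Finset.Ico n0 μs, poly (A n) x - ∑ j, (βJ j : ℂ) * gp (Lam d n0 μs) (H j) x) +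
      ∑ n ∈ Finset.Ico μs n1, (poly (A n) x - ∑ j, (β n j : ℂ) * poly (G n j) x)‖ ≤
      C1 * W + 2 * C1 * T + C1 * (CJ * EJ) + C1 * C2 * MS := by
    refine (norm_add_le _ _).trans (add_le_add ((norm_add_le _ _).trans (add_le_add
      ((norm_add_le _ _).trans (add_le_add hx' htail)) (hβJ x))) hmidsum)
  have h9 : C1 * W + 2 * C1 * T + C1 * (CJ * EJ) + C1 * C2 * MS ≤ D * (EJ + MS + T + W) := by
    have p1 : 0 ≤ C1 * CJ := by positivity
    have p2 : 0 ≤ C1 * C2 := by positivity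
    have p3 : 0 ≤ 2 * C1 := by positivity
    have e : D * (EJ + MS + T + W) = (C1 * W + 2 * C1 * T + C1 * (CJ * EJ) + C1 * C2 * MS) +
      ((C1 * CJ) * (MS + T + W) + (C1 * C2) * (EJ + T + W) + (2 * C1) * (EJ + MS + W) +
        C1 * (EJ + MS + T)) := by
      rw [hD]
      ring
    rw [e]
    have q1 : 0 ≤ (C1 * CJ) * (MS + T + W) := mul_nonneg p1 (by linarith)
    have q2 : 0 ≤ (C1 * C2) * (EJ + T + W) := mul_nonneg p2 (by linarith)
    have q3 : 0 ≤ (2 * C1) * (EJ + MS + W) := mul_nonneg p3 (by linarith)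
    have q4 : 0 ≤ C1 * (EJ + MS + T) := mul_nonneg hC1.le (by linarith)
    linarith
  calc 2 * ‖_‖ ≤ 2 * (D * (C3 * psiB d m)) := by
        gcongr
        refine h8.trans (h9.trans ?_)
        gcongr
    _ = 2 * D * C3 * psiB d m := by ring

end SmSm
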