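import Pool.Agent.H636R2.SM.Spec
open MeasureTheory Real ProbabilityTheory
open scoped ENNReal BigOperators

/-! Task VP1 (helper61): `L₁` norm of a one dimensional smooth block. -/

namespace SmSm
open HypVol MWidth

/-- the multiplier -/
noncomputable def vp1_c (r α : ℝ) (k : ℤ) : ℂ :=
  if k = 0 then 1 else (((|(k : ℝ)|)^(-r) : ℝ) : ℂ) *
    Complex.exp (-(Complex.I * (((SignType.sign k : ℤ) : ℝ) * α * π / 2 : ℝ)))

theorem vp1_clamp (a b : ℝ) : |max 0 (min 1 a) - max 0 (min 1 b)| ≤ |a - b| := by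
  rcases le_total a b with hab | hab
  · rw [abs_of_nonpos (sub_nonpos.2 hab), abs_of_nonpos (sub_nonpos.2
      (max_le_max le_rfl (min_le_min le_rfl hab)))]
    rcases le_total b 0 with h1 | h1
    · have e1 : max 0 (min 1 a) = 0 := max_eq_left ((min_le_right _ _).trans (hab.trans h1))
      have e2 : max 0 (min 1 b) = 0 := max_eq_left ((min_le_right _ _).trans h1)
      rw [e1, e2]; linarith
    · rcases le_total a 0 with h2 | h2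
      · have e1 : max 0 (min 1 a) = 0 := max_eq_left ((min_le_right _ _).trans h2)
        have e2 : max 0 (min 1 b) ≤ b := max_le h1 (min_le_right _ _)
        rw [e1]; linarith
      · have e0 : max 0 (min 1 a) = min 1 a := max_eq_right (le_min zero_le_one h2)
        have e0' : max 0 (min 1 b) = min 1 b := max_eq_right (le_min zero_le_one h1)
        rw [e0, e0']
        rcases le_total 1 a with h3 | h3
        · rw [min_eq_left h3, min_eq_left (h3.trans hab)]; linarith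
        · rw [min_eq_right h3]
          have := min_le_right 1 b
          linarith
  · rw [abs_of_nonneg (sub_nonneg.2 hab), abs_of_nonneg (sub_nonneg.2
      (max_le_max le_rfl (min_le_min le_rfl hab)))]
    rcases le_total a 0 with h1 | h1
    · have e1 : max 0 (min 1 a) = 0 := max_eq_left ((min_le_right _ _).trans h1)
      have e2 : max 0 (min 1 b) = 0 := max_eq_left ((min_le_right _ _).trans (hab.trans h1))
      rw [e1, e2]; linarith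
    · rcases le_total b 0 with h2 | h2
      · have e1 : max 0 (min 1 b) = 0 := max_eq_left ((min_le_right _ _).trans h2)
        have e2 : max 0 (min 1 a) ≤ a := max_le h1 (min_le_right _ _)
        rw [e1]; linarith
      · have e0 : max 0 (min 1 a) = min 1 a := max_eq_right (le_min zero_le_one h1)
        have e0' : max 0 (min 1 b) = min 1 b := max_eq_right (le_min zero_le_one h2)
        rw [e0, e0']
        rcases le_total 1 b with h3 | h3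
        · rw [min_eq_left h3, min_eq_left (h3.trans hab)]; linarith
        · rw [min_eq_right h3]
          have := min_le_right 1 a
          linarith

theorem vp1_vp_lip (s : ℕ) (k : ℤ) : |vp s (k + 1) - vp s k| ≤ ((2:ℝ)^s)⁻¹ := by
  unfold vp
  refine (vp1_clamp _ _).trans ?_
  have h2 : (0:ℝ) < 2^s := by positivity
  have h1 : (2 - |((k + 1 : ℤ) : ℝ)| / 2^s) - (2 - |(k:ℝ)| / 2^s) =
      (|(k:ℝ)| - |((k + 1 : ℤ) : ℝ)|) * ((2:ℝ)^s)⁻¹ := by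
    field_simp
    ring
  rw [h1, abs_mul, abs_of_pos (inv_pos.2 h2)]
  have h3 : |(|(k:ℝ)| - |((k + 1 : ℤ) : ℝ)|)| ≤ 1 := by
    refine (abs_abs_sub_abs_le _ _).trans ?_
    push_cast
    rw [show (k:ℝ) - (k + 1) = -1 by ring]
    norm_num
  calc _ ≤ 1 * ((2:ℝ)^s)⁻¹ := mul_le_mul_of_nonneg_right h3 (inv_pos.2 h2).le
    _ = _ := one_mul _

theorem vp1_vp_nonneg (s : ℕ) (k : ℤ) : 0 ≤ vp s k := le_max_left _ _

theorem vp1_vp_le (s : ℕ) (k : ℤ) : vp s k ≤ 1 := max_le zero_le_one (min_le_left _ _)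

theorem vp1_vp_one {s : ℕ} {k : ℤ} (h : |(k:ℝ)| ≤ 2^s) : vp s k = 1 := by
  unfold vp
  have h2 : (0:ℝ) < 2^s := by positivity
  have h1 : |(k:ℝ)| / 2^s ≤ 1 := by rwa [div_le_one h2]
  rw [min_eq_left (by linarith), max_eq_right zero_le_one]

theorem vp1_vp_zero {s : ℕ} {k : ℤ} (h : 2 * 2^s ≤ |(k:ℝ)|) : vp s k = 0 := by
  unfold vp
  have h2 : (0:ℝ) < 2^s := by positivity
  have h1 : 2 ≤ |(k:ℝ)| / 2^s := by rwa [le_div_iff₀ h2]
  rw [max_eq_left]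
  exact (min_le_right _ _).trans (by linarith)

theorem vp1_va_abs (s : ℕ) (k : ℤ) : |va s k| ≤ 1 := by
  unfold va
  have h1 := vp1_vp_nonneg s k
  have h2 := vp1_vp_le s k
  split_ifs
  · rw [sub_zero, abs_of_nonneg h1]; exact h2
  · have h3 := vp1_vp_nonneg (s-1) k
    have h4 := vp1_vp_le (s-1) k
    rw [abs_le]
    constructor <;> linarith

theorem vp1_va_lip (s : ℕ) (k : ℤ) : |va s (k + 1) - va s k| ≤ 3 * ((2:ℝ)^s)⁻¹ := by
  have h1 := vp1_vp_lip s k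
  have h0 : (0:ℝ) < ((2:ℝ)^s)⁻¹ := by positivity
  unfold va
  split_ifs with hs
  · rw [sub_zero, sub_zero]; linarith
  · have h2 := vp1_vp_lip (s-1) k
    have h3 : ((2:ℝ)^(s-1))⁻¹ = 2 * ((2:ℝ)^s)⁻¹ := by
      obtain ⟨t, rfl⟩ := Nat.exists_eq_succ_of_ne_zero hs
      rw [Nat.succ_sub_one, Nat.succ_eq_add_one, pow_succ]
      field_simp
    rw [h3] at h2
    rw [abs_le] at h1 h2 ⊢
    constructor <;> linarith [h1.1, h1.2, h2.1, h2.2]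

theorem vp1_va_big {s : ℕ} {k : ℤ} (h : 2 * 2^s ≤ |(k:ℝ)|) : va s k = 0 := by
  unfold va
  rw [vp1_vp_zero h]
  split_ifs with hs
  · simp
  · have h1 : 2 * 2^(s-1) ≤ |(k:ℝ)| := by
      refine le_trans ?_ h
      have : (2:ℝ)^(s-1) ≤ 2^s := pow_le_pow_right₀ (by norm_num) (Nat.sub_le _ _)
      linarith
    rw [vp1_vp_zero h1, sub_zero]

theorem vp1_va_small {s : ℕ} (hs : s ≠ 0) {k : ℤ} (h : |(k:ℝ)| ≤ 2^(s-1)) : va s k = 0 := by
  unfold va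
  rw [if_neg hs, vp1_vp_one h, vp1_vp_one, sub_self]
  exact h.trans (pow_le_pow_right₀ (by norm_num) (Nat.sub_le _ _))

/-- powers on a dyadic interval -/
theorem vp1_rpow (p ρ x : ℝ) (hρ : 0 < ρ) (h1 : ρ / 2 ≤ x) (h2 : x ≤ 2 * ρ) :
    x^p ≤ 2^|p| * ρ^p := by
  have hx : 0 < x := by linarith
  rcases le_total 0 p with hp | hp
  · rw [abs_of_nonneg hp, ← Real.mul_rpow (by norm_num) hρ.le]
    exact Real.rpow_le_rpow hx.le h2 hp
  · rw [abs_of_nonpos hp]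
    have h3 : x^p ≤ (ρ/2)^p := Real.rpow_le_rpow_of_nonpos (by linarith) h1 hp
    refine h3.trans (le_of_eq ?_)
    rw [Real.div_rpow hρ.le (by norm_num), Real.rpow_neg (by norm_num)]
    field_simp

/-- differences of powers on a dyadic interval -/
theorem vp1_rpow_diff (p ρ x y : ℝ) (hρ : 0 < ρ) (hx1 : ρ / 2 ≤ x) (hx2 : x ≤ 2 * ρ)
    (hy1 : ρ / 2 ≤ y) (hy2 : y ≤ 2 * ρ) :
    |y^p - x^p| ≤ |p| * 2^|p - 1| * ρ^(p - 1) * |y - x| := by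
  have hconv : Convex ℝ (Set.Icc (ρ/2) (2*ρ)) := convex_Icc _ _
  have h := hconv.norm_image_sub_le_of_norm_hasDerivWithin_le (f := fun t : ℝ => t^p)
    (f' := fun t : ℝ => p * t^(p-1)) (C := |p| * 2^|p - 1| * ρ^(p - 1)) (fun t ht => by
      have ht0 : t ≠ 0 := by
        have := ht.1
        have : 0 < t := by linarith
        exact this.ne'
      exact (Real.hasDerivAt_rpow_const (Or.inl ht0)).hasDerivWithinAt) (fun t ht => by
      have ht0 : 0 < t := by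
        have := ht.1
        linarith
      rw [Real.norm_eq_abs, abs_mul, abs_of_pos (Real.rpow_pos_of_pos ht0 _), mul_assoc]
      exact mul_le_mul_of_nonneg_left (vp1_rpow (p-1) ρ t hρ ht.1 ht.2) (abs_nonneg _))
    ⟨hx1, hx2⟩ ⟨hy1, hy2⟩
  simpa [Real.norm_eq_abs] using h

theorem vp1_exp_norm (x : ℝ) : ‖Complex.exp (-(Complex.I * (x : ℝ)))‖ = 1 := by
  have h : -(Complex.I * (x : ℂ)) = ((-x : ℝ) : ℂ) * Complex.I := by
    push_cast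
    ring
  rw [h]
  exact Complex.norm_exp_ofReal_mul_I _

theorem vp1_c_norm (r α : ℝ) {k : ℤ} (hk : k ≠ 0) : ‖vp1_c r α k‖ = |(k:ℝ)|^(-r) := by
  unfold vp1_c
  rw [if_neg hk, norm_mul, vp1_exp_norm, mul_one, Complex.norm_real, Real.norm_of_nonneg]
  exact Real.rpow_nonneg (abs_nonneg _) _

theorem vp1_c_diff (r α : ℝ) {k : ℤ} (hk : k ≠ 0) (hk1 : k + 1 ≠ 0) :
    ‖vp1_c r α (k + 1) - vp1_c r α k‖ = |(|((k + 1 : ℤ) : ℝ)|^(-r) - |(k:ℝ)|^(-r))| := by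
  have hs : SignType.sign (k + 1) = SignType.sign k := by
    rcases lt_or_gt_of_ne hk with h | h
    · have h1 : k + 1 < 0 := by omega
      rw [sign_neg h, sign_neg h1]
    · have h1 : 0 < k + 1 := by omega
      rw [sign_pos h, sign_pos h1]
  unfold vp1_c
  rw [if_neg hk, if_neg hk1, hs, ← sub_mul, norm_mul, vp1_exp_norm, mul_one,
    ← Complex.ofReal_sub, Complex.norm_real, Real.norm_eq_abs]

/-- the constant -/
noncomputable def vp1_A (r : ℝ) : ℝ := 3 * 2^|(-r)| + |(-r)| * 2^|(-r) - 1| + 2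

theorem vp1_A_pos (r : ℝ) : 0 < vp1_A r := by
  unfold vp1_A
  positivity

theorem vp1_h_norm (r α : ℝ) (s : ℕ) (k : ℤ) :
    ‖vp1_c r α k * (va s k : ℂ)‖ ≤ vp1_A r * ((2:ℝ)^s)^(-r) := by
  have hA := vp1_A_pos r
  have hA1 : 2^|(-r)| ≤ vp1_A r := by
    unfold vp1_A
    have h1 : (0:ℝ) < 2^|(-r)| := by positivity
    have h2 : 0 ≤ |(-r)| * (2:ℝ)^|(-r) - 1| := by positivity
    linarith
  have hρ : (0:ℝ) < 2^s := by positivity
  have hρr : 0 < ((2:ℝ)^s)^(-r) := Real.rpow_pos_of_pos hρ _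
  rw [norm_mul, Complex.norm_real, Real.norm_eq_abs]
  have hva := vp1_va_abs s k
  by_cases h0 : va s k = 0
  · rw [h0, abs_zero, mul_zero]; positivity
  by_cases hs : s = 0
  · subst hs
    have h2 : |(k:ℝ)| < 2 := by
      by_contra h
      apply h0
      apply vp1_va_big
      push Not at h
      simpa using h
    have hc : ‖vp1_c r α k‖ = 1 := by
      by_cases hk : k = 0
      · simp [vp1_c, hk]
      · rw [vp1_c_norm r α hk]
        have h3 : |k| < 2 := by exact_mod_cast h2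
        have h4 : |k| = 1 := by
          have := Int.one_le_abs hk
          omega
        have h5 : |(k:ℝ)| = 1 := by exact_mod_cast h4
        rw [h5, Real.one_rpow]
    rw [hc, one_mul, pow_zero, Real.one_rpow, mul_one]
    have : 2 ≤ vp1_A r := by
      unfold vp1_A
      have h1 : (0:ℝ) < 2^|(-r)| := by positivity
      have h2 : 0 ≤ |(-r)| * (2:ℝ)^|(-r) - 1| := by positivity
      linarith
    linarith
  · have h1 : (2:ℝ)^(s-1) < |(k:ℝ)| := by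
      by_contra h
      exact h0 (vp1_va_small hs (not_lt.1 h))
    have h2 : |(k:ℝ)| < 2 * 2^s := by
      by_contra h
      exact h0 (vp1_va_big (not_lt.1 h))
    have h3 : (2:ℝ)^s / 2 = 2^(s-1) := by
      obtain ⟨t, rfl⟩ := Nat.exists_eq_succ_of_ne_zero hs
      rw [Nat.succ_sub_one, Nat.succ_eq_add_one, pow_succ]
      field_simp
    have hk : k ≠ 0 := by
      rintro rfl
      simp at h1
      have : (0:ℝ) < 2^(s-1) := by positivity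
      linarith
    rw [vp1_c_norm r α hk]
    have h4 := vp1_rpow (-r) (2^s) |(k:ℝ)| hρ (by rw [h3]; exact h1.le) h2.le
    calc |(k:ℝ)|^(-r) * |va s k| ≤ |(k:ℝ)|^(-r) * 1 :=
          mul_le_mul_of_nonneg_left hva (Real.rpow_nonneg (abs_nonneg _) _)
      _ ≤ 2^|(-r)| * ((2:ℝ)^s)^(-r) := by rw [mul_one]; exact h4
      _ ≤ _ := mul_le_mul_of_nonneg_right hA1 hρr.le

theorem vp1_h_diff (r α : ℝ) (s : ℕ) (k : ℤ) :
    ‖vp1_c r α (k + 1) * (va s (k + 1) : ℂ) - vp1_c r α k * (va s k : ℂ)‖ ≤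
      2 * vp1_A r * ((2:ℝ)^s)^(-r) * ((2:ℝ)^s)⁻¹ := by
  have hA := vp1_A_pos r
  have hρ : (0:ℝ) < 2^s := by positivity
  have hρr : 0 < ((2:ℝ)^s)^(-r) := Real.rpow_pos_of_pos hρ _
  by_cases hs : s = 0
  · have h1 := vp1_h_norm r α s k
    have h2 := vp1_h_norm r α s (k + 1)
    refine (norm_sub_le _ _).trans ?_
    have h3 : ((2:ℝ)^s)⁻¹ = 1 := by rw [hs]; simp
    rw [h3, mul_one]
    linarith
  have h3 : (2:ℝ)^s / 2 = 2^(s-1) := by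
    obtain ⟨t, rfl⟩ := Nat.exists_eq_succ_of_ne_zero hs
    rw [Nat.succ_sub_one, Nat.succ_eq_add_one, pow_succ]
    field_simp
  by_cases hz : va s (k + 1) = 0 ∧ va s k = 0
  · rw [hz.1, hz.2]
    simp only [Complex.ofReal_zero, mul_zero, sub_zero, norm_zero]
    positivity
  -- both `k` and `k + 1` are in the dyadic interval
  have hint : ∀ m : ℤ, va s m ≠ 0 → (2:ℤ)^(s-1) < |m| ∧ |m| < 2 * 2^s := by
    intro m hm
    have h1 : (2:ℝ)^(s-1) < |(m:ℝ)| := by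
      by_contra h
      exact hm (vp1_va_small hs (not_lt.1 h))
    have h2 : |(m:ℝ)| < 2 * 2^s := by
      by_contra h
      exact hm (vp1_va_big (not_lt.1 h))
    constructor
    · exact_mod_cast h1
    · exact_mod_cast h2
  have hp1 : (1:ℤ) ≤ 2^(s-1) := one_le_pow₀ (by norm_num)
  have hboth : ((2:ℤ)^(s-1) ≤ |k| ∧ |k| ≤ 2 * 2^s) ∧ ((2:ℤ)^(s-1) ≤ |k + 1| ∧ |k + 1| ≤ 2 * 2^s) ∧
      k ≠ 0 ∧ k + 1 ≠ 0 := by
    have hor : va s (k + 1) ≠ 0 ∨ va s k ≠ 0 := by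
      by_contra h
      push Not at h
      exact hz h
    rcases hor with h | h
    · obtain ⟨h1, h2⟩ := hint _ h
      rcases abs_cases (k + 1) with ⟨e1, e2⟩ | ⟨e1, e2⟩ <;>
        rcases abs_cases k with ⟨e3, e4⟩ | ⟨e3, e4⟩ <;>
        refine ⟨⟨?_, ?_⟩, ⟨?_, ?_⟩, ?_, ?_⟩ <;> omega
    · obtain ⟨h1, h2⟩ := hint _ h
      rcases abs_cases (k + 1) with ⟨e1, e2⟩ | ⟨e1, e2⟩ <;>
        rcases abs_cases k with ⟨e3, e4⟩ | ⟨e3, e4⟩ <;>
        refine ⟨⟨?_, ?_⟩, ⟨?_, ?_⟩, ?_, ?_⟩ <;> omega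
  obtain ⟨⟨a1, a2⟩, ⟨b1, b2⟩, hk0, hk1⟩ := hboth
  have a1' : (2:ℝ)^s / 2 ≤ |(k:ℝ)| := by rw [h3]; exact_mod_cast a1
  have a2' : |(k:ℝ)| ≤ 2 * 2^s := by exact_mod_cast a2
  have b1' : (2:ℝ)^s / 2 ≤ |((k + 1 : ℤ) : ℝ)| := by rw [h3]; exact_mod_cast b1
  have b2' : |((k + 1 : ℤ) : ℝ)| ≤ 2 * 2^s := by exact_mod_cast b2
  have hc1 : ‖vp1_c r α (k + 1)‖ ≤ 2^|(-r)| * ((2:ℝ)^s)^(-r) := by
    rw [vp1_c_norm r α hk1]
    exact vp1_rpow (-r) (2^s) _ hρ b1' b2'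
  have hc2 : ‖vp1_c r α (k + 1) - vp1_c r α k‖ ≤
      |(-r)| * 2^|(-r) - 1| * ((2:ℝ)^s)^(-r) * ((2:ℝ)^s)⁻¹ := by
    rw [vp1_c_diff r α hk0 hk1]
    refine (vp1_rpow_diff (-r) (2^s) _ _ hρ a1' a2' b1' b2').trans ?_
    have h4 : |(|((k + 1 : ℤ) : ℝ)| - |(k:ℝ)|)| ≤ 1 := by
      refine (abs_abs_sub_abs_le _ _).trans ?_
      push_cast
      rw [show (k:ℝ) + 1 - k = 1 by ring]
      norm_num
    have h5 : ((2:ℝ)^s)^((-r) - 1) = ((2:ℝ)^s)^(-r) * ((2:ℝ)^s)⁻¹ := by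
      rw [Real.rpow_sub hρ, Real.rpow_one]
      rfl
    rw [h5]
    calc |(-r)| * 2^|(-r) - 1| * (((2:ℝ)^s)^(-r) * ((2:ℝ)^s)⁻¹) *
          |(|((k + 1 : ℤ) : ℝ)| - |(k:ℝ)|)|
        ≤ |(-r)| * 2^|(-r) - 1| * (((2:ℝ)^s)^(-r) * ((2:ℝ)^s)⁻¹) * 1 :=
          mul_le_mul_of_nonneg_left h4 (by positivity)
      _ = _ := by ring
  have hva := vp1_va_lip s k
  have hva2 := vp1_va_abs s k
  have hsplit : vp1_c r α (k + 1) * (va s (k + 1) : ℂ) - vp1_c r α k * (va s k : ℂ) =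
      vp1_c r α (k + 1) * ((va s (k + 1) - va s k : ℝ) : ℂ) +
        (vp1_c r α (k + 1) - vp1_c r α k) * (va s k : ℂ) := by
    push_cast
    ring
  rw [hsplit]
  refine (norm_add_le _ _).trans ?_
  rw [norm_mul, norm_mul, Complex.norm_real, Complex.norm_real, Real.norm_eq_abs,
    Real.norm_eq_abs]
  have t1 : ‖vp1_c r α (k + 1)‖ * |va s (k + 1) - va s k| ≤
      (2^|(-r)| * ((2:ℝ)^s)^(-r)) * (3 * ((2:ℝ)^s)⁻¹) :=
    mul_le_mul hc1 hva (abs_nonneg _) (by positivity)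
  have t2 : ‖vp1_c r α (k + 1) - vp1_c r α k‖ * |va s k| ≤
      (|(-r)| * 2^|(-r) - 1| * ((2:ℝ)^s)^(-r) * ((2:ℝ)^s)⁻¹) * 1 :=
    mul_le_mul hc2 hva2 (abs_nonneg _) (by positivity)
  have t3 : (2^|(-r)| * ((2:ℝ)^s)^(-r)) * (3 * ((2:ℝ)^s)⁻¹) +
      (|(-r)| * 2^|(-r) - 1| * ((2:ℝ)^s)^(-r) * ((2:ℝ)^s)⁻¹) * 1 ≤
      vp1_A r * (((2:ℝ)^s)^(-r) * ((2:ℝ)^s)⁻¹) := by
    unfold vp1_A
    have h6 : 0 < ((2:ℝ)^s)^(-r) * ((2:ℝ)^s)⁻¹ := by positivity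
    nlinarith
  have t4 : 0 < vp1_A r * (((2:ℝ)^s)^(-r) * ((2:ℝ)^s)⁻¹) := by positivity
  calc _ ≤ vp1_A r * (((2:ℝ)^s)^(-r) * ((2:ℝ)^s)⁻¹) := by linarith
    _ ≤ 2 * (vp1_A r * (((2:ℝ)^s)^(-r) * ((2:ℝ)^s)⁻¹)) := by linarith
    _ = _ := by ring

theorem vp1 (h : S_CS) : S_VP1 := by
  intro r α
  obtain ⟨C, hC, hcs⟩ := h
  have hA := vp1_A_pos r
  refine ⟨C * (8 * vp1_A r), by positivity, ?_⟩
  intro s
  have hρ : (0:ℝ) < 2^s := by positivity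
  have hρr : 0 < ((2:ℝ)^s)^(-r) := Real.rpow_pos_of_pos hρ _
  have hN : ((2^(s+1) : ℕ) : ℤ) = (2:ℤ)^(s+1) := by push_cast; rfl
  have hz : ∀ k : ℤ, ((2^(s+1) : ℕ) : ℤ) ≤ |k| → vp1_c r α k * (va s k : ℂ) = 0 := by
    intro k hk
    rw [hN] at hk
    have h1 : 2 * 2^s ≤ |(k:ℝ)| := by
      have h2 : (2:ℝ)^(s+1) ≤ |(k:ℝ)| := by exact_mod_cast hk
      rw [pow_succ] at h2
      linarith
    rw [vp1_va_big h1, Complex.ofReal_zero, mul_zero]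
  have hmain := hcs (2^(s+1)) (fun k => vp1_c r α k * (va s k : ℂ)) (2^s)
    (one_le_pow₀ (by norm_num)) hz
  rw [hN] at hmain
  have hLHS : (∫ t in (0:ℝ)..(2*π), ‖∑ k ∈ Finset.Ioo (-(2:ℤ)^(s+1)) ((2:ℤ)^(s+1)),
    ((if k = 0 then 1 else (((|(k : ℝ)|)^(-r) : ℝ) : ℂ) *
    Complex.exp (-(Complex.I * (((SignType.sign k : ℤ) : ℝ) * α * π / 2 : ℝ)))) * (va s k : ℂ)) *
      Complex.exp (Complex.I * ((k:ℝ) * t : ℝ))‖) =
      ∫ t in (0:ℝ)..(2*π), ‖∑ k ∈ Finset.Ioo (-(2:ℤ)^(s+1)) ((2:ℤ)^(s+1)),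
        (vp1_c r α k * (va s k : ℂ)) * Complex.exp (Complex.I * ((k:ℝ) * t : ℝ))‖ := rfl
  rw [hLHS]
  refine hmain.trans ?_
  -- the two square roots
  have hs1 : Real.sqrt (∑ k ∈ Finset.Ioo (-(2:ℤ)^(s+1)) ((2:ℤ)^(s+1)),
      ‖vp1_c r α k * (va s k : ℂ)‖^2) ≤
      2 * (Real.sqrt (2^s) * (vp1_A r * ((2:ℝ)^s)^(-r))) := by
    rw [Real.sqrt_le_left (by positivity)]
    have h1 : ∑ k ∈ Finset.Ioo (-(2:ℤ)^(s+1)) ((2:ℤ)^(s+1)), ‖vp1_c r α k * (va s k : ℂ)‖^2 ≤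
        ∑ _k ∈ Finset.Ioo (-(2:ℤ)^(s+1)) ((2:ℤ)^(s+1)), (vp1_A r * ((2:ℝ)^s)^(-r))^2 :=
      Finset.sum_le_sum fun k _ => pow_le_pow_left₀ (norm_nonneg _) (vp1_h_norm r α s k) 2
    refine h1.trans ?_
    rw [Finset.sum_const, nsmul_eq_mul, Int.card_Ioo]
    have h2 : (((2:ℤ)^(s+1) - -(2:ℤ)^(s+1) - 1).toNat : ℝ) ≤ 4 * 2^s := by
      have h3 : ((2:ℤ)^(s+1) - -(2:ℤ)^(s+1) - 1).toNat ≤ 4 * 2^s := by
        have h4 : (2:ℤ)^(s+1) = 2 * 2^s := by rw [pow_succ]; ring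
        rw [h4]
        have h5 : (2:ℤ)^s = ((2^s : ℕ) : ℤ) := by push_cast; rfl
        rw [h5]
        omega
      exact_mod_cast h3
    have h6 : (2 * (Real.sqrt (2^s) * (vp1_A r * ((2:ℝ)^s)^(-r))))^2 =
        4 * 2^s * (vp1_A r * ((2:ℝ)^s)^(-r))^2 := by
      rw [mul_pow, mul_pow, Real.sq_sqrt hρ.le]
      ring
    rw [h6]
    exact mul_le_mul_of_nonneg_right h2 (sq_nonneg _)
  have hs2 : Real.sqrt (∑ k ∈ Finset.Icc (-(2:ℤ)^(s+1)) ((2:ℤ)^(s+1)),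
      ‖vp1_c r α (k + 1) * (va s (k + 1) : ℂ) - vp1_c r α k * (va s k : ℂ)‖^2) ≤
      3 * (Real.sqrt (2^s) * (2 * vp1_A r * ((2:ℝ)^s)^(-r) * ((2:ℝ)^s)⁻¹)) := by
    rw [Real.sqrt_le_left (by positivity)]
    have h1 : ∑ k ∈ Finset.Icc (-(2:ℤ)^(s+1)) ((2:ℤ)^(s+1)),
        ‖vp1_c r α (k + 1) * (va s (k + 1) : ℂ) - vp1_c r α k * (va s k : ℂ)‖^2 ≤
        ∑ _k ∈ Finset.Icc (-(2:ℤ)^(s+1)) ((2:ℤ)^(s+1)),
          (2 * vp1_A r * ((2:ℝ)^s)^(-r) * ((2:ℝ)^s)⁻¹)^2 :=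
      Finset.sum_le_sum fun k _ => pow_le_pow_left₀ (norm_nonneg _) (vp1_h_diff r α s k) 2
    refine h1.trans ?_
    rw [Finset.sum_const, nsmul_eq_mul, Int.card_Icc]
    have h2 : (((2:ℤ)^(s+1) + 1 - -(2:ℤ)^(s+1)).toNat : ℝ) ≤ 9 * 2^s := by
      have h3 : ((2:ℤ)^(s+1) + 1 - -(2:ℤ)^(s+1)).toNat ≤ 9 * 2^s := by
        have h4 : (2:ℤ)^(s+1) = 2 * 2^s := by rw [pow_succ]; ring
        rw [h4]
        have h5 : (2:ℤ)^s = ((2^s : ℕ) : ℤ) := by push_cast; rfl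
        rw [h5]
        have h6 : 1 ≤ 2^s := Nat.one_le_two_pow
        omega
      exact_mod_cast h3
    have h6 : (3 * (Real.sqrt (2^s) * (2 * vp1_A r * ((2:ℝ)^s)^(-r) * ((2:ℝ)^s)⁻¹)))^2 =
        9 * 2^s * (2 * vp1_A r * ((2:ℝ)^s)^(-r) * ((2:ℝ)^s)⁻¹)^2 := by
      rw [mul_pow, mul_pow, Real.sq_sqrt hρ.le]
      ring
    rw [h6]
    exact mul_le_mul_of_nonneg_right h2 (sq_nonneg _)
  have hL : ((2:ℝ)^s)^(-(1/2:ℝ)) * Real.sqrt (2^s) = 1 := by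
    rw [Real.sqrt_eq_rpow, ← Real.rpow_add hρ]
    norm_num
  have hLpos : 0 < ((2:ℝ)^s)^(-(1/2:ℝ)) := Real.rpow_pos_of_pos hρ _
  have hfin : ((2:ℝ)^s)^(-r) = (2:ℝ)^(-(r * s)) := by
    rw [← Real.rpow_natCast, ← Real.rpow_mul (by norm_num)]
    congr 1
    ring
  calc C * ((2:ℝ)^s)^(-(1/2:ℝ)) * (Real.sqrt (∑ k ∈ Finset.Ioo (-(2:ℤ)^(s+1)) ((2:ℤ)^(s+1)),
      ‖vp1_c r α k * (va s k : ℂ)‖^2) +
      2^s * Real.sqrt (∑ k ∈ Finset.Icc (-(2:ℤ)^(s+1)) ((2:ℤ)^(s+1)),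
      ‖vp1_c r α (k + 1) * (va s (k + 1) : ℂ) - vp1_c r α k * (va s k : ℂ)‖^2))
      ≤ C * ((2:ℝ)^s)^(-(1/2:ℝ)) * (2 * (Real.sqrt (2^s) * (vp1_A r * ((2:ℝ)^s)^(-r))) +
        2^s * (3 * (Real.sqrt (2^s) * (2 * vp1_A r * ((2:ℝ)^s)^(-r) * ((2:ℝ)^s)⁻¹)))) := by
        apply mul_le_mul_of_nonneg_left _ (by positivity)
        exact add_le_add hs1 (mul_le_mul_of_nonneg_left hs2 hρ.le)
    _ = C * (((2:ℝ)^s)^(-(1/2:ℝ)) * Real.sqrt (2^s)) * (8 * (vp1_A r * ((2:ℝ)^s)^(-r))) := by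
        field_simp
        ring
    _ = C * (8 * vp1_A r) * (2:ℝ)^(-(r * s)) := by
        rw [hL, hfin]
        ring

end SmSm
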