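import Pool.Agent.H636R2.SM.Spec
import Pool.Agent.HypVol.L_TP_prob
open MeasureTheory Real ProbabilityTheory
open scoped ENNReal BigOperators

/-!
VPB: smooth blocks are bounded on `L_∞`.
-/

namespace SmSm
open HypVol MWidth

/-- one dimensional multiplier -/
noncomputable def vpb_a (r α : ℝ) (s : ℕ) (k : ℤ) : ℂ :=
  (if k = 0 then 1 else (((|(k : ℝ)|)^(-r) : ℝ) : ℂ) *
    Complex.exp (-(Complex.I * (((SignType.sign k : ℤ) : ℝ) * α * π / 2 : ℝ)))) * (va s k : ℂ)

/-- one dimensional kernel -/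
noncomputable def vpb_K (r α : ℝ) (s : ℕ) (t : ℝ) : ℂ :=
  ∑ k ∈ Finset.Ioo (-(2:ℤ)^(s+1)) ((2:ℤ)^(s+1)),
    vpb_a r α s k * Complex.exp (Complex.I * ((k:ℝ) * t : ℝ))

theorem vpb_prod {d : ℕ} (r : ℝ) (α : Fin d → ℝ) (s : Fin d → ℕ) (u : Fin d → ℝ) :
    ∑ k ∈ boxs s, Fh r α k * (blk s k : ℂ) * chi k u = ∏ j, vpb_K r (α j) (s j) (u j) := by
  unfold vpb_K boxs
  rw [Finset.prod_univ_sum]
  refine Finset.sum_congr rfl fun k _ => ?_
  unfold Fh blk chi vpb_a
  rw [Finset.prod_mul_distrib, Finset.prod_mul_distrib]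
  congr 1
  · congr 1
    push_cast
    rfl
  · rw [← Complex.exp_sum]
    congr 1
    push_cast
    rw [Finset.mul_sum]

theorem vpb_cont (r α : ℝ) (s : ℕ) : Continuous (vpb_K r α s) := by
  unfold vpb_K
  fun_prop

theorem vpb_bound (r α : ℝ) (s : ℕ) (t : ℝ) : ‖vpb_K r α s t‖ ≤
    ∑ k ∈ Finset.Ioo (-(2:ℤ)^(s+1)) ((2:ℤ)^(s+1)), ‖vpb_a r α s k‖ := by
  unfold vpb_K
  refine (norm_sum_le _ _).trans (Finset.sum_le_sum fun k _ => ?_)
  rw [norm_mul, mul_comm Complex.I, Complex.norm_exp_ofReal_mul_I, mul_one]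

theorem vpb_periodic (r α : ℝ) (s : ℕ) :
    Function.Periodic (fun t => ‖vpb_K r α s t‖) (2 * π) := by
  intro t
  have : vpb_K r α s (t + 2 * π) = vpb_K r α s t := by
    unfold vpb_K
    refine Finset.sum_congr rfl fun k _ => ?_
    congr 1
    rw [Complex.exp_eq_exp_iff_exists_int]
    refine ⟨k, ?_⟩
    push_cast
    ring
  simp only [this]

theorem vpb_one (r α : ℝ) (s : ℕ) (x : ℝ) :
    ∫ t, ‖vpb_K r α s (x - t)‖
        ∂(ENNReal.ofReal (2 * π)⁻¹ • volume.restrict (Set.Ico (0 : ℝ) (2 * π))) =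
      (2 * π)⁻¹ * ∫ t in (0:ℝ)..(2 * π), ‖vpb_K r α s t‖ := by
  rw [integral_smul_measure, ENNReal.toReal_ofReal (by positivity), smul_eq_mul]
  congr 1
  rw [integral_Ico_eq_integral_Ioc, ← intervalIntegral.integral_of_le (by positivity)]
  rw [intervalIntegral.integral_comp_sub_left (fun t => ‖vpb_K r α s t‖) x]
  have h := (vpb_periodic r α s).intervalIntegral_add_eq (x - 2 * π) 0
  rw [zero_add, sub_add_cancel] at h
  rw [sub_zero]
  exact h

theorem vpb_int {d : ℕ} (r : ℝ) (α : Fin d → ℝ) (s : Fin d → ℕ) (φ : (Fin d → ℝ) → ℂ) (τ : ℝ)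
    (hφ : AEStronglyMeasurable φ (TP d)) (hb : ∀ᵐ x ∂(TP d), ‖φ x‖ ≤ τ) (x : Fin d → ℝ) :
    op r α s φ x = ∫ y, φ y * ∏ j, vpb_K r (α j) (s j) (x j - y j) ∂(TP d) := by
  have := TP_prob d
  have h1 : ∀ k ∈ boxs s, Fh r α k * (blk s k : ℂ) * fc φ k * chi k x =
      ∫ y, φ y * (Fh r α k * (blk s k : ℂ) * chi k (x - y)) ∂(TP d) := by
    intro k _
    unfold fc
    rw [mul_assoc (Fh r α k * (blk s k : ℂ)), ← integral_mul_const, ← integral_const_mul]
    refine integral_congr_ae (Filter.Eventually.of_forall fun y => ?_)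
    have e : chi k (x - y) = Complex.exp (-(Complex.I * ((∑ j, (k j : ℝ) * y j : ℝ) : ℂ))) *
        chi k x := by
      unfold chi
      rw [← Complex.exp_add]
      congr 1
      have : (∑ j, (k j : ℝ) * (x - y) j : ℝ) =
          (∑ j, (k j : ℝ) * x j : ℝ) - (∑ j, (k j : ℝ) * y j : ℝ) := by
        rw [← Finset.sum_sub_distrib]
        refine Finset.sum_congr rfl fun j _ => ?_
        rw [Pi.sub_apply]
        ring
      rw [this, Complex.ofReal_sub]
      ring
    simp only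
    rw [e]
    ring
  unfold op
  rw [Finset.sum_congr rfl h1, ← integral_finsetSum]
  · refine integral_congr_ae (Filter.Eventually.of_forall fun y => ?_)
    simp only
    rw [← Finset.mul_sum, vpb_prod r α s (x - y)]
    rfl
  · intro k _
    refine Integrable.of_bound (hφ.mul ?_) (τ * ‖Fh r α k * (blk s k : ℂ)‖) ?_
    · refine Continuous.aestronglyMeasurable ?_
      unfold chi
      fun_prop
    · filter_upwards [hb] with y hy
      have h2 : ‖chi k (x - y)‖ = 1 := by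
        unfold chi
        rw [mul_comm Complex.I, Complex.norm_exp_ofReal_mul_I]
      rw [norm_mul, norm_mul _ (chi k (x - y)), h2, mul_one]
      exact mul_le_mul_of_nonneg_right hy (norm_nonneg _)

theorem vpb (h : S_VP1) : S_VPB := by
  intro d r α
  choose C hC hCb using fun j : Fin d => h r (α j)
  refine ⟨∏ j, C j, Finset.prod_pos fun j _ => hC j, fun s φ τ hτ hφ hb x => ?_⟩
  have := TP_prob d
  rw [vpb_int r α s φ τ hφ hb x]
  have hcont : Continuous fun y : Fin d → ℝ => ∏ j, ‖vpb_K r (α j) (s j) (x j - y j)‖ := by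
    refine continuous_finsetProd _ fun j _ => ?_
    exact ((vpb_cont r (α j) (s j)).comp (continuous_const.sub (continuous_apply j))).norm
  have hint : Integrable (fun y : Fin d → ℝ => τ * ∏ j, ‖vpb_K r (α j) (s j) (x j - y j)‖)
      (TP d) := by
    refine Integrable.const_mul ?_ τ
    refine Integrable.of_bound hcont.aestronglyMeasurable
      (∏ j, ∑ k ∈ Finset.Ioo (-(2:ℤ)^(s j+1)) ((2:ℤ)^(s j+1)), ‖vpb_a r (α j) (s j) k‖) ?_
    refine Filter.Eventually.of_forall fun y => ?_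
    rw [Real.norm_of_nonneg (Finset.prod_nonneg fun j _ => norm_nonneg _)]
    exact Finset.prod_le_prod (fun j _ => norm_nonneg _) fun j _ => vpb_bound _ _ _ _
  have h1 : ‖∫ y, φ y * ∏ j, vpb_K r (α j) (s j) (x j - y j) ∂(TP d)‖ ≤
      ∫ y, τ * ∏ j, ‖vpb_K r (α j) (s j) (x j - y j)‖ ∂(TP d) := by
    refine norm_integral_le_of_norm_le hint ?_
    filter_upwards [hb] with y hy
    rw [norm_mul, norm_prod]
    exact mul_le_mul_of_nonneg_right hy (Finset.prod_nonneg fun j _ => norm_nonneg _)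
  refine h1.trans ?_
  rw [integral_const_mul]
  have h2 : ∫ y, ∏ j, ‖vpb_K r (α j) (s j) (x j - y j)‖ ∂(TP d) =
      ∏ j, ((2 * π)⁻¹ * ∫ t in (0:ℝ)..(2 * π), ‖vpb_K r (α j) (s j) t‖) := by
    unfold TP
    have hI : IsFiniteMeasure
        (ENNReal.ofReal (2 * π)⁻¹ • volume.restrict (Set.Ico (0 : ℝ) (2 * π))) := by
      refine ⟨?_⟩
      rw [Measure.smul_apply, Measure.restrict_apply MeasurableSet.univ, Set.univ_inter,
        Real.volume_Ico, smul_eq_mul]
      exact ENNReal.mul_lt_top ENNReal.ofReal_lt_top ENNReal.ofReal_lt_top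
    rw [integral_fintype_prod_eq_prod (f := fun j t => ‖vpb_K r (α j) (s j) (x j - t)‖)]
    exact Finset.prod_congr rfl fun j _ => vpb_one r (α j) (s j) (x j)
  rw [h2]
  have h3 : ∏ j, ((2 * π)⁻¹ * ∫ t in (0:ℝ)..(2 * π), ‖vpb_K r (α j) (s j) t‖) ≤
      ∏ j, (C j * (2:ℝ)^(-(r * (s j : ℝ)))) := by
    refine Finset.prod_le_prod (fun j _ => ?_) fun j _ => ?_
    · refine mul_nonneg (by positivity) (intervalIntegral.integral_nonneg (by positivity) ?_)
      intro t _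
      exact norm_nonneg _
    · have h4 : ∫ t in (0:ℝ)..(2 * π), ‖vpb_K r (α j) (s j) t‖ ≤ C j * (2:ℝ)^(-(r * (s j : ℝ))) :=
        hCb j (s j)
      have h5 : 0 ≤ ∫ t in (0:ℝ)..(2 * π), ‖vpb_K r (α j) (s j) t‖ :=
        intervalIntegral.integral_nonneg (by positivity) fun t _ => norm_nonneg _
      have h6 : (2 * π)⁻¹ ≤ 1 := by
        rw [inv_le_one₀ (by positivity)]
        have := Real.pi_gt_three
        linarith
      calc (2 * π)⁻¹ * ∫ t in (0:ℝ)..(2 * π), ‖vpb_K r (α j) (s j) t‖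
          ≤ 1 * ∫ t in (0:ℝ)..(2 * π), ‖vpb_K r (α j) (s j) t‖ :=
            mul_le_mul_of_nonneg_right h6 h5
        _ ≤ _ := by rw [one_mul]; exact h4
  have h7 : ∏ j, (C j * (2:ℝ)^(-(r * (s j : ℝ)))) =
      (∏ j, C j) * (2:ℝ)^(-(r * ∑ j, (s j : ℝ))) := by
    rw [Finset.prod_mul_distrib, Finset.mul_sum, ← Finset.sum_neg_distrib,
      Real.rpow_sum_of_pos (by norm_num)]
  rw [h7] at h3
  calc τ * _ ≤ τ * ((∏ j, C j) * (2:ℝ)^(-(r * ∑ j, (s j : ℝ)))) :=
        mul_le_mul_of_nonneg_left h3 hτ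
    _ = _ := by ring

end SmSm
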