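import Pool.Agent.H636R2.SM.Spec

/-! VPF (helper602): facts on the multipliers. -/

open scoped BigOperators

namespace SmSm

namespace VPF

theorem abs_eq (k : ℤ) : |(k : ℝ)| = (k.natAbs : ℝ) := by
  rw [Nat.cast_natAbs, Int.cast_abs]

theorem vp_nonneg (s : ℕ) (k : ℤ) : 0 ≤ vp s k := le_max_left _ _

theorem vp_le_one (s : ℕ) (k : ℤ) : vp s k ≤ 1 :=
  max_le zero_le_one (min_le_left _ _)

theorem vp_one {s : ℕ} {k : ℤ} (h : k.natAbs ≤ 2 ^ s) : vp s k = 1 := by
  have h1 : |(k : ℝ)| / 2 ^ s ≤ 1 := by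
    rw [div_le_one (by positivity), abs_eq]
    exact_mod_cast h
  unfold vp
  rw [min_eq_left (by linarith)]
  exact max_eq_right zero_le_one

theorem vp_zero {s : ℕ} {k : ℤ} (h : 2 ^ (s + 1) ≤ k.natAbs) : vp s k = 0 := by
  have h1 : 2 ≤ |(k : ℝ)| / 2 ^ s := by
    rw [le_div_iff₀ (by positivity), abs_eq]
    have h2 : ((2 ^ (s + 1) : ℕ) : ℝ) ≤ (k.natAbs : ℝ) := by exact_mod_cast h
    rw [pow_succ] at h2
    push_cast at h2
    linarith
  unfold vp
  exact max_eq_left ((min_le_right _ _).trans (by linarith))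

theorem vp_mono (s : ℕ) (k : ℤ) : vp s k ≤ vp (s + 1) k := by
  have h1 : |(k : ℝ)| / 2 ^ (s + 1) ≤ |(k : ℝ)| / 2 ^ s := by
    apply div_le_div_of_nonneg_left (abs_nonneg _) (by positivity)
    exact pow_le_pow_right₀ (by norm_num) (Nat.le_succ s)
  unfold vp
  exact max_le_max le_rfl (min_le_min le_rfl (by linarith))

theorem va_zero (k : ℤ) : va 0 k = vp 0 k := by
  unfold va
  rw [if_pos rfl, sub_zero]

theorem va_succ (s : ℕ) (k : ℤ) : va (s + 1) k = vp (s + 1) k - vp s k := by
  unfold va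
  rw [if_neg (Nat.succ_ne_zero s), Nat.add_sub_cancel]

theorem sum_va (S : ℕ) (k : ℤ) : ∑ s ∈ Finset.range (S + 1), va s k = vp S k := by
  induction S with
  | zero => rw [Finset.sum_range_one, va_zero]
  | succ S ih =>
    rw [Finset.sum_range_succ, ih, va_succ]
    ring

theorem va_bounds (s : ℕ) (k : ℤ) : 0 ≤ va s k ∧ va s k ≤ 1 := by
  cases s with
  | zero =>
    rw [va_zero]
    exact ⟨vp_nonneg 0 k, vp_le_one 0 k⟩
  | succ s =>
    rw [va_succ]
    have h1 := vp_mono s k
    have h2 := vp_nonneg s k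
    have h3 := vp_le_one (s + 1) k
    constructor <;> linarith

theorem va_ne {s : ℕ} {k : ℤ} (h : va s k ≠ 0) :
    s = Nat.size k.natAbs ∨ s + 1 = Nat.size k.natAbs := by
  have h1 : Nat.size k.natAbs ≤ s + 1 := by
    rw [Nat.size_le]
    by_contra hcon
    push Not at hcon
    apply h
    cases s with
    | zero => rw [va_zero, vp_zero hcon]
    | succ s =>
      rw [va_succ, vp_zero hcon, vp_zero]
      · ring
      · exact (Nat.pow_le_pow_right (by norm_num) (Nat.le_succ _)).trans hcon
  have h2 : s ≤ Nat.size k.natAbs := by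
    cases s with
    | zero => exact Nat.zero_le _
    | succ s =>
      rw [Nat.succ_le_iff, Nat.lt_size]
      by_contra hcon
      push Not at hcon
      apply h
      rw [va_succ, vp_one hcon.le, vp_one]
      · ring
      · exact hcon.le.trans (Nat.pow_le_pow_right (by norm_num) (Nat.le_succ _))
  omega

end VPF

open VPF in
theorem vpf : S_VPF := by
  refine ⟨va_bounds, fun s k h => va_ne h, ?_, ?_⟩
  · intro d k
    unfold blk
    rw [← Finset.prod_univ_sum (t := fun j => Finset.range (Nat.size (k j).natAbs + 1))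
      (f := fun j s => va s (k j))]
    refine Finset.prod_eq_one fun j _ => ?_
    rw [sum_va]
    exact vp_one (Nat.lt_size_self _).le
  · intro d s k h j
    have h1 : va (s j) (k j) ≠ 0 := by
      intro h0
      exact h (Finset.prod_eq_zero (Finset.mem_univ j) h0)
    have h2 := va_ne h1
    omega

end SmSm
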