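import Pool.Agent.H636R2.SM.FINAL
import Pool.Agent.H636R2.SM.ADM
import Pool.Agent.H636R2.SM.BDD
import Pool.Agent.H636R2.SM.CL
import Pool.Agent.H636R2.SM.CS
import Pool.Agent.H636R2.SM.CU
import Pool.Agent.H636R2.SM.EXA
import Pool.Agent.H636R2.SM.FAMA
import Pool.Agent.H636R2.SM.FAMB
import Pool.Agent.H636R2.SM.HEXP
import Pool.Agent.H636R2.SM.JOINT
import Pool.Agent.H636R2.SM.KB
import Pool.Agent.H636R2.SM.KEXP
import Pool.Agent.H636R2.SM.KMEAN
import Pool.Agent.H636R2.SM.KMOM
import Pool.Agent.H636R2.SM.KSQ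
import Pool.Agent.H636R2.SM.LOWA0
import Pool.Agent.H636R2.SM.LOWB0
import Pool.Agent.H636R2.SM.MOM
import Pool.Agent.H636R2.SM.NUM1
import Pool.Agent.H636R2.SM.NUMLA
import Pool.Agent.H636R2.SM.NUMLB
import Pool.Agent.H636R2.SM.NUMUA
import Pool.Agent.H636R2.SM.NUMUB
import Pool.Agent.H636R2.SM.PHIA
import Pool.Agent.H636R2.SM.PHIB
import Pool.Agent.H636R2.SM.PIG
import Pool.Agent.H636R2.SM.ROW
import Pool.Agent.H636R2.SM.SEP
import Pool.Agent.H636R2.SM.SPLIT
import Pool.Agent.H636R2.SM.SYN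
import Pool.Agent.H636R2.SM.TAIL
import Pool.Agent.H636R2.SM.UPA
import Pool.Agent.H636R2.SM.UPB
import Pool.Agent.H636R2.SM.VP1
import Pool.Agent.H636R2.SM.VPB
import Pool.Agent.H636R2.SM.VPF

/-! All tasks of the first part put together. -/

namespace SmSm

theorem all_kexp : S_KEXP := kexp num1 row kb kmean ksq
theorem all_kmom : S_KMOM := kmom num1 row kb
theorem all_hexp : S_HEXP := hexp all_kexp
theorem all_sep : S_SEP := sep tail
theorem all_phia : S_PHIA := phia kmean ksq exa all_kmom mom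
theorem all_phib : S_PHIB := phib kmean ksq exa all_kmom mom
theorem all_vpb : S_VPB := vpb (vp1 cs)
theorem all_syn : S_SYN := syn all_vpb vpf
theorem all_split : S_SPLIT := split all_syn vpf
theorem all_upa : S_UPA := upa all_split numua
theorem all_upb : S_UPB := upb all_split joint numub
theorem all_bdd : S_BDD := bdd all_split
theorem all_fama : S_FAMA := fama all_sep all_kexp all_phia
theorem all_famb : S_FAMB := famb all_sep all_hexp all_phib
theorem all_lowa0 : S_LOWA0 := lowa0 all_fama pig all_upa all_bdd cu adm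
theorem all_lowb0 : S_LOWB0 := lowb0 all_famb pig all_upb all_bdd cu adm
theorem all_final : S_FINAL := final all_lowa0 all_lowb0 numla numlb all_upa all_upb all_bdd cl adm

end SmSm
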