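import Pool.Agent.H636R2.SM.SpecP
open MeasureTheory Real ProbabilityTheory
open scoped ENNReal BigOperators

/-!
Task ANN: counting of shapes and frequencies.
-/

namespace SmSm
open HypVol MWidth

theorem ann_mem_lev {d μ : ℕ} {s : Fin d → ℕ} (h : s ∈ lev d μ) :
    (∀ j, s j ≤ μ) ∧ ∑ j, s j = μ := by
  unfold lev at h
  rw [Finset.mem_filter, Fintype.mem_piFinset] at h
  exact ⟨fun j => by have := h.1 j; rw [Finset.mem_range] at this; omega, h.2⟩

theorem ann_mem_ann {d : ℕ} {s : Fin d → ℕ} {k : Fin d → ℤ} (h : k ∈ ann s) (j : Fin d) :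
    |k j| < (2:ℤ)^(s j + 1) ∧ s j ≤ Nat.size (k j).natAbs ∧ Nat.size (k j).natAbs ≤ s j + 1 := by
  unfold ann at h
  rw [Fintype.mem_piFinset] at h
  have h1 := h j
  rw [Finset.mem_filter, Finset.mem_Ioo] at h1
  exact ⟨abs_lt.2 h1.1, h1.2⟩

theorem ann_card_lev (m μ : ℕ) : (lev (m+1) μ).card ≤ (μ+1)^m := by
  have h : (lev (m+1) μ).card ≤
      (Fintype.piFinset (fun _ : Fin m => Finset.range (μ+1))).card := by
    refine Finset.card_le_card_of_injOn (fun s => fun i : Fin m => s i.castSucc) ?_ ?_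
    · intro s hs
      have hs' := ann_mem_lev (Finset.mem_coe.1 hs)
      rw [Finset.mem_coe, Fintype.mem_piFinset]
      intro i
      rw [Finset.mem_range]
      have := hs'.1 i.castSucc
      show s i.castSucc < μ + 1
      omega
    · intro s hs t ht hst
      have h1 := (ann_mem_lev (Finset.mem_coe.1 hs)).2
      have h2 := (ann_mem_lev (Finset.mem_coe.1 ht)).2
      rw [Fin.sum_univ_castSucc] at h1 h2
      have h3 : ∀ i : Fin m, s i.castSucc = t i.castSucc := fun i => congrFun hst i
      have h4 : ∑ i : Fin m, s i.castSucc = ∑ i : Fin m, t i.castSucc :=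
        Finset.sum_congr rfl fun i _ => h3 i
      funext j
      refine Fin.lastCases ?_ (fun i => h3 i) j
      omega
  refine h.trans (le_of_eq ?_)
  rw [Fintype.card_piFinset_const, Finset.card_range]

theorem ann_card_ann {d μ : ℕ} {s : Fin d → ℕ} (h : s ∈ lev d μ) :
    (ann s).card ≤ 8^d * 2^μ := by
  unfold ann
  rw [Fintype.card_piFinset]
  calc ∏ j, ((Finset.Ioo (-(2:ℤ)^(s j + 1)) ((2:ℤ)^(s j + 1))).filter
        (fun k => s j ≤ Nat.size k.natAbs ∧ Nat.size k.natAbs ≤ s j + 1)).card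
      ≤ ∏ j, (4 * 2^(s j)) := by
        refine Finset.prod_le_prod' fun j _ => ?_
        refine (Finset.card_filter_le _ _).trans ?_
        rw [Int.card_Ioo]
        have h1 : ((2:ℤ)^(s j + 1) - -(2:ℤ)^(s j + 1) - 1) ≤ ((4 * 2^(s j) : ℕ) : ℤ) := by
          push_cast
          rw [pow_succ]
          linarith
        have := Int.toNat_le_toNat h1
        rwa [Int.toNat_natCast] at this
    _ = 4^d * 2^μ := by
        rw [Finset.prod_mul_distrib, Finset.prod_const, Finset.card_univ, Fintype.card_fin,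
          Finset.prod_pow_eq_pow_sum, (ann_mem_lev h).2]
    _ ≤ 8^d * 2^μ := Nat.mul_le_mul_right _ (Nat.pow_le_pow_left (by norm_num) d)

theorem ann_ok : S_ANN := by
  intro d hd μ
  obtain ⟨m, rfl⟩ : ∃ m, d = m + 1 := ⟨d - 1, by omega⟩
  refine ⟨?_, ?_, ?_, ?_⟩
  · rw [Nat.add_sub_cancel]
    exact_mod_cast ann_card_lev m μ
  · rw [Nat.add_sub_cancel]
    have h1 : (annl (m+1) μ).card ≤ 8^(m+1) * 2^μ * (μ+1)^m := by
      unfold annl
      refine Finset.card_biUnion_le.trans ?_
      refine (Finset.sum_le_card_nsmul _ _ (8^(m+1) * 2^μ) fun s hs => ann_card_ann hs).trans ?_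
      rw [smul_eq_mul, mul_comm]
      exact Nat.mul_le_mul_left _ (ann_card_lev m μ)
    exact_mod_cast h1
  · intro k
    have h1 : (lev (m+1) μ).filter (fun s => k ∈ ann s) ⊆
        Fintype.piFinset (fun j => ({Nat.size (k j).natAbs, Nat.size (k j).natAbs - 1} : Finset ℕ)) := by
      intro s hs
      rw [Finset.mem_filter] at hs
      rw [Fintype.mem_piFinset]
      intro j
      have := (ann_mem_ann hs.2 j).2
      rw [Finset.mem_insert, Finset.mem_singleton]
      omega
    refine (Finset.card_le_card h1).trans ?_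
    rw [Fintype.card_piFinset]
    calc ∏ j, ({Nat.size (k j).natAbs, Nat.size (k j).natAbs - 1} : Finset ℕ).card
        ≤ ∏ _j : Fin (m+1), 2 := Finset.prod_le_prod' fun j _ => Finset.card_le_two
      _ = 2^(m+1) := by rw [Finset.prod_const, Finset.card_univ, Fintype.card_fin]
  · intro k hk j
    unfold annl at hk
    rw [Finset.mem_biUnion] at hk
    obtain ⟨s, hs, hks⟩ := hk
    refine lt_of_lt_of_le (ann_mem_ann hks j).1 ?_
    have := (ann_mem_lev hs).1 j
    exact pow_le_pow_right₀ (by norm_num) (by omega)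

end SmSm
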