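import Pool.Agent.H636R2.SM.SpecH
import Pool.Agent.KX.L_ml_bdd
open MeasureTheory Real ProbabilityTheory
open scoped ENNReal BigOperators

namespace SmSm
open HypVol MWidth

theorem bddh_ac (d : ℕ) : TP d ≪ (volume : Measure (Fin d → ℝ)) := by
  have h1 : TP d = (ENNReal.ofReal (2 * π)⁻¹) ^ d •
      (volume : Measure (Fin d → ℝ)).restrict (Set.pi Set.univ fun _ => Set.Ico 0 (2 * π)) := by
    unfold TP
    rw [volume_pi, Measure.restrict_pi_pi]
    have : IsFiniteMeasure (volume.restrict (Set.Ico (0:ℝ) (2 * π))) := ⟨by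
      rw [Measure.restrict_apply_univ, Real.volume_Ico]
      exact ENNReal.ofReal_lt_top⟩
    have h2 : IsFiniteMeasure (ENNReal.ofReal (2 * π)⁻¹ • volume.restrict (Set.Ico (0:ℝ) (2 * π))) :=
      Measure.smul_finite _ ENNReal.ofReal_ne_top
    refine Measure.pi_eq fun s hs => ?_
    rw [Measure.smul_apply, Measure.pi_pi, smul_eq_mul]
    simp only [Measure.smul_apply, smul_eq_mul]
    rw [Finset.prod_mul_distrib, Finset.prod_const, Finset.card_univ, Fintype.card_fin]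
  rw [h1]
  exact (Measure.smul_absolutelyContinuous).trans
    (Measure.absolutelyContinuous_of_le Measure.restrict_le_self)

theorem bddh (h : S_HSPLIT) : S_BDDH := by
  intro d hd q r hq hr
  have hq0 : 0 < q := by linarith
  have hr0 : 0 < r := lt_trans (by positivity) hr
  obtain ⟨C, hC, hsplit⟩ := h d hd q r hq hr
  obtain ⟨C', hC', hcard⟩ := card_layer_le d hd
  set r' : ℝ := r + (1/2 - 1/q) with hr'
  have hr'2 : 1/2 < r' := by rw [hr']; linarith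
  have hsum := HypVol.Sol_KX_ml_bdd.x330_summable ((d-1) + (d-1)) r' hr'2
  let b : ℕ → ℝ := fun n => (Real.sqrt C' * C) *
    (((n:ℝ)+1)^((d-1) + (d-1)) * ((2:ℝ)^(1/2 - r'))^n)
  have hb : Summable b := hsum.mul_left _
  have hb0 : ∀ n, 0 ≤ b n := fun n => by
    have : (0:ℝ) < (2:ℝ)^(1/2 - r') := Real.rpow_pos_of_pos (by norm_num) _
    positivity
  refine ⟨(∑' n, b n) + C, by
    have h0 : 0 ≤ ∑' n, b n := tsum_nonneg hb0
    linarith, ?_⟩
  intro f hf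
  obtain ⟨A, g, hA1, hA2, hA3⟩ := hsplit f hf 0
  have hmeas : AEStronglyMeasurable f (TP d) := hf.2.1.mono_ac (bddh_ac d)
  have hbound : ∀ n x, ‖poly (A n) x‖ ≤ b n := by
    intro n x
    refine (HypVol.Sol_KX_ml_bdd.x330_poly_le (A n) x).trans ?_
    have hn1 : (1:ℝ) ≤ (n:ℝ) + 1 := by linarith [Nat.cast_nonneg (α := ℝ) n]
    have h1 : Real.sqrt (∑ i, A n i ^ 2) ≤ C * (2:ℝ)^(-(r' * n)) * ((n:ℝ)+1)^(d-1) := by
      rw [Real.sqrt_le_left (by positivity)]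
      refine (hA1 n).trans ?_
      refine pow_le_pow_left₀ (by positivity) ?_ 2
      have e1 : ((n:ℝ)+1)^(((d:ℝ)-1)/2) ≤ ((n:ℝ)+1)^(d-1) := by
        rw [← Real.rpow_natCast ((n:ℝ)+1) (d-1)]
        refine Real.rpow_le_rpow_of_exponent_le hn1 ?_
        have : ((d - 1 : ℕ) : ℝ) = (d:ℝ) - 1 := by
          rw [Nat.cast_sub hd, Nat.cast_one]
        rw [this]
        have hd1 : (1:ℝ) ≤ d := by exact_mod_cast hd
        linarith
      have e2 : (2:ℝ)^(-(r * n)) * (2:ℝ)^(-((1/2 - 1/q) * ((n - 0 : ℕ) : ℝ))) =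
          (2:ℝ)^(-(r' * n)) := by
        rw [Nat.sub_zero, ← Real.rpow_add (by norm_num)]
        congr 1
        rw [hr']
        ring
      calc C * (2:ℝ)^(-(r * n)) * ((n:ℝ)+1)^(((d:ℝ)-1)/2) *
            (2:ℝ)^(-((1/2 - 1/q) * ((n - 0 : ℕ) : ℝ)))
          = C * ((2:ℝ)^(-(r * n)) * (2:ℝ)^(-((1/2 - 1/q) * ((n - 0 : ℕ) : ℝ)))) *
              ((n:ℝ)+1)^(((d:ℝ)-1)/2) := by ring
        _ ≤ C * ((2:ℝ)^(-(r * n)) * (2:ℝ)^(-((1/2 - 1/q) * ((n - 0 : ℕ) : ℝ)))) *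
              ((n:ℝ)+1)^(d-1) := mul_le_mul_of_nonneg_left e1 (by positivity)
        _ = C * (2:ℝ)^(-(r' * n)) * ((n:ℝ)+1)^(d-1) := by rw [e2]
    have h2 : Real.sqrt ((layer d n).card) ≤ Real.sqrt C' * Real.sqrt ((2:ℝ)^n) * ((n:ℝ)+1)^(d-1) := by
      have h3 : Real.sqrt ((layer d n).card) ≤ Real.sqrt (C' * 2^n * ((n:ℝ)+1)^(d-1)) :=
        Real.sqrt_le_sqrt (hcard n)
      refine h3.trans ?_
      rw [Real.sqrt_mul (by positivity), Real.sqrt_mul hC'.le]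
      refine mul_le_mul_of_nonneg_left ?_ (by positivity)
      rw [Real.sqrt_le_left (by positivity)]
      have h4 : (1:ℝ) ≤ ((n:ℝ)+1)^(d-1) := one_le_pow₀ hn1
      nlinarith
    calc Real.sqrt ((layer d n).card) * Real.sqrt (∑ i, A n i ^ 2)
        ≤ (Real.sqrt C' * Real.sqrt ((2:ℝ)^n) * ((n:ℝ)+1)^(d-1)) *
            (C * (2:ℝ)^(-(r' * n)) * ((n:ℝ)+1)^(d-1)) :=
          mul_le_mul h2 h1 (Real.sqrt_nonneg _) (by positivity)
      _ = (Real.sqrt C' * C) * (((n:ℝ)+1)^((d-1)+(d-1)) *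
            (Real.sqrt ((2:ℝ)^n) * (2:ℝ)^(-(r' * n)))) := by rw [pow_add]; ring
      _ = b n := by rw [HypVol.Sol_KX_ml_bdd.x330_pow2]
  have hae : ∀ᵐ x ∂(TP d), ‖f x‖ ≤ (∑' n, b n) + C := by
    filter_upwards [hA3] with x hx
    have h1 : Summable (fun n => ‖poly (A n) x‖) :=
      Summable.of_nonneg_of_le (fun n => norm_nonneg _) (fun n => hbound n x) hb
    have h2 : ‖g x‖ ≤ ∑' n, b n := by
      rw [← (hA2 x).tsum_eq]
      refine (norm_tsum_le_tsum_norm h1).trans ?_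
      exact h1.tsum_le_tsum (fun n => hbound n x) hb
    have h3 : ‖f x - g x‖ ≤ C := by
      refine hx.trans (le_of_eq ?_)
      simp
    have h4 : ‖f x‖ ≤ ‖f x - g x‖ + ‖g x‖ := by
      have := norm_add_le (f x - g x) (g x)
      rwa [sub_add_cancel] at this
    linarith
  refine ⟨memLp_top_of_bound hmeas _ hae, ?_⟩
  rw [eLpNorm_exponent_top]
  exact eLpNormEssSup_le_of_ae_bound hae

end SmSm
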