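import Pool.Agent.H636R2.SM.SpecP

open MeasureTheory Real
open scoped ENNReal BigOperators

namespace SmSm

/-- rounding towards zero -/
noncomputable def cnt_tr (x : ℝ) : ℤ := if 0 ≤ x then ⌊x⌋ else ⌈x⌉

theorem cnt_tr_spec (x : ℝ) : |x - cnt_tr x| ≤ 1 ∧ |(cnt_tr x : ℝ)| ≤ |x| ∧
    (|x| < 1 → cnt_tr x = 0) := by
  unfold cnt_tr
  split_ifs with h
  · have h1 := Int.floor_le x
    have h2 := Int.lt_floor_add_one x
    have h3 : (0 : ℝ) ≤ (⌊x⌋ : ℝ) := by exact_mod_cast Int.floor_nonneg.2 h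
    refine ⟨abs_le.2 ⟨by linarith, by linarith⟩, ?_, ?_⟩
    · rw [abs_of_nonneg h3, abs_of_nonneg h]; exact h1
    · intro h4
      rw [abs_of_nonneg h] at h4
      exact Int.floor_eq_zero_iff.2 ⟨h, h4⟩
  · push Not at h
    have h1 := Int.le_ceil x
    have h2 := Int.ceil_lt_add_one x
    have h3 : (⌈x⌉ : ℝ) ≤ 0 := by exact_mod_cast Int.ceil_le.2 (by simpa using h.le)
    refine ⟨abs_le.2 ⟨by linarith, by linarith⟩, ?_, ?_⟩
    · rw [abs_of_nonpos h3, abs_of_neg h]; linarith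
    · intro h4
      rw [abs_of_neg h] at h4
      rw [Int.ceil_eq_zero_iff]
      exact ⟨by linarith, h.le⟩

theorem cnt_sq_le (x p : ℝ) (h1 : 1 ≤ p) (h2 : p ≤ 2) : (x - cnt_tr x) ^ 2 ≤ |x| ^ p := by
  obtain ⟨ha, -, hc⟩ := cnt_tr_spec x
  by_cases hx : |x| < 1
  · rw [hc hx, Int.cast_zero, sub_zero, ← sq_abs]
    rcases (abs_nonneg x).eq_or_lt with h0 | h0
    · rw [← h0, Real.zero_rpow (by linarith)]; norm_num
    · have := Real.rpow_le_rpow_of_exponent_ge h0 hx.le h2
      rwa [Real.rpow_two] at this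
  · push Not at hx
    calc (x - cnt_tr x) ^ 2 = |x - cnt_tr x| ^ 2 := (sq_abs _).symm
      _ ≤ 1 := pow_le_one₀ (abs_nonneg _) ha
      _ ≤ |x| ^ p := Real.one_le_rpow hx (by linarith)

theorem cnt_abs_le (x p : ℝ) (h1 : 1 ≤ p) : |(cnt_tr x : ℝ)| ≤ |x| ^ p := by
  obtain ⟨-, hb, hc⟩ := cnt_tr_spec x
  by_cases hx : |x| < 1
  · rw [hc hx, Int.cast_zero, abs_zero]
    exact Real.rpow_nonneg (abs_nonneg _) _
  · push Not at hx
    exact hb.trans (Real.self_le_rpow_of_one_le hx h1)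

theorem cnt_geom (x : ℝ) (h0 : 0 ≤ x) (h1 : x < 1) (n : ℕ) :
    ∑ i ∈ Finset.range n, x ^ i ≤ 1 / (1 - x) := by
  rw [le_div_iff₀ (by linarith)]
  have := geom_sum_mul_neg x n
  rw [this]
  have : 0 ≤ x ^ n := pow_nonneg h0 n
  linarith

theorem cnt_sum_Icc (x : ℝ) (h0 : 0 ≤ x) (h1 : x < 1) (M : ℕ) :
    ∑ k ∈ Finset.Icc (-(M : ℤ)) M, x ^ k.natAbs ≤ (1 + x) / (1 - x) := by
  classical
  have hsub : Finset.Icc (-(M : ℤ)) M ⊆ (Finset.range (M + 1)).image (fun n : ℕ => (n : ℤ)) ∪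
      (Finset.range M).image (fun n : ℕ => -((n : ℤ) + 1)) := by
    intro k hk
    rw [Finset.mem_Icc] at hk
    rw [Finset.mem_union, Finset.mem_image, Finset.mem_image]
    rcases le_or_gt 0 k with h | h
    · left
      exact ⟨k.toNat, by rw [Finset.mem_range]; omega, by omega⟩
    · right
      exact ⟨(-k - 1).toNat, by rw [Finset.mem_range]; omega, by omega⟩
  have hnn : ∀ k : ℤ, 0 ≤ x ^ k.natAbs := fun k => pow_nonneg h0 _
  calc ∑ k ∈ Finset.Icc (-(M : ℤ)) M, x ^ k.natAbs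
      ≤ ∑ k ∈ (Finset.range (M + 1)).image (fun n : ℕ => (n : ℤ)) ∪
          (Finset.range M).image (fun n : ℕ => -((n : ℤ) + 1)), x ^ k.natAbs :=
        Finset.sum_le_sum_of_subset_of_nonneg hsub fun k _ _ => hnn k
    _ ≤ ∑ k ∈ (Finset.range (M + 1)).image (fun n : ℕ => (n : ℤ)), x ^ k.natAbs +
          ∑ k ∈ (Finset.range M).image (fun n : ℕ => -((n : ℤ) + 1)), x ^ k.natAbs := by
        have := Finset.sum_union_inter (s₁ := (Finset.range (M + 1)).image (fun n : ℕ => (n : ℤ)))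
          (s₂ := (Finset.range M).image (fun n : ℕ => -((n : ℤ) + 1)))
          (f := fun k : ℤ => x ^ k.natAbs)
        have h2 : 0 ≤ ∑ k ∈ (Finset.range (M + 1)).image (fun n : ℕ => (n : ℤ)) ∩
          (Finset.range M).image (fun n : ℕ => -((n : ℤ) + 1)), x ^ k.natAbs :=
          Finset.sum_nonneg fun k _ => hnn k
        linarith
    _ = ∑ n ∈ Finset.range (M + 1), x ^ n + ∑ n ∈ Finset.range M, x ^ (n + 1) := by
        rw [Finset.sum_image (by intro a _ b _ h; simpa using h),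
          Finset.sum_image (by intro a _ b _ h; simpa using h)]
        congr 1
    _ = ∑ n ∈ Finset.range (M + 1), x ^ n + x * ∑ n ∈ Finset.range M, x ^ n := by
        rw [Finset.mul_sum]
        congr 1
        apply Finset.sum_congr rfl
        intro n _
        ring
    _ ≤ 1 / (1 - x) + x * (1 / (1 - x)) := by
        gcongr
        · exact cnt_geom x h0 h1 _
        · exact cnt_geom x h0 h1 _
    _ = (1 + x) / (1 - x) := by ring

/-- integer vectors with small `l_1` norm -/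
noncomputable def cnt_T (I : Type) [Fintype I] (L : ℕ) : Finset (I → ℤ) := by
  classical
  exact (Fintype.piFinset fun _ : I => Finset.Icc (-(L : ℤ)) L).filter
    fun z => ∑ i, (z i).natAbs ≤ L

theorem cnt_mem_T (I : Type) [Fintype I] (L : ℕ) (z : I → ℤ) (h : ∑ i, (z i).natAbs ≤ L) :
    z ∈ cnt_T I L := by
  classical
  unfold cnt_T
  rw [Finset.mem_filter, Fintype.mem_piFinset]
  refine ⟨fun i => ?_, h⟩
  have : (z i).natAbs ≤ L :=
    (Finset.single_le_sum (f := fun i => (z i).natAbs) (fun _ _ => Nat.zero_le _)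
      (Finset.mem_univ i)).trans h
  rw [Finset.mem_Icc]
  omega

theorem cnt_card_T (I : Type) [Fintype I] (L : ℕ) (x : ℝ) (h0 : 0 < x) (h1 : x < 1) :
    ((cnt_T I L).card : ℝ) * x ^ L ≤ ((1 + x) / (1 - x)) ^ Fintype.card I := by
  classical
  calc ((cnt_T I L).card : ℝ) * x ^ L = ∑ _z ∈ cnt_T I L, x ^ L := by
        rw [Finset.sum_const, nsmul_eq_mul]
    _ ≤ ∑ z ∈ cnt_T I L, x ^ (∑ i, (z i).natAbs) := by
        apply Finset.sum_le_sum
        intro z hz
        unfold cnt_T at hz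
        rw [Finset.mem_filter] at hz
        exact pow_le_pow_of_le_one h0.le h1.le hz.2
    _ ≤ ∑ z ∈ Fintype.piFinset (fun _ : I => Finset.Icc (-(L : ℤ)) L),
          x ^ (∑ i, (z i).natAbs) := by
        apply Finset.sum_le_sum_of_subset_of_nonneg
        · unfold cnt_T
          exact Finset.filter_subset _ _
        · intro z _ _
          exact pow_nonneg h0.le _
    _ = ∏ _i : I, ∑ k ∈ Finset.Icc (-(L : ℤ)) L, x ^ k.natAbs := by
        rw [Finset.prod_univ_sum]
        apply Finset.sum_congr rfl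
        intro z _
        rw [Finset.prod_pow_eq_pow_sum]
    _ ≤ ∏ _i : I, (1 + x) / (1 - x) := by
        apply Finset.prod_le_prod
        · intro i _
          exact Finset.sum_nonneg fun k _ => pow_nonneg h0.le _
        · intro i _
          exact cnt_sum_Icc x h0.le h1 L
    _ = ((1 + x) / (1 - x)) ^ Fintype.card I := by
        rw [Finset.prod_const, Finset.card_univ]

theorem cnt_num (D : ℕ) (lam : ℝ) (hl : 1 ≤ lam) (L : ℕ) (hL : (L : ℝ) ≤ 2 * D / lam) (N : ℝ)
    (hN : N * (1 / (4 * lam)) ^ L ≤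
      ((1 + 1 / (4 * lam)) / (1 - 1 / (4 * lam))) ^ (D * 2)) :
    N ≤ Real.exp (5 * D * (1 + Real.log lam) / lam) := by
  have hl0 : 0 < lam := by linarith
  set x : ℝ := 1 / (4 * lam) with hx
  have hx0 : 0 < x := by positivity
  have hx4 : x ≤ 1 / 4 := by
    rw [hx]; apply div_le_div_of_nonneg_left <;> linarith
  have hq : (1 + x) / (1 - x) ≤ Real.exp (3 * x) := by
    have h1 : (1 + x) / (1 - x) = 1 + 2 * x / (1 - x) := by
      have : (1 - x) ≠ 0 := by linarith
      field_simp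
      ring
    have h2 : 2 * x / (1 - x) ≤ 3 * x := by
      rw [div_le_iff₀ (by linarith)]
      nlinarith
    rw [h1]
    calc 1 + 2 * x / (1 - x) ≤ 3 * x + 1 := by linarith
      _ ≤ Real.exp (3 * x) := Real.add_one_le_exp _
  have hq0 : 0 ≤ (1 + x) / (1 - x) := div_nonneg (by linarith) (by linarith)
  have h4 : (1 / x) ^ L = Real.exp (L * Real.log (4 * lam)) := by
    have : 1 / x = 4 * lam := by rw [hx]; field_simp
    rw [this, Real.exp_nat_mul, Real.exp_log (by positivity)]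
  have hlog4 : Real.log (4 * lam) ≤ 1.4 + Real.log lam := by
    rw [Real.log_mul (by norm_num) hl0.ne']
    have h5 : Real.log 4 = 2 * Real.log 2 := by
      rw [show (4 : ℝ) = 2 ^ 2 by norm_num, Real.log_pow]; norm_num
    have := Real.log_two_lt_d9
    linarith
  have hlog : 0 ≤ Real.log lam := Real.log_nonneg hl
  have hlog4' : 0 ≤ Real.log (4 * lam) := Real.log_nonneg (by linarith)
  have hN2 : N ≤ (1 / x) ^ L * ((1 + x) / (1 - x)) ^ (D * 2) := by
    have hxL : (0 : ℝ) < x ^ L := by positivity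
    rw [one_div, inv_pow, inv_mul_eq_div, le_div_iff₀ hxL]
    exact hN
  calc N ≤ (1 / x) ^ L * ((1 + x) / (1 - x)) ^ (D * 2) := hN2
    _ ≤ Real.exp (L * Real.log (4 * lam)) * Real.exp (3 * x) ^ (D * 2) := by
        rw [h4]
        gcongr
    _ = Real.exp (L * Real.log (4 * lam) + (D * 2 : ℕ) * (3 * x)) := by
        rw [← Real.exp_nat_mul, ← Real.exp_add]
    _ ≤ Real.exp (5 * D * (1 + Real.log lam) / lam) := by
        apply Real.exp_le_exp.2
        have e1 : (L : ℝ) * Real.log (4 * lam) ≤ 2 * D / lam * (1.4 + Real.log lam) := by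
          apply mul_le_mul hL hlog4 hlog4' (by positivity)
        have e2 : ((D * 2 : ℕ) : ℝ) * (3 * x) = (D / lam) * 1.5 := by
          rw [hx]; push_cast; field_simp; ring
        have e3 : 2 * (D : ℝ) / lam * (1.4 + Real.log lam) = (D / lam) * (2.8 + 2 * Real.log lam) := by
          ring
        have e4 : 5 * (D : ℝ) * (1 + Real.log lam) / lam = (D / lam) * (5 + 5 * Real.log lam) := by
          ring
        rw [e2, e4]
        rw [e3] at e1
        have hD : (0 : ℝ) ≤ D / lam := by positivity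
        nlinarith [mul_nonneg hD hlog]

/-- grid points from integer vectors -/
noncomputable def cnt_emb {Y : Type} (τ : ℝ) (z : Y × Fin 2 → ℤ) : Y → ℂ :=
  fun y => ⟨τ * z (y, 0), τ * z (y, 1)⟩

theorem cnt : S_CNT := by
  refine ⟨5, by norm_num, ?_⟩
  intro p hp1 hp2 Y _ lam hl
  classical
  have hl0 : 0 < lam := by linarith
  have hp0 : 0 < p := by linarith
  obtain ⟨τ, hτ⟩ : ∃ τ : ℝ, τ = lam ^ (1 / p) := ⟨_, rfl⟩
  have hτ0 : 0 < τ := by rw [hτ]; exact Real.rpow_pos_of_pos hl0 _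
  have hτp : τ ^ p = lam := by
    rw [hτ, ← Real.rpow_mul hl0.le, one_div_mul_cancel hp0.ne', Real.rpow_one]
  have hτ2 : τ ^ 2 = lam ^ (2 / p) := by
    rw [hτ, ← Real.rpow_natCast, ← Real.rpow_mul hl0.le]
    congr 1
    push_cast
    ring
  set D := Fintype.card Y with hD
  set L : ℕ := ⌊2 * (D : ℝ) / lam⌋₊ with hLdef
  have hLle : (L : ℝ) ≤ 2 * D / lam := Nat.floor_le (by positivity)
  refine ⟨(cnt_T (Y × Fin 2) L).image (cnt_emb τ), ?_, ?_⟩
  · have h1 : ((((cnt_T (Y × Fin 2) L).image (cnt_emb τ)).card : ℕ) : ℝ) ≤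
        ((cnt_T (Y × Fin 2) L).card : ℝ) := by exact_mod_cast Finset.card_image_le
    refine h1.trans ?_
    have hx0 : 0 < 1 / (4 * lam) := by positivity
    have hx1 : 1 / (4 * lam) < 1 := by
      rw [div_lt_one (by positivity)]; linarith
    have h2 := cnt_card_T (Y × Fin 2) L (1 / (4 * lam)) hx0 hx1
    rw [Fintype.card_prod, Fintype.card_fin] at h2
    have := cnt_num D lam hl L hLle _ h2
    exact this
  · intro b hb
    have hbp : ∀ y, ∀ u : ℝ, |u| ≤ ‖b y‖ → |u / τ| ^ p ≤ ‖b y‖ ^ p / lam := by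
      intro y u hu
      rw [abs_div, abs_of_pos hτ0, Real.div_rpow (abs_nonneg _) hτ0.le, hτp]
      gcongr
    set z : Y × Fin 2 → ℤ := fun q =>
      if q.2 = 0 then cnt_tr ((b q.1).re / τ) else cnt_tr ((b q.1).im / τ) with hz
    have hz0 : ∀ y, z (y, 0) = cnt_tr ((b y).re / τ) := fun y => by simp [hz]
    have hz1 : ∀ y, z (y, 1) = cnt_tr ((b y).im / τ) := fun y => by simp [hz]
    refine ⟨cnt_emb τ z, ?_, ?_⟩
    · apply Finset.mem_image_of_mem
      apply cnt_mem_T
      rw [hLdef]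
      apply Nat.le_floor
      rw [Fintype.sum_prod_type]
      simp only [Fin.sum_univ_two, hz0, hz1]
      push_cast
      have h3 : ∀ y, (((cnt_tr ((b y).re / τ)).natAbs : ℝ) + ((cnt_tr ((b y).im / τ)).natAbs : ℝ)) ≤
          2 * (‖b y‖ ^ p / lam) := by
        intro y
        rw [Nat.cast_natAbs, Nat.cast_natAbs, Int.cast_abs, Int.cast_abs]
        have e1 := (cnt_abs_le ((b y).re / τ) p hp1).trans (hbp y _ (Complex.abs_re_le_norm _))
        have e2 := (cnt_abs_le ((b y).im / τ) p hp1).trans (hbp y _ (Complex.abs_im_le_norm _))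
        linarith
      calc ∑ y, (((cnt_tr ((b y).re / τ)).natAbs : ℝ) + ((cnt_tr ((b y).im / τ)).natAbs : ℝ))
          ≤ ∑ y, 2 * (‖b y‖ ^ p / lam) := Finset.sum_le_sum fun y _ => h3 y
        _ = 2 * (∑ y, ‖b y‖ ^ p) / lam := by
            rw [← Finset.mul_sum, ← Finset.sum_div]; ring
        _ ≤ 2 * D / lam := by gcongr
    · have h4 : ∀ y, ‖b y - cnt_emb τ z y‖ ^ 2 ≤
          τ ^ 2 * (2 * (‖b y‖ ^ p / lam)) := by
        intro y
        rw [← Complex.normSq_eq_norm_sq, Complex.normSq_apply, Complex.sub_re, Complex.sub_im]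
        simp only [cnt_emb, hz0, hz1]
        have e1 := (cnt_sq_le ((b y).re / τ) p hp1 hp2).trans (hbp y _ (Complex.abs_re_le_norm _))
        have e2 := (cnt_sq_le ((b y).im / τ) p hp1 hp2).trans (hbp y _ (Complex.abs_im_le_norm _))
        have e3 : (b y).re - τ * (cnt_tr ((b y).re / τ) : ℝ) =
            τ * ((b y).re / τ - (cnt_tr ((b y).re / τ) : ℝ)) := by field_simp
        have e4 : (b y).im - τ * (cnt_tr ((b y).im / τ) : ℝ) =
            τ * ((b y).im / τ - (cnt_tr ((b y).im / τ) : ℝ)) := by field_simp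
        rw [e3, e4]
        have hτ20 : 0 ≤ τ ^ 2 := by positivity
        nlinarith
      calc ∑ y, ‖b y - cnt_emb τ z y‖ ^ 2
          ≤ ∑ y, τ ^ 2 * (2 * (‖b y‖ ^ p / lam)) := Finset.sum_le_sum fun y _ => h4 y
        _ = τ ^ 2 * (2 * ((∑ y, ‖b y‖ ^ p) / lam)) := by
            rw [← Finset.mul_sum, ← Finset.mul_sum, ← Finset.sum_div]
        _ ≤ τ ^ 2 * (2 * (D / lam)) := by gcongr
        _ = 2 * D * lam ^ (2 / p - 1) := by
            rw [hτ2, Real.rpow_sub hl0, Real.rpow_one]; ring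
        _ ≤ 5 * D * lam ^ (2 / p - 1) := by
            have : 0 ≤ lam ^ (2 / p - 1) := Real.rpow_nonneg hl0.le _
            gcongr
            norm_num

end SmSm
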