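import Pool.Agent.H636R2.SM.SpecH
import Pool.Agent.H636R2.SM.JOINT
import Pool.Agent.EntX.L_gauss_sup
import Pool.Agent.EntX.L_dual_sudakov
open MeasureTheory Real ProbabilityTheory
open scoped ENNReal BigOperators

namespace SmSm
open HypVol MWidth

/-- seminorm given by finitely many functionals -/
noncomputable def entjnu {ι J : Type} [Fintype ι] [Fintype J] [Nonempty J] (z : J → ι → ℝ)
    (a : ι → ℝ) : ℝ :=
  Finset.univ.sup' Finset.univ_nonempty (fun j => |∑ i, a i * z j i|)

theorem entjnu_le {ι J : Type} [Fintype ι] [Fintype J] [Nonempty J] (z : J → ι → ℝ)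
    (a : ι → ℝ) (t : ℝ) : entjnu z a ≤ t ↔ ∀ j, |∑ i, a i * z j i| ≤ t := by
  unfold entjnu
  simp [Finset.sup'_le_iff]

theorem entjnu_ge {ι J : Type} [Fintype ι] [Fintype J] [Nonempty J] (z : J → ι → ℝ)
    (a : ι → ℝ) (j : J) : |∑ i, a i * z j i| ≤ entjnu z a :=
  (entjnu_le z a _).1 le_rfl j

theorem entjnu_add {ι J : Type} [Fintype ι] [Fintype J] [Nonempty J] (z : J → ι → ℝ)
    (a b : ι → ℝ) : entjnu z (a + b) ≤ entjnu z a + entjnu z b := by
  rw [entjnu_le]
  intro j
  have h : ∑ i, (a + b) i * z j i = ∑ i, a i * z j i + ∑ i, b i * z j i := by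
    rw [← Finset.sum_add_distrib]
    refine Finset.sum_congr rfl fun i _ => ?_
    rw [Pi.add_apply, add_mul]
  rw [h]
  exact (abs_add_le _ _).trans (add_le_add (entjnu_ge z a j) (entjnu_ge z b j))

theorem entjnu_smul {ι J : Type} [Fintype ι] [Fintype J] [Nonempty J] (z : J → ι → ℝ)
    (c : ℝ) (a : ι → ℝ) : entjnu z (c • a) = |c| * entjnu z a := by
  have h : ∀ j, |∑ i, (c • a) i * z j i| = |c| * |∑ i, a i * z j i| := by
    intro j
    rw [← abs_mul, Finset.mul_sum]
    congr 1
    refine Finset.sum_congr rfl fun i _ => ?_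
    rw [Pi.smul_apply, smul_eq_mul, mul_assoc]
  apply le_antisymm
  · rw [entjnu_le]
    intro j
    rw [h]
    exact mul_le_mul_of_nonneg_left (entjnu_ge z a j) (abs_nonneg _)
  · obtain ⟨j, _, hj⟩ := Finset.exists_mem_eq_sup' (Finset.univ_nonempty (α := J))
      (fun j => |∑ i, a i * z j i|)
    have hj' : entjnu z a = |∑ i, a i * z j i| := hj
    rw [hj', ← h]
    exact entjnu_ge z (c • a) j

theorem entjnu_cont {ι J : Type} [Fintype ι] [Fintype J] [Nonempty J] (z : J → ι → ℝ) :
    Continuous (entjnu z) := by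
  unfold entjnu
  apply Continuous.finset_sup'_apply
  intro j _
  fun_prop

abbrev entjJ (d c N : ℕ) : Type := (Fin d → Fin (2 ^ (c * (N + 1)))) × Fin 2

theorem entj_card (d c N : ℕ) : (Fintype.card (entjJ d c N) : ℝ) = (2:ℝ) ^ (c * (N + 1) * d) * 2 := by
  rw [Fintype.card_prod, Fintype.card_fun, Fintype.card_fin, Fintype.card_fin, Fintype.card_fin]
  push_cast
  rw [← pow_mul]

/-- ENTJ -/
theorem entj : S_ENTJ := by
  classical
  intro d
  obtain ⟨c, hc⟩ := joint_disc d
  refine ⟨16 * Real.sqrt (2 * (7 + c * d)), by positivity, ?_⟩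
  intro N Λ w k hk hΛ
  set W : ℝ := ∑ l ∈ Λ, (w l)^2 with hW
  have hW0 : 0 ≤ W := Finset.sum_nonneg fun l _ => sq_nonneg _
  rcases hW0.eq_or_lt with hWz | hWp
  · refine ⟨{0}, by simpa using Nat.one_le_two_pow, fun a _ => ⟨0, by simp, fun x => ?_⟩⟩
    have hw : ∀ l ∈ Λ, w l = 0 := by
      intro l hl
      have h1 := (Finset.sum_eq_zero_iff_of_nonneg (fun l _ => sq_nonneg (w l))).1
        (hW.symm.trans hWz.symm) l hl
      exact pow_eq_zero_iff (by norm_num) |>.1 h1
    have hz : gp Λ (fun i => w i.1.1 * a i - (0 : Λ × Fin 2 → ℝ) i) x = 0 := by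
      unfold gp
      apply Finset.sum_eq_zero
      intro l _
      simp [hw l.1 l.2]
    rw [hz, norm_zero]
    positivity
  · haveI : NeZero (2 ^ (c * (N + 1))) := ⟨by positivity⟩
    let z : entjJ d c N → (Λ × Fin 2) → ℝ := fun p i => jointz Λ w (2 ^ (c * (N + 1))) p i
    have hz : ∀ j, ∑ i, z j i ^ 2 ≤ W := fun j => (jointz_sq Λ w _ j).le
    obtain ⟨t, ht⟩ : ∃ t : ℝ, t = Real.sqrt (2 * W * Real.log (4 * (Fintype.card (entjJ d c N) : ℝ))) :=
      ⟨_, rfl⟩
    have hJ : (1 : ℝ) ≤ (Fintype.card (entjJ d c N) : ℝ) := by exact_mod_cast Fintype.card_pos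
    have hlog0 : 0 < Real.log (4 * (Fintype.card (entjJ d c N) : ℝ)) := Real.log_pos (by linarith)
    have ht0 : 0 < t := by rw [ht]; positivity
    have hg : (1/2 : ℝ≥0∞) ≤ gam (Λ × Fin 2) 1 {u | entjnu z u ≤ t} := by
      have h1 := Sol_EX_gauss_sup.union_406 z W hWp hz
      rw [← ht] at h1
      have h2 : {u | entjnu z u ≤ t} = {u | ∀ j, |∑ i, u i * z j i| ≤ t} := by
        ext u
        exact entjnu_le z u t
      rw [h2]
      exact h1
    have hk0 : (0 : ℝ) < k := by
      have : 0 < k := by omega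
      exact_mod_cast this
    obtain ⟨ε, hε⟩ : ∃ ε : ℝ, ε = 4 * t / Real.sqrt k := ⟨_, rfl⟩
    have hε0 : 0 < ε := by rw [hε]; positivity
    obtain ⟨S0, hS0c, hS0⟩ := dual_sudakov (entjnu z) (entjnu_add z) (entjnu_smul z)
      (entjnu_cont z) t ht0 hg ε hε0
    refine ⟨S0.image (fun s i => w i.1.1 * s i), ?_, ?_⟩
    · have h1 : 2 * t ^ 2 / ε ^ 2 = k / 8 := by
        rw [hε, div_pow, mul_pow, Real.sq_sqrt hk0.le]
        field_simp
        norm_num
      rw [h1] at hS0c
      have h2 : 2 * Real.exp ((k : ℝ) / 8) ≤ 2 ^ k := by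
        obtain ⟨m, rfl⟩ : ∃ m, k = m + 2 := ⟨k - 2, by omega⟩
        have h3 : (2:ℝ) ^ (m + 2) = 2 * Real.exp (((m:ℝ) + 1) * Real.log 2) := by
          rw [show (m:ℝ) + 1 = ((m + 1 : ℕ) : ℝ) by push_cast; ring, Real.exp_nat_mul,
            Real.exp_log (by norm_num)]
          ring
        rw [h3]
        apply mul_le_mul_of_nonneg_left _ (by norm_num)
        apply Real.exp_le_exp.2
        have hl := Real.log_two_gt_d9
        have hm0 : (0:ℝ) ≤ m := Nat.cast_nonneg m
        push_cast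
        nlinarith
      have h4 : ((S0.image (fun s i => w i.1.1 * s i)).card : ℝ) ≤ 2 ^ k :=
        le_trans (by exact_mod_cast Finset.card_image_le) (hS0c.trans h2)
      exact_mod_cast h4
    · intro a ha
      obtain ⟨s, hs, hsa⟩ := hS0 a ha
      refine ⟨fun i => w i.1.1 * s i, Finset.mem_image_of_mem _ hs, ?_⟩
      have hre : (fun i : Λ × Fin 2 => w i.1.1 * a i - w i.1.1 * s i) =
          fun i => w i.1.1 * ((a - s) i) := by
        funext i
        rw [Pi.sub_apply, mul_sub]
      have hgrid : ∀ g : Fin d → Fin (2^(c*(N+1))),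
          ‖gp Λ (fun i => w i.1.1 * ((a - s) i))
            (fun j => 2 * π * ((g j : ℕ) : ℝ) / 2^(c*(N+1)))‖ ≤ 2 * ε := by
        intro g
        have h1 := (entjnu_ge z (a - s) (g, 0)).trans hsa
        have h2 := (entjnu_ge z (a - s) (g, 1)).trans hsa
        have e1 := jointz_re Λ w (2^(c*(N+1))) g (a - s)
        have e2 := jointz_im Λ w (2^(c*(N+1))) g (a - s)
        push_cast at e1 e2
        refine (Complex.norm_le_abs_re_add_abs_im _).trans ?_
        rw [e1, e2, two_mul]
        exact add_le_add h1 h2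
      intro x
      have hfin := hc N Λ hΛ _ (2 * ε) (by positivity) hgrid x
      rw [← hre] at hfin
      refine hfin.trans ?_
      have hcard := entj_card d c N
      have hlog : Real.log (4 * (Fintype.card (entjJ d c N) : ℝ)) ≤ (7 + c * d) * (N + 1) := by
        rw [hcard, show (4:ℝ) * (2 ^ (c * (N + 1) * d) * 2) = 8 * 2 ^ (c * (N + 1) * d) by ring,
          Real.log_mul (by norm_num) (by positivity), Real.log_pow]
        have h6 : Real.log 8 ≤ 7 := by
          have := Real.log_le_sub_one_of_pos (show (0:ℝ) < 8 by norm_num)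
          linarith
        have h2 : Real.log 2 ≤ 1 := by
          have := Real.log_le_sub_one_of_pos (show (0:ℝ) < 2 by norm_num)
          linarith
        push_cast
        have h3 : (c:ℝ) * (N + 1) * d * Real.log 2 ≤ (c:ℝ) * (N + 1) * d * 1 :=
          mul_le_mul_of_nonneg_left h2 (by positivity)
        have h4 : (7:ℝ) ≤ 7 * (N + 1) := by
          have : (0:ℝ) ≤ N := Nat.cast_nonneg N
          linarith
        nlinarith
      have hle : t ≤ Real.sqrt (2 * W * ((7 + c * d) * (N + 1))) := by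
        rw [ht]
        apply Real.sqrt_le_sqrt
        exact mul_le_mul_of_nonneg_left hlog (by positivity)
      have heq : Real.sqrt (2 * W * ((7 + c * d) * (N + 1))) / Real.sqrt k =
          Real.sqrt (2 * (7 + c * d)) * Real.sqrt (((N:ℝ)+1) * W / k) := by
        rw [← Real.sqrt_div (by positivity), ← Real.sqrt_mul (by positivity)]
        congr 1
        ring
      calc 2 * (2 * ε) = 16 * (t / Real.sqrt k) := by rw [hε]; ring
        _ ≤ 16 * (Real.sqrt (2 * W * ((7 + c * d) * (N + 1))) / Real.sqrt k) := by gcongr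
        _ = _ := by rw [heq]; ring

end SmSm
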