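import Pool.Agent.H636R2.SM.FAMHG
import Pool.Agent.HypVol.L_shp_lower
import Pool.Agent.HypVol.L_shp_upper
import Pool.Agent.HypVol.L_card_layer
import Pool.Agent.HypVol.L_TP_prob
open MeasureTheory Real ProbabilityTheory
open scoped ENNReal BigOperators

/-! FAMHA: the family of functions for the classes `H^r`, one layer -/

namespace SmSm
open HypVol MWidth

/-- the frequencies of the neighbouring layers -/
theorem famha_sum (d : ℕ) (hd : 1 ≤ d) (r : ℝ) (hr : 0 < r) : ∃ C : ℝ, 0 < C ∧ ∀ μ : ℕ, d + 1 ≤ μ →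
    (shp d μ : ℝ) * ∑ n' ∈ Finset.Icc (μ - d) (μ + 2 * d), (2:ℝ)^(-(2 * r * n')) * (layer d n').card ≤
      (C * (2:ℝ)^(-(r * μ)) * Real.sqrt (2^μ) * ((μ:ℝ)+1)^(d-1))^2 := by
  obtain ⟨C1, hC1, hC⟩ := HypVol.shp_upper d hd
  set P : ℝ := (2 * (d:ℝ) + 1)^(d-1) with hP
  have hP0 : 0 < P := by positivity
  set Q : ℝ := (2:ℝ)^(2 * r * d) with hQ
  have hQ0 : 0 < Q := by positivity
  set A : ℝ := (3 * (d:ℝ) + 1) * (C1 * C1 * Q * (2:ℝ)^(2*d) * P) with hA
  have hA0 : 0 < A := by positivity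
  refine ⟨Real.sqrt A, Real.sqrt_pos.2 hA0, fun μ hμ => ?_⟩
  have hμ1 : (1:ℕ) ≤ μ := by omega
  have hterm : ∀ n' ∈ Finset.Icc (μ - d) (μ + 2 * d), (2:ℝ)^(-(2 * r * n')) * (layer d n').card ≤
      (C1 * Q * (2:ℝ)^(2*d) * P) * (((2:ℝ)^(-(r * μ)))^2 * 2^μ * ((μ:ℝ)+1)^(d-1)) := by
    intro n' hn'
    rw [Finset.mem_Icc] at hn'
    have hn1 : 1 ≤ n' := by omega
    have e1 : (2:ℝ)^(-(2 * r * n')) ≤ Q * ((2:ℝ)^(-(r * μ)))^2 := by
      rw [hQ, ← Real.rpow_natCast ((2:ℝ)^(-(r * μ))) 2, ← Real.rpow_mul (by norm_num), ← Real.rpow_add (by norm_num)]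
      refine Real.rpow_le_rpow_of_exponent_le (by norm_num) ?_
      have h1 : (μ:ℝ) ≤ n' + d := by
        have : μ ≤ n' + d := by omega
        exact_mod_cast this
      push_cast
      nlinarith
    have e2 : ((layer d n').card : ℝ) ≤ C1 * (2:ℝ)^(2*d) * P * (2^μ * ((μ:ℝ)+1)^(d-1)) := by
      rw [card_layer]
      push_cast
      have h1 : (2:ℝ)^n' ≤ 2^μ * 2^(2*d) := by
        rw [← pow_add]
        exact pow_le_pow_right₀ (by norm_num) hn'.2
      have h2 : (shp d n' : ℝ) ≤ C1 * (P * ((μ:ℝ)+1)^(d-1)) := by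
        refine (hC n' hn1).trans (mul_le_mul_of_nonneg_left ?_ hC1.le)
        rw [hP, ← mul_pow]
        refine pow_le_pow_left₀ (by positivity) ?_ _
        have h3 : (n':ℝ) ≤ μ + 2 * d := by exact_mod_cast hn'.2
        have h4 : (0:ℝ) ≤ μ := by positivity
        have h5 : (0:ℝ) ≤ d := by positivity
        nlinarith
      calc (2:ℝ)^n' * (shp d n' : ℝ) ≤ (2^μ * 2^(2*d)) * (C1 * (P * ((μ:ℝ)+1)^(d-1))) :=
            mul_le_mul h1 h2 (by positivity) (by positivity)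
        _ = _ := by ring
    calc (2:ℝ)^(-(2 * r * n')) * (layer d n').card ≤
        (Q * ((2:ℝ)^(-(r * μ)))^2) * (C1 * (2:ℝ)^(2*d) * P * (2^μ * ((μ:ℝ)+1)^(d-1))) :=
          mul_le_mul e1 e2 (by positivity) (by positivity)
      _ = _ := by ring
  have hsum := Finset.sum_le_sum hterm
  rw [Finset.sum_const, nsmul_eq_mul, Nat.card_Icc] at hsum
  have hcard : ((μ + 2 * d + 1 - (μ - d) : ℕ) : ℝ) = 3 * (d:ℝ) + 1 := by
    have : μ + 2 * d + 1 - (μ - d) = 3 * d + 1 := by omega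
    rw [this]
    push_cast
    ring
  rw [hcard] at hsum
  have hshp : (shp d μ : ℝ) ≤ C1 * ((μ:ℝ)+1)^(d-1) := by
    refine (hC μ hμ1).trans (mul_le_mul_of_nonneg_left ?_ hC1.le)
    exact pow_le_pow_left₀ (by positivity) (by linarith) _
  calc _ ≤ (C1 * ((μ:ℝ)+1)^(d-1)) * ((3 * (d:ℝ) + 1) * ((C1 * Q * (2:ℝ)^(2*d) * P) *
        (((2:ℝ)^(-(r * μ)))^2 * 2^μ * ((μ:ℝ)+1)^(d-1)))) :=
        mul_le_mul hshp hsum (Finset.sum_nonneg fun n' _ => by positivity) (by positivity)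
    _ = A * (((2:ℝ)^(-(r * μ)))^2 * 2^μ * (((μ:ℝ)+1)^(d-1))^2) := by
        rw [hA]
        ring
    _ = _ := by
        rw [mul_pow, mul_pow, mul_pow, Real.sq_sqrt hA0.le, Real.sq_sqrt (by positivity)]
        ring

theorem famha (h1 : S_SEP) (h2 : S_KEXP) (h3 : S_HPHI) (h4 : S_HMEM) (h5 : S_WBF) : S_FAMHA := by
  intro d hd r hr
  obtain ⟨a, CK, ha, hCK, hK⟩ := h2 d (by omega)
  obtain ⟨c0, C0, hc0, hC0, hfam⟩ := famhg h1 h3 h4 h5 d (by omega) r hr
  obtain ⟨cs, hcs, hs⟩ := HypVol.shp_lower d (by omega)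
  obtain ⟨CS, hCS, hsum⟩ := famha_sum d (by omega) r hr
  set a' : ℝ := min a (cs / (16 * CK)) with ha'
  have ha'0 : 0 < a' := lt_min ha (by positivity)
  refine ⟨min (a' / 100) (c0 * cs / 2^d), Real.sqrt C0 * CS, max (d + 1) ⌈200 / a'⌉₊,
    lt_min (by positivity) (by positivity), by positivity, fun μ hμ B hB => ?_⟩
  have hμ1 : d + 1 ≤ μ := le_trans (le_max_left _ _) hμ
  have hμ2 : 200 / a' ≤ μ := (Nat.le_ceil _).trans (by exact_mod_cast le_trans (le_max_right _ _) hμ)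
  have hμ3 : 1 ≤ μ := by omega
  have hμR : (1:ℝ) ≤ μ := by exact_mod_cast hμ3
  have hB0 : 0 < B := by linarith
  have hN : ((layer d μ).card : ℝ) = 2^μ * (shp d μ : ℝ) := by
    rw [card_layer]
    push_cast
    rfl
  have hsμ := hs μ hμ3
  have hsp : 0 < (shp d μ : ℝ) := lt_of_lt_of_le (by positivity) hsμ
  have hN0 : 0 < ((layer d μ).card : ℝ) := by
    rw [hN]
    positivity
  set w : ℝ := (2:ℝ)^(-(r * μ)) * (Real.sqrt (2^μ))⁻¹ with hw
  have hsq : 0 < Real.sqrt ((2:ℝ)^μ) := Real.sqrt_pos.2 (by positivity)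
  have hw0 : 0 < w := by positivity
  set t : ℝ := a' * μ / (layer d μ).card with ht
  have ht0 : 0 < t := by positivity
  have htN : t * (layer d μ).card = a' * μ := by
    rw [ht]
    field_simp
  have hθκ : t / w * (w * (layer d μ).card) = a' * μ := by
    rw [← htN]
    field_simp
  have hexp : ∀ u : ℝ, |u| = t → ∀ x : GG d μ,
      ∑ y : GG d μ, Real.exp (u * ker (d := d) μ 0 0 (gpt x - gpt y)) ≤
      (Fintype.card (GG d μ)) * Real.exp (t / w * (w * (layer d μ).card) / (16 * ((2^μ : ℕ) : ℝ))) := by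
    intro u hu x
    have htle : t ≤ a * μ / (layer d μ).card := by
      rw [ht]
      exact div_le_div_of_nonneg_right (mul_le_mul_of_nonneg_right (min_le_left _ _) (by positivity)) hN0.le
    have e := hK μ μ hμ3 le_rfl u (by rw [hu]; exact htle) x
    have hcard : (Fintype.card (GG d μ) : ℝ) = ((2:ℝ)^(μ+2))^d := by simp
    rw [hcard]
    refine e.trans (mul_le_mul_of_nonneg_left (Real.exp_le_exp.2 ?_) (by positivity))
    rw [← sq_abs u, hu, hθκ]
    push_cast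
    rw [le_div_iff₀ (by positivity)]
    have e1 : CK * t^2 * (layer d μ).card = CK * (a' * μ) * t := by
      rw [← htN]
      ring
    have e2 : t * (16 * 2^μ) = 16 * (a' * μ) / (shp d μ : ℝ) := by
      rw [ht, hN]
      field_simp
    have e3 : CK * t^2 * (layer d μ).card * (16 * 2^μ) = (a' * μ) * (CK * (16 * (a' * μ) / (shp d μ : ℝ))) := by
      rw [e1, ← e2]
      ring
    rw [e3]
    have e4 : CK * (16 * (a' * μ) / (shp d μ : ℝ)) ≤ 1 := by
      rw [← mul_div_assoc, div_le_one hsp]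
      have h6 : a' * (16 * CK) ≤ cs := by
        have := min_le_right a (cs / (16 * CK))
        rw [← ha', le_div_iff₀ (by positivity)] at this
        exact this
      have h7 : (μ:ℝ) ≤ (μ:ℝ)^(d-1) := by
        refine le_self_pow₀ hμR (by omega)
      calc CK * (16 * (a' * μ)) = (a' * (16 * CK)) * μ := by ring
        _ ≤ cs * (μ:ℝ)^(d-1) := mul_le_mul h6 h7 (by positivity) hcs.le
        _ ≤ _ := hsμ
    calc (a' * μ) * (CK * (16 * (a' * μ) / (shp d μ : ℝ))) ≤ (a' * μ) * 1 :=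
          mul_le_mul_of_nonneg_left e4 (by positivity)
      _ = _ := mul_one _
  have hwker : ∀ x : Fin d → ℝ, wker {μ} (fun μ => (2:ℝ)^(-(r * μ)) * (Real.sqrt (2^μ))⁻¹) 0 0 x =
      w * ker μ 0 0 x := by
    intro x
    unfold wker
    rw [Finset.sum_singleton]
  have hfin := hfam {μ} (fun μ => (2:ℝ)^(-(r * μ)) * (Real.sqrt (2^μ))⁻¹) μ (2^μ) (μ + 3) (t / w)
    (w * (layer d μ).card) B
    (Real.sqrt C0 * CS / B * (2:ℝ)^(-(r * μ)) * Real.sqrt (2^μ) * ((μ:ℝ)+1)^(d-1)) Nat.one_le_two_pow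
    (fun _ => rfl)
    (fun ν hν => by
      rw [Finset.mem_singleton] at hν
      subst hν
      exact ⟨hμ3, le_rfl, le_rfl, by omega⟩)
    (by rw [Finset.sum_singleton]) (by positivity) (by positivity)
    (by
      rw [hθκ]
      rw [div_le_iff₀ ha'0] at hμ2
      linarith)
    (fun x => by
      simp only [hwker]
      have := hexp t (abs_of_pos ht0) x
      refine le_trans (le_of_eq ?_) this
      refine Finset.sum_congr rfl fun y _ => ?_
      congr 1
      field_simp)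
    (fun x => by
      simp only [hwker]
      have := hexp (-t) (by rw [abs_neg]; exact abs_of_pos ht0) x
      refine le_trans (le_of_eq ?_) this
      refine Finset.sum_congr rfl fun y _ => ?_
      congr 1
      field_simp)
    hB0
    (by
      rw [Finset.sum_singleton, Finset.singleton_biUnion, mul_assoc]
      refine (mul_le_mul_of_nonneg_left (hsum μ hμ1) hC0.le).trans (le_of_eq ?_)
      have e1 : B * (Real.sqrt C0 * CS / B * (2:ℝ)^(-(r * μ)) * Real.sqrt (2^μ) * ((μ:ℝ)+1)^(d-1)) =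
          Real.sqrt C0 * (CS * (2:ℝ)^(-(r * μ)) * Real.sqrt (2^μ) * ((μ:ℝ)+1)^(d-1)) := by
        field_simp
      rw [e1, mul_pow (Real.sqrt C0), Real.sq_sqrt hC0.le])
  obtain ⟨ι, hι, h, Λ, w', b1, b2, b3, b4, b5, b6, b7⟩ := hfin
  refine ⟨ι, hι, h, Λ, w', ?_, b2, b3, b4, b5, b6, fun i i' hne => ?_⟩
  · refine le_trans (Real.exp_le_exp.2 ?_) b1
    rw [hθκ]
    push_cast
    have h6 : min (a' / 100) (c0 * cs / 2^d) * μ * 2^μ ≤ a' / 100 * μ * 2^μ := by
      refine mul_le_mul_of_nonneg_right (mul_le_mul_of_nonneg_right (min_le_left _ _) (by positivity)) (by positivity)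
    linarith
  · obtain ⟨x, hx⟩ := b7 i i' hne
    refine ⟨x, le_trans ?_ hx⟩
    have e1 : c0 * (Real.sqrt ((2^μ : ℕ) : ℝ))⁻¹ * (w * (layer d μ).card / 2) =
        (2:ℝ)^(-(r * μ)) * (c0 * (shp d μ : ℝ) / 2) := by
      push_cast
      rw [hw, hN]
      have e2 : (Real.sqrt ((2:ℝ)^μ))⁻¹ * (Real.sqrt ((2:ℝ)^μ))⁻¹ * 2^μ = 1 := by
        rw [← mul_inv, Real.mul_self_sqrt (by positivity)]
        field_simp
      calc _ = ((Real.sqrt ((2:ℝ)^μ))⁻¹ * (Real.sqrt ((2:ℝ)^μ))⁻¹ * 2^μ) *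
            ((2:ℝ)^(-(r * μ)) * (c0 * (shp d μ : ℝ) / 2)) := by ring
        _ = _ := by rw [e2, one_mul]
    rw [e1]
    have h6 : ((μ:ℝ)+1)^(d-1) ≤ 2^(d-1) * (μ:ℝ)^(d-1) := by
      rw [← mul_pow]
      exact pow_le_pow_left₀ (by positivity) (by linarith) _
    have h7 : (2:ℝ)^d = 2^(d-1) * 2 := by
      rw [← pow_succ]
      congr 1
      omega
    have h8 : min (a' / 100) (c0 * cs / 2^d) * ((μ:ℝ)+1)^(d-1) ≤ c0 * (shp d μ : ℝ) / 2 := by
      calc min (a' / 100) (c0 * cs / 2^d) * ((μ:ℝ)+1)^(d-1) ≤ (c0 * cs / 2^d) * (2^(d-1) * (μ:ℝ)^(d-1)) :=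
            mul_le_mul (min_le_right _ _) h6 (by positivity) (by positivity)
        _ = c0 * (cs * (μ:ℝ)^(d-1)) / 2 := by
            rw [h7]
            field_simp
        _ ≤ _ := by
            have := mul_le_mul_of_nonneg_left hsμ hc0.le
            linarith
    calc min (a' / 100) (c0 * cs / 2^d) * (2:ℝ)^(-(r * μ)) * ((μ:ℝ)+1)^(d-1) =
        (2:ℝ)^(-(r * μ)) * (min (a' / 100) (c0 * cs / 2^d) * ((μ:ℝ)+1)^(d-1)) := by ring
      _ ≤ _ := mul_le_mul_of_nonneg_left h8 (by positivity)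

end SmSm
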