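import Pool.Agent.H636R2.SM.FAMHG
import Pool.Agent.H636R2.SM.FAMB

/-!
FAMHB: lower bound family for the classes `H^(1/2)_∞`.
-/

open MeasureTheory Real ProbabilityTheory
open scoped ENNReal BigOperators

namespace SmSm
open HypVol MWidth

theorem famhb_mono {d : ℕ} {r K K' Δ Δ' B R : ℝ} {N : ℕ}
    (h : FamH d r K Δ B R N) (hK : K' ≤ K) (hΔ : Δ' ≤ Δ) : FamH d r K' Δ' B R N := by
  obtain ⟨ι, hι, g, Λ, w, a1, a2, a3, a4, a5, a6, a7⟩ := h
  refine ⟨ι, hι, g, Λ, w, hK.trans a1, a2, a3, a4, a5, a6, fun i i' hne => ?_⟩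
  obtain ⟨x, hx⟩ := a7 i i' hne
  exact ⟨x, hΔ.trans hx⟩

theorem famhb_w (μ : ℕ) : wB μ = (2:ℝ)^(-((1/2:ℝ) * μ)) * (Real.sqrt (2^μ))⁻¹ := by
  have h1 : (2:ℝ)^((1/2:ℝ) * μ) = Real.sqrt (2^μ) := by
    rw [Real.sqrt_eq_rpow, ← Real.rpow_natCast, ← Real.rpow_mul (by norm_num)]
    congr 1
    ring
  rw [famb_w, Real.rpow_neg (by norm_num), h1, ← mul_inv, Real.mul_self_sqrt (by positivity)]

theorem famhb_NJ (d : ℕ) (hd : 1 ≤ d) : ∃ C3 : ℝ, 0 < C3 ∧ ∀ n : ℕ, 2 ≤ n →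
    ∑ n' ∈ (JB n).biUnion (fun μ => Finset.Icc (μ - d) (μ + 2*d)),
      (2:ℝ)^(-(2 * (1/2:ℝ) * n')) * (layer d n').card ≤
      C3 * (Nat.log 2 n * (n:ℝ)^(d-1)) := by
  obtain ⟨C, hC, h2⟩ := HypVol.card_layer_le d hd
  refine ⟨(3 * d + 2) * (C * (2 * d + 3)^(d-1)), by positivity, fun n hn => ?_⟩
  have hlog : Nat.log 2 n < n := Nat.log_lt_self 2 (by omega)
  have hlog1 : 1 ≤ Nat.log 2 n := Nat.log_pos (by norm_num) hn
  set L := Nat.log 2 n with hL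
  have hsub : (JB n).biUnion (fun μ => Finset.Icc (μ - d) (μ + 2*d)) ⊆
      Finset.Icc (n - d) (n + L + 2 * d) := by
    intro x hx
    rw [Finset.mem_biUnion] at hx
    obtain ⟨μ, hμ, hx⟩ := hx
    unfold JB at hμ
    rw [Finset.mem_Ico] at hμ
    rw [Finset.mem_Icc] at hx ⊢
    omega
  have hterm : ∀ n' ∈ (JB n).biUnion (fun μ => Finset.Icc (μ - d) (μ + 2*d)),
      (2:ℝ)^(-(2 * (1/2:ℝ) * n')) * (layer d n').card ≤ C * (2 * d + 3)^(d-1) * (n:ℝ)^(d-1) := by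
    intro n' hn'
    have h3 := Finset.mem_Icc.1 (hsub hn')
    have h4 : ((n':ℝ) + 1) ≤ (2 * d + 3) * n := by
      have : n' + 1 ≤ (2 * d + 3) * n := by nlinarith
      exact_mod_cast this
    have h5 : (2:ℝ)^(-(2 * (1/2:ℝ) * n')) = ((2:ℝ)^n')⁻¹ := by
      rw [show -(2 * (1/2:ℝ) * n') = -(n' : ℝ) by ring, Real.rpow_neg (by norm_num),
        Real.rpow_natCast]
    rw [h5, inv_mul_le_iff₀ (by positivity)]
    refine (h2 n').trans ?_
    calc C * 2^n' * ((n':ℝ) + 1)^(d-1) ≤ C * 2^n' * ((2 * d + 3) * n)^(d-1) := by gcongr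
      _ = _ := by rw [mul_pow]; ring
  refine (Finset.sum_le_card_nsmul _ _ _ hterm).trans ?_
  rw [nsmul_eq_mul]
  have hcard : (((JB n).biUnion (fun μ => Finset.Icc (μ - d) (μ + 2*d))).card : ℝ) ≤
      (3 * d + 2) * L := by
    have h3 := Finset.card_le_card hsub
    rw [Nat.card_Icc] at h3
    have h4 : ((JB n).biUnion (fun μ => Finset.Icc (μ - d) (μ + 2*d))).card ≤
        (3 * d + 2) * L := by
      have : 3 * d + 1 ≤ (3 * d + 1) * L := Nat.le_mul_of_pos_right _ hlog1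
      have e : (3 * d + 2) * L = (3 * d + 1) * L + L := by ring
      omega
    exact_mod_cast h4
  calc (((JB n).biUnion (fun μ => Finset.Icc (μ - d) (μ + 2*d))).card : ℝ) *
        (C * (2 * d + 3)^(d-1) * (n:ℝ)^(d-1))
      ≤ ((3 * d + 2) * L) * (C * (2 * d + 3)^(d-1) * (n:ℝ)^(d-1)) :=
        mul_le_mul_of_nonneg_right hcard (by positivity)
    _ = _ := by ring

theorem famhb_sqrt (d n : ℕ) (hd : 3 ≤ d) (hn : 1 ≤ n) :
    (n:ℝ)^((d:ℝ)/2) * (2:ℝ)^(-((n:ℝ)/2)) =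
      (Real.sqrt (2^n * (n:ℝ)^(d-2)))⁻¹ * (n:ℝ)^(d-1) := by
  have hn0 : (0:ℝ) < n := by exact_mod_cast hn
  have h1 : Real.sqrt (2^n * (n:ℝ)^(d-2)) = (2:ℝ)^((n:ℝ)/2) * (n:ℝ)^(((d:ℝ)-2)/2) := by
    rw [Real.sqrt_mul (by positivity), Real.sqrt_eq_rpow, Real.sqrt_eq_rpow,
      ← Real.rpow_natCast, ← Real.rpow_natCast, ← Real.rpow_mul (by norm_num),
      ← Real.rpow_mul hn0.le]
    congr 2
    · ring
    · rw [Nat.cast_sub (by omega)]
      push_cast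
      ring
  have h2 : (n:ℝ)^(d-1) = (n:ℝ)^((d:ℝ)/2) * (n:ℝ)^(((d:ℝ)-2)/2) := by
    rw [← Real.rpow_natCast, ← Real.rpow_add hn0]
    congr 1
    rw [Nat.cast_sub (by omega)]
    push_cast
    ring
  rw [h1, h2, Real.rpow_neg (by norm_num)]
  have h3 : (0:ℝ) < (2:ℝ)^((n:ℝ)/2) := by positivity
  have h4 : (0:ℝ) < (n:ℝ)^(((d:ℝ)-2)/2) := by positivity
  field_simp

theorem famhb (h1 : S_SEP) (h2 : S_HEXP) (h3 : S_HPHI) (h4 : S_HMEM) (h5 : S_WBF) :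
    S_FAMHB := by
  intro d hd
  obtain ⟨c1, C2, hc1, hC2, hshp⟩ := famb_shp d (by omega)
  obtain ⟨a, Ch, ha, hCh, hexp⟩ := h2 d (by omega)
  obtain ⟨C3, hC3, hNJ⟩ := famhb_NJ d (by omega)
  obtain ⟨c0, C0, hc0, hC0, hG⟩ := famhg h1 h3 h4 h5 d (by omega) (1/2) (by norm_num)
  set a' : ℝ := min (a * c1 / C2) (c1^2 / (32 * Ch * C2)) with ha'
  have ha'0 : 0 < a' := lt_min (by positivity) (by positivity)
  have ha'1 : a' * C2 ≤ a * c1 := by
    have : a' ≤ a * c1 / C2 := min_le_left _ _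
    rwa [le_div_iff₀ hC2] at this
  have ha'2 : 32 * Ch * C2 * a' ≤ c1^2 := by
    have : a' ≤ c1^2 / (32 * Ch * C2) := min_le_right _ _
    rw [le_div_iff₀ (by positivity)] at this
    linarith
  set CC : ℝ := C0 * C2 * C3 + 1 with hCC
  have hCC0 : 0 < CC := by positivity
  have hCC2 : C0 * C2 * C3 ≤ CC^2 := by
    have : 0 < C0 * C2 * C3 := by positivity
    rw [hCC]
    nlinarith
  refine ⟨min (a' / 100) (c0 * c1 / 2), CC, max 2 (Nat.ceil (200 / a')),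
    lt_min (by positivity) (by positivity), hCC0, fun n hn B hB1 => ?_⟩
  have hB0 : 0 < B := by linarith
  have hn2 : 2 ≤ n := le_trans (le_max_left _ _) hn
  have hn200 : 200 ≤ a' * n := by
    have h4 : (Nat.ceil (200 / a') : ℝ) ≤ n := by exact_mod_cast le_trans (le_max_right _ _) hn
    have h5 := (Nat.le_ceil (200 / a')).trans h4
    rw [div_le_iff₀ ha'0] at h5
    linarith
  have hlog : Nat.log 2 n < n := Nat.log_lt_self 2 (by omega)
  have hlog1 : 1 ≤ Nat.log 2 n := Nat.log_pos (by norm_num) hn2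
  have hNJn := hNJ n hn2
  set L : ℕ := Nat.log 2 n with hL
  set P : ℝ := (n:ℝ)^(d-1) with hP
  have hn0 : (0:ℝ) < n := by exact_mod_cast (by omega : 0 < n)
  have hP0 : 0 < P := by positivity
  have hL0 : (0:ℝ) < L := by exact_mod_cast hlog1
  set κ : ℝ := ∑ μ ∈ JB n, wB μ * (layer d μ).card with hκ
  have hκs : κ = ∑ μ ∈ JB n, (shp d μ : ℝ) := Finset.sum_congr rfl fun μ _ => famb_wN d μ
  have hJc : (JB n).card = L := by
    unfold JB
    simp [hL]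
  have hκl : c1 * L * P ≤ κ := by
    rw [hκs]
    have := Finset.card_nsmul_le_sum (JB n) (fun μ => (shp d μ : ℝ)) (c1 * P)
      (fun μ hμ => (hshp n hn2 μ hμ).1)
    rw [hJc, nsmul_eq_mul] at this
    linarith
  have hκu : ∑ μ ∈ JB n, (shp d μ : ℝ) ≤ C2 * L * P := by
    have := Finset.sum_le_card_nsmul (JB n) (fun μ => (shp d μ : ℝ)) (C2 * P)
      (fun μ hμ => (hshp n hn2 μ hμ).2)
    rw [hJc, nsmul_eq_mul] at this
    linarith
  have hκ0 : 0 < κ := lt_of_lt_of_le (by positivity) hκl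
  set θ : ℝ := a' * n / κ with hθ
  have hθ0 : 0 < θ := by positivity
  have hθκ : θ * κ = a' * n := by
    rw [hθ]
    field_simp
  set m : ℕ := 2 * n with hm
  have hMreal : ((MB d n : ℕ) : ℝ) = 2^n * (n:ℝ)^(d-2) := by
    unfold MB
    push_cast
    rfl
  have hMpos : 1 ≤ MB d n := by
    unfold MB
    exact Nat.one_le_iff_ne_zero.2 (by positivity)
  have hPn : (n:ℝ)^(d-2) * n = P := by
    rw [hP, ← pow_succ]
    congr 1
    omega
  -- exponential moments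
  have hcond : ∀ μ ∈ JB n, θ * (JB n).card * |wB μ| ≤ a * μ / (layer d μ).card := by
    intro μ hμ
    have hs := hshp n hn2 μ hμ
    have hs0 : (0:ℝ) < shp d μ := lt_of_lt_of_le (by positivity) hs.1
    have hN : ((layer d μ).card : ℝ) = 2^μ * shp d μ := by
      rw [HypVol.card_layer]
      push_cast
      rfl
    have hμn : (n:ℝ) ≤ μ := by
      unfold JB at hμ
      rw [Finset.mem_Ico] at hμ
      exact_mod_cast hμ.1
    rw [hJc, abs_of_pos (famb_w_pos μ), le_div_iff₀ (by rw [hN]; positivity), mul_assoc,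
      famb_wN, hθ, div_mul_eq_mul_div, div_mul_eq_mul_div, div_le_iff₀ hκ0]
    calc a' * n * L * shp d μ ≤ a' * n * L * (C2 * P) := by gcongr; exact hs.2
      _ = (a' * C2) * (n * L * P) := by ring
      _ ≤ (a * c1) * (n * L * P) := by gcongr
      _ = a * n * (c1 * L * P) := by ring
      _ ≤ a * μ * κ := by gcongr
  have hsum : ∑ μ ∈ JB n, (wB μ)^2 * ((layer d μ).card : ℝ) ≤ C2 * P * (2 * ((2:ℝ)^n)⁻¹) := by
    calc ∑ μ ∈ JB n, (wB μ)^2 * ((layer d μ).card : ℝ)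
        = ∑ μ ∈ JB n, ((2:ℝ)^μ)⁻¹ * shp d μ := by
          refine Finset.sum_congr rfl fun μ _ => ?_
          rw [sq, mul_assoc, famb_wN, famb_w]
      _ ≤ ∑ μ ∈ JB n, ((2:ℝ)^μ)⁻¹ * (C2 * P) := by
          refine Finset.sum_le_sum fun μ hμ => ?_
          have := (hshp n hn2 μ hμ).2
          gcongr
      _ = (∑ μ ∈ JB n, ((2:ℝ)^μ)⁻¹) * (C2 * P) := by rw [Finset.sum_mul]
      _ ≤ (2 * ((2:ℝ)^n)⁻¹) * (C2 * P) := by
          have h4 : ∑ μ ∈ JB n, ((2:ℝ)^μ)⁻¹ ≤ 2 * ((2:ℝ)^n)⁻¹ := by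
            unfold JB
            rw [famb_geo]
            have : (0:ℝ) < ((2:ℝ)^(n + Nat.log 2 n))⁻¹ := by positivity
            linarith
          gcongr
      _ = _ := by ring
  have hexpo : ∀ σ : ℝ, σ^2 = θ^2 →
      Ch * ((JB n).card:ℝ)^2 * ∑ μ ∈ JB n, (σ * wB μ)^2 * (layer d μ).card ≤
        θ * κ / (16 * MB d n) := by
    intro σ hσ
    have h4 : ∑ μ ∈ JB n, (σ * wB μ)^2 * ((layer d μ).card : ℝ) =
        θ^2 * ∑ μ ∈ JB n, (wB μ)^2 * ((layer d μ).card : ℝ) := by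
      rw [Finset.mul_sum]
      refine Finset.sum_congr rfl fun μ _ => ?_
      rw [mul_pow, hσ]
      ring
    rw [h4, hJc, hMreal, le_div_iff₀ (by positivity)]
    have h5 : θ * (32 * Ch * C2 * L^2 * P * (n:ℝ)^(d-2)) ≤ κ := by
      rw [hθ, div_mul_eq_mul_div, div_le_iff₀ hκ0]
      calc a' * n * (32 * Ch * C2 * L^2 * P * (n:ℝ)^(d-2))
          = (32 * Ch * C2 * a') * (L^2 * P * ((n:ℝ)^(d-2) * n)) := by ring
        _ = (32 * Ch * C2 * a') * (L * P)^2 := by rw [hPn]; ring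
        _ ≤ c1^2 * (L * P)^2 := by gcongr
        _ = (c1 * L * P) * (c1 * L * P) := by ring
        _ ≤ κ * κ := by gcongr
    calc Ch * (L:ℝ)^2 * (θ^2 * ∑ μ ∈ JB n, (wB μ)^2 * ((layer d μ).card : ℝ)) *
          (16 * (2^n * (n:ℝ)^(d-2)))
        ≤ Ch * (L:ℝ)^2 * (θ^2 * (C2 * P * (2 * ((2:ℝ)^n)⁻¹))) *
          (16 * (2^n * (n:ℝ)^(d-2))) := by gcongr
      _ = θ * (θ * (32 * Ch * C2 * L^2 * P * (n:ℝ)^(d-2))) := by
          field_simp
          ring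
      _ ≤ θ * κ := by gcongr
  have hJm : ∀ μ ∈ JB n, 1 ≤ μ ∧ μ ≤ m := by
    intro μ hμ
    unfold JB at hμ
    rw [Finset.mem_Ico] at hμ
    omega
  have hJne : (JB n).Nonempty := by
    rw [← Finset.card_pos, hJc]
    omega
  have hE : ∀ σ : ℝ, |σ| = θ → ∀ x : GG d m,
      ∑ y : GG d m, Real.exp (σ * wker (JB n) wB 0 0 (gpt x - gpt y)) ≤
      (Fintype.card (GG d m)) * Real.exp (θ * κ / (16 * MB d n)) := by
    intro σ hσ x
    refine (hexp (JB n) wB m hJne hJm σ (by rw [hσ]; exact hcond) x).trans ?_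
    rw [famb_card]
    have h4 := hexpo σ (by rw [← sq_abs, hσ])
    gcongr
  have hJ' : ∀ μ ∈ JB n, 1 ≤ μ ∧ μ ≤ m ∧ 2^μ ≤ MB d n ∧ μ + 2 ≤ 2 * n + 3 := by
    intro μ hμ
    have h6 := hJm μ hμ
    unfold JB at hμ
    rw [Finset.mem_Ico] at hμ
    refine ⟨h6.1, h6.2, ?_, by omega⟩
    unfold MB
    calc 2^μ ≤ 2^(n + L) := Nat.pow_le_pow_right (by norm_num) (by omega)
      _ = 2^n * 2^L := pow_add _ _ _
      _ ≤ 2^n * n := Nat.mul_le_mul_left _ (Nat.pow_log_le_self 2 (by omega))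
      _ ≤ 2^n * n^(d-2) := Nat.mul_le_mul_left _ (Nat.le_self_pow (by omega) n)
  have hR : C0 * (∑ μ ∈ JB n, (shp d μ : ℝ)) *
      ∑ n' ∈ (JB n).biUnion (fun μ => Finset.Icc (μ - d) (μ + 2*d)),
      (2:ℝ)^(-(2 * (1/2:ℝ) * n')) * (layer d n').card ≤ (B * (CC / B * L * P))^2 := by
    have e1 : B * (CC / B * L * P) = CC * (L * P) := by
      field_simp
    rw [e1]
    have e2 : C0 * (∑ μ ∈ JB n, (shp d μ : ℝ)) ≤ C0 * (C2 * L * P) :=
      mul_le_mul_of_nonneg_left hκu hC0.le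
    calc C0 * (∑ μ ∈ JB n, (shp d μ : ℝ)) *
          ∑ n' ∈ (JB n).biUnion (fun μ => Finset.Icc (μ - d) (μ + 2*d)),
          (2:ℝ)^(-(2 * (1/2:ℝ) * n')) * (layer d n').card
        ≤ C0 * (C2 * L * P) * (C3 * (L * P)) :=
          mul_le_mul e2 hNJn (Finset.sum_nonneg fun _ _ => by positivity) (by positivity)
      _ = (C0 * C2 * C3) * (L * P)^2 := by ring
      _ ≤ CC^2 * (L * P)^2 := mul_le_mul_of_nonneg_right hCC2 (by positivity)
      _ = _ := by ring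
  have hF := hG (JB n) wB m (MB d n) (2 * n + 3) θ κ B (CC / B * L * P) hMpos famhb_w hJ' hκ hκ0
    hθ0 (by rw [hθκ]; exact hn200) (hE θ (abs_of_pos hθ0)) (hE (-θ) (by rw [abs_neg, abs_of_pos hθ0]))
    hB0 hR
  refine famhb_mono hF ?_ ?_
  · rw [Real.exp_le_exp, hθκ, hMreal]
    calc min (a' / 100) (c0 * c1 / 2) * 2^n * P ≤ (a' / 100) * 2^n * P := by
          gcongr
          exact min_le_left _ _
      _ = a' * n * (2^n * (n:ℝ)^(d-2)) / 100 := by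
          rw [← hPn]
          ring
  · rw [mul_assoc (min (a' / 100) (c0 * c1 / 2) * (L:ℝ)), famhb_sqrt d n hd (by omega), hMreal]
    set Q : ℝ := (Real.sqrt (2^n * (n:ℝ)^(d-2)))⁻¹ with hQ
    have hQ0 : 0 ≤ Q := by positivity
    calc min (a' / 100) (c0 * c1 / 2) * L * (Q * P) ≤ (c0 * c1 / 2) * L * (Q * P) := by
          gcongr
          exact min_le_right _ _
      _ = c0 * Q * ((c1 * L * P) / 2) := by ring
      _ ≤ c0 * Q * (κ / 2) := by gcongr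

end SmSm
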