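import Pool.Agent.H636R2.SM.SpecH
import Pool.Agent.H636R2.HE.P_memLp_mdiff
import Pool.Agent.HypVol.L_TP_prob
open MeasureTheory Real ProbabilityTheory
open scoped ENNReal BigOperators

namespace SmSm
open HypVol MWidth

theorem finalh_ac (d : ℕ) : TP d ≪ (volume : Measure (Fin d → ℝ)) := by
  have h1 : TP d = (ENNReal.ofReal (2 * π)⁻¹) ^ d •
      (volume : Measure (Fin d → ℝ)).restrict (Set.pi Set.univ fun _ => Set.Ico 0 (2 * π)) := by
    unfold TP
    rw [volume_pi, Measure.restrict_pi_pi]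
    have : IsFiniteMeasure (volume.restrict (Set.Ico (0:ℝ) (2 * π))) := ⟨by
      rw [Measure.restrict_apply_univ, Real.volume_Ico]
      exact ENNReal.ofReal_lt_top⟩
    have h2 : IsFiniteMeasure (ENNReal.ofReal (2 * π)⁻¹ • volume.restrict (Set.Ico (0:ℝ) (2 * π))) :=
      Measure.smul_finite _ ENNReal.ofReal_ne_top
    refine Measure.pi_eq fun s hs => ?_
    rw [Measure.smul_apply, Measure.pi_pi, smul_eq_mul]
    simp only [Measure.smul_apply, smul_eq_mul]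
    rw [Finset.prod_mul_distrib, Finset.prod_const, Finset.card_univ, Fintype.card_fin]
  rw [h1]
  exact (Measure.smul_absolutelyContinuous).trans
    (Measure.absolutelyContinuous_of_le Measure.restrict_le_self)

theorem finalh_mono (d : ℕ) (r : ℝ) (q : ℝ≥0∞) :
    HypVolE.HH d r ⊤ ⊆ HypVolE.HH d r q := by
  have := TP_prob d
  rintro f ⟨h1, hm, hn, ht⟩
  have hmT : AEStronglyMeasurable f (TP d) := hm.mono_ac (finalh_ac d)
  have hf : MemLp f ⊤ (TP d) := ⟨hmT, lt_of_le_of_lt hn ENNReal.one_lt_top⟩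
  refine ⟨h1, hm, (eLpNorm_le_eLpNorm_of_exponent_le le_top hmT).trans hn, fun e he t => ?_⟩
  exact (eLpNorm_le_eLpNorm_of_exponent_le le_top
    (HypVolE.memLp_mdiff d f h1 hm ⊤ hf _ e t).1).trans (ht e he t)

theorem finalh_ent_mono {d : ℕ} (k : ℕ) (Θ Θ' : Set ((Fin d → ℝ) → ℂ)) (h : Θ ⊆ Θ') :
    entNum ⊤ k Θ ≤ entNum ⊤ k Θ' := by
  unfold entNum
  refine le_iInf fun ε => le_iInf fun hε => ?_
  obtain ⟨h0, y, hy, hc⟩ := hε
  exact iInf₂_le ε ⟨h0, y, hy, fun f hf => hc f (h hf)⟩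

theorem finalh_ent_le {d : ℕ} (k : ℕ) (Θ : Set ((Fin d → ℝ) → ℂ)) (ε : ℝ) (hε : 0 < ε)
    (h : Cov ⊤ k (ENNReal.ofReal ε) Θ) : entNum ⊤ k Θ ≤ ENNReal.ofReal ε := by
  unfold entNum
  exact iInf₂_le (ENNReal.ofReal ε) ⟨ENNReal.ofReal_pos.2 hε, h⟩

/-- upper bounds, any `q > 2`: the class is contained in a class with finite `q` -/
theorem finalh_up (hb : S_BDDH) (hcu : S_CU) (d : ℕ) (hd : 1 ≤ d) (q r : ℝ) (hq : 2 < q)
    (hr : 1 / q < r) (ψ : ℕ → ℝ) (hψ : Adm ψ)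
    (hw : ∃ C : ℝ, 0 < C ∧ ∀ m : ℕ, 2 ≤ m →
      kolW2 m (HypVolE.HH d r (ENNReal.ofReal q)) ≤ ENNReal.ofReal (C * ψ m)) :
    ∃ C : ℝ, 0 < C ∧ ∀ k : ℕ, 2 ≤ k →
      entNum ⊤ k (HypVolE.HH d r (ENNReal.ofReal q)) ≤ ENNReal.ofReal (C * ψ k) := by
  obtain ⟨B, hB, hBB⟩ := hb d hd q r hq hr
  obtain ⟨C, hC, hCC⟩ := hcu ℂ d (HypVolE.HH d r (ENNReal.ofReal q)) B ψ hψ hBB hw
  exact ⟨C, hC, fun k hk => finalh_ent_le k _ _ (mul_pos hC (hψ.1 k hk)) (hCC k hk)⟩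

theorem finalh (hA : S_LOWHA0) (hB : S_LOWHB0) (hnA : S_NUMLHA) (hnB : S_NUMLHB)
    (huA : S_UPHA) (huB : S_UPHB) (hb : S_BDDH) (hcu : S_CU) (hadm : S_ADMH) : S_FINALH := by
  intro d hd q hq
  have hd1 : 1 ≤ d := by omega
  refine ⟨?_, ?_⟩
  · intro r hqr hr0 hr1
    -- lower bound
    obtain ⟨c, μ0, hc, hlow⟩ := hA d hd r hr0
    obtain ⟨c', hc', hnum⟩ := hnA d hd r hr0 c μ0 hc
    -- upper bound
    have hup : ∃ C : ℝ, 0 < C ∧ ∀ k : ℕ, 2 ≤ k →
        entNum ⊤ k (HypVolE.HH d r q) ≤ ENNReal.ofReal (C * psiHA d r k) := by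
      by_cases hqt : q = ⊤
      · have hm : (2:ℝ) < max 3 (2 / r) := lt_of_lt_of_le (by norm_num) (le_max_left _ _)
        have hm0 : (0:ℝ) < max 3 (2 / r) := by linarith
        have hr' : 1 / (max 3 (2 / r)) < r := by
          rw [div_lt_iff₀ hm0]
          have h2 : 2 / r ≤ max 3 (2 / r) := le_max_right _ _
          have h3 : r * (2 / r) = 2 := by field_simp
          have h4 : r * (2 / r) ≤ r * max 3 (2 / r) := mul_le_mul_of_nonneg_left h2 hr0.le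
          linarith
        obtain ⟨C, hC, hCC⟩ := finalh_up hb hcu d hd1 _ r hm hr' (psiHA d r)
          (hadm.1 d r hd1 hr0 (by linarith)) (huA d hd _ r hm hr' hr1)
        refine ⟨C, hC, fun k hk => ?_⟩
        rw [hqt]
        exact (finalh_ent_mono k _ _ (finalh_mono d r _)).trans (hCC k hk)
      · have hq2 : ENNReal.ofReal q.toReal = q := ENNReal.ofReal_toReal hqt
        have hqr2 : 2 < q.toReal := by
          have := (ENNReal.toReal_lt_toReal (by simp) hqt).2 hq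
          simpa using this
        have hr' : 1 / q.toReal < r := by
          have h1 : (1 / q) ≠ ⊤ := by
            rw [one_div]
            exact ENNReal.inv_ne_top.2 (by
              intro h0; rw [h0] at hq; exact absurd hq (by simp))
          have h2 := (ENNReal.toReal_lt_toReal h1 ENNReal.ofReal_ne_top).2 hqr
          rw [ENNReal.toReal_ofReal hr0.le, ENNReal.toReal_div] at h2
          simpa using h2
        obtain ⟨C, hC, hCC⟩ := finalh_up hb hcu d hd1 _ r hqr2 hr' (psiHA d r)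
          (hadm.1 d r hd1 hr0 (by linarith)) (huA d hd _ r hqr2 hr' hr1)
        rw [hq2] at hCC
        exact ⟨C, hC, hCC⟩
    obtain ⟨C, hC, hCC⟩ := hup
    refine ⟨c', C, hc', hC, fun k hk => ⟨?_, hCC k hk⟩⟩
    obtain ⟨μ, hμ, hk1, hk2⟩ := hnum k hk
    calc ENNReal.ofReal (c' * psiHA d r k) ≤
          ENNReal.ofReal (c * (2:ℝ)^(-(r * μ)) * ((μ:ℝ)+1)^(d-1)) := ENNReal.ofReal_le_ofReal hk2
      _ ≤ entNum ⊤ k (HypVolE.HH d r ⊤) := hlow μ hμ k hk1
      _ ≤ _ := finalh_ent_mono k _ _ (finalh_mono d r q)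
  · obtain ⟨c, n0, hc, hlow⟩ := hB d hd
    obtain ⟨c', hc', hnum⟩ := hnB d hd c n0 hc
    have hup : ∃ C : ℝ, 0 < C ∧ ∀ k : ℕ, 2 ≤ k →
        entNum ⊤ k (HypVolE.HH d (1/2) q) ≤ ENNReal.ofReal (C * psiHB d k) := by
      by_cases hqt : q = ⊤
      · obtain ⟨C, hC, hCC⟩ := finalh_up hb hcu d hd1 3 (1/2) (by norm_num) (by norm_num)
          (psiHB d) (hadm.2 d hd1) (huB d hd 3 (by norm_num))
        refine ⟨C, hC, fun k hk => ?_⟩
        rw [hqt]
        exact (finalh_ent_mono k _ _ (finalh_mono d _ _)).trans (hCC k hk)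
      · have hq2 : ENNReal.ofReal q.toReal = q := ENNReal.ofReal_toReal hqt
        have hqr2 : 2 < q.toReal := by
          have := (ENNReal.toReal_lt_toReal (by simp) hqt).2 hq
          simpa using this
        have hr' : 1 / q.toReal < 1 / 2 := by
          apply one_div_lt_one_div_of_lt (by norm_num) hqr2
        obtain ⟨C, hC, hCC⟩ := finalh_up hb hcu d hd1 _ (1/2) hqr2 hr' (psiHB d)
          (hadm.2 d hd1) (huB d hd _ hqr2)
        rw [hq2] at hCC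
        exact ⟨C, hC, hCC⟩
    obtain ⟨C, hC, hCC⟩ := hup
    refine ⟨c', C, hc', hC, fun k hk => ⟨?_, hCC k hk⟩⟩
    obtain ⟨n, hn, hk1, hk2⟩ := hnum k hk
    calc ENNReal.ofReal (c' * psiHB d k) ≤
          ENNReal.ofReal (c * Nat.log 2 n * (n:ℝ)^((d:ℝ)/2) * (2:ℝ)^(-((n:ℝ)/2))) :=
            ENNReal.ofReal_le_ofReal hk2
      _ ≤ entNum ⊤ k (HypVolE.HH d (1/2) ⊤) := hlow n hn k hk1
      _ ≤ _ := finalh_ent_mono k _ _ (finalh_mono d _ q)

end SmSm
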