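import Pool.Agent.H636R2.SM.SpecP
import Pool.Agent.HypVol.L_TP_prob
open MeasureTheory Real ProbabilityTheory
open scoped ENNReal BigOperators

/-!
FINALW: exact order of the entropy numbers of the classes `W^r_q`, small smoothness.
-/

namespace SmSm
open HypVol MWidth

theorem finalw_ML_sub (𝕜 : Type) [RCLike 𝕜] {d : ℕ} (r : ℝ) (α : Fin d → ℝ) {p q : ℝ≥0∞}
    (h : p ≤ q) : ML 𝕜 d r q α ⊆ ML 𝕜 d r p α := by
  have := TP_prob d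
  rintro f ⟨φ, hφ, hφ1, rfl⟩
  exact ⟨φ, hφ.mono_exponent h, (eLpNorm_le_eLpNorm_of_exponent_le h hφ.1).trans hφ1, rfl⟩

theorem finalw_ent_mono {𝕜 : Type} [RCLike 𝕜] {d : ℕ} (k : ℕ) (Θ Θ' : Set ((Fin d → ℝ) → 𝕜))
    (h : Θ ⊆ Θ') : entNum ⊤ k Θ ≤ entNum ⊤ k Θ' := by
  unfold entNum
  refine le_iInf fun ε => le_iInf fun hε => ?_
  obtain ⟨h0, y, hy, hc⟩ := hε
  exact iInf₂_le ε ⟨h0, y, hy, fun f hf => hc f (h hf)⟩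

theorem finalw_ent_le {𝕜 : Type} [RCLike 𝕜] {d : ℕ} (k : ℕ) (Θ : Set ((Fin d → ℝ) → 𝕜)) (ε : ℝ)
    (hε : 0 < ε) (h : Cov ⊤ k (ENNReal.ofReal ε) Θ) : entNum ⊤ k Θ ≤ ENNReal.ofReal ε := by
  unfold entNum
  exact iInf₂_le (ENNReal.ofReal ε) ⟨ENNReal.ofReal_pos.2 hε, h⟩

theorem finalw_q {q : ℝ≥0∞} {r : ℝ} (hq : 2 < q) (hr : 0 < r) (h : 1 / q < ENNReal.ofReal r) :
    ∃ q' : ℝ, 2 < q' ∧ 1 / q' < r ∧ ENNReal.ofReal q' ≤ q := by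
  by_cases hT : q = ⊤
  · refine ⟨2 / r + 3, ?_, ?_, by rw [hT]; exact le_top⟩
    · have : 0 < 2 / r := by positivity
      linarith
    · have h1 : 0 < 2 / r := by positivity
      rw [div_lt_iff₀ (by positivity)]
      have h2 : r * (2 / r) = 2 := by field_simp
      nlinarith
  · have hq0 : q ≠ 0 := (lt_trans (by norm_num) hq).ne'
    refine ⟨q.toReal, ?_, ?_, ?_⟩
    · have := (ENNReal.toReal_lt_toReal (by norm_num) hT).2 hq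
      simpa using this
    · have h1 : (1 / q : ℝ≥0∞) ≠ ⊤ := by
        rw [one_div]
        exact ENNReal.inv_ne_top.2 hq0
      have := (ENNReal.toReal_lt_toReal h1 ENNReal.ofReal_ne_top).2 h
      rw [ENNReal.toReal_ofReal hr.le, one_div, ENNReal.toReal_inv] at this
      rw [one_div]
      exact this
    · rw [ENNReal.ofReal_toReal hT]

theorem finalw_half {q : ℝ≥0∞} (hq : 2 < q) : 1 / q < ENNReal.ofReal (1 / 2) := by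
  rw [one_div, one_div, ENNReal.ofReal_inv_of_pos (by norm_num), ENNReal.inv_lt_inv]
  simpa using hq

/-- upper bound -/
theorem finalw_up (𝕜 : Type) [RCLike 𝕜] {d : ℕ} (q : ℝ≥0∞) (q' r : ℝ) (α : Fin d → ℝ)
    (hq'q : ENNReal.ofReal q' ≤ q) (ψ : ℕ → ℝ) (hψ : Adm ψ) (hCU : S_CU)
    (hw : ∃ C : ℝ, 0 < C ∧ ∀ m : ℕ, 2 ≤ m →
      kolW2 m (ML 𝕜 d r (ENNReal.ofReal q') α) ≤ ENNReal.ofReal (C * ψ m))
    (hb : ∃ B : ℝ, 0 < B ∧ ∀ f ∈ ML 𝕜 d r (ENNReal.ofReal q') α, MemLp f ⊤ (TP d) ∧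
      eLpNorm f ⊤ (TP d) ≤ ENNReal.ofReal B) :
    ∃ C : ℝ, 0 < C ∧ ∀ k : ℕ, 2 ≤ k →
      entNum ⊤ k (ML 𝕜 d r q α) ≤ ENNReal.ofReal (C * ψ k) := by
  obtain ⟨B, hB, hBB⟩ := hb
  obtain ⟨C, hC, hCC⟩ := hCU 𝕜 d (ML 𝕜 d r (ENNReal.ofReal q') α) B ψ hψ hBB hw
  refine ⟨C, hC, fun k hk => ?_⟩
  exact (finalw_ent_mono k _ _ (finalw_ML_sub 𝕜 r α hq'q)).trans
    (finalw_ent_le k _ _ (mul_pos hC (hψ.1 k hk)) (hCC k hk))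

theorem finalw (hLA : S_LOWA0) (hLB : S_LOWB0) (hNA : S_NUMLA) (hNB : S_NUMLB) (hUA : S_UPA)
    (hUB : S_UPB) (hB : S_BDD) (hCU : S_CU) (hA : S_ADM) : S_FINALW := by
  intro 𝕜 _ d hd α q hq
  constructor
  · intro r hqr hr hr2
    obtain ⟨q', hq'2, hq'r, hq'q⟩ := finalw_q hq hr hqr
    obtain ⟨C, hC, hCC⟩ := finalw_up 𝕜 q q' r α hq'q (psiA d r)
      (hA.1 d r (by omega) hr (by linarith)) hCU
      (hUA 𝕜 d (by omega) q' r hq'2 hq'r hr2 α) (hB 𝕜 d (by omega) q' r hq'2 hq'r α)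
    obtain ⟨c₁, μ0, hc₁, hlow⟩ := hLA 𝕜 d hd r hr hr2 α
    obtain ⟨c₂, hc₂, hnum⟩ := hNA d hd r hr hr2.le c₁ μ0 hc₁
    refine ⟨c₂, C, hc₂, hC, fun k hk => ⟨?_, hCC k hk⟩⟩
    obtain ⟨μ, hμ, h1, h2⟩ := hnum k hk
    exact ((ENNReal.ofReal_le_ofReal h2).trans (hlow μ hμ k h1)).trans
      (finalw_ent_mono k _ _ (finalw_ML_sub 𝕜 r α le_top))
  · obtain ⟨q', hq'2, hq'r, hq'q⟩ := finalw_q hq (by norm_num : (0:ℝ) < 1 / 2) (finalw_half hq)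
    obtain ⟨C, hC, hCC⟩ := finalw_up 𝕜 q q' (1 / 2) α hq'q (psiB d)
      (hA.2 d (by omega)) hCU
      (hUB 𝕜 d (by omega) q' hq'2 α) (hB 𝕜 d (by omega) q' (1 / 2) hq'2 hq'r α)
    obtain ⟨c₁, n0, hc₁, hlow⟩ := hLB 𝕜 d hd α
    obtain ⟨c₂, hc₂, hnum⟩ := hNB d hd c₁ n0 hc₁
    refine ⟨c₂, C, hc₂, hC, fun k hk => ⟨?_, hCC k hk⟩⟩
    obtain ⟨n, hn, h1, h2⟩ := hnum k hk
    exact ((ENNReal.ofReal_le_ofReal h2).trans (hlow n hn k h1)).trans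
      (finalw_ent_mono k _ _ (finalw_ML_sub 𝕜 (1 / 2) α le_top))

end SmSm
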