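import Pool.Agent.H636R2.SM.SpecP
import Pool.Agent.HypVol.L_TP_prob
open MeasureTheory Real ProbabilityTheory
open scoped ENNReal BigOperators

/-!
FINP: upper bound of the entropy numbers of `H^r_p`, `1 ≤ p ≤ 2`, `r > 1/p`.
-/

namespace SmSm
open HypVol MWidth

theorem finp_gp_cont {d : ℕ} (Λ : Finset (Fin d → ℤ)) (a : Λ × Fin 2 → ℝ) : Continuous (gp Λ a) := by
  unfold gp
  refine continuous_finsetSum _ fun k _ => ?_
  refine Continuous.mul continuous_const ?_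
  refine Complex.continuous_exp.comp ?_
  refine Continuous.mul continuous_const ?_
  refine Complex.continuous_ofReal.comp ?_
  exact continuous_finsetSum _ fun j _ => continuous_const.mul (continuous_apply j)

theorem finp_gp_bdd {d : ℕ} (Λ : Finset (Fin d → ℤ)) (a : Λ × Fin 2 → ℝ) (x : Fin d → ℝ) :
    ‖gp Λ a x‖ ≤ ∑ k : Λ, ‖((a (k, 0) : ℂ) + (a (k, 1) : ℂ) * Complex.I)‖ := by
  unfold gp
  refine (norm_sum_le _ _).trans (Finset.sum_le_sum fun k _ => ?_)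
  rw [norm_mul, Complex.norm_exp]
  simp

theorem finp_gp_mem {d : ℕ} (Λ : Finset (Fin d → ℤ)) (a : Λ × Fin 2 → ℝ) : MemLp (gp Λ a) ⊤ (TP d) := by
  have := TP_prob d
  exact memLp_top_of_bound (finp_gp_cont Λ a).aestronglyMeasurable _
    (Filter.Eventually.of_forall (finp_gp_bdd Λ a))

/-- centres from a finite set of functions -/
theorem finp_cov {d : ℕ} {ι : Type} (G : Finset ι) (y : ι → (Fin d → ℝ) → ℂ) (k : ℕ) (ε : ℝ≥0∞)
    (Θ : Set ((Fin d → ℝ) → ℂ)) (hy : ∀ i, MemLp (y i) ⊤ (TP d)) (hG : G.card ≤ 2 ^ k)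
    (h : ∀ f ∈ Θ, ∃ i ∈ G, eLpNorm (fun x => f x - y i x) ⊤ (TP d) ≤ ε) : Cov ⊤ k ε Θ := by
  classical
  by_cases hΘ : Θ.Nonempty
  · obtain ⟨f0, hf0⟩ := hΘ
    obtain ⟨i0, hi0, -⟩ := h f0 hf0
    refine ⟨fun i => y (G.toList.getD i i0), fun j => hy _, ?_⟩
    intro f hf
    obtain ⟨v, hv, h1⟩ := h f hf
    rw [← Finset.mem_toList] at hv
    obtain ⟨i, hi, hiv⟩ := List.getElem_of_mem hv
    have hi2 : i < 2 ^ k := by
      rw [Finset.length_toList] at hi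
      omega
    refine ⟨⟨i, hi2⟩, ?_⟩
    have e1 : (G.toList.getD i i0) = v := by
      rw [List.getD_eq_getElem _ _ hi, hiv]
    simp only [e1]
    exact h1
  · rw [Set.not_nonempty_iff_eq_empty] at hΘ
    refine ⟨fun _ _ => 0, fun _ => MemLp.zero', ?_⟩
    intro f hf
    rw [hΘ] at hf
    exact absurd hf (Set.notMem_empty f)

/-- error of one function -/
theorem finp_err {n1 : ℕ} (c e b : ℕ → ℝ) (v : ℕ → ℂ) (g : Fin n1 → ℂ) (z : ℂ) (hc : ∀ n, 0 ≤ c n)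
    (hs : HasSum (fun n => (c n : ℂ) * v n) z) (hg : ∀ n : Fin n1, ‖v n - g n‖ ≤ e n)
    (hb : ∀ n, ‖v n‖ ≤ b n) (hbs : Summable (fun n => c n * b n)) :
    ‖z - ∑ n : Fin n1, (c n : ℂ) * g n‖ ≤ ∑ n ∈ Finset.range n1, c n * e n + ∑' n, c (n + n1) * b (n + n1) := by
  have h1 : Summable (fun n => ‖(c n : ℂ) * v n‖) := by
    refine Summable.of_nonneg_of_le (fun n => norm_nonneg _) (fun n => ?_) hbs
    rw [norm_mul, Complex.norm_real, Real.norm_of_nonneg (hc n)]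
    exact mul_le_mul_of_nonneg_left (hb n) (hc n)
  have h2 : z = ∑ n ∈ Finset.range n1, (c n : ℂ) * v n + ∑' n, (c (n + n1) : ℂ) * v (n + n1) := by
    rw [← hs.tsum_eq]
    exact (hs.summable.sum_add_tsum_nat_add n1).symm
  have h3 : z - ∑ n : Fin n1, (c n : ℂ) * g n =
      ∑ n : Fin n1, (c n : ℂ) * (v n - g n) + ∑' n, (c (n + n1) : ℂ) * v (n + n1) := by
    rw [h2, Finset.sum_range fun n => (c n : ℂ) * v n]
    simp only [mul_sub, Finset.sum_sub_distrib]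
    ring
  rw [h3]
  refine (norm_add_le _ _).trans (add_le_add ?_ ?_)
  · refine (norm_sum_le _ _).trans ?_
    rw [Finset.sum_range fun n => c n * e n]
    refine Finset.sum_le_sum fun n _ => ?_
    rw [norm_mul, Complex.norm_real, Real.norm_of_nonneg (hc _)]
    exact mul_le_mul_of_nonneg_left (hg n) (hc _)
  · have h4 : Summable (fun n => ‖(c (n + n1) : ℂ) * v (n + n1)‖) :=
      (summable_nat_add_iff (f := fun n => ‖(c n : ℂ) * v n‖) n1).2 h1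
    refine (norm_tsum_le_tsum_norm h4).trans ?_
    refine h4.tsum_le_tsum (fun n => ?_) ((summable_nat_add_iff (f := fun n => c n * b n) n1).2 hbs)
    rw [norm_mul, Complex.norm_real, Real.norm_of_nonneg (hc _)]
    exact mul_le_mul_of_nonneg_left (hb _) (hc _)

/-- nets of all levels -/
theorem finp_nets (d : ℕ) (p : ℝ) (C1 C2 C0 : ℝ) (h1 : C1 ≤ C0) (h2 : C2 ≤ C0)
    (hL : ∀ (μ : ℕ) (lam : ℝ), 1 ≤ lam → ∃ S : Finset ((annl d μ) × Fin 2 → ℝ),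
      (S.card : ℝ) ≤ Real.exp (C1 * (2^μ * ((μ:ℝ)+1)^(d-1) * (1 + Real.log lam) / lam + 1)) ∧
      ∀ u ∈ LV d p μ, ∃ a ∈ S, ∀ x, ‖u x - gp (annl d μ) a x‖ ≤ C1 * ((μ:ℝ)+1)^((d:ℝ)/2) * lam^(1/p))
    (hF : ∀ (μ : ℕ) (η : ℝ), 0 < η → η ≤ 1 → ∃ S : Finset ((annl d μ) × Fin 2 → ℝ),
      (S.card : ℝ) ≤ Real.exp (C2 * (2^μ * ((μ:ℝ)+1)^(d-1) * (1 + Real.log (1/η)))) ∧
      ∀ u ∈ LV d p μ, ∃ a ∈ S, ∀ x, ‖u x - gp (annl d μ) a x‖ ≤ C2 * ((μ:ℝ)+1)^((d:ℝ)/2) * η)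
    (n0 : ℕ) (lam η : ℕ → ℝ) (hlam : ∀ n, 1 ≤ lam n) (hη : ∀ n, 0 < η n ∧ η n ≤ 1) :
    ∃ S : ∀ n : ℕ, Finset ((annl d n) × Fin 2 → ℝ), ∀ n,
      ((S n).card : ℝ) ≤ Real.exp (if n < n0 then C0 * (2^n * ((n:ℝ)+1)^(d-1) * (1 + Real.log (1 / η n)))
        else C0 * (2^n * ((n:ℝ)+1)^(d-1) * (1 + Real.log (lam n)) / lam n + 1)) ∧
      ∀ u ∈ LV d p n, ∃ a ∈ S n, ∀ x, ‖u x - gp (annl d n) a x‖ ≤
        C0 * (((n:ℝ)+1)^((d:ℝ)/2) * (if n < n0 then η n else (lam n)^(1/p))) := by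
  have : ∀ n : ℕ, ∃ S : Finset ((annl d n) × Fin 2 → ℝ), ((S).card : ℝ) ≤ Real.exp (if n < n0 then
        C0 * (2^n * ((n:ℝ)+1)^(d-1) * (1 + Real.log (1 / η n)))
        else C0 * (2^n * ((n:ℝ)+1)^(d-1) * (1 + Real.log (lam n)) / lam n + 1)) ∧
      ∀ u ∈ LV d p n, ∃ a ∈ S, ∀ x, ‖u x - gp (annl d n) a x‖ ≤
        C0 * (((n:ℝ)+1)^((d:ℝ)/2) * (if n < n0 then η n else (lam n)^(1/p))) := by
    intro n
    have hn : (0:ℝ) < (n:ℝ) + 1 := by positivity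
    by_cases hn0 : n < n0
    · obtain ⟨S, hS1, hS2⟩ := hF n (η n) (hη n).1 (hη n).2
      have hlog : 0 ≤ Real.log (1 / η n) := Real.log_nonneg (by
        rw [le_div_iff₀ (hη n).1]; linarith [(hη n).2])
      refine ⟨S, hS1.trans (Real.exp_le_exp.2 ?_), fun u hu => ?_⟩
      · rw [if_pos hn0]
        exact mul_le_mul_of_nonneg_right h2 (by positivity)
      · obtain ⟨a, ha, hax⟩ := hS2 u hu
        refine ⟨a, ha, fun x => (hax x).trans ?_⟩
        rw [if_pos hn0, mul_assoc]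
        refine mul_le_mul_of_nonneg_right h2 ?_
        have := (hη n).1
        positivity
    · obtain ⟨S, hS1, hS2⟩ := hL n (lam n) (hlam n)
      have hlam0 : 0 < lam n := lt_of_lt_of_le one_pos (hlam n)
      have hlog : 0 ≤ Real.log (lam n) := Real.log_nonneg (hlam n)
      refine ⟨S, hS1.trans (Real.exp_le_exp.2 ?_), fun u hu => ?_⟩
      · rw [if_neg hn0]
        exact mul_le_mul_of_nonneg_right h1 (by positivity)
      · obtain ⟨a, ha, hax⟩ := hS2 u hu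
        refine ⟨a, ha, fun x => (hax x).trans ?_⟩
        rw [if_neg hn0, mul_assoc]
        exact mul_le_mul_of_nonneg_right h1 (by positivity)
  choose S hS using this
  exact ⟨S, hS⟩

theorem finp_split (n0 n1 : ℕ) (h : n0 ≤ n1) (f g : ℕ → ℝ) :
    ∑ n ∈ Finset.range n1, (if n < n0 then f n else g n) =
      ∑ n ∈ Finset.range n0, f n + ∑ n ∈ Finset.Ico n0 n1, g n := by
  rw [← Finset.sum_range_add_sum_Ico _ h]
  congr 1
  · exact Finset.sum_congr rfl fun n hn => by rw [if_pos (Finset.mem_range.1 hn)]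
  · exact Finset.sum_congr rfl fun n hn => by
      rw [if_neg (by rw [Finset.mem_Ico] at hn; omega)]

theorem finp (h1 : S_LEV) (h2 : S_LEVF) (h3 : S_LSUP) (h4 : S_HDEC) (h5 : S_NUMP) : S_FINP := by
  intro d hd p r hp hp2 hr
  have := TP_prob d
  obtain ⟨C1, hC1, hL⟩ := h1 d hd p hp hp2
  obtain ⟨C2, hC2, hF⟩ := h2 d hd p hp hp2
  obtain ⟨C3, hC3, hsup⟩ := h3 d hd p hp
  obtain ⟨C4, hC4, hdec⟩ := h4 d hd p r hp hr
  set C0 : ℝ := max C1 (max C2 C3) with hC0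
  have hC0p : 0 < C0 := lt_of_lt_of_le hC1 (le_max_left _ _)
  have h10 : C1 ≤ C0 := le_max_left _ _
  have h20 : C2 ≤ C0 := (le_max_left _ _).trans (le_max_right _ _)
  have h30 : C3 ≤ C0 := (le_max_right _ _).trans (le_max_right _ _)
  obtain ⟨C5, hC5, hsm, hnum⟩ := h5 d hd p r C0 hp hr hC0p
  refine ⟨C4 * (C0 * C5), by positivity, fun k hk => ?_⟩
  obtain ⟨n0, n1, lam, η, hn01, hlam, hη, hcard, herr⟩ := hnum k hk
  obtain ⟨S, hS⟩ := finp_nets d p C1 C2 C0 h10 h20 hL hF n0 lam η hlam hη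
  refine finp_cov (Fintype.piFinset (fun n : Fin n1 => S n))
    (fun a x => ∑ n : Fin n1, ((C4 * (2:ℝ)^(-(r * (n:ℕ))) : ℝ) : ℂ) * gp (annl d n) (a n) x)
    k _ _ (fun a => ?_) ?_ ?_
  · refine memLp_finsetSum _ fun n _ => ?_
    exact (finp_gp_mem _ _).const_mul _
  · have e1 : ((Fintype.piFinset (fun n : Fin n1 => S n)).card : ℝ) ≤ (2:ℝ)^k := by
      rw [Fintype.card_piFinset, Nat.cast_prod]
      calc ∏ n : Fin n1, ((S n).card : ℝ) ≤ ∏ n : Fin n1, Real.exp (if (n:ℕ) < n0 then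
            C0 * (2^(n:ℕ) * (((n:ℕ):ℝ)+1)^(d-1) * (1 + Real.log (1 / η n)))
            else C0 * (2^(n:ℕ) * (((n:ℕ):ℝ)+1)^(d-1) * (1 + Real.log (lam n)) / lam n + 1)) :=
              Finset.prod_le_prod (fun n _ => Nat.cast_nonneg _) (fun n _ => (hS n).1)
        _ = Real.exp (∑ n ∈ Finset.range n1, (if n < n0 then
            C0 * (2^n * ((n:ℝ)+1)^(d-1) * (1 + Real.log (1 / η n)))
            else C0 * (2^n * ((n:ℝ)+1)^(d-1) * (1 + Real.log (lam n)) / lam n + 1))) := by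
              rw [Finset.sum_range, Real.exp_sum]
        _ ≤ Real.exp (k * Real.log 2) := by
              rw [finp_split n0 n1 hn01]
              exact Real.exp_le_exp.2 hcard
        _ = (2:ℝ)^k := by
              rw [mul_comm, Real.exp_mul, Real.exp_log (by norm_num), Real.rpow_natCast]
    exact_mod_cast e1
  · intro f hf
    obtain ⟨v, hv, hae⟩ := hdec f hf
    have hch : ∀ n : Fin n1, ∃ a ∈ S n, ∀ x, ‖v n x - gp (annl d n) a x‖ ≤
        C0 * ((((n:ℕ):ℝ)+1)^((d:ℝ)/2) * (if (n:ℕ) < n0 then η n else (lam n)^(1/p))) :=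
      fun n => (hS n).2 (v n) (hv n)
    choose a ha hax using hch
    refine ⟨a, Fintype.mem_piFinset.2 ha, ?_⟩
    rw [eLpNorm_exponent_top]
    refine eLpNormEssSup_le_of_ae_bound ?_
    filter_upwards [hae] with x hx
    have hb : ∀ n : ℕ, ‖v n x‖ ≤ C0 * (((n:ℝ)+1)^(d-1) * (2:ℝ)^((n:ℝ)/p)) := by
      intro n
      refine ((hsup n (v n) (hv n)).2 x).trans ?_
      rw [mul_assoc]
      exact mul_le_mul_of_nonneg_right h30 (by positivity)
    have hsm2 : Summable (fun n : ℕ => (C4 * (2:ℝ)^(-(r * n))) * (C0 * (((n:ℝ)+1)^(d-1) * (2:ℝ)^((n:ℝ)/p)))) := by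
      refine (hsm.mul_left (C4 * C0)).congr fun n => ?_
      ring
    have key := finp_err (n1 := n1) (fun n => C4 * (2:ℝ)^(-(r * n)))
      (fun n => C0 * (((n:ℝ)+1)^((d:ℝ)/2) * (if n < n0 then η n else (lam n)^(1/p))))
      (fun n => C0 * (((n:ℝ)+1)^(d-1) * (2:ℝ)^((n:ℝ)/p))) (fun n => v n x)
      (fun n => gp (annl d n) (a n) x) (f x) (fun n => by positivity) hx (fun n => hax n x) hb hsm2
    refine key.trans ?_
    have e1 : ∑ n ∈ Finset.range n1, C4 * (2:ℝ)^(-(r * n)) *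
        (C0 * (((n:ℝ)+1)^((d:ℝ)/2) * (if n < n0 then η n else (lam n)^(1/p)))) =
        C4 * C0 * ((∑ n ∈ Finset.range n0, (2:ℝ)^(-(r * n)) * ((n:ℝ)+1)^((d:ℝ)/2) * η n) +
      (∑ n ∈ Finset.Ico n0 n1, (2:ℝ)^(-(r * n)) * ((n:ℝ)+1)^((d:ℝ)/2) * (lam n)^(1/p))) := by
      rw [← finp_split n0 n1 hn01, Finset.mul_sum]
      refine Finset.sum_congr rfl fun n _ => ?_
      split_ifs <;> ring
    have e2 : ∑' n : ℕ, C4 * (2:ℝ)^(-(r * ((n + n1 : ℕ) : ℝ))) *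
        (C0 * ((((n + n1 : ℕ) : ℝ)+1)^(d-1) * (2:ℝ)^(((n + n1 : ℕ) : ℝ)/p))) =
        C4 * C0 * ∑' n : ℕ, (2:ℝ)^(-(r * ((n + n1 : ℕ) : ℝ))) * (((n + n1 : ℕ) : ℝ)+1)^(d-1) *
        (2:ℝ)^(((n + n1 : ℕ) : ℝ)/p) := by
      rw [← tsum_mul_left]
      refine tsum_congr fun n => ?_
      ring
    rw [e1, e2, ← mul_add]
    calc _ ≤ C4 * C0 * (C5 * psiP d r k) := mul_le_mul_of_nonneg_left herr (by positivity)
      _ = _ := by ring

end SmSm
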