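import Pool.Agent.H636R2.SM.Spec
import Pool.Agent.KX.L_wf_split
open MeasureTheory Real ProbabilityTheory
open scoped ENNReal BigOperators

namespace SmSm
open HypVol MWidth

theorem syn_chi {d : ℕ} (k : Fin d → ℤ) (x : Fin d → ℝ) :
    chi k x = Sol_KX_wf_split.wchr k x := rfl

theorem syn_fc_chi {d : ℕ} (m k : Fin d → ℤ) :
    ∫ x, chi m x * Sol_KX_wf_split.wchr (-k) x ∂(TP d) = if m = k then 1 else 0 := by
  simp only [syn_chi]
  simp only [← Sol_KX_wf_split.wchr_add]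
  rw [Sol_KX_wf_split.wchr_int]
  congr 1
  exact propext ⟨fun h => by rwa [← sub_eq_add_neg, sub_eq_zero] at h,
    fun h => by rw [h]; simp⟩

theorem syn_cnt (d μ : ℕ) (F : Finset (Fin (d+1) → ℕ)) :
    (F.filter (fun s => ∑ j, s j = μ)).card ≤ (μ+1)^d := by
  classical
  have h1 : (Fintype.piFinset (fun _ : Fin d => Finset.range (μ+1))).card = (μ+1)^d := by
    rw [Fintype.card_piFinset]
    simp
  rw [← h1]
  refine Finset.card_le_card_of_injOn (fun s => Fin.tail s) ?_ ?_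
  · intro s hs
    have hs' := (Finset.mem_filter.mp (Finset.mem_coe.mp hs)).2
    refine Finset.mem_coe.mpr (Fintype.mem_piFinset.mpr fun j => ?_)
    rw [Finset.mem_range]
    have h2 : s j.succ ≤ ∑ j, s j := Finset.single_le_sum (f := s) (fun i _ => Nat.zero_le _)
      (Finset.mem_univ j.succ)
    show s j.succ < μ + 1
    omega
  · intro s hs t ht hst
    have hs' := (Finset.mem_filter.mp (Finset.mem_coe.mp hs)).2
    have ht' := (Finset.mem_filter.mp (Finset.mem_coe.mp ht)).2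
    rw [Fin.sum_univ_succ] at hs' ht'
    have e : ∀ j : Fin d, s j.succ = t j.succ := fun j => congrFun hst j
    have e2 : ∑ j : Fin d, s j.succ = ∑ j : Fin d, t j.succ := Finset.sum_congr rfl fun j _ => e j
    funext j
    refine Fin.cases ?_ ?_ j
    · omega
    · exact e

theorem syn_sum_le (d : ℕ) (hd : 1 ≤ d) (h : ℕ → ℝ) (h0 : ∀ μ, 0 ≤ h μ)
    (hs : Summable (fun μ : ℕ => ((μ:ℝ)+1)^(d-1) * h μ)) (F : Finset (Fin d → ℕ)) :
    ∑ s ∈ F, h (∑ j, s j) ≤ ∑' μ : ℕ, ((μ:ℝ)+1)^(d-1) * h μ := by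
  classical
  obtain ⟨e, rfl⟩ : ∃ e, d = e + 1 := ⟨d - 1, by omega⟩
  rw [Finset.sum_comp h (fun s : Fin (e+1) → ℕ => ∑ j, s j)]
  refine le_trans (Finset.sum_le_sum (g := fun μ : ℕ => ((μ:ℝ)+1)^(e+1-1) * h μ) ?_)
    (hs.sum_le_tsum _ (fun i _ => mul_nonneg (by positivity) (h0 i)))
  intro μ _
  rw [nsmul_eq_mul]
  refine mul_le_mul_of_nonneg_right ?_ (h0 μ)
  have := syn_cnt e μ F
  simp only [Nat.add_sub_cancel]
  exact_mod_cast this

theorem syn_summable (d : ℕ) (hd : 1 ≤ d) (h : ℕ → ℝ) (h0 : ∀ μ, 0 ≤ h μ)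
    (hs : Summable (fun μ : ℕ => ((μ:ℝ)+1)^(d-1) * h μ)) :
    Summable (fun s : Fin d → ℕ => h (∑ j, s j)) :=
  summable_of_sum_le (fun _ => h0 _) (syn_sum_le d hd h h0 hs)

theorem syn_tsum (d : ℕ) (hd : 1 ≤ d) (h : ℕ → ℝ) (h0 : ∀ μ, 0 ≤ h μ)
    (hs : Summable (fun μ : ℕ => ((μ:ℝ)+1)^(d-1) * h μ)) :
    ∑' s : Fin d → ℕ, h (∑ j, s j) ≤ ∑' μ : ℕ, ((μ:ℝ)+1)^(d-1) * h μ :=
  (syn_summable d hd h h0 hs).tsum_le_of_sum_le (syn_sum_le d hd h h0 hs)

theorem syn_chi_cont {d : ℕ} (k : Fin d → ℤ) : Continuous (chi k) :=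
  Sol_KX_wf_split.wchr_cont k

theorem syn_op_cont {d : ℕ} (r : ℝ) (α : Fin d → ℝ) (s : Fin d → ℕ) (φ : (Fin d → ℝ) → ℂ) :
    Continuous (op r α s φ) := by
  unfold op
  refine continuous_finset_sum _ fun k _ => ?_
  exact continuous_const.mul (syn_chi_cont k)

theorem syn_fc_op {d : ℕ} (h2 : S_VPF) (r : ℝ) (α : Fin d → ℝ) (s : Fin d → ℕ)
    (φ : (Fin d → ℝ) → ℂ) (k : Fin d → ℤ) :
    ∫ x, op r α s φ x * Sol_KX_wf_split.wchr (-k) x ∂(TP d) =
      Fh r α k * ((blk s k : ℂ) * fc φ k) := by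
  haveI := TP_prob d
  unfold op
  simp only [Finset.sum_mul, mul_assoc]
  have hb : ∀ m : Fin d → ℤ, Integrable (fun x => chi m x * Sol_KX_wf_split.wchr (-k) x) (TP d) := by
    intro m
    refine Integrable.of_bound
      ((syn_chi_cont m).mul (Sol_KX_wf_split.wchr_cont (-k))).aestronglyMeasurable 1
      (Filter.Eventually.of_forall fun x => ?_)
    rw [norm_mul, syn_chi, Sol_KX_wf_split.wchr_norm, Sol_KX_wf_split.wchr_norm, mul_one]
  rw [integral_finsetSum]
  · have e : ∀ m ∈ boxs s, ∫ x, Fh r α m * ((blk s m : ℂ) * (fc φ m * (chi m x *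
        Sol_KX_wf_split.wchr (-k) x))) ∂(TP d) = if m = k then Fh r α m * ((blk s m : ℂ) * fc φ m)
          else 0 := by
      intro m _
      rw [integral_const_mul, integral_const_mul, integral_const_mul, syn_fc_chi]
      split_ifs <;> simp
    rw [Finset.sum_congr rfl e]
    rw [Finset.sum_ite_eq' (boxs s) k (fun m => Fh r α m * ((blk s m : ℂ) * fc φ m))]
    split_ifs with hk
    · rfl
    · have : blk s k = 0 := by
        by_contra hne
        apply hk
        have h4 := h2.2.2.2 d s k hne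
        unfold boxs
        rw [Fintype.mem_piFinset]
        intro j
        rw [Finset.mem_Ioo, ← abs_lt]
        have h5 : (k j).natAbs < 2^(s j + 1) := Nat.size_le.mp (h4 j).2
        rw [Int.abs_eq_natAbs]
        exact_mod_cast h5
      rw [this]
      simp
  · intro m _
    exact (((hb m).const_mul _).const_mul _).const_mul _

theorem syn (h1 : S_VPB) (h2 : S_VPF) : S_SYN := by
  intro d hd r hr α
  obtain ⟨C, hC, hB⟩ := h1 d r α
  refine ⟨C, hC, ?_⟩
  intro ψ τ hτ hψ hψτ hsum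
  haveI := TP_prob d
  -- bound function
  let h : ℕ → ℝ := fun μ => (2:ℝ)^(-(r * μ)) * τ μ
  have h0 : ∀ μ, 0 ≤ h μ := fun μ => mul_nonneg (Real.rpow_nonneg (by norm_num) _) (hτ μ)
  have hs : Summable (fun μ : ℕ => ((μ:ℝ)+1)^(d-1) * h μ) := by
    refine hsum.congr fun μ => ?_
    simp only [h]
    ring
  have hts : ∑' μ : ℕ, ((μ:ℝ)+1)^(d-1) * (2:ℝ)^(-(r * μ)) * τ μ =
      ∑' μ : ℕ, ((μ:ℝ)+1)^(d-1) * h μ := by
    refine tsum_congr fun μ => ?_
    simp only [h]
    ring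
  have hg := syn_summable d hd h h0 hs
  have hg' : Summable (fun s : Fin d → ℕ => C * h (∑ j, s j)) := hg.mul_left C
  let T : (Fin d → ℕ) → (Fin d → ℝ) → ℂ := fun s => op r α s (ψ (∑ j, s j))
  have hT : ∀ s x, ‖T s x‖ ≤ C * h (∑ j, s j) := by
    intro s x
    have := hB s (ψ (∑ j, s j)) (τ (∑ j, s j)) (hτ _) (hψ _) (hψτ _) x
    simp only [T, h]
    push_cast
    rw [← mul_assoc]
    exact this
  have hTc : ∀ s, Continuous (T s) := fun s => syn_op_cont r α s _
  let u : (Fin d → ℝ) → ℂ := fun x => ∑' s, T s x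
  have huc : Continuous u := continuous_tsum hTc hg' hT
  have hub : ∀ x, ‖u x‖ ≤ C * ∑' μ : ℕ, ((μ:ℝ)+1)^(d-1) * (2:ℝ)^(-(r * μ)) * τ μ := by
    intro x
    rw [hts]
    refine (tsum_of_norm_bounded hg'.hasSum (fun s => hT s x)).trans ?_
    rw [tsum_mul_left]
    exact mul_le_mul_of_nonneg_left (syn_tsum d hd h h0 hs) hC.le
  refine ⟨u, MemLp.of_bound huc.aestronglyMeasurable _ (Filter.Eventually.of_forall hub), hub, ?_⟩
  intro k
  rw [Sol_KX_wf_split.wfc]
  have hn : ∀ s, ∫ x, ‖T s x * Sol_KX_wf_split.wchr (-k) x‖ ∂(TP d) ≤ C * h (∑ j, s j) := by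
    intro s
    have : ∀ x, ‖T s x * Sol_KX_wf_split.wchr (-k) x‖ ≤ C * h (∑ j, s j) := by
      intro x
      rw [norm_mul, Sol_KX_wf_split.wchr_norm, mul_one]
      exact hT s x
    refine (integral_mono_of_nonneg (Filter.Eventually.of_forall fun x => norm_nonneg _)
      (integrable_const (C * h (∑ j, s j))) (Filter.Eventually.of_forall this)).trans ?_
    simp
  have hint : ∀ s, Integrable (fun x => T s x * Sol_KX_wf_split.wchr (-k) x) (TP d) := by
    intro s
    refine Integrable.of_bound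
      ((hTc s).mul (Sol_KX_wf_split.wchr_cont (-k))).aestronglyMeasurable (C * h (∑ j, s j))
      (Filter.Eventually.of_forall fun x => ?_)
    rw [norm_mul, Sol_KX_wf_split.wchr_norm, mul_one]
    exact hT s x
  have e1 : ∫ x, u x * Sol_KX_wf_split.wchr (-k) x ∂(TP d) =
      ∫ x, ∑' s, T s x * Sol_KX_wf_split.wchr (-k) x ∂(TP d) := by
    congr 1
    funext x
    simp only [u]
    rw [tsum_mul_right]
  rw [e1, ← integral_tsum_of_summable_integral_norm hint
    (Summable.of_nonneg_of_le (fun s => integral_nonneg fun x => norm_nonneg _) hn hg')]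
  simp only [T, syn_fc_op h2]
  rw [tsum_mul_left]
  congr 1
  refine tsum_eq_sum fun s hsn => ?_
  have : blk s k = 0 := by
    by_contra hne
    apply hsn
    rw [Fintype.mem_piFinset]
    intro j
    rw [Finset.mem_range]
    have := (h2.2.2.2 d s k hne j).1
    omega
  rw [this]
  simp

end SmSm
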