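import Pool.Agent.H636R2.SM.SpecH
import Pool.Agent.H636R2.SM.SPLIT
import Pool.Agent.H636R2.SM.SYN
open MeasureTheory Real ProbabilityTheory
open scoped ENNReal BigOperators

/-! HSPLIT: decomposition of the functions of the class `H^r_q`, `q > 2`.  helper747. -/

namespace SmSm
open HypVol HypVol.Sol_KX_wf_split HypVol.Sol_KX_ml_bdd

theorem hsplit_ac (d : ℕ) : TP d ≪ (volume : Measure (Fin d → ℝ)) := by
  have h1 : TP d = (ENNReal.ofReal (2 * π)⁻¹) ^ d •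
      (volume : Measure (Fin d → ℝ)).restrict (Set.pi Set.univ fun _ => Set.Ico 0 (2 * π)) := by
    unfold TP
    rw [volume_pi, Measure.restrict_pi_pi]
    have : IsFiniteMeasure (volume.restrict (Set.Ico (0:ℝ) (2 * π))) := ⟨by
      rw [Measure.restrict_apply_univ, Real.volume_Ico]
      exact ENNReal.ofReal_lt_top⟩
    have h2 : IsFiniteMeasure (ENNReal.ofReal (2 * π)⁻¹ • volume.restrict (Set.Ico (0:ℝ) (2 * π))) :=
      Measure.smul_finite _ ENNReal.ofReal_ne_top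
    refine Measure.pi_eq fun s hs => ?_
    rw [Measure.smul_apply, Measure.pi_pi, smul_eq_mul]
    simp only [Measure.smul_apply, smul_eq_mul]
    rw [Finset.prod_mul_distrib, Finset.prod_const, Finset.card_univ, Fintype.card_fin]
  rw [h1]
  exact (Measure.smul_absolutelyContinuous).trans
    (Measure.absolutelyContinuous_of_le Measure.restrict_le_self)

theorem hsplit_Fh {d : ℕ} (k : Fin d → ℤ) : Fh 0 (0 : Fin d → ℝ) k = 1 := by
  unfold Fh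
  refine Finset.prod_eq_one fun j _ => ?_
  split_ifs with h
  · rfl
  · simp

theorem hsplit_fc_op {d : ℕ} (h4 : S_VPF) (s : Fin d → ℕ) (f : (Fin d → ℝ) → ℂ) (k : Fin d → ℤ) :
    fc (op 0 0 s f) k = (blk s k : ℂ) * fc f k := by
  rw [wfc, syn_fc_op h4, hsplit_Fh, one_mul]

theorem hsplit_wbl {d : ℕ} (s : Fin d → ℕ) (k : Fin d → ℤ) :
    wbl 0 s ∅ k = ∏ j, wv (s j) (k j) := by
  unfold wbl
  refine Finset.prod_congr rfl fun j _ => ?_
  simp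

theorem hsplit_wbl_nonneg {d : ℕ} (h3 : S_WBF) (s : Fin d → ℕ) (k : Fin d → ℤ) :
    0 ≤ wbl 0 s ∅ k := by
  rw [hsplit_wbl]
  exact Finset.prod_nonneg fun j _ => (h3.1 _ _).1

theorem hsplit_wbl_le {d : ℕ} (h3 : S_WBF) (s : Fin d → ℕ) (k : Fin d → ℤ) :
    wbl 0 s ∅ k ≤ 1 := by
  rw [hsplit_wbl]
  exact Finset.prod_le_one (fun j _ => (h3.1 _ _).1) fun j _ => (h3.1 _ _).2

theorem hsplit_wbl_ne {d : ℕ} (h3 : S_WBF) (s : Fin d → ℕ) (k : Fin d → ℤ)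
    (h : wbl 0 s ∅ k ≠ 0) (j : Fin d) :
    s j ≤ Nat.size (k j).natAbs + 1 ∧ Nat.size (k j).natAbs ≤ s j + 2 := by
  rw [hsplit_wbl] at h
  exact h3.2.2.2 _ _ (Finset.prod_ne_zero_iff.1 h j (Finset.mem_univ j))

theorem hsplit_wbl_blk {d : ℕ} (h3 : S_WBF) (s : Fin d → ℕ) (k : Fin d → ℤ) :
    wbl 0 s ∅ k * blk s k = blk s k := by
  by_cases h : blk s k = 0
  · rw [h, mul_zero]
  · have h1 : wbl 0 s ∅ k = 1 := by
      rw [hsplit_wbl]
      refine Finset.prod_eq_one fun j _ => h3.2.2.1 _ _ ?_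
      exact Finset.prod_ne_zero_iff.1 h j (Finset.mem_univ j)
    rw [h1, one_mul]

/-- the shapes for a frequency -/
def hsplitS {d : ℕ} (k : Fin d → ℤ) : Finset (Fin d → ℕ) :=
  Fintype.piFinset (fun j => Finset.range (Nat.size (k j).natAbs + 2))

theorem hsplit_one {d : ℕ} (h3 : S_WBF) (h4 : S_VPF) (k : Fin d → ℤ) :
    ∑ s ∈ hsplitS k, wbl 0 s ∅ k * blk s k = 1 := by
  simp only [hsplit_wbl_blk h3]
  rw [← h4.2.2.1 d k]
  symm
  refine Finset.sum_subset ?_ ?_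
  · intro s hs
    unfold hsplitS
    rw [Fintype.mem_piFinset] at hs ⊢
    intro j
    have := hs j
    rw [Finset.mem_range] at this ⊢
    omega
  · intro s _ hs
    by_contra hne
    apply hs
    rw [Fintype.mem_piFinset]
    intro j
    rw [Finset.mem_range]
    have := (h4.2.2.2 d s k hne j).1
    omega

open Classical in
/-- shapes interacting with the layer `n` -/
noncomputable def hsplitB (d n : ℕ) : Finset (Fin d → ℕ) :=
  (Fintype.piFinset (fun _ : Fin d => Finset.range (n + 2))).filter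
    (fun s => n ≤ ∑ j, s j + 2 * d ∧ ∑ j, s j ≤ n + d)

theorem hsplit_card (d : ℕ) (hd : 1 ≤ d) (n : ℕ) :
    ((hsplitB d n).card : ℝ) ≤ (3 * (d:ℝ) + 1) * ((d:ℝ) + 1)^(d-1) * ((n:ℝ) + 1)^(d-1) := by
  classical
  obtain ⟨e, rfl⟩ : ∃ e, d = e + 1 := ⟨d - 1, by omega⟩
  have h1 : hsplitB (e+1) n ⊆ (Finset.Icc (n - 2 * (e+1)) (n + (e+1))).biUnion
      (fun μ => (hsplitB (e+1) n).filter (fun s => ∑ j, s j = μ)) := by
    intro s hs
    rw [Finset.mem_biUnion]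
    refine ⟨∑ j, s j, ?_, Finset.mem_filter.2 ⟨hs, rfl⟩⟩
    unfold hsplitB at hs
    rw [Finset.mem_filter] at hs
    rw [Finset.mem_Icc]
    omega
  have h2 : (hsplitB (e+1) n).card ≤ (3 * (e+1) + 1) * (n + (e + 1) + 1)^e := by
    refine (Finset.card_le_card h1).trans (Finset.card_biUnion_le.trans ?_)
    refine (Finset.sum_le_card_nsmul _ _ ((n + (e + 1) + 1)^e) ?_).trans ?_
    · intro μ hμ
      rw [Finset.mem_Icc] at hμ
      refine (syn_cnt e μ _).trans ?_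
      exact Nat.pow_le_pow_left (by omega) e
    · rw [Nat.card_Icc, smul_eq_mul]
      exact Nat.mul_le_mul_right _ (by omega)
  have h3 : ((hsplitB (e+1) n).card : ℝ) ≤ (3 * ((e:ℝ)+1) + 1) * ((n:ℝ) + (e + 1) + 1)^e := by
    exact_mod_cast h2
  refine h3.trans ?_
  have h4 : ((n:ℝ) + (e + 1) + 1)^e ≤ (((e:ℝ) + 1 + 1) * ((n:ℝ) + 1))^e := by
    apply pow_le_pow_left₀ (by positivity)
    nlinarith [Nat.cast_nonneg (α := ℝ) n, Nat.cast_nonneg (α := ℝ) e,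
      mul_nonneg (Nat.cast_nonneg (α := ℝ) n) (Nat.cast_nonneg (α := ℝ) e)]
  rw [mul_pow] at h4
  simp only [Nat.add_sub_cancel]
  push_cast
  calc (3 * ((e:ℝ)+1) + 1) * ((n:ℝ) + (e + 1) + 1)^e
      ≤ (3 * ((e:ℝ)+1) + 1) * ((((e:ℝ) + 1 + 1))^e * ((n:ℝ) + 1)^e) :=
        mul_le_mul_of_nonneg_left h4 (by positivity)
    _ = _ := by ring

theorem hsplit_cs {d : ℕ} (h3 : S_WBF) (n : ℕ) (k : Fin d → ℤ) (hk : k ∈ layer d n)
    (z : (Fin d → ℕ) → ℂ) :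
    ‖∑ s ∈ hsplitS k, (wbl 0 s ∅ k : ℂ) * z s‖ ^ 2 ≤ 4^d * ∑ s ∈ hsplitB d n, ‖z s‖ ^ 2 := by
  classical
  have hn := (wlayer_iff k).1 hk
  unfold wN at hn
  set T := (hsplitS k).filter (fun s => wbl 0 s ∅ k ≠ 0) with hT
  have h1 : ∑ s ∈ hsplitS k, (wbl 0 s ∅ k : ℂ) * z s = ∑ s ∈ T, (wbl 0 s ∅ k : ℂ) * z s := by
    rw [hT, Finset.sum_filter]
    refine Finset.sum_congr rfl fun s _ => ?_
    split_ifs with h
    · rfl
    · have h0 : wbl 0 s ∅ k = 0 := not_not.1 h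
      rw [h0]; simp
  have hTB : T ⊆ hsplitB d n := by
    intro s hs
    rw [hT, Finset.mem_filter] at hs
    have h5 := hsplit_wbl_ne h3 s k hs.2
    unfold hsplitB
    rw [Finset.mem_filter, Fintype.mem_piFinset]
    have h6 : ∑ j, s j ≤ ∑ j, (Nat.size (k j).natAbs + 1) := Finset.sum_le_sum fun j _ => (h5 j).1
    have h7 : ∑ j, Nat.size (k j).natAbs ≤ ∑ j, (s j + 2) := Finset.sum_le_sum fun j _ => (h5 j).2
    rw [Finset.sum_add_distrib] at h6 h7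
    simp only [Finset.sum_const, Finset.card_univ, Fintype.card_fin, smul_eq_mul] at h6 h7
    refine ⟨fun j => ?_, by omega, by omega⟩
    rw [Finset.mem_range]
    have h8 : Nat.size (k j).natAbs ≤ ∑ j, Nat.size (k j).natAbs :=
      Finset.single_le_sum (f := fun j => Nat.size (k j).natAbs) (fun i _ => Nat.zero_le _)
        (Finset.mem_univ j)
    have := (h5 j).1
    omega
  have hTc : T.card ≤ 4^d := by
    have h8 : T ⊆ Fintype.piFinset (fun j => Finset.Icc (Nat.size (k j).natAbs - 2)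
        (Nat.size (k j).natAbs + 1)) := by
      intro s hs
      rw [hT, Finset.mem_filter] at hs
      have h5 := hsplit_wbl_ne h3 s k hs.2
      rw [Fintype.mem_piFinset]
      intro j
      rw [Finset.mem_Icc]
      have := h5 j
      omega
    refine (Finset.card_le_card h8).trans ?_
    rw [Fintype.card_piFinset]
    refine (Finset.prod_le_pow_card _ _ 4 fun j _ => ?_).trans ?_
    · rw [Nat.card_Icc]; omega
    · rw [Finset.card_univ, Fintype.card_fin]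
  rw [h1]
  have h9 : ‖∑ s ∈ T, (wbl 0 s ∅ k : ℂ) * z s‖ ≤ ∑ s ∈ T, ‖z s‖ := by
    refine (norm_sum_le _ _).trans (Finset.sum_le_sum fun s _ => ?_)
    rw [norm_mul, Complex.norm_real, Real.norm_of_nonneg (hsplit_wbl_nonneg h3 s k)]
    exact mul_le_of_le_one_left (norm_nonneg _) (hsplit_wbl_le h3 s k)
  calc ‖∑ s ∈ T, (wbl 0 s ∅ k : ℂ) * z s‖ ^ 2 ≤ (∑ s ∈ T, ‖z s‖) ^ 2 :=
        pow_le_pow_left₀ (norm_nonneg _) h9 2
    _ ≤ T.card * ∑ s ∈ T, ‖z s‖ ^ 2 := sq_sum_le_card_mul_sum_sq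
    _ ≤ 4^d * ∑ s ∈ hsplitB d n, ‖z s‖ ^ 2 := by
        refine mul_le_mul (by exact_mod_cast hTc) ?_ (by positivity) (by positivity)
        exact Finset.sum_le_sum_of_subset_of_nonneg hTB fun _ _ _ => by positivity

theorem hsplit (h1 : S_JACK) (h2 : S_SYNH) (h3 : S_WBF) (h4 : S_VPF) : S_HSPLIT := by
  intro d hd q r hq hr
  have hq0 : (0:ℝ) < q := by linarith
  have hr0 : 0 < r := lt_trans (by positivity) hr
  have hδ : 0 < 1/2 - 1/q := by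
    have : 1/q < 1/2 := one_div_lt_one_div_of_lt (by norm_num) hq
    linarith
  have hqe1 : (1 : ℝ≥0∞) ≤ ENNReal.ofReal q := by
    rw [← ENNReal.ofReal_one]
    exact ENNReal.ofReal_le_ofReal (by linarith)
  have hq2 : (2 : ℝ≥0∞) ≤ ENNReal.ofReal q := by
    rw [show (2 : ℝ≥0∞) = ENNReal.ofReal 2 by simp]
    exact ENNReal.ofReal_le_ofReal hq.le
  obtain ⟨C0, hC0, hjack⟩ := h1 d r (ENNReal.ofReal q) hr0 hqe1
  obtain ⟨Cs, hCs, hsyn⟩ := h2 d hd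
  obtain ⟨Cl, hCl, hcard⟩ := card_layer_le d hd
  obtain ⟨δ, hδe⟩ : ∃ δ : ℝ, δ = 1/2 - 1/q := ⟨_, rfl⟩
  obtain ⟨C2, hC2e⟩ : ∃ C2 : ℝ, C2 = ∑' j : ℕ, ((j:ℝ)+1)^(d-1) * ((2:ℝ)^(1/q - r))^j := ⟨_, rfl⟩
  obtain ⟨C1, hC1e⟩ : ∃ C1 : ℝ, C1 = 2^d * ((3 * (d:ℝ) + 1) * ((d:ℝ) + 1)^(d-1)) *
    (C0 * (2:ℝ) ^ (2 * r * d) * (2:ℝ) ^ (2 * δ * d)) := ⟨_, rfl⟩
  rw [← hδe] at hδ
  have hC1 : 0 < C1 := by rw [hC1e]; positivity
  have hC2 : 0 ≤ C2 := by rw [hC2e]; exact tsum_nonneg fun j => by positivity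
  refine ⟨C1 + Cs * (C0 * C2), by positivity, ?_⟩
  intro f hf μs
  have := TP_prob d
  obtain ⟨a, ha⟩ : ∃ a : (Fin d → ℕ) → ℝ, ∀ s, a s = C0 * (2:ℝ)^(-(r * ∑ j, (s j : ℝ))) :=
    ⟨_, fun _ => rfl⟩
  have ha0 : ∀ s, 0 < a s := fun s => by rw [ha]; positivity
  obtain ⟨φ, hφe⟩ : ∃ φ : (Fin d → ℕ) → (Fin d → ℝ) → ℂ, ∀ s, φ s =
    fun x => (((a s)⁻¹ : ℝ) : ℂ) * op 0 0 s f x := ⟨_, fun _ => rfl⟩
  have hopc : ∀ s, Continuous (op 0 0 s f) := fun s => syn_op_cont 0 0 s f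
  have hφc : ∀ s, Continuous (φ s) := fun s => by
    rw [hφe]; exact continuous_const.mul (hopc s)
  have hφ1 : ∀ s, eLpNorm (φ s) (ENNReal.ofReal q) (TP d) ≤ 1 := by
    intro s
    have e : φ s = (((a s)⁻¹ : ℝ) : ℂ) • op 0 0 s f := by rw [hφe]; rfl
    rw [e, eLpNorm_const_smul]
    have e2 : ‖(((a s)⁻¹ : ℝ) : ℂ)‖ₑ = ENNReal.ofReal (a s)⁻¹ := by
      rw [← ofReal_norm, Complex.norm_real, Real.norm_of_nonneg (inv_pos.2 (ha0 s)).le]
    rw [e2]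
    have h5 := hjack f hf s
    rw [← ha] at h5
    calc ENNReal.ofReal (a s)⁻¹ * eLpNorm (op 0 0 s f) (ENNReal.ofReal q) (TP d)
        ≤ ENNReal.ofReal (a s)⁻¹ * ENNReal.ofReal (a s) := by gcongr
      _ = 1 := by
        rw [← ENNReal.ofReal_mul (inv_pos.2 (ha0 s)).le, inv_mul_cancel₀ (ha0 s).ne',
          ENNReal.ofReal_one]
  have hφ : ∀ s, MemLp (φ s) (ENNReal.ofReal q) (TP d) := fun s =>
    ⟨(hφc s).aestronglyMeasurable, (hφ1 s).trans_lt ENNReal.one_lt_top⟩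
  have hφ2 : ∀ s, MemLp (φ s) 2 (TP d) := fun s => (hφ s).mono_exponent hq2
  obtain ⟨χ, hχe⟩ : ∃ χ : (Fin d → ℕ) → (Fin d → ℝ) → ℂ, ∀ s, χ s =
    split_chi q (φ s) μs (∑ j, s j) := ⟨_, fun _ => rfl⟩
  obtain ⟨ψ, hψe⟩ : ∃ ψ : (Fin d → ℕ) → (Fin d → ℝ) → ℂ, ∀ s, ψ s =
    split_psi q (φ s) μs (∑ j, s j) := ⟨_, fun _ => rfl⟩
  have hsumx : ∀ s x, ψ s x + χ s x = φ s x := fun s x => by
    rw [hψe, hχe]; exact split_psi_chi q (φ s) μs _ x
  have hχn : ∀ s, eLpNorm (χ s) 2 (TP d) ≤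
      ENNReal.ofReal ((2:ℝ) ^ (-(δ * (((∑ j, s j) - μs : ℕ) : ℝ)))) := fun s => by
    rw [hχe, hδe]; exact split_chi_norm q hq (φ s) (hφ s) (hφ1 s) μs _
  have hχ2 : ∀ s, MemLp (χ s) 2 (TP d) := fun s =>
    ⟨by rw [hχe]; exact split_chi_meas q (φ s) (hφ s).1 μs _, (hχn s).trans_lt ENNReal.ofReal_lt_top⟩
  have hχi : ∀ s, Integrable (χ s) (TP d) := fun s => (hχ2 s).integrable (by norm_num)
  have hψi : ∀ s, Integrable (ψ s) (TP d) := by
    intro s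
    have h := ((hφ2 s).integrable (by norm_num)).sub (hχi s)
    refine h.congr (Filter.Eventually.of_forall fun x => ?_)
    show φ s x - χ s x = ψ s x
    rw [← hsumx s x]
    ring
  have hfcsum : ∀ s k, (a s : ℂ) * fc (ψ s) k + (a s : ℂ) * fc (χ s) k = (blk s k : ℂ) * fc f k := by
    intro s k
    rw [← mul_add, ← split_fc_add _ _ (hψi s) (hχi s)]
    have e : (fun x => ψ s x + χ s x) = φ s := funext (hsumx s)
    rw [e, ← split_fc_smul, ← hsplit_fc_op h4]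
    congr 1
    funext x
    rw [hφe]
    show (a s : ℂ) * ((((a s)⁻¹ : ℝ) : ℂ) * op 0 0 s f x) = _
    rw [← mul_assoc, ← Complex.ofReal_mul, mul_inv_cancel₀ (ha0 s).ne', Complex.ofReal_one, one_mul]
  have hbes : ∀ s (S : Finset (Fin d → ℤ)), ∑ k ∈ S, ‖fc (χ s) k‖ ^ 2 ≤
      ((2:ℝ) ^ (-(δ * (((∑ j, s j) - μs : ℕ) : ℝ)))) ^ 2 := fun s S =>
    split_bessel _ _ (by positivity) (hχ2 s) (hχn s) S
  obtain ⟨c, hc⟩ : ∃ c : (Fin d → ℤ) → ℂ, ∀ k, c k =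
    ∑ s ∈ hsplitS k, (wbl 0 s ∅ k : ℂ) * ((a s : ℂ) * fc (χ s) k) := ⟨_, fun _ => rfl⟩
  have hhalf : ∀ n : ℕ, (((n:ℝ)+1)^(((d:ℝ)-1)/2)) ^ 2 = ((n:ℝ)+1)^(d-1) := by
    intro n
    have hm : (0:ℝ) < (n:ℝ) + 1 := by positivity
    rw [← Real.rpow_natCast, ← Real.rpow_mul hm.le]
    have h3 : ((d:ℝ) - 1)/2 * ((2:ℕ) : ℝ) = ((d - 1 : ℕ) : ℝ) := by
      rw [Nat.cast_sub hd]
      push_cast
      ring
    rw [h3, Real.rpow_natCast]
  have hsq : ∀ n, ∑ k ∈ layer d n, ‖c k‖ ^ 2 ≤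
      (C1 * (2:ℝ)^(-(r * n)) * ((n:ℝ)+1)^(((d:ℝ)-1)/2) *
        (2:ℝ)^(-(δ * ((n - μs : ℕ) : ℝ))))^2 := by
    intro n
    have hterm : ∀ s ∈ hsplitB d n, a s ^ 2 * ((2:ℝ) ^ (-(δ * (((∑ j, s j) - μs : ℕ) : ℝ)))) ^ 2 ≤
        ((C0 * (2:ℝ) ^ (2 * r * d) * (2:ℝ) ^ (2 * δ * d)) *
          ((2:ℝ)^(-(r * n)) * (2:ℝ)^(-(δ * ((n - μs : ℕ) : ℝ))))) ^ 2 := by
      intro s hs
      unfold hsplitB at hs
      rw [Finset.mem_filter] at hs
      rw [← mul_pow]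
      apply pow_le_pow_left₀ (by have := ha0 s; positivity)
      have e1 : a s ≤ C0 * ((2:ℝ) ^ (2 * r * d) * (2:ℝ)^(-(r * n))) := by
        rw [ha, ← Real.rpow_add (by norm_num)]
        apply mul_le_mul_of_nonneg_left _ hC0.le
        apply Real.rpow_le_rpow_of_exponent_le (by norm_num)
        have h5 : (n:ℝ) ≤ ∑ j, (s j : ℝ) + 2 * d := by
          have := hs.2.1
          exact_mod_cast this
        nlinarith
      have e2 : (2:ℝ) ^ (-(δ * (((∑ j, s j) - μs : ℕ) : ℝ))) ≤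
          (2:ℝ) ^ (2 * δ * d) * (2:ℝ)^(-(δ * ((n - μs : ℕ) : ℝ))) := by
        rw [← Real.rpow_add (by norm_num)]
        apply Real.rpow_le_rpow_of_exponent_le (by norm_num)
        have h5 : ((n - μs : ℕ) : ℝ) ≤ (((∑ j, s j) - μs : ℕ) : ℝ) + 2 * d := by
          have : n - μs ≤ ((∑ j, s j) - μs) + 2 * d := by
            have := hs.2.1
            omega
          exact_mod_cast this
        nlinarith
      calc a s * (2:ℝ) ^ (-(δ * (((∑ j, s j) - μs : ℕ) : ℝ)))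
          ≤ (C0 * ((2:ℝ) ^ (2 * r * d) * (2:ℝ)^(-(r * n)))) *
            ((2:ℝ) ^ (2 * δ * d) * (2:ℝ)^(-(δ * ((n - μs : ℕ) : ℝ)))) :=
            mul_le_mul e1 e2 (by positivity) (by positivity)
        _ = _ := by ring
    calc ∑ k ∈ layer d n, ‖c k‖ ^ 2
        ≤ ∑ k ∈ layer d n, 4^d * ∑ s ∈ hsplitB d n, ‖(a s : ℂ) * fc (χ s) k‖ ^ 2 :=
          Finset.sum_le_sum fun k hk => by rw [hc]; exact hsplit_cs h3 n k hk _
      _ = 4^d * ∑ s ∈ hsplitB d n, a s ^ 2 * ∑ k ∈ layer d n, ‖fc (χ s) k‖ ^ 2 := by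
          rw [← Finset.mul_sum, Finset.sum_comm]
          congr 1
          refine Finset.sum_congr rfl fun s _ => ?_
          rw [Finset.mul_sum]
          refine Finset.sum_congr rfl fun k _ => ?_
          rw [norm_mul, mul_pow, Complex.norm_real, Real.norm_of_nonneg (ha0 s).le]
      _ ≤ 4^d * ∑ s ∈ hsplitB d n, ((C0 * (2:ℝ) ^ (2 * r * d) * (2:ℝ) ^ (2 * δ * d)) *
          ((2:ℝ)^(-(r * n)) * (2:ℝ)^(-(δ * ((n - μs : ℕ) : ℝ))))) ^ 2 := by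
          apply mul_le_mul_of_nonneg_left _ (by positivity)
          refine Finset.sum_le_sum fun s hs => le_trans ?_ (hterm s hs)
          exact mul_le_mul_of_nonneg_left (hbes s _) (by positivity)
      _ = 4^d * (((hsplitB d n).card : ℝ) *
          ((C0 * (2:ℝ) ^ (2 * r * d) * (2:ℝ) ^ (2 * δ * d)) *
          ((2:ℝ)^(-(r * n)) * (2:ℝ)^(-(δ * ((n - μs : ℕ) : ℝ))))) ^ 2) := by
          rw [Finset.sum_const, nsmul_eq_mul]
      _ ≤ 4^d * ((((3 * (d:ℝ) + 1) * ((d:ℝ) + 1)^(d-1))^2 * ((n:ℝ) + 1)^(d-1)) *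
          ((C0 * (2:ℝ) ^ (2 * r * d) * (2:ℝ) ^ (2 * δ * d)) *
          ((2:ℝ)^(-(r * n)) * (2:ℝ)^(-(δ * ((n - μs : ℕ) : ℝ))))) ^ 2) := by
          apply mul_le_mul_of_nonneg_left _ (by positivity)
          apply mul_le_mul_of_nonneg_right _ (by positivity)
          refine (hsplit_card d hd n).trans ?_
          apply mul_le_mul_of_nonneg_right _ (by positivity)
          have h6 : (1:ℝ) ≤ (3 * (d:ℝ) + 1) * ((d:ℝ) + 1)^(d-1) :=
            one_le_mul_of_one_le_of_one_le (by linarith [Nat.cast_nonneg (α := ℝ) d])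
              (one_le_pow₀ (by linarith [Nat.cast_nonneg (α := ℝ) d]))
          exact le_self_pow₀ h6 two_ne_zero
      _ = _ := by
          rw [← hhalf n, hC1e, show (4:ℝ)^d = (2^d)^2 by rw [← pow_mul, mul_comm, pow_mul]; norm_num]
          ring
  have hbd : ∀ n x, ‖poly (split_A c n) x‖ ≤
      (Real.sqrt Cl * C1 * (2:ℝ)^(δ * μs)) * (((n:ℝ)+1)^(2*(d-1)) * ((2:ℝ)^(1/q - r))^n) := by
    intro n x
    refine (x330_poly_le (split_A c n) x).trans ?_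
    rw [split_sq]
    have h5 : Real.sqrt (∑ k ∈ layer d n, ‖c k‖ ^ 2) ≤
        C1 * (2:ℝ)^(-(r * n)) * ((n:ℝ)+1)^(((d:ℝ)-1)/2) * (2:ℝ)^(-(δ * ((n - μs : ℕ) : ℝ))) := by
      rw [Real.sqrt_le_left (by positivity)]
      exact hsq n
    have h5' : ((n:ℝ)+1)^(((d:ℝ)-1)/2) ≤ ((n:ℝ)+1)^(d-1) := by
      have hn1 : (1:ℝ) ≤ (n:ℝ) + 1 := by linarith [Nat.cast_nonneg (α := ℝ) n]
      rw [← Real.rpow_natCast ((n:ℝ)+1) (d-1)]
      apply Real.rpow_le_rpow_of_exponent_le hn1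
      rw [Nat.cast_sub hd]
      have : (1:ℝ) ≤ d := by exact_mod_cast hd
      push_cast
      linarith
    have h6 : Real.sqrt ((layer d n).card) ≤ Real.sqrt Cl * Real.sqrt ((2:ℝ)^n) * ((n:ℝ)+1)^(d-1) := by
      have h3 : Real.sqrt ((layer d n).card) ≤ Real.sqrt (Cl * 2^n * ((n:ℝ)+1)^(d-1)) :=
        Real.sqrt_le_sqrt (hcard n)
      refine h3.trans ?_
      rw [Real.sqrt_mul (by positivity), Real.sqrt_mul hCl.le]
      refine mul_le_mul_of_nonneg_left ?_ (by positivity)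
      rw [Real.sqrt_le_left (by positivity)]
      have h4 : (1:ℝ) ≤ ((n:ℝ)+1)^(d-1) := one_le_pow₀ (by linarith [Nat.cast_nonneg (α := ℝ) n])
      nlinarith
    have h7 : (2:ℝ)^(-(δ * ((n - μs : ℕ) : ℝ))) ≤ (2:ℝ)^(δ * μs) * (2:ℝ)^(-(δ * n)) := by
      rw [← Real.rpow_add (by norm_num)]
      apply Real.rpow_le_rpow_of_exponent_le (by norm_num)
      have h5 : (n:ℝ) ≤ ((n - μs : ℕ) : ℝ) + μs := by
        have : n ≤ (n - μs) + μs := by omega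
        exact_mod_cast this
      nlinarith
    have h8 : Real.sqrt ((2:ℝ)^n) * ((2:ℝ)^(-(r * n)) * (2:ℝ)^(-(δ * n))) = ((2:ℝ)^(1/q - r))^n := by
      rw [← Real.rpow_natCast (2:ℝ) n, Real.sqrt_eq_rpow, ← Real.rpow_mul (by norm_num),
        ← Real.rpow_add (by norm_num), ← Real.rpow_add (by norm_num),
        ← Real.rpow_natCast ((2:ℝ)^(1/q - r)) n, ← Real.rpow_mul (by norm_num)]
      congr 1
      rw [hδe]
      ring
    calc Real.sqrt ((layer d n).card) * Real.sqrt (∑ k ∈ layer d n, ‖c k‖ ^ 2)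
        ≤ (Real.sqrt Cl * Real.sqrt ((2:ℝ)^n) * ((n:ℝ)+1)^(d-1)) *
          (C1 * (2:ℝ)^(-(r * n)) * ((n:ℝ)+1)^(((d:ℝ)-1)/2) *
            (2:ℝ)^(-(δ * ((n - μs : ℕ) : ℝ)))) :=
          mul_le_mul h6 h5 (Real.sqrt_nonneg _) (by positivity)
      _ ≤ (Real.sqrt Cl * Real.sqrt ((2:ℝ)^n) * ((n:ℝ)+1)^(d-1)) *
          (C1 * (2:ℝ)^(-(r * n)) * ((n:ℝ)+1)^(d-1) * ((2:ℝ)^(δ * μs) * (2:ℝ)^(-(δ * n)))) := by
          gcongr
      _ = (Real.sqrt Cl * C1 * (2:ℝ)^(δ * μs)) * (((n:ℝ)+1)^(d-1) * ((n:ℝ)+1)^(d-1) *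
          (Real.sqrt ((2:ℝ)^n) * ((2:ℝ)^(-(r * n)) * (2:ℝ)^(-(δ * n))))) := by ring
      _ = _ := by rw [h8, ← pow_add, two_mul]
  obtain ⟨g, hgi, hgs, hgc⟩ := split_sum c _ ((split_geo (2*(d-1)) q r hr).mul_left _) hbd
  obtain ⟨hτs, hτle⟩ := split_tau_sum (d-1) q r hr μs
  have hτs' : Summable (fun μ : ℕ => ((μ:ℝ)+1)^(d-1) *
      (C0 * (2:ℝ)^(-(r * μ)) * split_tau q μs μ)) := by
    refine (hτs.mul_left C0).congr fun μ => ?_
    ring
  have hacast : ∀ s : Fin d → ℕ, a s = C0 * (2:ℝ)^(-(r * ((∑ j, s j : ℕ) : ℝ))) := by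
    intro s
    rw [ha]
    push_cast
    rfl
  obtain ⟨u, hu1, hu2, hu3⟩ := hsyn (fun s x => (a s : ℂ) * ψ s x)
    (fun μ => C0 * (2:ℝ)^(-(r * μ)) * split_tau q μs μ)
    (fun μ => by have := split_tau_nonneg q μs μ; positivity)
    (fun s => by
      have h5 := split_psi_meas q (φ s) (hφ s).1 μs (∑ j, s j)
      rw [← hψe] at h5
      exact h5.const_mul _)
    (fun s => Filter.Eventually.of_forall fun x => by
      show ‖(a s : ℂ) * ψ s x‖ ≤ C0 * (2:ℝ)^(-(r * ((∑ j, s j : ℕ) : ℝ))) * split_tau q μs (∑ j, s j)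
      rw [norm_mul, Complex.norm_real, Real.norm_of_nonneg (ha0 s).le, ← hacast]
      apply mul_le_mul_of_nonneg_left _ (ha0 s).le
      rw [hψe]
      unfold split_psi
      split_ifs with h
      · exact h
      · rw [norm_zero]; exact split_tau_nonneg q μs _) hτs'
  refine ⟨split_A c, g, ?_, hgs, ?_⟩
  · intro n
    rw [split_sq, ← hδe]
    refine (hsq n).trans ?_
    apply pow_le_pow_left₀ (by positivity)
    have : 0 ≤ Cs * (C0 * C2) := by positivity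
    gcongr
    linarith
  · obtain ⟨-, hfm, hfn, -⟩ := hf
    have hfT : AEStronglyMeasurable f (TP d) := hfm.mono_ac (hsplit_ac d)
    have hfq : MemLp f (ENNReal.ofReal q) (TP d) := ⟨hfT, lt_of_le_of_lt hfn ENNReal.one_lt_top⟩
    have hfi : Integrable f (TP d) := hfq.integrable hqe1
    have hui : Integrable u (TP d) := hu1.integrable le_top
    have hzero := fc_unique (fun x => f x + (-1 : ℂ) * (u x + g x))
      (hfi.add ((hui.add hgi).const_mul _)) (by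
      intro k
      rw [split_fc_add f (fun x => (-1 : ℂ) * (u x + g x)) hfi ((hui.add hgi).const_mul _),
        split_fc_smul, split_fc_add u g hui hgi, hgc, hu3, hc]
      change fc f k + -1 * (∑ s ∈ hsplitS k, (wbl 0 s ∅ k : ℂ) * fc (fun x => (a s : ℂ) * ψ s x) k +
        ∑ s ∈ hsplitS k, (wbl 0 s ∅ k : ℂ) * ((a s : ℂ) * fc (χ s) k)) = 0
      have h5 : ∑ s ∈ hsplitS k, (wbl 0 s ∅ k : ℂ) * fc (fun x => (a s : ℂ) * ψ s x) k +
          ∑ s ∈ hsplitS k, (wbl 0 s ∅ k : ℂ) * ((a s : ℂ) * fc (χ s) k) = fc f k := by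
        rw [← Finset.sum_add_distrib]
        simp only [split_fc_smul, ← mul_add, hfcsum]
        have h6 := hsplit_one h3 h4 k
        have h7 : ∑ s ∈ hsplitS k, (wbl 0 s ∅ k : ℂ) * (blk s k : ℂ) = 1 := by exact_mod_cast h6
        simp only [← mul_assoc]
        rw [← Finset.sum_mul, h7, one_mul]
      rw [h5]
      ring)
    filter_upwards [hzero] with x hx
    have hx' : f x + (-1 : ℂ) * (u x + g x) = 0 := hx
    have hx2 : f x - g x = u x := by linear_combination hx'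
    rw [hx2]
    refine (hu2 x).trans ?_
    have h8 : ∑' μ : ℕ, ((μ:ℝ)+1)^(d-1) * (C0 * (2:ℝ)^(-(r * μ)) * split_tau q μs μ) =
        C0 * ∑' μ : ℕ, ((μ:ℝ)+1)^(d-1) * (2:ℝ)^(-(r * μ)) * split_tau q μs μ := by
      rw [← tsum_mul_left]
      refine tsum_congr fun μ => ?_
      ring
    rw [h8]
    calc Cs * (C0 * ∑' μ : ℕ, ((μ:ℝ)+1)^(d-1) * (2:ℝ)^(-(r * μ)) * split_tau q μs μ)
        ≤ Cs * (C0 * (C2 * (((μs:ℝ)+1)^(d-1) * (2:ℝ)^(-(r * μs))))) := by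
          rw [hC2e]
          exact mul_le_mul_of_nonneg_left (mul_le_mul_of_nonneg_left hτle hC0.le) hCs.le
      _ = (Cs * (C0 * C2)) * (((μs:ℝ)+1)^(d-1) * (2:ℝ)^(-(r * μs))) := by ring
      _ ≤ (C1 + Cs * (C0 * C2)) * (((μs:ℝ)+1)^(d-1) * (2:ℝ)^(-(r * μs))) := by
          apply mul_le_mul_of_nonneg_right _ (by positivity)
          linarith
      _ = _ := by ring

end SmSm
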