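import Pool.Agent.H636R2.SM.SpecP
import Pool.Agent.H636R2.SM.HSPLIT
open MeasureTheory Real ProbabilityTheory
open scoped ENNReal BigOperators

/-! HDEC: decomposition of the functions of the class `H^r_p`, `p ≥ 1`.  helper677. -/

namespace SmSm
open HypVol HypVol.Sol_KX_wf_split HypVol.Sol_KX_ml_bdd MWidth

theorem hdec_op_smul {d : ℕ} (s : Fin d → ℕ) (c : ℂ) (f : (Fin d → ℝ) → ℂ) (x : Fin d → ℝ) :
    op 0 0 s (fun x => c * f x) x = c * op 0 0 s f x := by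
  unfold op
  rw [Finset.mul_sum]
  refine Finset.sum_congr rfl fun k _ => ?_
  rw [split_fc_smul]; ring

theorem hdec_lev {d : ℕ} (μ : ℕ) (s : Fin d → ℕ) : s ∈ lev d μ ↔ ∑ j, s j = μ := by
  unfold lev
  rw [Finset.mem_filter, Fintype.mem_piFinset]
  constructor
  · exact fun h => h.2
  · intro h
    refine ⟨fun j => ?_, h⟩
    rw [Finset.mem_range]
    have : s j ≤ ∑ j, s j := Finset.single_le_sum (f := s) (fun i _ => Nat.zero_le _) (Finset.mem_univ j)
    omega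

theorem hdec_blk {d : ℕ} (h3 : S_VPF) (k : Fin d → ℤ) :
    HasSum (fun μ : ℕ => ∑ s ∈ lev d μ, (blk s k : ℂ)) 1 := by
  classical
  obtain ⟨B, hB⟩ : ∃ B, B = Fintype.piFinset (fun j => Finset.range (Nat.size (k j).natAbs + 1)) :=
    ⟨_, rfl⟩
  obtain ⟨N, hN⟩ : ∃ N, N = ∑ j, Nat.size (k j).natAbs := ⟨_, rfl⟩
  have hmem : ∀ s : Fin d → ℕ, blk s k ≠ 0 → s ∈ B := by
    intro s hs
    rw [hB, Fintype.mem_piFinset]
    intro j
    rw [Finset.mem_range]
    have := (h3.2.2.2 d s k hs j).1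
    omega
  have hle : ∀ s ∈ B, ∑ j, s j ≤ N := by
    intro s hs
    rw [hN]
    refine Finset.sum_le_sum fun j _ => ?_
    rw [hB, Fintype.mem_piFinset] at hs
    have := hs j
    rw [Finset.mem_range] at this
    omega
  have h1 : ∀ μ, ∑ s ∈ lev d μ, (blk s k : ℂ) =
      ∑ s ∈ B.filter (fun s => ∑ j, s j = μ), (blk s k : ℂ) := by
    intro μ
    symm
    refine Finset.sum_subset ?_ ?_
    · intro s hs
      rw [Finset.mem_filter] at hs
      exact (hdec_lev μ s).2 hs.2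
    · intro s hs hs'
      by_contra hne
      apply hs'
      rw [Finset.mem_filter]
      exact ⟨hmem s (fun h => hne (by rw [h]; simp)), (hdec_lev μ s).1 hs⟩
  have h2 : ∑ μ ∈ Finset.range (N+1), ∑ s ∈ B.filter (fun s => ∑ j, s j = μ), (blk s k : ℂ) = 1 := by
    rw [Finset.sum_fiberwise_of_maps_to]
    · rw [hB]; exact_mod_cast h3.2.2.1 d k
    · intro s hs
      rw [Finset.mem_range]
      have := hle s hs
      omega
  have h4 : HasSum (fun μ : ℕ => ∑ s ∈ lev d μ, (blk s k : ℂ))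
      (∑ μ ∈ Finset.range (N+1), ∑ s ∈ lev d μ, (blk s k : ℂ)) := by
    refine hasSum_sum_of_ne_finset_zero ?_
    intro μ hμ
    refine Finset.sum_eq_zero fun s hs => ?_
    by_contra hne
    have hs2 := hle s (hmem s (fun h => hne (by rw [h]; simp)))
    rw [Finset.mem_range] at hμ
    have := (hdec_lev μ s).1 hs
    omega
  rw [Finset.sum_congr rfl fun μ _ => h1 μ, h2] at h4
  exact h4

theorem hdec (h1 : S_JACK) (h2 : S_LSUP) (h3 : S_VPF) : S_HDEC := by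
  intro d hd p r hp hr
  have hp0 : (0:ℝ) < p := by linarith
  have hr0 : 0 < r := lt_trans (by positivity) hr
  have hpe1 : (1 : ℝ≥0∞) ≤ ENNReal.ofReal p := by
    rw [← ENNReal.ofReal_one]
    exact ENNReal.ofReal_le_ofReal hp
  obtain ⟨C0, hC0, hjack⟩ := h1 d r (ENNReal.ofReal p) hr0 hpe1
  obtain ⟨CL, hCL, hsup⟩ := h2 d hd p hp
  refine ⟨C0, hC0, ?_⟩
  intro f hf
  have := TP_prob d
  obtain ⟨a, ha⟩ : ∃ a : ℕ → ℝ, ∀ μ, a μ = C0 * (2:ℝ)^(-(r * μ)) := ⟨_, fun _ => rfl⟩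
  have ha0 : ∀ μ, 0 < a μ := fun μ => by rw [ha]; positivity
  have hopc : ∀ s, Continuous (op 0 0 s f) := fun s => syn_op_cont 0 0 s f
  have hjack' : ∀ s : Fin d → ℕ, eLpNorm (op 0 0 s f) (ENNReal.ofReal p) (TP d) ≤
      ENNReal.ofReal (a (∑ j, s j)) := by
    intro s
    have h5 := hjack f hf s
    rw [ha]
    push_cast
    exact h5
  have hopi : ∀ s, Integrable (op 0 0 s f) (TP d) := fun s =>
    MemLp.integrable hpe1 ⟨(hopc s).aestronglyMeasurable, (hjack' s).trans_lt ENNReal.ofReal_lt_top⟩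
  obtain ⟨L, hL⟩ : ∃ L : ℕ → (Fin d → ℝ) → ℂ, ∀ μ, L μ = fun x => ∑ s ∈ lev d μ, op 0 0 s f x :=
    ⟨_, fun _ => rfl⟩
  obtain ⟨v, hv⟩ : ∃ v : ℕ → (Fin d → ℝ) → ℂ, ∀ μ, v μ = fun x => ∑ s ∈ lev d μ,
    op 0 0 s (fun x => (((a μ)⁻¹ : ℝ) : ℂ) * f x) x := ⟨_, fun _ => rfl⟩
  have hvL : ∀ μ x, ((a μ : ℝ) : ℂ) * v μ x = L μ x := by
    intro μ x
    rw [hv, hL]
    simp only [hdec_op_smul]
    rw [← Finset.mul_sum, ← mul_assoc, ← Complex.ofReal_mul, mul_inv_cancel₀ (ha0 μ).ne',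
      Complex.ofReal_one, one_mul]
  have hvmem : ∀ μ, v μ ∈ LV d p μ := by
    intro μ
    refine ⟨fun _ x => (((a μ)⁻¹ : ℝ) : ℂ) * f x, ?_, hv μ⟩
    intro s hs
    have e : op 0 0 s (fun x => (((a μ)⁻¹ : ℝ) : ℂ) * f x) = (((a μ)⁻¹ : ℝ) : ℂ) • op 0 0 s f := by
      funext x
      rw [hdec_op_smul]; rfl
    rw [e, eLpNorm_const_smul]
    have e2 : ‖(((a μ)⁻¹ : ℝ) : ℂ)‖ₑ = ENNReal.ofReal (a μ)⁻¹ := by
      rw [← ofReal_norm, Complex.norm_real, Real.norm_of_nonneg (inv_pos.2 (ha0 μ)).le]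
    rw [e2]
    have h5 := hjack' s
    rw [(hdec_lev μ s).1 hs] at h5
    calc ENNReal.ofReal (a μ)⁻¹ * eLpNorm (op 0 0 s f) (ENNReal.ofReal p) (TP d)
        ≤ ENNReal.ofReal (a μ)⁻¹ * ENNReal.ofReal (a μ) := by gcongr
      _ = 1 := by
        rw [← ENNReal.ofReal_mul (inv_pos.2 (ha0 μ)).le, inv_mul_cancel₀ (ha0 μ).ne',
          ENNReal.ofReal_one]
  obtain ⟨b, hb⟩ : ∃ b : ℕ → ℝ, ∀ μ, b μ = (C0 * CL) * (((μ:ℝ)+1)^(d-1) * ((2:ℝ)^(1/p - r))^μ) :=
    ⟨_, fun _ => rfl⟩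
  have hbs : Summable b := by
    have := (split_geo (d-1) p r hr).mul_left (C0 * CL)
    exact this.congr fun μ => (hb μ).symm
  have hbd : ∀ μ x, ‖L μ x‖ ≤ b μ := by
    intro μ x
    rw [← hvL, norm_mul, Complex.norm_real, Real.norm_of_nonneg (ha0 μ).le, ha, hb]
    have h5 := (hsup μ (v μ) (hvmem μ)).2 x
    have h6 : (2:ℝ)^(-(r * μ)) * (2:ℝ)^((μ:ℝ)/p) = ((2:ℝ)^(1/p - r))^μ := by
      rw [← Real.rpow_natCast ((2:ℝ)^(1/p - r)) μ, ← Real.rpow_mul (by norm_num),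
        ← Real.rpow_add (by norm_num)]
      congr 1
      ring
    calc C0 * (2:ℝ)^(-(r * μ)) * ‖v μ x‖ ≤ C0 * (2:ℝ)^(-(r * μ)) *
          (CL * ((μ:ℝ)+1)^(d-1) * (2:ℝ)^((μ:ℝ)/p)) := by gcongr
      _ = (C0 * CL) * (((μ:ℝ)+1)^(d-1) * ((2:ℝ)^(-(r * μ)) * (2:ℝ)^((μ:ℝ)/p))) := by ring
      _ = _ := by rw [h6]
  have hLc : ∀ μ, Continuous (L μ) := by
    intro μ
    rw [hL]
    exact continuous_finsetSum _ fun s _ => hopc s
  have hsx : ∀ x, Summable (fun μ => L μ x) := fun x =>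
    Summable.of_norm_bounded hbs (fun μ => hbd μ x)
  obtain ⟨g, hg⟩ : ∃ g : (Fin d → ℝ) → ℂ, ∀ x, g x = ∑' μ, L μ x := ⟨_, fun _ => rfl⟩
  have hgc : Continuous g := by
    rw [funext hg]
    exact continuous_tsum hLc hbs hbd
  have hgb : ∀ x, ‖g x‖ ≤ ∑' μ : ℕ, b μ := by
    intro x
    rw [hg]
    exact tsum_of_norm_bounded hbs.hasSum (fun μ => hbd μ x)
  have hgi : Integrable g (TP d) :=
    Integrable.of_bound hgc.aestronglyMeasurable _ (Filter.Eventually.of_forall hgb)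
  have hfi : Integrable f (TP d) := by
    obtain ⟨-, hfm, hfn, -⟩ := hf
    have hfT : AEStronglyMeasurable f (TP d) := hfm.mono_ac (hsplit_ac d)
    have hfq : MemLp f (ENNReal.ofReal p) (TP d) := ⟨hfT, lt_of_le_of_lt hfn ENNReal.one_lt_top⟩
    exact hfq.integrable hpe1
  have hgf : ∀ k, fc g k = fc f k := by
    intro k
    have hI : ∀ μ, Integrable (fun x => L μ x * wchr (-k) x) (TP d) := fun μ =>
      Integrable.of_bound ((hLc μ).mul (wchr_cont _)).aestronglyMeasurable _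
        (Filter.Eventually.of_forall fun x => by
          rw [norm_mul, wchr_norm, mul_one]
          exact hbd μ x)
    have hnorm : ∀ μ, ∫ x, ‖L μ x * wchr (-k) x‖ ∂(TP d) ≤ b μ := by
      intro μ
      have h1 := integral_mono (hI μ).norm (integrable_const (μ := TP d) (b μ)) (fun x => by
          show ‖L μ x * wchr (-k) x‖ ≤ _
          rw [norm_mul, wchr_norm, mul_one]
          exact hbd μ x)
      simpa using h1
    have hS : Summable (fun μ => ∫ x, ‖L μ x * wchr (-k) x‖ ∂(TP d)) :=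
      Summable.of_nonneg_of_le (fun μ => integral_nonneg fun x => norm_nonneg _) hnorm hbs
    have h5 := hasSum_integral_of_summable_integral_norm hI hS
    have h6 : ∀ μ, ∫ x, L μ x * wchr (-k) x ∂(TP d) = (∑ s ∈ lev d μ, (blk s k : ℂ)) * fc f k := by
      intro μ
      have e : (fun x => L μ x * wchr (-k) x) =
          fun x => ∑ s ∈ lev d μ, op 0 0 s f x * wchr (-k) x := by
        funext x
        rw [hL, Finset.sum_mul]
      rw [e, integral_finsetSum _ fun s _ => split_int_mul _ (hopi s) k, Finset.sum_mul]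
      refine Finset.sum_congr rfl fun s _ => ?_
      rw [← wfc, hsplit_fc_op h3]
    simp only [h6] at h5
    have h7 := (hdec_blk h3 k).mul_right (fc f k)
    have h8 := h5.unique h7
    rw [one_mul] at h8
    rw [← h8, wfc]
    congr 1
    funext x
    rw [hg, tsum_mul_right]
  have hzero := fc_unique (fun x => f x + (-1 : ℂ) * g x)
    (hfi.add (hgi.const_mul _)) (by
    intro k
    rw [split_fc_add f (fun x => (-1 : ℂ) * g x) hfi (hgi.const_mul _),
      split_fc_smul, hgf]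
    ring)
  refine ⟨v, hvmem, ?_⟩
  filter_upwards [hzero] with x hx
  have hx' : f x + (-1 : ℂ) * g x = 0 := hx
  have hx2 : f x = g x := by linear_combination hx'
  rw [hx2, hg]
  have h9 := (hsx x).hasSum
  refine h9.congr_fun ?_
  intro μ
  rw [← hvL, ha]

end SmSm
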