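import Pool.Agent.H636R2.SM.SpecH
import Pool.Agent.H636R2.SM.KMEAN
import Pool.Agent.H636R2.SM.EXA
open MeasureTheory Real ProbabilityTheory
open scoped ENNReal BigOperators ComplexConjugate

namespace SmSm
open HypVol MWidth

theorem hexa_lt {d m : ℕ} {s : Fin d → ℕ} (hs : ∀ j, s j ≤ m) {k : Fin d → ℤ} (hk : k ∈ shb s)
    (j : Fin d) : |k j| ≤ 2 ^ m - 1 := by
  unfold shb at hk
  rw [Fintype.mem_piFinset] at hk
  have h3 := Finset.mem_Ioo.1 (Finset.mem_filter.1 (hk j)).1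
  have h4 : |k j| < 2 ^ (s j) := abs_lt.2 h3
  have h5 : (2 : ℤ) ^ (s j) ≤ 2 ^ m := pow_le_pow_right₀ (by norm_num) (hs j)
  omega

theorem hexa_ne {d : ℕ} {s : Fin d → ℕ} (h1 : 1 ≤ ∑ j, s j) {k : Fin d → ℤ} (hk : k ∈ shb s) :
    k ≠ 0 := by
  rintro rfl
  unfold shb at hk
  rw [Fintype.mem_piFinset] at hk
  have h0 : ∀ j, s j = 0 := by
    intro j
    have := (Finset.mem_filter.1 (hk j)).2
    simpa using this.symm
  rw [Finset.sum_eq_zero (fun j _ => h0 j)] at h1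
  omega

theorem hexa_sum {d m : ℕ} {s : Fin d → ℕ} (hs : ∀ j, s j ≤ m) (h1 : 1 ≤ ∑ j, s j)
    {k : Fin d → ℤ} (hk : k ∈ shb s) (x : Fin d → ℝ) : ∑ y : GG d m, chi k (x - gpt y) = 0 := by
  simp_rw [kmean_chi]
  have hlt : ∀ j, |(-k) j| < 2 ^ (m + 2) := by
    intro j
    have h2 := hexa_lt hs hk j
    have h3 : (2 : ℤ) ^ m ≤ 2 ^ (m + 2) := pow_le_pow_right₀ (by norm_num) (by omega)
    rw [Pi.neg_apply, abs_neg]
    omega
  rw [← Finset.mul_sum, Sol_gtb_facts.h338_Esum (-k) hlt (neg_ne_zero.mpr (hexa_ne h1 hk)), mul_zero]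

theorem hexa_mem {d m : ℕ} {s : Fin d → ℕ} (hs : ∀ j, s j ≤ m) :
    (fun u => ((dker s u : ℝ) : ℂ)) ∈ exaT d (2 ^ m - 1) := by
  classical
  have h1 : (fun u => ((dker s u : ℝ) : ℂ)) = ∑ k ∈ shb s,
      (((1:ℂ) / 2) • chi k + ((1:ℂ) / 2) • chi (-k)) := by
    funext u
    simp only [dker, Finset.sum_apply, Pi.smul_apply, Pi.add_apply, smul_eq_mul]
    push_cast
    refine Finset.sum_congr rfl fun k _ => ?_
    rw [Complex.re_eq_add_conj, exa_conj]
    ring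
  rw [h1]
  refine Submodule.sum_mem _ fun k hk => ?_
  refine Submodule.add_mem _ (Submodule.smul_mem _ _ (exa_mem k (hexa_lt hs hk)))
    (Submodule.smul_mem _ _ (exa_mem (-k) fun j => ?_))
  rw [Pi.neg_apply, abs_neg]
  exact hexa_lt hs hk j

/-- **HEXA** -/
theorem hexa : S_HEXA := by
  intro d _ s m i hs h1 hi
  refine ⟨?_, ?_⟩
  · intro x
    unfold dker
    rw [Finset.sum_comm]
    refine Finset.sum_eq_zero fun k hk => ?_
    rw [← Complex.re_sum, hexa_sum hs h1 hk x, Complex.zero_re]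
  · intro x x'
    have h2 := exa_pow (hexa_mem hs) (2 * i)
    have hD : ((2 * i : ℕ) : ℤ) * (2 ^ m - 1) < 2 ^ (m + 2) := by
      have e1 : (1:ℤ) ≤ 2 ^ m := one_le_pow₀ (by norm_num)
      have e2 : ((2 * i : ℕ) : ℤ) ≤ 4 := by push_cast; omega
      have e3 : ((2 * i : ℕ) : ℤ) * (2 ^ m - 1) ≤ 4 * (2 ^ m - 1) :=
        mul_le_mul_of_nonneg_right e2 (by linarith)
      have e4 : (2:ℤ) ^ (m + 2) = 4 * 2 ^ m := by rw [pow_add]; ring
      rw [e4]; linarith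
    have h3 := exa_sum (m := m) hD h2 x x'
    simp only [Pi.pow_apply] at h3
    apply Complex.ofReal_injective
    push_cast
    exact h3

end SmSm
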