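import Pool.Agent.H636R2.SM.SpecP
import Pool.Agent.H636R2.HE.R4
open MeasureTheory Real ProbabilityTheory
open scoped ENNReal BigOperators

/-!
Exact order of the entropy numbers of `H^r_p`, large smoothness.
-/

namespace SmSm
open HypVol MWidth

theorem hfin_ent {d : ℕ} (k : ℕ) (Θ : Set ((Fin d → ℝ) → ℂ)) :
    entNum ⊤ k Θ = HypVolE.entLp ⊤ k Θ := by
  unfold entNum HypVolE.entLp
  rw [sInf_eq_iInf]
  rfl

theorem hfin_pos (d : ℕ) (r : ℝ) {k : ℕ} (hk : 2 ≤ k) : 0 < psiP d r k := by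
  unfold psiP
  have h1 : (0:ℝ) < k := by exact_mod_cast (by omega : 0 < k)
  have h2 : 0 < Real.log k := Real.log_pos (by exact_mod_cast (by omega : 1 < k))
  positivity

theorem hfin (h : S_FINP) : S_HFIN := by
  intro d hd p r hp hpr hr
  have hr0 : 0 < r := by linarith
  -- lower bound
  have hlow : ∃ c : ℝ, 0 < c ∧ ∀ k : ℕ, 2 ≤ k →
      ENNReal.ofReal (c * psiP d r k) ≤ HypVolE.entLp ⊤ k (HypVolE.HH d r p) := by
    rcases eq_or_ne p ⊤ with rfl | hpt
    · obtain ⟨c, hc, h1⟩ := HypVolE.H_lower_inf d hd r hr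
      refine ⟨c, hc, fun k hk => ?_⟩
      have := h1 k hk
      rwa [mul_assoc] at this
    · have h1p : 1 ≤ p.toReal := by
        rw [← ENNReal.toReal_one]
        exact ENNReal.toReal_mono hpt hp
      obtain ⟨c, hc, h1⟩ := HypVolE.H_lower d hd p.toReal r h1p hr0
      rw [ENNReal.ofReal_toReal hpt] at h1
      refine ⟨c, hc, fun k hk => ?_⟩
      have := h1 k hk
      rwa [mul_assoc] at this
  -- upper bound
  have hupp : ∃ C : ℝ, 0 < C ∧ ∀ k : ℕ, 2 ≤ k →
      entNum ⊤ k (HypVolE.HH d r p) ≤ ENNReal.ofReal (C * psiP d r k) := by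
    rcases le_or_gt 2 p with h2 | h2
    · obtain ⟨c, hc, h1⟩ := HypVolE.H_upper d (by omega) 2 r le_rfl hr
      refine ⟨c, hc, fun k hk => ?_⟩
      have h3 := h1 k hk
      rw [mul_assoc] at h3
      rw [hfin_ent]
      exact (HypVolE.entLp_mono ⊤ k _ _ (HypVolE.HH_mono d r p h2)).trans h3
    · have hpt : p ≠ ⊤ := ne_top_of_lt h2
      have h1p : 1 ≤ p.toReal := by
        rw [← ENNReal.toReal_one]
        exact ENNReal.toReal_mono hpt hp
      have h2p : p.toReal ≤ 2 := by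
        have := ENNReal.toReal_mono (by norm_num : (2 : ℝ≥0∞) ≠ ⊤) h2.le
        simpa using this
      have hpr' : 1 / p.toReal < r := by
        rw [← ENNReal.ofReal_toReal hpt] at hpr
        have e : (1 : ℝ≥0∞) / ENNReal.ofReal p.toReal = ENNReal.ofReal (1 / p.toReal) := by
          rw [ENNReal.ofReal_div_of_pos (by linarith), ENNReal.ofReal_one]
        rw [e] at hpr
        exact (ENNReal.ofReal_lt_ofReal_iff_of_nonneg (by positivity)).1 hpr
      obtain ⟨C, hC, h3⟩ := h d (by omega) p.toReal r h1p h2p hpr'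
      rw [ENNReal.ofReal_toReal hpt] at h3
      refine ⟨C, hC, fun k hk => ?_⟩
      unfold entNum
      refine iInf₂_le _ ⟨?_, h3 k hk⟩
      rw [ENNReal.ofReal_pos]
      exact mul_pos hC (hfin_pos d r hk)
  obtain ⟨c, hc, h1⟩ := hlow
  obtain ⟨C, hC, h2⟩ := hupp
  refine ⟨c, C, hc, hC, fun k hk => ⟨?_, h2 k hk⟩⟩
  have := h1 k hk
  rw [← hfin_ent] at this
  exact this

end SmSm
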