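import Pool.Agent.H636R2.SM.SpecP

set_option autoImplicit false

open MeasureTheory Real ProbabilityTheory
open scoped ENNReal BigOperators

namespace SmSm
open HypVol MWidth

theorem hk0 (h : S_HREAL) : S_HK0 := by
  intro 𝕜 _ d r p ψ hr hψ hS
  obtain ⟨c1, hc1, h1⟩ := hψ
  obtain ⟨c, C, hc, hC, h2⟩ := hS
  refine ⟨c * c1 / 2, C, by positivity, hC, fun k hk => ⟨?_, ?_⟩⟩
  · have h3 := (h 𝕜 d r p hr k).2
    have h4 := (h2 (2 * k) (by omega)).1
    obtain ⟨hpos, h5⟩ := h1 k hk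
    have h6 : ENNReal.ofReal (c * (c1 * ψ k)) ≤ 2 * entNum ⊤ k (HK 𝕜 d r p) := by
      refine le_trans ?_ (h4.trans h3)
      exact ENNReal.ofReal_le_ofReal (mul_le_mul_of_nonneg_left h5 hc.le)
    have h7 : ENNReal.ofReal (c * (c1 * ψ k)) = 2 * ENNReal.ofReal (c * c1 / 2 * ψ k) := by
      rw [show c * (c1 * ψ k) = 2 * (c * c1 / 2 * ψ k) by ring,
        ENNReal.ofReal_mul (by norm_num : (0 : ℝ) ≤ 2)]
      norm_num
    rw [h7] at h6
    exact (ENNReal.mul_le_mul_iff_right (a := 2) (by simp) (by simp)).1 h6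
  · exact ((h 𝕜 d r p hr k).1).trans (h2 k hk).2

end SmSm
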