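import Pool.Agent.H636R2.SM.SpecH
import Pool.Agent.H636R2.HE.E_HH_mem2
open MeasureTheory Real ProbabilityTheory
open scoped ENNReal BigOperators

namespace SmSm
open HypVol MWidth

theorem hmem_cont {d : ℕ} (l : ℕ) (s : Fin d → ℕ) (e : Finset (Fin d))
    (φ : (Fin d → ℝ) → ℂ) : Continuous (wop l s e φ) := by
  unfold wop chi
  refine continuous_finsetSum _ fun k _ => ?_
  fun_prop

theorem hmem_chi {d : ℕ} (k : Fin d → ℤ) (x : Fin d → ℝ) (j : Fin d) :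
    chi k (Function.update x j (x j + 2 * π)) = chi k x := by
  unfold chi
  have e1 : ∑ i, (k i : ℝ) * Function.update x j (x j + 2 * π) i =
      ∑ i, (k i : ℝ) * x i + (k j : ℝ) * (2 * π) := by
    have h : Function.update x j (x j + 2 * π) = fun i => x i + (if i = j then 2 * π else 0) := by
      funext i
      by_cases h : i = j
      · subst h; simp
      · simp [h]
    rw [h]
    simp [mul_add, Finset.sum_add_distrib]
  rw [e1]
  have h : Complex.I * (((∑ i, (k i : ℝ) * x i + (k j : ℝ) * (2 * π) : ℝ)) : ℂ) =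
      Complex.I * ((∑ i, (k i : ℝ) * x i : ℝ) : ℂ) + (k j : ℂ) * (2 * π * Complex.I) := by
    push_cast
    ring
  rw [h, Complex.exp_add, Complex.exp_int_mul_two_pi_mul_I, mul_one]

theorem hmem_per {d : ℕ} (l : ℕ) (s : Fin d → ℕ) (e : Finset (Fin d))
    (φ : (Fin d → ℝ) → ℂ) (x : Fin d → ℝ) (j : Fin d) :
    wop l s e φ (Function.update x j (x j + 2 * π)) = wop l s e φ x := by
  unfold wop
  refine Finset.sum_congr rfl fun k _ => ?_
  rw [hmem_chi]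

theorem hmem_wbl {d : ℕ} (l : ℕ) (s : Fin d → ℕ) (e : Finset (Fin d)) (k : Fin d → ℤ) :
    wbl l s e k = (∏ j ∈ e, ((k j : ℝ) / 2^(s j))^l) * wbl 0 s ∅ k := by
  classical
  unfold wbl
  rw [Finset.prod_mul_distrib, Finset.prod_mul_distrib]
  simp only [Finset.notMem_empty, if_false, Finset.prod_const_one, one_mul]
  congr 1
  rw [Finset.prod_ite_mem, Finset.univ_inter]

theorem hmem_eq {d : ℕ} (l : ℕ) (s : Fin d → ℕ) (e : Finset (Fin d))
    (φ : (Fin d → ℝ) → ℂ) : wop l s e φ = fun x => ∑ i : (boxw s),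
      (((∏ j ∈ e, ((i.1 j : ℝ) / 2^(s j))^l : ℝ) : ℂ) * ((wbl 0 s ∅ i.1 : ℂ) * fc φ i.1)) *
        Complex.exp (Complex.I * ((∑ j, (i.1 j : ℝ) * x j : ℝ) : ℂ)) := by
  funext x
  unfold wop
  rw [← Finset.sum_coe_sort]
  refine Finset.sum_congr rfl fun i _ => ?_
  rw [hmem_wbl l s e, Complex.ofReal_mul]
  unfold chi
  ring

theorem hmem_eq0 {d : ℕ} (s : Fin d → ℕ)
    (φ : (Fin d → ℝ) → ℂ) : wop 0 s ∅ φ = fun x => ∑ i : (boxw s),
      ((wbl 0 s ∅ i.1 : ℂ) * fc φ i.1) *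
        Complex.exp (Complex.I * ((∑ j, (i.1 j : ℝ) * x j : ℝ) : ℂ)) := by
  rw [hmem_eq]
  funext x
  refine Finset.sum_congr rfl fun i _ => ?_
  simp

theorem hmem_mdiff {d : ℕ} (l : ℕ) (s : Fin d → ℕ) (φ : (Fin d → ℝ) → ℂ)
    (A : ℝ) (hA : 0 ≤ A) (h : ∀ e : Finset (Fin d), ∀ x, ‖wop l s e φ x‖ ≤ A)
    (e : Finset (Fin d)) (t : Fin d → ℝ) :
    eLpNorm (HypVolE.mdiff l e t (wop 0 s ∅ φ)) ⊤ (TP d) ≤
      ENNReal.ofReal ((∏ j ∈ e, (min 2 (2^(s j) * |t j|))^l) * A) := by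
  rw [hmem_eq0]
  exact HypVolE.S_mdiff_trig.mdiff_trig (κ := (boxw s)) l s (fun i => i.1)
    (fun i => (wbl 0 s ∅ i.1 : ℂ) * fc φ i.1) ⊤ le_top A hA
    (fun e' => by
      have h' : eLpNorm (wop l s e' φ) ⊤ (TP d) ≤ ENNReal.ofReal A := by
        rw [eLpNorm_exponent_top]
        exact eLpNormEssSup_le_of_ae_bound (Filter.Eventually.of_forall (h e'))
      rw [hmem_eq] at h'
      exact h') e t

theorem hmem_smul {d : ℕ} (l : ℕ) (e : Finset (Fin d)) (t : Fin d → ℝ)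
    (a : ℂ) (g : (Fin d → ℝ) → ℂ) :
    HypVolE.mdiff l e t (fun x => a * g x) = a • HypVolE.mdiff l e t g := by
  funext x
  rw [Pi.smul_apply, smul_eq_mul]
  unfold HypVolE.mdiff
  rw [Finset.mul_sum]
  refine Finset.sum_congr rfl fun ν _ => ?_
  ring

theorem hmem (h1 : S_WB) (h2 : S_SUMS) : S_HMEM := by
  intro d r hr
  set l := ⌊r⌋₊ + 1 with hl
  obtain ⟨C, hC, hwb⟩ := h1 d l
  obtain ⟨C', hC', hsum⟩ := h2 d r hr
  refine ⟨(C * C')⁻¹, by positivity, fun S φ hφm hφ => ?_⟩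
  set c : ℝ := (C * C')⁻¹ with hc
  have hc0 : 0 < c := by positivity
  have hbd : ∀ s ∈ S, ∀ e : Finset (Fin d), ∀ x, ‖wop l s e (φ s) x‖ ≤ C := by
    intro s hs e x
    have := hwb s e (φ s) 1 zero_le_one (hφm s hs) (hφ s hs) x
    rwa [mul_one] at this
  have hest : ∀ (e : Finset (Fin d)) (t : Fin d → ℝ),
      eLpNorm (HypVolE.mdiff l e t (fun x => (c : ℂ) *
        ∑ s ∈ S, (((2:ℝ)^(-(r * ∑ j, (s j : ℝ))) : ℝ) : ℂ) * wop 0 s ∅ (φ s) x)) ⊤ (TP d) ≤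
        ENNReal.ofReal (∏ j ∈ e, |t j| ^ r) := by
    intro e t
    rw [HypVolE.S_HH_mem2.HH2.mdiff_split S l e t (c : ℂ)
      (fun s x => (((2:ℝ)^(-(r * ∑ j, (s j : ℝ))) : ℝ) : ℂ) * wop 0 s ∅ (φ s) x)]
    refine (eLpNorm_sum_le (fun s _ =>
      ((HypVolE.S_HH_mem2.HH2.mdiff_cont l e t _ (continuous_const.mul (hmem_cont 0 s ∅ (φ s)))).const_smul
        (c : ℂ)).aestronglyMeasurable) le_top).trans ?_
    have hs : ∀ s ∈ S, eLpNorm ((c : ℂ) • HypVolE.mdiff l e t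
        (fun x => (((2:ℝ)^(-(r * ∑ j, (s j : ℝ))) : ℝ) : ℂ) * wop 0 s ∅ (φ s) x))
        ⊤ (TP d) ≤ ENNReal.ofReal (c * ((2:ℝ)^(-(r * ∑ j, (s j : ℝ))) *
          ((∏ j ∈ e, (min 2 (2 ^ (s j) * |t j|)) ^ l) * C))) := by
      intro s hs
      have hb := hmem_mdiff l s (φ s) C hC.le (hbd s hs) e t
      have hw0 : 0 < (2:ℝ)^(-(r * ∑ j, (s j : ℝ))) := Real.rpow_pos_of_pos (by norm_num) _
      rw [hmem_smul, smul_smul, eLpNorm_const_smul, ← mul_assoc c, ENNReal.ofReal_mul (by positivity)]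
      have h1 : ‖(c : ℂ) * (((2:ℝ)^(-(r * ∑ j, (s j : ℝ))) : ℝ) : ℂ)‖ₑ =
          ENNReal.ofReal (c * (2:ℝ)^(-(r * ∑ j, (s j : ℝ)))) := by
        rw [← Complex.ofReal_mul, ← ofReal_norm, Complex.norm_real,
          Real.norm_of_nonneg (by positivity)]
      rw [h1]
      gcongr
    refine (Finset.sum_le_sum hs).trans ?_
    rw [← ENNReal.ofReal_sum_of_nonneg (fun s _ => by positivity)]
    refine ENNReal.ofReal_le_ofReal ?_
    have e1 : ∑ s ∈ S, c * ((2:ℝ)^(-(r * ∑ j, (s j : ℝ))) *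
          ((∏ j ∈ e, (min 2 (2 ^ (s j) * |t j|)) ^ l) * C)) =
        (c * C) * ∑ s ∈ S, (2:ℝ)^(-(r * ∑ j, (s j : ℝ))) *
          ∏ j ∈ e, (min 2 ((2:ℝ) ^ (s j) * |t j|)) ^ l := by
      rw [Finset.mul_sum]
      refine Finset.sum_congr rfl fun s _ => ?_
      ring
    rw [e1]
    have hprod : 0 ≤ ∏ j ∈ e, |t j| ^ r := Finset.prod_nonneg fun j _ => by positivity
    calc (c * C) * ∑ s ∈ S, (2:ℝ)^(-(r * ∑ j, (s j : ℝ))) *
          ∏ j ∈ e, (min 2 ((2:ℝ) ^ (s j) * |t j|)) ^ l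
        ≤ (c * C) * (C' * ∏ j ∈ e, |t j| ^ r) :=
          mul_le_mul_of_nonneg_left (hsum S e t) (by positivity)
      _ = (c * (C * C')) * ∏ j ∈ e, |t j| ^ r := by ring
      _ = ∏ j ∈ e, |t j| ^ r := by
          rw [hc, inv_mul_cancel₀ (by positivity), one_mul]
  refine ⟨?_, ?_, ?_, ?_⟩
  · intro x j
    show (c : ℂ) * ∑ s ∈ S, (((2:ℝ)^(-(r * ∑ j, (s j : ℝ))) : ℝ) : ℂ) *
        wop 0 s ∅ (φ s) (Function.update x j (x j + 2 * π))
      = (c : ℂ) * ∑ s ∈ S, (((2:ℝ)^(-(r * ∑ j, (s j : ℝ))) : ℝ) : ℂ) * wop 0 s ∅ (φ s) x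
    congr 1
    exact Finset.sum_congr rfl fun s _ => by rw [hmem_per]
  · exact (continuous_const.mul
      (continuous_finsetSum _ fun s _ => continuous_const.mul (hmem_cont _ _ _ _))).aestronglyMeasurable
  · have h1 := hest ∅ (fun _ => 0)
    rw [HypVolE.S_HH_mem2.HH2.mdiff_empty] at h1
    simpa using h1
  · intro e _ t
    exact hest e t

end SmSm
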