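import Pool.Agent.H636R2.SM.SpecH
import Pool.Agent.H636R2.SM.ROW
import Pool.Agent.MWidth.L_crs_kernel
open MeasureTheory Real ProbabilityTheory
open scoped ENNReal BigOperators

namespace SmSm
open HypVol MWidth

/-! Task HMOM (helper202): moments of the block kernels on the grid. -/

theorem hmom_filter (s m : ℕ) (h : s ≤ m) :
    (Finset.Ioo (-(2:ℤ)^s) ((2:ℤ)^s)).filter (fun k => Nat.size k.natAbs = s) =
    (Finset.Ioo (-(2:ℤ)^m) ((2:ℤ)^m)).filter (fun k => Nat.size k.natAbs = s) := by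
  ext k
  simp only [Finset.mem_filter, Finset.mem_Ioo]
  constructor
  · rintro ⟨⟨h1, h2⟩, h3⟩
    have : (2:ℤ)^s ≤ 2^m := pow_le_pow_right₀ (by norm_num) h
    exact ⟨⟨by linarith, by linarith⟩, h3⟩
  · rintro ⟨_, h3⟩
    have h4 : k.natAbs < 2^s := Nat.size_le.1 h3.le
    have h5 : ((k.natAbs : ℕ):ℤ) < 2^s := by exact_mod_cast h4
    rw [Int.natCast_natAbs, abs_lt] at h5
    exact ⟨h5, h3⟩

theorem hmom_chi {d m : ℕ} (k : Fin d → ℤ) (x y : GG d m) :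
    chi k (gpt x - gpt y) = ∏ j, Complex.exp (Complex.I *
      ((2 * π * ((k j : ℤ):ℝ) * (((x j:ℕ):ℝ) - ((y j:ℕ):ℝ)) / 2^(m+2) : ℝ) : ℂ)) := by
  unfold chi
  rw [← Complex.exp_sum]
  congr 1
  rw [Complex.ofReal_sum, Finset.mul_sum]
  refine Finset.sum_congr rfl fun j _ => ?_
  congr 2
  simp only [gpt, Pi.sub_apply]
  ring

theorem hmom_ker {d m : ℕ} (s : Fin d → ℕ) (hs : ∀ j, s j ≤ m) (x y : GG d m) :
    |dker s (gpt x - gpt y)| ≤ ∏ j, (2:ℝ)^(min (s j) (T1 m (x j) (y j))) := by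
  have h1 : dker s (gpt x - gpt y) = (∑ k ∈ shb s, chi k (gpt x - gpt y)).re := by
    unfold dker
    rw [Complex.re_sum]
  have h2 : ∑ k ∈ shb s, chi k (gpt x - gpt y) = ∏ j, ∑ k ∈ (Finset.Ioo (-(2:ℤ)^m) ((2:ℤ)^m)).filter
      (fun k => Nat.size k.natAbs = s j), Complex.exp (Complex.I *
      ((2 * π * (k:ℝ) * (((x j:ℕ):ℝ) - ((y j:ℕ):ℝ)) / 2^(m+2) : ℝ) : ℂ)) := by
    rw [Finset.prod_univ_sum]
    have h3 : shb s = Fintype.piFinset (fun j => (Finset.Ioo (-(2:ℤ)^m) ((2:ℤ)^m)).filter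
        (fun k => Nat.size k.natAbs = s j)) := by
      unfold shb
      congr 1
      funext j
      exact hmom_filter (s j) m (hs j)
    rw [h3]
    exact Finset.sum_congr rfl fun k _ => hmom_chi k x y
  rw [h1]
  refine (Complex.abs_re_le_norm _).trans ?_
  rw [h2, norm_prod]
  exact Finset.prod_le_prod (fun j _ => norm_nonneg _)
    fun j _ => Sol_crs_kernel.ck_block_bound m (s j) (hs j) (x j) (y j)

theorem hmom_geom (s N : ℕ) : ∑ t ∈ Finset.range N, (1/2:ℝ)^((s - t) + (t - s)) ≤ 4 := by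
  have h1 : ∑ t ∈ Finset.range N, (1/2:ℝ)^((s - t) + (t - s)) ≤
      ∑ t ∈ Finset.range ((s + 1) + N), (1/2:ℝ)^((s - t) + (t - s)) := by
    apply Finset.sum_le_sum_of_subset_of_nonneg
    · intro t ht
      rw [Finset.mem_range] at *
      omega
    · intro t _ _; positivity
  refine h1.trans ?_
  rw [Finset.sum_range_add]
  have h2 : ∑ t ∈ Finset.range (s + 1), (1/2:ℝ)^((s - t) + (t - s)) ≤ 2 := by
    have h3 : ∑ t ∈ Finset.range (s + 1), (1/2:ℝ)^((s - t) + (t - s)) =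
        ∑ t ∈ Finset.range (s + 1), (1/2:ℝ)^(s + 1 - 1 - t) := by
      refine Finset.sum_congr rfl fun t ht => ?_
      rw [Finset.mem_range] at ht
      congr 1
      omega
    rw [h3, Finset.sum_range_reflect (fun j => (1/2:ℝ)^j) (s + 1)]
    exact sum_geometric_two_le (s + 1)
  have h4 : ∑ t ∈ Finset.range N, (1/2:ℝ)^((s - (s + 1 + t)) + ((s + 1 + t) - s)) ≤ 2 := by
    refine le_trans (Finset.sum_le_sum fun t _ => ?_) (sum_geometric_two_le N)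
    have h5 : (s - (s + 1 + t)) + ((s + 1 + t) - s) = t + 1 := by omega
    rw [h5, pow_succ]
    have : (0:ℝ) < (1/2)^t := by positivity
    linarith
  linarith

theorem hmom_one (i s N : ℕ) (hi : 1 ≤ i) :
    ∑ t : Fin N, (1/2:ℝ)^((t : Fin N) : ℕ) * ((2:ℝ)^(min s (t : ℕ)))^(2*i) ≤
      4 * (2:ℝ)^((2*i-1) * s) := by
  have h1 : ∀ t : ℕ, (1/2:ℝ)^t * ((2:ℝ)^(min s t))^(2*i) ≤
      (2:ℝ)^((2*i-1) * s) * (1/2:ℝ)^((s - t) + (t - s)) := by
    intro t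
    obtain ⟨k, rfl⟩ : ∃ k, i = k + 1 := ⟨i - 1, by omega⟩
    have e0 : 2 * (k + 1) - 1 = 2 * k + 1 := by omega
    rw [e0]
    rcases le_total s t with h | h
    · obtain ⟨u, rfl⟩ := Nat.exists_eq_add_of_le h
      rw [min_eq_left h]
      have e1 : s - (s + u) + (s + u - s) = u := by omega
      rw [e1]
      apply le_of_eq
      rw [pow_add, ← pow_mul]
      have e2 : s * (2 * (k + 1)) = (2 * k + 1) * s + s := by ring
      rw [e2, pow_add]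
      have e3 : (1/2:ℝ)^s * (2:ℝ)^s = 1 := by rw [← mul_pow]; norm_num
      calc (1/2:ℝ)^s * (1/2)^u * (2^((2 * k + 1) * s) * 2^s) =
          ((1/2:ℝ)^s * 2^s) * ((2:ℝ)^((2 * k + 1) * s) * (1/2)^u) := by ring
        _ = _ := by rw [e3, one_mul]
    · obtain ⟨u, rfl⟩ := Nat.exists_eq_add_of_le h
      rw [min_eq_right h]
      have e1 : t + u - t + (t - (t + u)) = u := by omega
      rw [e1, ← pow_mul]
      have e2 : t * (2 * (k + 1)) = (2 * k + 1) * t + t := by ring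
      rw [e2, pow_add]
      have e3 : (1/2:ℝ)^t * (2:ℝ)^t = 1 := by rw [← mul_pow]; norm_num
      have e4 : (1:ℝ) ≤ (2:ℝ)^((2 * k + 1) * u) * (1/2)^u := by
        rw [pow_mul, ← mul_pow]
        apply one_le_pow₀
        have : (2:ℝ)^(2 * k + 1) = 2 * 2^(2*k) := by rw [pow_succ]; ring
        rw [this]
        have h5 : (1:ℝ) ≤ 2^(2*k) := one_le_pow₀ (by norm_num)
        linarith
      calc (1/2:ℝ)^t * (2^((2 * k + 1) * t) * 2^t) = ((1/2:ℝ)^t * 2^t) * (2:ℝ)^((2 * k + 1) * t) := by ring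
        _ = (2:ℝ)^((2 * k + 1) * t) * 1 := by rw [e3, one_mul, mul_one]
        _ ≤ (2:ℝ)^((2 * k + 1) * t) * ((2:ℝ)^((2 * k + 1) * u) * (1/2)^u) :=
            mul_le_mul_of_nonneg_left e4 (by positivity)
        _ = (2:ℝ)^((2 * k + 1) * (t + u)) * (1/2)^u := by rw [mul_add, pow_add]; ring
  rw [Fin.sum_univ_eq_sum_range (fun t => (1/2:ℝ)^t * ((2:ℝ)^(min s t))^(2*i)) N]
  calc ∑ t ∈ Finset.range N, (1/2:ℝ)^t * ((2:ℝ)^(min s t))^(2*i)
      ≤ ∑ t ∈ Finset.range N, (2:ℝ)^((2*i-1) * s) * (1/2:ℝ)^((s - t) + (t - s)) :=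
        Finset.sum_le_sum fun t _ => h1 t
    _ = (2:ℝ)^((2*i-1) * s) * ∑ t ∈ Finset.range N, (1/2:ℝ)^((s - t) + (t - s)) := by
        rw [Finset.mul_sum]
    _ ≤ (2:ℝ)^((2*i-1) * s) * 4 := mul_le_mul_of_nonneg_left (hmom_geom s N) (by positivity)
    _ = 4 * (2:ℝ)^((2*i-1) * s) := by ring

theorem hmom : S_HMOM := by
  intro d i hd hi
  refine ⟨4 ^ d * 4 ^ d, by positivity, fun s m hs x => ?_⟩
  have e1 : ∀ y : GG d m, (dker s (gpt x - gpt y))^(2*i) ≤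
      (∏ j, (2:ℝ)^(min (s j) (T1 m (x j) (y j))))^(2*i) := by
    intro y
    have h := pow_le_pow_left₀ (abs_nonneg _) (hmom_ker s hs x y) (2*i)
    have h2 : |dker s (gpt x - gpt y)|^(2*i) = (dker s (gpt x - gpt y))^(2*i) := by
      rw [pow_mul, pow_mul, sq_abs]
    rw [← h2]
    exact h
  have e2 := row d m x (fun T => (∏ j, (2:ℝ)^(min (s j) (T j)))^(2*i)) (fun T => by positivity)
  have e3 : ∑ T : Fin d → Fin (m+3), (1/2:ℝ)^(∑ j, ((T j : Fin (m+3)) : ℕ)) *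
      (∏ j, (2:ℝ)^(min (s j) (T j : ℕ)))^(2*i) ≤ 4 ^ d * (2:ℝ)^((2*i-1) * ∑ j, s j) := by
    have h1 : ∑ T : Fin d → Fin (m+3), (1/2:ℝ)^(∑ j, ((T j : Fin (m+3)) : ℕ)) *
        (∏ j, (2:ℝ)^(min (s j) (T j : ℕ)))^(2*i) =
        ∏ j, ∑ t : Fin (m+3), (1/2:ℝ)^((t : Fin (m+3)) : ℕ) * ((2:ℝ)^(min (s j) (t : ℕ)))^(2*i) := by
      rw [Finset.prod_univ_sum, Fintype.piFinset_univ]
      refine Finset.sum_congr rfl fun T _ => ?_
      rw [Finset.prod_mul_distrib, ← Finset.prod_pow_eq_pow_sum, Finset.prod_pow]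
    rw [h1]
    calc ∏ j, ∑ t : Fin (m+3), (1/2:ℝ)^((t : Fin (m+3)) : ℕ) * ((2:ℝ)^(min (s j) (t : ℕ)))^(2*i)
        ≤ ∏ j, (4 * (2:ℝ)^((2*i-1) * s j)) :=
          Finset.prod_le_prod (fun j _ => Finset.sum_nonneg fun t _ => by positivity)
            fun j _ => hmom_one i (s j) (m+3) hi
      _ = 4 ^ d * (2:ℝ)^((2*i-1) * ∑ j, s j) := by
          rw [Finset.prod_mul_distrib, Finset.prod_const, Finset.card_univ, Fintype.card_fin,
            Finset.prod_pow_eq_pow_sum, Finset.mul_sum]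
  calc ∑ y : GG d m, (dker s (gpt x - gpt y))^(2*i)
      ≤ ∑ y : GG d m, (∏ j, (2:ℝ)^(min (s j) (T1 m (x j) (y j))))^(2*i) :=
        Finset.sum_le_sum fun y _ => e1 y
    _ ≤ ((2:ℝ)^(m+2))^d * 4^d * ∑ T : Fin d → Fin (m+3), (1/2:ℝ)^(∑ j, ((T j : Fin (m+3)) : ℕ)) *
      (∏ j, (2:ℝ)^(min (s j) (T j : ℕ)))^(2*i) := e2
    _ ≤ ((2:ℝ)^(m+2))^d * 4^d * (4 ^ d * (2:ℝ)^((2*i-1) * ∑ j, s j)) :=
        mul_le_mul_of_nonneg_left e3 (by positivity)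
    _ = 4 ^ d * 4 ^ d * ((2:ℝ)^(m+2))^d * (2:ℝ)^((2*i-1) * ∑ j, s j) := by ring

end SmSm
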