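import Pool.Agent.H636R2.SM.SpecH
open MeasureTheory Real ProbabilityTheory
open scoped ENNReal BigOperators ComplexConjugate

namespace SmSm
open HypVol MWidth

theorem hphi_card (d m : ℕ) : (Fintype.card (GG d m) : ℝ) = ((2:ℝ)^(m+2))^d := by
  simp [GG]

/-- **HPHI** -/
theorem hphi (h1 : S_MOM) (h2 : S_HMOM) (h3 : S_HEXA) : S_HPHI := by
  intro d hd
  obtain ⟨C1, hC1, hm1⟩ := h2 d 1 hd le_rfl
  obtain ⟨C2, hC2, hm2⟩ := h2 d 2 hd (by norm_num)
  obtain ⟨C, hC, hmom⟩ := h1 2 (C1 + C2) (by positivity)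
  refine ⟨C, hC, ?_⟩
  intro s m M hs hs1 hM x
  set μ : ℕ := ∑ j, s j with hμ
  have hMr : (2:ℝ)^μ ≤ M := by exact_mod_cast hM
  have hM0 : (0:ℝ) < M := lt_of_lt_of_le (by positivity) hMr
  set D : ℝ := M * 2^μ with hD
  have hD0 : 0 < D := by positivity
  have hsq : Real.sqrt D ^ 2 = D := Real.sq_sqrt hD0.le
  have hsq4 : Real.sqrt D ^ 4 = D^2 := by
    rw [show (4:ℕ) = 2 * 2 by norm_num, pow_mul, hsq]
  set x0 : GG d m := fun _ => ⟨0, by positivity⟩ with hx0
  set G : ℝ := ((2:ℝ)^(m+2))^d with hG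
  have hG0 : 0 < G := by positivity
  have hex1 : ∑ y : GG d m, (dker s (x - gpt y))^2 ≤ C1 * G * 2^μ := by
    have e1 := (h3 d hd s m 1 hs hs1 (by norm_num)).2 x (gpt x0)
    have e2 := hm1 s m hs x0
    simp only [mul_one] at e1 e2
    rw [e1]
    simpa using e2
  have hex2 : ∑ y : GG d m, (dker s (x - gpt y))^4 ≤ C2 * G * 2^(3*μ) := by
    have e1 := (h3 d hd s m 2 hs hs1 le_rfl).2 x (gpt x0)
    have e2 := hm2 s m hs x0
    norm_num at e1 e2
    rw [e1]
    exact e2
  have key := hmom (GG d m) (fun y => dker s (x - gpt y) / Real.sqrt D) M (by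
      rw [← Finset.sum_div, (h3 d hd s m 1 hs hs1 (by norm_num)).1 x, zero_div]) (by
      intro i hi1 hi2
      rw [hphi_card]
      simp_rw [div_pow]
      rw [← Finset.sum_div]
      interval_cases i
      · rw [mul_one, hsq]
        rw [mul_div_assoc', div_le_iff₀ hD0]
        calc (M:ℝ) * ∑ y : GG d m, (dker s (x - gpt y))^2 ≤ M * (C1 * G * 2^μ) :=
              mul_le_mul_of_nonneg_left hex1 hM0.le
          _ = C1 * G * D := by rw [hD]; ring
          _ ≤ (C1 + C2) * G * D := by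
              have : 0 ≤ C2 * G * D := by positivity
              linarith
      · norm_num
        rw [hsq4, mul_div_assoc', div_le_iff₀ (by positivity)]
        have e3 : (2:ℝ)^(3*μ) = 2^μ * 2^μ * 2^μ := by rw [← pow_add, ← pow_add]; congr 1; ring
        calc (M:ℝ) * ∑ y : GG d m, (dker s (x - gpt y))^4 ≤ M * (C2 * G * 2^(3*μ)) :=
              mul_le_mul_of_nonneg_left hex2 hM0.le
          _ = C2 * G * (D * (2^μ * 2^μ)) := by rw [hD, e3]; ring
          _ ≤ C2 * G * (D * (M * 2^μ)) := by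
              refine mul_le_mul_of_nonneg_left (mul_le_mul_of_nonneg_left ?_ hD0.le) (by positivity)
              exact mul_le_mul_of_nonneg_right hMr (by positivity)
          _ = C2 * G * D^2 := by rw [← hD]; ring
          _ ≤ (C1 + C2) * G * D^2 := by
              have : 0 ≤ C1 * G * D^2 := by positivity
              linarith)
  norm_num at key
  have e4 : ∀ X : Fin M → GG d m, (∑ i, dker s (x - gpt (X i)))^4 =
      D^2 * (∑ i, dker s (x - gpt (X i)) / Real.sqrt D)^4 := by
    intro X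
    rw [← Finset.sum_div, div_pow, hsq4]
    field_simp
  simp_rw [e4]
  rw [← Finset.mul_sum]
  have hcard : (Fintype.card (GG d m) : ℝ)^M = (((2:ℝ)^(m+2))^d)^M := by rw [hphi_card]
  rw [hcard, ← hG]
  calc D^2 * ∑ X : Fin M → GG d m, (∑ i, dker s (x - gpt (X i)) / Real.sqrt D)^4
      ≤ D^2 * (C * G^M) := mul_le_mul_of_nonneg_left key (by positivity)
    _ = C * G^M * D^2 := by ring

end SmSm
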