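import Pool.Agent.H636R2.SM.SpecP
import Pool.Agent.KX.L_ml_bdd
open MeasureTheory Real ProbabilityTheory
open scoped ENNReal BigOperators

namespace SmSm
open HypVol MWidth

section
variable {𝕜 : Type} [RCLike 𝕜]

/-- projection of complex numbers to `𝕜` -/
noncomputable def hreal_fr (z : ℂ) : 𝕜 := ((z.re : ℝ) : 𝕜) + ((z.im : ℝ) : 𝕜) * RCLike.I

theorem hreal_toC_add (a b : 𝕜) : toC (a + b) = toC a + toC b := by
  unfold toC
  rw [map_add, map_add]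
  push_cast
  ring

theorem hreal_toC_sub (a b : 𝕜) : toC (a - b) = toC a - toC b := by
  unfold toC
  rw [map_sub, map_sub]
  push_cast
  ring

theorem hreal_toC_mul (c : ℝ) (z : 𝕜) : toC ((c : 𝕜) * z) = (c : ℂ) * toC z := by
  unfold toC
  rw [RCLike.re_ofReal_mul, RCLike.im_ofReal_mul]
  push_cast
  ring

theorem hreal_toC_zero : toC (0 : 𝕜) = 0 := by
  unfold toC
  simp

theorem hreal_toC_sum {ι : Type} (s : Finset ι) (f : ι → 𝕜) :
    toC (∑ i ∈ s, f i) = ∑ i ∈ s, toC (f i) := by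
  classical
  induction s using Finset.induction_on with
  | empty => simp [hreal_toC_zero]
  | insert a s ha ih => rw [Finset.sum_insert ha, Finset.sum_insert ha, hreal_toC_add, ih]

theorem hreal_norm_toC (z : 𝕜) : ‖toC z‖ = ‖z‖ := HypVol.Sol_KX_ml_bdd.x330_norm_toC z

theorem hreal_fr_toC (z : 𝕜) : hreal_fr (toC z) = z := by
  unfold hreal_fr toC
  simp only [Complex.add_re, Complex.ofReal_re, Complex.mul_re, Complex.I_re, mul_zero,
    Complex.ofReal_im, Complex.I_im, mul_one, sub_self, add_zero, Complex.add_im, Complex.mul_im,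
    zero_add]
  exact RCLike.re_add_im z

theorem hreal_fr_sub (z w : ℂ) : (hreal_fr (z - w) : 𝕜) = hreal_fr z - hreal_fr w := by
  unfold hreal_fr
  rw [Complex.sub_re, Complex.sub_im]
  push_cast
  ring

theorem hreal_norm_fr (z : ℂ) : ‖(hreal_fr z : 𝕜)‖ ≤ ‖z‖ := by
  have h1 : ‖(hreal_fr z : 𝕜)‖ ^ 2 ≤ ‖z‖ ^ 2 := by
    rw [← RCLike.normSq_eq_def', RCLike.normSq_apply, ← Complex.normSq_eq_norm_sq,
      Complex.normSq_apply]
    unfold hreal_fr
    have hI : RCLike.im (RCLike.I : 𝕜) * RCLike.im (RCLike.I : 𝕜) = RCLike.im (RCLike.I : 𝕜) :=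
      RCLike.I_im _
    have hI2 : RCLike.im (RCLike.I : 𝕜) * RCLike.im (RCLike.I : 𝕜) ≤ 1 := by nlinarith [hI]
    simp only [map_add, RCLike.ofReal_re, RCLike.re_ofReal_mul, RCLike.I_re, mul_zero, add_zero,
      RCLike.ofReal_im, RCLike.im_ofReal_mul, zero_add]
    nlinarith [mul_le_mul_of_nonneg_left hI2 (mul_self_nonneg z.im)]
  exact (sq_le_sq₀ (norm_nonneg _) (norm_nonneg _)).1 h1

theorem hreal_cont_toC : Continuous (toC : 𝕜 → ℂ) := by
  unfold toC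
  exact (Complex.continuous_ofReal.comp RCLike.continuous_re).add
    ((Complex.continuous_ofReal.comp RCLike.continuous_im).mul continuous_const)

theorem hreal_cont_fr : Continuous (hreal_fr : ℂ → 𝕜) := by
  unfold hreal_fr
  exact (RCLike.continuous_ofReal.comp Complex.continuous_re).add
    ((RCLike.continuous_ofReal.comp Complex.continuous_im).mul continuous_const)

/-- the real coefficient of the mixed difference -/
noncomputable def hreal_co {d : ℕ} (l : ℕ) (e : Finset (Fin d)) (ν : Fin d → ℕ) : ℝ :=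
  ∏ j ∈ e, ((-1 : ℝ)^(l - ν j) * ((l.choose (ν j) : ℕ) : ℝ))

theorem hreal_mdK {d : ℕ} (l : ℕ) (e : Finset (Fin d)) (t : Fin d → ℝ)
    (f : (Fin d → ℝ) → 𝕜) (x : Fin d → ℝ) : mdK l e t f x =
    ∑ ν ∈ Fintype.piFinset (fun j : Fin d => if j ∈ e then Finset.range (l + 1) else {0}),
      ((hreal_co l e ν : ℝ) : 𝕜) * f (fun j => x j + (ν j : ℝ) * t j) := by
  unfold mdK
  refine Finset.sum_congr rfl fun ν _ => ?_
  congr 1
  unfold hreal_co
  push_cast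
  rfl

theorem hreal_mdiff {d : ℕ} (l : ℕ) (e : Finset (Fin d)) (t : Fin d → ℝ)
    (f : (Fin d → ℝ) → ℂ) (x : Fin d → ℝ) : HypVolE.mdiff l e t f x =
    ∑ ν ∈ Fintype.piFinset (fun j : Fin d => if j ∈ e then Finset.range (l + 1) else {0}),
      ((hreal_co l e ν : ℝ) : ℂ) * f (fun j => x j + (ν j : ℝ) * t j) := by
  unfold HypVolE.mdiff
  refine Finset.sum_congr rfl fun ν _ => ?_
  congr 1
  unfold hreal_co
  push_cast
  rfl

theorem hreal_mdiff_toC {d : ℕ} (l : ℕ) (e : Finset (Fin d)) (t : Fin d → ℝ)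
    (f : (Fin d → ℝ) → 𝕜) (x : Fin d → ℝ) :
    HypVolE.mdiff l e t (fun y => toC (f y)) x = toC (mdK l e t f x) := by
  rw [hreal_mdiff, hreal_mdK, hreal_toC_sum]
  refine Finset.sum_congr rfl fun ν _ => ?_
  rw [hreal_toC_mul]

theorem hreal_mdK_re {d : ℕ} (l : ℕ) (e : Finset (Fin d)) (t : Fin d → ℝ)
    (f : (Fin d → ℝ) → ℂ) (x : Fin d → ℝ) :
    mdK l e t (fun y => (((f y).re : ℝ) : 𝕜)) x = (((HypVolE.mdiff l e t f x).re : ℝ) : 𝕜) := by
  rw [hreal_mdiff, hreal_mdK, Complex.re_sum, RCLike.ofReal_sum]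
  refine Finset.sum_congr rfl fun ν _ => ?_
  rw [Complex.re_ofReal_mul, RCLike.ofReal_mul]

theorem hreal_mdK_im {d : ℕ} (l : ℕ) (e : Finset (Fin d)) (t : Fin d → ℝ)
    (f : (Fin d → ℝ) → ℂ) (x : Fin d → ℝ) :
    mdK l e t (fun y => (((f y).im : ℝ) : 𝕜)) x = (((HypVolE.mdiff l e t f x).im : ℝ) : 𝕜) := by
  rw [hreal_mdiff, hreal_mdK, Complex.im_sum, RCLike.ofReal_sum]
  refine Finset.sum_congr rfl fun ν _ => ?_
  rw [Complex.im_ofReal_mul, RCLike.ofReal_mul]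

theorem hreal_mem1 {d : ℕ} {r : ℝ} {p : ℝ≥0∞} {f : (Fin d → ℝ) → 𝕜} (hf : f ∈ HK 𝕜 d r p) :
    (fun x => toC (f x)) ∈ HypVolE.HH d r p := by
  obtain ⟨h1, h2, h3, h4⟩ := hf
  refine ⟨fun x j => congrArg toC (h1 x j), hreal_cont_toC.comp_aestronglyMeasurable h2, ?_, ?_⟩
  · refine le_trans (le_of_eq (eLpNorm_congr_norm_ae ?_)) h3
    exact Filter.Eventually.of_forall fun x => hreal_norm_toC (f x)
  · intro e he t
    refine le_trans (le_of_eq (eLpNorm_congr_norm_ae ?_)) (h4 e he t)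
    exact Filter.Eventually.of_forall fun x => by
      rw [hreal_mdiff_toC, hreal_norm_toC]

theorem hreal_mem_re {d : ℕ} {r : ℝ} {p : ℝ≥0∞} {f : (Fin d → ℝ) → ℂ}
    (hf : f ∈ HypVolE.HH d r p) : (fun x => (((f x).re : ℝ) : 𝕜)) ∈ HK 𝕜 d r p := by
  obtain ⟨h1, h2, h3, h4⟩ := hf
  refine ⟨fun x j => congrArg (fun z : ℂ => ((z.re : ℝ) : 𝕜)) (h1 x j), (RCLike.continuous_ofReal.comp
    Complex.continuous_re).comp_aestronglyMeasurable h2, ?_, ?_⟩
  · refine le_trans (eLpNorm_mono fun x => ?_) h3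
    rw [RCLike.norm_ofReal]; exact Complex.abs_re_le_norm _
  · intro e he t
    refine le_trans (eLpNorm_mono fun x => ?_) (h4 e he t)
    rw [hreal_mdK_re, RCLike.norm_ofReal]; exact Complex.abs_re_le_norm _

theorem hreal_mem_im {d : ℕ} {r : ℝ} {p : ℝ≥0∞} {f : (Fin d → ℝ) → ℂ}
    (hf : f ∈ HypVolE.HH d r p) : (fun x => (((f x).im : ℝ) : 𝕜)) ∈ HK 𝕜 d r p := by
  obtain ⟨h1, h2, h3, h4⟩ := hf
  refine ⟨fun x j => congrArg (fun z : ℂ => ((z.im : ℝ) : 𝕜)) (h1 x j), (RCLike.continuous_ofReal.comp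
    Complex.continuous_im).comp_aestronglyMeasurable h2, ?_, ?_⟩
  · refine le_trans (eLpNorm_mono fun x => ?_) h3
    rw [RCLike.norm_ofReal]; exact Complex.abs_im_le_norm _
  · intro e he t
    refine le_trans (eLpNorm_mono fun x => ?_) (h4 e he t)
    rw [hreal_mdK_im, RCLike.norm_ofReal]; exact Complex.abs_im_le_norm _

theorem hreal_cov1 {d : ℕ} {r : ℝ} {p : ℝ≥0∞} {k : ℕ} {ε : ℝ≥0∞}
    (h : Cov ⊤ k ε (HypVolE.HH d r p)) : Cov ⊤ k ε (HK 𝕜 d r p) := by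
  obtain ⟨c, hc, hcov⟩ := h
  refine ⟨fun j x => hreal_fr (c j x), fun j => ?_, fun f hf => ?_⟩
  · refine (hc j).of_le (hreal_cont_fr.comp_aestronglyMeasurable (hc j).1)
      (Filter.Eventually.of_forall fun x => hreal_norm_fr _)
  · obtain ⟨j, hj⟩ := hcov _ (hreal_mem1 hf)
    refine ⟨j, le_trans (eLpNorm_mono fun x => ?_) hj⟩
    have e1 : f x - hreal_fr (c j x) = hreal_fr (toC (f x) - c j x) := by
      rw [hreal_fr_sub, hreal_fr_toC]
    rw [e1]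
    exact hreal_norm_fr _

theorem hreal_cov2 {d : ℕ} {r : ℝ} {p : ℝ≥0∞} {k : ℕ} {ε : ℝ≥0∞}
    (h : Cov ⊤ k ε (HK 𝕜 d r p)) : Cov ⊤ (2 * k) (ε * 2) (HypVolE.HH d r p) := by
  obtain ⟨c, hc, hcov⟩ := h
  have hcard : 2 ^ k * 2 ^ k = 2 ^ (2 * k) := by rw [← pow_add]; congr 1; ring
  let φ : Fin (2 ^ (2 * k)) ≃ Fin (2 ^ k) × Fin (2 ^ k) :=
    (finCongr hcard.symm).trans finProdFinEquiv.symm
  have hmem : ∀ j, MemLp (fun x => toC (c j x)) ⊤ (TP d) := fun j =>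
    (hc j).of_le (hreal_cont_toC.comp_aestronglyMeasurable (hc j).1)
      (Filter.Eventually.of_forall fun x => (hreal_norm_toC _).le)
  refine ⟨fun j x => toC (c (φ j).1 x) + Complex.I * toC (c (φ j).2 x), fun j => ?_,
    fun f hf => ?_⟩
  · exact (hmem _).add ((hmem _).const_mul _)
  · obtain ⟨i1, hi1⟩ := hcov _ (hreal_mem_re (𝕜 := 𝕜) hf)
    obtain ⟨i2, hi2⟩ := hcov _ (hreal_mem_im (𝕜 := 𝕜) hf)
    refine ⟨φ.symm (i1, i2), ?_⟩
    rw [eLpNorm_exponent_top] at hi1 hi2 ⊢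
    refine eLpNormEssSup_le_of_ae_enorm_bound ?_
    have a1 := ae_le_eLpNormEssSup (f := fun x => (((f x).re : ℝ) : 𝕜) - c i1 x) (μ := TP d)
    have a2 := ae_le_eLpNormEssSup (f := fun x => (((f x).im : ℝ) : 𝕜) - c i2 x) (μ := TP d)
    filter_upwards [a1, a2] with x h1 h2
    rw [Equiv.apply_symm_apply]
    have e0 : ∀ y : ℝ, toC ((y : ℝ) : 𝕜) = (y : ℂ) := by
      intro y
      unfold toC
      simp
    have e1 : f x - (toC (c i1 x) + Complex.I * toC (c i2 x)) =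
        toC ((((f x).re : ℝ) : 𝕜) - c i1 x) + Complex.I * toC ((((f x).im : ℝ) : 𝕜) - c i2 x) := by
      rw [hreal_toC_sub, hreal_toC_sub, e0, e0]
      conv_lhs => rw [← Complex.re_add_im (f x)]
      ring
    have e2 : ∀ z : 𝕜, ‖toC z‖ₑ = ‖z‖ₑ := by
      intro z
      rw [← ofReal_norm, ← ofReal_norm, hreal_norm_toC]
    calc ‖f x - (toC (c i1 x) + Complex.I * toC (c i2 x))‖ₑ
        ≤ ‖toC ((((f x).re : ℝ) : 𝕜) - c i1 x)‖ₑ +
          ‖Complex.I * toC ((((f x).im : ℝ) : 𝕜) - c i2 x)‖ₑ := by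
          rw [e1]; exact enorm_add_le _ _
      _ = ‖(((f x).re : ℝ) : 𝕜) - c i1 x‖ₑ + ‖(((f x).im : ℝ) : 𝕜) - c i2 x‖ₑ := by
          rw [enorm_mul, e2, e2]
          have : ‖Complex.I‖ₑ = 1 := by
            rw [← ofReal_norm, Complex.norm_I, ENNReal.ofReal_one]
          rw [this, one_mul]
      _ ≤ ε + ε := add_le_add (h1.trans hi1) (h2.trans hi2)
      _ = ε * 2 := (mul_two ε).symm

end

theorem hreal : S_HREAL := by
  intro 𝕜 _ d r p _ k
  refine ⟨?_, ?_⟩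
  · unfold entNum
    refine le_iInf₂ fun ε hε => ?_
    exact iInf₂_le_of_le ε ⟨hε.1, hreal_cov1 hε.2⟩ le_rfl
  · have h2 : (2 : ℝ≥0∞) ≠ 0 := by norm_num
    have h2' : (2 : ℝ≥0∞) ≠ ⊤ := by norm_num
    rw [mul_comm 2 (entNum ⊤ k (HK 𝕜 d r p)), ← ENNReal.div_le_iff h2 h2']
    refine le_iInf₂ fun ε hε => ?_
    rw [ENNReal.div_le_iff h2 h2']
    unfold entNum
    refine iInf₂_le_of_le (ε * 2) ⟨?_, hreal_cov2 hε.2⟩ le_rfl
    exact ENNReal.mul_pos hε.1.ne' (by norm_num)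

end SmSm
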