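import Pool.Agent.H636R2.SM.SpecH
import Pool.Agent.H636R2.HE.P_fc_mdiff
import Pool.Agent.H636R2.HE.P_memLp_mdiff
open MeasureTheory Real ProbabilityTheory
open scoped ENNReal BigOperators

/-!
JACK: smooth blocks of the functions of the class `H^r_q`, any `q ≥ 1`.
-/

namespace SmSm
open HypVol MWidth

theorem jack_ac (d : ℕ) : TP d ≪ (volume : Measure (Fin d → ℝ)) := by
  have h1 : TP d = (ENNReal.ofReal (2 * π)⁻¹) ^ d •
      (volume : Measure (Fin d → ℝ)).restrict (Set.pi Set.univ fun _ => Set.Ico 0 (2 * π)) := by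
    unfold TP
    rw [volume_pi, Measure.restrict_pi_pi]
    have : IsFiniteMeasure (volume.restrict (Set.Ico (0:ℝ) (2 * π))) := ⟨by
      rw [Measure.restrict_apply_univ, Real.volume_Ico]
      exact ENNReal.ofReal_lt_top⟩
    have h2 : IsFiniteMeasure (ENNReal.ofReal (2 * π)⁻¹ • volume.restrict (Set.Ico (0:ℝ) (2 * π))) :=
      Measure.smul_finite _ ENNReal.ofReal_ne_top
    refine Measure.pi_eq fun s hs => ?_
    rw [Measure.smul_apply, Measure.pi_pi, smul_eq_mul]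
    simp only [Measure.smul_apply, smul_eq_mul]
    rw [Finset.prod_mul_distrib, Finset.prod_const, Finset.card_univ, Fintype.card_fin]
  rw [h1]
  exact (Measure.smul_absolutelyContinuous).trans
    (Measure.absolutelyContinuous_of_le Measure.restrict_le_self)

/-- the value `exp (i k t) - 1`, `t = π / 2^(s+1)` -/
noncomputable def jack_z (s : ℕ) (k : ℤ) : ℂ :=
  Complex.exp (Complex.I * (((k : ℝ) * (π / 2^(s+1)) : ℝ) : ℂ)) - 1

/-- the one dimensional multiplier -/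
noncomputable def jack_h (l s : ℕ) (k : ℤ) : ℂ :=
  if va s k = 0 then 0 else (va s k : ℂ) * (if s = 0 then 1 else ((jack_z s k)^l)⁻¹)

theorem jack_pow_sub (l : ℕ) (a b : ℂ) (ha : ‖a‖ ≤ 2) (hb : ‖b‖ ≤ 2) :
    ‖a^l - b^l‖ ≤ l * 2^l * ‖a - b‖ := by
  induction l with
  | zero => simp
  | succ l ih =>
    have h : a^(l+1) - b^(l+1) = a^l * (a - b) + (a^l - b^l) * b := by ring
    rw [h]
    refine (norm_add_le _ _).trans ?_
    rw [norm_mul, norm_mul, norm_pow]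
    have h1 : ‖a‖^l ≤ 2^l := pow_le_pow_left₀ (norm_nonneg _) ha l
    have h2 : 0 ≤ ‖a - b‖ := norm_nonneg _
    have h3 : ‖a^l - b^l‖ * ‖b‖ ≤ (l * 2^l * ‖a - b‖) * 2 :=
      mul_le_mul ih hb (norm_nonneg _) (by positivity)
    have h4 : ‖a‖^l * ‖a - b‖ ≤ 2^l * ‖a - b‖ := mul_le_mul_of_nonneg_right h1 h2
    have h5 : (0:ℝ) ≤ 2^l * ‖a - b‖ := by positivity
    push_cast
    rw [pow_succ]
    nlinarith

theorem jack_z_le (s : ℕ) (k : ℤ) : ‖jack_z s k‖ ≤ 2 := by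
  unfold jack_z
  refine (norm_sub_le _ _).trans ?_
  rw [Complex.norm_exp_I_mul_ofReal, norm_one]
  norm_num

theorem jack_t_le (s : ℕ) : π / 2^(s+1) ≤ 2 / 2^s := by
  rw [pow_succ]
  have h : (0:ℝ) < 2^s := by positivity
  rw [div_le_div_iff₀ (by positivity) h]
  nlinarith [Real.pi_le_four]

theorem jack_z_sub (s : ℕ) (k : ℤ) : ‖jack_z s k - jack_z s (k+1)‖ ≤ 2 / 2^s := by
  have h : jack_z s k - jack_z s (k+1) =
      -(Complex.exp (Complex.I * (((k : ℝ) * (π / 2^(s+1)) : ℝ) : ℂ)) *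
        (Complex.exp (Complex.I * ((π / 2^(s+1) : ℝ) : ℂ)) - 1)) := by
    unfold jack_z
    have e : Complex.exp (Complex.I * ((((k+1 : ℤ) : ℝ) * (π / 2^(s+1)) : ℝ) : ℂ)) =
        Complex.exp (Complex.I * (((k : ℝ) * (π / 2^(s+1)) : ℝ) : ℂ)) *
        Complex.exp (Complex.I * ((π / 2^(s+1) : ℝ) : ℂ)) := by
      rw [← Complex.exp_add]
      congr 1
      push_cast
      ring
    rw [e]
    ring
  rw [h, norm_neg, norm_mul]
  have h1 : ‖Complex.exp (Complex.I * (((k : ℝ) * (π / 2^(s+1)) : ℝ) : ℂ))‖ = 1 :=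
    Complex.norm_exp_I_mul_ofReal _
  have h2 : ‖Complex.exp (Complex.I * ((π / 2^(s+1) : ℝ) : ℂ)) - 1‖ ≤ ‖π / 2^(s+1)‖ :=
    Real.norm_exp_I_mul_ofReal_sub_one_le
  rw [h1, one_mul]
  refine h2.trans ?_
  rw [Real.norm_of_nonneg (by positivity)]
  exact jack_t_le s

theorem jack_z_ge (h3 : S_VPF) (s : ℕ) (hs : s ≠ 0) (k : ℤ) (hk : va s k ≠ 0) : 1/2 ≤ ‖jack_z s k‖ := by
  have h := h3.2.1 s k hk
  -- `2^(s-1) ≤ |k| < 2^(s+1)`
  have hlo : 2^(s-1) ≤ k.natAbs := by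
    have : s - 1 < Nat.size k.natAbs := by omega
    exact Nat.lt_size.1 this
  have hhi : k.natAbs < 2^(s+1) := by
    have : Nat.size k.natAbs ≤ s + 1 := by omega
    exact Nat.size_le.1 this
  have hlo' : (2:ℝ)^(s-1) ≤ |(k:ℝ)| := by
    have : ((2^(s-1) : ℕ) : ℝ) ≤ (k.natAbs : ℝ) := by exact_mod_cast hlo
    rw [Nat.cast_natAbs] at this
    push_cast at this
    exact this
  have hhi' : |(k:ℝ)| ≤ (2:ℝ)^(s+1) := by
    have : (k.natAbs : ℝ) ≤ ((2^(s+1) : ℕ) : ℝ) := by exact_mod_cast hhi.le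
    rw [Nat.cast_natAbs] at this
    push_cast at this
    exact this
  set θ : ℝ := (k : ℝ) * (π / 2^(s+1)) with hθ
  have hpi : 0 < π := Real.pi_pos
  have habs : |θ| = |(k:ℝ)| * (π / 2^(s+1)) := by
    rw [hθ, abs_mul, abs_of_nonneg (by positivity : (0:ℝ) ≤ π / 2^(s+1))]
  have hθ1 : π / 4 ≤ |θ| := by
    rw [habs]
    have e : (2:ℝ)^(s+1) = 4 * 2^(s-1) := by
      obtain ⟨m, rfl⟩ := Nat.exists_eq_succ_of_ne_zero hs
      simp only [Nat.succ_eq_add_one, Nat.add_sub_cancel]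
      ring
    rw [e, ← mul_div_assoc, div_le_div_iff₀ (by positivity) (by positivity)]
    have : (0:ℝ) ≤ |(k:ℝ)| - 2^(s-1) := by linarith
    nlinarith [mul_nonneg hpi.le this]
  have hθ2 : |θ| ≤ π := by
    rw [habs]
    calc |(k:ℝ)| * (π / 2^(s+1)) ≤ 2^(s+1) * (π / 2^(s+1)) := by
          exact mul_le_mul_of_nonneg_right hhi' (by positivity)
      _ = π := by field_simp
  have hcos : Real.cos θ ≤ Real.sqrt 2 / 2 := by
    rw [← Real.cos_abs, ← Real.cos_pi_div_four]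
    exact Real.cos_le_cos_of_nonneg_of_le_pi (by positivity) hθ2 hθ1
  have hsq : ‖jack_z s k‖^2 = 2 - 2 * Real.cos θ := by
    unfold jack_z
    rw [← hθ, ← Complex.normSq_eq_norm_sq, Complex.normSq_apply]
    have e : Complex.I * (θ : ℂ) = (θ : ℂ) * Complex.I := by ring
    rw [e]
    simp only [Complex.sub_re, Complex.exp_ofReal_mul_I_re, Complex.one_re, Complex.sub_im,
      Complex.exp_ofReal_mul_I_im, Complex.one_im]
    nlinarith [Real.sin_sq_add_cos_sq θ]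
  have hs2 : Real.sqrt 2 ≤ 3/2 := by
    rw [Real.sqrt_le_left (by norm_num)]
    norm_num
  by_contra hcon
  push Not at hcon
  have : ‖jack_z s k‖^2 < (1/2)^2 := by
    exact pow_lt_pow_left₀ hcon (norm_nonneg _) (by norm_num)
  rw [hsq] at this
  nlinarith

theorem jack_va_lip (s : ℕ) (k : ℤ) : |va s (k+1) - va s k| ≤ 3 / 2^s := by
  have hvp : ∀ s : ℕ, |vp s (k+1) - vp s k| ≤ 1 / 2^s := by
    intro s
    unfold vp
    have e1 : |max 0 (min 1 (2 - |((k+1 : ℤ):ℝ)| / 2^s)) - max 0 (min 1 (2 - |(k:ℝ)| / 2^s))| ≤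
        |(2 - |((k+1 : ℤ):ℝ)| / 2^s) - (2 - |(k:ℝ)| / 2^s)| := by
      refine (abs_max_sub_max_le_max _ _ _ _).trans ?_
      rw [sub_self, abs_zero]
      refine max_le (abs_nonneg _) ?_
      refine (abs_min_sub_min_le_max _ _ _ _).trans ?_
      rw [sub_self, abs_zero]
      exact max_le (abs_nonneg _) le_rfl
    refine e1.trans ?_
    have e2 : (2 - |((k+1 : ℤ):ℝ)| / 2^s) - (2 - |(k:ℝ)| / 2^s) =
        -((|((k+1 : ℤ):ℝ)| - |(k:ℝ)|) / 2^s) := by ring
    rw [e2, abs_neg, abs_div, abs_of_pos (by positivity : (0:ℝ) < 2^s)]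
    refine div_le_div_of_nonneg_right ?_ (by positivity)
    refine (abs_abs_sub_abs_le_abs_sub _ _).trans ?_
    push_cast
    simp
  unfold va
  by_cases hs : s = 0
  · subst hs
    simp only [if_true, sub_zero]
    refine (hvp 0).trans ?_
    norm_num
  · simp only [if_neg hs]
    have e : vp s (k+1) - vp (s-1) (k+1) - (vp s k - vp (s-1) k) =
        (vp s (k+1) - vp s k) - (vp (s-1) (k+1) - vp (s-1) k) := by ring
    rw [e]
    refine (abs_sub _ _).trans ?_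
    have h1 := hvp s
    have h2 := hvp (s-1)
    have e3 : (1:ℝ) / 2^(s-1) = 2 / 2^s := by
      obtain ⟨m, rfl⟩ := Nat.exists_eq_succ_of_ne_zero hs
      simp only [Nat.succ_eq_add_one, Nat.add_sub_cancel, pow_succ]
      field_simp
    rw [e3] at h2
    have e4 : (3:ℝ) / 2^s = 1/2^s + 2/2^s := by ring
    rw [e4]
    linarith

/-- weight part -/
noncomputable def jack_w (l s : ℕ) (k : ℤ) : ℂ := if s = 0 then 1 else ((jack_z s k)^l)⁻¹

theorem jack_w_le (h3 : S_VPF) (l s : ℕ) (k : ℤ) (hk : va s k ≠ 0) : ‖jack_w l s k‖ ≤ 2^l := by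
  unfold jack_w
  by_cases hs : s = 0
  · rw [if_pos hs, norm_one]
    exact one_le_pow₀ (by norm_num)
  · rw [if_neg hs, norm_inv, norm_pow]
    have h := jack_z_ge h3 s hs k hk
    have h1 : (1/2:ℝ)^l ≤ ‖jack_z s k‖^l := pow_le_pow_left₀ (by norm_num) h l
    refine (inv_anti₀ (by positivity) h1).trans ?_
    rw [one_div, inv_pow, inv_inv]

theorem jack_w_lip (h3 : S_VPF) (l s : ℕ) (k : ℤ) (hk : va s k ≠ 0) (hk1 : va s (k+1) ≠ 0) :
    ‖jack_w l s (k+1) - jack_w l s k‖ ≤ 2 * l * 2^l * 2^l * 2^l / 2^s := by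
  by_cases hs : s = 0
  · unfold jack_w
    rw [if_pos hs, if_pos hs, sub_self, norm_zero]
    positivity
  · have hw := jack_w_le h3 l s k hk
    have hw1 := jack_w_le h3 l s (k+1) hk1
    have hz := jack_z_ge h3 s hs k hk
    have hz1 := jack_z_ge h3 s hs (k+1) hk1
    have hz0 : jack_z s k ≠ 0 := by
      intro h
      rw [h, norm_zero] at hz
      norm_num at hz
    have hz10 : jack_z s (k+1) ≠ 0 := by
      intro h
      rw [h, norm_zero] at hz1
      norm_num at hz1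
    have e : jack_w l s (k+1) - jack_w l s k =
        ((jack_z s k)^l - (jack_z s (k+1))^l) * jack_w l s (k+1) * jack_w l s k := by
      unfold jack_w
      simp only [if_neg hs]
      field_simp
    rw [e, norm_mul, norm_mul]
    have h1 := jack_pow_sub l (jack_z s k) (jack_z s (k+1)) (jack_z_le _ _) (jack_z_le _ _)
    have h2 := jack_z_sub s k
    have h4 : ‖(jack_z s k)^l - (jack_z s (k+1))^l‖ ≤ l * 2^l * (2 / 2^s) :=
      h1.trans (mul_le_mul_of_nonneg_left h2 (by positivity))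
    calc ‖(jack_z s k)^l - (jack_z s (k+1))^l‖ * ‖jack_w l s (k+1)‖ * ‖jack_w l s k‖
        ≤ (l * 2^l * (2 / 2^s)) * 2^l * 2^l := by
          refine mul_le_mul (mul_le_mul h4 hw1 (norm_nonneg _) (by positivity)) hw (norm_nonneg _)
            (by positivity)
      _ = 2 * l * 2^l * 2^l * 2^l / 2^s := by ring

theorem jack_h_eq (l s : ℕ) (k : ℤ) : jack_h l s k = if va s k = 0 then 0 else (va s k : ℂ) * jack_w l s k := rfl

theorem jack_h_le (h3 : S_VPF) (l s : ℕ) (k : ℤ) : ‖jack_h l s k‖ ≤ 2^l := by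
  rw [jack_h_eq]
  split_ifs with h
  · simp
  · rw [norm_mul, Complex.norm_real, Real.norm_eq_abs]
    have h1 : |va s k| ≤ 1 := by
      rw [abs_of_nonneg (h3.1 s k).1]
      exact (h3.1 s k).2
    calc |va s k| * ‖jack_w l s k‖ ≤ 1 * 2^l :=
          mul_le_mul h1 (jack_w_le h3 l s k h) (norm_nonneg _) (by norm_num)
      _ = 2^l := one_mul _

noncomputable def jack_D (l : ℕ) : ℝ := 3 * 2^l + 2 * l * 2^l * 2^l * 2^l

theorem jack_D_nonneg (l : ℕ) : 0 ≤ jack_D l := by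
  unfold jack_D
  positivity

theorem jack_h_lip (h3 : S_VPF) (l s : ℕ) (k : ℤ) :
    ‖jack_h l s (k+1) - jack_h l s k‖ ≤ jack_D l / 2^s := by
  have hl := jack_va_lip s k
  have hD : 3 / 2^s * 2^l ≤ jack_D l / 2^s := by
    rw [div_mul_eq_mul_div]
    refine div_le_div_of_nonneg_right ?_ (by positivity)
    unfold jack_D
    have : (0:ℝ) ≤ 2 * l * 2^l * 2^l * 2^l := by positivity
    linarith
  rw [jack_h_eq, jack_h_eq]
  by_cases h1 : va s (k+1) = 0
  · by_cases h2 : va s k = 0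
    · simp only [h1, h2, if_true, sub_zero, norm_zero]
      exact div_nonneg (jack_D_nonneg l) (by positivity)
    · rw [if_pos h1, if_neg h2, zero_sub, norm_neg, norm_mul, Complex.norm_real, Real.norm_eq_abs]
      rw [h1, zero_sub, abs_neg] at hl
      exact (mul_le_mul hl (jack_w_le h3 l s k h2) (norm_nonneg _) (by positivity)).trans hD
  · by_cases h2 : va s k = 0
    · rw [if_neg h1, if_pos h2, sub_zero, norm_mul, Complex.norm_real, Real.norm_eq_abs]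
      rw [h2, sub_zero] at hl
      exact (mul_le_mul hl (jack_w_le h3 l s (k+1) h1) (norm_nonneg _) (by positivity)).trans hD
    · rw [if_neg h1, if_neg h2]
      have e : (va s (k+1) : ℂ) * jack_w l s (k+1) - (va s k : ℂ) * jack_w l s k =
          (va s (k+1) : ℂ) * (jack_w l s (k+1) - jack_w l s k) +
          ((va s (k+1) - va s k : ℝ) : ℂ) * jack_w l s k := by
        push_cast
        ring
      rw [e]
      refine (norm_add_le _ _).trans ?_
      rw [norm_mul, norm_mul, Complex.norm_real, Complex.norm_real, Real.norm_eq_abs, Real.norm_eq_abs]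
      have h4 : |va s (k+1)| ≤ 1 := by
        rw [abs_of_nonneg (h3.1 s (k+1)).1]
        exact (h3.1 s (k+1)).2
      have h5 : |va s (k+1)| * ‖jack_w l s (k+1) - jack_w l s k‖ ≤
          1 * (2 * l * 2^l * 2^l * 2^l / 2^s) :=
        mul_le_mul h4 (jack_w_lip h3 l s k h2 h1) (norm_nonneg _) (by norm_num)
      have h6 : |va s (k+1) - va s k| * ‖jack_w l s k‖ ≤ 3 / 2^s * 2^l :=
        mul_le_mul hl (jack_w_le h3 l s k h2) (norm_nonneg _) (by positivity)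
      refine (add_le_add h5 h6).trans (le_of_eq ?_)
      unfold jack_D
      ring

theorem jack_h_zero (h3 : S_VPF) (l s : ℕ) (k : ℤ) (hk : ((2^(s+1) : ℕ) : ℤ) ≤ |k|) : jack_h l s k = 0 := by
  rw [jack_h_eq]
  have : va s k = 0 := by
    by_contra hne
    have h := h3.2.1 s k hne
    have h2 : Nat.size k.natAbs ≤ s + 1 := by omega
    have h4 := Nat.size_le.1 h2
    rw [Int.abs_eq_natAbs] at hk
    have h5 : 2^(s+1) ≤ k.natAbs := by exact_mod_cast hk
    omega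
  rw [if_pos this]

theorem jack_L1 (h1 : S_CS) (h3 : S_VPF) (l : ℕ) : ∃ A : ℝ, 0 < A ∧ ∀ s : ℕ,
    ∫ t in (0:ℝ)..(2*π), ‖∑ k ∈ Finset.Ioo (-((2^(s+1) : ℕ):ℤ)) ((2^(s+1) : ℕ) : ℤ),
      jack_h l s k * Complex.exp (Complex.I * ((k:ℝ) * t : ℝ))‖ ≤ A := by
  obtain ⟨C, hC, hcs⟩ := h1
  refine ⟨C * (2 * 2^l + 3 * jack_D l), by
    have := jack_D_nonneg l
    positivity, ?_⟩
  intro s
  have hD := jack_D_nonneg l
  have h2s : (0:ℝ) < 2^s := by positivity
  have h2s1 : (1:ℝ) ≤ 2^s := one_le_pow₀ (by norm_num)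
  refine (hcs (2^(s+1)) (jack_h l s) (2^s) h2s1 (jack_h_zero h3 l s)).trans ?_
  have hN : (((2^(s+1) : ℕ) : ℤ)).toNat = 2^(s+1) := Int.toNat_natCast _
  have hS1 : ∑ k ∈ Finset.Ioo (-((2^(s+1) : ℕ):ℤ)) ((2^(s+1) : ℕ) : ℤ), ‖jack_h l s k‖^2 ≤
      (2 * 2^l * Real.sqrt (2^s))^2 := by
    have hc : ((Finset.Ioo (-((2^(s+1) : ℕ):ℤ)) ((2^(s+1) : ℕ) : ℤ)).card : ℝ) ≤ 4 * 2^s := by
      rw [Int.card_Ioo]
      have : (((2^(s+1) : ℕ) : ℤ) - (-((2^(s+1) : ℕ):ℤ)) - 1).toNat ≤ 4 * 2^s := by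
        rw [pow_succ]
        omega
      exact_mod_cast this
    calc ∑ k ∈ Finset.Ioo (-((2^(s+1) : ℕ):ℤ)) ((2^(s+1) : ℕ) : ℤ), ‖jack_h l s k‖^2
        ≤ ∑ k ∈ Finset.Ioo (-((2^(s+1) : ℕ):ℤ)) ((2^(s+1) : ℕ) : ℤ), ((2:ℝ)^l)^2 :=
          Finset.sum_le_sum fun k _ => pow_le_pow_left₀ (norm_nonneg _) (jack_h_le h3 l s k) 2
      _ = ((Finset.Ioo (-((2^(s+1) : ℕ):ℤ)) ((2^(s+1) : ℕ) : ℤ)).card : ℝ) * ((2:ℝ)^l)^2 := by
          rw [Finset.sum_const, nsmul_eq_mul]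
      _ ≤ 4 * 2^s * ((2:ℝ)^l)^2 := mul_le_mul_of_nonneg_right hc (by positivity)
      _ = (2 * 2^l * Real.sqrt (2^s))^2 := by
          rw [mul_pow, Real.sq_sqrt h2s.le]
          ring
  have hS2 : ∑ k ∈ Finset.Icc (-((2^(s+1) : ℕ):ℤ)) ((2^(s+1) : ℕ) : ℤ), ‖jack_h l s (k+1) - jack_h l s k‖^2 ≤
      (3 * (jack_D l / 2^s) * Real.sqrt (2^s))^2 := by
    have hc : ((Finset.Icc (-((2^(s+1) : ℕ):ℤ)) ((2^(s+1) : ℕ) : ℤ)).card : ℝ) ≤ 9 * 2^s := by
      rw [Int.card_Icc]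
      have h0 : 1 ≤ 2^s := Nat.one_le_two_pow
      have : (((2^(s+1) : ℕ) : ℤ) + 1 - (-((2^(s+1) : ℕ):ℤ))).toNat ≤ 9 * 2^s := by
        rw [pow_succ]
        omega
      exact_mod_cast this
    calc ∑ k ∈ Finset.Icc (-((2^(s+1) : ℕ):ℤ)) ((2^(s+1) : ℕ) : ℤ), ‖jack_h l s (k+1) - jack_h l s k‖^2
        ≤ ∑ k ∈ Finset.Icc (-((2^(s+1) : ℕ):ℤ)) ((2^(s+1) : ℕ) : ℤ), (jack_D l / 2^s)^2 :=
          Finset.sum_le_sum fun k _ => pow_le_pow_left₀ (norm_nonneg _) (jack_h_lip h3 l s k) 2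
      _ = ((Finset.Icc (-((2^(s+1) : ℕ):ℤ)) ((2^(s+1) : ℕ) : ℤ)).card : ℝ) * (jack_D l / 2^s)^2 := by
          rw [Finset.sum_const, nsmul_eq_mul]
      _ ≤ 9 * 2^s * (jack_D l / 2^s)^2 := mul_le_mul_of_nonneg_right hc (by positivity)
      _ = (3 * (jack_D l / 2^s) * Real.sqrt (2^s))^2 := by
          rw [mul_pow, Real.sq_sqrt h2s.le]
          ring
  have hq1 := Real.sqrt_le_sqrt hS1
  have hq2 := Real.sqrt_le_sqrt hS2
  rw [Real.sqrt_sq (by positivity)] at hq1 hq2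
  have hrt : ((2:ℝ)^s)^(-(1/2:ℝ)) * Real.sqrt (2^s) = 1 := by
    rw [Real.sqrt_eq_rpow, ← Real.rpow_add h2s]
    norm_num
  have hpos : (0:ℝ) < ((2:ℝ)^s)^(-(1/2:ℝ)) := Real.rpow_pos_of_pos h2s _
  calc C * ((2:ℝ)^s)^(-(1/2:ℝ)) * (Real.sqrt (∑ k ∈ Finset.Ioo (-((2^(s+1) : ℕ):ℤ)) ((2^(s+1) : ℕ) : ℤ), ‖jack_h l s k‖^2) +
        2^s * Real.sqrt (∑ k ∈ Finset.Icc (-((2^(s+1) : ℕ):ℤ)) ((2^(s+1) : ℕ) : ℤ), ‖jack_h l s (k+1) - jack_h l s k‖^2))
      ≤ C * ((2:ℝ)^s)^(-(1/2:ℝ)) * (2 * 2^l * Real.sqrt (2^s) +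
        2^s * (3 * (jack_D l / 2^s) * Real.sqrt (2^s))) := by
        refine mul_le_mul_of_nonneg_left ?_ (by positivity)
        exact add_le_add hq1 (mul_le_mul_of_nonneg_left hq2 h2s.le)
    _ = C * (((2:ℝ)^s)^(-(1/2:ℝ)) * Real.sqrt (2^s)) * (2 * 2^l + 2^s * (3 * (jack_D l / 2^s))) := by ring
    _ = C * (2 * 2^l + 3 * jack_D l) := by
        rw [hrt]
        field_simp

theorem jack_Fh (d : ℕ) (k : Fin d → ℤ) : Fh 0 0 k = 1 := by
  unfold Fh
  refine Finset.prod_eq_one fun j _ => ?_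
  split_ifs with h
  · rfl
  · simp

theorem jack_coef (h3 : S_VPF) {d : ℕ} (l : ℕ) (s : Fin d → ℕ) (k : Fin d → ℤ) :
    (∏ j, jack_h l (s j) (k j)) *
      (∏ j ∈ Finset.univ.filter (fun j => s j ≠ 0),
        (Complex.exp (Complex.I * (((k j : ℝ) * (π / 2^(s j + 1)) : ℝ) : ℂ)) - 1)^l) = (blk s k : ℂ) := by
  rw [Finset.prod_filter, ← Finset.prod_mul_distrib]
  unfold blk
  push_cast
  refine Finset.prod_congr rfl fun j _ => ?_
  rw [jack_h_eq]
  by_cases hv : va (s j) (k j) = 0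
  · simp [hv]
  · rw [if_neg hv]
    by_cases hs : s j = 0
    · simp [hs, jack_w]
    · have hz := jack_z_ge h3 (s j) hs (k j) hv
      have hz0 : jack_z (s j) (k j) ≠ 0 := by
        intro h
        rw [h, norm_zero] at hz
        norm_num at hz
      unfold jack_w
      rw [if_neg hs, if_pos hs]
      have e : Complex.exp (Complex.I * (((k j : ℝ) * (π / 2^(s j + 1)) : ℝ) : ℂ)) - 1 = jack_z (s j) (k j) := rfl
      rw [mul_assoc]
      have e2 : ((jack_z (s j) (k j))^l)⁻¹ * (jack_z (s j) (k j))^l = 1 :=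
        inv_mul_cancel₀ (pow_ne_zero _ hz0)
      push_cast at e ⊢
      rw [e, e2, mul_one]

theorem jack_mdiff_empty {d : ℕ} (l : ℕ) (t : Fin d → ℝ) (f : (Fin d → ℝ) → ℂ) :
    HypVolE.mdiff l ∅ t f = f := by
  funext x
  unfold HypVolE.mdiff
  have e : (Fintype.piFinset (fun j : Fin d => if j ∈ (∅ : Finset (Fin d)) then Finset.range (l + 1) else {0})) =
      {fun _ => 0} := by
    ext ν
    simp only [Fintype.mem_piFinset, Finset.notMem_empty, if_false, Finset.mem_singleton]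
    constructor
    · intro h
      funext j
      exact h j
    · intro h j
      rw [h]
  rw [e, Finset.sum_singleton]
  simp

theorem jack (h1 : S_CS) (h2 : S_MULT) (h3 : S_VPF) : S_JACK := by
  intro d r q hr hq
  obtain ⟨A, hA, hL1⟩ := jack_L1 h1 h3 (⌊r⌋₊ + 1)
  refine ⟨A^d * ((2:ℝ)^r)^d, by positivity, ?_⟩
  intro f hf s
  obtain ⟨hper, hmeas, hnorm, hdiff⟩ := hf
  set l : ℕ := ⌊r⌋₊ + 1 with hl
  have := TP_prob d
  have hmT : AEStronglyMeasurable f (TP d) := hmeas.mono_ac (jack_ac d)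
  have hfq : MemLp f q (TP d) := ⟨hmT, hnorm.trans_lt ENNReal.one_lt_top⟩
  have hfi : Integrable f (TP d) := memLp_one_iff_integrable.1 (hfq.mono_exponent hq)
  set e : Finset (Fin d) := Finset.univ.filter (fun j => s j ≠ 0) with he
  set t : Fin d → ℝ := fun j => π / 2^(s j + 1) with ht
  set g : (Fin d → ℝ) → ℂ := HypVolE.mdiff l e t f with hg
  have hgm : MemLp g q (TP d) := HypVolE.memLp_mdiff d f hper hmeas q hfq l e t
  have hgn : eLpNorm g q (TP d) ≤ ENNReal.ofReal (∏ j ∈ e, |t j|^r) := by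
    by_cases hee : e.Nonempty
    · exact hdiff e hee t
    · rw [Finset.not_nonempty_iff_eq_empty] at hee
      rw [hg, hee, jack_mdiff_empty, Finset.prod_empty, ENNReal.ofReal_one]
      exact hnorm
  have hprod : ∏ j ∈ e, |t j|^r ≤ ((2:ℝ)^r)^d * (2:ℝ)^(-(r * ∑ j, (s j : ℝ))) := by
    have e1 : ((2:ℝ)^r)^d * (2:ℝ)^(-(r * ∑ j, (s j : ℝ))) = ∏ j, ((2:ℝ)^r * (2:ℝ)^(-(r * (s j : ℝ)))) := by
      rw [Finset.prod_mul_distrib, Finset.prod_const, Finset.card_univ, Fintype.card_fin,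
        ← Real.rpow_sum_of_pos (by norm_num : (0:ℝ) < 2)]
      congr 2
      rw [Finset.sum_neg_distrib, Finset.mul_sum]
    rw [e1, he, Finset.prod_filter]
    refine Finset.prod_le_prod ?_ ?_
    · intro j _
      split_ifs
      · positivity
      · norm_num
    · intro j _
      have h2r : (1:ℝ) ≤ (2:ℝ)^r := Real.one_le_rpow (by norm_num) hr.le
      split_ifs with hs
      · have ht0 : |t j| ≤ 2 / 2^(s j) := by
          rw [ht]
          rw [abs_of_nonneg (by positivity)]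
          exact jack_t_le (s j)
        calc |t j|^r ≤ (2 / 2^(s j) : ℝ)^r := Real.rpow_le_rpow (abs_nonneg _) ht0 hr.le
          _ = (2:ℝ)^r * (2:ℝ)^(-(r * (s j : ℝ))) := by
            rw [Real.div_rpow (by norm_num) (by positivity), Real.rpow_neg (by norm_num), div_eq_mul_inv,
              ← Real.rpow_natCast 2 (s j), ← Real.rpow_mul (by norm_num), mul_comm r]
      · have hs0 : s j = 0 := by
          by_contra h
          exact hs h
        rw [hs0]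
        simp [h2r]
  have hop : op 0 0 s f = fun x => ∑ k ∈ Fintype.piFinset
      (fun j => Finset.Ioo (-(((2^(s j + 1) : ℕ)):ℤ)) (((2^(s j + 1) : ℕ) : ℤ))),
      (∏ j, jack_h l (s j) (k j)) * fc g k * chi k x := by
    funext x
    unfold op boxs
    have e3 : (fun j => Finset.Ioo (-(2:ℤ)^(s j + 1)) ((2:ℤ)^(s j + 1))) =
        (fun j => Finset.Ioo (-(((2^(s j + 1) : ℕ)):ℤ)) (((2^(s j + 1) : ℕ) : ℤ))) := by
      funext j
      push_cast
      rfl
    rw [e3]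
    refine Finset.sum_congr rfl fun k _ => ?_
    rw [jack_Fh, one_mul, hg, HypVolE.fc_mdiff d f hper hmeas hfi l e t k]
    rw [← jack_coef h3 l s k]
    simp only [ht, he]
    ring
  rw [hop]
  have hmain := h2 d q (fun j => 2^(s j + 1)) (fun j => jack_h l (s j)) (fun _ => A) g hq hgm
    (fun _ => hA.le) (fun j => hL1 (s j))
  refine hmain.trans ?_
  rw [Finset.prod_const, Finset.card_univ, Fintype.card_fin]
  calc ENNReal.ofReal (A^d) * eLpNorm g q (TP d)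
      ≤ ENNReal.ofReal (A^d) * ENNReal.ofReal (((2:ℝ)^r)^d * (2:ℝ)^(-(r * ∑ j, (s j : ℝ)))) := by
        gcongr
        exact hgn.trans (ENNReal.ofReal_le_ofReal hprod)
    _ = ENNReal.ofReal (A^d * ((2:ℝ)^r)^d * (2:ℝ)^(-(r * ∑ j, (s j : ℝ)))) := by
        rw [← ENNReal.ofReal_mul (by positivity), mul_assoc]

end SmSm
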