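import Pool.Agent.H636R2.SM.SpecP
open MeasureTheory Real ProbabilityTheory
open scoped ENNReal BigOperators

/-!
LEV: nets of the level sets, large error.
-/

namespace SmSm
open HypVol MWidth

/-- real coordinates of a complex number -/
noncomputable def lev_part (z : ℂ) (j : Fin 2) : ℝ := if j = 0 then z.re else z.im

theorem lev_gp_part {d : ℕ} (Λ : Finset (Fin d → ℤ)) (z : (Fin d → ℤ) → ℂ) (x : Fin d → ℝ) :
    gp Λ (fun i => lev_part (z i.1.1) i.2) x = ∑ k ∈ Λ, z k * chi k x := by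
  unfold gp chi lev_part
  rw [← Finset.sum_coe_sort Λ]
  refine Finset.sum_congr rfl fun k _ => ?_
  simp only [if_true, if_neg (by decide : ¬ ((1 : Fin 2) = 0))]
  rw [Complex.re_add_im]

theorem lev_gp_add {d : ℕ} (Λ : Finset (Fin d → ℤ)) (a b : Λ × Fin 2 → ℝ) (x : Fin d → ℝ) :
    gp Λ (fun i => a i + b i) x = gp Λ a x + gp Λ b x := by
  unfold gp
  rw [← Finset.sum_add_distrib]
  refine Finset.sum_congr rfl fun k _ => ?_
  push_cast
  ring

theorem lev_gp_sub {d : ℕ} (Λ : Finset (Fin d → ℤ)) (a b : Λ × Fin 2 → ℝ) (x : Fin d → ℝ) :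
    gp Λ (fun i => a i - b i) x = gp Λ a x - gp Λ b x := by
  unfold gp
  rw [← Finset.sum_sub_distrib]
  refine Finset.sum_congr rfl fun k _ => ?_
  push_cast
  ring

theorem lev_rco_sub {d : ℕ} (s : Fin d → ℕ) (b c : PG s → ℂ) (k : Fin d → ℤ) :
    rco s (fun y => b y - c y) k = rco s b k - rco s c k := by
  unfold rco
  split_ifs
  · rw [← sub_div, ← Finset.sum_sub_distrib]
    congr 1
    refine Finset.sum_congr rfl fun y _ => ?_
    ring
  · simp

theorem lev_rco_smul {d : ℕ} (s : Fin d → ℕ) (a : ℂ) (b : PG s → ℂ) (k : Fin d → ℤ) :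
    rco s (fun y => a * b y) k = a * rco s b k := by
  unfold rco
  split_ifs
  · rw [← mul_div_assoc, Finset.mul_sum]
    congr 1
    refine Finset.sum_congr rfl fun y _ => ?_
    ring
  · simp

theorem lev_rco_zero {d : ℕ} (s : Fin d → ℕ) (b : PG s → ℂ) (k : Fin d → ℤ) (hk : k ∉ ann s) :
    rco s b k = 0 := by
  unfold rco
  rw [if_neg hk]

theorem lev_card_PG {d : ℕ} (s : Fin d → ℕ) : (Fintype.card (PG s) : ℝ) = 2^(∑ j, (s j + 3)) := by
  rw [Fintype.card_pi]
  simp only [Fintype.card_fin]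
  rw [Finset.prod_pow_eq_pow_sum]
  push_cast
  rfl

theorem lev_sum_eq {d μ : ℕ} (s : Fin d → ℕ) (hs : s ∈ lev d μ) :
    (2:ℝ)^(∑ j, (s j + 3)) = 8^d * 2^μ := by
  have h : ∑ j, s j = μ := (Finset.mem_filter.1 hs).2
  rw [Finset.sum_add_distrib, h, Finset.sum_const, Finset.card_univ, Fintype.card_fin, smul_eq_mul,
    pow_add, mul_comm d 3, pow_mul]
  norm_num
  ring

theorem lev_part_sq (z : ℂ) : lev_part z 0 ^ 2 + lev_part z 1 ^ 2 = ‖z‖^2 := by
  unfold lev_part
  simp only [if_true, if_neg (by decide : ¬ ((1 : Fin 2) = 0))]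
  rw [← Complex.normSq_eq_norm_sq, Complex.normSq_apply]
  ring

theorem lev_sq_sum {d μ : ℕ} (h4 : ∀ k : Fin d → ℤ, ((lev d μ).filter (fun s => k ∈ ann s)).card ≤ 2^d)
    (h3 : ∀ s : Fin d → ℕ, ∀ b : PG s → ℂ, ∑ k ∈ ann s, ‖rco s b k‖^2 ≤ (∑ y, ‖b y‖^2) / 2^(∑ j, (s j + 3)))
    (b : (s : Fin d → ℕ) → PG s → ℂ) (R : ℝ)
    (hR : ∀ s ∈ lev d μ, (∑ y, ‖b s y‖^2) / 2^(∑ j, (s j + 3)) ≤ R) :
    ∑ k ∈ annl d μ, ‖∑ s ∈ lev d μ, rco s (b s) k‖^2 ≤ 2^d * ((lev d μ).card * R) := by
  have h1 : ∀ k ∈ annl d μ, ‖∑ s ∈ lev d μ, rco s (b s) k‖^2 ≤ 2^d * ∑ s ∈ lev d μ, ‖rco s (b s) k‖^2 := by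
    intro k _
    have e1 : ∑ s ∈ lev d μ, rco s (b s) k = ∑ s ∈ (lev d μ).filter (fun s => k ∈ ann s), rco s (b s) k := by
      rw [Finset.sum_filter]
      refine Finset.sum_congr rfl fun s _ => ?_
      split_ifs with h
      · rfl
      · exact lev_rco_zero s _ k h
    rw [e1]
    calc ‖∑ s ∈ (lev d μ).filter (fun s => k ∈ ann s), rco s (b s) k‖^2
        ≤ (∑ s ∈ (lev d μ).filter (fun s => k ∈ ann s), ‖rco s (b s) k‖)^2 :=
          pow_le_pow_left₀ (norm_nonneg _) (norm_sum_le _ _) 2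
      _ ≤ ((lev d μ).filter (fun s => k ∈ ann s)).card * ∑ s ∈ (lev d μ).filter (fun s => k ∈ ann s),
            ‖rco s (b s) k‖^2 := sq_sum_le_card_mul_sum_sq
      _ ≤ 2^d * ∑ s ∈ lev d μ, ‖rco s (b s) k‖^2 := by
          refine mul_le_mul ?_ ?_ (Finset.sum_nonneg fun _ _ => by positivity) (by positivity)
          · exact_mod_cast h4 k
          · exact Finset.sum_le_sum_of_subset_of_nonneg (Finset.filter_subset _ _)
              fun _ _ _ => by positivity
  calc ∑ k ∈ annl d μ, ‖∑ s ∈ lev d μ, rco s (b s) k‖^2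
      ≤ ∑ k ∈ annl d μ, 2^d * ∑ s ∈ lev d μ, ‖rco s (b s) k‖^2 := Finset.sum_le_sum h1
    _ = 2^d * ∑ s ∈ lev d μ, ∑ k ∈ annl d μ, ‖rco s (b s) k‖^2 := by
        rw [← Finset.mul_sum, Finset.sum_comm]
    _ ≤ 2^d * ∑ s ∈ lev d μ, R := by
        refine mul_le_mul_of_nonneg_left (Finset.sum_le_sum fun s hs => ?_) (by positivity)
        have e2 : ∑ k ∈ annl d μ, ‖rco s (b s) k‖^2 = ∑ k ∈ ann s, ‖rco s (b s) k‖^2 := by
          symm
          refine Finset.sum_subset ?_ ?_
          · exact Finset.subset_biUnion_of_mem ann hs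
          · intro k _ hk
            rw [lev_rco_zero s _ k hk]
            simp
        rw [e2]
        exact (h3 s (b s)).trans (hR s hs)
    _ = 2^d * ((lev d μ).card * R) := by rw [Finset.sum_const, nsmul_eq_mul]

theorem lev_net (h1 : S_CNT) (h2 : S_MZ) (h3 : S_RCN) (h4 : S_ANN) (h5 : S_ENTJ) : S_LEV := by
  classical
  intro d hd p hp hp2
  obtain ⟨C1, hC1, hcnt⟩ := h1
  obtain ⟨C2, hC2, hmz⟩ := h2 d p hp
  obtain ⟨C5, hC5, hent⟩ := h5 d
  have hp0 : 0 < p := by linarith
  set K : ℝ := Real.sqrt (2 * 8^d * 2^d * C1) * C2 with hK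
  have hK0 : 0 ≤ K := by positivity
  refine ⟨(C1 * 8^d + 1) + 3 + C5 * K, by positivity, ?_⟩
  intro μ lam hlam
  obtain ⟨hA1, hA2, hA3, hA4⟩ := h4 d hd μ
  have hlam0 : 0 < lam := by linarith
  have hlog : 0 ≤ Real.log lam := Real.log_nonneg hlam
  -- nets of the coefficients
  have hnet : ∀ s : Fin d → ℕ, ∃ S : Finset (PG s → ℂ),
      (S.card : ℝ) ≤ Real.exp (C1 * (Fintype.card (PG s)) * (1 + Real.log lam) / lam) ∧
      ∀ b : PG s → ℂ, ∑ y, ‖b y‖^p ≤ Fintype.card (PG s) →
        ∃ c ∈ S, ∑ y, ‖b y - c y‖^2 ≤ C1 * (Fintype.card (PG s)) * lam^(2/p - 1) :=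
    fun s => hcnt p hp hp2 (PG s) lam hlam
  choose Ss hSs1 hSs2 using hnet
  set m : ℝ := (μ:ℝ) + 1 with hm
  have hm1 : 1 ≤ m := by
    rw [hm]
    have : (0:ℝ) ≤ μ := Nat.cast_nonneg μ
    linarith
  have hm0 : 0 < m := by linarith
  set X : ℝ := 2^μ * m^(d-1) with hX
  have hX0 : 0 < X := by positivity
  set M : ℕ := max 2 ⌈X / lam⌉₊ with hM
  have hM2 : 2 ≤ M := le_max_left _ _
  have hM0 : (0:ℝ) < M := by
    have : (2:ℝ) ≤ M := by exact_mod_cast hM2
    linarith
  have hMX : X / lam ≤ M := by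
    refine (Nat.le_ceil _).trans ?_
    exact_mod_cast le_max_right _ _
  have hMle : (M:ℝ) ≤ X / lam + 3 := by
    have h0 : (0:ℝ) ≤ X / lam := by positivity
    rw [hM, Nat.cast_max]
    refine max_le ?_ ?_
    · push_cast
      linarith
    · have := (Nat.ceil_lt_add_one h0).le
      linarith
  set ρ2 : ℝ := C2^2 * (2^d * (m^(d-1) * (C1 * lam^(2/p - 1)))) with hρ2
  have hρ20 : 0 < ρ2 := by
    have : 0 < lam^(2/p-1) := Real.rpow_pos_of_pos hlam0 _
    positivity
  set ρ : ℝ := Real.sqrt ρ2 with hρ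
  have hρ0 : 0 < ρ := Real.sqrt_pos.2 hρ20
  have hρsq : ρ^2 = ρ2 := Real.sq_sqrt hρ20.le
  obtain ⟨S', hS'1, hS'2⟩ := hent (μ+1) (annl d μ) (fun _ => ρ) M hM2 hA4
  set Φ : ((s : Fin d → ℕ) → s ∈ lev d μ → PG s → ℂ) × ((annl d μ) × Fin 2 → ℝ) →
      ((annl d μ) × Fin 2 → ℝ) := fun q i =>
    lev_part ((C2 : ℂ) * ∑ s ∈ (lev d μ).attach, rco s.1 (q.1 s.1 s.2) i.1.1) i.2 + q.2 i with hΦ
  refine ⟨(((lev d μ).pi Ss) ×ˢ S').image Φ, ?_, ?_⟩
  · -- counting
    have hc1 : ((((lev d μ).pi Ss) ×ˢ S').image Φ).card ≤ (∏ s ∈ lev d μ, (Ss s).card) * S'.card := by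
      refine Finset.card_image_le.trans ?_
      rw [Finset.card_product, Finset.card_pi]
    have hc2 : ((∏ s ∈ lev d μ, (Ss s).card : ℕ) : ℝ) ≤
        Real.exp ((lev d μ).card * (C1 * (8^d * 2^μ) * (1 + Real.log lam) / lam)) := by
      push_cast
      calc ∏ s ∈ lev d μ, ((Ss s).card : ℝ) ≤
          ∏ s ∈ lev d μ, Real.exp (C1 * (8^d * 2^μ) * (1 + Real.log lam) / lam) := by
            refine Finset.prod_le_prod (fun _ _ => Nat.cast_nonneg _) fun s hs => ?_
            have := hSs1 s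
            rw [lev_card_PG, lev_sum_eq s hs] at this
            exact this
        _ = _ := by rw [Finset.prod_const, ← Real.exp_nat_mul]
    have hc3 : ((2:ℝ)^M) ≤ Real.exp (X * (1 + Real.log lam) / lam + 3) := by
      have e1 : (2:ℝ)^M ≤ Real.exp M := by
        have h2e : (2:ℝ) ≤ Real.exp 1 := by
          have := Real.add_one_le_exp (1:ℝ)
          linarith
        calc (2:ℝ)^M ≤ (Real.exp 1)^M := pow_le_pow_left₀ (by norm_num) h2e M
          _ = Real.exp M := by rw [← Real.exp_nat_mul, mul_one]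
      refine e1.trans (Real.exp_le_exp.2 (hMle.trans ?_))
      have : X / lam ≤ X * (1 + Real.log lam) / lam := by
        refine div_le_div_of_nonneg_right ?_ hlam0.le
        nlinarith [mul_nonneg hX0.le hlog]
      linarith
    have hS'c : (S'.card : ℝ) ≤ (2:ℝ)^M := by exact_mod_cast hS'1
    calc (((((lev d μ).pi Ss) ×ˢ S').image Φ).card : ℝ) ≤
        ((∏ s ∈ lev d μ, (Ss s).card : ℕ) : ℝ) * S'.card := by exact_mod_cast hc1
      _ ≤ Real.exp ((lev d μ).card * (C1 * (8^d * 2^μ) * (1 + Real.log lam) / lam)) *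
          Real.exp (X * (1 + Real.log lam) / lam + 3) :=
          mul_le_mul hc2 (hS'c.trans hc3) (Nat.cast_nonneg _) (Real.exp_pos _).le
      _ = Real.exp ((lev d μ).card * (C1 * (8^d * 2^μ) * (1 + Real.log lam) / lam) +
          (X * (1 + Real.log lam) / lam + 3)) := by rw [← Real.exp_add]
      _ ≤ _ := by
        refine Real.exp_le_exp.2 ?_
        have hq : 0 ≤ (1 + Real.log lam) / lam := by positivity
        have h6 : (lev d μ).card * (C1 * (8^d * 2^μ) * (1 + Real.log lam) / lam) ≤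
            (C1 * 8^d) * (X * (1 + Real.log lam) / lam) := by
          have e1 : ((lev d μ).card : ℝ) * (C1 * (8^d * 2^μ) * (1 + Real.log lam) / lam) =
            ((lev d μ).card : ℝ) * (C1 * 8^d * 2^μ * ((1 + Real.log lam) / lam)) := by ring
          have e2 : (C1 * 8^d) * (X * (1 + Real.log lam) / lam) =
            m^(d-1) * (C1 * 8^d * 2^μ * ((1 + Real.log lam) / lam)) := by
            rw [hX]
            ring
          rw [e1, e2]
          exact mul_le_mul_of_nonneg_right hA1 (by positivity)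
        have h7 : 0 ≤ X * (1 + Real.log lam) / lam := by positivity
        have e3 : 2^μ * m^(d-1) * (1 + Real.log lam) / lam = X * (1 + Real.log lam) / lam := by rw [hX]
        rw [e3]
        have h8 : 0 ≤ C1 * 8^d := by positivity
        have h9 : 0 ≤ C5 * K := by positivity
        nlinarith [mul_nonneg h9 h7, mul_nonneg h8 h7]
  · intro u hu
    obtain ⟨φ, hφ, rfl⟩ := hu
    -- the values on the grids
    set b : (s : Fin d → ℕ) → PG s → ℂ := fun s y => (C2 : ℂ)⁻¹ * op 0 0 s (φ s) (pgp y) with hb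
    have hbn : ∀ s ∈ lev d μ, ∑ y, ‖b s y‖^p ≤ Fintype.card (PG s) := by
      intro s hs
      have hmz1 := (hmz s (φ s) 1 zero_le_one (by simpa using hφ s hs)).1
      rw [lev_card_PG]
      have e1 : ∀ y : PG s, ‖b s y‖^p = (C2^p)⁻¹ * ‖op 0 0 s (φ s) (pgp y)‖^p := by
        intro y
        rw [hb]
        simp only
        rw [norm_mul, norm_inv, Complex.norm_real, Real.norm_eq_abs, abs_of_pos hC2,
          Real.mul_rpow (by positivity) (norm_nonneg _), Real.inv_rpow hC2.le]
      rw [Finset.sum_congr rfl fun y _ => e1 y, ← Finset.mul_sum]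
      have hCp : 0 < C2^p := Real.rpow_pos_of_pos hC2 p
      rw [mul_one] at hmz1
      rw [inv_mul_le_iff₀ hCp]
      exact hmz1
    have hex : ∀ s : Fin d → ℕ, ∃ c : PG s → ℂ, s ∈ lev d μ → c ∈ Ss s ∧
        ∑ y, ‖b s y - c y‖^2 ≤ C1 * (Fintype.card (PG s)) * lam^(2/p - 1) := by
      intro s
      by_cases hs : s ∈ lev d μ
      · obtain ⟨c, hc1, hc2⟩ := hSs2 s (b s) (hbn s hs)
        exact ⟨c, fun _ => ⟨hc1, hc2⟩⟩
      · exact ⟨0, fun h => absurd h hs⟩
    choose c hc using hex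
    -- the remainder
    set e : (Fin d → ℤ) → ℂ := fun k => (C2 : ℂ) * ∑ s ∈ lev d μ, rco s (fun y => b s y - c s y) k with he
    have hesq : ∑ k ∈ annl d μ, ‖e k‖^2 ≤ ρ2 := by
      have h6 := lev_sq_sum (d := d) (μ := μ) hA3 (fun s => (h3 d s).2.2) (fun s y => b s y - c s y)
        (C1 * lam^(2/p - 1)) (by
          intro s hs
          have := (hc s hs).2
          rw [lev_card_PG] at this
          rw [div_le_iff₀ (by positivity)]
          linarith)
      have e1 : ∀ k, ‖e k‖^2 = C2^2 * ‖∑ s ∈ lev d μ, rco s (fun y => b s y - c s y) k‖^2 := by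
        intro k
        rw [he]
        simp only
        rw [norm_mul, Complex.norm_real, Real.norm_eq_abs, abs_of_pos hC2, mul_pow]
      rw [Finset.sum_congr rfl fun k _ => e1 k, ← Finset.mul_sum, hρ2]
      refine mul_le_mul_of_nonneg_left (h6.trans ?_) (by positivity)
      refine mul_le_mul_of_nonneg_left ?_ (by positivity)
      have : 0 < lam^(2/p-1) := Real.rpow_pos_of_pos hlam0 _
      exact mul_le_mul_of_nonneg_right hA1 (by positivity)
    set a : (annl d μ) × Fin 2 → ℝ := fun i => lev_part (e i.1.1) i.2 / ρ with ha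
    have ha1 : ∑ i, a i ^ 2 ≤ 1 := by
      rw [Fintype.sum_prod_type]
      have e1 : ∀ k : (annl d μ), ∑ j : Fin 2, a (k, j)^2 = ‖e k.1‖^2 / ρ2 := by
        intro k
        rw [Fin.sum_univ_two, ha]
        simp only
        rw [div_pow, div_pow, ← add_div, lev_part_sq, hρsq]
      rw [Finset.sum_congr rfl fun k _ => e1 k, ← Finset.sum_div]
      rw [Finset.sum_coe_sort (annl d μ) (fun k => ‖e k‖^2)]
      rw [div_le_one hρ20]
      exact hesq
    obtain ⟨s', hs', hs'2⟩ := hS'2 a ha1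
    refine ⟨Φ (fun s _ => c s, s'), ?_, ?_⟩
    · refine Finset.mem_image_of_mem _ (Finset.mem_product.2 ⟨?_, hs'⟩)
      rw [Finset.mem_pi]
      intro s hs
      exact (hc s hs).1
    · intro x
      have hu1 : ∑ s ∈ lev d μ, op 0 0 s (φ s) x =
          ∑ k ∈ annl d μ, ((C2 : ℂ) * ∑ s ∈ lev d μ, rco s (b s) k) * chi k x := by
        have e1 : ∀ s ∈ lev d μ, op 0 0 s (φ s) x = ∑ k ∈ annl d μ, (C2 : ℂ) * rco s (b s) k * chi k x := by
          intro s hs
          rw [(h3 d s).2.1 (φ s) x]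
          have e2 : ∀ k, rco s (fun y => op 0 0 s (φ s) (pgp y)) k = (C2 : ℂ) * rco s (b s) k := by
            intro k
            rw [← lev_rco_smul]
            congr 1
            funext y
            rw [hb]
            simp only
            rw [← mul_assoc, mul_inv_cancel₀ (by exact_mod_cast hC2.ne'), one_mul]
          rw [Finset.sum_congr rfl fun k _ => by rw [e2 k]]
          refine Finset.sum_subset (Finset.subset_biUnion_of_mem ann hs) ?_
          intro k _ hk
          rw [lev_rco_zero s _ k hk]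
          ring
        rw [Finset.sum_congr rfl e1, Finset.sum_comm]
        refine Finset.sum_congr rfl fun k _ => ?_
        rw [← Finset.sum_mul, ← Finset.mul_sum]
      have hgp : gp (annl d μ) (Φ (fun s _ => c s, s')) x =
          (∑ k ∈ annl d μ, ((C2 : ℂ) * ∑ s ∈ lev d μ, rco s (c s) k) * chi k x) + gp (annl d μ) s' x := by
        have e1 : Φ (fun s _ => c s, s') = fun i =>
            lev_part ((C2 : ℂ) * ∑ s ∈ lev d μ, rco s (c s) i.1.1) i.2 + s' i := by
          funext i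
          rw [hΦ]
          simp only
          rw [Finset.sum_attach (lev d μ) (fun s => rco s (c s) i.1.1)]
        rw [e1, lev_gp_add, lev_gp_part (annl d μ) (fun k => (C2 : ℂ) * ∑ s ∈ lev d μ, rco s (c s) k)]
      have hdiff : ∑ s ∈ lev d μ, op 0 0 s (φ s) x - gp (annl d μ) (Φ (fun s _ => c s, s')) x =
          gp (annl d μ) (fun i => ρ * a i - s' i) x := by
        rw [hu1, hgp, lev_gp_sub]
        have e1 : (fun i : (annl d μ) × Fin 2 => ρ * a i) = fun i => lev_part (e i.1.1) i.2 := by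
          funext i
          rw [ha]
          simp only
          field_simp
        rw [e1, lev_gp_part, ← sub_sub, ← Finset.sum_sub_distrib]
        congr 1
        refine Finset.sum_congr rfl fun k _ => ?_
        rw [he]
        simp only [lev_rco_sub, Finset.sum_sub_distrib]
        ring
      rw [hdiff]
      refine (hs'2 x).trans ?_
      have hpos1 : 0 < lam^(1/p) := Real.rpow_pos_of_pos hlam0 _
      have hpos2 : 0 < m^((d:ℝ)/2) := Real.rpow_pos_of_pos hm0 _
      have hsq : Real.sqrt ((((μ+1:ℕ):ℝ)+1) * (∑ l ∈ annl d μ, ρ^2) / M) ≤ K * (m^((d:ℝ)/2) * lam^(1/p)) := by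
        rw [Real.sqrt_le_left (by positivity)]
        rw [Finset.sum_const, nsmul_eq_mul, hρsq]
        have f1 : (((μ+1:ℕ):ℝ)+1) ≤ 2 * m := by
          push_cast
          rw [hm]
          have : (0:ℝ) ≤ μ := Nat.cast_nonneg μ
          linarith
        have f2 : ((annl d μ).card : ℝ) ≤ 8^d * X := by
          rw [hX]
          refine hA2.trans (le_of_eq ?_)
          ring
        have f3 : X / M ≤ lam := by
          rw [div_le_iff₀ hM0]
          rw [div_le_iff₀ hlam0] at hMX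
          linarith
        have f4 : (((μ+1:ℕ):ℝ)+1) * ((annl d μ).card * ρ2) / M ≤ (2 * m) * (8^d * lam * ρ2) := by
          calc (((μ+1:ℕ):ℝ)+1) * ((annl d μ).card * ρ2) / M ≤ (2 * m) * ((8^d * X) * ρ2) / M := by
                refine div_le_div_of_nonneg_right ?_ hM0.le
                refine mul_le_mul f1 (mul_le_mul_of_nonneg_right f2 hρ20.le) (by positivity) (by positivity)
            _ = (2 * m) * (8^d * (X / M) * ρ2) := by ring
            _ ≤ (2 * m) * (8^d * lam * ρ2) := by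
                refine mul_le_mul_of_nonneg_left ?_ (by positivity)
                refine mul_le_mul_of_nonneg_right ?_ hρ20.le
                exact mul_le_mul_of_nonneg_left f3 (by positivity)
        refine f4.trans (le_of_eq ?_)
        have g1 : (m^((d:ℝ)/2))^2 = m^(d-1) * m := by
          rw [← Real.rpow_natCast (m^((d:ℝ)/2)) 2, ← Real.rpow_mul hm0.le, ← pow_succ,
            Nat.sub_add_cancel hd, ← Real.rpow_natCast m d]
          congr 1
          push_cast
          ring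
        have g2 : (lam^(1/p))^2 = lam * lam^(2/p-1) := by
          rw [← Real.rpow_natCast (lam^(1/p)) 2, ← Real.rpow_mul hlam0.le]
          nth_rewrite 2 [← Real.rpow_one lam]
          rw [← Real.rpow_add hlam0]
          congr 1
          push_cast
          ring
        have g3 : K^2 = 2 * 8^d * 2^d * C1 * C2^2 := by
          rw [hK, mul_pow, Real.sq_sqrt (by positivity)]
        rw [mul_pow K, mul_pow (m^((d:ℝ)/2)), g1, g2, g3, hρ2]
        ring
      calc C5 * Real.sqrt ((((μ+1:ℕ):ℝ)+1) * (∑ l ∈ annl d μ, ρ^2) / M)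
          ≤ C5 * (K * (m^((d:ℝ)/2) * lam^(1/p))) := mul_le_mul_of_nonneg_left hsq hC5.le
        _ = (C5 * K) * (m^((d:ℝ)/2) * lam^(1/p)) := by ring
        _ ≤ ((C1 * 8^d + 1) + 3 + C5 * K) * (m^((d:ℝ)/2) * lam^(1/p)) := by
            refine mul_le_mul_of_nonneg_right ?_ (by positivity)
            have : 0 ≤ C1 * 8^d := by positivity
            linarith
        _ = _ := by ring

end SmSm
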