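import Pool.Agent.H636R2.SM.SpecP
import Pool.Agent.H636R2.HE.P_cov_vol
open MeasureTheory Real ProbabilityTheory
open scoped ENNReal BigOperators BoundedContinuousFunction

namespace SmSm
open HypVol MWidth

/-- maximal separated sets are nets -/
theorem levf_net {E : Type*} [NormedAddCommGroup E] [NormedSpace ℝ E] [FiniteDimensional ℝ E]
    (r t : ℝ) (hr : 0 ≤ r) (ht : 0 < t) :
    ∃ s : Finset E, (s.card : ℝ) ≤ (1 + 2 * r / t) ^ (Module.finrank ℝ E) ∧
      ∀ x : E, ‖x‖ ≤ r → ∃ c ∈ s, ‖x - c‖ ≤ t := by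
  classical
  let Q : Finset E → Prop := fun s => (∀ c ∈ s, ‖c‖ ≤ r) ∧
    ∀ c ∈ s, ∀ d ∈ s, c ≠ d → t ≤ ‖c - d‖
  have hcard : ∀ s, Q s → (s.card : ℝ) ≤ (1 + 2 * r / t)^(Module.finrank ℝ E) := by
    intro s hs
    exact HypVolE.S_cov_vol.cov_vol_card s r t hr ht hs.1 hs.2
  let S : Set ℕ := {n | ∃ s, Q s ∧ s.card = n}
  have hS0 : S.Nonempty := ⟨0, ∅, ⟨by simp, by simp⟩, rfl⟩
  have hSb : BddAbove S := by
    refine ⟨⌊(1 + 2 * r / t)^(Module.finrank ℝ E)⌋₊, ?_⟩
    rintro n ⟨s, hs, rfl⟩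
    exact Nat.le_floor (hcard s hs)
  obtain ⟨s, hs, hsn⟩ := Nat.sSup_mem hS0 hSb
  refine ⟨s, hcard s hs, ?_⟩
  intro a' hna
  by_contra hcon
  push Not at hcon
  have hnot : a' ∉ s := by
    intro hmem
    have := hcon a' hmem
    rw [sub_self, norm_zero] at this
    linarith
  have hQ : Q (insert a' s) := by
    refine ⟨?_, ?_⟩
    · intro c hc
      rcases Finset.mem_insert.mp hc with rfl | hc
      · exact hna
      · exact hs.1 c hc
    · intro c hc d hd hcd
      rcases Finset.mem_insert.mp hc with h1 | h1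
      · rcases Finset.mem_insert.mp hd with h2 | h2
        · exact absurd (h1.trans h2.symm) hcd
        · rw [h1]; exact (hcon d h2).le
      · rcases Finset.mem_insert.mp hd with h2 | h2
        · rw [h2, norm_sub_rev]; exact (hcon c h1).le
        · exact hs.2 c h1 d h2 hcd
  have hle : (insert a' s).card ≤ sSup S := le_csSup hSb ⟨_, hQ, rfl⟩
  rw [Finset.card_insert_of_notMem hnot, ← hsn] at hle
  omega

theorem levf_cont {d : ℕ} (Λ : Finset (Fin d → ℤ)) (a : Λ × Fin 2 → ℝ) : Continuous (gp Λ a) := by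
  unfold gp
  fun_prop

theorem levf_bdd {d : ℕ} (Λ : Finset (Fin d → ℤ)) (a : Λ × Fin 2 → ℝ) (x : Fin d → ℝ) :
    ‖gp Λ a x‖ ≤ ∑ k : Λ, ‖((a (k, 0) : ℂ) + (a (k, 1) : ℂ) * Complex.I)‖ := by
  unfold gp
  refine (norm_sum_le _ _).trans (Finset.sum_le_sum fun k _ => ?_)
  rw [norm_mul, mul_comm Complex.I, Complex.norm_exp_ofReal_mul_I, mul_one]

theorem levf_add {d : ℕ} (Λ : Finset (Fin d → ℤ)) (a b : Λ × Fin 2 → ℝ) (x : Fin d → ℝ) :
    gp Λ (a + b) x = gp Λ a x + gp Λ b x := by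
  unfold gp
  rw [← Finset.sum_add_distrib]
  refine Finset.sum_congr rfl fun k _ => ?_
  simp only [Pi.add_apply]
  push_cast
  ring

theorem levf_smul {d : ℕ} (Λ : Finset (Fin d → ℤ)) (c : ℝ) (a : Λ × Fin 2 → ℝ) (x : Fin d → ℝ) :
    gp Λ (c • a) x = c • gp Λ a x := by
  unfold gp
  rw [Finset.smul_sum]
  refine Finset.sum_congr rfl fun k _ => ?_
  simp only [Pi.smul_apply, smul_eq_mul, Complex.real_smul]
  push_cast
  ring

/-- `gp` as a linear map into bounded continuous functions -/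
noncomputable def levf_G {d : ℕ} (Λ : Finset (Fin d → ℤ)) :
    (Λ × Fin 2 → ℝ) →ₗ[ℝ] ((Fin d → ℝ) →ᵇ ℂ) where
  toFun a := BoundedContinuousFunction.ofNormedAddCommGroup (gp Λ a) (levf_cont Λ a) _
    (levf_bdd Λ a)
  map_add' a b := by
    ext x
    exact levf_add Λ a b x
  map_smul' c a := by
    ext x
    exact levf_smul Λ c a x

theorem levf_G_apply {d : ℕ} (Λ : Finset (Fin d → ℤ)) (a : Λ × Fin 2 → ℝ) (x : Fin d → ℝ) :
    levf_G Λ a x = gp Λ a x := rfl

/-- net of a ball in the space of trigonometric polynomials with spectrum in `Λ` -/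
theorem levf_gpnet {d : ℕ} (Λ : Finset (Fin d → ℤ)) (r t : ℝ) (hr : 0 ≤ r) (ht : 0 < t) :
    ∃ s : Finset (Λ × Fin 2 → ℝ), (s.card : ℝ) ≤ (1 + 2 * r / t) ^ (2 * Λ.card) ∧
      ∀ a : Λ × Fin 2 → ℝ, (∀ x, ‖gp Λ a x‖ ≤ r) → ∃ b ∈ s, ∀ x, ‖gp Λ a x - gp Λ b x‖ ≤ t := by
  classical
  obtain ⟨s, hs, hnet⟩ := levf_net (E := LinearMap.range (levf_G Λ)) r t hr ht
  have hpre : ∀ e : LinearMap.range (levf_G Λ), ∃ b, levf_G Λ b = e.1 := fun e => e.2
  choose pre hpre using hpre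
  refine ⟨s.image pre, ?_, ?_⟩
  · have h1 : ((s.image pre).card : ℝ) ≤ s.card := by exact_mod_cast Finset.card_image_le
    refine h1.trans (hs.trans ?_)
    apply pow_le_pow_right₀
    · have : 0 ≤ 2 * r / t := by positivity
      linarith
    · refine (LinearMap.finrank_range_le (levf_G Λ)).trans ?_
      rw [Module.finrank_fintype_fun_eq_card, Fintype.card_prod, Fintype.card_fin,
        Fintype.card_coe, mul_comm]
  · intro a ha
    have h1 : ‖(⟨levf_G Λ a, ⟨a, rfl⟩⟩ : LinearMap.range (levf_G Λ))‖ ≤ r := by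
      rw [Submodule.coe_norm]
      exact (BoundedContinuousFunction.norm_le hr).mpr (fun x => ha x)
    obtain ⟨c, hc, hd⟩ := hnet _ h1
    refine ⟨pre c, Finset.mem_image_of_mem _ hc, fun x => ?_⟩
    have h2 : ‖levf_G Λ a - c.1‖ ≤ t := by
      have := hd
      rw [Submodule.coe_norm] at this
      exact this
    have h3 := (levf_G Λ a - c.1).norm_coe_le_norm x
    rw [← hpre c] at h2 h3
    exact h3.trans h2

/-- functions of `LV` are trigonometric polynomials -/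
theorem levf_rep (h2 : S_RCN) (d : ℕ) (p : ℝ) (μ : ℕ) (u : (Fin d → ℝ) → ℂ) (hu : u ∈ LV d p μ) :
    ∃ a : (annl d μ) × Fin 2 → ℝ, ∀ x, u x = gp (annl d μ) a x := by
  classical
  obtain ⟨φ, -, rfl⟩ := hu
  let c : (Fin d → ℤ) → ℂ := fun k => ∑ s ∈ lev d μ,
    if k ∈ ann s then rco s (fun y => op 0 0 s (φ s) (pgp y)) k else 0
  refine ⟨fun q => if q.2 = 0 then (c q.1.1).re else (c q.1.1).im, fun x => ?_⟩
  have h3 : gp (annl d μ) (fun q => if q.2 = 0 then (c q.1.1).re else (c q.1.1).im) x =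
      ∑ k ∈ annl d μ, c k * chi k x := by
    unfold gp chi
    rw [← Finset.sum_coe_sort (annl d μ)]
    refine Finset.sum_congr rfl fun k _ => ?_
    simp only [if_true, if_neg (one_ne_zero : (1 : Fin 2) ≠ 0)]
    rw [Complex.re_add_im]
  rw [h3]
  have h4 : ∀ s ∈ lev d μ, op 0 0 s (φ s) x = ∑ k ∈ annl d μ,
      (if k ∈ ann s then rco s (fun y => op 0 0 s (φ s) (pgp y)) k else 0) * chi k x := by
    intro s hs
    rw [(h2 d s).2.1 (φ s) x]
    have hsub : ann s ⊆ annl d μ := fun k hk => Finset.mem_biUnion.mpr ⟨s, hs, hk⟩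
    rw [← Finset.sum_subset hsub (f := fun k =>
      (if k ∈ ann s then rco s (fun y => op 0 0 s (φ s) (pgp y)) k else 0) * chi k x)]
    · refine Finset.sum_congr rfl fun k hk => ?_
      rw [if_pos hk]
    · intro k _ hk
      rw [if_neg hk, zero_mul]
  have h5 : (fun x => ∑ s ∈ lev d μ, op 0 0 s (φ s) x) x = ∑ s ∈ lev d μ, op 0 0 s (φ s) x := rfl
  rw [h5, Finset.sum_congr rfl h4, Finset.sum_comm]
  refine Finset.sum_congr rfl fun k _ => ?_
  rw [← Finset.sum_mul]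

theorem levf (h1 : S_LEV) (h2 : S_RCN) (h3 : S_ANN) : S_LEVF := by
  classical
  intro d hd p hp1 hp2
  obtain ⟨C1, hC1, hlev⟩ := h1 d hd p hp1 hp2
  refine ⟨2 * C1 + 4 * 8 ^ d, by positivity, ?_⟩
  intro μ η hη0 hη1
  obtain ⟨S1, hS1, hcov⟩ := hlev μ 1 le_rfl
  have hd2 : 0 < ((μ : ℝ) + 1) ^ ((d : ℝ) / 2) := by positivity
  set ρ : ℝ := C1 * ((μ : ℝ) + 1) ^ ((d : ℝ) / 2) with hρ
  have hρ0 : 0 < ρ := by positivity
  obtain ⟨s, hs, hnet⟩ := levf_gpnet (annl d μ) ρ (η * ρ) hρ0.le (by positivity)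
  refine ⟨(S1 ×ˢ s).image (fun q => q.1 + q.2), ?_, ?_⟩
  · have hc1 : (((S1 ×ˢ s).image (fun q => q.1 + q.2)).card : ℝ) ≤ (S1.card : ℝ) * s.card := by
      have := (Finset.card_image_le (s := S1 ×ˢ s) (f := fun q => q.1 + q.2))
      rw [Finset.card_product] at this
      exact_mod_cast this
    refine hc1.trans ?_
    rw [Real.log_one, add_zero, mul_one, div_one] at hS1
    set X : ℝ := 2 ^ μ * ((μ : ℝ) + 1) ^ (d - 1) with hX
    have hX1 : 1 ≤ X := by
      have h4 : (1 : ℝ) ≤ 2 ^ μ := one_le_pow₀ (by norm_num)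
      have h5 : (1 : ℝ) ≤ ((μ : ℝ) + 1) ^ (d - 1) :=
        one_le_pow₀ (by have := (Nat.cast_nonneg μ : (0:ℝ) ≤ (μ:ℝ)); linarith)
      calc (1 : ℝ) = 1 * 1 := by ring
        _ ≤ X := mul_le_mul h4 h5 (by norm_num) (by positivity)
    set ℓ : ℝ := Real.log (1 / η) with hℓ
    have hℓ0 : 0 ≤ ℓ := Real.log_nonneg (by rw [le_div_iff₀ hη0]; linarith)
    have hlog : Real.log (1 + 2 / η) ≤ 2 * (1 + ℓ) := by
      have h6 : 1 + 2 / η ≤ 3 * (1 / η) := by
        have : (1 : ℝ) ≤ 1 / η := by rw [le_div_iff₀ hη0]; linarith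
        have h7 : 2 / η = 2 * (1 / η) := by ring
        rw [h7]; linarith
      have h8 : Real.log (1 + 2 / η) ≤ Real.log (3 * (1 / η)) :=
        Real.log_le_log (by positivity) h6
      rw [Real.log_mul (by norm_num) (by positivity)] at h8
      have h9 : Real.log 3 ≤ 2 := by
        have := Real.log_le_sub_one_of_pos (by norm_num : (0:ℝ) < 3)
        linarith
      linarith
    have hcard : ((annl d μ).card : ℝ) ≤ 8 ^ d * X := by
      have := (h3 d hd μ).2.1
      rw [hX, ← mul_assoc]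
      exact this
    have hs' : (s.card : ℝ) ≤ Real.exp (4 * 8 ^ d * X * (1 + ℓ)) := by
      have h10 : 1 + 2 * ρ / (η * ρ) = 1 + 2 / η := by
        field_simp
      rw [h10] at hs
      refine hs.trans ?_
      have h11 : (0:ℝ) < 1 + 2 / η := by positivity
      rw [← Real.exp_log h11, ← Real.exp_nat_mul]
      apply Real.exp_le_exp.mpr
      push_cast
      have h12 : 0 ≤ Real.log (1 + 2 / η) := Real.log_nonneg (by
        have : 0 < 2 / η := by positivity
        linarith)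
      calc 2 * ((annl d μ).card : ℝ) * Real.log (1 + 2 / η)
          ≤ 2 * (8 ^ d * X) * (2 * (1 + ℓ)) := by
            apply mul_le_mul _ hlog h12 (by positivity)
            linarith
        _ = 4 * 8 ^ d * X * (1 + ℓ) := by ring
    calc (S1.card : ℝ) * s.card
        ≤ Real.exp (C1 * (X + 1)) * Real.exp (4 * 8 ^ d * X * (1 + ℓ)) :=
          mul_le_mul hS1 hs' (by positivity) (by positivity)
      _ = Real.exp (C1 * (X + 1) + 4 * 8 ^ d * X * (1 + ℓ)) := by rw [Real.exp_add]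
      _ ≤ Real.exp ((2 * C1 + 4 * 8 ^ d) * (X * (1 + ℓ))) := by
          apply Real.exp_le_exp.mpr
          have h13 : C1 * (X + 1) ≤ 2 * C1 * (X * (1 + ℓ)) := by
            have h14 : X + 1 ≤ 2 * (X * (1 + ℓ)) := by nlinarith
            nlinarith
          linarith
  · intro u hu
    obtain ⟨a, ha⟩ := levf_rep h2 d p μ u hu
    obtain ⟨a1, ha1, hb⟩ := hcov u hu
    have hdiff : ∀ x, ‖gp (annl d μ) (a - a1) x‖ ≤ ρ := by
      intro x
      have h5 : gp (annl d μ) (a - a1) x = u x - gp (annl d μ) a1 x := by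
        rw [ha x, sub_eq_add_neg, levf_add]
        have := levf_smul (annl d μ) (-1) a1 x
        rw [neg_one_smul, neg_one_smul] at this
        rw [this, sub_eq_add_neg]
      rw [h5]
      have h6 := hb x
      rwa [Real.one_rpow, mul_one] at h6
    obtain ⟨b, hbs, hb2⟩ := hnet (a - a1) hdiff
    refine ⟨a1 + b, Finset.mem_image.mpr ⟨(a1, b), Finset.mem_product.mpr ⟨ha1, hbs⟩, rfl⟩,
      fun x => ?_⟩
    have h7 : u x - gp (annl d μ) (a1 + b) x =
        gp (annl d μ) (a - a1) x - gp (annl d μ) b x := by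
      have h8 : gp (annl d μ) a x = gp (annl d μ) (a - a1) x + gp (annl d μ) a1 x := by
        rw [← levf_add, sub_add_cancel]
      rw [ha x, levf_add, h8]
      ring
    rw [h7]
    refine (hb2 x).trans ?_
    have h9 : η * ρ = C1 * ((μ : ℝ) + 1) ^ ((d : ℝ) / 2) * η := by rw [hρ]; ring
    rw [h9]
    apply mul_le_mul_of_nonneg_right _ hη0.le
    apply mul_le_mul_of_nonneg_right _ hd2.le
    have : (0:ℝ) < 8 ^ d := by positivity
    linarith

end SmSm
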