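import Pool.Agent.H636R2.SM.SpecH
open MeasureTheory Real ProbabilityTheory
open scoped ENNReal BigOperators ComplexConjugate

namespace SmSm
open HypVol MWidth

/-- `c 2^n n^(d-1)` is eventually at least any constant -/
theorem lowhb0_large (d : ℕ) (c A : ℝ) (hc : 0 < c) :
    ∃ n1 : ℕ, 2 ≤ n1 ∧ ∀ n : ℕ, n1 ≤ n → A ≤ c * 2^n * (n:ℝ)^(d-1) := by
  refine ⟨max 2 ⌈A/c⌉₊, le_max_left _ _, fun n hn => ?_⟩
  have hn2 : 2 ≤ n := (le_max_left _ _).trans hn
  have h1 : A/c ≤ n := (Nat.le_ceil _).trans (by exact_mod_cast (le_max_right _ _).trans hn)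
  have h2 : (n:ℝ) ≤ 2^n := by exact_mod_cast (Nat.lt_two_pow_self).le
  have h3 : (1:ℝ) ≤ (n:ℝ)^(d-1) := one_le_pow₀ (by exact_mod_cast (by omega : 1 ≤ n))
  rw [div_le_iff₀ hc] at h1
  calc A ≤ n * c := h1
    _ ≤ 2^n * c := mul_le_mul_of_nonneg_right h2 hc.le
    _ = c * 2^n * 1 := by ring
    _ ≤ c * 2^n * (n:ℝ)^(d-1) := mul_le_mul_of_nonneg_left h3 (by positivity)

theorem lowhb0_Q (d n : ℕ) (hn : 0 < n) :
    (n:ℝ)^((d:ℝ)/2) * (2:ℝ)^(-((n:ℝ)/2)) = Real.sqrt ((n:ℝ)^d / 2^n) := by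
  have hn0 : (0:ℝ) < n := by exact_mod_cast hn
  rw [Real.sqrt_div (by positivity), Real.rpow_neg (by norm_num), ← div_eq_mul_inv]
  congr 1
  · rw [Real.sqrt_eq_rpow, ← Real.rpow_natCast, ← Real.rpow_mul hn0.le]
    congr 1; ring
  · rw [Real.sqrt_eq_rpow, ← Real.rpow_natCast, ← Real.rpow_mul (by norm_num)]
    congr 1; ring

/-- **LOWHB0** -/
theorem lowhb0 (h1 : S_FAMHB) (h2 : S_PIGH) (h3 : S_ENTJ) : S_LOWHB0 := by
  intro d hd
  obtain ⟨c1, C, na, hc1, hC, hfam⟩ := h1 d hd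
  obtain ⟨C', hC', hent⟩ := h3 d
  obtain ⟨nb, hnb2, hnb⟩ := lowhb0_large d c1 8 hc1
  set C'' : ℝ := Real.sqrt (48 / c1) * C' * C with hC''
  have hC''p : 0 < C'' := by positivity
  set B : ℝ := 4 * C'' / c1 + 1 with hB
  have hBp : 1 ≤ B := by
    have : 0 ≤ 4 * C'' / c1 := by positivity
    rw [hB]; linarith
  have hB0 : 0 < B := by linarith
  have hBc : C'' / B ≤ c1 / 4 := by
    rw [div_le_iff₀ hB0, hB]
    have : c1 / 4 * (4 * C'' / c1 + 1) = C'' + c1 / 4 := by field_simp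
    rw [this]; linarith
  refine ⟨min (c1/4) (c1/(4 * B)), max na nb, by positivity, ?_⟩
  intro n hn k hk
  have hna : na ≤ n := (le_max_left _ _).trans hn
  have hnb' : nb ≤ n := (le_max_right _ _).trans hn
  have hn2 : 2 ≤ n := hnb2.trans hnb'
  have hn0 : (0:ℝ) < n := by positivity
  have hn1 : (1:ℝ) ≤ n := by exact_mod_cast (by omega : 1 ≤ n)
  have hT8 := hnb n hnb'
  set T : ℝ := c1 * 2^n * (n:ℝ)^(d-1) with hT
  have hTp : 0 < T := by positivity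
  set k1 : ℕ := ⌊T/4⌋₊ with hk1
  have hk1up : (k1:ℝ) ≤ T/4 := Nat.floor_le (by positivity)
  have hk1lt : T/4 < k1 + 1 := Nat.lt_floor_add_one _
  have hk1low : T/8 ≤ k1 := by linarith
  have hk12 : 2 ≤ k1 := by
    have : (1:ℝ) < k1 := by linarith
    have : 1 < k1 := by exact_mod_cast this
    omega
  have hk10 : (0:ℝ) < k1 := by positivity
  have hkT : (k:ℝ) ≤ T/4 := by
    refine hk.trans ?_
    have e1 : min (c1/4) (c1/(4 * B)) * 2^n * (n:ℝ)^(d-1) ≤ (c1/4) * 2^n * (n:ℝ)^(d-1) :=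
      mul_le_mul_of_nonneg_right (mul_le_mul_of_nonneg_right (min_le_left _ _) (by positivity)) (by positivity)
    refine e1.trans (le_of_eq ?_)
    rw [hT]; ring
  have hL1 : (1:ℝ) ≤ (Nat.log 2 n : ℝ) := by
    have : 1 ≤ Nat.log 2 n := Nat.log_pos (by norm_num) hn2
    exact_mod_cast this
  set L : ℝ := (Nat.log 2 n : ℝ) with hL
  have hL0 : 0 < L := by linarith
  set Q : ℝ := Real.sqrt ((n:ℝ)^d / 2^n) with hQ
  have hQp : 0 < Q := by positivity
  set R : ℝ := C / B * L * (n:ℝ)^(d-1) with hR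
  have hRp : 0 < R := by positivity
  set ε1 : ℝ := C' * Real.sqrt ((((2 * n + 3 : ℕ) : ℝ)+1) * R^2 / k1) with hε1
  have hε1p : 0 < ε1 := by positivity
  have hε1le : ε1 ≤ c1 / 4 * L * Q := by
    have e1 : (((2 * n + 3 : ℕ) : ℝ)+1) ≤ 6 * n := by
      push_cast; have : (2:ℝ) ≤ n := by exact_mod_cast hn2
      linarith
    have e2 : (((2 * n + 3 : ℕ) : ℝ)+1) * R^2 / k1 ≤ 6 * n * R^2 / (T/8) := by
      refine div_le_div₀ (by positivity) (mul_le_mul_of_nonneg_right e1 (by positivity)) (by positivity) hk1low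
    have e3 : 6 * n * R^2 / (T/8) = (48 / c1) * (C / B * L)^2 * ((n:ℝ)^d / 2^n) := by
      have e4 : (n:ℝ)^d = n * (n:ℝ)^(d-1) := by
        rw [← pow_succ']; congr 1; omega
      rw [hR, hT, e4]
      field_simp
      ring
    have e5 : ε1 ≤ C' * Real.sqrt ((48 / c1) * (C / B * L)^2 * ((n:ℝ)^d / 2^n)) := by
      rw [← e3]
      exact mul_le_mul_of_nonneg_left (Real.sqrt_le_sqrt e2) hC'.le
    refine e5.trans ?_
    rw [Real.sqrt_mul (by positivity), Real.sqrt_mul (by positivity), Real.sqrt_sq (by positivity), ← hQ]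
    calc C' * (Real.sqrt (48 / c1) * (C / B * L) * Q) = (C'' / B) * L * Q := by
          rw [hC'']; ring
      _ ≤ c1 / 4 * L * Q := by
          refine mul_le_mul_of_nonneg_right (mul_le_mul_of_nonneg_right hBc hL0.le) hQp.le
  unfold entNum
  refine le_iInf fun ε => le_iInf fun hε => ?_
  rcases eq_or_ne ε ⊤ with htop | htop
  · rw [htop]; exact le_top
  have hε0 : 0 < ε.toReal := ENNReal.toReal_pos hε.1.ne' htop
  have hεe : ENNReal.ofReal ε.toReal = ε := ENNReal.ofReal_toReal htop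
  have hexp : (2:ℝ)^k1 * 2^k < Real.exp (c1 * 2^n * (n:ℝ)^(d-1)) := by
    have e1 : (2:ℝ)^k1 * 2^k = Real.exp (((k1:ℝ) + k) * Real.log 2) := by
      rw [add_mul, Real.exp_add]
      congr 1
      · rw [mul_comm, ← Real.rpow_def_of_pos (by norm_num), Real.rpow_natCast]
      · rw [mul_comm, ← Real.rpow_def_of_pos (by norm_num), Real.rpow_natCast]
    rw [e1]
    refine Real.exp_lt_exp.2 ?_
    have e2 : Real.log 2 ≤ 1 := by
      have := Real.log_two_lt_d9; linarith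
    have e4 : ((k1:ℝ) + k) * Real.log 2 ≤ ((k1:ℝ) + k) * 1 := mul_le_mul_of_nonneg_left e2 (by positivity)
    rw [← hT]
    linarith
  have hF := hfam n hna B hBp
  rw [← hL] at hF
  have hfamQ : c1 * L * (n:ℝ)^((d:ℝ)/2) * (2:ℝ)^(-((n:ℝ)/2)) = c1 * L * Q := by
    rw [hQ, ← lowhb0_Q d n (by omega)]; ring
  rw [hfamQ, ← hR] at hF
  have hpig := h2 d (1/2) (Real.exp (c1 * 2^n * (n:ℝ)^(d-1))) (c1 * L * Q) B R ε1 ε.toReal (2 * n + 3)
    k1 k (by omega) hB0 hε1p hε0 hF (by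
      intro Λ w hΛ hw
      obtain ⟨S, hS1, hS2⟩ := hent (2 * n + 3) Λ w k1 hk12 hΛ
      refine ⟨S, hS1, fun a ha => ?_⟩
      obtain ⟨s, hs, hs2⟩ := hS2 a ha
      refine ⟨s, hs, fun x => (hs2 x).trans ?_⟩
      rw [hε1]
      refine mul_le_mul_of_nonneg_left (Real.sqrt_le_sqrt ?_) hC'.le
      exact div_le_div_of_nonneg_right (mul_le_mul_of_nonneg_left hw (by positivity)) hk10.le)
    (by rw [hεe]; exact hε.2) hexp
  have hA3 : c1/(4 * B) * (L * Q) ≤ ε.toReal := by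
    have e1 : c1 * L * Q / 2 ≤ 2 * B * ε.toReal := by linarith
    have e2 : c1/(4 * B) * (L * Q) = (c1 * L * Q / 2) / (2 * B) := by
      field_simp; ring
    rw [e2, div_le_iff₀ (by positivity)]
    linarith
  rw [← hεe]
  refine ENNReal.ofReal_le_ofReal (le_trans ?_ hA3)
  have e6 : min (c1/4) (c1/(4 * B)) * L * (n:ℝ)^((d:ℝ)/2) * (2:ℝ)^(-((n:ℝ)/2))
      = min (c1/4) (c1/(4 * B)) * (L * Q) := by
    rw [hQ, ← lowhb0_Q d n (by omega)]; ring
  rw [e6]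
  exact mul_le_mul_of_nonneg_right (min_le_right _ _) (by positivity)

end SmSm
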