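import Pool.Agent.H636R2.SM.SpecP

/-! LSUP: sup norm on the level sets (helper368). -/

open MeasureTheory Real ProbabilityTheory
open scoped ENNReal BigOperators

namespace SmSm
open HypVol MWidth

theorem lsup_chi_cont {d : ℕ} (k : Fin d → ℤ) : Continuous (fun x : Fin d → ℝ => chi k x) := by
  unfold chi
  refine Complex.continuous_exp.comp (continuous_const.mul (Complex.continuous_ofReal.comp ?_))
  exact continuous_finsetSum _ fun j _ => continuous_const.mul (continuous_apply j)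

theorem lsup_op_cont {d : ℕ} (s : Fin d → ℕ) (φ : (Fin d → ℝ) → ℂ) :
    Continuous (fun x : Fin d → ℝ => op 0 0 s φ x) := by
  unfold op
  exact continuous_finsetSum _ fun k _ => continuous_const.mul (lsup_chi_cont k)

theorem lsup_lev_sum {d μ : ℕ} {s : Fin d → ℕ} (hs : s ∈ lev d μ) :
    (∑ j, (s j : ℝ)) = μ := by
  have h := (Finset.mem_filter.1 hs).2
  rw [← h]
  push_cast
  rfl

theorem lsup (h1 : S_MZ) (h2 : S_ANN) : S_LSUP := by
  intro d hd p hp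
  obtain ⟨C, hC, H⟩ := h1 d p hp
  refine ⟨C, hC, ?_⟩
  rintro μ u ⟨φ, hφ, rfl⟩
  refine ⟨continuous_finsetSum _ fun s _ => lsup_op_cont s (φ s), ?_⟩
  intro x
  have hb : ∀ s ∈ lev d μ, ‖op 0 0 s (φ s) x‖ ≤ C * (2:ℝ)^((μ:ℝ)/p) := by
    intro s hs
    have := (H s (φ s) 1 zero_le_one (by rw [ENNReal.ofReal_one]; exact hφ s hs)).2 x
    rw [lsup_lev_sum hs, mul_one] at this
    exact this
  have hc := (h2 d hd μ).1
  have hpos : 0 ≤ C * (2:ℝ)^((μ:ℝ)/p) := by positivity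
  calc ‖∑ s ∈ lev d μ, op 0 0 s (φ s) x‖ ≤ ∑ s ∈ lev d μ, ‖op 0 0 s (φ s) x‖ := norm_sum_le _ _
    _ ≤ ∑ s ∈ lev d μ, C * (2:ℝ)^((μ:ℝ)/p) := Finset.sum_le_sum hb
    _ = (lev d μ).card * (C * (2:ℝ)^((μ:ℝ)/p)) := by rw [Finset.sum_const, nsmul_eq_mul]
    _ ≤ ((μ:ℝ)+1)^(d-1) * (C * (2:ℝ)^((μ:ℝ)/p)) := mul_le_mul_of_nonneg_right hc hpos
    _ = C * ((μ:ℝ)+1)^(d-1) * (2:ℝ)^((μ:ℝ)/p) := by ring

end SmSm
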