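import Pool.Agent.H636R2.SM.SpecH
import Pool.Agent.EntX.L_conv_L
open MeasureTheory Real ProbabilityTheory
open scoped ENNReal BigOperators

/-! Task MULT: product multipliers with `L_1` bounded kernels are bounded on `L_q`. -/

namespace SmSm
open HypVol MWidth

/-- Schur's test -/
theorem mult_schur {α : Type*} [MeasurableSpace α] (μ : Measure α) [SFinite μ] (K : α → α → ℂ)
    (hK : Measurable (Function.uncurry K)) (B : ℝ≥0∞) (hB : B ≠ ⊤)
    (h1 : ∀ x, ∫⁻ y, ‖K x y‖ₑ ∂μ ≤ B) (h2 : ∀ y, ∫⁻ x, ‖K x y‖ₑ ∂μ ≤ B) (q : ℝ≥0∞) (hq : 1 ≤ q)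
    (g : α → ℂ) (hg : AEStronglyMeasurable g μ) :
    eLpNorm (fun x => ∫ y, K x y * g y ∂μ) q μ ≤ B * eLpNorm g q μ := by
  have hKx : ∀ x, Measurable (fun y => K x y) := fun x => hK.of_uncurry_left
  have hKy : ∀ y, Measurable (fun x => K x y) := fun y => hK.of_uncurry_right
  have h0 : ∀ x, ‖∫ y, K x y * g y ∂μ‖ₑ ≤ ∫⁻ y, ‖K x y‖ₑ * ‖g y‖ₑ ∂μ := by
    intro x
    refine (enorm_integral_le_lintegral_enorm _).trans (le_of_eq ?_)
    simp only [enorm_mul]
  rcases eq_or_ne q ⊤ with hq' | hq'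
  · subst hq'
    rw [eLpNorm_exponent_top, eLpNorm_exponent_top]
    refine eLpNormEssSup_le_of_ae_enorm_bound (Filter.Eventually.of_forall (fun x => ?_))
    refine (h0 x).trans ?_
    have h3 : ∫⁻ y, ‖K x y‖ₑ * ‖g y‖ₑ ∂μ ≤ ∫⁻ y, ‖K x y‖ₑ * eLpNormEssSup g μ ∂μ := by
      refine lintegral_mono_ae ?_
      filter_upwards [enorm_ae_le_eLpNormEssSup g μ] with y hy
      exact mul_le_mul_right hy _
    refine h3.trans ?_
    rw [lintegral_mul_const _ (hKx x).enorm]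
    exact mul_le_mul_left (h1 x) _
  · have hq0 : q ≠ 0 := (lt_of_lt_of_le one_pos hq).ne'
    set p := q.toReal with hp
    have hp1 : 1 ≤ p := by
      have := ENNReal.toReal_mono hq' hq
      simpa using this
    have hp0 : 0 < p := by linarith
    have hgp : AEMeasurable (fun y => ‖g y‖ₑ ^ p) μ := hg.enorm.pow_const p
    have hpt : ∀ x, ‖∫ y, K x y * g y ∂μ‖ₑ ^ p ≤ B ^ (p - 1) * ∫⁻ y, ‖K x y‖ₑ * ‖g y‖ₑ ^ p ∂μ := by
      intro x
      set ν := μ.withDensity (fun y => ‖K x y‖ₑ) with hν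
      have hgν : AEStronglyMeasurable g ν := hg.mono_ac (withDensity_absolutelyContinuous _ _)
      have e1 : ∫⁻ y, ‖K x y‖ₑ * ‖g y‖ₑ ∂μ = eLpNorm g 1 ν := by
        rw [eLpNorm_one_eq_lintegral_enorm, hν,
          lintegral_withDensity_eq_lintegral_mul₀ (hKx x).enorm.aemeasurable hg.enorm]
        rfl
      have e2 : eLpNorm g q ν = (∫⁻ y, ‖K x y‖ₑ * ‖g y‖ₑ ^ p ∂μ) ^ (1 / p) := by
        rw [eLpNorm_eq_lintegral_rpow_enorm_toReal hq0 hq', hν,
          lintegral_withDensity_eq_lintegral_mul₀ (hKx x).enorm.aemeasurable hgp]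
        rfl
      have e3 : ν Set.univ ≤ B := by
        rw [hν, withDensity_apply _ MeasurableSet.univ, Measure.restrict_univ]
        exact h1 x
      have h4 := eLpNorm_le_eLpNorm_mul_rpow_measure_univ hq hgν
      rw [← e1, e2] at h4
      have h5 := (h0 x).trans h4
      have h6 := ENNReal.rpow_le_rpow h5 hp0.le
      refine h6.trans ?_
      rw [ENNReal.mul_rpow_of_nonneg _ _ hp0.le, ← ENNReal.rpow_mul, ← ENNReal.rpow_mul,
        one_div_mul_cancel hp0.ne', ENNReal.rpow_one, mul_comm]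
      refine mul_le_mul_left ?_ _
      have e4 : (1 / (1 : ℝ≥0∞).toReal - 1 / q.toReal) * p = p - 1 := by
        rw [← hp, ENNReal.toReal_one]
        field_simp
      rw [e4]
      exact ENNReal.rpow_le_rpow e3 (by linarith)
    have hBp : B ^ (p - 1) ≠ ⊤ := ENNReal.rpow_ne_top_of_nonneg (by linarith) hB
    have hmain : ∫⁻ x, ‖∫ y, K x y * g y ∂μ‖ₑ ^ p ∂μ ≤ B ^ p * ∫⁻ y, ‖g y‖ₑ ^ p ∂μ := by
      calc ∫⁻ x, ‖∫ y, K x y * g y ∂μ‖ₑ ^ p ∂μ ≤
          ∫⁻ x, B ^ (p - 1) * ∫⁻ y, ‖K x y‖ₑ * ‖g y‖ₑ ^ p ∂μ ∂μ := lintegral_mono hpt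
        _ = B ^ (p - 1) * ∫⁻ x, ∫⁻ y, ‖K x y‖ₑ * ‖g y‖ₑ ^ p ∂μ ∂μ := lintegral_const_mul' _ _ hBp
        _ = B ^ (p - 1) * ∫⁻ y, ∫⁻ x, ‖K x y‖ₑ * ‖g y‖ₑ ^ p ∂μ ∂μ := by
            rw [lintegral_lintegral_swap]
            exact hK.enorm.aemeasurable.mul hgp.comp_snd
        _ = B ^ (p - 1) * ∫⁻ y, (∫⁻ x, ‖K x y‖ₑ ∂μ) * ‖g y‖ₑ ^ p ∂μ := by
            congr 1
            refine lintegral_congr (fun y => ?_)
            rw [lintegral_mul_const _ (hKy y).enorm]
        _ ≤ B ^ (p - 1) * ∫⁻ y, B * ‖g y‖ₑ ^ p ∂μ := by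
            refine mul_le_mul_right ?_ _
            exact lintegral_mono (fun y => mul_le_mul_left (h2 y) _)
        _ = B ^ p * ∫⁻ y, ‖g y‖ₑ ^ p ∂μ := by
            rw [lintegral_const_mul' _ _ hB, ← mul_assoc]
            congr 1
            have e5 : B ^ (p - 1) * B = B ^ (p - 1) * B ^ (1 : ℝ) := by rw [ENNReal.rpow_one]
            rw [e5, ← ENNReal.rpow_add_of_nonneg _ _ (by linarith) zero_le_one]
            congr 1
            ring
    rw [eLpNorm_eq_lintegral_rpow_enorm_toReal hq0 hq',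
      eLpNorm_eq_lintegral_rpow_enorm_toReal hq0 hq']
    calc (∫⁻ x, ‖∫ y, K x y * g y ∂μ‖ₑ ^ p ∂μ) ^ (1 / p) ≤
        (B ^ p * ∫⁻ y, ‖g y‖ₑ ^ p ∂μ) ^ (1 / p) := ENNReal.rpow_le_rpow hmain (by positivity)
      _ = B * (∫⁻ y, ‖g y‖ₑ ^ p ∂μ) ^ (1 / p) := by
          rw [ENNReal.mul_rpow_of_nonneg _ _ (by positivity), ← ENNReal.rpow_mul,
            mul_one_div_cancel hp0.ne', ENNReal.rpow_one]

/-- shift invariance of the integral of a periodic function -/
theorem mult_shift {d : ℕ} (k : (Fin d → ℝ) → ℝ≥0∞) (hk : Measurable k)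
    (hper : ∀ (x : Fin d → ℝ) (j : Fin d), k (Function.update x j (x j + 2 * π)) = k x)
    (y : Fin d → ℝ) : ∫⁻ x, k (x - y) ∂(TP d) = ∫⁻ x, k x ∂(TP d) := by
  have he : (fun x => k (x - y)) = fun x => k ((fun (x : Fin d → ℝ) (j : Fin d) =>
      toIcoMod Real.two_pi_pos 0 (x j - y j)) x) := by
    funext x
    exact (Sol_EX_conv_L.per_toIcoMod k hper (x - y)).symm
  rw [he]
  exact (shift_mp y).lintegral_comp hk

/-- the one dimensional kernel -/
noncomputable def mult_K1 (N : ℕ) (h : ℤ → ℂ) (t : ℝ) : ℂ :=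
  ∑ k ∈ Finset.Ioo (-(N:ℤ)) N, h k * Complex.exp (Complex.I * ((k:ℝ) * t : ℝ))

theorem mult_K1_cont (N : ℕ) (h : ℤ → ℂ) : Continuous (mult_K1 N h) := by
  unfold mult_K1
  fun_prop

theorem mult_K1_per (N : ℕ) (h : ℤ → ℂ) (t : ℝ) : mult_K1 N h (t + 2 * π) = mult_K1 N h t := by
  unfold mult_K1
  refine Finset.sum_congr rfl (fun k _ => ?_)
  congr 1
  rw [Complex.exp_eq_exp_iff_exists_int]
  refine ⟨k, ?_⟩
  push_cast
  ring

theorem mult_int1 (f : ℝ → ℝ) :
    ∫ t, f t ∂(ENNReal.ofReal (2 * π)⁻¹ • volume.restrict (Set.Ico 0 (2 * π)) : Measure ℝ) =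
      (2 * π)⁻¹ * ∫ t in (0:ℝ)..(2*π), f t := by
  rw [integral_smul_measure, ENNReal.toReal_ofReal (by positivity), smul_eq_mul,
    intervalIntegral.integral_of_le (by positivity), integral_Ico_eq_integral_Ioo,
    integral_Ioc_eq_integral_Ioo]

/-- the `L_1` norm of a product kernel -/
theorem mult_L1 {d : ℕ} (F : Fin d → ℝ → ℂ) (hF : ∀ j, Continuous (F j)) (A : Fin d → ℝ)
    (hper : ∀ j t, F j (t + 2 * π) = F j t)
    (hA : ∀ j, ∫ t in (0:ℝ)..(2*π), ‖F j t‖ ≤ A j) :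
    ∫⁻ u, ‖∏ j, F j (u j)‖ₑ ∂(TP d) ≤ ENNReal.ofReal (∏ j, A j) := by
  have := TP_prob d
  have hint1 : ∀ j, ∫ t in (0:ℝ)..(2*π), ‖F j t‖ ≤ A j := hA
  have hsf : SigmaFinite (ENNReal.ofReal (2 * π)⁻¹ • volume.restrict (Set.Ico 0 (2 * π)) : Measure ℝ) :=
    Sol_EX_shift_mp.shift_sf
  have hb : ∀ j, ∃ M : ℝ, ∀ t, ‖F j t‖ ≤ M := by
    intro j
    have hp : Function.Periodic (fun t => ‖F j t‖) (2 * π) := fun t => by
      simp only [hper j t]
    obtain ⟨M, hM⟩ := (isCompact_Icc (a := (0:ℝ)) (b := 2 * π)).exists_bound_of_continuousOn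
      (hF j).continuousOn
    refine ⟨M, fun t => ?_⟩
    obtain ⟨s, hs, hs2⟩ := hp.exists_mem_Ico₀ Real.two_pi_pos t
    have h3 := hM s ⟨hs.1, hs.2.le⟩
    have h4 : ‖F j t‖ = ‖F j s‖ := hs2
    rw [h4]
    exact h3
  have hcont : Continuous (fun u : Fin d → ℝ => ∏ j, F j (u j)) :=
    continuous_finsetProd _ (fun j _ => (hF j).comp (continuous_apply j))
  have hInt : Integrable (fun u : Fin d → ℝ => ∏ j, F j (u j)) (TP d) := by
    choose M hM using hb
    refine Integrable.of_bound hcont.aestronglyMeasurable (∏ j, M j)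
      (Filter.Eventually.of_forall (fun u => ?_))
    rw [norm_prod]
    exact Finset.prod_le_prod (fun j _ => norm_nonneg _) (fun j _ => hM j _)
  rw [← ofReal_integral_norm_eq_lintegral_enorm hInt]
  apply ENNReal.ofReal_le_ofReal
  have h1 : ∫ u, ‖∏ j, F j (u j)‖ ∂(TP d) = ∏ j, ((2 * π)⁻¹ * ∫ t in (0:ℝ)..(2*π), ‖F j t‖) := by
    simp only [norm_prod]
    unfold TP
    rw [integral_fintype_prod_eq_prod (𝕜 := ℝ) (fun j t => ‖F j t‖)]
    exact Finset.prod_congr rfl (fun j _ => mult_int1 _)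
  rw [h1]
  refine Finset.prod_le_prod (fun j _ => ?_) (fun j _ => ?_)
  · refine mul_nonneg (by positivity) ?_
    exact intervalIntegral.integral_nonneg (by positivity) (fun _ _ => norm_nonneg _)
  · have h2 : 0 ≤ ∫ t in (0:ℝ)..(2*π), ‖F j t‖ :=
      intervalIntegral.integral_nonneg (by positivity) (fun _ _ => norm_nonneg _)
    have h3 : (2 * π)⁻¹ ≤ 1 := by
      apply inv_le_one_of_one_le₀
      linarith [Real.pi_gt_three]
    calc (2 * π)⁻¹ * ∫ t in (0:ℝ)..(2*π), ‖F j t‖ ≤ 1 * ∫ t in (0:ℝ)..(2*π), ‖F j t‖ :=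
          mul_le_mul_of_nonneg_right h3 h2
      _ ≤ A j := by rw [one_mul]; exact hA j

theorem mult_refl (N : ℕ) (h : ℤ → ℂ) :
    ∫ t in (0:ℝ)..(2*π), ‖mult_K1 N h (-t)‖ = ∫ t in (0:ℝ)..(2*π), ‖mult_K1 N h t‖ := by
  have h1 : ∀ t : ℝ, ‖mult_K1 N h (-t)‖ = ‖mult_K1 N h (2 * π - t)‖ := by
    intro t
    rw [show 2 * π - t = -t + 2 * π by ring, mult_K1_per]
  simp only [h1]
  rw [intervalIntegral.integral_comp_sub_left (fun t => ‖mult_K1 N h t‖) (2 * π)]
  rw [sub_self, sub_zero]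

/-- the multiplier is a convolution -/
theorem mult_conv {d : ℕ} (N : Fin d → ℕ) (h : Fin d → ℤ → ℂ) (g : (Fin d → ℝ) → ℂ)
    (hg : Integrable g (TP d)) (x : Fin d → ℝ) :
    ∑ k ∈ Fintype.piFinset (fun j => Finset.Ioo (-(N j:ℤ)) (N j)),
      (∏ j, h j (k j)) * fc g k * chi k x =
      ∫ y, (∏ j, mult_K1 (N j) (h j) ((x - y) j)) * g y ∂(TP d) := by
  have hK : ∀ y : Fin d → ℝ, ∏ j, mult_K1 (N j) (h j) ((x - y) j) =
      ∑ k ∈ Fintype.piFinset (fun j => Finset.Ioo (-(N j:ℤ)) (N j)),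
        (∏ j, h j (k j)) * (chi k x * Complex.exp (-(Complex.I * ((∑ j, (k j : ℝ) * y j : ℝ) : ℂ)))) := by
    intro y
    unfold mult_K1
    rw [Finset.prod_univ_sum]
    refine Finset.sum_congr rfl (fun k _ => ?_)
    rw [Finset.prod_mul_distrib]
    congr 1
    unfold chi
    rw [← Complex.exp_sum, ← Complex.exp_add]
    congr 1
    rw [← Finset.mul_sum, ← mul_neg, ← mul_add]
    congr 1
    rw [← Complex.ofReal_sum, ← Complex.ofReal_neg, ← Complex.ofReal_add]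
    congr 1
    rw [← Finset.sum_neg_distrib, ← Finset.sum_add_distrib]
    refine Finset.sum_congr rfl (fun j _ => ?_)
    rw [Pi.sub_apply]
    ring
  have hint : ∀ k : Fin d → ℤ, Integrable (fun y => g y *
      Complex.exp (-(Complex.I * ((∑ j, (k j : ℝ) * y j : ℝ) : ℂ)))) (TP d) := by
    intro k
    refine hg.mul_bdd (c := 1) ?_ ?_
    · apply Continuous.aestronglyMeasurable
      fun_prop
    · refine Filter.Eventually.of_forall (fun y => ?_)
      rw [Complex.norm_exp]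
      simp
  have h2 : ∀ y, (∏ j, mult_K1 (N j) (h j) ((x - y) j)) * g y =
      ∑ k ∈ Fintype.piFinset (fun j => Finset.Ioo (-(N j:ℤ)) (N j)),
        ((∏ j, h j (k j)) * chi k x) *
          (g y * Complex.exp (-(Complex.I * ((∑ j, (k j : ℝ) * y j : ℝ) : ℂ)))) := by
    intro y
    rw [hK, Finset.sum_mul]
    exact Finset.sum_congr rfl (fun k _ => by ring)
  simp_rw [h2]
  rw [integral_finsetSum _ (fun k _ => (hint k).const_mul _)]
  refine Finset.sum_congr rfl (fun k _ => ?_)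
  rw [integral_const_mul]
  unfold fc
  ring

theorem mult : S_MULT := by
  intro d q N h A g hq hg hA hL
  have := TP_prob d
  have hgi : Integrable g (TP d) := hg.integrable hq
  have e1 : (fun x => ∑ k ∈ Fintype.piFinset (fun j => Finset.Ioo (-(N j:ℤ)) (N j)),
      (∏ j, h j (k j)) * fc g k * chi k x) =
      fun x => ∫ y, (∏ j, mult_K1 (N j) (h j) ((x - y) j)) * g y ∂(TP d) :=
    funext (mult_conv N h g hgi)
  rw [e1]
  have hKc : Continuous (fun u : Fin d → ℝ => ∏ j, mult_K1 (N j) (h j) (u j)) :=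
    continuous_finsetProd _ (fun j _ => (mult_K1_cont _ _).comp (continuous_apply j))
  have hKc' : Continuous (fun u : Fin d → ℝ => ∏ j, mult_K1 (N j) (h j) (-(u j))) :=
    continuous_finsetProd _ (fun j _ => (mult_K1_cont _ _).comp (continuous_apply j).neg)
  have hper : ∀ (x : Fin d → ℝ) (i : Fin d),
      (∏ j, mult_K1 (N j) (h j) (Function.update x i (x i + 2 * π) j)) =
        ∏ j, mult_K1 (N j) (h j) (x j) := by
    intro x i
    refine Finset.prod_congr rfl (fun j _ => ?_)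
    by_cases hj : j = i
    · subst hj
      rw [Function.update_self, mult_K1_per]
    · rw [Function.update_of_ne hj]
  have hper' : ∀ (x : Fin d → ℝ) (i : Fin d),
      (∏ j, mult_K1 (N j) (h j) (-(Function.update x i (x i + 2 * π) j))) =
        ∏ j, mult_K1 (N j) (h j) (-(x j)) := by
    intro x i
    refine Finset.prod_congr rfl (fun j _ => ?_)
    by_cases hj : j = i
    · subst hj
      rw [Function.update_self, ← mult_K1_per (N j) (h j) (-(x j + 2 * π))]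
      congr 1
      ring
    · rw [Function.update_of_ne hj]
  refine mult_schur (TP d) (fun x y => ∏ j, mult_K1 (N j) (h j) ((x - y) j)) ?_
    (ENNReal.ofReal (∏ j, A j)) ENNReal.ofReal_ne_top ?_ ?_ q hq g hg.aestronglyMeasurable
  · have h1 : Continuous (fun p : (Fin d → ℝ) × (Fin d → ℝ) =>
        ∏ j, mult_K1 (N j) (h j) ((p.1 - p.2) j)) := hKc.comp (continuous_fst.sub continuous_snd)
    exact h1.measurable
  · intro x
    have h1 : ∀ y : Fin d → ℝ, ‖∏ j, mult_K1 (N j) (h j) ((x - y) j)‖ₑ =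
        (fun u : Fin d → ℝ => ‖∏ j, mult_K1 (N j) (h j) (-(u j))‖ₑ) (y - x) := by
      intro y
      simp only [Pi.sub_apply, neg_sub]
    simp_rw [h1]
    rw [mult_shift (fun u : Fin d → ℝ => ‖∏ j, mult_K1 (N j) (h j) (-(u j))‖ₑ)
      hKc'.measurable.enorm (fun x i => by rw [hper' x i]) x]
    exact mult_L1 (fun j t => mult_K1 (N j) (h j) (-t))
      (fun j => (mult_K1_cont _ _).comp continuous_neg) A
      (fun j t => by
        rw [← mult_K1_per (N j) (h j) (-(t + 2 * π))]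
        congr 1
        ring)
      (fun j => by
        rw [mult_refl]
        exact hL j)
  · intro y
    rw [mult_shift (fun u : Fin d → ℝ => ‖∏ j, mult_K1 (N j) (h j) (u j)‖ₑ)
      hKc.measurable.enorm (fun x i => by rw [hper x i]) y]
    exact mult_L1 (fun j t => mult_K1 (N j) (h j) t) (fun j => mult_K1_cont _ _) A
      (fun j t => mult_K1_per _ _ t) hL

end SmSm
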