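import Pool.Agent.H636R2.SM.SpecP

open MeasureTheory Real ProbabilityTheory
open scoped ENNReal BigOperators

/-! MZ: sums over the grid and Nikol'skii's inequality. -/

namespace SmSm
open HypVol MWidth

theorem mz_prob (d : ℕ) : IsProbabilityMeasure (TP d) := by
  have h : IsProbabilityMeasure
      (ENNReal.ofReal (2 * π)⁻¹ • volume.restrict (Set.Ico (0 : ℝ) (2 * π))) := by
    refine ⟨?_⟩
    rw [Measure.smul_apply, Measure.restrict_apply MeasurableSet.univ, Set.univ_inter,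
      Real.volume_Ico, sub_zero, smul_eq_mul, ← ENNReal.ofReal_mul (by positivity),
      inv_mul_cancel₀ (by positivity), ENNReal.ofReal_one]
  unfold TP
  infer_instance

theorem mz_chi_cont {d : ℕ} (k : Fin d → ℤ) : Continuous (chi k) := by
  unfold chi
  fun_prop

theorem mz_op_cont {d : ℕ} (s : Fin d → ℕ) (φ : (Fin d → ℝ) → ℂ) : Continuous (op 0 0 s φ) := by
  have : op 0 0 s φ = fun x => ∑ k ∈ boxs s, Fh 0 0 k * (blk s k : ℂ) * fc φ k * chi k x := rfl
  rw [this]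
  refine continuous_finset_sum _ fun k _ => ?_
  exact continuous_const.mul (mz_chi_cont k)

theorem mz_chi_norm {d : ℕ} (k : Fin d → ℤ) (x : Fin d → ℝ) : ‖chi k x‖ = 1 := by
  unfold chi
  rw [mul_comm, Complex.norm_exp_ofReal_mul_I]

theorem mz_op_bdd {d : ℕ} (s : Fin d → ℕ) (φ : (Fin d → ℝ) → ℂ) :
    ∃ M : ℝ, 0 ≤ M ∧ ∀ x, ‖op 0 0 s φ x‖ ≤ M := by
  refine ⟨∑ k ∈ boxs s, ‖Fh 0 0 k * (blk s k : ℂ) * fc φ k‖, by positivity, fun x => ?_⟩
  refine (norm_sum_le _ _).trans (Finset.sum_le_sum fun k _ => ?_)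
  rw [norm_mul (_ * _) (chi k x), mz_chi_norm, mul_one]

theorem mz_vk_cont (s : ℕ) : Continuous (vk s) := by
  unfold vk
  fun_prop

theorem mz (h1 : S_VK) (h2 : S_HLD) : S_MZ := by
  intro d p hp
  refine ⟨24 ^ d, by positivity, ?_⟩
  intro s φ t ht hu
  haveI := mz_prob d
  have hp0 : 0 < p := by linarith
  obtain ⟨M, hM0, hM⟩ := mz_op_bdd s φ
  set u : (Fin d → ℝ) → ℂ := op 0 0 s φ with hudef
  have huc : Continuous u := mz_op_cont s φ
  have hmem : MemLp u (ENNReal.ofReal p) (TP d) :=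
    MemLp.of_bound huc.aestronglyMeasurable M (Filter.Eventually.of_forall hM)
  have hI0 : 0 ≤ ∫ z, ‖u z‖ ^ p ∂(TP d) := integral_nonneg fun z => by positivity
  have hI : ∫ z, ‖u z‖ ^ p ∂(TP d) ≤ t ^ p := by
    rw [hmem.eLpNorm_eq_integral_rpow_norm (by simpa using hp0) ENNReal.ofReal_ne_top,
      ENNReal.toReal_ofReal hp0.le, ENNReal.ofReal_le_ofReal_iff ht] at hu
    have h3 := Real.rpow_le_rpow (by positivity) hu hp0.le
    rwa [← Real.rpow_mul hI0, inv_mul_cancel₀ hp0.ne', Real.rpow_one] at h3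
  have hintu : Integrable (fun z => ‖u z‖ ^ p) (TP d) := by
    refine Integrable.of_bound (C := M ^ p) ?_ ?_
    · exact (huc.norm.rpow_const fun _ => Or.inr hp0.le).aestronglyMeasurable
    · refine Filter.Eventually.of_forall fun z => ?_
      rw [Real.norm_of_nonneg (by positivity)]
      exact Real.rpow_le_rpow (norm_nonneg _) (hM z) hp0.le
  -- the kernel
  set V : (Fin d → ℝ) → (Fin d → ℝ) → ℝ := fun x z => ∏ j, ‖vk (s j) (x j - z j)‖ with hV
  have hVc : ∀ x, Continuous (V x) := by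
    intro x
    refine continuous_finset_prod _ fun j _ => ?_
    exact ((mz_vk_cont (s j)).comp (continuous_const.sub (continuous_apply j))).norm
  have hV0 : ∀ x z, 0 ≤ V x z := fun x z => Finset.prod_nonneg fun j _ => norm_nonneg _
  have hVb : ∀ x z, V x z ≤ 2 ^ (∑ j, (s j + 3)) := by
    intro x z
    calc V x z ≤ ∏ j, (2 : ℝ) ^ (s j + 3) :=
          Finset.prod_le_prod (fun j _ => norm_nonneg _) fun j _ => (h1 (s j)).1 _
      _ = 2 ^ (∑ j, (s j + 3)) := by rw [Finset.prod_pow_eq_pow_sum]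
  have hint : ∀ x, Integrable (fun z => V x z * ‖u z‖ ^ p) (TP d) := by
    intro x
    refine hintu.bdd_mul (c := 2 ^ (∑ j, (s j + 3))) (hVc x).aestronglyMeasurable ?_
    refine Filter.Eventually.of_forall fun z => ?_
    rw [Real.norm_of_nonneg (hV0 x z)]
    exact hVb x z
  have hH : ∀ x, ‖u x‖ ^ p ≤ ((3 : ℝ) ^ d) ^ (p - 1) * ∫ z, V x z * ‖u z‖ ^ p ∂(TP d) :=
    fun x => h2 d p hp s φ x
  have h3d : (1 : ℝ) ≤ 3 ^ d := one_le_pow₀ (by norm_num)
  have h8d : (1 : ℝ) ≤ 8 ^ d := one_le_pow₀ (by norm_num)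
  have hsum : (2 : ℝ) ^ (∑ j, (s j + 3)) = 8 ^ d * 2 ^ (∑ j, s j) := by
    rw [Finset.sum_add_distrib, pow_add]
    simp only [Finset.sum_const, Finset.card_univ, Fintype.card_fin, smul_eq_mul]
    rw [mul_comm d 3, pow_mul]
    norm_num
    ring
  constructor
  · -- sums over the grid
    have hg : ∀ z, ∑ y : PG s, V (pgp y) z ≤ 3 ^ d * 2 ^ (∑ j, (s j + 3)) := by
      intro z
      have e1 : ∑ y : PG s, V (pgp y) z =
          ∏ j, ∑ i : Fin (2 ^ (s j + 3)), ‖vk (s j) (2 * π * ((i : ℕ) : ℝ) / 2 ^ (s j + 3) - z j)‖ := by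
        rw [Finset.prod_univ_sum, Fintype.piFinset_univ]
        rfl
      rw [e1]
      calc ∏ j, ∑ i : Fin (2 ^ (s j + 3)), ‖vk (s j) (2 * π * ((i : ℕ) : ℝ) / 2 ^ (s j + 3) - z j)‖
          ≤ ∏ j : Fin d, (3 * 2 ^ (s j + 3) : ℝ) :=
            Finset.prod_le_prod (fun j _ => Finset.sum_nonneg fun i _ => norm_nonneg _)
              fun j _ => (h1 (s j)).2.1 _
        _ = 3 ^ d * 2 ^ (∑ j, (s j + 3)) := by
            rw [Finset.prod_mul_distrib, Finset.prod_pow_eq_pow_sum]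
            simp
    calc ∑ y : PG s, ‖u (pgp y)‖ ^ p ≤
        ∑ y : PG s, ((3 : ℝ) ^ d) ^ (p - 1) * ∫ z, V (pgp y) z * ‖u z‖ ^ p ∂(TP d) :=
          Finset.sum_le_sum fun y _ => hH _
      _ = ((3 : ℝ) ^ d) ^ (p - 1) * ∫ z, (∑ y : PG s, V (pgp y) z) * ‖u z‖ ^ p ∂(TP d) := by
          rw [← Finset.mul_sum, ← integral_finset_sum _ fun y _ => hint _]
          congr 2
          ext z
          rw [Finset.sum_mul]
      _ ≤ ((3 : ℝ) ^ d) ^ (p - 1) * ∫ z, (3 ^ d * 2 ^ (∑ j, (s j + 3))) * ‖u z‖ ^ p ∂(TP d) := by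
          gcongr
          · simp only [Finset.sum_mul]
            exact integrable_finset_sum _ fun y _ => hint _
          · exact hintu.const_mul _
          · intro z
            exact mul_le_mul_of_nonneg_right (hg z) (by positivity)
      _ = ((3 : ℝ) ^ d) ^ (p - 1) * (3 ^ d * 2 ^ (∑ j, (s j + 3))) * ∫ z, ‖u z‖ ^ p ∂(TP d) := by
          rw [integral_const_mul]; ring
      _ = ((3 : ℝ) ^ d) ^ p * 2 ^ (∑ j, (s j + 3)) * ∫ z, ‖u z‖ ^ p ∂(TP d) := by
          have : ((3 : ℝ) ^ d) ^ p = ((3 : ℝ) ^ d) ^ (p - 1) * 3 ^ d := by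
            rw [Real.rpow_sub_one (by positivity)]
            field_simp
          rw [this]; ring
      _ ≤ ((24 : ℝ) ^ d) ^ p * 2 ^ (∑ j, (s j + 3)) * t ^ p := by
          gcongr
          norm_num
      _ = (24 ^ d * t) ^ p * 2 ^ (∑ j, (s j + 3)) := by
          rw [Real.mul_rpow (by positivity) ht]; ring
  · intro x
    have h5 : ‖u x‖ ^ p ≤ (24 ^ d * (2 : ℝ) ^ ((∑ j, (s j : ℝ)) / p) * t) ^ p := by
      have e2 : ((2 : ℝ) ^ ((∑ j, (s j : ℝ)) / p)) ^ p = 2 ^ (∑ j, s j) := by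
        rw [← Real.rpow_mul (by norm_num), div_mul_cancel₀ _ hp0.ne', ← Real.rpow_natCast]
        congr 1
        push_cast
        rfl
      rw [Real.mul_rpow (by positivity) ht, Real.mul_rpow (by positivity) (by positivity), e2]
      calc ‖u x‖ ^ p ≤ ((3 : ℝ) ^ d) ^ (p - 1) * ∫ z, V x z * ‖u z‖ ^ p ∂(TP d) := hH x
        _ ≤ ((3 : ℝ) ^ d) ^ (p - 1) * ∫ z, 2 ^ (∑ j, (s j + 3)) * ‖u z‖ ^ p ∂(TP d) := by
            gcongr
            · exact hint x
            · exact hintu.const_mul _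
            · intro z
              exact mul_le_mul_of_nonneg_right (hVb x z) (by positivity)
        _ = ((3 : ℝ) ^ d) ^ (p - 1) * 8 ^ d * 2 ^ (∑ j, s j) * ∫ z, ‖u z‖ ^ p ∂(TP d) := by
            rw [integral_const_mul, hsum]; ring
        _ ≤ ((3 : ℝ) ^ d) ^ p * ((8 : ℝ) ^ d) ^ p * 2 ^ (∑ j, s j) * t ^ p := by
            have q1 : ((3 : ℝ) ^ d) ^ (p - 1) ≤ ((3 : ℝ) ^ d) ^ p :=
              Real.rpow_le_rpow_of_exponent_le h3d (by linarith)
            have q2 : (8 : ℝ) ^ d ≤ ((8 : ℝ) ^ d) ^ p := by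
              calc (8 : ℝ) ^ d = ((8 : ℝ) ^ d) ^ (1 : ℝ) := (Real.rpow_one _).symm
                _ ≤ ((8 : ℝ) ^ d) ^ p := Real.rpow_le_rpow_of_exponent_le h8d hp
            refine mul_le_mul (mul_le_mul (mul_le_mul q1 q2 (by positivity) (by positivity)) le_rfl
              (by positivity) (by positivity)) hI hI0 (by positivity)
        _ = ((24 : ℝ) ^ d) ^ p * 2 ^ (∑ j, s j) * t ^ p := by
            rw [← Real.mul_rpow (by positivity) (by positivity), ← mul_pow]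
            norm_num
    exact (Real.rpow_le_rpow_iff (norm_nonneg _) (by positivity) hp0).1 h5

end SmSm
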