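import Pool.Agent.H636R2.SM.SpecH
open MeasureTheory Real ProbabilityTheory
open scoped ENNReal BigOperators ComplexConjugate

namespace SmSm
open HypVol MWidth

/-- **NUMLHA** -/
theorem numlha : S_NUMLHA := by
  intro d hd r hr c μ0 hc
  set μ1 : ℕ := max μ0 2 with hμ1
  have hμ1' : 2 ≤ μ1 := le_max_right _ _
  set g : ℕ → ℝ := fun n => c * n * 2^n with hg
  set e : ℝ := ((d:ℝ)-1) + r with he
  have hd3 : (3:ℝ) ≤ d := by exact_mod_cast hd
  have he0 : 0 ≤ e := by rw [he]; linarith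
  set A : ℝ := |Real.log c| + 2 with hA
  have hA0 : 0 < A := by positivity
  set G : ℝ := g μ1 with hG
  have hμ1p : (0:ℝ) < μ1 := by positivity
  have hGp : 0 < G := by
    rw [hG, hg]; positivity
  set R : ℝ := (2:ℝ)^(-(r * μ1)) * ((μ1:ℝ)+1)^(d-1) with hR
  have hRp : 0 < R := by positivity
  set D : ℝ := (c/4)^(-r) * A^e + G^e / R with hD
  have hD1 : 0 < (c/4)^(-r) * A^e := by positivity
  have hD2 : 0 < G^e / R := by positivity
  have hDp : 0 < D := by positivity
  have hmain : ∀ k : ℕ, 2 ≤ k → ∃ n : ℕ, μ0 ≤ n ∧ (k:ℝ) ≤ g n ∧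
      psiHA d r k ≤ D * ((2:ℝ)^(-(r * n)) * ((n:ℝ)+1)^(d-1)) := by
    intro k hk
    have hk0 : (0:ℝ) < k := by positivity
    have hk1 : (1:ℝ) ≤ k := by exact_mod_cast (by omega : 1 ≤ k)
    have hex : ∃ n, μ1 ≤ n ∧ (k:ℝ) ≤ g n := by
      refine ⟨max μ1 ⌈(k:ℝ)/c⌉₊, le_max_left _ _, ?_⟩
      set n := max μ1 ⌈(k:ℝ)/c⌉₊ with hn
      have h1 : (k:ℝ)/c ≤ n := (Nat.le_ceil _).trans (by exact_mod_cast le_max_right _ _)
      have h2 : (1:ℝ) ≤ 2^n := one_le_pow₀ (by norm_num)
      rw [div_le_iff₀ hc] at h1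
      calc (k:ℝ) ≤ n * c := h1
        _ = c * n * 1 := by ring
        _ ≤ c * n * 2^n := mul_le_mul_of_nonneg_left h2 (by positivity)
    classical
    set n := Nat.find hex with hn
    have hn2 : μ1 ≤ n := (Nat.find_spec hex).1
    have hn3 : (k:ℝ) ≤ g n := (Nat.find_spec hex).2
    refine ⟨n, (le_max_left _ _).trans hn2, hn3, ?_⟩
    have hl : 0 ≤ Real.log k := Real.log_nonneg hk1
    have hnn : 2 ≤ n := hμ1'.trans hn2
    have hnp : (0:ℝ) < n := by positivity
    have hn1r : (1:ℝ) ≤ n := by exact_mod_cast (by omega : 1 ≤ n)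
    unfold psiHA
    rw [← he]
    rcases hn2.eq_or_lt with hee | hlt
    · have e1 : (k:ℝ) ≤ G := by rw [hG, hee]; exact hn3
      have e2 : Real.log k ≤ G := (Real.log_le_self hk0.le).trans e1
      have e4 : (k:ℝ)^(-r) ≤ 1 := Real.rpow_le_one_of_one_le_of_nonpos hk1 (by linarith)
      have e5 : (k:ℝ)^(-r) * (Real.log k)^e ≤ 1 * G^e :=
        mul_le_mul e4 (Real.rpow_le_rpow hl e2 he0) (by positivity) (by norm_num)
      rw [one_mul] at e5
      refine e5.trans ?_
      rw [← hee, ← hR, hD, add_mul, div_mul_cancel₀ _ hRp.ne']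
      have : 0 ≤ (c/4)^(-r) * A^e * R := by positivity
      linarith
    · have hlt' : ¬ (μ1 ≤ n - 1 ∧ (k:ℝ) ≤ g (n-1)) := Nat.find_min hex (by omega)
      have h4 : g (n-1) < k := by
        by_contra hcon
        exact hlt' ⟨by omega, not_lt.1 hcon⟩
      have h5 : c / 4 * n * (2:ℝ)^(n:ℝ) ≤ k := by
        refine le_trans ?_ h4.le
        have e1 : ((n - 1 : ℕ) : ℝ) = n - 1 := by
          rw [Nat.cast_sub (by omega)]; norm_num
        have e2 : (n:ℝ) / 2 ≤ ((n - 1 : ℕ) : ℝ) := by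
          have : (2:ℝ) ≤ n := by exact_mod_cast hnn
          rw [e1]; linarith
        have e4 : (2:ℝ)^n = 2 * 2^(n-1) := by
          rw [← pow_succ']; congr 1; omega
        rw [hg, Real.rpow_natCast]
        simp only
        calc c / 4 * n * 2^n = c * ((n:ℝ)/2) * 2^(n-1) := by
              rw [e4]; ring
          _ ≤ c * ((n - 1 : ℕ) : ℝ) * 2^(n-1) :=
              mul_le_mul_of_nonneg_right (mul_le_mul_of_nonneg_left e2 hc.le) (by positivity)
      have h6 : Real.log k ≤ A * n := by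
        have e1 : Real.log k ≤ Real.log (g n) := Real.log_le_log hk0 hn3
        have e2 : Real.log (g n) = Real.log c + Real.log n + n * Real.log 2 := by
          rw [hg]
          simp only
          rw [Real.log_mul (by positivity) (by positivity), Real.log_mul hc.ne' (by positivity),
            Real.log_pow]
        have e3 : Real.log 2 ≤ 1 := by
          have := Real.log_two_lt_d9; linarith
        have e4 : Real.log n ≤ n := Real.log_le_self hnp.le
        have e5 : Real.log c ≤ |Real.log c| * n := by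
          have := le_abs_self (Real.log c)
          have := abs_nonneg (Real.log c)
          nlinarith
        have e8 : (n:ℝ) * Real.log 2 ≤ n := by nlinarith
        rw [e2] at e1
        rw [hA]
        linarith
      have h8 : (k:ℝ)^(-r) ≤ (c / 4 * n * (2:ℝ)^(n:ℝ))^(-r) :=
        Real.rpow_le_rpow_of_nonpos (by positivity) h5 (by linarith)
      have h9 : (c / 4 * n * (2:ℝ)^(n:ℝ))^(-r) = (c/4)^(-r) * (n:ℝ)^(-r) * (2:ℝ)^(-(r * n)) := by
        rw [Real.mul_rpow (by positivity) (by positivity), Real.mul_rpow (by positivity) (by positivity),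
          ← Real.rpow_mul (by norm_num)]
        congr 2; ring
      have h10 : (Real.log k)^e ≤ A^e * (n:ℝ)^e := by
        rw [← Real.mul_rpow hA0.le hnp.le]
        exact Real.rpow_le_rpow hl h6 he0
      have h11 : (n:ℝ)^(-r) * (n:ℝ)^e = (n:ℝ)^(d-1) := by
        rw [← Real.rpow_add hnp, ← Real.rpow_natCast, Nat.cast_sub (by omega)]
        congr 1
        rw [he]; push_cast; ring
      have h12 : (n:ℝ)^(d-1) ≤ ((n:ℝ)+1)^(d-1) := pow_le_pow_left₀ hnp.le (by linarith) _
      calc (k:ℝ)^(-r) * (Real.log k)^e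
          ≤ ((c/4)^(-r) * (n:ℝ)^(-r) * (2:ℝ)^(-(r * n))) * (A^e * (n:ℝ)^e) := by
            rw [← h9]
            exact mul_le_mul h8 h10 (by positivity) (by positivity)
        _ = (c/4)^(-r) * A^e * ((2:ℝ)^(-(r * n)) * ((n:ℝ)^(-r) * (n:ℝ)^e)) := by ring
        _ = (c/4)^(-r) * A^e * ((2:ℝ)^(-(r * n)) * (n:ℝ)^(d-1)) := by rw [h11]
        _ ≤ (c/4)^(-r) * A^e * ((2:ℝ)^(-(r * n)) * ((n:ℝ)+1)^(d-1)) :=
            mul_le_mul_of_nonneg_left (mul_le_mul_of_nonneg_left h12 (by positivity)) (by positivity)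
        _ ≤ D * ((2:ℝ)^(-(r * n)) * ((n:ℝ)+1)^(d-1)) :=
            mul_le_mul_of_nonneg_right (by rw [hD]; linarith) (by positivity)
  refine ⟨c / D, by positivity, ?_⟩
  intro k hk
  obtain ⟨n, h1, h2, h3⟩ := hmain k hk
  refine ⟨n, h1, h2, ?_⟩
  calc c / D * psiHA d r k ≤ c / D * (D * ((2:ℝ)^(-(r * n)) * ((n:ℝ)+1)^(d-1))) :=
        mul_le_mul_of_nonneg_left h3 (by positivity)
    _ = c * (2:ℝ)^(-(r * n)) * ((n:ℝ)+1)^(d-1) := by
        field_simp

end SmSm
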