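import Pool.Agent.H636R2.SM.SpecH
import Pool.Agent.H636R2.SM.NUMLB
open MeasureTheory Real ProbabilityTheory
open scoped ENNReal BigOperators ComplexConjugate

namespace SmSm
open HypVol MWidth

/-- square of `psiHB` -/
noncomputable def numlhb_P (d k : ℕ) : ℝ :=
  (k:ℝ)⁻¹ * (Real.log k)^(2*d-1) * (Real.log (Real.log k + 3))^2

theorem numlhb_sq (d k : ℕ) (hd : 1 ≤ d) (hk : 2 ≤ k) : psiHB d k = Real.sqrt (numlhb_P d k) := by
  have hk0 : (0:ℝ) < k := by positivity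
  have hl : 0 ≤ Real.log k := Real.log_nonneg (by exact_mod_cast (by omega : 1 ≤ k))
  have hl2 : 0 ≤ Real.log (Real.log k + 3) := Real.log_nonneg (by linarith)
  unfold psiHB numlhb_P
  rw [Real.sqrt_mul (by positivity), Real.sqrt_mul (by positivity)]
  congr 1
  · congr 1
    · rw [Real.sqrt_inv, Real.rpow_neg hk0.le, Real.sqrt_eq_rpow]
    · rw [Real.sqrt_eq_rpow, ← Real.rpow_natCast, ← Real.rpow_mul hl]
      congr 1
      rw [Nat.cast_sub (by omega)]
      push_cast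
      ring
  · rw [Real.sqrt_sq hl2]

theorem numlhb_rhs (d n : ℕ) (l : ℝ) (hl : 0 ≤ l) :
    Real.sqrt ((n:ℝ)^d * l^2 / 2^n) = l * (n:ℝ)^((d:ℝ)/2) * (2:ℝ)^(-((n:ℝ)/2)) := by
  have hn : (0:ℝ) ≤ n := Nat.cast_nonneg n
  rw [Real.sqrt_eq_iff_mul_self_eq (by positivity) (by positivity)]
  have e1 : (n:ℝ)^((d:ℝ)/2) * (n:ℝ)^((d:ℝ)/2) = (n:ℝ)^d := by
    rw [← pow_two, ← Real.rpow_natCast, ← Real.rpow_mul hn, ← Real.rpow_natCast]
    congr 1
    push_cast
    ring
  have e2 : (2:ℝ)^(-((n:ℝ)/2)) * (2:ℝ)^(-((n:ℝ)/2)) = (2^n)⁻¹ := by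
    rw [← Real.rpow_add (by norm_num), ← Real.rpow_natCast, ← Real.rpow_neg (by norm_num)]
    congr 1
    ring
  symm
  calc l * (n:ℝ)^((d:ℝ)/2) * (2:ℝ)^(-((n:ℝ)/2)) * (l * (n:ℝ)^((d:ℝ)/2) * (2:ℝ)^(-((n:ℝ)/2)))
      = l^2 * ((n:ℝ)^((d:ℝ)/2) * (n:ℝ)^((d:ℝ)/2)) *
        ((2:ℝ)^(-((n:ℝ)/2)) * (2:ℝ)^(-((n:ℝ)/2))) := by ring
    _ = (n:ℝ)^d * l^2 / 2^n := by rw [e1, e2]; ring

/-- **NUMLHB** -/
theorem numlhb : S_NUMLHB := by
  intro d hd c n0 hc
  set n1 : ℕ := max n0 2 with hn1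
  have hn1' : 2 ≤ n1 := le_max_right _ _
  set g : ℕ → ℝ := fun n => c * 2^n * (n:ℝ)^(d-1) with hg
  set C1 : ℝ := |Real.log c| + 1 + d with hC1
  have hC1p : 0 < C1 := by positivity
  set C2 : ℝ := |Real.log (C1 + 3)| + 2 with hC2
  have hC2p : 0 < C2 := by positivity
  set G : ℝ := g n1 with hG
  have hGp : 0 < G := by
    rw [hG, hg]; positivity
  set R : ℝ := (n1:ℝ)^d * (Nat.log 2 n1 : ℝ)^2 / 2^n1 with hR
  have hRp : 0 < R := by
    have := (numlb_log n1 hn1').1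
    rw [hR]; positivity
  set D : ℝ := 2^d * C1^(2*d-1) * C2^2 / c + G^(2*d-1) * (G + 3)^2 / R with hD
  have hDp : 0 < D := by positivity
  have hmain : ∀ k : ℕ, 2 ≤ k → ∃ n : ℕ, n0 ≤ n ∧ (k:ℝ) ≤ g n ∧
      numlhb_P d k ≤ D * ((n:ℝ)^d * (Nat.log 2 n : ℝ)^2 / 2^n) := by
    intro k hk
    have hk0 : (0:ℝ) < k := by positivity
    have hk1 : (1:ℝ) ≤ k := by exact_mod_cast (by omega : 1 ≤ k)
    have hex : ∃ n, n1 ≤ n ∧ (k:ℝ) ≤ g n := by
      refine ⟨max n1 ⌈(k:ℝ)/c⌉₊, le_max_left _ _, ?_⟩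
      set n := max n1 ⌈(k:ℝ)/c⌉₊ with hn
      have h1 : (k:ℝ)/c ≤ n := (Nat.le_ceil _).trans (by exact_mod_cast le_max_right _ _)
      have h2 : (n:ℝ) ≤ 2^n := by exact_mod_cast (Nat.lt_two_pow_self).le
      have h3 : (1:ℝ) ≤ (n:ℝ)^(d-1) := one_le_pow₀ (by
        exact_mod_cast (by omega : 1 ≤ n))
      rw [div_le_iff₀ hc] at h1
      calc (k:ℝ) ≤ n * c := h1
        _ ≤ 2^n * c := mul_le_mul_of_nonneg_right h2 hc.le
        _ = c * 2^n * 1 := by ring
        _ ≤ c * 2^n * (n:ℝ)^(d-1) := mul_le_mul_of_nonneg_left h3 (by positivity)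
    classical
    set n := Nat.find hex with hn
    have hn2 : n1 ≤ n := (Nat.find_spec hex).1
    have hn3 : (k:ℝ) ≤ g n := (Nat.find_spec hex).2
    refine ⟨n, (le_max_left _ _).trans hn2, hn3, ?_⟩
    have hl : 0 ≤ Real.log k := Real.log_nonneg hk1
    have hl2 : 0 ≤ Real.log (Real.log k + 3) := Real.log_nonneg (by linarith)
    have hnn : 2 ≤ n := hn1'.trans hn2
    have hnp : (0:ℝ) < n := by positivity
    have hn1r : (1:ℝ) ≤ n := by exact_mod_cast (by omega : 1 ≤ n)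
    have hℓ := numlb_log n hnn
    have hℓp : (0:ℝ) < (Nat.log 2 n : ℝ) := by linarith [hℓ.1]
    rcases hn2.eq_or_lt with he | hlt
    · -- first value
      have e1 : (k:ℝ) ≤ G := by rw [hG, he]; exact hn3
      have e2 : Real.log k ≤ G := (Real.log_le_self hk0.le).trans e1
      have e3 : Real.log (Real.log k + 3) ≤ G + 3 := (Real.log_le_self (by linarith)).trans (by linarith)
      have e4 : (k:ℝ)⁻¹ ≤ 1 := inv_le_one_of_one_le₀ hk1
      have e5 : numlhb_P d k ≤ 1 * G^(2*d-1) * (G + 3)^2 := by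
        unfold numlhb_P
        refine mul_le_mul (mul_le_mul e4 (pow_le_pow_left₀ hl e2 _) (by positivity) (by norm_num))
          (pow_le_pow_left₀ hl2 e3 2) (by positivity) (by positivity)
      rw [one_mul] at e5
      refine e5.trans ?_
      rw [← he, ← hR, hD, add_mul, div_mul_cancel₀ _ hRp.ne']
      have : 0 ≤ 2 ^ d * C1 ^ (2*d-1) * C2^2 / c * R := by positivity
      linarith
    · have hlt' : ¬ (n1 ≤ n - 1 ∧ (k:ℝ) ≤ g (n-1)) := Nat.find_min hex (by omega)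
      have h4 : g (n-1) < k := by
        by_contra hcon
        exact hlt' ⟨by omega, not_lt.1 hcon⟩
      have h5 : c * 2^n * (n:ℝ)^(d-1) / 2^d ≤ k := by
        refine le_trans ?_ h4.le
        have e1 : ((n - 1 : ℕ) : ℝ) = n - 1 := by
          rw [Nat.cast_sub (by omega)]; norm_num
        have e2 : (n:ℝ) / 2 ≤ ((n - 1 : ℕ) : ℝ) := by
          have : (2:ℝ) ≤ n := by exact_mod_cast hnn
          rw [e1]; linarith
        have e3 : ((n:ℝ) / 2)^(d-1) ≤ ((n - 1 : ℕ) : ℝ)^(d-1) := pow_le_pow_left₀ (by positivity) e2 _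
        have e4 : (2:ℝ)^n = 2 * 2^(n-1) := by
          rw [← pow_succ']; congr 1; omega
        have e5 : (2:ℝ)^d = 2 * 2^(d-1) := by
          rw [← pow_succ']; congr 1; omega
        rw [hg]
        simp only
        calc c * 2^n * (n:ℝ)^(d-1) / 2^d = c * 2^(n-1) * ((n:ℝ)/2)^(d-1) := by
              rw [e4, e5, div_pow]; field_simp
          _ ≤ c * 2^(n-1) * ((n - 1 : ℕ) : ℝ)^(d-1) := mul_le_mul_of_nonneg_left e3 (by positivity)
      have h6 : Real.log k ≤ C1 * n := by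
        have e1 : Real.log k ≤ Real.log (g n) := Real.log_le_log hk0 hn3
        have e2 : Real.log (g n) = Real.log c + n * Real.log 2 + ((d-1 : ℕ) : ℝ) * Real.log n := by
          rw [hg]
          simp only
          rw [Real.log_mul (by positivity) (by positivity), Real.log_mul hc.ne' (by positivity),
            Real.log_pow, Real.log_pow]
        have e3 : Real.log 2 ≤ 1 := by
          have := Real.log_two_lt_d9; linarith
        have e4 : Real.log n ≤ n := Real.log_le_self hnp.le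
        have e5 : Real.log c ≤ |Real.log c| * n := by
          have := le_abs_self (Real.log c)
          have := abs_nonneg (Real.log c)
          nlinarith
        have e6 : ((d-1 : ℕ) : ℝ) ≤ d := by exact_mod_cast Nat.sub_le _ _
        have e7 : ((d-1 : ℕ) : ℝ) * Real.log n ≤ d * n :=
          mul_le_mul e6 e4 (Real.log_nonneg hn1r) (by positivity)
        have e8 : (n:ℝ) * Real.log 2 ≤ n := by nlinarith
        rw [e2] at e1
        rw [hC1]
        linarith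
      have h7 : Real.log (Real.log k + 3) ≤ C2 * Nat.log 2 n := by
        have e1 : Real.log k + 3 ≤ (C1 + 3) * n := by nlinarith
        have e2 : Real.log (Real.log k + 3) ≤ Real.log ((C1 + 3) * n) :=
          Real.log_le_log (by linarith) e1
        rw [Real.log_mul (by positivity) (by positivity)] at e2
        have e3 : Real.log (C1 + 3) ≤ |Real.log (C1 + 3)| * Nat.log 2 n := by
          have := le_abs_self (Real.log (C1 + 3))
          have := abs_nonneg (Real.log (C1 + 3))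
          nlinarith [hℓ.1]
        rw [hC2, add_mul]
        linarith [hℓ.2]
      have h8 : (k:ℝ)⁻¹ ≤ (c * 2^n * (n:ℝ)^(d-1) / 2^d)⁻¹ := inv_anti₀ (by positivity) h5
      have h9 : numlhb_P d k ≤ (c * 2^n * (n:ℝ)^(d-1) / 2^d)⁻¹ * (C1 * n)^(2*d-1) *
          (C2 * Nat.log 2 n)^2 := by
        unfold numlhb_P
        exact mul_le_mul (mul_le_mul h8 (pow_le_pow_left₀ hl h6 _) (by positivity) (by positivity))
          (pow_le_pow_left₀ hl2 h7 2) (by positivity) (by positivity)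
      refine h9.trans ?_
      have e1 : (n:ℝ)^(2*d-1) = (n:ℝ)^d * (n:ℝ)^(d-1) := by
        rw [← pow_add]; congr 1; omega
      have e2 : (c * 2^n * (n:ℝ)^(d-1) / 2^d)⁻¹ * (C1 * n)^(2*d-1) * (C2 * Nat.log 2 n)^2
          = 2^d * C1^(2*d-1) * C2^2 / c * ((n:ℝ)^d * (Nat.log 2 n : ℝ)^2 / 2^n) := by
        rw [mul_pow, e1]
        field_simp
      rw [e2]
      refine mul_le_mul_of_nonneg_right ?_ (by positivity)
      have : 0 ≤ G^(2*d-1) * (G + 3)^2 / R := by positivity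
      rw [hD]; linarith
  refine ⟨c / Real.sqrt D, by positivity, ?_⟩
  intro k hk
  obtain ⟨n, h1, h2, h3⟩ := hmain k hk
  refine ⟨n, h1, h2, ?_⟩
  rw [numlhb_sq d k (by omega) hk]
  have h4 : Real.sqrt (numlhb_P d k) ≤
      Real.sqrt D * Real.sqrt ((n:ℝ)^d * (Nat.log 2 n : ℝ)^2 / 2^n) := by
    rw [← Real.sqrt_mul hDp.le]
    exact Real.sqrt_le_sqrt h3
  have h5 : 0 < Real.sqrt D := Real.sqrt_pos.2 hDp
  rw [numlhb_rhs d n _ (Nat.cast_nonneg _)] at h4
  calc c / Real.sqrt D * Real.sqrt (numlhb_P d k)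
      ≤ c / Real.sqrt D * (Real.sqrt D *
        ((Nat.log 2 n : ℝ) * (n:ℝ)^((d:ℝ)/2) * (2:ℝ)^(-((n:ℝ)/2)))) :=
        mul_le_mul_of_nonneg_left h4 (by positivity)
    _ = c * Nat.log 2 n * (n:ℝ)^((d:ℝ)/2) * (2:ℝ)^(-((n:ℝ)/2)) := by
        field_simp

end SmSm
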