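import Pool.Agent.H636R2.SM.SpecP
import Pool.Agent.H636R2.HE.P_num1
import Pool.Agent.H636R2.HE.P_num2
import Pool.Agent.H636R2.HE.P_num3
import Pool.Agent.H636R2.HE.P_num4
import Pool.Agent.H636R2.HE.P_num5

/-! Task NUMP: numerics of the scheme (helper355) -/

open MeasureTheory Real
open scoped ENNReal BigOperators

namespace SmSm

theorem nump_tail (e : ℕ) (s : ℝ) (hs : 0 < s) : ∃ S : ℝ, 0 ≤ S ∧
    Summable (fun n : ℕ => ((n:ℝ)+1)^e * (2:ℝ)^(-(s * n))) ∧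
    ∀ n1 : ℕ, ∑' n : ℕ, (((n + n1 : ℕ) : ℝ)+1)^e * (2:ℝ)^(-(s * ((n + n1 : ℕ) : ℝ))) ≤
      S * (2:ℝ)^(-(s / 2 * n1)) := by
  obtain ⟨q, hq⟩ : ∃ q : ℝ, q = (2:ℝ)^(-(s/2)) := ⟨_, rfl⟩
  have hq0 : 0 < q := by rw [hq]; positivity
  have hq1 : q < 1 := by
    rw [hq]
    exact Real.rpow_lt_one_of_one_lt_of_neg (by norm_num) (by linarith)
  have hqn : ∀ n : ℕ, (2:ℝ)^(-(s/2 * n)) = q^n := by
    intro n
    rw [hq, ← Real.rpow_natCast, ← Real.rpow_mul (by norm_num)]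
    congr 1
    ring
  have hqn2 : ∀ n : ℕ, (2:ℝ)^(-(s * n)) = q^n * q^n := by
    intro n
    rw [← hqn, ← Real.rpow_add (by norm_num)]
    congr 1
    ring
  have hsum : Summable (fun n : ℕ => ((n:ℝ)+1)^e * q^n) := by
    have h1 : Summable (fun n : ℕ => ((n:ℝ))^e * q^n) :=
      summable_pow_mul_geometric_of_norm_lt_one e (by rw [Real.norm_of_nonneg hq0.le]; exact hq1)
    have h2 := ((summable_nat_add_iff 1).mpr h1).mul_left q⁻¹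
    refine h2.congr fun j => ?_
    push_cast
    rw [pow_succ]
    field_simp
  have hnn : ∀ n : ℕ, 0 ≤ ((n:ℝ)+1)^e * q^n := fun n => by positivity
  have hle1 : ∀ n : ℕ, q^n ≤ 1 := fun n => pow_le_one₀ hq0.le hq1.le
  refine ⟨∑' n : ℕ, ((n:ℝ)+1)^e * q^n, tsum_nonneg hnn, ?_, ?_⟩
  · refine Summable.of_nonneg_of_le (fun n => by positivity) (fun n => ?_) hsum
    rw [hqn2, ← mul_assoc]
    exact mul_le_of_le_one_right (hnn n) (hle1 n)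
  · intro n1
    rw [hqn]
    have hs1 : Summable (fun n : ℕ => (((n + n1 : ℕ) : ℝ)+1)^e * q^(n + n1)) :=
      (summable_nat_add_iff (f := fun n : ℕ => ((n:ℝ)+1)^e * q^n) n1).mpr hsum
    have hterm : ∀ n : ℕ, (((n + n1 : ℕ) : ℝ)+1)^e * (2:ℝ)^(-(s * ((n + n1 : ℕ) : ℝ))) ≤
        q^n1 * ((((n + n1 : ℕ) : ℝ)+1)^e * q^(n + n1)) := by
      intro n
      rw [hqn2, ← mul_assoc, mul_comm (q^n1)]
      refine mul_le_mul_of_nonneg_left ?_ (hnn _)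
      rw [pow_add]
      exact mul_le_of_le_one_left (by positivity) (hle1 n)
    have hs2 : Summable (fun n : ℕ =>
        (((n + n1 : ℕ) : ℝ)+1)^e * (2:ℝ)^(-(s * ((n + n1 : ℕ) : ℝ)))) :=
      Summable.of_nonneg_of_le (fun n => by positivity) hterm (hs1.mul_left _)
    calc ∑' n : ℕ, (((n + n1 : ℕ) : ℝ)+1)^e * (2:ℝ)^(-(s * ((n + n1 : ℕ) : ℝ)))
        ≤ ∑' n : ℕ, q^n1 * ((((n + n1 : ℕ) : ℝ)+1)^e * q^(n + n1)) :=
          hs2.tsum_le_tsum hterm (hs1.mul_left _)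
      _ = q^n1 * ∑' n : ℕ, ((((n + n1 : ℕ) : ℝ)+1)^e * q^(n + n1)) := tsum_mul_left
      _ ≤ q^n1 * ∑' n : ℕ, ((n:ℝ)+1)^e * q^n := by
          refine mul_le_mul_of_nonneg_left ?_ (by positivity)
          have h3 := hsum.sum_add_tsum_nat_add n1
          have h4 : 0 ≤ ∑ n ∈ Finset.range n1, ((n:ℝ)+1)^e * q^n :=
            Finset.sum_nonneg fun n _ => hnn n
          linarith
      _ = _ := mul_comm _ _

/-- `n + 1 ≤ 2 max n 1` -/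
theorem nump_max (n : ℕ) : (n:ℝ) + 1 ≤ 2 * ((max n 1 : ℕ) : ℝ) := by
  have h : n + 1 ≤ 2 * max n 1 := by omega
  exact_mod_cast h

theorem nump_A (e : ℕ) (r C0 : ℝ) (hr : 0 < r) (hC0 : 0 < C0) : ∃ K : ℝ, 0 < K ∧ ∀ n0 : ℕ, 1 ≤ n0 →
    ∑ n ∈ Finset.range n0, C0 * (2^n * ((n:ℝ)+1)^e *
      (1 + Real.log (1 / (2:ℝ)^(-(r+1) * ((n0 - n : ℕ) : ℝ))))) ≤ K * 2^n0 * (n0:ℝ)^e := by
  obtain ⟨C1, hC1, h1⟩ := HypVolE.num1 e r hr
  refine ⟨C0 * 2^e * C1, by positivity, fun n0 hn0 => ?_⟩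
  have hl2 : Real.log 2 ≤ 1 := by
    have := Real.log_le_sub_one_of_pos (show (0:ℝ) < 2 by norm_num)
    linarith
  have hl20 : 0 ≤ Real.log 2 := Real.log_nonneg (by norm_num)
  calc _ ≤ ∑ n ∈ Finset.range n0, C0 * 2^e * ((2:ℝ)^n * ((max n 1 : ℕ) : ℝ)^e *
        (1 + (r + 1) * ((n0:ℝ) - n))) := by
        refine Finset.sum_le_sum fun n hn => ?_
        have hn' : n ≤ n0 := (Finset.mem_range.1 hn).le
        have hx : ((n0 - n : ℕ) : ℝ) = (n0:ℝ) - n := Nat.cast_sub hn'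
        have hx0 : (0:ℝ) ≤ ((n0 - n : ℕ) : ℝ) := Nat.cast_nonneg _
        have e1 : Real.log (1 / (2:ℝ)^(-(r+1) * ((n0 - n : ℕ) : ℝ))) =
            (r + 1) * ((n0 - n : ℕ) : ℝ) * Real.log 2 := by
          rw [one_div, Real.log_inv, Real.log_rpow (by norm_num)]
          ring
        rw [e1, ← hx]
        have e2 : (r + 1) * ((n0 - n : ℕ) : ℝ) * Real.log 2 ≤ (r + 1) * ((n0 - n : ℕ) : ℝ) :=
          mul_le_of_le_one_right (by positivity) hl2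
        have e3 : ((n:ℝ)+1)^e ≤ 2^e * ((max n 1 : ℕ) : ℝ)^e := by
          rw [← mul_pow]
          exact pow_le_pow_left₀ (by positivity) (nump_max n) e
        calc C0 * (2^n * ((n:ℝ)+1)^e * (1 + (r + 1) * ((n0 - n : ℕ) : ℝ) * Real.log 2))
            ≤ C0 * (2^n * (2^e * ((max n 1 : ℕ) : ℝ)^e) * (1 + (r + 1) * ((n0 - n : ℕ) : ℝ))) := by
              gcongr
          _ = _ := by ring
    _ ≤ ∑ n ∈ Finset.range (n0 + 1), C0 * 2^e * ((2:ℝ)^n * ((max n 1 : ℕ) : ℝ)^e *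
        (1 + (r + 1) * ((n0:ℝ) - n))) := by
        refine Finset.sum_le_sum_of_subset_of_nonneg
          (Finset.range_subset_range.2 (Nat.le_succ n0)) fun n hn _ => ?_
        have hn' : n ≤ n0 := by
          have := Finset.mem_range.1 hn
          omega
        have hx : (0:ℝ) ≤ (n0:ℝ) - n := sub_nonneg.2 (by exact_mod_cast hn')
        positivity
    _ = C0 * 2^e * ∑ n ∈ Finset.range (n0 + 1), ((2:ℝ)^n * ((max n 1 : ℕ) : ℝ)^e *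
        (1 + (r + 1) * ((n0:ℝ) - n))) := by rw [Finset.mul_sum]
    _ ≤ C0 * 2^e * (C1 * (2:ℝ)^n0 * (n0:ℝ)^e) :=
        mul_le_mul_of_nonneg_left (h1 n0 hn0) (by positivity)
    _ = _ := by ring

theorem nump_C (f r : ℝ) (hf : 0 ≤ f) (hr : 0 < r) : ∃ K : ℝ, 0 < K ∧ ∀ n0 : ℕ, 1 ≤ n0 →
    ∑ n ∈ Finset.range n0, (2:ℝ)^(-(r * n)) * ((n:ℝ)+1)^f *
      (2:ℝ)^(-(r+1) * ((n0 - n : ℕ) : ℝ)) ≤ K * (2:ℝ)^(-r * (n0:ℝ)) * (n0:ℝ)^f := by
  obtain ⟨C3, hC3, h3⟩ := HypVolE.num3 r f hr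
  refine ⟨2^f * C3, by positivity, fun n0 hn0 => ?_⟩
  calc _ ≤ ∑ n ∈ Finset.range n0, 2^f * ((2:ℝ)^(-r * (n:ℝ)) * ((max n 1 : ℕ) : ℝ)^f *
        (2:ℝ)^(-(r + 1) * ((n0:ℝ) - n))) := by
        refine Finset.sum_le_sum fun n hn => ?_
        have hn' : n ≤ n0 := (Finset.mem_range.1 hn).le
        have hx : ((n0 - n : ℕ) : ℝ) = (n0:ℝ) - n := Nat.cast_sub hn'
        rw [← hx]
        have e3 : ((n:ℝ)+1)^f ≤ 2^f * ((max n 1 : ℕ) : ℝ)^f := by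
          rw [← Real.mul_rpow (by norm_num) (by positivity)]
          exact Real.rpow_le_rpow (by positivity) (nump_max n) hf
        rw [neg_mul r]
        calc (2:ℝ)^(-(r * n)) * ((n:ℝ)+1)^f * (2:ℝ)^(-(r+1) * ((n0 - n : ℕ) : ℝ))
            ≤ (2:ℝ)^(-(r * n)) * (2^f * ((max n 1 : ℕ) : ℝ)^f) *
              (2:ℝ)^(-(r+1) * ((n0 - n : ℕ) : ℝ)) := by gcongr
          _ = _ := by ring
    _ ≤ ∑ n ∈ Finset.range (n0 + 1), 2^f * ((2:ℝ)^(-r * (n:ℝ)) * ((max n 1 : ℕ) : ℝ)^f *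
        (2:ℝ)^(-(r + 1) * ((n0:ℝ) - n))) := by
        refine Finset.sum_le_sum_of_subset_of_nonneg
          (Finset.range_subset_range.2 (Nat.le_succ n0)) fun n hn _ => ?_
        positivity
    _ = 2^f * ∑ n ∈ Finset.range (n0 + 1), ((2:ℝ)^(-r * (n:ℝ)) * ((max n 1 : ℕ) : ℝ)^f *
        (2:ℝ)^(-(r + 1) * ((n0:ℝ) - n))) := by rw [Finset.mul_sum]
    _ ≤ 2^f * (C3 * (2:ℝ)^(-r * (n0:ℝ)) * (n0:ℝ)^f) :=
        mul_le_mul_of_nonneg_left (h3 n0 hn0) (by positivity)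
    _ = _ := by ring

/-- splitting the sum at `n0` -/
theorem nump_Ico (F : ℕ → ℝ) (n0 m : ℕ) : ∑ n ∈ Finset.Ico n0 (n0 + (m + 1)), F n =
    F n0 + ∑ j ∈ Finset.range m, F (n0 + 1 + j) := by
  rw [Finset.sum_Ico_eq_sum_range, Nat.add_sub_cancel_left, Finset.sum_range_succ']
  rw [add_zero, add_comm]
  congr 1
  refine Finset.sum_congr rfl fun j _ => ?_
  congr 1
  ring

theorem nump_B (e : ℕ) (w C0 : ℝ) (hw : 1 < w) (hC0 : 0 < C0) : ∃ K : ℝ, 0 < K ∧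
    ∀ n0 : ℕ, 1 ≤ n0 → ∀ m : ℕ, ∑ n ∈ Finset.Ico n0 (n0 + (m + 1)),
      C0 * (2^n * ((n:ℝ)+1)^e * (1 + Real.log ((2:ℝ)^(w * ((n - n0 : ℕ) : ℝ)))) /
        (2:ℝ)^(w * ((n - n0 : ℕ) : ℝ)) + 1) ≤ K * 2^n0 * (n0:ℝ)^e + C0 * (m + 1) := by
  obtain ⟨C2, hC2, h2⟩ := HypVolE.num2 e ((1 + w)/2) (by linarith)
  set h : ℝ := (w - 1)/2 with hh
  have hh0 : 0 < h := by rw [hh]; linarith
  set B : ℝ := 1 + w / h with hB
  have hB0 : 0 < B := by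
    have : 0 < w / h := div_pos (by linarith) hh0
    rw [hB]; linarith
  refine ⟨C0 * 2^e * (1 + B * C2), by positivity, fun n0 hn0 m => ?_⟩
  have hlog : ∀ x : ℝ, 0 ≤ x → (1 + Real.log ((2:ℝ)^(w * x))) / (2:ℝ)^(w * x) ≤
      B * (2:ℝ)^(-((1 + w)/2) * x) := by
    intro x hx
    rw [Real.log_rpow (by norm_num)]
    have e1 : h * x * Real.log 2 + 1 ≤ (2:ℝ)^(h * x) := by
      have := Real.add_one_le_exp (h * x * Real.log 2)
      rw [Real.rpow_def_of_pos (by norm_num)]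
      refine this.trans (le_of_eq ?_)
      congr 1
      ring
    have e2 : (1:ℝ) ≤ (2:ℝ)^(h * x) := Real.one_le_rpow (by norm_num) (by positivity)
    have e3 : 1 + w * x * Real.log 2 ≤ B * (2:ℝ)^(h * x) := by
      have e4 : w * x * Real.log 2 = w / h * (h * x * Real.log 2) := by field_simp
      have e5 : w / h * (h * x * Real.log 2) ≤ w / h * (2:ℝ)^(h * x) := by
        refine mul_le_mul_of_nonneg_left ?_ (by positivity)
        linarith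
      rw [e4, hB, add_mul, one_mul]
      linarith
    have e6 : -((1 + w)/2) * x + w * x = h * x := by rw [hh]; ring
    have e7 : B * (2:ℝ)^(-((1 + w)/2) * x) * (2:ℝ)^(w * x) = B * (2:ℝ)^(h * x) := by
      rw [mul_assoc B, ← Real.rpow_add (by norm_num), e6]
    rw [div_le_iff₀ (by positivity), e7]
    exact e3
  have hterm : ∀ n : ℕ, C0 * (2^n * ((n:ℝ)+1)^e *
      (1 + Real.log ((2:ℝ)^(w * ((n - n0 : ℕ) : ℝ)))) /
        (2:ℝ)^(w * ((n - n0 : ℕ) : ℝ)) + 1) ≤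
      C0 * (2^n * ((n:ℝ)+1)^e) * (B * (2:ℝ)^(-((1 + w)/2) * ((n - n0 : ℕ) : ℝ))) + C0 := by
    intro n
    have e1 := hlog ((n - n0 : ℕ) : ℝ) (Nat.cast_nonneg _)
    have e2 : (0:ℝ) ≤ C0 * (2^n * ((n:ℝ)+1)^e) := by positivity
    have e3 := mul_le_mul_of_nonneg_left e1 e2
    refine le_trans (le_of_eq ?_) (add_le_add_left e3 C0)
    ring
  rw [nump_Ico]
  have hA : C0 * (2^n0 * ((n0:ℝ)+1)^e *
      (1 + Real.log ((2:ℝ)^(w * ((n0 - n0 : ℕ) : ℝ)))) /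
        (2:ℝ)^(w * ((n0 - n0 : ℕ) : ℝ)) + 1) ≤ C0 * 2^e * (2^n0 * (n0:ℝ)^e) + C0 := by
    have hn : (1:ℝ) ≤ n0 := by exact_mod_cast hn0
    have e3 : ((n0:ℝ)+1)^e ≤ 2^e * (n0:ℝ)^e := by
      rw [← mul_pow]
      exact pow_le_pow_left₀ (by positivity) (by linarith) e
    rw [Nat.sub_self, Nat.cast_zero, mul_zero, Real.rpow_zero, Real.log_one, add_zero, mul_one,
      div_one]
    calc C0 * (2^n0 * ((n0:ℝ)+1)^e + 1) ≤ C0 * (2^n0 * (2^e * (n0:ℝ)^e) + 1) := by gcongr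
      _ = _ := by ring
  have hBs : ∑ j ∈ Finset.range m, C0 * (2^(n0 + 1 + j) * (((n0 + 1 + j : ℕ) : ℝ)+1)^e *
      (1 + Real.log ((2:ℝ)^(w * ((n0 + 1 + j - n0 : ℕ) : ℝ)))) /
        (2:ℝ)^(w * ((n0 + 1 + j - n0 : ℕ) : ℝ)) + 1) ≤
        C0 * 2^e * B * (C2 * 2^n0 * (n0:ℝ)^e) + C0 * m := by
    calc _ ≤ ∑ j ∈ Finset.range m, (C0 * 2^e * B * ((2:ℝ)^(n0 + 1 + j) *
          ((n0 + 1 + j : ℕ) : ℝ)^e * (2:ℝ)^(-((1 + w)/2) * ((j:ℝ) + 1))) + C0) := by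
          refine Finset.sum_le_sum fun j _ => ?_
          refine (hterm (n0 + 1 + j)).trans ?_
          have e1 : ((n0 + 1 + j - n0 : ℕ) : ℝ) = (j:ℝ) + 1 := by
            have : n0 + 1 + j - n0 = j + 1 := by omega
            rw [this]; push_cast; ring
          rw [e1]
          have e3 : (((n0 + 1 + j : ℕ) : ℝ)+1)^e ≤ 2^e * ((n0 + 1 + j : ℕ) : ℝ)^e := by
            rw [← mul_pow]
            refine pow_le_pow_left₀ (by positivity) ?_ e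
            have : (1:ℝ) ≤ ((n0 + 1 + j : ℕ) : ℝ) := by exact_mod_cast (by omega : 1 ≤ n0 + 1 + j)
            linarith
          refine add_le_add_left ?_ C0
          calc C0 * (2^(n0 + 1 + j) * (((n0 + 1 + j : ℕ) : ℝ)+1)^e) *
                (B * (2:ℝ)^(-((1 + w)/2) * ((j:ℝ) + 1)))
              ≤ C0 * (2^(n0 + 1 + j) * (2^e * ((n0 + 1 + j : ℕ) : ℝ)^e)) *
                (B * (2:ℝ)^(-((1 + w)/2) * ((j:ℝ) + 1))) := by gcongr
            _ = _ := by ring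
      _ = C0 * 2^e * B * (∑ j ∈ Finset.range m, (2:ℝ)^(n0 + 1 + j) *
          ((n0 + 1 + j : ℕ) : ℝ)^e * (2:ℝ)^(-((1 + w)/2) * ((j:ℝ) + 1))) + C0 * m := by
          rw [Finset.sum_add_distrib, ← Finset.mul_sum, Finset.sum_const, Finset.card_range,
            nsmul_eq_mul, mul_comm (m:ℝ)]
      _ ≤ _ := by
          refine add_le_add_left ?_ _
          exact mul_le_mul_of_nonneg_left (h2 n0 hn0 m) (by positivity)
  calc _ ≤ (C0 * 2^e * (2^n0 * (n0:ℝ)^e) + C0) +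
        (C0 * 2^e * B * (C2 * 2^n0 * (n0:ℝ)^e) + C0 * m) := add_le_add hA hBs
    _ = _ := by ring

theorem nump_D (f r μ : ℝ) (hf : 0 ≤ f) (hμ : μ < r) : ∃ K : ℝ, 0 < K ∧
    ∀ n0 : ℕ, 1 ≤ n0 → ∀ m : ℕ, ∑ n ∈ Finset.Ico n0 (n0 + (m + 1)),
      (2:ℝ)^(-(r * n)) * ((n:ℝ)+1)^f * (2:ℝ)^(μ * ((n - n0 : ℕ) : ℝ)) ≤
        K * (2:ℝ)^(-r * (n0:ℝ)) * (n0:ℝ)^f := by
  obtain ⟨C4, hC4, h4⟩ := HypVolE.num4 r f μ hμ
  refine ⟨2^f * (1 + C4), by positivity, fun n0 hn0 m => ?_⟩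
  have hle : ∀ n : ℕ, 1 ≤ n → ((n:ℝ)+1)^f ≤ 2^f * (n:ℝ)^f := by
    intro n hn
    have hn' : (1:ℝ) ≤ n := by exact_mod_cast hn
    rw [← Real.mul_rpow (by norm_num) (by positivity)]
    exact Real.rpow_le_rpow (by positivity) (by linarith) hf
  rw [nump_Ico]
  have hA : (2:ℝ)^(-(r * (n0:ℝ))) * ((n0:ℝ)+1)^f * (2:ℝ)^(μ * ((n0 - n0 : ℕ) : ℝ)) ≤
      2^f * ((2:ℝ)^(-r * (n0:ℝ)) * (n0:ℝ)^f) := by
    rw [Nat.sub_self, Nat.cast_zero, mul_zero, Real.rpow_zero, mul_one, neg_mul]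
    calc (2:ℝ)^(-(r * (n0:ℝ))) * ((n0:ℝ)+1)^f ≤ (2:ℝ)^(-(r * (n0:ℝ))) * (2^f * (n0:ℝ)^f) := by
          gcongr
          exact hle n0 hn0
      _ = _ := by ring
  have hBs : ∑ j ∈ Finset.range m, (2:ℝ)^(-(r * ((n0 + 1 + j : ℕ) : ℝ))) *
      (((n0 + 1 + j : ℕ) : ℝ)+1)^f * (2:ℝ)^(μ * ((n0 + 1 + j - n0 : ℕ) : ℝ)) ≤
        2^f * (C4 * (2:ℝ)^(-r * (n0:ℝ)) * (n0:ℝ)^f) := by
    calc _ ≤ ∑ j ∈ Finset.range m, 2^f * ((2:ℝ)^(-r * ((n0 + 1 + j : ℕ) : ℝ)) *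
          ((n0 + 1 + j : ℕ) : ℝ)^f * (2:ℝ)^(μ * ((j:ℝ) + 1))) := by
          refine Finset.sum_le_sum fun j _ => ?_
          have e1 : ((n0 + 1 + j - n0 : ℕ) : ℝ) = (j:ℝ) + 1 := by
            have : n0 + 1 + j - n0 = j + 1 := by omega
            rw [this]; push_cast; ring
          rw [e1, neg_mul r]
          have e3 := hle (n0 + 1 + j) (by omega)
          calc (2:ℝ)^(-(r * ((n0 + 1 + j : ℕ) : ℝ))) * (((n0 + 1 + j : ℕ) : ℝ)+1)^f *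
                (2:ℝ)^(μ * ((j:ℝ) + 1))
              ≤ (2:ℝ)^(-(r * ((n0 + 1 + j : ℕ) : ℝ))) * (2^f * ((n0 + 1 + j : ℕ) : ℝ)^f) *
                (2:ℝ)^(μ * ((j:ℝ) + 1)) := by gcongr
            _ = _ := by ring
      _ = 2^f * ∑ j ∈ Finset.range m, ((2:ℝ)^(-r * ((n0 + 1 + j : ℕ) : ℝ)) *
          ((n0 + 1 + j : ℕ) : ℝ)^f * (2:ℝ)^(μ * ((j:ℝ) + 1))) := by rw [Finset.mul_sum]
      _ ≤ _ := mul_le_mul_of_nonneg_left (h4 n0 hn0 m) (by positivity)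
  calc _ ≤ 2^f * ((2:ℝ)^(-r * (n0:ℝ)) * (n0:ℝ)^f) +
        2^f * (C4 * (2:ℝ)^(-r * (n0:ℝ)) * (n0:ℝ)^f) := add_le_add hA hBs
    _ = _ := by ring

theorem nump : S_NUMP := by
  intro d hd p r C0 hp hpr hC0
  have hp0 : 0 < p := by linarith
  have hr : 0 < r := lt_trans (by positivity) hpr
  obtain ⟨μ, hμ1, hμ2⟩ := exists_between hpr
  obtain ⟨w, hw⟩ : ∃ w : ℝ, w = μ * p := ⟨_, rfl⟩
  have hw1 : 1 < w := by
    rw [hw]
    exact (div_lt_iff₀ hp0).1 hμ1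
  obtain ⟨f, hf⟩ : ∃ f : ℝ, f = (d:ℝ)/2 := ⟨_, rfl⟩
  have hf0 : 0 ≤ f := by rw [hf]; positivity
  obtain ⟨s, hs⟩ : ∃ s : ℝ, s = r - 1/p := ⟨_, rfl⟩
  have hs0 : 0 < s := by rw [hs]; linarith
  obtain ⟨S, hS0, hSs, hSt⟩ := nump_tail (d - 1) s hs0
  obtain ⟨KA, hKA, hA⟩ := nump_A (d - 1) r C0 hr hC0
  obtain ⟨KB, hKB, hB⟩ := nump_B (d - 1) w C0 hw1 hC0
  obtain ⟨KC, hKC, hC⟩ := nump_C f r hf0 hr
  obtain ⟨KD, hKD, hD⟩ := nump_D f r μ hf0 hμ2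
  obtain ⟨A, hAr⟩ := exists_nat_ge (2 * r / s)
  obtain ⟨k0, C5, hk0, hC5, h5⟩ := HypVolE.num5 (d - 1) r f (KA + KB + C0 * (A + 2)) hr
    (by positivity)
  have hT : ∀ n : ℕ, (2:ℝ)^(-(r * n)) * ((n:ℝ)+1)^(d-1) * (2:ℝ)^((n:ℝ)/p) =
      ((n:ℝ)+1)^(d-1) * (2:ℝ)^(-(s * n)) := by
    intro n
    have e1 : (2:ℝ)^(-(s * n)) = (2:ℝ)^(-(r * n)) * (2:ℝ)^((n:ℝ)/p) := by
      rw [← Real.rpow_add (by norm_num), hs]
      congr 1
      ring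
    rw [e1]
    ring
  have hd1 : ((d - 1 : ℕ) : ℝ) = (d:ℝ) - 1 := by
    push_cast [Nat.cast_sub hd]
    ring
  have hψ : ∀ k : ℕ, (k:ℝ)^(-r) * (Real.log k)^(((d - 1 : ℕ) : ℝ) * r + f) = psiP d r k := by
    intro k
    unfold psiP
    rw [hd1, hf]
  have hψ0 : ∀ k : ℕ, 0 ≤ psiP d r k := by
    intro k
    have : 0 ≤ Real.log k := Real.log_natCast_nonneg k
    unfold psiP
    positivity
  obtain ⟨Z0, hZ0⟩ : ∃ Z0 : ℝ, Z0 = ∑' n : ℕ, ((n:ℝ)+1)^(d-1) * (2:ℝ)^(-(s * n)) := ⟨_, rfl⟩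
  have hZ00 : 0 ≤ Z0 := by rw [hZ0]; exact tsum_nonneg fun n => by positivity
  have hquot : ∀ k : ℕ, 0 ≤ Z0 / psiP d r k := fun k => div_nonneg hZ00 (hψ0 k)
  refine ⟨(∑ k ∈ Finset.range k0, Z0 / psiP d r k) + (KC + KD + S) * C5 + 1, ?_, ?_, ?_⟩
  · have := Finset.sum_nonneg (s := Finset.range k0) (fun k _ => hquot k)
    positivity
  · simp only [hT]
    exact hSs
  intro k hk
  have hk1 : (1:ℝ) < k := by exact_mod_cast (by omega : 1 < k)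
  have hlog : 0 < Real.log k := Real.log_pos hk1
  have hpos : 0 < psiP d r k := by unfold psiP; positivity
  have hsumnn : 0 ≤ ∑ k ∈ Finset.range k0, Z0 / psiP d r k :=
    Finset.sum_nonneg (fun k _ => hquot k)
  simp only [hT]
  by_cases hkk : k < k0
  · refine ⟨0, 0, fun _ => 1, fun _ => 1, le_rfl, fun _ => le_rfl, fun _ => ⟨one_pos, le_rfl⟩,
      ?_, ?_⟩
    · simp only [Finset.range_zero, Finset.sum_empty, Finset.Ico_self, add_zero]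
      have := Real.log_pos (show (1:ℝ) < 2 by norm_num)
      positivity
    · simp only [Finset.range_zero, Finset.sum_empty, Finset.Ico_self, add_zero, zero_add]
      rw [← hZ0]
      have e1 : Z0 / psiP d r k ≤ ∑ k ∈ Finset.range k0, Z0 / psiP d r k :=
        Finset.single_le_sum (f := fun k : ℕ => Z0 / psiP d r k)
          (fun i _ => hquot i) (Finset.mem_range.mpr hkk)
      calc Z0 = Z0 / psiP d r k * psiP d r k := by field_simp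
        _ ≤ _ := by
          apply mul_le_mul_of_nonneg_right _ hpos.le
          have : 0 ≤ (KC + KD + S) * C5 := by positivity
          linarith
  · push Not at hkk
    obtain ⟨n0, hn0, h6, h7⟩ := h5 k hkk
    rw [hψ] at h7
    have hn0' : (1:ℝ) ≤ n0 := by exact_mod_cast hn0
    obtain ⟨m, hm⟩ : ∃ m : ℕ, m + 1 = (A + 1) * n0 := ⟨(A + 1) * n0 - 1, by
      have : 1 ≤ (A + 1) * n0 := Nat.succ_le_of_lt (Nat.mul_pos (Nat.succ_pos A) hn0)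
      omega⟩
    have hlam1 : ∀ n : ℕ, (1:ℝ) ≤ (2:ℝ)^(w * ((n - n0 : ℕ) : ℝ)) := fun n =>
      Real.one_le_rpow (by norm_num) (by positivity)
    refine ⟨n0, n0 + (m + 1), fun n => (2:ℝ)^(w * ((n - n0 : ℕ) : ℝ)),
      fun n => (2:ℝ)^(-(r+1) * ((n0 - n : ℕ) : ℝ)), Nat.le_add_right _ _, hlam1,
      fun n => ⟨by positivity, ?_⟩, ?_, ?_⟩
    · refine Real.rpow_le_one_of_one_le_of_nonpos (by norm_num) ?_
      have : (0:ℝ) ≤ ((n0 - n : ℕ) : ℝ) := Nat.cast_nonneg _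
      nlinarith
    · have e1 := hA n0 hn0
      have e2 := hB n0 hn0 m
      have e3 : C0 * ((m:ℝ) + 1) ≤ C0 * (A + 2) * 2^n0 * (n0:ℝ)^(d-1) := by
        have g1 : ((m:ℝ) + 1) = (A + 1) * n0 := by exact_mod_cast hm
        have g2 : (n0:ℝ) ≤ 2^n0 := by exact_mod_cast Nat.lt_two_pow_self.le
        have g3 : (1:ℝ) ≤ (n0:ℝ)^(d-1) := one_le_pow₀ hn0'
        rw [g1]
        calc C0 * (((A:ℝ) + 1) * n0) ≤ C0 * (((A:ℝ) + 2) * 2^n0) := by gcongr; linarith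
          _ = C0 * (A + 2) * 2^n0 := by ring
          _ ≤ C0 * (A + 2) * 2^n0 * (n0:ℝ)^(d-1) := le_mul_of_one_le_right (by positivity) g3
      calc _ ≤ KA * 2^n0 * (n0:ℝ)^(d-1) + (KB * 2^n0 * (n0:ℝ)^(d-1) + C0 * (m + 1)) :=
            add_le_add e1 e2
        _ ≤ KA * 2^n0 * (n0:ℝ)^(d-1) + (KB * 2^n0 * (n0:ℝ)^(d-1) +
            C0 * (A + 2) * 2^n0 * (n0:ℝ)^(d-1)) := by linarith
        _ = (KA + KB + C0 * (A + 2)) * 2^n0 * (n0:ℝ)^(d-1) := by ring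
        _ ≤ _ := h6
    · have e1 := hC n0 hn0
      have e2 := hD n0 hn0 m
      have hlamp : ∀ n : ℕ, ((2:ℝ)^(w * ((n - n0 : ℕ) : ℝ)))^(1/p) =
          (2:ℝ)^(μ * ((n - n0 : ℕ) : ℝ)) := by
        intro n
        rw [← Real.rpow_mul (by norm_num)]
        congr 1
        rw [hw]
        field_simp
      simp only [hlamp]
      rw [← hf]
      have e3 := hSt (n0 + (m + 1))
      have e4 : (2:ℝ)^(-(s / 2 * ((n0 + (m + 1) : ℕ) : ℝ))) ≤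
          (2:ℝ)^(-r * (n0:ℝ)) * (n0:ℝ)^f := by
        have g1 : (1:ℝ) ≤ (n0:ℝ)^f := Real.one_le_rpow hn0' hf0
        have g2 : ((n0 + (m + 1) : ℕ) : ℝ) = (A + 2) * n0 := by
          rw [hm]; push_cast; ring
        have g3 : r ≤ s / 2 * A := by
          rw [div_le_iff₀ hs0] at hAr
          linarith
        have g4 : (2:ℝ)^(-(s / 2 * ((n0 + (m + 1) : ℕ) : ℝ))) ≤ (2:ℝ)^(-r * (n0:ℝ)) := by
          apply Real.rpow_le_rpow_of_exponent_le (by norm_num)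
          rw [g2]
          nlinarith
        exact g4.trans (le_mul_of_one_le_right (by positivity) g1)
      calc _ ≤ KC * (2:ℝ)^(-r * (n0:ℝ)) * (n0:ℝ)^f + KD * (2:ℝ)^(-r * (n0:ℝ)) * (n0:ℝ)^f +
            S * (2:ℝ)^(-(s / 2 * ((n0 + (m + 1) : ℕ) : ℝ))) :=
            add_le_add (add_le_add e1 e2) e3
        _ ≤ KC * (2:ℝ)^(-r * (n0:ℝ)) * (n0:ℝ)^f + KD * (2:ℝ)^(-r * (n0:ℝ)) * (n0:ℝ)^f +
            S * ((2:ℝ)^(-r * (n0:ℝ)) * (n0:ℝ)^f) := by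
            have := mul_le_mul_of_nonneg_left e4 hS0
            linarith
        _ = (KC + KD + S) * ((2:ℝ)^(-r * (n0:ℝ)) * (n0:ℝ)^f) := by ring
        _ ≤ (KC + KD + S) * (C5 * psiP d r k) := mul_le_mul_of_nonneg_left h7 (by positivity)
        _ = (KC + KD + S) * C5 * psiP d r k := by ring
        _ ≤ _ := by
            apply mul_le_mul_of_nonneg_right _ hpos.le
            linarith

end SmSm
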