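import Pool.Agent.H636R2.SM.SpecH
import Pool.Agent.H636R2.SM.NUMUA
open MeasureTheory Real ProbabilityTheory
open scoped ENNReal BigOperators

namespace SmSm
open HypVol MWidth

/-- the general term above `μ` -/
theorem numuhb_T (d : ℕ) (hd : 1 ≤ d) (K η : ℝ) (hK : 1 ≤ K) (μ j : ℕ) (c : ℝ)
    (hc : c ≤ K * 2 ^ (j + μ) * (((j + μ : ℕ):ℝ) + 1) ^ (d - 1)) (a : ℝ) (ha : 0 ≤ a) :
    (2:ℝ)^(-((1/2:ℝ) * ((j + μ : ℕ) : ℝ))) * (2:ℝ)^(-(η * ((j + μ - μ : ℕ) : ℝ))) *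
      Real.sqrt (a * ((((j + μ : ℕ):ℝ) + 1) * c)) ≤
    Real.sqrt (a * K) * Real.sqrt (((μ:ℝ) + 1) ^ d) *
      (((j:ℝ) + 1) ^ d * (2:ℝ)^(-(η * (j:ℝ)))) := by
  have hD0 : (0:ℝ) ≤ j := Nat.cast_nonneg j
  have hμ0 : (0:ℝ) ≤ μ := Nat.cast_nonneg μ
  obtain ⟨n, hn'⟩ : ∃ n : ℕ, n = j + μ := ⟨_, rfl⟩
  have hnR : (n:ℝ) = j + μ := by rw [hn']; push_cast; ring
  rw [Nat.add_sub_cancel]
  rw [← hn'] at hc ⊢
  have hn0 : (0:ℝ) ≤ n := Nat.cast_nonneg n
  have hn : (n:ℝ) + 1 ≤ ((μ:ℝ) + 1) * ((j:ℝ) + 1) := by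
    have : (0:ℝ) ≤ (μ:ℝ) * j := by positivity
    nlinarith
  have h1 : ((n:ℝ) + 1) * c ≤ K * 2 ^ n * (((μ:ℝ) + 1) ^ d * ((j:ℝ) + 1) ^ d) := by
    have e : ((n:ℝ) + 1) ^ d = ((n:ℝ) + 1) * ((n:ℝ) + 1) ^ (d - 1) := by
      rw [← pow_succ']; congr 1; omega
    calc ((n:ℝ) + 1) * c ≤ ((n:ℝ) + 1) * (K * 2 ^ n * ((n:ℝ) + 1) ^ (d - 1)) := by gcongr
      _ = K * 2 ^ n * ((n:ℝ) + 1) ^ d := by rw [e]; ring
      _ ≤ K * 2 ^ n * ((((μ:ℝ) + 1) * ((j:ℝ) + 1)) ^ d) := by gcongr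
      _ = _ := by rw [mul_pow]
  have h2 : Real.sqrt (a * (((n:ℝ) + 1) * c)) ≤
      Real.sqrt (a * K) * ((2:ℝ)^((n:ℝ)/2) * (Real.sqrt (((μ:ℝ) + 1) ^ d) * ((j:ℝ) + 1) ^ d)) := by
    calc Real.sqrt (a * (((n:ℝ) + 1) * c)) ≤
          Real.sqrt ((a * K) * (2 ^ n * (((μ:ℝ) + 1) ^ d * ((j:ℝ) + 1) ^ d))) := by
          apply Real.sqrt_le_sqrt
          calc a * (((n:ℝ) + 1) * c) ≤ a * (K * 2 ^ n * (((μ:ℝ) + 1) ^ d * ((j:ℝ) + 1) ^ d)) := by gcongr
            _ = _ := by ring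
      _ = Real.sqrt (a * K) * (Real.sqrt (2 ^ n) * (Real.sqrt (((μ:ℝ) + 1) ^ d) *
            Real.sqrt (((j:ℝ) + 1) ^ d))) := by
          rw [Real.sqrt_mul (by positivity) (2 ^ n * (((μ:ℝ) + 1) ^ d * ((j:ℝ) + 1) ^ d)),
            Real.sqrt_mul (by positivity) (((μ:ℝ) + 1) ^ d * ((j:ℝ) + 1) ^ d),
            Real.sqrt_mul (by positivity) (((j:ℝ) + 1) ^ d)]
      _ ≤ Real.sqrt (a * K) * ((2:ℝ)^((n:ℝ)/2) * (Real.sqrt (((μ:ℝ) + 1) ^ d) * ((j:ℝ) + 1) ^ d)) := by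
          have e1 : Real.sqrt ((2:ℝ) ^ n) = (2:ℝ)^((n:ℝ)/2) := by
            rw [Real.sqrt_eq_rpow, ← Real.rpow_natCast, ← Real.rpow_mul (by norm_num)]
            congr 1; ring
          have e2 : Real.sqrt (((j:ℝ) + 1) ^ d) ≤ ((j:ℝ) + 1) ^ d :=
            numua_sqrt_pow _ (one_le_pow₀ (by linarith))
          rw [e1]
          gcongr
  have h3 : (2:ℝ)^(-((1/2:ℝ) * (n:ℝ))) * (2:ℝ)^((n:ℝ)/2) = 1 := by
    rw [← Real.rpow_add (by norm_num)]
    have : -((1/2:ℝ) * (n:ℝ)) + (n:ℝ)/2 = 0 := by ring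
    rw [this, Real.rpow_zero]
  calc _ ≤ (2:ℝ)^(-((1/2:ℝ) * (n:ℝ))) * (2:ℝ)^(-(η * (j:ℝ))) *
        (Real.sqrt (a * K) * ((2:ℝ)^((n:ℝ)/2) * (Real.sqrt (((μ:ℝ) + 1) ^ d) * ((j:ℝ) + 1) ^ d))) := by
        gcongr
    _ = ((2:ℝ)^(-((1/2:ℝ) * (n:ℝ))) * (2:ℝ)^((n:ℝ)/2)) * (2:ℝ)^(-(η * (j:ℝ))) *
        (Real.sqrt (a * K) * (Real.sqrt (((μ:ℝ) + 1) ^ d) * ((j:ℝ) + 1) ^ d)) := by ring
    _ = _ := by rw [h3]; ring

theorem numuhb_C (d : ℕ) (hd : 1 ≤ d) (m : ℕ) (hm : 2 ≤ m) :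
    psiHB d m = Real.sqrt ((Real.log m) ^ (2 * d - 1) / m) * Real.log (Real.log m + 3) := by
  have hmR : (2:ℝ) ≤ m := by exact_mod_cast hm
  have hlm : 0 < Real.log m := Real.log_pos (by linarith)
  rw [psiHB, Real.sqrt_div (by positivity), Real.sqrt_eq_rpow, Real.sqrt_eq_rpow,
    Real.rpow_neg (by positivity), ← Real.rpow_natCast (Real.log m) (2 * d - 1),
    ← Real.rpow_mul hlm.le, Nat.cast_sub (by omega)]
  have : ((2 * d : ℕ) - (1:ℕ) : ℝ) * (1/2) = (d:ℝ) - 1/2 := by push_cast; ring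
  rw [this]
  field_simp

/-- the choice of the parameters for large `m` -/
theorem numuhb_choice (d : ℕ) (K : ℝ) (hK : 1 ≤ K) (m : ℕ) (hm : 8 * K ≤ (m:ℝ)) :
    ∃ n0 l : ℕ, 8 * K * 2 ^ n0 * ((n0:ℝ) + 1) ^ (d - 1) ≤ m ∧
      (m:ℝ) ≤ 8 * K * 2 ^ (n0 + 1) * ((n0:ℝ) + 2) ^ (d - 1) ∧
      1 ≤ l ∧ (n0:ℝ) + 1 ≤ 2 ^ l ∧ l ≤ n0 + 1 ∧ (n0:ℝ) + 2 ≤ 2 * Real.log m ∧
      (l:ℝ) ≤ 4 * Real.log (Real.log m + 3) := by
  obtain ⟨n0, hn0a, hn0b⟩ : ∃ n0 : ℕ, 8 * K * 2 ^ n0 * ((n0:ℝ) + 1) ^ (d - 1) ≤ m ∧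
      (m:ℝ) ≤ 8 * K * 2 ^ (n0 + 1) * ((n0:ℝ) + 2) ^ (d - 1) := by
    have hex : ∃ n : ℕ, (m:ℝ) < 8 * K * 2 ^ n * ((n:ℝ) + 1) ^ (d - 1) := by
      refine ⟨m, ?_⟩
      have h1 : (m:ℝ) < 2 ^ m := by exact_mod_cast Nat.lt_two_pow_self
      have h2 : (1:ℝ) ≤ ((m:ℝ) + 1) ^ (d - 1) := one_le_pow₀ (by linarith)
      calc (m:ℝ) < 2 ^ m := h1
        _ = 1 * 2 ^ m * 1 := by ring
        _ ≤ _ := by
          gcongr
          linarith
    have hP := Nat.find_spec hex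
    have hne : Nat.find hex ≠ 0 := by
      intro h0
      rw [h0] at hP
      simp only [pow_zero, Nat.cast_zero, zero_add, one_pow, mul_one] at hP
      linarith
    obtain ⟨n0, hn0⟩ := Nat.exists_eq_succ_of_ne_zero hne
    refine ⟨n0, ?_, ?_⟩
    · have := Nat.find_min hex (show n0 < Nat.find hex by omega)
      push Not at this
      exact this
    · rw [hn0] at hP
      push_cast at hP
      have e : (n0:ℝ) + 1 + 1 = n0 + 2 := by ring
      rw [e] at hP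
      exact hP.le
  have hn0R : (0:ℝ) ≤ n0 := Nat.cast_nonneg n0
  have hn01 : (1:ℝ) ≤ (n0:ℝ) + 1 := by linarith
  obtain ⟨l, hl⟩ : ∃ l : ℕ, l = Nat.log 2 (n0 + 1) + 1 := ⟨_, rfl⟩
  have hl1 : (n0 + 1) < 2 ^ l := by rw [hl]; exact Nat.lt_pow_succ_log_self (by norm_num) _
  have hl2' : 2 ^ (l - 1) ≤ n0 + 1 := by
    rw [hl, Nat.add_sub_cancel]; exact Nat.pow_log_le_self 2 (by omega)
  have hl3 : l ≤ n0 + 1 := by
    have : l - 1 < 2 ^ (l - 1) := Nat.lt_two_pow_self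
    omega
  have hl0 : 1 ≤ l := by omega
  have hn0l : (n0:ℝ) + 2 ≤ 2 * Real.log m := by
    have h2 : (2:ℝ) ^ (n0 + 3) ≤ m := by
      refine le_trans ?_ hn0a
      have h1 : (1:ℝ) ≤ ((n0:ℝ) + 1) ^ (d - 1) := one_le_pow₀ hn01
      calc (2:ℝ) ^ (n0 + 3) = 8 * 1 * 2 ^ n0 * 1 := by rw [pow_add]; norm_num; ring
        _ ≤ _ := by gcongr
    have h3 : ((n0 + 3 : ℕ) : ℝ) * Real.log 2 ≤ Real.log m := by
      rw [← Real.log_pow]
      exact Real.log_le_log (by positivity) h2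
    have h4 := Real.log_two_gt_d9
    push_cast at h3
    nlinarith
  have hlm : 0 < Real.log m := by linarith
  have hll1 : 1 ≤ Real.log (Real.log m + 3) := by
    rw [Real.le_log_iff_exp_le (by linarith)]
    linarith [Real.exp_one_lt_d9]
  refine ⟨n0, l, hn0a, hn0b, hl0, by exact_mod_cast hl1.le, hl3, hn0l, ?_⟩
  have h1 : (2:ℝ) ^ l ≤ 4 * (Real.log m + 3) := by
    have h2 : (2:ℝ) ^ (l - 1) ≤ (n0:ℝ) + 1 := by exact_mod_cast hl2'
    have h3 : (2:ℝ) ^ l = 2 * (2:ℝ) ^ (l - 1) := by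
      rw [← pow_succ']; congr 1; omega
    rw [h3]; linarith
  have h2 : (l:ℝ) * Real.log 2 ≤ Real.log (4 * (Real.log m + 3)) := by
    rw [← Real.log_pow]
    exact Real.log_le_log (by positivity) h1
  rw [Real.log_mul (by norm_num) (by linarith)] at h2
  have h3 : Real.log 4 = 2 * Real.log 2 := by
    rw [show (4:ℝ) = 2 ^ 2 by norm_num, Real.log_pow]; norm_num
  have h4 := Real.log_two_gt_d9
  have h5 := Real.log_two_lt_d9
  rw [h3] at h2
  nlinarith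

set_option maxHeartbeats 2000000 in
theorem numuhb : S_NUMUHB := by
  intro d hd q hq
  have hd1 : 1 ≤ 2 * d - 1 := by omega
  obtain ⟨K, hK, hcard⟩ : ∃ K : ℝ, 1 ≤ K ∧ ∀ n : ℕ,
      ((layer d n).card : ℝ) ≤ K * 2 ^ n * ((n:ℝ) + 1) ^ (d - 1) := by
    obtain ⟨C, hC, h⟩ := card_layer_le d (by omega)
    refine ⟨C + 1, by linarith, fun n => (h n).trans ?_⟩
    have h1 : (0:ℝ) ≤ 2 ^ n * ((n:ℝ) + 1) ^ (d - 1) := by positivity
    nlinarith
  have hK0 : 0 < K := by linarith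
  have hP : ∀ n : ℕ, ((n:ℝ) + 1) ^ (((d:ℝ)-1)/2) = Real.sqrt (((n:ℝ) + 1) ^ (d - 1)) := by
    intro n
    rw [Real.sqrt_eq_rpow, ← Real.rpow_natCast, ← Real.rpow_mul (by positivity), Nat.cast_sub (by omega)]
    congr 1; push_cast; ring
  have hcard' : ∀ n : ℕ, ((n:ℝ) + 1) ^ (d - 1) * ((layer d n).card : ℝ) ≤
      K * 2 ^ n * ((n:ℝ) + 1) ^ ((2 * d - 1) - 1) := by
    intro n
    have e1 : (2 * d - 1) - 1 = (d - 1) + (d - 1) := by omega
    rw [e1, pow_add]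
    calc ((n:ℝ) + 1) ^ (d - 1) * ((layer d n).card : ℝ) ≤
          ((n:ℝ) + 1) ^ (d - 1) * (K * 2 ^ n * ((n:ℝ) + 1) ^ (d - 1)) := by
          gcongr
          exact hcard n
      _ = _ := by ring
  obtain ⟨β, hβd⟩ : ∃ β : ℝ, β = 1/2 - 1/q := ⟨_, rfl⟩
  have hβ : 0 < β := by
    rw [hβd]
    have : 1 / q < 1 / 2 := by
      apply one_div_lt_one_div_of_lt <;> linarith
    linarith
  rw [← hβd]
  obtain ⟨ρ, hρ⟩ : ∃ ρ : ℝ, ρ = (2:ℝ)^(-(β/2)) := ⟨_, rfl⟩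
  have hρ0 : 0 < ρ := by rw [hρ]; positivity
  have hρ1 : ρ < 1 := by
    rw [hρ]; exact Real.rpow_lt_one_of_one_lt_of_neg (by norm_num) (by linarith)
  have hρδ : ∀ D : ℕ, (2:ℝ)^(-(β * (D:ℝ))) = ρ ^ D * ρ ^ D := by
    intro D
    rw [← pow_add, hρ, ← Real.rpow_natCast, ← Real.rpow_mul (by norm_num)]
    congr 1; push_cast; ring
  have hρD1 : ∀ D : ℕ, ρ ^ D ≤ 1 := fun D => pow_le_one₀ hρ0.le hρ1.le
  obtain ⟨g, hg⟩ : ∃ g : ℕ → ℝ, g = fun n : ℕ => ((n:ℝ) + 1) ^ (2 * d - 1) * ρ ^ n := ⟨_, rfl⟩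
  have hgs : Summable g := by rw [hg]; exact Sol_KX_num_up2.num_upw_summ (2 * d - 1) ρ hρ0 hρ1
  have hg0 : ∀ n, 0 ≤ g n := fun n => by rw [hg]; simp only; positivity
  obtain ⟨G, hG⟩ : ∃ G : ℝ, G = ∑' n, g n := ⟨_, rfl⟩
  have hG0 : 0 ≤ G := by rw [hG]; exact tsum_nonneg hg0
  have hρ2 : ρ ^ 2 < 1 := by nlinarith
  obtain ⟨B, hB⟩ : ∃ B : ℝ, B = 8 / (1 - ρ ^ 2) := ⟨_, rfl⟩
  have hB0 : 0 < B := by rw [hB]; exact div_pos (by norm_num) (by linarith)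
  -- terms without `M`
  have hterm : ∀ μ j : ℕ, (2:ℝ)^(-((1/2:ℝ) * ((j + μ : ℕ) : ℝ))) * (((j + μ : ℕ):ℝ)+1)^(((d:ℝ)-1)/2) *
      (2:ℝ)^(-(β * ((j + μ - μ : ℕ) : ℝ))) * Real.sqrt (layer d (j + μ)).card ≤
      (Real.sqrt K * Real.sqrt (((μ:ℝ) + 1) ^ (2 * d - 1))) * (g j * ρ ^ j) := by
    intro μ j
    have h1 := numuhb_T (2 * d - 1) hd1 K β hK μ j _ (hcard' (j + μ)) 1 (by norm_num)
    rw [one_mul, hρδ j] at h1
    have h2 : (((j + μ : ℕ):ℝ)+1)^(((d:ℝ)-1)/2) * Real.sqrt (layer d (j + μ)).card ≤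
        Real.sqrt ((((j + μ : ℕ) : ℝ) + 1) * ((((j + μ : ℕ) : ℝ) + 1) ^ (d - 1) *
          (layer d (j + μ)).card)) := by
      rw [hP, ← Real.sqrt_mul (by positivity)]
      apply Real.sqrt_le_sqrt
      have h3 : (0:ℝ) ≤ (((j + μ : ℕ) : ℝ) + 1) ^ (d - 1) * (layer d (j + μ)).card := by positivity
      have h4 : (0:ℝ) ≤ ((j + μ : ℕ) : ℝ) := Nat.cast_nonneg _
      nlinarith
    calc _ = (2:ℝ)^(-((1/2:ℝ) * ((j + μ : ℕ) : ℝ))) *
          (2:ℝ)^(-(β * ((j + μ - μ : ℕ) : ℝ))) *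
          ((((j + μ : ℕ):ℝ)+1)^(((d:ℝ)-1)/2) * Real.sqrt (layer d (j + μ)).card) := by ring
      _ ≤ (2:ℝ)^(-((1/2:ℝ) * ((j + μ : ℕ) : ℝ))) *
          (2:ℝ)^(-(β * ((j + μ - μ : ℕ) : ℝ))) *
          Real.sqrt ((((j + μ : ℕ) : ℝ) + 1) * ((((j + μ : ℕ) : ℝ) + 1) ^ (d - 1) *
          (layer d (j + μ)).card)) := by gcongr
      _ ≤ _ := h1
      _ = _ := by rw [hg, one_mul]; ring
  have hsumm : ∀ μ : ℕ, Summable (fun n : ℕ => (2:ℝ)^(-((1/2:ℝ) * n)) * ((n:ℝ)+1)^(((d:ℝ)-1)/2) *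
      (2:ℝ)^(-(β * ((n - μ : ℕ) : ℝ))) * Real.sqrt (layer d n).card) := by
    intro μ
    rw [← summable_nat_add_iff μ]
    refine Summable.of_nonneg_of_le (fun n => by positivity) (fun n => ?_)
      (hgs.mul_left (Real.sqrt K * Real.sqrt (((μ:ℝ) + 1) ^ (2 * d - 1))))
    refine (hterm μ n).trans ?_
    have h1 : g n * ρ ^ n ≤ g n * 1 := mul_le_mul_of_nonneg_left (hρD1 n) (hg0 n)
    rw [mul_one] at h1
    gcongr
  have hl2 : 0 < Real.log 2 := Real.log_pos (by norm_num)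
  obtain ⟨D, hD⟩ : ∃ D : ℝ, D = 2 * d + 1 := ⟨_, rfl⟩
  have hD1 : 1 ≤ D := by rw [hD]; linarith [Nat.cast_nonneg (α := ℝ) d]
  obtain ⟨CA, hCA⟩ : ∃ CA : ℝ, CA = (Real.sqrt K * G + 1) /
      Real.sqrt ((Real.log 2) ^ (2 * d - 1) / (8 * K)) := ⟨_, rfl⟩
  have hCA0 : 0 ≤ CA := by rw [hCA]; positivity
  obtain ⟨C1, hC1⟩ : ∃ C1 : ℝ, C1 = d * Real.sqrt (8 * K * D ^ (2 * d - 1)) +
      Real.sqrt (2 * B * K * D ^ (2 * d - 1)) * G + Real.sqrt (K * B * D ^ (2 * d - 1)) * G +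
      Real.sqrt (16 * K * 2 ^ d * D ^ (2 * d)) := ⟨_, rfl⟩
  have hC10 : 0 ≤ C1 := by rw [hC1]; positivity
  obtain ⟨CB, hCB⟩ : ∃ CB : ℝ, CB = C1 * (4 * Real.sqrt (2 ^ (2 * d - 1))) := ⟨_, rfl⟩
  have hCB0 : 0 ≤ CB := by rw [hCB]; positivity
  refine ⟨CA + CB + 1, by linarith, fun m hm => ?_⟩
  have hmR : (2:ℝ) ≤ m := by exact_mod_cast hm
  have hm0 : (0:ℝ) < m := by linarith
  have hlm : 0 < Real.log m := Real.log_pos (by linarith)
  have hll1 : 1 ≤ Real.log (Real.log m + 3) := by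
    rw [Real.le_log_iff_exp_le (by linarith)]
    linarith [Real.exp_one_lt_d9]
  have hpsi := numuhb_C d (by omega) m hm
  have hpsi0 : 0 ≤ psiHB d m := by rw [hpsi]; positivity
  by_cases hsmall : (m:ℝ) < 8 * K
  · refine ⟨0, 0, 0, 1, fun _ => 1, le_rfl, le_rfl, le_rfl, fun _ => le_rfl, by simp; omega, hsumm 0, ?_⟩
    have h1 : ∑' n : ℕ, (2:ℝ)^(-((1/2:ℝ) * ((n + 0 : ℕ) : ℝ))) * (((n + 0 : ℕ):ℝ)+1)^(((d:ℝ)-1)/2) *
        (2:ℝ)^(-(β * ((n + 0 - 0 : ℕ) : ℝ))) * Real.sqrt (layer d (n + 0)).card ≤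
        Real.sqrt K * G := by
      rw [hG, ← tsum_mul_left]
      refine ((summable_nat_add_iff 0).2 (hsumm 0)).tsum_le_tsum (fun n => ?_)
        (hgs.mul_left (Real.sqrt K))
      have h3 := hterm 0 n
      refine h3.trans ?_
      simp only [Nat.cast_zero, zero_add, one_pow, Real.sqrt_one, mul_one]
      have h4 : g n * ρ ^ n ≤ g n * 1 := mul_le_mul_of_nonneg_left (hρD1 n) (hg0 n)
      rw [mul_one] at h4
      gcongr
    have h2 : Real.sqrt K * G + 1 ≤ CA * psiHB d m := by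
      have h3 : Real.sqrt ((Real.log 2) ^ (2 * d - 1) / (8 * K)) ≤ psiHB d m := by
        rw [hpsi]
        have h4 : Real.log 2 ≤ Real.log m := Real.log_le_log (by norm_num) hmR
        have h5 : Real.sqrt ((Real.log 2) ^ (2 * d - 1) / (8 * K)) ≤
            Real.sqrt ((Real.log m) ^ (2 * d - 1) / m) := by
          apply Real.sqrt_le_sqrt
          gcongr
        have h6 : 0 ≤ Real.sqrt ((Real.log m) ^ (2 * d - 1) / m) := Real.sqrt_nonneg _
        nlinarith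
      have h5 : 0 < Real.sqrt ((Real.log 2) ^ (2 * d - 1) / (8 * K)) := by positivity
      calc Real.sqrt K * G + 1 = CA * Real.sqrt ((Real.log 2) ^ (2 * d - 1) / (8 * K)) := by
            rw [hCA]; field_simp
        _ ≤ _ := by gcongr
    have h3 : (((0:ℕ):ℝ)+1)^(d-1) * (2:ℝ)^(-((1/2:ℝ) * ((0:ℕ):ℝ))) = 1 := by simp
    have h4 : Real.sqrt ((0 - 0 : ℕ) : ℝ) = 0 := by simp
    rw [h3, h4, Finset.Ico_self, Finset.sum_empty, Finset.sum_empty, zero_mul, zero_add, zero_add]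
    calc _ ≤ Real.sqrt K * G + 1 := by linarith
      _ ≤ CA * psiHB d m := h2
      _ ≤ _ := by
          apply mul_le_mul_of_nonneg_right _ hpsi0
          linarith
  · push Not at hsmall
    obtain ⟨n0, l, hn0a, hn0b, hl0, hl1, hl3, hlog, hlll⟩ := numuhb_choice d K hK m hsmall
    have hn0R : (0:ℝ) ≤ n0 := Nat.cast_nonneg n0
    have hn01 : (1:ℝ) ≤ (n0:ℝ) + 1 := by linarith
    have hlR : (1:ℝ) ≤ l := by exact_mod_cast hl0
    -- choice of L
    have hexL : ∃ j : ℕ, (m:ℝ) * ρ ^ (2 * j) / B < 1 := by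
      have h1 : Filter.Tendsto (fun j : ℕ => (ρ ^ 2) ^ j) Filter.atTop (nhds 0) :=
        tendsto_pow_atTop_nhds_zero_of_lt_one (by positivity) hρ2
      have h2 : ∀ᶠ j : ℕ in Filter.atTop, (ρ ^ 2) ^ j < B / m :=
        h1.eventually (gt_mem_nhds (by positivity))
      obtain ⟨j, hj⟩ := h2.exists
      refine ⟨j, ?_⟩
      rw [← pow_mul, lt_div_iff₀ (by linarith)] at hj
      rw [div_lt_one hB0]
      linarith
    obtain ⟨L, hL1, hL2⟩ : ∃ L : ℕ, (m:ℝ) * ρ ^ (2 * L) / B < 1 ∧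
        ∀ j < L, 1 ≤ (m:ℝ) * ρ ^ (2 * j) / B :=
      ⟨Nat.find hexL, Nat.find_spec hexL, fun j hj => by
        have := Nat.find_min hexL hj
        push Not at this
        exact this⟩
    obtain ⟨μ, hμ⟩ : ∃ μ : ℕ, μ = n0 + d * l := ⟨_, rfl⟩
    have hμD : (μ:ℝ) + 1 ≤ D * ((n0:ℝ) + 1) := by
      have h1 : (l:ℝ) ≤ (n0:ℝ) + 1 := by exact_mod_cast hl3
      rw [hμ, hD]; push_cast
      have h2 : (0:ℝ) ≤ d := Nat.cast_nonneg d
      have h3 : (d:ℝ) * l ≤ d * (n0 + 1) := by gcongr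
      nlinarith [mul_nonneg h2 hn0R]
    have hμR : (0:ℝ) ≤ μ := Nat.cast_nonneg μ
    obtain ⟨M, hM⟩ : ∃ M : ℕ → ℕ, M = fun n => max 1 ⌊(m:ℝ) * ρ ^ (2 * (n - μ)) / B⌋₊ := ⟨_, rfl⟩
    have hM1 : ∀ n, 1 ≤ M n := fun n => by rw [hM]; exact le_max_left _ _
    have hMfl : ∀ j < L, M (μ + j) = ⌊(m:ℝ) * ρ ^ (2 * j) / B⌋₊ := by
      intro j hj
      rw [hM]
      simp only [Nat.add_sub_cancel_left]
      apply max_eq_right
      exact Nat.le_floor (by exact_mod_cast hL2 j hj)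
    have hMup : ∀ j < L, (M (μ + j) : ℝ) ≤ (m:ℝ) * ρ ^ (2 * j) / B := by
      intro j hj
      rw [hMfl j hj]
      exact Nat.floor_le (by positivity)
    have hMlo : ∀ j < L, (m:ℝ) * ρ ^ (2 * j) / (2 * B) ≤ M (μ + j) := by
      intro j hj
      have h1 : (1:ℝ) ≤ M (μ + j) := by exact_mod_cast hM1 (μ + j)
      have h2 : (m:ℝ) * ρ ^ (2 * j) / B < M (μ + j) + 1 := by
        rw [hMfl j hj]
        exact Nat.lt_floor_add_one _
      have h3 : (m:ℝ) * ρ ^ (2 * j) / (2 * B) = (m:ℝ) * ρ ^ (2 * j) / B / 2 := by field_simp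
      rw [h3]
      linarith
    have hm8 : 8 ≤ m := by
      have : (8:ℝ) ≤ m := by linarith
      exact_mod_cast this
    have hMs : (m:ℝ) / 8 ≤ ((m / 4 : ℕ) : ℝ) := by
      have h1 : m ≤ 8 * (m / 4) := by omega
      have h2 : (m:ℝ) ≤ 8 * ((m / 4 : ℕ) : ℝ) := by exact_mod_cast h1
      linarith
    have hMs1 : 1 ≤ m / 4 := by omega
    have hMs0 : (0:ℝ) < ((m / 4 : ℕ) : ℝ) := by exact_mod_cast hMs1
    refine ⟨n0, μ + L, μ, m / 4, M, by omega, by omega, hMs1, hM1, ?_, hsumm μ, ?_⟩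
    · have h1 : (∑ n ∈ Finset.range n0, 2 * ((layer d n).card : ℝ)) ≤ m / 4 := by
        have h2 : ∀ n ∈ Finset.range n0, 2 * ((layer d n).card : ℝ) ≤
            (2 * K * ((n0:ℝ) + 1) ^ (d - 1)) * 2 ^ n := by
          intro n hn
          have hn' : (n:ℝ) ≤ n0 := by exact_mod_cast (Finset.mem_range.1 hn).le
          calc 2 * ((layer d n).card : ℝ) ≤ 2 * (K * 2 ^ n * ((n:ℝ) + 1) ^ (d - 1)) := by
                linarith [hcard n]
            _ ≤ 2 * (K * 2 ^ n * ((n0:ℝ) + 1) ^ (d - 1)) := by gcongr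
            _ = _ := by ring
        have h3 : ∑ n ∈ Finset.range n0, (2:ℝ) ^ n ≤ 2 ^ n0 := by
          rw [geom_sum_eq (by norm_num)]
          norm_num
        calc _ ≤ ∑ n ∈ Finset.range n0, (2 * K * ((n0:ℝ) + 1) ^ (d - 1)) * 2 ^ n :=
              Finset.sum_le_sum h2
          _ = (2 * K * ((n0:ℝ) + 1) ^ (d - 1)) * ∑ n ∈ Finset.range n0, (2:ℝ) ^ n := by
              rw [Finset.mul_sum]
          _ ≤ (2 * K * ((n0:ℝ) + 1) ^ (d - 1)) * 2 ^ n0 := by gcongr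
          _ ≤ m / 4 := by linarith
      have h4 : (∑ n ∈ Finset.Ico μ (μ + L), (M n : ℝ)) ≤ m / 4 := by
        have hgeo : Summable (fun j : ℕ => (ρ ^ 2) ^ j) :=
          summable_geometric_of_lt_one (by positivity) hρ2
        rw [Finset.sum_Ico_eq_sum_range, Nat.add_sub_cancel_left]
        calc ∑ j ∈ Finset.range L, (M (μ + j) : ℝ) ≤ ∑ j ∈ Finset.range L, ((m:ℝ) / B) * (ρ ^ 2) ^ j := by
              apply Finset.sum_le_sum
              intro j hj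
              refine (hMup j (Finset.mem_range.1 hj)).trans (le_of_eq ?_)
              rw [← pow_mul]; ring
          _ = ((m:ℝ) / B) * ∑ j ∈ Finset.range L, (ρ ^ 2) ^ j := by rw [Finset.mul_sum]
          _ ≤ ((m:ℝ) / B) * (1 - ρ ^ 2)⁻¹ := by
              have := hgeo.sum_le_tsum (Finset.range L) (fun j _ => by positivity)
              rw [tsum_geometric_of_lt_one (by positivity) hρ2] at this
              gcongr
          _ = m / 8 := by
              rw [hB]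
              have : (1 - ρ ^ 2) ≠ 0 := by linarith
              field_simp
          _ ≤ m / 4 := by linarith
      have h8 : (((m / 4 : ℕ) : ℝ)) ≤ m / 4 := Nat.cast_div_le
      have h9 : (((∑ n ∈ Finset.range n0, 2 * (layer d n).card) + m / 4 +
          ∑ n ∈ Finset.Ico μ (μ + L), M n : ℕ) : ℝ) ≤ (m : ℝ) := by
        rw [Nat.cast_add, Nat.cast_add]
        push_cast
        have : ((m / 4 : ℕ) : ℝ) ≤ m / 4 := h8
        push_cast at this
        linarith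
      exact_mod_cast h9
    · obtain ⟨X, hX⟩ : ∃ X : ℝ, X = Real.sqrt (((n0:ℝ) + 1) ^ (2 * d - 1) / m) := ⟨_, rfl⟩
      have hX0 : 0 ≤ X := by rw [hX]; positivity
      have hμX : ∀ c : ℝ, 0 ≤ c → Real.sqrt (c / m) * Real.sqrt (((μ:ℝ) + 1) ^ (2 * d - 1)) ≤
          Real.sqrt (c * D ^ (2 * d - 1)) * X := by
        intro c hc
        rw [hX, ← Real.sqrt_mul (by positivity), ← Real.sqrt_mul (by positivity)]
        apply Real.sqrt_le_sqrt
        calc c / m * ((μ:ℝ) + 1) ^ (2 * d - 1) ≤ c / m * (D * ((n0:ℝ) + 1)) ^ (2 * d - 1) := by gcongr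
          _ = _ := by rw [mul_pow]; ring
      -- the joint term
      have hjoint : Real.sqrt ((μ - n0 : ℕ) : ℝ) * Real.sqrt (((μ:ℝ)+1) *
          (∑ n ∈ Finset.Ico n0 μ, (2:ℝ)^(-(n:ℝ)) * ((n:ℝ)+1)^(d-1) *
          (layer d n).card) / ((m / 4 : ℕ) : ℝ)) ≤ (d * Real.sqrt (8 * K * D ^ (2 * d - 1))) * (X * l) := by
        have h4 : μ - n0 = d * l := by omega
        have h1 : (∑ n ∈ Finset.Ico n0 μ, (2:ℝ)^(-(n:ℝ)) * ((n:ℝ)+1)^(d-1) * (layer d n).card) ≤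
            (d * l) * (K * ((μ:ℝ) + 1) ^ (2 * d - 2)) := by
          have h2 : ∀ n ∈ Finset.Ico n0 μ, (2:ℝ)^(-(n:ℝ)) * ((n:ℝ)+1)^(d-1) * (layer d n).card ≤
              K * ((μ:ℝ) + 1) ^ (2 * d - 2) := by
            intro n hn
            have hn' : (n:ℝ) ≤ μ := by exact_mod_cast (Finset.mem_Ico.1 hn).2.le
            rw [mul_assoc, Real.rpow_neg (by norm_num), Real.rpow_natCast, inv_mul_le_iff₀ (by positivity)]
            calc ((n:ℝ)+1)^(d-1) * ((layer d n).card : ℝ) ≤ K * 2 ^ n * ((n:ℝ) + 1) ^ (2 * d - 1 - 1) :=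
                  hcard' n
              _ ≤ K * 2 ^ n * ((μ:ℝ) + 1) ^ (2 * d - 1 - 1) := by gcongr
              _ = _ := by
                  rw [show 2 * d - 1 - 1 = 2 * d - 2 by omega]; ring
          have h3 := Finset.sum_le_sum h2
          rw [Finset.sum_const, Nat.card_Ico, nsmul_eq_mul] at h3
          rw [h4] at h3
          push_cast at h3
          exact h3
        have e1 : ((μ:ℝ) + 1) ^ (2 * d - 1) = ((μ:ℝ) + 1) * ((μ:ℝ) + 1) ^ (2 * d - 2) := by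
          rw [← pow_succ']; congr 1; omega
        have h5 : Real.sqrt (((μ:ℝ)+1) *
            (∑ n ∈ Finset.Ico n0 μ, (2:ℝ)^(-(n:ℝ)) * ((n:ℝ)+1)^(d-1) *
            (layer d n).card) / ((m / 4 : ℕ) : ℝ)) ≤
            Real.sqrt ((d:ℝ) * l) * (Real.sqrt (8 * K / m) * Real.sqrt (((μ:ℝ) + 1) ^ (2 * d - 1))) := by
          rw [← Real.sqrt_mul (by positivity), ← Real.sqrt_mul (by positivity)]
          apply Real.sqrt_le_sqrt
          rw [div_le_iff₀ hMs0]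
          calc ((μ:ℝ)+1) * (∑ n ∈ Finset.Ico n0 μ, (2:ℝ)^(-(n:ℝ)) * ((n:ℝ)+1)^(d-1) * (layer d n).card)
              ≤ ((μ:ℝ)+1) * ((d * l) * (K * ((μ:ℝ) + 1) ^ (2 * d - 2))) := by gcongr
            _ = (d:ℝ) * l * (8 * K / m * ((μ:ℝ) + 1) ^ (2 * d - 1)) * (m / 8) := by
                rw [e1]; field_simp
            _ ≤ _ := by gcongr
        rw [h4]
        push_cast
        calc _ ≤ Real.sqrt ((d:ℝ) * l) * (Real.sqrt ((d:ℝ) * l) *
              (Real.sqrt (8 * K / m) * Real.sqrt (((μ:ℝ) + 1) ^ (2 * d - 1)))) := by gcongr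
          _ = (Real.sqrt ((d:ℝ) * l) * Real.sqrt ((d:ℝ) * l)) *
              (Real.sqrt (8 * K / m) * Real.sqrt (((μ:ℝ) + 1) ^ (2 * d - 1))) := by ring
          _ = ((d:ℝ) * l) * (Real.sqrt (8 * K / m) * Real.sqrt (((μ:ℝ) + 1) ^ (2 * d - 1))) := by
              rw [Real.mul_self_sqrt (by positivity)]
          _ ≤ ((d:ℝ) * l) * (Real.sqrt (8 * K * D ^ (2 * d - 1)) * X) := by
              have := hμX (8 * K) (by positivity)
              gcongr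
          _ = _ := by ring
      -- the window
      have hfirst : (∑ n ∈ Finset.Ico μ (μ + L), (2:ℝ)^(-((1/2:ℝ) * n)) * ((n:ℝ)+1)^(((d:ℝ)-1)/2) *
          (2:ℝ)^(-(β * ((n - μ : ℕ) : ℝ))) *
          Real.sqrt (((n:ℝ)+1) * (layer d n).card / M n)) ≤
          (Real.sqrt (2 * B * K / m) * Real.sqrt (((μ:ℝ) + 1) ^ (2 * d - 1))) * G := by
        rw [Finset.sum_Ico_eq_sum_range, Nat.add_sub_cancel_left]
        have h1 : ∀ j ∈ Finset.range L, (2:ℝ)^(-((1/2:ℝ) * ((μ + j : ℕ) : ℝ))) *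
            (((μ + j : ℕ):ℝ)+1)^(((d:ℝ)-1)/2) *
            (2:ℝ)^(-(β * ((μ + j - μ : ℕ) : ℝ))) *
            Real.sqrt ((((μ + j : ℕ):ℝ)+1) * (layer d (μ + j)).card / M (μ + j)) ≤
            (Real.sqrt (2 * B * K / m) * Real.sqrt (((μ:ℝ) + 1) ^ (2 * d - 1))) * g j := by
          intro j hj
          have hMlo' := hMlo j (Finset.mem_range.1 hj)
          have hM1' := hM1 (μ + j)
          rw [Nat.add_comm μ j] at *
          have hMn : (0:ℝ) < M (j + μ) := by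
            have : (1:ℝ) ≤ M (j + μ) := by exact_mod_cast hM1'
            linarith
          have h2 := numuhb_T (2 * d - 1) hd1 K β hK μ j _ (hcard' (j + μ)) (1 / (M (j + μ) : ℝ))
            (by positivity)
          rw [hρδ j] at h2
          have e1 : (2:ℝ)^(-((1/2:ℝ) * ((j + μ : ℕ) : ℝ))) * (((j + μ : ℕ):ℝ)+1)^(((d:ℝ)-1)/2) *
              (2:ℝ)^(-(β * ((j + μ - μ : ℕ) : ℝ))) *
              Real.sqrt ((((j + μ : ℕ):ℝ)+1) * (layer d (j + μ)).card / M (j + μ)) =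
              (2:ℝ)^(-((1/2:ℝ) * ((j + μ : ℕ) : ℝ))) * (2:ℝ)^(-(β * ((j + μ - μ : ℕ) : ℝ))) *
              Real.sqrt (1 / (M (j + μ) : ℝ) * ((((j + μ : ℕ):ℝ) + 1) *
                ((((j + μ : ℕ):ℝ) + 1) ^ (d - 1) * (layer d (j + μ)).card))) := by
            have e2 : 1 / (M (j + μ) : ℝ) * ((((j + μ : ℕ):ℝ) + 1) *
                ((((j + μ : ℕ):ℝ) + 1) ^ (d - 1) * (layer d (j + μ)).card)) =
                (((j + μ : ℕ):ℝ) + 1) ^ (d - 1) *
                ((((j + μ : ℕ):ℝ)+1) * (layer d (j + μ)).card / M (j + μ)) := by ring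
            rw [e2, Real.sqrt_mul (by positivity), hP]
            ring
          rw [e1]
          refine h2.trans ?_
          have h3 : Real.sqrt (1 / (M (j + μ) : ℝ) * K) * ρ ^ j ≤ Real.sqrt (2 * B * K / m) := by
            have e2 : ρ ^ j = Real.sqrt (ρ ^ (2 * j)) := by
              rw [mul_comm, pow_mul, Real.sqrt_sq (by positivity)]
            rw [e2, ← Real.sqrt_mul (by positivity)]
            apply Real.sqrt_le_sqrt
            rw [div_le_iff₀ (by positivity)] at hMlo'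
            rw [le_div_iff₀ hm0, one_div, inv_mul_eq_div, div_mul_eq_mul_div, div_mul_eq_mul_div,
              div_le_iff₀ hMn]
            calc K * ρ ^ (2 * j) * m = K * (m * ρ ^ (2 * j)) := by ring
              _ ≤ K * (M (j + μ) * (2 * B)) := by gcongr
              _ = _ := by ring
          calc _ = (Real.sqrt (1 / (M (j + μ) : ℝ) * K) * ρ ^ j) *
                (Real.sqrt (((μ:ℝ) + 1) ^ (2 * d - 1)) * (((j:ℝ) + 1) ^ (2 * d - 1) * ρ ^ j)) := by ring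
            _ ≤ Real.sqrt (2 * B * K / m) *
                (Real.sqrt (((μ:ℝ) + 1) ^ (2 * d - 1)) * (((j:ℝ) + 1) ^ (2 * d - 1) * ρ ^ j)) := by gcongr
            _ = _ := by rw [hg]; ring
        calc _ ≤ ∑ j ∈ Finset.range L, (Real.sqrt (2 * B * K / m) *
              Real.sqrt (((μ:ℝ) + 1) ^ (2 * d - 1))) * g j := Finset.sum_le_sum h1
          _ = (Real.sqrt (2 * B * K / m) * Real.sqrt (((μ:ℝ) + 1) ^ (2 * d - 1))) *
              ∑ j ∈ Finset.range L, g j := by rw [Finset.mul_sum]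
          _ ≤ _ := by
              rw [hG]
              have := hgs.sum_le_tsum (Finset.range L) (fun j _ => hg0 j)
              gcongr
      -- the tail
      have hLt : ρ ^ L ≤ Real.sqrt (B / m) := by
        have e2 : ρ ^ L = Real.sqrt (ρ ^ (2 * L)) := by
          rw [mul_comm, pow_mul, Real.sqrt_sq (by positivity)]
        rw [e2]
        apply Real.sqrt_le_sqrt
        rw [div_lt_one hB0] at hL1
        rw [le_div_iff₀ hm0]
        linarith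
      have htail : ∑' n : ℕ, (2:ℝ)^(-((1/2:ℝ) * ((n + (μ + L) : ℕ) : ℝ))) *
          (((n + (μ + L) : ℕ):ℝ)+1)^(((d:ℝ)-1)/2) *
          (2:ℝ)^(-(β * ((n + (μ + L) - μ : ℕ) : ℝ))) *
          Real.sqrt (layer d (n + (μ + L))).card ≤
          (Real.sqrt (K * B / m) * Real.sqrt (((μ:ℝ) + 1) ^ (2 * d - 1))) * G := by
        have h1 : ∀ i : ℕ, (2:ℝ)^(-((1/2:ℝ) * ((i + (μ + L) : ℕ) : ℝ))) *
            (((i + (μ + L) : ℕ):ℝ)+1)^(((d:ℝ)-1)/2) *
            (2:ℝ)^(-(β * ((i + (μ + L) - μ : ℕ) : ℝ))) *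
            Real.sqrt (layer d (i + (μ + L))).card ≤
            (Real.sqrt (K * B / m) * Real.sqrt (((μ:ℝ) + 1) ^ (2 * d - 1))) * g (i + L) := by
          intro i
          have h2 := hterm μ (i + L)
          have e1 : i + (μ + L) = i + L + μ := by ring
          rw [e1]
          refine h2.trans ?_
          rw [mul_div_assoc, Real.sqrt_mul hK0.le]
          have h3 : ρ ^ (i + L) ≤ Real.sqrt (B / m) := by
            rw [pow_add]
            have := hρD1 i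
            have h4 : 0 ≤ ρ ^ L := by positivity
            nlinarith
          calc Real.sqrt K * Real.sqrt (((μ:ℝ) + 1) ^ (2 * d - 1)) * (g (i + L) * ρ ^ (i + L)) ≤
                Real.sqrt K * Real.sqrt (((μ:ℝ) + 1) ^ (2 * d - 1)) * (g (i + L) * Real.sqrt (B / m)) := by
                have := hg0 (i + L)
                gcongr
            _ = _ := by ring
        have hgs' := (summable_nat_add_iff L).2 hgs
        have h4 : ∑' i : ℕ, g (i + L) ≤ G := by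
          rw [hG, ← hgs.sum_add_tsum_nat_add L]
          have : 0 ≤ ∑ i ∈ Finset.range L, g i := Finset.sum_nonneg (fun i _ => hg0 i)
          linarith
        calc _ ≤ ∑' i : ℕ, (Real.sqrt (K * B / m) * Real.sqrt (((μ:ℝ) + 1) ^ (2 * d - 1))) * g (i + L) :=
              ((summable_nat_add_iff (μ + L)).2 (hsumm μ)).tsum_le_tsum h1 (hgs'.mul_left _)
          _ = (Real.sqrt (K * B / m) * Real.sqrt (((μ:ℝ) + 1) ^ (2 * d - 1))) * ∑' i : ℕ, g (i + L) :=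
              tsum_mul_left
          _ ≤ _ := by gcongr
      -- the last term
      have hlast : ((μ:ℝ)+1)^(d-1) * (2:ℝ)^(-((1/2:ℝ) * μ)) ≤
          Real.sqrt (16 * K * 2 ^ d * D ^ (2 * d)) * X := by
        rw [hX, ← Real.sqrt_mul (by positivity)]
        apply Real.le_sqrt_of_sq_le
        have e1 : ((2:ℝ)^(-((1/2:ℝ) * μ))) ^ 2 = ((2:ℝ) ^ μ)⁻¹ := by
          rw [← Real.rpow_natCast, ← Real.rpow_mul (by norm_num), ← Real.rpow_natCast 2 μ,
            ← Real.rpow_neg (by norm_num)]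
          congr 1; push_cast; ring
        have h1 : ((n0:ℝ) + 1) ^ d ≤ (2:ℝ) ^ (d * l) := by
          calc ((n0:ℝ) + 1) ^ d ≤ ((2:ℝ) ^ l) ^ d := by gcongr
            _ = _ := by rw [← pow_mul]; congr 1; ring
        have h2 : (m:ℝ) ≤ 16 * K * 2 ^ n0 * (2 ^ d * ((n0:ℝ) + 1) ^ (d - 1)) := by
          refine hn0b.trans ?_
          have h3 : ((n0:ℝ) + 2) ^ (d - 1) ≤ 2 ^ d * ((n0:ℝ) + 1) ^ (d - 1) := by
            calc ((n0:ℝ) + 2) ^ (d - 1) ≤ (2 * ((n0:ℝ) + 1)) ^ (d - 1) := by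
                  gcongr; linarith
              _ = 2 ^ (d - 1) * ((n0:ℝ) + 1) ^ (d - 1) := by rw [mul_pow]
              _ ≤ _ := by
                  gcongr
                  · norm_num
                  · omega
          calc 8 * K * 2 ^ (n0 + 1) * ((n0:ℝ) + 2) ^ (d - 1) = 16 * K * 2 ^ n0 * ((n0:ℝ) + 2) ^ (d - 1) := by
                rw [pow_succ]; ring
            _ ≤ _ := by gcongr
        have h4 : (((μ:ℝ) + 1) ^ (d - 1)) ^ 2 ≤ D ^ (2 * d) * ((n0:ℝ) + 1) ^ (2 * d - 2) := by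
          rw [← pow_mul]
          calc ((μ:ℝ) + 1) ^ ((d - 1) * 2) ≤ (D * ((n0:ℝ) + 1)) ^ ((d - 1) * 2) := by gcongr
            _ = D ^ ((d - 1) * 2) * ((n0:ℝ) + 1) ^ (2 * d - 2) := by
                rw [mul_pow]; congr 2; omega
            _ ≤ _ := by
                have : D ^ ((d - 1) * 2) ≤ D ^ (2 * d) := pow_le_pow_right₀ hD1 (by omega)
                gcongr
        have h5 : (0:ℝ) < 2 ^ μ := by positivity
        have h6 : (2:ℝ) ^ μ = 2 ^ n0 * 2 ^ (d * l) := by rw [hμ, pow_add]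
        rw [mul_pow, e1, ← div_eq_mul_inv, div_le_iff₀ h5, h6]
        have e2 : ((n0:ℝ) + 1) ^ (2 * d - 1) = ((n0:ℝ) + 1) ^ (2 * d - 2) * ((n0:ℝ) + 1) := by
          rw [← pow_succ]; congr 1; omega
        have e3 : ((n0:ℝ) + 1) ^ d = ((n0:ℝ) + 1) ^ (d - 1) * ((n0:ℝ) + 1) := by
          rw [← pow_succ]; congr 1; omega
        calc (((μ:ℝ) + 1) ^ (d - 1)) ^ 2 ≤ D ^ (2 * d) * ((n0:ℝ) + 1) ^ (2 * d - 2) * 1 := by
              rw [mul_one]; exact h4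
          _ ≤ D ^ (2 * d) * ((n0:ℝ) + 1) ^ (2 * d - 2) *
              ((16 * K * 2 ^ n0 * (2 ^ d * ((n0:ℝ) + 1) ^ (d - 1))) / m) := by
              have h6 : 1 ≤ (16 * K * 2 ^ n0 * (2 ^ d * ((n0:ℝ) + 1) ^ (d - 1))) / m := by
                rwa [le_div_iff₀ hm0, one_mul]
              gcongr
          _ = 16 * K * 2 ^ d * D ^ (2 * d) * (((n0:ℝ) + 1) ^ (2 * d - 2) / m) *
              (2 ^ n0 * ((n0:ℝ) + 1) ^ (d - 1)) := by
              field_simp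
          _ ≤ 16 * K * 2 ^ d * D ^ (2 * d) * (((n0:ℝ) + 1) ^ (2 * d - 1) / m) *
              (2 ^ n0 * ((n0:ℝ) + 1) ^ d) := by
              rw [e2, e3]
              have h7 : ((n0:ℝ) + 1) ^ (2 * d - 2) ≤ ((n0:ℝ) + 1) ^ (2 * d - 2) * ((n0:ℝ) + 1) := by
                have : 0 ≤ ((n0:ℝ) + 1) ^ (2 * d - 2) := by positivity
                nlinarith
              have h8 : ((n0:ℝ) + 1) ^ (d - 1) ≤ ((n0:ℝ) + 1) ^ (d - 1) * ((n0:ℝ) + 1) := by
                have : 0 ≤ ((n0:ℝ) + 1) ^ (d - 1) := by positivity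
                nlinarith
              gcongr
          _ ≤ _ := by gcongr
      -- X against psiHB
      have hXp : X * l ≤ (4 * Real.sqrt (2 ^ (2 * d - 1))) * psiHB d m := by
        have h1 : X ≤ Real.sqrt (2 ^ (2 * d - 1)) * Real.sqrt ((Real.log m) ^ (2 * d - 1) / m) := by
          rw [hX, ← Real.sqrt_mul (by positivity)]
          apply Real.sqrt_le_sqrt
          calc ((n0:ℝ) + 1) ^ (2 * d - 1) / m ≤ (2 * Real.log m) ^ (2 * d - 1) / m := by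
                have : (n0:ℝ) + 1 ≤ 2 * Real.log m := by linarith
                gcongr
            _ = _ := by rw [mul_pow]; ring
        rw [hpsi]
        calc X * l ≤ (Real.sqrt (2 ^ (2 * d - 1)) * Real.sqrt ((Real.log m) ^ (2 * d - 1) / m)) *
              (4 * Real.log (Real.log m + 3)) := by gcongr
          _ = _ := by ring
      have hXl : X ≤ X * l := by nlinarith
      have w1 := hμX (2 * B * K) (by positivity)
      have w2 := hμX (K * B) (by positivity)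
      calc _ ≤ (d * Real.sqrt (8 * K * D ^ (2 * d - 1))) * (X * l) +
            (Real.sqrt (2 * B * K / m) * Real.sqrt (((μ:ℝ) + 1) ^ (2 * d - 1))) * G +
            (Real.sqrt (K * B / m) * Real.sqrt (((μ:ℝ) + 1) ^ (2 * d - 1))) * G +
            Real.sqrt (16 * K * 2 ^ d * D ^ (2 * d)) * X :=
            add_le_add (add_le_add (add_le_add hjoint hfirst) htail) hlast
        _ ≤ (d * Real.sqrt (8 * K * D ^ (2 * d - 1))) * (X * l) +
            (Real.sqrt (2 * B * K * D ^ (2 * d - 1)) * (X * l)) * G +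
            (Real.sqrt (K * B * D ^ (2 * d - 1)) * (X * l)) * G +
            Real.sqrt (16 * K * 2 ^ d * D ^ (2 * d)) * (X * l) := by
            have w3 : Real.sqrt (2 * B * K / m) * Real.sqrt (((μ:ℝ) + 1) ^ (2 * d - 1)) ≤
                Real.sqrt (2 * B * K * D ^ (2 * d - 1)) * (X * l) := by
              refine w1.trans ?_
              gcongr
            have w4 : Real.sqrt (K * B / m) * Real.sqrt (((μ:ℝ) + 1) ^ (2 * d - 1)) ≤
                Real.sqrt (K * B * D ^ (2 * d - 1)) * (X * l) := by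
              refine w2.trans ?_
              gcongr
            gcongr
        _ = C1 * (X * l) := by rw [hC1]; ring
        _ ≤ C1 * ((4 * Real.sqrt (2 ^ (2 * d - 1))) * psiHB d m) := by gcongr
        _ = CB * psiHB d m := by rw [hCB]; ring
        _ ≤ _ := by
            apply mul_le_mul_of_nonneg_right _ hpsi0
            linarith

end SmSm
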