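import Pool.Agent.H636R2.SM.SpecH
import Pool.Agent.H636R2.SM.PIG
open MeasureTheory Real ProbabilityTheory
open scoped ENNReal BigOperators

/-! PIGH: pigeonhole for the classes `H^r_∞` (helper287). -/

namespace SmSm
open HypVol MWidth

theorem pigh_gp_sub {d : ℕ} (Λ : Finset (Fin d → ℤ)) (a b : Λ × Fin 2 → ℝ) (x : Fin d → ℝ) :
    gp Λ (fun i => a i - b i) x = gp Λ a x - gp Λ b x := by
  unfold gp
  rw [← Finset.sum_sub_distrib]
  refine Finset.sum_congr rfl fun k _ => ?_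
  push_cast
  ring

theorem pigh : S_PIGH := by
  intro d r K Δ B R ε ε2 N k1 k2 hd hB hε hε2 hFam hnet hcov hK
  obtain ⟨ι, hι, h, Λ, w, hcard, hcont, hper, hΛ, hw, hdec, hsep⟩ := hFam
  obtain ⟨S, hS, hSa⟩ := hnet Λ w hΛ hw
  obtain ⟨c, -, hc⟩ := hcov
  choose f1 hf1 a ha hfa using hdec
  choose s hs hsx using fun i => hSa (a i) (ha i)
  choose j hj using fun i => hc (f1 i) (hf1 i)
  -- pigeonhole
  have hninj : ¬ Function.Injective (fun i : ι => ((⟨s i, hs i⟩ : S), j i)) := by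
    intro hinj
    have h1 := Fintype.card_le_of_injective _ hinj
    rw [Fintype.card_prod, Fintype.card_coe, Fintype.card_fin] at h1
    have h2 : (Fintype.card ι : ℝ) ≤ (2:ℝ)^k1 * 2^k2 := by
      calc (Fintype.card ι : ℝ) ≤ ((S.card * 2^k2 : ℕ) : ℝ) := by exact_mod_cast h1
        _ ≤ ((2^k1 * 2^k2 : ℕ) : ℝ) := by
            exact_mod_cast Nat.mul_le_mul_right _ hS
        _ = (2:ℝ)^k1 * 2^k2 := by push_cast; ring
    linarith
  have hex : ∃ i i' : ι, s i = s i' ∧ j i = j i' ∧ i ≠ i' := by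
    by_contra hcon
    push Not at hcon
    refine hninj fun i i' hii => ?_
    simp only [Prod.mk.injEq, Subtype.mk.injEq] at hii
    exact hcon i i' hii.1 hii.2
  obtain ⟨i, i', hsi, hji, hne⟩ := hex
  obtain ⟨x, hx⟩ := hsep i i' hne
  refine hx.trans ?_
  have hcg : Continuous (fun x => ‖h i x - h i' x‖) := ((hcont i).sub (hcont i')).norm
  have hpg : ∀ (x : Fin d → ℝ) (l : Fin d),
      ‖h i (Function.update x l (x l + 2 * π)) - h i' (Function.update x l (x l + 2 * π))‖ =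
        ‖h i x - h i' x‖ := by
    intro x l
    rw [hper, hper]
  refine pig_everywhere (fun x => ‖h i x - h i' x‖) hcg hpg _ ?_ x
  have b1 := pig_ess _ ε2 hε2.le (hj i)
  have b2 := pig_ess _ ε2 hε2.le (hj i')
  filter_upwards [hfa i, hfa i', b1, b2] with x e1 e2 e3 e4
  rw [e1, e2]
  have e5 := hsx i x
  have e6 := hsx i' x
  rw [pigh_gp_sub] at e5 e6
  rw [hsi] at e5
  rw [hji] at e3
  set g1 := gp Λ (fun i_1 => w i_1.1.1 * a i i_1) x with hg1
  set g2 := gp Λ (fun i_1 => w i_1.1.1 * a i' i_1) x with hg2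
  set g0 := gp Λ (s i') x with hg0
  have e7 : (B : ℂ) * f1 i x + g1 - ((B : ℂ) * f1 i' x + g2) =
      (B : ℂ) * (f1 i x - c (j i') x) - (B : ℂ) * (f1 i' x - c (j i') x) + ((g1 - g0) - (g2 - g0)) := by
    ring
  rw [e7]
  have e8 : ‖(B : ℂ) * (f1 i x - c (j i') x)‖ ≤ B * ε2 := by
    rw [norm_mul, Complex.norm_real, Real.norm_of_nonneg hB.le]
    exact mul_le_mul_of_nonneg_left e3 hB.le
  have e9 : ‖(B : ℂ) * (f1 i' x - c (j i') x)‖ ≤ B * ε2 := by
    rw [norm_mul, Complex.norm_real, Real.norm_of_nonneg hB.le]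
    exact mul_le_mul_of_nonneg_left e4 hB.le
  have t1 := norm_add_le ((B : ℂ) * (f1 i x - c (j i') x) - (B : ℂ) * (f1 i' x - c (j i') x))
    ((g1 - g0) - (g2 - g0))
  have t2 := norm_sub_le ((B : ℂ) * (f1 i x - c (j i') x)) ((B : ℂ) * (f1 i' x - c (j i') x))
  have t3 := norm_sub_le (g1 - g0) (g2 - g0)
  linarith

end SmSm
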