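import Pool.Agent.H636R2.SM.SpecP
open MeasureTheory Real ProbabilityTheory
open scoped ENNReal BigOperators ComplexConjugate

/-! RCN: interpolation on the grid (helper287). -/

namespace SmSm
open HypVol MWidth

theorem rcn_geom (N : ℕ) (hN : 0 < N) (m : ℤ) (hm : |m| < N) :
    ∑ y : Fin N, Complex.exp (Complex.I * (((m : ℝ) * (2 * π * ((y : ℕ) : ℝ) / N) : ℝ) : ℂ)) =
      if m = 0 then (N : ℂ) else 0 := by
  have hN' : (N : ℂ) ≠ 0 := by exact_mod_cast hN.ne'
  split_ifs with h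
  · subst h
    simp
  · set ζ : ℂ := Complex.exp (2 * π * Complex.I * (m / N)) with hζ
    have e1 : ∀ y : ℕ, Complex.exp (Complex.I * (((m : ℝ) * (2 * π * (y : ℝ) / N) : ℝ) : ℂ)) =
        ζ ^ y := by
      intro y
      rw [hζ, ← Complex.exp_nat_mul]
      congr 1
      push_cast
      field_simp
    have e2 : ∑ y : Fin N, Complex.exp (Complex.I * (((m : ℝ) * (2 * π * ((y : ℕ) : ℝ) / N) : ℝ) : ℂ)) =
        ∑ i ∈ Finset.range N, ζ ^ i := by
      rw [Finset.sum_range]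
      exact Finset.sum_congr rfl fun y _ => e1 y
    rw [e2]
    have h1 : ζ ^ N = 1 := by
      rw [hζ, ← Complex.exp_nat_mul]
      have : (N : ℂ) * (2 * π * Complex.I * (m / N)) = m * (2 * π * Complex.I) := by
        field_simp
      rw [this]
      exact Complex.exp_int_mul_two_pi_mul_I m
    have h2 : ζ ≠ 1 := by
      intro h3
      rw [hζ, Complex.exp_eq_one_iff] at h3
      obtain ⟨n, hn⟩ := h3
      have hpi : (2 * (π : ℂ) * Complex.I) ≠ 0 := Complex.two_pi_I_ne_zero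
      have h4 : (m : ℂ) / N = n := by
        have : (2 * (π : ℂ) * Complex.I) * (m / N) = (2 * (π : ℂ) * Complex.I) * n := by
          rw [hn]; ring
        exact mul_left_cancel₀ hpi this
      have h5 : (m : ℂ) = n * N := by
        field_simp at h4
        rw [h4]; ring
      have h6 : m = n * N := by exact_mod_cast h5
      have hn0 : n ≠ 0 := by
        rintro rfl
        exact h (by simpa using h6)
      have h7 : (N : ℤ) ≤ |m| := by
        rw [h6, abs_mul, Nat.abs_cast]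
        have : 1 ≤ |n| := Int.one_le_abs hn0
        nlinarith [Int.natCast_nonneg N]
      linarith
    have h3 := geom_sum_mul ζ N
    rw [h1, sub_self] at h3
    exact (mul_eq_zero.1 h3).resolve_right (sub_ne_zero.2 h2)

theorem rcn_chi_prod {d : ℕ} (m : Fin d → ℤ) (x : Fin d → ℝ) :
    chi m x = ∏ j, Complex.exp (Complex.I * (((m j : ℝ) * x j : ℝ) : ℂ)) := by
  unfold chi
  rw [← Complex.exp_sum, ← Finset.mul_sum]
  push_cast
  rfl

theorem rcn_chi_add {d : ℕ} (k l : Fin d → ℤ) (x : Fin d → ℝ) :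
    chi k x * chi l x = chi (k + l) x := by
  unfold chi
  rw [← Complex.exp_add, ← mul_add, ← Complex.ofReal_add, ← Finset.sum_add_distrib]
  congr 3
  refine Finset.sum_congr rfl fun j _ => ?_
  rw [Pi.add_apply]
  push_cast
  ring

theorem rcn_chi_conj {d : ℕ} (k : Fin d → ℤ) (x : Fin d → ℝ) :
    conj (chi k x) = chi (-k) x := by
  unfold chi
  rw [← Complex.exp_conj, map_mul, Complex.conj_I, Complex.conj_ofReal]
  congr 1
  have : (∑ j, (((-k) j : ℤ) : ℝ) * x j : ℝ) = - ∑ j, (k j : ℝ) * x j := by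
    rw [← Finset.sum_neg_distrib]
    refine Finset.sum_congr rfl fun j _ => ?_
    rw [Pi.neg_apply]
    push_cast
    ring
  rw [this]
  push_cast
  ring

theorem rcn_sum {d : ℕ} (s : Fin d → ℕ) (m : Fin d → ℤ) (hm : ∀ j, |m j| < (2:ℤ)^(s j + 3)) :
    ∑ y : PG s, chi m (pgp y) = if m = 0 then (2:ℂ)^(∑ j, (s j + 3)) else 0 := by
  have e1 : ∀ y : PG s, chi m (pgp y) =
      ∏ j, Complex.exp (Complex.I * (((m j : ℝ) * (2 * π * ((y j : ℕ) : ℝ) / ((2^(s j + 3) : ℕ) : ℝ)) : ℝ) : ℂ)) := by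
    intro y
    rw [rcn_chi_prod]
    refine Finset.prod_congr rfl fun j _ => ?_
    unfold pgp
    push_cast
    rfl
  rw [Finset.sum_congr rfl fun y _ => e1 y]
  have e2 := Finset.prod_univ_sum (fun j : Fin d => (Finset.univ : Finset (Fin (2^(s j + 3)))))
    (fun j y => Complex.exp (Complex.I * (((m j : ℝ) * (2 * π * ((y : ℕ) : ℝ) / ((2^(s j + 3) : ℕ) : ℝ)) : ℝ) : ℂ)))
  rw [Fintype.piFinset_univ] at e2
  rw [← e2]
  have e3 : ∀ j : Fin d, ∑ y : Fin (2^(s j + 3)),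
      Complex.exp (Complex.I * (((m j : ℝ) * (2 * π * ((y : ℕ) : ℝ) / ((2^(s j + 3) : ℕ) : ℝ)) : ℝ) : ℂ)) =
      if m j = 0 then ((2^(s j + 3) : ℕ) : ℂ) else 0 := by
    intro j
    exact rcn_geom (2^(s j + 3)) (by positivity) (m j) (by push_cast; exact hm j)
  rw [Finset.prod_congr rfl fun j _ => e3 j]
  split_ifs with h
  · rw [← Finset.prod_pow_eq_pow_sum]
    refine Finset.prod_congr rfl fun j _ => ?_
    rw [h, Pi.zero_apply, if_pos rfl]
    push_cast
    rfl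
  · obtain ⟨j, hj⟩ := Function.ne_iff.1 h
    exact Finset.prod_eq_zero (Finset.mem_univ j) (if_neg hj)

theorem rcn_ann_lt {d : ℕ} {s : Fin d → ℕ} {k : Fin d → ℤ} (hk : k ∈ ann s) (j : Fin d) :
    |k j| < (2:ℤ)^(s j + 1) := by
  unfold ann at hk
  have h1 := Fintype.mem_piFinset.1 hk j
  rw [Finset.mem_filter, Finset.mem_Ioo] at h1
  exact abs_lt.2 h1.1

theorem rcn_boxs_lt {d : ℕ} {s : Fin d → ℕ} {k : Fin d → ℤ} (hk : k ∈ boxs s) (j : Fin d) :
    |k j| < (2:ℤ)^(s j + 1) := by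
  unfold boxs at hk
  have h1 := Fintype.mem_piFinset.1 hk j
  rw [Finset.mem_Ioo] at h1
  exact abs_lt.2 h1

theorem rcn_ann_sub {d : ℕ} {s : Fin d → ℕ} : ann s ⊆ boxs s := by
  intro k hk
  unfold boxs
  rw [Fintype.mem_piFinset]
  intro j
  rw [Finset.mem_Ioo]
  exact abs_lt.1 (rcn_ann_lt hk j)

theorem rcn_orth {d : ℕ} {s : Fin d → ℕ} {k k' : Fin d → ℤ} (hk : ∀ j, |k j| < (2:ℤ)^(s j + 1))
    (hk' : ∀ j, |k' j| < (2:ℤ)^(s j + 1)) :
    ∑ y : PG s, chi k' (pgp y) * chi (-k) (pgp y) =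
      if k' = k then (2:ℂ)^(∑ j, (s j + 3)) else 0 := by
  have h1 : ∀ j, |(k' + -k) j| < (2:ℤ)^(s j + 3) := by
    intro j
    rw [Pi.add_apply, Pi.neg_apply]
    have h2 := abs_add_le (k' j) (-(k j))
    rw [abs_neg] at h2
    have h3 : (2:ℤ)^(s j + 1) + (2:ℤ)^(s j + 1) ≤ (2:ℤ)^(s j + 3) := by
      have : (2:ℤ)^(s j + 3) = 4 * (2:ℤ)^(s j + 1) := by rw [pow_add, pow_add]; ring
      rw [this]
      have : (0:ℤ) < (2:ℤ)^(s j + 1) := by positivity
      linarith
    linarith [hk j, hk' j]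
  rw [Finset.sum_congr rfl fun y _ => rcn_chi_add k' (-k) (pgp y), rcn_sum s _ h1]
  have h2 : k' + -k = 0 ↔ k' = k := by rw [← sub_eq_add_neg, sub_eq_zero]
  simp only [h2]

theorem rcn_Fh {d : ℕ} (k : Fin d → ℤ) : Fh 0 (0 : Fin d → ℝ) k = 1 := by
  unfold Fh
  refine Finset.prod_eq_one fun j _ => ?_
  split_ifs with h
  · rfl
  · simp

theorem rcn_blk (h : S_VPF) {d : ℕ} {s : Fin d → ℕ} {k : Fin d → ℤ} (hk : k ∉ ann s) :
    blk s k = 0 := by
  by_contra h0
  refine hk ?_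
  have h1 := h.2.2.2 d s k h0
  unfold ann
  rw [Fintype.mem_piFinset]
  intro j
  rw [Finset.mem_filter, Finset.mem_Ioo, ← abs_lt]
  refine ⟨?_, h1 j⟩
  have h2 := Nat.size_le.1 (h1 j).2
  have h3 : (((k j).natAbs : ℕ) : ℤ) < ((2 ^ (s j + 1) : ℕ) : ℤ) := by exact_mod_cast h2
  rw [Int.natCast_natAbs] at h3
  push_cast at h3
  exact h3

theorem rcn_op {d : ℕ} (s : Fin d → ℕ) (φ : (Fin d → ℝ) → ℂ) (x : Fin d → ℝ) :
    op 0 0 s φ x = ∑ k ∈ boxs s, ((blk s k : ℂ) * fc φ k) * chi k x := by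
  unfold op
  refine Finset.sum_congr rfl fun k _ => ?_
  rw [rcn_Fh, one_mul]

/-- Bessel's inequality -/
theorem rcn_bessel {Y K : Type} [Fintype Y] [DecidableEq K] (A : Finset K) (χ : K → Y → ℂ) (M : ℝ) (hM : 0 < M)
    (horth : ∀ k ∈ A, ∀ k' ∈ A, ∑ y, χ k' y * conj (χ k y) = if k' = k then (M : ℂ) else 0)
    (b : Y → ℂ) :
    ∑ k ∈ A, ‖(∑ y, b y * conj (χ k y)) / (M : ℂ)‖ ^ 2 ≤ (∑ y, ‖b y‖ ^ 2) / M := by
  set r : ℝ := (√M)⁻¹ with hr
  have hr2 : r * r * M = 1 := by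
    rw [hr, ← mul_inv, Real.mul_self_sqrt hM.le, inv_mul_cancel₀ hM.ne']
  let v : A → EuclideanSpace ℂ Y := fun k => WithLp.toLp 2 (fun y => (r : ℂ) * χ k.1 y)
  have hv : Orthonormal ℂ v := by
    rw [orthonormal_iff_ite]
    intro k k'
    have h1 : (inner ℂ (v k) (v k')) = ((r : ℂ) * r) * ∑ y, χ k'.1 y * conj (χ k.1 y) := by
      rw [PiLp.inner_apply, Finset.mul_sum]
      refine Finset.sum_congr rfl fun y _ => ?_
      simp only [v, RCLike.inner_apply, map_mul, Complex.conj_ofReal]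
      ring
    rw [h1, horth k.1 k.2 k'.1 k'.2]
    have h2 : ((r : ℂ) * r) * M = 1 := by exact_mod_cast hr2
    by_cases hkk : k = k'
    · subst hkk
      simp [h2]
    · rw [if_neg (fun h => hkk (Subtype.ext h.symm)), if_neg hkk, mul_zero]
  have key := hv.sum_inner_products_le (s := Finset.univ) (WithLp.toLp 2 b : EuclideanSpace ℂ Y)
  have e1 : ∀ k : A, (inner ℂ (v k) (WithLp.toLp 2 b : EuclideanSpace ℂ Y)) =
      (r : ℂ) * ∑ y, b y * conj (χ k.1 y) := by
    intro k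
    rw [PiLp.inner_apply, Finset.mul_sum]
    refine Finset.sum_congr rfl fun y _ => ?_
    simp only [v, RCLike.inner_apply, map_mul, Complex.conj_ofReal]
    ring
  rw [EuclideanSpace.norm_sq_eq] at key
  simp only [e1] at key
  have e2 : ∀ k : A, ‖(r : ℂ) * ∑ y, b y * conj (χ k.1 y)‖ ^ 2 =
      M * ‖(∑ y, b y * conj (χ k.1 y)) / (M : ℂ)‖ ^ 2 := by
    intro k
    rw [norm_mul, norm_div, mul_pow, div_pow, Complex.norm_real, Complex.norm_real,
      Real.norm_eq_abs, Real.norm_eq_abs, sq_abs, sq_abs]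
    have : r ^ 2 = 1 / M := by
      field_simp
      linarith
    rw [this]
    field_simp
  simp only [e2] at key
  rw [Finset.sum_coe_sort A (fun k => M * ‖(∑ y, b y * conj (χ k y)) / (M : ℂ)‖ ^ 2),
    ← Finset.mul_sum] at key
  rw [le_div_iff₀ hM, mul_comm]
  exact key

theorem rcn (h : S_VPF) : S_RCN := by
  intro d s
  have hM : (2:ℂ)^(∑ j, (s j + 3)) ≠ 0 := pow_ne_zero _ two_ne_zero
  have hA : ∀ (φ : (Fin d → ℝ) → ℂ) (k : Fin d → ℤ),
      rco s (fun y => op 0 0 s φ (pgp y)) k = (blk s k : ℂ) * fc φ k := by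
    intro φ k
    unfold rco
    split_ifs with hk
    · have e1 : ∑ y : PG s, op 0 0 s φ (pgp y) * chi (-k) (pgp y) =
          ∑ k' ∈ boxs s, ((blk s k' : ℂ) * fc φ k') * ∑ y : PG s, chi k' (pgp y) * chi (-k) (pgp y) := by
        simp only [rcn_op, Finset.sum_mul, Finset.mul_sum]
        rw [Finset.sum_comm]
        refine Finset.sum_congr rfl fun k' _ => Finset.sum_congr rfl fun y _ => ?_
        ring
      have e2 : ∑ k' ∈ boxs s, ((blk s k' : ℂ) * fc φ k') *
          ∑ y : PG s, chi k' (pgp y) * chi (-k) (pgp y) =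
          ((blk s k : ℂ) * fc φ k) * (2:ℂ)^(∑ j, (s j + 3)) := by
        rw [Finset.sum_eq_single k]
        · rw [rcn_orth (rcn_ann_lt hk) (rcn_ann_lt hk), if_pos rfl]
        · intro k' hk' hne
          rw [rcn_orth (rcn_ann_lt hk) (rcn_boxs_lt hk'), if_neg hne, mul_zero]
        · intro hk'
          exact absurd (rcn_ann_sub hk) hk'
      rw [e1, e2, mul_div_assoc, div_self hM, mul_one]
    · rw [rcn_blk h hk]
      simp
  refine ⟨hA, ?_, ?_⟩
  · intro φ x
    rw [rcn_op]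
    simp only [hA]
    symm
    refine Finset.sum_subset rcn_ann_sub fun k _ hk => ?_
    rw [rcn_blk h hk]
    simp
  · intro b
    have key := rcn_bessel (ann s) (fun k (y : PG s) => chi k (pgp y))
      ((2:ℝ)^(∑ j, (s j + 3))) (by positivity) (by
        intro k hk k' hk'
        simp only [rcn_chi_conj]
        rw [rcn_orth (rcn_ann_lt hk) (rcn_ann_lt hk')]
        push_cast
        rfl) b
    refine le_trans (le_of_eq ?_) key
    refine Finset.sum_congr rfl fun k hk => ?_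
    unfold rco
    rw [if_pos hk]
    simp only [rcn_chi_conj]
    push_cast
    rfl

end SmSm
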