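import Pool.Agent.H636R2.SM.SpecH
open MeasureTheory Real ProbabilityTheory
open scoped ENNReal BigOperators

namespace SmSm
open HypVol MWidth

/-- one dimensional sum -/
theorem sums_one (r : ℝ) (hr : 0 < r) (l : ℕ) (hl : r < l) : ∃ C : ℝ, 0 < C ∧ ∀ (a : ℝ) (N : ℕ),
    0 ≤ a → ∑ s ∈ Finset.range N, (2:ℝ)^(-(r * (s:ℝ))) * (min 2 ((2:ℝ)^s * a))^l ≤ C * a^r := by
  have hl1 : l ≠ 0 := by
    rintro rfl; simp at hl; linarith
  set α : ℝ := (l:ℝ) - r with hα
  have hα0 : 0 < α := by rw [hα]; linarith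
  have h2α : (2:ℝ)^(-α) < 1 := Real.rpow_lt_one_of_one_lt_of_neg (by norm_num) (by linarith)
  have h2r : (2:ℝ)^(-r) < 1 := Real.rpow_lt_one_of_one_lt_of_neg (by norm_num) (by linarith)
  have hA : 0 < (1 - (2:ℝ)^(-α))⁻¹ := inv_pos.mpr (by linarith)
  have hB : 0 < (2:ℝ)^l * (1 - (2:ℝ)^(-r))⁻¹ := mul_pos (by positivity) (inv_pos.mpr (by linarith))
  set A : ℝ := (1 - (2:ℝ)^(-α))⁻¹ with hAd
  set B : ℝ := (2:ℝ)^l * (1 - (2:ℝ)^(-r))⁻¹ with hBd
  refine ⟨A * 2^α + B * 2^(-r), by positivity, fun a N ha => ?_⟩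
  rcases ha.eq_or_lt with h0 | h0
  · rw [← h0]
    have : ∀ s ∈ Finset.range N, (2:ℝ)^(-(r * (s:ℝ))) * (min 2 ((2:ℝ)^s * 0))^l = 0 := by
      intro s _
      rw [mul_zero, min_eq_right (by norm_num : (0:ℝ) ≤ 2), zero_pow hl1, mul_zero]
    rw [Finset.sum_eq_zero this, Real.zero_rpow hr.ne', mul_zero]
  · set G : ℕ → ℝ := fun s => (min ((2:ℝ)^s * a / 2) 2)^α with hG
    set H : ℕ → ℝ := fun s => (max ((2:ℝ)^s * a) 2)^(-r) with hH
    have hx : ∀ s : ℕ, 0 < (2:ℝ)^s * a := fun s => by positivity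
    have hG1 : ∀ s, G s ≤ G (s+1) := by
      intro s
      simp only [hG]
      apply Real.rpow_le_rpow (le_min (by have := hx s; linarith) (by norm_num)) _ hα0.le
      apply min_le_min_right
      rw [pow_succ]; have := hx s; nlinarith
    have hH1 : ∀ s, H (s+1) ≤ H s := by
      intro s
      simp only [hH]
      apply Real.rpow_le_rpow_of_nonpos (lt_max_of_lt_right (by norm_num)) _ (by linarith)
      apply max_le_max_right
      rw [pow_succ]; have := hx s; nlinarith
    have h2s : ∀ s : ℕ, (2:ℝ)^(-(r * (s:ℝ))) = a^r * ((2:ℝ)^s * a)^(-r) := by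
      intro s
      rw [Real.mul_rpow (by positivity) h0.le, ← Real.rpow_natCast 2 s, ← Real.rpow_mul (by norm_num),
        mul_left_comm, ← Real.rpow_add h0, add_neg_cancel, Real.rpow_zero, mul_one]
      congr 1; ring
    have key : ∀ s ∈ Finset.range N, (2:ℝ)^(-(r * (s:ℝ))) * (min 2 ((2:ℝ)^s * a))^l ≤
        a^r * (A * (G (s+1) - G s) + B * (H s - H (s+1))) := by
      intro s _
      have hxs := hx s
      rw [h2s, mul_assoc]
      apply mul_le_mul_of_nonneg_left _ (Real.rpow_nonneg h0.le _)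
      rcases le_total ((2:ℝ)^s * a) 2 with h | h
      · have e1 : G (s+1) = ((2:ℝ)^s * a)^α := by
          simp only [hG]
          rw [show (2:ℝ)^(s+1) * a / 2 = (2:ℝ)^s * a by rw [pow_succ]; ring, min_eq_left h]
        have e2 : G s = ((2:ℝ)^s * a)^α * (2:ℝ)^(-α) := by
          simp only [hG]
          rw [min_eq_left (by linarith), div_eq_mul_inv, Real.mul_rpow hxs.le (by norm_num),
            Real.inv_rpow (by norm_num), Real.rpow_neg (by norm_num)]
        have e3 : A * (G (s+1) - G s) = ((2:ℝ)^s * a)^α := by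
          rw [e1, e2, hAd]
          have : (1 - (2:ℝ)^(-α)) ≠ 0 := by linarith
          field_simp
        rw [e3, min_eq_right h, ← Real.rpow_natCast _ l, ← Real.rpow_add hxs]
        have e4 : 0 ≤ B * (H s - H (s+1)) := mul_nonneg hB.le (by linarith [hH1 s])
        have e5 : -r + (l:ℝ) = α := by rw [hα]; ring
        rw [e5]; linarith
      · have e1 : H s = ((2:ℝ)^s * a)^(-r) := by
          simp only [hH]; rw [max_eq_left h]
        have e2 : H (s+1) = ((2:ℝ)^s * a)^(-r) * (2:ℝ)^(-r) := by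
          simp only [hH]
          rw [show (2:ℝ)^(s+1) * a = ((2:ℝ)^s * a) * 2 by rw [pow_succ]; ring,
            max_eq_left (by linarith), Real.mul_rpow hxs.le (by norm_num)]
        have e3 : B * (H s - H (s+1)) = ((2:ℝ)^s * a)^(-r) * 2^l := by
          rw [e1, e2, hBd]
          have : (1 - (2:ℝ)^(-r)) ≠ 0 := by linarith
          field_simp
        rw [e3, min_eq_left h]
        have e4 : 0 ≤ A * (G (s+1) - G s) := mul_nonneg hA.le (by linarith [hG1 s])
        linarith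
    refine (Finset.sum_le_sum key).trans ?_
    rw [← Finset.mul_sum, Finset.sum_add_distrib, ← Finset.mul_sum, ← Finset.mul_sum,
      Finset.sum_range_sub, Finset.sum_range_sub', mul_comm (A * 2^α + B * 2^(-r)) (a^r)]
    apply mul_le_mul_of_nonneg_left _ (Real.rpow_nonneg h0.le _)
    have f1 : G N ≤ 2^α := by
      simp only [hG]
      exact Real.rpow_le_rpow (le_min (by have := hx N; linarith) (by norm_num)) (min_le_right _ _) hα0.le
    have f2 : 0 ≤ G 0 := Real.rpow_nonneg (le_min (by have := hx 0; linarith) (by norm_num)) _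
    have f3 : H 0 ≤ 2^(-r) := by
      simp only [hH]
      exact Real.rpow_le_rpow_of_nonpos (by norm_num) (le_max_right _ _) (by linarith)
    have f4 : 0 ≤ H N := Real.rpow_nonneg (le_max_of_le_right (by norm_num)) _
    have g1 : A * (G N - G 0) ≤ A * 2^α := mul_le_mul_of_nonneg_left (by linarith) hA.le
    have g2 : B * (H 0 - H N) ≤ B * 2^(-r) := mul_le_mul_of_nonneg_left (by linarith) hB.le
    linarith

theorem sums_geo (r : ℝ) (hr : 0 < r) : ∃ C : ℝ, 0 < C ∧ ∀ N : ℕ,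
    ∑ s ∈ Finset.range N, (2:ℝ)^(-(r * (s:ℝ))) ≤ C := by
  have h2r : (2:ℝ)^(-r) < 1 := Real.rpow_lt_one_of_one_lt_of_neg (by norm_num) (by linarith)
  have h2r0 : 0 < (2:ℝ)^(-r) := by positivity
  have hs := summable_geometric_of_lt_one h2r0.le h2r
  have e : ∀ s : ℕ, (2:ℝ)^(-(r * (s:ℝ))) = ((2:ℝ)^(-r))^s := by
    intro s
    rw [← Real.rpow_natCast, ← Real.rpow_mul (by norm_num)]
    congr 1; ring
  refine ⟨(1 - (2:ℝ)^(-r))⁻¹, inv_pos.mpr (by linarith), fun N => ?_⟩
  simp only [e]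
  rw [← tsum_geometric_of_lt_one h2r0.le h2r]
  exact hs.sum_le_tsum _ (fun i _ => by positivity)

/-- SUMS -/
theorem sums : S_SUMS := by
  intro d r hr
  obtain ⟨C1, hC1, h1⟩ := sums_one r hr (⌊r⌋₊ + 1) (by push_cast; exact Nat.lt_floor_add_one r)
  obtain ⟨C0, hC0, h0⟩ := sums_geo r hr
  set C : ℝ := max C0 C1 with hC
  have hCp : 0 < C := lt_max_of_lt_left hC0
  refine ⟨C^d, by positivity, fun S e t => ?_⟩
  classical
  set b : Fin d → ℕ → ℝ := fun j i => (2:ℝ)^(-(r * (i:ℝ))) *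
    (if j ∈ e then (min 2 ((2:ℝ)^i * |t j|))^(⌊r⌋₊ + 1) else 1) with hb
  have hb0 : ∀ j i, 0 ≤ b j i := by
    intro j i
    simp only [hb]
    split_ifs <;> positivity
  have e1 : ∀ s : Fin d → ℕ, (2:ℝ)^(-(r * ∑ j, (s j : ℝ))) *
      ∏ j ∈ e, (min 2 ((2:ℝ)^(s j) * |t j|))^(⌊r⌋₊ + 1) = ∏ j, b j (s j) := by
    intro s
    simp only [hb]
    rw [Finset.prod_mul_distrib]
    congr 1
    · rw [← Real.rpow_sum_of_pos (by norm_num : (0:ℝ) < 2)]
      congr 1
      rw [Finset.mul_sum, Finset.sum_neg_distrib]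
    · rw [Finset.prod_ite_mem, Finset.univ_inter]
  simp only [e1]
  -- the box
  obtain ⟨N, hN⟩ : ∃ N : ℕ, ∀ s ∈ S, ∀ j, s j < N := by
    refine ⟨(S.sup fun s => ∑ j, s j) + 1, fun s hs j => ?_⟩
    have h1 : ∑ j, s j ≤ S.sup fun s => ∑ j, s j := Finset.le_sup (f := fun s => ∑ j, s j) hs
    have h2 : s j ≤ ∑ j, s j := Finset.single_le_sum (fun i _ => Nat.zero_le _) (Finset.mem_univ j)
    omega
  have hsub : S ⊆ Fintype.piFinset (fun _ : Fin d => Finset.range N) := by
    intro s hs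
    rw [Fintype.mem_piFinset]
    exact fun j => Finset.mem_range.mpr (hN s hs j)
  calc ∑ s ∈ S, ∏ j, b j (s j)
      ≤ ∑ s ∈ Fintype.piFinset (fun _ : Fin d => Finset.range N), ∏ j, b j (s j) :=
        Finset.sum_le_sum_of_subset_of_nonneg hsub
          (fun s _ _ => Finset.prod_nonneg fun j _ => hb0 j _)
    _ = ∏ j, ∑ i ∈ Finset.range N, b j i := by rw [Finset.prod_univ_sum]
    _ ≤ ∏ j, (C * (if j ∈ e then |t j|^r else 1)) := by
        apply Finset.prod_le_prod (fun j _ => Finset.sum_nonneg fun i _ => hb0 j i)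
        intro j _
        simp only [hb]
        split_ifs with hj
        · refine (h1 |t j| N (abs_nonneg _)).trans ?_
          exact mul_le_mul_of_nonneg_right (le_max_right _ _) (Real.rpow_nonneg (abs_nonneg _) _)
        · simp only [mul_one]
          exact (h0 N).trans (le_max_left _ _)
    _ = C^d * ∏ j ∈ e, |t j|^r := by
        rw [Finset.prod_mul_distrib, Finset.prod_const, Finset.card_univ, Fintype.card_fin,
          Finset.prod_ite_mem, Finset.univ_inter]

end SmSm
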