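import Pool.Agent.H636R2.SM.SpecH
import Pool.Agent.H636R2.SM.SYN
open MeasureTheory Real ProbabilityTheory
open scoped ENNReal BigOperators

namespace SmSm
open HypVol MWidth

theorem synh_wbl_ne {d : ℕ} {s : Fin d → ℕ} {k : Fin d → ℤ} (h : wbl 0 s ∅ k ≠ 0) (j : Fin d) :
    wv (s j) (k j) ≠ 0 := by
  unfold wbl at h
  have h1 := Finset.prod_ne_zero_iff.1 h j (Finset.mem_univ j)
  exact right_ne_zero_of_mul h1

theorem synh_wop_cont {d : ℕ} (l : ℕ) (s : Fin d → ℕ) (e : Finset (Fin d)) (φ : (Fin d → ℝ) → ℂ) :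
    Continuous (wop l s e φ) := by
  unfold wop
  refine continuous_finsetSum _ fun k _ => ?_
  exact continuous_const.mul (syn_chi_cont k)

theorem synh_fc_wop {d : ℕ} (h2 : S_WBF) (s : Fin d → ℕ) (φ : (Fin d → ℝ) → ℂ) (k : Fin d → ℤ) :
    ∫ x, wop 0 s ∅ φ x * Sol_KX_wf_split.wchr (-k) x ∂(TP d) = (wbl 0 s ∅ k : ℂ) * fc φ k := by
  have := TP_prob d
  unfold wop
  simp only [Finset.sum_mul, mul_assoc]
  have hb : ∀ m : Fin d → ℤ, Integrable (fun x => chi m x * Sol_KX_wf_split.wchr (-k) x) (TP d) := by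
    intro m
    refine Integrable.of_bound
      ((syn_chi_cont m).mul (Sol_KX_wf_split.wchr_cont (-k))).aestronglyMeasurable 1
      (Filter.Eventually.of_forall fun x => ?_)
    rw [norm_mul, syn_chi, Sol_KX_wf_split.wchr_norm, Sol_KX_wf_split.wchr_norm, mul_one]
  rw [integral_finsetSum]
  · have e : ∀ m ∈ boxw s, ∫ x, (wbl 0 s ∅ m : ℂ) * (fc φ m * (chi m x *
        Sol_KX_wf_split.wchr (-k) x)) ∂(TP d) = if m = k then (wbl 0 s ∅ m : ℂ) * fc φ m
          else 0 := by
      intro m _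
      rw [integral_const_mul, integral_const_mul, syn_fc_chi]
      split_ifs <;> simp
    rw [Finset.sum_congr rfl e]
    rw [Finset.sum_ite_eq' (boxw s) k (fun m => (wbl 0 s ∅ m : ℂ) * fc φ m)]
    split_ifs with hk
    · rfl
    · have : wbl 0 s ∅ k = 0 := by
        by_contra hne
        apply hk
        unfold boxw
        rw [Fintype.mem_piFinset]
        intro j
        rw [Finset.mem_Ioo, ← abs_lt]
        have h4 := h2.2.2.2 (s j) (k j) (synh_wbl_ne hne j)
        have h5 : (k j).natAbs < 2^(s j + 2) := Nat.size_le.mp h4.2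
        rw [Int.abs_eq_natAbs]
        exact_mod_cast h5
      rw [this]
      simp
  · intro m _
    exact ((hb m).const_mul _).const_mul _

theorem synh (h1 : S_WB) (h2 : S_WBF) : S_SYNH := by
  intro d hd
  obtain ⟨C, hC, hB⟩ := h1 d 0
  refine ⟨C, hC, ?_⟩
  intro ψ τ hτ hψ hψτ hs
  have := TP_prob d
  have hg := syn_summable d hd τ hτ hs
  have hg' : Summable (fun s : Fin d → ℕ => C * τ (∑ j, s j)) := hg.mul_left C
  let T : (Fin d → ℕ) → (Fin d → ℝ) → ℂ := fun s => wop 0 s ∅ (ψ s)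
  have hT : ∀ s x, ‖T s x‖ ≤ C * τ (∑ j, s j) := fun s x =>
    hB s ∅ (ψ s) (τ (∑ j, s j)) (hτ _) (hψ _) (hψτ _) x
  have hTc : ∀ s, Continuous (T s) := fun s => synh_wop_cont 0 s ∅ _
  let u : (Fin d → ℝ) → ℂ := fun x => ∑' s, T s x
  have huc : Continuous u := continuous_tsum hTc hg' hT
  have hub : ∀ x, ‖u x‖ ≤ C * ∑' μ : ℕ, ((μ:ℝ)+1)^(d-1) * τ μ := by
    intro x
    refine (tsum_of_norm_bounded hg'.hasSum (fun s => hT s x)).trans ?_
    rw [tsum_mul_left]
    exact mul_le_mul_of_nonneg_left (syn_tsum d hd τ hτ hs) hC.le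
  refine ⟨u, MemLp.of_bound huc.aestronglyMeasurable _ (Filter.Eventually.of_forall hub), hub, ?_⟩
  intro k
  rw [Sol_KX_wf_split.wfc]
  have hn : ∀ s, ∫ x, ‖T s x * Sol_KX_wf_split.wchr (-k) x‖ ∂(TP d) ≤ C * τ (∑ j, s j) := by
    intro s
    have : ∀ x, ‖T s x * Sol_KX_wf_split.wchr (-k) x‖ ≤ C * τ (∑ j, s j) := by
      intro x
      rw [norm_mul, Sol_KX_wf_split.wchr_norm, mul_one]
      exact hT s x
    refine (integral_mono_of_nonneg (Filter.Eventually.of_forall fun x => norm_nonneg _)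
      (integrable_const (C * τ (∑ j, s j))) (Filter.Eventually.of_forall this)).trans ?_
    simp
  have hint : ∀ s, Integrable (fun x => T s x * Sol_KX_wf_split.wchr (-k) x) (TP d) := by
    intro s
    refine Integrable.of_bound
      ((hTc s).mul (Sol_KX_wf_split.wchr_cont (-k))).aestronglyMeasurable (C * τ (∑ j, s j))
      (Filter.Eventually.of_forall fun x => ?_)
    rw [norm_mul, Sol_KX_wf_split.wchr_norm, mul_one]
    exact hT s x
  have e1 : ∫ x, u x * Sol_KX_wf_split.wchr (-k) x ∂(TP d) =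
      ∫ x, ∑' s, T s x * Sol_KX_wf_split.wchr (-k) x ∂(TP d) := by
    congr 1
    funext x
    simp only [u]
    rw [tsum_mul_right]
  rw [e1, ← integral_tsum_of_summable_integral_norm hint
    (Summable.of_nonneg_of_le (fun s => integral_nonneg fun x => norm_nonneg _) hn hg')]
  simp only [T, synh_fc_wop h2]
  refine tsum_eq_sum fun s hsn => ?_
  have : wbl 0 s ∅ k = 0 := by
    by_contra hne
    apply hsn
    rw [Fintype.mem_piFinset]
    intro j
    rw [Finset.mem_range]
    have := (h2.2.2.2 (s j) (k j) (synh_wbl_ne hne j)).1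
    omega
  rw [this]
  simp

end SmSm
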