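import Pool.Agent.H636R2.SM.SpecH
open MeasureTheory Real ProbabilityTheory
open scoped ENNReal BigOperators

/-!
Classes `H^r_p`, `1 ≤ p ≤ 2`, `r > 1/p`: upper bound of the entropy numbers in `L_∞`
(MP_7fc85e_an), and the final statements for the classes `W^r_q` (small smoothness).
-/

namespace SmSm
open HypVol MWidth

/-! ## objects -/

/-- shapes of level `μ` -/
def lev (d μ : ℕ) : Finset (Fin d → ℕ) :=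
  (Fintype.piFinset (fun _ : Fin d => Finset.range (μ+1))).filter (fun s => ∑ j, s j = μ)

/-- frequencies of the annulus `s` -/
noncomputable def ann {d : ℕ} (s : Fin d → ℕ) : Finset (Fin d → ℤ) :=
  Fintype.piFinset (fun j => (Finset.Ioo (-(2:ℤ)^(s j + 1)) ((2:ℤ)^(s j + 1))).filter
    (fun k => s j ≤ Nat.size k.natAbs ∧ Nat.size k.natAbs ≤ s j + 1))

/-- frequencies of the level `μ` -/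
noncomputable def annl (d μ : ℕ) : Finset (Fin d → ℤ) := (lev d μ).biUnion ann

/-- grid of the block `s` -/
abbrev PG {d : ℕ} (s : Fin d → ℕ) := (j : Fin d) → Fin (2^(s j + 3))

noncomputable def pgp {d : ℕ} {s : Fin d → ℕ} (y : PG s) : Fin d → ℝ :=
  fun j => 2 * π * ((y j : ℕ) : ℝ) / 2^(s j + 3)

/-- coefficients of the interpolating polynomial (frequencies of the annulus only) -/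
noncomputable def rco {d : ℕ} (s : Fin d → ℕ) (b : PG s → ℂ) (k : Fin d → ℤ) : ℂ :=
  if k ∈ ann s then (∑ y, b y * chi (-k) (pgp y)) / (2:ℂ)^(∑ j, (s j + 3)) else 0

/-- kernel of de la Vallée Poussin, equal to `2 F_(2^(s+2)) - F_(2^(s+1))` with the Fejér kernels
`F_N(t) = ∑_(|k| < N) (1 - |k|/N) e^(ikt)` -/
noncomputable def vk (s : ℕ) (t : ℝ) : ℂ :=
  ∑ k ∈ Finset.Ioo (-(2:ℤ)^(s+2)) ((2:ℤ)^(s+2)), (vp (s+1) k : ℂ) * Complex.exp (Complex.I * ((k:ℝ) * t : ℝ))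

/-- sums of `L_p` bounded smooth blocks of level `μ` -/
def LV (d : ℕ) (p : ℝ) (μ : ℕ) : Set ((Fin d → ℝ) → ℂ) :=
  {u | ∃ φ : (Fin d → ℕ) → (Fin d → ℝ) → ℂ,
    (∀ s ∈ lev d μ, eLpNorm (op 0 0 s (φ s)) (ENNReal.ofReal p) (TP d) ≤ 1) ∧
    u = fun x => ∑ s ∈ lev d μ, op 0 0 s (φ s) x}

/-! ## tasks -/

/-- VK: the kernel is `L_1` bounded, also on the grid -/
def S_VK : Prop := ∀ s : ℕ, (∀ t, ‖vk s t‖ ≤ 2^(s+3)) ∧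
  (∀ t : ℝ, ∑ j : Fin (2^(s+3)), ‖vk s (2 * π * ((j:ℕ):ℝ) / 2^(s+3) - t)‖ ≤ 3 * 2^(s+3)) ∧
  (∀ t : ℝ, (2*π)⁻¹ * ∫ x in (0:ℝ)..(2*π), ‖vk s (t - x)‖ ≤ 3)

/-- HLD: Hölder's inequality for the reproducing kernel -/
def S_HLD : Prop := ∀ (d : ℕ) (p : ℝ), 1 ≤ p → ∀ (s : Fin d → ℕ) (φ : (Fin d → ℝ) → ℂ) (x : Fin d → ℝ),
  ‖op 0 0 s φ x‖^p ≤ ((3:ℝ)^d)^(p-1) * ∫ z, (∏ j, ‖vk (s j) (x j - z j)‖) * ‖op 0 0 s φ z‖^p ∂(TP d)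

/-- MZ: sums over the grid, and Nikol'skii's inequality -/
def S_MZ : Prop := ∀ (d : ℕ) (p : ℝ), 1 ≤ p → ∃ C : ℝ, 0 < C ∧ ∀ (s : Fin d → ℕ) (φ : (Fin d → ℝ) → ℂ)
  (t : ℝ), 0 ≤ t → eLpNorm (op 0 0 s φ) (ENNReal.ofReal p) (TP d) ≤ ENNReal.ofReal t →
    ∑ y : PG s, ‖op 0 0 s φ (pgp y)‖^p ≤ (C * t)^p * 2^(∑ j, (s j + 3)) ∧
    ∀ x, ‖op 0 0 s φ x‖ ≤ C * (2:ℝ)^((∑ j, (s j : ℝ)) / p) * t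

/-- RCN: interpolation on the grid -/
def S_RCN : Prop := ∀ (d : ℕ) (s : Fin d → ℕ),
  (∀ (φ : (Fin d → ℝ) → ℂ) (k : Fin d → ℤ), rco s (fun y => op 0 0 s φ (pgp y)) k = (blk s k : ℂ) * fc φ k) ∧
  (∀ (φ : (Fin d → ℝ) → ℂ) (x : Fin d → ℝ),
    op 0 0 s φ x = ∑ k ∈ ann s, rco s (fun y => op 0 0 s φ (pgp y)) k * chi k x) ∧
  (∀ b : PG s → ℂ, ∑ k ∈ ann s, ‖rco s b k‖^2 ≤ (∑ y, ‖b y‖^2) / 2^(∑ j, (s j + 3)))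

/-- CNT: a net of the ball of `ℓ_p` in `ℓ_2` (rounding) -/
def S_CNT : Prop := ∃ C : ℝ, 0 < C ∧ ∀ (p : ℝ), 1 ≤ p → p ≤ 2 → ∀ (Y : Type) [Fintype Y] (lam : ℝ), 1 ≤ lam →
  ∃ S : Finset (Y → ℂ), (S.card : ℝ) ≤ Real.exp (C * (Fintype.card Y) * (1 + Real.log lam) / lam) ∧
    ∀ b : Y → ℂ, ∑ y, ‖b y‖^p ≤ Fintype.card Y →
      ∃ c ∈ S, ∑ y, ‖b y - c y‖^2 ≤ C * (Fintype.card Y) * lam^(2/p - 1)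

/-- ANN: counting -/
def S_ANN : Prop := ∀ d : ℕ, 1 ≤ d → ∀ μ : ℕ,
  ((lev d μ).card : ℝ) ≤ ((μ:ℝ)+1)^(d-1) ∧
  ((annl d μ).card : ℝ) ≤ 8^d * 2^μ * ((μ:ℝ)+1)^(d-1) ∧
  (∀ k : Fin d → ℤ, ((lev d μ).filter (fun s => k ∈ ann s)).card ≤ 2^d) ∧
  (∀ k ∈ annl d μ, ∀ j, |k j| < (2:ℤ)^(μ+1))

/-- LEV: nets of the level sets, large error -/
def S_LEV : Prop := ∀ (d : ℕ), 1 ≤ d → ∀ (p : ℝ), 1 ≤ p → p ≤ 2 → ∃ C : ℝ, 0 < C ∧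
  ∀ (μ : ℕ) (lam : ℝ), 1 ≤ lam → ∃ S : Finset ((annl d μ) × Fin 2 → ℝ),
    (S.card : ℝ) ≤ Real.exp (C * (2^μ * ((μ:ℝ)+1)^(d-1) * (1 + Real.log lam) / lam + 1)) ∧
    ∀ u ∈ LV d p μ, ∃ a ∈ S, ∀ x, ‖u x - gp (annl d μ) a x‖ ≤ C * ((μ:ℝ)+1)^((d:ℝ)/2) * lam^(1/p)

/-- LEVF: nets of the level sets, small error -/
def S_LEVF : Prop := ∀ (d : ℕ), 1 ≤ d → ∀ (p : ℝ), 1 ≤ p → p ≤ 2 → ∃ C : ℝ, 0 < C ∧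
  ∀ (μ : ℕ) (η : ℝ), 0 < η → η ≤ 1 → ∃ S : Finset ((annl d μ) × Fin 2 → ℝ),
    (S.card : ℝ) ≤ Real.exp (C * (2^μ * ((μ:ℝ)+1)^(d-1) * (1 + Real.log (1/η)))) ∧
    ∀ u ∈ LV d p μ, ∃ a ∈ S, ∀ x, ‖u x - gp (annl d μ) a x‖ ≤ C * ((μ:ℝ)+1)^((d:ℝ)/2) * η

/-- LSUP: sup norm on the level sets -/
def S_LSUP : Prop := ∀ (d : ℕ), 1 ≤ d → ∀ (p : ℝ), 1 ≤ p → ∃ C : ℝ, 0 < C ∧ ∀ μ : ℕ, ∀ u ∈ LV d p μ,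
  Continuous u ∧ ∀ x, ‖u x‖ ≤ C * ((μ:ℝ)+1)^(d-1) * (2:ℝ)^((μ:ℝ)/p)

/-- HDEC: decomposition of the functions of the class `H^r_p` -/
def S_HDEC : Prop := ∀ (d : ℕ), 1 ≤ d → ∀ (p r : ℝ), 1 ≤ p → 1/p < r → ∃ C : ℝ, 0 < C ∧
  ∀ f ∈ HypVolE.HH d r (ENNReal.ofReal p), ∃ v : ℕ → (Fin d → ℝ) → ℂ, (∀ μ, v μ ∈ LV d p μ) ∧
    ∀ᵐ x ∂(TP d), HasSum (fun μ : ℕ => ((C * (2:ℝ)^(-(r * μ)) : ℝ) : ℂ) * v μ x) (f x)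

/-- the order -/
noncomputable def psiP (d : ℕ) (r : ℝ) (k : ℕ) : ℝ :=
  (k:ℝ)^(-r) * (Real.log k)^(((d:ℝ)-1) * r + (d:ℝ)/2)

/-- NUMP -/
def S_NUMP : Prop := ∀ (d : ℕ), 1 ≤ d → ∀ (p r C0 : ℝ), 1 ≤ p → 1/p < r → 0 < C0 → ∃ C : ℝ, 0 < C ∧
  Summable (fun n : ℕ => (2:ℝ)^(-(r * n)) * ((n:ℝ)+1)^(d-1) * (2:ℝ)^((n:ℝ)/p)) ∧
  ∀ k : ℕ, 2 ≤ k → ∃ (n0 n1 : ℕ) (lam η : ℕ → ℝ), n0 ≤ n1 ∧ (∀ n, 1 ≤ lam n) ∧ (∀ n, 0 < η n ∧ η n ≤ 1) ∧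
    (∑ n ∈ Finset.range n0, C0 * (2^n * ((n:ℝ)+1)^(d-1) * (1 + Real.log (1 / η n)))) +
      (∑ n ∈ Finset.Ico n0 n1, C0 * (2^n * ((n:ℝ)+1)^(d-1) * (1 + Real.log (lam n)) / lam n + 1))
        ≤ k * Real.log 2 ∧
    (∑ n ∈ Finset.range n0, (2:ℝ)^(-(r * n)) * ((n:ℝ)+1)^((d:ℝ)/2) * η n) +
      (∑ n ∈ Finset.Ico n0 n1, (2:ℝ)^(-(r * n)) * ((n:ℝ)+1)^((d:ℝ)/2) * (lam n)^(1/p)) +
      (∑' n : ℕ, (2:ℝ)^(-(r * ((n + n1 : ℕ) : ℝ))) * (((n + n1 : ℕ) : ℝ)+1)^(d-1) *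
        (2:ℝ)^(((n + n1 : ℕ) : ℝ)/p)) ≤ C * psiP d r k

/-- FINP: upper bound of the entropy numbers of `H^r_p`, `1 ≤ p ≤ 2`, `r > 1/p` -/
def S_FINP : Prop := ∀ (d : ℕ), 1 ≤ d → ∀ (p r : ℝ), 1 ≤ p → p ≤ 2 → 1/p < r → ∃ C : ℝ, 0 < C ∧
  ∀ k : ℕ, 2 ≤ k → Cov ⊤ k (ENNReal.ofReal (C * psiP d r k)) (HypVolE.HH d r (ENNReal.ofReal p))

/-! ## final statements -/

/-- FINALW: exact order of the entropy numbers of `W^r_q`, small smoothness -/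
def S_FINALW : Prop := ∀ (𝕜 : Type) [RCLike 𝕜] (d : ℕ), 3 ≤ d → ∀ (α : Fin d → ℝ) (q : ℝ≥0∞), 2 < q →
  (∀ r : ℝ, 1 / q < ENNReal.ofReal r → 0 < r → r < 1/2 → ∃ c C : ℝ, 0 < c ∧ 0 < C ∧ ∀ k : ℕ, 2 ≤ k →
    ENNReal.ofReal (c * psiA d r k) ≤ entNum ⊤ k (ML 𝕜 d r q α) ∧
    entNum ⊤ k (ML 𝕜 d r q α) ≤ ENNReal.ofReal (C * psiA d r k)) ∧
  (∃ c C : ℝ, 0 < c ∧ 0 < C ∧ ∀ k : ℕ, 2 ≤ k →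
    ENNReal.ofReal (c * psiB d k) ≤ entNum ⊤ k (ML 𝕜 d (1/2) q α) ∧
    entNum ⊤ k (ML 𝕜 d (1/2) q α) ≤ ENNReal.ofReal (C * psiB d k))

/-- mixed difference, values in `𝕜` -/
noncomputable def mdK {𝕜 : Type} [RCLike 𝕜] {d : ℕ} (l : ℕ) (e : Finset (Fin d)) (t : Fin d → ℝ)
    (f : (Fin d → ℝ) → 𝕜) : (Fin d → ℝ) → 𝕜 := fun x =>
  ∑ ν ∈ Fintype.piFinset (fun j : Fin d => if j ∈ e then Finset.range (l + 1) else {0}),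
    (∏ j ∈ e, ((-1 : 𝕜)^(l - ν j) * ((l.choose (ν j) : ℕ) : 𝕜))) * f (fun j => x j + (ν j : ℝ) * t j)

/-- the class `H^r_p`, values in `𝕜` -/
def HK (𝕜 : Type) [RCLike 𝕜] (d : ℕ) (r : ℝ) (p : ℝ≥0∞) : Set ((Fin d → ℝ) → 𝕜) :=
  {f | (∀ (x : Fin d → ℝ) (j : Fin d), f (Function.update x j (x j + 2 * π)) = f x) ∧
    AEStronglyMeasurable f volume ∧ eLpNorm f p (TP d) ≤ 1 ∧
    ∀ e : Finset (Fin d), e.Nonempty → ∀ t : Fin d → ℝ,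
      eLpNorm (mdK (⌊r⌋₊ + 1) e t f) p (TP d) ≤ ENNReal.ofReal (∏ j ∈ e, |t j|^r)}

/-- HREAL: comparison of the real and the complex classes -/
def S_HREAL : Prop := ∀ (𝕜 : Type) [RCLike 𝕜] (d : ℕ) (r : ℝ) (p : ℝ≥0∞), 0 < r → ∀ k : ℕ,
  entNum ⊤ k (HK 𝕜 d r p) ≤ entNum ⊤ k (HypVolE.HH d r p) ∧
  entNum ⊤ (2 * k) (HypVolE.HH d r p) ≤ 2 * entNum ⊤ k (HK 𝕜 d r p)

/-- `e k ≍ ψ k` -/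
def SameOrd (e : ℕ → ℝ≥0∞) (ψ : ℕ → ℝ) : Prop := ∃ c C : ℝ, 0 < c ∧ 0 < C ∧ ∀ k : ℕ, 2 ≤ k →
  ENNReal.ofReal (c * ψ k) ≤ e k ∧ e k ≤ ENNReal.ofReal (C * ψ k)

/-- HFIN: exact order of the entropy numbers of `H^r_p`, large smoothness (`HypVolE.H_upper`,
`H_lower`, `H_lower_inf`, `HH_mono`, and FINP for `p < 2`) -/
def S_HFIN : Prop := ∀ (d : ℕ), 3 ≤ d → ∀ (p : ℝ≥0∞) (r : ℝ), 1 ≤ p → 1 / p < ENNReal.ofReal r → 1/2 < r →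
  SameOrd (fun k => entNum ⊤ k (HypVolE.HH d r p)) (psiP d r)

/-- HK0: transfer of an exact order to the class with values in `𝕜` -/
def S_HK0 : Prop := ∀ (𝕜 : Type) [RCLike 𝕜] (d : ℕ) (r : ℝ) (p : ℝ≥0∞) (ψ : ℕ → ℝ), 0 < r →
  (∃ c : ℝ, 0 < c ∧ ∀ k : ℕ, 2 ≤ k → 0 < ψ k ∧ c * ψ k ≤ ψ (2 * k)) →
  SameOrd (fun k => entNum ⊤ k (HypVolE.HH d r p)) ψ → SameOrd (fun k => entNum ⊤ k (HK 𝕜 d r p)) ψ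

end SmSm
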