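import Pool.Agent.H636R2.SM.SpecH
import Pool.Agent.H636R2.SM.UPB
open MeasureTheory Real ProbabilityTheory
open scoped ENNReal BigOperators

/-! Task UPHB: upper bound of the widths of `H^(1/2)_q` -/

namespace SmSm
open HypVol MWidth

namespace UPHBx
open UPBx HypVol.Sol_KX_width_up2 HypVol.Sol_KX_wf_split

/-- weight of a frequency -/
noncomputable def wgh (d : ℕ) (k : Fin d → ℤ) : ℝ :=
  (2:ℝ)^(-((wN k : ℝ)/2)) * ((wN k : ℝ) + 1)^(((d:ℝ)-1)/2)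

theorem wgh_pos {d : ℕ} (k : Fin d → ℤ) : 0 < wgh d k := by
  unfold wgh
  positivity

theorem half_sq (d : ℕ) (hd : 1 ≤ d) (n : ℕ) :
    ((((n:ℝ) + 1)^(((d:ℝ)-1)/2) : ℝ))^2 = ((n:ℝ) + 1)^(d-1) := by
  rw [← Real.rpow_natCast, ← Real.rpow_mul (by positivity), ← Real.rpow_natCast]
  congr 1
  push_cast [hd]
  ring

theorem wgh_sq {d : ℕ} (hd : 1 ≤ d) (k : Fin d → ℤ) :
    (wgh d k)^2 = (2:ℝ)^(-(wN k : ℝ)) * ((wN k : ℝ) + 1)^(d-1) := by
  unfold wgh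
  rw [mul_pow, half_sq d hd]
  congr 1
  rw [← Real.rpow_natCast, ← Real.rpow_mul (by norm_num)]
  congr 1
  push_cast
  ring

theorem wgh_inv_sq {d : ℕ} (hd : 1 ≤ d) (k : Fin d → ℤ) :
    ((wgh d k)⁻¹)^2 = (2:ℝ)^(wN k : ℝ) * (((wN k : ℝ) + 1)^(d-1))⁻¹ := by
  rw [inv_pow, wgh_sq hd, Real.rpow_neg (by norm_num), mul_inv, inv_inv]

theorem sq_eqH {d : ℕ} (hd : 1 ≤ d) (A : ∀ n : ℕ, (layer d n) × Fin 2 → ℝ) (n0 n1 : ℕ) :
    ∑ i : (Lam d n0 n1) × Fin 2, ((wgh d i.1.1)⁻¹ * tot A i.1.1 i.2)^2 =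
      ∑ n ∈ Finset.Ico n0 n1, (2:ℝ)^(n:ℝ) * (((n:ℝ) + 1)^(d-1))⁻¹ * ∑ i, A n i ^ 2 := by
  rw [Fintype.sum_prod_type]
  have h1 : ∀ k : Lam d n0 n1, ∑ e : Fin 2, ((wgh d k.1)⁻¹ * tot A k.1 e)^2 =
      (fun k : Fin d → ℤ => ∑ e : Fin 2, ((wgh d k)⁻¹ * tot A k e)^2) k.1 := fun _ => rfl
  rw [Finset.sum_congr rfl (fun k _ => h1 k),
    Finset.sum_coe_sort (Lam d n0 n1) (fun k : Fin d → ℤ => ∑ e : Fin 2, ((wgh d k)⁻¹ * tot A k e)^2),
    sum_Lam]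
  refine Finset.sum_congr rfl fun n _ => ?_
  rw [← Finset.sum_coe_sort (layer d n), Fintype.sum_prod_type, Finset.mul_sum]
  refine Finset.sum_congr rfl fun k _ => ?_
  rw [Finset.mul_sum]
  refine Finset.sum_congr rfl fun e _ => ?_
  rw [mul_pow, wgh_inv_sq hd, tot_eq, ← (wlayer_iff k.1).1 k.2]

theorem wsum_eqH {d : ℕ} (hd : 1 ≤ d) (n0 n1 : ℕ) : ∑ k ∈ Lam d n0 n1, (wgh d k)^2 =
    ∑ n ∈ Finset.Ico n0 n1, (2:ℝ)^(-(n:ℝ)) * ((n:ℝ) + 1)^(d-1) * (layer d n).card := by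
  rw [sum_Lam]
  refine Finset.sum_congr rfl fun n _ => ?_
  have : ∀ k ∈ layer d n, (wgh d k)^2 = (2:ℝ)^(-(n:ℝ)) * ((n:ℝ) + 1)^(d-1) := by
    intro k hk
    rw [wgh_sq hd, ← (wlayer_iff k).1 hk]
  rw [Finset.sum_congr rfl this, Finset.sum_const, nsmul_eq_mul, mul_comm]

end UPHBx

open UPBx UPHBx HypVol.Sol_KX_width_up2 HypVol.Sol_KX_wf_split in
theorem uphb (h1 : S_HSPLIT) (h2 : S_JOINT) (h3 : S_NUMUHB) : S_UPHB := by
  classical
  intro d hd q hq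
  have hd1 : 1 ≤ d := by omega
  have hq0 : 0 < q := by linarith
  have hqh : 1 / q < 1 / 2 := one_div_lt_one_div_of_lt (by norm_num) hq
  obtain ⟨C1, hC1, hsplit⟩ := h1 d (by omega) q (1/2) hq hqh
  obtain ⟨CJ, hCJ, hjoint⟩ := h2 d
  obtain ⟨C2, hC2, happ⟩ := layer_approx d
  obtain ⟨C3, hC3, hnum⟩ := h3 d hd q hq
  obtain ⟨D, hD⟩ : ∃ D : ℝ, D = C1 * CJ + C1 * C2 + 2 * C1 + C1 := ⟨_, rfl⟩
  have hDpos : 0 < D := by rw [hD]; positivity
  refine ⟨2 * D * C3, by positivity, fun m hm => ?_⟩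
  obtain ⟨n0, n1, μs, Ms, M, hn0, hn1, hMs, hM1, hdim, hsum, hbd⟩ := hnum m hm
  have hG : ∀ n : ℕ, ∃ G : Fin (M n) → ((layer d n) × Fin 2 → ℝ), ∀ a : (layer d n) × Fin 2 → ℝ,
      ∑ i, a i ^ 2 ≤ 1 → ∃ β : Fin (M n) → ℝ, ∀ x, ‖poly (fun i => a i - ∑ j, β j * G j i) x‖
        ≤ C2 * Real.sqrt (((n:ℝ)+1) * (layer d n).card / M n) := fun n => happ n (M n) (hM1 n)
  choose G hG using hG
  obtain ⟨H, hH⟩ := hjoint μs (Lam d n0 μs) (wgh d) Ms hMs Lam_bd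
  rw [wsum_eqH hd1] at hH
  obtain ⟨E2, hE2⟩ : ∃ E2 : ℝ, E2 = Real.sqrt (((μs:ℝ)+1) *
    (∑ n ∈ Finset.Ico n0 μs, (2:ℝ)^(-(n:ℝ)) * ((n:ℝ)+1)^(d-1) * (layer d n).card) / Ms) := ⟨_, rfl⟩
  rw [← hE2] at hH hbd
  have hE20 : 0 ≤ E2 := by rw [hE2]; positivity
  obtain ⟨EJ, hEJ⟩ : ∃ EJ : ℝ, EJ = Real.sqrt ((μs - n0 : ℕ) : ℝ) * E2 := ⟨_, rfl⟩
  rw [← hEJ] at hbd
  have hEJ0 : 0 ≤ EJ := by rw [hEJ]; positivity
  let S1 : Finset ((Fin d → ℝ) → ℂ) := (Finset.range n0).biUnion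
    (fun n => (Finset.univ : Finset ((layer d n) × Fin 2)).image (fun i => wT ℂ (Pi.single i 1)))
  let S2 : Finset ((Fin d → ℝ) → ℂ) := (Finset.Ico μs n1).biUnion
    (fun n => (Finset.univ : Finset (Fin (M n))).image (fun j => wT ℂ (G n j)))
  let S3 : Finset ((Fin d → ℝ) → ℂ) := (Finset.univ : Finset (Fin Ms)).image
    (fun j => gT ℂ (Lam d n0 μs) (H j))
  let U : Submodule ℂ ((Fin d → ℝ) → ℂ) :=
    Submodule.span ℂ (↑(S1 ∪ S3 ∪ S2) : Set ((Fin d → ℝ) → ℂ))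
  have hU1 : Module.Finite ℂ U := FiniteDimensional.span_finset ℂ (S1 ∪ S3 ∪ S2)
  have hU2 : Module.finrank ℂ U ≤ m := by
    refine (finrank_span_finset_le_card (S1 ∪ S3 ∪ S2)).trans ?_
    refine (Finset.card_union_le _ _).trans ?_
    refine le_trans (add_le_add ((Finset.card_union_le _ _).trans (add_le_add ?_ ?_)) ?_) hdim
    · refine Finset.card_biUnion_le.trans (Finset.sum_le_sum fun n _ => ?_)
      refine Finset.card_image_le.trans ?_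
      rw [Finset.card_univ, Fintype.card_prod, Fintype.card_coe, Fintype.card_fin, mul_comm]
    · refine Finset.card_image_le.trans ?_
      rw [Finset.card_univ, Fintype.card_fin]
    · refine Finset.card_biUnion_le.trans (Finset.sum_le_sum fun n _ => ?_)
      refine Finset.card_image_le.trans ?_
      rw [Finset.card_univ, Fintype.card_fin]
  have hU3 : ∀ u ∈ U, MemLp u ⊤ (TP d) := by
    intro u hu
    induction hu using Submodule.span_induction with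
    | mem u hu =>
      rw [Finset.mem_coe, Finset.mem_union, Finset.mem_union] at hu
      rcases hu with (hu | hu) | hu
      · obtain ⟨n, _, hu⟩ := Finset.mem_biUnion.mp hu
        obtain ⟨i, _, rfl⟩ := Finset.mem_image.mp hu
        exact wT_memLp ℂ _
      · obtain ⟨i, _, rfl⟩ := Finset.mem_image.mp hu
        exact gT_memLp ℂ _ _
      · obtain ⟨n, _, hu⟩ := Finset.mem_biUnion.mp hu
        obtain ⟨i, _, rfl⟩ := Finset.mem_image.mp hu
        exact wT_memLp ℂ _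
    | zero => exact MemLp.zero
    | add u v _ _ h1 h2 => exact h1.add h2
    | smul c u _ h => exact h.const_smul c
  have hmem1 : ∀ n ∈ Finset.range n0, ∀ a : (layer d n) × Fin 2 → ℝ, wT ℂ a ∈ U := by
    intro n hn a
    have ha : a = ∑ i, a i • (Pi.single i (1:ℝ) : (layer d n) × Fin 2 → ℝ) := by
      funext i
      simp [Finset.sum_apply, Pi.single_apply]
    rw [ha, map_sum]
    refine Submodule.sum_mem _ fun i _ => ?_
    rw [map_smul]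
    refine Submodule.smul_of_tower_mem _ _ ?_
    apply Submodule.subset_span
    rw [Finset.mem_coe, Finset.mem_union, Finset.mem_union]
    left; left
    exact Finset.mem_biUnion.mpr ⟨n, hn, Finset.mem_image.mpr ⟨i, Finset.mem_univ _, rfl⟩⟩
  have hmem2 : ∀ n ∈ Finset.Ico μs n1, ∀ j, wT ℂ (G n j) ∈ U := by
    intro n hn j
    apply Submodule.subset_span
    rw [Finset.mem_coe, Finset.mem_union]
    right
    exact Finset.mem_biUnion.mpr ⟨n, hn, Finset.mem_image.mpr ⟨j, Finset.mem_univ _, rfl⟩⟩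
  have hmem3 : ∀ j, gT ℂ (Lam d n0 μs) (H j) ∈ U := by
    intro j
    apply Submodule.subset_span
    rw [Finset.mem_coe, Finset.mem_union, Finset.mem_union]
    left; right
    exact Finset.mem_image.mpr ⟨j, Finset.mem_univ _, rfl⟩
  unfold kolW2
  refine (iInf₂_le U ⟨hU1, hU2, hU3⟩).trans ?_
  refine iSup₂_le fun f hf => ?_
  obtain ⟨A, g, hA, hAg, hfg⟩ := hsplit f hf μs
  -- decay of the layers
  obtain ⟨θ, hθ⟩ : ∃ θ : ℕ → ℝ, θ = fun n : ℕ => (2:ℝ)^(-((1/2:ℝ) * n)) * ((n:ℝ)+1)^(((d:ℝ)-1)/2) *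
    (2:ℝ)^(-((1/2 - 1/q) * ((n - μs : ℕ) : ℝ))) := ⟨_, rfl⟩
  have hθ0 : ∀ n, 0 < θ n := by
    intro n
    rw [hθ]
    positivity
  have hAθ : ∀ n, ∑ i, A n i ^ 2 ≤ (C1 * θ n)^2 := by
    intro n
    refine (hA n).trans (le_of_eq ?_)
    rw [hθ]
    ring
  -- the joint approximation
  have hjo : ∃ β : Fin Ms → ℝ, ∀ x, ‖∑ n ∈ Finset.Ico n0 μs, poly (A n) x -
      ∑ j, (β j : ℂ) * gp (Lam d n0 μs) (H j) x‖ ≤ C1 * (CJ * EJ) := by
    rcases Nat.eq_zero_or_pos (μs - n0) with hz | hz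
    · refine ⟨0, fun x => ?_⟩
      rw [Finset.Ico_eq_empty (by omega)]
      simp only [Finset.sum_empty, Pi.zero_apply, Complex.ofReal_zero, zero_mul,
        Finset.sum_const_zero, sub_zero, norm_zero]
      positivity
    obtain ⟨c, hc⟩ : ∃ c : ℝ, c = C1 * Real.sqrt ((μs - n0 : ℕ) : ℝ) := ⟨_, rfl⟩
    have hz' : (0:ℝ) < ((μs - n0 : ℕ) : ℝ) := by exact_mod_cast hz
    have hcpos : 0 < c := by
      rw [hc]
      exact mul_pos hC1 (Real.sqrt_pos.mpr hz')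
    have h5 : ∑ i : (Lam d n0 μs) × Fin 2, (c⁻¹ * ((wgh d i.1.1)⁻¹ * tot A i.1.1 i.2)) ^ 2 ≤ 1 := by
      have h6 : ∑ i : (Lam d n0 μs) × Fin 2, (c⁻¹ * ((wgh d i.1.1)⁻¹ * tot A i.1.1 i.2)) ^ 2 =
          (c⁻¹)^2 * ∑ i : (Lam d n0 μs) × Fin 2, ((wgh d i.1.1)⁻¹ * tot A i.1.1 i.2) ^ 2 := by
        rw [Finset.mul_sum]
        exact Finset.sum_congr rfl fun i _ => by ring
      rw [h6, sq_eqH hd1]
      have h7 : ∑ n ∈ Finset.Ico n0 μs, (2:ℝ)^(n:ℝ) * (((n:ℝ) + 1)^(d-1))⁻¹ * ∑ i, A n i ^ 2 ≤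
          c^2 := by
        have h7a : ∀ n ∈ Finset.Ico n0 μs,
            (2:ℝ)^(n:ℝ) * (((n:ℝ) + 1)^(d-1))⁻¹ * ∑ i, A n i ^ 2 ≤ C1^2 := by
          intro n hn
          have h10 := hA n
          have h11 : n - μs = 0 := by
            have := (Finset.mem_Ico.mp hn).2
            omega
          rw [h11] at h10
          calc (2:ℝ)^(n:ℝ) * (((n:ℝ) + 1)^(d-1))⁻¹ * ∑ i, A n i ^ 2
              ≤ (2:ℝ)^(n:ℝ) * (((n:ℝ) + 1)^(d-1))⁻¹ * (C1 * (2:ℝ)^(-((1/2:ℝ) * n)) *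
                ((n:ℝ)+1)^(((d:ℝ)-1)/2) * (2:ℝ)^(-((1/2 - 1/q) * ((0:ℕ):ℝ))))^2 := by gcongr
            _ = C1^2 * ((2:ℝ)^(n:ℝ) * ((2:ℝ)^(-((1/2:ℝ) * n)))^2) *
                ((((n:ℝ) + 1)^(d-1))⁻¹ * (((n:ℝ)+1)^(((d:ℝ)-1)/2))^2) := by
                simp only [Nat.cast_zero, mul_zero, neg_zero, Real.rpow_zero, mul_one]
                ring
            _ = C1^2 := by
                have g1 : (2:ℝ)^(n:ℝ) * ((2:ℝ)^(-((1/2:ℝ) * n)))^2 = 1 := by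
                  rw [← Real.rpow_natCast ((2:ℝ)^(-((1/2:ℝ) * n))) 2, ← Real.rpow_mul (by norm_num),
                    ← Real.rpow_add (by norm_num)]
                  have : (n:ℝ) + -((1/2:ℝ) * n) * ((2:ℕ):ℝ) = 0 := by
                    push_cast
                    ring
                  rw [this, Real.rpow_zero]
                have g2 : (((n:ℝ) + 1)^(d-1))⁻¹ * (((n:ℝ)+1)^(((d:ℝ)-1)/2))^2 = 1 := by
                  rw [half_sq d hd1]
                  exact inv_mul_cancel₀ (by positivity)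
                rw [g1, g2, mul_one, mul_one]
        calc ∑ n ∈ Finset.Ico n0 μs, (2:ℝ)^(n:ℝ) * (((n:ℝ) + 1)^(d-1))⁻¹ * ∑ i, A n i ^ 2
            ≤ ∑ n ∈ Finset.Ico n0 μs, C1^2 := Finset.sum_le_sum h7a
          _ = c^2 := by
            rw [Finset.sum_const, Nat.card_Ico, nsmul_eq_mul, hc, mul_pow, Real.sq_sqrt hz'.le]
            ring
      calc (c⁻¹)^2 * ∑ n ∈ Finset.Ico n0 μs, (2:ℝ)^(n:ℝ) * (((n:ℝ) + 1)^(d-1))⁻¹ * ∑ i, A n i ^ 2 ≤
            (c⁻¹)^2 * c^2 := by gcongr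
        _ = 1 := by field_simp
    obtain ⟨β, hβ⟩ := hH _ h5
    refine ⟨fun j => c * β j, fun x => ?_⟩
    have h8 : ∑ n ∈ Finset.Ico n0 μs, poly (A n) x -
        ∑ j, ((c * β j : ℝ) : ℂ) * gp (Lam d n0 μs) (H j) x =
        (c : ℂ) * gp (Lam d n0 μs) (fun i => wgh d i.1.1 *
          (c⁻¹ * ((wgh d i.1.1)⁻¹ * tot A i.1.1 i.2)) - ∑ j, β j * H j i) x := by
      have h9 : (fun i : (Lam d n0 μs) × Fin 2 => wgh d i.1.1 *
          (c⁻¹ * ((wgh d i.1.1)⁻¹ * tot A i.1.1 i.2)) - ∑ j, β j * H j i) =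
          c⁻¹ • (fun i : (Lam d n0 μs) × Fin 2 => tot A i.1.1 i.2) - ∑ j, β j • H j := by
        funext i
        simp only [Pi.sub_apply, Pi.smul_apply, Finset.sum_apply, smul_eq_mul]
        congr 1
        have := (wgh_pos i.1.1).ne'
        field_simp
      rw [h9, ← gPL_apply, map_sub, map_sum, map_smul, mul_sub, Finset.mul_sum,
        Complex.real_smul, gPL_apply, gp_eq]
      congr 1
      · rw [← mul_assoc, ← Complex.ofReal_mul, mul_inv_cancel₀ hcpos.ne', Complex.ofReal_one, one_mul]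
      · refine Finset.sum_congr rfl fun j _ => ?_
        rw [map_smul, Complex.real_smul, gPL_apply]
        push_cast
        ring
    rw [h8, norm_mul, Complex.norm_real, Real.norm_of_nonneg hcpos.le]
    calc c * ‖gp (Lam d n0 μs) (fun i => wgh d i.1.1 *
          (c⁻¹ * ((wgh d i.1.1)⁻¹ * tot A i.1.1 i.2)) - ∑ j, β j * H j i) x‖
        ≤ c * (CJ * E2) := mul_le_mul_of_nonneg_left (hβ x) hcpos.le
      _ = C1 * (CJ * EJ) := by rw [hc, hEJ]; ring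
  obtain ⟨βJ, hβJ⟩ := hjo
  -- the approximation in the middle layers
  have hmid : ∀ n : ℕ, ∃ β : Fin (M n) → ℝ, ∀ x, ‖poly (A n) x - ∑ j, (β j : ℂ) * poly (G n j) x‖
      ≤ C1 * θ n * (C2 * Real.sqrt (((n:ℝ)+1) * (layer d n).card / M n)) := by
    intro n
    obtain ⟨c, hc⟩ : ∃ c : ℝ, c = C1 * θ n := ⟨_, rfl⟩
    rw [← hc]
    have hcpos : 0 < c := by rw [hc]; exact mul_pos hC1 (hθ0 n)
    have h1 : ∑ i, (c⁻¹ * A n i) ^ 2 ≤ 1 := by
      have h2 : ∑ i, (c⁻¹ * A n i) ^ 2 = (c⁻¹)^2 * ∑ i, A n i ^ 2 := by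
        rw [Finset.mul_sum]
        exact Finset.sum_congr rfl fun i _ => by ring
      rw [h2]
      calc (c⁻¹)^2 * ∑ i, A n i ^ 2 ≤ (c⁻¹)^2 * c^2 := by
            gcongr
            rw [hc]
            exact hAθ n
        _ = 1 := by field_simp
    obtain ⟨β, hβ⟩ := hG n _ h1
    refine ⟨fun j => c * β j, fun x => ?_⟩
    have h3 : poly (A n) x - ∑ j, ((c * β j : ℝ) : ℂ) * poly (G n j) x
        = (c : ℂ) * poly (fun i => c⁻¹ * A n i - ∑ j, β j * G n j i) x := by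
      have h4 : (fun i => c⁻¹ * A n i - ∑ j, β j * G n j i) = c⁻¹ • A n - ∑ j, β j • G n j := by
        funext i
        simp [Finset.sum_apply]
      rw [h4, ← wPL_apply, ← wPL_apply, map_sub, map_sum, map_smul, mul_sub, Finset.mul_sum,
        Complex.real_smul]
      congr 1
      · rw [← mul_assoc, ← Complex.ofReal_mul, mul_inv_cancel₀ hcpos.ne', Complex.ofReal_one, one_mul]
      · refine Finset.sum_congr rfl fun j _ => ?_
        rw [map_smul, Complex.real_smul, wPL_apply]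
        push_cast
        ring
    rw [h3, norm_mul, Complex.norm_real, Real.norm_of_nonneg hcpos.le]
    gcongr
    exact hβ x
  choose β hβ using hmid
  let u : (Fin d → ℝ) → ℂ := ∑ n ∈ Finset.range n0, wT ℂ (A n) +
    ∑ j, βJ j • gT ℂ (Lam d n0 μs) (H j) +
    ∑ n ∈ Finset.Ico μs n1, ∑ j, β n j • wT ℂ (G n j)
  have huU : u ∈ U := by
    refine Submodule.add_mem _ (Submodule.add_mem _
      (Submodule.sum_mem _ fun n hn => hmem1 n hn _) ?_) ?_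
    · exact Submodule.sum_mem _ fun j _ => Submodule.smul_of_tower_mem _ _ (hmem3 j)
    · refine Submodule.sum_mem _ fun n hn => Submodule.sum_mem _ fun j _ => ?_
      exact Submodule.smul_of_tower_mem _ _ (hmem2 n hn j)
  refine (iInf₂_le u huU).trans ?_
  rw [eLpNorm_exponent_top]
  refine eLpNormEssSup_le_of_ae_bound ?_
  filter_upwards [hfg] with x hx
  have hx1 := (hasSum_nat_add_iff' n1).mpr (hAg x)
  obtain ⟨T, hT⟩ : ∃ T : ℝ, T = ∑' n : ℕ, (2:ℝ)^(-((1/2:ℝ) * ((n + n1 : ℕ) : ℝ))) * (((n + n1 : ℕ):ℝ)+1)^(((d:ℝ)-1)/2) *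
    (2:ℝ)^(-((1/2 - 1/q) * ((n + n1 - μs : ℕ) : ℝ))) * Real.sqrt (layer d (n + n1)).card := ⟨_, rfl⟩
  have hsum' : Summable (fun n : ℕ => (2:ℝ)^(-((1/2:ℝ) * ((n + n1 : ℕ) : ℝ))) * (((n + n1 : ℕ):ℝ)+1)^(((d:ℝ)-1)/2) *
      (2:ℝ)^(-((1/2 - 1/q) * ((n + n1 - μs : ℕ) : ℝ))) * Real.sqrt (layer d (n + n1)).card) :=
    (summable_nat_add_iff n1).mpr hsum
  have htail : ‖g x - ∑ i ∈ Finset.range n1, poly (A i) x‖ ≤ 2 * C1 * T := by
    have h5 : HasSum (fun n : ℕ => 2 * C1 * ((2:ℝ)^(-((1/2:ℝ) * ((n + n1 : ℕ) : ℝ))) * (((n + n1 : ℕ):ℝ)+1)^(((d:ℝ)-1)/2) *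
      (2:ℝ)^(-((1/2 - 1/q) * ((n + n1 - μs : ℕ) : ℝ))) * Real.sqrt (layer d (n + n1)).card))
        (2 * C1 * T) := by
      rw [hT]
      exact hsum'.hasSum.mul_left _
    refine hx1.norm_le_of_bounded h5 fun n => ?_
    refine (wpoly_bd _ _).trans ?_
    have h6 : Real.sqrt (∑ i, A (n + n1) i ^ 2) ≤ C1 * θ (n + n1) :=
      (Real.sqrt_le_sqrt (hAθ (n + n1))).trans (by
        rw [Real.sqrt_sq (mul_pos hC1 (hθ0 _)).le])
    calc 2 * Real.sqrt (layer d (n + n1)).card * Real.sqrt (∑ i, A (n + n1) i ^ 2)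
        ≤ 2 * Real.sqrt (layer d (n + n1)).card * (C1 * θ (n + n1)) := by gcongr
      _ = _ := by
        rw [hθ]
        ring
  obtain ⟨MS, hMSd⟩ : ∃ MS : ℝ, MS = ∑ n ∈ Finset.Ico μs n1, (2:ℝ)^(-((1/2:ℝ) * n)) * ((n:ℝ)+1)^(((d:ℝ)-1)/2) *
      (2:ℝ)^(-((1/2 - 1/q) * ((n - μs : ℕ) : ℝ))) *
        Real.sqrt (((n:ℝ)+1) * (layer d n).card / M n) := ⟨_, rfl⟩
  have hmidsum : ‖∑ n ∈ Finset.Ico μs n1, (poly (A n) x - ∑ j, (β n j : ℂ) * poly (G n j) x)‖ ≤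
      C1 * C2 * MS := by
    refine (norm_sum_le _ _).trans ?_
    rw [hMSd, Finset.mul_sum]
    refine Finset.sum_le_sum fun n _ => ?_
    refine (hβ n x).trans (le_of_eq ?_)
    rw [hθ]
    ring
  obtain ⟨W, hW⟩ : ∃ W : ℝ, W = ((μs:ℝ)+1)^(d-1) * (2:ℝ)^(-((1/2:ℝ) * μs)) := ⟨_, rfl⟩
  have htoC : toC (f x) = f x := by
    unfold toC
    simp
  have hx' : ‖toC (f x) - g x‖ ≤ C1 * W := by
    rw [htoC]
    refine hx.trans (le_of_eq ?_)
    rw [hW]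
    ring
  have hsplit2 : ∑ i ∈ Finset.range n1, poly (A i) x = ∑ i ∈ Finset.range n0, poly (A i) x +
      ∑ i ∈ Finset.Ico n0 μs, poly (A i) x + ∑ i ∈ Finset.Ico μs n1, poly (A i) x := by
    rw [Finset.sum_range_add_sum_Ico _ hn0, Finset.sum_range_add_sum_Ico _ hn1]
  have hfu : f x - u x = wio ℂ ((toC (f x) - g x) + (g x - ∑ i ∈ Finset.range n1, poly (A i) x) +
      (∑ n ∈ Finset.Ico n0 μs, poly (A n) x - ∑ j, (βJ j : ℂ) * gp (Lam d n0 μs) (H j) x) +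
      ∑ n ∈ Finset.Ico μs n1, (poly (A n) x - ∑ j, (β n j : ℂ) * poly (G n j) x)) := by
    have h7 : u x = wio ℂ (∑ n ∈ Finset.range n0, poly (A n) x +
        ∑ j, (βJ j : ℂ) * gp (Lam d n0 μs) (H j) x +
        ∑ n ∈ Finset.Ico μs n1, ∑ j, (β n j : ℂ) * poly (G n j) x) := by
      simp only [u, Pi.add_apply, Finset.sum_apply, Pi.smul_apply, wT_apply, gT_apply, map_add,
        map_sum]
      congr 1
      · congr 1
        refine Finset.sum_congr rfl fun j _ => ?_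
        rw [← Complex.real_smul, map_smul]
      · refine Finset.sum_congr rfl fun n _ => Finset.sum_congr rfl fun j _ => ?_
        rw [← Complex.real_smul, map_smul]
    rw [h7]
    conv_lhs => rw [← wio_toC ℂ (f x)]
    rw [← map_sub]
    congr 1
    rw [hsplit2, Finset.sum_sub_distrib]
    ring
  rw [hfu]
  refine (wio_norm ℂ _).trans ?_
  have hMS0 : 0 ≤ MS := by
    rw [hMSd]
    exact Finset.sum_nonneg fun n _ => by positivity
  have hT0 : 0 ≤ T := by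
    rw [hT]
    exact tsum_nonneg fun n => by positivity
  have hW0 : 0 ≤ W := by rw [hW]; positivity
  rw [← hMSd, ← hT, ← hW] at hbd
  have h8 : ‖(toC (f x) - g x) + (g x - ∑ i ∈ Finset.range n1, poly (A i) x) +
      (∑ n ∈ Finset.Ico n0 μs, poly (A n) x - ∑ j, (βJ j : ℂ) * gp (Lam d n0 μs) (H j) x) +
      ∑ n ∈ Finset.Ico μs n1, (poly (A n) x - ∑ j, (β n j : ℂ) * poly (G n j) x)‖ ≤
      C1 * W + 2 * C1 * T + C1 * (CJ * EJ) + C1 * C2 * MS := by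
    refine (norm_add_le _ _).trans (add_le_add ((norm_add_le _ _).trans (add_le_add
      ((norm_add_le _ _).trans (add_le_add hx' htail)) (hβJ x))) hmidsum)
  have h9 : C1 * W + 2 * C1 * T + C1 * (CJ * EJ) + C1 * C2 * MS ≤ D * (EJ + MS + T + W) := by
    have p1 : 0 ≤ C1 * CJ := by positivity
    have p2 : 0 ≤ C1 * C2 := by positivity
    have p3 : 0 ≤ 2 * C1 := by positivity
    have e : D * (EJ + MS + T + W) = (C1 * W + 2 * C1 * T + C1 * (CJ * EJ) + C1 * C2 * MS) +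
      ((C1 * CJ) * (MS + T + W) + (C1 * C2) * (EJ + T + W) + (2 * C1) * (EJ + MS + W) +
        C1 * (EJ + MS + T)) := by
      rw [hD]
      ring
    rw [e]
    have q1 : 0 ≤ (C1 * CJ) * (MS + T + W) := mul_nonneg p1 (by linarith)
    have q2 : 0 ≤ (C1 * C2) * (EJ + T + W) := mul_nonneg p2 (by linarith)
    have q3 : 0 ≤ (2 * C1) * (EJ + MS + W) := mul_nonneg p3 (by linarith)
    have q4 : 0 ≤ C1 * (EJ + MS + T) := mul_nonneg hC1.le (by linarith)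
    linarith
  calc 2 * ‖_‖ ≤ 2 * (D * (C3 * psiHB d m)) := by
        gcongr
        refine h8.trans (h9.trans ?_)
        gcongr
    _ = 2 * D * C3 * psiHB d m := by ring

end SmSm
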