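import Pool.Agent.H636R2.SM.SpecP
import Pool.Agent.H636R2.HE.E_fej1

/-!
# VK: kernel of de la Vallée Poussin on the grid (helper602)
-/

set_option autoImplicit false

open MeasureTheory Real ProbabilityTheory
open scoped ENNReal BigOperators

namespace SmSm
namespace VKa

noncomputable def ek (k : ℤ) (t : ℝ) : ℂ := Complex.exp (Complex.I * ((k:ℝ) * t : ℝ))

theorem ek_add (a b : ℤ) (t : ℝ) : ek (a + b) t = ek a t * ek b t := by
  unfold ek
  rw [← Complex.exp_add]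
  congr 1
  push_cast
  ring

theorem ek_zero (t : ℝ) : ek 0 t = 1 := by
  unfold ek
  simp

theorem ek_conj (a : ℤ) (t : ℝ) : (starRingEnd ℂ) (ek a t) = ek (-a) t := by
  unfold ek
  rw [← Complex.exp_conj]
  congr 1
  simp only [map_mul, Complex.conj_I, Complex.conj_ofReal]
  push_cast
  ring

theorem ek_norm (a : ℤ) (t : ℝ) : ‖ek a t‖ = 1 := by
  unfold ek
  rw [mul_comm, Complex.norm_exp_ofReal_mul_I]

theorem ek_subt (a : ℤ) (t u : ℝ) : ek a (t - u) = ek a t * ek (-a) u := by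
  unfold ek
  rw [← Complex.exp_add]
  congr 1
  push_cast
  ring

theorem sum_Ioo (f : ℤ → ℂ) (N : ℕ) :
    ∑ k ∈ Finset.Ioo (-((N : ℤ) + 1)) ((N : ℤ) + 1), f k =
      f 0 + ∑ j ∈ Finset.range N, (f ((j : ℤ) + 1) + f (-((j : ℤ) + 1))) := by
  induction N with
  | zero =>
    have h : Finset.Ioo (-(((0 : ℕ) : ℤ) + 1)) (((0 : ℕ) : ℤ) + 1) = {0} := by
      ext k
      simp only [Finset.mem_Ioo, Finset.mem_singleton]
      push_cast
      omega
    rw [h, Finset.sum_singleton, Finset.sum_range_zero, add_zero]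
  | succ N ih =>
    rw [Finset.sum_range_succ, ← add_assoc, ← ih]
    have h : Finset.Ioo (-(((N + 1 : ℕ) : ℤ) + 1)) (((N + 1 : ℕ) : ℤ) + 1) =
        insert ((N : ℤ) + 1) (insert (-((N : ℤ) + 1))
          (Finset.Ioo (-((N : ℤ) + 1)) ((N : ℤ) + 1))) := by
      ext k
      simp only [Finset.mem_Ioo, Finset.mem_insert]
      push_cast
      omega
    have h1 : ((N : ℤ) + 1) ∉ insert (-((N : ℤ) + 1))
        (Finset.Ioo (-((N : ℤ) + 1)) ((N : ℤ) + 1)) := by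
      simp only [Finset.mem_Ioo, Finset.mem_insert]
      omega
    have h2 : (-((N : ℤ) + 1)) ∉ Finset.Ioo (-((N : ℤ) + 1)) ((N : ℤ) + 1) := by
      simp only [Finset.mem_Ioo]
      omega
    rw [h, Finset.sum_insert h1, Finset.sum_insert h2]
    ring

noncomputable def SS (N : ℕ) (t : ℝ) : ℂ := ∑ a ∈ Finset.range N, ek a t

theorem conj_SS (N : ℕ) (t : ℝ) :
    (starRingEnd ℂ) (SS N t) = ∑ a ∈ Finset.range N, ek (-(a : ℤ)) t := by
  unfold SS
  rw [map_sum]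
  exact Finset.sum_congr rfl fun a _ => ek_conj _ _

theorem SS_mul (M : ℕ) (t : ℝ) : SS (M + 1) t * (starRingEnd ℂ) (SS (M + 1) t) =
    ((M : ℂ) + 1) + ∑ j ∈ Finset.range M, ((M : ℂ) - j) *
      (ek ((j : ℤ) + 1) t + ek (-((j : ℤ) + 1)) t) := by
  induction M with
  | zero =>
    unfold SS
    simp [ek_zero]
  | succ M ih =>
    have e1 : SS (M + 1 + 1) t = SS (M + 1) t + ek (((M + 1 : ℕ) : ℤ)) t := by
      unfold SS
      rw [Finset.sum_range_succ]
    have e2 : SS (M + 1) t * ek (-((M + 1 : ℕ) : ℤ)) t =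
        ∑ j ∈ Finset.range (M + 1), ek (-((j : ℤ) + 1)) t := by
      unfold SS
      rw [Finset.sum_mul, ← Finset.sum_range_reflect]
      refine Finset.sum_congr rfl fun j hj => ?_
      rw [← ek_add]
      congr 1
      have hj' : j < M + 1 := Finset.mem_range.1 hj
      have : ((M + 1 - 1 - j : ℕ) : ℤ) = (M : ℤ) - j := by
        rw [Nat.add_sub_cancel, Nat.cast_sub (by omega)]
      rw [this]
      push_cast
      ring
    have e3 : ek ((M + 1 : ℕ) : ℤ) t * (starRingEnd ℂ) (SS (M + 1) t) =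
        ∑ j ∈ Finset.range (M + 1), ek ((j : ℤ) + 1) t := by
      rw [conj_SS, Finset.mul_sum, ← Finset.sum_range_reflect]
      refine Finset.sum_congr rfl fun j hj => ?_
      rw [← ek_add]
      congr 1
      have hj' : j < M + 1 := Finset.mem_range.1 hj
      have : ((M + 1 - 1 - j : ℕ) : ℤ) = (M : ℤ) - j := by
        rw [Nat.add_sub_cancel, Nat.cast_sub (by omega)]
      rw [this]
      push_cast
      ring
    have e4 : ek ((M + 1 : ℕ) : ℤ) t * ek (-((M + 1 : ℕ) : ℤ)) t = 1 := by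
      rw [← ek_add, add_neg_cancel, ek_zero]
    have e5 : ∑ j ∈ Finset.range M, (((M + 1 : ℕ) : ℂ) - j) *
        (ek ((j : ℤ) + 1) t + ek (-((j : ℤ) + 1)) t) =
        ∑ j ∈ Finset.range M, ((M : ℂ) - j) * (ek ((j : ℤ) + 1) t + ek (-((j : ℤ) + 1)) t) +
        (∑ j ∈ Finset.range M, ek ((j : ℤ) + 1) t + ∑ j ∈ Finset.range M,
          ek (-((j : ℤ) + 1)) t) := by
      rw [← Finset.sum_add_distrib, ← Finset.sum_add_distrib]
      refine Finset.sum_congr rfl fun j _ => ?_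
      push_cast
      ring
    rw [e1, map_add, ek_conj, Finset.sum_range_succ, e5]
    have e6 : (SS (M + 1) t + ek (((M + 1 : ℕ) : ℤ)) t) *
        ((starRingEnd ℂ) (SS (M + 1) t) + ek (-((M + 1 : ℕ) : ℤ)) t) =
        SS (M + 1) t * (starRingEnd ℂ) (SS (M + 1) t) + SS (M + 1) t * ek (-((M + 1 : ℕ) : ℤ)) t +
        ek ((M + 1 : ℕ) : ℤ) t * (starRingEnd ℂ) (SS (M + 1) t) +
        ek ((M + 1 : ℕ) : ℤ) t * ek (-((M + 1 : ℕ) : ℤ)) t := by ring
    rw [e6, e2, e3, e4, ih, Finset.sum_range_succ, Finset.sum_range_succ]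
    push_cast
    ring

/-- the Fejér kernel -/
noncomputable def GG (N : ℕ) (t : ℝ) : ℝ := ‖SS N t‖ ^ 2 / N

theorem GG_nonneg (N : ℕ) (t : ℝ) : 0 ≤ GG N t := by
  unfold GG
  positivity

theorem norm_sq_SS (N : ℕ) (t : ℝ) :
    ((‖SS N t‖ ^ 2 : ℝ) : ℂ) = SS N t * (starRingEnd ℂ) (SS N t) := by
  rw [Complex.mul_conj']
  push_cast
  rfl

theorem fejer (M : ℕ) (t : ℝ) : ((GG (M + 1) t : ℝ) : ℂ) =
    ∑ k ∈ Finset.Ioo (-((M : ℤ) + 1)) ((M : ℤ) + 1),
      ((1 - |(k : ℝ)| / ((M : ℝ) + 1) : ℝ) : ℂ) * ek k t := by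
  have hM : ((M : ℝ) + 1) ≠ 0 := by positivity
  have hM' : ((M : ℂ) + 1) ≠ 0 := by exact_mod_cast hM
  rw [sum_Ioo]
  unfold GG
  rw [Complex.ofReal_div, norm_sq_SS, SS_mul]
  have h0 : ((1 - |((0 : ℤ) : ℝ)| / ((M : ℝ) + 1) : ℝ) : ℂ) * ek 0 t = 1 := by
    rw [ek_zero]
    simp
  rw [h0]
  have h1 : ∀ j : ℕ, |(((j : ℤ) + 1 : ℤ) : ℝ)| = (j : ℝ) + 1 := fun j => by
    push_cast
    exact abs_of_nonneg (by positivity)
  have h2 : ∀ j : ℕ, |((-((j : ℤ) + 1) : ℤ) : ℝ)| = (j : ℝ) + 1 := fun j => by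
    push_cast
    rw [← abs_neg]
    have h : -(-((j : ℝ) + 1)) = (j : ℝ) + 1 := by ring
    rw [h]
    exact abs_of_nonneg (by positivity)
  rw [div_eq_iff (by exact_mod_cast hM), add_mul, Finset.sum_mul]
  congr 1
  · push_cast
    ring
  · refine Finset.sum_congr rfl fun j _ => ?_
    rw [h1, h2]
    push_cast
    field_simp
    ring

theorem ek_ne_one {D : ℕ} (hD : 0 < D) {k : ℤ} (hk : k ≠ 0) (hkD : |k| < D) :
    ek k (2 * π / D) ≠ 1 := by
  intro h
  unfold ek at h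
  rw [Complex.exp_eq_one_iff] at h
  obtain ⟨n, hn⟩ := h
  have hD' : (D : ℂ) ≠ 0 := by exact_mod_cast hD.ne'
  have hpi : (π : ℂ) ≠ 0 := by exact_mod_cast Real.pi_ne_zero
  have h1 : (k : ℂ) = n * D := by
    have h2 : Complex.I * (2 * π) * (k : ℂ) = Complex.I * (2 * π) * (n * D) := by
      push_cast at hn
      field_simp at hn
      linear_combination (Complex.I * π * 2) * hn
    exact mul_left_cancel₀ (mul_ne_zero Complex.I_ne_zero (mul_ne_zero two_ne_zero hpi)) h2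
  have h3 : k = n * D := by exact_mod_cast h1
  have hn0 : n ≠ 0 := by
    rintro rfl
    exact hk (by rw [h3, zero_mul])
  have h4 : (1 : ℤ) ≤ |n| := Int.one_le_abs hn0
  rw [h3, abs_mul, Nat.abs_cast] at hkD
  nlinarith [hkD, h4, (Nat.cast_nonneg D : (0:ℤ) ≤ D)]

theorem grid_zero {D : ℕ} (hD : 0 < D) {k : ℤ} (hk : k ≠ 0) (hkD : |k| < D) :
    ∑ j : Fin D, ek k (2 * π * ((j : ℕ) : ℝ) / D) = 0 := by
  have h1 : ∀ j : ℕ, ek k (2 * π * (j : ℝ) / D) = ek k (2 * π / D) ^ j := by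
    intro j
    unfold ek
    rw [← Complex.exp_nat_mul]
    congr 1
    push_cast
    ring
  have h2 : ∑ j : Fin D, ek k (2 * π * ((j : ℕ) : ℝ) / D) =
      ∑ j ∈ Finset.range D, ek k (2 * π / D) ^ j := by
    rw [← Fin.sum_univ_eq_sum_range (fun j => ek k (2 * π / D) ^ j)]
    exact Finset.sum_congr rfl fun j _ => h1 _
  rw [h2]
  have h3 := geom_sum_mul (ek k (2 * π / D)) D
  have h4 : ek k (2 * π / D) ^ D = 1 := by
    rw [← h1]
    unfold ek
    have hD' : (D : ℂ) ≠ 0 := by exact_mod_cast hD.ne'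
    have := Complex.exp_int_mul_two_pi_mul_I k
    rw [← this]
    congr 1
    push_cast
    field_simp
  rw [h4, sub_self] at h3
  exact (mul_eq_zero.1 h3).resolve_right (sub_ne_zero.2 (ek_ne_one hD hk hkD))

theorem grid_sum {D N : ℕ} (hD : 0 < D) (hND : N ≤ D) (t : ℝ) :
    ∑ j : Fin D, ‖SS N (2 * π * ((j : ℕ) : ℝ) / D - t)‖ ^ 2 = N * D := by
  have h1 : ∀ y : ℝ, ((‖SS N y‖ ^ 2 : ℝ) : ℂ) =
      ∑ a ∈ Finset.range N, ∑ b ∈ Finset.range N, ek ((a : ℤ) - b) y := by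
    intro y
    rw [norm_sq_SS, conj_SS]
    unfold SS
    rw [Finset.sum_mul_sum]
    refine Finset.sum_congr rfl fun a _ => Finset.sum_congr rfl fun b _ => ?_
    rw [← ek_add, sub_eq_add_neg]
  have h2 : ((∑ j : Fin D, ‖SS N (2 * π * ((j : ℕ) : ℝ) / D - t)‖ ^ 2 : ℝ) : ℂ) =
      ((N * D : ℝ) : ℂ) := by
    rw [Complex.ofReal_sum]
    simp_rw [h1]
    rw [Finset.sum_comm]
    have h3 : ∀ a ∈ Finset.range N, ∑ j : Fin D, ∑ b ∈ Finset.range N,
        ek ((a : ℤ) - b) (2 * π * ((j : ℕ) : ℝ) / D - t) = (D : ℂ) := by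
      intro a ha
      rw [Finset.sum_comm, Finset.sum_eq_single a]
      · rw [sub_self]
        simp [ek_zero]
      · intro b hb hba
        have h4 : ∀ j : Fin D, ek ((a : ℤ) - b) (2 * π * ((j : ℕ) : ℝ) / D - t) =
            ek ((a : ℤ) - b) (2 * π * ((j : ℕ) : ℝ) / D) * ek (-((a : ℤ) - b)) t :=
          fun j => ek_subt _ _ _
        simp_rw [h4]
        rw [← Finset.sum_mul, grid_zero hD, zero_mul]
        · omega
        · have := Finset.mem_range.1 ha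
          have := Finset.mem_range.1 hb
          rw [abs_lt]
          omega
      · intro h
        exact absurd ha h
    rw [Finset.sum_congr rfl h3, Finset.sum_const, Finset.card_range, nsmul_eq_mul]
    push_cast
    ring
  exact_mod_cast h2

theorem grid_GG {D N : ℕ} (hD : 0 < D) (hN : 0 < N) (hND : N ≤ D) (t : ℝ) :
    ∑ j : Fin D, GG N (2 * π * ((j : ℕ) : ℝ) / D - t) = D := by
  unfold GG
  rw [← Finset.sum_div, grid_sum hD hND]
  have : (N : ℝ) ≠ 0 := by exact_mod_cast hN.ne'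
  field_simp

theorem int_GG {N : ℕ} (hN : 0 < N) (t : ℝ) :
    (2 * π)⁻¹ * ∫ x in (0:ℝ)..(2 * π), GG N (t - x) = 1 := by
  have h1 := HypVolE.S_fej1.fej_pars N (fun _ => 1) t
  have h2 : ∀ y : ℝ, ‖∑ a ∈ Finset.range N, ((1 : ℝ) : ℂ) *
      Complex.exp (Complex.I * (((a : ℝ) * (t - y) : ℝ) : ℂ))‖ ^ 2 = ‖SS N (t - y)‖ ^ 2 := by
    intro y
    unfold SS ek
    congr 2
    refine Finset.sum_congr rfl fun a _ => ?_
    rw [Complex.ofReal_one, one_mul]
    push_cast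
    rfl
  simp_rw [h2] at h1
  unfold GG
  rw [intervalIntegral.integral_div, h1]
  have : (N : ℝ) ≠ 0 := by exact_mod_cast hN.ne'
  have hpi := Real.pi_pos
  simp
  field_simp

theorem GG_cont (N : ℕ) : Continuous (GG N) := by
  unfold GG SS ek
  fun_prop

theorem vk_cont (s : ℕ) : Continuous (vk s) := by
  unfold vk
  fun_prop

/-- the kernel as a combination of Fejér kernels -/
theorem vk_eq (s : ℕ) (t : ℝ) :
    vk s t = 2 * ((GG (2 ^ (s + 2)) t : ℝ) : ℂ) - ((GG (2 ^ (s + 1)) t : ℝ) : ℂ) := by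
  obtain ⟨A, hA⟩ : ∃ A : ℕ, 2 ^ (s + 2) = A + 1 :=
    ⟨2 ^ (s + 2) - 1, by have : 0 < 2 ^ (s + 2) := by positivity
                         omega⟩
  obtain ⟨B, hB⟩ : ∃ B : ℕ, 2 ^ (s + 1) = B + 1 :=
    ⟨2 ^ (s + 1) - 1, by have : 0 < 2 ^ (s + 1) := by positivity
                         omega⟩
  have hAB : A + 1 = 2 * (B + 1) := by
    rw [← hA, ← hB]
    ring
  have hAz : (2 : ℤ) ^ (s + 2) = (A : ℤ) + 1 := by exact_mod_cast hA
  have hBr : (2 : ℝ) ^ (s + 1) = (B : ℝ) + 1 := by exact_mod_cast hB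
  have hABr : (A : ℝ) + 1 = 2 * ((B : ℝ) + 1) := by exact_mod_cast hAB
  rw [hA, hB, fejer, fejer]
  have hsub : ∑ k ∈ Finset.Ioo (-((B : ℤ) + 1)) ((B : ℤ) + 1),
      ((1 - |(k : ℝ)| / ((B : ℝ) + 1) : ℝ) : ℂ) * ek k t =
      ∑ k ∈ Finset.Ioo (-((A : ℤ) + 1)) ((A : ℤ) + 1),
        ((max 0 (1 - |(k : ℝ)| / ((B : ℝ) + 1)) : ℝ) : ℂ) * ek k t := by
    have hs : Finset.Ioo (-((B : ℤ) + 1)) ((B : ℤ) + 1) ⊆
        Finset.Ioo (-((A : ℤ) + 1)) ((A : ℤ) + 1) := by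
      intro k hk
      rw [Finset.mem_Ioo] at hk ⊢
      omega
    have h1 : ∑ k ∈ Finset.Ioo (-((B : ℤ) + 1)) ((B : ℤ) + 1),
        ((max 0 (1 - |(k : ℝ)| / ((B : ℝ) + 1)) : ℝ) : ℂ) * ek k t =
        ∑ k ∈ Finset.Ioo (-((A : ℤ) + 1)) ((A : ℤ) + 1),
        ((max 0 (1 - |(k : ℝ)| / ((B : ℝ) + 1)) : ℝ) : ℂ) * ek k t := by
      refine Finset.sum_subset hs fun k _ hk => ?_
      rw [max_eq_left, Complex.ofReal_zero, zero_mul]
      rw [sub_nonpos, one_le_div (by positivity)]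
      rw [Finset.mem_Ioo, ← abs_lt, not_lt] at hk
      exact_mod_cast hk
    rw [← h1]
    refine Finset.sum_congr rfl fun k hk => ?_
    rw [Finset.mem_Ioo, ← abs_lt] at hk
    have hk' : |(k : ℝ)| < (B : ℝ) + 1 := by exact_mod_cast hk
    rw [max_eq_right]
    rw [sub_nonneg, div_le_one (by positivity)]
    exact hk'.le
  rw [hsub, Finset.mul_sum, ← Finset.sum_sub_distrib]
  unfold vk
  rw [hAz]
  refine Finset.sum_congr rfl fun k hk => ?_
  rw [Finset.mem_Ioo, ← abs_lt] at hk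
  have hk' : |(k : ℝ)| < (A : ℝ) + 1 := by exact_mod_cast hk
  have hvp : vp (s + 1) k = 2 * (1 - |(k : ℝ)| / ((A : ℝ) + 1)) -
      max 0 (1 - |(k : ℝ)| / ((B : ℝ) + 1)) := by
    unfold vp
    rw [hBr, hABr]
    have hBp : (0 : ℝ) < (B : ℝ) + 1 := by positivity
    have e : 2 * (1 - |(k : ℝ)| / (2 * ((B : ℝ) + 1))) = 2 - |(k : ℝ)| / ((B : ℝ) + 1) := by
      field_simp
    rw [e]
    set q : ℝ := |(k : ℝ)| / ((B : ℝ) + 1) with hq
    have hq2 : q ≤ 2 := by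
      rw [hq, div_le_iff₀ hBp]
      rw [hABr] at hk'
      exact hk'.le
    rcases le_total q 1 with h | h
    · rw [min_eq_left (by linarith), max_eq_right (by norm_num : (0:ℝ) ≤ 1),
        max_eq_right (by linarith)]
      ring
    · rw [min_eq_right (by linarith), max_eq_right (by linarith), max_eq_left (by linarith)]
      ring
  rw [hvp]
  show _ * ek k t = _
  push_cast
  ring

theorem vk_le (s : ℕ) (t : ℝ) : ‖vk s t‖ ≤ 2 * GG (2 ^ (s + 2)) t + GG (2 ^ (s + 1)) t := by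
  rw [vk_eq]
  refine (norm_sub_le _ _).trans ?_
  rw [norm_mul, Complex.norm_real, Complex.norm_real, Real.norm_eq_abs, Real.norm_eq_abs,
    abs_of_nonneg (GG_nonneg _ _), abs_of_nonneg (GG_nonneg _ _), Complex.norm_two]

end VKa

open VKa in
theorem vk_ok : S_VK := by
  intro s
  have hp2 : 0 < 2 ^ (s + 2) := by positivity
  have hp1 : 0 < 2 ^ (s + 1) := by positivity
  refine ⟨fun t => ?_, fun t => ?_, fun t => ?_⟩
  · unfold vk
    refine (norm_sum_le _ _).trans ?_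
    have h1 : ∀ k ∈ Finset.Ioo (-(2:ℤ)^(s+2)) ((2:ℤ)^(s+2)),
        ‖(vp (s+1) k : ℂ) * Complex.exp (Complex.I * ((k:ℝ) * t : ℝ))‖ ≤ 1 := by
      intro k _
      have h2 : ‖Complex.exp (Complex.I * ((k:ℝ) * t : ℝ))‖ = 1 := ek_norm k t
      have h0 : 0 ≤ vp (s + 1) k := le_max_left _ _
      have h3 : vp (s + 1) k ≤ 1 := max_le zero_le_one (min_le_left _ _)
      rw [norm_mul, h2, mul_one, Complex.norm_real, Real.norm_eq_abs, abs_of_nonneg h0]
      exact h3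
    refine (Finset.sum_le_sum h1).trans ?_
    rw [Finset.sum_const, nsmul_eq_mul, mul_one, Int.card_Ioo]
    have h2 : (((2:ℤ)^(s+2) - -(2:ℤ)^(s+2) - 1).toNat : ℤ) ≤ (2:ℤ)^(s+3) := by
      have h3 : (0 : ℤ) < (2:ℤ)^(s+2) := by positivity
      have h4 : (2:ℤ)^(s+3) = 2 * (2:ℤ)^(s+2) := by ring
      rw [Int.toNat_of_nonneg (by omega), h4]
      omega
    exact_mod_cast h2
  · have hD : 0 < 2 ^ (s + 3) := by positivity
    have e1 : ∀ j : Fin (2^(s+3)), (2 * π * ((j:ℕ):ℝ) / 2^(s+3) - t) =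
        (2 * π * ((j:ℕ):ℝ) / ((2^(s+3) : ℕ) : ℝ) - t) := by
      intro j
      push_cast
      rfl
    have h1 := grid_GG (t := t) hD hp2 (Nat.pow_le_pow_right (by norm_num) (by omega))
    have h2 := grid_GG (t := t) hD hp1 (Nat.pow_le_pow_right (by norm_num) (by omega))
    calc ∑ j : Fin (2^(s+3)), ‖vk s (2 * π * ((j:ℕ):ℝ) / 2^(s+3) - t)‖
        ≤ ∑ j : Fin (2^(s+3)), (2 * VKa.GG (2 ^ (s + 2)) (2 * π * ((j:ℕ):ℝ) / ((2^(s+3) : ℕ) : ℝ) - t) +
          VKa.GG (2 ^ (s + 1)) (2 * π * ((j:ℕ):ℝ) / ((2^(s+3) : ℕ) : ℝ) - t)) :=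
          Finset.sum_le_sum fun j _ => by
            rw [e1]
            exact vk_le s _
      _ = 3 * ((2^(s+3) : ℕ) : ℝ) := by
          rw [Finset.sum_add_distrib, ← Finset.mul_sum, h1, h2]
          ring
      _ = 3 * 2^(s+3) := by
          push_cast
          ring
  · have h1 := int_GG (N := 2 ^ (s + 2)) hp2 t
    have h2 := int_GG (N := 2 ^ (s + 1)) hp1 t
    have hpi := Real.pi_pos
    have hc1 : Continuous fun x : ℝ => ‖vk s (t - x)‖ :=
      ((vk_cont s).comp (continuous_const.sub continuous_id)).norm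
    have hc2 : Continuous fun x : ℝ => VKa.GG (2 ^ (s + 2)) (t - x) :=
      (GG_cont _).comp (continuous_const.sub continuous_id)
    have hc3 : Continuous fun x : ℝ => VKa.GG (2 ^ (s + 1)) (t - x) :=
      (GG_cont _).comp (continuous_const.sub continuous_id)
    have h3 : ∫ x in (0:ℝ)..(2*π), ‖vk s (t - x)‖ ≤
        ∫ x in (0:ℝ)..(2*π), (2 * VKa.GG (2 ^ (s + 2)) (t - x) + VKa.GG (2 ^ (s + 1)) (t - x)) := by
      refine intervalIntegral.integral_mono_on (by positivity) (hc1.intervalIntegrable _ _)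
        (((continuous_const.mul hc2).add hc3).intervalIntegrable 0 (2 * π)) fun x _ => vk_le s _
    have hc4 : Continuous fun x : ℝ => 2 * VKa.GG (2 ^ (s + 2)) (t - x) :=
      continuous_const.mul hc2
    rw [intervalIntegral.integral_add (hc4.intervalIntegrable _ _)
      (hc3.intervalIntegrable _ _), intervalIntegral.integral_const_mul] at h3
    have h4 := mul_le_mul_of_nonneg_left h3 (show 0 ≤ (2 * π)⁻¹ by positivity)
    refine h4.trans (le_of_eq ?_)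
    rw [mul_add, mul_left_comm, h1, h2]
    norm_num

end SmSm
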