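import Pool.Agent.H636R2.SM.SpecH
import Pool.Agent.H636R2.SM.VP1
import Pool.Agent.HypVol.L_TP_prob
open MeasureTheory Real ProbabilityTheory
open scoped ENNReal BigOperators

/-!
WB: wide blocks are bounded on `L_∞`.
-/

namespace SmSm
open HypVol MWidth

/-- one dimensional kernel -/
noncomputable def wb_K (a : ℤ → ℂ) (M : ℤ) (t : ℝ) : ℂ :=
  ∑ k ∈ Finset.Ioo (-M) M, a k * Complex.exp (Complex.I * ((k:ℝ) * t : ℝ))

theorem wb_prod {d : ℕ} (a : Fin d → ℤ → ℂ) (M : Fin d → ℤ) (u : Fin d → ℝ) :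
    ∑ k ∈ Fintype.piFinset (fun j => Finset.Ioo (-M j) (M j)), (∏ j, a j (k j)) * chi k u =
      ∏ j, wb_K (a j) (M j) (u j) := by
  unfold wb_K
  rw [Finset.prod_univ_sum]
  refine Finset.sum_congr rfl fun k _ => ?_
  unfold chi
  rw [Finset.prod_mul_distrib]
  congr 1
  rw [← Complex.exp_sum]
  congr 1
  push_cast
  rw [Finset.mul_sum]

theorem wb_cont (a : ℤ → ℂ) (M : ℤ) : Continuous (wb_K a M) := by
  unfold wb_K
  fun_prop

theorem wb_bound (a : ℤ → ℂ) (M : ℤ) (t : ℝ) : ‖wb_K a M t‖ ≤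
    ∑ k ∈ Finset.Ioo (-M) M, ‖a k‖ := by
  unfold wb_K
  refine (norm_sum_le _ _).trans (Finset.sum_le_sum fun k _ => ?_)
  rw [norm_mul, mul_comm Complex.I, Complex.norm_exp_ofReal_mul_I, mul_one]

theorem wb_periodic (a : ℤ → ℂ) (M : ℤ) :
    Function.Periodic (fun t => ‖wb_K a M t‖) (2 * π) := by
  intro t
  have : wb_K a M (t + 2 * π) = wb_K a M t := by
    unfold wb_K
    refine Finset.sum_congr rfl fun k _ => ?_
    congr 1
    rw [Complex.exp_eq_exp_iff_exists_int]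
    refine ⟨k, ?_⟩
    push_cast
    ring
  simp only [this]

theorem wb_one (a : ℤ → ℂ) (M : ℤ) (x : ℝ) :
    ∫ t, ‖wb_K a M (x - t)‖
        ∂(ENNReal.ofReal (2 * π)⁻¹ • volume.restrict (Set.Ico (0 : ℝ) (2 * π))) =
      (2 * π)⁻¹ * ∫ t in (0:ℝ)..(2 * π), ‖wb_K a M t‖ := by
  rw [integral_smul_measure, ENNReal.toReal_ofReal (by positivity), smul_eq_mul]
  congr 1
  rw [integral_Ico_eq_integral_Ioc, ← intervalIntegral.integral_of_le (by positivity)]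
  rw [intervalIntegral.integral_comp_sub_left (fun t => ‖wb_K a M t‖) x]
  have h := (wb_periodic a M).intervalIntegral_add_eq (x - 2 * π) 0
  rw [zero_add, sub_add_cancel] at h
  rw [sub_zero]
  exact h

theorem wb_int {d : ℕ} (a : Fin d → ℤ → ℂ) (M : Fin d → ℤ) (φ : (Fin d → ℝ) → ℂ) (τ : ℝ)
    (hφ : AEStronglyMeasurable φ (TP d)) (hb : ∀ᵐ x ∂(TP d), ‖φ x‖ ≤ τ) (x : Fin d → ℝ) :
    ∑ k ∈ Fintype.piFinset (fun j => Finset.Ioo (-M j) (M j)),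
      (∏ j, a j (k j)) * fc φ k * chi k x =
      ∫ y, φ y * ∏ j, wb_K (a j) (M j) (x j - y j) ∂(TP d) := by
  have := TP_prob d
  have h1 : ∀ k ∈ Fintype.piFinset (fun j => Finset.Ioo (-M j) (M j)),
      (∏ j, a j (k j)) * fc φ k * chi k x =
      ∫ y, φ y * ((∏ j, a j (k j)) * chi k (x - y)) ∂(TP d) := by
    intro k _
    unfold fc
    rw [mul_assoc (∏ j, a j (k j)), ← integral_mul_const, ← integral_const_mul]
    refine integral_congr_ae (Filter.Eventually.of_forall fun y => ?_)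
    have e : chi k (x - y) = Complex.exp (-(Complex.I * ((∑ j, (k j : ℝ) * y j : ℝ) : ℂ))) *
        chi k x := by
      unfold chi
      rw [← Complex.exp_add]
      congr 1
      have : (∑ j, (k j : ℝ) * (x - y) j : ℝ) =
          (∑ j, (k j : ℝ) * x j : ℝ) - (∑ j, (k j : ℝ) * y j : ℝ) := by
        rw [← Finset.sum_sub_distrib]
        refine Finset.sum_congr rfl fun j _ => ?_
        rw [Pi.sub_apply]
        ring
      rw [this, Complex.ofReal_sub]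
      ring
    simp only
    rw [e]
    ring
  rw [Finset.sum_congr rfl h1, ← integral_finsetSum]
  · refine integral_congr_ae (Filter.Eventually.of_forall fun y => ?_)
    simp only
    rw [← Finset.mul_sum, wb_prod a M (x - y)]
    rfl
  · intro k _
    refine Integrable.of_bound (hφ.mul ?_) (τ * ‖∏ j, a j (k j)‖) ?_
    · refine Continuous.aestronglyMeasurable ?_
      unfold chi
      fun_prop
    · filter_upwards [hb] with y hy
      have h2 : ‖chi k (x - y)‖ = 1 := by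
        unfold chi
        rw [mul_comm Complex.I, Complex.norm_exp_ofReal_mul_I]
      rw [norm_mul, norm_mul _ (chi k (x - y)), h2, mul_one]
      exact mul_le_mul_of_nonneg_right hy (norm_nonneg _)

theorem wb_gen {d : ℕ} (a : Fin d → ℤ → ℂ) (M : Fin d → ℤ) (C : Fin d → ℝ)
    (hC : ∀ j, ∫ t in (0:ℝ)..(2*π), ‖wb_K (a j) (M j) t‖ ≤ C j)
    (φ : (Fin d → ℝ) → ℂ) (τ : ℝ) (hτ : 0 ≤ τ)
    (hφ : AEStronglyMeasurable φ (TP d)) (hb : ∀ᵐ x ∂(TP d), ‖φ x‖ ≤ τ) (x : Fin d → ℝ) :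
    ‖∑ k ∈ Fintype.piFinset (fun j => Finset.Ioo (-M j) (M j)),
      (∏ j, a j (k j)) * fc φ k * chi k x‖ ≤ (∏ j, C j) * τ := by
  have := TP_prob d
  rw [wb_int a M φ τ hφ hb x]
  have hcont : Continuous fun y : Fin d → ℝ => ∏ j, ‖wb_K (a j) (M j) (x j - y j)‖ := by
    refine continuous_finsetProd _ fun j _ => ?_
    exact ((wb_cont (a j) (M j)).comp (continuous_const.sub (continuous_apply j))).norm
  have hint : Integrable (fun y : Fin d → ℝ => τ * ∏ j, ‖wb_K (a j) (M j) (x j - y j)‖)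
      (TP d) := by
    refine Integrable.const_mul ?_ τ
    refine Integrable.of_bound hcont.aestronglyMeasurable
      (∏ j, ∑ k ∈ Finset.Ioo (-(M j)) (M j), ‖a j k‖) ?_
    refine Filter.Eventually.of_forall fun y => ?_
    rw [Real.norm_of_nonneg (Finset.prod_nonneg fun j _ => norm_nonneg _)]
    exact Finset.prod_le_prod (fun j _ => norm_nonneg _) fun j _ => wb_bound _ _ _
  have h1 : ‖∫ y, φ y * ∏ j, wb_K (a j) (M j) (x j - y j) ∂(TP d)‖ ≤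
      ∫ y, τ * ∏ j, ‖wb_K (a j) (M j) (x j - y j)‖ ∂(TP d) := by
    refine norm_integral_le_of_norm_le hint ?_
    filter_upwards [hb] with y hy
    rw [norm_mul, norm_prod]
    exact mul_le_mul_of_nonneg_right hy (Finset.prod_nonneg fun j _ => norm_nonneg _)
  refine h1.trans ?_
  rw [integral_const_mul]
  have h2 : ∫ y, ∏ j, ‖wb_K (a j) (M j) (x j - y j)‖ ∂(TP d) =
      ∏ j, ((2 * π)⁻¹ * ∫ t in (0:ℝ)..(2 * π), ‖wb_K (a j) (M j) t‖) := by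
    unfold TP
    have hI : IsFiniteMeasure
        (ENNReal.ofReal (2 * π)⁻¹ • volume.restrict (Set.Ico (0 : ℝ) (2 * π))) := by
      refine ⟨?_⟩
      rw [Measure.smul_apply, Measure.restrict_apply MeasurableSet.univ, Set.univ_inter,
        Real.volume_Ico, smul_eq_mul]
      exact ENNReal.mul_lt_top ENNReal.ofReal_lt_top ENNReal.ofReal_lt_top
    rw [integral_fintype_prod_eq_prod (f := fun j t => ‖wb_K (a j) (M j) (x j - t)‖)]
    exact Finset.prod_congr rfl fun j _ => wb_one (a j) (M j) (x j)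
  rw [h2]
  have h3 : ∏ j, ((2 * π)⁻¹ * ∫ t in (0:ℝ)..(2 * π), ‖wb_K (a j) (M j) t‖) ≤ ∏ j, C j := by
    refine Finset.prod_le_prod (fun j _ => ?_) fun j _ => ?_
    · refine mul_nonneg (by positivity) (intervalIntegral.integral_nonneg (by positivity) ?_)
      intro t _
      exact norm_nonneg _
    · have h4 := hC j
      have h5 : 0 ≤ ∫ t in (0:ℝ)..(2 * π), ‖wb_K (a j) (M j) t‖ :=
        intervalIntegral.integral_nonneg (by positivity) fun t _ => norm_nonneg _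
      have h6 : (2 * π)⁻¹ ≤ 1 := by
        rw [inv_le_one₀ (by positivity)]
        have := Real.pi_gt_three
        linarith
      calc (2 * π)⁻¹ * ∫ t in (0:ℝ)..(2 * π), ‖wb_K (a j) (M j) t‖
          ≤ 1 * ∫ t in (0:ℝ)..(2 * π), ‖wb_K (a j) (M j) t‖ :=
            mul_le_mul_of_nonneg_right h6 h5
        _ ≤ _ := by rw [one_mul]; exact h4
  calc τ * _ ≤ τ * ∏ j, C j := mul_le_mul_of_nonneg_left h3 hτ
    _ = _ := by ring

/-! ### the one dimensional multiplier -/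

/-- the multiplier (with exponent `l`) -/
noncomputable def wb_h (l s : ℕ) (k : ℤ) : ℝ := ((k : ℝ) / 2^s)^l * wv s k

theorem wb_wv_big {s : ℕ} {k : ℤ} (h : (2:ℤ)^(s+2) ≤ |k|) : wv s k = 0 := by
  have h1 : (2:ℝ)^(s+2) ≤ |(k:ℝ)| := by exact_mod_cast h
  unfold wv
  rw [vp1_vp_zero (s := s+1) (by rw [pow_succ] at h1; linarith)]
  split_ifs with hs
  · simp
  · have h2 : 2 * (2:ℝ)^(s-2) ≤ |(k:ℝ)| := by
      refine le_trans ?_ h1
      have : (2:ℝ)^(s-2) ≤ 2^(s+1) := pow_le_pow_right₀ (by norm_num) (by omega)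
      have h3 : (2:ℝ)^(s+2) = 2 * 2^(s+1) := by rw [pow_succ]; ring
      linarith
    rw [vp1_vp_zero h2, sub_zero]

theorem wb_wv_abs (s : ℕ) (k : ℤ) : |wv s k| ≤ 1 := by
  unfold wv
  have h1 := vp1_vp_nonneg (s+1) k
  have h2 := vp1_vp_le (s+1) k
  split_ifs
  · rw [sub_zero, abs_of_nonneg h1]; exact h2
  · have h3 := vp1_vp_nonneg (s-2) k
    have h4 := vp1_vp_le (s-2) k
    rw [abs_le]
    constructor <;> linarith

theorem wb_wv_lip (s : ℕ) (k : ℤ) : |wv s (k + 1) - wv s k| ≤ 5 * ((2:ℝ)^s)⁻¹ := by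
  have h1 := vp1_vp_lip (s+1) k
  have h0 : (0:ℝ) < ((2:ℝ)^s)⁻¹ := by positivity
  have h1' : ((2:ℝ)^(s+1))⁻¹ ≤ ((2:ℝ)^s)⁻¹ := by
    apply inv_anti₀ (by positivity)
    exact pow_le_pow_right₀ (by norm_num) (by omega)
  unfold wv
  split_ifs with hs
  · rw [sub_zero, sub_zero]; linarith
  · have h2 := vp1_vp_lip (s-2) k
    have h3 : ((2:ℝ)^(s-2))⁻¹ = 4 * ((2:ℝ)^s)⁻¹ := by
      obtain ⟨t, rfl⟩ : ∃ t, s = t + 2 := ⟨s - 2, by omega⟩
      rw [Nat.add_sub_cancel, pow_add]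
      field_simp
      norm_num
    rw [h3] at h2
    rw [abs_le] at h1 h2 ⊢
    constructor <;> linarith [h1.1, h1.2, h2.1, h2.2]

theorem wb_pow_le {l s : ℕ} {k : ℤ} (h : |k| ≤ (2:ℤ)^(s+2)) : |((k : ℝ) / 2^s)^l| ≤ 4^l := by
  have h1 : |(k:ℝ)| ≤ (2:ℝ)^(s+2) := by exact_mod_cast h
  rw [abs_pow]
  refine pow_le_pow_left₀ (abs_nonneg _) ?_ l
  rw [abs_div, abs_of_pos (by positivity : (0:ℝ) < 2^s), div_le_iff₀ (by positivity)]
  calc _ ≤ _ := h1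
    _ = _ := by rw [pow_add]; ring

theorem wb_h_abs (l s : ℕ) (k : ℤ) : |wb_h l s k| ≤ 4^l := by
  unfold wb_h
  rw [abs_mul]
  by_cases h : (2:ℤ)^(s+2) ≤ |k|
  · rw [wb_wv_big h, abs_zero, mul_zero]; positivity
  · calc _ ≤ (4:ℝ)^l * 1 := mul_le_mul (wb_pow_le (not_le.1 h).le) (wb_wv_abs s k) (abs_nonneg _)
          (by positivity)
      _ = _ := mul_one _

theorem wb_h_diff (l s : ℕ) (k : ℤ) :
    |wb_h l s (k+1) - wb_h l s k| ≤ 4^l * (5 + l) * ((2:ℝ)^s)⁻¹ := by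
  have h0 : (0:ℝ) < ((2:ℝ)^s)⁻¹ := by positivity
  by_cases hz : wv s (k + 1) = 0 ∧ wv s k = 0
  · unfold wb_h
    rw [hz.1, hz.2]
    simp only [mul_zero, sub_zero, abs_zero]
    positivity
  have hint : ∀ m : ℤ, wv s m ≠ 0 → |m| < 2^(s+2) := by
    intro m hm
    by_contra h
    exact hm (wb_wv_big (not_lt.1 h))
  have hboth : |k| ≤ 2^(s+2) ∧ |k + 1| ≤ 2^(s+2) := by
    have hor : wv s (k + 1) ≠ 0 ∨ wv s k ≠ 0 := by
      by_contra h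
      push Not at h
      exact hz h
    rcases hor with h | h
    · have h1 := hint _ h
      rcases abs_cases (k + 1) with ⟨e1, e2⟩ | ⟨e1, e2⟩ <;>
        rcases abs_cases k with ⟨e3, e4⟩ | ⟨e3, e4⟩ <;> omega
    · have h1 := hint _ h
      rcases abs_cases (k + 1) with ⟨e1, e2⟩ | ⟨e1, e2⟩ <;>
        rcases abs_cases k with ⟨e3, e4⟩ | ⟨e3, e4⟩ <;> omega
  obtain ⟨a1, a2⟩ := hboth
  have e : wb_h l s (k+1) - wb_h l s k =
      (((k + 1 : ℤ) : ℝ) / 2^s)^l * (wv s (k+1) - wv s k) +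
      ((((k + 1 : ℤ) : ℝ) / 2^s)^l - ((k : ℝ) / 2^s)^l) * wv s k := by
    unfold wb_h
    ring
  rw [e]
  refine (abs_add_le _ _).trans ?_
  rw [abs_mul, abs_mul]
  have t1 : |(((k + 1 : ℤ) : ℝ) / 2^s)^l| * |wv s (k+1) - wv s k| ≤ 4^l * (5 * ((2:ℝ)^s)⁻¹) :=
    mul_le_mul (wb_pow_le a2) (wb_wv_lip s k) (abs_nonneg _) (by positivity)
  have b1 : |(k : ℝ) / 2^s| ≤ 4 := by simpa using wb_pow_le (l := 1) a1
  have b2 : |((k + 1 : ℤ) : ℝ) / 2^s| ≤ 4 := by simpa using wb_pow_le (l := 1) a2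
  have t2 : |(((k + 1 : ℤ) : ℝ) / 2^s)^l - ((k : ℝ) / 2^s)^l| ≤ 4^l * l * ((2:ℝ)^s)⁻¹ := by
    refine (abs_pow_sub_pow_le _ _ l).trans ?_
    have h1 : |((k + 1 : ℤ) : ℝ) / 2^s - (k : ℝ) / 2^s| = ((2:ℝ)^s)⁻¹ := by
      rw [← sub_div]
      push_cast
      rw [add_sub_cancel_left, abs_of_pos (by positivity), one_div]
    rw [h1]
    have h2 : max |((k + 1 : ℤ) : ℝ) / 2^s| |(k : ℝ) / 2^s| ^ (l - 1) ≤ 4^l := by
      calc _ ≤ (4:ℝ)^(l-1) := pow_le_pow_left₀ (le_max_of_le_left (abs_nonneg _)) (max_le b2 b1) _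
        _ ≤ 4^l := pow_le_pow_right₀ (by norm_num) (Nat.sub_le _ _)
    calc _ ≤ ((2:ℝ)^s)⁻¹ * l * 4^l := mul_le_mul_of_nonneg_left h2 (by positivity)
      _ = _ := by ring
  have t3 : |(((k + 1 : ℤ) : ℝ) / 2^s)^l - ((k : ℝ) / 2^s)^l| * |wv s k| ≤
      4^l * l * ((2:ℝ)^s)⁻¹ * 1 :=
    mul_le_mul t2 (wb_wv_abs s k) (abs_nonneg _) (by positivity)
  calc _ ≤ 4^l * (5 * ((2:ℝ)^s)⁻¹) + 4^l * l * ((2:ℝ)^s)⁻¹ * 1 := add_le_add t1 t3
    _ = _ := by ring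

theorem wb_L1 (C : ℝ) (hC : 0 < C) (hcs : ∀ (N : ℕ) (h : ℤ → ℂ) (L : ℝ), 1 ≤ L →
    (∀ k : ℤ, (N:ℤ) ≤ |k| → h k = 0) →
    ∫ t in (0:ℝ)..(2*π), ‖∑ k ∈ Finset.Ioo (-(N:ℤ)) N,
      h k * Complex.exp (Complex.I * ((k:ℝ) * t : ℝ))‖ ≤
    C * L^(-(1/2:ℝ)) * (Real.sqrt (∑ k ∈ Finset.Ioo (-(N:ℤ)) N, ‖h k‖^2) +
      L * Real.sqrt (∑ k ∈ Finset.Icc (-(N:ℤ)) N, ‖h (k+1) - h k‖^2))) (l s : ℕ) :
    ∫ t in (0:ℝ)..(2*π), ‖wb_K (fun k => (wb_h l s k : ℂ)) ((2:ℤ)^(s+2)) t‖ ≤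
      C * (3 * 4^l * (6 + l)) := by
  have hρ : (0:ℝ) < 2^s := by positivity
  have hN : ((2^(s+2) : ℕ) : ℤ) = (2:ℤ)^(s+2) := by push_cast; rfl
  have hz : ∀ k : ℤ, ((2^(s+2) : ℕ) : ℤ) ≤ |k| → (fun k => (wb_h l s k : ℂ)) k = 0 := by
    intro k hk
    rw [hN] at hk
    simp only [wb_h, wb_wv_big hk, mul_zero, Complex.ofReal_zero]
  have hmain := hcs (2^(s+2)) (fun k => (wb_h l s k : ℂ)) (2^s)
    (one_le_pow₀ (by norm_num)) hz
  rw [hN] at hmain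
  have hLHS : (∫ t in (0:ℝ)..(2*π), ‖wb_K (fun k => (wb_h l s k : ℂ)) ((2:ℤ)^(s+2)) t‖) =
      ∫ t in (0:ℝ)..(2*π), ‖∑ k ∈ Finset.Ioo (-(2:ℤ)^(s+2)) ((2:ℤ)^(s+2)),
        (fun k => (wb_h l s k : ℂ)) k * Complex.exp (Complex.I * ((k:ℝ) * t : ℝ))‖ := rfl
  rw [hLHS]
  refine hmain.trans ?_
  have hs1 : Real.sqrt (∑ k ∈ Finset.Ioo (-(2:ℤ)^(s+2)) ((2:ℤ)^(s+2)),
      ‖(fun k => (wb_h l s k : ℂ)) k‖^2) ≤ 3 * (Real.sqrt (2^s) * 4^l) := by
    rw [Real.sqrt_le_left (by positivity)]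
    have h1 : ∑ k ∈ Finset.Ioo (-(2:ℤ)^(s+2)) ((2:ℤ)^(s+2)),
        ‖(fun k => (wb_h l s k : ℂ)) k‖^2 ≤
        ∑ _k ∈ Finset.Ioo (-(2:ℤ)^(s+2)) ((2:ℤ)^(s+2)), ((4:ℝ)^l)^2 :=
      Finset.sum_le_sum fun k _ => pow_le_pow_left₀ (norm_nonneg _) (by
        simp only [Complex.norm_real, Real.norm_eq_abs]
        exact wb_h_abs l s k) 2
    refine h1.trans ?_
    rw [Finset.sum_const, nsmul_eq_mul, Int.card_Ioo]
    have h2 : (((2:ℤ)^(s+2) - -(2:ℤ)^(s+2) - 1).toNat : ℝ) ≤ 9 * 2^s := by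
      have h3 : ((2:ℤ)^(s+2) - -(2:ℤ)^(s+2) - 1).toNat ≤ 9 * 2^s := by
        have h4 : (2:ℤ)^(s+2) = 4 * 2^s := by rw [pow_add]; ring
        rw [h4]
        have h5 : (2:ℤ)^s = ((2^s : ℕ) : ℤ) := by push_cast; rfl
        rw [h5]
        omega
      exact_mod_cast h3
    have h6 : (3 * (Real.sqrt (2^s) * (4:ℝ)^l))^2 = 9 * 2^s * ((4:ℝ)^l)^2 := by
      rw [mul_pow, mul_pow, Real.sq_sqrt hρ.le]
      ring
    rw [h6]
    exact mul_le_mul_of_nonneg_right h2 (sq_nonneg _)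
  have hs2 : Real.sqrt (∑ k ∈ Finset.Icc (-(2:ℤ)^(s+2)) ((2:ℤ)^(s+2)),
      ‖(fun k => (wb_h l s k : ℂ)) (k+1) - (fun k => (wb_h l s k : ℂ)) k‖^2) ≤
      3 * (Real.sqrt (2^s) * (4^l * (5 + l) * ((2:ℝ)^s)⁻¹)) := by
    rw [Real.sqrt_le_left (by positivity)]
    have h1 : ∑ k ∈ Finset.Icc (-(2:ℤ)^(s+2)) ((2:ℤ)^(s+2)),
        ‖(fun k => (wb_h l s k : ℂ)) (k+1) - (fun k => (wb_h l s k : ℂ)) k‖^2 ≤
        ∑ _k ∈ Finset.Icc (-(2:ℤ)^(s+2)) ((2:ℤ)^(s+2)), (4^l * (5 + l) * ((2:ℝ)^s)⁻¹)^2 :=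
      Finset.sum_le_sum fun k _ => pow_le_pow_left₀ (norm_nonneg _) (by
        simp only [← Complex.ofReal_sub, Complex.norm_real, Real.norm_eq_abs]
        exact wb_h_diff l s k) 2
    refine h1.trans ?_
    rw [Finset.sum_const, nsmul_eq_mul, Int.card_Icc]
    have h2 : (((2:ℤ)^(s+2) + 1 - -(2:ℤ)^(s+2)).toNat : ℝ) ≤ 9 * 2^s := by
      have h3 : ((2:ℤ)^(s+2) + 1 - -(2:ℤ)^(s+2)).toNat ≤ 9 * 2^s := by
        have h4 : (2:ℤ)^(s+2) = 4 * 2^s := by rw [pow_add]; ring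
        rw [h4]
        have h5 : (2:ℤ)^s = ((2^s : ℕ) : ℤ) := by push_cast; rfl
        rw [h5]
        have h6 : 1 ≤ 2^s := Nat.one_le_two_pow
        omega
      exact_mod_cast h3
    have h6 : (3 * (Real.sqrt (2^s) * (4^l * (5 + l) * ((2:ℝ)^s)⁻¹)))^2 =
        9 * 2^s * (4^l * (5 + l) * ((2:ℝ)^s)⁻¹)^2 := by
      rw [mul_pow, mul_pow, Real.sq_sqrt hρ.le]
      ring
    rw [h6]
    exact mul_le_mul_of_nonneg_right h2 (sq_nonneg _)
  have hL : ((2:ℝ)^s)^(-(1/2:ℝ)) * Real.sqrt (2^s) = 1 := by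
    rw [Real.sqrt_eq_rpow, ← Real.rpow_add hρ]
    norm_num
  have hLpos : 0 < ((2:ℝ)^s)^(-(1/2:ℝ)) := Real.rpow_pos_of_pos hρ _
  calc C * ((2:ℝ)^s)^(-(1/2:ℝ)) * (Real.sqrt (∑ k ∈ Finset.Ioo (-(2:ℤ)^(s+2)) ((2:ℤ)^(s+2)),
      ‖(fun k => (wb_h l s k : ℂ)) k‖^2) +
      2^s * Real.sqrt (∑ k ∈ Finset.Icc (-(2:ℤ)^(s+2)) ((2:ℤ)^(s+2)),
      ‖(fun k => (wb_h l s k : ℂ)) (k+1) - (fun k => (wb_h l s k : ℂ)) k‖^2))
      ≤ C * ((2:ℝ)^s)^(-(1/2:ℝ)) * (3 * (Real.sqrt (2^s) * 4^l) +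
        2^s * (3 * (Real.sqrt (2^s) * (4^l * (5 + l) * ((2:ℝ)^s)⁻¹)))) := by
        apply mul_le_mul_of_nonneg_left _ (by positivity)
        exact add_le_add hs1 (mul_le_mul_of_nonneg_left hs2 hρ.le)
    _ = C * (((2:ℝ)^s)^(-(1/2:ℝ)) * Real.sqrt (2^s)) * (3 * 4^l * (6 + l)) := by
        field_simp
        ring
    _ = C * (3 * 4^l * (6 + l)) := by
        rw [hL]
        ring

theorem wb (h1 : S_CS) (_h2 : S_MULT) : S_WB := by
  intro d l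
  obtain ⟨C, hC, hcs⟩ := h1
  set D : ℝ := C * (3 * 4^l * (6 + l)) with hD
  have hDpos : 0 < D := by positivity
  refine ⟨∏ _j : Fin d, D, Finset.prod_pos fun _ _ => hDpos, fun s e φ τ hτ hφ hb x => ?_⟩
  have key := wb_gen (d := d) (fun j k => (wb_h (if j ∈ e then l else 0) (s j) k : ℂ))
    (fun j => (2:ℤ)^(s j + 2)) (fun _ => D) (fun j => ?_) φ τ hτ hφ hb x
  · refine le_trans (le_of_eq ?_) key
    unfold wop boxw wbl
    congr 1
    refine Finset.sum_congr rfl fun k _ => ?_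
    congr 2
    rw [Complex.ofReal_prod]
    refine Finset.prod_congr rfl fun j _ => ?_
    congr 1
    unfold wb_h
    split_ifs
    · rfl
    · rw [pow_zero]
  · refine (wb_L1 C hC hcs _ (s j)).trans ?_
    rw [hD]
    refine mul_le_mul_of_nonneg_left ?_ hC.le
    split_ifs
    · exact le_rfl
    · have h3 : (1:ℝ) ≤ 4^l := one_le_pow₀ (by norm_num)
      have h4 : (0:ℝ) ≤ l := Nat.cast_nonneg l
      rw [pow_zero, Nat.cast_zero]
      nlinarith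

end SmSm
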