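import Pool.Agent.H636R2.SM.SpecH

set_option autoImplicit false

namespace SmSm

lemma WBF_abs (k : ℤ) : |(k : ℝ)| = (k.natAbs : ℝ) := by
  exact (Nat.cast_natAbs (α := ℝ) k).symm ▸ (Int.cast_abs (R := ℝ) (a := k)).symm

lemma WBF_one (s : ℕ) (k : ℤ) (h : k.natAbs ≤ 2 ^ s) : vp s k = 1 := by
  unfold vp
  have h1 : |(k : ℝ)| ≤ 2 ^ s := by
    rw [WBF_abs]
    exact_mod_cast h
  have h2 : |(k : ℝ)| / 2 ^ s ≤ 1 := by
    rw [div_le_one (by positivity)]
    exact h1
  rw [min_eq_left (by linarith), max_eq_right zero_le_one]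

lemma WBF_zero (s : ℕ) (k : ℤ) (h : 2 ^ (s + 1) ≤ k.natAbs) : vp s k = 0 := by
  unfold vp
  have h1 : (2 : ℝ) ^ (s + 1) ≤ |(k : ℝ)| := by
    rw [WBF_abs]
    exact_mod_cast h
  have h2 : 2 ≤ |(k : ℝ)| / 2 ^ s := by
    rw [le_div_iff₀ (by positivity)]
    calc (2 : ℝ) * 2 ^ s = 2 ^ (s + 1) := by ring
      _ ≤ _ := h1
  exact max_eq_left ((min_le_right _ _).trans (by linarith))

lemma WBF_nonneg (s : ℕ) (k : ℤ) : 0 ≤ vp s k := le_max_left _ _

lemma WBF_le_one (s : ℕ) (k : ℤ) : vp s k ≤ 1 :=
  max_le zero_le_one (min_le_left _ _)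

lemma WBF_mono {s s' : ℕ} (h : s ≤ s') (k : ℤ) : vp s k ≤ vp s' k := by
  unfold vp
  refine max_le_max le_rfl (min_le_min le_rfl ?_)
  have : |(k : ℝ)| / 2 ^ s' ≤ |(k : ℝ)| / 2 ^ s := by
    gcongr
    norm_num
  linarith

theorem wbf : S_WBF := by
  refine ⟨?_, ?_, ?_, ?_⟩
  · intro s k
    unfold wv
    split_ifs with h
    · rw [sub_zero]; exact ⟨WBF_nonneg _ _, WBF_le_one _ _⟩
    · have h1 := WBF_mono (show s - 2 ≤ s + 1 by omega) k
      have h2 := WBF_nonneg (s - 2) k
      have h3 := WBF_le_one (s + 1) k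
      constructor <;> linarith
  · intro s k h
    have h1 : k.natAbs < 2 ^ s := by rw [← h]; exact Nat.lt_size_self _
    unfold wv
    rw [WBF_one (s + 1) k (by rw [pow_succ]; omega)]
    split_ifs with hs
    · simp
    · have h2 : 2 ^ (s - 1) ≤ k.natAbs := by
        rw [← Nat.lt_size, h]; omega
      rw [WBF_zero (s - 2) k (by rw [show s - 2 + 1 = s - 1 by omega]; exact h2), sub_zero]
  · intro s k h
    have h1 : k.natAbs < 2 ^ (s + 1) := by
      by_contra hc
      push_neg at hc
      apply h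
      unfold va
      rw [WBF_zero s k hc]
      split_ifs with hs
      · simp
      · rw [WBF_zero (s - 1) k ?_, sub_zero]
        refine le_trans ?_ hc
        exact Nat.pow_le_pow_right (by norm_num) (by omega)
    unfold wv
    rw [WBF_one (s + 1) k h1.le]
    split_ifs with hs
    · simp
    · have h2 : 2 ^ (s - 1) ≤ k.natAbs := by
        by_contra hc
        push_neg at hc
        apply h
        unfold va
        rw [if_neg (by omega), WBF_one (s - 1) k hc.le, WBF_one s k ?_, sub_self]
        exact hc.le.trans (Nat.pow_le_pow_right (by norm_num) (by omega))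
      rw [WBF_zero (s - 2) k (by rw [show s - 2 + 1 = s - 1 by omega]; exact h2), sub_zero]
  · intro s k h
    constructor
    · by_contra hc
      push_neg at hc
      apply h
      have h1 : k.natAbs < 2 ^ (s - 2) := by
        rw [← Nat.size_le]; omega
      unfold wv
      rw [if_neg (by omega), WBF_one (s - 2) k h1.le, WBF_one (s + 1) k ?_, sub_self]
      exact h1.le.trans (Nat.pow_le_pow_right (by norm_num) (by omega))
    · rw [Nat.size_le]
      by_contra hc
      push_neg at hc
      apply h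
      unfold wv
      rw [WBF_zero (s + 1) k hc]
      split_ifs with hs
      · simp
      · rw [WBF_zero (s - 2) k ?_, sub_zero]
        refine le_trans ?_ hc
        exact Nat.pow_le_pow_right (by norm_num) (by omega)

end SmSm
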