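import Pool.Agent.H636R2.SM.ALL
import Pool.Agent.H636R2.SM.SpecP
import Pool.Agent.H636R2.SM.MULT
import Pool.Agent.H636R2.SM.WBF
import Pool.Agent.H636R2.SM.WB
import Pool.Agent.H636R2.SM.SUMS
import Pool.Agent.H636R2.SM.HMEM
import Pool.Agent.H636R2.SM.HMOM
import Pool.Agent.H636R2.SM.HEXA
import Pool.Agent.H636R2.SM.HPHI
import Pool.Agent.H636R2.SM.ENTJ
import Pool.Agent.H636R2.SM.PIGH
import Pool.Agent.H636R2.SM.FAMHA
import Pool.Agent.H636R2.SM.FAMHB
import Pool.Agent.H636R2.SM.LOWHA0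
import Pool.Agent.H636R2.SM.LOWHB0
import Pool.Agent.H636R2.SM.NUMLHA
import Pool.Agent.H636R2.SM.NUMLHB
import Pool.Agent.H636R2.SM.JACK
import Pool.Agent.H636R2.SM.SYNH
import Pool.Agent.H636R2.SM.HSPLIT
import Pool.Agent.H636R2.SM.NUMUHA
import Pool.Agent.H636R2.SM.NUMUHB
import Pool.Agent.H636R2.SM.UPHA
import Pool.Agent.H636R2.SM.UPHB
import Pool.Agent.H636R2.SM.BDDH
import Pool.Agent.H636R2.SM.ADMH
import Pool.Agent.H636R2.SM.FINALH
import Pool.Agent.H636R2.SM.VK
import Pool.Agent.H636R2.SM.HLD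
import Pool.Agent.H636R2.SM.MZ
import Pool.Agent.H636R2.SM.RCN
import Pool.Agent.H636R2.SM.CNT
import Pool.Agent.H636R2.SM.ANN
import Pool.Agent.H636R2.SM.LEV
import Pool.Agent.H636R2.SM.LEVF
import Pool.Agent.H636R2.SM.LSUP
import Pool.Agent.H636R2.SM.HDEC
import Pool.Agent.H636R2.SM.NUMP
import Pool.Agent.H636R2.SM.FINP
import Pool.Agent.H636R2.SM.FINALW
import Pool.Agent.H636R2.SM.HREAL
import Pool.Agent.H636R2.SM.HFIN
import Pool.Agent.H636R2.SM.HK0

/-! All tasks of the second and third part put together. -/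

namespace SmSm

theorem all_wb : S_WB := wb cs mult
theorem all_hmem : S_HMEM := hmem all_wb sums
theorem all_hphi : S_HPHI := hphi mom hmom hexa
theorem all_famha : S_FAMHA := famha all_sep all_kexp all_hphi all_hmem wbf
theorem all_famhb : S_FAMHB := famhb all_sep all_hexp all_hphi all_hmem wbf
theorem all_lowha0 : S_LOWHA0 := lowha0 all_famha pigh entj
theorem all_lowhb0 : S_LOWHB0 := lowhb0 all_famhb pigh entj
theorem all_jack : S_JACK := jack cs mult vpf
theorem all_synh : S_SYNH := synh all_wb wbf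
theorem all_hsplit : S_HSPLIT := hsplit all_jack all_synh wbf vpf
theorem all_upha : S_UPHA := upha all_hsplit numuha
theorem all_uphb : S_UPHB := uphb all_hsplit joint numuhb
theorem all_bddh : S_BDDH := bddh all_hsplit
theorem all_finalh : S_FINALH :=
  finalh all_lowha0 all_lowhb0 numlha numlhb all_upha all_uphb all_bddh cu admh

theorem all_hld : S_HLD := hld vk_ok
theorem all_mz : S_MZ := mz vk_ok all_hld
theorem all_rcn : S_RCN := rcn vpf
theorem all_lev : S_LEV := lev_net cnt all_mz all_rcn ann_ok entj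
theorem all_levf : S_LEVF := levf all_lev all_rcn ann_ok
theorem all_lsup : S_LSUP := lsup all_mz ann_ok
theorem all_hdec : S_HDEC := hdec all_jack all_lsup vpf
theorem all_finp : S_FINP := finp all_lev all_levf all_lsup all_hdec nump
theorem all_hfin : S_HFIN := hfin all_finp
theorem all_finalw : S_FINALW :=
  finalw all_lowa0 all_lowb0 numla numlb all_upa all_upb all_bdd cu adm
theorem all_hk0 : S_HK0 := hk0 hreal

end SmSm
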