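import Pool.Agent.H636R2.SM.SpecQ
import Pool.Agent.H636R2.SM.VPB
open MeasureTheory Real ProbabilityTheory
open scoped ENNReal BigOperators

/-!
BLQ: smooth blocks, from `L_1` to `L_q`.
-/

namespace SmSm
open HypVol MWidth

/-- size of the one dimensional multiplier -/
theorem blq_a (h3 : S_VPF) (r α : ℝ) (hr : 0 ≤ r) (s : ℕ) (k : ℤ) :
    ‖vpb_a r α s k‖ ≤ (2:ℝ)^r * (2:ℝ)^(-(r * (s:ℝ))) := by
  have hpos : (0:ℝ) ≤ (2:ℝ)^r * (2:ℝ)^(-(r * (s:ℝ))) := by positivity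
  by_cases hv : va s k = 0
  · unfold vpb_a
    rw [hv]
    simpa using hpos
  have hva : |va s k| ≤ 1 := by
    rw [abs_of_nonneg (h3.1 s k).1]
    exact (h3.1 s k).2
  have h := h3.2.1 s k hv
  have hsplit : (2:ℝ)^r * (2:ℝ)^(-(r * (s:ℝ))) = (2:ℝ)^(r * (1 - s)) := by
    rw [← Real.rpow_add (by norm_num)]
    congr 1
    ring
  unfold vpb_a
  rw [norm_mul, Complex.norm_real, Real.norm_eq_abs]
  by_cases hk : k = 0
  · rw [if_pos hk, norm_one, one_mul]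
    refine hva.trans ?_
    have hs : s = 0 := by
      rw [hk] at h
      simp at h
      exact h
    rw [hsplit, hs]
    refine Real.one_le_rpow (by norm_num) ?_
    simpa using hr
  · rw [if_neg hk, norm_mul, Complex.norm_real]
    have e1 : ‖Complex.exp (-(Complex.I * (((SignType.sign k : ℤ) : ℝ) * α * π / 2 : ℝ)))‖ = 1 := by
      rw [← mul_neg, ← Complex.ofReal_neg, Complex.norm_exp_I_mul_ofReal]
    rw [e1, mul_one]
    have hk1 : (1:ℝ) ≤ |(k:ℝ)| := by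
      have : (1:ℤ) ≤ |k| := Int.one_le_abs hk
      exact_mod_cast this
    have hks : (2:ℝ)^((s:ℝ) - 1) ≤ |(k:ℝ)| := by
      by_cases hs : s = 0
      · rw [hs]
        refine le_trans ?_ hk1
        refine Real.rpow_le_one_of_one_le_of_nonpos (by norm_num) ?_
        simp
      · have hlo : 2^(s-1) ≤ k.natAbs := by
          have : s - 1 < Nat.size k.natAbs := by omega
          exact Nat.lt_size.1 this
        have hlo' : (2:ℝ)^(s-1) ≤ |(k:ℝ)| := by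
          have : ((2^(s-1) : ℕ) : ℝ) ≤ (k.natAbs : ℝ) := by exact_mod_cast hlo
          rw [Nat.cast_natAbs] at this
          push_cast at this
          exact this
        have e2 : (s:ℝ) - 1 = ((s-1 : ℕ) : ℝ) := by
          rw [Nat.cast_sub (Nat.one_le_iff_ne_zero.2 hs)]
          simp
        rw [e2, Real.rpow_natCast]
        exact hlo'
    have h5 : |(k:ℝ)|^(-r) ≤ (2:ℝ)^(r * (1 - s)) := by
      have e3 : (2:ℝ)^(r * (1 - s)) = ((2:ℝ)^((s:ℝ) - 1))^(-r) := by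
        rw [← Real.rpow_mul (by norm_num)]
        congr 1
        ring
      rw [e3]
      exact Real.rpow_le_rpow_of_nonpos (by positivity) hks (by linarith)
    rw [hsplit, Real.norm_of_nonneg (by positivity)]
    calc |(k:ℝ)|^(-r) * |va s k| ≤ (2:ℝ)^(r * (1 - s)) * 1 :=
          mul_le_mul h5 hva (abs_nonneg _) (by positivity)
      _ = _ := mul_one _

/-- the product of the one dimensional multipliers -/
theorem blq_prod {d : ℕ} (r : ℝ) (α : Fin d → ℝ) (s : Fin d → ℕ) (k : Fin d → ℤ) :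
    Fh r α k * (blk s k : ℂ) = ∏ j, vpb_a r (α j) (s j) (k j) := by
  unfold Fh blk vpb_a
  rw [Finset.prod_mul_distrib]
  push_cast
  rfl

theorem blq_sup (h3 : S_VPF) {d : ℕ} (r : ℝ) (hr : 0 ≤ r) (α : Fin d → ℝ) (s : Fin d → ℕ)
    (φ : (Fin d → ℝ) → ℂ) (hφ : MemLp φ 1 (TP d)) (hφ1 : eLpNorm φ 1 (TP d) ≤ 1) (x : Fin d → ℝ) :
    ‖op r α s φ x‖ ≤ (4 * (2:ℝ)^r)^d * ((2:ℝ)^(-(r * ∑ j, (s j : ℝ))) * (2:ℝ)^(∑ j, (s j : ℝ))) := by
  have hchi : ∀ (k : Fin d → ℤ) (y : Fin d → ℝ), ‖chi k y‖ = 1 := by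
    intro k y
    unfold chi
    rw [Complex.norm_exp_I_mul_ofReal]
  have hfc : ∀ k : Fin d → ℤ, ‖fc φ k‖ ≤ 1 := by
    intro k
    unfold fc
    refine (norm_integral_le_integral_norm _).trans ?_
    have e : ∀ y : Fin d → ℝ, ‖φ y * Complex.exp (-(Complex.I * ((∑ j, (k j : ℝ) * y j : ℝ) : ℂ)))‖ =
        ‖φ y‖ := by
      intro y
      rw [norm_mul, ← mul_neg, ← Complex.ofReal_neg, Complex.norm_exp_I_mul_ofReal, mul_one]
    simp only [e]
    have h1 : eLpNorm φ 1 (TP d) = ENNReal.ofReal (∫ y, ‖φ y‖ ∂(TP d)) := by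
      rw [eLpNorm_one_eq_lintegral_enorm, ofReal_integral_norm_eq_lintegral_enorm (memLp_one_iff_integrable.1 hφ)]
    rw [h1] at hφ1
    have := ENNReal.toReal_mono ENNReal.one_ne_top hφ1
    rw [ENNReal.toReal_ofReal (integral_nonneg fun _ => norm_nonneg _)] at this
    simpa using this
  have hterm : ∀ k ∈ boxs s, ‖Fh r α k * (blk s k : ℂ) * fc φ k * chi k x‖ ≤
      ((2:ℝ)^r)^d * (2:ℝ)^(-(r * ∑ j, (s j : ℝ))) := by
    intro k _
    rw [norm_mul, hchi, mul_one, norm_mul, blq_prod, norm_prod]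
    have h1 : ∏ j, ‖vpb_a r (α j) (s j) (k j)‖ ≤ ∏ j : Fin d, ((2:ℝ)^r * (2:ℝ)^(-(r * (s j : ℝ)))) :=
      Finset.prod_le_prod (fun j _ => norm_nonneg _) fun j _ => blq_a h3 r (α j) hr (s j) (k j)
    have h2 : ∏ j : Fin d, ((2:ℝ)^r * (2:ℝ)^(-(r * (s j : ℝ)))) =
        ((2:ℝ)^r)^d * (2:ℝ)^(-(r * ∑ j, (s j : ℝ))) := by
      rw [Finset.prod_mul_distrib, Finset.prod_const, Finset.card_univ, Fintype.card_fin,
        Finset.mul_sum, ← Finset.sum_neg_distrib, Real.rpow_sum_of_pos (by norm_num)]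
    rw [h2] at h1
    calc (∏ j, ‖vpb_a r (α j) (s j) (k j)‖) * ‖fc φ k‖ ≤
          (((2:ℝ)^r)^d * (2:ℝ)^(-(r * ∑ j, (s j : ℝ)))) * 1 :=
          mul_le_mul h1 (hfc k) (norm_nonneg _) (by positivity)
      _ = _ := mul_one _
  have hcard : ((boxs s).card : ℝ) ≤ 4^d * (2:ℝ)^(∑ j, (s j : ℝ)) := by
    unfold boxs
    rw [Fintype.card_piFinset, Real.rpow_sum_of_pos (by norm_num)]
    have e4 : (4:ℝ)^d = ∏ _j : Fin d, (4:ℝ) := by
      rw [Finset.prod_const, Finset.card_univ, Fintype.card_fin]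
    rw [e4, ← Finset.prod_mul_distrib]
    push_cast
    refine Finset.prod_le_prod (fun j _ => by positivity) fun j _ => ?_
    rw [Int.card_Ioo, Real.rpow_natCast]
    have h6 : ((2:ℤ)^(s j + 1) - -(2:ℤ)^(s j + 1) - 1).toNat ≤ 4 * 2^(s j) := by
      have e5 : (2:ℤ)^(s j) = ((2^(s j) : ℕ) : ℤ) := by push_cast; rfl
      rw [pow_succ, e5]
      omega
    calc (((2:ℤ)^(s j + 1) - -(2:ℤ)^(s j + 1) - 1).toNat : ℝ) ≤ ((4 * 2^(s j) : ℕ) : ℝ) := by
          exact_mod_cast h6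
      _ = _ := by push_cast; ring
  unfold op
  refine (norm_sum_le _ _).trans ((Finset.sum_le_sum hterm).trans ?_)
  rw [Finset.sum_const, nsmul_eq_mul]
  calc ((boxs s).card : ℝ) * (((2:ℝ)^r)^d * (2:ℝ)^(-(r * ∑ j, (s j : ℝ))))
      ≤ (4^d * (2:ℝ)^(∑ j, (s j : ℝ))) * (((2:ℝ)^r)^d * (2:ℝ)^(-(r * ∑ j, (s j : ℝ)))) :=
        mul_le_mul_of_nonneg_right hcard (by positivity)
    _ = _ := by rw [mul_pow]; ring

theorem blq_one (h1 : S_VP1) (h4 : S_MULT) (d : ℕ) (r : ℝ) (α : Fin d → ℝ) : ∃ C : ℝ, 0 < C ∧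
    ∀ (s : Fin d → ℕ) (φ : (Fin d → ℝ) → ℂ), MemLp φ 1 (TP d) → eLpNorm φ 1 (TP d) ≤ 1 →
      eLpNorm (op r α s φ) 1 (TP d) ≤ ENNReal.ofReal (C * (2:ℝ)^(-(r * ∑ j, (s j : ℝ)))) := by
  choose C hC hCb using fun j : Fin d => h1 r (α j)
  refine ⟨∏ j, C j, Finset.prod_pos fun j _ => hC j, fun s φ hφ hφ1 => ?_⟩
  have h5 := h4 d 1 (fun j => 2^(s j + 1)) (fun j k => vpb_a r (α j) (s j) k)
    (fun j => C j * (2:ℝ)^(-(r * (s j : ℝ)))) φ le_rfl hφ
    (fun j => mul_nonneg (hC j).le (by positivity)) (fun j => by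
      have := hCb j (s j)
      simp only [Nat.cast_pow, Nat.cast_ofNat]
      exact this)
  have e1 : (fun x => ∑ k ∈ Fintype.piFinset (fun j => Finset.Ioo (-(((fun j => 2^(s j + 1)) j : ℕ):ℤ))
      (((fun j => 2^(s j + 1)) j : ℕ) : ℤ)), (∏ j, vpb_a r (α j) (s j) (k j)) * fc φ k * chi k x) =
      op r α s φ := by
    funext x
    unfold op boxs
    push_cast
    refine Finset.sum_congr rfl fun k _ => ?_
    rw [blq_prod]
  rw [e1] at h5
  refine h5.trans ?_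
  have h7 : ∏ j, (C j * (2:ℝ)^(-(r * (s j : ℝ)))) =
      (∏ j, C j) * (2:ℝ)^(-(r * ∑ j, (s j : ℝ))) := by
    rw [Finset.prod_mul_distrib, Finset.mul_sum, ← Finset.sum_neg_distrib,
      Real.rpow_sum_of_pos (by norm_num)]
  rw [h7]
  calc _ ≤ ENNReal.ofReal ((∏ j, C j) * (2:ℝ)^(-(r * ∑ j, (s j : ℝ)))) * 1 :=
        mul_le_mul_right hφ1 _
    _ = _ := mul_one _

/-- interpolation between `L_1` and `L_∞` -/
theorem blq_int {d : ℕ} (u : (Fin d → ℝ) → ℂ) (q A B : ℝ) (hq : 1 ≤ q) (hA : 0 ≤ A) (hB : 0 ≤ B)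
    (h1 : eLpNorm u 1 (TP d) ≤ ENNReal.ofReal A) (h2 : ∀ x, ‖u x‖ ≤ B) :
    eLpNorm u (ENNReal.ofReal q) (TP d) ≤ ENNReal.ofReal ((B^(q-1) * A)^(1/q)) := by
  have hq0 : 0 < q := by linarith
  rw [eLpNorm_eq_lintegral_rpow_enorm_toReal (by simpa using hq0) ENNReal.ofReal_ne_top,
    ENNReal.toReal_ofReal hq0.le]
  rw [← ENNReal.ofReal_rpow_of_nonneg (by positivity) (by positivity)]
  refine ENNReal.rpow_le_rpow ?_ (by positivity)
  rw [ENNReal.ofReal_mul (by positivity)]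
  have h3 : ∀ x, ‖u x‖ₑ^q ≤ ENNReal.ofReal (B^(q-1)) * ‖u x‖ₑ := by
    intro x
    have e : ‖u x‖ₑ^q = ‖u x‖ₑ^(q-1) * ‖u x‖ₑ := by
      conv_rhs => rw [← ENNReal.rpow_one ‖u x‖ₑ, ← ENNReal.rpow_mul, one_mul]
      rw [← ENNReal.rpow_add_of_nonneg _ _ (by linarith) (by norm_num)]
      congr 1
      ring
    rw [e]
    refine mul_le_mul_left ?_ _
    rw [← ENNReal.ofReal_rpow_of_nonneg hB (by linarith)]
    refine ENNReal.rpow_le_rpow ?_ (by linarith)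
    rw [← ofReal_norm]
    exact ENNReal.ofReal_le_ofReal (h2 x)
  refine (lintegral_mono h3).trans ?_
  rw [lintegral_const_mul' _ _ ENNReal.ofReal_ne_top]
  refine mul_le_mul_right ?_ _
  rw [← eLpNorm_one_eq_lintegral_enorm]
  exact h1

theorem blq (h1 : S_VP1) (_h2 : S_INTQ) (h3 : S_VPF) (h4 : S_MULT) : S_BLQ := by
  intro d r α q hr hq _hq2
  obtain ⟨C, hC, hCb⟩ := blq_one h1 h4 d r α
  have hq0 : 0 < q := by linarith
  refine ⟨(((4 * (2:ℝ)^r)^d)^(q-1) * C)^(1/q), by positivity, fun s φ hφ hφ1 => ?_⟩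
  set S : ℝ := ∑ j, (s j : ℝ) with hS
  have hs1 := hCb s φ hφ hφ1
  have hs2 := blq_sup h3 r hr α s φ hφ hφ1
  refine (blq_int _ q _ _ hq (by positivity) (by positivity) hs1 hs2).trans ?_
  refine ENNReal.ofReal_le_ofReal (le_of_eq ?_)
  rw [← hS]
  have e1 : ((4 * (2:ℝ)^r)^d * ((2:ℝ)^(-(r * S)) * (2:ℝ)^S))^(q-1) * (C * (2:ℝ)^(-(r * S))) =
      (((4 * (2:ℝ)^r)^d)^(q-1) * C) * (2:ℝ)^((q-1) * (-(r * S) + S) + -(r * S)) := by
    rw [Real.mul_rpow (by positivity) (by positivity), ← Real.rpow_add (by norm_num),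
      ← Real.rpow_mul (by norm_num), Real.rpow_add (by norm_num : (0:ℝ) < 2) ((q-1) * (-(r * S) + S))]
    rw [mul_comm (-(r * S) + S) (q - 1)]
    ring
  rw [e1, Real.mul_rpow (by positivity) (by positivity), ← Real.rpow_mul (by norm_num)]
  congr 2
  field_simp
  ring

end SmSm
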