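import Pool.Agent.H636R2.SM.SpecQ
import Pool.Agent.H636R2.SM.HDEC
open MeasureTheory Real ProbabilityTheory
open scoped ENNReal BigOperators

/-! DEC1: decomposition of the functions of the class `W^r_1`.  helper329. -/

namespace SmSm
open HypVol HypVol.Sol_KX_wf_split HypVol.Sol_KX_ml_bdd MWidth

theorem dec1 (h1 : S_BLQ) (h2 : S_VPF) (h3 : S_ANN) : S_DEC1 := by
  intro d hd r α q hr hq1 hq2 hrq
  have hρ : 0 < r - 1 + 1/q := by linarith
  obtain ⟨ρ, hρe⟩ : ∃ ρ, ρ = r - 1 + 1/q := ⟨_, rfl⟩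
  obtain ⟨C, hC, hblq⟩ := h1 d r α q hr.le hq1 hq2
  refine ⟨C, hC, ?_⟩
  intro f φ hf hφ hφn hfc n1
  have := TP_prob d
  have hqe1 : (1 : ℝ≥0∞) ≤ ENNReal.ofReal q := by
    rw [← ENNReal.ofReal_one]
    exact ENNReal.ofReal_le_ofReal hq1
  rw [← hρe] at hblq hρ
  simp only [← hρe]
  -- the bounds
  obtain ⟨b, hb⟩ : ∃ b : ℕ → ℝ, ∀ n, b n = ((n:ℝ)+1)^(d-1) * (2:ℝ)^(-(ρ * (n:ℝ))) := ⟨_, fun _ => rfl⟩
  have hb0 : ∀ n, 0 ≤ b n := fun n => by rw [hb]; positivity
  have hbs : Summable b := by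
    have h := split_geo (d-1) q (1/q + ρ) (by linarith)
    have e : 1/q - (1/q + ρ) = -ρ := by ring
    rw [e] at h
    refine h.congr fun n => ?_
    rw [hb, ← Real.rpow_natCast ((2:ℝ)^(-ρ)) n, ← Real.rpow_mul (by norm_num)]
    congr 2
    ring
  obtain ⟨L, hL⟩ : ∃ L : ℕ → (Fin d → ℝ) → ℂ, ∀ μ, L μ = fun x => ∑ s ∈ lev d μ, op r α s φ x :=
    ⟨_, fun _ => rfl⟩
  have hopc : ∀ s, Continuous (op r α s φ) := fun s => syn_op_cont r α s φ
  have hLc : ∀ μ, Continuous (L μ) := by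
    intro μ
    rw [hL]
    exact continuous_finsetSum _ fun s _ => hopc s
  have hLb : ∀ μ, eLpNorm (L μ) (ENNReal.ofReal q) (TP d) ≤ ENNReal.ofReal (C * b μ) := by
    intro μ
    have e : L μ = ∑ s ∈ lev d μ, op r α s φ := by
      rw [hL]; funext x; simp
    rw [e]
    refine (eLpNorm_sum_le (fun s _ => (hopc s).aestronglyMeasurable) hqe1).trans ?_
    have h4 : ∀ s ∈ lev d μ, eLpNorm (op r α s φ) (ENNReal.ofReal q) (TP d) ≤
        ENNReal.ofReal (C * (2:ℝ)^(-(ρ * (μ:ℝ)))) := by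
      intro s hs
      have h5 := hblq s φ hφ hφn
      have h6 : (∑ j, (s j : ℝ)) = (μ:ℝ) := by
        rw [← (hdec_lev μ s).1 hs]; push_cast; rfl
      rw [h6] at h5
      exact h5
    refine (Finset.sum_le_sum h4).trans ?_
    rw [Finset.sum_const, nsmul_eq_mul, ← ENNReal.ofReal_natCast, ← ENNReal.ofReal_mul (by positivity)]
    apply ENNReal.ofReal_le_ofReal
    rw [hb]
    have h7 := (h3 d hd μ).1
    calc ((lev d μ).card : ℝ) * (C * (2:ℝ)^(-(ρ * (μ:ℝ))))
        ≤ ((μ:ℝ)+1)^(d-1) * (C * (2:ℝ)^(-(ρ * (μ:ℝ)))) := by gcongr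
      _ = _ := by ring
  have hL1 : ∀ μ, eLpNorm (L μ) 1 (TP d) ≤ ENNReal.ofReal (C * b μ) := fun μ =>
    (eLpNorm_le_eLpNorm_of_exponent_le hqe1 (hLc μ).aestronglyMeasurable).trans (hLb μ)
  have hLi : ∀ μ, Integrable (L μ) (TP d) := fun μ =>
    MemLp.integrable le_rfl ⟨(hLc μ).aestronglyMeasurable, (hL1 μ).trans_lt ENNReal.ofReal_lt_top⟩
  have hopi : ∀ s, Integrable (op r α s φ) (TP d) := fun s =>
    MemLp.integrable hqe1 ⟨(hopc s).aestronglyMeasurable,
      (hblq s φ hφ hφn).trans_lt ENNReal.ofReal_lt_top⟩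
  -- almost everywhere summability
  have hfin : ∫⁻ x, ∑' μ, ‖L μ x‖ₑ ∂(TP d) ≠ ⊤ := by
    rw [lintegral_tsum (fun μ => (hLc μ).aestronglyMeasurable.enorm)]
    have h4 : ∑' μ, ∫⁻ x, ‖L μ x‖ₑ ∂(TP d) ≤ ∑' μ, ENNReal.ofReal (C * b μ) := by
      refine ENNReal.tsum_le_tsum fun μ => ?_
      rw [← eLpNorm_one_eq_lintegral_enorm]
      exact hL1 μ
    refine ne_top_of_le_ne_top ?_ h4
    rw [← ENNReal.ofReal_tsum_of_nonneg (fun μ => mul_nonneg hC.le (hb0 μ)) (hbs.mul_left C)]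
    exact ENNReal.ofReal_ne_top
  have hae : ∀ᵐ x ∂(TP d), Summable (fun μ => L μ x) := by
    have h4 := ae_lt_top' (AEMeasurable.tsum fun μ => (hLc μ).aestronglyMeasurable.enorm) hfin
    filter_upwards [h4] with x hx
    have h5 : Summable (fun μ => ‖L μ x‖₊) := ENNReal.tsum_coe_ne_top_iff_summable.1 hx.ne
    exact Summable.of_norm (NNReal.summable_coe.2 h5)
  obtain ⟨g, hg⟩ : ∃ g : (Fin d → ℝ) → ℂ, ∀ x, g x = ∑' μ, L μ x := ⟨_, fun _ => rfl⟩
  have hpart : ∀ᵐ x ∂(TP d), Filter.Tendsto (fun N => ∑ μ ∈ Finset.range N, L μ x) Filter.atTop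
      (nhds (g x)) := by
    filter_upwards [hae] with x hx
    rw [hg]
    exact hx.hasSum.tendsto_sum_nat
  have hgm : AEStronglyMeasurable g (TP d) := by
    refine aestronglyMeasurable_of_tendsto_ae Filter.atTop (fun N => ?_) hpart
    exact (continuous_finsetSum _ fun μ _ => hLc μ).aestronglyMeasurable
  have hgi : Integrable g (TP d) := by
    refine ⟨hgm, ?_⟩
    refine lt_of_le_of_lt ?_ (lt_top_iff_ne_top.2 hfin)
    refine lintegral_mono_ae ?_
    filter_upwards [hae] with x hx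
    rw [hg]
    by_cases hs : Summable (fun μ => ‖L μ x‖)
    · have h5 : ‖∑' μ, L μ x‖ ≤ ∑' μ, ‖L μ x‖ := norm_tsum_le_tsum_norm hs
      calc ‖∑' μ, L μ x‖ₑ = ENNReal.ofReal ‖∑' μ, L μ x‖ := (ofReal_norm _).symm
        _ ≤ ENNReal.ofReal (∑' μ, ‖L μ x‖) := ENNReal.ofReal_le_ofReal h5
        _ = ∑' μ, ENNReal.ofReal ‖L μ x‖ := ENNReal.ofReal_tsum_of_nonneg (fun _ => norm_nonneg _) hs
        _ = _ := by simp only [ofReal_norm]
    · exact absurd hx.norm hs
  have hfi : Integrable f (TP d) := hf.integrable le_rfl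
  have hgf : ∀ k, fc g k = fc f k := by
    intro k
    have hI : ∀ μ, Integrable (fun x => L μ x * wchr (-k) x) (TP d) := fun μ =>
      split_int_mul _ (hLi μ) k
    have hnorm : ∀ μ, ∫ x, ‖L μ x * wchr (-k) x‖ ∂(TP d) ≤ C * b μ := by
      intro μ
      have e : ∀ x, ‖L μ x * wchr (-k) x‖ = ‖L μ x‖ := fun x => by
        rw [norm_mul, wchr_norm, mul_one]
      simp only [e]
      rw [integral_norm_eq_lintegral_enorm (hLc μ).aestronglyMeasurable]
      refine ENNReal.toReal_le_of_le_ofReal (mul_nonneg hC.le (hb0 μ)) ?_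
      rw [← eLpNorm_one_eq_lintegral_enorm]
      exact hL1 μ
    have hS : Summable (fun μ => ∫ x, ‖L μ x * wchr (-k) x‖ ∂(TP d)) :=
      Summable.of_nonneg_of_le (fun μ => integral_nonneg fun x => norm_nonneg _) hnorm (hbs.mul_left C)
    have h5 := hasSum_integral_of_summable_integral_norm hI hS
    have h6 : ∀ μ, ∫ x, L μ x * wchr (-k) x ∂(TP d) = (∑ s ∈ lev d μ, (blk s k : ℂ)) * fc f k := by
      intro μ
      have e : (fun x => L μ x * wchr (-k) x) =
          fun x => ∑ s ∈ lev d μ, op r α s φ x * wchr (-k) x := by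
        funext x
        rw [hL, Finset.sum_mul]
      rw [e, integral_finsetSum _ fun s _ => split_int_mul _ (hopi s) k, Finset.sum_mul]
      refine Finset.sum_congr rfl fun s _ => ?_
      rw [syn_fc_op h2, hfc]
      ring
    simp only [h6] at h5
    have h7 := (hdec_blk h2 k).mul_right (fc f k)
    have h8 := h5.unique h7
    rw [one_mul] at h8
    rw [← h8, wfc]
    congr 1
    funext x
    rw [hg, tsum_mul_right]
  have hzero := fc_unique (fun x => f x + (-1 : ℂ) * g x)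
    (hfi.add (hgi.const_mul _)) (by
    intro k
    rw [split_fc_add f (fun x => (-1 : ℂ) * g x) hfi (hgi.const_mul _),
      split_fc_smul, hgf]
    ring)
  -- the tail
  have hlim : ∀ᵐ x ∂(TP d), Filter.Tendsto (fun N => (∑ μ ∈ Finset.range N, L (μ + n1)) x) Filter.atTop
      (nhds (f x - lop (Finset.range n1) r α φ x)) := by
    filter_upwards [hzero, hae] with x hx hs
    have hx' : f x + (-1 : ℂ) * g x = 0 := hx
    have hx2 : f x = g x := by linear_combination hx'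
    have h9 := ((summable_nat_add_iff n1).2 hs).hasSum.tendsto_sum_nat
    have h10 := hs.sum_add_tsum_nat_add n1
    have h11 : ∑' i, L (i + n1) x = f x - lop (Finset.range n1) r α φ x := by
      rw [hx2, hg, ← h10]
      unfold lop
      have : ∀ i, L i x = ∑ s ∈ lev d i, op r α s φ x := fun i => by rw [hL]
      simp only [this]
      ring
    rw [h11] at h9
    refine h9.congr fun N => ?_
    rw [Finset.sum_apply]
  have hmeas : ∀ N, AEStronglyMeasurable (∑ μ ∈ Finset.range N, L (μ + n1)) (TP d) := by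
    intro N
    have hc : Continuous (∑ μ ∈ Finset.range N, L (μ + n1)) := by
      have e : (∑ μ ∈ Finset.range N, L (μ + n1)) = fun x => ∑ μ ∈ Finset.range N, L (μ + n1) x := by
        funext x; simp
      rw [e]
      exact continuous_finsetSum _ fun μ _ => hLc (μ + n1)
    exact hc.aestronglyMeasurable
  have hfatou : eLpNorm (fun x => f x - lop (Finset.range n1) r α φ x) (ENNReal.ofReal q) (TP d) ≤
      Filter.atTop.liminf fun N => eLpNorm (∑ μ ∈ Finset.range N, L (μ + n1)) (ENNReal.ofReal q) (TP d) :=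
    Lp.eLpNorm_lim_le_liminf_eLpNorm hmeas _ hlim
  refine hfatou.trans ?_
  refine Filter.liminf_le_of_le (by isBoundedDefault) ?_
  intro a ha
  obtain ⟨N, hN⟩ := ha.exists
  refine hN.trans ?_
  refine (eLpNorm_sum_le (fun μ _ => (hLc (μ + n1)).aestronglyMeasurable) hqe1).trans ?_
  refine (Finset.sum_le_sum fun μ _ => hLb (μ + n1)).trans ?_
  rw [← ENNReal.ofReal_sum_of_nonneg (fun μ _ => mul_nonneg hC.le (hb0 _))]
  apply ENNReal.ofReal_le_ofReal
  rw [← Finset.mul_sum]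
  refine mul_le_mul_of_nonneg_left ?_ hC.le
  have h12 : ∀ n : ℕ, (((n + n1 : ℕ) : ℝ)+1)^(d-1) * (2:ℝ)^(-(ρ * ((n + n1 : ℕ) : ℝ))) = b (n + n1) :=
    fun n => (hb _).symm
  simp only [h12]
  exact ((summable_nat_add_iff n1).2 hbs).sum_le_tsum _ (fun n _ => hb0 _)

end SmSm
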