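import Pool.Agent.H636R2.SM.SpecQ
open MeasureTheory Real ProbabilityTheory
open scoped ENNReal BigOperators

/-!
Task DISC: replacing a function of `L_1` by a discrete measure on a grid.
-/

namespace SmSm
open HypVol MWidth

/-- sum of a character over the grid of the circle -/
lemma disc_geom (n : ℕ) (hn : 0 < n) (m : ℤ) (hm : |m| < n) :
    ∑ j : Fin n, Complex.exp (Complex.I * (((m:ℝ) * (2 * π * ((j:ℕ):ℝ) / n) : ℝ) : ℂ)) =
      if m = 0 then (n : ℂ) else 0 := by
  have hn' : (n : ℂ) ≠ 0 := by exact_mod_cast hn.ne'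
  have h2pi : (2 * (π : ℂ) * Complex.I) ≠ 0 := by
    simp [Real.pi_ne_zero]
  split_ifs with h
  · subst h
    simp
  · set ζ : ℂ := Complex.exp (2 * π * Complex.I * ((m : ℂ) / n)) with hζ
    have hζ1 : ζ ≠ 1 := by
      intro h1
      rw [hζ, Complex.exp_eq_one_iff] at h1
      obtain ⟨l, hl⟩ := h1
      have h2 : (m : ℂ) / n = l := by
        have h3 : 2 * (π : ℂ) * Complex.I * ((m : ℂ) / n) = 2 * (π : ℂ) * Complex.I * l := by
          rw [hl]
          ring
        exact mul_left_cancel₀ h2pi h3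
      have h4 : (m : ℂ) = l * n := by
        rw [div_eq_iff hn'] at h2
        exact h2
      have h5 : m = l * n := by exact_mod_cast h4
      rcases eq_or_ne l 0 with hl0 | hl0
      · rw [hl0, zero_mul] at h5
        exact h h5
      · have h6 : 1 ≤ |l| := Int.one_le_abs hl0
        rw [h5, abs_mul, Nat.abs_cast] at hm
        have h7 : (0 : ℤ) < n := by exact_mod_cast hn
        nlinarith
    have hζn : ζ ^ n = 1 := by
      rw [hζ, ← Complex.exp_nat_mul]
      have h3 : (n : ℂ) * (2 * π * Complex.I * ((m : ℂ) / n)) = m * (2 * π * Complex.I) := by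
        field_simp
      rw [h3]
      exact Complex.exp_int_mul_two_pi_mul_I m
    have hsum : ∑ j : Fin n, Complex.exp (Complex.I * (((m:ℝ) * (2 * π * ((j:ℕ):ℝ) / n) : ℝ) : ℂ)) =
        ∑ j ∈ Finset.range n, ζ ^ j := by
      rw [← Fin.sum_univ_eq_sum_range]
      refine Finset.sum_congr rfl fun j _ => ?_
      rw [hζ, ← Complex.exp_nat_mul]
      congr 1
      push_cast
      ring
    rw [hsum, geom_sum_eq hζ1, hζn, sub_self, zero_div]

lemma disc_vp (s : ℕ) (k : ℤ) (hk : |k| < (2:ℤ)^s) : vp s k = 1 := by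
  unfold vp
  have h1 : |(k:ℝ)| < 2^s := by exact_mod_cast hk
  have h2 : |(k:ℝ)| / 2^s ≤ 1 := by
    rw [div_le_one (by positivity)]
    exact h1.le
  rw [min_eq_left (by linarith), max_eq_right (by norm_num)]

lemma disc_one (s : ℕ) (k : ℤ) (hk : |k| < (2:ℤ)^(s+1)) (t : ℝ) :
    ∑ j : Fin (2^(s+3)), vk s (2 * π * ((j:ℕ):ℝ) / 2^(s+3) - t) *
      Complex.exp (Complex.I * (((-k : ℤ) : ℝ) * (2 * π * ((j:ℕ):ℝ) / 2^(s+3)) : ℝ)) =
      2^(s+3) * Complex.exp (-(Complex.I * ((k:ℝ) * t : ℝ))) := by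
  unfold vk
  simp_rw [Finset.sum_mul]
  rw [Finset.sum_comm]
  have hmem : k ∈ Finset.Ioo (-(2:ℤ)^(s+2)) ((2:ℤ)^(s+2)) := by
    rw [Finset.mem_Ioo]
    have h1 := abs_lt.mp hk
    have h2 : (2:ℤ)^(s+2) = 2 * 2^(s+1) := by ring
    have h3 : (0:ℤ) < 2^(s+1) := by positivity
    constructor <;> omega
  rw [Finset.sum_eq_single_of_mem k hmem]
  · rw [disc_vp (s+1) k hk]
    have h1 : ∀ j : Fin (2^(s+3)), ((1:ℝ):ℂ) *
        Complex.exp (Complex.I * ((k:ℝ) * (2 * π * ((j:ℕ):ℝ) / 2^(s+3) - t) : ℝ)) *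
        Complex.exp (Complex.I * (((-k : ℤ) : ℝ) * (2 * π * ((j:ℕ):ℝ) / 2^(s+3)) : ℝ)) =
        Complex.exp (-(Complex.I * ((k:ℝ) * t : ℝ))) := by
      intro j
      rw [Complex.ofReal_one, one_mul, ← Complex.exp_add]
      congr 1
      push_cast
      ring
    rw [Finset.sum_congr rfl fun j _ => h1 j]
    simp
  · intro l hl hlk
    have h1 : ∀ j : Fin (2^(s+3)), (vp (s+1) l:ℂ) *
        Complex.exp (Complex.I * ((l:ℝ) * (2 * π * ((j:ℕ):ℝ) / 2^(s+3) - t) : ℝ)) *
        Complex.exp (Complex.I * (((-k : ℤ) : ℝ) * (2 * π * ((j:ℕ):ℝ) / 2^(s+3)) : ℝ)) =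
        ((vp (s+1) l:ℂ) * Complex.exp (-(Complex.I * ((l:ℝ) * t : ℝ)))) *
        Complex.exp (Complex.I * ((((l - k : ℤ):ℝ) * (2 * π * ((j:ℕ):ℝ) / ((2^(s+3) : ℕ) : ℝ)) : ℝ) : ℂ)) := by
      intro j
      rw [mul_assoc ((vp (s+1) l : ℝ) : ℂ), mul_assoc ((vp (s+1) l : ℝ) : ℂ), ← Complex.exp_add,
        ← Complex.exp_add]
      congr 2
      push_cast
      ring
    rw [Finset.sum_congr rfl fun j _ => h1 j, ← Finset.mul_sum, disc_geom (2^(s+3)) (by positivity),
      if_neg (sub_ne_zero.mpr hlk), mul_zero]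
    rw [Finset.mem_Ioo] at hl
    have h2 := abs_lt.mp hk
    have h3 : (2:ℤ)^(s+2) = 2 * 2^(s+1) := by ring
    have h4 : (((2^(s+3) : ℕ)) : ℤ) = 4 * 2^(s+1) := by
      push_cast
      ring
    rw [h4, abs_lt]
    constructor <;> omega

lemma disc_chi {d : ℕ} (k : Fin d → ℤ) (x : Fin d → ℝ) :
    chi k x = ∏ j, Complex.exp (Complex.I * ((k j : ℝ) * x j : ℝ)) := by
  unfold chi
  rw [← Complex.exp_sum]
  congr 1
  rw [Complex.ofReal_sum, Finset.mul_sum]

lemma disc_vk_cont (s : ℕ) : Continuous (vk s) := by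
  unfold vk
  fun_prop

theorem disc (h : S_VK) : S_DISC := by
  intro d N hN φ hφ hφ1
  obtain ⟨s, rfl⟩ : ∃ s, N = s + 1 := ⟨N - 1, by omega⟩
  obtain ⟨hb, hg, _⟩ := h s
  have hint : Integrable φ (TP d) := memLp_one_iff_integrable.mp hφ
  have hI1 : ∫ z, ‖φ z‖ ∂(TP d) ≤ 1 := by
    rw [integral_norm_eq_lintegral_enorm hint.aestronglyMeasurable, ← eLpNorm_one_eq_lintegral_enorm]
    exact ENNReal.toReal_le_of_le_ofReal zero_le_one (by rw [ENNReal.ofReal_one]; exact hφ1)
  -- the kernel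
  set Kf : (Fin d → Fin (2^(s+3))) → (Fin d → ℝ) → ℂ :=
    fun y z => ∏ j, vk s (2 * π * ((y j : ℕ):ℝ) / 2^(s+3) - z j) with hKf
  have hKc : ∀ y, Continuous (Kf y) := by
    intro y
    refine continuous_finsetProd _ fun j _ => ?_
    exact (disc_vk_cont s).comp (by fun_prop)
  have hKb : ∀ y z, ‖Kf y z‖ ≤ (2^(s+3))^d := by
    intro y z
    rw [hKf]
    simp only
    rw [norm_prod]
    calc ∏ j, ‖vk s (2 * π * ((y j : ℕ):ℝ) / 2^(s+3) - z j)‖ ≤ ∏ _j : Fin d, (2:ℝ)^(s+3) :=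
          Finset.prod_le_prod (fun _ _ => norm_nonneg _) (fun j _ => hb _)
      _ = (2^(s+3))^d := by simp
  have hKφ : ∀ y, Integrable (fun z => Kf y z * φ z) (TP d) := by
    intro y
    exact hint.bdd_mul (hKc y).aestronglyMeasurable (Filter.Eventually.of_forall (hKb y))
  set c : ℝ := ((2:ℝ)^(s+3))⁻¹ ^ d with hc
  have hc0 : 0 ≤ c := by positivity
  refine ⟨fun y => (c : ℂ) * ∫ z, Kf y z * φ z ∂(TP d), ?_, ?_⟩
  · -- the bound
    have h1 : ∀ y : Fin d → Fin (2^(s+3)), ‖(c : ℂ) * ∫ z, Kf y z * φ z ∂(TP d)‖ ≤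
        c * ∫ z, ‖Kf y z‖ * ‖φ z‖ ∂(TP d) := by
      intro y
      rw [norm_mul, Complex.norm_real, Real.norm_of_nonneg hc0]
      refine mul_le_mul_of_nonneg_left ?_ hc0
      refine (norm_integral_le_integral_norm _).trans (le_of_eq ?_)
      simp_rw [norm_mul]
    have h2 : ∀ y : Fin d → Fin (2^(s+3)), Integrable (fun z => ‖Kf y z‖ * ‖φ z‖) (TP d) := by
      intro y
      have := (hKφ y).norm
      simpa only [norm_mul] using this
    calc ∑ y : Fin d → Fin (2^(s+3)), ‖(c : ℂ) * ∫ z, Kf y z * φ z ∂(TP d)‖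
        ≤ ∑ y : Fin d → Fin (2^(s+3)), c * ∫ z, ‖Kf y z‖ * ‖φ z‖ ∂(TP d) :=
          Finset.sum_le_sum fun y _ => h1 y
      _ = c * ∫ z, (∑ y : Fin d → Fin (2^(s+3)), ‖Kf y z‖ * ‖φ z‖) ∂(TP d) := by
          rw [← Finset.mul_sum, integral_finsetSum _ fun y _ => h2 y]
      _ ≤ c * ∫ z, (3 * 2^(s+3))^d * ‖φ z‖ ∂(TP d) := by
          refine mul_le_mul_of_nonneg_left ?_ hc0
          refine integral_mono (integrable_finsetSum _ fun y _ => h2 y) (hint.norm.const_mul _) ?_
          intro z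
          simp only
          rw [← Finset.sum_mul]
          refine mul_le_mul_of_nonneg_right ?_ (norm_nonneg _)
          have h3 : ∑ y : Fin d → Fin (2^(s+3)), ‖Kf y z‖ =
              ∏ j : Fin d, ∑ i : Fin (2^(s+3)), ‖vk s (2 * π * ((i : ℕ):ℝ) / 2^(s+3) - z j)‖ := by
            rw [Finset.prod_univ_sum, Fintype.piFinset_univ]
            refine Finset.sum_congr rfl fun y _ => ?_
            rw [hKf]
            simp only
            rw [norm_prod]
          rw [h3]
          calc ∏ j : Fin d, ∑ i : Fin (2^(s+3)), ‖vk s (2 * π * ((i : ℕ):ℝ) / 2^(s+3) - z j)‖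
              ≤ ∏ _j : Fin d, (3 * (2:ℝ)^(s+3)) :=
                Finset.prod_le_prod (fun _ _ => Finset.sum_nonneg fun _ _ => norm_nonneg _)
                  (fun j _ => hg _)
            _ = (3 * 2^(s+3))^d := by simp
      _ = 3^d * ∫ z, ‖φ z‖ ∂(TP d) := by
          rw [integral_const_mul, ← mul_assoc]
          congr 1
          rw [hc, mul_pow, inv_pow]
          field_simp
      _ ≤ 3^d * 1 := mul_le_mul_of_nonneg_left hI1 (by positivity)
      _ = 3^d := mul_one _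
  · intro k hk
    have h1 : ∀ y : Fin d → Fin (2^(s+3)), (c : ℂ) * (∫ z, Kf y z * φ z ∂(TP d)) *
        chi (-k) (gpt (d := d) (m := s+1) y) =
        (c : ℂ) * ∫ z, (Kf y z * chi (-k) (gpt (d := d) (m := s+1) y)) * φ z ∂(TP d) := by
      intro y
      rw [mul_assoc]
      congr 1
      rw [← integral_mul_const]
      refine integral_congr_ae (Filter.Eventually.of_forall fun z => ?_)
      simp only
      ring
    have h2 : ∀ y : Fin d → Fin (2^(s+3)), Integrable
        (fun z => (Kf y z * chi (-k) (gpt (d := d) (m := s+1) y)) * φ z) (TP d) := by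
      intro y
      have := (hKφ y).mul_const (chi (-k) (gpt (d := d) (m := s+1) y))
      refine this.congr (Filter.Eventually.of_forall fun z => ?_)
      simp only
      ring
    have h4 : ∀ z : Fin d → ℝ, ∑ y : Fin d → Fin (2^(s+3)),
        Kf y z * chi (-k) (gpt (d := d) (m := s+1) y) =
        (2^(s+3))^d * Complex.exp (-(Complex.I * ((∑ j, (k j : ℝ) * z j : ℝ) : ℂ))) := by
      intro z
      have h5 : ∀ y : Fin d → Fin (2^(s+3)), Kf y z * chi (-k) (gpt (d := d) (m := s+1) y) =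
          ∏ j, (vk s (2 * π * ((y j : ℕ):ℝ) / 2^(s+3) - z j) *
            Complex.exp (Complex.I * (((-(k j) : ℤ) : ℝ) * (2 * π * ((y j : ℕ):ℝ) / 2^(s+3)) : ℝ))) := by
        intro y
        rw [disc_chi, Finset.prod_mul_distrib]
        rfl
      rw [Finset.sum_congr rfl fun y _ => h5 y]
      have h6 := Finset.prod_univ_sum (fun _ : Fin d => (Finset.univ : Finset (Fin (2^(s+3)))))
        (fun j i => vk s (2 * π * ((i : ℕ):ℝ) / 2^(s+3) - z j) *
            Complex.exp (Complex.I * (((-(k j) : ℤ) : ℝ) * (2 * π * ((i : ℕ):ℝ) / 2^(s+3)) : ℝ)))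
      rw [Fintype.piFinset_univ] at h6
      rw [← h6, Finset.prod_congr rfl fun j _ => disc_one s (k j) (hk j) (z j),
        Finset.prod_mul_distrib, ← Complex.exp_sum]
      congr 1
      · simp
      · congr 1
        rw [Complex.ofReal_sum, Finset.mul_sum, ← Finset.sum_neg_distrib]
    symm
    calc ∑ y : Fin d → Fin (2^(s+3)), (c : ℂ) * (∫ z, Kf y z * φ z ∂(TP d)) *
        chi (-k) (gpt (d := d) (m := s+1) y)
        = ∑ y : Fin d → Fin (2^(s+3)),
          (c : ℂ) * ∫ z, (Kf y z * chi (-k) (gpt (d := d) (m := s+1) y)) * φ z ∂(TP d) :=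
          Finset.sum_congr rfl fun y _ => h1 y
      _ = (c : ℂ) * ∫ z, (∑ y : Fin d → Fin (2^(s+3)),
          (Kf y z * chi (-k) (gpt (d := d) (m := s+1) y)) * φ z) ∂(TP d) := by
          rw [← Finset.mul_sum, integral_finsetSum _ fun y _ => h2 y]
      _ = (c : ℂ) * ∫ z, ((2^(s+3))^d *
          (φ z * Complex.exp (-(Complex.I * ((∑ j, (k j : ℝ) * z j : ℝ) : ℂ))))) ∂(TP d) := by
          congr 1
          refine integral_congr_ae (Filter.Eventually.of_forall fun z => ?_)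
          simp only
          rw [← Finset.sum_mul, h4 z]
          ring
      _ = fc φ k := by
          rw [integral_const_mul, ← mul_assoc]
          have : (c : ℂ) * (2^(s+3))^d = 1 := by
            rw [hc]
            push_cast
            rw [inv_pow]
            field_simp
          rw [this, one_mul]
          rfl

end SmSm
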