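import Pool.Agent.H636R2.SM.SpecQ
import Pool.Agent.EntX.L_entNum_upper_F
import Pool.Agent.EntX.L_Cov_ML_WF
import Pool.Agent.EntX.L_WF_mono
open MeasureTheory Real ProbabilityTheory
open scoped ENNReal BigOperators

/-!
FINQ: exact order of the entropy numbers of `W^r_1` in `L_q`, `1 ≤ q < 2` (helper708).
-/

namespace SmSm
open HypVol MWidth

/-- lower bound, from a lower bound for the coverings in `L_1` of the complex class -/
theorem finq_lower (𝕜 : Type) [RCLike 𝕜] (d : ℕ) (r : ℝ) (hr : 0 < r) (α : Fin d → ℝ) (q : ℝ≥0∞)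
    (hq : 1 ≤ q) (ψ : ℕ → ℝ) (hψ : Adm ψ) (c' : ℝ) (hc' : 0 < c')
    (hlow : ∀ k : ℕ, 2 ≤ k → ∀ ε : ℝ, 0 < ε → Cov 1 k (ENNReal.ofReal ε) (WF d r 1 α) → c' * ψ k ≤ ε) :
    ∃ c : ℝ, 0 < c ∧ ∀ k : ℕ, 2 ≤ k → ENNReal.ofReal (c * ψ k) ≤ entNum q k (ML 𝕜 d r 1 α) := by
  obtain ⟨hpos, ρ, c0, hρ, hc0, hL, -⟩ := hψ
  have hK : 0 < c0 * (2:ℝ)^ρ := by positivity
  refine ⟨c' / (2 * (c0 * (2:ℝ)^ρ)), by positivity, fun k hk => ?_⟩
  refine le_iInf₂ fun ε hε => ?_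
  obtain ⟨hε0, hcov⟩ := hε
  by_cases htop : ε = ⊤
  · rw [htop]; exact le_top
  · have hεr : 0 < ε.toReal := ENNReal.toReal_pos hε0.ne' htop
    have hεe : ε = ENNReal.ofReal ε.toReal := (ENNReal.ofReal_toReal htop).symm
    rw [hεe] at hcov
    have h1 := Cov_ML_WF 𝕜 d r hr α 1 q le_rfl hq k ε.toReal hεr hcov
    have h2 := WF_mono r α 1 1 q 1 le_rfl le_rfl hq (2 * k) _ h1
    have h3 := hlow (2 * k) (by omega) (2 * ε.toReal) (by positivity) h2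
    have h4 := hL 2 k (by norm_num) hk
    rw [hεe]
    refine ENNReal.ofReal_le_ofReal ?_
    have h4' : ψ k ≤ c0 * (2:ℝ)^ρ * ψ (2 * k) := by
      have : ((2:ℕ):ℝ) = 2 := by norm_num
      rw [this] at h4
      exact h4
    calc c' / (2 * (c0 * (2:ℝ)^ρ)) * ψ k ≤ c' / (2 * (c0 * (2:ℝ)^ρ)) * (c0 * (2:ℝ)^ρ * ψ (2 * k)) :=
          mul_le_mul_of_nonneg_left h4' (by positivity)
      _ = c' * ψ (2 * k) / 2 := by
          field_simp
      _ ≤ ε.toReal := by linarith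

/-- upper bound, from coverings of the complex class -/
theorem finq_upper (𝕜 : Type) [RCLike 𝕜] (d : ℕ) (r : ℝ) (hr : 0 < r) (α : Fin d → ℝ) (q : ℝ≥0∞)
    (ψ : ℕ → ℝ) (hψ : Adm ψ) (C : ℝ) (hC : 0 < C)
    (hup : ∀ k : ℕ, 2 ≤ k → Cov q k (ENNReal.ofReal (C * ψ k)) (WF d r 1 α)) :
    ∀ k : ℕ, 2 ≤ k → entNum q k (ML 𝕜 d r 1 α) ≤ ENNReal.ofReal (C * ψ k) := by
  intro k hk
  exact entNum_upper_F 𝕜 d r hr α 1 q le_rfl k _ (mul_pos hC (hψ.1 k hk)) (hup k hk)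

theorem finq (h1 : S_LOWQA0) (h2 : S_LOWQB0) (h3 : S_NUMLA) (h4 : S_NUMLB) (h5 : S_UPQA) (h6 : S_UPQB)
    (h7 : S_ADM) : S_FINQ := by
  intro 𝕜 _ d hd α q hq1 hq2
  have hqt : q ≠ ⊤ := (hq2.trans_le le_top).ne
  have hqe : q = ENNReal.ofReal q.toReal := (ENNReal.ofReal_toReal hqt).symm
  have hs1 : 1 ≤ q.toReal := by
    have := (ENNReal.toReal_le_toReal ENNReal.one_ne_top hqt).2 hq1
    simpa using this
  have hs2 : q.toReal < 2 := by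
    have := (ENNReal.toReal_lt_toReal hqt (by norm_num : (2:ℝ≥0∞) ≠ ⊤)).2 hq2
    simpa using this
  constructor
  · intro r hr1 hr0 hr2
    have hr1' : 1 - 1 / q.toReal < r := by
      rw [ENNReal.toReal_inv] at hr1
      rw [one_div]
      exact hr1
    have hadm := h7.1 d r (by omega) hr0 (by linarith)
    obtain ⟨C, hC, hup⟩ := h5 d (by omega) q.toReal r hs1 hs2 hr1' hr0 hr2 α
    rw [← hqe] at hup
    obtain ⟨c, μ0, hc, hlow⟩ := h1 d hd r hr0 hr2 α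
    obtain ⟨c', hc', hnum⟩ := h3 d hd r hr0 hr2.le c μ0 hc
    obtain ⟨c1, hc1, hl⟩ := finq_lower 𝕜 d r hr0 α q hq1 (psiA d r) hadm c' hc' (by
      intro k hk ε hε hcov
      obtain ⟨μ, hμ, hkμ, hle⟩ := hnum k hk
      exact hle.trans (hlow μ hμ k ε hkμ hε hcov))
    exact ⟨c1, C, hc1, hC, fun k hk => ⟨hl k hk, finq_upper 𝕜 d r hr0 α q _ hadm C hC hup k hk⟩⟩
  · have hadm := h7.2 d (by omega)
    obtain ⟨C, hC, hup⟩ := h6 d (by omega) q.toReal hs1 hs2 α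
    rw [← hqe] at hup
    obtain ⟨c, n0, hc, hlow⟩ := h2 d hd α
    obtain ⟨c', hc', hnum⟩ := h4 d hd c n0 hc
    obtain ⟨c1, hc1, hl⟩ := finq_lower 𝕜 d (1/2) (by norm_num) α q hq1 (psiB d) hadm c' hc' (by
      intro k hk ε hε hcov
      obtain ⟨n, hn, hkn, hle⟩ := hnum k hk
      exact hle.trans (hlow n hn k ε hkn hε hcov))
    exact ⟨c1, C, hc1, hC, fun k hk => ⟨hl k hk, finq_upper 𝕜 d (1/2) (by norm_num) α q _ hadm C hC hup k hk⟩⟩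

end SmSm
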