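import Pool.Agent.H636R2.SM.SpecQ
open MeasureTheory Real ProbabilityTheory
open scoped ENNReal BigOperators

/-! Task INTQ (helper415): logarithmic convexity of the norms. -/

namespace SmSm
open HypVol MWidth

theorem intq : S_INTQ := by
  intro d q hq1 hq2 u hu
  have hq0 : 0 < q := by linarith
  have hm : AEMeasurable (fun x => ‖u x‖ₑ) (TP d) := hu.enorm
  have hm2 : AEMeasurable (fun x => ‖u x‖ₑ ^ (2 : ℝ)) (TP d) := hm.pow_const 2
  have h1 := ENNReal.lintegral_mul_norm_pow_le (μ := TP d) hm hm2 (p := 2 - q) (q := q - 1)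
    (by linarith) (by linarith) (by ring)
  have e1 : (fun x => ‖u x‖ₑ ^ (2 - q) * (‖u x‖ₑ ^ (2 : ℝ)) ^ (q - 1)) = fun x => ‖u x‖ₑ ^ q := by
    funext x
    rw [← ENNReal.rpow_mul, ← ENNReal.rpow_add_of_nonneg _ _ (by linarith) (by nlinarith)]
    congr 1
    ring
  rw [e1] at h1
  have hqr : (ENNReal.ofReal q).toReal = q := ENNReal.toReal_ofReal hq0.le
  rw [eLpNorm_eq_lintegral_rpow_enorm_toReal (by simpa using hq0) ENNReal.ofReal_ne_top, hqr,
    eLpNorm_eq_lintegral_rpow_enorm_toReal (p := 2) (by norm_num) (by norm_num),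
    eLpNorm_one_eq_lintegral_enorm]
  have h2 : (2 : ℝ≥0∞).toReal = (2 : ℝ) := by norm_num
  rw [h2]
  calc (∫⁻ x, ‖u x‖ₑ ^ q ∂(TP d)) ^ (1 / q) ≤
      ((∫⁻ x, ‖u x‖ₑ ∂(TP d)) ^ (2 - q) * (∫⁻ x, ‖u x‖ₑ ^ (2 : ℝ) ∂(TP d)) ^ (q - 1)) ^ (1 / q) :=
        ENNReal.rpow_le_rpow h1 (by positivity)
    _ = _ := by
      rw [ENNReal.mul_rpow_of_nonneg _ _ (by positivity), ← ENNReal.rpow_mul, ← ENNReal.rpow_mul,
        ← ENNReal.rpow_mul]
      congr 2
      · field_simp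
      · field_simp

end SmSm
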