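import Pool.Agent.H636R2.SM.SpecQ
import Pool.Agent.H636R2.SM.LEVF
import Pool.Agent.HypVol.L_TP_prob
open MeasureTheory Real ProbabilityTheory
open scoped ENNReal BigOperators

/-!
LOWN: nets for the low levels.
-/

namespace SmSm
open HypVol MWidth

theorem lown_Fh {d : ℕ} (r : ℝ) (hr : 0 < r) (α : Fin d → ℝ) (k : Fin d → ℤ) : ‖Fh r α k‖ ≤ 1 := by
  unfold Fh
  rw [norm_prod]
  apply Finset.prod_le_one
  · intro j _
    exact norm_nonneg _
  · intro j _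
    split_ifs with h
    · simp
    · rw [norm_mul]
      have h1 : ‖Complex.exp (-(Complex.I * (((SignType.sign (k j) : ℤ) : ℝ) * α j * π / 2 : ℝ)))‖ = 1 := by
        rw [Complex.norm_exp]
        simp
      rw [h1, mul_one, Complex.norm_real, Real.norm_eq_abs]
      have h2 : (1 : ℝ) ≤ |(k j : ℝ)| := by
        have : (1 : ℤ) ≤ |k j| := Int.one_le_abs h
        exact_mod_cast this
      rw [abs_of_nonneg (Real.rpow_nonneg (by positivity) _)]
      apply Real.rpow_le_one_of_one_le_of_nonpos h2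
      linarith

theorem lown_fc {d : ℕ} (φ : (Fin d → ℝ) → ℂ) (hφ1 : eLpNorm φ 1 (TP d) ≤ 1) (k : Fin d → ℤ) :
    ‖fc φ k‖ ≤ 1 := by
  unfold fc
  have h1 := enorm_integral_le_lintegral_enorm (μ := TP d) (fun x => φ x *
    Complex.exp (-(Complex.I * ((∑ j, (k j : ℝ) * x j : ℝ) : ℂ))))
  have h2 : ∫⁻ x, ‖φ x * Complex.exp (-(Complex.I * ((∑ j, (k j : ℝ) * x j : ℝ) : ℂ)))‖ₑ ∂(TP d)
      = ∫⁻ x, ‖φ x‖ₑ ∂(TP d) := by
    apply lintegral_congr
    intro x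
    rw [enorm_mul]
    have : ‖Complex.exp (-(Complex.I * ((∑ j, (k j : ℝ) * x j : ℝ) : ℂ)))‖ₑ = 1 := by
      rw [← ofReal_norm, Complex.norm_exp]
      simp
    rw [this, mul_one]
  rw [h2, ← eLpNorm_one_eq_lintegral_enorm] at h1
  have h3 := h1.trans hφ1
  rw [← ofReal_norm] at h3
  exact ENNReal.ofReal_le_one.mp h3

theorem lown_blk (hV : S_VPF) {d : ℕ} (s : Fin d → ℕ) (k : Fin d → ℤ) : 0 ≤ blk s k ∧ blk s k ≤ 1 := by
  unfold blk
  exact ⟨Finset.prod_nonneg fun j _ => (hV.1 (s j) (k j)).1,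
    Finset.prod_le_one (fun j _ => (hV.1 (s j) (k j)).1) fun j _ => (hV.1 (s j) (k j)).2⟩

theorem lown_ann (hV : S_VPF) {d : ℕ} (s : Fin d → ℕ) (k : Fin d → ℤ) (hk : k ∈ boxs s)
    (hb : blk s k ≠ 0) : k ∈ ann s := by
  unfold boxs at hk
  unfold ann
  rw [Fintype.mem_piFinset] at hk ⊢
  intro j
  have := hV.2.2.2 d s k hb j
  rw [Finset.mem_filter]
  exact ⟨hk j, this.1, this.2⟩

theorem lown_sub {d : ℕ} (s : Fin d → ℕ) : ann s ⊆ boxs s := by
  intro k hk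
  unfold boxs
  unfold ann at hk
  rw [Fintype.mem_piFinset] at hk ⊢
  intro j
  exact (Finset.mem_filter.mp (hk j)).1

open Classical in
/-- all low frequencies -/
noncomputable def lownL (d n0 : ℕ) : Finset (Fin d → ℤ) := (Finset.range n0).biUnion (fun μ => annl d μ)

/-- coefficients -/
noncomputable def lownT {d : ℕ} (r : ℝ) (α : Fin d → ℝ) (φ : (Fin d → ℝ) → ℂ) (s : Fin d → ℕ)
    (k : Fin d → ℤ) : ℂ := if k ∈ ann s then Fh r α k * (blk s k : ℂ) * fc φ k else 0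

theorem lown_T (hV : S_VPF) {d : ℕ} (r : ℝ) (hr : 0 < r) (α : Fin d → ℝ) (φ : (Fin d → ℝ) → ℂ)
    (hφ1 : eLpNorm φ 1 (TP d) ≤ 1) (s : Fin d → ℕ) (k : Fin d → ℤ) :
    ‖lownT r α φ s k‖ ≤ 1 := by
  unfold lownT
  split_ifs
  · rw [norm_mul, norm_mul]
    have h1 := lown_Fh r hr α k
    have h2 := lown_fc φ hφ1 k
    have h3 : ‖(blk s k : ℂ)‖ ≤ 1 := by
      rw [Complex.norm_real, Real.norm_eq_abs, abs_of_nonneg (lown_blk hV s k).1]
      exact (lown_blk hV s k).2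
    calc ‖Fh r α k‖ * ‖(blk s k : ℂ)‖ * ‖fc φ k‖ ≤ 1 * 1 * 1 := by gcongr
      _ = 1 := by norm_num
  · simp

theorem lown_op (hV : S_VPF) {d : ℕ} (r : ℝ) (α : Fin d → ℝ) (φ : (Fin d → ℝ) → ℂ)
    (s : Fin d → ℕ) (x : Fin d → ℝ) : op r α s φ x = ∑ k ∈ ann s, lownT r α φ s k * chi k x := by
  unfold op
  rw [← Finset.sum_subset (lown_sub s)]
  · refine Finset.sum_congr rfl fun k hk => ?_
    unfold lownT
    rw [if_pos hk]
  · intro k hk hk2
    have : blk s k = 0 := by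
      by_contra h
      exact hk2 (lown_ann hV s k hk h)
    rw [this]
    simp

theorem lown_op2 (hV : S_VPF) {d n0 μ : ℕ} (hμ : μ < n0) (r : ℝ) (α : Fin d → ℝ)
    (φ : (Fin d → ℝ) → ℂ) (s : Fin d → ℕ) (hs : s ∈ lev d μ) (x : Fin d → ℝ) :
    op r α s φ x = ∑ k ∈ lownL d n0, lownT r α φ s k * chi k x := by
  rw [lown_op hV]
  have hsub : ann s ⊆ lownL d n0 := by
    intro k hk
    unfold lownL
    rw [Finset.mem_biUnion]
    refine ⟨μ, Finset.mem_range.mpr hμ, ?_⟩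
    unfold annl
    rw [Finset.mem_biUnion]
    exact ⟨s, hs, hk⟩
  apply Finset.sum_subset hsub
  intro k _ hk
  unfold lownT
  rw [if_neg hk, zero_mul]

theorem lown_rep (hV : S_VPF) {d n0 : ℕ} (r : ℝ) (α : Fin d → ℝ) (φ : (Fin d → ℝ) → ℂ) :
    ∃ a : (lownL d n0) × Fin 2 → ℝ, ∀ x, lop (Finset.range n0) r α φ x = gp (lownL d n0) a x := by
  classical
  let c : (Fin d → ℤ) → ℂ := fun k => ∑ μ ∈ Finset.range n0, ∑ s ∈ lev d μ, lownT r α φ s k
  refine ⟨fun q => if q.2 = 0 then (c q.1.1).re else (c q.1.1).im, fun x => ?_⟩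
  have h3 : gp (lownL d n0) (fun q => if q.2 = 0 then (c q.1.1).re else (c q.1.1).im) x =
      ∑ k ∈ lownL d n0, c k * chi k x := by
    unfold gp chi
    rw [← Finset.sum_coe_sort (lownL d n0)]
    refine Finset.sum_congr rfl fun k _ => ?_
    simp only [if_true, if_neg (one_ne_zero : (1 : Fin 2) ≠ 0)]
    rw [Complex.re_add_im]
  rw [h3]
  unfold lop
  have h4 : ∀ μ ∈ Finset.range n0, ∑ s ∈ lev d μ, op r α s φ x =
      ∑ k ∈ lownL d n0, ∑ s ∈ lev d μ, lownT r α φ s k * chi k x := by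
    intro μ hμ
    rw [Finset.sum_comm]
    refine Finset.sum_congr rfl fun s hs => ?_
    exact lown_op2 hV (Finset.mem_range.mp hμ) r α φ s hs x
  rw [Finset.sum_congr rfl h4, Finset.sum_comm]
  refine Finset.sum_congr rfl fun k _ => ?_
  simp only [c, Finset.sum_mul]

theorem lown_pow (n0 e : ℕ) : ((n0 : ℝ) + 1) ^ e ≤ 2 ^ (n0 * e) := by
  rw [pow_mul]
  apply pow_le_pow_left₀ (by positivity)
  have : n0 + 1 ≤ 2 ^ n0 := Nat.lt_two_pow_self
  exact_mod_cast this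

theorem lown_sup (hA : S_ANN) (hV : S_VPF) {d : ℕ} (hd : 1 ≤ d) (n0 : ℕ) (r : ℝ) (hr : 0 < r)
    (α : Fin d → ℝ)
    (φ : (Fin d → ℝ) → ℂ) (hφ1 : eLpNorm φ 1 (TP d) ≤ 1) (x : Fin d → ℝ) :
    ‖lop (Finset.range n0) r α φ x‖ ≤ 2 ^ (3 * d + 2 * d * n0) := by
  unfold lop
  have hop : ∀ μ < n0, ∀ s ∈ lev d μ, ‖op r α s φ x‖ ≤ 8 ^ d * 2 ^ μ * ((n0 : ℝ) + 1) ^ (d - 1) := by
    intro μ hμ s hs
    rw [lown_op hV]
    have h1 : ‖∑ k ∈ ann s, lownT r α φ s k * chi k x‖ ≤ ∑ k ∈ ann s, (1 : ℝ) := by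
      refine norm_sum_le_of_le _ fun k _ => ?_
      rw [norm_mul]
      have : ‖chi k x‖ = 1 := by
        unfold chi
        rw [Complex.norm_exp]
        simp
      rw [this, mul_one]
      exact lown_T hV r hr α φ hφ1 s k
    refine h1.trans ?_
    rw [Finset.sum_const, nsmul_eq_mul, mul_one]
    have hsub : ann s ⊆ annl d μ := fun k hk => by
      unfold annl
      exact Finset.mem_biUnion.mpr ⟨s, hs, hk⟩
    have h2 : ((ann s).card : ℝ) ≤ (annl d μ).card := by exact_mod_cast Finset.card_le_card hsub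
    refine h2.trans ((hA d hd μ).2.1.trans ?_)
    have : (μ : ℝ) ≤ n0 := by exact_mod_cast hμ.le
    gcongr
  have h5 : ‖∑ μ ∈ Finset.range n0, ∑ s ∈ lev d μ, op r α s φ x‖ ≤
      ∑ μ ∈ Finset.range n0, ((n0 : ℝ) + 1) ^ (d - 1) * (8 ^ d * 2 ^ μ * ((n0 : ℝ) + 1) ^ (d - 1)) := by
    refine norm_sum_le_of_le _ fun μ hμ => ?_
    have hμ' := Finset.mem_range.mp hμ
    refine (norm_sum_le_of_le _ fun s hs => hop μ hμ' s hs).trans ?_
    rw [Finset.sum_const, nsmul_eq_mul]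
    apply mul_le_mul_of_nonneg_right _ (by positivity)
    refine (hA d hd μ).1.trans ?_
    have : (μ : ℝ) ≤ n0 := by exact_mod_cast hμ'.le
    gcongr
  refine h5.trans ?_
  have h6 : ∑ μ ∈ Finset.range n0, ((n0 : ℝ) + 1) ^ (d - 1) * (8 ^ d * 2 ^ μ * ((n0 : ℝ) + 1) ^ (d - 1))
      = 8 ^ d * (((n0 : ℝ) + 1) ^ (2 * (d - 1)) * ∑ μ ∈ Finset.range n0, (2 : ℝ) ^ μ) := by
    rw [Finset.mul_sum, Finset.mul_sum]
    refine Finset.sum_congr rfl fun μ _ => ?_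
    ring
  rw [h6]
  have h7 : ∑ μ ∈ Finset.range n0, (2 : ℝ) ^ μ ≤ 2 ^ n0 := by
    have := Nat.geomSum_eq (le_refl 2) n0
    have h8 : ∑ μ ∈ Finset.range n0, (2 : ℝ) ^ μ = 2 ^ n0 - 1 := by
      rw [geom_sum_eq (by norm_num)]
      ring
    rw [h8]
    linarith
  calc (8 : ℝ) ^ d * (((n0 : ℝ) + 1) ^ (2 * (d - 1)) * ∑ μ ∈ Finset.range n0, (2 : ℝ) ^ μ)
      ≤ 8 ^ d * (2 ^ (n0 * (2 * (d - 1))) * 2 ^ n0) := by
        apply mul_le_mul_of_nonneg_left _ (by positivity)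
        exact mul_le_mul (lown_pow n0 _) h7 (Finset.sum_nonneg fun _ _ => by positivity) (by positivity)
    _ = 2 ^ (3 * d + (n0 * (2 * (d - 1)) + n0)) := by
        rw [← pow_add, pow_add 2 (3 * d), pow_mul]
        norm_num
    _ ≤ 2 ^ (3 * d + 2 * d * n0) := by
        apply pow_le_pow_right₀ (by norm_num)
        obtain ⟨e, rfl⟩ : ∃ e, d = e + 1 := ⟨d - 1, by omega⟩
        simp only [Nat.add_sub_cancel]
        nlinarith

theorem lown_card (hA : S_ANN) {d : ℕ} (hd : 1 ≤ d) (n0 : ℕ) :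
    ((lownL d n0).card : ℝ) ≤ 8 ^ d * 2 ^ n0 * ((n0 : ℝ) + 1) ^ (d - 1) := by
  classical
  unfold lownL
  have h1 : (((Finset.range n0).biUnion (fun μ => annl d μ)).card : ℝ) ≤
      ∑ μ ∈ Finset.range n0, ((annl d μ).card : ℝ) := by
    have := Finset.card_biUnion_le (s := Finset.range n0) (t := fun μ => annl d μ)
    exact_mod_cast this
  have h2 : ∑ μ ∈ Finset.range n0, ((annl d μ).card : ℝ) ≤
      ∑ μ ∈ Finset.range n0, 8 ^ d * ((n0 : ℝ) + 1) ^ (d - 1) * 2 ^ μ := by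
    refine Finset.sum_le_sum fun μ hμ => ?_
    refine (hA d hd μ).2.1.trans ?_
    have : (μ : ℝ) ≤ n0 := by exact_mod_cast (Finset.mem_range.mp hμ).le
    calc (8 : ℝ) ^ d * 2 ^ μ * ((μ : ℝ) + 1) ^ (d - 1) ≤ 8 ^ d * 2 ^ μ * ((n0 : ℝ) + 1) ^ (d - 1) := by
          gcongr
      _ = _ := by ring
  rw [← Finset.mul_sum] at h2
  have h8 : ∑ μ ∈ Finset.range n0, (2 : ℝ) ^ μ ≤ 2 ^ n0 := by
    have h8 : ∑ μ ∈ Finset.range n0, (2 : ℝ) ^ μ = 2 ^ n0 - 1 := by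
      rw [geom_sum_eq (by norm_num)]
      ring
    rw [h8]
    linarith
  calc _ ≤ _ := h1
    _ ≤ _ := h2
    _ ≤ 8 ^ d * ((n0 : ℝ) + 1) ^ (d - 1) * 2 ^ n0 := by gcongr
    _ = _ := by ring

theorem lown (h1 : S_ANN) (h2 : S_VPF) : S_LOWN := by
  classical
  intro d hd r hr α
  refine ⟨2 * 8 ^ d * (3 * d + 2), by positivity, ?_⟩
  intro n0
  obtain ⟨s, hs, hnet⟩ := levf_gpnet (lownL d n0) (2 ^ (3 * d + 2 * d * n0)) ((2:ℝ) ^ (-(n0:ℝ)))
    (by positivity) (by positivity)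
  refine ⟨s.image (fun a => gp (lownL d n0) a), ?_, ?_, ?_⟩
  · have hc1 : ((s.image (fun a => gp (lownL d n0) a)).card : ℝ) ≤ s.card := by
      exact_mod_cast Finset.card_image_le
    refine hc1.trans (hs.trans ?_)
    set X : ℝ := 1 + 2 * 2 ^ (3 * d + 2 * d * n0) / (2:ℝ) ^ (-(n0:ℝ)) with hX
    have hXp : 0 < X := by positivity
    have hX1 : 1 ≤ X := by
      rw [hX]
      have : 0 ≤ 2 * 2 ^ (3 * d + 2 * d * n0) / (2:ℝ) ^ (-(n0:ℝ)) := by positivity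
      linarith
    have hX2 : X ≤ 2 ^ (3 * d + 2 * d * n0 + n0 + 2) := by
      have e1 : 2 * 2 ^ (3 * d + 2 * d * n0) / (2:ℝ) ^ (-(n0:ℝ)) =
          2 ^ (3 * d + 2 * d * n0 + n0 + 1) := by
        rw [Real.rpow_neg (by norm_num), Real.rpow_natCast, div_inv_eq_mul]
        ring
      rw [hX, e1]
      have e2 : (1:ℝ) ≤ 2 ^ (3 * d + 2 * d * n0 + n0 + 1) := one_le_pow₀ (by norm_num)
      calc 1 + (2:ℝ) ^ (3 * d + 2 * d * n0 + n0 + 1)
          ≤ 2 ^ (3 * d + 2 * d * n0 + n0 + 1) + 2 ^ (3 * d + 2 * d * n0 + n0 + 1) := by linarith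
        _ = _ := by ring
    have hlog : Real.log X ≤ (3 * d + 2) * ((n0 : ℝ) + 1) := by
      have h3 := Real.log_le_log hXp hX2
      rw [Real.log_pow] at h3
      have h4 : Real.log 2 ≤ 1 := by
        have := Real.log_le_sub_one_of_pos (by norm_num : (0:ℝ) < 2)
        linarith
      have h5 : (((3 * d + 2 * d * n0 + n0 + 2 : ℕ)) : ℝ) ≤ (3 * d + 2) * ((n0 : ℝ) + 1) := by
        have : 3 * d + 2 * d * n0 + n0 + 2 ≤ (3 * d + 2) * (n0 + 1) := by nlinarith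
        exact_mod_cast this
      have h6 : 0 ≤ (((3 * d + 2 * d * n0 + n0 + 2 : ℕ)) : ℝ) := by positivity
      calc Real.log X ≤ _ := h3
        _ ≤ (((3 * d + 2 * d * n0 + n0 + 2 : ℕ)) : ℝ) * 1 := by gcongr
        _ ≤ _ := by rw [mul_one]; exact h5
    rw [← Real.exp_log hXp, ← Real.exp_nat_mul]
    apply Real.exp_le_exp.mpr
    push_cast
    have hlog0 : 0 ≤ Real.log X := Real.log_nonneg hX1
    calc 2 * ((lownL d n0).card : ℝ) * Real.log X
        ≤ 2 * (8 ^ d * 2 ^ n0 * ((n0 : ℝ) + 1) ^ (d - 1)) * ((3 * d + 2) * ((n0 : ℝ) + 1)) := by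
          apply mul_le_mul _ hlog hlog0 (by positivity)
          have := lown_card h1 hd n0
          linarith
      _ = 2 * 8 ^ d * (3 * d + 2) * (2 ^ n0 * (((n0 : ℝ) + 1) ^ (d - 1) * ((n0 : ℝ) + 1))) := by ring
      _ = 2 * 8 ^ d * (3 * d + 2) * (2 ^ n0 * ((n0 : ℝ) + 1) ^ d) := by
          rw [← pow_succ, Nat.sub_add_cancel hd]
  · intro g hg
    obtain ⟨a, _, rfl⟩ := Finset.mem_image.mp hg
    exact levf_cont _ a
  · intro φ _ hφ1
    obtain ⟨a, ha⟩ := lown_rep (n0 := n0) h2 r α φ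
    obtain ⟨b, hb, hb2⟩ := hnet a (fun x => by
      rw [← ha x]
      exact lown_sup h1 h2 hd n0 r hr α φ hφ1 x)
    refine ⟨gp (lownL d n0) b, Finset.mem_image_of_mem _ hb, ?_⟩
    have := TP_prob d
    have h3 := eLpNorm_le_of_ae_bound (p := 2) (μ := TP d)
      (f := fun x => lop (Finset.range n0) r α φ x - gp (lownL d n0) b x)
      (C := (2:ℝ) ^ (-(n0:ℝ))) (Filter.Eventually.of_forall fun x => by
        rw [ha x]
        exact hb2 x)
    simpa using h3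

end SmSm
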