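import Pool.Agent.H636R2.SM.SpecQ
import Pool.Agent.H636R2.SM.LOWA0
open MeasureTheory Real ProbabilityTheory
open scoped ENNReal BigOperators

namespace SmSm
open HypVol MWidth

/-- **LOWQA0** -/
theorem lowqa0 (h1 : S_FAM1A) (h2 : S_PIG1) (h3 : S_UPQA) (h4 : S_ADM) : S_LOWQA0 := by
  intro d hd r hr hr1 α
  -- choice of q
  have hq1 : (1:ℝ) < 1 + r := by linarith
  have hq2 : 1 + r < 2 := by linarith
  have hqr : 1 - 1 / (1 + r) < r := by
    have e : 1 - 1 / (1 + r) = r / (1 + r) := by field_simp; ring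
    rw [e, div_lt_iff₀ (by linarith)]
    nlinarith
  obtain ⟨C1, hC1, hcov⟩ := h3 d (by omega) (1 + r) r hq1.le hq2 hqr hr hr1 α
  obtain ⟨j, hj1, hj⟩ : ∃ j : ℕ, 1 ≤ j ∧ (1 + r) / ((1 + r) - 1) ≤ j := by
    refine ⟨max 1 ⌈(1 + r) / ((1 + r) - 1)⌉₊, le_max_left _ _, ?_⟩
    refine (Nat.le_ceil _).trans ?_
    exact_mod_cast le_max_right _ _
  have hadm := (h4.1 d r (by omega) hr (by linarith)).1
  obtain ⟨c1, C2, μa, hc1, hC2, hfam⟩ := h1 d hd r hr α j hj1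
  obtain ⟨C3, hC3, hpsi⟩ := lowa0_psi d hd r hr hr1 c1 hc1
  obtain ⟨μb, hμb⟩ := lowa0_large d c1 8 hc1
  set B : ℝ := max 1 (8 * C1 * C2 * C3 / c1) with hB
  have hB1 : 1 ≤ B := le_max_left _ _
  have hBp : 0 < B := by linarith
  have hB2 : 8 * C1 * C2 * C3 / c1 ≤ B := le_max_right _ _
  refine ⟨min (c1/4) (c1/(8 * B * C2)), max μa μb, by positivity, ?_⟩
  intro μ hμ k ε hk hε hcovk
  have hμa : μa ≤ μ := (le_max_left _ _).trans hμ
  have hT8 := hμb μ ((le_max_right _ _).trans hμ)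
  set N : ℝ := (μ:ℝ) + 1 with hN
  have hN1 : 1 ≤ N := by rw [hN]; linarith [Nat.cast_nonneg (α := ℝ) μ]
  have hN0 : 0 < N := by linarith
  set T : ℝ := c1 * 2^μ / N^(d-2) with hT
  have hTp : 0 < T := by positivity
  set k1 : ℕ := ⌊T/4⌋₊ with hk1
  have hk1up : (k1:ℝ) ≤ T/4 := Nat.floor_le (by positivity)
  have hk1lt : T/4 < k1 + 1 := Nat.lt_floor_add_one _
  have hk1low : T/8 ≤ k1 := by linarith
  have hk12 : 2 ≤ k1 := by
    have : (1:ℝ) < k1 := by linarith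
    have : 1 < k1 := by exact_mod_cast this
    omega
  have hkT : (k:ℝ) ≤ T/4 := by
    refine hk.trans ?_
    have e1 : min (c1/4) (c1/(8 * B * C2)) * 2^μ / N^(d-2) ≤ (c1/4) * 2^μ / N^(d-2) :=
      div_le_div_of_nonneg_right (mul_le_mul_of_nonneg_right (min_le_left _ _) (by positivity)) (by positivity)
    refine e1.trans (le_of_eq ?_)
    rw [hT]; ring
  have hexp : (2:ℝ)^k1 * 2^k < Real.exp (c1 * 2^μ / N^(d-2)) := by
    have e1 : (2:ℝ)^k1 * 2^k = Real.exp (((k1:ℝ) + k) * Real.log 2) := by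
      rw [add_mul, Real.exp_add]
      congr 1
      · rw [mul_comm, ← Real.rpow_def_of_pos (by norm_num), Real.rpow_natCast]
      · rw [mul_comm, ← Real.rpow_def_of_pos (by norm_num), Real.rpow_natCast]
    rw [e1]
    refine Real.exp_lt_exp.2 ?_
    have e2 : Real.log 2 ≤ 1 := by
      have := Real.log_two_lt_d9; linarith
    have e3 : 0 ≤ Real.log 2 := Real.log_nonneg (by norm_num)
    have e4 : ((k1:ℝ) + k) * Real.log 2 ≤ ((k1:ℝ) + k) * 1 := mul_le_mul_of_nonneg_left e2 (by positivity)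
    rw [← hT]
    linarith
  have hψpos : 0 < psiA d r k1 := hadm k1 hk12
  have hpig := h2 d (by omega) r hr α (1 + r) j hq1 hj (Real.exp (c1 * 2^μ / N^(d-2)))
    C2 (c1 * (2:ℝ)^(-(r * μ)) * N^(d-1)) B (C1 * psiA d r k1) ε k1 k hC2 hB1
    (by positivity) hε (hfam μ hμa) (hcov k1 hk12) hcovk hexp
  have hps := hpsi μ k1 hk12 hk1low hk1up
  have hP : 0 < (2:ℝ)^(-(r * μ)) * N^(d-1) := by positivity
  have hA1 : 4 * (C2 / B) * (C1 * psiA d r k1) ≤ c1 * (2:ℝ)^(-(r * μ)) * N^(d-1) / 2 := by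
    calc 4 * (C2 / B) * (C1 * psiA d r k1)
        ≤ 4 * (C2 / B) * (C1 * (C3 * (2:ℝ)^(-(r * μ)) * N^(d-1))) := by
          refine mul_le_mul_of_nonneg_left (mul_le_mul_of_nonneg_left hps hC1.le) (by positivity)
      _ = (8 * C1 * C2 * C3 / c1) / B * (c1 / 2) * ((2:ℝ)^(-(r * μ)) * N^(d-1)) := by
          field_simp
          ring
      _ ≤ 1 * (c1 / 2) * ((2:ℝ)^(-(r * μ)) * N^(d-1)) := by
          refine mul_le_mul_of_nonneg_right (mul_le_mul_of_nonneg_right ?_ (by positivity)) hP.le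
          rw [div_le_one hBp]; exact hB2
      _ = c1 * (2:ℝ)^(-(r * μ)) * N^(d-1) / 2 := by ring
  have hA2 : c1 * (2:ℝ)^(-(r * μ)) * N^(d-1) / 2 ≤ 4 * B * C2 * ε := by linarith
  have hA3 : c1/(8 * B * C2) * (2:ℝ)^(-(r * μ)) * N^(d-1) ≤ ε := by
    have e1 : (0:ℝ) < 4 * B * C2 := by positivity
    have e2 : c1/(8 * B * C2) * (2:ℝ)^(-(r * μ)) * N^(d-1) =
        (c1 * (2:ℝ)^(-(r * μ)) * N^(d-1) / 2) / (4 * B * C2) := by
      field_simp
      ring
    rw [e2, div_le_iff₀ e1]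
    linarith
  refine le_trans ?_ hA3
  refine mul_le_mul_of_nonneg_right (mul_le_mul_of_nonneg_right (min_le_right _ _) (by positivity)) (by positivity)

end SmSm
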