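import Pool.Agent.H636R2.SM.SpecQ
import Pool.Agent.H636R2.SM.LOWB0
open MeasureTheory Real ProbabilityTheory
open scoped ENNReal BigOperators

namespace SmSm
open HypVol MWidth

/-- **LOWQB0** -/
theorem lowqb0 (h1 : S_FAM1B) (h2 : S_PIG1) (h3 : S_UPQB) (h4 : S_ADM) : S_LOWQB0 := by
  intro d hd α
  obtain ⟨c1, C2, n0, hc1, hC2, hfam⟩ := h1 d hd α 3 (by norm_num)
  obtain ⟨C1, hC1, hcov⟩ := h3 d (by omega) (3/2) (by norm_num) (by norm_num) α
  obtain ⟨C3, hC3, hpsi⟩ := lowb0_psi d (by omega) c1 hc1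
  set b : ℝ := max 1 (8 * C1 * C2 * C3 / c1) with hb
  have hb1 : 1 ≤ b := le_max_left _ _
  have hb2 : 8 * C1 * C2 * C3 / c1 ≤ b := le_max_right _ _
  have hbpos : 0 < b := by linarith
  refine ⟨min (c1 / 8) (c1 / (8 * b * C2)), max n0 (max 2 ⌈8 / c1⌉₊), by positivity, ?_⟩
  intro n hn k ε2 hk hε2 hcv0
  have hn0 : n0 ≤ n := (le_max_left _ _).trans hn
  have hn2 : 2 ≤ n := ((le_max_left _ _).trans (le_max_right _ _)).trans hn
  have hn8 : 8 ≤ c1 * n := by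
    have h7 : (⌈8 / c1⌉₊ : ℝ) ≤ n := by
      exact_mod_cast ((le_max_right _ _).trans (le_max_right _ _)).trans hn
    have h8 : 8 / c1 ≤ n := (Nat.le_ceil _).trans h7
    rw [div_le_iff₀ hc1] at h8
    linarith
  obtain ⟨hk1, hk2, hk8, hps⟩ := hpsi n hn2 hn8
  have hnpos : (0:ℝ) < n := by exact_mod_cast (by omega : 0 < n)
  set x : ℝ := c1 * 2 ^ n * (n:ℝ) ^ (d - 1) with hx
  have hx0 : 0 < x := by positivity
  set k1 := ⌊x / 4⌋₊ with hk1'
  have hkx : (k1:ℝ) ≤ x / 4 := Nat.floor_le (by positivity)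
  have hkk : k ≤ k1 := by
    have h7 : (k:ℝ) ≤ c1 / 8 * 2 ^ n * (n:ℝ) ^ (d - 1) := by
      refine hk.trans ?_
      have := min_le_left (c1 / 8) (c1 / (8 * b * C2))
      gcongr
    have h8 : c1 / 8 * 2 ^ n * (n:ℝ) ^ (d - 1) = x / 8 := by rw [hx]; ring
    rw [h8] at h7
    exact_mod_cast h7.trans hk8
  have hcv : Cov 1 k1 (ENNReal.ofReal ε2) (WF d (1/2) 1 α) := lowb0_cov_mono hkk hcv0
  set L : ℕ := Nat.log 2 n with hL
  have hLpos : (0:ℝ) < L := by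
    have : 1 ≤ Nat.log 2 n := Nat.log_pos (by norm_num) hn2
    exact_mod_cast this
  set R : ℝ := √((n:ℝ) * L / 2 ^ n) with hR
  have hR0 : 0 < R := Real.sqrt_pos.2 (by positivity)
  have hψ0 : 0 < psiB d k1 := (h4.2 d (by omega)).1 k1 hk2
  have hpow : (2:ℝ) ^ k1 * 2 ^ k1 < Real.exp (c1 * 2^n * (n:ℝ)^(d-1)) := by
    rw [← pow_add]
    have h8 : (2:ℝ) ^ (k1 + k1) = Real.exp (((k1 + k1 : ℕ) : ℝ) * Real.log 2) := by
      rw [Real.exp_nat_mul, Real.exp_log (by norm_num)]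
    rw [h8]
    apply Real.exp_lt_exp.2
    have h9 := Real.log_two_lt_d9
    have h10 : 0 < Real.log 2 := Real.log_pos (by norm_num)
    push_cast
    have h11 : ((k1:ℝ) + k1) * Real.log 2 ≤ (x / 2) * Real.log 2 :=
      mul_le_mul_of_nonneg_right (by linarith) h10.le
    have h12 : (x / 2) * Real.log 2 < x := by nlinarith
    exact lt_of_le_of_lt h11 h12
  have h7 := h2 d (by omega) (1/2) (by norm_num) α (3/2) 3 (by norm_num) (by norm_num)
    (Real.exp (c1 * 2^n * (n:ℝ)^(d-1))) C2 (c1 * R) b (C1 * psiB d k1) ε2 k1 k1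
    hC2 hb1 (mul_pos hC1 hψ0) hε2 (hfam n hn0) (hcov k1 hk2) hcv hpow
  have h8 : 4 * (C2 / b) * (C1 * psiB d k1) ≤ c1 * R / 2 := by
    have h9 : 4 * (C2 / b) * (C1 * psiB d k1) ≤ 4 * (C2 / b) * (C1 * (C3 * R)) := by gcongr
    have h10 : 4 * (C2 / b) * (C1 * (C3 * R)) = (8 * C1 * C2 * C3 / c1) / b * (c1 * R / 2) := by
      field_simp
      ring
    have h11 : (8 * C1 * C2 * C3 / c1) / b ≤ 1 := by
      rw [div_le_one hbpos]
      exact hb2
    rw [h10] at h9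
    refine h9.trans ?_
    have h12 : 0 ≤ c1 * R / 2 := by positivity
    nlinarith
  have h9 : c1 * R / 2 ≤ 4 * b * C2 * ε2 := by linarith
  have h10 : c1 / (8 * b * C2) * R ≤ ε2 := by
    rw [div_mul_eq_mul_div, div_le_iff₀ (by positivity)]
    linarith
  refine le_trans ?_ h10
  exact mul_le_mul_of_nonneg_right (min_le_right _ _) hR0.le

end SmSm
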