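import Pool.Agent.H636R2.SM.SpecQ

namespace SmSm

theorem maur_core {E κ : Type*} [NormedAddCommGroup E] [InnerProductSpace ℂ E] [Fintype κ]
    (w : κ → ℝ) (hw : ∀ k, 0 ≤ w k) (hs : ∑ k, w k = 1) (u : κ → E) (ρ : ℝ)
    (hu : ∀ k, ‖u k‖ ^ 2 ≤ ρ) (M : ℕ) :
    ∃ k : Fin M → κ, ‖(M : ℂ) • (∑ j, (w j : ℂ) • u j) - ∑ m, u (k m)‖ ^ 2 ≤ M * ρ := by
  set f : E := ∑ j, (w j : ℂ) • u j with hf
  induction M with
  | zero => exact ⟨fun m => m.elim0, by simp⟩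
  | succ M ih =>
    obtain ⟨k, hk⟩ := ih
    set g : E := (M : ℂ) • f - ∑ m, u (k m) with hg
    have hin : (inner ℂ (g + f) f : ℂ).re = ∑ j, w j * (inner ℂ (g + f) (u j) : ℂ).re := by
      conv_lhs => rw [hf, inner_sum, Complex.re_sum]
      refine Finset.sum_congr rfl fun j _ => ?_
      rw [inner_smul_right, Complex.re_ofReal_mul]
    have hcalc : ∑ j, w j * ‖g + f - u j‖ ^ 2 ≤ ‖g‖ ^ 2 + ρ := by
      have h1 : ∀ j, ‖g + f - u j‖ ^ 2
          = ‖g + f‖ ^ 2 - 2 * (inner ℂ (g + f) (u j) : ℂ).re + ‖u j‖ ^ 2 := by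
        intro j
        exact norm_sub_sq (𝕜 := ℂ) (g + f) (u j)
      have h2 : ∑ j, w j * ‖g + f - u j‖ ^ 2
          = ‖g + f‖ ^ 2 - 2 * (inner ℂ (g + f) f : ℂ).re + ∑ j, w j * ‖u j‖ ^ 2 := by
        rw [hin]
        simp_rw [h1]
        have : ∀ j, w j * (‖g + f‖ ^ 2 - 2 * (inner ℂ (g + f) (u j) : ℂ).re + ‖u j‖ ^ 2)
          = w j * ‖g + f‖ ^ 2 - 2 * (w j * (inner ℂ (g + f) (u j) : ℂ).re) + w j * ‖u j‖ ^ 2 := by
          intro j; ring
        simp_rw [this]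
        rw [Finset.sum_add_distrib, Finset.sum_sub_distrib, ← Finset.sum_mul, hs,
          ← Finset.mul_sum]
        ring
      have h3 : ∑ j, w j * ‖u j‖ ^ 2 ≤ ρ := by
        calc ∑ j, w j * ‖u j‖ ^ 2 ≤ ∑ j, w j * ρ :=
              Finset.sum_le_sum fun j _ => mul_le_mul_of_nonneg_left (hu j) (hw j)
          _ = ρ := by rw [← Finset.sum_mul, hs, one_mul]
      have h4 : ‖g + f‖ ^ 2 = ‖g‖ ^ 2 + 2 * (inner ℂ g f : ℂ).re + ‖f‖ ^ 2 :=
        norm_add_sq (𝕜 := ℂ) g f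
      have h5 : (inner ℂ (g + f) f : ℂ).re = (inner ℂ g f : ℂ).re + ‖f‖ ^ 2 := by
        rw [inner_add_left, Complex.add_re]
        congr 1
        have := inner_self_eq_norm_sq (𝕜 := ℂ) f
        exact this
      rw [h2, h4, h5]
      nlinarith [sq_nonneg ‖f‖]
    have hex : ∃ j, ‖g + f - u j‖ ^ 2 ≤ ‖g‖ ^ 2 + ρ := by
      by_contra hcon
      push Not at hcon
      have hpos : ∃ j, 0 < w j := by
        by_contra hno
        push Not at hno
        have : ∑ k, w k ≤ 0 := Finset.sum_nonpos fun j _ => hno j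
        linarith
      obtain ⟨j₀, hj₀⟩ := hpos
      have : ∑ j, w j * (‖g‖ ^ 2 + ρ) < ∑ j, w j * ‖g + f - u j‖ ^ 2 := by
        refine Finset.sum_lt_sum (fun j _ => mul_le_mul_of_nonneg_left (hcon j).le (hw j))
          ⟨j₀, Finset.mem_univ _, mul_lt_mul_of_pos_left (hcon j₀) hj₀⟩
      rw [← Finset.sum_mul, hs, one_mul] at this
      linarith
    obtain ⟨j, hj⟩ := hex
    refine ⟨Fin.snoc k j, ?_⟩
    rw [Fin.sum_univ_castSucc]
    simp only [Fin.snoc_castSucc, Fin.snoc_last]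
    have e : ((M + 1 : ℕ) : ℂ) • f - (∑ m, u (k m) + u j) = g + f - u j := by
      rw [hg]
      push_cast
      rw [add_smul, one_smul]
      abel
    rw [e]
    push_cast
    linarith

/-- MAUR -/
theorem maur : S_MAUR := by
  intro Y ι _ hne _ v R b M hM hv hb
  classical
  obtain ⟨z₀⟩ := hne
  set cc : Fin 5 → ℂ := ![0, 1, -1, Complex.I, -Complex.I] with hcc
  have hcc1 : ∀ j, ‖cc j‖ ≤ 1 := by
    intro j
    fin_cases j <;> simp [hcc]
  have hcc2 : ∀ j, cc j = 0 ∨ cc j = 1 ∨ cc j = -1 ∨ cc j = Complex.I ∨ cc j = -Complex.I := by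
    intro j
    fin_cases j <;> simp [hcc]
  set w1 : Y → Fin 5 → ℝ := fun z => ![0, (b z).re⁺ / 2, (b z).re⁻ / 2, (b z).im⁺ / 2,
    (b z).im⁻ / 2] with hw1
  have hw1s : ∀ z, ∑ j, w1 z j = (|(b z).re| + |(b z).im|) / 2 := by
    intro z
    have h1 := posPart_add_negPart (b z).re
    have h2 := posPart_add_negPart (b z).im
    rw [← h1, ← h2]
    simp [hw1, Fin.sum_univ_five]
    ring
  have hw1n : ∀ z j, 0 ≤ w1 z j := by
    intro z j
    fin_cases j <;> simp [hw1] <;> positivity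
  have hw1c : ∀ z, ∑ j, (w1 z j : ℂ) * (2 * cc j) = b z := by
    intro z
    have h1 := posPart_sub_negPart (b z).re
    have h2 := posPart_sub_negPart (b z).im
    calc ∑ j, (w1 z j : ℂ) * (2 * cc j)
        = (((b z).re⁺ : ℝ) : ℂ) - (((b z).re⁻ : ℝ) : ℂ) + ((((b z).im⁺ : ℝ) : ℂ)
          - (((b z).im⁻ : ℝ) : ℂ)) * Complex.I := by
          simp [hw1, hcc, Fin.sum_univ_five]
          ring
      _ = b z := by
          rw [← Complex.ofReal_sub, ← Complex.ofReal_sub, h1, h2, Complex.re_add_im]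
  have htot : ∑ z, ∑ j, w1 z j ≤ 1 := by
    refine le_trans (Finset.sum_le_sum fun z _ => ?_) hb
    rw [hw1s]
    have h1 := Complex.abs_re_le_norm (b z)
    have h2 := Complex.abs_im_le_norm (b z)
    linarith
  set rem : ℝ := 1 - ∑ z, ∑ j, w1 z j with hrem
  have hrem0 : 0 ≤ rem := by rw [hrem]; linarith
  set w : Y × Fin 5 → ℝ := fun x => w1 x.1 x.2 + if x = (z₀, 0) then rem else 0 with hw
  have hwn : ∀ x, 0 ≤ w x := by
    intro x
    rw [hw]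
    have := hw1n x.1 x.2
    simp only
    split_ifs <;> linarith
  have hws : ∑ x, w x = 1 := by
    rw [hw]
    simp only
    rw [Finset.sum_add_distrib, Fintype.sum_prod_type]
    rw [Finset.sum_ite_eq' Finset.univ (z₀, (0 : Fin 5)) (fun _ => rem)]
    simp [hrem]
  set u : Y × Fin 5 → EuclideanSpace ℂ ι := fun x =>
    WithLp.toLp 2 (fun i => 2 * cc x.2 * v x.1 i) with hu
  have hun : ∀ x, ‖u x‖ ^ 2 ≤ 4 * R ^ 2 := by
    intro x
    rw [EuclideanSpace.norm_sq_eq]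
    have h1 : ∀ i, ‖u x i‖ ^ 2 ≤ 4 * ‖v x.1 i‖ ^ 2 := by
      intro i
      have : u x i = 2 * cc x.2 * v x.1 i := rfl
      rw [this, norm_mul, norm_mul]
      have h2 : ‖(2 : ℂ)‖ = 2 := by simp
      rw [h2]
      have h3 := hcc1 x.2
      have h4 := norm_nonneg (cc x.2)
      have h5 : ‖cc x.2‖ ^ 2 ≤ 1 := by nlinarith
      calc (2 * ‖cc x.2‖ * ‖v x.1 i‖) ^ 2 = 4 * (‖cc x.2‖ ^ 2 * ‖v x.1 i‖ ^ 2) := by ring
        _ ≤ 4 * (1 * ‖v x.1 i‖ ^ 2) := by gcongr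
        _ = _ := by ring
    calc ∑ i, ‖u x i‖ ^ 2 ≤ ∑ i, 4 * ‖v x.1 i‖ ^ 2 := Finset.sum_le_sum fun i _ => h1 i
      _ = 4 * ∑ i, ‖v x.1 i‖ ^ 2 := by rw [Finset.mul_sum]
      _ ≤ 4 * R ^ 2 := by have := hv x.1; linarith
  obtain ⟨k, hk⟩ := maur_core w hwn hws u (4 * R ^ 2) hun M
  have hfi : ∀ i, (∑ x, (w x : ℂ) • u x) i = ∑ z, b z * v z i := by
    intro i
    rw [WithLp.ofLp_sum, Finset.sum_apply]
    have h0 : ∀ x, ((w x : ℂ) • u x) i = (w1 x.1 x.2 : ℂ) * (2 * cc x.2) * v x.1 i := by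
      intro x
      have e1 : ((w x : ℂ) • u x) i = (w x : ℂ) * (2 * cc x.2 * v x.1 i) := rfl
      rw [e1]
      by_cases hx : x = (z₀, 0)
      · subst hx
        simp [hcc]
      · simp only [hw, hx, if_false, add_zero]
        ring
    have h1 : ∑ x, ((w x : ℂ) • u x) i = ∑ x : Y × Fin 5,
        (w1 x.1 x.2 : ℂ) * (2 * cc x.2) * v x.1 i := Finset.sum_congr rfl fun x _ => h0 x
    refine h1.trans ?_
    rw [Fintype.sum_prod_type]
    refine Finset.sum_congr rfl fun z _ => ?_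
    rw [← hw1c z, Finset.sum_mul]
  have hM0 : (0 : ℝ) < M := by exact_mod_cast hM
  refine ⟨fun m => (k m).1, fun m => cc (k m).2, fun m => hcc2 _, ?_⟩
  rw [EuclideanSpace.norm_sq_eq] at hk
  have h6 : ∀ i, ‖(∑ z, b z * v z i) - (2 / (M : ℂ)) * ∑ m, cc (k m).2 * v (k m).1 i‖ ^ 2
      = ‖((M : ℂ) • (∑ j, (w j : ℂ) • u j) - ∑ m, u (k m)) i‖ ^ 2 / (M : ℝ) ^ 2 := by
    intro i
    have e1 : ((M : ℂ) • (∑ j, (w j : ℂ) • u j) - ∑ m, u (k m)) i
        = (M : ℂ) * (∑ z, b z * v z i) - ∑ m, 2 * cc (k m).2 * v (k m).1 i := by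
      have e2 : ((M : ℂ) • (∑ j, (w j : ℂ) • u j) - ∑ m, u (k m)) i
        = (M : ℂ) * ((∑ j, (w j : ℂ) • u j) i) - (∑ m, u (k m)) i := rfl
      rw [e2, hfi, WithLp.ofLp_sum, Finset.sum_apply]
    have hMC : (M : ℂ) ≠ 0 := by exact_mod_cast hM0.ne'
    have e3 : (∑ z, b z * v z i) - (2 / (M : ℂ)) * ∑ m, cc (k m).2 * v (k m).1 i
        = ((M : ℂ) * (∑ z, b z * v z i) - ∑ m, 2 * cc (k m).2 * v (k m).1 i) / M := by
      have e4 : ∑ m, 2 * cc (k m).2 * v (k m).1 i = 2 * ∑ m, cc (k m).2 * v (k m).1 i := by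
        rw [Finset.mul_sum]
        exact Finset.sum_congr rfl fun m _ => by ring
      rw [e4]
      field_simp
    rw [e1, e3, norm_div, div_pow]
    simp
  simp_rw [h6]
  rw [← Finset.sum_div, div_le_div_iff₀ (by positivity) hM0]
  calc (∑ i, ‖((M : ℂ) • (∑ j, (w j : ℂ) • u j) - ∑ m, u (k m)) i‖ ^ 2) * M
      ≤ (M * (4 * R ^ 2)) * M := by gcongr
    _ = 4 * R ^ 2 * (M : ℝ) ^ 2 := by ring

end SmSm
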