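import Pool.Agent.H636R2.SM.SpecQ
import Pool.Agent.H636R2.SM.VPB
import Pool.Agent.H636R2.SM.ANN
import Pool.Agent.MWidth.L_gp_norm
open MeasureTheory Real ProbabilityTheory
open scoped ENNReal BigOperators

/-! Task NET1 (helper415): nets for the levels in `J`. -/

namespace SmSm
open HypVol MWidth

/-- the frequencies -/
noncomputable def net1_L (d : ℕ) (J : Finset ℕ) : Finset (Fin d → ℤ) := J.biUnion (annl d)

/-- the multiplier -/
noncomputable def net1_m {d : ℕ} (J : Finset ℕ) (k : Fin d → ℤ) : ℝ :=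
  ∑ μ ∈ J, ∑ s ∈ lev d μ, blk s k

/-- the kernel -/
noncomputable def net1_kap {d : ℕ} (J : Finset ℕ) (r : ℝ) (α : Fin d → ℝ) (x : Fin d → ℝ) : ℂ :=
  ∑ μ ∈ J, ∑ s ∈ lev d μ, ∑ k ∈ boxs s, Fh r α k * (blk s k : ℂ) * chi k x

theorem net1_blk (h5 : S_VPF) {d : ℕ} (s : Fin d → ℕ) (k : Fin d → ℤ) (hk : blk s k ≠ 0) :
    k ∈ ann s := by
  unfold ann
  rw [Fintype.mem_piFinset]
  intro j
  obtain ⟨h1, h2⟩ := h5.2.2.2 d s k hk j
  rw [Finset.mem_filter, Finset.mem_Ioo]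
  refine ⟨?_, h1, h2⟩
  rw [← abs_lt, Int.abs_eq_natAbs]
  have h3 : (k j).natAbs < 2 ^ (s j + 1) :=
    lt_of_lt_of_le (Nat.lt_size_self _) (Nat.pow_le_pow_right (by norm_num) h2)
  exact_mod_cast h3

theorem net1_ann_boxs {d : ℕ} (s : Fin d → ℕ) : ann s ⊆ boxs s := by
  intro k hk
  unfold ann at hk
  unfold boxs
  rw [Fintype.mem_piFinset] at hk ⊢
  intro j
  exact (Finset.mem_filter.1 (hk j)).1

/-- exchange of the sums -/
theorem net1_sum (h5 : S_VPF) {d : ℕ} (J : Finset ℕ) (G : (Fin d → ℤ) → ℂ) :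
    ∑ μ ∈ J, ∑ s ∈ lev d μ, ∑ k ∈ boxs s, G k * (blk s k : ℂ) =
      ∑ k ∈ net1_L d J, G k * (net1_m J k : ℂ) := by
  have h1 : ∀ μ ∈ J, ∀ s ∈ lev d μ, ∑ k ∈ boxs s, G k * (blk s k : ℂ) =
      ∑ k ∈ net1_L d J, G k * (blk s k : ℂ) := by
    intro μ hμ s hs
    have h2 : ∑ k ∈ ann s, G k * (blk s k : ℂ) = ∑ k ∈ boxs s, G k * (blk s k : ℂ) := by
      apply Finset.sum_subset (net1_ann_boxs s)
      intro k _ hk
      have : blk s k = 0 := by
        by_contra hne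
        exact hk (net1_blk h5 s k hne)
      rw [this]; simp
    have h3 : ∑ k ∈ ann s, G k * (blk s k : ℂ) = ∑ k ∈ net1_L d J, G k * (blk s k : ℂ) := by
      apply Finset.sum_subset
      · intro k hk
        unfold net1_L annl
        rw [Finset.mem_biUnion]
        exact ⟨μ, hμ, Finset.mem_biUnion.2 ⟨s, hs, hk⟩⟩
      · intro k _ hk
        have : blk s k = 0 := by
          by_contra hne
          exact hk (net1_blk h5 s k hne)
        rw [this]; simp
    rw [← h2, h3]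
  rw [Finset.sum_congr rfl fun μ hμ => Finset.sum_congr rfl fun s hs => h1 μ hμ s hs]
  rw [Finset.sum_congr rfl fun μ _ => Finset.sum_comm]
  rw [Finset.sum_comm]
  apply Finset.sum_congr rfl
  intro k _
  unfold net1_m
  push_cast
  rw [Finset.mul_sum]
  apply Finset.sum_congr rfl
  intro μ _
  rw [Finset.mul_sum]

theorem net1_lev {d : ℕ} (μ : ℕ) (s : Fin d → ℕ) : s ∈ lev d μ ↔ ∑ j, s j = μ := by
  unfold lev
  rw [Finset.mem_filter, Fintype.mem_piFinset]
  constructor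
  · exact fun h => h.2
  · intro h
    refine ⟨fun j => ?_, h⟩
    rw [Finset.mem_range]
    have : s j ≤ ∑ j, s j :=
      Finset.single_le_sum (f := s) (fun i _ => Nat.zero_le _) (Finset.mem_univ j)
    omega

theorem net1_blk_nonneg (h5 : S_VPF) {d : ℕ} (s : Fin d → ℕ) (k : Fin d → ℤ) : 0 ≤ blk s k := by
  unfold blk
  exact Finset.prod_nonneg fun j _ => (h5.1 _ _).1

theorem net1_m_nonneg (h5 : S_VPF) {d : ℕ} (J : Finset ℕ) (k : Fin d → ℤ) : 0 ≤ net1_m J k :=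
  Finset.sum_nonneg fun _ _ => Finset.sum_nonneg fun s _ => net1_blk_nonneg h5 s k

theorem net1_m_le (h5 : S_VPF) {d : ℕ} (J : Finset ℕ) (k : Fin d → ℤ) : net1_m J k ≤ 1 := by
  classical
  obtain ⟨B, hB⟩ : ∃ B, B = Fintype.piFinset (fun j => Finset.range (Nat.size (k j).natAbs + 1)) :=
    ⟨_, rfl⟩
  have hmem : ∀ s : Fin d → ℕ, blk s k ≠ 0 → s ∈ B := by
    intro s hs
    rw [hB, Fintype.mem_piFinset]
    intro j
    rw [Finset.mem_range]
    have := (h5.2.2.2 d s k hs j).1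
    omega
  have h1 : ∀ μ, ∑ s ∈ lev d μ, blk s k = ∑ s ∈ B.filter (fun s => ∑ j, s j = μ), blk s k := by
    intro μ
    symm
    refine Finset.sum_subset ?_ ?_
    · intro s hs
      rw [Finset.mem_filter] at hs
      exact (net1_lev μ s).2 hs.2
    · intro s hs hs'
      by_contra hne
      apply hs'
      rw [Finset.mem_filter]
      exact ⟨hmem s hne, (net1_lev μ s).1 hs⟩
  unfold net1_m
  rw [Finset.sum_congr rfl fun μ _ => h1 μ]
  have h2 : ∑ μ ∈ J, ∑ s ∈ B.filter (fun s => ∑ j, s j = μ), blk s k ≤ ∑ s ∈ B, blk s k :=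
    Finset.sum_fiberwise_le_sum_of_sum_fiber_nonneg fun μ _ =>
      Finset.sum_nonneg fun s _ => net1_blk_nonneg h5 s k
  refine h2.trans (le_of_eq ?_)
  rw [hB]
  exact h5.2.2.1 d k

/-- size of the multipliers -/
theorem net1_Fh {d : ℕ} (r : ℝ) (hr : 0 < r) (α : Fin d → ℝ) (μ : ℕ) (k : Fin d → ℤ)
    (hk : k ∈ annl d μ) : ‖Fh r α k‖ ≤ (2:ℝ)^(r * d) * (2:ℝ)^(-(r * μ)) := by
  unfold annl at hk
  obtain ⟨s, hs, hks⟩ := Finset.mem_biUnion.1 hk
  have hsum := (net1_lev μ s).1 hs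
  have h1 : ‖Fh r α k‖ ≤ ∏ j, ((2:ℝ)^r * (2:ℝ)^(-(r * (s j : ℝ)))) := by
    unfold Fh
    rw [norm_prod]
    apply Finset.prod_le_prod (fun j _ => norm_nonneg _)
    intro j _
    obtain ⟨_, h2, _⟩ := ann_mem_ann hks j
    split_ifs with h0
    · rw [h0] at h2
      have h3 : s j = 0 := by simpa using h2
      rw [h3]
      simp only [norm_one, Nat.cast_zero, mul_zero, neg_zero, Real.rpow_zero, mul_one]
      exact Real.one_le_rpow (by norm_num) hr.le
    · have h4 : (2:ℝ)^(s j : ℝ) / 2 ≤ |(k j : ℝ)| := by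
        have h5 : 2 ^ (Nat.size (k j).natAbs - 1) ≤ (k j).natAbs := by
          have h6 : Nat.size (k j).natAbs - 1 < Nat.size (k j).natAbs := by
            have : 0 < Nat.size (k j).natAbs := Nat.size_pos.2 (Int.natAbs_pos.2 h0)
            omega
          exact Nat.lt_size.1 h6
        have h7 : 2 ^ (s j) ≤ 2 * (k j).natAbs := by
          calc 2 ^ (s j) ≤ 2 ^ (Nat.size (k j).natAbs - 1 + 1) :=
                Nat.pow_le_pow_right (by norm_num) (by omega)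
            _ = 2 * 2 ^ (Nat.size (k j).natAbs - 1) := by ring
            _ ≤ _ := Nat.mul_le_mul_left 2 h5
        have h8 : |(k j : ℝ)| = ((k j).natAbs : ℝ) := by
          rw [Nat.cast_natAbs, Int.cast_abs]
        rw [h8, Real.rpow_natCast]
        have h9 : ((2 ^ (s j) : ℕ) : ℝ) ≤ ((2 * (k j).natAbs : ℕ) : ℝ) := by exact_mod_cast h7
        push_cast at h9
        linarith
      have h10 : 0 < (2:ℝ)^(s j : ℝ) / 2 := by positivity
      have h11 : |(k j : ℝ)|^(-r) ≤ ((2:ℝ)^(s j : ℝ) / 2)^(-r) :=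
        Real.rpow_le_rpow_of_nonpos h10 h4 (by linarith)
      have h12 : ((2:ℝ)^(s j : ℝ) / 2)^(-r) = (2:ℝ)^r * (2:ℝ)^(-(r * (s j : ℝ))) := by
        rw [div_eq_mul_inv, ← Real.rpow_neg_one, Real.mul_rpow (by positivity) (by positivity),
          ← Real.rpow_mul (by norm_num), ← Real.rpow_mul (by norm_num), mul_comm]
        congr 2 <;> ring
      have hph : ‖Complex.exp (-(Complex.I *
          (((SignType.sign (k j) : ℤ) : ℝ) * α j * π / 2 : ℝ)))‖ = 1 := by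
        have h2 : -(Complex.I * (((SignType.sign (k j) : ℤ) : ℝ) * α j * π / 2 : ℝ)) =
            (((-(((SignType.sign (k j) : ℤ) : ℝ) * α j * π / 2) : ℝ)) : ℂ) * Complex.I := by
          push_cast; ring
        rw [h2, Complex.norm_exp_ofReal_mul_I]
      rw [norm_mul, hph, mul_one, Complex.norm_real, Real.norm_of_nonneg (by positivity)]
      rw [← h12]
      exact h11
  refine h1.trans (le_of_eq ?_)
  rw [Finset.prod_mul_distrib, Finset.prod_const, Finset.card_univ, Fintype.card_fin,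
    ← Real.rpow_natCast, ← Real.rpow_mul (by norm_num), ← Real.rpow_sum_of_pos (by norm_num),
    Finset.sum_neg_distrib, ← Finset.mul_sum, ← hsum]
  push_cast
  rfl

/-- Parseval -/
theorem net1_parseval {d : ℕ} (Λ : Finset (Fin d → ℤ)) (w : (Fin d → ℤ) → ℂ) :
    eLpNorm (fun x => ∑ k ∈ Λ, w k * chi k x) 2 (TP d) =
      ENNReal.ofReal (√(∑ k ∈ Λ, ‖w k‖ ^ 2)) := by
  have h1 := Sol_gp_norm.lp_two (Λ := Λ) (fun i : Λ × Fin 2 => if i.2 = 0 then (w i.1).re else (w i.1).im)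
  have e1 : (fun x => ∑ k ∈ Λ, w k * chi k x) =
      gp Λ (fun i : Λ × Fin 2 => if i.2 = 0 then (w i.1).re else (w i.1).im) := by
    funext x
    unfold gp chi
    rw [← Finset.sum_coe_sort Λ]
    apply Finset.sum_congr rfl
    intro k _
    congr 1
    simp only [if_true, Fin.one_eq_zero_iff, OfNat.ofNat_ne_one, if_false]
    exact (Complex.re_add_im _).symm
  have e2 : ∑ i : Λ × Fin 2, (if i.2 = 0 then (w i.1).re else (w i.1).im) ^ 2 =
      ∑ k ∈ Λ, ‖w k‖ ^ 2 := by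
    rw [Fintype.sum_prod_type, ← Finset.sum_coe_sort Λ]
    apply Finset.sum_congr rfl
    intro k _
    rw [Fin.sum_univ_two]
    simp only [if_true, Fin.one_eq_zero_iff, OfNat.ofNat_ne_one, if_false]
    rw [← Complex.normSq_eq_norm_sq, Complex.normSq_apply]
    ring
  rw [e1, h1, e2]


theorem net1_one (r α : ℝ) (s : ℕ) (a : ℝ) :
    ∫ t, ‖vpb_K r α s (t - a)‖
        ∂(ENNReal.ofReal (2 * π)⁻¹ • volume.restrict (Set.Ico (0 : ℝ) (2 * π))) =
      (2 * π)⁻¹ * ∫ t in (0:ℝ)..(2 * π), ‖vpb_K r α s t‖ := by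
  rw [integral_smul_measure, ENNReal.toReal_ofReal (by positivity), smul_eq_mul]
  congr 1
  rw [integral_Ico_eq_integral_Ioc, ← intervalIntegral.integral_of_le (by positivity)]
  rw [intervalIntegral.integral_comp_sub_right (fun t => ‖vpb_K r α s t‖) a]
  have h := (vpb_periodic r α s).intervalIntegral_add_eq (0 - a) 0
  rw [zero_add] at h
  rw [show 2 * π - a = 0 - a + 2 * π by ring]
  exact h

/-- the `L_1` norm of a block of the kernel -/
theorem net1_block (h3 : S_VP1) (d : ℕ) (r : ℝ) (α : Fin d → ℝ) : ∃ C : ℝ, 0 < C ∧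
    ∀ (s : Fin d → ℕ) (a : Fin d → ℝ),
      eLpNorm (fun x => ∑ k ∈ boxs s, Fh r α k * (blk s k : ℂ) * chi k (x - a)) 1 (TP d) ≤
        ENNReal.ofReal (C * (2:ℝ)^(-(r * ∑ j, (s j : ℝ)))) := by
  choose C hC hCb using fun j : Fin d => h3 r (α j)
  refine ⟨∏ j, C j, Finset.prod_pos fun j _ => hC j, fun s a => ?_⟩
  have := TP_prob d
  have e1 : (fun x => ∑ k ∈ boxs s, Fh r α k * (blk s k : ℂ) * chi k (x - a)) =
      fun x => ∏ j, vpb_K r (α j) (s j) (x j - a j) := by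
    funext x
    rw [vpb_prod r α s (x - a)]
    rfl
  rw [e1]
  have hcont : Continuous fun x : Fin d → ℝ => ∏ j, vpb_K r (α j) (s j) (x j - a j) := by
    refine continuous_finsetProd _ fun j _ => ?_
    exact (vpb_cont r (α j) (s j)).comp ((continuous_apply j).sub continuous_const)
  have hint : Integrable (fun x : Fin d → ℝ => ∏ j, vpb_K r (α j) (s j) (x j - a j)) (TP d) := by
    refine Integrable.of_bound hcont.aestronglyMeasurable
      (∏ j, ∑ k ∈ Finset.Ioo (-(2:ℤ)^(s j+1)) ((2:ℤ)^(s j+1)), ‖vpb_a r (α j) (s j) k‖) ?_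
    refine Filter.Eventually.of_forall fun y => ?_
    rw [norm_prod]
    exact Finset.prod_le_prod (fun j _ => norm_nonneg _) fun j _ => vpb_bound _ _ _ _
  rw [eLpNorm_one_eq_lintegral_enorm, ← ofReal_integral_norm_eq_lintegral_enorm hint]
  apply ENNReal.ofReal_le_ofReal
  have h2 : ∫ y, ‖∏ j, vpb_K r (α j) (s j) (y j - a j)‖ ∂(TP d) =
      ∏ j, ((2 * π)⁻¹ * ∫ t in (0:ℝ)..(2 * π), ‖vpb_K r (α j) (s j) t‖) := by
    simp_rw [norm_prod]
    unfold TP
    have hI : IsFiniteMeasure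
        (ENNReal.ofReal (2 * π)⁻¹ • volume.restrict (Set.Ico (0 : ℝ) (2 * π))) := by
      refine ⟨?_⟩
      rw [Measure.smul_apply, Measure.restrict_apply MeasurableSet.univ, Set.univ_inter,
        Real.volume_Ico, smul_eq_mul]
      exact ENNReal.mul_lt_top ENNReal.ofReal_lt_top ENNReal.ofReal_lt_top
    rw [integral_fintype_prod_eq_prod (f := fun j t => ‖vpb_K r (α j) (s j) (t - a j)‖)]
    exact Finset.prod_congr rfl fun j _ => net1_one r (α j) (s j) (a j)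
  rw [h2]
  have h3 : ∏ j, ((2 * π)⁻¹ * ∫ t in (0:ℝ)..(2 * π), ‖vpb_K r (α j) (s j) t‖) ≤
      ∏ j, (C j * (2:ℝ)^(-(r * (s j : ℝ)))) := by
    refine Finset.prod_le_prod (fun j _ => ?_) fun j _ => ?_
    · refine mul_nonneg (by positivity) (intervalIntegral.integral_nonneg (by positivity) ?_)
      intro t _
      exact norm_nonneg _
    · have h4 : ∫ t in (0:ℝ)..(2 * π), ‖vpb_K r (α j) (s j) t‖ ≤ C j * (2:ℝ)^(-(r * (s j : ℝ))) :=
        hCb j (s j)
      have h5 : 0 ≤ ∫ t in (0:ℝ)..(2 * π), ‖vpb_K r (α j) (s j) t‖ :=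
        intervalIntegral.integral_nonneg (by positivity) fun t _ => norm_nonneg _
      have h6 : (2 * π)⁻¹ ≤ 1 := by
        rw [inv_le_one₀ (by positivity)]
        have := Real.pi_gt_three
        linarith
      calc (2 * π)⁻¹ * ∫ t in (0:ℝ)..(2 * π), ‖vpb_K r (α j) (s j) t‖
          ≤ 1 * ∫ t in (0:ℝ)..(2 * π), ‖vpb_K r (α j) (s j) t‖ :=
            mul_le_mul_of_nonneg_right h6 h5
        _ ≤ _ := by rw [one_mul]; exact h4
  have h7 : ∏ j, (C j * (2:ℝ)^(-(r * (s j : ℝ)))) =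
      (∏ j, C j) * (2:ℝ)^(-(r * ∑ j, (s j : ℝ))) := by
    rw [Finset.prod_mul_distrib, Finset.mul_sum, ← Finset.sum_neg_distrib,
      Real.rpow_sum_of_pos (by norm_num)]
  rw [h7] at h3
  exact h3

theorem net1_chi_cont {d : ℕ} (k : Fin d → ℤ) (a : Fin d → ℝ) :
    Continuous fun x : Fin d → ℝ => chi k (x - a) := by
  unfold chi
  fun_prop

theorem net1_kap_cont {d : ℕ} (J : Finset ℕ) (r : ℝ) (α : Fin d → ℝ) (a : Fin d → ℝ) :
    Continuous fun x => net1_kap J r α (x - a) := by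
  unfold net1_kap
  refine continuous_finsetSum _ fun μ _ => continuous_finsetSum _ fun s _ =>
    continuous_finsetSum _ fun k _ => ?_
  exact continuous_const.mul (net1_chi_cont k a)

/-- the `L_1` norm of the kernel -/
theorem net1_kap_norm (h3 : S_VP1) (h4 : S_ANN) (d : ℕ) (hd : 1 ≤ d) (r : ℝ) (α : Fin d → ℝ) :
    ∃ C : ℝ, 0 < C ∧ ∀ (J : Finset ℕ) (a : Fin d → ℝ),
      eLpNorm (fun x => net1_kap J r α (x - a)) 1 (TP d) ≤
        ENNReal.ofReal (C * ∑ μ ∈ J, ((μ:ℝ)+1)^(d-1) * (2:ℝ)^(-(r * μ))) := by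
  obtain ⟨C, hC, hb⟩ := net1_block h3 d r α
  refine ⟨C, hC, fun J a => ?_⟩
  have hc : ∀ s : Fin d → ℕ, Continuous fun x : Fin d → ℝ =>
      ∑ k ∈ boxs s, Fh r α k * (blk s k : ℂ) * chi k (x - a) := by
    intro s
    exact continuous_finsetSum _ fun k _ => continuous_const.mul (net1_chi_cont k a)
  have e1 : (fun x => net1_kap J r α (x - a)) = ∑ μ ∈ J, ∑ s ∈ lev d μ,
      fun x => ∑ k ∈ boxs s, Fh r α k * (blk s k : ℂ) * chi k (x - a) := by
    funext x
    unfold net1_kap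
    rw [Finset.sum_apply]
    apply Finset.sum_congr rfl
    intro μ _
    rw [Finset.sum_apply]
  rw [e1]
  have hm : ∀ μ : ℕ, Continuous (∑ s ∈ lev d μ, fun x : Fin d → ℝ =>
      ∑ k ∈ boxs s, Fh r α k * (blk s k : ℂ) * chi k (x - a)) := by
    intro μ
    have e2 : (∑ s ∈ lev d μ, fun x : Fin d → ℝ =>
        ∑ k ∈ boxs s, Fh r α k * (blk s k : ℂ) * chi k (x - a)) = fun x : Fin d → ℝ =>
        ∑ s ∈ lev d μ, ∑ k ∈ boxs s, Fh r α k * (blk s k : ℂ) * chi k (x - a) := by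
      funext x
      rw [Finset.sum_apply]
    rw [e2]
    exact continuous_finsetSum _ fun s _ => hc s
  refine (eLpNorm_sum_le (fun μ _ => (hm μ).aestronglyMeasurable) le_rfl).trans ?_
  rw [Finset.mul_sum, ENNReal.ofReal_sum_of_nonneg (fun μ _ => by positivity)]
  apply Finset.sum_le_sum
  intro μ _
  refine (eLpNorm_sum_le (fun s _ => (hc s).aestronglyMeasurable) le_rfl).trans ?_
  calc ∑ s ∈ lev d μ, eLpNorm (fun x => ∑ k ∈ boxs s, Fh r α k * (blk s k : ℂ) * chi k (x - a))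
        1 (TP d) ≤ ∑ s ∈ lev d μ, ENNReal.ofReal (C * (2:ℝ)^(-(r * μ))) := by
        apply Finset.sum_le_sum
        intro s hs
        have h5 : (∑ j, (s j : ℝ)) = (μ : ℝ) := by
          rw [← (net1_lev μ s).1 hs]
          push_cast
          rfl
        have h6 := hb s a
        rwa [h5] at h6
    _ = ENNReal.ofReal ((lev d μ).card * (C * (2:ℝ)^(-(r * μ)))) := by
        rw [Finset.sum_const, nsmul_eq_mul, ← ENNReal.ofReal_natCast,
          ← ENNReal.ofReal_mul (by positivity)]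
    _ ≤ _ := by
        apply ENNReal.ofReal_le_ofReal
        have h7 := (h4 d hd μ).1
        have h8 : 0 ≤ C * (2:ℝ)^(-(r * μ)) := by positivity
        calc ((lev d μ).card : ℝ) * (C * (2:ℝ)^(-(r * μ))) ≤
            ((μ:ℝ)+1)^(d-1) * (C * (2:ℝ)^(-(r * μ))) := mul_le_mul_of_nonneg_right h7 h8
          _ = _ := by ring

/-- the five values -/
noncomputable def net1_c (i : Fin 5) : ℂ := ![0, 1, -1, Complex.I, -Complex.I] i

theorem net1_c_norm (i : Fin 5) : ‖net1_c i‖ ≤ 1 := by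
  fin_cases i <;> simp [net1_c]

theorem net1_c_surj (z : ℂ) (h : z = 0 ∨ z = 1 ∨ z = -1 ∨ z = Complex.I ∨ z = -Complex.I) :
    ∃ i, net1_c i = z := by
  rcases h with h | h | h | h | h
  · exact ⟨0, by simp [net1_c, h]⟩
  · exact ⟨1, by simp [net1_c, h]⟩
  · exact ⟨2, by simp [net1_c, h]⟩
  · exact ⟨3, by simp [net1_c, h]⟩
  · exact ⟨4, by simp [net1_c, h]⟩

/-- the functions of the net -/
noncomputable def net1_g {d : ℕ} (J : Finset ℕ) (r : ℝ) (α : Fin d → ℝ) (N M : ℕ)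
    (y : Fin M → GG d N × Fin 5) (x : Fin d → ℝ) : ℂ :=
  (2 * 3^d / (M:ℂ)) * ∑ m, net1_c (y m).2 * net1_kap J r α (x - gpt (y m).1)


theorem net1_g_cont {d : ℕ} (J : Finset ℕ) (r : ℝ) (α : Fin d → ℝ) (N M : ℕ)
    (y : Fin M → GG d N × Fin 5) : Continuous (net1_g J r α N M y) := by
  unfold net1_g
  exact continuous_const.mul (continuous_finsetSum _ fun m _ =>
    continuous_const.mul (net1_kap_cont J r α _))

theorem net1_g_norm {d : ℕ} (J : Finset ℕ) (r : ℝ) (α : Fin d → ℝ) (N M : ℕ) (hM : 1 ≤ M)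
    (B : ℝ) (hB : 0 ≤ B) (h : ∀ a : Fin d → ℝ,
      eLpNorm (fun x => net1_kap J r α (x - a)) 1 (TP d) ≤ ENNReal.ofReal B)
    (y : Fin M → GG d N × Fin 5) :
    eLpNorm (net1_g J r α N M y) 1 (TP d) ≤ ENNReal.ofReal (2 * 3^d * B) := by
  have e1 : net1_g J r α N M y = (2 * 3^d / (M:ℂ)) • ∑ m, (net1_c (y m).2 •
      fun x : Fin d → ℝ => net1_kap J r α (x - gpt (y m).1)) := by
    funext x
    unfold net1_g
    rw [Pi.smul_apply, smul_eq_mul, Finset.sum_apply]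
    rfl
  rw [e1, eLpNorm_const_smul]
  have h2 : eLpNorm (∑ m, (net1_c (y m).2 • fun x : Fin d → ℝ =>
      net1_kap J r α (x - gpt (y m).1))) 1 (TP d) ≤ (M : ℝ≥0∞) * ENNReal.ofReal B := by
    refine (eLpNorm_sum_le (fun m _ => ((net1_kap_cont J r α _).const_smul
      _).aestronglyMeasurable) le_rfl).trans ?_
    calc ∑ m, eLpNorm (net1_c (y m).2 • fun x : Fin d → ℝ =>
          net1_kap J r α (x - gpt (y m).1)) 1 (TP d) ≤ ∑ _m : Fin M, ENNReal.ofReal B := by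
          apply Finset.sum_le_sum
          intro m _
          rw [eLpNorm_const_smul]
          calc ‖net1_c (y m).2‖ₑ * eLpNorm (fun x : Fin d → ℝ =>
                net1_kap J r α (x - gpt (y m).1)) 1 (TP d) ≤ 1 * ENNReal.ofReal B := by
                apply mul_le_mul' _ (h _)
                rw [← ofReal_norm, ← ENNReal.ofReal_one]
                exact ENNReal.ofReal_le_ofReal (net1_c_norm _)
            _ = _ := one_mul _
      _ = _ := by
        rw [Finset.sum_const, Finset.card_univ, Fintype.card_fin, nsmul_eq_mul]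
  refine (mul_le_mul' le_rfl h2).trans (le_of_eq ?_)
  have hM0 : (0:ℝ) < M := by exact_mod_cast hM
  have h3 : ‖(2 * 3^d / (M:ℂ))‖ₑ = ENNReal.ofReal (2 * 3^d / M) := by
    rw [← ofReal_norm]
    congr 1
    rw [norm_div, norm_mul, norm_pow]
    simp
  rw [h3, ← ENNReal.ofReal_natCast, ← ENNReal.ofReal_mul (by positivity),
    ← ENNReal.ofReal_mul (by positivity)]
  congr 1
  field_simp

theorem net1_biUnion {β : Type} [DecidableEq β] (J : Finset ℕ) (A : ℕ → Finset β) (f : β → ℝ)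
    (hf : ∀ k, 0 ≤ f k) : ∑ k ∈ J.biUnion A, f k ≤ ∑ μ ∈ J, ∑ k ∈ A μ, f k := by
  induction J using Finset.induction_on with
  | empty => simp
  | insert a J ha ih =>
    rw [Finset.biUnion_insert, Finset.sum_insert ha]
    have h1 := Finset.sum_union_inter (s₁ := A a) (s₂ := J.biUnion A) (f := f)
    have h2 : 0 ≤ ∑ k ∈ A a ∩ J.biUnion A, f k := Finset.sum_nonneg fun k _ => hf k
    linarith

theorem net1_chi_sub {d : ℕ} (k : Fin d → ℤ) (x a : Fin d → ℝ) :
    chi k (x - a) = chi k x * chi (-k) a := by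
  unfold chi
  rw [← Complex.exp_add]
  congr 1
  have : (∑ j, (k j : ℝ) * (x - a) j : ℝ) =
      (∑ j, (k j : ℝ) * x j : ℝ) + (∑ j, (((-k) j : ℤ) : ℝ) * a j : ℝ) := by
    rw [← Finset.sum_add_distrib]
    refine Finset.sum_congr rfl fun j _ => ?_
    rw [Pi.sub_apply, Pi.neg_apply]
    push_cast
    ring
  rw [this, Complex.ofReal_add]
  ring

theorem net1_chi_norm {d : ℕ} (k : Fin d → ℤ) (x : Fin d → ℝ) : ‖chi k x‖ = 1 := by
  unfold chi
  rw [mul_comm Complex.I, Complex.norm_exp_ofReal_mul_I]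

/-- the kernel as a trigonometric polynomial -/
theorem net1_kap_eq (h5 : S_VPF) {d : ℕ} (J : Finset ℕ) (r : ℝ) (α : Fin d → ℝ)
    (x a : Fin d → ℝ) : net1_kap J r α (x - a) =
      ∑ k ∈ net1_L d J, ((net1_m J k : ℂ) * Fh r α k * chi (-k) a) * chi k x := by
  unfold net1_kap
  have h := net1_sum h5 J (fun k => Fh r α k * chi k (x - a))
  have e : ∑ μ ∈ J, ∑ s ∈ lev d μ, ∑ k ∈ boxs s, Fh r α k * (blk s k : ℂ) * chi k (x - a) =
      ∑ μ ∈ J, ∑ s ∈ lev d μ, ∑ k ∈ boxs s, Fh r α k * chi k (x - a) * (blk s k : ℂ) := by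
    refine Finset.sum_congr rfl fun μ _ => Finset.sum_congr rfl fun s _ =>
      Finset.sum_congr rfl fun k _ => ?_
    ring
  rw [e, h]
  apply Finset.sum_congr rfl
  intro k _
  rw [net1_chi_sub]
  ring

theorem net1_lop_eq (h5 : S_VPF) {d : ℕ} (J : Finset ℕ) (r : ℝ) (α : Fin d → ℝ)
    (φ : (Fin d → ℝ) → ℂ) (x : Fin d → ℝ) : lop J r α φ x =
      ∑ k ∈ net1_L d J, ((net1_m J k : ℂ) * Fh r α k * fc φ k) * chi k x := by
  unfold lop op
  have h := net1_sum h5 J (fun k => Fh r α k * fc φ k * chi k x)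
  have e : ∑ μ ∈ J, ∑ s ∈ lev d μ, ∑ k ∈ boxs s, Fh r α k * (blk s k : ℂ) * fc φ k * chi k x =
      ∑ μ ∈ J, ∑ s ∈ lev d μ, ∑ k ∈ boxs s, Fh r α k * fc φ k * chi k x * (blk s k : ℂ) := by
    refine Finset.sum_congr rfl fun μ _ => Finset.sum_congr rfl fun s _ =>
      Finset.sum_congr rfl fun k _ => ?_
    ring
  rw [e, h]
  apply Finset.sum_congr rfl
  intro k _
  ring

theorem net1_R (h4 : S_ANN) (h5 : S_VPF) (d : ℕ) (hd : 1 ≤ d) (r : ℝ) (hr : 0 < r)
    (α : Fin d → ℝ) (J : Finset ℕ) :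
    ∑ k ∈ net1_L d J, ‖(net1_m J k : ℂ) * Fh r α k‖ ^ 2 ≤
      (((2:ℝ)^(r * d))^2 * 8^d) * ∑ μ ∈ J, (2:ℝ)^(-(2 * r * μ)) * 2^μ * ((μ:ℝ)+1)^(d-1) := by
  classical
  have h1 : ∑ k ∈ net1_L d J, ‖(net1_m J k : ℂ) * Fh r α k‖ ^ 2 ≤
      ∑ k ∈ net1_L d J, ‖Fh r α k‖ ^ 2 := by
    apply Finset.sum_le_sum
    intro k _
    apply pow_le_pow_left₀ (norm_nonneg _)
    rw [norm_mul, Complex.norm_real, Real.norm_of_nonneg (net1_m_nonneg h5 J k)]
    calc net1_m J k * ‖Fh r α k‖ ≤ 1 * ‖Fh r α k‖ :=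
          mul_le_mul_of_nonneg_right (net1_m_le h5 J k) (norm_nonneg _)
      _ = _ := one_mul _
  refine h1.trans ?_
  unfold net1_L
  refine (net1_biUnion J (annl d) (fun k => ‖Fh r α k‖ ^ 2) fun k => sq_nonneg _).trans ?_
  rw [Finset.mul_sum]
  apply Finset.sum_le_sum
  intro μ _
  calc ∑ k ∈ annl d μ, ‖Fh r α k‖ ^ 2 ≤
      ∑ k ∈ annl d μ, ((2:ℝ)^(r * d) * (2:ℝ)^(-(r * μ)))^2 := by
        apply Finset.sum_le_sum
        intro k hk
        exact pow_le_pow_left₀ (norm_nonneg _) (net1_Fh r hr α μ k hk) 2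
    _ = ((annl d μ).card : ℝ) * ((2:ℝ)^(r * d) * (2:ℝ)^(-(r * μ)))^2 := by
        rw [Finset.sum_const, nsmul_eq_mul]
    _ ≤ (8^d * 2^μ * ((μ:ℝ)+1)^(d-1)) * ((2:ℝ)^(r * d) * (2:ℝ)^(-(r * μ)))^2 :=
        mul_le_mul_of_nonneg_right (h4 d hd μ).2.1 (sq_nonneg _)
    _ = _ := by
        have h6 : ((2:ℝ)^(-(r * μ)))^2 = (2:ℝ)^(-(2 * r * μ)) := by
          rw [← Real.rpow_natCast, ← Real.rpow_mul (by norm_num)]
          congr 1
          push_cast
          ring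
        rw [mul_pow, h6]
        ring

theorem net1_card (d N M : ℕ) (hN : 1 ≤ N) :
    ((((2 ^ (N + 2)) ^ d * 5) ^ M : ℕ) : ℝ) ≤
      Real.exp ((Real.log 5 + 3 * d * Real.log 2) * N * M) := by
  have hN1 : (1:ℝ) ≤ N := by exact_mod_cast hN
  have hX : (0:ℝ) < (2 ^ (N + 2)) ^ d * 5 := by positivity
  have h1 : ((((2 ^ (N + 2)) ^ d * 5) ^ M : ℕ) : ℝ) =
      Real.exp (M * Real.log ((2 ^ (N + 2)) ^ d * 5)) := by
    rw [mul_comm (M:ℝ), Real.exp_mul, Real.exp_log hX, Real.rpow_natCast]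
    push_cast
    rfl
  rw [h1]
  apply Real.exp_le_exp.2
  have h2 : Real.log ((2 ^ (N + 2)) ^ d * 5) = d * ((N + 2) * Real.log 2) + Real.log 5 := by
    rw [Real.log_mul (by positivity) (by norm_num), Real.log_pow, Real.log_pow]
    push_cast
    ring
  rw [h2]
  have hl2 : 0 ≤ Real.log 2 := Real.log_nonneg (by norm_num)
  have hl5 : 0 ≤ Real.log 5 := Real.log_nonneg (by norm_num)
  have h3 : d * ((N + 2) * Real.log 2) + Real.log 5 ≤
      (Real.log 5 + 3 * d * Real.log 2) * N := by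
    have h4 : (N:ℝ) + 2 ≤ 3 * N := by linarith
    have h5 : (d:ℝ) * (((N:ℝ) + 2) * Real.log 2) ≤ d * ((3 * N) * Real.log 2) :=
      mul_le_mul_of_nonneg_left (mul_le_mul_of_nonneg_right h4 hl2) (Nat.cast_nonneg _)
    nlinarith
  calc (M:ℝ) * (d * ((N + 2) * Real.log 2) + Real.log 5) ≤
      M * ((Real.log 5 + 3 * d * Real.log 2) * N) := mul_le_mul_of_nonneg_left h3 (Nat.cast_nonneg _)
    _ = _ := by ring

theorem net1 (h1 : S_DISC) (h2 : S_MAUR) (h3 : S_VP1) (h4 : S_ANN) (h5 : S_VPF) : S_NET1 := by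
  classical
  intro d hd r hr α
  obtain ⟨C', hC', hk⟩ := net1_kap_norm h3 h4 d hd r α
  obtain ⟨A0, hA0⟩ : ∃ A0 : ℝ, A0 = ((2:ℝ)^(r * d))^2 * 8^d := ⟨_, rfl⟩
  have hA0p : 0 < A0 := by rw [hA0]; positivity
  obtain ⟨C1, hC1⟩ : ∃ C1 : ℝ, C1 = Real.log 5 + 3 * d * Real.log 2 := ⟨_, rfl⟩
  have hC1p : 0 < C1 := by
    rw [hC1]
    have := Real.log_pos (show (1:ℝ) < 2 by norm_num)
    have := Real.log_pos (show (1:ℝ) < 5 by norm_num)
    positivity
  obtain ⟨C2, hC2⟩ : ∃ C2 : ℝ, C2 = 2 * 3^d * C' := ⟨_, rfl⟩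
  have hC2p : 0 < C2 := by rw [hC2]; positivity
  obtain ⟨C3, hC3⟩ : ∃ C3 : ℝ, C3 = √(9^d * 4 * A0) := ⟨_, rfl⟩
  have hC3p : 0 < C3 := by rw [hC3]; positivity
  refine ⟨C1 + C2 + C3, by positivity, fun J N M hN hM hJ => ?_⟩
  obtain ⟨Sg, hSg⟩ : ∃ Sg : ℝ, Sg = ∑ μ ∈ J, (2:ℝ)^(-(2 * r * μ)) * 2^μ * ((μ:ℝ)+1)^(d-1) :=
    ⟨_, rfl⟩
  have hSg0 : 0 ≤ Sg := by rw [hSg]; exact Finset.sum_nonneg fun μ _ => by positivity
  have hM0 : (0:ℝ) < M := by exact_mod_cast hM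
  refine ⟨Finset.univ.image (net1_g J r α N M), ?_, ?_, ?_⟩
  · have h6 : (Finset.univ.image (net1_g J r α N M)).card ≤ ((2 ^ (N + 2)) ^ d * 5) ^ M := by
      refine Finset.card_image_le.trans (le_of_eq ?_)
      rw [Finset.card_univ, Fintype.card_fun, Fintype.card_prod, Fintype.card_fun]
      simp only [Fintype.card_fin]
    have h7 : ((Finset.univ.image (net1_g J r α N M)).card : ℝ) ≤
        ((((2 ^ (N + 2)) ^ d * 5) ^ M : ℕ) : ℝ) := by exact_mod_cast h6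
    refine h7.trans ((net1_card d N M hN).trans ?_)
    apply Real.exp_le_exp.2
    rw [← hC1]
    have h8 : 0 ≤ (N:ℝ) * M := by positivity
    nlinarith
  · intro g hg
    obtain ⟨y, _, rfl⟩ := Finset.mem_image.1 hg
    refine ⟨net1_g_cont J r α N M y, ?_⟩
    have hB0 : 0 ≤ ∑ μ ∈ J, ((μ:ℝ)+1)^(d-1) * (2:ℝ)^(-(r * μ)) :=
      Finset.sum_nonneg fun μ _ => by positivity
    refine (net1_g_norm J r α N M hM _ (by positivity) (hk J) y).trans ?_
    apply ENNReal.ofReal_le_ofReal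
    rw [← mul_assoc, ← hC2]
    apply mul_le_mul_of_nonneg_right _ hB0
    linarith
  · intro φ hφ hφ1
    obtain ⟨b, hb1, hb2⟩ := h1 d N hN φ hφ hφ1
    haveI : Nonempty (GG d N) := ⟨fun _ => ⟨0, by positivity⟩⟩
    have hR : ∀ y : GG d N, ∑ k : net1_L d J,
        ‖(net1_m J k.1 : ℂ) * Fh r α k.1 * chi (-k.1) (gpt y)‖ ^ 2 ≤ (√(A0 * Sg)) ^ 2 := by
      intro y
      rw [Real.sq_sqrt (by positivity), hA0, hSg]
      refine le_trans (le_of_eq ?_) (net1_R h4 h5 d hd r hr α J)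
      rw [← Finset.sum_coe_sort (net1_L d J)]
      apply Finset.sum_congr rfl
      intro k _
      rw [norm_mul _ (chi (-k.1) (gpt y)), net1_chi_norm, mul_one]
    have hb' : ∑ y, ‖b y / 3^d‖ ≤ 1 := by
      have h6 : ∀ y, ‖b y / 3^d‖ = ‖b y‖ / 3^d := by
        intro y
        rw [norm_div, norm_pow]
        simp
      rw [Finset.sum_congr rfl fun y _ => h6 y, ← Finset.sum_div, div_le_one (by positivity)]
      exact hb1
    obtain ⟨y, c, hc, hyc⟩ := h2 (GG d N) (net1_L d J)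
      (fun y k => (net1_m J k.1 : ℂ) * Fh r α k.1 * chi (-k.1) (gpt y)) (√(A0 * Sg))
      (fun y => b y / 3^d) M hM hR hb'
    choose i hi using fun m => net1_c_surj (c m) (hc m)
    refine ⟨net1_g J r α N M (fun m => (y m, i m)), Finset.mem_image_of_mem _ (Finset.mem_univ _), ?_⟩
    obtain ⟨w, hw⟩ : ∃ w : (Fin d → ℤ) → ℂ, w = fun k => (net1_m J k : ℂ) * Fh r α k * fc φ k -
        (2 * 3^d / (M:ℂ)) * ∑ m, c m * ((net1_m J k : ℂ) * Fh r α k * chi (-k) (gpt (y m))) :=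
      ⟨_, rfl⟩
    have hfun : (fun x => lop J r α φ x - net1_g J r α N M (fun m => (y m, i m)) x) =
        fun x => ∑ k ∈ net1_L d J, w k * chi k x := by
      funext x
      unfold net1_g
      rw [net1_lop_eq h5]
      have h6 : ∑ m, net1_c (i m) * net1_kap J r α (x - gpt (y m)) =
          ∑ k ∈ net1_L d J, (∑ m, c m * ((net1_m J k : ℂ) * Fh r α k * chi (-k) (gpt (y m)))) *
            chi k x := by
        simp_rw [net1_kap_eq h5, hi, Finset.mul_sum, Finset.sum_mul]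
        rw [Finset.sum_comm]
        refine Finset.sum_congr rfl fun k _ => Finset.sum_congr rfl fun m _ => ?_
        ring
      rw [h6, Finset.mul_sum, ← Finset.sum_sub_distrib]
      apply Finset.sum_congr rfl
      intro k _
      rw [hw]
      ring
    rw [hfun, net1_parseval]
    apply ENNReal.ofReal_le_ofReal
    have hwk : ∀ k : net1_L d J, w k.1 = 3^d * ((∑ z, b z / 3^d *
        ((net1_m J k.1 : ℂ) * Fh r α k.1 * chi (-k.1) (gpt z))) - (2 / (M:ℂ)) * ∑ m, c m *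
          ((net1_m J k.1 : ℂ) * Fh r α k.1 * chi (-k.1) (gpt (y m)))) := by
      intro k
      have hkb : ∀ j, |k.1 j| < (2:ℤ)^N := by
        intro j
        have h6 := k.2
        unfold net1_L at h6
        obtain ⟨μ, hμ, hkμ⟩ := Finset.mem_biUnion.1 h6
        have h7 := (h4 d hd μ).2.2.2 k.1 hkμ j
        exact lt_of_lt_of_le h7 (pow_le_pow_right₀ (by norm_num) (hJ μ hμ))
      have h30 : (3:ℂ)^d ≠ 0 := pow_ne_zero _ (by norm_num)
      have h8 : ∑ z, b z / 3^d * ((net1_m J k.1 : ℂ) * Fh r α k.1 * chi (-k.1) (gpt z)) =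
          ((net1_m J k.1 : ℂ) * Fh r α k.1 * fc φ k.1) / 3^d := by
        rw [hb2 k.1 hkb, Finset.mul_sum, Finset.sum_div]
        apply Finset.sum_congr rfl
        intro z _
        ring
      rw [h8, hw]
      field_simp
    have hsum : ∑ k ∈ net1_L d J, ‖w k‖ ^ 2 ≤ 9^d * (4 * (A0 * Sg) / M) := by
      rw [← Finset.sum_coe_sort (net1_L d J)]
      have h6 : ∀ k : net1_L d J, ‖w k.1‖ ^ 2 = 9^d * ‖(∑ z, b z / 3^d *
          ((net1_m J k.1 : ℂ) * Fh r α k.1 * chi (-k.1) (gpt z))) - (2 / (M:ℂ)) * ∑ m, c m *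
            ((net1_m J k.1 : ℂ) * Fh r α k.1 * chi (-k.1) (gpt (y m)))‖ ^ 2 := by
        intro k
        rw [hwk k, norm_mul, mul_pow]
        congr 1
        rw [norm_pow, Complex.norm_ofNat, ← pow_mul, mul_comm d 2, pow_mul]
        norm_num
      rw [Finset.sum_congr rfl fun k _ => h6 k, ← Finset.mul_sum]
      apply mul_le_mul_of_nonneg_left _ (by positivity)
      rw [Real.sq_sqrt (by positivity)] at hyc
      exact hyc
    calc √(∑ k ∈ net1_L d J, ‖w k‖ ^ 2) ≤ √(9^d * (4 * (A0 * Sg) / M)) := Real.sqrt_le_sqrt hsum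
      _ = C3 * √(Sg / M) := by
        rw [hC3, ← Real.sqrt_mul (by positivity)]
        congr 1
        ring
      _ ≤ (C1 + C2 + C3) * √(Sg / M) := by
        apply mul_le_mul_of_nonneg_right _ (Real.sqrt_nonneg _)
        linarith
      _ = _ := by rw [hSg]

end SmSm
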