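import Pool.Agent.H636R2.SM.SpecQ
import Pool.Agent.H636R2.SM.NUMP
open MeasureTheory Real ProbabilityTheory
open scoped ENNReal BigOperators

set_option autoImplicit false

/-! Task NQA: numerics of the scheme, `r < 1/2` (helper101) -/

namespace SmSm
open HypVol MWidth

/-- choice of the middle level -/
theorem nqa_choice (D k : ℕ) (hk : 1 ≤ k) : ∃ μ : ℕ,
    (k:ℝ) * ((μ:ℝ)+1)^D ≤ 2^μ ∧ (2:ℝ)^μ ≤ 2 * k * ((μ:ℝ)+1)^D := by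
  have hex : ∃ μ : ℕ, (k:ℝ) * ((μ:ℝ)+1)^D ≤ 2^μ := by
    have h1 : Filter.Tendsto (fun n : ℕ => ((n:ℝ)+1)^D / (2:ℝ)^n) Filter.atTop (nhds 0) := by
      have h2 := tendsto_pow_const_div_const_pow_of_one_lt D (show (1:ℝ) < 2 by norm_num)
      have h3 := (h2.comp (Filter.tendsto_add_atTop_nat 1)).const_mul 2
      rw [mul_zero] at h3
      refine h3.congr fun n => ?_
      simp only [Function.comp]
      push_cast
      rw [pow_succ (2:ℝ) n]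
      field_simp
    have h2 : ∀ᶠ n : ℕ in Filter.atTop, ((n:ℝ)+1)^D / (2:ℝ)^n < 1 / k :=
      h1.eventually (gt_mem_nhds (by positivity))
    obtain ⟨μ, hμ⟩ := h2.exists
    refine ⟨μ, ?_⟩
    have hk0 : (0:ℝ) < k := by exact_mod_cast hk
    rw [div_lt_div_iff₀ (by positivity) hk0] at hμ
    linarith
  classical
  refine ⟨Nat.find hex, Nat.find_spec hex, ?_⟩
  have hk1 : (1:ℝ) ≤ k := by exact_mod_cast hk
  rcases Nat.eq_zero_or_pos (Nat.find hex) with h0 | h0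
  · rw [h0]
    simp only [pow_zero, Nat.cast_zero, zero_add, one_pow, mul_one]
    linarith
  · have := Nat.find_min hex (show Nat.find hex - 1 < Nat.find hex by omega)
    push Not at this
    obtain ⟨ν, hν⟩ : ∃ ν, Nat.find hex = ν + 1 := ⟨Nat.find hex - 1, by omega⟩
    rw [hν, Nat.add_sub_cancel] at this
    rw [hν, pow_succ]
    push_cast
    have h3 : ((ν:ℝ)+1)^D ≤ ((ν:ℝ)+1+1)^D := by gcongr; linarith
    have h4 : (k:ℝ) * ((ν:ℝ)+1)^D ≤ k * ((ν:ℝ)+1+1)^D := by gcongr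
    linarith

/-- the middle level is logarithmic -/
theorem nqa_L (D : ℕ) : ∃ C' : ℝ, 0 < C' ∧ ∀ k μ : ℕ, 2 ≤ k → (2:ℝ)^μ ≤ 2 * k * ((μ:ℝ)+1)^D →
    (μ:ℝ) + 1 ≤ C' * Real.log k := by
  obtain ⟨l2, hl2⟩ : ∃ l2 : ℝ, l2 = Real.log 2 := ⟨_, rfl⟩
  have hl20 : 0 < l2 := by rw [hl2]; exact Real.log_pos (by norm_num)
  obtain ⟨a, ha⟩ : ∃ a : ℝ, a = l2 / (2 * ((D:ℝ) + 1)) := ⟨_, rfl⟩
  have ha0 : 0 < a := by rw [ha]; positivity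
  have hDa : (D:ℝ) * a ≤ l2 / 2 := by
    rw [ha]
    have : (D:ℝ) * (l2 / (2 * ((D:ℝ) + 1))) = l2 / 2 * ((D:ℝ) / ((D:ℝ)+1)) := by field_simp
    rw [this]
    refine mul_le_of_le_one_right (by positivity) ?_
    rw [div_le_one (by positivity)]
    linarith
  obtain ⟨B, hB⟩ : ∃ B : ℝ, B = l2 + (D:ℝ) * |Real.log a| + l2 := ⟨_, rfl⟩
  have hB0 : 0 < B := by rw [hB]; positivity
  refine ⟨(2 / l2) * (B / l2 + 1), by positivity, fun k μ hk h => ?_⟩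
  have hk2 : (2:ℝ) ≤ k := by exact_mod_cast hk
  have hlk : l2 ≤ Real.log k := by rw [hl2]; exact Real.log_le_log (by norm_num) hk2
  have hμ0 : (0:ℝ) < (μ:ℝ) + 1 := by positivity
  have h1 := Real.log_le_log (by positivity) h
  rw [Real.log_pow, Real.log_mul (by positivity) (by positivity),
    Real.log_mul (by norm_num) (by positivity), Real.log_pow, ← hl2] at h1
  have h2 : Real.log ((μ:ℝ) + 1) ≤ a * ((μ:ℝ)+1) - 1 - Real.log a := by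
    have h3 := Real.log_le_sub_one_of_pos (show 0 < a * ((μ:ℝ)+1) by positivity)
    rw [Real.log_mul ha0.ne' hμ0.ne'] at h3
    linarith
  have h3 : (D:ℝ) * Real.log ((μ:ℝ) + 1) ≤ l2 / 2 * ((μ:ℝ)+1) + (D:ℝ) * |Real.log a| := by
    have h4 : (D:ℝ) * Real.log ((μ:ℝ) + 1) ≤ (D:ℝ) * (a * ((μ:ℝ)+1) + |Real.log a|) := by
      refine mul_le_mul_of_nonneg_left ?_ (Nat.cast_nonneg D)
      have := neg_abs_le (Real.log a)
      linarith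
    have h5 : (D:ℝ) * a * ((μ:ℝ)+1) ≤ l2 / 2 * ((μ:ℝ)+1) :=
      mul_le_mul_of_nonneg_right hDa hμ0.le
    linarith
  have h4 : l2 / 2 * ((μ:ℝ)+1) ≤ B + Real.log k := by
    rw [hB]
    linarith
  have h5 : B ≤ B / l2 * Real.log k := by
    rw [div_mul_eq_mul_div, le_div_iff₀ hl20]
    exact mul_le_mul_of_nonneg_left hlk hB0.le
  have h6 : l2 / 2 * ((μ:ℝ)+1) ≤ (B / l2 + 1) * Real.log k := by
    rw [add_mul, one_mul]
    linarith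
  calc (μ:ℝ) + 1 = (2 / l2) * (l2 / 2 * ((μ:ℝ)+1)) := by field_simp
    _ ≤ (2 / l2) * ((B / l2 + 1) * Real.log k) := by gcongr
    _ = _ := by ring

theorem nqa_large (C' η : ℝ) (hη : 0 < η) (N : ℕ) : ∃ k0 : ℕ, ∀ k : ℕ, k0 ≤ k →
    (C' * Real.log k)^N ≤ η * k := by
  have h1 := (Real.isLittleO_pow_log_id_atTop (n := N)).comp_tendsto
    (tendsto_natCast_atTop_atTop (R := ℝ))
  have h2 := h1.const_mul_left (C'^N)
  have h3 := h2.def hη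
  obtain ⟨k0, hk0⟩ := Filter.eventually_atTop.mp h3
  refine ⟨k0, fun k hk => ?_⟩
  have h4 := hk0 k hk
  simp only [Function.comp, id] at h4
  rw [Real.norm_of_nonneg (Nat.cast_nonneg k)] at h4
  rw [mul_pow]
  exact (le_abs_self _).trans h4

/-- `2^(x)` notation -/
theorem nqa_geom (b : ℝ) (hb : 0 < b) (μ n0 : ℕ) : ∑ n ∈ Finset.Ico n0 μ, (2:ℝ)^(b * (n:ℝ)) ≤
    (2:ℝ)^(b * (μ:ℝ)) / ((2:ℝ)^b - 1) := by
  have h1 : (1:ℝ) < (2:ℝ)^b := Real.one_lt_rpow (by norm_num) hb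
  have h2 : ∀ n : ℕ, (2:ℝ)^(b * (n:ℝ)) = ((2:ℝ)^b)^n := fun n => by
    rw [← Real.rpow_natCast, ← Real.rpow_mul (by norm_num)]
  simp only [h2]
  calc ∑ n ∈ Finset.Ico n0 μ, ((2:ℝ)^b)^n ≤ ∑ n ∈ Finset.range μ, ((2:ℝ)^b)^n := by
        refine Finset.sum_le_sum_of_subset_of_nonneg ?_ fun n _ _ => by positivity
        intro n hn
        rw [Finset.mem_Ico] at hn
        exact Finset.mem_range.mpr hn.2
    _ = (((2:ℝ)^b)^μ - 1) / ((2:ℝ)^b - 1) := geom_sum_eq h1.ne' μ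
    _ ≤ _ := by
        apply div_le_div_of_nonneg_right _ (by linarith)
        linarith

theorem nqa_E2 (d : ℕ) (hd : 2 ≤ d) (r c : ℝ) (hr : r < 1/2) (hc : 0 < c) : ∃ G : ℝ, 0 < G ∧
    ∀ (μ n0 Ms : ℕ) (k : ℝ), 0 < k → (2:ℝ)^μ ≤ 2 * k * ((μ:ℝ)+1)^(d-2) → 1 ≤ Ms →
      c * k / ((μ:ℝ)+1) ≤ Ms →
      Real.sqrt ((∑ n ∈ Finset.Ico n0 μ, (2:ℝ)^(-(2 * r * n)) * 2^n * ((n:ℝ)+1)^(d-1)) / Ms) ≤
        G * (((μ:ℝ)+1)^(d-1) * (2:ℝ)^(-(r * μ))) := by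
  obtain ⟨b, hb⟩ : ∃ b : ℝ, b = 1 - 2 * r := ⟨_, rfl⟩
  have hb0 : 0 < b := by rw [hb]; linarith
  have h1 : 0 < (2:ℝ)^b - 1 := by
    have := Real.one_lt_rpow (show (1:ℝ) < 2 by norm_num) hb0
    linarith
  refine ⟨Real.sqrt (2 / (c * ((2:ℝ)^b - 1))), by positivity, ?_⟩
  intro μ n0 Ms k hk hμ hMs1 hMs
  have hMs0 : (0:ℝ) < Ms := by exact_mod_cast hMs1
  have hL0 : (0:ℝ) < (μ:ℝ) + 1 := by positivity
  have hZ0 : 0 ≤ ((μ:ℝ)+1)^(d-1) * (2:ℝ)^(-(r * μ)) := by positivity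
  rw [← Real.sqrt_sq hZ0, ← Real.sqrt_mul (by positivity)]
  apply Real.sqrt_le_sqrt
  have h2 : ∑ n ∈ Finset.Ico n0 μ, (2:ℝ)^(-(2 * r * n)) * 2^n * ((n:ℝ)+1)^(d-1) ≤
      (2:ℝ)^(b * (μ:ℝ)) / ((2:ℝ)^b - 1) * ((μ:ℝ)+1)^(d-1) := by
    refine le_trans ?_ (mul_le_mul_of_nonneg_right (nqa_geom b hb0 μ n0) (by positivity))
    rw [Finset.sum_mul]
    refine Finset.sum_le_sum fun n hn => ?_
    rw [Finset.mem_Ico] at hn
    have e1 : (2:ℝ)^(-(2 * r * n)) * 2^n = (2:ℝ)^(b * (n:ℝ)) := by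
      rw [← Real.rpow_natCast 2 n, ← Real.rpow_add (by norm_num), hb]
      congr 1; ring
    rw [e1]
    have : (n:ℝ) ≤ μ := by exact_mod_cast hn.2.le
    gcongr
  have h3 : (2:ℝ)^(b * (μ:ℝ)) ≤ 2 * k * ((μ:ℝ)+1)^(d-2) * ((2:ℝ)^(-(r * μ)))^2 := by
    have e1 : (2:ℝ)^(b * (μ:ℝ)) = 2^μ * ((2:ℝ)^(-(r * μ)))^2 := by
      rw [← Real.rpow_natCast 2 μ, ← Real.rpow_natCast _ 2, ← Real.rpow_mul (by norm_num),
        ← Real.rpow_add (by norm_num), hb]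
      congr 1; push_cast; ring
    rw [e1]
    gcongr
  rw [div_le_iff₀ hMs0]
  have e3 : ((μ:ℝ)+1)^(d-1) = ((μ:ℝ)+1)^(d-2) * ((μ:ℝ)+1) := by
    rw [← pow_succ]; congr 1; omega
  calc _ ≤ (2:ℝ)^(b * (μ:ℝ)) / ((2:ℝ)^b - 1) * ((μ:ℝ)+1)^(d-1) := h2
    _ ≤ (2 * k * ((μ:ℝ)+1)^(d-2) * ((2:ℝ)^(-(r * μ)))^2) / ((2:ℝ)^b - 1) * ((μ:ℝ)+1)^(d-1) := by
        gcongr
    _ = 2 / (c * ((2:ℝ)^b - 1)) * (((μ:ℝ)+1)^(d-1) * (2:ℝ)^(-(r * μ)))^2 * (c * k / ((μ:ℝ)+1)) := by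
        rw [e3]
        field_simp
    _ ≤ _ := by gcongr

theorem nqa_E3 (d : ℕ) (hd : 2 ≤ d) (q r c : ℝ) (hq : 1 ≤ q) (hq2 : q < 2) (hqr : 1 - 1/q < r)
    (hc : 0 < c) : ∃ G : ℝ, 0 ≤ G ∧
    ∀ (μ n1 : ℕ) (M : ℕ → ℕ) (k : ℝ), 0 < k → (2:ℝ)^μ ≤ 2 * k * ((μ:ℝ)+1)^(d-2) → (∀ n, 1 ≤ M n) →
      (∀ t : ℕ, c * k * (2:ℝ)^(-((r - 1 + 1/q) * (t:ℝ))) ≤ (((μ + t : ℕ) : ℝ) + 1) * M (μ + t)) →
      (∑ n ∈ Finset.Ico μ n1, (((n:ℝ)+1)^(d-1) * (2:ℝ)^(-(r * n)))^(2/q - 1) *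
        (Real.sqrt ((2:ℝ)^(-(2 * r * n)) * 2^n * ((n:ℝ)+1)^(d-1) / M n))^(2 - 2/q)) ≤
        G * (((μ:ℝ)+1)^(d-1) * (2:ℝ)^(-(r * μ))) := by
  obtain ⟨s, hs⟩ : ∃ s : ℝ, s = r - 1 + 1/q := ⟨_, rfl⟩
  have hs0 : 0 < s := by rw [hs]; linarith
  have hq0 : 0 < q := by linarith
  have hqi : 1/q ≤ 1 := by rw [div_le_one hq0]; exact hq
  have hqi2 : 1/2 < 1/q := one_div_lt_one_div_of_lt hq0 hq2
  have h2q : 2/q = 2 * (1/q) := by ring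
  obtain ⟨S, hS0, hSs, -⟩ := nump_tail (d - 1) (s / q) (by positivity)
  obtain ⟨G0, hG0⟩ : ∃ G0 : ℝ, G0 = ∑' n : ℕ, ((n:ℝ)+1)^(d-1) * (2:ℝ)^(-(s / q * n)) := ⟨_, rfl⟩
  have hG00 : 0 ≤ G0 := by rw [hG0]; exact tsum_nonneg fun n => by positivity
  refine ⟨(2/c)^(1 - 1/q) * G0, by positivity, ?_⟩
  intro μ n1 M k hk hμ hM1 hM
  rw [← hs] at hM
  obtain ⟨Z, hZ⟩ : ∃ Z : ℝ, Z = ((μ:ℝ)+1)^(d-1) * (2:ℝ)^(-(r * μ)) := ⟨_, rfl⟩
  have hZ0 : 0 ≤ Z := by rw [hZ]; positivity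
  rw [← hZ, Finset.sum_Ico_eq_sum_range]
  have hterm : ∀ t : ℕ, ((((μ + t : ℕ) : ℝ)+1)^(d-1) * (2:ℝ)^(-(r * ((μ + t : ℕ) : ℝ))))^(2/q - 1) *
        (Real.sqrt ((2:ℝ)^(-(2 * r * ((μ + t : ℕ) : ℝ))) * 2^(μ + t) *
          (((μ + t : ℕ) : ℝ)+1)^(d-1) / M (μ + t)))^(2 - 2/q) ≤
        (2/c)^(1 - 1/q) * Z * (((t:ℝ)+1)^(d-1) * (2:ℝ)^(-(s / q * t))) := by
    intro t
    obtain ⟨n, hn⟩ : ∃ n : ℕ, n = μ + t := ⟨_, rfl⟩
    have hMn := hM t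
    rw [← hn] at hMn ⊢
    have hnr : (n:ℝ) = μ + t := by rw [hn]; push_cast; ring
    have hMn0 : (0:ℝ) < M n := by exact_mod_cast hM1 n
    have hn0 : (0:ℝ) < (n:ℝ) + 1 := by positivity
    obtain ⟨X, hX⟩ : ∃ X : ℝ, X = ((n:ℝ)+1)^(d-1) * (2:ℝ)^(-(r * n)) := ⟨_, rfl⟩
    have hX0 : 0 < X := by rw [hX]; positivity
    obtain ⟨b, hb⟩ : ∃ b : ℝ, b = (2/c) * (2:ℝ)^((1 + s) * (t:ℝ)) := ⟨_, rfl⟩
    have hb0 : 0 < b := by rw [hb]; positivity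
    have h2n : (2:ℝ)^n ≤ b * (((n:ℝ)+1)^(d-1) * M n) := by
      have e1 : (2:ℝ)^n = 2^μ * 2^t := by rw [hn, pow_add]
      have e2 : ((n:ℝ)+1)^(d-1) = ((n:ℝ)+1)^(d-2) * ((n:ℝ)+1) := by
        rw [← pow_succ]; congr 1; omega
      have e3 : ((μ:ℝ)+1)^(d-2) ≤ ((n:ℝ)+1)^(d-2) := by
        have : (μ:ℝ) ≤ n := by rw [hnr]; linarith [Nat.cast_nonneg (α := ℝ) t]
        gcongr
      have e4 : (2:ℝ)^((1 + s) * (t:ℝ)) * (2:ℝ)^(-(s * (t:ℝ))) = 2^t := by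
        rw [← Real.rpow_add (by norm_num), ← Real.rpow_natCast 2 t]
        congr 1; ring
      calc (2:ℝ)^n = 2^μ * 2^t := e1
        _ ≤ (2 * k * ((μ:ℝ)+1)^(d-2)) * 2^t := by gcongr
        _ ≤ (2 * k * ((n:ℝ)+1)^(d-2)) * 2^t := by gcongr
        _ = b * (((n:ℝ)+1)^(d-2) * (c * k * (2:ℝ)^(-(s * (t:ℝ))))) := by
            rw [hb, ← e4]; field_simp
        _ ≤ b * (((n:ℝ)+1)^(d-2) * (((n:ℝ)+1) * M n)) := by gcongr
        _ = _ := by rw [e2]; ring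
    have hY : Real.sqrt ((2:ℝ)^(-(2 * r * n)) * 2^n * ((n:ℝ)+1)^(d-1) / M n) ≤ Real.sqrt b * X := by
      rw [← Real.sqrt_sq hX0.le, ← Real.sqrt_mul hb0.le]
      apply Real.sqrt_le_sqrt
      rw [div_le_iff₀ hMn0]
      have e5 : (2:ℝ)^(-(2 * r * n)) = ((2:ℝ)^(-(r * n)))^2 := by
        rw [← Real.rpow_natCast _ 2, ← Real.rpow_mul (by norm_num)]
        congr 1; push_cast; ring
      rw [e5, hX]
      calc ((2:ℝ)^(-(r * n)))^2 * 2^n * ((n:ℝ)+1)^(d-1) ≤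
            ((2:ℝ)^(-(r * n)))^2 * (b * (((n:ℝ)+1)^(d-1) * M n)) * ((n:ℝ)+1)^(d-1) := by gcongr
        _ = _ := by ring
    have hXZ : X ≤ Z * (((t:ℝ)+1)^(d-1) * (2:ℝ)^(-(r * t))) := by
      have e1 : (2:ℝ)^(-(r * (n:ℝ))) = (2:ℝ)^(-(r * (μ:ℝ))) * (2:ℝ)^(-(r * (t:ℝ))) := by
        rw [← Real.rpow_add (by norm_num), hnr]
        congr 1; ring
      have e2 : ((n:ℝ)+1)^(d-1) ≤ ((μ:ℝ)+1)^(d-1) * ((t:ℝ)+1)^(d-1) := by
        rw [← mul_pow]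
        have h1 : (0:ℝ) ≤ (μ:ℝ) * t := by positivity
        have h2 : (n:ℝ) + 1 ≤ ((μ:ℝ)+1) * ((t:ℝ)+1) := by rw [hnr]; nlinarith
        gcongr
      rw [hX, hZ, e1]
      calc _ ≤ (((μ:ℝ)+1)^(d-1) * ((t:ℝ)+1)^(d-1)) *
            ((2:ℝ)^(-(r * (μ:ℝ))) * (2:ℝ)^(-(r * (t:ℝ)))) := by gcongr
        _ = _ := by ring
    have hexp : 0 ≤ 2 - 2/q := by rw [h2q]; linarith
    have hB : (Real.sqrt b)^(2 - 2/q) = (2/c)^(1 - 1/q) * (2:ℝ)^((1 + s) * (1 - 1/q) * (t:ℝ)) := by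
      rw [Real.sqrt_eq_rpow, ← Real.rpow_mul hb0.le, hb]
      have e1 : 1/2 * (2 - 2/q) = 1 - 1/q := by rw [h2q]; ring
      rw [e1, Real.mul_rpow (by positivity) (by positivity), ← Real.rpow_mul (by norm_num)]
      congr 2; ring
    rw [← hX]
    calc X^(2/q - 1) * (Real.sqrt ((2:ℝ)^(-(2 * r * n)) * 2^n * ((n:ℝ)+1)^(d-1) / M n))^(2 - 2/q)
        ≤ X^(2/q - 1) * (Real.sqrt b * X)^(2 - 2/q) := by
          refine mul_le_mul_of_nonneg_left ?_ (by positivity)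
          exact Real.rpow_le_rpow (Real.sqrt_nonneg _) hY hexp
      _ = (Real.sqrt b)^(2 - 2/q) * X := by
          rw [Real.mul_rpow (Real.sqrt_nonneg _) hX0.le]
          have e1 : X^(2/q - 1) * X^(2 - 2/q) = X := by
            rw [← Real.rpow_add hX0]
            have : 2/q - 1 + (2 - 2/q) = 1 := by ring
            rw [this, Real.rpow_one]
          calc _ = (Real.sqrt b)^(2 - 2/q) * (X^(2/q - 1) * X^(2 - 2/q)) := by ring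
            _ = _ := by rw [e1]
      _ ≤ (Real.sqrt b)^(2 - 2/q) * (Z * (((t:ℝ)+1)^(d-1) * (2:ℝ)^(-(r * t)))) := by gcongr
      _ = (2/c)^(1 - 1/q) * Z * (((t:ℝ)+1)^(d-1) *
            ((2:ℝ)^((1 + s) * (1 - 1/q) * (t:ℝ)) * (2:ℝ)^(-(r * t)))) := by rw [hB]; ring
      _ = _ := by
          rw [← Real.rpow_add (by norm_num)]
          congr 3
          rw [hs]
          field_simp
          ring
  calc _ ≤ ∑ t ∈ Finset.range (n1 - μ),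
        (2/c)^(1 - 1/q) * Z * (((t:ℝ)+1)^(d-1) * (2:ℝ)^(-(s / q * t))) :=
        Finset.sum_le_sum fun t _ => hterm t
    _ = (2/c)^(1 - 1/q) * Z * ∑ t ∈ Finset.range (n1 - μ),
        (((t:ℝ)+1)^(d-1) * (2:ℝ)^(-(s / q * t))) := by rw [Finset.mul_sum]
    _ ≤ (2/c)^(1 - 1/q) * Z * G0 := by
        refine mul_le_mul_of_nonneg_left ?_ (by positivity)
        rw [hG0]
        exact hSs.sum_le_tsum _ fun n _ => by positivity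
    _ = _ := by ring

theorem nqa_Z (d : ℕ) (hd : 2 ≤ d) (r C' : ℝ) (hr0 : 0 < r) (hr : r < 1/2) (hC' : 0 < C') :
    ∀ k μ : ℕ, 2 ≤ k → (k:ℝ) * ((μ:ℝ)+1)^(d-2) ≤ 2^μ → (μ:ℝ) + 1 ≤ C' * Real.log k →
      ((μ:ℝ)+1)^(d-1) * (2:ℝ)^(-(r * μ)) ≤ C'^(((d:ℝ)-1) * (1 - r) + r) * psiA d r k := by
  intro k μ hk h1 h2
  have hk0 : (0:ℝ) < k := by exact_mod_cast (by omega : 0 < k)
  have hL0 : (0:ℝ) < (μ:ℝ) + 1 := by positivity
  have hd2 : (2:ℝ) ≤ d := by exact_mod_cast hd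
  obtain ⟨e, he⟩ : ∃ e : ℝ, e = ((d:ℝ)-1) * (1 - r) + r := ⟨_, rfl⟩
  have he0 : 0 ≤ e := by
    rw [he]
    have : 0 ≤ ((d:ℝ) - 1) * (1 - r) := mul_nonneg (by linarith) (by linarith)
    linarith
  have hlk : 0 < Real.log k := Real.log_pos (by exact_mod_cast (by omega : 1 < k))
  have e1 : (2:ℝ)^(-(r * (μ:ℝ))) = ((2:ℝ)^μ)^(-r) := by
    rw [← Real.rpow_natCast 2 μ, ← Real.rpow_mul (by norm_num)]
    congr 1; ring
  have e2 : ((2:ℝ)^μ)^(-r) ≤ ((k:ℝ) * ((μ:ℝ)+1)^(d-2))^(-r) :=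
    Real.rpow_le_rpow_of_nonpos (by positivity) h1 (by linarith)
  have e3 : ((k:ℝ) * ((μ:ℝ)+1)^(d-2))^(-r) = (k:ℝ)^(-r) * ((μ:ℝ)+1)^(-(r * ((d:ℝ) - 2))) := by
    rw [Real.mul_rpow hk0.le (by positivity), ← Real.rpow_natCast _ (d-2), ← Real.rpow_mul hL0.le]
    congr 2
    rw [Nat.cast_sub hd]
    push_cast
    ring
  have e4 : ((μ:ℝ)+1)^(d-1) = ((μ:ℝ)+1)^((d:ℝ) - 1) := by
    rw [← Real.rpow_natCast]
    congr 1
    rw [Nat.cast_sub (by omega)]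
    norm_num
  rw [← he, psiA, ← he, e1]
  calc ((μ:ℝ)+1)^(d-1) * ((2:ℝ)^μ)^(-r) ≤
        ((μ:ℝ)+1)^(d-1) * ((k:ℝ)^(-r) * ((μ:ℝ)+1)^(-(r * ((d:ℝ) - 2)))) := by
        rw [← e3]; gcongr
    _ = (k:ℝ)^(-r) * (((μ:ℝ)+1)^((d:ℝ) - 1) * ((μ:ℝ)+1)^(-(r * ((d:ℝ) - 2)))) := by rw [e4]; ring
    _ = (k:ℝ)^(-r) * ((μ:ℝ)+1)^e := by
        rw [← Real.rpow_add hL0]
        congr 2
        rw [he]; ring
    _ ≤ (k:ℝ)^(-r) * (C' * Real.log k)^e := by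
        gcongr
    _ = _ := by
        rw [Real.mul_rpow hC'.le hlk.le]
        ring

set_option maxHeartbeats 1000000 in
theorem nqa : S_NQA := by
  intro d hd q r C0 hq1 hq2 hqr hr0 hr hC0
  obtain ⟨s, hs⟩ : ∃ s : ℝ, s = r - 1 + 1/q := ⟨_, rfl⟩
  have hs0 : 0 < s := by rw [hs]; linarith
  have hl2 : 0 < Real.log 2 := Real.log_pos (by norm_num)
  obtain ⟨ρ, hρ⟩ : ∃ ρ : ℝ, ρ = (2:ℝ)^(-s) := ⟨_, rfl⟩
  have hρ0 : 0 < ρ := by rw [hρ]; positivity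
  have hρ1 : ρ < 1 := by
    rw [hρ]; exact Real.rpow_lt_one_of_one_lt_of_neg (by norm_num) (by linarith)
  have hρt : ∀ t : ℕ, (2:ℝ)^(-(s * (t:ℝ))) = ρ^t := fun t => by
    rw [hρ, ← Real.rpow_natCast, ← Real.rpow_mul (by norm_num)]
    congr 1; ring
  obtain ⟨B, hB⟩ : ∃ B : ℝ, B = 1 + 1/(1 - ρ) := ⟨_, rfl⟩
  have hB0 : 0 < B := by
    have : 0 < 1/(1 - ρ) := div_pos one_pos (by linarith)
    rw [hB]; linarith
  obtain ⟨c, hc⟩ : ∃ c : ℝ, c = Real.log 2 / (4 * C0 * B) := ⟨_, rfl⟩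
  have hc0 : 0 < c := by rw [hc]; positivity
  obtain ⟨A', hA'⟩ := exists_nat_ge (2 * r / s)
  obtain ⟨A, hA⟩ : ∃ A : ℕ, A = A' + 1 := ⟨_, rfl⟩
  have hA1 : (1:ℝ) ≤ A := by rw [hA]; push_cast; linarith [Nat.cast_nonneg (α := ℝ) A']
  have hAr : r ≤ s / 2 * A := by
    have h1 : 2 * r / s ≤ A := by rw [hA]; push_cast; linarith
    rw [div_le_iff₀ hs0] at h1
    linarith
  obtain ⟨C', hC', hL⟩ := nqa_L (d - 2)
  obtain ⟨G2, hG2, hE2⟩ := nqa_E2 d hd r c hr hc0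
  obtain ⟨G3, hG3, hE3⟩ := nqa_E3 d hd q r c hq1 hq2 hqr hc0
  obtain ⟨S, hS0, -, hSt⟩ := nump_tail (d - 1) s hs0
  obtain ⟨η, hη0, hη1, hη2⟩ : ∃ η : ℝ, 0 < η ∧ η ≤ (Real.log 2 / (8 * C0))^2 ∧
      η ≤ Real.log 2 / (8 * C0 * A^2) :=
    ⟨min ((Real.log 2 / (8 * C0))^2) (Real.log 2 / (8 * C0 * A^2)),
      lt_min (by positivity) (by positivity), min_le_left _ _, min_le_right _ _⟩
  obtain ⟨k0, hk0⟩ := nqa_large C' η hη0 (4 * d)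
  refine ⟨max k0 2, (1 + G2 + G3 + S) * C'^(((d:ℝ)-1) * (1 - r) + r), le_max_right _ _,
    by positivity, ?_⟩
  intro k hk
  have hk2 : 2 ≤ k := (le_max_right _ _).trans hk
  have hkR : (0:ℝ) < k := by exact_mod_cast (by omega : 0 < k)
  obtain ⟨μ, hμ1, hμ2⟩ := nqa_choice (d - 2) k (by omega)
  have hLk := hL k μ hk2 hμ2
  obtain ⟨L, hLd⟩ : ∃ L : ℝ, L = (μ:ℝ) + 1 := ⟨_, rfl⟩
  have hL1 : 1 ≤ L := by rw [hLd]; linarith [Nat.cast_nonneg (α := ℝ) μ]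
  have hL0 : 0 < L := by linarith
  have hbig : L^(4*d) ≤ η * k := by
    refine le_trans ?_ (hk0 k ((le_max_left _ _).trans hk))
    rw [hLd]
    exact pow_le_pow_left₀ (by positivity) hLk _
  have hZψ := nqa_Z d hd r C' hr0 hr hC' k μ hk2 hμ1 hLk
  obtain ⟨Z, hZ⟩ : ∃ Z : ℝ, Z = ((μ:ℝ)+1)^(d-1) * (2:ℝ)^(-(r * μ)) := ⟨_, rfl⟩
  rw [← hZ] at hZψ
  have hZ2 : (2:ℝ)^(-(r * μ)) ≤ Z := by
    rw [hZ]
    exact le_mul_of_one_le_left (by positivity) (one_le_pow₀ (by rw [← hLd]; exact hL1))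
  have hZ0 : 0 ≤ Z := le_trans (by positivity) hZ2
  obtain ⟨Ms, hMs⟩ : ∃ Ms : ℕ, Ms = ⌊c * k / ((μ:ℝ)+1)⌋₊ + 1 := ⟨_, rfl⟩
  obtain ⟨M, hM⟩ : ∃ M : ℕ → ℕ, M = fun n => ⌊c * k * (2:ℝ)^(-(s * ((n - μ : ℕ) : ℝ))) / ((n:ℝ)+1)⌋₊ + 1 :=
    ⟨_, rfl⟩
  have hMs1 : 1 ≤ Ms := by omega
  have hM1 : ∀ n, 1 ≤ M n := fun n => by rw [hM]; simp
  have hMslo : c * k / ((μ:ℝ)+1) ≤ Ms := by
    rw [hMs]; push_cast
    exact (Nat.lt_floor_add_one _).le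
  have hMsup : ((μ:ℝ)+1) * Ms ≤ c * k + L := by
    have h1 : (⌊c * k / ((μ:ℝ)+1)⌋₊ : ℝ) ≤ c * k / ((μ:ℝ)+1) := Nat.floor_le (by positivity)
    rw [hMs, ← hLd]
    push_cast
    rw [← hLd] at h1
    rw [le_div_iff₀ hL0] at h1
    linarith
  have hMlo : ∀ t : ℕ, c * k * (2:ℝ)^(-(s * (t:ℝ))) ≤ (((μ + t : ℕ) : ℝ) + 1) * M (μ + t) := by
    intro t
    have e1 : μ + t - μ = t := by omega
    have h1 : c * k * (2:ℝ)^(-(s * (t:ℝ))) / (((μ + t : ℕ) : ℝ)+1) ≤ M (μ + t) := by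
      rw [hM]
      simp only [e1]
      push_cast
      exact (Nat.lt_floor_add_one _).le
    rw [div_le_iff₀ (by positivity)] at h1
    linarith
  have hMup : ∀ n : ℕ, ((n:ℝ)+1) * M n ≤ c * k * ρ^(n - μ) + ((n:ℝ)+1) := by
    intro n
    have h1 : (⌊c * k * (2:ℝ)^(-(s * ((n - μ : ℕ) : ℝ))) / ((n:ℝ)+1)⌋₊ : ℝ) ≤
        c * k * (2:ℝ)^(-(s * ((n - μ : ℕ) : ℝ))) / ((n:ℝ)+1) := Nat.floor_le (by positivity)
    rw [le_div_iff₀ (by positivity), hρt] at h1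
    rw [hM]
    simp only [hρt]
    push_cast
    linarith
  have hn0μ : (μ + 1) / 2 ≤ μ := by omega
  have hn1 : μ ≤ A * μ := Nat.le_mul_of_pos_left _ (by omega)
  refine ⟨(μ + 1) / 2, μ, A * μ, Ms, M, hn0μ, hn1, hMs1, hM1, ?_, ?_⟩
  · -- bits
    obtain ⟨n0, hn0⟩ : ∃ n0 : ℕ, n0 = (μ + 1) / 2 := ⟨_, rfl⟩
    rw [← hn0]
    have b1 : (2:ℝ)^n0 * ((n0:ℝ)+1)^d ≤ Real.log 2 / (4 * C0) * k := by
      refine le_of_sq_le_sq ?_ (by positivity)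
      have h1 : ((2:ℝ)^n0)^2 ≤ 4 * k * L^(d-2) := by
        calc ((2:ℝ)^n0)^2 = 2^(n0 * 2) := by rw [pow_mul]
          _ ≤ 2^(μ + 1) := pow_le_pow_right₀ (by norm_num) (by omega)
          _ = 2^μ * 2 := pow_succ _ _
          _ ≤ (2 * k * ((μ:ℝ)+1)^(d-2)) * 2 := by gcongr
          _ = _ := by rw [hLd]; ring
      have h2 : (n0:ℝ) + 1 ≤ L := by
        rw [hLd]
        have : (n0:ℝ) ≤ μ := by exact_mod_cast (by omega : n0 ≤ μ)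
        linarith
      calc ((2:ℝ)^n0 * ((n0:ℝ)+1)^d)^2 = ((2:ℝ)^n0)^2 * (((n0:ℝ)+1)^d)^2 := by rw [mul_pow]
        _ ≤ (4 * k * L^(d-2)) * (L^d)^2 := by gcongr
        _ = 4 * k * L^(d - 2 + d * 2) := by rw [pow_add, pow_mul]; ring
        _ ≤ 4 * k * L^(4 * d) :=
            mul_le_mul_of_nonneg_left (pow_le_pow_right₀ hL1 (by omega)) (by positivity)
        _ ≤ 4 * k * (η * k) := by gcongr
        _ ≤ 4 * k * ((Real.log 2 / (8 * C0))^2 * k) := by gcongr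
        _ = _ := by field_simp; norm_num
    have b3 : ∑ n ∈ Finset.Ico μ (A * μ), C0 * ((n:ℝ)+1) * M n ≤
        C0 * (c * k * (1/(1 - ρ)) + (A:ℝ)^2 * L^2) := by
      have h1 : ∑ n ∈ Finset.Ico μ (A * μ), ρ^(n - μ) ≤ 1/(1 - ρ) := by
        rw [Finset.sum_Ico_eq_sum_range]
        have e1 : ∀ t : ℕ, μ + t - μ = t := fun t => by omega
        simp only [e1]
        have h2 := (summable_geometric_of_lt_one hρ0.le hρ1).sum_le_tsum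
          (Finset.range (A * μ - μ)) fun n _ => by positivity
        rw [tsum_geometric_of_lt_one hρ0.le hρ1] at h2
        rw [one_div]
        exact h2
      have h2 : ∑ n ∈ Finset.Ico μ (A * μ), ((n:ℝ)+1) ≤ (A:ℝ)^2 * L^2 := by
        have h3 : ∀ n ∈ Finset.Ico μ (A * μ), ((n:ℝ)+1) ≤ A * L := by
          intro n hn
          rw [Finset.mem_Ico] at hn
          have h4 : (n:ℝ) + 1 ≤ A * μ := by exact_mod_cast hn.2
          have h5 : (A:ℝ) * μ ≤ A * L := by rw [hLd]; nlinarith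
          linarith
        calc _ ≤ ∑ n ∈ Finset.Ico μ (A * μ), (A:ℝ) * L := Finset.sum_le_sum h3
          _ = ((A * μ - μ : ℕ) : ℝ) * (A * L) := by
              rw [Finset.sum_const, Nat.card_Ico, nsmul_eq_mul]
          _ ≤ (A * L) * (A * L) := by
              refine mul_le_mul_of_nonneg_right ?_ (by positivity)
              have h4 : ((A * μ - μ : ℕ) : ℝ) ≤ (A * μ : ℕ) := by exact_mod_cast Nat.sub_le _ _
              push_cast at h4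
              have h5 : (A:ℝ) * μ ≤ A * L := by rw [hLd]; nlinarith
              linarith
          _ = _ := by ring
      calc _ = C0 * ∑ n ∈ Finset.Ico μ (A * μ), ((n:ℝ)+1) * M n := by
            rw [Finset.mul_sum]
            exact Finset.sum_congr rfl fun n _ => by ring
        _ ≤ C0 * ∑ n ∈ Finset.Ico μ (A * μ), (c * k * ρ^(n - μ) + ((n:ℝ)+1)) := by
            gcongr with n _
            exact hMup n
        _ = C0 * (c * k * (∑ n ∈ Finset.Ico μ (A * μ), ρ^(n - μ)) +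
              ∑ n ∈ Finset.Ico μ (A * μ), ((n:ℝ)+1)) := by
            rw [Finset.sum_add_distrib, Finset.mul_sum]
        _ ≤ _ := by gcongr
    have b4 : L + (A:ℝ)^2 * L^2 ≤ Real.log 2 / (4 * C0) * k := by
      have h1 : L ≤ L^2 := by nlinarith
      have h2 : L^2 ≤ L^(4*d) := pow_le_pow_right₀ hL1 (by omega)
      have h3 : (1:ℝ) ≤ (A:ℝ)^2 := one_le_pow₀ hA1
      have h4 : L + (A:ℝ)^2 * L^2 ≤ 2 * (A:ℝ)^2 * L^2 := by nlinarith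
      calc L + (A:ℝ)^2 * L^2 ≤ 2 * (A:ℝ)^2 * L^2 := h4
        _ ≤ 2 * (A:ℝ)^2 * L^(4*d) := by gcongr
        _ ≤ 2 * (A:ℝ)^2 * (η * k) := by gcongr
        _ ≤ 2 * (A:ℝ)^2 * (Real.log 2 / (8 * C0 * A^2) * k) := by gcongr
        _ = _ := by field_simp; norm_num
    have b5 : C0 * (c * k * B) = Real.log 2 / 4 * k := by rw [hc]; field_simp
    have b6 : C0 * (Real.log 2 / (4 * C0) * k) = Real.log 2 / 4 * k := by field_simp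
    have b7 := mul_le_mul_of_nonneg_left b1 hC0.le
    have b8 := mul_le_mul_of_nonneg_left hMsup hC0.le
    have b9 := mul_le_mul_of_nonneg_left b4 hC0.le
    rw [b6] at b7 b9
    have b10 : 0 ≤ Real.log 2 / 4 * k := by positivity
    have b11 : C0 * (c * k * B) = C0 * (c * k) + C0 * (c * k * (1/(1 - ρ))) := by rw [hB]; ring
    have b12 : C0 * ((μ:ℝ)+1) * Ms = C0 * (((μ:ℝ)+1) * Ms) := by ring
    rw [b12]
    linarith
  · -- errors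
    have hE1 : (2:ℝ)^(-(((μ + 1) / 2 : ℕ) : ℝ)) ≤ Z := by
      refine le_trans ?_ hZ2
      apply Real.rpow_le_rpow_of_exponent_le (by norm_num)
      have h1 : (μ:ℝ) ≤ 2 * (((μ + 1) / 2 : ℕ) : ℝ) := by
        exact_mod_cast (by omega : μ ≤ 2 * ((μ + 1) / 2))
      have h2 : r * (μ:ℝ) ≤ 1/2 * μ := mul_le_mul_of_nonneg_right hr.le (Nat.cast_nonneg _)
      linarith
    have h2 := hE2 μ ((μ + 1) / 2) Ms k hkR hμ2 hMs1 hMslo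
    have h3 := hE3 μ (A * μ) M k hkR hμ2 hM1 (by rw [← hs]; exact hMlo)
    have h4 := hSt (A * μ)
    have h5 : S * (2:ℝ)^(-(s / 2 * ((A * μ : ℕ) : ℝ))) ≤ S * Z := by
      refine mul_le_mul_of_nonneg_left (le_trans ?_ hZ2) hS0
      apply Real.rpow_le_rpow_of_exponent_le (by norm_num)
      push_cast
      have : r * (μ:ℝ) ≤ s / 2 * A * μ := mul_le_mul_of_nonneg_right hAr (Nat.cast_nonneg _)
      linarith
    rw [← hZ] at h2 h3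
    rw [← hs]
    calc _ ≤ Z + G2 * Z + G3 * Z + S * Z := by
          refine add_le_add (add_le_add (add_le_add hE1 h2) h3) (h4.trans h5)
      _ = (1 + G2 + G3 + S) * Z := by ring
      _ ≤ (1 + G2 + G3 + S) * (C'^(((d:ℝ)-1) * (1 - r) + r) * psiA d r k) := by gcongr
      _ = _ := by ring

end SmSm
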