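import Pool.Agent.H636R2.SM.SpecQ
import Pool.Agent.KX.L_num_up2

/-! Task NQB (helper439): choice of the parameters for `r = 1/2`. -/

open MeasureTheory Real ProbabilityTheory
open scoped ENNReal BigOperators

namespace SmSm
open HypVol MWidth

theorem nqb_psi (d : ℕ) (m : ℕ) (hm : 2 ≤ m) :
    psiB d m = Real.sqrt ((Real.log m) ^ d * Real.log (Real.log m + 3) / m) := by
  have hmR : (2:ℝ) ≤ m := by exact_mod_cast hm
  have hlm : 0 < Real.log m := Real.log_pos (by linarith)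
  have hll : 0 < Real.log (Real.log m + 3) := Real.log_pos (by linarith)
  rw [psiB, Real.sqrt_div (by positivity), Real.sqrt_mul (by positivity),
    Real.rpow_neg (by positivity), Real.sqrt_eq_rpow, Real.sqrt_eq_rpow, Real.sqrt_eq_rpow,
    ← Real.rpow_natCast (Real.log m) d, ← Real.rpow_mul hlm.le]
  have : (d:ℝ) * (1/2) = (d:ℝ)/2 := by ring
  rw [this]
  field_simp

theorem nqb_n0 (A : ℝ) (hA : 1 ≤ A) (d k : ℕ) (hk : A ≤ k) :
    ∃ n0 : ℕ, A * (2 ^ n0 * ((n0:ℝ) + 1) ^ d) ≤ k ∧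
      (k:ℝ) ≤ A * (2 ^ (n0 + 1) * ((n0:ℝ) + 2) ^ d) := by
  have hex : ∃ n : ℕ, (k:ℝ) < A * (2 ^ n * ((n:ℝ) + 1) ^ d) := by
    refine ⟨k, ?_⟩
    have h1 : (k:ℝ) < 2 ^ k := by exact_mod_cast Nat.lt_two_pow_self
    have h2 : (1:ℝ) ≤ ((k:ℝ) + 1) ^ d :=
      one_le_pow₀ (by linarith [Nat.cast_nonneg (α := ℝ) k])
    calc (k:ℝ) < 2 ^ k := h1
      _ = 1 * (2 ^ k * 1) := by ring
      _ ≤ _ := by gcongr
  have hP := Nat.find_spec hex
  have hne : Nat.find hex ≠ 0 := by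
    intro h0
    rw [h0] at hP
    simp only [pow_zero, Nat.cast_zero, zero_add, one_pow, mul_one] at hP
    linarith
  obtain ⟨n0, hn0⟩ := Nat.exists_eq_succ_of_ne_zero hne
  refine ⟨n0, ?_, ?_⟩
  · have := Nat.find_min hex (show n0 < Nat.find hex by omega)
    push Not at this
    exact this
  · rw [hn0] at hP
    push_cast at hP
    have e : (n0:ℝ) + 1 + 1 = n0 + 2 := by ring
    rw [e] at hP
    exact hP.le

theorem nqb_term (β F1 F2 V t : ℝ) (hβ0 : 0 < β) (hβ1 : β ≤ 1) (h1 : 0 ≤ F1) (h2 : 0 ≤ F2)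
    (hV : 0 ≤ V) (ht : 0 ≤ t) (e1 : F1 ^ 2 ≤ V * (2:ℝ) ^ (-t))
    (e2 : F2 ^ 2 ≤ V * (2:ℝ) ^ (β / 2 * t)) :
    F1 ^ β * F2 ^ (1 - β) ≤ Real.sqrt V * (2:ℝ) ^ (-(β / 4) * t) := by
  have hs : 0 ≤ Real.sqrt V := Real.sqrt_nonneg V
  have a1 : F1 ≤ Real.sqrt V * (2:ℝ) ^ (-t / 2) := by
    refine (pow_le_pow_iff_left₀ h1 (by positivity) two_ne_zero).1 ?_
    rw [mul_pow, Real.sq_sqrt hV, ← Real.rpow_natCast ((2:ℝ) ^ (-t / 2)) 2,
      ← Real.rpow_mul (by norm_num)]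
    refine e1.trans (le_of_eq ?_)
    congr 2
    push_cast; ring
  have a2 : F2 ≤ Real.sqrt V * (2:ℝ) ^ (β / 4 * t) := by
    refine (pow_le_pow_iff_left₀ h2 (by positivity) two_ne_zero).1 ?_
    rw [mul_pow, Real.sq_sqrt hV, ← Real.rpow_natCast ((2:ℝ) ^ (β / 4 * t)) 2,
      ← Real.rpow_mul (by norm_num)]
    refine e2.trans (le_of_eq ?_)
    congr 2
    push_cast; ring
  have hβ2 : 0 ≤ 1 - β := by linarith
  have b1 := Real.rpow_le_rpow h1 a1 hβ0.le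
  have b2 := Real.rpow_le_rpow h2 a2 hβ2
  have b3 : (Real.sqrt V) ^ β * (Real.sqrt V) ^ (1 - β) = Real.sqrt V := by
    rw [← Real.rpow_add_of_nonneg hs hβ0.le hβ2]
    have : β + (1 - β) = 1 := by ring
    rw [this, Real.rpow_one]
  calc F1 ^ β * F2 ^ (1 - β) ≤ (Real.sqrt V * (2:ℝ) ^ (-t / 2)) ^ β *
        (Real.sqrt V * (2:ℝ) ^ (β / 4 * t)) ^ (1 - β) :=
        mul_le_mul b1 b2 (by positivity) (by positivity)
    _ = ((Real.sqrt V) ^ β * (Real.sqrt V) ^ (1 - β)) *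
        ((2:ℝ) ^ (-t / 2 * β) * (2:ℝ) ^ (β / 4 * t * (1 - β))) := by
        rw [Real.mul_rpow hs (by positivity), Real.mul_rpow hs (by positivity),
          ← Real.rpow_mul (by norm_num), ← Real.rpow_mul (by norm_num)]
        ring
    _ = Real.sqrt V * (2:ℝ) ^ (-t / 2 * β + β / 4 * t * (1 - β)) := by
        rw [b3, ← Real.rpow_add (by norm_num)]
    _ ≤ _ := by
        apply mul_le_mul_of_nonneg_left _ hs
        apply Real.rpow_le_rpow_of_exponent_le (by norm_num)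
        have : 0 ≤ β * t := by positivity
        nlinarith [mul_nonneg this hβ0.le]

theorem nqb_ev (E : ℝ) : ∀ᶠ k : ℕ in Filter.atTop, E * (Real.log k + 1) ^ 2 ≤ k := by
  have h1 : (fun x : ℝ => Real.log x ^ 2) =o[Filter.atTop] (id : ℝ → ℝ) :=
    Real.isLittleO_pow_log_id_atTop
  have hc : (0:ℝ) < 1 / (4 * (|E| + 1)) := by positivity
  have h2 := (h1.bound hc)
  have h3 : Filter.Tendsto (fun k : ℕ => (k:ℝ)) Filter.atTop Filter.atTop :=
    tendsto_natCast_atTop_atTop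
  filter_upwards [h3.eventually h2, Filter.eventually_ge_atTop 3] with k hk hk3
  have hkR : (3:ℝ) ≤ k := by exact_mod_cast hk3
  have hl : 1 ≤ Real.log k := by
    rw [Real.le_log_iff_exp_le (by linarith)]
    linarith [Real.exp_one_lt_d9]
  simp only [id, Real.norm_eq_abs] at hk
  rw [abs_of_nonneg (by positivity : (0:ℝ) ≤ Real.log k ^ 2),
    abs_of_nonneg (by positivity : (0:ℝ) ≤ (k:ℝ))] at hk
  have h4 : (Real.log k + 1) ^ 2 ≤ 4 * Real.log k ^ 2 := by nlinarith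
  have h5 : E ≤ |E| + 1 := by linarith [le_abs_self E]
  calc E * (Real.log k + 1) ^ 2 ≤ (|E| + 1) * (4 * Real.log k ^ 2) := by
        gcongr
    _ ≤ (|E| + 1) * (4 * (1 / (4 * (|E| + 1)) * k)) := by gcongr
    _ = k := by field_simp

set_option maxHeartbeats 4000000 in
theorem nqb : S_NQB := by
  intro d hd q C0 hq1 hq2 hC0
  obtain ⟨β, hβd⟩ : ∃ β : ℝ, β = 2/q - 1 := ⟨_, rfl⟩
  have hq0 : 0 < q := by linarith
  have hβ0 : 0 < β := by
    have : 1 < 2 / q := by rw [lt_div_iff₀ hq0]; linarith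
    linarith
  have hβ1 : β ≤ 1 := by
    have : 2 / q ≤ 2 := by rw [div_le_iff₀ hq0]; linarith
    linarith
  obtain ⟨ρ, hρd⟩ : ∃ ρ : ℝ, ρ = (2:ℝ) ^ (-(β/4)) := ⟨_, rfl⟩
  have hρ0 : 0 < ρ := by rw [hρd]; positivity
  have hρ1 : ρ < 1 := by
    rw [hρd]
    exact Real.rpow_lt_one_of_one_lt_of_neg (by norm_num) (by linarith)
  have hρj : ∀ j : ℕ, (2:ℝ) ^ (-(β/4) * (j:ℝ)) = ρ ^ j := by
    intro j
    rw [hρd, ← Real.rpow_natCast, ← Real.rpow_mul (by norm_num)]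
  obtain ⟨τ, hτd⟩ : ∃ τ : ℝ, τ = (2:ℝ) ^ (-(β/2)) := ⟨_, rfl⟩
  have hτ0 : 0 < τ := by rw [hτd]; positivity
  have hτ1 : τ < 1 := by
    rw [hτd]
    exact Real.rpow_lt_one_of_one_lt_of_neg (by norm_num) (by linarith)
  have hτj : ∀ j : ℕ, (τ ^ j)⁻¹ = (2:ℝ) ^ (β/2 * (j:ℝ)) := by
    intro j
    rw [hτd, ← Real.rpow_natCast, ← Real.rpow_mul (by norm_num), ← Real.rpow_neg (by norm_num)]
    congr 1
    ring
  obtain ⟨g, hg⟩ : ∃ g : ℕ → ℝ, g = fun n : ℕ => ((n:ℝ) + 1) ^ d * ρ ^ n := ⟨_, rfl⟩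
  have hg0 : ∀ n, 0 ≤ g n := fun n => by rw [hg]; positivity
  have hgs : Summable g := by
    rw [hg]; exact HypVol.Sol_KX_num_up2.num_upw_summ d ρ hρ0 hρ1
  obtain ⟨G, hG⟩ : ∃ G : ℝ, G = ∑' n, g n := ⟨_, rfl⟩
  have hG0 : 0 ≤ G := by rw [hG]; exact tsum_nonneg hg0
  obtain ⟨D, hD⟩ : ∃ D : ℝ, D = 2 * d + 1 := ⟨_, rfl⟩
  have hD1 : 1 ≤ D := by rw [hD]; linarith [Nat.cast_nonneg (α := ℝ) d]
  obtain ⟨A1, hA1⟩ : ∃ A1 : ℝ, A1 = 8 * (C0 + 1) := ⟨_, rfl⟩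
  have hA18 : 8 ≤ A1 := by rw [hA1]; linarith
  obtain ⟨A2, hA2⟩ : ∃ A2 : ℝ, A2 = A1 * 2 ^ (d + 1) := ⟨_, rfl⟩
  have hA20 : 0 < A2 := by rw [hA2]; positivity
  obtain ⟨B, hB⟩ : ∃ B : ℝ, B = 16 * C0 / (1 - τ) + 1 := ⟨_, rfl⟩
  have hτ2 : 0 < 1 - τ := by linarith
  have hB0 : 0 < B := by rw [hB]; positivity
  obtain ⟨H, hH⟩ : ∃ H : ℝ, H = D ^ (2 * d) * (A2 + B) := ⟨_, rfl⟩
  have hH0 : 0 ≤ H := by rw [hH]; positivity
  obtain ⟨a, ha⟩ := exists_nat_ge (4 / β)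
  obtain ⟨E, hE⟩ : ∃ E : ℝ, E = 2 * D + 2 * a := ⟨_, rfl⟩
  have hE0 : 0 ≤ E := by rw [hE]; positivity
  obtain ⟨kk, hkk⟩ := Filter.eventually_atTop.1 (nqb_ev (16 * C0 * E ^ 2))
  obtain ⟨K1, hK1⟩ := exists_nat_ge A1
  obtain ⟨CC, hCC⟩ : ∃ CC : ℝ, CC = (A2 + Real.sqrt (32 * C0 * d * D ^ d) +
      Real.sqrt H * G + G) * 2 ^ (d + 2) := ⟨_, rfl⟩
  have hCC0 : 0 < CC := by rw [hCC]; positivity
  refine ⟨max 2 (max K1 kk), CC, le_max_left _ _, hCC0, ?_⟩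
  intro k hk
  have hk2 : 2 ≤ k := (le_max_left _ _).trans hk
  have hkR : (2:ℝ) ≤ k := by exact_mod_cast hk2
  have hk0 : (0:ℝ) < k := by linarith
  have hkA : A1 ≤ k := by
    refine hK1.trans ?_
    exact_mod_cast (le_max_left _ _).trans ((le_max_right _ _).trans hk)
  have hkE : 16 * C0 * E ^ 2 * (Real.log k + 1) ^ 2 ≤ k :=
    hkk k ((le_max_right _ _).trans ((le_max_right _ _).trans hk))
  have hlk : 0 < Real.log k := Real.log_pos (by linarith)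
  obtain ⟨n0, hn0a, hn0b⟩ := nqb_n0 A1 (by linarith) d k hkA
  have hn0R : (0:ℝ) ≤ n0 := Nat.cast_nonneg n0
  obtain ⟨S, hS⟩ : ∃ S : ℝ, S = (n0:ℝ) + 1 := ⟨_, rfl⟩
  have hS1 : 1 ≤ S := by rw [hS]; linarith
  obtain ⟨W, hW⟩ : ∃ W : ℝ, W = S ^ d / k := ⟨_, rfl⟩
  have hW0 : 0 < W := by rw [hW]; positivity
  -- the number of doublings
  obtain ⟨l, hl⟩ : ∃ l : ℕ, l = Nat.log 2 (n0 + 1) + 1 := ⟨_, rfl⟩
  have hl1 : (n0 + 1) < 2 ^ l := by rw [hl]; exact Nat.lt_pow_succ_log_self (by norm_num) _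
  have hl2' : 2 ^ (l - 1) ≤ n0 + 1 := by
    rw [hl, Nat.add_sub_cancel]; exact Nat.pow_log_le_self 2 (by omega)
  have hl3 : l ≤ n0 + 1 := by
    have : l - 1 < 2 ^ (l - 1) := Nat.lt_two_pow_self
    omega
  have hl0 : 1 ≤ l := by omega
  have hlR : (1:ℝ) ≤ l := by exact_mod_cast hl0
  obtain ⟨μs, hμs⟩ : ∃ μs : ℕ, μs = n0 + 2 * d * l := ⟨_, rfl⟩
  have hμD : (μs:ℝ) + 1 ≤ D * S := by
    have h1 : (l:ℝ) ≤ (n0:ℝ) + 1 := by exact_mod_cast hl3
    rw [hμs, hD, hS]; push_cast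
    have h2 : 2 * (d:ℝ) * l ≤ 2 * d * ((n0:ℝ) + 1) := by gcongr
    have h3 : (2 * (d:ℝ) + 1) * ((n0:ℝ) + 1) = 2 * d * ((n0:ℝ) + 1) + (n0 + 1) := by ring
    rw [h3]
    linarith
  have hμ1 : (1:ℝ) ≤ (μs:ℝ) + 1 := by linarith [Nat.cast_nonneg (α := ℝ) μs]
  have hSk : S ≤ 2 * Real.log k := by
    have h2 : (2:ℝ) ^ (n0 + 3) ≤ k := by
      refine le_trans ?_ hn0a
      have h1 : (1:ℝ) ≤ ((n0:ℝ) + 1) ^ d := one_le_pow₀ (by linarith)
      calc (2:ℝ) ^ (n0 + 3) = 8 * (2 ^ n0 * 1) := by rw [pow_add]; norm_num; ring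
        _ ≤ _ := by gcongr
    have h3 : ((n0 + 3 : ℕ) : ℝ) * Real.log 2 ≤ Real.log k := by
      rw [← Real.log_pow]
      exact Real.log_le_log (by positivity) h2
    have h4 := Real.log_two_gt_d9
    push_cast at h3
    rw [hS]
    have h5 : ((n0:ℝ) + 3) * (1 / 2) ≤ ((n0:ℝ) + 3) * Real.log 2 := by
      gcongr
      linarith
    linarith
  have hlll : (l:ℝ) ≤ 4 * Real.log (Real.log k + 3) := by
    have h1 : (2:ℝ) ^ l ≤ 4 * (Real.log k + 3) := by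
      have h2 : (2:ℝ) ^ (l - 1) ≤ (n0:ℝ) + 1 := by exact_mod_cast hl2'
      have h3 : (2:ℝ) ^ l = 2 * (2:ℝ) ^ (l - 1) := by
        rw [← pow_succ']; congr 1; omega
      rw [h3]; rw [hS] at hSk; linarith
    have h2 : (l:ℝ) * Real.log 2 ≤ Real.log (4 * (Real.log k + 3)) := by
      rw [← Real.log_pow]
      exact Real.log_le_log (by positivity) h1
    rw [Real.log_mul (by norm_num) (by linarith)] at h2
    have h3 : Real.log 4 = 2 * Real.log 2 := by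
      rw [show (4:ℝ) = 2 ^ 2 by norm_num, Real.log_pow]; norm_num
    have h4 := Real.log_two_gt_d9
    have h5 := Real.log_two_lt_d9
    have hll1 : 1 ≤ Real.log (Real.log k + 3) := by
      rw [Real.le_log_iff_exp_le (by linarith)]
      linarith [Real.exp_one_lt_d9]
    rw [h3] at h2
    have h6 : (l:ℝ) * (2 / 3) ≤ l * Real.log 2 := by
      gcongr
      linarith
    linarith
  -- the last level
  obtain ⟨N, hN⟩ : ∃ N : ℕ, N = Nat.log 2 k + 1 := ⟨_, rfl⟩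
  have hN1 : k < 2 ^ N := by rw [hN]; exact Nat.lt_pow_succ_log_self (by norm_num) _
  have hN2 : (N:ℝ) ≤ 2 * (Real.log k + 1) := by
    have h1 : (2:ℝ) ^ (N - 1) ≤ k := by
      rw [hN, Nat.add_sub_cancel]
      exact_mod_cast Nat.pow_log_le_self 2 (by omega)
    have h2 : ((N - 1 : ℕ) : ℝ) * Real.log 2 ≤ Real.log k := by
      rw [← Real.log_pow]
      exact Real.log_le_log (by positivity) h1
    have h3 : ((N - 1 : ℕ) : ℝ) = N - 1 := by
      rw [Nat.cast_sub (by omega)]; simp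
    rw [h3] at h2
    have h4 := Real.log_two_gt_d9
    have h5 : (0:ℝ) ≤ (N:ℝ) - 1 := by
      have : (1:ℝ) ≤ N := by rw [hN]; push_cast; linarith [Nat.cast_nonneg (α := ℝ) (Nat.log 2 k)]
      linarith
    have h6 : ((N:ℝ) - 1) * (1 / 2) ≤ ((N:ℝ) - 1) * Real.log 2 := by
      gcongr
      linarith
    linarith
  obtain ⟨n1, hn1⟩ : ∃ n1 : ℕ, n1 = μs + a * N := ⟨_, rfl⟩
  have hn1E : (n1:ℝ) + 1 ≤ E * (Real.log k + 1) := by
    rw [hn1, hE]
    push_cast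
    have h1 : (a:ℝ) * N ≤ a * (2 * (Real.log k + 1)) := by gcongr
    have h2 : D * S ≤ D * (2 * Real.log k) := by gcongr
    have h3 : (2 * D + 2 * a) * (Real.log k + 1) =
        D * (2 * Real.log k) + 2 * D + a * (2 * (Real.log k + 1)) := by ring
    rw [h3]
    linarith
  have hn1k : 16 * C0 * ((n1:ℝ) + 1) ^ 2 ≤ k := by
    refine le_trans ?_ hkE
    have h1 : ((n1:ℝ) + 1) ^ 2 ≤ (E * (Real.log k + 1)) ^ 2 := by gcongr
    calc 16 * C0 * ((n1:ℝ) + 1) ^ 2 ≤ 16 * C0 * (E * (Real.log k + 1)) ^ 2 := by gcongr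
      _ = _ := by ring
  have hρN : ρ ^ n1 ≤ 1 / k := by
    have h1 : ρ ^ n1 ≤ ρ ^ (a * N) := pow_le_pow_of_le_one hρ0.le hρ1.le (by rw [hn1]; omega)
    have h2 : ρ ^ a ≤ 1 / 2 := by
      rw [← hρj a]
      have h3 : (1:ℝ) / 2 = (2:ℝ) ^ (-1 : ℝ) := by
        rw [Real.rpow_neg_one]; norm_num
      rw [h3]
      apply Real.rpow_le_rpow_of_exponent_le (by norm_num)
      have h4 : 1 ≤ β / 4 * a := by
        have : 4 / β * β ≤ a * β := by gcongr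
        rw [div_mul_cancel₀ _ hβ0.ne'] at this
        linarith
      linarith
    have h3 : ρ ^ (a * N) ≤ (1 / 2) ^ N := by
      rw [pow_mul]; gcongr
    have h4 : ((1:ℝ) / 2) ^ N ≤ 1 / k := by
      rw [div_pow, one_pow]
      apply one_div_le_one_div_of_le hk0
      exact_mod_cast hN1.le
    linarith
  -- the numbers of points
  obtain ⟨Ms, hMs⟩ : ∃ Ms : ℕ, Ms = ⌊(k:ℝ) / (8 * C0 * ((μs:ℝ) + 1))⌋₊ := ⟨_, rfl⟩
  have hden : 0 < 8 * C0 * ((μs:ℝ) + 1) := by positivity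
  have hratio : 1 ≤ (k:ℝ) / (8 * C0 * ((μs:ℝ) + 1)) := by
    rw [le_div_iff₀ hden, one_mul]
    refine le_trans ?_ hn1k
    have h1 : (μs:ℝ) + 1 ≤ (n1:ℝ) + 1 := by
      rw [hn1]; push_cast
      have : (0:ℝ) ≤ a * N := by positivity
      linarith
    have h2 : (n1:ℝ) + 1 ≤ ((n1:ℝ) + 1) ^ 2 := by
      have h3 : (1:ℝ) ≤ (n1:ℝ) + 1 := by linarith
      calc (n1:ℝ) + 1 = ((n1:ℝ) + 1) * 1 := by ring
        _ ≤ ((n1:ℝ) + 1) * ((n1:ℝ) + 1) := by gcongr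
        _ = _ := by ring
    calc 8 * C0 * ((μs:ℝ) + 1) ≤ 8 * C0 * ((n1:ℝ) + 1) ^ 2 := by
          gcongr
          exact h1.trans h2
      _ ≤ 16 * C0 * ((n1:ℝ) + 1) ^ 2 := by gcongr; norm_num
  have hMs1 : 1 ≤ Ms := by
    rw [hMs]
    exact Nat.le_floor (by exact_mod_cast hratio)
  have hMs1R : (1:ℝ) ≤ Ms := by exact_mod_cast hMs1
  have hMsup : (Ms:ℝ) ≤ (k:ℝ) / (8 * C0 * ((μs:ℝ) + 1)) := by
    rw [hMs]; exact Nat.floor_le (by positivity)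
  have hMslo : (k:ℝ) / (8 * C0 * ((μs:ℝ) + 1)) / 2 ≤ Ms := by
    have h1 : (k:ℝ) / (8 * C0 * ((μs:ℝ) + 1)) < Ms + 1 := by
      rw [hMs]; exact Nat.lt_floor_add_one _
    linarith
  obtain ⟨M, hM⟩ : ∃ M : ℕ → ℕ, M = fun n =>
    ⌊(k:ℝ) * τ ^ (n - μs) / (B * ((n:ℝ) + 1))⌋₊ + 1 := ⟨_, rfl⟩
  have hM1 : ∀ n, 1 ≤ M n := fun n => by rw [hM]; simp
  have hMup : ∀ n, (M n : ℝ) ≤ (k:ℝ) * τ ^ (n - μs) / (B * ((n:ℝ) + 1)) + 1 := by
    intro n
    rw [hM]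
    push_cast
    have := Nat.floor_le (a := (k:ℝ) * τ ^ (n - μs) / (B * ((n:ℝ) + 1))) (by positivity)
    linarith
  have hMlo : ∀ n, (k:ℝ) * τ ^ (n - μs) / (B * ((n:ℝ) + 1)) ≤ M n := by
    intro n
    rw [hM]
    push_cast
    exact (Nat.lt_floor_add_one _).le
  -- bounds for powers of two
  have hn0inv : ((2:ℝ) ^ n0)⁻¹ ≤ A2 * W := by
    have h2 : ((n0:ℝ) + 2) ^ d ≤ (2 * S) ^ d := by
      rw [hS]; gcongr; linarith
    have h3 : (k:ℝ) ≤ A2 * (2 ^ n0 * S ^ d) := by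
      calc (k:ℝ) ≤ A1 * (2 ^ (n0 + 1) * ((n0:ℝ) + 2) ^ d) := hn0b
        _ ≤ A1 * (2 ^ (n0 + 1) * (2 * S) ^ d) := by gcongr
        _ = _ := by rw [hA2, mul_pow, pow_add, pow_add]; ring
    rw [hW, inv_le_iff_one_le_mul₀ (by positivity)]
    rw [show A2 * (S ^ d / k) * 2 ^ n0 = A2 * (2 ^ n0 * S ^ d) / k by ring, le_div_iff₀ hk0]
    linarith
  have hSl : S ^ (2 * d) ≤ (2:ℝ) ^ (2 * d * l) := by
    have : S ≤ (2:ℝ) ^ l := by rw [hS]; exact_mod_cast hl1.le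
    calc S ^ (2 * d) ≤ ((2:ℝ) ^ l) ^ (2 * d) := by gcongr
      _ = _ := by rw [← pow_mul]; congr 1; ring
  have hmu : S ^ (2 * d) * ((2:ℝ) ^ μs)⁻¹ ≤ A2 * W := by
    refine le_trans ?_ hn0inv
    rw [hμs, pow_add, mul_inv]
    have h1 : S ^ (2 * d) * ((2:ℝ) ^ (2 * d * l))⁻¹ ≤ 1 := by
      rw [← div_eq_mul_inv, div_le_one (by positivity)]
      exact hSl
    calc S ^ (2 * d) * (((2:ℝ) ^ n0)⁻¹ * ((2:ℝ) ^ (2 * d * l))⁻¹)
        = ((2:ℝ) ^ n0)⁻¹ * (S ^ (2 * d) * ((2:ℝ) ^ (2 * d * l))⁻¹) := by ring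
      _ ≤ ((2:ℝ) ^ n0)⁻¹ * 1 := by gcongr
      _ = _ := by ring
  obtain ⟨X, hX⟩ : ∃ X : ℝ, X = Real.sqrt W := ⟨_, rfl⟩
  have hX0 : 0 ≤ X := by rw [hX]; positivity
  have hW1 : W ≤ 1 := by
    rw [hW, div_le_one hk0]
    refine le_trans ?_ hn0a
    rw [← hS]
    have h1 : (1:ℝ) ≤ 2 ^ n0 := one_le_pow₀ (by norm_num)
    have h2 : 0 ≤ S ^ d := by positivity
    calc S ^ d = 1 * (1 * S ^ d) := by ring
      _ ≤ A1 * (2 ^ n0 * S ^ d) := by gcongr; linarith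
  have hWX : W ≤ X := by
    rw [hX]
    apply Real.le_sqrt_of_sq_le
    calc W ^ 2 = W * W := by ring
      _ ≤ W * 1 := by gcongr
      _ = W := by ring
  have hkX : 1 / (k:ℝ) ≤ X := by
    refine le_trans ?_ hWX
    rw [hW]
    gcongr
    exact one_le_pow₀ hS1
  have hXp : Real.sqrt (W * l) ≤ 2 ^ (d + 2) * psiB d k := by
    have hpsi := nqb_psi d k hk2
    have hpsi0 : 0 ≤ psiB d k := by rw [hpsi]; positivity
    rw [Real.sqrt_le_left (by positivity), hpsi, mul_pow, Real.sq_sqrt (by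
      have : 0 ≤ Real.log (Real.log k + 3) := by linarith
      positivity)]
    have h6 : (2:ℝ) ^ (d + 2) ≤ ((2:ℝ) ^ (d + 2)) ^ 2 := by
      have h61 : (1:ℝ) ≤ 2 ^ (d + 2) := one_le_pow₀ (by norm_num)
      calc (2:ℝ) ^ (d + 2) = (2:ℝ) ^ (d + 2) * 1 := by ring
        _ ≤ (2:ℝ) ^ (d + 2) * (2:ℝ) ^ (d + 2) := by gcongr
        _ = _ := by ring
    have h7 : 0 ≤ Real.log (Real.log k + 3) := by linarith
    have h8 : 0 ≤ (Real.log k) ^ d * Real.log (Real.log k + 3) / k := by positivity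
    calc W * l = S ^ d * l / k := by rw [hW]; ring
      _ ≤ (2 * Real.log k) ^ d * (4 * Real.log (Real.log k + 3)) / k := by
            gcongr
      _ = 2 ^ (d + 2) * ((Real.log k) ^ d * Real.log (Real.log k + 3) / k) := by
            rw [mul_pow, pow_add]; ring
      _ ≤ _ := by gcongr
  have hXl : X ≤ Real.sqrt (W * l) := by
    rw [hX]
    apply Real.sqrt_le_sqrt
    calc W = W * 1 := by ring
      _ ≤ _ := by gcongr
  refine ⟨n0, μs, n1, Ms, M, by omega, by omega, hMs1, hM1, ?_, ?_⟩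
  · -- number of bits
    have h1 : C0 * (2 ^ n0 * ((n0:ℝ) + 1) ^ d) ≤ k / 8 := by
      have h0 : 0 ≤ 2 ^ n0 * ((n0:ℝ) + 1) ^ d := by positivity
      rw [hA1] at hn0a
      have h01 : 8 * C0 * (2 ^ n0 * ((n0:ℝ) + 1) ^ d) ≤
          8 * (C0 + 1) * (2 ^ n0 * ((n0:ℝ) + 1) ^ d) := by gcongr; linarith
      linarith
    have h2 : C0 * ((μs:ℝ) + 1) * Ms ≤ k / 8 := by
      calc C0 * ((μs:ℝ) + 1) * Ms ≤ C0 * ((μs:ℝ) + 1) * ((k:ℝ) / (8 * C0 * ((μs:ℝ) + 1))) := by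
            gcongr
        _ = k / 8 := by field_simp
    have h3 : ∑ n ∈ Finset.Ico μs n1, C0 * ((n:ℝ) + 1) * M n ≤ k / 8 := by
      rw [Finset.sum_Ico_eq_sum_range]
      have hLe : n1 - μs = a * N := by omega
      rw [hLe]
      have h4 : ∀ t ∈ Finset.range (a * N), C0 * (((μs + t : ℕ):ℝ) + 1) * M (μs + t) ≤
          C0 * ((n1:ℝ) + 1) + (C0 * k / B) * τ ^ t := by
        intro t ht
        have ht' := Finset.mem_range.1 ht
        have h5 := hMup (μs + t)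
        rw [Nat.add_sub_cancel_left] at h5
        have h6 : ((μs + t : ℕ):ℝ) ≤ n1 := by
          have : μs + t ≤ n1 := by omega
          exact_mod_cast this
        have h7 : (0:ℝ) < ((μs + t : ℕ):ℝ) + 1 := by positivity
        calc C0 * (((μs + t : ℕ):ℝ) + 1) * M (μs + t)
            ≤ C0 * (((μs + t : ℕ):ℝ) + 1) *
              ((k:ℝ) * τ ^ t / (B * (((μs + t : ℕ):ℝ) + 1)) + 1) := by gcongr
          _ = C0 * (((μs + t : ℕ):ℝ) + 1) + (C0 * k / B) * τ ^ t := by field_simp; ring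
          _ ≤ _ := by gcongr
      refine (Finset.sum_le_sum h4).trans ?_
      rw [Finset.sum_add_distrib, Finset.sum_const, Finset.card_range, nsmul_eq_mul,
        ← Finset.mul_sum]
      have h5 : ∑ j ∈ Finset.range (a * N), τ ^ j ≤ 1 / (1 - τ) := by
        rw [le_div_iff₀ hτ2, geom_sum_mul_neg]
        have : 0 ≤ τ ^ (a * N) := by positivity
        linarith
      have h6 : ((a * N : ℕ):ℝ) ≤ (n1:ℝ) + 1 := by
        have : a * N ≤ n1 + 1 := by omega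
        exact_mod_cast this
      have h7 : ((a * N : ℕ):ℝ) * (C0 * ((n1:ℝ) + 1)) ≤ k / 16 := by
        calc ((a * N : ℕ):ℝ) * (C0 * ((n1:ℝ) + 1)) ≤ ((n1:ℝ) + 1) * (C0 * ((n1:ℝ) + 1)) := by
              gcongr
          _ = 16 * C0 * ((n1:ℝ) + 1) ^ 2 / 16 := by ring
          _ ≤ k / 16 := by gcongr
      have h8 : (C0 * k / B) * (1 / (1 - τ)) ≤ k / 16 := by
        have h9 : C0 / (1 - τ) ≤ B / 16 := by
          rw [hB]
          have : 16 * C0 / (1 - τ) = 16 * (C0 / (1 - τ)) := by ring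
          rw [this]; linarith
        calc (C0 * k / B) * (1 / (1 - τ)) = (k / B) * (C0 / (1 - τ)) := by ring
          _ ≤ (k / B) * (B / 16) := by gcongr
          _ = k / 16 := by field_simp
      have h9 : (C0 * k / B) * ∑ j ∈ Finset.range (a * N), τ ^ j ≤
          (C0 * k / B) * (1 / (1 - τ)) := by gcongr
      linarith
    have h4 := Real.log_two_gt_d9
    have h5 : (k:ℝ) * (1 / 2) ≤ k * Real.log 2 := by
      gcongr
      linarith
    linarith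
  · -- the error
    have hb1 : (2:ℝ) ^ (-(n0:ℝ)) ≤ A2 * Real.sqrt (W * l) := by
      rw [Real.rpow_neg (by norm_num), Real.rpow_natCast]
      refine hn0inv.trans ?_
      have := hWX.trans hXl
      gcongr
    have hone : ∀ n : ℕ, (2:ℝ) ^ (-(2 * (1/2:ℝ) * (n:ℝ))) * 2 ^ n = 1 := by
      intro n
      rw [← Real.rpow_natCast 2 n, ← Real.rpow_add (by norm_num)]
      have : -(2 * (1/2:ℝ) * (n:ℝ)) + n = 0 := by ring
      rw [this, Real.rpow_zero]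
    have hb2 : Real.sqrt ((∑ n ∈ Finset.Ico n0 μs, (2:ℝ) ^ (-(2 * (1/2:ℝ) * n)) * 2 ^ n *
        ((n:ℝ) + 1) ^ (d - 1)) / Ms) ≤ Real.sqrt (32 * C0 * d * D ^ d) * Real.sqrt (W * l) := by
      rw [← Real.sqrt_mul (by positivity)]
      apply Real.sqrt_le_sqrt
      have h2 : ∀ n ∈ Finset.Ico n0 μs, (2:ℝ) ^ (-(2 * (1/2:ℝ) * n)) * 2 ^ n *
          ((n:ℝ) + 1) ^ (d - 1) ≤ ((μs:ℝ) + 1) ^ (d - 1) := by
        intro n hn
        have hn' : (n:ℝ) ≤ μs := by exact_mod_cast (Finset.mem_Ico.1 hn).2.le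
        rw [hone n, one_mul]
        gcongr
      have h3 := Finset.sum_le_sum h2
      rw [Finset.sum_const, Nat.card_Ico, nsmul_eq_mul] at h3
      have h4 : μs - n0 = 2 * d * l := by omega
      rw [h4] at h3
      push_cast at h3
      have e1 : ((μs:ℝ) + 1) ^ d = ((μs:ℝ) + 1) * ((μs:ℝ) + 1) ^ (d - 1) := by
        rw [← pow_succ']; congr 1; omega
      have hMs0 : (0:ℝ) < Ms := by linarith
      rw [div_le_iff₀ hMs0]
      have hpd : ((μs:ℝ) + 1) ^ d ≤ (D * S) ^ d := by gcongr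
      calc (∑ n ∈ Finset.Ico n0 μs, (2:ℝ) ^ (-(2 * (1/2:ℝ) * n)) * 2 ^ n *
            ((n:ℝ) + 1) ^ (d - 1)) ≤ 2 * d * l * ((μs:ℝ) + 1) ^ (d - 1) := h3
        _ = (2 * d * l * (8 * C0) * 2 / k * (((μs:ℝ) + 1) * ((μs:ℝ) + 1) ^ (d - 1))) *
            ((k:ℝ) / (8 * C0 * ((μs:ℝ) + 1)) / 2) := by field_simp
        _ = (2 * d * l * (8 * C0) * 2 / k * ((μs:ℝ) + 1) ^ d) *
            ((k:ℝ) / (8 * C0 * ((μs:ℝ) + 1)) / 2) := by rw [e1]
        _ ≤ (2 * d * l * (8 * C0) * 2 / k * (D * S) ^ d) * Ms := by gcongr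
        _ = _ := by rw [hW, mul_pow]; ring
    have hexp : (2:ℝ) - 2 / q = 1 - β := by rw [hβd]; ring
    have hexp2 : (1/2:ℝ) - 1 + 1 / q = β / 2 := by rw [hβd]; ring
    have hb3 : (∑ n ∈ Finset.Ico μs n1, (((n:ℝ) + 1) ^ (d - 1) * (2:ℝ) ^ (-((1/2:ℝ) * n))) ^ (2 / q - 1) *
        (Real.sqrt ((2:ℝ) ^ (-(2 * (1/2:ℝ) * n)) * 2 ^ n * ((n:ℝ) + 1) ^ (d - 1) / M n)) ^ (2 - 2 / q))
        ≤ Real.sqrt H * G * Real.sqrt (W * l) := by
      rw [hexp, ← hβd, Finset.sum_Ico_eq_sum_range]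
      have hterm : ∀ t ∈ Finset.range (n1 - μs),
          ((((μs + t : ℕ):ℝ) + 1) ^ (d - 1) * (2:ℝ) ^ (-((1/2:ℝ) * ((μs + t : ℕ):ℝ)))) ^ β *
          (Real.sqrt ((2:ℝ) ^ (-(2 * (1/2:ℝ) * ((μs + t : ℕ):ℝ))) * 2 ^ (μs + t) *
            (((μs + t : ℕ):ℝ) + 1) ^ (d - 1) / M (μs + t))) ^ (1 - β) ≤
          (Real.sqrt H * X) * g t := by
        intro t _
        have ht0 : (0:ℝ) ≤ t := Nat.cast_nonneg t
        obtain ⟨y, hy⟩ : ∃ y : ℝ, y = ((μs + t : ℕ):ℝ) + 1 := ⟨_, rfl⟩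
        have hy1 : 1 ≤ y := by
          rw [hy]; linarith [Nat.cast_nonneg (α := ℝ) (μs + t)]
        have hyb : y ≤ D * S * ((t:ℝ) + 1) := by
          rw [hy]
          push_cast
          have h1 : (μs:ℝ) + t + 1 ≤ ((μs:ℝ) + 1) * ((t:ℝ) + 1) := by
            have h11 : (0:ℝ) ≤ (μs:ℝ) * t := by positivity
            have h12 : ((μs:ℝ) + 1) * ((t:ℝ) + 1) = (μs:ℝ) * t + (μs + t + 1) := by ring
            rw [h12]
            linarith
          refine h1.trans ?_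
          gcongr
        rw [hone, one_mul, ← hy]
        have hkey := nqb_term β (y ^ (d - 1) * (2:ℝ) ^ (-((1/2:ℝ) * ((μs + t : ℕ):ℝ))))
          (Real.sqrt (y ^ (d - 1) / M (μs + t))) (H * W * ((t:ℝ) + 1) ^ (2 * d)) t hβ0 hβ1
          (by positivity) (by positivity) (by positivity) ht0 ?_ ?_
        · refine hkey.trans (le_of_eq ?_)
          rw [hρj, hg, hX, Real.sqrt_mul (by positivity), Real.sqrt_mul hH0]
          have : Real.sqrt (((t:ℝ) + 1) ^ (2 * d)) = ((t:ℝ) + 1) ^ d := by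
            rw [pow_mul', Real.sqrt_sq (by positivity)]
          rw [this]
          ring
        · have e1 : ((2:ℝ) ^ (-((1/2:ℝ) * ((μs + t : ℕ):ℝ)))) ^ 2 =
              ((2:ℝ) ^ μs)⁻¹ * (2:ℝ) ^ (-(t:ℝ)) := by
            rw [← Real.rpow_natCast, ← Real.rpow_mul (by norm_num), ← Real.rpow_natCast 2 μs,
              ← Real.rpow_neg (by norm_num), ← Real.rpow_add (by norm_num)]
            congr 1; push_cast; ring
          rw [mul_pow, e1]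
          have h2 : (y ^ (d - 1)) ^ 2 ≤ (D * S * ((t:ℝ) + 1)) ^ (2 * d) := by
            rw [← pow_mul]
            calc y ^ ((d - 1) * 2) ≤ y ^ (2 * d) := pow_le_pow_right₀ hy1 (by omega)
              _ ≤ _ := by gcongr
          have h3 : (0:ℝ) < (2:ℝ) ^ (-(t:ℝ)) := by positivity
          calc (y ^ (d - 1)) ^ 2 * (((2:ℝ) ^ μs)⁻¹ * (2:ℝ) ^ (-(t:ℝ)))
              ≤ (D * S * ((t:ℝ) + 1)) ^ (2 * d) * (((2:ℝ) ^ μs)⁻¹ * (2:ℝ) ^ (-(t:ℝ))) := by gcongr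
            _ = D ^ (2 * d) * (S ^ (2 * d) * ((2:ℝ) ^ μs)⁻¹) * ((t:ℝ) + 1) ^ (2 * d) *
                (2:ℝ) ^ (-(t:ℝ)) := by rw [mul_pow, mul_pow]; ring
            _ ≤ D ^ (2 * d) * (A2 * W) * ((t:ℝ) + 1) ^ (2 * d) * (2:ℝ) ^ (-(t:ℝ)) := by gcongr
            _ ≤ D ^ (2 * d) * ((A2 + B) * W) * ((t:ℝ) + 1) ^ (2 * d) * (2:ℝ) ^ (-(t:ℝ)) := by
                gcongr; linarith
            _ = _ := by rw [hH]; ring
        · have hMp : (0:ℝ) < M (μs + t) := by exact_mod_cast hM1 (μs + t)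
          rw [Real.sq_sqrt (by positivity), div_le_iff₀ hMp]
          have h5 := hMlo (μs + t)
          rw [Nat.add_sub_cancel_left, ← hy] at h5
          have hy0 : 0 < y := by linarith
          have e1 : y ^ d = y * y ^ (d - 1) := by
            rw [← pow_succ']; congr 1; omega
          have h6 : y ^ d ≤ D ^ (2 * d) * S ^ d * ((t:ℝ) + 1) ^ (2 * d) := by
            calc y ^ d ≤ (D * S * ((t:ℝ) + 1)) ^ d := by gcongr
              _ = D ^ d * S ^ d * ((t:ℝ) + 1) ^ d := by rw [mul_pow, mul_pow]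
              _ ≤ D ^ (2 * d) * S ^ d * ((t:ℝ) + 1) ^ (2 * d) := by
                  have h61 : D ^ d ≤ D ^ (2 * d) := pow_le_pow_right₀ hD1 (by lia)
                  have h62 : ((t:ℝ) + 1) ^ d ≤ ((t:ℝ) + 1) ^ (2 * d) :=
                    pow_le_pow_right₀ (by linarith) (by lia)
                  gcongr
          calc y ^ (d - 1) = (B / k * (y * y ^ (d - 1)) * (τ ^ t)⁻¹) *
                ((k:ℝ) * τ ^ t / (B * y)) := by field_simp
            _ = (B / k * y ^ d * (τ ^ t)⁻¹) * ((k:ℝ) * τ ^ t / (B * y)) := by rw [e1]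
            _ ≤ (B / k * (D ^ (2 * d) * S ^ d * ((t:ℝ) + 1) ^ (2 * d)) * (τ ^ t)⁻¹) *
                M (μs + t) := by gcongr
            _ = (D ^ (2 * d) * B * W * ((t:ℝ) + 1) ^ (2 * d)) * (2:ℝ) ^ (β / 2 * (t:ℝ)) *
                M (μs + t) := by rw [hτj, hW]; ring
            _ ≤ (D ^ (2 * d) * (A2 + B) * W * ((t:ℝ) + 1) ^ (2 * d)) * (2:ℝ) ^ (β / 2 * (t:ℝ)) *
                M (μs + t) := by
                gcongr; linarith
            _ = _ := by rw [hH]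
      refine (Finset.sum_le_sum hterm).trans ?_
      rw [← Finset.mul_sum]
      have h4 : ∑ t ∈ Finset.range (n1 - μs), g t ≤ G := by
        rw [hG]; exact hgs.sum_le_tsum _ (fun j _ => hg0 j)
      calc Real.sqrt H * X * ∑ t ∈ Finset.range (n1 - μs), g t ≤ Real.sqrt H * X * G := by
            gcongr
        _ = Real.sqrt H * G * X := by ring
        _ ≤ _ := by gcongr
    have hb4 : (∑' n : ℕ, (((n + n1 : ℕ) : ℝ) + 1) ^ (d - 1) *
        (2:ℝ) ^ (-(((1/2:ℝ) - 1 + 1 / q) * ((n + n1 : ℕ) : ℝ)))) ≤ G * Real.sqrt (W * l) := by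
      rw [hexp2]
      have hterm : ∀ n : ℕ, (((n + n1 : ℕ) : ℝ) + 1) ^ (d - 1) *
          (2:ℝ) ^ (-(β / 2 * ((n + n1 : ℕ) : ℝ))) ≤ X * g (n + n1) := by
        intro n
        have e1 : (2:ℝ) ^ (-(β / 2 * ((n + n1 : ℕ) : ℝ))) = ρ ^ (n + n1) * ρ ^ (n + n1) := by
          rw [← hρj, ← Real.rpow_add (by norm_num)]
          congr 1; ring
        have h1 : ρ ^ (n + n1) ≤ X := by
          refine (pow_le_pow_of_le_one hρ0.le hρ1.le (by omega : n1 ≤ n + n1)).trans ?_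
          exact hρN.trans hkX
        have h2 : (((n + n1 : ℕ) : ℝ) + 1) ^ (d - 1) ≤ (((n + n1 : ℕ) : ℝ) + 1) ^ d :=
          pow_le_pow_right₀ (by linarith [Nat.cast_nonneg (α := ℝ) (n + n1)]) (by omega)
        rw [e1, hg]
        calc (((n + n1 : ℕ) : ℝ) + 1) ^ (d - 1) * (ρ ^ (n + n1) * ρ ^ (n + n1))
            ≤ (((n + n1 : ℕ) : ℝ) + 1) ^ d * (ρ ^ (n + n1) * X) := by gcongr
          _ = _ := by ring
      have hgs' := (summable_nat_add_iff n1).2 hgs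
      have hsl : Summable (fun n : ℕ => (((n + n1 : ℕ) : ℝ) + 1) ^ (d - 1) *
          (2:ℝ) ^ (-(β / 2 * ((n + n1 : ℕ) : ℝ)))) :=
        Summable.of_nonneg_of_le (fun n => by positivity) hterm (hgs'.mul_left X)
      have h4 : ∑' i : ℕ, g (i + n1) ≤ G := by
        rw [hG, ← hgs.sum_add_tsum_nat_add n1]
        have : 0 ≤ ∑ i ∈ Finset.range n1, g i := Finset.sum_nonneg (fun i _ => hg0 i)
        linarith
      calc _ ≤ ∑' i : ℕ, X * g (i + n1) := hsl.tsum_le_tsum hterm (hgs'.mul_left _)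
        _ = X * ∑' i : ℕ, g (i + n1) := tsum_mul_left
        _ ≤ X * G := by gcongr
        _ = G * X := by ring
        _ ≤ _ := by gcongr
    have hfin : (A2 + Real.sqrt (32 * C0 * d * D ^ d) + Real.sqrt H * G + G) *
        Real.sqrt (W * l) ≤ CC * psiB d k := by
      rw [hCC]
      calc _ ≤ (A2 + Real.sqrt (32 * C0 * d * D ^ d) + Real.sqrt H * G + G) *
            (2 ^ (d + 2) * psiB d k) := by gcongr
        _ = _ := by ring
    refine le_trans ?_ hfin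
    have := add_le_add (add_le_add (add_le_add hb1 hb2) hb3) hb4
    refine le_trans this (le_of_eq ?_)
    ring

end SmSm
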