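import Pool.Agent.H636R2.SM.SpecQ
import Pool.Agent.H636R2.SM.PIG
open MeasureTheory Real ProbabilityTheory
open scoped ENNReal BigOperators

/-! PIG1: truncation and pigeonhole (helper828). -/

namespace SmSm
open HypVol MWidth

/-- error of the truncation -/
theorem pig1_err (ν b t p : ℝ) (j : ℕ) (hν : 0 < ν) (hb : 1 ≤ b) (hp0 : 0 < p) (hp : p ≤ j) :
    |t - max (-(b * ν)) (min (b * ν) t)| ^ p ≤ (ν / b) ^ p * (t ^ (2 * j) / ν ^ (2 * j)) := by
  have hb0 : 0 < b := by linarith
  have hN : 0 < b * ν := by positivity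
  by_cases h : |t| ≤ b * ν
  · rw [abs_le] at h
    rw [min_eq_right h.2, max_eq_right h.1, sub_self, abs_zero, Real.zero_rpow hp0.ne']
    have : 0 ≤ t ^ (2 * j) := by rw [pow_mul]; positivity
    positivity
  · push Not at h
    have h1 : |t - max (-(b * ν)) (min (b * ν) t)| ≤ |t| := by
      rcases lt_abs.1 h with h2 | h2
      · rw [min_eq_left h2.le, max_eq_right (by linarith), abs_of_pos (by linarith),
          abs_of_pos (by linarith)]
        linarith
      · rw [min_eq_right (by linarith), max_eq_left (by linarith), abs_of_neg (by linarith),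
          abs_of_neg (by linarith)]
        linarith
    refine (Real.rpow_le_rpow (abs_nonneg _) h1 hp0.le).trans ?_
    set s : ℝ := |t| / ν with hs
    have hst : |t| = s * ν := by rw [hs]; field_simp
    have hbs : b ≤ s := by
      rw [hs, le_div_iff₀ hν]; exact h.le
    have hs1 : 1 ≤ s := hb.trans hbs
    have hs0 : 0 < s := by linarith
    have e1 : t ^ (2 * j) / ν ^ (2 * j) = s ^ ((2 * j : ℕ) : ℝ) := by
      rw [Real.rpow_natCast, hs, div_pow, pow_mul, pow_mul |t|, sq_abs]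
    have e2 : (ν / b) ^ p = ν ^ p / b ^ p := Real.div_rpow hν.le hb0.le p
    have hbp : 0 < b ^ p := Real.rpow_pos_of_pos hb0 p
    have hνp : 0 < ν ^ p := Real.rpow_pos_of_pos hν p
    rw [e1, e2, hst, Real.mul_rpow hs0.le hν.le, div_mul_eq_mul_div, le_div_iff₀ hbp]
    have e3 : s ^ p * b ^ p ≤ s ^ ((2 * j : ℕ) : ℝ) := by
      calc s ^ p * b ^ p ≤ s ^ p * s ^ p := by
            apply mul_le_mul_of_nonneg_left _ (Real.rpow_nonneg hs0.le p)
            exact Real.rpow_le_rpow hb0.le hbs hp0.le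
        _ = s ^ (p + p) := (Real.rpow_add hs0 p p).symm
        _ ≤ s ^ ((2 * j : ℕ) : ℝ) := by
            apply Real.rpow_le_rpow_of_exponent_le hs1
            push_cast
            linarith
    calc s ^ p * ν ^ p * b ^ p = ν ^ p * (s ^ p * b ^ p) := by ring
      _ ≤ ν ^ p * s ^ ((2 * j : ℕ) : ℝ) := mul_le_mul_of_nonneg_left e3 hνp.le

/-- Hölder's inequality in the form used below -/
theorem pig1_holder {d : ℕ} (u e : (Fin d → ℝ) → ℝ) (q : ℝ) (hq : 1 < q) (A B : ℝ) (hA : 0 ≤ A)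
    (hB : 0 ≤ B) (hum : AEStronglyMeasurable u (TP d))
    (hu : eLpNorm u (ENNReal.ofReal q) (TP d) ≤ ENNReal.ofReal A) (he : Continuous e)
    (hei : ∫ x, |e x| ^ (q / (q - 1)) ∂(TP d) ≤ B ^ (q / (q - 1))) :
    |∫ x, u x * e x ∂(TP d)| ≤ A * B := by
  have hq0 : 0 < q := by linarith
  have hp0 : 0 < q / (q - 1) := by
    have : 0 < q - 1 := by linarith
    positivity
  have hum' : MemLp u (ENNReal.ofReal q) (TP d) := ⟨hum, hu.trans_lt ENNReal.ofReal_lt_top⟩
  have := TP_prob d
  have hem : MemLp e (ENNReal.ofReal (q / (q - 1))) (TP d) := (pig_memLp e he).mono_exponent le_top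
  have hconj : q.HolderConjugate (q / (q - 1)) := Real.HolderConjugate.conjExponent hq
  have h1 := integral_mul_norm_le_Lp_mul_Lq hconj hum' hem
  have h2 : (∫ x, ‖u x‖ ^ q ∂(TP d)) ^ (1 / q) ≤ A := by
    rw [hum'.eLpNorm_eq_integral_rpow_norm (by rw [Ne, ENNReal.ofReal_eq_zero]; linarith)
      ENNReal.ofReal_ne_top, ENNReal.toReal_ofReal hq0.le, ENNReal.ofReal_le_ofReal_iff hA] at hu
    rw [one_div]; exact hu
  have h3 : (∫ x, ‖e x‖ ^ (q / (q - 1)) ∂(TP d)) ^ (1 / (q / (q - 1))) ≤ B := by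
    have h4 : ∫ x, ‖e x‖ ^ (q / (q - 1)) ∂(TP d) ≤ B ^ (q / (q - 1)) := hei
    refine (Real.rpow_le_rpow (integral_nonneg fun x => by positivity) h4 (by positivity)).trans ?_
    rw [← Real.rpow_mul hB, mul_one_div_cancel hp0.ne', Real.rpow_one]
  calc |∫ x, u x * e x ∂(TP d)| ≤ ∫ x, |u x * e x| ∂(TP d) := abs_integral_le_integral_abs
    _ = ∫ x, ‖u x‖ * ‖e x‖ ∂(TP d) := by
        apply integral_congr_ae
        filter_upwards with x
        rw [abs_mul, Real.norm_eq_abs, Real.norm_eq_abs]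
    _ ≤ _ := h1
    _ ≤ A * B := mul_le_mul h2 h3 (by positivity) hA

theorem pig1 : S_PIG1 := by
  intro d hd r hr α q j hq hqj K ν Δ b ε1 ε2 k1 k2 hν hb hε1 hε2 hFam hcov1 hcov2 hK
  have := TP_prob d
  obtain ⟨ι, hι, h, φ, g, hcard, hhi, hφc, hgc, hφ1, hg1, hfc, hsep⟩ := hFam
  obtain ⟨C1, hC1m, hC1⟩ := hcov1
  obtain ⟨C2, hC2m, hC2⟩ := hcov2
  have hq0 : 0 < q := by linarith
  have hp0 : 0 < q / (q - 1) := by
    have : 0 < q - 1 := by linarith
    positivity
  have hb0 : 0 < b := by linarith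
  set N : ℝ := b * ν with hN
  have hN0 : 0 < N := by positivity
  -- membership
  have hmem : ∀ i, (fun x => (h i x : ℂ)) ∈ WF d r 1 α := by
    intro i
    refine ⟨memLp_one_iff_integrable.mpr (hhi i).ofReal, fun x => (φ i x : ℂ),
      memLp_one_iff_integrable.mpr (pig_int _ (hφc i)).ofReal, ?_, hfc i⟩
    have hint : Integrable (fun x => (φ i x : ℂ)) (TP d) := (pig_int _ (hφc i)).ofReal
    rw [eLpNorm_one_eq_lintegral_enorm, ← ofReal_integral_norm_eq_lintegral_enorm hint,
      ← ENNReal.ofReal_one]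
    apply ENNReal.ofReal_le_ofReal
    refine le_trans (le_of_eq ?_) (hφ1 i)
    apply integral_congr_ae
    filter_upwards with x
    rw [Complex.norm_real, Real.norm_eq_abs]
  choose j1 hj1 using fun i => hC1 _ (hmem i)
  choose j2 hj2 using fun i => hC2 _ (hmem i)
  obtain ⟨i, i', hne, hii⟩ := Fintype.exists_ne_map_eq_of_card_lt
    (fun i : ι => (j1 i, j2 i)) (by
      rw [Fintype.card_prod, Fintype.card_fin, Fintype.card_fin]
      have : (2:ℝ)^k1 * 2^k2 < Fintype.card ι := lt_of_lt_of_le hK hcard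
      exact_mod_cast this)
  simp only [Prod.mk.injEq] at hii
  set u : (Fin d → ℝ) → ℝ := fun x => h i x - h i' x with hu
  have hui : Integrable u (TP d) := (hhi i).sub (hhi i')
  -- norms of the difference
  have hnorm : ∀ (p : ℝ≥0∞) (_ : 1 ≤ p) (c : (Fin d → ℝ) → ℂ) (ε : ℝ) (_ : 0 < ε)
      (_ : AEStronglyMeasurable c (TP d)),
      eLpNorm (fun x => (h i x : ℂ) - c x) p (TP d) ≤ ENNReal.ofReal ε →
      eLpNorm (fun x => (h i' x : ℂ) - c x) p (TP d) ≤ ENNReal.ofReal ε →
      eLpNorm u p (TP d) ≤ ENNReal.ofReal (2 * ε) := by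
    intro p hp c ε hε hc e1 e2
    have m1 : AEStronglyMeasurable (fun x => (h i x : ℂ) - c x) (TP d) :=
      ((hhi i).ofReal.aestronglyMeasurable).sub hc
    have m2 : AEStronglyMeasurable (fun x => (h i' x : ℂ) - c x) (TP d) :=
      ((hhi i').ofReal.aestronglyMeasurable).sub hc
    have h1 : eLpNorm u p (TP d) = eLpNorm ((fun x => (h i x : ℂ) - c x) -
        (fun x => (h i' x : ℂ) - c x)) p (TP d) := by
      apply eLpNorm_congr_norm_ae
      filter_upwards with x
      have h2 : ((fun x => (h i x : ℂ) - c x) - (fun x => (h i' x : ℂ) - c x)) x =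
          ((u x : ℝ) : ℂ) := by
        simp only [Pi.sub_apply, hu]
        push_cast; ring
      rw [h2, Complex.norm_real]
    rw [h1]
    refine (eLpNorm_sub_le m1 m2 hp).trans ?_
    rw [two_mul, ENNReal.ofReal_add hε.le hε.le]
    exact add_le_add e1 e2
  have hq1 : (1 : ℝ≥0∞) ≤ ENNReal.ofReal q := by
    rw [← ENNReal.ofReal_one]; exact ENNReal.ofReal_le_ofReal hq.le
  have hU1 := hnorm _ hq1 (C1 (j1 i')) ε1 hε1 (hC1m _).1 (by rw [← hii.1]; exact hj1 i) (hj1 i')
  have hU2 := hnorm 1 le_rfl (C2 (j2 i')) ε2 hε2 (hC2m _).1 (by rw [← hii.2]; exact hj2 i) (hj2 i')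
  have hU2' : ∫ x, |u x| ∂(TP d) ≤ 2 * ε2 := by
    rw [eLpNorm_one_eq_lintegral_enorm, ← ofReal_integral_norm_eq_lintegral_enorm hui,
      ENNReal.ofReal_le_ofReal_iff (by positivity)] at hU2
    exact hU2
  -- the clipped functions
  set c : ι → (Fin d → ℝ) → ℝ := fun l x => max (-N) (min N (g l x)) with hc
  set e : ι → (Fin d → ℝ) → ℝ := fun l x => g l x - max (-N) (min N (g l x)) with he
  have hcc : ∀ l, Continuous (c l) := by
    intro l
    have h := hgc l
    simp only [hc]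
    fun_prop
  have hec : ∀ l, Continuous (e l) := by
    intro l
    have h := hgc l
    simp only [he]
    fun_prop
  have heb : ∀ l, ∫ x, |e l x| ^ (q / (q - 1)) ∂(TP d) ≤ (ν / b) ^ (q / (q - 1)) := by
    intro l
    have h1 : ∀ x, |e l x| ^ (q / (q - 1)) ≤
        (ν / b) ^ (q / (q - 1)) * ((g l x) ^ (2 * j) / ν ^ (2 * j)) := fun x =>
      pig1_err ν b (g l x) _ j hν hb hp0 hqj
    have h2 : Integrable (fun x => (ν / b) ^ (q / (q - 1)) * ((g l x) ^ (2 * j) / ν ^ (2 * j)))
        (TP d) := pig_int _ ((((hgc l).pow _).div_const _).const_mul _)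
    have h3 : Integrable (fun x => |e l x| ^ (q / (q - 1))) (TP d) := by
      apply pig_int
      exact ((hec l).abs).rpow_const fun _ => Or.inr hp0.le
    calc ∫ x, |e l x| ^ (q / (q - 1)) ∂(TP d)
        ≤ ∫ x, (ν / b) ^ (q / (q - 1)) * ((g l x) ^ (2 * j) / ν ^ (2 * j)) ∂(TP d) :=
          integral_mono h3 h2 h1
      _ = (ν / b) ^ (q / (q - 1)) * ((∫ x, (g l x) ^ (2 * j) ∂(TP d)) / ν ^ (2 * j)) := by
          rw [integral_const_mul, integral_div]
      _ ≤ (ν / b) ^ (q / (q - 1)) * 1 := by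
          apply mul_le_mul_of_nonneg_left _ (Real.rpow_nonneg (by positivity) _)
          rw [div_le_one (by positivity)]
          exact hg1 l
      _ = _ := mul_one _
  have he1 := fun l => pig1_holder u (e l) q hq (2 * ε1) (ν / b) (by positivity) (by positivity)
    hui.aestronglyMeasurable hU1 (hec l) (heb l)
  have hint : ∀ f : (Fin d → ℝ) → ℝ, Continuous f → Integrable (fun x => u x * f x) (TP d) := by
    intro f hf
    obtain ⟨M, hM⟩ := pig_bdd f hf
    exact hui.mul_bdd (c := M) hf.aestronglyMeasurable hM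
  have hcb : |∫ x, u x * (c i x - c i' x) ∂(TP d)| ≤ 2 * N * (2 * ε2) := by
    calc |∫ x, u x * (c i x - c i' x) ∂(TP d)| ≤ ∫ x, |u x * (c i x - c i' x)| ∂(TP d) :=
          abs_integral_le_integral_abs
      _ ≤ ∫ x, 2 * N * |u x| ∂(TP d) := by
          apply integral_mono (hint _ ((hcc i).sub (hcc i'))).abs (hui.abs.const_mul _)
          intro x
          show |u x * (c i x - c i' x)| ≤ 2 * N * |u x|
          rw [abs_mul, mul_comm]
          apply mul_le_mul_of_nonneg_right _ (abs_nonneg _)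
          have a1 := pig_clip N (g i x) hN0
          have a2 := pig_clip N (g i' x) hN0
          have a3 := abs_sub (c i x) (c i' x)
          simp only [hc] at a3 ⊢
          linarith
      _ = 2 * N * ∫ x, |u x| ∂(TP d) := integral_const_mul _ _
      _ ≤ 2 * N * (2 * ε2) := mul_le_mul_of_nonneg_left hU2' (by positivity)
  have hsp : ∫ x, (h i x - h i' x) * (g i x - g i' x) ∂(TP d) =
      ∫ x, u x * (c i x - c i' x) ∂(TP d) + (∫ x, u x * e i x ∂(TP d) -
        ∫ x, u x * e i' x ∂(TP d)) := by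
    have i1 : Integrable (fun x => u x * (c i x - c i' x)) (TP d) :=
      hint (fun x => c i x - c i' x) ((hcc i).sub (hcc i'))
    have i2 : Integrable (fun x => u x * e i x - u x * e i' x) (TP d) :=
      (hint _ (hec i)).sub (hint _ (hec i'))
    rw [← integral_sub (hint _ (hec i)) (hint _ (hec i')), ← integral_add i1 i2]
    apply integral_congr_ae
    filter_upwards with x
    simp only [hc, he, hu]
    ring
  refine (hsep i i' hne).trans ?_
  rw [hsp]
  have f1 := (abs_le.mp hcb).2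
  have f2 := (abs_le.mp (he1 i)).2
  have f3 := (abs_le.mp (he1 i')).1
  have f4 : 2 * N * (2 * ε2) = 4 * b * ν * ε2 := by rw [hN]; ring
  have f5 : 2 * ε1 * (ν / b) = 2 * (ν / b) * ε1 := by ring
  rw [f5] at f2 f3
  linarith

end SmSm
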