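import Pool.Agent.H636R2.SM.SpecQ
import Pool.Agent.H636R2.SM.SEP
open Finset
open scoped BigOperators

/-!
SEP2: many configurations whose kernel sums are far apart in energy.
-/

namespace SmSm

/-- exponential moment of the sum seen by the point `i` -/
theorem sep2_exp {G : Type} [Fintype G] [DecidableEq G] [Nonempty G]
    (K : G → G → ℝ) (κ θ : ℝ) (M : ℕ) (hM : 1 ≤ M) (hκ : 0 < κ) (hθ : 0 < θ)
    (hd : ∀ x, K x x = κ)
    (h1 : ∀ x, ∑ y, Real.exp (-θ * K x y) ≤ (Fintype.card G) * Real.exp (θ * κ / (16 * M)))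
    (i : Fin M) :
    ∑ X : Fin M → G, Real.exp (θ * (3 / 4 * κ - ∑ j, K (X i) (X j))) ≤
      (Fintype.card G : ℝ)^M * Real.exp (-(3 * (θ * κ) / 16)) := by
  have hg : (0 : ℝ) < Fintype.card G := by exact_mod_cast Fintype.card_pos
  have hMr : (1 : ℝ) ≤ M := by exact_mod_cast hM
  set f : G → Fin M → G → ℝ := fun z j y =>
    (if j = i then (if y = z then 1 else 0) else 1) * Real.exp (-θ * K z y) with hf
  have hprod : ∀ z : G, ∑ X : Fin M → G, ∏ j, f z j (X j) ≤
      Real.exp (-(θ * κ)) * ((Fintype.card G : ℝ)^(M-1) * Real.exp (θ * κ / 16)) := by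
    intro z
    have e1 : ∑ X : Fin M → G, ∏ j, f z j (X j) = ∏ j, ∑ y, f z j y := by
      rw [Finset.prod_univ_sum, Fintype.piFinset_univ]
    rw [e1, ← Finset.mul_prod_erase univ _ (Finset.mem_univ i)]
    have e2 : ∑ y, f z i y = Real.exp (-(θ * κ)) := by
      rw [Finset.sum_eq_single z]
      · simp [hf, hd]
      · intro y _ hy; simp [hf, hy]
      · intro h; exact absurd (Finset.mem_univ z) h
    have e3 : ∀ j ∈ univ.erase i, ∑ y, f z j y = ∑ y, Real.exp (-θ * K z y) := by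
      intro j hj
      have hji : j ≠ i := (Finset.mem_erase.1 hj).1
      simp [hf, hji]
    rw [e2, Finset.prod_congr rfl e3, Finset.prod_const, Finset.card_erase_of_mem
      (Finset.mem_univ i), Finset.card_univ, Fintype.card_fin]
    refine mul_le_mul_of_nonneg_left ?_ (Real.exp_pos _).le
    have h0 : 0 ≤ ∑ y, Real.exp (-θ * K z y) := Finset.sum_nonneg fun y _ => (Real.exp_pos _).le
    refine (pow_le_pow_left₀ h0 (h1 z) (M - 1)).trans ?_
    rw [mul_pow, ← Real.exp_nat_mul]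
    refine mul_le_mul_of_nonneg_left ?_ (by positivity)
    rw [Real.exp_le_exp]
    have hcast : ((M - 1 : ℕ) : ℝ) ≤ M := by exact_mod_cast Nat.sub_le M 1
    have hpos : 0 ≤ θ * κ / (16 * M) := by positivity
    calc ((M - 1 : ℕ) : ℝ) * (θ * κ / (16 * M)) ≤ M * (θ * κ / (16 * M)) :=
          mul_le_mul_of_nonneg_right hcast hpos
      _ = θ * κ / 16 := by field_simp
  have e4 : ∀ X : Fin M → G, Real.exp (θ * (3 / 4 * κ - ∑ j, K (X i) (X j))) =
      ∑ z : G, Real.exp (3 / 4 * (θ * κ)) * ∏ j, f z j (X j) := by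
    intro X
    rw [Finset.sum_eq_single (X i)]
    · have e5 : ∀ j, f (X i) j (X j) = Real.exp (-θ * K (X i) (X j)) := by
        intro j
        by_cases hj : j = i
        · subst hj; simp [hf]
        · simp [hf, hj]
      rw [Finset.prod_congr rfl (fun j _ => e5 j), ← Real.exp_sum, ← Real.exp_add,
        ← Finset.mul_sum]
      congr 1; ring
    · intro z _ hz
      have : ∏ j, f z j (X j) = 0 := by
        apply Finset.prod_eq_zero (Finset.mem_univ i)
        simp [hf, hz.symm]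
      rw [this, mul_zero]
    · intro h; exact absurd (Finset.mem_univ _) h
  rw [Finset.sum_congr rfl (fun X _ => e4 X), Finset.sum_comm]
  have e6 : ∀ z ∈ (univ : Finset G), ∑ X : Fin M → G, Real.exp (3 / 4 * (θ * κ)) *
      ∏ j, f z j (X j) ≤ Real.exp (3 / 4 * (θ * κ)) * (Real.exp (-(θ * κ)) *
        ((Fintype.card G : ℝ)^(M-1) * Real.exp (θ * κ / 16))) := by
    intro z _
    rw [← Finset.mul_sum]
    exact mul_le_mul_of_nonneg_left (hprod z) (Real.exp_pos _).le
  refine (Finset.sum_le_sum e6).trans (le_of_eq ?_)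
  rw [Finset.sum_const, Finset.card_univ, nsmul_eq_mul]
  have e7 : (Fintype.card G : ℝ)^M = Fintype.card G * (Fintype.card G : ℝ)^(M-1) := by
    rw [← pow_succ']; congr 1; omega
  have e8 : Real.exp (-(3 * (θ * κ) / 16)) = Real.exp (3 / 4 * (θ * κ)) *
      (Real.exp (-(θ * κ)) * Real.exp (θ * κ / 16)) := by
    rw [← Real.exp_add, ← Real.exp_add]; congr 1; ring
  rw [e7, e8]; ring

/-- few configurations with small energy -/
theorem sep2_bad1 {G : Type} [Fintype G] [DecidableEq G] [Nonempty G]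
    (K : G → G → ℝ) (κ θ : ℝ) (M : ℕ) (hM : 1 ≤ M) (hκ : 0 < κ) (hθ : 0 < θ)
    (hd : ∀ x, K x x = κ)
    (h1 : ∀ x, ∑ y, Real.exp (-θ * K x y) ≤ (Fintype.card G) * Real.exp (θ * κ / (16 * M)))
    (A : Finset (Fin M → G)) (hA : ∀ X ∈ A, ∑ i, ∑ j, K (X i) (X j) < 3 / 4 * κ * M) :
    (A.card : ℝ) ≤ (Fintype.card G : ℝ)^M * Real.exp (-(3 * (θ * κ) / 16)) := by
  have hMr : (1 : ℝ) ≤ M := by exact_mod_cast hM
  have hsum : ∑ X : Fin M → G, ∑ i, Real.exp (θ * (3 / 4 * κ - ∑ j, K (X i) (X j))) ≤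
      M * ((Fintype.card G : ℝ)^M * Real.exp (-(3 * (θ * κ) / 16))) := by
    rw [Finset.sum_comm]
    refine (Finset.sum_le_sum fun i _ => sep2_exp K κ θ M hM hκ hθ hd h1 i).trans ?_
    rw [Finset.sum_const, Finset.card_univ, nsmul_eq_mul, Fintype.card_fin]
  refine (sep_markov _ (fun X => Finset.sum_nonneg fun i _ => (Real.exp_pos _).le)
    (c := (M : ℝ)) (by positivity) hsum A (fun X hX => ?_)).trans (le_of_eq ?_)
  · have h2 := hA X hX
    have h3 : ∑ i : Fin M, (θ * (3 / 4 * κ - ∑ j, K (X i) (X j)) + 1) ≤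
        ∑ i, Real.exp (θ * (3 / 4 * κ - ∑ j, K (X i) (X j))) :=
      Finset.sum_le_sum fun i _ => Real.add_one_le_exp _
    refine le_trans ?_ h3
    rw [Finset.sum_add_distrib, ← Finset.mul_sum, Finset.sum_sub_distrib, Finset.sum_const,
      Finset.sum_const, Finset.card_univ, Fintype.card_fin, nsmul_eq_mul, nsmul_eq_mul, mul_one]
    have h4 : 0 < (M : ℝ) * (3 / 4 * κ) - ∑ i, ∑ j, K (X i) (X j) := by linarith
    have h5 := mul_pos hθ h4
    linarith
  · field_simp

/-- few configurations with large exponential sums -/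
theorem sep2_bad2 {G : Type} [Fintype G] [DecidableEq G] [Nonempty G]
    (K : G → G → ℝ) (κ θ : ℝ) (M : ℕ) (hM : 1 ≤ M)
    (hs : ∀ x y, K x y = K y x)
    (h1 : ∀ x, ∑ y, Real.exp (θ * K x y) ≤ (Fintype.card G) * Real.exp (θ * κ / (16 * M)))
    (A : Finset (Fin M → G)) (hA : ∀ X ∈ A, 10 * ((Fintype.card G : ℝ) * Real.exp (θ * κ / 16)) ≤
      ∑ y, Real.exp (θ * ∑ i, K (X i) y)) :
    (A.card : ℝ) ≤ (Fintype.card G : ℝ)^M / 10 := by
  have hg : (0 : ℝ) < Fintype.card G := by exact_mod_cast Fintype.card_pos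
  have hMr : (1 : ℝ) ≤ M := by exact_mod_cast hM
  have hsum : ∑ X : Fin M → G, ∑ y, Real.exp (θ * ∑ i, K (X i) y) ≤
      (Fintype.card G : ℝ) * ((Fintype.card G : ℝ)^M * Real.exp (θ * κ / 16)) := by
    rw [Finset.sum_comm]
    have e1 : ∀ y ∈ (univ : Finset G), ∑ X : Fin M → G, Real.exp (θ * ∑ i, K (X i) y) ≤
        (Fintype.card G : ℝ)^M * Real.exp (θ * κ / 16) := by
      intro y _
      have e2 : ∑ X : Fin M → G, Real.exp (θ * ∑ i, K (X i) y) =
          ∏ _i : Fin M, ∑ x, Real.exp (θ * K y x) := by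
        rw [Finset.prod_univ_sum, Fintype.piFinset_univ]
        refine Finset.sum_congr rfl fun X _ => ?_
        rw [Finset.mul_sum, Real.exp_sum]
        exact Finset.prod_congr rfl fun i _ => by rw [hs]
      rw [e2, Finset.prod_const, Finset.card_univ, Fintype.card_fin]
      have h0 : 0 ≤ ∑ x, Real.exp (θ * K y x) := Finset.sum_nonneg fun y _ => (Real.exp_pos _).le
      refine (pow_le_pow_left₀ h0 (h1 y) M).trans (le_of_eq ?_)
      rw [mul_pow, ← Real.exp_nat_mul]
      congr 2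
      field_simp
    refine (Finset.sum_le_sum e1).trans ?_
    rw [Finset.sum_const, Finset.card_univ, nsmul_eq_mul]
  refine (sep_markov _ (fun X => Finset.sum_nonneg fun i _ => (Real.exp_pos _).le)
    (c := 10 * ((Fintype.card G : ℝ) * Real.exp (θ * κ / 16))) (by positivity) hsum A hA).trans
      (le_of_eq ?_)
  rw [div_eq_iff (by positivity)]
  ring

/-- few configurations close to a configuration with small exponential sums -/
theorem sep2_close {G : Type} [Fintype G] [DecidableEq G] [Nonempty G]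
    (K : G → G → ℝ) (κ θ : ℝ) (M : ℕ) (hθ : 0 < θ) (b : Fin M → G)
    (hb : ∑ y, Real.exp (θ * ∑ i, K (b i) y) ≤ 10 * ((Fintype.card G : ℝ) * Real.exp (θ * κ / 16)))
    (A : Finset (Fin M → G)) (hA : ∀ X ∈ A, M * κ / 2 ≤ ∑ i, ∑ j, K (b i) (X j)) :
    (A.card : ℝ) ≤ (Fintype.card G : ℝ)^M *
      Real.exp (M * (4 + θ * κ / 16) - θ * (M * κ / 2)) := by
  have hg : (0 : ℝ) < Fintype.card G := by exact_mod_cast Fintype.card_pos
  have h10 : (10 : ℝ) ≤ Real.exp 4 := by
    have h4 : Real.exp 4 = Real.exp 1 ^ 4 := by rw [← Real.exp_nat_mul]; norm_num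
    have h5 : (2 : ℝ) ^ 4 ≤ Real.exp 1 ^ 4 := by
      refine pow_le_pow_left₀ (by norm_num) ?_ 4
      have := Real.add_one_le_exp (1 : ℝ)
      linarith
    rw [h4]
    linarith
  have hsum : ∑ X : Fin M → G, Real.exp (θ * ∑ i, ∑ j, K (b i) (X j)) ≤
      (Fintype.card G : ℝ)^M * Real.exp (M * (4 + θ * κ / 16)) := by
    have e2 : ∑ X : Fin M → G, Real.exp (θ * ∑ i, ∑ j, K (b i) (X j)) =
        ∏ _j : Fin M, ∑ y, Real.exp (θ * ∑ i, K (b i) y) := by
      rw [Finset.prod_univ_sum, Fintype.piFinset_univ]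
      refine Finset.sum_congr rfl fun X _ => ?_
      rw [Finset.sum_comm, Finset.mul_sum, Real.exp_sum]
    rw [e2, Finset.prod_const, Finset.card_univ, Fintype.card_fin]
    have h0 : 0 ≤ ∑ y, Real.exp (θ * ∑ i, K (b i) y) :=
      Finset.sum_nonneg fun y _ => (Real.exp_pos _).le
    refine (pow_le_pow_left₀ h0 hb M).trans ?_
    rw [Real.exp_nat_mul, ← mul_pow]
    refine pow_le_pow_left₀ (by positivity) ?_ M
    rw [Real.exp_add]
    have h3 : 0 ≤ (Fintype.card G : ℝ) * Real.exp (θ * κ / 16) := by positivity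
    calc 10 * ((Fintype.card G : ℝ) * Real.exp (θ * κ / 16))
        ≤ Real.exp 4 * ((Fintype.card G : ℝ) * Real.exp (θ * κ / 16)) :=
          mul_le_mul_of_nonneg_right h10 h3
      _ = (Fintype.card G : ℝ) * (Real.exp 4 * Real.exp (θ * κ / 16)) := by ring
  refine (sep_markov _ (fun X => (Real.exp_pos _).le)
    (c := Real.exp (θ * (M * κ / 2))) (Real.exp_pos _) hsum A (fun X hX => ?_)).trans (le_of_eq ?_)
  · exact Real.exp_le_exp.2 (mul_le_mul_of_nonneg_left (hA X hX) hθ.le)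
  · rw [div_eq_iff (Real.exp_pos _).ne', mul_assoc, ← Real.exp_add]
    congr 2
    ring

theorem sep2_main : ∀ (G : Type) [Fintype G] [DecidableEq G] [Nonempty G] (K : G → G → ℝ)
    (κ θ : ℝ) (M : ℕ)
    (good : Finset (Fin M → G)), 1 ≤ M → 0 < κ → 0 < θ → 200 ≤ θ * κ → (∀ x, K x x = κ) →
    (∀ x y, K x y = K y x) →
    (∀ x, ∑ y, Real.exp (θ * K x y) ≤ (Fintype.card G) * Real.exp (θ * κ / (16 * M))) →
    (∀ x, ∑ y, Real.exp (-θ * K x y) ≤ (Fintype.card G) * Real.exp (θ * κ / (16 * M))) →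
    (9/10 : ℝ) * (Fintype.card G : ℝ)^M ≤ good.card →
    ∃ F : Finset (Fin M → G), F ⊆ good ∧ Real.exp (θ * κ * M / 100) ≤ F.card ∧
      ∀ X ∈ F, ∀ X' ∈ F, X ≠ X' → M * κ / 4 ≤
        ∑ i, ∑ i', (K (X i) (X i') + K (X' i) (X' i') - 2 * K (X i) (X' i')) := by
  classical
  intro G _ _ _ K κ θ M good hM hκ hθ hε hd hs h1 h2 hgood
  have hg : (0 : ℝ) < Fintype.card G := by exact_mod_cast Fintype.card_pos
  have hMr : (1 : ℝ) ≤ M := by exact_mod_cast hM
  set N : ℝ := (Fintype.card G : ℝ)^M with hN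
  have hNpos : 0 < N := by positivity
  set A1 := (univ : Finset (Fin M → G)).filter
    (fun X => ∑ i, ∑ j, K (X i) (X j) < 3 / 4 * κ * M) with hA1
  set A2 := (univ : Finset (Fin M → G)).filter (fun X =>
    10 * ((Fintype.card G : ℝ) * Real.exp (θ * κ / 16)) ≤
      ∑ y, Real.exp (θ * ∑ i, K (X i) y)) with hA2
  have hc1 : (A1.card : ℝ) ≤ N * Real.exp (-(3 * (θ * κ) / 16)) :=
    sep2_bad1 K κ θ M hM hκ hθ hd h2 A1 (fun X hX => (Finset.mem_filter.1 hX).2)
  have hc2 : (A2.card : ℝ) ≤ N / 10 :=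
    sep2_bad2 K κ θ M hM hs h1 A2 (fun X hX => (Finset.mem_filter.1 hX).2)
  have hexp : Real.exp (-(3 * (θ * κ) / 16)) ≤ 1 / 400 := by
    have h3 : Real.exp (-(3 * (θ * κ) / 16)) ≤ Real.exp (-12) := Real.exp_le_exp.2 (by linarith)
    have h4 : Real.exp (-12) = (Real.exp 1 ^ 12)⁻¹ := by
      rw [← Real.exp_nat_mul, ← Real.exp_neg]; norm_num
    have h5 : (2 : ℝ) ^ 12 ≤ Real.exp 1 ^ 12 := by
      refine pow_le_pow_left₀ (by norm_num) ?_ 12
      have := Real.add_one_le_exp (1 : ℝ)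
      linarith
    have h6 : (Real.exp 1 ^ 12)⁻¹ ≤ ((2 : ℝ) ^ 12)⁻¹ := inv_anti₀ (by norm_num) h5
    rw [h4] at h3
    refine h3.trans (h6.trans ?_)
    norm_num
  have hc1' : (A1.card : ℝ) ≤ N / 100 := by
    have := mul_le_mul_of_nonneg_left hexp hNpos.le
    linarith
  set good' := good \ (A1 ∪ A2) with hgood'
  have hcard : 7 / 10 * N ≤ (good'.card : ℝ) := by
    have h3 : good.card ≤ good'.card + (A1 ∪ A2).card := by
      rw [hgood']
      have := Finset.card_le_card_sdiff_add_card (s := good) (t := A1 ∪ A2)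
      omega
    have h4 := Finset.card_union_le A1 A2
    have h5 : (good.card : ℝ) ≤ good'.card + A1.card + A2.card := by
      exact_mod_cast (by omega : good.card ≤ good'.card + A1.card + A2.card)
    linarith
  have hB : ∀ X ∈ good', 3 / 4 * κ * M ≤ ∑ i, ∑ j, K (X i) (X j) := by
    intro X hX
    by_contra hcon
    push Not at hcon
    rw [hgood', Finset.mem_sdiff] at hX
    exact hX.2 (Finset.mem_union_left _ (Finset.mem_filter.2 ⟨Finset.mem_univ _, hcon⟩))
  have hA : ∀ X ∈ good', ∑ y, Real.exp (θ * ∑ i, K (X i) y) ≤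
      10 * ((Fintype.card G : ℝ) * Real.exp (θ * κ / 16)) := by
    intro X hX
    by_contra hcon
    push Not at hcon
    rw [hgood', Finset.mem_sdiff] at hX
    exact hX.2 (Finset.mem_union_right _ (Finset.mem_filter.2 ⟨Finset.mem_univ _, hcon.le⟩))
  obtain ⟨F, hF1, hF2, hF3⟩ := sep_max good'
    (fun X X' => ∑ i, ∑ j, K (X i) (X' j) < M * κ / 2)
    (by
      intro a b hab
      rw [Finset.sum_comm]
      simpa only [hs] using hab)
  refine ⟨F, hF1.trans Finset.sdiff_subset, ?_, ?_⟩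
  · -- close sets
    set Cl : (Fin M → G) → Finset (Fin M → G) := fun b =>
      (univ : Finset (Fin M → G)).filter (fun X => M * κ / 2 ≤ ∑ i, ∑ j, K (b i) (X j)) with hCl
    have hClcard : ∀ b ∈ good', ((Cl b).card : ℝ) ≤
        N * Real.exp (M * (4 + θ * κ / 16) - θ * (M * κ / 2)) := by
      intro b hb
      exact sep2_close K κ θ M hθ b (hA b hb) _ (fun X hX => (Finset.mem_filter.1 hX).2)
    have hcover : good' ⊆ F.biUnion Cl := by
      intro X hX
      rw [Finset.mem_biUnion]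
      by_cases hXF : X ∈ F
      · refine ⟨X, hXF, ?_⟩
        rw [hCl, Finset.mem_filter]
        refine ⟨Finset.mem_univ _, ?_⟩
        have h3 := hB X hX
        have h4 : 0 < κ * M := by positivity
        linarith
      · obtain ⟨b, hb, hb'⟩ := hF3 X hX hXF
        refine ⟨b, hb, ?_⟩
        rw [hCl, Finset.mem_filter]
        refine ⟨Finset.mem_univ _, ?_⟩
        push Not at hb'
        rw [Finset.sum_comm] at hb'
        simpa only [hs] using hb'
    have hfin : 7 / 10 * N ≤ F.card * (N * Real.exp (M * (4 + θ * κ / 16) - θ * (M * κ / 2))) := by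
      refine hcard.trans ?_
      have h3 : good'.card ≤ ∑ X' ∈ F, (Cl X').card :=
        (Finset.card_le_card hcover).trans Finset.card_biUnion_le
      have h4 : (good'.card : ℝ) ≤ ∑ X' ∈ F, ((Cl X').card : ℝ) := by exact_mod_cast h3
      refine h4.trans ((Finset.sum_le_sum fun X' hX' => hClcard X' (hF1 hX')).trans ?_)
      rw [Finset.sum_const, nsmul_eq_mul]
    have hfin2 : 7 / 10 ≤ F.card * Real.exp (M * (4 + θ * κ / 16) - θ * (M * κ / 2)) := by
      have h3 : 7 / 10 * N ≤ (F.card * Real.exp (M * (4 + θ * κ / 16) - θ * (M * κ / 2))) * N := by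
        refine hfin.trans (le_of_eq ?_); ring
      exact le_of_mul_le_mul_right h3 hNpos
    have h88 : Real.exp (-1) ≤ 7 / 10 := by
      have h3 : Real.exp (-1) = (Real.exp 1)⁻¹ := Real.exp_neg 1
      have h4 : (2 : ℝ) ≤ Real.exp 1 := by
        have := Real.add_one_le_exp (1 : ℝ)
        linarith
      rw [h3]
      refine (inv_anti₀ (by norm_num) h4).trans ?_
      norm_num
    have h9 : Real.exp (-1) * Real.exp (-(M * (4 + θ * κ / 16) - θ * (M * κ / 2))) ≤
        F.card := by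
      have h10 := mul_le_mul_of_nonneg_right (h88.trans hfin2)
        (Real.exp_pos (-(M * (4 + θ * κ / 16) - θ * (M * κ / 2)))).le
      rwa [mul_assoc, ← Real.exp_add (M * (4 + θ * κ / 16) - θ * (M * κ / 2)),
        add_neg_cancel, Real.exp_zero, mul_one] at h10
    refine le_trans ?_ h9
    rw [← Real.exp_add, Real.exp_le_exp]
    have h12 : 200 * (M : ℝ) ≤ θ * κ * M := by nlinarith
    nlinarith
  · intro X hX X' hX' hne
    have h3 := hB X (hF1 hX)
    have h4 := hB X' (hF1 hX')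
    have h5 := hF2 X hX X' hX' hne
    have h6 : ∑ i, ∑ i', (K (X i) (X i') + K (X' i) (X' i') - 2 * K (X i) (X' i')) =
        ∑ i, ∑ j, K (X i) (X j) + ∑ i, ∑ j, K (X' i) (X' j) -
          2 * ∑ i, ∑ j, K (X i) (X' j) := by
      simp only [Finset.sum_sub_distrib, Finset.sum_add_distrib, Finset.mul_sum]
    rw [h6]
    have h7 : 0 < κ * M := by positivity
    linarith

theorem sep2 : S_SEP2 := by
  intro G _ _ _ K κ θ M good hM hκ hθ hε _ hd hs _ h1 h2 hgood
  exact sep2_main G K κ θ M good hM hκ hθ hε hd hs h1 h2 hgood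

end SmSm
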