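import Pool.Agent.H636R2.SM.SpecQ
import Pool.Agent.H636R2.SM.PIG
import Pool.Agent.HypVol.L_TP_prob

/-! Task UPQ: the scheme gives nets (helper355) -/

open MeasureTheory Real ProbabilityTheory
open scoped ENNReal BigOperators

namespace SmSm
open HypVol MWidth

/-- centres from a finite set of functions -/
theorem upq_cov {d : ℕ} {ι : Type} (G : Finset ι) (y : ι → (Fin d → ℝ) → ℂ) (k : ℕ) (p ε : ℝ≥0∞)
    (Θ : Set ((Fin d → ℝ) → ℂ)) (hy : ∀ i ∈ G, MemLp (y i) p (TP d)) (hG : G.card ≤ 2 ^ k)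
    (h : ∀ f ∈ Θ, ∃ i ∈ G, eLpNorm (fun x => f x - y i x) p (TP d) ≤ ε) : Cov p k ε Θ := by
  classical
  by_cases hΘ : Θ.Nonempty
  · obtain ⟨f0, hf0⟩ := hΘ
    obtain ⟨i0, hi0, -⟩ := h f0 hf0
    have hmem : ∀ i : ℕ, G.toList.getD i i0 ∈ G := by
      intro i
      by_cases hi : i < G.toList.length
      · rw [List.getD_eq_getElem _ _ hi, ← Finset.mem_toList]
        exact List.getElem_mem hi
      · rw [List.getD_eq_default _ _ (by omega)]
        exact hi0
    refine ⟨fun i => y (G.toList.getD i i0), fun j => hy _ (hmem _), ?_⟩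
    intro f hf
    obtain ⟨v, hv, h1⟩ := h f hf
    rw [← Finset.mem_toList] at hv
    obtain ⟨i, hi, hiv⟩ := List.getElem_of_mem hv
    have hi2 : i < 2 ^ k := by
      rw [Finset.length_toList] at hi
      omega
    refine ⟨⟨i, hi2⟩, ?_⟩
    have e1 : (G.toList.getD i i0) = v := by
      rw [List.getD_eq_getElem _ _ hi, hiv]
    simp only [e1]
    exact h1
  · rw [Set.not_nonempty_iff_eq_empty] at hΘ
    refine ⟨fun _ _ => 0, fun _ => MemLp.zero', ?_⟩
    intro f hf
    rw [hΘ] at hf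
    exact absurd hf (Set.notMem_empty f)

theorem upq_op_cont {d : ℕ} (r : ℝ) (α : Fin d → ℝ) (s : Fin d → ℕ) (φ : (Fin d → ℝ) → ℂ) :
    Continuous (op r α s φ) := by
  unfold op chi
  refine continuous_finsetSum _ fun k _ => ?_
  refine Continuous.mul continuous_const ?_
  refine Complex.continuous_exp.comp ?_
  refine Continuous.mul continuous_const ?_
  refine Complex.continuous_ofReal.comp ?_
  exact continuous_finsetSum _ fun j _ => continuous_const.mul (continuous_apply j)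

theorem upq_lop_cont {d : ℕ} (J : Finset ℕ) (r : ℝ) (α : Fin d → ℝ) (φ : (Fin d → ℝ) → ℂ) :
    Continuous (lop J r α φ) := by
  unfold lop
  exact continuous_finsetSum _ fun μ _ => continuous_finsetSum _ fun s _ => upq_op_cont r α s φ

theorem upq_lop_split {d : ℕ} (n0 μs n1 : ℕ) (h1 : n0 ≤ μs) (h2 : μs ≤ n1) (r : ℝ) (α : Fin d → ℝ)
    (φ : (Fin d → ℝ) → ℂ) (x : Fin d → ℝ) : lop (Finset.range n1) r α φ x =
      lop (Finset.range n0) r α φ x + lop (Finset.Ico n0 μs) r α φ x +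
        ∑ i : Fin (n1 - μs), lop {μs + i.val} r α φ x := by
  unfold lop
  simp only [Finset.sum_singleton]
  have e : ∑ i : Fin (n1 - μs), ∑ s ∈ lev d (μs + i.val), op r α s φ x =
      ∑ k ∈ Finset.range (n1 - μs), ∑ s ∈ lev d (μs + k), op r α s φ x :=
    (Finset.sum_range (fun k => ∑ s ∈ lev d (μs + k), op r α s φ x)).symm
  rw [← Finset.sum_range_add_sum_Ico _ h2, ← Finset.sum_range_add_sum_Ico _ h1,
    Finset.sum_Ico_eq_sum_range _ μs n1, e]

theorem upq_mem_lev {d μ : ℕ} {s : Fin d → ℕ} (h : s ∈ lev d μ) : ∑ j, (s j : ℝ) = μ := by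
  unfold lev at h
  rw [Finset.mem_filter] at h
  exact_mod_cast h.2

/-- `L_1` norm of one level -/
theorem upq_one {d : ℕ} (r : ℝ) (α : Fin d → ℝ) (C3 : ℝ) (hC3 : 0 < C3)
    (hann : ∀ μ : ℕ, ((lev d μ).card : ℝ) ≤ ((μ:ℝ)+1)^(d-1))
    (h : ∀ (s : Fin d → ℕ) (φ : (Fin d → ℝ) → ℂ), MemLp φ 1 (TP d) → eLpNorm φ 1 (TP d) ≤ 1 →
      eLpNorm (op r α s φ) 1 (TP d) ≤ ENNReal.ofReal (C3 * (2:ℝ)^(-(r * ∑ j, (s j : ℝ)))))
    (n : ℕ) (φ : (Fin d → ℝ) → ℂ) (hφ : MemLp φ 1 (TP d)) (hφ1 : eLpNorm φ 1 (TP d) ≤ 1) :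
    eLpNorm (lop {n} r α φ) 1 (TP d) ≤
      ENNReal.ofReal (C3 * (((n:ℝ)+1)^(d-1) * (2:ℝ)^(-(r * n)))) := by
  have e1 : lop {n} r α φ = ∑ s ∈ lev d n, op r α s φ := by
    funext x
    unfold lop
    rw [Finset.sum_singleton, Finset.sum_apply]
  rw [e1]
  refine (eLpNorm_sum_le (fun s _ => (upq_op_cont r α s φ).aestronglyMeasurable) le_rfl).trans ?_
  calc ∑ s ∈ lev d n, eLpNorm (op r α s φ) 1 (TP d)
      ≤ ∑ s ∈ lev d n, ENNReal.ofReal (C3 * (2:ℝ)^(-(r * n))) := by
        refine Finset.sum_le_sum fun s hs => ?_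
        have := h s φ hφ hφ1
        rwa [upq_mem_lev hs] at this
    _ = ENNReal.ofReal (((lev d n).card : ℝ) * (C3 * (2:ℝ)^(-(r * n)))) := by
        rw [Finset.sum_const, nsmul_eq_mul, ENNReal.ofReal_mul (Nat.cast_nonneg _),
          ENNReal.ofReal_natCast]
    _ ≤ _ := by
        apply ENNReal.ofReal_le_ofReal
        calc ((lev d n).card : ℝ) * (C3 * (2:ℝ)^(-(r * n))) ≤
            ((n:ℝ)+1)^(d-1) * (C3 * (2:ℝ)^(-(r * n))) :=
              mul_le_mul_of_nonneg_right (hann n) (by positivity)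
          _ = _ := by ring

/-- interpolation between the `L_1` and the `L_2` bound -/
theorem upq_interp {d : ℕ} (q : ℝ) (hq1 : 1 ≤ q) (hq2 : q ≤ 2) (h2 : S_INTQ) (u : (Fin d → ℝ) → ℂ)
    (hu : AEStronglyMeasurable u (TP d)) (A X Y : ℝ) (hA : 0 ≤ A) (hX : 0 ≤ X) (hY : 0 ≤ Y)
    (h1X : eLpNorm u 1 (TP d) ≤ ENNReal.ofReal (A * X))
    (h2Y : eLpNorm u 2 (TP d) ≤ ENNReal.ofReal (A * Y)) :
    eLpNorm u (ENNReal.ofReal q) (TP d) ≤
      ENNReal.ofReal (A * (X^(2/q - 1) * Y^(2 - 2/q))) := by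
  have hq0 : 0 < q := by linarith
  have ha : 0 ≤ 2/q - 1 := by
    rw [sub_nonneg, le_div_iff₀ hq0]
    linarith
  have hb : 0 ≤ 2 - 2/q := by
    rw [sub_nonneg, div_le_iff₀ hq0]
    linarith
  refine (h2 d q hq1 hq2 u hu).trans ?_
  calc (eLpNorm u 1 (TP d))^(2/q - 1) * (eLpNorm u 2 (TP d))^(2 - 2/q)
      ≤ (ENNReal.ofReal (A * X))^(2/q - 1) * (ENNReal.ofReal (A * Y))^(2 - 2/q) :=
        mul_le_mul' (ENNReal.rpow_le_rpow h1X ha) (ENNReal.rpow_le_rpow h2Y hb)
    _ = ENNReal.ofReal ((A * X)^(2/q - 1) * (A * Y)^(2 - 2/q)) := by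
        rw [ENNReal.ofReal_rpow_of_nonneg (by positivity) ha,
          ENNReal.ofReal_rpow_of_nonneg (by positivity) hb, ← ENNReal.ofReal_mul (by positivity)]
    _ = _ := by
        congr 1
        rw [Real.mul_rpow hA hX, Real.mul_rpow hA hY]
        have e1 : A^(2/q - 1) * A^(2 - 2/q) = A := by
          rcases eq_or_lt_of_le hA with h | h
          · rw [← h]
            by_cases hz : 2/q - 1 = 0
            · have : 2 - 2/q = 1 := by linarith
              rw [this, Real.rpow_one, mul_zero]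
            · rw [Real.zero_rpow hz, zero_mul]
          · rw [← Real.rpow_add h]
            have : 2/q - 1 + (2 - 2/q) = 1 := by ring
            rw [this, Real.rpow_one]
        calc A^(2/q - 1) * X^(2/q - 1) * (A^(2 - 2/q) * Y^(2 - 2/q))
            = (A^(2/q - 1) * A^(2 - 2/q)) * (X^(2/q - 1) * Y^(2 - 2/q)) := by ring
          _ = _ := by rw [e1]

theorem upq (h1 : S_NET1) (h2 : S_INTQ) (h3 : S_BLQ) (h4 : S_DEC1) (h5 : S_LOWN) (h6 : S_ANN) :
    S_UPQ := by
  classical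
  intro d hd q r hq1 hq2 hqr hr α
  have := TP_prob d
  have hq0 : 0 < q := by linarith
  obtain ⟨C1, hC1, hnet⟩ := h1 d hd r hr α
  obtain ⟨C3, hC3, hblq⟩ := h3 d r α 1 hr.le le_rfl (by norm_num)
  obtain ⟨C4, hC4, hdec⟩ := h4 d hd r α q hr hq1 hq2.le hqr
  obtain ⟨C5, hC5, hlow⟩ := h5 d hd r hr α
  obtain ⟨Z, hZ⟩ : ∃ Z : ℝ, Z = ∑' n : ℕ, (((n + 0 : ℕ) : ℝ)+1)^(d-1) *
      (2:ℝ)^(-((r - 1 + 1/q) * ((n + 0 : ℕ) : ℝ))) := ⟨_, rfl⟩
  have hZ0 : 0 ≤ Z := by rw [hZ]; exact tsum_nonneg fun n => by positivity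
  have hann : ∀ μ : ℕ, ((lev d μ).card : ℝ) ≤ ((μ:ℝ)+1)^(d-1) := fun μ => (h6 d hd μ).1
  have hone : ∀ (s : Fin d → ℕ) (φ : (Fin d → ℝ) → ℂ), MemLp φ 1 (TP d) →
      eLpNorm φ 1 (TP d) ≤ 1 →
      eLpNorm (op r α s φ) 1 (TP d) ≤ ENNReal.ofReal (C3 * (2:ℝ)^(-(r * ∑ j, (s j : ℝ)))) := by
    intro s φ hφ hφ1
    have e := hblq s φ hφ hφ1
    have e1 : (r - 1 + 1/1) = r := by ring
    rw [e1, ENNReal.ofReal_one] at e
    exact e
  set C0 : ℝ := 1 + C1 + C3 + C4 + C5 + C4 * Z with hC0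
  have hC4Z : 0 ≤ C4 * Z := by positivity
  have hC0p : 0 < C0 := by rw [hC0]; positivity
  refine ⟨C0, hC0p, ?_, ?_⟩
  · intro k ε hε hsch
    obtain ⟨n0, μs, n1, Ms, M, hn0, hμs, hMs, hM, hbits, herr⟩ := hsch
    obtain ⟨S0, hS0, hS0c, hS0n⟩ := hlow n0
    obtain ⟨S1, hS1, hS1c, hS1n⟩ := hnet (Finset.Ico n0 μs) (μs + 1) Ms (by omega) hMs
      (fun μ hμ => by rw [Finset.mem_Ico] at hμ; omega)
    have hS2ex : ∀ n : ℕ, ∃ S : Finset ((Fin d → ℝ) → ℂ),
        (S.card : ℝ) ≤ Real.exp (C1 * ((n:ℝ)+1) * M n) ∧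
        (∀ g ∈ S, Continuous g ∧ eLpNorm g 1 (TP d) ≤
          ENNReal.ofReal (C1 * (((n:ℝ)+1)^(d-1) * (2:ℝ)^(-(r * n))))) ∧
        ∀ φ : (Fin d → ℝ) → ℂ, MemLp φ 1 (TP d) → eLpNorm φ 1 (TP d) ≤ 1 → ∃ g ∈ S,
          eLpNorm (fun x => lop {n} r α φ x - g x) 2 (TP d) ≤
            ENNReal.ofReal (C1 * Real.sqrt (((2:ℝ)^(-(2 * r * n)) * 2^n * ((n:ℝ)+1)^(d-1)) /
              M n)) := by
      intro n
      obtain ⟨S, a1, a2, a3⟩ := hnet {n} (n + 1) (M n) (by omega) (hM n)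
        (fun μ hμ => by rw [Finset.mem_singleton] at hμ; omega)
      refine ⟨S, ?_, ?_, ?_⟩
      · push_cast at a1
        exact a1
      · intro g hg
        have := a2 g hg
        rw [Finset.sum_singleton] at this
        exact this
      · intro φ hφ hφ1
        have := a3 φ hφ hφ1
        rw [Finset.sum_singleton] at this
        exact this
    choose S2 hS2 hS2c hS2n using hS2ex
    refine upq_cov (S0 ×ˢ S1 ×ˢ Fintype.piFinset (fun i : Fin (n1 - μs) => S2 (μs + i.val)))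
      (fun g x => g.1 x + g.2.1 x + ∑ i, g.2.2 i x) k _ _ _ ?_ ?_ ?_
    · rintro ⟨g0, g1, g2⟩ hg
      rw [Finset.mem_product, Finset.mem_product, Fintype.mem_piFinset] at hg
      obtain ⟨hg0, hg1, hg2⟩ := hg
      refine MemLp.mono_exponent (pig_memLp _ ?_) le_top
      exact ((hS0c g0 hg0).add (hS1c g1 hg1).1).add
        (continuous_finsetSum _ fun i _ => (hS2c _ _ (hg2 i)).1)
    · have e1 : ((S0 ×ˢ S1 ×ˢ Fintype.piFinset
          (fun i : Fin (n1 - μs) => S2 (μs + i.val))).card : ℝ) ≤ (2:ℝ)^k := by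
        rw [Finset.card_product, Finset.card_product, Fintype.card_piFinset]
        push_cast
        have b2 : ∏ i : Fin (n1 - μs), ((S2 (μs + i.val)).card : ℝ) ≤
            Real.exp (∑ n ∈ Finset.Ico μs n1, C0 * ((n:ℝ)+1) * M n) := by
          rw [Finset.sum_Ico_eq_sum_range, Finset.sum_range, Real.exp_sum]
          refine Finset.prod_le_prod (fun i _ => Nat.cast_nonneg _) fun i _ => ?_
          refine (hS2 (μs + i.val)).trans (Real.exp_le_exp.2 ?_)
          have : C1 ≤ C0 := by rw [hC0]; linarith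
          gcongr
        have b0 : (S0.card : ℝ) ≤ Real.exp (C0 * (2^n0 * ((n0:ℝ)+1)^d)) := by
          refine hS0.trans (Real.exp_le_exp.2 ?_)
          have : C5 ≤ C0 := by rw [hC0]; linarith
          gcongr
        have b1 : (S1.card : ℝ) ≤ Real.exp (C0 * ((μs:ℝ)+1) * Ms) := by
          refine hS1.trans (Real.exp_le_exp.2 ?_)
          have : C1 ≤ C0 := by rw [hC0]; linarith
          push_cast
          gcongr
        calc (S0.card : ℝ) * ((S1.card : ℝ) * ∏ i : Fin (n1 - μs), ((S2 (μs + i.val)).card : ℝ))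
            ≤ Real.exp (C0 * (2^n0 * ((n0:ℝ)+1)^d)) * (Real.exp (C0 * ((μs:ℝ)+1) * Ms) *
              Real.exp (∑ n ∈ Finset.Ico μs n1, C0 * ((n:ℝ)+1) * M n)) := by
              gcongr
          _ = Real.exp (C0 * (2^n0 * ((n0:ℝ)+1)^d) + C0 * ((μs:ℝ)+1) * Ms +
              ∑ n ∈ Finset.Ico μs n1, C0 * ((n:ℝ)+1) * M n) := by
              rw [← Real.exp_add, ← Real.exp_add, add_assoc]
          _ ≤ Real.exp (k * Real.log 2) := Real.exp_le_exp.2 hbits
          _ = (2:ℝ)^k := by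
              rw [mul_comm, Real.exp_mul, Real.exp_log (by norm_num), Real.rpow_natCast]
      exact_mod_cast e1
    · rintro f ⟨hf1, φ, hφ, hφ1, hfc⟩
      obtain ⟨g0, hg0, e0⟩ := hS0n φ hφ hφ1
      obtain ⟨g1, hg1, e1⟩ := hS1n φ hφ hφ1
      have hg2ex : ∀ i : Fin (n1 - μs), ∃ g ∈ S2 (μs + i.val),
          eLpNorm (fun x => lop {μs + i.val} r α φ x - g x) 2 (TP d) ≤
            ENNReal.ofReal (C1 * Real.sqrt (((2:ℝ)^(-(2 * r * ((μs + i.val : ℕ) : ℝ))) *
              2^(μs + i.val) * (((μs + i.val : ℕ) : ℝ)+1)^(d-1)) / M (μs + i.val))) :=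
        fun i => hS2n (μs + i.val) φ hφ hφ1
      choose g2 hg2 e2 using hg2ex
      refine ⟨(g0, g1, g2), ?_, ?_⟩
      · rw [Finset.mem_product, Finset.mem_product, Fintype.mem_piFinset]
        exact ⟨hg0, hg1, hg2⟩
      have hQ1 : (1 : ℝ≥0∞) ≤ ENNReal.ofReal q := by
        rw [← ENNReal.ofReal_one]
        exact ENNReal.ofReal_le_ofReal hq1
      have hQ2 : ENNReal.ofReal q ≤ 2 := by
        have : (2 : ℝ≥0∞) = ENNReal.ofReal 2 := by norm_num
        rw [this]
        exact ENNReal.ofReal_le_ofReal hq2.le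
      -- the pieces
      have hm0 : Continuous (fun x => lop (Finset.range n0) r α φ x - g0 x) :=
        (upq_lop_cont _ r α φ).sub (hS0c g0 hg0)
      have hm1 : Continuous (fun x => lop (Finset.Ico n0 μs) r α φ x - g1 x) :=
        (upq_lop_cont _ r α φ).sub (hS1c g1 hg1).1
      have hm2 : ∀ i : Fin (n1 - μs), Continuous (fun x => lop {μs + i.val} r α φ x - g2 i x) :=
        fun i => (upq_lop_cont _ r α φ).sub (hS2c _ _ (hg2 i)).1
      have hmt : AEStronglyMeasurable (fun x => f x - lop (Finset.range n1) r α φ x) (TP d) :=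
        hf1.1.sub (upq_lop_cont _ r α φ).aestronglyMeasurable
      have hdecomp : (fun x => f x - (g0 x + g1 x + ∑ i, g2 i x)) =
          (((fun x => f x - lop (Finset.range n1) r α φ x) +
            (fun x => lop (Finset.range n0) r α φ x - g0 x)) +
            (fun x => lop (Finset.Ico n0 μs) r α φ x - g1 x)) +
            ∑ i : Fin (n1 - μs), (fun x => lop {μs + i.val} r α φ x - g2 i x) := by
        funext x
        simp only [Pi.add_apply, Finset.sum_apply, Finset.sum_sub_distrib]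
        rw [upq_lop_split n0 μs n1 hn0 hμs]
        ring
      -- the four errors
      have t0 : eLpNorm (fun x => f x - lop (Finset.range n1) r α φ x) (ENNReal.ofReal q) (TP d) ≤
          ENNReal.ofReal (C0 * ∑' n : ℕ, (((n + n1 : ℕ) : ℝ)+1)^(d-1) *
            (2:ℝ)^(-((r - 1 + 1/q) * ((n + n1 : ℕ) : ℝ)))) := by
        refine (hdec f φ hf1 hφ hφ1 hfc n1).trans (ENNReal.ofReal_le_ofReal ?_)
        have : C4 ≤ C0 := by rw [hC0]; linarith
        exact mul_le_mul_of_nonneg_right this (tsum_nonneg fun n => by positivity)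
      have t1 : eLpNorm (fun x => lop (Finset.range n0) r α φ x - g0 x) (ENNReal.ofReal q)
          (TP d) ≤ ENNReal.ofReal (C0 * (2:ℝ)^(-(n0:ℝ))) := by
        refine (eLpNorm_le_eLpNorm_of_exponent_le hQ2 hm0.aestronglyMeasurable).trans
          (e0.trans (ENNReal.ofReal_le_ofReal ?_))
        have : 1 ≤ C0 := by rw [hC0]; linarith
        exact le_mul_of_one_le_left (by positivity) this
      have t2 : eLpNorm (fun x => lop (Finset.Ico n0 μs) r α φ x - g1 x) (ENNReal.ofReal q)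
          (TP d) ≤ ENNReal.ofReal (C0 * Real.sqrt ((∑ n ∈ Finset.Ico n0 μs,
            (2:ℝ)^(-(2 * r * n)) * 2^n * ((n:ℝ)+1)^(d-1)) / Ms)) := by
        refine (eLpNorm_le_eLpNorm_of_exponent_le hQ2 hm1.aestronglyMeasurable).trans
          (e1.trans (ENNReal.ofReal_le_ofReal ?_))
        have : C1 ≤ C0 := by rw [hC0]; linarith
        gcongr
      have t3 : ∀ i : Fin (n1 - μs), eLpNorm (fun x => lop {μs + i.val} r α φ x - g2 i x)
          (ENNReal.ofReal q) (TP d) ≤ ENNReal.ofReal (C0 *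
          (((((μs + i.val : ℕ):ℝ)+1)^(d-1) * (2:ℝ)^(-(r * ((μs + i.val : ℕ):ℝ))))^(2/q - 1) *
          (Real.sqrt ((2:ℝ)^(-(2 * r * ((μs + i.val : ℕ):ℝ))) * 2^(μs + i.val) *
            (((μs + i.val : ℕ):ℝ)+1)^(d-1) / M (μs + i.val)))^(2 - 2/q))) := by
        intro i
        refine upq_interp q hq1 hq2.le h2 _ (hm2 i).aestronglyMeasurable C0 _ _ hC0p.le
          (by positivity) (by positivity) ?_ ?_
        · have a1 := upq_one r α C3 hC3 hann hone (μs + i.val) φ hφ hφ1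
          have a2 := (hS2c _ _ (hg2 i)).2
          have a3 : eLpNorm (fun x => lop {μs + i.val} r α φ x - g2 i x) 1 (TP d) ≤
              eLpNorm (lop {μs + i.val} r α φ) 1 (TP d) + eLpNorm (g2 i) 1 (TP d) :=
            eLpNorm_sub_le (upq_lop_cont _ r α φ).aestronglyMeasurable
              (hS2c _ _ (hg2 i)).1.aestronglyMeasurable le_rfl
          refine a3.trans ((add_le_add a1 a2).trans ?_)
          rw [← ENNReal.ofReal_add (by positivity) (by positivity)]
          apply ENNReal.ofReal_le_ofReal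
          rw [← add_mul]
          have : C3 + C1 ≤ C0 := by rw [hC0]; linarith
          exact mul_le_mul_of_nonneg_right this (by positivity)
        · refine (e2 i).trans (ENNReal.ofReal_le_ofReal ?_)
          have : C1 ≤ C0 := by rw [hC0]; linarith
          exact mul_le_mul_of_nonneg_right this (Real.sqrt_nonneg _)
      show eLpNorm (fun x => f x - (g0 x + g1 x + ∑ i, g2 i x)) (ENNReal.ofReal q) (TP d) ≤ _
      rw [hdecomp]
      have hs2 : AEStronglyMeasurable (∑ i : Fin (n1 - μs),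
          (fun x => lop {μs + i.val} r α φ x - g2 i x)) (TP d) :=
        Finset.aestronglyMeasurable_sum _ fun i _ => (hm2 i).aestronglyMeasurable
      refine (eLpNorm_add_le ((hmt.add hm0.aestronglyMeasurable).add hm1.aestronglyMeasurable)
        hs2 hQ1).trans ?_
      have u1 := eLpNorm_add_le (hmt.add hm0.aestronglyMeasurable) hm1.aestronglyMeasurable hQ1
      have u2 := eLpNorm_add_le hmt hm0.aestronglyMeasurable hQ1
      have u3 : eLpNorm (∑ i : Fin (n1 - μs), (fun x => lop {μs + i.val} r α φ x - g2 i x))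
          (ENNReal.ofReal q) (TP d) ≤ ENNReal.ofReal (C0 * ∑ n ∈ Finset.Ico μs n1,
            (((n:ℝ)+1)^(d-1) * (2:ℝ)^(-(r * n)))^(2/q - 1) *
            (Real.sqrt ((2:ℝ)^(-(2 * r * n)) * 2^n * ((n:ℝ)+1)^(d-1) / M n))^(2 - 2/q)) := by
        refine (eLpNorm_sum_le (fun i _ => (hm2 i).aestronglyMeasurable) hQ1).trans ?_
        refine (Finset.sum_le_sum fun i _ => t3 i).trans ?_
        rw [← ENNReal.ofReal_sum_of_nonneg (fun i _ => by positivity), ← Finset.mul_sum,
          Finset.sum_Ico_eq_sum_range, Finset.sum_range]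
      refine (add_le_add (u1.trans (add_le_add (u2.trans (add_le_add t0 t1)) t2)) u3).trans ?_
      rw [← ENNReal.ofReal_add (by positivity) (by positivity),
        ← ENNReal.ofReal_add (by positivity) (by positivity),
        ← ENNReal.ofReal_add (by positivity) (by positivity)]
      apply ENNReal.ofReal_le_ofReal
      refine le_trans (le_of_eq ?_) (mul_le_mul_of_nonneg_left herr hC0p.le)
      ring
  · intro k
    refine upq_cov ({fun _ => 0} : Finset ((Fin d → ℝ) → ℂ)) (fun g => g) k _ _ _ ?_ ?_ ?_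
    · intro g hg
      rw [Finset.mem_singleton] at hg
      rw [hg]
      exact MemLp.zero'
    · rw [Finset.card_singleton]
      exact Nat.one_le_two_pow
    · rintro f ⟨hf1, φ, hφ, hφ1, hfc⟩
      refine ⟨fun _ => 0, Finset.mem_singleton_self _, ?_⟩
      have e := hdec f φ hf1 hφ hφ1 hfc 0
      have e1 : (fun x => f x - lop (Finset.range 0) r α φ x) = fun x => f x - 0 := by
        funext x
        unfold lop
        rw [Finset.range_zero, Finset.sum_empty]
      rw [e1, ← hZ] at e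
      refine e.trans (ENNReal.ofReal_le_ofReal ?_)
      rw [hC0]
      linarith

end SmSm
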