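import Pool.Agent.H636R2.SM.SpecQ
open MeasureTheory Real ProbabilityTheory
open scoped ENNReal BigOperators

set_option autoImplicit false

namespace SmSm
open HypVol MWidth

theorem upqb_cov_mono {𝕜 : Type} [RCLike 𝕜] {d : ℕ} {q : ℝ≥0∞} {k : ℕ} {ε ε' : ℝ≥0∞}
    {Θ : Set ((Fin d → ℝ) → 𝕜)} (h : Cov q k ε Θ) (hle : ε ≤ ε') : Cov q k ε' Θ := by
  obtain ⟨c, hc, h⟩ := h
  refine ⟨c, hc, fun f hf => ?_⟩
  obtain ⟨j, hj⟩ := h f hf
  exact ⟨j, hj.trans hle⟩

theorem upqb_min (f : ℕ → ℝ) (hf : ∀ k, 2 ≤ k → 0 < f k) (n : ℕ) :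
    ∃ c : ℝ, 0 < c ∧ ∀ k, 2 ≤ k → k < n → c ≤ f k := by
  induction n with
  | zero => exact ⟨1, one_pos, fun k _ hk => absurd hk (Nat.not_lt_zero _)⟩
  | succ n ih =>
    obtain ⟨c, hc, h⟩ := ih
    by_cases hn : 2 ≤ n
    · refine ⟨min c (f n), lt_min hc (hf n hn), fun k hk hkn => ?_⟩
      rcases Nat.lt_or_ge k n with h1 | h1
      · exact (min_le_left _ _).trans (h k hk h1)
      · have : k = n := by omega
        subst this
        exact min_le_right _ _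
    · exact ⟨1, one_pos, fun k hk hkn => absurd hk (by omega)⟩

theorem upqb (h1 : S_UPQ) (h2 : S_NQB) (h3 : S_ADM) : S_UPQB := by
  intro d hd q hq1 hq2 α
  have hr1 : 1 - 1 / q < 1 / 2 := by
    have h4 : 1 / 2 < 1 / q := one_div_lt_one_div_of_lt (by linarith) hq2
    linarith
  obtain ⟨C0, hC0, hA, hB⟩ := h1 d (by omega) q (1 / 2) hq1 hq2 hr1 (by norm_num) α
  obtain ⟨k0, C, hk0, hC, hS⟩ := h2 d hd q C0 hq1 hq2 hC0
  have hpos := (h3.2 d (by omega)).1
  obtain ⟨c, hc, hcmin⟩ := upqb_min _ hpos k0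
  refine ⟨C0 * C + C0 / c, by positivity, fun k hk => ?_⟩
  have hpk := hpos k hk
  rcases Nat.lt_or_ge k k0 with hlt | hge
  · refine upqb_cov_mono (hB k) (ENNReal.ofReal_le_ofReal ?_)
    have h4 := hcmin k hk hlt
    have h5 : C0 ≤ C0 / c * psiB d k := by
      rw [div_mul_eq_mul_div, le_div_iff₀ hc]
      exact mul_le_mul_of_nonneg_left h4 hC0.le
    have h6 : 0 ≤ C0 * C * psiB d k := by positivity
    rw [add_mul]
    linarith
  · refine upqb_cov_mono (hA k (C * psiB d k) (by positivity) (hS k hge))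
      (ENNReal.ofReal_le_ofReal ?_)
    have h5 : 0 ≤ C0 / c * psiB d k := by positivity
    rw [add_mul, ← mul_assoc]
    linarith

end SmSm
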