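import Pool.Agent.H636R2.SM.ALLH
import Pool.Agent.H636R2.SM.DISC
import Pool.Agent.H636R2.SM.MAUR
import Pool.Agent.H636R2.SM.NET1
import Pool.Agent.H636R2.SM.INTQ
import Pool.Agent.H636R2.SM.BLQ
import Pool.Agent.H636R2.SM.DEC1
import Pool.Agent.H636R2.SM.LOWN
import Pool.Agent.H636R2.SM.NQA
import Pool.Agent.H636R2.SM.NQB
import Pool.Agent.H636R2.SM.UPQ
import Pool.Agent.H636R2.SM.UPQA
import Pool.Agent.H636R2.SM.UPQB
import Pool.Agent.H636R2.SM.SEP2
import Pool.Agent.H636R2.SM.FAM1A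
import Pool.Agent.H636R2.SM.FAM1B
import Pool.Agent.H636R2.SM.PIG1
import Pool.Agent.H636R2.SM.LOWQA0
import Pool.Agent.H636R2.SM.LOWQB0
import Pool.Agent.H636R2.SM.FINQ

/-! All tasks of the fourth part put together. -/

namespace SmSm


theorem q_disc : S_DISC := disc vk_ok
theorem q_net1 : S_NET1 := net1 q_disc maur (vp1 cs) ann_ok vpf
theorem q_blq : S_BLQ := blq (vp1 cs) intq vpf mult
theorem q_dec1 : S_DEC1 := dec1 q_blq vpf ann_ok
theorem q_lown : S_LOWN := lown ann_ok vpf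
theorem q_upq : S_UPQ := upq q_net1 intq q_blq q_dec1 q_lown ann_ok
theorem q_upqa : S_UPQA := upqa q_upq nqa adm
theorem q_upqb : S_UPQB := upqb q_upq nqb adm
theorem q_fam1a : S_FAM1A := fam1a sep2 all_kexp all_phia kmean
theorem q_fam1b : S_FAM1B := fam1b sep2 all_hexp all_phib kmean
theorem q_lowqa0 : S_LOWQA0 := lowqa0 q_fam1a pig1 q_upqa adm
theorem q_lowqb0 : S_LOWQB0 := lowqb0 q_fam1b pig1 q_upqb adm
theorem q_finq : S_FINQ := finq q_lowqa0 q_lowqb0 numla numlb q_upqa q_upqb adm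

end SmSm
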