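import Pool.Agent.H636R2.SM.FAM1L
open MeasureTheory Real ProbabilityTheory
open scoped ENNReal BigOperators

set_option autoImplicit false

/-! FAM1A: family of functions of the class `W^r_1`, one layer -/

namespace SmSm
open HypVol MWidth HypVol.Sol_KX_wf_split

theorem fam1a_big (a : ℝ) (k : ℕ) : ∃ n0 : ℕ, ∀ n ≥ n0, a * ((n:ℝ)+1)^k ≤ 2^n := by
  obtain ⟨n0, hn0⟩ := fama_ev (k+1)
  refine ⟨max n0 ⌈|a|⌉₊, fun n hn => ?_⟩
  have h1 : n0 ≤ n := le_trans (le_max_left _ _) hn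
  have h2 : ⌈|a|⌉₊ ≤ n := le_trans (le_max_right _ _) hn
  have h3 : |a| ≤ n := (Nat.le_ceil _).trans (by exact_mod_cast h2)
  have h4 : a ≤ (n:ℝ)+1 := (le_abs_self a).trans (by linarith)
  have h5 : (((n+1)^(k+1) : ℕ) : ℝ) ≤ ((2^n : ℕ) : ℝ) := by exact_mod_cast hn0 n h1
  push_cast at h5
  calc a * ((n:ℝ)+1)^k ≤ ((n:ℝ)+1) * ((n:ℝ)+1)^k :=
      mul_le_mul_of_nonneg_right h4 (by positivity)
    _ = ((n:ℝ)+1)^(k+1) := by ring
    _ ≤ _ := h5

theorem fam1a (h1 : S_SEP2) (h2 : S_KEXP) (h3 : S_PHIA) (h4 : S_KMEAN) : S_FAM1A := by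
  intro d hd r hr α j hj
  obtain ⟨a, CK, ha, hCK, hK⟩ := h2 d (by omega)
  obtain ⟨CP, hCP, hP⟩ := h3 d (by omega) r hr.le (-α) j hj
  obtain ⟨cs, hcs, hs⟩ := HypVol.shp_lower d (by omega)
  obtain ⟨μ0, hμ0⟩ := fama_num d hd a CK cs ha hCK hcs hs
  have hc00 : 0 < min (a / 400) (cs / 2^d) := lt_min (by positivity) (by positivity)
  generalize min (a / 400) (cs / 2^d) = c0 at hμ0 hc00
  obtain ⟨μ1, hμ1⟩ := fam1a_big (a^2 / (1600 * c0)) d
  refine ⟨min c0 ((1/2)^d * (c0 / 2)), max 1 (10 * CP), max μ0 (max μ1 1),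
    lt_min hc00 (by positivity), lt_of_lt_of_le one_pos (le_max_left _ _), fun μ hμ => ?_⟩
  obtain ⟨m4, M, hM1, hM2, hN0, g1, g2, g3, g4⟩ := hμ0 μ (le_trans (le_max_left _ _) hμ)
  have hμ1' := hμ1 μ (le_trans (le_trans (le_max_left _ _) (le_max_right _ _)) hμ)
  have hj2 : j < 2 ^ j := Nat.lt_two_pow_self
  have hm : 2 * j * 2^μ ≤ 2^((μ + j + 2)+2) := by
    have e : 2^((μ + j + 2)+2) = 2^j * 16 * 2^μ := by ring
    rw [e]
    exact Nat.mul_le_mul_right _ (by omega)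
  have hM0 : (0:ℝ) < M := by exact_mod_cast hM1
  have hκ : ∀ x : GG d (μ + j + 2), ker (d := d) μ 0 0 (gpt x - gpt x) =
      ((layer d μ).card : ℝ) := fun x => by
    rw [sub_self]
    exact fama_ker_zero μ
  have hθ : 0 < a * μ / ((layer d μ).card : ℝ) := by
    have : (0:ℝ) < μ := by exact_mod_cast m4
    positivity
  have hexp : ∀ t : ℝ, |t| = a * μ / ((layer d μ).card : ℝ) → ∀ x : GG d (μ + j + 2),
      ∑ y : GG d (μ + j + 2), Real.exp (t * ker (d := d) μ 0 0 (gpt x - gpt y)) ≤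
      (Fintype.card (GG d (μ + j + 2))) * Real.exp (a * μ / ((layer d μ).card : ℝ) *
        ((layer d μ).card : ℝ) / (16 * M)) := by
    intro t ht x
    have e := hK μ (μ + j + 2) m4 (by omega) t ht.le x
    rw [fama_card]
    refine e.trans (mul_le_mul_of_nonneg_left (Real.exp_le_exp.2 ?_) (by positivity))
    rw [← sq_abs t, ht]
    exact g2
  have hwk : ∀ (r' : ℝ) (α' x : Fin d → ℝ), wker {μ} (fun _ => (1:ℝ)) r' α' x = ker μ r' α' x := by
    intro r' α' x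
    simp [wker]
  have hθκ : a * μ / ((layer d μ).card : ℝ) * ((layer d μ).card : ℝ) = a * μ :=
    div_mul_cancel₀ _ hN0.ne'
  have hμp : (1:ℝ) ≤ μ := by exact_mod_cast m4
  have hθM : a * μ / ((layer d μ).card : ℝ) * ((layer d μ).card : ℝ) ≤ 16 * M := by
    rw [hθκ] at g3 ⊢
    have hp2 : (0:ℝ) < ((μ:ℝ)+1)^(d-2) := by positivity
    rw [div_le_iff₀ hp2] at g3
    rw [div_mul_eq_mul_div, div_le_iff₀ (by positivity)] at hμ1'
    have e1 : ((μ:ℝ)+1)^d = ((μ:ℝ)+1)^(d-2) * ((μ:ℝ)+1)^2 := by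
      rw [← pow_add]
      congr 1
      omega
    rw [e1] at hμ1'
    have h5 : (a * ((μ:ℝ)+1)^2) * (a * ((μ:ℝ)+1)^(d-2)) ≤ (16 * μ * M) * (a * ((μ:ℝ)+1)^(d-2)) := by
      have e2 : (a * ((μ:ℝ)+1)^2) * (a * ((μ:ℝ)+1)^(d-2)) =
          a^2 * (((μ:ℝ)+1)^(d-2) * ((μ:ℝ)+1)^2) := by ring
      rw [e2]
      linarith
    have h6 : a * ((μ:ℝ)+1)^2 ≤ 16 * μ * M := le_of_mul_le_mul_right h5 (by positivity)
    have h7 : (a * μ) * μ ≤ (16 * M) * μ := by
      have h8 : a * (μ:ℝ)^2 ≤ a * ((μ:ℝ)+1)^2 :=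
        mul_le_mul_of_nonneg_left (pow_le_pow_left₀ (by linarith) (by linarith) 2) ha.le
      linarith
    exact le_of_mul_le_mul_right h7 (by linarith)
  have hsym : ∀ x y : GG d (μ + j + 2), ker (d := d) μ 0 0 (gpt x - gpt y) =
      ker (d := d) μ 0 0 (gpt y - gpt x) := by
    intro x y
    rw [f1_ker0, f1_ker0]
    refine Finset.sum_congr rfl fun l _ => ?_
    have e : chi l (gpt y - gpt x) = (starRingEnd ℂ) (chi l (gpt x - gpt y)) := by
      unfold chi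
      rw [← Complex.exp_conj]
      congr 1
      simp only [map_mul, Complex.conj_I, Complex.conj_ofReal, Pi.sub_apply]
      push_cast
      simp only [mul_sub, Finset.sum_sub_distrib]
      ring
    rw [e, Complex.conj_re]
  have hmean : ∀ x : GG d (μ + j + 2), ∑ y : GG d (μ + j + 2),
      ker (d := d) μ 0 0 (gpt x - gpt y) = 0 := by
    intro x
    have e := h4 d (by omega) {μ} (fun _ => 1) 0 0 (μ + j + 2) (fun ν hν => by
      rw [Finset.mem_singleton] at hν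
      subst hν
      exact ⟨m4, by omega⟩) (gpt x)
    simp only [hwk] at e
    exact e
  have hC0 : 0 < CP * ((2:ℝ)^((1 + r) * μ))^(2*j) := by positivity
  have hgood := fama_markov (Ω := Fin M → GG d (μ + j + 2))
    (fun X x => ∑ i, ker μ (-r) α (x - gpt (X i)))
    (∑ _i : Fin M, ∑ k ∈ layer d μ, ‖Fh (-r) α k‖) (CP * ((2:ℝ)^((1 + r) * μ))^(2*j)) j
    (fun X => continuous_finsetSum _ fun i _ =>
      (fama_ker_cont μ (-r) α).comp (continuous_id.sub continuous_const))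
    (fun X x => (Finset.abs_sum_le_sum_abs _ _).trans
      (Finset.sum_le_sum fun i _ => fama_ker_bound μ (-r) α _)) hC0 (fun x => by
      have e := hP μ (μ + j + 2) M m4 hm (by omega) hM2 x
      rw [Fintype.card_fun, Fintype.card_fin]
      push_cast
      simp only [neg_neg] at e
      calc _ ≤ _ := e
        _ = _ := by
          push_cast
          ring)
  obtain ⟨F, hF1, hF2, hF3⟩ := h1 (GG d (μ + j + 2))
    (fun z y => ker (d := d) μ 0 0 (gpt z - gpt y)) ((layer d μ).card : ℝ)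
    (a * μ / ((layer d μ).card : ℝ)) M _ hM1 hN0 hθ g1 hθM hκ hsym hmean
    (hexp _ (abs_of_pos hθ)) (hexp _ (by rw [abs_neg]; exact abs_of_pos hθ)) (by
      rw [Fintype.card_fun, Fintype.card_fin] at hgood
      push_cast at hgood ⊢
      exact hgood)
  have h2p : (0:ℝ) < (2:ℝ)^((1 + r) * μ) := by positivity
  have h2i : (2:ℝ)^(-((1 + r) * μ)) * (2:ℝ)^((1 + r) * μ) = 1 := by
    rw [← Real.rpow_add (by norm_num)]
    simp
  have hA : 2^(μ+1) ≤ (2^(μ+1) - 1) + 1 := by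
    have : 0 < 2^(μ+1) := by positivity
    omega
  refine ⟨F, inferInstance, fun X => f1h (2^(μ+1) - 1) r α (fun i => gpt (X.1 i)),
    fun X => f1phi (2^(μ+1) - 1) (fun i => gpt (X.1 i)),
    fun X x => (2:ℝ)^(-((1 + r) * μ)) * f1G {μ} (fun _ => 1) r α (fun i => gpt (X.1 i)) x,
    ?_, ?_, ?_, ?_, ?_, ?_, ?_, ?_⟩
  · rw [Fintype.card_coe]
    refine (Real.exp_le_exp.2 (le_trans ?_ g3)).trans hF2
    refine div_le_div_of_nonneg_right ?_ (by positivity)
    exact mul_le_mul_of_nonneg_right (min_le_left _ _) (by positivity)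
  · intro X
    exact f1h_int _ _ _ _
  · intro X
    exact f1phi_cont _ _
  · intro X
    exact continuous_const.mul (f1G_cont _ _ _ _ _)
  · intro X
    exact (f1phi_int _ hM1 _).le
  · intro X
    have e := (Finset.mem_filter.1 (hF1 X.2)).2
    have e2 : ∀ x : Fin d → ℝ, ((2:ℝ)^(-((1 + r) * μ)) *
        f1G {μ} (fun _ => 1) r α (fun i => gpt (X.1 i)) x)^(2*j) =
        ((2:ℝ)^(-((1 + r) * μ)))^(2*j) * (∑ i, ker μ (-r) α (x - gpt (X.1 i)))^(2*j) := by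
      intro x
      rw [mul_pow]
      unfold f1G
      simp only [hwk]
    simp only [e2]
    rw [integral_const_mul]
    calc _ ≤ ((2:ℝ)^(-((1 + r) * μ)))^(2*j) * (10 * (CP * ((2:ℝ)^((1 + r) * μ))^(2*j))) :=
        mul_le_mul_of_nonneg_left e (by positivity)
      _ = 10 * CP * ((2:ℝ)^(-((1 + r) * μ)) * (2:ℝ)^((1 + r) * μ))^(2*j) := by
        rw [mul_pow]; ring
      _ = 10 * CP := by rw [h2i, one_pow, mul_one]
      _ ≤ max 1 (10 * CP) := le_max_right _ _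
      _ ≤ _ := le_self_pow₀ (le_max_left _ _) (by omega)
  · intro X k
    exact f1_fc _ _ _ _ _
  · intro X X' hXX
    have e := hF3 X.1 X.2 X'.1 X'.2 fun h => hXX (Subtype.ext h)
    have hp := f1_pair (2^(μ+1) - 1) {μ} (fun _ => (1:ℝ)) (fun _ _ => zero_le_one)
      (fun ν hν => by rw [Finset.mem_singleton] at hν; subst hν; exact hA) r α
      (fun i => gpt (X.1 i)) (fun i => gpt (X'.1 i))
    have e3 : f1E {μ} (fun _ => (1:ℝ)) (fun i => gpt (X.1 i)) (fun i => gpt (X'.1 i)) =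
        ∑ i, ∑ i', (ker (d := d) μ 0 0 (gpt (X.1 i) - gpt (X.1 i')) +
          ker (d := d) μ 0 0 (gpt (X'.1 i) - gpt (X'.1 i')) -
          2 * ker (d := d) μ 0 0 (gpt (X.1 i) - gpt (X'.1 i'))) := by
      unfold f1E
      simp only [hwk]
    rw [e3] at hp
    have e4 : ∀ x : Fin d → ℝ, (f1h (2^(μ+1) - 1) r α (fun i => gpt (X.1 i)) x -
        f1h (2^(μ+1) - 1) r α (fun i => gpt (X'.1 i)) x) *
        ((2:ℝ)^(-((1 + r) * μ)) * f1G {μ} (fun _ => 1) r α (fun i => gpt (X.1 i)) x -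
        (2:ℝ)^(-((1 + r) * μ)) * f1G {μ} (fun _ => 1) r α (fun i => gpt (X'.1 i)) x) =
        (2:ℝ)^(-((1 + r) * μ)) * ((f1h (2^(μ+1) - 1) r α (fun i => gpt (X.1 i)) x -
        f1h (2^(μ+1) - 1) r α (fun i => gpt (X'.1 i)) x) *
        (f1G {μ} (fun _ => 1) r α (fun i => gpt (X.1 i)) x -
        f1G {μ} (fun _ => 1) r α (fun i => gpt (X'.1 i)) x)) := by
      intro x
      ring
    simp only [e4]
    rw [integral_const_mul]
    have e5 : (1/2:ℝ)^d * (c0 / 2 * (2^μ * ((μ:ℝ)+1)^(d-1))) ≤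
        (1/2:ℝ)^d * (1/(M:ℝ)) * (∑ i, ∑ i', (ker (d := d) μ 0 0 (gpt (X.1 i) - gpt (X.1 i')) +
          ker (d := d) μ 0 0 (gpt (X'.1 i) - gpt (X'.1 i')) -
          2 * ker (d := d) μ 0 0 (gpt (X.1 i) - gpt (X'.1 i')))) := by
      rw [mul_assoc ((1/2:ℝ)^d)]
      refine mul_le_mul_of_nonneg_left ?_ (by positivity)
      have e6 := mul_le_mul_of_nonneg_left e (by positivity : (0:ℝ) ≤ 1/(M:ℝ))
      refine le_trans ?_ e6
      have e7 : 1/(M:ℝ) * (M * ((layer d μ).card : ℝ) / 4) = ((layer d μ).card : ℝ) / 4 := by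
        field_simp
      rw [e7]
      linarith
    have e8 : (2:ℝ)^(-((1 + r) * μ)) * 2^μ = (2:ℝ)^(-(r * μ)) := by
      rw [← Real.rpow_natCast, ← Real.rpow_add (by norm_num)]
      congr 1
      ring
    calc min c0 ((1/2)^d * (c0 / 2)) * (2:ℝ)^(-(r * μ)) * ((μ:ℝ)+1)^(d-1)
        ≤ ((1/2)^d * (c0 / 2)) * (2:ℝ)^(-(r * μ)) * ((μ:ℝ)+1)^(d-1) :=
          mul_le_mul_of_nonneg_right (mul_le_mul_of_nonneg_right (min_le_right _ _)
            (by positivity)) (by positivity)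
      _ = (2:ℝ)^(-((1 + r) * μ)) * ((1/2:ℝ)^d * (c0 / 2 * (2^μ * ((μ:ℝ)+1)^(d-1)))) := by
          rw [← e8]; ring
      _ ≤ _ := mul_le_mul_of_nonneg_left (e5.trans hp) (by positivity)

end SmSm
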