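import Pool.Agent.H636R2.SM.Spec
import Pool.Agent.KX.L_wf_split
import Pool.Agent.HypVol.L_TP_prob

/-!
General part of the tasks FAMA and FAMB: from exponential moments of a kernel and moments of the
random functions to a family of functions which are far apart.
-/

open MeasureTheory Real ProbabilityTheory
open scoped ENNReal BigOperators

namespace SmSm
open HypVol MWidth HypVol.Sol_KX_wf_split

/-! ### characters and multipliers -/

theorem famg_chi_eq {d : ℕ} (k : Fin d → ℤ) (x : Fin d → ℝ) : chi k x = wchr k x := rfl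

theorem famg_chi_sub {d : ℕ} (k : Fin d → ℤ) (x y : Fin d → ℝ) :
    chi k (x - y) = chi k x * chi k (-y) := by
  unfold chi
  rw [← Complex.exp_add, ← mul_add, ← Complex.ofReal_add, ← Finset.sum_add_distrib]
  congr 3
  refine Finset.sum_congr rfl ?_
  intro j _
  simp only [Pi.sub_apply, Pi.neg_apply]
  ring

theorem famg_chi_cont {d : ℕ} (k : Fin d → ℤ) : Continuous (chi k) := by
  unfold chi
  fun_prop

theorem famg_chi_norm {d : ℕ} (k : Fin d → ℤ) (x : Fin d → ℝ) : ‖chi k x‖ = 1 := wchr_norm k x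

theorem famg_chi_per {d : ℕ} (k : Fin d → ℤ) (x y : Fin d → ℝ) (l : Fin d) :
    chi k (Function.update x l (x l + 2 * π) - y) = chi k (x - y) := by
  unfold chi
  have h : (∑ j, (k j : ℝ) * (Function.update x l (x l + 2 * π) - y) j) =
      (∑ j, (k j : ℝ) * (x - y) j) + (k l : ℝ) * (2 * π) := by
    have h1 : ∀ j, (k j : ℝ) * (Function.update x l (x l + 2 * π) - y) j =
        (k j : ℝ) * (x - y) j + (if j = l then (k l : ℝ) * (2 * π) else 0) := by
      intro j
      by_cases hj : j = l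
      · subst hj
        simp only [Pi.sub_apply, Function.update_self, if_true]
        ring
      · simp only [Pi.sub_apply, Function.update_of_ne hj, if_neg hj, add_zero]
    rw [Finset.sum_congr rfl fun j _ => h1 j, Finset.sum_add_distrib, Finset.sum_ite_eq']
    simp
  rw [h, Complex.ofReal_add, mul_add, Complex.exp_add]
  have h2 : Complex.exp (Complex.I * (((k l : ℝ) * (2 * π) : ℝ) : ℂ)) = 1 := by
    rw [show Complex.I * (((k l : ℝ) * (2 * π) : ℝ) : ℂ) = (k l : ℂ) * (2 * π * Complex.I) by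
      push_cast; ring]
    exact Complex.exp_int_mul_two_pi_mul_I (k l)
  rw [h2, mul_one]

theorem famg_layer_neg {d n : ℕ} (k : Fin d → ℤ) : -k ∈ layer d n ↔ k ∈ layer d n := by
  rw [wlayer_iff, wlayer_iff]
  unfold wN
  simp

theorem famg_Fh_neg {d : ℕ} (r : ℝ) (α : Fin d → ℝ) (k : Fin d → ℤ) :
    (starRingEnd ℂ) (Fh r α k) = Fh r α (-k) := by
  unfold Fh
  rw [map_prod]
  refine Finset.prod_congr rfl fun j _ => ?_
  have h1 : (-k) j = -(k j) := rfl
  rw [h1]
  by_cases hk : k j = 0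
  · simp [hk]
  · rw [if_neg hk, if_neg (by simpa using hk), map_mul, ← Complex.exp_conj, Complex.conj_ofReal]
    congr 1
    · simp
    · congr 1
      rw [map_neg, map_mul, Complex.conj_I, Complex.conj_ofReal, Left.sign_neg]
      push_cast
      ring

theorem famg_Fh_inv {d : ℕ} (r : ℝ) (α : Fin d → ℝ) (k : Fin d → ℤ) :
    Fh r α k * Fh (-r) (-α) k = 1 := by
  unfold Fh
  rw [← Finset.prod_mul_distrib]
  refine Finset.prod_eq_one fun j _ => ?_
  have he : Complex.exp (-(Complex.I * (((SignType.sign (k j) : ℤ) : ℝ) * α j * π / 2 : ℝ))) *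
      Complex.exp (-(Complex.I * (((SignType.sign (k j) : ℤ) : ℝ) * (-α) j * π / 2 : ℝ))) = 1 := by
    rw [← Complex.exp_add, ← Complex.exp_zero]
    congr 1
    simp only [Pi.neg_apply]
    push_cast
    ring
  by_cases hk : k j = 0
  · rw [if_pos hk, if_pos hk, one_mul]
  · rw [if_neg hk, if_neg hk]
    have hpos : (0 : ℝ) < |(k j : ℝ)| := abs_pos.2 (by exact_mod_cast hk)
    have hm : (((|(k j : ℝ)|)^(-r) : ℝ) : ℂ) * (((|(k j : ℝ)|)^(- -r) : ℝ) : ℂ) = 1 := by
      rw [← Complex.ofReal_mul, ← Real.rpow_add hpos]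
      simp
    calc _ = ((((|(k j : ℝ)|)^(-r) : ℝ) : ℂ) * (((|(k j : ℝ)|)^(- -r) : ℝ) : ℂ)) *
        (Complex.exp (-(Complex.I * (((SignType.sign (k j) : ℤ) : ℝ) * α j * π / 2 : ℝ))) *
        Complex.exp (-(Complex.I * (((SignType.sign (k j) : ℤ) : ℝ) * (-α) j * π / 2 : ℝ)))) := by
          ring
      _ = 1 := by rw [hm, he, one_mul]

theorem famg_Fh_zero {d : ℕ} (k : Fin d → ℤ) : Fh 0 (0 : Fin d → ℝ) k = 1 := by
  unfold Fh
  refine Finset.prod_eq_one fun j _ => ?_
  by_cases hk : k j = 0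
  · simp [hk]
  · simp [hk]

/-- the kernel of a layer is a sum of complex exponentials -/
theorem famg_ker {d : ℕ} (μ : ℕ) (r : ℝ) (α x : Fin d → ℝ) :
    ((ker μ r α x : ℝ) : ℂ) = ∑ k ∈ layer d μ, Fh r α k * chi k x := by
  have h1 : ker μ r α x = (∑ k ∈ layer d μ, Fh r α k * chi k x).re := by
    unfold ker
    rw [Complex.re_sum]
  have h2 : (starRingEnd ℂ) (∑ k ∈ layer d μ, Fh r α k * chi k x) =
      ∑ k ∈ layer d μ, Fh r α k * chi k x := by
    rw [map_sum]
    refine Finset.sum_equiv (Equiv.neg _) (fun k => (famg_layer_neg k).symm) fun k _ => ?_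
    rw [map_mul, famg_Fh_neg, famg_chi_eq, wchr_conj]
    rfl
  rw [h1]
  exact Complex.conj_eq_iff_re.1 h2

theorem famg_ker_cont {d : ℕ} (μ : ℕ) (r : ℝ) (α y : Fin d → ℝ) :
    Continuous (fun x : Fin d → ℝ => ker μ r α (x - y)) := by
  unfold ker
  refine continuous_finsetSum _ fun k _ => Complex.continuous_re.comp ?_
  exact continuous_const.mul ((famg_chi_cont k).comp (continuous_id.sub continuous_const))

theorem famg_wker_cont {d : ℕ} (J : Finset ℕ) (w : ℕ → ℝ) (r : ℝ) (α y : Fin d → ℝ) :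
    Continuous (fun x : Fin d → ℝ => wker J w r α (x - y)) := by
  unfold wker
  exact continuous_finsetSum _ fun μ _ => continuous_const.mul (famg_ker_cont μ r α y)

theorem famg_wker_per {d : ℕ} (J : Finset ℕ) (w : ℕ → ℝ) (r : ℝ) (α x y : Fin d → ℝ)
    (l : Fin d) : wker J w r α (Function.update x l (x l + 2 * π) - y) = wker J w r α (x - y) := by
  unfold wker ker
  simp only [famg_chi_per]

theorem famg_ker_bdd {d : ℕ} (μ : ℕ) (r : ℝ) (α : Fin d → ℝ) (x : Fin d → ℝ) :
    |ker μ r α x| ≤ ∑ k ∈ layer d μ, ‖Fh r α k‖ := by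
  unfold ker
  refine (Finset.abs_sum_le_sum_abs _ _).trans (Finset.sum_le_sum fun k _ => ?_)
  refine (Complex.abs_re_le_norm _).trans ?_
  rw [norm_mul, famg_chi_norm, mul_one]

theorem famg_wker_bdd {d : ℕ} (J : Finset ℕ) (w : ℕ → ℝ) (r : ℝ) (α : Fin d → ℝ)
    (x : Fin d → ℝ) :
    |wker J w r α x| ≤ ∑ μ ∈ J, |w μ| * ∑ k ∈ layer d μ, ‖Fh r α k‖ := by
  unfold wker
  refine (Finset.abs_sum_le_sum_abs _ _).trans (Finset.sum_le_sum fun μ _ => ?_)
  rw [abs_mul]
  exact mul_le_mul_of_nonneg_left (famg_ker_bdd μ r α x) (abs_nonneg _)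

theorem famg_wker_zero {d : ℕ} (J : Finset ℕ) (w : ℕ → ℝ) :
    wker J w 0 (0 : Fin d → ℝ) 0 = ∑ μ ∈ J, w μ * (layer d μ).card := by
  unfold wker ker
  refine Finset.sum_congr rfl fun μ _ => ?_
  congr 1
  have h : ∀ k ∈ layer d μ, (Fh 0 (0 : Fin d → ℝ) k * chi k 0).re = 1 := by
    intro k _
    rw [famg_Fh_zero]
    unfold chi
    simp
  rw [Finset.sum_congr rfl h]
  simp

/-! ### Fourier coefficients -/

theorem famg_integrable {d : ℕ} (k : Fin d → ℤ) (c : ℂ) :
    Integrable (fun x => c * wchr k x) (TP d) := by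
  have := TP_prob d
  refine Integrable.of_bound (C := ‖c‖) ?_ ?_
  · exact (continuous_const.mul (wchr_cont k)).aestronglyMeasurable
  · refine Filter.Eventually.of_forall fun x => ?_
    rw [norm_mul, wchr_norm, mul_one]

theorem famg_fc {d M : ℕ} (J : Finset ℕ) (w : ℕ → ℝ) (r : ℝ) (α : Fin d → ℝ)
    (P : Fin M → (Fin d → ℝ)) (k₀ : Fin d → ℤ) :
    fc (fun x => ((∑ i, wker J w r α (x - P i) : ℝ) : ℂ)) k₀ =
      (∑ i, ∑ μ ∈ J, if k₀ ∈ layer d μ then (w μ : ℂ) * chi k₀ (-(P i)) else 0) * Fh r α k₀ := by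
  have h1 : ∀ x : Fin d → ℝ, ((∑ i, wker J w r α (x - P i) : ℝ) : ℂ) * wchr (-k₀) x =
      ∑ i, ∑ μ ∈ J, ∑ k ∈ layer d μ,
        ((w μ : ℂ) * (Fh r α k * chi k (-(P i)))) * wchr (k + -k₀) x := by
    intro x
    rw [Complex.ofReal_sum, Finset.sum_mul]
    refine Finset.sum_congr rfl fun i _ => ?_
    unfold wker
    rw [Complex.ofReal_sum, Finset.sum_mul]
    refine Finset.sum_congr rfl fun μ _ => ?_
    rw [Complex.ofReal_mul, famg_ker, Finset.mul_sum, Finset.sum_mul]
    refine Finset.sum_congr rfl fun k _ => ?_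
    rw [famg_chi_sub, wchr_add, famg_chi_eq]
    ring
  rw [wfc]
  simp only [h1]
  rw [integral_finsetSum _ fun i _ => integrable_finsetSum _ fun μ _ =>
    integrable_finsetSum _ fun k _ => famg_integrable _ _, Finset.sum_mul]
  refine Finset.sum_congr rfl fun i _ => ?_
  rw [integral_finsetSum _ fun μ _ => integrable_finsetSum _ fun k _ => famg_integrable _ _,
    Finset.sum_mul]
  refine Finset.sum_congr rfl fun μ _ => ?_
  rw [integral_finsetSum _ fun k _ => famg_integrable _ _]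
  simp only [integral_const_mul, wchr_int]
  have h2 : ∀ k : Fin d → ℤ, (w μ : ℂ) * (Fh r α k * chi k (-(P i))) *
      (if k + -k₀ = 0 then (1 : ℂ) else 0) =
      if k = k₀ then (w μ : ℂ) * (Fh r α k₀ * chi k₀ (-(P i))) else 0 := by
    intro k
    by_cases hk : k = k₀
    · subst hk
      simp
    · rw [if_neg hk, if_neg (fun h => hk (by rwa [← sub_eq_add_neg, sub_eq_zero] at h)), mul_zero]
  simp only [h2]
  rw [Finset.sum_ite_eq']
  by_cases hk : k₀ ∈ layer d μ
  · rw [if_pos hk, if_pos hk]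
    ring
  · rw [if_neg hk, if_neg hk, zero_mul]

/-! ### the general construction -/

theorem famg (h1 : S_SEP) (d : ℕ) (J : Finset ℕ) (w : ℕ → ℝ) (r : ℝ) (α : Fin d → ℝ)
    (j m M : ℕ) (θ B κ ν : ℝ) (hM : 1 ≤ M)
    (hκ : κ = ∑ μ ∈ J, w μ * (layer d μ).card) (hκ0 : 0 < κ) (hθ : 0 < θ) (hθκ : 200 ≤ θ * κ)
    (hexp1 : ∀ x : GG d m, ∑ y : GG d m, Real.exp (θ * wker J w 0 0 (gpt x - gpt y)) ≤
      (Fintype.card (GG d m)) * Real.exp (θ * κ / (16 * M)))
    (hexp2 : ∀ x : GG d m, ∑ y : GG d m, Real.exp (-θ * wker J w 0 0 (gpt x - gpt y)) ≤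
      (Fintype.card (GG d m)) * Real.exp (θ * κ / (16 * M)))
    (hB : 0 < B)
    (hmom : ∀ x : Fin d → ℝ, ∑ X : Fin M → GG d m,
      (∑ i, wker J w (-r) (-α) (x - gpt (X i)))^(2*j) ≤ B * (Fintype.card (GG d m) : ℝ)^M)
    (hν : 10 * B ≤ ν^(2*j)) :
    Fam d r α j (Real.exp (θ * κ * M / 100)) ν (κ / 2) := by
  classical
  have := TP_prob d
  set φ : (Fin M → GG d m) → (Fin d → ℝ) → ℝ :=
    fun X x => ∑ i, wker J w (-r) (-α) (x - gpt (X i)) with hφ
  set f : (Fin M → GG d m) → (Fin d → ℝ) → ℝ :=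
    fun X x => ∑ i, wker J w 0 0 (x - gpt (X i)) with hf
  have hφc : ∀ X, Continuous (φ X) := fun X =>
    continuous_finsetSum _ fun i _ => famg_wker_cont J w (-r) (-α) _
  have hfc : ∀ X, Continuous (f X) := fun X =>
    continuous_finsetSum _ fun i _ => famg_wker_cont J w 0 0 _
  have hφi : ∀ X, Integrable (fun x => (φ X x)^(2*j)) (TP d) := by
    intro X
    refine Integrable.of_bound
      (C := (M * ∑ μ ∈ J, |w μ| * ∑ k ∈ layer d μ, ‖Fh (-r) (-α) k‖)^(2*j))
      ((hφc X).pow _).aestronglyMeasurable (Filter.Eventually.of_forall fun x => ?_)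
    rw [norm_pow]
    refine pow_le_pow_left₀ (norm_nonneg _) ?_ _
    rw [Real.norm_eq_abs]
    refine (Finset.abs_sum_le_sum_abs _ _).trans ?_
    refine (Finset.sum_le_sum fun i _ => famg_wker_bdd J w (-r) (-α) _).trans ?_
    simp
  set good : Finset (Fin M → GG d m) :=
    Finset.univ.filter fun X => ∫ x, (φ X x)^(2*j) ∂(TP d) ≤ 10 * B with hgood
  have hcardM : (Fintype.card (Fin M → GG d m) : ℝ) = (Fintype.card (GG d m) : ℝ)^M := by
    rw [Fintype.card_fun, Fintype.card_fin]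
    push_cast
    rfl
  have hint : ∑ X : Fin M → GG d m, ∫ x, (φ X x)^(2*j) ∂(TP d) ≤
      B * (Fintype.card (GG d m) : ℝ)^M := by
    rw [← integral_finsetSum _ fun X _ => hφi X]
    have h2 : ∫ x, ∑ X : Fin M → GG d m, (φ X x)^(2*j) ∂(TP d) ≤
        ∫ x, B * (Fintype.card (GG d m) : ℝ)^M ∂(TP d) :=
      integral_mono (integrable_finsetSum _ fun X _ => hφi X) (integrable_const _) hmom
    refine h2.trans_eq ?_
    rw [integral_const]
    simp
  have hgc : (9/10 : ℝ) * (Fintype.card (GG d m) : ℝ)^M ≤ good.card := by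
    have h2 : ∑ X : Fin M → GG d m, (if X ∈ good then (0:ℝ) else 10 * B) ≤
        ∑ X : Fin M → GG d m, ∫ x, (φ X x)^(2*j) ∂(TP d) := by
      refine Finset.sum_le_sum fun X _ => ?_
      by_cases hX : X ∈ good
      · rw [if_pos hX]
        refine integral_nonneg fun x => ?_
        rw [pow_mul]
        positivity
      · rw [if_neg hX]
        rw [hgood, Finset.mem_filter] at hX
        push Not at hX
        exact (hX (Finset.mem_univ _)).le
    have h3 : ∑ X : Fin M → GG d m, (if X ∈ good then (0:ℝ) else 10 * B) =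
        10 * B * ((Fintype.card (GG d m) : ℝ)^M - good.card) := by
      have h4 : ∀ X : Fin M → GG d m, (if X ∈ good then (0:ℝ) else 10 * B) =
          10 * B - (if X ∈ good then 10 * B else 0) := by
        intro X
        by_cases hX : X ∈ good <;> simp [hX]
      rw [Finset.sum_congr rfl fun X _ => h4 X, Finset.sum_sub_distrib, Finset.sum_const,
        Finset.sum_ite_mem, Finset.univ_inter, Finset.sum_const, Finset.card_univ, nsmul_eq_mul,
        nsmul_eq_mul, hcardM]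
      ring
    rw [h3] at h2
    have h5 := h2.trans hint
    have h6 : 10 * ((Fintype.card (GG d m) : ℝ)^M - good.card) ≤
        (Fintype.card (GG d m) : ℝ)^M := by
      have : B * (10 * ((Fintype.card (GG d m) : ℝ)^M - good.card)) ≤
          B * (Fintype.card (GG d m) : ℝ)^M := by linarith
      exact le_of_mul_le_mul_left this hB
    linarith
  have hKxx : ∀ x : GG d m, wker J w 0 0 (gpt x - gpt x) = κ := by
    intro x
    rw [sub_self, famg_wker_zero, hκ]
  obtain ⟨F, hFg, hFc, hFs⟩ := h1 (GG d m) (fun x y => wker J w 0 0 (gpt x - gpt y)) κ θ M good hM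
    hκ0 hθ hθκ hKxx hexp1 hexp2 hgc
  refine ⟨{X // X ∈ F}, inferInstance, fun X => f X.1, fun X => φ X.1, ?_, fun X => hfc _,
    fun X => hφc _, ?_, ?_, ?_, ?_⟩
  · rw [Fintype.card_coe]
    exact hFc
  · intro X x l
    rw [hf]
    show ∑ i, wker J w 0 0 (Function.update x l (x l + 2 * π) - gpt (X.1 i)) = _
    exact Finset.sum_congr rfl fun i _ => famg_wker_per J w 0 0 x _ l
  · intro X
    have hX := hFg X.2
    rw [hgood, Finset.mem_filter] at hX
    exact hX.2.trans hν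
  · intro X k
    rw [hf, hφ]
    show fc (fun x => ((∑ i, wker J w 0 0 (x - gpt (X.1 i)) : ℝ) : ℂ)) k =
      Fh r α k * fc (fun x => ((∑ i, wker J w (-r) (-α) (x - gpt (X.1 i)) : ℝ) : ℂ)) k
    rw [famg_fc, famg_fc, famg_Fh_zero, mul_one]
    have h2 := famg_Fh_inv r α k
    rw [mul_left_comm, h2, mul_one]
  · intro X X' hne
    obtain ⟨z, hz⟩ := hFs X.1 X.2 X'.1 X'.2 (fun h => hne (Subtype.ext h))
    exact ⟨gpt z, hz⟩

theorem famg_mono {d : ℕ} {r : ℝ} {α : Fin d → ℝ} {j : ℕ} {K K' ν Δ Δ' : ℝ}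
    (h : Fam d r α j K ν Δ) (hK : K' ≤ K) (hΔ : Δ' ≤ Δ) : Fam d r α j K' ν Δ' := by
  obtain ⟨ι, hι, f, φ, a1, a2, a3, a4, a5, a6, a7⟩ := h
  refine ⟨ι, hι, f, φ, hK.trans a1, a2, a3, a4, a5, a6, fun i i' hne => ?_⟩
  obtain ⟨x, hx⟩ := a7 i i' hne
  exact ⟨x, hΔ.trans hx⟩

end SmSm
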