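import Pool.Agent.H636R2.SM.SpecQ
import Pool.Agent.H636R2.SM.FAMG

/-!
General part of the tasks FAM1A and FAM1B.
-/

open MeasureTheory Real ProbabilityTheory
open scoped ENNReal BigOperators

namespace SmSm
open HypVol MWidth HypVol.Sol_KX_wf_split

/-! ### trigonometric polynomials -/

/-- real trigonometric polynomial with multiplier `Fh r α` -/
noncomputable def fg1T {d : ℕ} (Λ : Finset (Fin d → ℤ)) (c : (Fin d → ℤ) → ℝ) (r : ℝ)
    (α x : Fin d → ℝ) : ℝ := ∑ k ∈ Λ, c k * (Fh r α k * chi k x).re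

theorem fg1T_cont {d : ℕ} (Λ : Finset (Fin d → ℤ)) (c : (Fin d → ℤ) → ℝ) (r : ℝ)
    (α y : Fin d → ℝ) : Continuous (fun x : Fin d → ℝ => fg1T Λ c r α (x - y)) := by
  unfold fg1T
  refine continuous_finsetSum _ fun k _ => continuous_const.mul (Complex.continuous_re.comp ?_)
  exact continuous_const.mul ((famg_chi_cont k).comp (continuous_id.sub continuous_const))

theorem fg1T_C {d : ℕ} (Λ : Finset (Fin d → ℤ)) (c : (Fin d → ℤ) → ℝ) (r : ℝ) (α x : Fin d → ℝ)
    (hΛ : ∀ k, -k ∈ Λ ↔ k ∈ Λ) (hc : ∀ k, c (-k) = c k) :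
    ((fg1T Λ c r α x : ℝ) : ℂ) = ∑ k ∈ Λ, (c k : ℂ) * (Fh r α k * chi k x) := by
  have h1 : fg1T Λ c r α x = (∑ k ∈ Λ, (c k : ℂ) * (Fh r α k * chi k x)).re := by
    unfold fg1T
    rw [Complex.re_sum]
    refine Finset.sum_congr rfl fun k _ => ?_
    rw [Complex.re_ofReal_mul]
  have h2 : (starRingEnd ℂ) (∑ k ∈ Λ, (c k : ℂ) * (Fh r α k * chi k x)) =
      ∑ k ∈ Λ, (c k : ℂ) * (Fh r α k * chi k x) := by
    rw [map_sum]
    refine Finset.sum_equiv (Equiv.neg _) (fun k => (hΛ k).symm) fun k _ => ?_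
    rw [map_mul, map_mul, famg_Fh_neg, famg_chi_eq, wchr_conj, Complex.conj_ofReal]
    show (c k : ℂ) * (Fh r α (-k) * wchr (-k) x) = (c (-k) : ℂ) * (Fh r α (-k) * chi (-k) x)
    rw [hc]
    rfl
  rw [h1]
  exact Complex.conj_eq_iff_re.1 h2

/-- the sum over a configuration -/
theorem fg1_sum {d M : ℕ} (Λ : Finset (Fin d → ℤ)) (c : (Fin d → ℤ) → ℝ) (r : ℝ) (α : Fin d → ℝ)
    (hΛ : ∀ k, -k ∈ Λ ↔ k ∈ Λ) (hc : ∀ k, c (-k) = c k) (P : Fin M → (Fin d → ℝ))
    (x : Fin d → ℝ) :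
    ((∑ i, fg1T Λ c r α (x - P i) : ℝ) : ℂ) =
      ∑ k ∈ Λ, ((c k : ℂ) * Fh r α k * ∑ i, chi k (-(P i))) * wchr k x := by
  rw [Complex.ofReal_sum]
  have h1 : ∀ i : Fin M, ((fg1T Λ c r α (x - P i) : ℝ) : ℂ) =
      ∑ k ∈ Λ, ((c k : ℂ) * Fh r α k * chi k (-(P i))) * wchr k x := by
    intro i
    rw [fg1T_C Λ c r α _ hΛ hc]
    refine Finset.sum_congr rfl fun k _ => ?_
    rw [famg_chi_sub, famg_chi_eq]
    ring
  rw [Finset.sum_congr rfl fun i _ => h1 i, Finset.sum_comm]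
  refine Finset.sum_congr rfl fun k _ => ?_
  rw [Finset.mul_sum, Finset.sum_mul]

theorem fg1_fc {d : ℕ} (Λ : Finset (Fin d → ℤ)) (a : (Fin d → ℤ) → ℂ) (g : (Fin d → ℝ) → ℂ)
    (hg : ∀ x, g x = ∑ k ∈ Λ, a k * wchr k x) (k₀ : Fin d → ℤ) :
    fc g k₀ = if k₀ ∈ Λ then a k₀ else 0 := by
  rw [wfc]
  have h1 : ∀ x : Fin d → ℝ, g x * wchr (-k₀) x = ∑ k ∈ Λ, a k * wchr (k + -k₀) x := by
    intro x
    rw [hg, Finset.sum_mul]
    refine Finset.sum_congr rfl fun k _ => ?_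
    rw [wchr_add]
    ring
  simp only [h1]
  rw [integral_finsetSum _ fun k _ => famg_integrable _ _]
  simp only [integral_const_mul, wchr_int]
  have h2 : ∀ k : Fin d → ℤ, a k * (if k + -k₀ = 0 then (1 : ℂ) else 0) =
      if k = k₀ then a k₀ else 0 := by
    intro k
    by_cases hk : k = k₀
    · subst hk
      simp
    · rw [if_neg hk, if_neg (fun h => hk (by rwa [← sub_eq_add_neg, sub_eq_zero] at h)), mul_zero]
  simp only [h2]
  rw [Finset.sum_ite_eq']

theorem fg1_pair {d : ℕ} (Λ : Finset (Fin d → ℤ)) (a b : (Fin d → ℤ) → ℂ) (U V : (Fin d → ℝ) → ℝ)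
    (hU : ∀ x, ((U x : ℝ) : ℂ) = ∑ k ∈ Λ, a k * wchr k x)
    (hV : ∀ x, ((V x : ℝ) : ℂ) = ∑ k ∈ Λ, b k * wchr k x) :
    ((∫ x, U x * V x ∂(TP d) : ℝ) : ℂ) = ∑ k ∈ Λ, a k * (starRingEnd ℂ) (b k) := by
  rw [← integral_complex_ofReal]
  have h1 : ∀ x : Fin d → ℝ, ((U x * V x : ℝ) : ℂ) =
      ∑ k ∈ Λ, ∑ l ∈ Λ, (a k * (starRingEnd ℂ) (b l)) * wchr (k + -l) x := by
    intro x
    rw [Complex.ofReal_mul, ← Complex.conj_ofReal (V x), hU, hV, map_sum, Finset.sum_mul_sum]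
    refine Finset.sum_congr rfl fun k _ => Finset.sum_congr rfl fun l _ => ?_
    rw [map_mul, wchr_conj, wchr_add]
    ring
  simp only [h1]
  rw [integral_finsetSum _ fun k _ => integrable_finsetSum _ fun l _ => famg_integrable _ _]
  refine Finset.sum_congr rfl fun k hk => ?_
  rw [integral_finsetSum _ fun l _ => famg_integrable _ _]
  simp only [integral_const_mul, wchr_int]
  have h2 : ∀ l : Fin d → ℤ, (a k * (starRingEnd ℂ) (b l)) * (if k + -l = 0 then (1 : ℂ) else 0) =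
      if l = k then a k * (starRingEnd ℂ) (b k) else 0 := by
    intro l
    by_cases hl : l = k
    · subst hl
      simp
    · rw [if_neg hl, if_neg (fun h => hl (by
        rw [← sub_eq_add_neg, sub_eq_zero] at h; exact h.symm)), mul_zero]
  simp only [h2]
  rw [Finset.sum_ite_eq', if_pos hk]

theorem fg1_Fh_conj {d : ℕ} (r : ℝ) (α : Fin d → ℝ) (k : Fin d → ℤ) :
    Fh r α k * (starRingEnd ℂ) (Fh (-r) α k) = 1 := by
  rw [famg_Fh_neg]
  have h1 : Fh (-r) α (-k) = Fh (-r) (-α) k := by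
    unfold Fh
    refine Finset.prod_congr rfl fun j _ => ?_
    have h1 : (-k) j = -(k j) := rfl
    rw [h1]
    by_cases hk : k j = 0
    · simp [hk]
    · rw [if_neg hk, if_neg (by simpa using hk)]
      congr 1
      · simp
      · congr 1
        simp only [Pi.neg_apply]
        rw [Left.sign_neg]
        push_cast
        ring
  rw [h1]
  exact famg_Fh_inv r α k

/-! ### the Fejér kernel -/

/-- the box of the indices of the Fejér sum -/
noncomputable def fg1A (d N : ℕ) : Finset (Fin d → ℤ) := Fintype.piFinset fun _ => Finset.Ico (0:ℤ) N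

/-- the box of the frequencies -/
noncomputable def fg1L (d N : ℕ) : Finset (Fin d → ℤ) := Fintype.piFinset fun _ => Finset.Ioo (-(N:ℤ)) N

theorem fg1L_neg (d N : ℕ) (k : Fin d → ℤ) : -k ∈ fg1L d N ↔ k ∈ fg1L d N := by
  unfold fg1L
  rw [Fintype.mem_piFinset, Fintype.mem_piFinset]
  simp only [Finset.mem_Ioo, Pi.neg_apply]
  exact forall_congr' fun j => by omega

/-- the coefficients of the Fejér kernel -/
noncomputable def fg1r (d N : ℕ) (k : Fin d → ℤ) : ℝ :=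
  (∑ a ∈ fg1A d N, ∑ b ∈ fg1A d N, if a - b = k then (1:ℝ) else 0) / (N:ℝ)^d

theorem fg1r_nonneg (d N : ℕ) (k : Fin d → ℤ) : 0 ≤ fg1r d N k := by
  unfold fg1r
  refine div_nonneg (Finset.sum_nonneg fun a _ => Finset.sum_nonneg fun b _ => ?_) (by positivity)
  split_ifs <;> norm_num

theorem fg1r_neg (d N : ℕ) (k : Fin d → ℤ) : fg1r d N (-k) = fg1r d N k := by
  unfold fg1r
  congr 1
  rw [Finset.sum_comm]
  refine Finset.sum_congr rfl fun a _ => Finset.sum_congr rfl fun b _ => ?_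
  have : b - a = -k ↔ a - b = k := by
    constructor
    · intro h
      rw [← neg_sub, h, neg_neg]
    · intro h
      rw [← h, neg_sub]
  simp only [this]

theorem fg1A_card (d N : ℕ) : ((fg1A d N).card : ℝ) = (N:ℝ)^d := by
  unfold fg1A
  rw [Fintype.card_piFinset]
  simp

theorem fg1r_zero (d N : ℕ) (hN : 1 ≤ N) : fg1r d N 0 = 1 := by
  unfold fg1r
  have h1 : ∀ a ∈ fg1A d N, (∑ b ∈ fg1A d N, if a - b = 0 then (1:ℝ) else 0) = 1 := by
    intro a ha
    have h2 : ∀ b ∈ fg1A d N, (if a - b = 0 then (1:ℝ) else 0) = if b = a then 1 else 0 := by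
      intro b _
      have : a - b = 0 ↔ b = a := by
        rw [sub_eq_zero]; exact eq_comm
      simp only [this]
    rw [Finset.sum_congr rfl h2, Finset.sum_ite_eq', if_pos ha]
  rw [Finset.sum_congr rfl h1, Finset.sum_const, nsmul_eq_mul, mul_one, fg1A_card]
  have : (0:ℝ) < N := by exact_mod_cast hN
  field_simp

theorem fg1r_lower (d n : ℕ) (hn : 1 ≤ n) (k : Fin d → ℤ) (hk : ∀ j, |k j| ≤ n) :
    ((2:ℝ)^d)⁻¹ ≤ fg1r d (2 * n) k := by
  classical
  set B : Finset (Fin d → ℤ) :=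
    Fintype.piFinset fun j => if 0 ≤ k j then Finset.Ico (n:ℤ) (2 * n) else Finset.Ico (0:ℤ) n with hB
  have hBc : (B.card : ℝ) = (n:ℝ)^d := by
    rw [hB, Fintype.card_piFinset]
    have : ∀ j : Fin d, (if 0 ≤ k j then Finset.Ico (n:ℤ) (2 * n) else Finset.Ico (0:ℤ) n).card = n := by
      intro j
      split_ifs
      · rw [Int.card_Ico]
        omega
      · simp
    rw [Finset.prod_congr rfl fun j _ => this j]
    simp
  have hBA : ∀ a ∈ B, a ∈ fg1A d (2 * n) ∧ a - k ∈ fg1A d (2 * n) := by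
    intro a ha
    rw [hB, Fintype.mem_piFinset] at ha
    unfold fg1A
    rw [Fintype.mem_piFinset, Fintype.mem_piFinset]
    refine ⟨fun j => ?_, fun j => ?_⟩
    · have h1 := ha j
      have h2 := abs_le.1 (hk j)
      split_ifs at h1 <;> rw [Finset.mem_Ico] at h1 ⊢ <;> push_cast <;> omega
    · have h1 := ha j
      have h2 := abs_le.1 (hk j)
      rw [Pi.sub_apply]
      split_ifs at h1 <;> rw [Finset.mem_Ico] at h1 ⊢ <;> push_cast <;> omega
  have hsum : (n:ℝ)^d ≤ ∑ a ∈ fg1A d (2 * n), ∑ b ∈ fg1A d (2 * n), if a - b = k then (1:ℝ) else 0 := by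
    have h0 : ∀ a ∈ fg1A d (2 * n), 0 ≤ ∑ b ∈ fg1A d (2 * n), if a - b = k then (1:ℝ) else 0 :=
      fun a _ => Finset.sum_nonneg fun b _ => by split_ifs <;> norm_num
    calc (n:ℝ)^d = ∑ a ∈ B, (1:ℝ) := by rw [Finset.sum_const, nsmul_eq_mul, mul_one, hBc]
      _ ≤ ∑ a ∈ B, ∑ b ∈ fg1A d (2 * n), (if a - b = k then (1:ℝ) else 0) := by
        refine Finset.sum_le_sum fun a ha => ?_
        refine le_trans ?_ (Finset.single_le_sum (f := fun b => if a - b = k then (1:ℝ) else 0)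
          (fun b _ => by split_ifs <;> norm_num) (hBA a ha).2)
        rw [if_pos (by rw [sub_sub_cancel])]
      _ ≤ _ := Finset.sum_le_sum_of_subset_of_nonneg (fun a ha => (hBA a ha).1)
        (fun a ha _ => h0 a ha)
  unfold fg1r
  have hn0 : (0:ℝ) < n := by exact_mod_cast hn
  rw [le_div_iff₀ (by positivity)]
  refine le_trans (le_of_eq ?_) hsum
  push_cast
  rw [mul_pow]
  field_simp

theorem fg1_fejer (d N : ℕ) (x : Fin d → ℝ) : 0 ≤ fg1T (fg1L d N) (fg1r d N) 0 0 x := by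
  have h1 : ((fg1T (fg1L d N) (fg1r d N) 0 0 x : ℝ) : ℂ) =
      (((‖∑ a ∈ fg1A d N, wchr a x‖^2 / (N:ℝ)^d) : ℝ) : ℂ) := by
    rw [fg1T_C _ _ _ _ _ (fg1L_neg d N) (fg1r_neg d N)]
    have h2 : ((‖∑ a ∈ fg1A d N, wchr a x‖^2 : ℝ) : ℂ) =
        ∑ a ∈ fg1A d N, ∑ b ∈ fg1A d N, wchr (a - b) x := by
      rw [← Complex.normSq_eq_norm_sq, ← Complex.mul_conj, map_sum, Finset.sum_mul_sum]
      refine Finset.sum_congr rfl fun a _ => Finset.sum_congr rfl fun b _ => ?_
      rw [wchr_conj, ← wchr_add, sub_eq_add_neg]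
    rw [Complex.ofReal_div, h2]
    have h3 : ∀ k ∈ fg1L d N, ((fg1r d N k : ℝ) : ℂ) * (Fh 0 0 k * chi k x) =
        (∑ a ∈ fg1A d N, ∑ b ∈ fg1A d N, if a - b = k then wchr k x else 0) / (((N:ℝ)^d : ℝ) : ℂ) := by
      intro k _
      rw [famg_Fh_zero, one_mul]
      unfold fg1r
      rw [Complex.ofReal_div, div_mul_eq_mul_div, Complex.ofReal_sum, Finset.sum_mul]
      congr 1
      refine Finset.sum_congr rfl fun a _ => ?_
      rw [Complex.ofReal_sum, Finset.sum_mul]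
      refine Finset.sum_congr rfl fun b _ => ?_
      split_ifs
      · rw [Complex.ofReal_one, one_mul]; rfl
      · rw [Complex.ofReal_zero, zero_mul]
    rw [Finset.sum_congr rfl h3, ← Finset.sum_div]
    congr 1
    rw [Finset.sum_comm]
    refine Finset.sum_congr rfl fun a ha => ?_
    rw [Finset.sum_comm]
    refine Finset.sum_congr rfl fun b hb => ?_
    rw [Finset.sum_ite_eq, if_pos]
    unfold fg1A at ha hb
    unfold fg1L
    rw [Fintype.mem_piFinset] at ha hb ⊢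
    intro j
    have h4 := ha j
    have h5 := hb j
    rw [Finset.mem_Ico] at h4 h5
    rw [Finset.mem_Ioo, Pi.sub_apply]
    omega
  have h2 : fg1T (fg1L d N) (fg1r d N) 0 0 x = ‖∑ a ∈ fg1A d N, wchr a x‖^2 / (N:ℝ)^d := by
    exact_mod_cast h1
  rw [h2]
  positivity

/-! ### the layers -/

/-- the weights of the frequencies -/
noncomputable def fg1W {d : ℕ} (J : Finset ℕ) (w : ℕ → ℝ) (k : Fin d → ℤ) : ℝ := by
  classical exact ∑ μ ∈ J, if k ∈ layer d μ then w μ else 0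

theorem fg1W_neg {d : ℕ} (J : Finset ℕ) (w : ℕ → ℝ) (k : Fin d → ℤ) : fg1W J w (-k) = fg1W J w k := by
  unfold fg1W
  simp only [famg_layer_neg]

theorem fg1W_nonneg {d : ℕ} (J : Finset ℕ) (w : ℕ → ℝ) (hw : ∀ μ ∈ J, 0 ≤ w μ) (k : Fin d → ℤ) :
    0 ≤ fg1W J w k := by
  classical
  unfold fg1W
  refine Finset.sum_nonneg fun μ hμ => ?_
  split_ifs
  · exact hw μ hμ
  · exact le_rfl

theorem fg1_layer_abs {d μ : ℕ} {k : Fin d → ℤ} (hk : k ∈ layer d μ) (j : Fin d) :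
    |k j| < (2:ℤ)^μ := by
  classical
  unfold layer at hk
  rw [Finset.mem_filter, Fintype.mem_piFinset] at hk
  have := hk.1 j
  rw [Finset.mem_Ioo] at this
  exact abs_lt.2 this

theorem fg1W_ne {d : ℕ} (J : Finset ℕ) (w : ℕ → ℝ) (m : ℕ) (hJ : ∀ μ ∈ J, 1 ≤ μ ∧ μ ≤ m)
    (k : Fin d → ℤ) (hk : fg1W J w k ≠ 0) (j : Fin d) : |k j| ≤ ((2^m : ℕ) : ℤ) := by
  classical
  unfold fg1W at hk
  obtain ⟨μ, hμ, h⟩ := Finset.exists_ne_zero_of_sum_ne_zero hk
  have hkl : k ∈ layer d μ := by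
    by_contra hn
    rw [if_neg hn] at h
    exact h rfl
  have h1 := fg1_layer_abs hkl j
  have h2 : (2:ℤ)^μ ≤ 2^m := pow_le_pow_right₀ (by norm_num) (hJ μ hμ).2
  push_cast
  omega

theorem fg1_wker {d : ℕ} (J : Finset ℕ) (w : ℕ → ℝ) (m : ℕ) (hJ : ∀ μ ∈ J, 1 ≤ μ ∧ μ ≤ m) (r : ℝ)
    (α x : Fin d → ℝ) : wker J w r α x = fg1T (fg1L d (2 * 2^m)) (fg1W J w) r α x := by
  classical
  unfold wker fg1T ker
  have h1 : ∀ k : Fin d → ℤ, fg1W J w k * (Fh r α k * chi k x).re =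
      ∑ μ ∈ J, if k ∈ layer d μ then w μ * (Fh r α k * chi k x).re else 0 := by
    intro k
    unfold fg1W
    rw [Finset.sum_mul]
    refine Finset.sum_congr rfl fun μ _ => ?_
    split_ifs <;> simp
  rw [Finset.sum_congr rfl fun k _ => h1 k, Finset.sum_comm]
  refine Finset.sum_congr rfl fun μ hμ => ?_
  rw [Finset.mul_sum, ← Finset.sum_filter]
  refine Finset.sum_congr ?_ fun _ _ => rfl
  ext k
  rw [Finset.mem_filter]
  constructor
  · intro hk
    refine ⟨?_, hk⟩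
    unfold fg1L
    rw [Fintype.mem_piFinset]
    intro j
    have h1 := fg1_layer_abs hk j
    have h2 : (2:ℤ)^μ ≤ 2^m := pow_le_pow_right₀ (by norm_num) (hJ μ hμ).2
    rw [Finset.mem_Ioo]
    rw [abs_lt] at h1
    have h3 : (0:ℤ) < 2^m := by positivity
    push_cast
    omega
  · exact fun hk => hk.2

/-- the energy -/
theorem fg1_energy {d M : ℕ} (Λ : Finset (Fin d → ℤ)) (c : (Fin d → ℤ) → ℝ)
    (P P' : Fin M → (Fin d → ℝ)) :
    ∑ i, ∑ i', (fg1T Λ c 0 0 (P i - P i') + fg1T Λ c 0 0 (P' i - P' i') -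
      2 * fg1T Λ c 0 0 (P i - P' i')) =
    ∑ k ∈ Λ, c k * ‖(∑ i, chi k (-(P i))) - ∑ i, chi k (-(P' i))‖^2 := by
  have key : ∀ (A B : Fin M → (Fin d → ℝ)), ∑ i, ∑ i', fg1T Λ c 0 0 (A i - B i') =
      ∑ k ∈ Λ, c k * ((starRingEnd ℂ) (∑ i, chi k (-(A i))) * ∑ i, chi k (-(B i))).re := by
    intro A B
    unfold fg1T
    have h1 : ∀ i : Fin M, ∑ i', ∑ k ∈ Λ, c k * (Fh 0 0 k * chi k (A i - B i')).re =
        ∑ k ∈ Λ, ∑ i', c k * (Fh 0 0 k * chi k (A i - B i')).re := fun i => Finset.sum_comm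
    rw [Finset.sum_congr rfl fun i _ => h1 i, Finset.sum_comm]
    refine Finset.sum_congr rfl fun k _ => ?_
    have h2 : ∀ i i' : Fin M, c k * (Fh 0 0 k * chi k (A i - B i')).re =
        c k * ((starRingEnd ℂ) (chi k (-(A i))) * chi k (-(B i'))).re := by
      intro i i'
      rw [famg_Fh_zero, one_mul, famg_chi_sub]
      congr 3
      rw [famg_chi_eq, famg_chi_eq, wchr_conj]
      unfold wchr
      congr 3
      refine Finset.sum_congr rfl fun j _ => ?_
      simp only [Pi.neg_apply]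
      push_cast
      ring
    rw [Finset.sum_congr rfl fun i _ => Finset.sum_congr rfl fun i' _ => h2 i i']
    have h3 : ∀ i : Fin M, ∑ i', c k * ((starRingEnd ℂ) (chi k (-(A i))) * chi k (-(B i'))).re =
        c k * ((starRingEnd ℂ) (chi k (-(A i))) * ∑ i', chi k (-(B i'))).re := by
      intro i
      conv_rhs => rw [Finset.mul_sum, Complex.re_sum, Finset.mul_sum]
    rw [Finset.sum_congr rfl fun i _ => h3 i, ← Finset.mul_sum, map_sum, Finset.sum_mul,
      Complex.re_sum]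
  simp only [Finset.sum_sub_distrib, Finset.sum_add_distrib, ← Finset.mul_sum]
  rw [key, key, key, Finset.mul_sum, ← Finset.sum_add_distrib, ← Finset.sum_sub_distrib]
  refine Finset.sum_congr rfl fun k _ => ?_
  set S := ∑ i, chi k (-(P i))
  set S' := ∑ i, chi k (-(P' i))
  rw [← Complex.normSq_eq_norm_sq, Complex.normSq_apply]
  simp only [Complex.mul_re, Complex.conj_re, Complex.conj_im, Complex.sub_re, Complex.sub_im]
  ring

theorem fg1T_sq_bdd {d : ℕ} (Λ : Finset (Fin d → ℤ)) (c : (Fin d → ℤ) → ℝ) (r : ℝ)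
    (α x : Fin d → ℝ) : |fg1T Λ c r α x| ≤ ∑ k ∈ Λ, |c k| * ‖Fh r α k‖ := by
  unfold fg1T
  refine (Finset.abs_sum_le_sum_abs _ _).trans (Finset.sum_le_sum fun k _ => ?_)
  rw [abs_mul]
  refine mul_le_mul_of_nonneg_left ?_ (abs_nonneg _)
  refine (Complex.abs_re_le_norm _).trans ?_
  rw [norm_mul, famg_chi_norm, mul_one]

theorem fg1_sum_integrable {d M : ℕ} (Λ : Finset (Fin d → ℤ)) (c : (Fin d → ℤ) → ℝ) (r : ℝ)
    (α : Fin d → ℝ) (P : Fin M → (Fin d → ℝ)) :
    Integrable (fun x => ∑ i, fg1T Λ c r α (x - P i)) (TP d) := by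
  have := TP_prob d
  refine Integrable.of_bound (C := M * ∑ k ∈ Λ, |c k| * ‖Fh r α k‖) ?_
    (Filter.Eventually.of_forall fun x => ?_)
  · exact (continuous_finsetSum _ fun i _ => fg1T_cont Λ c r α _).aestronglyMeasurable
  · rw [Real.norm_eq_abs]
    refine (Finset.abs_sum_le_sum_abs _ _).trans ?_
    refine (Finset.sum_le_sum fun i _ => fg1T_sq_bdd Λ c r α _).trans ?_
    simp

/-! ### the general construction -/

theorem fam1g (h1 : S_SEP2) (h4 : S_KMEAN) (d : ℕ) (hd : 1 ≤ d) (J : Finset ℕ) (w : ℕ → ℝ)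
    (hw : ∀ μ ∈ J, 0 ≤ w μ) (r : ℝ) (α : Fin d → ℝ) (j m M : ℕ) (θ B κ ν b : ℝ) (hM : 1 ≤ M)
    (hJ : ∀ μ ∈ J, 1 ≤ μ ∧ μ ≤ m)
    (hκ : κ = ∑ μ ∈ J, w μ * (layer d μ).card) (hκ0 : 0 < κ) (hθ : 0 < θ) (hθκ : 200 ≤ θ * κ)
    (hθM : θ * κ ≤ 16 * M)
    (hexp1 : ∀ x : GG d m, ∑ y : GG d m, Real.exp (θ * wker J w 0 0 (gpt x - gpt y)) ≤
      (Fintype.card (GG d m)) * Real.exp (θ * κ / (16 * M)))
    (hexp2 : ∀ x : GG d m, ∑ y : GG d m, Real.exp (-θ * wker J w 0 0 (gpt x - gpt y)) ≤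
      (Fintype.card (GG d m)) * Real.exp (θ * κ / (16 * M)))
    (hB : 0 < B)
    (hmom : ∀ x : Fin d → ℝ, ∑ X : Fin M → GG d m,
      (∑ i, wker J w (-r) α (x - gpt (X i)))^(2*j) ≤ B * (Fintype.card (GG d m) : ℝ)^M)
    (hb : 0 < b) (hν : 10 * B * b^(2*j) ≤ ν^(2*j)) :
    Fam1 d r α j (Real.exp (θ * κ * M / 100)) ν (b * κ / (4 * 2^d)) := by
  classical
  have := TP_prob d
  set N : ℕ := 2 * 2^m with hN
  set Λ := fg1L d N with hΛ
  have hM0 : (0:ℝ) < M := by exact_mod_cast hM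
  -- the functions
  set G : (Fin M → GG d m) → (Fin d → ℝ) → ℝ :=
    fun X x => ∑ i, wker J w (-r) α (x - gpt (X i)) with hG
  set g : (Fin M → GG d m) → (Fin d → ℝ) → ℝ :=
    fun X x => ∑ i, fg1T Λ (fun k => b * fg1W J w k) (-r) α (x - gpt (X i)) with hg
  set φ : (Fin M → GG d m) → (Fin d → ℝ) → ℝ :=
    fun X x => ∑ i, fg1T Λ (fun k => fg1r d N k / M) 0 0 (x - gpt (X i)) with hφ
  set h : (Fin M → GG d m) → (Fin d → ℝ) → ℝ :=
    fun X x => ∑ i, fg1T Λ (fun k => fg1r d N k / M) r α (x - gpt (X i)) with hh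
  have hcr : ∀ k, (fun k => fg1r d N k / M) (-k) = (fun k => fg1r d N k / M) k := fun k => by
    show fg1r d N (-k) / M = fg1r d N k / M
    rw [fg1r_neg]
  have hcw : ∀ k, (fun k => b * fg1W (d := d) J w k) (-k) = (fun k => b * fg1W J w k) k := fun k => by
    show b * fg1W J w (-k) = b * fg1W J w k
    rw [fg1W_neg]
  have hgG : ∀ X x, g X x = b * G X x := by
    intro X x
    rw [hg, hG]
    show ∑ i, fg1T Λ (fun k => b * fg1W J w k) (-r) α (x - gpt (X i)) =
      b * ∑ i, wker J w (-r) α (x - gpt (X i))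
    rw [Finset.mul_sum]
    refine Finset.sum_congr rfl fun i _ => ?_
    rw [fg1_wker J w m hJ]
    unfold fg1T
    rw [Finset.mul_sum]
    refine Finset.sum_congr rfl fun k _ => ?_
    ring
  have hGc : ∀ X, Continuous (G X) := fun X =>
    continuous_finsetSum _ fun i _ => famg_wker_cont J w (-r) α _
  have hGi : ∀ X, Integrable (fun x => (G X x)^(2*j)) (TP d) := by
    intro X
    refine Integrable.of_bound
      (C := (M * ∑ μ ∈ J, |w μ| * ∑ k ∈ layer d μ, ‖Fh (-r) α k‖)^(2*j))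
      ((hGc X).pow _).aestronglyMeasurable (Filter.Eventually.of_forall fun x => ?_)
    rw [norm_pow]
    refine pow_le_pow_left₀ (norm_nonneg _) ?_ _
    rw [Real.norm_eq_abs]
    refine (Finset.abs_sum_le_sum_abs _ _).trans ?_
    refine (Finset.sum_le_sum fun i _ => famg_wker_bdd J w (-r) α _).trans ?_
    simp
  set good : Finset (Fin M → GG d m) :=
    Finset.univ.filter fun X => ∫ x, (G X x)^(2*j) ∂(TP d) ≤ 10 * B with hgood
  have hcardM : (Fintype.card (Fin M → GG d m) : ℝ) = (Fintype.card (GG d m) : ℝ)^M := by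
    rw [Fintype.card_fun, Fintype.card_fin]
    push_cast
    rfl
  have hint : ∑ X : Fin M → GG d m, ∫ x, (G X x)^(2*j) ∂(TP d) ≤
      B * (Fintype.card (GG d m) : ℝ)^M := by
    rw [← integral_finsetSum _ fun X _ => hGi X]
    have h2 : ∫ x, ∑ X : Fin M → GG d m, (G X x)^(2*j) ∂(TP d) ≤
        ∫ x, B * (Fintype.card (GG d m) : ℝ)^M ∂(TP d) :=
      integral_mono (integrable_finsetSum _ fun X _ => hGi X) (integrable_const _) hmom
    refine h2.trans_eq ?_
    rw [integral_const]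
    simp
  have hgc : (9/10 : ℝ) * (Fintype.card (GG d m) : ℝ)^M ≤ good.card := by
    have h2 : ∑ X : Fin M → GG d m, (if X ∈ good then (0:ℝ) else 10 * B) ≤
        ∑ X : Fin M → GG d m, ∫ x, (G X x)^(2*j) ∂(TP d) := by
      refine Finset.sum_le_sum fun X _ => ?_
      by_cases hX : X ∈ good
      · rw [if_pos hX]
        refine integral_nonneg fun x => ?_
        rw [pow_mul]
        positivity
      · rw [if_neg hX]
        rw [hgood, Finset.mem_filter] at hX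
        push Not at hX
        exact (hX (Finset.mem_univ _)).le
    have h3 : ∑ X : Fin M → GG d m, (if X ∈ good then (0:ℝ) else 10 * B) =
        10 * B * ((Fintype.card (GG d m) : ℝ)^M - good.card) := by
      have h4 : ∀ X : Fin M → GG d m, (if X ∈ good then (0:ℝ) else 10 * B) =
          10 * B - (if X ∈ good then 10 * B else 0) := by
        intro X
        by_cases hX : X ∈ good <;> simp [hX]
      rw [Finset.sum_congr rfl fun X _ => h4 X, Finset.sum_sub_distrib, Finset.sum_const,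
        Finset.sum_ite_mem, Finset.univ_inter, Finset.sum_const, Finset.card_univ, nsmul_eq_mul,
        nsmul_eq_mul, hcardM]
      ring
    rw [h3] at h2
    have h5 := h2.trans hint
    have h6 : 10 * ((Fintype.card (GG d m) : ℝ)^M - good.card) ≤
        (Fintype.card (GG d m) : ℝ)^M := by
      have : B * (10 * ((Fintype.card (GG d m) : ℝ)^M - good.card)) ≤
          B * (Fintype.card (GG d m) : ℝ)^M := by linarith
      exact le_of_mul_le_mul_left this hB
    linarith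
  have hKxx : ∀ x : GG d m, wker J w 0 0 (gpt x - gpt x) = κ := by
    intro x
    rw [sub_self, famg_wker_zero, hκ]
  have hKsym : ∀ x y : GG d m, wker J w 0 0 (gpt x - gpt y) = wker J w 0 0 (gpt y - gpt x) := by
    intro x y
    rw [fg1_wker J w m hJ, fg1_wker J w m hJ]
    unfold fg1T
    refine Finset.sum_congr rfl fun k _ => ?_
    congr 1
    rw [famg_Fh_zero, one_mul, one_mul, ← Complex.conj_re (chi k (gpt y - gpt x))]
    congr 1
    rw [famg_chi_eq, famg_chi_eq, wchr_conj]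
    unfold wchr
    congr 3
    refine Finset.sum_congr rfl fun j _ => ?_
    simp only [Pi.neg_apply, Pi.sub_apply]
    push_cast
    ring
  have hKmean : ∀ x : GG d m, ∑ y : GG d m, wker J w 0 0 (gpt x - gpt y) = 0 :=
    fun x => h4 d hd J w 0 0 m hJ (gpt x)
  obtain ⟨F, hFg, hFc, hFs⟩ := h1 (GG d m) (fun x y => wker J w 0 0 (gpt x - gpt y)) κ θ M good hM
    hκ0 hθ hθκ hθM hKxx hKsym hKmean hexp1 hexp2 hgc
  refine ⟨{X // X ∈ F}, inferInstance, fun X => h X.1, fun X => φ X.1, fun X => g X.1, ?_,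
    fun X => fg1_sum_integrable _ _ _ _ _,
    fun X => continuous_finsetSum _ fun i _ => fg1T_cont _ _ _ _ _,
    fun X => continuous_finsetSum _ fun i _ => fg1T_cont _ _ _ _ _, ?_, ?_, ?_, ?_⟩
  · rw [Fintype.card_coe]
    exact hFc
  · intro X
    -- the integral of `|φ|`
    have hnn : ∀ x, 0 ≤ φ X.1 x := by
      intro x
      refine Finset.sum_nonneg fun i _ => ?_
      have h5 : fg1T Λ (fun k => fg1r d N k / M) 0 0 (x - gpt (X.1 i)) =
          fg1T Λ (fg1r d N) 0 0 (x - gpt (X.1 i)) / M := by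
        unfold fg1T
        rw [Finset.sum_div]
        refine Finset.sum_congr rfl fun k _ => ?_
        ring
      rw [h5]
      exact div_nonneg (fg1_fejer d N _) hM0.le
    have h5 : ∫ x, |φ X.1 x| ∂(TP d) = ∫ x, φ X.1 x ∂(TP d) :=
      integral_congr_ae (Filter.Eventually.of_forall fun x => abs_of_nonneg (hnn x))
    have h6 := fg1_fc Λ _ (fun x => ((φ X.1 x : ℝ) : ℂ))
      (fun x => fg1_sum Λ (fun k => fg1r d N k / M) 0 0 (fg1L_neg d N) hcr (fun i => gpt (X.1 i)) x) 0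
    have h7 : (0 : Fin d → ℤ) ∈ Λ := by
      rw [hΛ]
      unfold fg1L
      rw [Fintype.mem_piFinset]
      intro j
      rw [Finset.mem_Ioo]
      have : 0 < N := by rw [hN]; positivity
      simp only [Pi.zero_apply]
      omega
    rw [if_pos h7, wfc] at h6
    have h8 : ∀ x : Fin d → ℝ, wchr (-(0 : Fin d → ℤ)) x = 1 := by
      intro x
      unfold wchr
      simp
    have h9 : ∀ i : Fin M, chi (0 : Fin d → ℤ) (-(gpt (X.1 i))) = 1 := by
      intro i
      unfold chi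
      simp
    simp only [h8, mul_one, h9, famg_Fh_zero] at h6
    rw [integral_complex_ofReal] at h6
    rw [fg1r_zero d N (by rw [hN]; exact Nat.one_le_iff_ne_zero.2 (by positivity))] at h6
    simp only [Finset.sum_const, Finset.card_univ, Fintype.card_fin, nsmul_eq_mul, mul_one] at h6
    have h10 : ((∫ x, φ X.1 x ∂(TP d) : ℝ) : ℂ) = ((1 : ℝ) : ℂ) := by
      rw [h6]
      push_cast
      have : (M : ℂ) ≠ 0 := by exact_mod_cast hM0.ne'
      field_simp
    rw [h5]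
    exact le_of_eq (by exact_mod_cast h10)
  · intro X
    have hX := hFg X.2
    rw [hgood, Finset.mem_filter] at hX
    have h5 : ∀ x, (g X.1 x)^(2*j) = b^(2*j) * (G X.1 x)^(2*j) := by
      intro x
      rw [hgG, mul_pow]
    simp only [h5]
    rw [integral_const_mul]
    calc b^(2*j) * ∫ x, (G X.1 x)^(2*j) ∂(TP d) ≤ b^(2*j) * (10 * B) := by
          gcongr
          exact hX.2
      _ = 10 * B * b^(2*j) := by ring
      _ ≤ ν^(2*j) := hν
  · intro X k
    have e1 := fg1_fc Λ _ (fun x => ((h X.1 x : ℝ) : ℂ))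
      (fun x => fg1_sum Λ (fun k => fg1r d N k / M) r α (fg1L_neg d N) hcr (fun i => gpt (X.1 i)) x) k
    have e2 := fg1_fc Λ _ (fun x => ((φ X.1 x : ℝ) : ℂ))
      (fun x => fg1_sum Λ (fun k => fg1r d N k / M) 0 0 (fg1L_neg d N) hcr (fun i => gpt (X.1 i)) x) k
    show fc (fun x => ((h X.1 x : ℝ) : ℂ)) k = Fh r α k * fc (fun x => ((φ X.1 x : ℝ) : ℂ)) k
    rw [e1, e2]
    split_ifs
    · rw [famg_Fh_zero]
      ring
    · rw [mul_zero]
  · intro X X' hne
    have hs := hFs X.1 X.2 X'.1 X'.2 (fun h => hne (Subtype.ext h))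
    set S : (Fin d → ℤ) → ℂ := fun k => ∑ i, chi k (-(gpt (X.1 i))) with hS
    set S' : (Fin d → ℤ) → ℂ := fun k => ∑ i, chi k (-(gpt (X'.1 i))) with hS'
    -- pairing
    have hU : ∀ x, (((h X.1 x - h X'.1 x) : ℝ) : ℂ) =
        ∑ k ∈ Λ, (((fg1r d N k / M : ℝ) : ℂ) * Fh r α k * (S k - S' k)) * wchr k x := by
      intro x
      rw [Complex.ofReal_sub]
      have e1 := fg1_sum Λ (fun k => fg1r d N k / M) r α (fg1L_neg d N) hcr (fun i => gpt (X.1 i)) x
      have e2 := fg1_sum Λ (fun k => fg1r d N k / M) r α (fg1L_neg d N) hcr (fun i => gpt (X'.1 i)) x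
      rw [hh]
      show ((∑ i, fg1T Λ (fun k => fg1r d N k / M) r α (x - gpt (X.1 i)) : ℝ) : ℂ) -
        ((∑ i, fg1T Λ (fun k => fg1r d N k / M) r α (x - gpt (X'.1 i)) : ℝ) : ℂ) = _
      rw [e1, e2, ← Finset.sum_sub_distrib]
      refine Finset.sum_congr rfl fun k _ => ?_
      ring
    have hV : ∀ x, (((g X.1 x - g X'.1 x) : ℝ) : ℂ) =
        ∑ k ∈ Λ, (((b * fg1W J w k : ℝ) : ℂ) * Fh (-r) α k * (S k - S' k)) * wchr k x := by
      intro x
      rw [Complex.ofReal_sub]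
      have e1 := fg1_sum Λ (fun k => b * fg1W J w k) (-r) α (fg1L_neg d N) hcw (fun i => gpt (X.1 i)) x
      have e2 := fg1_sum Λ (fun k => b * fg1W J w k) (-r) α (fg1L_neg d N) hcw (fun i => gpt (X'.1 i)) x
      rw [hg]
      show ((∑ i, fg1T Λ (fun k => b * fg1W J w k) (-r) α (x - gpt (X.1 i)) : ℝ) : ℂ) -
        ((∑ i, fg1T Λ (fun k => b * fg1W J w k) (-r) α (x - gpt (X'.1 i)) : ℝ) : ℂ) = _
      rw [e1, e2, ← Finset.sum_sub_distrib]
      refine Finset.sum_congr rfl fun k _ => ?_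
      ring
    have hp := fg1_pair Λ _ _ _ _ hU hV
    have hp2 : (∫ x, (h X.1 x - h X'.1 x) * (g X.1 x - g X'.1 x) ∂(TP d)) =
        ∑ k ∈ Λ, (fg1r d N k / M) * (b * fg1W J w k) * ‖S k - S' k‖^2 := by
      have : ((∫ x, (h X.1 x - h X'.1 x) * (g X.1 x - g X'.1 x) ∂(TP d) : ℝ) : ℂ) =
          ((∑ k ∈ Λ, (fg1r d N k / M) * (b * fg1W J w k) * ‖S k - S' k‖^2 : ℝ) : ℂ) := by
        rw [hp, Complex.ofReal_sum]
        refine Finset.sum_congr rfl fun k _ => ?_
        rw [map_mul, map_mul, Complex.conj_ofReal]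
        have e3 := fg1_Fh_conj r α k
        have e4 : (S k - S' k) * (starRingEnd ℂ) (S k - S' k) = ((‖S k - S' k‖^2 : ℝ) : ℂ) := by
          rw [Complex.mul_conj, Complex.normSq_eq_norm_sq]
        calc ((fg1r d N k / M : ℝ) : ℂ) * Fh r α k * (S k - S' k) *
            (((b * fg1W J w k : ℝ) : ℂ) * (starRingEnd ℂ) (Fh (-r) α k) *
              (starRingEnd ℂ) (S k - S' k)) =
            ((fg1r d N k / M : ℝ) : ℂ) * ((b * fg1W J w k : ℝ) : ℂ) *
              (Fh r α k * (starRingEnd ℂ) (Fh (-r) α k)) *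
              ((S k - S' k) * (starRingEnd ℂ) (S k - S' k)) := by ring
          _ = _ := by
            rw [e3, e4]
            push_cast
            ring
      exact_mod_cast this
    have hen := fg1_energy Λ (fg1W J w) (fun i => gpt (X.1 i)) (fun i => gpt (X'.1 i))
    have hen2 : M * κ / 4 ≤ ∑ k ∈ Λ, fg1W J w k * ‖S k - S' k‖^2 := by
      refine hs.trans (le_of_eq ?_)
      refine Eq.trans ?_ hen
      refine Finset.sum_congr rfl fun i _ => Finset.sum_congr rfl fun i' _ => ?_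
      show wker J w 0 0 _ + wker J w 0 0 _ - 2 * wker J w 0 0 _ = _
      rw [fg1_wker J w m hJ, fg1_wker J w m hJ, fg1_wker J w m hJ]
    show b * κ / (4 * 2^d) ≤ ∫ x, (h X.1 x - h X'.1 x) * (g X.1 x - g X'.1 x) ∂(TP d)
    rw [hp2]
    have hterm : ∀ k ∈ Λ, (b / (M * 2^d)) * (fg1W J w k * ‖S k - S' k‖^2) ≤
        (fg1r d N k / M) * (b * fg1W J w k) * ‖S k - S' k‖^2 := by
      intro k _
      by_cases hk : fg1W J w k = 0
      · rw [hk]
        simp
      · have hlow := fg1r_lower d (2^m) Nat.one_le_two_pow k (fg1W_ne J w m hJ k hk)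
        have hW := fg1W_nonneg J w hw k
        calc (b / (M * 2^d)) * (fg1W J w k * ‖S k - S' k‖^2) =
            (((2:ℝ)^d)⁻¹ / M) * (b * fg1W J w k) * ‖S k - S' k‖^2 := by
              field_simp
          _ ≤ (fg1r d N k / M) * (b * fg1W J w k) * ‖S k - S' k‖^2 := by
              gcongr
    calc b * κ / (4 * 2^d) = (b / (M * 2^d)) * (M * κ / 4) := by
          field_simp
      _ ≤ (b / (M * 2^d)) * ∑ k ∈ Λ, fg1W J w k * ‖S k - S' k‖^2 := by gcongr
      _ = ∑ k ∈ Λ, (b / (M * 2^d)) * (fg1W J w k * ‖S k - S' k‖^2) := by rw [Finset.mul_sum]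
      _ ≤ _ := Finset.sum_le_sum hterm

theorem fam1g_mono {d : ℕ} {r : ℝ} {α : Fin d → ℝ} {j : ℕ} {K K' ν Δ Δ' : ℝ}
    (h : Fam1 d r α j K ν Δ) (hK : K' ≤ K) (hΔ : Δ' ≤ Δ) : Fam1 d r α j K' ν Δ' := by
  obtain ⟨ι, hι, h', φ, g, a1, a2, a3, a4, a5, a6, a7, a8⟩ := h
  exact ⟨ι, hι, h', φ, g, hK.trans a1, a2, a3, a4, a5, a6, a7, fun i i' hne =>
    hΔ.trans (a8 i i' hne)⟩

end SmSm
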