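import Pool.Agent.H636R2.SM.SpecQ
import Pool.Agent.H636R2.SM.FAMA
import Pool.Agent.H636R2.SM.VK
open MeasureTheory Real ProbabilityTheory
open scoped ENNReal BigOperators

set_option autoImplicit false

/-! FAM1L: the test families of FAM1A and FAM1B (general window `J`, weights `w`) -/

namespace SmSm
open HypVol MWidth HypVol.Sol_KX_wf_split

/-- frequencies of the product Fejér kernel -/
noncomputable def f1cube (d A : ℕ) : Finset (Fin d → ℤ) :=
  Fintype.piFinset (fun _ => Finset.Ioo (-((A:ℤ)+1)) ((A:ℤ)+1))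

/-- coefficients of the product Fejér kernel -/
noncomputable def f1rho {d : ℕ} (A : ℕ) (k : Fin d → ℤ) : ℝ := ∏ j, (1 - |(k j : ℝ)| / ((A:ℝ)+1))

/-- product Fejér kernel -/
noncomputable def f1F {d : ℕ} (A : ℕ) (x : Fin d → ℝ) : ℝ := ∏ j, VKa.GG (A+1) (x j)

/-- averages of the Fejér kernels -/
noncomputable def f1phi {d M : ℕ} (A : ℕ) (X : Fin M → Fin d → ℝ) (x : Fin d → ℝ) : ℝ :=
  (1/(M:ℝ)) * ∑ i, f1F A (x - X i)

/-- Fourier coefficients of `f1phi` -/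
noncomputable def f1c {d M : ℕ} (A : ℕ) (X : Fin M → Fin d → ℝ) (k : Fin d → ℤ) : ℂ :=
  (1/(M:ℂ)) * ((f1rho A k : ℂ) * ∑ i, chi k (-(X i)))

/-- the functions of the class -/
noncomputable def f1h {d M : ℕ} (A : ℕ) (r : ℝ) (α : Fin d → ℝ) (X : Fin M → Fin d → ℝ)
    (x : Fin d → ℝ) : ℝ := (∑ k ∈ f1cube d A, (Fh r α k * f1c A X k) * chi k x).re

/-- the test functions -/
noncomputable def f1G {d M : ℕ} (J : Finset ℕ) (w : ℕ → ℝ) (r : ℝ) (α : Fin d → ℝ)
    (X : Fin M → Fin d → ℝ) (x : Fin d → ℝ) : ℝ := ∑ i, wker J w (-r) α (x - X i)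

theorem f1_ek_chi {d : ℕ} (k : Fin d → ℤ) (x : Fin d → ℝ) :
    ∏ j, VKa.ek (k j) (x j) = chi k x := by
  unfold VKa.ek chi
  rw [← Complex.exp_sum, ← Finset.mul_sum]
  push_cast
  rfl

theorem f1F_eq {d : ℕ} (A : ℕ) (x : Fin d → ℝ) :
    ((f1F A x : ℝ) : ℂ) = ∑ k ∈ f1cube d A, (f1rho A k : ℂ) * chi k x := by
  unfold f1F f1cube
  rw [Complex.ofReal_prod]
  simp_rw [VKa.fejer]
  rw [Finset.prod_univ_sum]
  refine Finset.sum_congr rfl fun k _ => ?_
  rw [Finset.prod_mul_distrib, f1_ek_chi]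
  unfold f1rho
  rw [Complex.ofReal_prod]

theorem f1F_nonneg {d : ℕ} (A : ℕ) (x : Fin d → ℝ) : 0 ≤ f1F A x :=
  Finset.prod_nonneg fun _ _ => VKa.GG_nonneg _ _

theorem f1F_cont {d : ℕ} (A : ℕ) : Continuous (f1F (d := d) A) := by
  unfold f1F
  exact continuous_finsetProd _ fun j _ => (VKa.GG_cont _).comp (continuous_apply j)

theorem f1phi_cont {d M : ℕ} (A : ℕ) (X : Fin M → Fin d → ℝ) : Continuous (f1phi A X) := by
  unfold f1phi
  exact continuous_const.mul (continuous_finsetSum _ fun i _ =>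
    (f1F_cont A).comp (continuous_id.sub continuous_const))

theorem f1phi_nonneg {d M : ℕ} (A : ℕ) (X : Fin M → Fin d → ℝ) (x : Fin d → ℝ) :
    0 ≤ f1phi A X x :=
  mul_nonneg (by positivity) (Finset.sum_nonneg fun _ _ => f1F_nonneg _ _)

theorem f1phi_eq {d M : ℕ} (A : ℕ) (X : Fin M → Fin d → ℝ) (x : Fin d → ℝ) :
    ((f1phi A X x : ℝ) : ℂ) = ∑ k ∈ f1cube d A, f1c A X k * chi k x := by
  unfold f1phi f1c
  push_cast
  simp only [f1F_eq, fama_chi_sub]
  rw [Finset.sum_comm, Finset.mul_sum]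
  refine Finset.sum_congr rfl fun k _ => ?_
  rw [Finset.mul_sum, Finset.mul_sum, Finset.mul_sum, Finset.sum_mul]
  refine Finset.sum_congr rfl fun i _ => ?_
  ring

theorem f1cube_neg {d A : ℕ} {k : Fin d → ℤ} (hk : k ∈ f1cube d A) : -k ∈ f1cube d A := by
  unfold f1cube at *
  rw [Fintype.mem_piFinset] at *
  intro j
  have := hk j
  rw [Finset.mem_Ioo] at *
  rw [Pi.neg_apply]
  omega

theorem f1rho_neg {d : ℕ} (A : ℕ) (k : Fin d → ℤ) : f1rho A (-k) = f1rho A k := by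
  unfold f1rho
  refine Finset.prod_congr rfl fun j _ => ?_
  rw [Pi.neg_apply, Int.cast_neg, abs_neg]

theorem f1c_conj {d M : ℕ} (A : ℕ) (X : Fin M → Fin d → ℝ) (k : Fin d → ℤ) :
    (starRingEnd ℂ) (f1c A X k) = f1c A X (-k) := by
  unfold f1c
  rw [map_mul, map_mul, Complex.conj_ofReal, map_sum, f1rho_neg]
  simp only [fama_chi_neg, map_div₀, map_one, map_natCast]

/-- a symmetric trigonometric polynomial is real -/
theorem f1_real {d : ℕ} (Λ : Finset (Fin d → ℤ)) (hΛ : ∀ k ∈ Λ, -k ∈ Λ) (c : (Fin d → ℤ) → ℂ)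
    (hc : ∀ k, (starRingEnd ℂ) (c k) = c (-k)) (x : Fin d → ℝ) :
    (((∑ k ∈ Λ, c k * chi k x).re : ℝ) : ℂ) = ∑ k ∈ Λ, c k * chi k x := by
  have h1 : ∀ z : ℂ, ((z.re : ℝ) : ℂ) = (z + (starRingEnd ℂ) z) / 2 := by
    intro z
    rw [Complex.add_conj]
    push_cast
    ring
  rw [h1, map_sum]
  have h2 : ∑ k ∈ Λ, (starRingEnd ℂ) (c k * chi k x) = ∑ k ∈ Λ, c k * chi k x := by
    refine Finset.sum_nbij' (fun k => -k) (fun k => -k) hΛ hΛ (fun k _ => neg_neg k)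
      (fun k _ => neg_neg k) fun k _ => ?_
    rw [map_mul, hc, fama_chi_neg]
  rw [h2]
  ring

theorem f1h_eq {d M : ℕ} (A : ℕ) (r : ℝ) (α : Fin d → ℝ) (X : Fin M → Fin d → ℝ)
    (x : Fin d → ℝ) : ((f1h A r α X x : ℝ) : ℂ) =
      ∑ k ∈ f1cube d A, (Fh r α k * f1c A X k) * chi k x := by
  unfold f1h
  refine f1_real (f1cube d A) (fun k hk => f1cube_neg hk) (fun k => Fh r α k * f1c A X k) ?_ x
  intro k
  rw [map_mul, fama_Fh_conj, f1c_conj]

theorem f1h_cont {d M : ℕ} (A : ℕ) (r : ℝ) (α : Fin d → ℝ) (X : Fin M → Fin d → ℝ) :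
    Continuous (f1h A r α X) := by
  unfold f1h chi
  fun_prop

theorem f1_chi_norm {d : ℕ} (k : Fin d → ℤ) (x : Fin d → ℝ) : ‖chi k x‖ = 1 := by
  rw [fama_chi, wchr_norm]

theorem f1h_bound {d M : ℕ} (A : ℕ) (r : ℝ) (α : Fin d → ℝ) (X : Fin M → Fin d → ℝ)
    (x : Fin d → ℝ) : |f1h A r α X x| ≤ ∑ k ∈ f1cube d A, ‖Fh r α k * f1c A X k‖ := by
  unfold f1h
  refine (Complex.abs_re_le_norm _).trans ((norm_sum_le _ _).trans
    (Finset.sum_le_sum fun k _ => ?_))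
  rw [norm_mul, f1_chi_norm, mul_one]

theorem f1h_int {d M : ℕ} (A : ℕ) (r : ℝ) (α : Fin d → ℝ) (X : Fin M → Fin d → ℝ) :
    Integrable (f1h A r α X) (TP d) := by
  have := TP_prob d
  exact Integrable.of_bound (f1h_cont A r α X).aestronglyMeasurable _
    (Filter.Eventually.of_forall fun x => f1h_bound A r α X x)

theorem f1_fc {d M : ℕ} (A : ℕ) (r : ℝ) (α : Fin d → ℝ) (X : Fin M → Fin d → ℝ)
    (k : Fin d → ℤ) : fc (fun x => (f1h A r α X x : ℂ)) k =
      Fh r α k * fc (fun x => (f1phi A X x : ℂ)) k := by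
  simp only [f1h_eq, f1phi_eq]
  rw [fama_fc_sum (f1cube d A) (fun k => Fh r α k * f1c A X k) k,
    fama_fc_sum (f1cube d A) (f1c A X) k]
  split_ifs
  · rfl
  · rw [mul_zero]

theorem f1phi_int {d M : ℕ} (A : ℕ) (hM : 1 ≤ M) (X : Fin M → Fin d → ℝ) :
    ∫ x, |f1phi A X x| ∂(TP d) = 1 := by
  have hM0 : (M : ℂ) ≠ 0 := by
    have : M ≠ 0 := by omega
    exact_mod_cast this
  have h1 : ∀ x, |f1phi A X x| = f1phi A X x := fun x => abs_of_nonneg (f1phi_nonneg A X x)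
  simp only [h1]
  have h2 : ((∫ x, f1phi A X x ∂(TP d) : ℝ) : ℂ) = 1 := by
    rw [← integral_complex_ofReal]
    have h3 := fama_fc_sum (f1cube d A) (f1c A X) 0
    have h4 : fc (fun x => ∑ l ∈ f1cube d A, f1c A X l * chi l x) 0 =
        ∫ x, ((f1phi A X x : ℝ) : ℂ) ∂(TP d) := by
      unfold fc
      refine integral_congr_ae (Filter.Eventually.of_forall fun x => ?_)
      simp only [f1phi_eq]
      simp
    have h5 : (0 : Fin d → ℤ) ∈ f1cube d A := by
      unfold f1cube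
      rw [Fintype.mem_piFinset]
      intro j
      rw [Finset.mem_Ioo, Pi.zero_apply]
      omega
    rw [if_pos h5] at h3
    rw [← h4, h3]
    unfold f1c f1rho chi
    simp [hM0]
  exact_mod_cast h2

theorem f1_Fh_neg {d : ℕ} (r : ℝ) (α : Fin d → ℝ) (k : Fin d → ℤ) :
    Fh r α (-k) = Fh r (-α) k := by
  unfold Fh
  refine Finset.prod_congr rfl fun j _ => ?_
  have h1 : (-k) j = -(k j) := rfl
  rw [h1]
  by_cases h : k j = 0
  · simp [h]
  · have h2 : -(k j) ≠ 0 := neg_ne_zero.2 h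
    rw [if_neg h, if_neg h2]
    congr 2
    · push_cast
      rw [abs_neg]
    · rw [Left.sign_neg, Pi.neg_apply]
      push_cast
      ring

/-- difference of the exponential sums -/
noncomputable def f1D {d M : ℕ} (X X' : Fin M → Fin d → ℝ) (k : Fin d → ℤ) : ℂ :=
  ∑ i, chi k (-(X i)) - ∑ i, chi k (-(X' i))

theorem f1D_conj {d M : ℕ} (X X' : Fin M → Fin d → ℝ) (k : Fin d → ℤ) :
    (starRingEnd ℂ) (f1D X X' k) = f1D X X' (-k) := by
  unfold f1D
  rw [map_sub, map_sum, map_sum]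
  simp only [fama_chi_neg]

theorem f1_chi_cont {d : ℕ} (k : Fin d → ℤ) : Continuous (chi k) := by
  unfold chi
  fun_prop

/-- Parseval for two trigonometric polynomials -/
theorem f1_pars {d : ℕ} (Λ Γ : Finset (Fin d → ℤ)) (a b : (Fin d → ℤ) → ℂ)
    (hΓ : ∀ l ∈ Γ, -l ∈ Λ) :
    ∫ x, (∑ k ∈ Λ, a k * chi k x) * (∑ l ∈ Γ, b l * chi l x) ∂(TP d) =
      ∑ l ∈ Γ, a (-l) * b l := by
  have := TP_prob d
  have h1 : ∀ x : Fin d → ℝ, (∑ k ∈ Λ, a k * chi k x) * (∑ l ∈ Γ, b l * chi l x) =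
      ∑ l ∈ Γ, b l * ((∑ k ∈ Λ, a k * chi k x) *
        Complex.exp (-(Complex.I * ((∑ j, (((-l) j : ℤ) : ℝ) * x j : ℝ) : ℂ)))) := by
    intro x
    rw [Finset.mul_sum]
    refine Finset.sum_congr rfl fun l _ => ?_
    have h2 : chi l x = Complex.exp (-(Complex.I * ((∑ j, (((-l) j : ℤ) : ℝ) * x j : ℝ) : ℂ))) := by
      rw [← wchr_neg, neg_neg]
      rfl
    rw [← h2]
    ring
  simp only [h1]
  rw [integral_finsetSum]
  · refine Finset.sum_congr rfl fun l hl => ?_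
    rw [integral_const_mul]
    have h3 := fama_fc_sum Λ a (-l)
    unfold fc at h3
    rw [h3, if_pos (hΓ l hl)]
    ring
  · intro l _
    refine Integrable.const_mul ?_ _
    refine Integrable.of_bound (C := ∑ k ∈ Λ, ‖a k‖) ?_ ?_
    · refine Continuous.aestronglyMeasurable ?_
      refine Continuous.mul (continuous_finsetSum _ fun k _ =>
        continuous_const.mul (f1_chi_cont k)) ?_
      fun_prop
    · refine Filter.Eventually.of_forall fun x => ?_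
      rw [norm_mul, ← wchr_neg, wchr_norm, mul_one]
      refine (norm_sum_le _ _).trans (Finset.sum_le_sum fun k _ => ?_)
      rw [norm_mul, f1_chi_norm, mul_one]

theorem f1_pair_layer {d M : ℕ} (A μ : ℕ) (hA : 2^(μ+1) ≤ A+1) (r : ℝ) (α : Fin d → ℝ)
    (X X' : Fin M → Fin d → ℝ) :
    ∫ x, (f1h A r α X x - f1h A r α X' x) *
      (∑ i, ker μ (-r) α (x - X i) - ∑ i, ker μ (-r) α (x - X' i)) ∂(TP d) =
      (1/(M:ℝ)) * ∑ l ∈ layer d μ, f1rho A l * ‖f1D X X' l‖^2 := by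
  have hsub : ∀ l ∈ layer d μ, -l ∈ f1cube d A := by
    classical
    intro l hl
    have h1 := fama_layer_neg hl
    unfold layer at h1
    rw [Finset.mem_filter, Fintype.mem_piFinset] at h1
    unfold f1cube
    rw [Fintype.mem_piFinset]
    intro j
    have h2 := h1.1 j
    rw [Finset.mem_Ioo] at h2 ⊢
    have h3 : (2:ℤ)^(μ+1) ≤ (A:ℤ)+1 := by exact_mod_cast hA
    have h4 : (0:ℤ) < 2^μ := by positivity
    rw [pow_succ] at h3
    omega
  have e1 : ∀ x : Fin d → ℝ, ((f1h A r α X x - f1h A r α X' x : ℝ) : ℂ) =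
      ∑ k ∈ f1cube d A, (Fh r α k * ((1/(M:ℂ)) * ((f1rho A k : ℂ) * f1D X X' k))) * chi k x := by
    intro x
    rw [Complex.ofReal_sub, f1h_eq, f1h_eq, ← Finset.sum_sub_distrib]
    refine Finset.sum_congr rfl fun k _ => ?_
    unfold f1c f1D
    ring
  have e2 : ∀ x : Fin d → ℝ, ((∑ i, ker μ (-r) α (x - X i) - ∑ i, ker μ (-r) α (x - X' i) : ℝ) : ℂ) =
      ∑ l ∈ layer d μ, (Fh (-r) α l * f1D X X' l) * chi l x := by
    intro x
    push_cast
    simp only [fama_ker, fama_chi_sub]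
    rw [Finset.sum_comm, Finset.sum_comm (s := Finset.univ), ← Finset.sum_sub_distrib]
    refine Finset.sum_congr rfl fun l _ => ?_
    unfold f1D
    rw [mul_sub, sub_mul, Finset.mul_sum, Finset.mul_sum, Finset.sum_mul, Finset.sum_mul]
    congr 1
    · exact Finset.sum_congr rfl fun i _ => by ring
    · exact Finset.sum_congr rfl fun i _ => by ring
  have h1 : ((∫ x, (f1h A r α X x - f1h A r α X' x) *
      (∑ i, ker μ (-r) α (x - X i) - ∑ i, ker μ (-r) α (x - X' i)) ∂(TP d) : ℝ) : ℂ) =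
      (((1/(M:ℝ)) * ∑ l ∈ layer d μ, f1rho A l * ‖f1D X X' l‖^2 : ℝ) : ℂ) := by
    rw [← integral_complex_ofReal]
    have h2 : ∀ x : Fin d → ℝ, (((f1h A r α X x - f1h A r α X' x) *
        (∑ i, ker μ (-r) α (x - X i) - ∑ i, ker μ (-r) α (x - X' i)) : ℝ) : ℂ) =
        (∑ k ∈ f1cube d A, (Fh r α k * ((1/(M:ℂ)) * ((f1rho A k : ℂ) * f1D X X' k))) * chi k x) *
        (∑ l ∈ layer d μ, (Fh (-r) α l * f1D X X' l) * chi l x) := by
      intro x
      rw [Complex.ofReal_mul, e1, e2]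
    simp only [h2]
    rw [f1_pars (f1cube d A) (layer d μ)
      (fun k => Fh r α k * ((1/(M:ℂ)) * ((f1rho A k : ℂ) * f1D X X' k)))
      (fun l => Fh (-r) α l * f1D X X' l) hsub]
    push_cast
    rw [Finset.mul_sum]
    refine Finset.sum_congr rfl fun l _ => ?_
    have h3 : Fh r α (-l) * Fh (-r) α l = 1 := by
      rw [f1_Fh_neg]
      have := fama_Fh_inv r (-α) l
      rwa [neg_neg] at this
    have h4 : f1D X X' (-l) * f1D X X' l = ((‖f1D X X' l‖ : ℝ) : ℂ)^2 := by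
      rw [← f1D_conj, Complex.conj_mul']
    rw [f1rho_neg]
    calc _ = (Fh r α (-l) * Fh (-r) α l) * ((1/(M:ℂ)) * ((f1rho A l : ℂ) *
        (f1D X X' (-l) * f1D X X' l))) := by ring
      _ = _ := by rw [h3, h4]; ring
  exact_mod_cast h1

theorem f1_rho_ge {d : ℕ} (A μ : ℕ) (hA : 2^(μ+1) ≤ A+1) {l : Fin d → ℤ} (hl : l ∈ layer d μ) :
    (1/2:ℝ)^d ≤ f1rho A l := by
  classical
  unfold layer at hl
  rw [Finset.mem_filter, Fintype.mem_piFinset] at hl
  unfold f1rho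
  have h1 : (1/2:ℝ)^d = ∏ _j : Fin d, (1/2:ℝ) := by simp
  rw [h1]
  refine Finset.prod_le_prod (fun _ _ => by norm_num) fun j _ => ?_
  have h2 := hl.1 j
  rw [Finset.mem_Ioo] at h2
  have h3 : |(l j : ℝ)| ≤ 2^μ := by
    have h4 : |l j| ≤ 2^μ := abs_le.2 ⟨by omega, by omega⟩
    have h5 : ((|l j| : ℤ) : ℝ) ≤ (((2:ℤ)^μ : ℤ) : ℝ) := by exact_mod_cast h4
    rw [Int.cast_abs] at h5
    push_cast at h5
    exact h5
  have h4 : (2:ℝ)^(μ+1) ≤ (A:ℝ)+1 := by exact_mod_cast hA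
  have h5 : |(l j : ℝ)| / ((A:ℝ)+1) ≤ 1/2 := by
    rw [div_le_iff₀ (by positivity)]
    rw [pow_succ] at h4
    linarith
  linarith

theorem f1_cross {d : ℕ} (l : Fin d → ℤ) (x y : Fin d → ℝ) :
    (chi l (-x) * (starRingEnd ℂ) (chi l (-y))).re = (chi l (x - y)).re := by
  have h1 : chi l (-x) * (starRingEnd ℂ) (chi l (-y)) = (starRingEnd ℂ) (chi l (x - y)) := by
    unfold chi
    rw [← Complex.exp_conj, ← Complex.exp_conj, ← Complex.exp_add]
    congr 1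
    simp only [map_mul, Complex.conj_I, Complex.conj_ofReal, Pi.neg_apply, Pi.sub_apply]
    push_cast
    rw [← sub_eq_zero]
    simp only [mul_neg, Finset.sum_neg_distrib, mul_sub, Finset.sum_sub_distrib]
    ring
  rw [h1, Complex.conj_re]

theorem f1_normsq {d M : ℕ} (X X' : Fin M → Fin d → ℝ) (l : Fin d → ℤ) :
    ‖f1D X X' l‖^2 = ∑ i, ∑ i', ((chi l (X i - X i')).re + (chi l (X' i - X' i')).re -
      2 * (chi l (X i - X' i')).re) := by
  have h0 : ∀ (Y Z : Fin M → Fin d → ℝ),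
      ((∑ i, chi l (-(Y i))) * (starRingEnd ℂ) (∑ i, chi l (-(Z i)))).re =
        ∑ i, ∑ i', (chi l (Y i - Z i')).re := by
    intro Y Z
    rw [map_sum, Finset.sum_mul_sum, Complex.re_sum]
    refine Finset.sum_congr rfl fun i _ => ?_
    rw [Complex.re_sum]
    exact Finset.sum_congr rfl fun i' _ => f1_cross l _ _
  have h1 : ‖f1D X X' l‖^2 = (f1D X X' l * (starRingEnd ℂ) (f1D X X' l)).re := by
    rw [Complex.mul_conj, Complex.normSq_eq_norm_sq]
    norm_cast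
  have h2 : (∑ i, chi l (-(X' i))) * (starRingEnd ℂ) (∑ i, chi l (-(X i))) =
      (starRingEnd ℂ) ((∑ i, chi l (-(X i))) * (starRingEnd ℂ) (∑ i, chi l (-(X' i)))) := by
    rw [map_mul, Complex.conj_conj, mul_comm]
  have h3 : f1D X X' l * (starRingEnd ℂ) (f1D X X' l) =
      (∑ i, chi l (-(X i))) * (starRingEnd ℂ) (∑ i, chi l (-(X i))) +
      (∑ i, chi l (-(X' i))) * (starRingEnd ℂ) (∑ i, chi l (-(X' i))) -
      (∑ i, chi l (-(X i))) * (starRingEnd ℂ) (∑ i, chi l (-(X' i))) -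
      (∑ i, chi l (-(X' i))) * (starRingEnd ℂ) (∑ i, chi l (-(X i))) := by
    unfold f1D
    rw [map_sub]
    ring
  rw [h1, h3, h2, Complex.sub_re, Complex.sub_re, Complex.add_re, Complex.conj_re, h0, h0, h0]
  simp only [Finset.sum_sub_distrib, Finset.sum_add_distrib, ← Finset.mul_sum]
  ring

/-- energy -/
noncomputable def f1E {d M : ℕ} (J : Finset ℕ) (w : ℕ → ℝ) (X X' : Fin M → Fin d → ℝ) : ℝ :=
  ∑ i, ∑ i', (wker J w 0 0 (X i - X i') + wker J w 0 0 (X' i - X' i') -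
    2 * wker J w 0 0 (X i - X' i'))

theorem f1_ker0 {d : ℕ} (μ : ℕ) (x : Fin d → ℝ) :
    ker (d := d) μ 0 0 x = ∑ l ∈ layer d μ, (chi l x).re := by
  unfold ker
  exact Finset.sum_congr rfl fun l _ => by rw [fama_Fh_zero, one_mul]

theorem f1E_eq {d M : ℕ} (J : Finset ℕ) (w : ℕ → ℝ) (X X' : Fin M → Fin d → ℝ) :
    f1E J w X X' = ∑ μ ∈ J, w μ * ∑ l ∈ layer d μ, ‖f1D X X' l‖^2 := by
  unfold f1E wker
  simp only [f1_normsq, f1_ker0]
  have h1 : ∀ i i' : Fin M, ∑ μ ∈ J, w μ * ∑ l ∈ layer d μ, (chi l (X i - X i')).re +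
      ∑ μ ∈ J, w μ * ∑ l ∈ layer d μ, (chi l (X' i - X' i')).re -
      2 * ∑ μ ∈ J, w μ * ∑ l ∈ layer d μ, (chi l (X i - X' i')).re =
      ∑ μ ∈ J, w μ * ∑ l ∈ layer d μ, ((chi l (X i - X i')).re + (chi l (X' i - X' i')).re -
        2 * (chi l (X i - X' i')).re) := by
    intro i i'
    rw [Finset.mul_sum, ← Finset.sum_add_distrib, ← Finset.sum_sub_distrib]
    refine Finset.sum_congr rfl fun μ _ => ?_
    simp only [Finset.sum_sub_distrib, Finset.sum_add_distrib, ← Finset.mul_sum]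
    ring
  simp only [h1]
  have h2 : ∀ i : Fin M, ∑ i', ∑ μ ∈ J, w μ * ∑ l ∈ layer d μ, ((chi l (X i - X i')).re +
      (chi l (X' i - X' i')).re - 2 * (chi l (X i - X' i')).re) =
      ∑ μ ∈ J, w μ * ∑ l ∈ layer d μ, ∑ i', ((chi l (X i - X i')).re +
      (chi l (X' i - X' i')).re - 2 * (chi l (X i - X' i')).re) := by
    intro i
    rw [Finset.sum_comm]
    refine Finset.sum_congr rfl fun μ _ => ?_
    rw [← Finset.mul_sum, Finset.sum_comm]
  simp only [h2]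
  rw [Finset.sum_comm]
  refine Finset.sum_congr rfl fun μ _ => ?_
  rw [← Finset.mul_sum, Finset.sum_comm]

theorem f1_wker_cont {d : ℕ} (J : Finset ℕ) (w : ℕ → ℝ) (r : ℝ) (α : Fin d → ℝ) :
    Continuous (wker J w r α) := by
  unfold wker
  exact continuous_finsetSum _ fun μ _ => continuous_const.mul (fama_ker_cont μ r α)

theorem f1G_cont {d M : ℕ} (J : Finset ℕ) (w : ℕ → ℝ) (r : ℝ) (α : Fin d → ℝ)
    (X : Fin M → Fin d → ℝ) : Continuous (f1G J w r α X) := by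
  unfold f1G
  exact continuous_finsetSum _ fun i _ =>
    (f1_wker_cont J w (-r) α).comp (continuous_id.sub continuous_const)

theorem f1G_bound {d M : ℕ} (J : Finset ℕ) (w : ℕ → ℝ) (r : ℝ) (α : Fin d → ℝ)
    (X : Fin M → Fin d → ℝ) (x : Fin d → ℝ) :
    |f1G J w r α X x| ≤ ∑ _i : Fin M, ∑ μ ∈ J, |w μ| * ∑ k ∈ layer d μ, ‖Fh (-r) α k‖ := by
  unfold f1G
  refine (Finset.abs_sum_le_sum_abs _ _).trans (Finset.sum_le_sum fun i _ => ?_)
  unfold wker
  refine (Finset.abs_sum_le_sum_abs _ _).trans (Finset.sum_le_sum fun μ _ => ?_)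
  rw [abs_mul]
  exact mul_le_mul_of_nonneg_left (fama_ker_bound μ (-r) α _) (abs_nonneg _)

/-- the main estimate -/
theorem f1_pair {d M : ℕ} (A : ℕ) (J : Finset ℕ) (w : ℕ → ℝ) (hw : ∀ μ ∈ J, 0 ≤ w μ)
    (hA : ∀ μ ∈ J, 2^(μ+1) ≤ A+1) (r : ℝ) (α : Fin d → ℝ) (X X' : Fin M → Fin d → ℝ) :
    (1/2:ℝ)^d * (1/(M:ℝ)) * f1E J w X X' ≤
      ∫ x, (f1h A r α X x - f1h A r α X' x) * (f1G J w r α X x - f1G J w r α X' x) ∂(TP d) := by
  have := TP_prob d
  have h1 : ∀ x : Fin d → ℝ,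
      (f1h A r α X x - f1h A r α X' x) * (f1G J w r α X x - f1G J w r α X' x) =
      ∑ μ ∈ J, w μ * ((f1h A r α X x - f1h A r α X' x) *
        (∑ i, ker μ (-r) α (x - X i) - ∑ i, ker μ (-r) α (x - X' i))) := by
    intro x
    have h2 : ∀ Y : Fin M → Fin d → ℝ, f1G J w r α Y x =
        ∑ μ ∈ J, w μ * ∑ i, ker μ (-r) α (x - Y i) := by
      intro Y
      unfold f1G wker
      rw [Finset.sum_comm]
      exact Finset.sum_congr rfl fun μ _ => by rw [Finset.mul_sum]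
    rw [h2, h2, ← Finset.sum_sub_distrib, Finset.mul_sum]
    exact Finset.sum_congr rfl fun μ _ => by ring
  simp only [h1]
  rw [integral_finsetSum, f1E_eq, Finset.mul_sum]
  · refine Finset.sum_le_sum fun μ hμ => ?_
    rw [integral_const_mul, f1_pair_layer A μ (hA μ hμ)]
    have h2 : (1/2:ℝ)^d * (1/(M:ℝ)) * (w μ * ∑ l ∈ layer d μ, ‖f1D X X' l‖^2) =
        w μ * ((1/(M:ℝ)) * ∑ l ∈ layer d μ, (1/2:ℝ)^d * ‖f1D X X' l‖^2) := by
      rw [← Finset.mul_sum]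
      ring
    rw [h2]
    refine mul_le_mul_of_nonneg_left (mul_le_mul_of_nonneg_left (Finset.sum_le_sum fun l hl =>
      mul_le_mul_of_nonneg_right (f1_rho_ge A μ (hA μ hμ) hl) (by positivity)) (by positivity))
      (hw μ hμ)
  · intro μ _
    refine Integrable.const_mul ?_ _
    refine Integrable.of_bound (C := (∑ k ∈ f1cube d A, ‖Fh r α k * f1c A X k‖ +
      ∑ k ∈ f1cube d A, ‖Fh r α k * f1c A X' k‖) *
      (∑ _i : Fin M, ∑ k ∈ layer d μ, ‖Fh (-r) α k‖ + ∑ _i : Fin M, ∑ k ∈ layer d μ, ‖Fh (-r) α k‖))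
      ?_ ?_
    · refine Continuous.aestronglyMeasurable ?_
      refine Continuous.mul ((f1h_cont A r α X).sub (f1h_cont A r α X')) ?_
      exact (continuous_finsetSum _ fun i _ => (fama_ker_cont μ (-r) α).comp
        (continuous_id.sub continuous_const)).sub (continuous_finsetSum _ fun i _ =>
        (fama_ker_cont μ (-r) α).comp (continuous_id.sub continuous_const))
    · refine Filter.Eventually.of_forall fun x => ?_
      rw [norm_mul]
      have hb : ∀ Y : Fin M → Fin d → ℝ, |∑ i, ker μ (-r) α (x - Y i)| ≤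
          ∑ _i : Fin M, ∑ k ∈ layer d μ, ‖Fh (-r) α k‖ := fun Y =>
        (Finset.abs_sum_le_sum_abs _ _).trans (Finset.sum_le_sum fun i _ =>
          fama_ker_bound μ (-r) α _)
      refine mul_le_mul ?_ ?_ (norm_nonneg _) ?_
      · rw [Real.norm_eq_abs]
        exact (abs_sub _ _).trans (add_le_add (f1h_bound A r α X x) (f1h_bound A r α X' x))
      · rw [Real.norm_eq_abs]
        exact (abs_sub _ _).trans (add_le_add (hb X) (hb X'))
      · positivity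

end SmSm
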