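import Pool.Agent.H636R2.SM.SpecH
import Pool.Agent.H636R2.SM.FAMG
import Pool.Agent.HypVol.L_card_layer

/-!
General part of the tasks FAMHA and FAMHB: families for the classes `H^r_∞`.
-/

open MeasureTheory Real ProbabilityTheory
open scoped ENNReal BigOperators

namespace SmSm
open HypVol MWidth HypVol.Sol_KX_wf_split

/-! ### blocks and kernels -/

theorem famhg_mem_shb {d : ℕ} {s : Fin d → ℕ} {k : Fin d → ℤ} :
    k ∈ shb s ↔ ∀ j, Nat.size (k j).natAbs = s j := by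
  unfold shb
  rw [Fintype.mem_piFinset]
  refine forall_congr' fun j => ?_
  rw [Finset.mem_filter, Finset.mem_Ioo]
  constructor
  · exact fun h => h.2
  · intro h
    refine ⟨?_, h⟩
    have h1 : (k j).natAbs < 2 ^ (s j) := Nat.size_le.1 h.le
    have h2 : |k j| < (2:ℤ) ^ (s j) := by
      rw [Int.abs_eq_natAbs]
      exact_mod_cast h1
    exact abs_lt.1 h2

theorem famhg_dker {d : ℕ} (s : Fin d → ℕ) (x : Fin d → ℝ) :
    ((dker s x : ℝ) : ℂ) = ∑ k ∈ shb s, chi k x := by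
  have h1 : dker s x = (∑ k ∈ shb s, chi k x).re := by
    unfold dker
    rw [Complex.re_sum]
  have h2 : (starRingEnd ℂ) (∑ k ∈ shb s, chi k x) = ∑ k ∈ shb s, chi k x := by
    rw [map_sum]
    refine Finset.sum_equiv (Equiv.neg _) (fun k => ?_) fun k _ => ?_
    · rw [famhg_mem_shb, famhg_mem_shb]
      simp
    · rw [famg_chi_eq, wchr_conj]
      rfl
  rw [h1]
  exact Complex.conj_eq_iff_re.1 h2

theorem famhg_ker {d : ℕ} (μ : ℕ) (x : Fin d → ℝ) :
    ker μ 0 0 x = ∑ s ∈ (Finset.univ : Finset (Fin d)).piAntidiag μ, dker s x := by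
  classical
  unfold ker
  have h1 : ∀ k ∈ layer d μ, (fun j => Nat.size (k j).natAbs) ∈
      (Finset.univ : Finset (Fin d)).piAntidiag μ := by
    intro k hk
    rw [Finset.mem_piAntidiag]
    exact ⟨((wlayer_iff k).1 hk).symm, fun i _ => Finset.mem_univ _⟩
  rw [← Finset.sum_fiberwise_of_maps_to h1]
  refine Finset.sum_congr rfl fun s hs => ?_
  unfold dker
  have h2 : (layer d μ).filter (fun k => (fun j => Nat.size (k j).natAbs) = s) = shb s := by
    ext k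
    rw [Finset.mem_filter, famhg_mem_shb, wlayer_iff]
    rw [Finset.mem_piAntidiag] at hs
    constructor
    · rintro ⟨-, h⟩ j
      exact congrFun h j
    · intro h
      refine ⟨?_, funext h⟩
      unfold wN
      rw [← hs.1]
      exact (Finset.sum_congr rfl fun j _ => (h j)).symm
  rw [h2]
  refine Finset.sum_congr rfl fun k _ => ?_
  rw [famg_Fh_zero, one_mul]

theorem famhg_dker_cont {d : ℕ} (s : Fin d → ℕ) (y : Fin d → ℝ) :
    Continuous (fun x : Fin d → ℝ => dker s (x - y)) := by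
  unfold dker
  refine continuous_finsetSum _ fun k _ => Complex.continuous_re.comp ?_
  exact (famg_chi_cont k).comp (continuous_id.sub continuous_const)

theorem famhg_dker_per {d : ℕ} (s : Fin d → ℕ) (x y : Fin d → ℝ) (l : Fin d) :
    dker s (Function.update x l (x l + 2 * π) - y) = dker s (x - y) := by
  unfold dker
  simp only [famg_chi_per]

theorem famhg_dker_bdd {d : ℕ} (s : Fin d → ℕ) (x : Fin d → ℝ) :
    |dker s x| ≤ (shb s).card := by
  unfold dker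
  refine (Finset.abs_sum_le_sum_abs _ _).trans ?_
  refine (Finset.sum_le_sum (g := fun _ => (1:ℝ)) fun k _ => ?_).trans ?_
  · refine (Complex.abs_re_le_norm _).trans ?_
    rw [famg_chi_norm]
  · simp

theorem famhg_card {d : ℕ} (μ : ℕ) :
    ((Finset.univ : Finset (Fin d)).piAntidiag μ).card ≤ shp d μ := by
  classical
  unfold shp
  have hle : ∀ s ∈ (Finset.univ : Finset (Fin d)).piAntidiag μ, ∀ j, s j ≤ μ := by
    intro s hs j
    rw [Finset.mem_piAntidiag] at hs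
    rw [← hs.1]
    exact Finset.single_le_sum (f := fun j => s j) (fun _ _ => Nat.zero_le _) (Finset.mem_univ j)
  refine Finset.card_le_card_of_injOn
    (fun s j => (⟨min (s j) μ, by omega⟩ : Fin (μ + 1))) ?_ ?_
  · intro s hs
    have h1 := hle s hs
    have h2 := (Finset.mem_piAntidiag.1 hs).1
    unfold Sh
    simp only [Finset.coe_filter, Finset.mem_univ, true_and, Set.mem_ofPred_eq]
    rw [← h2]
    exact Finset.sum_congr rfl fun j _ => by
      rw [h2]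
      exact min_eq_left (h1 j)
  · intro s hs s' hs' h
    have h1 := hle s hs
    have h1' := hle s' hs'
    funext j
    have h2 := congrFun h j
    simp only [Fin.mk.injEq] at h2
    rwa [min_eq_left (h1 j), min_eq_left (h1' j)] at h2

/-! ### Fourier coefficients -/

theorem famhg_fc {d M : ℕ} (s : Fin d → ℕ) (c : ℝ) (P : Fin M → (Fin d → ℝ))
    (k₀ : Fin d → ℤ) :
    fc (fun x => ((c * ∑ i, dker s (x - P i) : ℝ) : ℂ)) k₀ =
      if k₀ ∈ shb s then (c : ℂ) * ∑ i, chi k₀ (-(P i)) else 0 := by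
  have h1 : ∀ x : Fin d → ℝ, ((c * ∑ i, dker s (x - P i) : ℝ) : ℂ) * wchr (-k₀) x =
      ∑ i, ∑ k ∈ shb s, ((c : ℂ) * chi k (-(P i))) * wchr (k + -k₀) x := by
    intro x
    rw [Complex.ofReal_mul, Complex.ofReal_sum, mul_assoc, Finset.sum_mul, Finset.mul_sum]
    refine Finset.sum_congr rfl fun i _ => ?_
    rw [famhg_dker, Finset.sum_mul, Finset.mul_sum]
    refine Finset.sum_congr rfl fun k _ => ?_
    rw [famg_chi_sub, wchr_add, famg_chi_eq]
    ring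
  rw [wfc]
  simp only [h1]
  rw [integral_finsetSum _ fun i _ => integrable_finsetSum _ fun k _ => famg_integrable _ _]
  have h3 : ∀ i, ∫ x, ∑ k ∈ shb s, ((c : ℂ) * chi k (-(P i))) * wchr (k + -k₀) x ∂(TP d) =
      if k₀ ∈ shb s then (c : ℂ) * chi k₀ (-(P i)) else 0 := by
    intro i
    rw [integral_finsetSum _ fun k _ => famg_integrable _ _]
    simp only [integral_const_mul, wchr_int]
    have h2 : ∀ k : Fin d → ℤ, (c : ℂ) * chi k (-(P i)) *
        (if k + -k₀ = 0 then (1 : ℂ) else 0) =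
        if k = k₀ then (c : ℂ) * chi k₀ (-(P i)) else 0 := by
      intro k
      by_cases hk : k = k₀
      · subst hk
        simp
      · rw [if_neg hk, if_neg (fun h => hk (by rwa [← sub_eq_add_neg, sub_eq_zero] at h)),
          mul_zero]
    simp only [h2]
    rw [Finset.sum_ite_eq']
  rw [Finset.sum_congr rfl fun i _ => h3 i]
  by_cases hk : k₀ ∈ shb s
  · simp only [if_pos hk, Finset.mul_sum]
  · simp only [if_neg hk, Finset.sum_const_zero]

theorem famhg_fc_add {d : ℕ} (f g : (Fin d → ℝ) → ℂ) (hf : Integrable f (TP d))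
    (hg : Integrable g (TP d)) (k : Fin d → ℤ) :
    fc (fun x => f x + g x) k = fc f k + fc g k := by
  have hb : ∀ f : (Fin d → ℝ) → ℂ, Integrable f (TP d) →
      Integrable (fun x => f x * wchr (-k) x) (TP d) := by
    intro f hf
    refine hf.mul_bdd (c := 1) (wchr_cont _).aestronglyMeasurable ?_
    exact Filter.Eventually.of_forall fun x => (wchr_norm _ x).le
  rw [wfc, wfc, wfc, ← integral_add (hb f hf) (hb g hg)]
  refine integral_congr_ae (Filter.Eventually.of_forall fun x => ?_)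
  show (f x + g x) * _ = _
  ring

/-- Bessel's inequality -/
theorem famhg_bessel {d : ℕ} (φ : (Fin d → ℝ) → ℂ) (hφ : MemLp φ 2 (TP d))
    (S : Finset (Fin d → ℤ)) : ∑ k ∈ S, ‖fc φ k‖ ^ 2 ≤ ∫ x, ‖φ x‖ ^ 2 ∂(TP d) := by
  refine le_of_forall_pos_le_add fun δ hδ => ?_
  have h0 : 0 ≤ ∫ x, ‖φ x‖ ^ 2 ∂(TP d) := integral_nonneg fun x => sq_nonneg _
  set T : ℝ := Real.sqrt (∫ x, ‖φ x‖ ^ 2 ∂(TP d) + δ) with hT
  have hT0 : 0 < T := Real.sqrt_pos.2 (by linarith)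
  have hT2 : T ^ 2 = ∫ x, ‖φ x‖ ^ 2 ∂(TP d) + δ := Real.sq_sqrt (by linarith)
  set ψ : (Fin d → ℝ) → ℂ := fun x => ((T⁻¹ : ℝ) : ℂ) * φ x with hψ
  have hψm : MemLp ψ 2 (TP d) := hφ.const_mul _
  have hψ1 : eLpNorm ψ 2 (TP d) ≤ 1 := by
    rw [hψm.eLpNorm_eq_integral_rpow_norm (by norm_num) (by norm_num)]
    rw [← ENNReal.ofReal_one]
    apply ENNReal.ofReal_le_ofReal
    have h1 : ∫ x, ‖ψ x‖ ^ (2 : ℝ≥0∞).toReal ∂(TP d) = (T⁻¹)^2 * ∫ x, ‖φ x‖ ^ 2 ∂(TP d) := by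
      rw [← integral_const_mul]
      refine integral_congr_ae (Filter.Eventually.of_forall fun x => ?_)
      show ‖((T⁻¹ : ℝ) : ℂ) * φ x‖ ^ (2 : ℝ≥0∞).toReal = (T⁻¹)^2 * ‖φ x‖ ^ 2
      rw [norm_mul, Complex.norm_real, Real.norm_eq_abs, abs_of_pos (by positivity),
        ENNReal.toReal_ofNat, Real.rpow_ofNat, mul_pow]
    rw [h1]
    refine Real.rpow_le_one (by positivity) ?_ (by simp)
    rw [inv_pow, inv_mul_le_iff₀ (by positivity), hT2]
    linarith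
  have h2 := wbessel 2 le_rfl ψ hψm hψ1 S
  have h3 : ∀ k, ‖fc ψ k‖ ^ 2 = (T⁻¹)^2 * ‖fc φ k‖ ^ 2 := by
    intro k
    have h4 : fc ψ k = ((T⁻¹ : ℝ) : ℂ) * fc φ k := by
      rw [wfc, wfc, ← integral_const_mul]
      refine integral_congr_ae (Filter.Eventually.of_forall fun x => ?_)
      show ((T⁻¹ : ℝ) : ℂ) * φ x * _ = _
      ring
    rw [h4, norm_mul, Complex.norm_real, Real.norm_eq_abs, abs_of_pos (by positivity), mul_pow]
  rw [Finset.sum_congr rfl fun k _ => h3 k, ← Finset.mul_sum, inv_pow,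
    inv_mul_le_iff₀ (by positivity), mul_one, hT2] at h2
  exact h2

/-! ### truncation -/

/-- truncation at the level `B` -/
noncomputable def famhg_cl (B t : ℝ) : ℝ := max (-B) (min B t)

theorem famhg_cl_le {B t : ℝ} (hB : 0 < B) : |famhg_cl B t| ≤ B := by
  unfold famhg_cl
  rw [abs_le]
  constructor
  · exact le_max_left _ _
  · exact max_le (by linarith) (min_le_left _ _)

theorem famhg_cl_sub {B t : ℝ} (hB : 0 < B) : (t - famhg_cl B t)^2 ≤ t^4 / B^2 := by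
  rw [le_div_iff₀ (by positivity)]
  unfold famhg_cl
  rcases le_total t (-B) with h | h
  · rw [min_eq_right (by linarith), max_eq_left h]
    have h1 : (t - -B)^2 ≤ t^2 := by nlinarith
    have h2 : B^2 ≤ t^2 := by nlinarith
    have := mul_le_mul h1 h2 (by positivity) (by positivity)
    nlinarith
  · rcases le_total t B with h' | h'
    · rw [min_eq_right h', max_eq_right h]
      simp
      positivity
    · rw [min_eq_left h', max_eq_right (by linarith)]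
      have h1 : (t - B)^2 ≤ t^2 := by nlinarith
      have h2 : B^2 ≤ t^2 := by nlinarith
      have := mul_le_mul h1 h2 (by positivity) (by positivity)
      nlinarith

theorem famhg_cl_cont (B : ℝ) : Continuous (famhg_cl B) := by
  unfold famhg_cl
  fun_prop

/-! ### wide multipliers -/

theorem famhg_wbl_eq {d : ℕ} (s : Fin d → ℕ) (k : Fin d → ℤ) :
    wbl 0 s ∅ k = ∏ j, wv (s j) (k j) := by
  unfold wbl
  exact Finset.prod_congr rfl fun j _ => by simp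

theorem famhg_wbl_shb (h5 : S_WBF) {d : ℕ} {s : Fin d → ℕ} {k : Fin d → ℤ} (hk : k ∈ shb s) :
    wbl 0 s ∅ k = 1 := by
  rw [famhg_wbl_eq]
  rw [famhg_mem_shb] at hk
  exact Finset.prod_eq_one fun j _ => h5.2.1 _ _ (hk j)

theorem famhg_wbl_01 (h5 : S_WBF) {d : ℕ} (s : Fin d → ℕ) (k : Fin d → ℤ) :
    0 ≤ wbl 0 s ∅ k ∧ wbl 0 s ∅ k ≤ 1 := by
  rw [famhg_wbl_eq]
  exact ⟨Finset.prod_nonneg fun j _ => (h5.1 _ _).1,
    Finset.prod_le_one (fun j _ => (h5.1 _ _).1) fun j _ => (h5.1 _ _).2⟩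

theorem famhg_wbl_ne (h5 : S_WBF) {d : ℕ} {s : Fin d → ℕ} {k : Fin d → ℤ}
    (hk : wbl 0 s ∅ k ≠ 0) (j : Fin d) :
    s j ≤ Nat.size (k j).natAbs + 1 ∧ Nat.size (k j).natAbs ≤ s j + 2 := by
  rw [famhg_wbl_eq] at hk
  exact h5.2.2.2 _ _ fun h => hk (Finset.prod_eq_zero (Finset.mem_univ j) h)

theorem famhg_boxw {d : ℕ} {s : Fin d → ℕ} {k : Fin d → ℤ}
    (hk : ∀ j, Nat.size (k j).natAbs ≤ s j + 2) : k ∈ boxw s := by
  unfold boxw
  rw [Fintype.mem_piFinset]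
  intro j
  rw [Finset.mem_Ioo]
  have h1 : (k j).natAbs < 2 ^ (s j + 2) := Nat.size_le.1 (hk j)
  have h2 : |k j| < (2:ℤ) ^ (s j + 2) := by
    rw [Int.abs_eq_natAbs]
    exact_mod_cast h1
  exact abs_lt.1 h2

theorem famhg_wN (h5 : S_WBF) {d : ℕ} {s : Fin d → ℕ} {k : Fin d → ℤ}
    (hk : wbl 0 s ∅ k ≠ 0) : ∑ j, s j ≤ wN k + d ∧ wN k ≤ ∑ j, s j + 2 * d := by
  unfold wN
  constructor
  · refine (Finset.sum_le_sum fun j _ => (famhg_wbl_ne h5 hk j).1).trans ?_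
    rw [Finset.sum_add_distrib]
    simp
  · refine (Finset.sum_le_sum fun j _ => (famhg_wbl_ne h5 hk j).2).trans ?_
    rw [Finset.sum_add_distrib]
    simp [mul_comm]

theorem famhg_mult (h5 : S_WBF) {d : ℕ} (SS : Finset (Fin d → ℕ)) (k : Fin d → ℤ) :
    (SS.filter fun s => wbl 0 s ∅ k ≠ 0).card ≤ 4 ^ d := by
  have h1 : (SS.filter fun s => wbl 0 s ∅ k ≠ 0) ⊆
      Fintype.piFinset (fun j : Fin d => Finset.Icc (Nat.size (k j).natAbs - 2)
        (Nat.size (k j).natAbs + 1)) := by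
    intro s hs
    rw [Finset.mem_filter] at hs
    rw [Fintype.mem_piFinset]
    intro j
    have := famhg_wbl_ne h5 hs.2 j
    rw [Finset.mem_Icc]
    omega
  refine (Finset.card_le_card h1).trans ?_
  rw [Fintype.card_piFinset]
  refine (Finset.prod_le_pow_card _ _ 4 fun j _ => ?_).trans (le_of_eq (by simp))
  rw [Nat.card_Icc]
  omega

/-- normalised block sums -/
noncomputable def famhg_g {d M m : ℕ} (X : Fin M → GG d m) (s : Fin d → ℕ) (x : Fin d → ℝ) : ℝ :=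
  (Real.sqrt (M * 2^(∑ j, s j)))⁻¹ * ∑ i, dker s (x - gpt (X i))

theorem famhg_g_cont {d M m : ℕ} (X : Fin M → GG d m) (s : Fin d → ℕ) :
    Continuous (famhg_g X s) :=
  continuous_const.mul (continuous_finsetSum _ fun _ _ => famhg_dker_cont s _)

theorem famhg_g_per {d M m : ℕ} (X : Fin M → GG d m) (s : Fin d → ℕ) (x : Fin d → ℝ)
    (l : Fin d) : famhg_g X s (Function.update x l (x l + 2 * π)) = famhg_g X s x := by
  unfold famhg_g
  congr 1
  exact Finset.sum_congr rfl fun i _ => famhg_dker_per s x _ l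

theorem famhg_g_bdd {d M m : ℕ} (X : Fin M → GG d m) (s : Fin d → ℕ) (x : Fin d → ℝ) :
    |famhg_g X s x| ≤ (Real.sqrt (M * 2^(∑ j, s j)))⁻¹ * (M * (shb s).card) := by
  unfold famhg_g
  rw [abs_mul, abs_of_nonneg (by positivity)]
  refine mul_le_mul_of_nonneg_left ?_ (by positivity)
  refine (Finset.abs_sum_le_sum_abs _ _).trans ?_
  refine (Finset.sum_le_sum fun i _ => famhg_dker_bdd s _).trans ?_
  simp

theorem famhg_wop_g (h5 : S_WBF) {d M m : ℕ} (X : Fin M → GG d m) (s : Fin d → ℕ)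
    (x : Fin d → ℝ) :
    wop 0 s ∅ (fun x => ((famhg_g X s x : ℝ) : ℂ)) x = ((famhg_g X s x : ℝ) : ℂ) := by
  unfold wop
  have h1 : ∀ k, fc (fun x => ((famhg_g X s x : ℝ) : ℂ)) k =
      if k ∈ shb s then (((Real.sqrt (M * 2^(∑ j, s j)))⁻¹ : ℝ) : ℂ) *
        ∑ i, chi k (-(gpt (X i))) else 0 := fun k => famhg_fc s _ (fun i => gpt (X i)) k
  have h2 : shb s ⊆ boxw s := by
    intro k hk
    rw [famhg_mem_shb] at hk
    exact famhg_boxw fun j => by rw [hk j]; omega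
  have h3 : ((famhg_g X s x : ℝ) : ℂ) = ∑ k ∈ shb s,
      (((Real.sqrt (M * 2^(∑ j, s j)))⁻¹ : ℝ) : ℂ) * ∑ i, chi k (x - gpt (X i)) := by
    unfold famhg_g
    rw [Complex.ofReal_mul, Complex.ofReal_sum, ← Finset.mul_sum]
    simp only [famhg_dker]
    rw [Finset.sum_comm]
  rw [← Finset.sum_subset h2 fun k _ hk => by rw [h1, if_neg hk]; simp, h3]
  refine Finset.sum_congr rfl fun k hk => ?_
  rw [h1, if_pos hk, famhg_wbl_shb h5 hk, Complex.ofReal_one, one_mul, mul_assoc,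
    Finset.sum_mul]
  congr 1
  refine Finset.sum_congr rfl fun i _ => ?_
  rw [famg_chi_sub k x]
  ring

open Classical in
/-- the frequencies of the small part -/
noncomputable def famhg_LA {d : ℕ} (SS : Finset (Fin d → ℕ)) : Finset (Fin d → ℤ) :=
  (SS.biUnion boxw).filter (fun k => ∃ s ∈ SS, wbl 0 s ∅ k ≠ 0)

theorem famhg_wop_sum (h5 : S_WBF) {d : ℕ} (SS : Finset (Fin d → ℕ)) (a : (Fin d → ℕ) → ℂ)
    (e : (Fin d → ℕ) → (Fin d → ℝ) → ℂ) (x : Fin d → ℝ) :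
    ∑ s ∈ SS, a s * wop 0 s ∅ (e s) x =
      ∑ k ∈ famhg_LA SS, (∑ s ∈ SS, a s * ((wbl 0 s ∅ k : ℂ) * fc (e s) k)) * chi k x := by
  classical
  have h1 : ∀ s ∈ SS, wop 0 s ∅ (e s) x =
      ∑ k ∈ famhg_LA SS, (wbl 0 s ∅ k : ℂ) * fc (e s) k * chi k x := by
    intro s hs
    unfold wop
    have hA : ∑ k ∈ boxw s, (wbl 0 s ∅ k : ℂ) * fc (e s) k * chi k x =
        ∑ k ∈ boxw s ∪ famhg_LA SS, (wbl 0 s ∅ k : ℂ) * fc (e s) k * chi k x := by
      refine Finset.sum_subset Finset.subset_union_left fun k _ hk => ?_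
      by_cases h : wbl 0 s ∅ k = 0
      · rw [h]; simp
      · exact absurd (famhg_boxw fun j => (famhg_wbl_ne h5 h j).2) hk
    have hB : ∑ k ∈ famhg_LA SS, (wbl 0 s ∅ k : ℂ) * fc (e s) k * chi k x =
        ∑ k ∈ boxw s ∪ famhg_LA SS, (wbl 0 s ∅ k : ℂ) * fc (e s) k * chi k x := by
      refine Finset.sum_subset Finset.subset_union_right fun k hk1 hk => ?_
      by_cases h : wbl 0 s ∅ k = 0
      · rw [h]; simp
      · refine absurd ?_ hk
        unfold famhg_LA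
        rw [Finset.mem_filter, Finset.mem_biUnion]
        exact ⟨⟨s, hs, famhg_boxw fun j => (famhg_wbl_ne h5 h j).2⟩, s, hs, h⟩
    rw [hA, hB]
  rw [Finset.sum_congr rfl fun s hs => by rw [h1 s hs]]
  simp only [Finset.mul_sum, Finset.sum_mul]
  rw [Finset.sum_comm]
  refine Finset.sum_congr rfl fun k _ => Finset.sum_congr rfl fun s _ => ?_
  ring

/-- real coordinates -/
theorem famhg_gp {d : ℕ} (Λ : Finset (Fin d → ℤ)) (w : (Fin d → ℤ) → ℝ)
    (hw : ∀ k ∈ Λ, 0 < w k) (co : (Fin d → ℤ) → ℂ)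
    (hco : ∑ k ∈ Λ, ‖co k‖ ^ 2 / (w k) ^ 2 ≤ 1) :
    ∃ a : Λ × Fin 2 → ℝ, ∑ j, a j ^ 2 ≤ 1 ∧
      ∀ x, gp Λ (fun j => w j.1.1 * a j) x = ∑ k ∈ Λ, co k * chi k x := by
  refine ⟨fun j => (if j.2 = 0 then (co j.1.1).re else (co j.1.1).im) / w j.1.1, ?_, ?_⟩
  · rw [Fintype.sum_prod_type]
    refine le_trans (le_of_eq ?_) hco
    rw [← Finset.sum_coe_sort Λ (fun k => ‖co k‖ ^ 2 / (w k) ^ 2)]
    refine Finset.sum_congr rfl fun k _ => ?_
    rw [Fin.sum_univ_two]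
    simp only [if_true, Fin.isValue, one_ne_zero, if_false]
    rw [← Complex.normSq_eq_norm_sq, Complex.normSq_apply]
    ring
  · intro x
    unfold gp
    rw [← Finset.sum_coe_sort Λ (fun k => co k * chi k x)]
    refine Finset.sum_congr rfl fun k _ => ?_
    simp only [if_true, Fin.isValue, one_ne_zero, if_false]
    have hk := (hw k.1 k.2).ne'
    rw [mul_div_cancel₀ _ hk, mul_div_cancel₀ _ hk, Complex.re_add_im]
    rfl

theorem famhg_markov {ι : Type} [Fintype ι] (u : ι → ℝ) (hu : ∀ i, 0 ≤ u i) (B : ℝ)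
    (hB : 0 < B) (h : ∑ i, u i ≤ B * Fintype.card ι) :
    (9/10 : ℝ) * Fintype.card ι ≤ (Finset.univ.filter (fun i => u i ≤ 10 * B)).card := by
  classical
  set good := Finset.univ.filter (fun i => u i ≤ 10 * B) with hgood
  have h2 : ∑ i, (if i ∈ good then (0:ℝ) else 10 * B) ≤ ∑ i, u i := by
    refine Finset.sum_le_sum fun i _ => ?_
    by_cases hX : i ∈ good
    · rw [if_pos hX]
      exact hu i
    · rw [if_neg hX]
      rw [hgood, Finset.mem_filter] at hX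
      push Not at hX
      exact (hX (Finset.mem_univ _)).le
  have h3 : ∑ i, (if i ∈ good then (0:ℝ) else 10 * B) =
      10 * B * ((Fintype.card ι : ℝ) - good.card) := by
    have h4 : ∀ i, (if i ∈ good then (0:ℝ) else 10 * B) =
        10 * B - (if i ∈ good then 10 * B else 0) := by
      intro X
      by_cases hX : X ∈ good <;> simp [hX]
    rw [Finset.sum_congr rfl fun X _ => h4 X, Finset.sum_sub_distrib, Finset.sum_const,
      Finset.sum_ite_mem, Finset.univ_inter, Finset.sum_const, Finset.card_univ, nsmul_eq_mul,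
      nsmul_eq_mul]
    ring
  rw [h3] at h2
  have h5 := h2.trans h
  have h6 : 10 * ((Fintype.card ι : ℝ) - good.card) ≤ (Fintype.card ι : ℝ) := by
    have : B * (10 * ((Fintype.card ι : ℝ) - good.card)) ≤ B * (Fintype.card ι : ℝ) := by
      linarith
    exact le_of_mul_le_mul_left this hB
  linarith

/-- shapes with `∑ s ∈ J` -/
def famhg_SS (d : ℕ) (J : Finset ℕ) : Finset (Fin d → ℕ) :=
  J.biUnion (fun μ => (Finset.univ : Finset (Fin d)).piAntidiag μ)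

theorem famhg_mem_SS {d : ℕ} {J : Finset ℕ} {s : Fin d → ℕ} :
    s ∈ famhg_SS d J ↔ ∑ j, s j ∈ J := by
  unfold famhg_SS
  rw [Finset.mem_biUnion]
  constructor
  · rintro ⟨μ, hμ, hs⟩
    rw [(Finset.mem_piAntidiag.1 hs).1]
    exact hμ
  · intro h
    exact ⟨_, h, Finset.mem_piAntidiag.2 ⟨rfl, fun _ _ => Finset.mem_univ _⟩⟩

theorem famhg_SS_card (d : ℕ) (J : Finset ℕ) :
    ((famhg_SS d J).card : ℝ) ≤ ∑ μ ∈ J, (shp d μ : ℝ) := by
  have h : (famhg_SS d J).card ≤ ∑ μ ∈ J, shp d μ :=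
    Finset.card_biUnion_le.trans (Finset.sum_le_sum fun μ _ => famhg_card μ)
  exact_mod_cast h

theorem famhg_SS_sum {d : ℕ} (J : Finset ℕ) (f : (Fin d → ℕ) → ℝ) :
    ∑ s ∈ famhg_SS d J, f s =
      ∑ μ ∈ J, ∑ s ∈ (Finset.univ : Finset (Fin d)).piAntidiag μ, f s := by
  unfold famhg_SS
  refine Finset.sum_biUnion ?_
  intro μ _ μ' _ hne
  refine Finset.disjoint_left.2 fun s hs hs' => hne ?_
  rw [← (Finset.mem_piAntidiag.1 hs).1, ← (Finset.mem_piAntidiag.1 hs').1]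

theorem famhg_wker {d M m : ℕ} (J : Finset ℕ) (w : ℕ → ℝ) (r : ℝ)
    (hw : ∀ μ, w μ = (2:ℝ)^(-(r * μ)) * (Real.sqrt (2^μ))⁻¹)
    (X : Fin M → GG d m) (x : Fin d → ℝ) :
    ∑ s ∈ famhg_SS d J, (2:ℝ)^(-(r * ∑ j, (s j : ℝ))) * famhg_g X s x =
      (Real.sqrt M)⁻¹ * ∑ i, wker J w 0 0 (x - gpt (X i)) := by
  rw [famhg_SS_sum]
  have h1 : ∀ i, wker J w 0 0 (x - gpt (X i)) = ∑ μ ∈ J,
      ∑ s ∈ (Finset.univ : Finset (Fin d)).piAntidiag μ, w μ * dker s (x - gpt (X i)) := by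
    intro i
    unfold wker
    refine Finset.sum_congr rfl fun μ _ => ?_
    rw [famhg_ker, Finset.mul_sum]
  simp only [h1]
  rw [Finset.sum_comm, Finset.mul_sum]
  refine Finset.sum_congr rfl fun μ _ => ?_
  rw [Finset.sum_comm, Finset.mul_sum]
  refine Finset.sum_congr rfl fun s hs => ?_
  have h2 := (Finset.mem_piAntidiag.1 hs).1
  have h3 : ∑ j, (s j : ℝ) = μ := by exact_mod_cast h2
  unfold famhg_g
  rw [h2, h3, Real.sqrt_mul (Nat.cast_nonneg _), mul_inv, ← Finset.mul_sum, hw μ]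
  ring

theorem famhg_sqw (W r : ℝ) (n : ℕ) : (W * (2:ℝ)^(-(r * (n : ℝ))))^2 =
    W^2 * (2:ℝ)^(-(2 * r * (n:ℝ))) := by
  rw [mul_pow, ← Real.rpow_natCast ((2:ℝ)^(-(r * (n : ℝ)))) 2, ← Real.rpow_mul (by norm_num)]
  congr 2
  push_cast
  ring

/-- the size of the ellipsoid -/
theorem famhg_size (h5 : S_WBF) {d : ℕ} (J : Finset ℕ) (r W C0 B R : ℝ) (hB : 0 < B)
    (hC0 : 0 < C0) (hW2 : W^2 = C0 * (famhg_SS d J).card / B^2)
    (hR : C0 * (∑ μ ∈ J, (shp d μ : ℝ)) *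
      ∑ n' ∈ J.biUnion (fun μ => Finset.Icc (μ - d) (μ + 2*d)),
      (2:ℝ)^(-(2 * r * n')) * (layer d n').card ≤ (B * R)^2) :
    ∑ k ∈ famhg_LA (famhg_SS d J), (W * (2:ℝ)^(-(r * (wN k : ℝ))))^2 ≤ R^2 := by
  classical
  set NJ := J.biUnion (fun μ => Finset.Icc (μ - d) (μ + 2*d)) with hNJ
  have hmaps : ∀ k ∈ famhg_LA (famhg_SS d J), wN k ∈ NJ := by
    intro k hk
    unfold famhg_LA at hk
    obtain ⟨-, s, hs, hk⟩ := Finset.mem_filter.1 hk
    rw [famhg_mem_SS] at hs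
    have b1 := famhg_wN h5 hk
    rw [hNJ, Finset.mem_biUnion]
    exact ⟨_, hs, Finset.mem_Icc.2 ⟨by omega, b1.2⟩⟩
  simp only [famhg_sqw]
  rw [← Finset.sum_fiberwise_of_maps_to hmaps]
  have b2 : ∀ n' ∈ NJ, ∑ k ∈ (famhg_LA (famhg_SS d J)).filter (fun k => wN k = n'),
      W^2 * (2:ℝ)^(-(2 * r * (wN k:ℝ))) ≤
      W^2 * ((2:ℝ)^(-(2 * r * (n':ℝ))) * (layer d n').card) := by
    intro n' _
    have b3 : ∑ k ∈ (famhg_LA (famhg_SS d J)).filter (fun k => wN k = n'),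
        W^2 * (2:ℝ)^(-(2 * r * (wN k:ℝ))) =
        ∑ k ∈ (famhg_LA (famhg_SS d J)).filter (fun k => wN k = n'),
        W^2 * (2:ℝ)^(-(2 * r * (n':ℝ))) :=
      Finset.sum_congr rfl fun k hk => by rw [(Finset.mem_filter.1 hk).2]
    rw [b3, Finset.sum_const, nsmul_eq_mul]
    have b4 : (((famhg_LA (famhg_SS d J)).filter (fun k => wN k = n')).card : ℝ) ≤
        (layer d n').card := by
      refine Nat.cast_le.2 (Finset.card_le_card fun k hk => ?_)
      rw [wlayer_iff]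
      exact (Finset.mem_filter.1 hk).2.symm
    have b5 : 0 ≤ W^2 * (2:ℝ)^(-(2 * r * (n':ℝ))) := by positivity
    calc (((famhg_LA (famhg_SS d J)).filter (fun k => wN k = n')).card : ℝ) *
          (W^2 * (2:ℝ)^(-(2 * r * (n':ℝ))))
        ≤ (layer d n').card * (W^2 * (2:ℝ)^(-(2 * r * (n':ℝ)))) :=
          mul_le_mul_of_nonneg_right b4 b5
      _ = _ := by ring
  refine (Finset.sum_le_sum b2).trans ?_
  rw [← Finset.mul_sum, hW2, div_mul_eq_mul_div, div_le_iff₀ (by positivity)]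
  have b6 : 0 ≤ ∑ n' ∈ NJ, (2:ℝ)^(-(2 * r * (n':ℝ))) * ((layer d n').card : ℝ) :=
    Finset.sum_nonneg fun _ _ => by positivity
  calc C0 * (famhg_SS d J).card * ∑ n' ∈ NJ, (2:ℝ)^(-(2 * r * (n':ℝ))) * ((layer d n').card : ℝ)
      ≤ C0 * (∑ μ ∈ J, (shp d μ : ℝ)) *
        ∑ n' ∈ NJ, (2:ℝ)^(-(2 * r * (n':ℝ))) * ((layer d n').card : ℝ) := by
        have := famhg_SS_card d J
        exact mul_le_mul_of_nonneg_right (mul_le_mul_of_nonneg_left this hC0.le) b6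
    _ ≤ (B * R)^2 := hR
    _ = R^2 * B^2 := by ring

/-- size of the coefficients -/
theorem famhg_co (h5 : S_WBF) {d : ℕ} (r c W : ℝ) (hr : 0 < r) (hc : 0 < c) (hW0 : 0 < W)
    (SS : Finset (Fin d → ℕ)) (v : (Fin d → ℕ) → ℂ) (k : Fin d → ℤ) :
    ‖∑ s ∈ SS, ((c : ℂ) * (((2:ℝ)^(-(r * ∑ j, (s j : ℝ))) : ℝ) : ℂ)) *
      ((wbl 0 s ∅ k : ℂ) * v s)‖^2 / (W * (2:ℝ)^(-(r * (wN k : ℝ))))^2 ≤
        c^2 * 4^d * (2:ℝ)^(4 * r * d) / W^2 * ∑ s ∈ SS, ‖v s‖^2 := by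
  classical
  set a : (Fin d → ℕ) → ℂ := fun s =>
    (c : ℂ) * (((2:ℝ)^(-(r * ∑ j, (s j : ℝ))) : ℝ) : ℂ) with ha
  have hanorm : ∀ s : Fin d → ℕ, ‖a s‖ = c * (2:ℝ)^(-(r * ∑ j, (s j : ℝ))) := by
    intro s
    rw [ha]
    simp only
    rw [norm_mul, Complex.norm_real, Complex.norm_real, Real.norm_eq_abs, Real.norm_eq_abs,
      abs_of_pos hc, abs_of_pos (by positivity)]
  have b1 : ‖∑ s ∈ SS, a s * ((wbl 0 s ∅ k : ℂ) * v s)‖ ≤
      ∑ s ∈ SS.filter (fun s => wbl 0 s ∅ k ≠ 0), ‖a s‖ * ‖v s‖ := by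
    rw [← Finset.sum_filter_add_sum_filter_not SS (fun s => wbl 0 s ∅ k ≠ 0)]
    have b2 : ∑ s ∈ SS.filter (fun s => ¬ wbl 0 s ∅ k ≠ 0),
        a s * ((wbl 0 s ∅ k : ℂ) * v s) = 0 := by
      refine Finset.sum_eq_zero fun s hs => ?_
      have := (Finset.mem_filter.1 hs).2
      push Not at this
      rw [this]
      simp
    rw [b2, add_zero]
    refine (norm_sum_le _ _).trans (Finset.sum_le_sum fun s _ => ?_)
    rw [norm_mul (a s), norm_mul ((wbl 0 s ∅ k : ℝ) : ℂ), Complex.norm_real, Real.norm_eq_abs,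
      abs_of_nonneg (famhg_wbl_01 h5 s k).1]
    refine mul_le_mul_of_nonneg_left ?_ (norm_nonneg _)
    exact mul_le_of_le_one_left (norm_nonneg _) (famhg_wbl_01 h5 s k).2
  have b3 : ‖∑ s ∈ SS, a s * ((wbl 0 s ∅ k : ℂ) * v s)‖^2 ≤
      4^d * ∑ s ∈ SS.filter (fun s => wbl 0 s ∅ k ≠ 0), (‖a s‖ * ‖v s‖)^2 := by
    calc ‖∑ s ∈ SS, a s * ((wbl 0 s ∅ k : ℂ) * v s)‖^2
        ≤ (∑ s ∈ SS.filter (fun s => wbl 0 s ∅ k ≠ 0), ‖a s‖ * ‖v s‖)^2 :=
          pow_le_pow_left₀ (norm_nonneg _) b1 2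
      _ ≤ (SS.filter (fun s => wbl 0 s ∅ k ≠ 0)).card *
          ∑ s ∈ SS.filter (fun s => wbl 0 s ∅ k ≠ 0), (‖a s‖ * ‖v s‖)^2 :=
          sq_sum_le_card_mul_sum_sq
      _ ≤ _ := by
          refine mul_le_mul_of_nonneg_right ?_ (Finset.sum_nonneg fun _ _ => sq_nonneg _)
          exact_mod_cast famhg_mult h5 SS k
  have b4 : ∀ s ∈ SS.filter (fun s => wbl 0 s ∅ k ≠ 0), (‖a s‖ * ‖v s‖)^2 ≤
      c^2 * (2:ℝ)^(4 * r * d) * ((2:ℝ)^(-(r * (wN k : ℝ))))^2 * ‖v s‖^2 := by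
    intro s hs
    have b5 := (famhg_wN h5 (Finset.mem_filter.1 hs).2).2
    have b6 : (wN k : ℝ) ≤ ∑ j, (s j : ℝ) + 2 * d := by exact_mod_cast b5
    rw [mul_pow, hanorm, mul_pow]
    refine mul_le_mul_of_nonneg_right ?_ (sq_nonneg _)
    rw [mul_assoc]
    refine mul_le_mul_of_nonneg_left ?_ (sq_nonneg _)
    rw [← Real.rpow_natCast ((2:ℝ)^(-(r * (wN k : ℝ)))) 2,
      ← Real.rpow_natCast ((2:ℝ)^(-(r * ∑ j, (s j : ℝ)))) 2, ← Real.rpow_mul (by norm_num),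
      ← Real.rpow_mul (by norm_num), ← Real.rpow_add (by norm_num)]
    refine Real.rpow_le_rpow_of_exponent_le (by norm_num) ?_
    push_cast
    nlinarith
  rw [div_le_iff₀ (by positivity)]
  refine b3.trans ?_
  have b7 : ∑ s ∈ SS.filter (fun s => wbl 0 s ∅ k ≠ 0), (‖a s‖ * ‖v s‖)^2 ≤
      ∑ s ∈ SS, c^2 * (2:ℝ)^(4 * r * d) * ((2:ℝ)^(-(r * (wN k : ℝ))))^2 * ‖v s‖^2 :=
    (Finset.sum_le_sum b4).trans (Finset.sum_le_sum_of_subset_of_nonneg
      (Finset.filter_subset _ _) fun _ _ _ => by positivity)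
  refine (mul_le_mul_of_nonneg_left b7 (by positivity)).trans (le_of_eq ?_)
  rw [← Finset.mul_sum]
  field_simp

/-- decomposition of the blocks -/
theorem famhg_block (h5 : S_WBF) {d M m : ℕ} (B : ℝ) (hB : 0 < B) (X : Fin M → GG d m)
    (s : Fin d → ℕ) : ∃ φ e : (Fin d → ℝ) → ℂ, Continuous φ ∧ (∀ x, ‖φ x‖ ≤ 1) ∧
      (∀ x, ((famhg_g X s x : ℝ) : ℂ) = (B : ℂ) * wop 0 s ∅ φ x + wop 0 s ∅ e x) ∧
      ∀ S : Finset (Fin d → ℤ), ∑ k ∈ S, ‖fc e k‖^2 ≤
        (∫ x, (famhg_g X s x)^4 ∂(TP d)) / B^2 := by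
  have := TP_prob d
  set φ : (Fin d → ℝ) → ℂ := fun x =>
    ((famhg_cl B (famhg_g X s x) / B : ℝ) : ℂ) with hφ
  set e : (Fin d → ℝ) → ℂ := fun x =>
    ((famhg_g X s x - famhg_cl B (famhg_g X s x) : ℝ) : ℂ) with he
  have hφc : Continuous φ := Complex.continuous_ofReal.comp
    (((famhg_cl_cont B).comp (famhg_g_cont X s)).div_const B)
  have hec : Continuous e := Complex.continuous_ofReal.comp
    ((famhg_g_cont X s).sub ((famhg_cl_cont B).comp (famhg_g_cont X s)))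
  have hφ1 : ∀ x, ‖φ x‖ ≤ 1 := by
    intro x
    rw [hφ]
    simp only
    rw [Complex.norm_real, Real.norm_eq_abs, abs_div, abs_of_pos hB, div_le_one hB]
    exact famhg_cl_le hB
  have hesq : ∀ x, ‖e x‖^2 ≤ (famhg_g X s x)^4 / B^2 := by
    intro x
    rw [he]
    simp only
    rw [Complex.norm_real, Real.norm_eq_abs, sq_abs]
    exact famhg_cl_sub hB
  set T : ℝ := (Real.sqrt (M * 2^(∑ j, s j)))⁻¹ * (M * (shb s).card) with hT
  have heb : ∀ x, ‖e x‖ ≤ T + B := by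
    intro x
    rw [he]
    simp only
    rw [Complex.norm_real, Real.norm_eq_abs]
    exact (abs_sub _ _).trans (add_le_add (famhg_g_bdd X s x) (famhg_cl_le hB))
  have hei : Integrable e (TP d) :=
    Integrable.of_bound (C := T + B) hec.aestronglyMeasurable (Filter.Eventually.of_forall heb)
  have he2 : MemLp e 2 (TP d) :=
    MemLp.of_bound hec.aestronglyMeasurable (T + B) (Filter.Eventually.of_forall heb)
  have hφi : Integrable φ (TP d) :=
    Integrable.of_bound (C := 1) hφc.aestronglyMeasurable (Filter.Eventually.of_forall hφ1)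
  have hgi : Integrable (fun x => (famhg_g X s x)^4) (TP d) := by
    refine Integrable.of_bound (C := T^4)
      ((famhg_g_cont X s).pow _).aestronglyMeasurable (Filter.Eventually.of_forall fun x => ?_)
    rw [norm_pow, Real.norm_eq_abs]
    exact pow_le_pow_left₀ (abs_nonneg _) (famhg_g_bdd X s x) _
  have he2i : Integrable (fun x => ‖e x‖^2) (TP d) := by
    refine Integrable.of_bound (C := (T + B)^2)
      (hec.norm.pow _).aestronglyMeasurable (Filter.Eventually.of_forall fun x => ?_)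
    rw [norm_pow, norm_norm]
    exact pow_le_pow_left₀ (norm_nonneg _) (heb x) _
  refine ⟨φ, e, hφc, hφ1, ?_, ?_⟩
  · intro x
    rw [← famhg_wop_g h5 X s x]
    have b1 : (fun x => ((famhg_g X s x : ℝ) : ℂ)) = fun x => (B : ℂ) * φ x + e x := by
      funext y
      rw [hφ, he]
      simp only
      push_cast
      have : (B : ℂ) ≠ 0 := by exact_mod_cast hB.ne'
      field_simp
      ring
    rw [b1]
    unfold wop
    rw [Finset.mul_sum, ← Finset.sum_add_distrib]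
    refine Finset.sum_congr rfl fun k _ => ?_
    have b2 : fc (fun x => (B : ℂ) * φ x + e x) k = (B : ℂ) * fc φ k + fc e k := by
      rw [famhg_fc_add _ _ (hφi.const_mul _) hei]
      congr 1
      rw [wfc, wfc, ← integral_const_mul]
      refine integral_congr_ae (Filter.Eventually.of_forall fun x => ?_)
      show (B : ℂ) * φ x * _ = _
      ring
    rw [b2]
    ring
  · intro S
    refine (famhg_bessel e he2 S).trans ?_
    rw [← integral_div]
    exact integral_mono he2i (hgi.div_const _) hesq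

/-- decomposition of the functions -/
theorem famhg_dec (h5 : S_WBF) {d M m : ℕ} (r c C B W : ℝ) (hr : 0 < r) (hc : 0 < c)
    (hC : 0 < C) (hB : 0 < B) (hW0 : 0 < W) (SS : Finset (Fin d → ℕ)) (hSS0 : (0:ℝ) < SS.card)
    (hmem : ∀ φ : (Fin d → ℕ) → (Fin d → ℝ) → ℂ, (∀ s, Continuous (φ s)) →
      (∀ s x, ‖φ s x‖ ≤ 1) →
      (fun x => (c : ℂ) * ∑ s ∈ SS, (((2:ℝ)^(-(r * ∑ j, (s j : ℝ))) : ℝ) : ℂ) *
        wop 0 s ∅ (φ s) x) ∈ HypVolE.HH d r ⊤)
    (X : Fin M → GG d m)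
    (hX : ∑ s ∈ SS, ∫ x, (famhg_g X s x)^4 ∂(TP d) ≤ 10 * (C * SS.card))
    (hW2 : W^2 = (c^2 * 4^d * (2:ℝ)^(4 * r * d) * (10 * C)) * SS.card / B^2) :
    ∃ f1 ∈ HypVolE.HH d r ⊤, ∃ a : (famhg_LA SS) × Fin 2 → ℝ, ∑ j, a j ^ 2 ≤ 1 ∧
      ∀ x, (c : ℂ) * ∑ s ∈ SS, (((2:ℝ)^(-(r * ∑ j, (s j : ℝ))) : ℝ) : ℂ) *
        ((famhg_g X s x : ℝ) : ℂ) = (B : ℂ) * f1 x +
        gp (famhg_LA SS) (fun j => (W * (2:ℝ)^(-(r * (wN j.1.1 : ℝ)))) * a j) x := by
  classical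
  choose φ e h1 h2 h3 h4 using fun s => famhg_block h5 B hB X s
  set a : (Fin d → ℕ) → ℂ := fun s =>
    (c : ℂ) * (((2:ℝ)^(-(r * ∑ j, (s j : ℝ))) : ℝ) : ℂ) with ha
  set co : (Fin d → ℤ) → ℂ := fun k =>
    ∑ s ∈ SS, a s * ((wbl 0 s ∅ k : ℂ) * fc (e s) k) with hco
  have hsum : ∑ k ∈ famhg_LA SS, ‖co k‖^2 / (W * (2:ℝ)^(-(r * (wN k : ℝ))))^2 ≤ 1 := by
    have hcok : ∀ k, ‖co k‖^2 / (W * (2:ℝ)^(-(r * (wN k : ℝ))))^2 ≤
        c^2 * 4^d * (2:ℝ)^(4 * r * d) / W^2 * ∑ s ∈ SS, ‖fc (e s) k‖^2 := fun k =>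
      famhg_co h5 r c W hr hc hW0 SS (fun s => fc (e s) k) k
    refine (Finset.sum_le_sum fun k _ => hcok k).trans ?_
    rw [← Finset.mul_sum, Finset.sum_comm]
    have b1 : ∑ s ∈ SS, ∑ k ∈ famhg_LA SS, ‖fc (e s) k‖^2 ≤ 10 * (C * SS.card) / B^2 := by
      refine (Finset.sum_le_sum fun s _ => h4 s _).trans ?_
      rw [← Finset.sum_div]
      gcongr
    refine (mul_le_mul_of_nonneg_left b1 (by positivity)).trans (le_of_eq ?_)
    rw [hW2]
    field_simp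
  obtain ⟨av, hav1, hav2⟩ := famhg_gp (famhg_LA SS)
    (fun k => W * (2:ℝ)^(-(r * (wN k : ℝ)))) (fun k _ => by positivity) co hsum
  refine ⟨_, hmem φ h1 h2, av, hav1, fun x => ?_⟩
  rw [hav2 x]
  simp only [h3]
  rw [← famhg_wop_sum h5 SS a e x, Finset.mul_sum, Finset.mul_sum, Finset.mul_sum,
    ← Finset.sum_add_distrib]
  refine Finset.sum_congr rfl fun s _ => ?_
  rw [ha]
  ring

theorem famhg (h1 : S_SEP) (h3 : S_HPHI) (h4 : S_HMEM) (h5 : S_WBF) (d : ℕ) (hd : 1 ≤ d)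
    (r : ℝ) (hr : 0 < r) : ∃ c0 C0 : ℝ, 0 < c0 ∧ 0 < C0 ∧
    ∀ (J : Finset ℕ) (w : ℕ → ℝ) (m M N : ℕ) (θ κ B R : ℝ), 1 ≤ M →
    (∀ μ, w μ = (2:ℝ)^(-(r * μ)) * (Real.sqrt (2^μ))⁻¹) →
    (∀ μ ∈ J, 1 ≤ μ ∧ μ ≤ m ∧ 2^μ ≤ M ∧ μ + 2 ≤ N) →
    κ = ∑ μ ∈ J, w μ * (layer d μ).card → 0 < κ → 0 < θ → 200 ≤ θ * κ →
    (∀ x : GG d m, ∑ y : GG d m, Real.exp (θ * wker J w 0 0 (gpt x - gpt y)) ≤
      (Fintype.card (GG d m)) * Real.exp (θ * κ / (16 * M))) →
    (∀ x : GG d m, ∑ y : GG d m, Real.exp (-θ * wker J w 0 0 (gpt x - gpt y)) ≤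
      (Fintype.card (GG d m)) * Real.exp (θ * κ / (16 * M))) →
    0 < B →
    C0 * (∑ μ ∈ J, (shp d μ : ℝ)) * ∑ n' ∈ J.biUnion (fun μ => Finset.Icc (μ - d) (μ + 2*d)),
      (2:ℝ)^(-(2 * r * n')) * (layer d n').card ≤ (B * R)^2 →
    FamH d r (Real.exp (θ * κ * M / 100)) (c0 * (Real.sqrt M)⁻¹ * (κ / 2)) B R N := by
  classical
  have := TP_prob d
  obtain ⟨C, hC, hphi⟩ := h3 d hd
  obtain ⟨c, hc, hmem⟩ := h4 d r hr
  refine ⟨c, c^2 * 4^d * (2:ℝ)^(4 * r * d) * (10 * C), hc, by positivity, ?_⟩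
  intro J w m M N θ κ B R hM hw hJ hκ hκ0 hθ hθκ hexp1 hexp2 hB hR
  set C0 : ℝ := c^2 * 4^d * (2:ℝ)^(4 * r * d) * (10 * C) with hC0
  have hC00 : 0 < C0 := by positivity
  set SS := famhg_SS d J with hSS
  have hM0 : (0:ℝ) < M := by exact_mod_cast hM
  have hJne : J.Nonempty := by
    rw [Finset.nonempty_iff_ne_empty]
    rintro rfl
    rw [hκ] at hκ0
    simp at hκ0
  have hSSne : SS.Nonempty := by
    obtain ⟨μ, hμ⟩ := hJne
    have : NeZero d := ⟨by omega⟩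
    refine ⟨Pi.single 0 μ, ?_⟩
    rw [hSS, famhg_mem_SS, Finset.sum_pi_single']
    simpa using hμ
  have hSS0 : (0:ℝ) < SS.card := by exact_mod_cast Finset.card_pos.2 hSSne
  -- fourth moments
  have hgi : ∀ (X : Fin M → GG d m) (s : Fin d → ℕ),
      Integrable (fun x => (famhg_g X s x)^4) (TP d) := by
    intro X s
    refine Integrable.of_bound
      (C := ((Real.sqrt (M * 2^(∑ j, s j)))⁻¹ * (M * (shb s).card))^4)
      ((famhg_g_cont X s).pow _).aestronglyMeasurable (Filter.Eventually.of_forall fun x => ?_)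
    rw [norm_pow, Real.norm_eq_abs]
    exact pow_le_pow_left₀ (abs_nonneg _) (famhg_g_bdd X s x) _
  have hcardM : (Fintype.card (Fin M → GG d m) : ℝ) = (Fintype.card (GG d m) : ℝ)^M := by
    rw [Fintype.card_fun, Fintype.card_fin]
    push_cast
    rfl
  have hmom : ∀ s ∈ SS, ∀ x, ∑ X : Fin M → GG d m, (famhg_g X s x)^4 ≤
      C * (Fintype.card (GG d m) : ℝ)^M := by
    intro s hs x
    rw [hSS, famhg_mem_SS] at hs
    obtain ⟨a1, a2, a3, a4⟩ := hJ _ hs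
    have b1 := hphi s m M (fun j => (Finset.single_le_sum (f := fun j => s j)
      (fun _ _ => Nat.zero_le _) (Finset.mem_univ j)).trans a2) a1 a3 x
    have hA : (0:ℝ) < M * 2^(∑ j, s j) := by positivity
    have b2 : ∀ X : Fin M → GG d m, (famhg_g X s x)^4 =
        ((M * 2^(∑ j, s j) : ℝ)^2)⁻¹ * (∑ i, dker s (x - gpt (X i)))^4 := by
      intro X
      unfold famhg_g
      rw [mul_pow, inv_pow]
      congr 2
      rw [show 4 = 2 * 2 by norm_num, pow_mul, Real.sq_sqrt hA.le]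
    rw [Finset.sum_congr rfl fun X _ => b2 X, ← Finset.mul_sum, inv_mul_le_iff₀ (by positivity)]
    refine b1.trans (le_of_eq ?_)
    ring
  set u : (Fin M → GG d m) → ℝ := fun X => ∑ s ∈ SS, ∫ x, (famhg_g X s x)^4 ∂(TP d) with hu
  have hint : ∑ X, u X ≤ (C * SS.card) * Fintype.card (Fin M → GG d m) := by
    rw [hu, Finset.sum_comm]
    have b1 : ∀ s ∈ SS, ∑ X : Fin M → GG d m, ∫ x, (famhg_g X s x)^4 ∂(TP d) ≤
        C * (Fintype.card (GG d m) : ℝ)^M := by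
      intro s hs
      rw [← integral_finsetSum _ fun X _ => hgi X s]
      refine (integral_mono (integrable_finsetSum _ fun X _ => hgi X s) (integrable_const _)
        (hmom s hs)).trans_eq ?_
      rw [integral_const]
      simp
    refine (Finset.sum_le_sum b1).trans (le_of_eq ?_)
    rw [Finset.sum_const, nsmul_eq_mul, hcardM]
    ring
  have hgood := famhg_markov u (fun X => Finset.sum_nonneg fun s _ => integral_nonneg fun x => by
    positivity) (C * SS.card) (by positivity) hint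
  rw [hcardM] at hgood
  have hKxx : ∀ x : GG d m, wker J w 0 0 (gpt x - gpt x) = κ := by
    intro x
    rw [sub_self, famg_wker_zero, hκ]
  obtain ⟨F, hFg, hFc, hFs⟩ := h1 (GG d m) (fun x y => wker J w 0 0 (gpt x - gpt y)) κ θ M _ hM
    hκ0 hθ hθκ hKxx hexp1 hexp2 hgood
  set W : ℝ := Real.sqrt (C0 * SS.card) / B with hW
  have hW0 : 0 < W := div_pos (Real.sqrt_pos.2 (by positivity)) hB
  have hW2 : W^2 = C0 * SS.card / B^2 := by
    rw [hW, div_pow, Real.sq_sqrt (by positivity)]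
  set hX : (Fin M → GG d m) → (Fin d → ℝ) → ℂ := fun X x =>
    (c : ℂ) * ∑ s ∈ SS, (((2:ℝ)^(-(r * ∑ j, (s j : ℝ))) : ℝ) : ℂ) * ((famhg_g X s x : ℝ) : ℂ)
    with hhX
  have hhX' : ∀ X x, hX X x = ((c * ((Real.sqrt M)⁻¹ * ∑ i, wker J w 0 0 (x - gpt (X i))) : ℝ) : ℂ) := by
    intro X x
    rw [← famhg_wker J w r hw X x, hhX]
    push_cast
    rfl
  refine ⟨{X // X ∈ F}, inferInstance, fun X => hX X.1, famhg_LA SS,
    fun k => W * (2:ℝ)^(-(r * (wN k : ℝ))), ?_, ?_, ?_, ?_, ?_, ?_, ?_⟩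
  · rw [Fintype.card_coe]
    exact hFc
  · intro X
    refine continuous_const.mul (continuous_finsetSum _ fun s _ => continuous_const.mul ?_)
    exact Complex.continuous_ofReal.comp (famhg_g_cont X.1 s)
  · intro X x l
    simp only [hhX, famhg_g_per]
  · intro k hk j
    unfold famhg_LA at hk
    obtain ⟨-, s, hs, hk⟩ := Finset.mem_filter.1 hk
    rw [hSS, famhg_mem_SS] at hs
    have b1 := (famhg_wbl_ne h5 hk j).2
    have b2 : s j ≤ ∑ j, s j := Finset.single_le_sum (f := fun j => s j)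
      (fun _ _ => Nat.zero_le _) (Finset.mem_univ j)
    have b3 := (hJ _ hs).2.2.2
    have b4 : (k j).natAbs < 2 ^ N := Nat.size_le.1 (by omega)
    rw [Int.abs_eq_natAbs]
    exact_mod_cast b4
  · exact famhg_size h5 J r W C0 B R hB hC00 hW2 hR
  · intro X
    obtain ⟨f1, hf1, a, ha1, ha2⟩ := famhg_dec h5 r c C B W hr hc hC hB hW0 SS hSS0
      (fun φ hφc hφ1 => hmem SS φ (fun s _ => (hφc s).aestronglyMeasurable)
        (fun s _ => Filter.Eventually.of_forall (hφ1 s))) X.1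
      ((Finset.mem_filter.1 (hFg X.2)).2) hW2
    exact ⟨f1, hf1, a, ha1, Filter.Eventually.of_forall fun x => ha2 x⟩
  · intro X X' hne
    obtain ⟨z, hz⟩ := hFs X.1 X.2 X'.1 X'.2 (fun h => hne (Subtype.ext h))
    refine ⟨gpt z, ?_⟩
    show _ ≤ ‖hX X.1 (gpt z) - hX X'.1 (gpt z)‖
    rw [hhX', hhX', ← Complex.ofReal_sub, Complex.norm_real, Real.norm_eq_abs, ← mul_sub,
      ← mul_sub, abs_mul, abs_mul, abs_of_pos hc, abs_of_pos (by positivity), ← mul_assoc]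
    exact mul_le_mul_of_nonneg_left hz (by positivity)

end SmSm
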