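import Pool.Agent.H636R2.SM.Spec
import Pool.Agent.HypVol.L_TP_prob
open MeasureTheory Real ProbabilityTheory
open scoped ENNReal BigOperators

/-!
FINAL: the order of the widths.
-/

namespace SmSm
open HypVol MWidth

theorem final_ML_sub (𝕜 : Type) [RCLike 𝕜] {d : ℕ} (r : ℝ) (α : Fin d → ℝ) {p q : ℝ≥0∞}
    (h : p ≤ q) : ML 𝕜 d r q α ⊆ ML 𝕜 d r p α := by
  have := TP_prob d
  rintro f ⟨φ, hφ, hφ1, rfl⟩
  exact ⟨φ, hφ.mono_exponent h, (eLpNorm_le_eLpNorm_of_exponent_le h hφ.1).trans hφ1, rfl⟩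

theorem final_mono (𝕜 : Type) [RCLike 𝕜] {d : ℕ} (m : ℕ) {S T : Set ((Fin d → ℝ) → 𝕜)}
    (h : S ⊆ T) : kolW2 m S ≤ kolW2 m T := by
  unfold kolW2
  exact iInf₂_mono fun U hU => biSup_mono fun f hf => h hf

theorem final_q {q : ℝ≥0∞} {r : ℝ} (hq : 2 < q) (hr : 0 < r) (h : 1 / q < ENNReal.ofReal r) :
    ∃ q' : ℝ, 2 < q' ∧ 1 / q' < r ∧ ENNReal.ofReal q' ≤ q := by
  by_cases hT : q = ⊤
  · refine ⟨2 / r + 3, ?_, ?_, by rw [hT]; exact le_top⟩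
    · have : 0 < 2 / r := by positivity
      linarith
    · have h1 : 0 < 2 / r := by positivity
      rw [div_lt_iff₀ (by positivity)]
      have h2 : r * (2 / r) = 2 := by field_simp
      nlinarith
  · have hq0 : q ≠ 0 := (lt_trans (by norm_num) hq).ne'
    refine ⟨q.toReal, ?_, ?_, ?_⟩
    · have := (ENNReal.toReal_lt_toReal (by norm_num) hT).2 hq
      simpa using this
    · have h1 : (1 / q : ℝ≥0∞) ≠ ⊤ := by
        rw [one_div]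
        exact ENNReal.inv_ne_top.2 hq0
      have := (ENNReal.toReal_lt_toReal h1 ENNReal.ofReal_ne_top).2 h
      rw [ENNReal.toReal_ofReal hr.le, one_div, ENNReal.toReal_inv] at this
      rw [one_div]
      exact this
    · rw [ENNReal.ofReal_toReal hT]

theorem final_half {q : ℝ≥0∞} (hq : 2 < q) : 1 / q < ENNReal.ofReal (1 / 2) := by
  rw [one_div, one_div, ENNReal.ofReal_inv_of_pos (by norm_num), ENNReal.inv_lt_inv]
  simpa using hq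

theorem final (hLA : S_LOWA0) (hLB : S_LOWB0) (hNA : S_NUMLA) (hNB : S_NUMLB) (hUA : S_UPA)
    (hUB : S_UPB) (hB : S_BDD) (hCL : S_CL) (hA : S_ADM) : S_FINAL := by
  intro 𝕜 _ d hd α q hq
  constructor
  · intro r hqr hr hr2
    obtain ⟨q', hq'2, hq'r, hq'q⟩ := final_q hq hr hqr
    obtain ⟨C, hC, hCu⟩ := hUA 𝕜 d (by omega) q' r hq'2 hq'r hr2 α
    obtain ⟨B, -, hBd⟩ := hB 𝕜 d (by omega) q' r hq'2 hq'r α
    obtain ⟨c₁, μ0, hc₁, hlow⟩ := hLA 𝕜 d hd r hr hr2 α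
    obtain ⟨c₂, hc₂, hnum⟩ := hNA d hd r hr hr2.le c₁ μ0 hc₁
    have hsub : ML 𝕜 d r ⊤ α ⊆ ML 𝕜 d r (ENNReal.ofReal q') α := final_ML_sub 𝕜 r α le_top
    obtain ⟨c, hc, hcl⟩ := hCL 𝕜 d (ML 𝕜 d r ⊤ α) B (psiA d r)
      (hA.1 d r (by omega) hr (by linarith)) (fun f hf => hBd f (hsub hf))
      ⟨C, hC, fun m hm => (final_mono 𝕜 m hsub).trans (hCu m hm)⟩
      ⟨c₂, hc₂, fun k hk => by
        obtain ⟨μ, hμ, h1, h2⟩ := hnum k hk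
        exact (ENNReal.ofReal_le_ofReal h2).trans (hlow μ hμ k h1)⟩
    refine ⟨c, C, hc, hC, fun m hm => ⟨?_, ?_⟩⟩
    · exact (hcl m hm).trans (final_mono 𝕜 m (final_ML_sub 𝕜 r α le_top))
    · exact (final_mono 𝕜 m (final_ML_sub 𝕜 r α hq'q)).trans (hCu m hm)
  · obtain ⟨q', hq'2, hq'r, hq'q⟩ := final_q hq (by norm_num : (0:ℝ) < 1 / 2) (final_half hq)
    obtain ⟨C, hC, hCu⟩ := hUB 𝕜 d (by omega) q' hq'2 α
    obtain ⟨B, -, hBd⟩ := hB 𝕜 d (by omega) q' (1 / 2) hq'2 hq'r α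
    obtain ⟨c₁, n0, hc₁, hlow⟩ := hLB 𝕜 d hd α
    obtain ⟨c₂, hc₂, hnum⟩ := hNB d hd c₁ n0 hc₁
    have hsub : ML 𝕜 d (1 / 2) ⊤ α ⊆ ML 𝕜 d (1 / 2) (ENNReal.ofReal q') α :=
      final_ML_sub 𝕜 (1 / 2) α le_top
    obtain ⟨c, hc, hcl⟩ := hCL 𝕜 d (ML 𝕜 d (1 / 2) ⊤ α) B (psiB d)
      (hA.2 d (by omega)) (fun f hf => hBd f (hsub hf))
      ⟨C, hC, fun m hm => (final_mono 𝕜 m hsub).trans (hCu m hm)⟩
      ⟨c₂, hc₂, fun k hk => by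
        obtain ⟨μ, hμ, h1, h2⟩ := hnum k hk
        exact (ENNReal.ofReal_le_ofReal h2).trans (hlow μ hμ k h1)⟩
    refine ⟨c, C, hc, hC, fun m hm => ⟨?_, ?_⟩⟩
    · exact (hcl m hm).trans (final_mono 𝕜 m (final_ML_sub 𝕜 (1 / 2) α le_top))
    · exact (final_mono 𝕜 m (final_ML_sub 𝕜 (1 / 2) α hq'q)).trans (hCu m hm)

end SmSm
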