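import Pool.Agent.H636R2.SM.SpecP
import Pool.Agent.HypVol.L_fc_poly
open MeasureTheory Real ProbabilityTheory
open scoped ENNReal BigOperators

namespace SmSm
open HypVol MWidth

theorem hld_integrable {d : ℕ} (f : (Fin d → ℝ) → ℂ) (hf : Continuous f) (C : ℝ)
    (h : ∀ z, ‖f z‖ ≤ C) : Integrable f (TP d) := by
  have := TP_prob d
  exact Integrable.of_bound hf.aestronglyMeasurable C (Filter.Eventually.of_forall h)

theorem hld_integrableR {d : ℕ} (f : (Fin d → ℝ) → ℝ) (hf : Continuous f) (C : ℝ)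
    (h : ∀ z, ‖f z‖ ≤ C) : Integrable f (TP d) := by
  have := TP_prob d
  exact Integrable.of_bound hf.aestronglyMeasurable C (Filter.Eventually.of_forall h)

theorem hld_vk_cont (s : ℕ) : Continuous (vk s) := by
  unfold vk
  fun_prop

theorem hld_chi_norm {d : ℕ} (k : Fin d → ℤ) (z : Fin d → ℝ) : ‖chi k z‖ = 1 := by
  unfold chi
  rw [mul_comm, Complex.norm_exp_ofReal_mul_I]

theorem hld_chi_cont {d : ℕ} (k : Fin d → ℤ) : Continuous (chi k : (Fin d → ℝ) → ℂ) := by
  unfold chi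
  fun_prop

/-- conjugate character -/
noncomputable def hld_cc {d : ℕ} (k : Fin d → ℤ) (z : Fin d → ℝ) : ℂ :=
  Complex.exp (-(Complex.I * ((∑ j, (k j : ℝ) * z j : ℝ) : ℂ)))

theorem hld_cc_norm {d : ℕ} (k : Fin d → ℤ) (z : Fin d → ℝ) : ‖hld_cc k z‖ = 1 := by
  unfold hld_cc
  have e : -(Complex.I * ((∑ j, (k j : ℝ) * z j : ℝ) : ℂ)) =
      ((-(∑ j, (k j : ℝ) * z j) : ℝ) : ℂ) * Complex.I := by
    push_cast
    ring
  rw [e, Complex.norm_exp_ofReal_mul_I]

theorem hld_cc_cont {d : ℕ} (k : Fin d → ℤ) : Continuous (hld_cc k : (Fin d → ℝ) → ℂ) := by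
  unfold hld_cc
  fun_prop

theorem hld_kernel {d : ℕ} (s : Fin d → ℕ) (x z : Fin d → ℝ) :
    ∏ j, vk (s j) (x j - z j) =
      ∑ k ∈ Fintype.piFinset (fun j => Finset.Ioo (-(2:ℤ)^(s j + 2)) ((2:ℤ)^(s j + 2))),
        (∏ j, (vp (s j + 1) (k j) : ℂ)) * chi k x * hld_cc k z := by
  unfold vk
  rw [Finset.prod_univ_sum]
  refine Finset.sum_congr rfl fun k _ => ?_
  rw [Finset.prod_mul_distrib, mul_assoc]
  congr 1
  rw [← Complex.exp_sum, chi, hld_cc, ← Complex.exp_add]
  congr 1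
  push_cast
  rw [Finset.mul_sum, Finset.mul_sum, ← Finset.sum_neg_distrib, ← Finset.sum_add_distrib]
  refine Finset.sum_congr rfl fun j _ => ?_
  ring

theorem hld_vp_one (s : ℕ) (k : ℤ) (hk : k ∈ Finset.Ioo (-(2:ℤ)^(s + 1)) ((2:ℤ)^(s + 1))) :
    vp (s + 1) k = 1 := by
  rw [Finset.mem_Ioo] at hk
  have h1 : |(k:ℝ)| ≤ 2^(s+1) := by
    rw [abs_le]
    constructor
    · have : (-(2:ℤ)^(s + 1) : ℤ) ≤ k := hk.1.le
      have h2 : ((-(2:ℤ)^(s + 1) : ℤ) : ℝ) ≤ (k : ℝ) := by exact_mod_cast this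
      push_cast at h2
      exact h2
    · have : k ≤ ((2:ℤ)^(s + 1) : ℤ) := hk.2.le
      have h2 : (k : ℝ) ≤ (((2:ℤ)^(s + 1) : ℤ) : ℝ) := by exact_mod_cast this
      push_cast at h2
      exact h2
  have h2 : |(k:ℝ)| / 2^(s+1) ≤ 1 := by
    rw [div_le_one (by positivity)]
    exact h1
  unfold vp
  rw [min_eq_left (by linarith), max_eq_right (by norm_num)]

theorem hld_boxs_sub {d : ℕ} (s : Fin d → ℕ) : boxs s ⊆
    Fintype.piFinset (fun j => Finset.Ioo (-(2:ℤ)^(s j + 2)) ((2:ℤ)^(s j + 2))) := by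
  unfold boxs
  refine Fintype.piFinset_subset _ _ fun j => ?_
  intro k hk
  rw [Finset.mem_Ioo] at hk ⊢
  have h1 : (2:ℤ)^(s j + 1) ≤ (2:ℤ)^(s j + 2) := pow_le_pow_right₀ (by norm_num) (by omega)
  constructor
  · linarith [hk.1]
  · linarith [hk.2]

theorem hld_repr {d : ℕ} (s : Fin d → ℕ) (c : (Fin d → ℤ) → ℂ) (x : Fin d → ℝ) :
    ∑ l ∈ boxs s, c l * chi l x =
      ∫ z, (∏ j, vk (s j) (x j - z j)) * (∑ l ∈ boxs s, c l * chi l z) ∂(TP d) := by
  have h1 : ∀ z : Fin d → ℝ, (∏ j, vk (s j) (x j - z j)) * (∑ l ∈ boxs s, c l * chi l z) =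
      ∑ k ∈ Fintype.piFinset (fun j => Finset.Ioo (-(2:ℤ)^(s j + 2)) ((2:ℤ)^(s j + 2))),
        ∑ l ∈ boxs s, ((∏ j, (vp (s j + 1) (k j) : ℂ)) * chi k x * c l) *
          (chi l z * hld_cc k z) := by
    intro z
    rw [hld_kernel, Finset.sum_mul]
    refine Finset.sum_congr rfl fun k _ => ?_
    rw [Finset.mul_sum]
    refine Finset.sum_congr rfl fun l _ => ?_
    ring
  simp_rw [h1]
  have hint : ∀ k l : Fin d → ℤ, Integrable (fun z => (chi l z * hld_cc k z : ℂ)) (TP d) := by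
    intro k l
    refine hld_integrable _ ((hld_chi_cont l).mul (hld_cc_cont k)) 1 fun z => ?_
    rw [norm_mul, hld_chi_norm, hld_cc_norm, mul_one]
  rw [integral_finset_sum _ (fun k _ => integrable_finset_sum _
    fun l _ => (hint k l).const_mul _)]
  have h2 : ∀ k : Fin d → ℤ, ∫ z, ∑ l ∈ boxs s, ((∏ j, (vp (s j + 1) (k j) : ℂ)) * chi k x * c l) *
          (chi l z * hld_cc k z) ∂(TP d) =
      if k ∈ boxs s then c k * chi k x else 0 := by
    intro k
    rw [integral_finset_sum _ fun l _ => (hint k l).const_mul _]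
    have h3 : ∀ l ∈ boxs s, ∫ z, ((∏ j, (vp (s j + 1) (k j) : ℂ)) * chi k x * c l) *
          (chi l z * hld_cc k z) ∂(TP d) = if l = k then c k * chi k x else 0 := by
      intro l hl
      rw [integral_const_mul]
      have h4 : ∫ z, (chi l z * hld_cc k z) ∂(TP d) = if l = k then 1 else 0 :=
        Sol_fc_poly.hv_orth l k
      rw [h4]
      split_ifs with h5
      · subst h5
        have h6 : (∏ j, (vp (s j + 1) (l j) : ℂ)) = 1 := by
          refine Finset.prod_eq_one fun j _ => ?_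
          rw [boxs, Fintype.mem_piFinset] at hl
          rw [hld_vp_one (s j) (l j) (hl j)]
          norm_num
        rw [h6]
        ring
      · ring
    rw [Finset.sum_congr rfl h3, Finset.sum_ite_eq']
  rw [Finset.sum_congr rfl fun k _ => h2 k, ← Finset.sum_filter]
  refine Finset.sum_congr ?_ fun _ _ => rfl
  ext k
  rw [Finset.mem_filter]
  exact ⟨fun h => ⟨hld_boxs_sub s h, h⟩, fun h => h.2⟩

theorem hld_int_kernel (hV : S_VK) {d : ℕ} (s : Fin d → ℕ) (x : Fin d → ℝ) :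
    ∫ z, (∏ j, ‖vk (s j) (x j - z j)‖) ∂(TP d) ≤ (3:ℝ)^d := by
  unfold TP
  have hfin : IsFiniteMeasure (ENNReal.ofReal (2 * π)⁻¹ • volume.restrict (Set.Ico 0 (2 * π))) :=
    Measure.smul_finite _ ENNReal.ofReal_ne_top
  rw [integral_fintype_prod_eq_prod (fun (j : Fin d) (y : ℝ) => ‖vk (s j) (x j - y)‖)]
  have h1 : ∀ j : Fin d, ∫ y, ‖vk (s j) (x j - y)‖
      ∂(ENNReal.ofReal (2 * π)⁻¹ • volume.restrict (Set.Ico 0 (2 * π))) ≤ 3 := by
    intro j
    have hpi : (0 : ℝ) < 2 * π := by positivity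
    rw [integral_smul_measure, ENNReal.toReal_ofReal (by positivity),
      integral_Ico_eq_integral_Ioo, ← integral_Ioc_eq_integral_Ioo,
      ← intervalIntegral.integral_of_le hpi.le, smul_eq_mul]
    exact (hV (s j)).2.2 (x j)
  calc ∏ j, ∫ y, ‖vk (s j) (x j - y)‖
      ∂(ENNReal.ofReal (2 * π)⁻¹ • volume.restrict (Set.Ico 0 (2 * π))) ≤ ∏ _j : Fin d, (3:ℝ) :=
        Finset.prod_le_prod (fun j _ => integral_nonneg fun _ => norm_nonneg _) fun j _ => h1 j
    _ = 3 ^ d := by rw [Finset.prod_const, Finset.card_univ, Fintype.card_fin]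

/-- Hölder's inequality for a kernel of mass at most `M` -/
theorem hld_jensen {d : ℕ} (V u : (Fin d → ℝ) → ℝ) (p M : ℝ) (hp : 1 ≤ p) (hM : 0 < M)
    (hV0 : ∀ z, 0 ≤ V z) (hu0 : ∀ z, 0 ≤ u z) (h1 : Integrable V (TP d))
    (h2 : Integrable (fun z => V z * u z) (TP d))
    (h3 : Integrable (fun z => V z * (u z)^p) (TP d))
    (hVM : ∫ z, V z ∂(TP d) ≤ M) :
    (∫ z, V z * u z ∂(TP d))^p ≤ M^(p-1) * ∫ z, V z * (u z)^p ∂(TP d) := by
  have hI3 : 0 ≤ ∫ z, V z * (u z)^p ∂(TP d) :=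
    integral_nonneg fun z => mul_nonneg (hV0 z) (Real.rpow_nonneg (hu0 z) p)
  have hI2 : 0 ≤ ∫ z, V z * u z ∂(TP d) := integral_nonneg fun z => mul_nonneg (hV0 z) (hu0 z)
  set I := ∫ z, V z * u z ∂(TP d) with hI
  rcases hI2.eq_or_lt with h0 | hpos
  · rw [← h0, Real.zero_rpow (by linarith)]
    exact mul_nonneg (Real.rpow_nonneg hM.le _) hI3
  · set m := I / M with hm
    have hm0 : 0 < m := div_pos hpos hM
    have hpt : ∀ z, m^p * ((1 - p) * V z + p / m * (V z * u z)) ≤ V z * (u z)^p := by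
      intro z
      have hb := one_add_mul_self_le_rpow_one_add (s := u z / m - 1)
        (by have := div_nonneg (hu0 z) hm0.le; linarith) hp
      have e1 : 1 + (u z / m - 1) = u z / m := by ring
      rw [e1, Real.div_rpow (hu0 z) hm0.le] at hb
      have hmp : 0 < m^p := Real.rpow_pos_of_pos hm0 p
      have hb2 : m^p * (1 + p * (u z / m - 1)) ≤ (u z)^p := by
        have := mul_le_mul_of_nonneg_left hb hmp.le
        rwa [mul_div_cancel₀ _ hmp.ne'] at this
      have hb3 := mul_le_mul_of_nonneg_left hb2 (hV0 z)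
      calc m^p * ((1 - p) * V z + p / m * (V z * u z)) =
            V z * (m^p * (1 + p * (u z / m - 1))) := by ring
        _ ≤ _ := hb3
    have hint := integral_mono (((h1.const_mul (1 - p)).add (h2.const_mul (p / m))).const_mul (m^p))
      h3 hpt
    have e2 : ∫ z, m^p * ((1 - p) * V z + p / m * (V z * u z)) ∂(TP d) =
        m^p * ((1 - p) * ∫ z, V z ∂(TP d) + p / m * I) := by
      rw [integral_const_mul, integral_add (h1.const_mul (1 - p)) (h2.const_mul (p / m)),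
        integral_const_mul, integral_const_mul]
    have hint' : m^p * ((1 - p) * ∫ z, V z ∂(TP d) + p / m * I) ≤
        ∫ z, V z * (u z)^p ∂(TP d) := by
      rw [← e2]
      exact hint
    have e3 : p / m * I = p * M := by
      rw [hm]
      field_simp
    rw [e3] at hint'
    have h4 : M ≤ (1 - p) * ∫ z, V z ∂(TP d) + p * M := by
      have : (1 - p) * M ≤ (1 - p) * ∫ z, V z ∂(TP d) :=
        mul_le_mul_of_nonpos_left hVM (by linarith)
      linarith
    have h5 : m^p * M ≤ ∫ z, V z * (u z)^p ∂(TP d) :=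
      le_trans (mul_le_mul_of_nonneg_left h4 (Real.rpow_nonneg hm0.le p)) hint'
    have e4 : I = m * M := by rw [hm]; field_simp
    rw [e4, Real.mul_rpow hm0.le hM.le]
    have e5 : M^p = M^(p-1) * M := by
      rw [← Real.rpow_add_one hM.ne']
      congr 1
      ring
    rw [e5]
    calc m^p * (M^(p-1) * M) = M^(p-1) * (m^p * M) := by ring
      _ ≤ _ := mul_le_mul_of_nonneg_left h5 (Real.rpow_nonneg hM.le _)

theorem hld (hV : S_VK) : S_HLD := by
  intro d p hp s φ x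
  set c : (Fin d → ℤ) → ℂ := fun k => Fh 0 0 k * (blk s k : ℂ) * fc φ k with hc
  have hop : ∀ z, op 0 0 s φ z = ∑ l ∈ boxs s, c l * chi l z := by
    intro z
    rfl
  set u : (Fin d → ℝ) → ℂ := fun z => ∑ l ∈ boxs s, c l * chi l z with hu
  simp_rw [hop]
  have hucont : Continuous u := by
    rw [hu]
    exact continuous_finset_sum _ fun l _ => continuous_const.mul (hld_chi_cont l)
  set Cu : ℝ := ∑ l ∈ boxs s, ‖c l‖ with hCu
  have hCu0 : 0 ≤ Cu := Finset.sum_nonneg fun _ _ => norm_nonneg _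
  have hub : ∀ z, ‖u z‖ ≤ Cu := by
    intro z
    refine (norm_sum_le _ _).trans (Finset.sum_le_sum fun l _ => ?_)
    rw [norm_mul, hld_chi_norm, mul_one]
  set V : (Fin d → ℝ) → ℝ := fun z => ∏ j, ‖vk (s j) (x j - z j)‖ with hVdef
  have hV0 : ∀ z, 0 ≤ V z := fun z => Finset.prod_nonneg fun _ _ => norm_nonneg _
  have hVcont : Continuous V := by
    rw [hVdef]
    refine continuous_finset_prod _ fun j _ => ?_
    exact ((hld_vk_cont (s j)).comp (by fun_prop)).norm
  set CV : ℝ := ∏ j : Fin d, (2:ℝ)^(s j + 3) with hCV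
  have hVb : ∀ z, ‖V z‖ ≤ CV := by
    intro z
    rw [Real.norm_of_nonneg (hV0 z)]
    exact Finset.prod_le_prod (fun _ _ => norm_nonneg _) fun j _ => (hV (s j)).1 _
  have hCV0 : 0 ≤ CV := by positivity
  have hrepr : u x = ∫ z, (∏ j, vk (s j) (x j - z j)) * u z ∂(TP d) := hld_repr s c x
  have hle : ‖u x‖ ≤ ∫ z, V z * ‖u z‖ ∂(TP d) := by
    rw [hrepr]
    refine (norm_integral_le_integral_norm _).trans (le_of_eq ?_)
    congr 1
    funext z
    rw [norm_mul, norm_prod]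
  have h1 : Integrable V (TP d) := hld_integrableR V hVcont CV hVb
  have h2 : Integrable (fun z => V z * ‖u z‖) (TP d) := by
    refine hld_integrableR _ (hVcont.mul hucont.norm) (CV * Cu) fun z => ?_
    rw [norm_mul, norm_norm]
    exact mul_le_mul (hVb z) (hub z) (norm_nonneg _) hCV0
  have h3 : Integrable (fun z => V z * ‖u z‖^p) (TP d) := by
    refine hld_integrableR _ (hVcont.mul (hucont.norm.rpow_const fun _ => Or.inr (by linarith)))
      (CV * Cu^p) fun z => ?_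
    rw [norm_mul, Real.norm_of_nonneg (Real.rpow_nonneg (norm_nonneg _) p)]
    exact mul_le_mul (hVb z) (Real.rpow_le_rpow (norm_nonneg _) (hub z) (by linarith))
      (Real.rpow_nonneg (norm_nonneg _) p) hCV0
  have hM := hld_int_kernel hV s x
  have hJ := hld_jensen V (fun z => ‖u z‖) p ((3:ℝ)^d) hp (by positivity) hV0
    (fun z => norm_nonneg _) h1 h2 h3 hM
  exact (Real.rpow_le_rpow (norm_nonneg _) hle (by linarith)).trans hJ

end SmSm
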