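import Pool.Agent.H636R2.SM.SpecH
open MeasureTheory Real ProbabilityTheory
open scoped ENNReal BigOperators

namespace SmSm
open HypVol MWidth

/-- numerical estimate of the covering radius of the ellipsoid -/
theorem lowha0_num (c1 C2 C3 B D : ℝ) (hc1 : 0 < c1) (hC2 : 0 < C2) (hC3 : 0 < C3) (hB : 0 < B)
    (hD : 0 < D) (hBC : 4 * C3 * C2 * Real.sqrt (40 / c1) / c1 ≤ B) (μ k1 : ℕ) (hμ : 1 ≤ μ)
    (hk1 : c1 * μ * 2^μ / 8 ≤ k1) :
    2 * (C3 * Real.sqrt ((((μ + 3 : ℕ):ℝ) + 1) * (C2 / B * D * Real.sqrt (2^μ))^2 / k1)) ≤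
      c1 * D / 2 := by
  have hμ1 : (1:ℝ) ≤ μ := by exact_mod_cast hμ
  have hT : 0 < c1 * μ * 2^μ / 8 := by positivity
  have hk0 : (0:ℝ) < k1 := lt_of_lt_of_le hT hk1
  have h2 : (0:ℝ) < 2^μ := by positivity
  have hR : (C2 / B * D * Real.sqrt (2^μ))^2 = (C2 / B * D)^2 * 2^μ := by
    rw [mul_pow, Real.sq_sqrt h2.le]
  have h1 : (((μ + 3 : ℕ):ℝ) + 1) * (C2 / B * D * Real.sqrt (2^μ))^2 / k1 ≤
      (C2 / B * D)^2 * (40 / c1) := by
    rw [hR, div_le_iff₀ hk0]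
    have h3 : (((μ + 3 : ℕ):ℝ) + 1) * 2^μ ≤ 40 / c1 * k1 := by
      have h4 : 40 / c1 * (c1 * μ * 2^μ / 8) ≤ 40 / c1 * k1 :=
        mul_le_mul_of_nonneg_left hk1 (by positivity)
      have h5 : 40 / c1 * (c1 * μ * 2^μ / 8) = 5 * μ * 2^μ := by
        field_simp
        ring
      rw [h5] at h4
      refine le_trans ?_ h4
      refine mul_le_mul_of_nonneg_right ?_ h2.le
      push_cast
      linarith
    have h6 : 0 ≤ (C2 / B * D)^2 := sq_nonneg _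
    calc (((μ + 3 : ℕ):ℝ) + 1) * ((C2 / B * D)^2 * 2^μ)
        = (C2 / B * D)^2 * ((((μ + 3 : ℕ):ℝ) + 1) * 2^μ) := by ring
      _ ≤ (C2 / B * D)^2 * (40 / c1 * k1) := mul_le_mul_of_nonneg_left h3 h6
      _ = (C2 / B * D)^2 * (40 / c1) * k1 := by ring
  have h7 : Real.sqrt ((((μ + 3 : ℕ):ℝ) + 1) * (C2 / B * D * Real.sqrt (2^μ))^2 / k1) ≤
      C2 / B * D * Real.sqrt (40 / c1) := by
    refine (Real.sqrt_le_sqrt h1).trans (le_of_eq ?_)
    rw [Real.sqrt_mul (sq_nonneg _), Real.sqrt_sq (by positivity)]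
  have h8 : 4 * C3 * C2 * Real.sqrt (40 / c1) ≤ B * c1 := by
    rwa [div_le_iff₀ hc1] at hBC
  calc 2 * (C3 * Real.sqrt ((((μ + 3 : ℕ):ℝ) + 1) * (C2 / B * D * Real.sqrt (2^μ))^2 / k1))
      ≤ 2 * (C3 * (C2 / B * D * Real.sqrt (40 / c1))) := by
        refine mul_le_mul_of_nonneg_left (mul_le_mul_of_nonneg_left h7 hC3.le) (by norm_num)
    _ = (4 * C3 * C2 * Real.sqrt (40 / c1)) / B * D / 2 := by
        field_simp
        ring
    _ ≤ (B * c1) / B * D / 2 := by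
        refine div_le_div_of_nonneg_right (mul_le_mul_of_nonneg_right
          (div_le_div_of_nonneg_right h8 hB.le) hD.le) (by norm_num)
    _ = c1 * D / 2 := by
        field_simp

/-- **LOWHA0** -/
theorem lowha0 (h1 : S_FAMHA) (h2 : S_PIGH) (h3 : S_ENTJ) : S_LOWHA0 := by
  intro d hd r hr
  obtain ⟨c1, C2, μa, hc1, hC2, hfam⟩ := h1 d hd r hr
  obtain ⟨C3, hC3, hent⟩ := h3 d
  set B : ℝ := max 1 (4 * C3 * C2 * Real.sqrt (40 / c1) / c1) with hB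
  have hB1 : 1 ≤ B := le_max_left _ _
  have hBC : 4 * C3 * C2 * Real.sqrt (40 / c1) / c1 ≤ B := le_max_right _ _
  have hB0 : 0 < B := by linarith
  refine ⟨c1 / (4 * B), max μa (max 1 ⌈16 / c1⌉₊), by positivity, ?_⟩
  intro μ hμ k hk
  have hμa : μa ≤ μ := (le_max_left _ _).trans hμ
  have hμ1 : 1 ≤ μ := ((le_max_left _ _).trans (le_max_right _ _)).trans hμ
  have hμc : 16 / c1 ≤ μ := by
    have e1 : ⌈16 / c1⌉₊ ≤ μ := ((le_max_right _ _).trans (le_max_right _ _)).trans hμ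
    exact (Nat.le_ceil _).trans (by exact_mod_cast e1)
  have hμ1' : (1:ℝ) ≤ μ := by exact_mod_cast hμ1
  have h2μ : (1:ℝ) ≤ 2^μ := one_le_pow₀ (by norm_num)
  set T : ℝ := c1 * μ * 2^μ with hT
  have hT16 : 16 ≤ T := by
    rw [div_le_iff₀ hc1] at hμc
    have e1 : (16:ℝ) ≤ c1 * μ := by linarith
    calc (16:ℝ) ≤ c1 * μ := e1
      _ = c1 * μ * 1 := by ring
      _ ≤ c1 * μ * 2^μ := mul_le_mul_of_nonneg_left h2μ (by positivity)
  set k1 : ℕ := ⌊T/4⌋₊ with hk1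
  have hk1up : (k1:ℝ) ≤ T/4 := Nat.floor_le (by positivity)
  have hk1lt : T/4 < k1 + 1 := Nat.lt_floor_add_one _
  have hk1low : T/8 ≤ k1 := by linarith
  have hk12 : 2 ≤ k1 := by
    have : (1:ℝ) < k1 := by linarith
    have : 1 < k1 := by exact_mod_cast this
    omega
  have hkT : (k:ℝ) ≤ T/4 := by
    refine hk.trans ?_
    have e1 : c1 / (4 * B) ≤ c1 / 4 := by
      refine div_le_div_of_nonneg_left hc1.le (by norm_num) (by linarith)
    calc c1 / (4 * B) * μ * 2^μ ≤ c1 / 4 * μ * 2^μ :=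
          mul_le_mul_of_nonneg_right (mul_le_mul_of_nonneg_right e1 (by positivity)) (by positivity)
      _ = T / 4 := by rw [hT]; ring
  unfold entNum
  refine le_iInf fun ε => le_iInf fun hε => ?_
  rcases eq_or_ne ε ⊤ with htop | htop
  · rw [htop]; exact le_top
  have hε0 : 0 < ε.toReal := ENNReal.toReal_pos hε.1.ne' htop
  have hεe : ENNReal.ofReal ε.toReal = ε := ENNReal.ofReal_toReal htop
  have hexp : (2:ℝ)^k1 * 2^k < Real.exp (c1 * μ * 2^μ) := by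
    have e1 : (2:ℝ)^k1 * 2^k = Real.exp (((k1:ℝ) + k) * Real.log 2) := by
      rw [add_mul, Real.exp_add]
      congr 1
      · rw [mul_comm, ← Real.rpow_def_of_pos (by norm_num), Real.rpow_natCast]
      · rw [mul_comm, ← Real.rpow_def_of_pos (by norm_num), Real.rpow_natCast]
    rw [e1]
    refine Real.exp_lt_exp.2 ?_
    have e2 : Real.log 2 ≤ 1 := by
      have := Real.log_two_lt_d9; linarith
    have e4 : ((k1:ℝ) + k) * Real.log 2 ≤ ((k1:ℝ) + k) * 1 := mul_le_mul_of_nonneg_left e2 (by positivity)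
    rw [← hT]
    linarith
  set D : ℝ := (2:ℝ)^(-(r * μ)) * ((μ:ℝ)+1)^(d-1) with hD
  have hD0 : 0 < D := by positivity
  set R : ℝ := C2 / B * (2:ℝ)^(-(r * μ)) * Real.sqrt (2^μ) * ((μ:ℝ)+1)^(d-1) with hR
  have hR0 : 0 < R := by
    have : 0 < Real.sqrt (2^μ) := Real.sqrt_pos.2 (by positivity)
    positivity
  have hRD : R = C2 / B * D * Real.sqrt (2^μ) := by rw [hR, hD]; ring
  have hk10 : (0:ℝ) < k1 := by
    have : 0 < k1 := by omega
    exact_mod_cast this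
  have hεJ : 0 < C3 * Real.sqrt ((((μ + 3 : ℕ):ℝ) + 1) * R^2 / k1) := by
    have : 0 < Real.sqrt ((((μ + 3 : ℕ):ℝ) + 1) * R^2 / k1) := Real.sqrt_pos.2 (by positivity)
    positivity
  have hpig := h2 d r (Real.exp (c1 * μ * 2^μ)) (c1 * (2:ℝ)^(-(r * μ)) * ((μ:ℝ)+1)^(d-1)) B R
    (C3 * Real.sqrt ((((μ + 3 : ℕ):ℝ) + 1) * R^2 / k1)) ε.toReal (μ + 3) k1 k (by omega) hB0
    hεJ hε0 (hfam μ hμa B hB1)
    (by
      intro Λ w hΛ hw
      obtain ⟨S, hS, hS2⟩ := hent (μ + 3) Λ w k1 hk12 hΛ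
      refine ⟨S, hS, fun a ha => ?_⟩
      obtain ⟨s, hs, hs2⟩ := hS2 a ha
      refine ⟨s, hs, fun x => (hs2 x).trans ?_⟩
      refine mul_le_mul_of_nonneg_left (Real.sqrt_le_sqrt ?_) hC3.le
      refine div_le_div_of_nonneg_right (mul_le_mul_of_nonneg_left hw (by positivity)) hk10.le)
    (by rw [hεe]; exact hε.2) hexp
  have hnum := lowha0_num c1 C2 C3 B D hc1 hC2 hC3 hB0 hD0 hBC μ k1 hμ1 (by rw [← hT]; exact hk1low)
  rw [← hRD] at hnum
  have hA : c1 / (4 * B) * (2:ℝ)^(-(r * μ)) * ((μ:ℝ)+1)^(d-1) ≤ ε.toReal := by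
    have e1 : c1 * (2:ℝ)^(-(r * μ)) * ((μ:ℝ)+1)^(d-1) = c1 * D := by rw [hD]; ring
    rw [e1] at hpig
    have e2 : c1 / (4 * B) * (2:ℝ)^(-(r * μ)) * ((μ:ℝ)+1)^(d-1) = (c1 * D / 2) / (2 * B) := by
      rw [hD]
      field_simp
      ring
    rw [e2, div_le_iff₀ (by positivity)]
    linarith
  rw [← hεe]
  exact ENNReal.ofReal_le_ofReal hA

end SmSm
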