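import Pool.Agent.EntX.Defs
import Pool.Agent.HypVol.DefsW
import Pool.Agent.MWidth.Defs2
open MeasureTheory Real ProbabilityTheory
open scoped ENNReal BigOperators

/-!
Small smoothness `r ≤ 1/2` for the classes of functions with bounded mixed derivative
(MP_4140a0_an, MP_7fc85e_an).  Every task proves one of the propositions `S_...` below,
from the ones listed as its hypotheses.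
-/

namespace SmSm
open HypVol MWidth

/-! ## objects -/

/-- character -/
noncomputable def chi {d : ℕ} (k : Fin d → ℤ) (x : Fin d → ℝ) : ℂ :=
  Complex.exp (Complex.I * ((∑ j, (k j : ℝ) * x j : ℝ) : ℂ))

/-- the grid with `2^(m+2)` points per axis -/
abbrev GG (d m : ℕ) := Fin d → Fin (2^(m+2))

noncomputable def gpt {d m : ℕ} (x : GG d m) : Fin d → ℝ := fun j => 2 * π * ((x j : ℕ) : ℝ) / 2^(m+2)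

/-- real kernel of the layer `μ`, multiplier `Fh r α` -/
noncomputable def ker {d : ℕ} (μ : ℕ) (r : ℝ) (α x : Fin d → ℝ) : ℝ :=
  ∑ k ∈ layer d μ, (Fh r α k * chi k x).re

/-- kernel of several layers -/
noncomputable def wker {d : ℕ} (J : Finset ℕ) (w : ℕ → ℝ) (r : ℝ) (α x : Fin d → ℝ) : ℝ :=
  ∑ μ ∈ J, w μ * ker μ r α x

/-- smoothness `r < 1/2` -/
noncomputable def psiA (d : ℕ) (r : ℝ) (k : ℕ) : ℝ := (k:ℝ)^(-r) * (Real.log k)^(((d:ℝ)-1) * (1 - r) + r)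

/-- smoothness `r = 1/2` -/
noncomputable def psiB (d : ℕ) (k : ℕ) : ℝ :=
  (k:ℝ)^(-(1/2:ℝ)) * (Real.log k)^((d:ℝ)/2) * (Real.log (Real.log k + 3))^(1/2:ℝ)

/-! ## kernels on the grid -/

/-- NUM1 -/
def S_NUM1 : Prop := ∀ d : ℕ, 2 ≤ d → ∃ a : ℝ, 0 < a ∧ ∀ p : ℕ, 3 ≤ p → ∃ C : ℝ, 0 < C ∧
  ∀ n L : ℕ, 1 ≤ n →
    ∑ T : Fin d → Fin L, (1/2:ℝ)^(∑ j, ((T j : Fin L) : ℕ)) * (Th d n (fun j => (T j : ℕ)))^p *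
      Real.exp (a * n * Th d n (fun j => (T j : ℕ)) / (2^n * shp d n))
      ≤ C * (2:ℝ)^((p-1)*n) * ((n:ℝ)+1)^(d-1)

/-- ROW: one row of the pair count -/
def S_ROW : Prop := ∀ (d m : ℕ) (x : GG d m) (F : (Fin d → ℕ) → ℝ), (∀ T, 0 ≤ F T) →
  ∑ y : GG d m, F (fun j => T1 m (x j) (y j)) ≤ ((2:ℝ)^(m+2))^d * 4^d *
    ∑ T : Fin d → Fin (m+3), (1/2:ℝ)^(∑ j, ((T j : Fin (m+3)) : ℕ)) * F (fun j => (T j : ℕ))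

/-- KB: pointwise kernel bound on the grid -/
def S_KB : Prop := ∀ (d : ℕ), 1 ≤ d → ∀ (r : ℝ), 0 ≤ r → ∀ α : Fin d → ℝ, ∃ C : ℝ, 0 < C ∧
  ∀ (μ m : ℕ), μ ≤ m → ∀ x y : GG d m,
    |ker μ (-r) (-α) (gpt x - gpt y)| ≤ C * (2:ℝ)^(r * μ) * Th d μ (fun j => T1 m (x j) (y j))

/-- KMEAN: mean zero -/
def S_KMEAN : Prop := ∀ (d : ℕ), 1 ≤ d → ∀ (J : Finset ℕ) (w : ℕ → ℝ) (r : ℝ) (α : Fin d → ℝ) (m : ℕ),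
  (∀ μ ∈ J, 1 ≤ μ ∧ μ ≤ m) → ∀ x : Fin d → ℝ, ∑ y : GG d m, wker J w r α (x - gpt y) = 0

/-- KSQ: Parseval on the grid -/
def S_KSQ : Prop := ∀ (d : ℕ), 1 ≤ d → ∀ (J : Finset ℕ) (w : ℕ → ℝ) (r : ℝ), 0 ≤ r →
  ∀ (α : Fin d → ℝ) (m : ℕ), (∀ μ ∈ J, μ ≤ m) → ∀ x : Fin d → ℝ,
    ∑ y : GG d m, (wker J w (-r) (-α) (x - gpt y))^2 ≤
      ((2:ℝ)^(m+2))^d * ∑ μ ∈ J, (w μ)^2 * (2:ℝ)^(2 * r * μ) * (layer d μ).card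

/-- EXA: on a fine grid the sums of even powers do not depend on the centre -/
def S_EXA : Prop := ∀ (d : ℕ), 1 ≤ d → ∀ (J : Finset ℕ) (w : ℕ → ℝ) (r : ℝ) (α : Fin d → ℝ) (m0 m i : ℕ),
  (∀ μ ∈ J, μ ≤ m0) → 2 * i * 2^m0 ≤ 2^(m+2) → ∀ x x' : Fin d → ℝ,
    ∑ y : GG d m, (wker J w r α (x - gpt y))^(2*i) = ∑ y : GG d m, (wker J w r α (x' - gpt y))^(2*i)

/-- KMOM: absolute moments of the layer kernels -/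
def S_KMOM : Prop := ∀ (d : ℕ), 2 ≤ d → ∀ (r : ℝ), 0 ≤ r → ∀ (α : Fin d → ℝ) (p : ℕ), 3 ≤ p →
  ∃ C : ℝ, 0 < C ∧ ∀ (μ m : ℕ), 1 ≤ μ → μ ≤ m → ∀ x : GG d m,
    ∑ y : GG d m, |ker μ (-r) (-α) (gpt x - gpt y)|^p ≤
      C * ((2:ℝ)^(m+2))^d * ((2:ℝ)^(r * μ))^p * (2:ℝ)^((p-1)*μ) * ((μ:ℝ)+1)^(d-1)

/-- KEXP: exponential moments of the layer kernel -/
def S_KEXP : Prop := ∀ (d : ℕ), 2 ≤ d → ∃ a C : ℝ, 0 < a ∧ 0 < C ∧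
  ∀ (μ m : ℕ), 1 ≤ μ → μ ≤ m → ∀ θ : ℝ, |θ| ≤ a * μ / (layer d μ).card → ∀ x : GG d m,
    ∑ y : GG d m, Real.exp (θ * ker μ 0 0 (gpt x - gpt y)) ≤
      ((2:ℝ)^(m+2))^d * Real.exp (C * θ^2 * (layer d μ).card)

/-- HEXP: exponential moments of the kernel of a window (Jensen) -/
def S_HEXP : Prop := ∀ (d : ℕ), 2 ≤ d → ∃ a C : ℝ, 0 < a ∧ 0 < C ∧
  ∀ (J : Finset ℕ) (w : ℕ → ℝ) (m : ℕ), J.Nonempty → (∀ μ ∈ J, 1 ≤ μ ∧ μ ≤ m) → ∀ θ : ℝ,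
    (∀ μ ∈ J, |θ| * J.card * |w μ| ≤ a * μ / (layer d μ).card) → ∀ x : GG d m,
    ∑ y : GG d m, Real.exp (θ * wker J w 0 0 (gpt x - gpt y)) ≤
      ((2:ℝ)^(m+2))^d * Real.exp (C * (J.card:ℝ)^2 * ∑ μ ∈ J, (θ * w μ)^2 * (layer d μ).card)

/-! ## finite probability -/

/-- TAIL: exponential Markov inequality on a finite product space -/
def S_TAIL : Prop := ∀ (G : Type) [Fintype G] (u : G → ℝ) (θ η t : ℝ) (M : ℕ), 0 ≤ θ →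
  (∑ y, Real.exp (θ * u y) ≤ (Fintype.card G) * Real.exp η) →
  (Nat.card {X : Fin M → G // t ≤ ∑ i, u (X i)} : ℝ) ≤ (Fintype.card G : ℝ)^M * Real.exp (M * η - θ * t)

/-- SEP: many configurations whose kernel sums are far apart -/
def S_SEP : Prop := ∀ (G : Type) [Fintype G] [DecidableEq G] [Nonempty G] (K : G → G → ℝ) (κ θ : ℝ) (M : ℕ)
  (good : Finset (Fin M → G)), 1 ≤ M → 0 < κ → 0 < θ → 200 ≤ θ * κ → (∀ x, K x x = κ) →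
  (∀ x, ∑ y, Real.exp (θ * K x y) ≤ (Fintype.card G) * Real.exp (θ * κ / (16 * M))) →
  (∀ x, ∑ y, Real.exp (-θ * K x y) ≤ (Fintype.card G) * Real.exp (θ * κ / (16 * M))) →
  (9/10 : ℝ) * (Fintype.card G : ℝ)^M ≤ good.card →
  ∃ F : Finset (Fin M → G), F ⊆ good ∧ Real.exp (θ * κ * M / 100) ≤ F.card ∧
    ∀ X ∈ F, ∀ X' ∈ F, X ≠ X' → ∃ z, κ / 2 ≤ |∑ i, K z (X i) - ∑ i, K z (X' i)|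

/-- MOM: even moments of sums of independent mean zero variables -/
def S_MOM : Prop := ∀ (j : ℕ) (B : ℝ), 0 ≤ B → ∃ C : ℝ, 0 < C ∧
  ∀ (G : Type) [Fintype G] [Nonempty G] (Y : G → ℝ) (M : ℕ), ∑ g, Y g = 0 →
    (∀ i, 1 ≤ i → i ≤ j → M * ∑ g, (Y g)^(2*i) ≤ B * Fintype.card G) →
    ∑ X : Fin M → G, (∑ i, Y (X i))^(2*j) ≤ C * (Fintype.card G : ℝ)^M

/-! ## moments of the random functions -/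

/-- PHIA: one layer -/
def S_PHIA : Prop := ∀ (d : ℕ), 2 ≤ d → ∀ (r : ℝ), 0 ≤ r → ∀ (α : Fin d → ℝ) (j : ℕ), 1 ≤ j →
  ∃ C : ℝ, 0 < C ∧ ∀ (μ m M : ℕ), 1 ≤ μ → 2 * j * 2^μ ≤ 2^(m+2) → μ ≤ m →
    (M:ℝ) * ((μ:ℝ)+1)^(d-1) ≤ 2^μ → ∀ x : Fin d → ℝ,
    ∑ X : Fin M → GG d m, (∑ i, ker μ (-r) (-α) (x - gpt (X i)))^(2*j) ≤
      C * (Fintype.card (GG d m) : ℝ)^M * ((2:ℝ)^((1 + r) * μ))^(2*j)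

/-- weights and number of points for `r = 1/2` -/
noncomputable def wB (μ : ℕ) : ℝ := (2:ℝ)^(-(μ:ℝ))
def JB (n : ℕ) : Finset ℕ := Finset.Ico n (n + Nat.log 2 n)
def MB (d n : ℕ) : ℕ := 2^n * n^(d-2)

/-- PHIB: a window, smoothness `1/2` -/
def S_PHIB : Prop := ∀ (d : ℕ), 3 ≤ d → ∀ (α : Fin d → ℝ) (j : ℕ), 1 ≤ j →
  ∃ C : ℝ, 0 < C ∧ ∀ (n m : ℕ), 2 ≤ n → 2 * j * 2^(2*n) ≤ 2^(m+2) → 2*n ≤ m → ∀ x : Fin d → ℝ,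
    ∑ X : Fin (MB d n) → GG d m, (∑ i, wker (JB n) wB (-(1/2)) (-α) (x - gpt (X i)))^(2*j) ≤
      C * (Fintype.card (GG d m) : ℝ)^(MB d n) * ((MB d n : ℝ) * Nat.log 2 n * (n:ℝ)^(d-1))^j

/-! ## lower bounds -/

/-- finite families of functions `f i = F_r * φ i`, far apart in the sup norm, `φ i` with a bounded moment -/
def Fam (d : ℕ) (r : ℝ) (α : Fin d → ℝ) (j : ℕ) (K ν Δ : ℝ) : Prop :=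
  ∃ (ι : Type) (_ : Fintype ι) (f φ : ι → (Fin d → ℝ) → ℝ), K ≤ Fintype.card ι ∧
    (∀ i, Continuous (f i)) ∧ (∀ i, Continuous (φ i)) ∧
    (∀ i (x : Fin d → ℝ) (l : Fin d), f i (Function.update x l (x l + 2 * π)) = f i x) ∧
    (∀ i, ∫ x, (φ i x)^(2*j) ∂(TP d) ≤ ν^(2*j)) ∧
    (∀ i k, fc (fun x => (f i x : ℂ)) k = Fh r α k * fc (fun x => (φ i x : ℂ)) k) ∧
    (∀ i i', i ≠ i' → ∃ x, Δ ≤ |f i x - f i' x|)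

/-- PIG: truncation and pigeonhole -/
def S_PIG : Prop := ∀ (𝕜 : Type) [RCLike 𝕜] (d : ℕ), 1 ≤ d → ∀ (r : ℝ), 0 < r → ∀ (α : Fin d → ℝ)
  (q : ℕ), 2 ≤ q → ∀ (K ν Δ B ε ε2 : ℝ) (k1 k2 : ℕ), 0 < ν → 0 < B → 0 < ε → 0 < ε2 →
  Fam d r α q K ν Δ →
  Cov ⊤ k1 (ENNReal.ofReal ε) (ML 𝕜 d r (ENNReal.ofReal (q:ℝ)) α) →
  Cov ⊤ k2 (ENNReal.ofReal ε2) (ML 𝕜 d r ⊤ α) →
  (2:ℝ)^k1 * 2^k2 < K →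
  Δ ≤ 2 * B * ν * ε2 + 2 * (ν / B) * ε

/-- FAMA -/
def S_FAMA : Prop := ∀ (d : ℕ), 3 ≤ d → ∀ (r : ℝ), 0 ≤ r → ∀ (α : Fin d → ℝ) (j : ℕ), 1 ≤ j →
  ∃ (c C : ℝ) (μ0 : ℕ), 0 < c ∧ 0 < C ∧ ∀ μ : ℕ, μ0 ≤ μ →
    Fam d r α j (Real.exp (c * 2^μ / ((μ:ℝ)+1)^(d-2))) (C * (2:ℝ)^((1 + r) * μ)) (c * 2^μ * ((μ:ℝ)+1)^(d-1))

/-- FAMB -/
def S_FAMB : Prop := ∀ (d : ℕ), 3 ≤ d → ∀ (α : Fin d → ℝ) (j : ℕ), 1 ≤ j →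
  ∃ (c C : ℝ) (n0 : ℕ), 0 < c ∧ 0 < C ∧ ∀ n : ℕ, n0 ≤ n →
    Fam d (1/2) α j (Real.exp (c * 2^n * (n:ℝ)^(d-1)))
      (C * Real.sqrt (2^n * (n:ℝ)^(d-2) * Nat.log 2 n * (n:ℝ)^(d-1))) (c * Nat.log 2 n * (n:ℝ)^(d-1))

/-! ## upper bounds -/

/-- de la Vallée Poussin multiplier -/
noncomputable def vp (s : ℕ) (k : ℤ) : ℝ := max 0 (min 1 (2 - |(k:ℝ)| / 2^s))

noncomputable def va (s : ℕ) (k : ℤ) : ℝ := vp s k - (if s = 0 then 0 else vp (s-1) k)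

noncomputable def blk {d : ℕ} (s : Fin d → ℕ) (k : Fin d → ℤ) : ℝ := ∏ j, va (s j) (k j)

/-- frequencies of the smooth block `s` -/
noncomputable def boxs {d : ℕ} (s : Fin d → ℕ) : Finset (Fin d → ℤ) :=
  Fintype.piFinset (fun j => Finset.Ioo (-(2:ℤ)^(s j + 1)) ((2:ℤ)^(s j + 1)))

/-- smooth block of the convolution with `F_r` -/
noncomputable def op {d : ℕ} (r : ℝ) (α : Fin d → ℝ) (s : Fin d → ℕ) (φ : (Fin d → ℝ) → ℂ) (x : Fin d → ℝ) : ℂ :=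
  ∑ k ∈ boxs s, Fh r α k * (blk s k : ℂ) * fc φ k * chi k x

/-- CS: `L_1` norm of a trigonometric polynomial through `ℓ_2` norms of coefficients and differences -/
def S_CS : Prop := ∃ C : ℝ, 0 < C ∧ ∀ (N : ℕ) (h : ℤ → ℂ) (L : ℝ), 1 ≤ L → (∀ k : ℤ, (N:ℤ) ≤ |k| → h k = 0) →
  ∫ t in (0:ℝ)..(2*π), ‖∑ k ∈ Finset.Ioo (-(N:ℤ)) N, h k * Complex.exp (Complex.I * ((k:ℝ) * t : ℝ))‖ ≤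
    C * L^(-(1/2:ℝ)) * (Real.sqrt (∑ k ∈ Finset.Ioo (-(N:ℤ)) N, ‖h k‖^2) +
      L * Real.sqrt (∑ k ∈ Finset.Icc (-(N:ℤ)) N, ‖h (k+1) - h k‖^2))

/-- VP1: `L_1` norm of a one dimensional smooth block -/
def S_VP1 : Prop := ∀ (r α : ℝ), ∃ C : ℝ, 0 < C ∧ ∀ s : ℕ,
  ∫ t in (0:ℝ)..(2*π), ‖∑ k ∈ Finset.Ioo (-(2:ℤ)^(s+1)) ((2:ℤ)^(s+1)),
    ((if k = 0 then 1 else (((|(k : ℝ)|)^(-r) : ℝ) : ℂ) *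
    Complex.exp (-(Complex.I * (((SignType.sign k : ℤ) : ℝ) * α * π / 2 : ℝ)))) * (va s k : ℂ)) *
      Complex.exp (Complex.I * ((k:ℝ) * t : ℝ))‖ ≤ C * (2:ℝ)^(-(r * s))

/-- VPB: smooth blocks are bounded on `L_∞` -/
def S_VPB : Prop := ∀ (d : ℕ) (r : ℝ) (α : Fin d → ℝ), ∃ C : ℝ, 0 < C ∧
  ∀ (s : Fin d → ℕ) (φ : (Fin d → ℝ) → ℂ) (τ : ℝ), 0 ≤ τ → AEStronglyMeasurable φ (TP d) →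
    (∀ᵐ x ∂(TP d), ‖φ x‖ ≤ τ) → ∀ x, ‖op r α s φ x‖ ≤ C * (2:ℝ)^(-(r * ∑ j, (s j : ℝ))) * τ

/-- VPF: facts on the multipliers -/
def S_VPF : Prop :=
  (∀ s k, 0 ≤ va s k ∧ va s k ≤ 1) ∧
  (∀ s k, va s k ≠ 0 → (s = Nat.size k.natAbs ∨ s + 1 = Nat.size k.natAbs)) ∧
  (∀ (d : ℕ) (k : Fin d → ℤ), ∑ s ∈ Fintype.piFinset (fun j => Finset.range (Nat.size (k j).natAbs + 1)),
    blk s k = 1) ∧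
  (∀ (d : ℕ) (s : Fin d → ℕ) (k : Fin d → ℤ), blk s k ≠ 0 → ∀ j, s j ≤ Nat.size (k j).natAbs ∧
    Nat.size (k j).natAbs ≤ s j + 1)

/-- SYN: synthesis of bounded smooth blocks -/
def S_SYN : Prop := ∀ (d : ℕ), 1 ≤ d → ∀ (r : ℝ), 0 < r → ∀ (α : Fin d → ℝ), ∃ C : ℝ, 0 < C ∧
  ∀ (ψ : ℕ → (Fin d → ℝ) → ℂ) (τ : ℕ → ℝ), (∀ μ, 0 ≤ τ μ) → (∀ μ, AEStronglyMeasurable (ψ μ) (TP d)) →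
    (∀ μ, ∀ᵐ x ∂(TP d), ‖ψ μ x‖ ≤ τ μ) →
    Summable (fun μ : ℕ => ((μ:ℝ)+1)^(d-1) * (2:ℝ)^(-(r * μ)) * τ μ) →
    ∃ u : (Fin d → ℝ) → ℂ, MemLp u ⊤ (TP d) ∧
      (∀ x, ‖u x‖ ≤ C * ∑' μ : ℕ, ((μ:ℝ)+1)^(d-1) * (2:ℝ)^(-(r * μ)) * τ μ) ∧
      ∀ k : Fin d → ℤ, fc u k = Fh r α k *
        ∑ s ∈ Fintype.piFinset (fun j => Finset.range (Nat.size (k j).natAbs + 1)),
          (blk s k : ℂ) * fc (ψ (∑ j, s j)) k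

/-- SPLIT: decomposition of the functions of the class -/
def S_SPLIT : Prop := ∀ (d : ℕ), 1 ≤ d → ∀ (q r : ℝ), 2 < q → 1/q < r → ∀ (α : Fin d → ℝ),
  ∃ C : ℝ, 0 < C ∧ ∀ f ∈ WF d r (ENNReal.ofReal q) α, ∀ μs : ℕ,
    ∃ (A : ∀ n : ℕ, (layer d n) × Fin 2 → ℝ) (g : (Fin d → ℝ) → ℂ),
      (∑ n ∈ Finset.range μs, (2:ℝ)^(2 * r * n) * ∑ i, A n i ^ 2 ≤ C^2) ∧
      (∀ n, ∑ i, A n i ^ 2 ≤ (C * (2:ℝ)^(-(r * n)) * (2:ℝ)^(-((1/2 - 1/q) * ((n - μs : ℕ) : ℝ))))^2) ∧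
      (∀ x, HasSum (fun n => poly (A n) x) (g x)) ∧
      ∀ᵐ x ∂(TP d), ‖f x - g x‖ ≤ C * ((μs:ℝ)+1)^(d-1) * (2:ℝ)^(-(r * μs))

/-- JOINT: approximation of an ellipsoid of trigonometric polynomials in the sup norm -/
def S_JOINT : Prop := ∀ d : ℕ, ∃ C : ℝ, 0 < C ∧ ∀ (N : ℕ) (Λ : Finset (Fin d → ℤ)) (w : (Fin d → ℤ) → ℝ) (M : ℕ),
  1 ≤ M → (∀ k ∈ Λ, ∀ j, |k j| < (2:ℤ)^N) →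
  ∃ G : Fin M → (Λ × Fin 2 → ℝ), ∀ a : Λ × Fin 2 → ℝ, ∑ i, a i ^ 2 ≤ 1 → ∃ β : Fin M → ℝ, ∀ x,
    ‖gp Λ (fun i => w i.1.1 * a i - ∑ j, β j * G j i) x‖ ≤
      C * Real.sqrt (((N:ℝ)+1) * (∑ k ∈ Λ, (w k)^2) / M)

/-- NUMUA -/
def S_NUMUA : Prop := ∀ (d : ℕ), 2 ≤ d → ∀ (q r : ℝ), 2 < q → 1/q < r → r < 1/2 → ∃ C : ℝ, 0 < C ∧
  ∀ m : ℕ, 2 ≤ m → ∃ (n0 n1 μs : ℕ) (M : ℕ → ℕ), n0 ≤ n1 ∧ (∀ n, 1 ≤ M n) ∧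
    (∑ n ∈ Finset.range n0, 2 * (layer d n).card) + ∑ n ∈ Finset.Ico n0 n1, M n ≤ m ∧
    Summable (fun n : ℕ => (2:ℝ)^(-(r * n)) * (2:ℝ)^(-((1/2 - 1/q) * ((n - μs : ℕ) : ℝ))) *
      Real.sqrt (layer d n).card) ∧
    (∑ n ∈ Finset.Ico n0 n1, (2:ℝ)^(-(r * n)) * (2:ℝ)^(-((1/2 - 1/q) * ((n - μs : ℕ) : ℝ))) *
        Real.sqrt (((n:ℝ)+1) * (layer d n).card / M n)) +
      ∑' n : ℕ, (2:ℝ)^(-(r * ((n + n1 : ℕ) : ℝ))) * (2:ℝ)^(-((1/2 - 1/q) * ((n + n1 - μs : ℕ) : ℝ))) *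
        Real.sqrt (layer d (n + n1)).card +
      ((μs:ℝ)+1)^(d-1) * (2:ℝ)^(-(r * μs)) ≤ C * psiA d r m

/-- NUMUB -/
def S_NUMUB : Prop := ∀ (d : ℕ), 2 ≤ d → ∀ (q : ℝ), 2 < q → ∃ C : ℝ, 0 < C ∧
  ∀ m : ℕ, 2 ≤ m → ∃ (n0 n1 μs Ms : ℕ) (M : ℕ → ℕ), n0 ≤ μs ∧ μs ≤ n1 ∧ 1 ≤ Ms ∧ (∀ n, 1 ≤ M n) ∧
    (∑ n ∈ Finset.range n0, 2 * (layer d n).card) + Ms + ∑ n ∈ Finset.Ico μs n1, M n ≤ m ∧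
    Summable (fun n : ℕ => (2:ℝ)^(-((1/2:ℝ) * n)) * (2:ℝ)^(-((1/2 - 1/q) * ((n - μs : ℕ) : ℝ))) *
      Real.sqrt (layer d n).card) ∧
    Real.sqrt (((μs:ℝ)+1) * (∑ n ∈ Finset.Ico n0 μs, (2:ℝ)^(-(n:ℝ)) * (layer d n).card) / Ms) +
    (∑ n ∈ Finset.Ico μs n1, (2:ℝ)^(-((1/2:ℝ) * n)) * (2:ℝ)^(-((1/2 - 1/q) * ((n - μs : ℕ) : ℝ))) *
        Real.sqrt (((n:ℝ)+1) * (layer d n).card / M n)) +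
      ∑' n : ℕ, (2:ℝ)^(-((1/2:ℝ) * ((n + n1 : ℕ) : ℝ))) * (2:ℝ)^(-((1/2 - 1/q) * ((n + n1 - μs : ℕ) : ℝ))) *
        Real.sqrt (layer d (n + n1)).card +
      ((μs:ℝ)+1)^(d-1) * (2:ℝ)^(-((1/2:ℝ) * μs)) ≤ C * psiB d m

/-- UPA -/
def S_UPA : Prop := ∀ (𝕜 : Type) [RCLike 𝕜] (d : ℕ), 2 ≤ d → ∀ (q r : ℝ), 2 < q → 1/q < r → r < 1/2 →
  ∀ (α : Fin d → ℝ), ∃ C : ℝ, 0 < C ∧ ∀ m : ℕ, 2 ≤ m →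
    kolW2 m (ML 𝕜 d r (ENNReal.ofReal q) α) ≤ ENNReal.ofReal (C * psiA d r m)

/-- UPB -/
def S_UPB : Prop := ∀ (𝕜 : Type) [RCLike 𝕜] (d : ℕ), 2 ≤ d → ∀ (q : ℝ), 2 < q →
  ∀ (α : Fin d → ℝ), ∃ C : ℝ, 0 < C ∧ ∀ m : ℕ, 2 ≤ m →
    kolW2 m (ML 𝕜 d (1/2) (ENNReal.ofReal q) α) ≤ ENNReal.ofReal (C * psiB d m)

/-- BDD: the class is bounded in `L_∞` -/
def S_BDD : Prop := ∀ (𝕜 : Type) [RCLike 𝕜] (d : ℕ), 1 ≤ d → ∀ (q r : ℝ), 2 < q → 1/q < r →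
  ∀ (α : Fin d → ℝ), ∃ B : ℝ, 0 < B ∧ ∀ f ∈ ML 𝕜 d r (ENNReal.ofReal q) α, MemLp f ⊤ (TP d) ∧
      eLpNorm f ⊤ (TP d) ≤ ENNReal.ofReal B

/-- admissible order functions -/
def Adm (ψ : ℕ → ℝ) : Prop := (∀ k, 2 ≤ k → 0 < ψ k) ∧
  ∃ ρ c : ℝ, 0 < ρ ∧ 0 < c ∧ (∀ L m : ℕ, 1 ≤ L → 2 ≤ m → ψ m ≤ c * (L:ℝ)^ρ * ψ (L * m)) ∧
    (∀ a b : ℕ, 2 ≤ a → a ≤ b → b ≤ 2 * a → ψ a ≤ c * ψ b)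

/-- ADM -/
def S_ADM : Prop := (∀ (d : ℕ) (r : ℝ), 1 ≤ d → 0 < r → r ≤ 1 → Adm (psiA d r)) ∧
  (∀ d : ℕ, 1 ≤ d → Adm (psiB d))

/-- CU: entropy numbers from widths -/
def S_CU : Prop := ∀ (𝕜 : Type) [RCLike 𝕜] (d : ℕ) (Θ : Set ((Fin d → ℝ) → 𝕜)) (B : ℝ) (ψ : ℕ → ℝ), Adm ψ →
  (∀ f ∈ Θ, MemLp f ⊤ (TP d) ∧ eLpNorm f ⊤ (TP d) ≤ ENNReal.ofReal B) →
  (∃ C : ℝ, 0 < C ∧ ∀ m : ℕ, 2 ≤ m → kolW2 m Θ ≤ ENNReal.ofReal (C * ψ m)) →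
  ∃ C : ℝ, 0 < C ∧ ∀ k : ℕ, 2 ≤ k → Cov ⊤ k (ENNReal.ofReal (C * ψ k)) Θ

/-- CL: lower bound of the widths -/
def S_CL : Prop := ∀ (𝕜 : Type) [RCLike 𝕜] (d : ℕ) (Θ : Set ((Fin d → ℝ) → 𝕜)) (B : ℝ) (ψ : ℕ → ℝ), Adm ψ →
  (∀ f ∈ Θ, MemLp f ⊤ (TP d) ∧ eLpNorm f ⊤ (TP d) ≤ ENNReal.ofReal B) →
  (∃ C : ℝ, 0 < C ∧ ∀ m : ℕ, 2 ≤ m → kolW2 m Θ ≤ ENNReal.ofReal (C * ψ m)) →
  (∃ c : ℝ, 0 < c ∧ ∀ k : ℕ, 2 ≤ k → ENNReal.ofReal (c * ψ k) ≤ entNum ⊤ k Θ) →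
  ∃ c : ℝ, 0 < c ∧ ∀ m : ℕ, 2 ≤ m → ENNReal.ofReal (c * ψ m) ≤ kolW2 m Θ

/-- LOWA0 -/
def S_LOWA0 : Prop := ∀ (𝕜 : Type) [RCLike 𝕜] (d : ℕ), 3 ≤ d → ∀ (r : ℝ), 0 < r → r < 1/2 →
  ∀ (α : Fin d → ℝ), ∃ (c : ℝ) (μ0 : ℕ), 0 < c ∧ ∀ μ : ℕ, μ0 ≤ μ → ∀ k : ℕ,
    (k:ℝ) ≤ c * 2^μ / ((μ:ℝ)+1)^(d-2) →
    ENNReal.ofReal (c * (2:ℝ)^(-(r * μ)) * ((μ:ℝ)+1)^(d-1)) ≤ entNum ⊤ k (ML 𝕜 d r ⊤ α)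

/-- LOWB0 -/
def S_LOWB0 : Prop := ∀ (𝕜 : Type) [RCLike 𝕜] (d : ℕ), 3 ≤ d →
  ∀ (α : Fin d → ℝ), ∃ (c : ℝ) (n0 : ℕ), 0 < c ∧ ∀ n : ℕ, n0 ≤ n → ∀ k : ℕ,
    (k:ℝ) ≤ c * 2^n * (n:ℝ)^(d-1) →
    ENNReal.ofReal (c * Real.sqrt ((n:ℝ) * Nat.log 2 n / 2^n)) ≤ entNum ⊤ k (ML 𝕜 d (1/2) ⊤ α)

/-- NUMLA -/
def S_NUMLA : Prop := ∀ (d : ℕ), 3 ≤ d → ∀ (r : ℝ), 0 < r → r ≤ 1/2 → ∀ (c : ℝ) (μ0 : ℕ), 0 < c →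
  ∃ c' : ℝ, 0 < c' ∧ ∀ k : ℕ, 2 ≤ k → ∃ μ : ℕ, μ0 ≤ μ ∧ (k:ℝ) ≤ c * 2^μ / ((μ:ℝ)+1)^(d-2) ∧
    c' * psiA d r k ≤ c * (2:ℝ)^(-(r * μ)) * ((μ:ℝ)+1)^(d-1)

/-- NUMLB -/
def S_NUMLB : Prop := ∀ (d : ℕ), 3 ≤ d → ∀ (c : ℝ) (n0 : ℕ), 0 < c →
  ∃ c' : ℝ, 0 < c' ∧ ∀ k : ℕ, 2 ≤ k → ∃ n : ℕ, n0 ≤ n ∧ (k:ℝ) ≤ c * 2^n * (n:ℝ)^(d-1) ∧
    c' * psiB d k ≤ c * Real.sqrt ((n:ℝ) * Nat.log 2 n / 2^n)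

/-- FINAL -/
def S_FINAL : Prop := ∀ (𝕜 : Type) [RCLike 𝕜] (d : ℕ), 3 ≤ d → ∀ (α : Fin d → ℝ) (q : ℝ≥0∞), 2 < q →
  (∀ r : ℝ, 1 / q < ENNReal.ofReal r → 0 < r → r < 1/2 → ∃ c C : ℝ, 0 < c ∧ 0 < C ∧ ∀ m : ℕ, 2 ≤ m →
    ENNReal.ofReal (c * psiA d r m) ≤ kolW2 m (ML 𝕜 d r q α) ∧
    kolW2 m (ML 𝕜 d r q α) ≤ ENNReal.ofReal (C * psiA d r m)) ∧
  (∃ c C : ℝ, 0 < c ∧ 0 < C ∧ ∀ m : ℕ, 2 ≤ m →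
    ENNReal.ofReal (c * psiB d m) ≤ kolW2 m (ML 𝕜 d (1/2) q α) ∧
    kolW2 m (ML 𝕜 d (1/2) q α) ≤ ENNReal.ofReal (C * psiB d m))

end SmSm
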