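import Pool.Agent.H636R2.SM.Spec
import Pool.Agent.H636R2.HE.Defs
open MeasureTheory Real ProbabilityTheory
open scoped ENNReal BigOperators

/-!
Classes `H^r_q`, small smoothness (MP_7fc85e_an).  `HypVolE` is a copy of the Starting point library
`Pool.Agent.Helper765.Ent` in its own namespace (class `HypVolE.HH`, differences `HypVolE.mdiff`).
-/

namespace SmSm
open HypVol MWidth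

/-! ## objects -/

/-- frequencies of the dyadic block `s` -/
noncomputable def shb {d : ℕ} (s : Fin d → ℕ) : Finset (Fin d → ℤ) :=
  Fintype.piFinset (fun j => (Finset.Ioo (-(2:ℤ)^(s j)) ((2:ℤ)^(s j))).filter (fun k => Nat.size k.natAbs = s j))

/-- real kernel of a dyadic block -/
noncomputable def dker {d : ℕ} (s : Fin d → ℕ) (x : Fin d → ℝ) : ℝ := ∑ k ∈ shb s, (chi k x).re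

/-- wide multiplier, equal to one on `2^(s-1) ≤ |k| ≤ 2^(s+1)` -/
noncomputable def wv (s : ℕ) (k : ℤ) : ℝ := vp (s+1) k - (if s ≤ 1 then 0 else vp (s-2) k)

noncomputable def wbl {d : ℕ} (l : ℕ) (s : Fin d → ℕ) (e : Finset (Fin d)) (k : Fin d → ℤ) : ℝ :=
  ∏ j, ((if j ∈ e then ((k j : ℝ) / 2^(s j))^l else 1) * wv (s j) (k j))

noncomputable def boxw {d : ℕ} (s : Fin d → ℕ) : Finset (Fin d → ℤ) :=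
  Fintype.piFinset (fun j => Finset.Ioo (-(2:ℤ)^(s j + 2)) ((2:ℤ)^(s j + 2)))

/-- wide smooth block, weighted by `(k_j / 2^(s_j))^l`, `j ∈ e` -/
noncomputable def wop {d : ℕ} (l : ℕ) (s : Fin d → ℕ) (e : Finset (Fin d)) (φ : (Fin d → ℝ) → ℂ)
    (x : Fin d → ℝ) : ℂ := ∑ k ∈ boxw s, (wbl l s e k : ℂ) * fc φ k * chi k x

/-- order for `H^r_q`, `r < 1/2` -/
noncomputable def psiHA (d : ℕ) (r : ℝ) (k : ℕ) : ℝ := (k:ℝ)^(-r) * (Real.log k)^(((d:ℝ)-1) + r)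

/-- order for `H^(1/2)_q` -/
noncomputable def psiHB (d : ℕ) (k : ℕ) : ℝ :=
  (k:ℝ)^(-(1/2:ℝ)) * (Real.log k)^((d:ℝ) - 1/2) * Real.log (Real.log k + 3)

/-! ## smooth blocks -/

/-- WBF: facts on the wide multipliers -/
def S_WBF : Prop :=
  (∀ s k, 0 ≤ wv s k ∧ wv s k ≤ 1) ∧
  (∀ (s : ℕ) (k : ℤ), Nat.size k.natAbs = s → wv s k = 1) ∧
  (∀ (s : ℕ) (k : ℤ), va s k ≠ 0 → wv s k = 1) ∧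
  (∀ (s : ℕ) (k : ℤ), wv s k ≠ 0 → s ≤ Nat.size k.natAbs + 1 ∧ Nat.size k.natAbs ≤ s + 2)

/-- MULT: product multipliers with `L_1` bounded kernels are bounded on `L_q` -/
def S_MULT : Prop := ∀ (d : ℕ) (q : ℝ≥0∞) (N : Fin d → ℕ) (h : Fin d → ℤ → ℂ) (A : Fin d → ℝ)
  (g : (Fin d → ℝ) → ℂ), 1 ≤ q → MemLp g q (TP d) → (∀ j, 0 ≤ A j) →
  (∀ j, ∫ t in (0:ℝ)..(2*π), ‖∑ k ∈ Finset.Ioo (-(N j:ℤ)) (N j), h j k *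
    Complex.exp (Complex.I * ((k:ℝ) * t : ℝ))‖ ≤ A j) →
  eLpNorm (fun x => ∑ k ∈ Fintype.piFinset (fun j => Finset.Ioo (-(N j:ℤ)) (N j)),
    (∏ j, h j (k j)) * fc g k * chi k x) q (TP d) ≤ ENNReal.ofReal (∏ j, A j) * eLpNorm g q (TP d)

/-- WB: the wide blocks are bounded on `L_∞` -/
def S_WB : Prop := ∀ (d l : ℕ), ∃ C : ℝ, 0 < C ∧ ∀ (s : Fin d → ℕ) (e : Finset (Fin d))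
  (φ : (Fin d → ℝ) → ℂ) (τ : ℝ), 0 ≤ τ → AEStronglyMeasurable φ (TP d) →
    (∀ᵐ x ∂(TP d), ‖φ x‖ ≤ τ) → ∀ x, ‖wop l s e φ x‖ ≤ C * τ

/-- SUMS: sum over all shapes of the bounds of the differences -/
def S_SUMS : Prop := ∀ (d : ℕ) (r : ℝ), 0 < r → ∃ C : ℝ, 0 < C ∧ ∀ (S : Finset (Fin d → ℕ))
  (e : Finset (Fin d)) (t : Fin d → ℝ),
    ∑ s ∈ S, (2:ℝ)^(-(r * ∑ j, (s j : ℝ))) * ∏ j ∈ e, (min 2 ((2:ℝ)^(s j) * |t j|))^(⌊r⌋₊ + 1) ≤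
      C * ∏ j ∈ e, |t j|^r

/-- HMEM: sums of bounded blocks belong to the class `H^r_∞` -/
def S_HMEM : Prop := ∀ (d : ℕ) (r : ℝ), 0 < r → ∃ c : ℝ, 0 < c ∧ ∀ (S : Finset (Fin d → ℕ))
  (φ : (Fin d → ℕ) → (Fin d → ℝ) → ℂ), (∀ s ∈ S, AEStronglyMeasurable (φ s) (TP d)) →
  (∀ s ∈ S, ∀ᵐ x ∂(TP d), ‖φ s x‖ ≤ 1) →
  (fun x => (c : ℂ) * ∑ s ∈ S, (((2:ℝ)^(-(r * ∑ j, (s j : ℝ))) : ℝ) : ℂ) * wop 0 s ∅ (φ s) x) ∈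
    HypVolE.HH d r ⊤

/-! ## random functions -/

/-- HMOM: moments of the block kernels on the grid -/
def S_HMOM : Prop := ∀ (d i : ℕ), 1 ≤ d → 1 ≤ i → ∃ C : ℝ, 0 < C ∧ ∀ (s : Fin d → ℕ) (m : ℕ),
  (∀ j, s j ≤ m) → ∀ x : GG d m,
    ∑ y : GG d m, (dker s (gpt x - gpt y))^(2*i) ≤ C * ((2:ℝ)^(m+2))^d * (2:ℝ)^((2*i-1) * ∑ j, s j)

/-- HEXA: mean zero and translation invariance on fine grids -/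
def S_HEXA : Prop := ∀ (d : ℕ), 1 ≤ d → ∀ (s : Fin d → ℕ) (m i : ℕ), (∀ j, s j ≤ m) → 1 ≤ ∑ j, s j →
  i ≤ 2 → (∀ x : Fin d → ℝ, ∑ y : GG d m, dker s (x - gpt y) = 0) ∧
  ∀ x x' : Fin d → ℝ, ∑ y : GG d m, (dker s (x - gpt y))^(2*i) = ∑ y : GG d m, (dker s (x' - gpt y))^(2*i)

/-- HPHI: fourth moment of the random functions, one block -/
def S_HPHI : Prop := ∀ (d : ℕ), 1 ≤ d → ∃ C : ℝ, 0 < C ∧ ∀ (s : Fin d → ℕ) (m M : ℕ),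
  (∀ j, s j ≤ m) → 1 ≤ ∑ j, s j → 2^(∑ j, s j) ≤ M → ∀ x : Fin d → ℝ,
    ∑ X : Fin M → GG d m, (∑ i, dker s (x - gpt (X i)))^4 ≤
      C * (Fintype.card (GG d m) : ℝ)^M * ((M:ℝ) * 2^(∑ j, s j))^2

/-- ENTJ: entropy of an ellipsoid of trigonometric polynomials in the sup norm, uniform constant -/
def S_ENTJ : Prop := ∀ d : ℕ, ∃ C : ℝ, 0 < C ∧ ∀ (N : ℕ) (Λ : Finset (Fin d → ℤ)) (w : (Fin d → ℤ) → ℝ) (k : ℕ),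
  2 ≤ k → (∀ l ∈ Λ, ∀ j, |l j| < (2:ℤ)^N) →
  ∃ S : Finset (Λ × Fin 2 → ℝ), S.card ≤ 2^k ∧ ∀ a : Λ × Fin 2 → ℝ, ∑ i, a i ^ 2 ≤ 1 →
    ∃ s ∈ S, ∀ x, ‖gp Λ (fun i => w i.1.1 * a i - s i) x‖ ≤
      C * Real.sqrt (((N:ℝ)+1) * (∑ l ∈ Λ, (w l)^2) / k)

/-- finite families of functions, far apart, equal to `B * (H^r_∞ function) + (element of a small ellipsoid)` -/
def FamH (d : ℕ) (r K Δ B R : ℝ) (N : ℕ) : Prop :=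
  ∃ (ι : Type) (_ : Fintype ι) (h : ι → (Fin d → ℝ) → ℂ) (Λ : Finset (Fin d → ℤ)) (w : (Fin d → ℤ) → ℝ),
    K ≤ Fintype.card ι ∧ (∀ i, Continuous (h i)) ∧
    (∀ i (x : Fin d → ℝ) (l : Fin d), h i (Function.update x l (x l + 2 * π)) = h i x) ∧
    (∀ l ∈ Λ, ∀ j, |l j| < (2:ℤ)^N) ∧ ∑ l ∈ Λ, (w l)^2 ≤ R^2 ∧
    (∀ i, ∃ f1 ∈ HypVolE.HH d r ⊤, ∃ a : Λ × Fin 2 → ℝ, ∑ j, a j ^ 2 ≤ 1 ∧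
      h i =ᵐ[TP d] fun x => (B : ℂ) * f1 x + gp Λ (fun j => w j.1.1 * a j) x) ∧
    (∀ i i', i ≠ i' → ∃ x, Δ ≤ ‖h i x - h i' x‖)

/-- PIGH: pigeonhole -/
def S_PIGH : Prop := ∀ (d : ℕ) (r K Δ B R ε ε2 : ℝ) (N k1 k2 : ℕ), 1 ≤ d → 0 < B → 0 < ε → 0 < ε2 →
  FamH d r K Δ B R N →
  (∀ (Λ : Finset (Fin d → ℤ)) (w : (Fin d → ℤ) → ℝ), (∀ l ∈ Λ, ∀ j, |l j| < (2:ℤ)^N) →
    ∑ l ∈ Λ, (w l)^2 ≤ R^2 → ∃ S : Finset (Λ × Fin 2 → ℝ), S.card ≤ 2^k1 ∧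
      ∀ a : Λ × Fin 2 → ℝ, ∑ i, a i ^ 2 ≤ 1 →
      ∃ s ∈ S, ∀ x, ‖gp Λ (fun i => w i.1.1 * a i - s i) x‖ ≤ ε) →
  Cov ⊤ k2 (ENNReal.ofReal ε2) (HypVolE.HH d r ⊤) →
  (2:ℝ)^k1 * 2^k2 < K →
  Δ ≤ 2 * B * ε2 + 2 * ε

/-- FAMHA -/
def S_FAMHA : Prop := ∀ (d : ℕ), 3 ≤ d → ∀ (r : ℝ), 0 < r → ∃ (c C : ℝ) (μ0 : ℕ), 0 < c ∧ 0 < C ∧
  ∀ μ : ℕ, μ0 ≤ μ → ∀ B : ℝ, 1 ≤ B →
    FamH d r (Real.exp (c * μ * 2^μ)) (c * (2:ℝ)^(-(r * μ)) * ((μ:ℝ)+1)^(d-1)) B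
      (C / B * (2:ℝ)^(-(r * μ)) * Real.sqrt (2^μ) * ((μ:ℝ)+1)^(d-1)) (μ + 3)

/-- FAMHB -/
def S_FAMHB : Prop := ∀ (d : ℕ), 3 ≤ d → ∃ (c C : ℝ) (n0 : ℕ), 0 < c ∧ 0 < C ∧
  ∀ n : ℕ, n0 ≤ n → ∀ B : ℝ, 1 ≤ B →
    FamH d (1/2) (Real.exp (c * 2^n * (n:ℝ)^(d-1))) (c * Nat.log 2 n * (n:ℝ)^((d:ℝ)/2) * (2:ℝ)^(-((n:ℝ)/2))) B
      (C / B * Nat.log 2 n * (n:ℝ)^(d-1)) (2 * n + 3)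

/-- LOWHA0 -/
def S_LOWHA0 : Prop := ∀ (d : ℕ), 3 ≤ d → ∀ (r : ℝ), 0 < r → ∃ (c : ℝ) (μ0 : ℕ), 0 < c ∧ ∀ μ : ℕ, μ0 ≤ μ →
  ∀ k : ℕ, (k:ℝ) ≤ c * μ * 2^μ →
    ENNReal.ofReal (c * (2:ℝ)^(-(r * μ)) * ((μ:ℝ)+1)^(d-1)) ≤ entNum ⊤ k (HypVolE.HH d r ⊤)

/-- LOWHB0 -/
def S_LOWHB0 : Prop := ∀ (d : ℕ), 3 ≤ d → ∃ (c : ℝ) (n0 : ℕ), 0 < c ∧ ∀ n : ℕ, n0 ≤ n →
  ∀ k : ℕ, (k:ℝ) ≤ c * 2^n * (n:ℝ)^(d-1) →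
    ENNReal.ofReal (c * Nat.log 2 n * (n:ℝ)^((d:ℝ)/2) * (2:ℝ)^(-((n:ℝ)/2))) ≤ entNum ⊤ k (HypVolE.HH d (1/2) ⊤)

/-- NUMLHA -/
def S_NUMLHA : Prop := ∀ (d : ℕ), 3 ≤ d → ∀ (r : ℝ), 0 < r → ∀ (c : ℝ) (μ0 : ℕ), 0 < c →
  ∃ c' : ℝ, 0 < c' ∧ ∀ k : ℕ, 2 ≤ k → ∃ μ : ℕ, μ0 ≤ μ ∧ (k:ℝ) ≤ c * μ * 2^μ ∧
    c' * psiHA d r k ≤ c * (2:ℝ)^(-(r * μ)) * ((μ:ℝ)+1)^(d-1)

/-- NUMLHB -/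
def S_NUMLHB : Prop := ∀ (d : ℕ), 3 ≤ d → ∀ (c : ℝ) (n0 : ℕ), 0 < c →
  ∃ c' : ℝ, 0 < c' ∧ ∀ k : ℕ, 2 ≤ k → ∃ n : ℕ, n0 ≤ n ∧ (k:ℝ) ≤ c * 2^n * (n:ℝ)^(d-1) ∧
    c' * psiHB d k ≤ c * Nat.log 2 n * (n:ℝ)^((d:ℝ)/2) * (2:ℝ)^(-((n:ℝ)/2))

/-! ## upper bounds, `q > 2` -/

/-- JACK: smooth blocks of the functions of the class `H^r_q`, any `q ≥ 1` -/
def S_JACK : Prop := ∀ (d : ℕ) (r : ℝ) (q : ℝ≥0∞), 0 < r → 1 ≤ q → ∃ C : ℝ, 0 < C ∧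
  ∀ f ∈ HypVolE.HH d r q, ∀ s : Fin d → ℕ,
    eLpNorm (op 0 0 s f) q (TP d) ≤ ENNReal.ofReal (C * (2:ℝ)^(-(r * ∑ j, (s j : ℝ))))

/-- SYNH: synthesis of bounded wide blocks -/
def S_SYNH : Prop := ∀ (d : ℕ), 1 ≤ d → ∃ C : ℝ, 0 < C ∧
  ∀ (ψ : (Fin d → ℕ) → (Fin d → ℝ) → ℂ) (τ : ℕ → ℝ), (∀ μ, 0 ≤ τ μ) →
    (∀ s, AEStronglyMeasurable (ψ s) (TP d)) → (∀ s, ∀ᵐ x ∂(TP d), ‖ψ s x‖ ≤ τ (∑ j, s j)) →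
    Summable (fun μ : ℕ => ((μ:ℝ)+1)^(d-1) * τ μ) →
    ∃ u : (Fin d → ℝ) → ℂ, MemLp u ⊤ (TP d) ∧
      (∀ x, ‖u x‖ ≤ C * ∑' μ : ℕ, ((μ:ℝ)+1)^(d-1) * τ μ) ∧
      ∀ k : Fin d → ℤ, fc u k =
        ∑ s ∈ Fintype.piFinset (fun j => Finset.range (Nat.size (k j).natAbs + 2)),
          (wbl 0 s ∅ k : ℂ) * fc (ψ s) k

/-- HSPLIT -/
def S_HSPLIT : Prop := ∀ (d : ℕ), 1 ≤ d → ∀ (q r : ℝ), 2 < q → 1/q < r →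
  ∃ C : ℝ, 0 < C ∧ ∀ f ∈ HypVolE.HH d r (ENNReal.ofReal q), ∀ μs : ℕ,
    ∃ (A : ∀ n : ℕ, (layer d n) × Fin 2 → ℝ) (g : (Fin d → ℝ) → ℂ),
      (∀ n, ∑ i, A n i ^ 2 ≤ (C * (2:ℝ)^(-(r * n)) * ((n:ℝ)+1)^(((d:ℝ)-1)/2) *
        (2:ℝ)^(-((1/2 - 1/q) * ((n - μs : ℕ) : ℝ))))^2) ∧
      (∀ x, HasSum (fun n => poly (A n) x) (g x)) ∧
      ∀ᵐ x ∂(TP d), ‖f x - g x‖ ≤ C * ((μs:ℝ)+1)^(d-1) * (2:ℝ)^(-(r * μs))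

/-- NUMUHA -/
def S_NUMUHA : Prop := ∀ (d : ℕ), 3 ≤ d → ∀ (q r : ℝ), 2 < q → 1/q < r → r < 1/2 → ∃ C : ℝ, 0 < C ∧
  ∀ m : ℕ, 2 ≤ m → ∃ (n0 n1 μs : ℕ) (M : ℕ → ℕ), n0 ≤ n1 ∧ (∀ n, 1 ≤ M n) ∧
    (∑ n ∈ Finset.range n0, 2 * (layer d n).card) + ∑ n ∈ Finset.Ico n0 n1, M n ≤ m ∧
    Summable (fun n : ℕ => (2:ℝ)^(-(r * n)) * ((n:ℝ)+1)^(((d:ℝ)-1)/2) *
      (2:ℝ)^(-((1/2 - 1/q) * ((n - μs : ℕ) : ℝ))) * Real.sqrt (layer d n).card) ∧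
    (∑ n ∈ Finset.Ico n0 n1, (2:ℝ)^(-(r * n)) * ((n:ℝ)+1)^(((d:ℝ)-1)/2) *
        (2:ℝ)^(-((1/2 - 1/q) * ((n - μs : ℕ) : ℝ))) *
        Real.sqrt (((n:ℝ)+1) * (layer d n).card / M n)) +
      ∑' n : ℕ, (2:ℝ)^(-(r * ((n + n1 : ℕ) : ℝ))) * (((n + n1 : ℕ):ℝ)+1)^(((d:ℝ)-1)/2) *
        (2:ℝ)^(-((1/2 - 1/q) * ((n + n1 - μs : ℕ) : ℝ))) * Real.sqrt (layer d (n + n1)).card +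
      ((μs:ℝ)+1)^(d-1) * (2:ℝ)^(-(r * μs)) ≤ C * psiHA d r m

/-- NUMUHB -/
def S_NUMUHB : Prop := ∀ (d : ℕ), 3 ≤ d → ∀ (q : ℝ), 2 < q → ∃ C : ℝ, 0 < C ∧
  ∀ m : ℕ, 2 ≤ m → ∃ (n0 n1 μs Ms : ℕ) (M : ℕ → ℕ), n0 ≤ μs ∧ μs ≤ n1 ∧ 1 ≤ Ms ∧ (∀ n, 1 ≤ M n) ∧
    (∑ n ∈ Finset.range n0, 2 * (layer d n).card) + Ms + ∑ n ∈ Finset.Ico μs n1, M n ≤ m ∧
    Summable (fun n : ℕ => (2:ℝ)^(-((1/2:ℝ) * n)) * ((n:ℝ)+1)^(((d:ℝ)-1)/2) *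
      (2:ℝ)^(-((1/2 - 1/q) * ((n - μs : ℕ) : ℝ))) * Real.sqrt (layer d n).card) ∧
    Real.sqrt ((μs - n0 : ℕ) : ℝ) *
      Real.sqrt (((μs:ℝ)+1) * (∑ n ∈ Finset.Ico n0 μs, (2:ℝ)^(-(n:ℝ)) * ((n:ℝ)+1)^(d-1) * (layer d n).card) / Ms) +
    (∑ n ∈ Finset.Ico μs n1, (2:ℝ)^(-((1/2:ℝ) * n)) * ((n:ℝ)+1)^(((d:ℝ)-1)/2) *
        (2:ℝ)^(-((1/2 - 1/q) * ((n - μs : ℕ) : ℝ))) *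
        Real.sqrt (((n:ℝ)+1) * (layer d n).card / M n)) +
      ∑' n : ℕ, (2:ℝ)^(-((1/2:ℝ) * ((n + n1 : ℕ) : ℝ))) * (((n + n1 : ℕ):ℝ)+1)^(((d:ℝ)-1)/2) *
        (2:ℝ)^(-((1/2 - 1/q) * ((n + n1 - μs : ℕ) : ℝ))) * Real.sqrt (layer d (n + n1)).card +
      ((μs:ℝ)+1)^(d-1) * (2:ℝ)^(-((1/2:ℝ) * μs)) ≤ C * psiHB d m

/-- UPHA -/
def S_UPHA : Prop := ∀ (d : ℕ), 3 ≤ d → ∀ (q r : ℝ), 2 < q → 1/q < r → r < 1/2 → ∃ C : ℝ, 0 < C ∧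
  ∀ m : ℕ, 2 ≤ m → kolW2 m (HypVolE.HH d r (ENNReal.ofReal q)) ≤ ENNReal.ofReal (C * psiHA d r m)

/-- UPHB -/
def S_UPHB : Prop := ∀ (d : ℕ), 3 ≤ d → ∀ (q : ℝ), 2 < q → ∃ C : ℝ, 0 < C ∧
  ∀ m : ℕ, 2 ≤ m → kolW2 m (HypVolE.HH d (1/2) (ENNReal.ofReal q)) ≤ ENNReal.ofReal (C * psiHB d m)

/-- BDDH -/
def S_BDDH : Prop := ∀ (d : ℕ), 1 ≤ d → ∀ (q r : ℝ), 2 < q → 1/q < r → ∃ B : ℝ, 0 < B ∧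
  ∀ f ∈ HypVolE.HH d r (ENNReal.ofReal q), MemLp f ⊤ (TP d) ∧ eLpNorm f ⊤ (TP d) ≤ ENNReal.ofReal B

/-- ADMH -/
def S_ADMH : Prop := (∀ (d : ℕ) (r : ℝ), 1 ≤ d → 0 < r → r ≤ 1 → Adm (psiHA d r)) ∧
  (∀ d : ℕ, 1 ≤ d → Adm (psiHB d))

/-- FINALH: exact order of the entropy numbers of `H^r_q`, small smoothness -/
def S_FINALH : Prop := ∀ (d : ℕ), 3 ≤ d → ∀ (q : ℝ≥0∞), 2 < q →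
  (∀ r : ℝ, 1 / q < ENNReal.ofReal r → 0 < r → r < 1/2 → ∃ c C : ℝ, 0 < c ∧ 0 < C ∧ ∀ k : ℕ, 2 ≤ k →
    ENNReal.ofReal (c * psiHA d r k) ≤ entNum ⊤ k (HypVolE.HH d r q) ∧
    entNum ⊤ k (HypVolE.HH d r q) ≤ ENNReal.ofReal (C * psiHA d r k)) ∧
  (∃ c C : ℝ, 0 < c ∧ 0 < C ∧ ∀ k : ℕ, 2 ≤ k →
    ENNReal.ofReal (c * psiHB d k) ≤ entNum ⊤ k (HypVolE.HH d (1/2) q) ∧
    entNum ⊤ k (HypVolE.HH d (1/2) q) ≤ ENNReal.ofReal (C * psiHB d k))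

end SmSm
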