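import Pool.Agent.H636R2.SM.SpecP
open MeasureTheory Real ProbabilityTheory
open scoped ENNReal BigOperators

/-!
Entropy numbers of `W^r_1` in `L_q`, `1 ≤ q < 2`, small smoothness `1 - 1/q < r ≤ 1/2` (MP_cd65c1_an).
-/

namespace SmSm
open HypVol MWidth

/-- sum of the smooth blocks of the levels in `J` -/
noncomputable def lop {d : ℕ} (J : Finset ℕ) (r : ℝ) (α : Fin d → ℝ) (φ : (Fin d → ℝ) → ℂ)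
    (x : Fin d → ℝ) : ℂ := ∑ μ ∈ J, ∑ s ∈ lev d μ, op r α s φ x

/-! ## upper bounds -/

/-- DISC: replacing a function of `L_1` by a discrete measure on a grid -/
def S_DISC : Prop := ∀ (d N : ℕ), 1 ≤ N → ∀ φ : (Fin d → ℝ) → ℂ, MemLp φ 1 (TP d) → eLpNorm φ 1 (TP d) ≤ 1 →
  ∃ b : GG d N → ℂ, ∑ y, ‖b y‖ ≤ 3^d ∧
    ∀ k : Fin d → ℤ, (∀ j, |k j| < (2:ℤ)^N) → fc φ k = ∑ y, b y * chi (-k) (gpt y)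

/-- MAUR: Maurey's lemma -/
def S_MAUR : Prop := ∀ (Y ι : Type) [Fintype Y] [Nonempty Y] [Fintype ι] (v : Y → ι → ℂ) (R : ℝ) (b : Y → ℂ) (M : ℕ),
  1 ≤ M → (∀ y, ∑ i, ‖v y i‖^2 ≤ R^2) → ∑ y, ‖b y‖ ≤ 1 →
  ∃ (y : Fin M → Y) (c : Fin M → ℂ), (∀ m, c m = 0 ∨ c m = 1 ∨ c m = -1 ∨ c m = Complex.I ∨ c m = -Complex.I) ∧
    ∑ i, ‖(∑ z, b z * v z i) - (2 / (M:ℂ)) * ∑ m, c m * v (y m) i‖^2 ≤ 4 * R^2 / M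

/-- NET1: nets for the levels in `J` -/
def S_NET1 : Prop := ∀ (d : ℕ), 1 ≤ d → ∀ (r : ℝ), 0 < r → ∀ (α : Fin d → ℝ), ∃ C : ℝ, 0 < C ∧
  ∀ (J : Finset ℕ) (N M : ℕ), 1 ≤ N → 1 ≤ M → (∀ μ ∈ J, μ + 1 ≤ N) →
  ∃ S : Finset ((Fin d → ℝ) → ℂ), (S.card : ℝ) ≤ Real.exp (C * N * M) ∧
    (∀ g ∈ S, Continuous g ∧ eLpNorm g 1 (TP d) ≤
      ENNReal.ofReal (C * ∑ μ ∈ J, ((μ:ℝ)+1)^(d-1) * (2:ℝ)^(-(r * μ)))) ∧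
    ∀ φ : (Fin d → ℝ) → ℂ, MemLp φ 1 (TP d) → eLpNorm φ 1 (TP d) ≤ 1 → ∃ g ∈ S,
      eLpNorm (fun x => lop J r α φ x - g x) 2 (TP d) ≤
        ENNReal.ofReal (C * Real.sqrt ((∑ μ ∈ J, (2:ℝ)^(-(2 * r * μ)) * 2^μ * ((μ:ℝ)+1)^(d-1)) / M))

/-- INTQ: logarithmic convexity of the norms -/
def S_INTQ : Prop := ∀ (d : ℕ) (q : ℝ), 1 ≤ q → q ≤ 2 → ∀ u : (Fin d → ℝ) → ℂ, AEStronglyMeasurable u (TP d) →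
  eLpNorm u (ENNReal.ofReal q) (TP d) ≤ (eLpNorm u 1 (TP d))^(2/q - 1) * (eLpNorm u 2 (TP d))^(2 - 2/q)

/-- BLQ: smooth blocks, from `L_1` to `L_q` -/
def S_BLQ : Prop := ∀ (d : ℕ) (r : ℝ) (α : Fin d → ℝ) (q : ℝ), 0 ≤ r → 1 ≤ q → q ≤ 2 → ∃ C : ℝ, 0 < C ∧
  ∀ (s : Fin d → ℕ) (φ : (Fin d → ℝ) → ℂ), MemLp φ 1 (TP d) → eLpNorm φ 1 (TP d) ≤ 1 →
    eLpNorm (op r α s φ) (ENNReal.ofReal q) (TP d) ≤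
      ENNReal.ofReal (C * (2:ℝ)^(-((r - 1 + 1/q) * ∑ j, (s j : ℝ))))

/-- DEC1: decomposition of the functions of the class -/
def S_DEC1 : Prop := ∀ (d : ℕ), 1 ≤ d → ∀ (r : ℝ) (α : Fin d → ℝ) (q : ℝ), 0 < r → 1 ≤ q → q ≤ 2 → 1 - 1/q < r →
  ∃ C : ℝ, 0 < C ∧ ∀ f φ : (Fin d → ℝ) → ℂ, MemLp f 1 (TP d) → MemLp φ 1 (TP d) → eLpNorm φ 1 (TP d) ≤ 1 →
    (∀ k : Fin d → ℤ, fc f k = Fh r α k * fc φ k) → ∀ n1 : ℕ,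
    eLpNorm (fun x => f x - lop (Finset.range n1) r α φ x) (ENNReal.ofReal q) (TP d) ≤
      ENNReal.ofReal (C * ∑' n : ℕ, (((n + n1 : ℕ) : ℝ)+1)^(d-1) *
        (2:ℝ)^(-((r - 1 + 1/q) * ((n + n1 : ℕ) : ℝ))))

/-- LOWN: nets for the low levels -/
def S_LOWN : Prop := ∀ (d : ℕ), 1 ≤ d → ∀ (r : ℝ), 0 < r → ∀ (α : Fin d → ℝ), ∃ C : ℝ, 0 < C ∧ ∀ n0 : ℕ,
  ∃ S : Finset ((Fin d → ℝ) → ℂ), (S.card : ℝ) ≤ Real.exp (C * (2^n0 * ((n0:ℝ)+1)^d)) ∧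
    (∀ g ∈ S, Continuous g) ∧
    ∀ φ : (Fin d → ℝ) → ℂ, MemLp φ 1 (TP d) → eLpNorm φ 1 (TP d) ≤ 1 → ∃ g ∈ S,
      eLpNorm (fun x => lop (Finset.range n0) r α φ x - g x) 2 (TP d) ≤ ENNReal.ofReal ((2:ℝ)^(-(n0:ℝ)))

/-- the scheme with `k` bits and error `ε` (up to constants) -/
def SchQ (d : ℕ) (q r C0 : ℝ) (k : ℕ) (ε : ℝ) : Prop :=
  ∃ (n0 μs n1 Ms : ℕ) (M : ℕ → ℕ), n0 ≤ μs ∧ μs ≤ n1 ∧ 1 ≤ Ms ∧ (∀ n, 1 ≤ M n) ∧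
    C0 * (2^n0 * ((n0:ℝ)+1)^d) + C0 * ((μs:ℝ)+1) * Ms + ∑ n ∈ Finset.Ico μs n1, C0 * ((n:ℝ)+1) * M n
      ≤ k * Real.log 2 ∧
    (2:ℝ)^(-(n0:ℝ)) +
      Real.sqrt ((∑ n ∈ Finset.Ico n0 μs, (2:ℝ)^(-(2 * r * n)) * 2^n * ((n:ℝ)+1)^(d-1)) / Ms) +
      (∑ n ∈ Finset.Ico μs n1, (((n:ℝ)+1)^(d-1) * (2:ℝ)^(-(r * n)))^(2/q - 1) *
        (Real.sqrt ((2:ℝ)^(-(2 * r * n)) * 2^n * ((n:ℝ)+1)^(d-1) / M n))^(2 - 2/q)) +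
      (∑' n : ℕ, (((n + n1 : ℕ) : ℝ)+1)^(d-1) * (2:ℝ)^(-((r - 1 + 1/q) * ((n + n1 : ℕ) : ℝ)))) ≤ ε

/-- NQA: numerics, `r < 1/2` -/
def S_NQA : Prop := ∀ (d : ℕ), 2 ≤ d → ∀ (q r C0 : ℝ), 1 ≤ q → q < 2 → 1 - 1/q < r → 0 < r → r < 1/2 → 0 < C0 →
  ∃ (k0 : ℕ) (C : ℝ), 2 ≤ k0 ∧ 0 < C ∧ ∀ k : ℕ, k0 ≤ k → SchQ d q r C0 k (C * psiA d r k)

/-- NQB: numerics, `r = 1/2` -/
def S_NQB : Prop := ∀ (d : ℕ), 2 ≤ d → ∀ (q C0 : ℝ), 1 ≤ q → q < 2 → 0 < C0 →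
  ∃ (k0 : ℕ) (C : ℝ), 2 ≤ k0 ∧ 0 < C ∧ ∀ k : ℕ, k0 ≤ k → SchQ d q (1/2) C0 k (C * psiB d k)

/-- UPQ: the scheme gives nets of the class -/
def S_UPQ : Prop := ∀ (d : ℕ), 1 ≤ d → ∀ (q r : ℝ), 1 ≤ q → q < 2 → 1 - 1/q < r → 0 < r →
  ∀ (α : Fin d → ℝ), ∃ C0 : ℝ, 0 < C0 ∧
    (∀ (k : ℕ) (ε : ℝ), 0 < ε → SchQ d q r C0 k ε →
      Cov (ENNReal.ofReal q) k (ENNReal.ofReal (C0 * ε)) (WF d r 1 α)) ∧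
    (∀ k : ℕ, Cov (ENNReal.ofReal q) k (ENNReal.ofReal C0) (WF d r 1 α))

/-- UPQA -/
def S_UPQA : Prop := ∀ (d : ℕ), 2 ≤ d → ∀ (q r : ℝ), 1 ≤ q → q < 2 → 1 - 1/q < r → 0 < r → r < 1/2 →
  ∀ (α : Fin d → ℝ), ∃ C : ℝ, 0 < C ∧ ∀ k : ℕ, 2 ≤ k →
    Cov (ENNReal.ofReal q) k (ENNReal.ofReal (C * psiA d r k)) (WF d r 1 α)

/-- UPQB -/
def S_UPQB : Prop := ∀ (d : ℕ), 2 ≤ d → ∀ (q : ℝ), 1 ≤ q → q < 2 →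
  ∀ (α : Fin d → ℝ), ∃ C : ℝ, 0 < C ∧ ∀ k : ℕ, 2 ≤ k →
    Cov (ENNReal.ofReal q) k (ENNReal.ofReal (C * psiB d k)) (WF d (1/2) 1 α)

/-! ## lower bounds -/

/-- SEP2: many configurations whose kernel sums are far apart in energy -/
def S_SEP2 : Prop := ∀ (G : Type) [Fintype G] [DecidableEq G] [Nonempty G] (K : G → G → ℝ) (κ θ : ℝ) (M : ℕ)
  (good : Finset (Fin M → G)), 1 ≤ M → 0 < κ → 0 < θ → 200 ≤ θ * κ → θ * κ ≤ 16 * M → (∀ x, K x x = κ) →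
  (∀ x y, K x y = K y x) → (∀ x, ∑ y, K x y = 0) →
  (∀ x, ∑ y, Real.exp (θ * K x y) ≤ (Fintype.card G) * Real.exp (θ * κ / (16 * M))) →
  (∀ x, ∑ y, Real.exp (-θ * K x y) ≤ (Fintype.card G) * Real.exp (θ * κ / (16 * M))) →
  (9/10 : ℝ) * (Fintype.card G : ℝ)^M ≤ good.card →
  ∃ F : Finset (Fin M → G), F ⊆ good ∧ Real.exp (θ * κ * M / 100) ≤ F.card ∧
    ∀ X ∈ F, ∀ X' ∈ F, X ≠ X' → M * κ / 4 ≤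
      ∑ i, ∑ i', (K (X i) (X i') + K (X' i) (X' i') - 2 * K (X i) (X' i'))

/-- finite families in the class `W^r_1`, with test functions with a bounded moment -/
def Fam1 (d : ℕ) (r : ℝ) (α : Fin d → ℝ) (j : ℕ) (K ν Δ : ℝ) : Prop :=
  ∃ (ι : Type) (_ : Fintype ι) (h φ g : ι → (Fin d → ℝ) → ℝ), K ≤ Fintype.card ι ∧
    (∀ i, Integrable (h i) (TP d)) ∧ (∀ i, Continuous (φ i)) ∧ (∀ i, Continuous (g i)) ∧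
    (∀ i, ∫ x, |φ i x| ∂(TP d) ≤ 1) ∧
    (∀ i, ∫ x, (g i x)^(2*j) ∂(TP d) ≤ ν^(2*j)) ∧
    (∀ i k, fc (fun x => (h i x : ℂ)) k = Fh r α k * fc (fun x => (φ i x : ℂ)) k) ∧
    (∀ i i', i ≠ i' → Δ ≤ ∫ x, (h i x - h i' x) * (g i x - g i' x) ∂(TP d))

/-- FAM1A -/
def S_FAM1A : Prop := ∀ (d : ℕ), 3 ≤ d → ∀ (r : ℝ), 0 < r → ∀ (α : Fin d → ℝ) (j : ℕ), 1 ≤ j →
  ∃ (c C : ℝ) (μ0 : ℕ), 0 < c ∧ 0 < C ∧ ∀ μ : ℕ, μ0 ≤ μ →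
    Fam1 d r α j (Real.exp (c * 2^μ / ((μ:ℝ)+1)^(d-2))) C (c * (2:ℝ)^(-(r * μ)) * ((μ:ℝ)+1)^(d-1))

/-- FAM1B -/
def S_FAM1B : Prop := ∀ (d : ℕ), 3 ≤ d → ∀ (α : Fin d → ℝ) (j : ℕ), 1 ≤ j →
  ∃ (c C : ℝ) (n0 : ℕ), 0 < c ∧ 0 < C ∧ ∀ n : ℕ, n0 ≤ n →
    Fam1 d (1/2) α j (Real.exp (c * 2^n * (n:ℝ)^(d-1))) C (c * Real.sqrt ((n:ℝ) * Nat.log 2 n / 2^n))

/-- PIG1: truncation and pigeonhole -/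
def S_PIG1 : Prop := ∀ (d : ℕ), 1 ≤ d → ∀ (r : ℝ), 0 < r → ∀ (α : Fin d → ℝ) (q : ℝ) (j : ℕ), 1 < q →
  q / (q - 1) ≤ j → ∀ (K ν Δ b ε1 ε2 : ℝ) (k1 k2 : ℕ), 0 < ν → 1 ≤ b → 0 < ε1 → 0 < ε2 →
  Fam1 d r α j K ν Δ →
  Cov (ENNReal.ofReal q) k1 (ENNReal.ofReal ε1) (WF d r 1 α) →
  Cov 1 k2 (ENNReal.ofReal ε2) (WF d r 1 α) →
  (2:ℝ)^k1 * 2^k2 < K →
  Δ ≤ 4 * b * ν * ε2 + 4 * (ν / b) * ε1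

/-- LOWQA0 -/
def S_LOWQA0 : Prop := ∀ (d : ℕ), 3 ≤ d → ∀ (r : ℝ), 0 < r → r < 1/2 → ∀ (α : Fin d → ℝ),
  ∃ (c : ℝ) (μ0 : ℕ), 0 < c ∧ ∀ μ : ℕ, μ0 ≤ μ → ∀ (k : ℕ) (ε : ℝ),
    (k:ℝ) ≤ c * 2^μ / ((μ:ℝ)+1)^(d-2) → 0 < ε → Cov 1 k (ENNReal.ofReal ε) (WF d r 1 α) →
    c * (2:ℝ)^(-(r * μ)) * ((μ:ℝ)+1)^(d-1) ≤ ε

/-- LOWQB0 -/
def S_LOWQB0 : Prop := ∀ (d : ℕ), 3 ≤ d → ∀ (α : Fin d → ℝ),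
  ∃ (c : ℝ) (n0 : ℕ), 0 < c ∧ ∀ n : ℕ, n0 ≤ n → ∀ (k : ℕ) (ε : ℝ),
    (k:ℝ) ≤ c * 2^n * (n:ℝ)^(d-1) → 0 < ε → Cov 1 k (ENNReal.ofReal ε) (WF d (1/2) 1 α) →
    c * Real.sqrt ((n:ℝ) * Nat.log 2 n / 2^n) ≤ ε

/-- FINQ: exact order of the entropy numbers of `W^r_1` in `L_q`, `1 ≤ q < 2`, small smoothness -/
def S_FINQ : Prop := ∀ (𝕜 : Type) [RCLike 𝕜] (d : ℕ), 3 ≤ d → ∀ (α : Fin d → ℝ) (q : ℝ≥0∞), 1 ≤ q → q < 2 →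
  (∀ r : ℝ, 1 - (q⁻¹).toReal < r → 0 < r → r < 1/2 →
    SameOrd (fun k => entNum q k (ML 𝕜 d r 1 α)) (psiA d r)) ∧
  SameOrd (fun k => entNum q k (ML 𝕜 d (1/2) 1 α)) (psiB d)

end SmSm
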